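import Mathlib

namespace Pool.Agent.H27.Shearer

open Classical Finset
open scoped Pointwise

universe u v

noncomputable def proj {ι α : Type*} (a0 : α) (C : Finset ι) (x : ι → α) : ι → α :=
  fun i => if i ∈ C then x i else a0

lemma amgm_step {J T : Type*} (J1 : Finset J) (k : ℕ) (hk : 0 < k) (hJ : J1.card = k)
    (T0 : Finset T) (s : T → ℝ) (a : J → T → ℝ) (A : J → ℝ) (P : ℝ) (hP : 0 < P)
    (hs : ∀ t ∈ T0, 0 ≤ s t) (ha : ∀ j ∈ J1, ∀ t ∈ T0, 0 ≤ a j t) (hA : ∀ j ∈ J1, 0 < A j)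
    (hsum : ∀ j ∈ J1, ∑ t ∈ T0, a j t ≤ A j)
    (hle : ∀ t ∈ T0, s t ^ k ≤ P * ∏ j ∈ J1, a j t) :
    (∑ t ∈ T0, s t) ^ k ≤ P * ∏ j ∈ J1, A j := by
  have hk' : (0 : ℝ) < k := by exact_mod_cast hk
  set Q := P * ∏ j ∈ J1, A j with hQ
  have hAp : 0 < ∏ j ∈ J1, A j := Finset.prod_pos hA
  have hQp : 0 < Q := mul_pos hP hAp
  set q := Q ^ ((k : ℝ)⁻¹) with hq
  have hqp : 0 < q := Real.rpow_pos_of_pos hQp _
  have hqk : q ^ k = Q := Real.rpow_inv_natCast_pow hQp.le hk.ne'
  have h1 : ∀ t ∈ T0, s t / q ≤ ∑ j ∈ J1, (k : ℝ)⁻¹ * (a j t / A j) := by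
    intro t ht
    have hz : ∀ j ∈ J1, 0 ≤ a j t / A j := fun j hj => div_nonneg (ha j hj t ht) (hA j hj).le
    have g := Real.geom_mean_le_arith_mean_weighted J1 (fun _ => (k : ℝ)⁻¹)
      (fun j => a j t / A j) (fun _ _ => by positivity)
      (by rw [Finset.sum_const, hJ, nsmul_eq_mul, mul_inv_cancel₀ hk'.ne']) hz
    refine le_trans ?_ g
    rw [Real.finsetProd_rpow _ _ hz]
    have h2 : (s t / q) ^ k ≤ ∏ j ∈ J1, a j t / A j := by
      rw [div_pow, hqk, Finset.prod_div_distrib, div_le_div_iff₀ hQp hAp, hQ]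
      have := hle t ht
      nlinarith
    have h3 : s t / q = ((s t / q) ^ k) ^ ((k : ℝ)⁻¹) :=
      (Real.pow_rpow_inv_natCast (div_nonneg (hs t ht) hqp.le) hk.ne').symm
    rw [h3]
    exact Real.rpow_le_rpow (by have := hs t ht; positivity) h2 (by positivity)
  have h2 : (∑ t ∈ T0, s t) / q ≤ 1 := by
    rw [Finset.sum_div]
    refine le_trans (Finset.sum_le_sum h1) ?_
    rw [Finset.sum_comm]
    calc ∑ j ∈ J1, ∑ t ∈ T0, (k : ℝ)⁻¹ * (a j t / A j) ≤ ∑ j ∈ J1, (k : ℝ)⁻¹ := by
          apply Finset.sum_le_sum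
          intro j hj
          rw [← Finset.mul_sum, ← Finset.sum_div]
          have := (div_le_one (hA j hj)).2 (hsum j hj)
          have h0 : (0 : ℝ) ≤ (k : ℝ)⁻¹ := by positivity
          nlinarith
      _ = 1 := by rw [Finset.sum_const, hJ, nsmul_eq_mul, mul_inv_cancel₀ hk'.ne']
  rw [div_le_one hqp] at h2
  rw [← hqk]
  exact pow_le_pow_left₀ (Finset.sum_nonneg hs) h2 k

theorem shearer {ι α J : Type*} (a0 : α) (J0 : Finset J) (C : J → Finset ι) (k : ℕ) (hk : 0 < k)
    (F : Finset ι) (hcov : ∀ i ∈ F, k ≤ (J0.filter fun j => i ∈ C j).card) :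
    ∀ S : Finset (ι → α), (∀ x ∈ S, ∀ y ∈ S, (∀ i ∈ F, x i = y i) → x = y) →
      ((S.card : ℝ)) ^ k ≤ ∏ j ∈ J0, ((S.image (proj a0 (C j))).card : ℝ) := by
  induction F using Finset.induction_on with
  | empty =>
    intro S hS
    rcases S.eq_empty_or_nonempty with rfl | hne
    · simp only [card_empty, CharP.cast_eq_zero, zero_pow hk.ne']
      exact Finset.prod_nonneg fun _ _ => by positivity
    · have h1 : S.card ≤ 1 := Finset.card_le_one.2 fun x hx y hy => hS x hx y hy (by simp)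
      have h2 : (S.card : ℝ) ^ k ≤ 1 := pow_le_one₀ (by positivity) (by exact_mod_cast h1)
      refine le_trans h2 (Finset.one_le_prod ?_)
      intro j _
      exact_mod_cast (hne.image _).card_pos
  | insert n F hn ih =>
    intro S hS
    rcases S.eq_empty_or_nonempty with rfl | hne
    · simp only [card_empty, CharP.cast_eq_zero, zero_pow hk.ne']
      exact Finset.prod_nonneg fun _ _ => by positivity
    obtain ⟨J1, hJ1, hc⟩ := Finset.exists_subset_card_eq (hcov n (mem_insert_self _ _))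
    have hJ0 : J1 ⊆ J0 := hJ1.trans (filter_subset _ _)
    have ih' := ih fun i hi => hcov i (mem_insert_of_mem hi)
    rw [Finset.card_eq_sum_card_image (fun x => x n) S, ← Finset.prod_sdiff hJ0]
    push_cast
    apply amgm_step J1 k hk hc _ _
      (fun j t => (((S.filter fun x => x n = t).image (proj a0 (C j))).card : ℝ))
    · apply Finset.prod_pos
      intro j _
      exact_mod_cast (hne.image _).card_pos
    · intro t _; positivity
    · intro j _ t _; positivity
    · intro j _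
      exact_mod_cast (hne.image _).card_pos
    · intro j hj
      have hnj : n ∈ C j := (mem_filter.1 (hJ1 hj)).2
      rw [Finset.card_eq_sum_card_fiberwise (f := fun x => x n)
        (s := S.image (proj a0 (C j))) (t := S.image fun x => x n)]
      · push_cast
        apply Finset.sum_le_sum
        intro t _
        have : (S.filter fun x => x n = t).image (proj a0 (C j)) ⊆
            (S.image (proj a0 (C j))).filter fun x => x n = t := by
          intro y hy
          obtain ⟨x, hx, rfl⟩ := mem_image.1 hy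
          rw [mem_filter] at hx ⊢
          exact ⟨mem_image_of_mem _ hx.1, by simp [proj, hnj, hx.2]⟩
        exact_mod_cast card_le_card this
      · intro y hy
        obtain ⟨x, hx, rfl⟩ := mem_image.1 (mem_coe.1 hy)
        exact mem_coe.2 (mem_image.2 ⟨x, hx, by simp [proj, hnj]⟩)
    · intro t _
      refine le_trans (ih' (S.filter fun x => x n = t) ?_) ?_
      · intro x hx y hy h
        rw [mem_filter] at hx hy
        apply hS x hx.1 y hy.1
        intro i hi
        rcases mem_insert.1 hi with rfl | hi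
        · rw [hx.2, hy.2]
        · exact h i hi
      · rw [← Finset.prod_sdiff hJ0]
        apply mul_le_mul_of_nonneg_right
        · apply Finset.prod_le_prod
          · intro _ _; positivity
          · intro j _
            exact_mod_cast card_le_card (image_subset_image (filter_subset _ _))
        · exact Finset.prod_nonneg fun _ _ => by positivity

lemma mem_sum {ι A : Type*} [AddCommGroup A] (F : Finset ι) (X : ι → Finset A) (a : A) :
    a ∈ ∑ i ∈ F, X i ↔ ∃ x : ι → A, (∀ i ∈ F, x i ∈ X i) ∧ ∑ i ∈ F, x i = a := by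
  rw [← mem_coe, Finset.coe_sum, Set.mem_finsetSum]
  constructor
  · rintro ⟨g, h1, h2⟩; exact ⟨g, fun i hi => h1 hi, h2⟩
  · rintro ⟨g, h1, h2⟩; exact ⟨g, fun hi => h1 _ hi, h2⟩

lemma sum_nonempty {ι A : Type*} [AddCommGroup A] (F : Finset ι) (X : ι → Finset A)
    (hX : ∀ i, (X i).Nonempty) : (∑ i ∈ F, X i).Nonempty := by
  choose x hx using hX
  exact ⟨_, (mem_sum F X _).2 ⟨x, fun i _ => hx i, rfl⟩⟩

lemma card_sum_mono {ι A : Type*} [AddCommGroup A] {F F' : Finset ι} (h : F ⊆ F')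
    (X : ι → Finset A) (hX : ∀ i, (X i).Nonempty) :
    (∑ i ∈ F, X i).card ≤ (∑ i ∈ F', X i).card := by
  rw [← Finset.sum_sdiff h]
  exact Finset.card_le_card_add_left (sum_nonempty _ X hX)

lemma exists_weight (ι A : Type u) : ∃ (Γ : Type u) (_ : AddCommMonoid Γ) (_ : LinearOrder Γ)
    (_ : IsOrderedCancelAddMonoid Γ) (w : ι → A → Γ), ∀ (F : Finset ι) (x y : ι → A),
      ∑ i ∈ F, w i (x i) = ∑ i ∈ F, w i (y i) → ∀ i ∈ F, x i = y i := by
  have key : ∀ (F : Finset ι) (x y : ι → A),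
      ∑ i ∈ F, Finsupp.single (i, x i) (1 : ℕ) = ∑ i ∈ F, Finsupp.single (i, y i) 1 →
      ∀ i ∈ F, x i = y i := by
    intro F x y h1 i hi
    have h2 := congrArg (fun f : ι × A →₀ ℕ => f (i, x i)) h1
    simp only [Finsupp.finsetSum_apply, Finsupp.single_apply, Prod.mk.injEq] at h2
    rw [Finset.sum_eq_single i, Finset.sum_eq_single i] at h2
    · by_contra hne
      simp [Ne.symm hne] at h2
    · intro j _ hj; simp [hj]
    · intro h; exact absurd hi h
    · intro j _ hj; simp [hj]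
    · intro h; exact absurd hi h
  letI : LinearOrder (ι × A) := linearOrderOfSTO WellOrderingRel
  exact ⟨Lex (ι × A →₀ ℕ), inferInstance, inferInstance, inferInstance,
    fun i a => toLex (Finsupp.single (i, a) 1), key⟩

theorem shearer_sum {ι : Type u} {A : Type v} {J : Type*} [AddCommGroup A] (J0 : Finset J)
    (C : J → Finset ι) (k : ℕ)
    (hk : 0 < k) (F : Finset ι) (hcov : ∀ i ∈ F, k ≤ (J0.filter fun j => i ∈ C j).card)
    (X : ι → Finset A) (hX : ∀ i, (X i).Nonempty) :
    ((∑ i ∈ F, X i).card : ℝ) ^ k ≤ ∏ j ∈ J0, ((∑ i ∈ C j, X i).card : ℝ) := by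
  obtain ⟨Γ, _, _, _, W, hWa, hW⟩ : ∃ (Γ : Type (max u v)) (_ : AddCommMonoid Γ)
      (_ : LinearOrder Γ) (_ : IsOrderedCancelAddMonoid Γ) (W : (ι → A) → Γ),
      (∀ (D : Finset ι) x x', W (D.piecewise x x') + W (D.piecewise x' x) = W x' + W x) ∧
      ∀ x y, W x = W y → ∀ i ∈ F, x i = y i := by
    obtain ⟨Γ, _, _, _, w, hw⟩ := exists_weight (ULift.{v} ι) (ULift.{u} A)
    refine ⟨Γ, inferInstance, inferInstance, inferInstance,
      fun x => ∑ i ∈ F, w ⟨i⟩ ⟨x i⟩, ?_, ?_⟩
    · intro D x x'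
      rw [← Finset.sum_add_distrib, ← Finset.sum_add_distrib]
      apply Finset.sum_congr rfl
      intro i _
      by_cases hD : i ∈ D
      · rw [Finset.piecewise_eq_of_mem _ _ _ hD, Finset.piecewise_eq_of_mem _ _ _ hD, add_comm]
      · rw [Finset.piecewise_eq_of_notMem _ _ _ hD, Finset.piecewise_eq_of_notMem _ _ _ hD]
    · intro x y h i hi
      have := hw (F.map Equiv.ulift.symm.toEmbedding) (fun i => ⟨x i.down⟩) (fun i => ⟨y i.down⟩)
        (by rw [Finset.sum_map, Finset.sum_map]; exact h) ⟨i⟩ (Finset.mem_map_of_mem _ hi)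
      exact congrArg ULift.down this
  have hfin : {x : ι → A | (∀ i ∈ F, x i ∈ X i) ∧ ∀ i ∉ F, x i = 0}.Finite := by
    apply Set.Finite.of_injOn (f := fun x (i : F) => x i)
      (t := Set.pi Set.univ fun i : F => (X i : Set A))
    · intro x hx i _; exact hx.1 i i.2
    · intro x hx y hy h
      funext i
      by_cases hi : i ∈ F
      · exact congrFun h ⟨i, hi⟩
      · rw [hx.2 i hi, hy.2 i hi]
    · exact Set.Finite.pi fun i => (X i).finite_toSet
  obtain ⟨P, hP⟩ : ∃ P : Finset (ι → A),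
      ∀ x, x ∈ P ↔ (∀ i ∈ F, x i ∈ X i) ∧ ∀ i ∉ F, x i = 0 :=
    ⟨hfin.toFinset, fun x => hfin.mem_toFinset⟩
  let S := P.filter fun x => ∀ y ∈ P, ∑ i ∈ F, y i = ∑ i ∈ F, x i → W x ≤ W y
  have hinj : ∀ x ∈ S, ∀ y ∈ S, (∀ i ∈ F, x i = y i) → x = y := by
    intro x hx y hy h
    funext i
    by_cases hi : i ∈ F
    · exact h i hi
    · rw [((hP x).1 (mem_filter.1 hx).1).2 i hi, ((hP y).1 (mem_filter.1 hy).1).2 i hi]
  have h1 : (∑ i ∈ F, X i).card ≤ S.card := by
    apply Finset.card_le_card_of_surjOn (fun x => ∑ i ∈ F, x i)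
    intro a ha
    obtain ⟨x, hx, rfl⟩ := (mem_sum F X a).1 (mem_coe.1 ha)
    have hne : (P.filter fun y => ∑ i ∈ F, y i = ∑ i ∈ F, x i).Nonempty := by
      refine ⟨proj 0 F x, mem_filter.2 ⟨(hP _).2 ⟨?_, ?_⟩, ?_⟩⟩
      · intro i hi; simp [proj, hi, hx i hi]
      · intro i hi; simp [proj, hi]
      · exact Finset.sum_congr rfl fun i hi => by simp [proj, hi]
    obtain ⟨z, hz, hmin⟩ := Finset.exists_min_image _ W hne
    rw [mem_filter] at hz
    refine ⟨z, mem_coe.2 (mem_filter.2 ⟨hz.1, fun y hy h => hmin y ?_⟩), hz.2⟩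
    exact mem_filter.2 ⟨hy, h.trans hz.2⟩
  have h2 : ∀ D : Finset ι, (S.image (proj 0 D)).card ≤ (∑ i ∈ D, X i).card := by
    intro D
    refine le_trans ?_ (card_sum_mono (inter_subset_right (s₁ := F)) X hX)
    apply Finset.card_le_card_of_injOn (fun x => ∑ i ∈ F ∩ D, x i)
    · intro y hy
      obtain ⟨x, hx, rfl⟩ := mem_image.1 (mem_coe.1 hy)
      refine mem_coe.2 ((mem_sum _ X _).2 ⟨_, fun i hi => ?_, rfl⟩)
      rw [mem_inter] at hi
      simp [proj, hi.2, ((hP x).1 (mem_filter.1 hx).1).1 i hi.1]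
    · intro y hy y' hy' h
      obtain ⟨x, hx, rfl⟩ := mem_image.1 (mem_coe.1 hy)
      obtain ⟨x', hx', rfl⟩ := mem_image.1 (mem_coe.1 hy')
      have hs : ∑ i ∈ F ∩ D, x i = ∑ i ∈ F ∩ D, x' i := by
        have e : ∀ u : ι → A, ∑ i ∈ F ∩ D, proj 0 D u i = ∑ i ∈ F ∩ D, u i := fun u =>
          Finset.sum_congr rfl fun i hi => by simp [proj, (mem_inter.1 hi).2]
        simpa [e] using h
      rw [mem_filter] at hx hx'
      have hmem : ∀ u v : ι → A, u ∈ P → v ∈ P → D.piecewise u v ∈ P := by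
        intro u v hu hv
        rw [hP] at hu hv ⊢
        constructor
        · intro i hi
          by_cases hD : i ∈ D
          · simp [Finset.piecewise, hD, hu.1 i hi]
          · simp [Finset.piecewise, hD, hv.1 i hi]
        · intro i hi
          by_cases hD : i ∈ D
          · simp [Finset.piecewise, hD, hu.2 i hi]
          · simp [Finset.piecewise, hD, hv.2 i hi]
      have e1 : ∑ i ∈ F, D.piecewise x x' i = ∑ i ∈ F, x' i := by
        rw [Finset.sum_piecewise, hs, Finset.sum_inter_add_sum_sdiff]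
      have e2 : ∑ i ∈ F, D.piecewise x' x i = ∑ i ∈ F, x i := by
        rw [Finset.sum_piecewise, ← hs, Finset.sum_inter_add_sum_sdiff]
      have l1 := hx'.2 _ (hmem x x' hx.1 hx'.1) e1
      have l2 := hx.2 _ (hmem x' x hx'.1 hx.1) e2
      have e3 := hWa D x x'
      have e4 : W x' = W (D.piecewise x x') := by
        by_contra hne
        have := add_lt_add_of_lt_of_le (lt_of_le_of_ne l1 hne) l2
        rw [e3] at this
        exact lt_irrefl _ this
      funext i
      by_cases hD : i ∈ D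
      · by_cases hi : i ∈ F
        · have := hW _ _ e4 i hi
          simp [Finset.piecewise, hD] at this
          simp [proj, hD, this]
        · simp [proj, hD, ((hP x).1 hx.1).2 i hi, ((hP x').1 hx'.1).2 i hi]
      · simp [proj, hD]
  calc ((∑ i ∈ F, X i).card : ℝ) ^ k ≤ (S.card : ℝ) ^ k :=
        pow_le_pow_left₀ (by positivity) (by exact_mod_cast h1) k
    _ ≤ _ := shearer 0 J0 C k hk F hcov S hinj
    _ ≤ _ := by
        apply Finset.prod_le_prod
        · intro _ _; positivity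
        · intro j _; exact_mod_cast h2 (C j)

end Pool.Agent.H27.Shearer
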