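import Mathlib
import Pool.Agent.H27.Shearer

namespace Pool.Agent.H27.AlgEnt

open Classical Finset Filter Topology Pool.Agent.H27.Shearer
open scoped Pointwise ENNReal

universe u v w w'

section Defs

variable {G : Type u} [Group G] {A : Type v} [AddCommGroup A] [DistribMulAction G A]

/-- The trajectory `T_F(α, X) = ∑_{g ∈ F} g • X` (a finite sumset). -/
noncomputable def traj (F : Finset G) (X : Finset A) : Finset A :=
  ∑ g ∈ F, X.image fun x => g • x

/-- `log |T_F(α, X)| / |F|`. -/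
noncomputable def ratio (F : Finset G) (X : Finset A) : ℝ≥0∞ :=
  ENNReal.ofReal (Real.log (traj F X).card / F.card)

/-- Right Følner net (symmetric difference form), along a proper filter `l`. -/
def IsFolner {ι : Type w} (l : Filter ι) (F : ι → Finset G) : Prop :=
  l.NeBot ∧ (∀ i, (F i).Nonempty) ∧ ∀ g : G,
    Tendsto (fun i => ((symmDiff ((F i).image fun s => s * g) (F i)).card : ℝ) / (F i).card) l (𝓝 0)

/-- Right Følner net (boundary form), along a proper filter `l`. -/
def IsFolner' {ι : Type w} (l : Filter ι) (F : ι → Finset G) : Prop :=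
  l.NeBot ∧ (∀ i, (F i).Nonempty) ∧ ∀ E : Finset G,
    Tendsto (fun i => (((F i).filter fun s => ¬ ∀ e ∈ E, s * e ∈ F i).card : ℝ) / (F i).card)
      l (𝓝 0)

variable (A)

/-- `h_alg` computed with upper limits. -/
noncomputable def hSup {ι : Type w} (l : Filter ι) (F : ι → Finset G) : ℝ≥0∞ :=
  ⨆ (X : Finset A) (_ : X.Nonempty), limsup (fun i => ratio (F i) X) l

/-- `h_alg` computed with lower limits. -/
noncomputable def hInf {ι : Type w} (l : Filter ι) (F : ι → Finset G) : ℝ≥0∞ :=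
  ⨆ (X : Finset A) (_ : X.Nonempty), liminf (fun i => ratio (F i) X) l

/-- `ent` computed with upper limits. -/
noncomputable def entSup {ι : Type w} (l : Filter ι) (F : ι → Finset G) : ℝ≥0∞ :=
  ⨆ (X : Finset A) (_ : ∃ B : AddSubgroup A, (B : Set A) = X), limsup (fun i => ratio (F i) X) l

/-- `ent` computed with lower limits. -/
noncomputable def entInf {ι : Type w} (l : Filter ι) (F : ι → Finset G) : ℝ≥0∞ :=
  ⨆ (X : Finset A) (_ : ∃ B : AddSubgroup A, (B : Set A) = X), liminf (fun i => ratio (F i) X) l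

end Defs

variable {G : Type u} [Group G] {A : Type v} [AddCommGroup A] [DistribMulAction G A]

lemma mem_traj (F : Finset G) (X : Finset A) (a : A) :
    a ∈ traj F X ↔ ∃ x : G → A, (∀ g ∈ F, x g ∈ X) ∧ ∑ g ∈ F, g • x g = a := by
  rw [traj, mem_sum]
  constructor
  · rintro ⟨y, h1, h2⟩
    refine ⟨fun g => g⁻¹ • y g, fun g hg => ?_, by simpa using h2⟩
    obtain ⟨x, hx, e⟩ := mem_image.1 (h1 g hg)
    simp only [← e, inv_smul_smul]
    exact hx
  · rintro ⟨x, h1, h2⟩
    exact ⟨fun g => g • x g, fun g hg => mem_image_of_mem _ (h1 g hg), h2⟩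

lemma traj_nonempty (F : Finset G) {X : Finset A} (hX : X.Nonempty) : (traj F X).Nonempty :=
  sum_nonempty _ _ fun _ => hX.image _

lemma card_traj_translate (s : G) (K : Finset G) (X : Finset A) :
    (traj (K.image fun k => s * k) X).card ≤ (traj K X).card := by
  refine le_trans (card_le_card ?_) (card_image_le (f := fun a => s • a))
  intro a ha
  obtain ⟨x, hx, rfl⟩ := (mem_traj _ _ _).1 ha
  refine mem_image.2 ⟨∑ k ∈ K, k • x (s * k), (mem_traj _ _ _).2
    ⟨fun k => x (s * k), fun k hk => hx _ (mem_image_of_mem _ hk), rfl⟩, ?_⟩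
  rw [Finset.sum_image (fun _ _ _ _ h => mul_left_cancel h), Finset.smul_sum]
  simp [mul_smul]

lemma log_traj_le (F K : Finset G) (hK : K.Nonempty) {X : Finset A} (hX : X.Nonempty) :
    (K.card : ℝ) * Real.log (traj F X).card ≤
      ((F.card : ℝ) + ∑ k ∈ K, ((F.filter fun s => s * k⁻¹ ∉ F).card : ℝ))
        * Real.log (traj K X).card := by
  let J0 : Finset G := K.biUnion fun k => F.image fun s => s * k⁻¹
  have h1 := shearer_sum J0 (fun s => K.image fun k => s * k) K.card hK.card_pos F (by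
    intro i hi
    apply Finset.card_le_card_of_injOn (fun k => i * k⁻¹)
    · intro k hk
      refine mem_coe.2 (mem_filter.2 ⟨mem_biUnion.2 ⟨k, hk, mem_image_of_mem _ hi⟩, ?_⟩)
      exact mem_image.2 ⟨k, hk, by simp⟩
    · intro a _ b _ h
      simpa using h) (fun g => X.image fun x => g • x) (fun _ => hX.image _)
  have h2 : ((traj F X).card : ℝ) ^ K.card ≤ ((traj K X).card : ℝ) ^ J0.card := by
    refine le_trans h1 ?_
    rw [← Finset.prod_const]
    apply Finset.prod_le_prod
    · intro _ _; positivity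
    · intro s _
      exact_mod_cast card_traj_translate s K X
  have p1 : (1 : ℝ) ≤ (traj F X).card := by exact_mod_cast (traj_nonempty F hX).card_pos
  have p2 : (1 : ℝ) ≤ (traj K X).card := by exact_mod_cast (traj_nonempty K hX).card_pos
  have h3 := Real.log_le_log (by positivity) h2
  rw [Real.log_pow, Real.log_pow] at h3
  refine le_trans h3 (mul_le_mul_of_nonneg_right ?_ (Real.log_nonneg p2))
  have h4 : J0 ⊆ F ∪ K.biUnion fun k => (F.filter fun s => s * k⁻¹ ∉ F).image
      fun s => s * k⁻¹ := by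
    intro y hy
    obtain ⟨k, hk, hy⟩ := mem_biUnion.1 hy
    obtain ⟨s, hs, rfl⟩ := mem_image.1 hy
    by_cases h : s * k⁻¹ ∈ F
    · exact mem_union_left _ h
    · exact mem_union_right _ (mem_biUnion.2 ⟨k, hk, mem_image_of_mem _ (mem_filter.2 ⟨hs, h⟩)⟩)
  have h5 : J0.card ≤ F.card + ∑ k ∈ K, (F.filter fun s => s * k⁻¹ ∉ F).card := by
    refine le_trans (card_le_card h4) (le_trans (card_union_le _ _) ?_)
    gcongr
    refine le_trans card_biUnion_le (Finset.sum_le_sum fun k _ => card_image_le)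
  exact_mod_cast h5

/-- weak Følner property used in the proof -/
def Weak {ι : Type w} (l : Filter ι) (F : ι → Finset G) : Prop :=
  (∀ i, (F i).Nonempty) ∧ ∀ g : G,
    Tendsto (fun i => (((F i).filter fun s => s * g ∉ F i).card : ℝ) / (F i).card) l (𝓝 0)

lemma IsFolner.weak {ι : Type w} {l : Filter ι} {F : ι → Finset G} (h : IsFolner l F) :
    Weak l F := by
  refine ⟨h.2.1, fun g => ?_⟩
  refine squeeze_zero (fun i => by positivity) (fun i => ?_) (h.2.2 g)
  apply div_le_div_of_nonneg_right _ (by positivity)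
  rw [Nat.cast_le]
  apply Finset.card_le_card_of_injOn (fun s => s * g)
  · intro s hs
    rw [mem_coe, mem_filter] at hs
    exact mem_coe.2 (mem_symmDiff.2 (Or.inl ⟨mem_image_of_mem _ hs.1, hs.2⟩))
  · intro a _ b _ h
    simpa using h

lemma IsFolner'.weak {ι : Type w} {l : Filter ι} {F : ι → Finset G} (h : IsFolner' l F) :
    Weak l F := by
  refine ⟨h.2.1, fun g => ?_⟩
  simpa using h.2.2 {g}

lemma limsup_le {ι : Type w} {l : Filter ι} {F : ι → Finset G} (h : Weak l F) (K : Finset G)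
    (hK : K.Nonempty) {X : Finset A} (hX : X.Nonempty) :
    limsup (fun i => ratio (F i) X) l ≤ ratio K X := by
  rcases l.eq_or_neBot with rfl | hl
  · simp
  let c : ℝ := Real.log (traj K X).card / K.card
  have t1 : Tendsto (fun i => (1 + ∑ k ∈ K, (((F i).filter fun s => s * k⁻¹ ∉ F i).card : ℝ)
      / (F i).card) * c) l (𝓝 ((1 + ∑ _k ∈ K, (0 : ℝ)) * c)) :=
    ((tendsto_finsetSum K fun k _ => h.2 k⁻¹).const_add 1).mul_const c
  simp only [sum_const_zero, add_zero, one_mul] at t1
  have t2 := (ENNReal.tendsto_ofReal t1).limsup_eq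
  refine le_trans (limsup_le_limsup (Eventually.of_forall fun i => ?_)) t2.le
  apply ENNReal.ofReal_le_ofReal
  have k1 : (0 : ℝ) < (F i).card := by exact_mod_cast (h.1 i).card_pos
  have k2 : (0 : ℝ) < K.card := by exact_mod_cast hK.card_pos
  have := log_traj_le (F i) K hK hX
  rw [← Finset.sum_div, div_le_iff₀ k1]
  have e : (1 + (∑ k ∈ K, (((F i).filter fun s => s * k⁻¹ ∉ F i).card : ℝ)) / (F i).card) * c
      * (F i).card = (((F i).card + ∑ k ∈ K, (((F i).filter fun s => s * k⁻¹ ∉ F i).card : ℝ))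
        * Real.log (traj K X).card) / K.card := by
    simp only [c]
    field_simp
  rw [e, le_div_iff₀ k2]
  linarith

lemma exists_D (H : Subgroup G) (hH : H.index = 0) (n : ℕ) :
    ∃ D : Finset G, D.card = n ∧ ∀ d ∈ D, ∀ d' ∈ D, d * d'⁻¹ ∈ H → d = d' := by
  have : Infinite (G ⧸ H) := Subgroup.index_eq_zero_iff_infinite.1 hH
  obtain ⟨s, hs⟩ := Infinite.exists_subset_card_eq (G ⧸ H) n
  have hi : Function.Injective fun q : G ⧸ H => (Quotient.out q)⁻¹ := fun a b h =>
    Quotient.out_injective (inv_injective h)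
  refine ⟨s.image fun q => (Quotient.out q)⁻¹, (card_image_of_injective _ hi).trans hs, ?_⟩
  intro d hd d' hd' h
  obtain ⟨q, -, rfl⟩ := mem_image.1 hd
  obtain ⟨q', -, rfl⟩ := mem_image.1 hd'
  rw [inv_inv, ← QuotientGroup.eq, QuotientGroup.out_eq', QuotientGroup.out_eq'] at h
  rw [h]

lemma ratio_prod (H : Subgroup G) (E : Finset H) (hE : E.Nonempty) (D : Finset G)
    (hD0 : D.Nonempty) (hD : ∀ d ∈ D, ∀ d' ∈ D, d * d'⁻¹ ∈ H → d = d') {X : Finset A}
    (hX : X.Nonempty) :
    (D.card : ℝ≥0∞) * ratio ((E ×ˢ D).image fun p => (p.1 : G) * p.2) X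
      ≤ ratio E (traj D X) := by
  have hinj : Set.InjOn (fun p : H × G => (p.1 : G) * p.2) (E ×ˢ D : Finset (H × G)) := by
    rintro ⟨e, d⟩ hp ⟨e', d'⟩ hq h
    rw [mem_coe, mem_product] at hp hq
    simp only at h
    have h1 : d * d'⁻¹ = (e⁻¹ * e' : H) := by
      push_cast
      rw [eq_inv_mul_iff_mul_eq, ← mul_assoc, h]; simp
    have h2 : d = d' := hD d hp.2 d' hq.2 (h1 ▸ (e⁻¹ * e').2)
    subst h2
    rw [Subtype.ext (mul_right_cancel h)]
  have hsub : traj ((E ×ˢ D).image fun p => (p.1 : G) * p.2) X ⊆ traj E (traj D X) := by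
    intro a ha
    obtain ⟨x, hx, rfl⟩ := (mem_traj _ _ _).1 ha
    refine (mem_traj _ _ _).2 ⟨fun e => ∑ d ∈ D, d • x (e * d), fun e he => (mem_traj _ _ _).2
      ⟨fun d => x (e * d), fun d hd => hx _ (mem_image.2 ⟨(e, d), mem_product.2 ⟨he, hd⟩, rfl⟩),
        rfl⟩, ?_⟩
    rw [Finset.sum_image hinj, Finset.sum_product]
    apply Finset.sum_congr rfl
    intro e _
    rw [Finset.smul_sum]
    apply Finset.sum_congr rfl
    intro d _
    rw [mul_smul]
    rfl
  rw [ratio, ratio, card_image_of_injOn hinj, card_product, ← ENNReal.ofReal_natCast,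
    ← ENNReal.ofReal_mul (by positivity)]
  apply ENNReal.ofReal_le_ofReal
  have k1 : (0 : ℝ) < E.card := by exact_mod_cast hE.card_pos
  have k2 : (0 : ℝ) < D.card := by exact_mod_cast hD0.card_pos
  have k3 : Real.log (traj ((E ×ˢ D).image fun p => (p.1 : G) * p.2) X).card
      ≤ Real.log (traj E (traj D X)).card := by
    apply Real.log_le_log
    · exact_mod_cast (traj_nonempty ((E ×ˢ D).image fun p => (p.1 : G) * p.2) hX).card_pos
    · exact_mod_cast card_le_card hsub
  push_cast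
  rw [show (D.card : ℝ) * (Real.log (traj ((E ×ˢ D).image fun p => (p.1 : G) * p.2) X).card
    / (E.card * D.card)) = Real.log (traj ((E ×ˢ D).image fun p => (p.1 : G) * p.2) X).card
      / E.card by field_simp]
  gcongr

theorem main {ι : Type w} {l : Filter ι} {F : ι → Finset G} (h : Weak l F)
    (H : Subgroup G) (hH : H.index = 0) {κ : Type w'} {m : Filter κ} [m.NeBot]
    {E : κ → Finset H} (hE : ∀ j, (E j).Nonempty) {X : Finset A} (hX : X.Nonempty) (c : ℝ≥0∞)
    (hc : c < ⊤) (hb : ∀ D : Finset G, liminf (fun j => ratio (E j) (traj D X)) m ≤ c) :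
    limsup (fun i => ratio (F i) X) l = 0 := by
  set r := limsup (fun i => ratio (F i) X) l
  have key : ∀ n : ℕ, 0 < n → (n : ℝ≥0∞) * r ≤ c := by
    intro n hn
    obtain ⟨D, hD, hD'⟩ := exists_D H hH n
    have hD0 : D.Nonempty := card_pos.1 (hD ▸ hn)
    refine le_trans ?_ (hb D)
    apply le_liminf_of_le
    · isBoundedDefault
    refine Eventually.of_forall fun j => ?_
    refine le_trans ?_ (ratio_prod H (E j) (hE j) D hD0 hD' hX)
    rw [hD]
    gcongr
    exact limsup_le h _ (((hE j).product hD0).image _) hX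
  by_contra hr
  obtain ⟨n, hn⟩ := ENNReal.exists_nat_mul_gt hr hc.ne
  have := key (n + 1) (Nat.succ_pos n)
  have h2 : (n : ℝ≥0∞) * r ≤ ((n + 1 : ℕ) : ℝ≥0∞) * r := by
    gcongr; omega
  exact absurd (lt_of_lt_of_le hn (h2.trans this)) (lt_irrefl _)

theorem h_zero {ι : Type w} {l : Filter ι} {F : ι → Finset G} (h : IsFolner l F)
    (H : Subgroup G) (hH : H.index = 0) {κ : Type w'} {m : Filter κ} {E : κ → Finset H}
    (hE : IsFolner m E) (hfin : hInf A m E < ⊤) : hSup A l F = 0 := by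
  have := hE.1
  rw [hSup]
  simp only [ENNReal.iSup_eq_zero]
  intro X hX
  refine main (m := m) h.weak H hH hE.2.1 hX _ hfin fun D => ?_
  exact le_iSup₂_of_le (f := fun (X : Finset A) (_ : X.Nonempty) =>
    liminf (fun i => ratio (E i) X) m) (traj D X) (traj_nonempty D hX) le_rfl

lemma traj_subgroup (D : Finset G) {X : Finset A} (hX : ∃ B : AddSubgroup A, (B : Set A) = X) :
    ∃ B : AddSubgroup A, (B : Set A) = traj D X := by
  obtain ⟨B, hB⟩ := hX
  have hm : ∀ a, a ∈ X ↔ a ∈ B := fun a => by rw [← mem_coe, ← hB]; rfl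
  refine ⟨{ carrier := traj D X, zero_mem' := ?_, add_mem' := ?_, neg_mem' := ?_ }, rfl⟩
  · intro a b ha hb
    obtain ⟨x, hx, rfl⟩ := (mem_traj _ _ _).1 (mem_coe.1 ha)
    obtain ⟨y, hy, rfl⟩ := (mem_traj _ _ _).1 (mem_coe.1 hb)
    refine mem_coe.2 ((mem_traj _ _ _).2 ⟨fun g => x g + y g, fun g hg => ?_, ?_⟩)
    · exact (hm _).2 (B.add_mem ((hm _).1 (hx g hg)) ((hm _).1 (hy g hg)))
    · simp [Finset.sum_add_distrib]
  · exact mem_coe.2 ((mem_traj _ _ _).2 ⟨fun _ => 0, fun _ _ => (hm _).2 B.zero_mem, by simp⟩)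
  · intro a ha
    obtain ⟨x, hx, rfl⟩ := (mem_traj _ _ _).1 (mem_coe.1 ha)
    refine mem_coe.2 ((mem_traj _ _ _).2 ⟨fun g => - x g, fun g hg => ?_, ?_⟩)
    · exact (hm _).2 (B.neg_mem ((hm _).1 (hx g hg)))
    · simp

theorem ent_zero {ι : Type w} {l : Filter ι} {F : ι → Finset G} (h : IsFolner' l F)
    (H : Subgroup G) (hH : H.index = 0) {κ : Type w'} {m : Filter κ} {E : κ → Finset H}
    (hE : IsFolner' m E) (hfin : entInf A m E < ⊤) : entSup A l F = 0 := by
  have := hE.1
  rw [entSup]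
  simp only [ENNReal.iSup_eq_zero]
  intro X hX
  have hX' : X.Nonempty := by
    obtain ⟨B, hB⟩ := hX
    exact ⟨0, by rw [← mem_coe, ← hB]; exact B.zero_mem⟩
  refine main (m := m) h.weak H hH hE.2.1 hX' _ hfin fun D => ?_
  exact le_iSup₂_of_le (f := fun (X : Finset A) (_ : ∃ B : AddSubgroup A, (B : Set A) = X) =>
    liminf (fun i => ratio (E i) X) m) (traj D X) (traj_subgroup D hX) le_rfl

end Pool.Agent.H27.AlgEnt
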