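import Mathlib

set_option autoImplicit false

namespace Pool.Agent.H27.Amen

open scoped Pointwise

/-- A finitely additive probability measure defined on all subsets of `G`. -/
def IsMean {G : Type} (m : Set G → ℝ) : Prop :=
  (∀ A, 0 ≤ m A) ∧ m Set.univ = 1 ∧ ∀ A B, Disjoint A B → m (A ∪ B) = m A + m B

/-- A discrete group is amenable if it has a left-invariant finitely additive probability measure. -/
def Amenable (G : Type) [Group G] : Prop :=
  ∃ m : Set G → ℝ, IsMean m ∧ ∀ (g : G) (A : Set G), m (g • A) = m A

end Pool.Agent.H27.Amen
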