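import Pool.Agent.H27.AmenSolv

set_option autoImplicit false

namespace Pool.Agent.H27.Amen

open scoped Pointwise Topology
open Filter

variable {G : Type} [Group G]

def Am (B : Subgroup G) : Prop := ∃ μ : Set G → ℝ, IsMean μ ∧ B ≤ stab μ

def Norm (H B : Subgroup G) : Prop := ∀ h ∈ H, ∀ b ∈ B, h * b * h⁻¹ ∈ B

/-- relative amenability of a subgroup: closed under extensions and directed unions -/
def Rel (H : Subgroup G) : Prop := ∀ B : Subgroup G, Norm H B → Am B → Am (B ⊔ H)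

theorem conj_sup {t : G} {B C : Subgroup G} (h1 : ∀ b ∈ B, t * b * t⁻¹ ∈ B)
    (h2 : ∀ b ∈ C, t * b * t⁻¹ ∈ C) : ∀ b ∈ B ⊔ C, t * b * t⁻¹ ∈ B ⊔ C := by
  have : B ⊔ C ≤ (B ⊔ C).comap (MulAut.conj t).toMonoidHom :=
    sup_le (fun b hb => Subgroup.mem_sup_left (h1 b hb)) fun b hb => Subgroup.mem_sup_right (h2 b hb)
  exact fun b hb => this hb

theorem am_of_finset (H : Subgroup G)
    (h : ∀ T : Finset G, ∃ μ : Set G → ℝ, IsMean μ ∧ ∀ t ∈ T, t ∈ H → t ∈ stab μ) : Am H := by
  classical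
  choose M h1 h3 using h
  obtain ⟨μ, hμ, hl⟩ := ulim (Ultrafilter.of (atTop : Filter (Finset G))) M h1
  refine ⟨μ, hμ, fun h hh A => tendsto_nhds_unique (hl _) ((hl A).congr' ?_)⟩
  have : ∀ᶠ T : Finset G in atTop, M T A = M T (h • A) := by
    filter_upwards [eventually_ge_atTop {h}] with T hT
    exact (h3 T h (hT (Finset.mem_singleton_self h)) hh A).symm
  exact this.filter_mono (Ultrafilter.of_le _)

theorem am_bot : Am (⊥ : Subgroup G) := by
  classical
  refine ⟨fun A => if (1 : G) ∈ A then 1 else 0, ⟨fun A => ?_, by simp, fun A B h => ?_⟩, bot_le⟩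
  · dsimp only; split_ifs <;> norm_num
  · have : (1 : G) ∈ A → (1 : G) ∉ B := fun x => Set.disjoint_left.1 h x
    by_cases a : (1 : G) ∈ A <;> by_cases b : (1 : G) ∈ B <;> simp_all

theorem rel_bot : Rel (⊥ : Subgroup G) := fun B _ h => by rwa [sup_bot_eq]

theorem Rel.am {H : Subgroup G} (h : Rel H) : Am H := by
  have := h ⊥ (fun x _ b hb => by rw [Subgroup.mem_bot.1 hb]; simp) am_bot
  rwa [bot_sup_eq] at this

theorem rel_up {H K : Subgroup G} (hK : Rel K) (h1 : ⁅H, H⁆ ≤ K) (h2 : K ≤ H) : Rel H := by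
  classical
  intro B hB hA
  obtain ⟨m, hm, hs⟩ := hK B (fun h hh => hB h (h2 hh)) hA
  have key : ∀ T : Finset G, ∃ μ : Set G → ℝ, IsMean μ ∧ B ⊔ K ≤ stab μ ∧
      ∀ t ∈ T, t ∈ H → t ∈ stab μ := by
    intro T
    induction T using Finset.induction_on with
    | empty => exact ⟨m, hm, hs, by simp⟩
    | insert t T _ ih =>
      obtain ⟨μ, e1, e2, e3⟩ := ih
      by_cases ht : t ∈ H
      · obtain ⟨ν, g1, g2, g3⟩ := step (B ⊔ (H ⊓ stab μ)) t (conj_sup (hB t ht) fun h hh =>
          ⟨H.mul_mem (H.mul_mem ht hh.1) (H.inv_mem ht), by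
            have := (stab μ).mul_mem (e2 (Subgroup.mem_sup_right
              (h1 (Subgroup.commutator_mem_commutator ht hh.1)))) hh.2
            simpa [commutatorElement_def] using this⟩) μ e1
          (sup_le (le_sup_left.trans e2) inf_le_right)
        refine ⟨ν, g1, sup_le (le_sup_left.trans g2) fun x hx => g2 (Subgroup.mem_sup_right
          ⟨h2 hx, e2 (Subgroup.mem_sup_right hx)⟩), fun s hs hsH => ?_⟩
        rcases Finset.mem_insert.1 hs with rfl | hs
        · exact g3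
        · exact g2 (Subgroup.mem_sup_right ⟨hsH, e3 s hs hsH⟩)
      · refine ⟨μ, e1, e2, fun s hs hsH => ?_⟩
        rcases Finset.mem_insert.1 hs with rfl | hs
        · exact absurd hsH ht
        · exact e3 s hs hsH
  choose M e1 e2 e3 using key
  obtain ⟨μ, hμ, hl⟩ := ulim (Ultrafilter.of (atTop : Filter (Finset G))) M e1
  refine ⟨μ, hμ, sup_le (fun h hh A => tendsto_nhds_unique (hl _) ((hl A).congr fun T => ?_))
    fun h hh A => tendsto_nhds_unique (hl _) ((hl A).congr' ?_)⟩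
  · exact (e2 T (Subgroup.mem_sup_left hh) A).symm
  · have : ∀ᶠ T : Finset G in atTop, M T A = M T (h • A) := by
      filter_upwards [eventually_ge_atTop {h}] with T hT
      exact (e3 T h (hT (Finset.mem_singleton_self h)) hh A).symm
    exact this.filter_mono (Ultrafilter.of_le _)

theorem rel_sup {N H : Subgroup G} (hN : Rel N) (hH : Rel H) (h : Norm H N) : Rel (N ⊔ H) := by
  intro B hB hA
  rw [← sup_assoc]
  exact hH _ (fun t ht => conj_sup (hB t (Subgroup.mem_sup_right ht)) (h t ht))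
    (hN B (fun t ht => hB t (Subgroup.mem_sup_left ht)) hA)

theorem rel_iSup {ι : Type} [Nonempty ι] {H : ι → Subgroup G} (hd : Directed (· ≤ ·) H)
    (h : ∀ i, Rel (H i)) : Rel (⨆ i, H i) := by
  classical
  intro B hB hA
  refine am_of_finset _ fun T => ?_
  have hd' : Directed (· ≤ ·) fun i => B ⊔ H i := fun i j => by
    obtain ⟨k, a, b⟩ := hd i j
    exact ⟨k, sup_le_sup_left a _, sup_le_sup_left b _⟩
  have : ∀ t : G, ∃ i, t ∈ B ⊔ ⨆ i, H i → t ∈ B ⊔ H i := by
    intro t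
    by_cases ht : t ∈ B ⊔ ⨆ i, H i
    · rw [sup_iSup] at ht
      obtain ⟨i, hi⟩ := (Subgroup.mem_iSup_of_directed hd').1 ht
      exact ⟨i, fun _ => hi⟩
    · exact ⟨Classical.arbitrary ι, fun h => absurd h ht⟩
  choose c hc using this
  obtain ⟨i, hi⟩ := hd'.finset_le (T.image c)
  obtain ⟨μ, h1, h2⟩ := h i B (fun t ht => hB t (Subgroup.mem_iSup_of_mem i ht)) hA
  exact ⟨μ, h1, fun t ht htH => h2 (hi _ (Finset.mem_image_of_mem c ht) (hc t htH))⟩

theorem Am.amenable {H : Subgroup G} (h : Am H) : Amenable H := by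
  obtain ⟨μ, h1, h2⟩ := h
  let r : G → G := fun x => (Quotient.mk (QuotientGroup.rightRel H) x).out
  have hr : ∀ x, x * (r x)⁻¹ ∈ H := fun x =>
    QuotientGroup.rightRel_apply.1 (Quotient.mk_out (s := QuotientGroup.rightRel H) x)
  let π : G → H := fun x => ⟨x * (r x)⁻¹, hr x⟩
  have hπ : ∀ (g : H) x, π (g.1 * x) = g * π x := by
    intro g x
    have : r (g.1 * x) = r x := by
      simp only [r]
      congr 1
      exact Quotient.sound (QuotientGroup.rightRel_apply.2 (by simp))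
    exact Subtype.ext (by simp [π, this, mul_assoc])
  refine ⟨fun A => μ (π ⁻¹' A), ⟨fun A => h1.1 _, h1.2.1, fun A B hAB => ?_⟩, fun g A => ?_⟩
  · exact h1.2.2 _ _ (hAB.preimage π)
  · show μ (π ⁻¹' (g • A)) = μ (π ⁻¹' A)
    rw [← h2 g.2 (π ⁻¹' A)]
    congr 1
    ext x
    rw [Set.mem_preimage, Set.mem_smul_set_iff_inv_smul_mem, Set.mem_smul_set_iff_inv_smul_mem,
      Set.mem_preimage]
    have := hπ g⁻¹ x
    exact Iff.of_eq (congrArg (· ∈ A) this.symm)

end Pool.Agent.H27.Amen
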