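import Mathlib

namespace Pool.Agent.H27.Anti4

open FirstOrder FirstOrder.Language FirstOrder.Language.Structure CategoryTheory Classical

universe u

/-- Strong amalgamation of the age of `M`. -/
def StrongAmalg (L : FirstOrder.Language.{0, 0}) (M : Type) [L.Structure M] : Prop :=
  ∀ (A B C : Bundled.{0} L.Structure) (f : A ↪[L] B) (g : A ↪[L] C),
    A ∈ L.age M → B ∈ L.age M → C ∈ L.age M →
    ∃ (D : Bundled.{0} L.Structure) (b : B ↪[L] D) (c : C ↪[L] D),
      D ∈ L.age M ∧ b.comp f = c.comp g ∧
      Set.range b ∩ Set.range c = Set.range (b.comp f)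

/-- The action of `G` on the relational structure `M` is by automorphisms. -/
def ByAut (L : FirstOrder.Language.{0, 0}) (M : Type) [L.Structure M] (G : Type u) [Group G]
    [MulAction G M] : Prop :=
  ∀ (g : G) (n : ℕ) (r : L.Relations n) (v : Fin n → M),
    RelMap r (fun i => g • v i) ↔ RelMap r v

/-- The coordinatewise map `a i ↦ b i` is an isomorphism of the induced substructures
(for injective tuples in a relational language). -/
def SameType (L : FirstOrder.Language.{0, 0}) (M : Type) [L.Structure M] {k : ℕ} (a b : Fin k → M) : Prop :=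
  ∀ (n : ℕ) (r : L.Relations n) (s : Fin n → Fin k), RelMap r (a ∘ s) ↔ RelMap r (b ∘ s)

/-- Structurally sharply `k`-transitive action. -/
def Sharp (L : FirstOrder.Language.{0, 0}) (M : Type) [L.Structure M] (k : ℕ) (G : Type u) [Group G]
    [MulAction G M] : Prop :=
  ∀ a b : Fin k → M, Function.Injective a → Function.Injective b → SameType L M a b →
    ∃! g : G, ∀ i, g • a i = b i

inductive R4 : ℕ → Type
  | r : R4 4

def L4 : FirstOrder.Language.{0, 0} := ⟨fun _ => Empty, R4⟩

instance : L4.IsRelational := fun _ => inferInstanceAs (IsEmpty Empty)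

def sg : Fin 4 → Fin 4 := ![1, 0, 3, 2]

lemma sg_sg (i : Fin 4) : sg (sg i) = i := by revert i; decide

lemma sg_inj : Function.Injective sg := by decide

def Good {N : Type} (S : (Fin 4 → N) → Prop) : Prop :=
  (∀ v, S v → Function.Injective v) ∧ ∀ v, Function.Injective v → (S v ↔ ¬ S (v ∘ sg))

abbrev W := Fin 4 → Option ℕ

noncomputable def code (d : ℕ) : Finset W :=
  ((Encodable.decode (α := Finset W × ℕ) d).getD (∅, 0)).1

lemma exists_code (F : Finset W) (K : ℕ) : ∃ d, K < d ∧ code d = F := by
  have hinj : Function.Injective fun n : ℕ => Encodable.encode (α := Finset W × ℕ) (F, n) := by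
    intro a b h
    have := Encodable.encode_injective h
    exact congrArg Prod.snd this
  obtain ⟨d, ⟨n, rfl⟩, hd⟩ := (Set.infinite_range_of_injective hinj).exists_gt K
  exact ⟨_, hd, by simp [code]⟩

def top (v : Fin 4 → ℕ) : ℕ := Finset.univ.sup v

def beta (v : Fin 4 → ℕ) : Prop :=
  (fun i => if v i = top v then none else some (v i) : W) ∈ code (top v)

def R (v : Fin 4 → ℕ) : Prop :=
  Function.Injective v ∧ if v 0 < v 1 then beta v else ¬ beta (v ∘ sg)

lemma good_R : Good R := by
  refine ⟨fun v h => h.1, fun v hv => ?_⟩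
  have h2 : Function.Injective (v ∘ sg) := hv.comp sg_inj
  have h3 : (v ∘ sg) ∘ sg = v := by funext i; simp [sg_sg]
  have h01 : v 0 ≠ v 1 := fun h => absurd (hv h) (by decide)
  have e0 : (v ∘ sg) 0 = v 1 := rfl
  have e1 : (v ∘ sg) 1 = v 0 := rfl
  simp only [R, hv, h2, true_and, h3, e0, e1]
  by_cases h : v 0 < v 1
  · rw [if_pos h, if_neg (by omega), not_not]
  · rw [if_neg h, if_pos (by omega)]

def Pres {N : Type} (S : (Fin 4 → N) → Prop) (s : Set N) (f : N → ℕ) : Prop :=
  Set.InjOn f s ∧ ∀ v : Fin 4 → N, (∀ i, v i ∈ s) → (R (f ∘ v) ↔ S v)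

lemma ext_one {N : Type} {S : (Fin 4 → N) → Prop} (hS : Good S) {s : Set N} (hs : s.Finite)
    {f : N → ℕ} (hf : Pres S s f) {x : N} (hx : x ∉ s) (K : ℕ) :
    ∃ d, K < d ∧ Pres S (insert x s) (Function.update f x d) := by
  obtain ⟨B, hB⟩ := (hs.image f).bddAbove
  have hB' : ∀ y ∈ s, f y ≤ B := fun y hy => hB ⟨y, hy, rfl⟩
  let φ : (Fin 4 → N) → W := fun v i => if v i = x then none else some (f (v i))
  have hfin : (φ '' {v | (∀ i, v i ∈ insert x s) ∧ S v}).Finite := by
    apply Set.Finite.image
    apply (Set.Finite.pi' (fun _ : Fin 4 => hs.insert x)).subset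
    intro v hv
    exact hv.1
  obtain ⟨d, hd, hc⟩ := exists_code hfin.toFinset (max K B)
  have hdK : K < d := lt_of_le_of_lt (le_max_left _ _) hd
  have hdB : B < d := lt_of_le_of_lt (le_max_right _ _) hd
  have hup : ∀ y ∈ s, Function.update f x d y = f y := fun y hy =>
    Function.update_of_ne (fun h : y = x => hx (h ▸ hy)) _ _
  have hinj : Set.InjOn (Function.update f x d) (insert x s) := by
    rintro y (rfl | hy) z (rfl | hz) h
    · rfl
    · rw [Function.update_self, hup z hz] at h
      have := hB' z hz; omega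
    · rw [Function.update_self, hup y hy] at h
      have := hB' y hy; omega
    · rw [hup y hy, hup z hz] at h
      exact hf.1 hy hz h
  refine ⟨d, hdK, hinj, fun v hv => ?_⟩
  by_cases hxv : ∃ i, v i = x
  swap
  · have hv' : ∀ i, v i ∈ s := fun i => (hv i).resolve_left fun h => hxv ⟨i, h⟩
    have : Function.update f x d ∘ v = f ∘ v := by
      funext i; exact hup _ (hv' i)
    rw [this]
    exact hf.2 v hv'
  have key : ∀ w : Fin 4 → N, (∀ i, w i ∈ insert x s) → (∃ i, w i = x) →
      (beta (Function.update f x d ∘ w) ↔ S w) := by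
    intro w hw ⟨j, hj⟩
    have hval : ∀ i, (Function.update f x d ∘ w) i = if w i = x then d else f (w i) := by
      intro i
      by_cases h : w i = x
      · simp [h]
      · simp [h]
    have htop : top (Function.update f x d ∘ w) = d := by
      apply le_antisymm
      · apply Finset.sup_le
        intro i _
        rw [hval]
        split_ifs with h
        · exact le_rfl
        · have := hB' _ ((hw i).resolve_left h); omega
      · have := Finset.le_sup (f := Function.update f x d ∘ w) (Finset.mem_univ j)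
        rw [hval, if_pos hj] at this
        exact this
    have hφ : (fun i => if (Function.update f x d ∘ w) i = d then none
        else some ((Function.update f x d ∘ w) i) : W) = φ w := by
      funext i
      rw [hval]
      by_cases h : w i = x
      · simp [φ, h]
      · have := hB' _ ((hw i).resolve_left h)
        have h2 : f (w i) ≠ d := by omega
        simp [φ, h, h2]
    rw [beta, htop, hφ, hc, Set.Finite.mem_toFinset]
    constructor
    · rintro ⟨w', ⟨hw', hS'⟩, he⟩
      have : w' = w := by
        funext i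
        have hi := congrFun he i
        simp only [φ] at hi
        by_cases h1 : w' i = x <;> by_cases h2 : w i = x
        · rw [h1, h2]
        · simp [h1, h2] at hi
        · simp [h1, h2] at hi
        · simp only [h1, h2, if_false, Option.some.injEq] at hi
          exact hf.1 ((hw' i).resolve_left h1) ((hw i).resolve_left h2) hi
      rwa [← this]
    · intro h
      exact ⟨w, ⟨hw, h⟩, rfl⟩
  by_cases hvi : Function.Injective v
  · have h1 : Function.Injective (Function.update f x d ∘ v) := fun i j h =>
      hvi (hinj (hv i) (hv j) h)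
    have h2 := key v hv hxv
    have h3 := key (v ∘ sg) (fun i => hv _) (by
      obtain ⟨i, hi⟩ := hxv
      exact ⟨sg i, by simp [sg_sg, hi]⟩)
    have h4 := hS.2 v hvi
    simp only [R, h1, true_and]
    split_ifs
    · exact h2
    · rw [Function.comp_assoc, h3, h4]
  · constructor
    · intro h
      exact absurd (Function.Injective.of_comp h.1) hvi
    · intro h
      exact absurd (hS.1 v h) hvi

lemma ext_fin {N : Type} {S : (Fin 4 → N) → Prop} (hS : Good S) {s : Set N} (hs : s.Finite)
    {f : N → ℕ} (hf : Pres S s f) (K : ℕ) {t : Set N} (ht : t.Finite) :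
    ∃ f', Pres S (s ∪ t) f' ∧ (∀ y ∈ s, f' y = f y) ∧ ∀ y ∈ t, y ∉ s → K < f' y := by
  induction t, ht using Set.Finite.induction_on with
  | empty => exact ⟨f, by simpa using hf, fun _ _ => rfl, fun _ h => h.elim⟩
  | @insert x t hx ht ih =>
    obtain ⟨f1, h1, h2, h3⟩ := ih
    by_cases hxs : x ∈ s
    · refine ⟨f1, ?_, h2, ?_⟩
      · rw [Set.union_insert, Set.insert_eq_of_mem (Set.mem_union_left _ hxs)]; exact h1
      · rintro y (rfl | hy) hys
        · exact absurd hxs hys
        · exact h3 y hy hys
    · have hx' : x ∉ s ∪ t := fun h => h.elim hxs hx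
      obtain ⟨d, hd, hp⟩ := ext_one hS (hs.union ht) h1 hx' K
      refine ⟨Function.update f1 x d, ?_, ?_, ?_⟩
      · rw [Set.union_insert]; exact hp
      · intro y hy
        rw [Function.update_of_ne (fun h : y = x => hxs (h ▸ hy)), h2 y hy]
      · rintro y (rfl | hy) hys
        · rw [Function.update_self]; exact hd
        · rw [Function.update_of_ne (fun h : y = x => hx (h ▸ hy))]; exact h3 y hy hys

def M : Type := ℕ

instance : Countable M := inferInstanceAs (Countable ℕ)
instance : Infinite M := inferInstanceAs (Infinite ℕ)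

instance : L4.Structure M where
  funMap f := f.elim
  RelMap | R4.r, v => R v

def r4 : L4.Relations 4 := R4.r

lemma relMap_M (v : Fin 4 → M) : RelMap r4 v ↔ R v := Iff.rfl

/-- build an embedding from a function -/
def mkEmb {N : Type} [L4.Structure N] (f : N → ℕ) (h1 : Function.Injective f)
    (h2 : ∀ v : Fin 4 → N, R (f ∘ v) ↔ RelMap r4 v) : N ↪[L4] M where
  toFun := f
  inj' := h1
  map_fun' := fun f => f.elim
  map_rel' := fun {n} q v => by
    cases q
    exact h2 v

lemma good_of_emb {N : Type} [L4.Structure N] (e : N ↪[L4] M) :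
    Good fun v : Fin 4 → N => RelMap r4 v := by
  constructor
  · intro v hv
    have : R (e ∘ v) := (e.map_rel r4 v).2 hv
    exact Function.Injective.of_comp this.1
  · intro v hv
    have h1 : R (e ∘ v) ↔ RelMap r4 v := e.map_rel r4 v
    have h2 : R (e ∘ (v ∘ sg)) ↔ RelMap r4 (v ∘ sg) := e.map_rel r4 (v ∘ sg)
    have h3 := good_R.2 (e ∘ v) (e.injective.comp hv)
    simp only
    rw [← h1, ← h2, h3]
    rfl

/-- main extension statement -/
lemma ext_emb {A C : Type} [L4.Structure A] [L4.Structure C] [Finite C] (e : C ↪[L4] M)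
    (g : A ↪[L4] C) (f : A ↪[L4] M) (K : ℕ) :
    ∃ c : C ↪[L4] M, c.comp g = f ∧ ∀ y, y ∉ Set.range g → K < (show ℕ from c y) := by
  let f0 : C → ℕ := Function.extend g f (fun _ => (0 : ℕ))
  have hf0 : ∀ a, f0 (g a) = f a := fun a => g.injective.extend_apply _ _ a
  have hp : Pres (fun v : Fin 4 → C => RelMap r4 v) (Set.range g) f0 := by
    constructor
    · rintro _ ⟨a, rfl⟩ _ ⟨b, rfl⟩ h
      rw [hf0, hf0] at h
      rw [f.injective h]
    · intro v hv
      choose w hw using hv
      have e1 : v = g ∘ w := by funext i; exact (hw i).symm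
      have e2 : f0 ∘ v = f ∘ w := by funext i; simp [e1, hf0]
      rw [e2, e1]
      exact (f.map_rel r4 w).trans (g.map_rel r4 w).symm
  obtain ⟨f', h1, h2, h3⟩ := ext_fin (good_of_emb e) (Set.toFinite _) hp K
    (Set.toFinite Set.univ)
  rw [Set.union_univ] at h1
  refine ⟨mkEmb f' (Set.injOn_univ.1 h1.1) fun v => h1.2 v fun _ => trivial, ?_, ?_⟩
  · ext a
    change f' (g a) = f a
    rw [h2 _ ⟨a, rfl⟩, hf0]
  · intro y hy
    exact h3 y trivial hy

lemma ultrahom : L4.IsUltrahomogeneous M := by
  rw [isUltrahomogeneous_iff_IsExtensionPair cg_of_countable,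
    isExtensionPair_iff_exists_embedding_closure_singleton_sup]
  intro S hS f m
  have : Finite (Substructure.closure L4 {m} ⊔ S : L4.Substructure M) :=
    ((Substructure.fg_closure_singleton m).sup hS).finite
  obtain ⟨c, hc, -⟩ := ext_emb (Substructure.subtype (Substructure.closure L4 {m} ⊔ S))
    (Substructure.inclusion le_sup_right) f 0
  exact ⟨c, hc.symm⟩

lemma strong : StrongAmalg L4 M := by
  rintro A B C f g - ⟨Bfg, ⟨b0⟩⟩ ⟨Cfg, ⟨c0⟩⟩
  have := Bfg.finite
  have := Cfg.finite
  obtain ⟨K, hK⟩ := (Set.toFinite (Set.range (show B → ℕ from b0))).bddAbove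
  obtain ⟨c, hc, hc'⟩ := ext_emb c0 g (b0.comp f) K
  let s := b0.toHom.range ⊔ c.toHom.range
  refine ⟨Bundled.of s,
    Embedding.comp (Substructure.inclusion le_sup_left) b0.equivRange.toEmbedding,
    Embedding.comp (Substructure.inclusion le_sup_right) c.equivRange.toEmbedding,
    ⟨(Substructure.fg_iff_structure_fg _).1 (Substructure.FG.sup (Bfg.range _) (Cfg.range _)),
      ⟨Substructure.subtype _⟩⟩, ?_, ?_⟩
  · ext a
    apply Subtype.ext
    exact (Embedding.ext_iff.1 hc a).symm
  · ext z
    constructor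
    · rintro ⟨⟨x, hx⟩, ⟨y, hy⟩⟩
      have e1 : b0 x = z.1 := congrArg Subtype.val hx
      have e2 : c y = z.1 := congrArg Subtype.val hy
      by_cases h : y ∈ Set.range g
      · obtain ⟨a, rfl⟩ := h
        refine ⟨a, Subtype.ext ?_⟩
        have e3 : c (g a) = b0 (f a) := Embedding.ext_iff.1 hc a
        change b0 (f a) = z.1
        rw [← e3, e2]
      · have h1 := hc' y h
        have h2 : (show ℕ from b0 x) ≤ K := hK ⟨x, rfl⟩
        rw [e1, ← e2] at h2
        exact absurd h1 (not_lt.2 h2)
    · rintro ⟨a, rfl⟩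
      refine ⟨⟨f a, rfl⟩, ⟨g a, Subtype.ext ?_⟩⟩
      exact Embedding.ext_iff.1 hc a

lemma sameType_small {k : ℕ} (hk : k < 4) (a b : Fin k → M) : SameType L4 M a b := by
  intro n q s
  cases q
  have hs : ¬ Function.Injective s := by
    intro h
    have := Fintype.card_le_of_injective s h
    simp at this
    omega
  constructor
  · intro h
    exact absurd (Function.Injective.of_comp (good_R.1 _ h)) hs
  · intro h
    exact absurd (Function.Injective.of_comp (good_R.1 _ h)) hs

lemma pair_inj {x y : M} (h : x ≠ y) : Function.Injective ![x, y] := by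
  intro i j hij
  fin_cases i <;> fin_cases j <;> simp_all [eq_comm]

lemma quad_inj {a b c d : M} (h1 : a ≠ b) (h2 : a ≠ c) (h3 : a ≠ d) (h4 : b ≠ c) (h5 : b ≠ d)
    (h6 : c ≠ d) : Function.Injective ![a, b, c, d] := by
  have := h1.symm
  have := h2.symm
  have := h3.symm
  have := h4.symm
  have := h5.symm
  have := h6.symm
  intro i j hij
  fin_cases i <;> fin_cases j <;> first | rfl | (exfalso; simp at hij; contradiction)

lemma not_sharp (G : Type u) [Group G] [MulAction G M] (h1 : ByAut L4 M G) :
    ¬ Sharp L4 M 2 G := by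
  intro h2
  have uniq : ∀ (g : G) (x y : M), x ≠ y → g • x = x → g • y = y → g = 1 := by
    intro g x y hxy hx hy
    obtain ⟨g0, -, hu⟩ := h2 ![x, y] ![x, y] (pair_inj hxy) (pair_inj hxy)
      (sameType_small (by norm_num) _ _)
    rw [hu g (by intro i; fin_cases i <;> simpa), hu 1 (by simp)]
  let a : M := (0 : ℕ)
  let b : M := (1 : ℕ)
  have hab : a ≠ b := by change (0 : ℕ) ≠ 1; decide
  obtain ⟨g, hg, -⟩ := h2 ![a, b] ![b, a] (pair_inj hab) (pair_inj hab.symm)
    (sameType_small (by norm_num) _ _)
  have ga : g • a = b := hg 0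
  have gb : g • b = a := hg 1
  have gg : g * g = 1 := uniq _ a b hab (by rw [mul_smul, ga, gb]) (by rw [mul_smul, gb, ga])
  have hg1 : g ≠ 1 := by
    rintro rfl
    exact hab (by simpa using ga)
  have hc : ∃ c : M, c ≠ a ∧ c ≠ b ∧ g • c ≠ c := by
    by_contra hne
    push Not at hne
    let c : M := (2 : ℕ)
    let d : M := (3 : ℕ)
    exact hg1 (uniq g c d (by change (2 : ℕ) ≠ 3; decide)
      (hne c (by change (2 : ℕ) ≠ 0; decide) (by change (2 : ℕ) ≠ 1; decide))
      (hne d (by change (3 : ℕ) ≠ 0; decide) (by change (3 : ℕ) ≠ 1; decide)))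
  obtain ⟨c, hca, hcb, hcc⟩ := hc
  have gc : g • g • c = c := by rw [← mul_smul, gg, one_smul]
  have hda : g • c ≠ a := fun h => hcb (by rw [← gc, h, ga])
  have hdb : g • c ≠ b := fun h => hca (by rw [← gc, h, gb])
  let v : Fin 4 → M := ![a, b, c, g • c]
  have hv : Function.Injective v := by
    exact quad_inj hab hca.symm hda.symm hcb.symm hdb.symm hcc.symm
  have e : (fun i => g • v i) = v ∘ sg := by
    funext i
    fin_cases i
    · exact ga
    · exact gb
    · rfl
    · exact gc
  have k1 := h1 g 4 r4 v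
  rw [e, relMap_M, relMap_M] at k1
  have k2 := good_R.2 v hv
  tauto

lemma trans3 (a b : Fin 3 → M) (ha : Function.Injective a) (hb : Function.Injective b) :
    ∃ e : M ≃[L4] M, ∀ i, e (a i) = b i := by
  let S := Substructure.closure L4 (Set.range a)
  have hS : ∀ x : S, ∃ i, a i = x := fun x =>
    (Substructure.mem_closure_iff_of_isRelational L4 (Set.range a) x.1).1 x.2
  choose ι hι using hS
  have hιi : Function.Injective ι := fun x y h => Subtype.ext (by rw [← hι x, ← hι y, h])
  let f : S ↪[L4] M := mkEmb (fun x => b (ι x)) (hb.comp hιi) (fun v => by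
    have := sameType_small (by norm_num) a b 4 r4 (ι ∘ v)
    have e : a ∘ ι ∘ v = (Substructure.subtype S) ∘ v := by funext i; exact hι _
    rw [e, (Substructure.subtype S).map_rel] at this
    exact this.symm)
  obtain ⟨e, he⟩ := ultrahom S (Substructure.fg_closure (Set.finite_range a)) f
  refine ⟨e, fun i => ?_⟩
  have hm : a i ∈ S := Substructure.subset_closure ⟨i, rfl⟩
  have := Embedding.ext_iff.1 he ⟨a i, hm⟩
  have e2 : ι ⟨a i, hm⟩ = i := ha (hι _)
  change b (ι ⟨a i, hm⟩) = e (a i) at this
  rw [← this, e2]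

end Pool.Agent.H27.Anti4
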