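import Mathlib

/-! Second-order p-adic smoothness of powers of binomial coefficients. -/

namespace Pool.Agent.H27.Bn
open Finset

structure Sm (p q : ℤ) (F : ℤ → ℤ) : Prop where
  a1 : ∀ x u j, p ^ j ∣ u → p ^ j ∣ F (x + q * u) - F x
  a2 : ∀ x u v i j, p ^ i ∣ u → p ^ j ∣ v →
    p ^ (i + j) ∣ F (x + q * u + q * v) - F (x + q * u) - F (x + q * v) + F x

variable {p q : ℤ} {F G : ℤ → ℤ}

theorem Sm.const (c : ℤ) : Sm p q fun _ => c := ⟨fun _ _ _ _ => by simp, fun _ _ _ _ _ _ _ => by simp⟩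

theorem Sm.id : Sm p q fun x => x :=
  ⟨fun _ _ _ h => by simpa using h.mul_left q, fun _ _ _ _ _ _ _ => by ring_nf; simp⟩

theorem Sm.add (hF : Sm p q F) (hG : Sm p q G) : Sm p q fun x => F x + G x :=
  ⟨fun x u j h => (dvd_add (hF.a1 x u j h) (hG.a1 x u j h)).trans (dvd_of_eq (by ring)),
    fun x u v i j h h' => (dvd_add (hF.a2 x u v i j h h') (hG.a2 x u v i j h h')).trans (dvd_of_eq (by ring))⟩

theorem Sm.mul (hF : Sm p q F) (hG : Sm p q G) : Sm p q fun x => F x * G x := by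
  refine ⟨fun x u j h => ?_, fun x u v i j h h' => ?_⟩
  · exact (dvd_add ((hF.a1 x u j h).mul_right (G (x + q * u))) ((hG.a1 x u j h).mul_left (F x))).trans
      (dvd_of_eq (by ring))
  · have e1 := mul_dvd_mul (hF.a1 x u i h) (hG.a1 (x + q * u) v j h')
    have e2 := mul_dvd_mul (hG.a1 (x + q * v) u i h) (hF.a1 x v j h')
    rw [← pow_add] at e1 e2
    rw [add_right_comm] at e2
    exact (dvd_add (dvd_add ((hF.a2 x u v i j h h').mul_right (G (x + q * u + q * v)))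
      ((hG.a2 x u v i j h h').mul_left (F x))) (dvd_add e1 e2)).trans (dvd_of_eq (by ring))

theorem Sm.pow (hF : Sm p q F) (e : ℕ) : Sm p q fun x => F x ^ e := by
  induction e with
  | zero => simpa using Sm.const 1
  | succ e ih => simpa [pow_succ] using ih.mul hF

theorem Sm.poly (f : Polynomial ℤ) : Sm p q fun x => f.eval x := by
  induction f using Polynomial.induction_on' with
  | add f g hf hg => simpa using hf.add hg
  | monomial n a => simpa using (Sm.const a).mul (Sm.id.pow n)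

theorem dvd_choose {p : ℕ} (hp : p.Prime) {t j c : ℕ} (h0 : j ≠ 0) (hj : j < p ^ (t + 1)) {u : ℤ}
    (hu : (p : ℤ) ^ c ∣ u) : (p : ℤ) ^ c ∣ Ring.choose ((p : ℤ) ^ t * u) j := by
  have h := Ring.choose_smul_choose ((p : ℤ) ^ t * u) (Nat.one_le_iff_ne_zero.mpr h0)
  rw [Nat.choose_one_right, Ring.choose_one_right, nsmul_eq_mul] at h
  obtain ⟨s, j', h1, rfl⟩ := Nat.exists_eq_pow_mul_and_not_dvd h0 p hp.ne_one
  have hs : s ≤ t := by
    have : p ^ s < p ^ (t + 1) := lt_of_le_of_lt (Nat.le_mul_of_pos_right _ (by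
      rcases j' with _ | j' <;> simp at h1 ⊢)) hj
    have := (Nat.pow_lt_pow_iff_right hp.one_lt).mp this
    omega
  obtain ⟨t, rfl⟩ := Nat.exists_eq_add_of_le hs
  have hp' : Prime (p : ℤ) := Nat.prime_iff_prime_int.mp hp
  refine hp'.pow_dvd_of_dvd_mul_left c (a := (j' : ℤ)) (by exact_mod_cast h1) ?_
  rw [← mul_dvd_mul_iff_left (pow_ne_zero s hp'.ne_zero), ← mul_assoc]
  push_cast at h
  rw [h, pow_add, mul_assoc, mul_assoc]
  exact mul_dvd_mul_left _ ((hu.mul_right _).mul_left _)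

theorem choose_diff (x M : ℤ) (r : ℕ) : Ring.choose (x + M) r - Ring.choose x r =
    ∑ ij ∈ antidiagonal r, Ring.choose x ij.1 * (Ring.choose M ij.2 - Ring.choose 0 ij.2) := by
  simp only [mul_sub, sum_sub_distrib]
  rw [← Ring.add_choose_eq _ (Commute.all _ _), ← Ring.add_choose_eq _ (Commute.all _ _), add_zero]

theorem dvd_delta {p : ℕ} (hp : p.Prime) {t j c : ℕ} (hj : j < p ^ (t + 1)) {u : ℤ}
    (hu : (p : ℤ) ^ c ∣ u) : (p : ℤ) ^ c ∣ Ring.choose ((p : ℤ) ^ t * u) j - Ring.choose 0 j := by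
  rcases j with _ | j
  · simp
  · simpa using dvd_choose hp (Nat.succ_ne_zero j) hj hu

theorem Sm.choose {p : ℕ} (hp : p.Prime) {t r : ℕ} (hr : r < p ^ (t + 1)) :
    Sm (p : ℤ) (p ^ t) fun x => Ring.choose x r := by
  have a1 : ∀ r < p ^ (t + 1), ∀ (x u : ℤ) j, (p : ℤ) ^ j ∣ u →
      (p : ℤ) ^ j ∣ Ring.choose (x + p ^ t * u) r - Ring.choose x r := fun r hr x u j h => by
    rw [choose_diff]
    exact dvd_sum fun ij hij => (dvd_delta hp ((HasAntidiagonal.antidiagonal.snd_le hij).trans_lt hr) h).mul_left _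
  refine ⟨a1 r hr, fun x u v i j h h' => ?_⟩
  have : ∀ a b c d : ℤ, a - b - c + d = (a - b) - (c - d) := fun _ _ _ _ => by ring
  rw [this, choose_diff, choose_diff, ← sum_sub_distrib, pow_add]
  refine dvd_sum fun ij hij => ?_
  rw [← sub_mul]
  exact mul_dvd_mul (a1 _ ((HasAntidiagonal.antidiagonal.fst_le hij).trans_lt hr) x u i h)
    (dvd_delta hp ((HasAntidiagonal.antidiagonal.snd_le hij).trans_lt hr) h')

theorem blocks (D : ℤ → ℤ) (L k : ℕ) :
    ∑ x ∈ range (L * k), D x = ∑ i ∈ range k, ∑ x ∈ range L, D (x + L * i) := by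
  induction k with
  | zero => simp
  | succ k ih =>
    rw [Nat.mul_succ, sum_range_add, ih, sum_range_succ]
    simp [add_comm]

theorem ind (p q b : ℕ) (D : ℤ → ℤ) (h0 : ∀ x, (p : ℤ) ^ b ∣ D x)
    (h1 : ∀ x u j, (p : ℤ) ^ j ∣ u → (p : ℤ) ^ (b + j) ∣ D (x + q * u) - D x) (c : ℕ) :
    ∀ M : ℕ, p ^ (c + 1) ∣ M → (p : ℤ) ^ (b + c) ∣ ∑ x ∈ range (q * M), D x := by
  induction c with
  | zero => exact fun M _ => dvd_sum fun x _ => h0 x
  | succ c ih =>
    intro M hM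
    obtain ⟨M, rfl⟩ : p ∣ M := (dvd_pow_self p (Nat.succ_ne_zero _)).trans hM
    rcases Nat.eq_zero_or_pos p with rfl | hp
    · simp
    rw [pow_succ', Nat.mul_dvd_mul_iff_left hp] at hM
    rw [mul_comm p, ← mul_assoc, blocks]
    have e : ∑ i ∈ range p, ∑ x ∈ range (q * M), D (x + (q * M : ℕ) * i) =
        p * ∑ x ∈ range (q * M), D x +
          ∑ i ∈ range p, ∑ x ∈ range (q * M), (D (x + q * (M * i)) - D x) := by
      simp [sum_sub_distrib, mul_assoc]
    rw [e, ← add_assoc, pow_succ']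
    refine dvd_add (mul_dvd_mul_left _ (ih M hM)) (dvd_sum fun i _ => dvd_sum fun x _ => ?_)
    rw [← pow_succ', add_assoc]
    exact h1 x _ _ (Dvd.dvd.mul_right (by exact_mod_cast hM) _)

theorem Sm.main {p q : ℕ} (hF : Sm p q F) {c N : ℕ} (hN : p ^ (c + 1) ∣ N) :
    (p : ℤ) ^ (c + 1 + c) ∣ ∑ x ∈ range (q * N), (F x - F (x - q * N)) := by
  have hN' : (p : ℤ) ^ (c + 1) ∣ N := by exact_mod_cast hN
  refine ind p q (c + 1) (fun x => F x - F (x - q * N)) (fun x => ?_) (fun x u j h => ?_) c N hN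
  · simpa using hF.a1 (x - q * N) N _ hN'
  · have := hF.a2 (x - q * N) N u _ _ hN' h
    rw [sub_add_cancel, sub_add_eq_add_sub] at this
    exact this.trans (dvd_of_eq (by ring))

theorem Sm.first {p : ℕ} (hF : Sm p 1 F) {c N : ℕ} (hN : p ^ (c + 1) ∣ N) :
    (p : ℤ) ^ c ∣ ∑ x ∈ range N, F x := by
  simpa using ind p 1 0 F (by simp) (fun x u j h => by simpa using hF.a1 x u j h) c N hN

def S (r e n : ℕ) : ℤ := ∑ h ∈ range n, Ring.choose (h : ℤ) r ^ e

theorem refl {r e : ℕ} (hr : Odd r) (he : Odd e) (n : ℕ) :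
    ∑ x ∈ range n, (Ring.choose (x : ℤ) r ^ e - Ring.choose ((x : ℤ) - n) r ^ e) =
      2 * S r e n + ∑ j ∈ range r, Ring.choose ((j : ℤ) + n) r ^ e := by
  have h1 : ∑ x ∈ range n, Ring.choose ((x : ℤ) - n) r ^ e =
      -∑ x ∈ range n, Ring.choose ((r + x : ℕ) : ℤ) r ^ e := by
    rw [← sum_range_reflect, ← sum_neg_distrib]
    refine sum_congr rfl fun x hx => ?_
    have : ((n - 1 - x : ℕ) : ℤ) - n = -(x + 1) := by have := mem_range.mp hx; omega
    rw [this, Ring.choose_neg, Int.negOnePow_odd _ (by exact_mod_cast hr), ← he.neg_pow,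
      show (x : ℤ) + 1 + r - 1 = (r + x : ℕ) by push_cast; ring]
    simp
  have h2 := sum_range_add (fun x : ℕ => Ring.choose (x : ℤ) r ^ e) r n
  have h3 := sum_range_add (fun x : ℕ => Ring.choose (x : ℤ) r ^ e) n r
  have h4 : ∑ x ∈ range r, Ring.choose (x : ℤ) r ^ e = 0 := sum_eq_zero fun x hx => by
    rw [Ring.choose_natCast, Nat.choose_eq_zero_of_lt (mem_range.mp hx)]
    simp [he.pos.ne']
  rw [add_comm r n, h3, h4] at h2
  rw [sum_sub_distrib, h1, S]
  simp only [Nat.cast_add, add_comm (n : ℤ)] at h2 ⊢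
  linarith

theorem tail {p t r e c N : ℕ} (hp : p.Prime) (hr : r < p ^ (t + 1)) (hN : p ^ c ∣ N) :
    (p : ℤ) ^ (c * e) ∣ ∑ j ∈ range r, Ring.choose ((j : ℤ) + (p ^ t * N : ℕ)) r ^ e := by
  refine dvd_sum fun j hj => ?_
  rw [pow_mul]
  apply pow_dvd_pow_of_dvd
  have := (Sm.choose hp hr).a1 j N c (by exact_mod_cast hN)
  simp only [Ring.choose_natCast, Nat.choose_eq_zero_of_lt (mem_range.mp hj)] at this
  simpa using this

/-- Whatever divides the symmetrised sum (up to `p ^ (3 c)`) divides `2 S`. -/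
theorem two_S {p t r e c N w : ℕ} (hp : p.Prime) (hr : r < p ^ (t + 1)) (hN : p ^ c ∣ N)
    (ho : Odd r) (he : Odd e) (hw : w ≤ c * e)
    (h : (p : ℤ) ^ w ∣ ∑ x ∈ range (p ^ t * N),
      (Ring.choose (x : ℤ) r ^ e - Ring.choose ((x : ℤ) - (p ^ t * N : ℕ)) r ^ e)) :
    (p : ℤ) ^ w ∣ 2 * S r e (p ^ t * N) := by
  rw [refl ho he] at h
  exact (dvd_add_left ((pow_dvd_pow _ hw).trans (tail hp hr hN))).mp h

theorem general {p t r e c N : ℕ} (hp : p.Prime) (hr : r < p ^ (t + 1)) (hN : p ^ (c + 1) ∣ N)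
    (ho : Odd r) (he : Odd e) (h2 : 2 ≤ e) : (p : ℤ) ^ (c + 1 + c) ∣ 2 * S r e (p ^ t * N) := by
  refine two_S hp hr hN ho he (by nlinarith) ?_
  have := Sm.main (q := p ^ t) (by simpa using (Sm.choose hp hr).pow e) hN
  simpa using this

end Pool.Agent.H27.Bn
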