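import Pool.Agent.H27.BnA

/-! Power sums and the symmetrised sum of a polynomial. -/

namespace Pool.Agent.H27.Bn
open Finset Polynomial

theorem pow_sum {p : ℕ} (hp : p.Prime) {s : ℕ} (h : s < p - 1 ∨ ¬ p - 1 ∣ s) :
    (p : ℤ) ∣ ∑ x ∈ range p, (x : ℤ) ^ s := by
  haveI := Fact.mk hp
  rw [← ZMod.intCast_zmod_eq_zero_iff_dvd]
  push_cast
  have e : ∑ x ∈ range p, (x : ZMod p) ^ s = ∑ x : ZMod p, x ^ s :=
    sum_nbij' (fun x => (x : ZMod p)) ZMod.val (by simp) (by simp [ZMod.val_lt])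
      (fun x hx => ZMod.val_cast_of_lt (by simpa using hx)) (by simp) (by simp)
  rw [e]
  rcases h with h | h
  · exact FiniteField.sum_pow_lt_card_sub_one _ s (by simpa using h)
  · have h1 : 0 < p - 1 := by have := hp.two_le; omega
    have h2 : s % (p - 1) ≠ 0 := fun h0 => h (Nat.dvd_of_mod_eq_zero h0)
    rw [← FiniteField.sum_pow_lt_card_sub_one (ZMod p) (s % (p - 1)) (by simpa using Nat.mod_lt _ h1)]
    refine sum_congr rfl fun x _ => ?_
    rw [← Nat.div_add_mod s (p - 1), pow_add, pow_mul, Nat.div_add_mod]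
    by_cases hx : x = 0
    · simp [hx, h2]
    · rw [ZMod.pow_card_sub_one_eq_one hx, one_pow, one_mul]

theorem low_deg {p : ℕ} (hp : p.Prime) {D : ℤ[X]} (h : D.natDegree < p - 1) :
    (p : ℤ) ∣ ∑ x ∈ range p, D.eval (x : ℤ) := by
  simp only [eval_eq_sum_range]
  rw [sum_comm]
  refine dvd_sum fun i hi => ?_
  rw [← mul_sum]
  exact (pow_sum hp (Or.inl (by have := mem_range.mp hi; omega))).mul_left _

theorem lift {p : ℕ} (hp : Odd p) {D : ℤ[X]} (h : (p : ℤ) ∣ ∑ x ∈ range p, D.eval (x : ℤ)) (c : ℕ) :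
    ∀ M : ℕ, p ^ (c + 1) ∣ M → (p : ℤ) ^ (c + 1) ∣ ∑ x ∈ range M, D.eval (x : ℤ) := by
  induction c with
  | zero =>
    rintro _ ⟨M, rfl⟩
    rw [zero_add, pow_one, pow_one, blocks (fun x => D.eval x)]
    refine dvd_sum fun i _ => ?_
    rw [← dvd_sub_left h, ← sum_sub_distrib]
    refine dvd_sum fun x _ => ?_
    simpa using (Sm.poly (p := p) (q := 1) D).a1 x (p * i) 1 (by simp)
  | succ c ih =>
    intro M hM
    obtain ⟨M, rfl⟩ : p ∣ M := (dvd_pow_self p (Nat.succ_ne_zero _)).trans hM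
    rw [pow_succ', Nat.mul_dvd_mul_iff_left hp.pos] at hM
    have hM' : (p : ℤ) ^ (c + 1) ∣ M := by exact_mod_cast hM
    rw [mul_comm p, blocks (fun x => D.eval x)]
    have e : ∀ x y : ℤ, D.eval (x + y) = D.eval x + D.derivative.eval x * y +
      (binomExpansion D x y).1 * y ^ 2 := fun x y => (binomExpansion D x y).2
    have hs : (p : ℤ) ∣ ∑ i ∈ range p, (i : ℤ) := by
      obtain ⟨k, rfl⟩ := hp
      have := sum_range_id_mul_two (2 * k + 1)
      refine ⟨k, ?_⟩
      rw [← Nat.cast_sum, ← Nat.cast_mul, Nat.cast_inj]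
      simp only [Nat.add_sub_cancel] at this
      linarith
    simp only [e, sum_add_distrib, sum_const, card_range, nsmul_eq_mul, ← sum_mul]
    refine dvd_add (dvd_add ?_ ?_) (dvd_sum fun i _ => ?_)
    · rw [pow_succ']
      exact mul_dvd_mul_left _ (ih M hM)
    · rw [← mul_sum, ← mul_sum, pow_succ]
      exact (mul_dvd_mul hM' hs).mul_left _
    · refine Dvd.dvd.mul_left ?_ _
      rw [mul_pow, sq (M : ℤ), pow_succ]
      exact (mul_dvd_mul hM' ((dvd_pow_self _ (Nat.succ_ne_zero _)).trans hM')).mul_right _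

/-- The symmetrised sum. -/
def W (F : ℤ → ℤ) (N : ℕ) : ℤ := ∑ x ∈ range N, (F x - F (x - N))

theorem taylor {p : ℤ} {b N : ℕ} {F : ℤ[X]} (hN : p ^ b ∣ N)
    (h : p ^ b ∣ ∑ x ∈ range N, F.derivative.eval (x : ℤ)) : p ^ (b + b) ∣ W (fun x => F.eval x) N := by
  have e : ∀ x : ℤ, F.eval x - F.eval (x - N) = F.derivative.eval x * N -
      (binomExpansion F x (-N)).1 * (N * N) := fun x => by
    have := (binomExpansion F x (-N)).2
    rw [sub_eq_add_neg x]
    linear_combination -this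
  simp only [W, e, sum_sub_distrib, ← sum_mul, pow_add]
  exact dvd_sub (mul_dvd_mul h hN) ((mul_dvd_mul hN hN).mul_left _)

theorem W_gen {p c N : ℕ} (F : ℤ[X]) (hN : p ^ (c + 1) ∣ N) :
    (p : ℤ) ^ (c + 1 + c) ∣ W (fun x => F.eval x) N := by
  simpa [W] using Sm.main (q := 1) (Sm.poly F) hN

theorem W_pow {p c N s : ℕ} (hp : p.Prime) (ho : Odd p) (hN : p ^ (c + 1) ∣ N)
    (h : ¬ p - 1 ∣ s ∨ p ∣ s + 1) : (p : ℤ) ^ (c + 1 + (c + 1)) ∣ W (fun x => x ^ (s + 1)) N := by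
  have := taylor (p := p) (b := c + 1) (N := N) (F := X ^ (s + 1)) (by exact_mod_cast hN) (by
    simp only [derivative_X_pow_succ, eval_mul, eval_C, eval_pow, eval_X, ← mul_sum]
    rcases h with h | h
    · have := lift ho (D := X ^ s) (by simpa using pow_sum hp (Or.inr h)) c N hN
      simp only [eval_pow, eval_X] at this
      exact this.mul_left _
    · rw [pow_succ']
      exact mul_dvd_mul (by exact_mod_cast h) (Sm.first (Sm.id.pow s) hN))
  simpa using this

/-- Reduction of the sums over `range (q * N)` to sums of `Φ`. -/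
theorem red {q r e N : ℕ} {U : ℤ} {Φ : ℤ → ℤ}
    (h : ∀ z : ℤ, U * ∑ y ∈ range q, Ring.choose ((y : ℤ) + q * z) r ^ e = Φ z) :
    U * S r e (q * N) = ∑ z ∈ range N, Φ z ∧
    U * ∑ x ∈ range (q * N), (Ring.choose (x : ℤ) r ^ e - Ring.choose ((x : ℤ) - (q * N : ℕ)) r ^ e) =
      W Φ N := by
  constructor
  · rw [S, blocks (fun x => Ring.choose x r ^ e), mul_sum]
    exact sum_congr rfl fun z _ => h z
  · rw [blocks (fun x => Ring.choose x r ^ e - Ring.choose (x - (q * N : ℕ)) r ^ e), mul_sum, W]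
    refine sum_congr rfl fun z _ => ?_
    rw [← h, ← h, sum_sub_distrib, mul_sub]
    simp [mul_sub, add_sub_assoc]

theorem fact_choose (x : ℤ) (r : ℕ) : (r.factorial : ℤ) * Ring.choose x r = ∏ i ∈ range r, (x - i) := by
  rw [← nsmul_eq_mul, ← Ring.descPochhammer_eq_factorial_smul_choose, ← eval_eq_smeval,
    descPochhammer_eval_eq_prod_range]

theorem fin_S {p t r e c N w : ℕ} (hp : p.Prime) (h2 : Odd p) (hr : r < p ^ (t + 1)) (hN : p ^ c ∣ N)
    (ho : Odd r) (he : Odd e) (hw : w ≤ c * e) {U : ℤ} (hU : ¬ (p : ℤ) ∣ U) {Φ : ℤ → ℤ}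
    (h : ∀ z : ℤ, U ^ e * ∑ y ∈ range (p ^ t), Ring.choose ((y : ℤ) + (p ^ t : ℕ) * z) r ^ e = Φ z)
    (hW : (p : ℤ) ^ w ∣ W Φ N) : (p : ℤ) ^ w ∣ S r e (p ^ t * N) := by
  have hp' : Prime (p : ℤ) := Nat.prime_iff_prime_int.mp hp
  rw [← (red h).2] at hW
  refine hp'.pow_dvd_of_dvd_mul_left w (a := 2) (fun h => ?_) (two_S hp hr hN ho he hw
    (hp'.pow_dvd_of_dvd_mul_left w (fun h => hU (hp'.dvd_of_dvd_pow h)) hW))
  have : p ∣ 2 := by exact_mod_cast h
  rw [(Nat.prime_dvd_prime_iff_eq hp Nat.prime_two).mp this] at h2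
  exact absurd h2 (by decide)

theorem alpha {p r e c N : ℕ} (hp : p.Prime) (hd : r * e + 1 < p) (hN : p ^ (c + 1) ∣ N)
    (ho : Odd r) (he : Odd e) (h2 : 2 ≤ e) : (p : ℤ) ^ (c + 1 + (c + 1)) ∣ S r e N := by
  have := ho.pos
  have hr : r < p := by nlinarith
  have hp2 : Odd p := hp.odd_of_ne_two (by rintro rfl; nlinarith)
  have := fin_S (t := 0) (w := c + 1 + (c + 1)) hp hp2 (by simpa using hr) hN ho he (by nlinarith)
    (U := r.factorial) (by rw [Int.natCast_dvd_natCast, hp.dvd_factorial]; omega)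
    (Φ := fun x => (descPochhammer ℤ r ^ e).eval x)
    (fun z => by simp [← mul_pow, fact_choose, descPochhammer_eval_eq_prod_range])
    (taylor (by exact_mod_cast hN) (lift hp2 (low_deg hp (by
      have h1 := natDegree_derivative_le (descPochhammer ℤ r ^ e)
      rw [natDegree_pow, descPochhammer_natDegree, mul_comm e] at h1
      omega)) c N hN))
  simpa using this

end Pool.Agent.H27.Bn
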