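import Pool.Agent.H27.BnB

/-! The exceptional cases `r = p` and `r = 9`. -/

namespace Pool.Agent.H27.Bn
open Finset Polynomial

def Tay (p : ℤ) (F : ℤ → ℤ) (c : ℤ) : Prop :=
  ∃ (w : ℤ) (H : ℤ[X]), ∀ z, F z = c + p * w * z + p ^ 2 * H.eval z

variable {p : ℤ} {F G : ℤ → ℤ} {a b : ℤ}

theorem Tay.mul (hF : Tay p F a) (hG : Tay p G b) : Tay p (fun z => F z * G z) (a * b) := by
  obtain ⟨w, H, h⟩ := hF
  obtain ⟨w', H', h'⟩ := hG
  refine ⟨a * w' + b * w, C (w * w') * X ^ 2 + H * (C b + C (p * w') * X + C (p ^ 2) * H') +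
    H' * (C a + C (p * w) * X), fun z => ?_⟩
  simp only [h, h', eval_add, eval_mul, eval_C, eval_pow, eval_X]
  ring

theorem Tay.prod {s : Finset ℕ} {F : ℕ → ℤ → ℤ} {a : ℕ → ℤ} (h : ∀ i ∈ s, Tay p (F i) (a i)) :
    Tay p (fun z => ∏ i ∈ s, F i z) (∏ i ∈ s, a i) := by
  induction s using Finset.induction_on with
  | empty => exact ⟨0, 0, by simp⟩
  | insert i s hi ih =>
    simp only [prod_insert hi]
    exact (h i (by simp)).mul (ih fun j hj => h j (by simp [hj]))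

theorem Tay.pow (h : Tay p F a) (e : ℕ) : Tay p (fun z => F z ^ e) (a ^ e) := by
  simpa using Tay.prod (s := range e) (F := fun _ => F) (a := fun _ => a) fun _ _ => h

theorem Tay.sum {s : Finset ℕ} {F : ℕ → ℤ → ℤ} {a : ℕ → ℤ} (h : ∀ i ∈ s, Tay p (F i) (a i)) :
    Tay p (fun z => ∑ i ∈ s, F i z) (∑ i ∈ s, a i) := by
  induction s using Finset.induction_on with
  | empty => exact ⟨0, 0, by simp⟩
  | insert i s hi ih =>
    obtain ⟨w, H, h1⟩ := h i (by simp)
    obtain ⟨w', H', h2⟩ := ih fun j hj => h j (by simp [hj])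
    refine ⟨w + w', H + H', fun z => ?_⟩
    have := h2 z
    simp only [sum_insert hi, h1, eval_add] at this ⊢
    linear_combination this

theorem split (T : ℤ) (y k : ℕ) : ∏ i ∈ range (y + 1 + k), ((y : ℤ) + T - i) =
    T * ((∏ i ∈ range y, (T + (i + 1))) * ∏ i ∈ range k, (T + -(i + 1))) := by
  rw [prod_range_add, prod_range_succ, ← prod_range_reflect _ y, mul_left_comm, ← mul_assoc]
  congr 1
  · congr 1
    · exact prod_congr rfl fun i hi => by have := mem_range.mp hi; omega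
    · ring
  · exact prod_congr rfl fun i _ => by push_cast; ring

def cy (n y : ℕ) : ℤ := (∏ i ∈ range y, ((i : ℤ) + 1)) * ∏ i ∈ range (n - y), -((i : ℤ) + 1)

theorem cy_mul {n y : ℕ} (hn : Even n) (hy : y ≤ n) :
    cy n y * ((-1) ^ y * n.choose y) = n.factorial := by
  have h : ∀ y : ℕ, ∏ i ∈ range y, ((i : ℤ) + 1) = y.factorial := fun y => by
    rw [← prod_range_add_one_eq_factorial]; push_cast; rfl
  have h2 : (-1 : ℤ) ^ (n - y) * (-1) ^ y = 1 := by rw [← pow_add, Nat.sub_add_cancel hy, hn.neg_one_pow]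
  rw [cy, prod_neg, h, h, card_range, ← Nat.choose_mul_factorial_mul_factorial hy]
  push_cast
  linear_combination (n.choose y * y.factorial * (n - y).factorial : ℤ) * h2

theorem cy_sub {n y : ℕ} (hp : (n + 1).Prime) (hn : Even n) (hy : y ≤ n) :
    ((n + 1 : ℕ) : ℤ) ∣ cy n y - n.factorial := by
  have : ((n + 1 : ℕ) : ℤ) ∣ (-1) ^ y * n.choose y - 1 := by
    rw [← Int.alternating_sum_range_choose_eq_choose, sum_range_succ']
    simp only [pow_zero, Nat.choose_zero_right, Nat.cast_one, mul_one, add_sub_cancel_right]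
    refine dvd_sum fun i hi => Dvd.dvd.mul_left ?_ _
    exact_mod_cast hp.dvd_choose_self (by omega) (by have := mem_range.mp hi; omega)
  rw [← cy_mul hn hy]
  exact (this.mul_left (-cy n y)).trans (dvd_of_eq (by ring))

theorem kappa1 {n : ℕ} (hp : (n + 1).Prime) (hn : Even n) (e : ℕ) :
    ((n + 1 : ℕ) : ℤ) ∣ ∑ y ∈ range (n + 1), cy n y ^ e := by
  have : ((n + 1 : ℕ) : ℤ) ∣ ∑ y ∈ range (n + 1), (cy n y ^ e - (n.factorial : ℤ) ^ e) :=
    dvd_sum fun y hy => (cy_sub hp hn (by have := mem_range.mp hy; omega)).trans (sub_dvd_pow_sub_pow _ _ _)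
  rw [sum_sub_distrib, sum_const, card_range, nsmul_eq_mul] at this
  exact (dvd_sub_left (dvd_mul_right _ _)).mp this

theorem nU {n : ℕ} (hp : (n + 1).Prime) : ¬ ((n + 1 : ℕ) : ℤ) ∣ n.factorial := by
  rw [Int.natCast_dvd_natCast, hp.dvd_factorial]
  omega

theorem kappa2 {n : ℕ} (hp : (n + 1).Prime) (hn : Even n) :
    ((n + 1 : ℕ) : ℤ) ^ 2 ∣ ∑ y ∈ range (n + 1), cy n y ^ (2 * n + 1) := by
  have h0 : n ≠ 0 := by rintro rfl; exact Nat.not_prime_one hp
  refine (Nat.prime_iff_prime_int.mp hp).pow_dvd_of_dvd_mul_left 2 (nU hp) ?_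
  have : (n.factorial : ℤ) * ∑ y ∈ range (n + 1), cy n y ^ (2 * n + 1) = ∑ y ∈ range (n + 1),
      ((cy n y ^ (n + 1)) ^ 2 - ((n.factorial : ℤ) ^ (n + 1)) ^ 2) * ((-1) ^ y * n.choose y) := by
    simp only [sub_mul, sum_sub_distrib, ← mul_sum, Int.alternating_sum_range_choose_of_ne h0]
    rw [mul_zero, sub_zero, mul_sum]
    refine sum_congr rfl fun y hy => ?_
    rw [← cy_mul hn (by have := mem_range.mp hy; omega : y ≤ n)]
    ring
  rw [this]
  refine dvd_sum fun y hy => Dvd.dvd.mul_right (Dvd.dvd.trans ?_ (sub_dvd_pow_sub_pow _ _ _)) _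
  simpa using dvd_sub_pow_of_dvd_sub (cy_sub hp hn (by have := mem_range.mp hy; omega : y ≤ n)) 1

theorem phi (n e : ℕ) : ∃ (w : ℤ) (H : ℤ[X]), ∀ z : ℤ, (n.factorial : ℤ) ^ e *
    ∑ y ∈ range (n + 1), Ring.choose ((y : ℤ) + (n + 1 : ℕ) * z) (n + 1) ^ e =
      (∑ y ∈ range (n + 1), cy n y ^ e) * z ^ e + (n + 1 : ℕ) * w * z ^ (e + 1) +
        ((n + 1 : ℕ) : ℤ) ^ 2 * H.eval z := by
  have l : ∀ a : ℤ, Tay ((n + 1 : ℕ) : ℤ) (fun z => (n + 1 : ℕ) * z + a) a := fun a => ⟨1, 0, by simp [add_comm]⟩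
  obtain ⟨w, H, h⟩ := Tay.sum (s := range (n + 1)) (a := fun y => cy n y ^ e) fun y _ =>
    ((Tay.prod (s := range y) fun i _ => l (i + 1)).mul
      (Tay.prod (s := range (n - y)) fun i _ => l (-(i + 1)))).pow e
  refine ⟨w, X ^ e * H, fun z => ?_⟩
  have := h z
  simp only [eval_mul, eval_pow, eval_X] at this ⊢
  refine Eq.trans ?_ ((congrArg (z ^ e * ·) this).trans (by ring))
  rw [mul_sum, mul_sum]
  refine sum_congr rfl fun y hy => ?_
  have h1 := split ((n + 1 : ℕ) * z) y (n - y)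
  rw [show y + 1 + (n - y) = n + 1 by have := mem_range.mp hy; omega, ← fact_choose,
    Nat.factorial_succ, Nat.cast_mul, mul_assoc, mul_assoc] at h1
  rw [← mul_pow, ← mul_pow, mul_left_cancel₀ (by positivity) h1]

theorem W_lin (a b d : ℤ) (F G H : ℤ → ℤ) (N : ℕ) :
    W (fun z => a * F z + b * G z + d * H z) N = a * W F N + b * W G N + d * W H N := by
  simp only [W, mul_sum, ← sum_add_distrib]
  exact sum_congr rfl fun _ _ => by ring

theorem beta {p e : ℕ} (hp : p.Prime) (ho : Odd p) (he : Odd e) (hpe : p ≤ e) (N : ℕ) :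
    (p : ℤ) ∣ S p e (p * N) ∧ ∀ c, p ^ (c + 1) ∣ N → (p : ℤ) ^ (2 * c + 2) ∣ S p e (p * N) ∧
      (e < 2 * p → (p : ℤ) ^ (2 * c + 3) ∣ S p e (p * N)) := by
  have h3 : 3 ≤ p := by have := hp.two_le; obtain ⟨k, rfl⟩ := ho; omega
  obtain ⟨n, rfl⟩ : ∃ n, p = n + 1 := ⟨p - 1, by omega⟩
  have hn : Even n := by simpa [Nat.odd_add_one] using ho
  obtain ⟨w, H, h⟩ := phi n e
  have k1 := kappa1 hp hn e
  have hp' := Nat.prime_iff_prime_int.mp hp
  refine ⟨?_, fun c hN => ?_⟩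
  · refine (hp'.dvd_or_dvd (a := (n.factorial : ℤ) ^ e) ?_).resolve_left
      fun h => nU hp (hp'.dvd_of_dvd_pow h)
    rw [(red h).1]
    exact dvd_sum fun z _ => dvd_add (dvd_add (k1.mul_right _) ((dvd_mul_right _ _).mul_right _))
      ((dvd_pow_self _ two_ne_zero).mul_right _)
  have key : ∀ v ≤ 2 * c + 3, ((n + 1 : ℕ) : ℤ) ^ v ∣
      (∑ y ∈ range (n + 1), cy n y ^ e) * W (fun z => z ^ e) N →
      ((n + 1 : ℕ) : ℤ) ^ v ∣ S (n + 1) e ((n + 1) * N) := fun v hv h1 => by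
    have := fin_S (t := 1) (w := v) hp ho (by norm_num; nlinarith) hN ho he (by nlinarith) (nU hp)
      (fun z => by simpa only [pow_one] using h z) (by
        rw [W_lin]
        refine dvd_add (dvd_add h1 ?_) ?_ <;> refine (pow_dvd_pow _ hv).trans ?_
        · rw [show 2 * c + 3 = c + 1 + (c + 1) + 1 by ring, pow_succ']
          refine mul_dvd_mul (dvd_mul_right _ _) (W_pow hp ho hN (Or.inl fun h => ?_))
          exact absurd (hn.two_dvd.trans h) he.not_two_dvd_nat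
        · rw [show 2 * c + 3 = 2 + (c + 1 + c) by ring, pow_add]
          exact mul_dvd_mul_left _ (W_gen H hN))
    simpa only [pow_one] using this
  have wg : ((n + 1 : ℕ) : ℤ) ^ (c + 1 + c) ∣ W (fun z => z ^ e) N := by simpa using W_gen (X ^ e) hN
  refine ⟨key _ (by omega) ?_, fun h2 => key _ le_rfl ?_⟩
  · rw [show 2 * c + 2 = c + 1 + c + 1 by ring, pow_succ']
    exact mul_dvd_mul k1 wg
  by_cases h4 : e = 2 * n + 1
  · rw [show 2 * c + 3 = 2 + (c + 1 + c) by ring, pow_add]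
    exact mul_dvd_mul (h4 ▸ kappa2 hp hn) wg
  obtain ⟨s, rfl⟩ : ∃ s, e = s + 1 := ⟨e - 1, by omega⟩
  rw [show 2 * c + 3 = c + 1 + (c + 1) + 1 by ring, pow_succ']
  refine mul_dvd_mul k1 (W_pow hp ho hN ?_)
  by_cases h5 : s = n
  · exact Or.inr (by rw [h5])
  refine Or.inl ?_
  rintro ⟨j, hj⟩
  rw [Nat.add_sub_cancel] at hj
  rcases j with _ | _ | j
  · omega
  · omega
  · have : n * (j + 1 + 1) = n * j + 2 * n := by ring
    omega

theorem nine (y : ℕ) (hy : y < 9) : ∃ H : ℤ[X], ∀ z : ℤ,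
    4480 * Ring.choose ((y : ℤ) + (3 ^ 2 : ℕ) * z) 9 = 4480 * z + 3 * H.eval z := by
  have h := fun z : ℤ => fact_choose ((y : ℤ) + (3 ^ 2 : ℕ) * z) 9
  simp only [prod_range_succ, prod_range_zero, Nat.factorial] at h
  interval_cases y
  · exact ⟨C (-36528) * X ^ 2 + C (354372) * X ^ 3 + C (-1816668) * X ^ 4 + C (5455107) * X ^ 5 + C (-9920232) * X ^ 6 + C (10746918) * X ^ 7 + C (-6377292) * X ^ 8 + C (1594323) * X ^ 9, fun z => by
      have := h z
      simp only [eval_add, eval_mul, eval_C, eval_pow, eval_X]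
      push_cast at this ⊢
      linarith⟩
  · exact ⟨C (-1680) * X ^ 1 + C (2676) * X ^ 2 + C (-192) * X ^ 3 + C (-171801) * X ^ 4 + C (1168587) * X ^ 5 + C (-3582306) * X ^ 6 + C (5786802) * X ^ 7 + C (-4782969) * X ^ 8 + C (1594323) * X ^ 9, fun z => by
      have := h z
      simp only [eval_add, eval_mul, eval_C, eval_pow, eval_X]
      push_cast at this ⊢
      linarith⟩
  · exact ⟨C (-1440) * X ^ 1 + C (-456) * X ^ 2 + C (-3972) * X ^ 3 + C (44226) * X ^ 4 + C (-56133) * X ^ 5 + C (-551124) * X ^ 6 + C (2243862) * X ^ 7 + C (-3188646) * X ^ 8 + C (1594323) * X ^ 9, fun z => by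
      have := h z
      simp only [eval_add, eval_mul, eval_C, eval_pow, eval_X]
      push_cast at this ⊢
      linarith⟩
  · exact ⟨C (-1520) * X ^ 1 + C (108) * X ^ 2 + C (2832) * X ^ 3 + C (-11907) * X ^ 4 + C (-56133) * X ^ 5 + C (275562) * X ^ 6 + C (118098) * X ^ 7 + C (-1594323) * X ^ 8 + C (1594323) * X ^ 9, fun z => by
      have := h z
      simp only [eval_add, eval_mul, eval_C, eval_pow, eval_X]
      push_cast at this ⊢
      linarith⟩
  · exact ⟨C (-1472) * X ^ 1 + C (-2460) * X ^ 3 + C (66339) * X ^ 5 + C (-590490) * X ^ 7 + C (1594323) * X ^ 9, fun z => by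
      have := h z
      simp only [eval_add, eval_mul, eval_C, eval_pow, eval_X]
      push_cast at this ⊢
      linarith⟩
  · exact ⟨C (-1520) * X ^ 1 + C (-108) * X ^ 2 + C (2832) * X ^ 3 + C (11907) * X ^ 4 + C (-56133) * X ^ 5 + C (-275562) * X ^ 6 + C (118098) * X ^ 7 + C (1594323) * X ^ 8 + C (1594323) * X ^ 9, fun z => by
      have := h z
      simp only [eval_add, eval_mul, eval_C, eval_pow, eval_X]
      push_cast at this ⊢
      linarith⟩
  · exact ⟨C (-1440) * X ^ 1 + C (456) * X ^ 2 + C (-3972) * X ^ 3 + C (-44226) * X ^ 4 + C (-56133) * X ^ 5 + C (551124) * X ^ 6 + C (2243862) * X ^ 7 + C (3188646) * X ^ 8 + C (1594323) * X ^ 9, fun z => by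
      have := h z
      simp only [eval_add, eval_mul, eval_C, eval_pow, eval_X]
      push_cast at this ⊢
      linarith⟩
  · exact ⟨C (-1680) * X ^ 1 + C (-2676) * X ^ 2 + C (-192) * X ^ 3 + C (171801) * X ^ 4 + C (1168587) * X ^ 5 + C (3582306) * X ^ 6 + C (5786802) * X ^ 7 + C (4782969) * X ^ 8 + C (1594323) * X ^ 9, fun z => by
      have := h z
      simp only [eval_add, eval_mul, eval_C, eval_pow, eval_X]
      push_cast at this ⊢
      linarith⟩
  · exact ⟨C (36528) * X ^ 2 + C (354372) * X ^ 3 + C (1816668) * X ^ 4 + C (5455107) * X ^ 5 + C (9920232) * X ^ 6 + C (10746918) * X ^ 7 + C (6377292) * X ^ 8 + C (1594323) * X ^ 9, fun z => by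
      have := h z
      simp only [eval_add, eval_mul, eval_C, eval_pow, eval_X]
      push_cast at this ⊢
      linarith⟩

theorem gamma {e c N : ℕ} (he : Odd e) (h2 : 2 ≤ e) (hN : 3 ^ (c + 1) ∣ N) :
    ((3 : ℕ) : ℤ) ^ (2 * c + 2) ∣ S 9 e (3 ^ 2 * N) := by
  choose! H hH using nine
  obtain ⟨G, hG⟩ : (3 : ℤ[X]) ∣ ∑ y ∈ range (3 ^ 2), (4480 * X + 3 * H y) ^ e := by
    have : (3 : ℤ[X]) ∣ ∑ y ∈ range (3 ^ 2), ((4480 * X + 3 * H y) ^ e - (4480 * X) ^ e) :=
      dvd_sum fun y _ => Dvd.dvd.trans (by simp) (sub_dvd_pow_sub_pow _ _ _)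
    rw [sum_sub_distrib, sum_const, card_range, nsmul_eq_mul] at this
    exact (dvd_sub_left (Dvd.dvd.mul_right ⟨3, by norm_num⟩ _)).mp this
  refine fin_S (t := 2) Nat.prime_three (by decide) (by norm_num) hN (by decide) he (by nlinarith)
    (U := 4480) (by norm_num) (Φ := fun z => 3 * G.eval z + 0 * z + 0 * z) (fun z => ?_) ?_
  · have := congrArg (eval z) hG
    simp only [eval_finsetSum, eval_mul, eval_pow, eval_add, eval_X, eval_ofNat] at this
    rw [zero_mul, add_zero, add_zero, ← this, mul_sum]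
    exact sum_congr rfl fun y hy => by rw [← mul_pow, hH y (mem_range.mp hy)]
  · rw [W_lin 3 0 0 (fun z => G.eval z) (fun z => z) (fun z => z), zero_mul, add_zero, add_zero,
      show 2 * c + 2 = c + 1 + c + 1 by ring, pow_succ']
    exact mul_dvd_mul_left _ (W_gen G hN)

end Pool.Agent.H27.Bn
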