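import Pool.Agent.H27.BnC

/-! The valuation of the prefactor and the assembly of the cases. -/

namespace Pool.Agent.H27.Bn
open Finset

def Cf (r e : ℕ) : ℕ := (r * e + 1).factorial / r.factorial ^ e

theorem val {p r e t j τ : ℕ} (hp : p.Prime) (hr : r < p ^ (t + 1))
    (hτ : τ + ∑ i ∈ Ico 1 (t + 1), e * (r / p ^ i) ≤ ∑ i ∈ Ico 1 (t + 1), (r * e + 1) / p ^ i)
    (hj : j ≤ τ + (r * e + 1) / p ^ (t + 1) + (r * e + 1) / p ^ (t + 2)) : p ^ j ∣ Cf r e := by
  have hd : r.factorial ^ e ∣ (r * e + 1).factorial := by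
    have := Nat.prod_factorial_dvd_factorial_sum (range e) fun _ => r
    simp only [prod_const, card_range, sum_const, smul_eq_mul] at this
    exact this.trans (Nat.factorial_dvd_factorial (by rw [mul_comm]; omega))
  have h0 : Cf r e ≠ 0 :=
    (Nat.div_pos (Nat.le_of_dvd (Nat.factorial_pos _) hd) (by positivity)).ne'
  have h1 := Nat.factorization_factorial hp (n := r) (b := t + 1)
    (Nat.log_lt_of_lt_pow' (Nat.succ_ne_zero t) hr)
  have h2 := Nat.factorization_factorial hp (n := r * e + 1) (b := t + 3 + Nat.log p (r * e + 1)) (by omega)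
  rw [← sum_Ico_consecutive _ (by omega : 1 ≤ t + 1) (by omega), sum_eq_sum_Ico_succ_bot (by omega : t + 1 < _),
    sum_eq_sum_Ico_succ_bot (by omega : t + 1 + 1 < _)] at h2
  rw [hp.pow_dvd_iff_le_factorization h0, Cf, Nat.factorization_div hd, Nat.factorization_pow]
  simp only [Finsupp.coe_tsub, Finsupp.coe_smul, Pi.sub_apply, Pi.smul_apply, smul_eq_mul]
  rw [h1, h2, mul_sum]
  rw [show t + 1 + 1 = t + 2 from rfl]
  omega

theorem term_le (p r e i : ℕ) : e * (r / p ^ i) ≤ (r * e + 1) / p ^ i := by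
  rw [mul_comm r]
  exact (Nat.mul_div_le_mul_div_assoc _ _ _).trans (Nat.div_le_div_right (Nat.le_succ _))

theorem val0 {p r e t j : ℕ} (x y : ℕ) (hp : p.Prime) (hr : r < p ^ (t + 1))
    (hx : x * (p ^ t * p) ≤ r * e + 1) (hy : y * (p ^ t * p * p) ≤ r * e + 1) (hj : j ≤ x + y) :
    p ^ j ∣ Cf r e := by
  have := hp.pos
  rw [← Nat.le_div_iff_mul_le (by positivity)] at hx hy
  exact val (τ := 0) hp hr (by simpa using sum_le_sum fun i _ => term_le p r e i)
    (by simp only [pow_succ]; omega)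

theorem val1 {p r e t j : ℕ} (τ x y : ℕ) (hp : p.Prime) (hr : r < p ^ (t + 1 + 1))
    (hτ : (τ + e * (r / p)) * p ≤ r * e + 1)
    (hx : x * (p ^ t * p * p) ≤ r * e + 1) (hy : y * (p ^ t * p * p * p) ≤ r * e + 1) (hj : j ≤ τ + x + y) :
    p ^ j ∣ Cf r e := by
  have := hp.pos
  rw [← Nat.le_div_iff_mul_le (by positivity)] at hx hy hτ
  refine val (τ := τ) hp hr ?_ (by simp only [pow_succ]; omega)
  rw [sum_eq_sum_Ico_succ_bot (by omega), sum_eq_sum_Ico_succ_bot (by omega : 1 < _), pow_one, ← add_assoc]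
  exact add_le_add hτ (sum_le_sum fun i _ => term_le p r e i)

theorem big {p r e t : ℕ} (hp : p.Prime) (h1 : p ^ t ≤ r) (hr : r < p ^ (t + 1)) (ho : Odd r) (he : Odd e)
    (h3 : 3 ≤ r) (hre : r ≤ e) (hd : p ≤ r * e + 1) (hne : r ≠ p) (h9 : ¬ (p = 3 ∧ r = 9)) :
    p ^ (2 * t + 1) ∣ Cf r e ∧ (p = 2 → p ^ (2 * t + 2) ∣ Cf r e) := by
  have hp0 := hp.pos
  have hq := (Nat.mul_le_mul h1 (h1.trans hre)).trans (Nat.le_succ _)
  have two : p = 2 → p ^ (2 * t + 2) ∣ Cf r e := by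
    rintro rfl
    obtain ⟨k, rfl⟩ := ho
    obtain ⟨m, rfl⟩ := he
    have hτ : (m + 1 + (2 * m + 1) * ((2 * k + 1) / 2)) * 2 ≤ (2 * k + 1) * (2 * m + 1) + 1 := by
      rw [show (2 * k + 1) / 2 = k by omega]
      nlinarith
    rcases t with _ | _ | s
    · omega
    · obtain rfl : k = 1 := by omega
      exact val1 _ 2 0 hp hr hτ (by omega) (by omega) (by omega)
    · refine val1 _ (2 ^ s * 2) (2 ^ s) hp hr hτ (le_trans (le_of_eq (by ring)) hq)
        (le_trans (le_of_eq (by ring)) hq) ?_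
      have := Nat.lt_two_pow_self (n := s)
      simp only [pow_succ] at h1
      omega
  refine ⟨?_, two⟩
  rcases hp.eq_two_or_odd' with h2 | h2
  · exact (pow_dvd_pow _ (by omega)).trans (two h2)
  have hp3 : 3 ≤ p := by have := hp.two_le; obtain ⟨k, rfl⟩ := h2; omega
  rcases t with _ | _ | s
  · exact val0 1 0 hp hr (by simpa using hd) (by simp) (by simp)
  · simp only [zero_add, pow_one] at h1 hq
    by_cases h4 : 2 * p ≤ r
    · refine val0 3 0 hp hr ?_ (by simp) (by simp)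
      simp only [zero_add, pow_one]
      nlinarith [Nat.mul_le_mul h4 (h4.trans hre)]
    · have h5 : p + 2 ≤ r := by obtain ⟨k, rfl⟩ := h2; obtain ⟨k, rfl⟩ := ho; omega
      refine val1 2 1 0 hp hr ?_ (by simpa using hq) (by simp) (by simp)
      rw [Nat.div_eq_of_lt_le (k := 1) (by omega) (by omega)]
      nlinarith [Nat.mul_le_mul_right e h5]
  · have e3 : s < p ^ s := Nat.lt_pow_self hp.one_lt
    by_cases h5 : p = 3 ∧ s = 0
    · obtain ⟨rfl, rfl⟩ := h5
      have : 11 ≤ r := by obtain ⟨k, rfl⟩ := ho; omega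
      have := Nat.mul_le_mul this (this.trans hre)
      exact val0 4 1 hp hr (by omega) (by omega) (by omega)
    refine val0 (p * p ^ s) (p ^ s) hp hr (le_trans (le_of_eq (by ring)) hq)
      (le_trans (le_of_eq (by ring)) hq) ?_
    by_cases h6 : 5 ≤ p
    · have := Nat.mul_le_mul_right (p ^ s) h6
      omega
    obtain rfl : p = 3 := by obtain ⟨k, rfl⟩ := h2; omega
    omega

theorem prime_case {p r e n a : ℕ} (hp : p.Prime) (ho : Odd r) (he : Odd e) (h3 : 3 ≤ r) (hre : r ≤ e)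
    (hn : p ^ a ∣ n) : (p : ℤ) ^ (2 * a) ∣ Cf r e * S r e n := by
  have cst : ∀ {j}, p ^ j ∣ Cf r e → (p : ℤ) ^ j ∣ Cf r e := fun h => by exact_mod_cast h
  have sp : ∀ t c, a = t + (c + 1) → ∃ N, n = p ^ t * N ∧ p ^ (c + 1) ∣ N := fun t c h => by
    obtain ⟨N, rfl⟩ := hn
    exact ⟨p ^ (c + 1) * N, by rw [h]; ring, dvd_mul_right _ _⟩
  have comb : ∀ i j, 2 * a ≤ i + j → p ^ i ∣ Cf r e → (p : ℤ) ^ j ∣ S r e n →
      (p : ℤ) ^ (2 * a) ∣ Cf r e * S r e n := fun i j h h1 h2 =>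
    (pow_dvd_pow _ h).trans (pow_add (p : ℤ) i j ▸ mul_dvd_mul (cst h1) h2)
  rcases a with _ | a
  · simp
  by_cases hd : r * e + 1 < p
  · exact comb 0 _ (by omega) (by simp) (alpha hp hd hn ho he (by omega))
  by_cases hne : r = p
  · subst hne
    have hr : r < r ^ (1 + 1) := by norm_num; nlinarith
    have v : ∀ j, j * r ≤ e → r ^ j ∣ Cf r e := fun j hj => val0 j 0 hp hr (by
      rw [pow_one]
      nlinarith [Nat.mul_le_mul_left r hj]) (by simp) (by simp)
    rcases a with _ | c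
    · obtain ⟨N, rfl⟩ := hn
      exact comb 1 1 le_rfl (v 1 (by omega)) (by simpa using (beta hp ho he hre N).1)
    obtain ⟨N, rfl, hN⟩ := sp 1 c (by ring)
    have := (beta hp ho he hre N).2 c hN
    by_cases h : e < 2 * r
    · exact comb 1 (2 * c + 3) (by omega) (v 1 (by omega)) (by simpa using this.2 h)
    · exact comb 2 (2 * c + 2) (by omega) (v 2 (by omega)) (by simpa using this.1)
  by_cases h9 : p = 3 ∧ r = 9
  · obtain ⟨rfl, rfl⟩ := h9
    have v : 3 ^ 4 ∣ Cf 9 e := val0 (t := 2) 3 1 hp (by norm_num) (by omega) (by omega) le_rfl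
    by_cases h : a + 1 ≤ 2
    · exact comb 4 0 (by omega) v (by simp)
    obtain ⟨N, rfl, hN⟩ := sp 2 (a - 2) (by omega)
    exact comb 4 _ (by omega) v (gamma he (by omega) hN)
  have hr := Nat.lt_pow_succ_log_self hp.one_lt r
  obtain ⟨v1, v2⟩ := big hp (Nat.pow_log_le_self p (by omega)) hr ho he h3 hre (by omega) hne h9
  generalize Nat.log p r = t at *
  by_cases h : a + 1 ≤ t
  · exact comb _ 0 (by omega) v1 (by simp)
  obtain ⟨N, rfl, hN⟩ := sp t (a - t) (by omega)
  have g := general hp hr hN ho he (by omega)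
  rcases hp.eq_two_or_odd' with rfl | h2
  · refine comb _ (2 * (a - t)) (by omega) (v2 rfl) ?_
    rw [show a - t + 1 + (a - t) = 2 * (a - t) + 1 by ring, pow_succ'] at g
    exact (mul_dvd_mul_iff_left two_ne_zero).mp g
  · refine comb _ _ (by omega) v1 ((Nat.prime_iff_prime_int.mp hp).pow_dvd_of_dvd_mul_left _ (fun h => ?_) g)
    have : p ∣ 2 := by exact_mod_cast h
    rw [(Nat.prime_dvd_prime_iff_eq hp Nat.prime_two).mp this] at h2
    exact absurd h2 (by decide)

end Pool.Agent.H27.Bn
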