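import Mathlib

namespace Pool.Agent.H27.BoxZ

open LaurentPolynomial Filter Topology

abbrev A := LaurentPolynomial ℤ

/-- The matrix `!![X ^ n, P; 0, 1]` of `ℤ ≀ ℤ ⊆ GL₂(ℤ[X, X⁻¹])`, recorded by `(P, n)`. -/
@[ext] structure G where
  P : A
  n : ℤ

noncomputable instance : Mul G := ⟨fun a b => ⟨a.P + T a.n * b.P, a.n + b.n⟩⟩
noncomputable instance : One G := ⟨⟨0, 0⟩⟩
noncomputable instance : Inv G := ⟨fun a => ⟨-(T (-a.n) * a.P), -a.n⟩⟩

@[simp] lemma mul_P (a b : G) : (a * b).P = a.P + T a.n * b.P := rfl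
@[simp] lemma mul_n (a b : G) : (a * b).n = a.n + b.n := rfl
@[simp] lemma one_P : (1 : G).P = 0 := rfl
@[simp] lemma one_n : (1 : G).n = 0 := rfl
@[simp] lemma inv_P (a : G) : (a⁻¹).P = -(T (-a.n) * a.P) := rfl
@[simp] lemma inv_n (a : G) : (a⁻¹).n = -a.n := rfl

noncomputable instance : Group G := Group.ofLeftAxioms
  (fun a b c => by
    ext1
    · simp only [mul_P, mul_n, T_add]; ring
    · simp [add_assoc])
  (fun a => by ext1 <;> simp)
  (fun a => by ext1 <;> simp)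

lemma T_neg_mul (n : ℤ) : (T (-n) * T n : A) = 1 := by rw [← T_add]; simp
lemma T_mul_neg (n : ℤ) : (T n * T (-n) : A) = 1 := by rw [← T_add]; simp

/-- The congruence subgroup `G(I)`: matrices congruent to the identity modulo `I`. -/
def GI (I : Ideal A) : Subgroup G where
  carrier := {g | g.P ∈ I ∧ T g.n - 1 ∈ I}
  one_mem' := by simp
  mul_mem' := by
    rintro a b ⟨h1, h2⟩ ⟨h3, h4⟩
    refine ⟨I.add_mem h1 (I.mul_mem_left _ h3), ?_⟩
    have : (T (a * b).n - 1 : A) = T a.n * (T b.n - 1) + (T a.n - 1) := by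
      rw [mul_n, T_add]; ring
    rw [this]
    exact I.add_mem (I.mul_mem_left _ h4) h2
  inv_mem' := by
    rintro a ⟨h1, h2⟩
    refine ⟨I.neg_mem (I.mul_mem_left _ h1), ?_⟩
    have : (T (a⁻¹).n - 1 : A) = -T (-a.n) * (T a.n - 1) := by
      rw [inv_n, mul_sub, neg_mul, T_neg_mul]; ring
    rw [this]
    exact I.mul_mem_left _ h2

lemma mem_GI {I : Ideal A} {g : G} : g ∈ GI I ↔ g.P ∈ I ∧ T g.n - 1 ∈ I := Iff.rfl

instance (I : Ideal A) : (GI I).Normal := ⟨by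
  rintro a ⟨h1, h2⟩ g
  refine ⟨?_, by simpa using h2⟩
  have : (g * a * g⁻¹).P = T g.n * a.P - g.P * (T a.n - 1) := by
    simp only [mul_P, mul_n, inv_P, T_add]
    have := T_mul_neg g.n
    linear_combination (-(T a.n * g.P)) * this
  rw [this]
  exact I.sub_mem (I.mul_mem_left _ h1) (I.mul_mem_left _ h2)⟩

/-- `l` is a word in `S ∪ S⁻¹`. -/
def IsWord (S : Finset G) (l : List G) : Prop := ∀ x ∈ l, x ∈ S ∨ x⁻¹ ∈ S

/-- Word length in `G ⧸ N` with respect to the image of `S`. -/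
noncomputable def wl (S : Finset G) (N : Subgroup G) (q : G ⧸ N) : ℕ :=
  sInf {m | ∃ l : List G, IsWord S l ∧ l.length = m ∧ ((l.prod : G) : G ⧸ N) = q}

/-- Diameter of the Cayley graph of `G ⧸ N`. -/
noncomputable def diam (S : Finset G) (N : Subgroup G) [N.Normal] : ℕ :=
  ⨆ p : (G ⧸ N) × (G ⧸ N), wl S N (p.1⁻¹ * p.2)

/-- `(I k)` defines a congruence box space. -/
def IsCongBox (I : ℕ → Ideal A) : Prop :=
  Antitone I ∧ (∀ k, Finite (A ⧸ I k)) ∧ (∀ k, (GI (I k)).FiniteIndex) ∧ ⨅ k, GI (I k) = ⊥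

/-- Property `D_α` of the box space of the `G ⧸ G(I k)`. -/
def PropD (S : Finset G) (I : ℕ → Ideal A) (α : ℝ) : Prop :=
  ∃ K : ℝ, 0 < K ∧ ∀ k, K * (Nat.card (G ⧸ GI (I k)) : ℝ) ^ α ≤ diam S (GI (I k))

lemma eq_iff {I : Ideal A} (g h : G) :
    (g : G ⧸ GI I) = h ↔ h.P - g.P ∈ I ∧ T h.n - T g.n ∈ I := by
  rw [QuotientGroup.eq, mem_GI]
  have e1 : (g⁻¹ * h).P = T (-g.n) * (h.P - g.P) := by simp; ring
  have e2 : (T (g⁻¹ * h).n - 1 : A) = T (-g.n) * (T h.n - T g.n) := by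
    rw [mul_n, inv_n, T_add, mul_sub, T_neg_mul]
  rw [e1, e2, Ideal.unit_mul_mem_iff_mem _ (isUnit_T _), Ideal.unit_mul_mem_iff_mem _ (isUnit_T _)]

noncomputable def toPair (I : Ideal A) (q : G ⧸ GI I) : (A ⧸ I) × (A ⧸ I) :=
  (Ideal.Quotient.mk I q.out.P, Ideal.Quotient.mk I (T q.out.n))

lemma toPair_inj (I : Ideal A) : Function.Injective (toPair I) := by
  intro p q h
  rw [← p.out_eq', ← q.out_eq']
  refine (eq_iff _ _).2 ⟨?_, ?_⟩
  · exact Ideal.Quotient.eq.1 (congrArg Prod.fst h).symm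
  · exact Ideal.Quotient.eq.1 (congrArg Prod.snd h).symm

instance (I : Ideal A) [Finite (A ⧸ I)] : Finite (G ⧸ GI I) := Finite.of_injective _ (toPair_inj I)

lemma finiteIndex (I : Ideal A) [Finite (A ⧸ I)] : (GI I).FiniteIndex :=
  Subgroup.finiteIndex_of_finite_quotient

lemma T_eq_one {n : ℤ} (h : (T n : A) = 1) : n = 0 := by
  have := congrArg degree h
  rw [degree_T, ← T_zero, degree_T] at this
  exact_mod_cast this

lemma iInf_GI (I : ℕ → Ideal A) (h : ∀ x, (∀ k, x ∈ I k) → x = 0) : ⨅ k, GI (I k) = ⊥ := by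
  rw [eq_bot_iff]
  intro g hg
  rw [Subgroup.mem_iInf] at hg
  rw [Subgroup.mem_bot]
  ext1
  · exact h _ fun k => (hg k).1
  · exact T_eq_one (sub_eq_zero.1 (h _ fun k => (hg k).2))

/-- `g` is a word of length at most `m`. -/
def W (S : Finset G) (m : ℕ) (g : G) : Prop := ∃ l : List G, IsWord S l ∧ l.length ≤ m ∧ l.prod = g

lemma W.mono {S : Finset G} {m m' : ℕ} {g : G} (h : W S m g) (hm : m ≤ m') : W S m' g := by
  obtain ⟨l, h1, h2, h3⟩ := h
  exact ⟨l, h1, h2.trans hm, h3⟩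

lemma W.one (S : Finset G) : W S 0 1 := ⟨[], by simp [IsWord], by simp, by simp⟩

lemma W.mul {S : Finset G} {m m' : ℕ} {g g' : G} (h : W S m g) (h' : W S m' g') :
    W S (m + m') (g * g') := by
  obtain ⟨l, h1, h2, h3⟩ := h
  obtain ⟨l', h1', h2', h3'⟩ := h'
  refine ⟨l ++ l', fun x hx => ?_, by simp; omega, by simp [h3, h3']⟩
  rcases List.mem_append.1 hx with h | h
  · exact h1 x h
  · exact h1' x h

lemma W.pow {S : Finset G} {m : ℕ} {g : G} (h : W S m g) (k : ℕ) : W S (k * m) (g ^ k) := by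
  induction k with
  | zero => simpa using W.one S
  | succ k ih => rw [pow_succ, Nat.succ_mul]; exact ih.mul h

lemma exists_W {S : Finset G} (hS : Subgroup.closure (S : Set G) = ⊤) (g : G) : ∃ m, W S m g := by
  have : g ∈ (Subgroup.closure (S : Set G)).toSubmonoid := by rw [hS]; trivial
  rw [Subgroup.closure_toSubmonoid] at this
  obtain ⟨l, h1, h2⟩ := Submonoid.exists_list_of_mem_closure this
  exact ⟨l.length, l, fun x hx => by simpa using h1 x hx, le_rfl, h2⟩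

lemma wl_le {S : Finset G} {N : Subgroup G} {m : ℕ} {g : G} (h : W S m g) : wl S N g ≤ m := by
  obtain ⟨l, h1, h2, h3⟩ := h
  exact le_trans (Nat.sInf_le ⟨l, h1, rfl, by rw [h3]⟩) h2

lemma wl_spec {S : Finset G} (hS : Subgroup.closure (S : Set G) = ⊤) (N : Subgroup G)
    (q : G ⧸ N) : ∃ g : G, W S (wl S N q) g ∧ (g : G ⧸ N) = q := by
  obtain ⟨m, l, h1, -, h3⟩ := exists_W hS q.out
  have : {m | ∃ l : List G, IsWord S l ∧ l.length = m ∧ ((l.prod : G) : G ⧸ N) = q}.Nonempty :=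
    ⟨_, l, h1, rfl, by rw [h3, QuotientGroup.out_eq']⟩
  obtain ⟨l', k1, k2, k3⟩ := Nat.sInf_mem this
  exact ⟨l'.prod, ⟨l', k1, k2.le, rfl⟩, k3⟩

lemma le_diam (S : Finset G) (N : Subgroup G) [N.Normal] [Finite (G ⧸ N)] (q : G ⧸ N) :
    wl S N q ≤ diam S N := by
  have := le_ciSup (f := fun p : (G ⧸ N) × (G ⧸ N) => wl S N (p.1⁻¹ * p.2))
    (Set.finite_range _).bddAbove (1, q)
  rw [inv_one, one_mul] at this
  exact this

lemma diam_le (S : Finset G) (N : Subgroup G) [N.Normal] (m : ℕ) (h : ∀ q, wl S N q ≤ m) :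
    diam S N ≤ m := ciSup_le fun _ => h _

lemma W.abs_n {S : Finset G} {C : ℤ} (hC : ∀ s ∈ S, |s.n| ≤ C) (h0 : 0 ≤ C) {m : ℕ} {g : G}
    (h : W S m g) : |g.n| ≤ C * m := by
  obtain ⟨l, h1, h2, rfl⟩ := h
  have : |l.prod.n| ≤ C * l.length := by
    clear h2
    induction l with
    | nil => simp
    | cons a l ih =>
      have h3 := ih fun x hx => h1 x (List.mem_cons_of_mem _ hx)
      have h4 : |a.n| ≤ C := by
        rcases h1 a List.mem_cons_self with h | h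
        · exact hC a h
        · simpa using hC _ h
      rw [List.prod_cons, mul_n, List.length_cons]
      push_cast
      have := abs_add_le a.n l.prod.n
      linarith
  have h3 : (l.length : ℤ) ≤ m := by exact_mod_cast h2
  nlinarith

end Pool.Agent.H27.BoxZ
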