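import Mathlib
import Pool.Agent.H27.BoxZ

namespace Pool.Agent.H27.BoxZ

open LaurentPolynomial Filter Topology

instance : Fact (Nat.Prime 3) := ⟨Nat.prime_three⟩

lemma uncountable_Z3 : Uncountable ℤ_[3] := by
  rw [← not_countable_iff]
  intro h
  obtain ⟨x, hx⟩ := nonempty_interior_of_iUnion_of_closed (f := fun x : ℤ_[3] => ({x} : Set ℤ_[3]))
    (fun _ => isClosed_singleton) (Set.iUnion_of_singleton _)
  obtain ⟨y, hy⟩ := hx
  have hyx : y = x := Set.mem_singleton_iff.1 (interior_subset hy)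
  subst hyx
  have h1 : ({y} : Set ℤ_[3]) ∈ 𝓝 y := mem_interior_iff_mem_nhds.1 hy
  have h2 : Tendsto (fun n : ℕ => y + ((3 : ℕ) : ℤ_[3]) ^ n) atTop (𝓝 (y + 0)) := by
    apply Tendsto.const_add
    apply tendsto_pow_atTop_nhds_zero_of_norm_lt_one
    rw [PadicInt.norm_p]
    norm_num
  rw [add_zero] at h2
  obtain ⟨n, hn⟩ := (h2.eventually h1).exists
  have hn' : y + ((3 : ℕ) : ℤ_[3]) ^ n = y := hn
  simp at hn'

lemma exists_trans : ∃ y : ℤ_[3], Transcendental ℤ (1 + 3 * (1 + 3 * y)) := by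
  by_contra h
  push Not at h
  have := uncountable_Z3
  have h1 := Algebraic.countable ℤ ℤ_[3]
  have hinj : Function.Injective fun y : ℤ_[3] => 1 + 3 * (1 + 3 * y) := by
    intro a b hab
    simpa using hab
  have h2 := h1.preimage_of_injOn (f := fun y : ℤ_[3] => 1 + 3 * (1 + 3 * y)) hinj.injOn
  apply Set.not_countable_univ (α := ℤ_[3])
  convert h2
  ext y
  simpa [Transcendental] using h y

lemma isUnit_u (y : ℤ_[3]) : IsUnit (1 + 3 * (1 + 3 * y)) := by
  by_contra h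
  have h1 : (1 + 3 * (1 + 3 * y)) ∈ IsLocalRing.maximalIdeal ℤ_[3] := h
  rw [PadicInt.maximalIdeal_eq_span_p] at h1
  have h2 : (3 * (1 + 3 * y)) ∈ Ideal.span {((3 : ℕ) : ℤ_[3])} :=
    Ideal.mul_mem_right _ _ (Ideal.subset_span (by simp))
  have h3 := Ideal.sub_mem _ h1 h2
  rw [add_sub_cancel_right, ← PadicInt.maximalIdeal_eq_span_p] at h3
  exact (IsLocalRing.maximalIdeal.isMaximal _).ne_top ((Ideal.eq_top_iff_one _).2 h3)

theorem q1 : ∃ I : ℕ → Ideal A, IsCongBox I ∧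
    ∀ S : Finset G, Subgroup.closure (S : Set G) = ⊤ → PropD S I (1 / 2) := by
  obtain ⟨y, hy⟩ := exists_trans
  obtain ⟨u, hu⟩ := isUnit_u y
  let φ : A →+* ℤ_[3] := LaurentPolynomial.eval₂ (Int.castRingHom _) u
  have hφ : ∀ P, φ P = 0 → P = 0 := by
    intro P hP
    obtain ⟨n, f, hf⟩ := exists_T_pow P
    have h1 : φ (Polynomial.toLaurent f) = 0 := by rw [hf, map_mul, hP, zero_mul]
    rw [eval₂_toLaurent, hu] at h1
    have h2 : f = 0 := by
      by_contra hne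
      exact hy ⟨f, hne, by rw [Polynomial.aeval_def]; exact h1⟩
    rw [h2, map_zero] at hf
    exact (isUnit_T _).mul_left_eq_zero.1 hf.symm
  let ψ : ∀ k : ℕ, A →+* ZMod (3 ^ (k + 2)) := fun k => (PadicInt.toZModPow (k + 2)).comp φ
  let I : ℕ → Ideal A := fun k => RingHom.ker (ψ k)
  have hmem : ∀ k P, P ∈ I k ↔ φ P ∈ Ideal.span {((3 : ℕ) : ℤ_[3]) ^ (k + 2)} := by
    intro k P
    rw [← PadicInt.ker_toZModPow]
    rfl
  have hfin : ∀ k, Finite (A ⧸ I k) := fun k =>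
    Finite.of_injective _ (RingHom.kerLift_injective (ψ k))
  have hcard : ∀ k, Nat.card (A ⧸ I k) ≤ 3 ^ (k + 2) := by
    intro k
    have := Nat.card_le_card_of_injective _ (RingHom.kerLift_injective (ψ k))
    rwa [Nat.card_zmod] at this
  refine ⟨I, ⟨?_, hfin, fun k => finiteIndex _, iInf_GI I ?_⟩, ?_⟩
  · intro a b hab P hP
    rw [hmem] at hP ⊢
    exact Ideal.span_singleton_le_span_singleton.2 (pow_dvd_pow _ (by omega)) hP
  · intro P hP
    apply hφ
    apply PadicInt.ext_of_toZModPow.1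
    intro n
    rw [map_zero, ← RingHom.mem_ker, PadicInt.ker_toZModPow]
    exact Ideal.span_singleton_le_span_singleton.2 (pow_dvd_pow _ (by omega)) ((hmem n P).1 (hP n))
  · intro S hS
    obtain ⟨C, hC⟩ := (S.image fun s => |s.n|).bddAbove
    let C' : ℤ := max C 1
    have hC' : ∀ s ∈ S, |s.n| ≤ C' := fun s hs =>
      le_trans (hC (Finset.mem_coe.2 (Finset.mem_image_of_mem _ hs))) (le_max_left _ _)
    have hC1 : (1 : ℤ) ≤ C' := le_max_right _ _
    have hCr : (0 : ℝ) < C' := by exact_mod_cast (by omega : (0 : ℤ) < C')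
    refine ⟨1 / (9 * C'), by positivity, fun k => ?_⟩
    have := hfin k
    have h1 : Nat.card (G ⧸ GI (I k)) ≤ 3 ^ (k + 2) * 3 ^ (k + 2) := by
      refine le_trans (Nat.card_le_card_of_injective _ (toPair_inj (I k))) ?_
      rw [Nat.card_prod]
      exact Nat.mul_le_mul (hcard k) (hcard k)
    have h2 : (Nat.card (G ⧸ GI (I k)) : ℝ) ^ (1 / 2 : ℝ) ≤ 3 ^ (k + 2) := by
      rw [← Real.sqrt_eq_rpow, Real.sqrt_le_left (by positivity), sq]
      exact_mod_cast h1
    obtain ⟨g, hg, e⟩ := wl_spec hS (GI (I k)) ((⟨0, 3 ^ k⟩ : G) : G ⧸ GI (I k))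
    have h3 := hg.abs_n hC' (by omega)
    have h4 := le_diam S (GI (I k)) ((⟨0, 3 ^ k⟩ : G) : G ⧸ GI (I k))
    have h5 : (3 : ℤ) ^ k ≤ |g.n| := by
      have e1 := ((eq_iff _ _).1 e).2
      have e2 : ψ k (T (3 ^ k)) = ψ k (T g.n) := by
        rw [← sub_eq_zero, ← map_sub]; exact e1
      let v : (ZMod (3 ^ (k + 2)))ˣ := Units.map (PadicInt.toZModPow (k + 2)).toMonoidHom u
      have e3 : ∀ m : ℤ, ψ k (T m) = ((v ^ m : (ZMod (3 ^ (k + 2)))ˣ) : ZMod (3 ^ (k + 2))) := by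
        intro m
        simp only [ψ, φ, RingHom.comp_apply, eval₂_T, v, ← map_zpow, Units.coe_map]
        rfl
      rw [e3, e3, Units.val_inj, zpow_eq_zpow_iff_modEq] at e2
      have e4 : orderOf v = 3 ^ (k + 1) := by
        rw [← orderOf_units]
        have := ZMod.orderOf_one_add_mul_prime (p := 3) Nat.prime_three (by norm_num)
          (1 + 3 * ((PadicInt.toZModPow (k + 2) y).val : ℤ)) (by omega) (k + 1)
        rw [← this]
        congr 1
        simp [v, hu, map_ofNat]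
      rw [e4] at e2
      obtain ⟨c, hc⟩ := e2.dvd
      push_cast at hc
      have e5 : g.n = 3 ^ k * (3 * c + 1) := by rw [pow_succ] at hc; linarith
      rw [e5, abs_mul, abs_of_pos (by positivity : (0 : ℤ) < 3 ^ k)]
      have : 1 ≤ |3 * c + 1| := Int.one_le_abs (by omega)
      have p3 : (0 : ℤ) < 3 ^ k := by positivity
      nlinarith
    have h6 : (3 : ℝ) ^ k ≤ C' * diam S (GI (I k)) := by
      have h7 : (wl S (GI (I k)) ((⟨0, 3 ^ k⟩ : G) : G ⧸ GI (I k)) : ℤ) ≤ diam S (GI (I k)) := by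
        exact_mod_cast h4
      have : (3 : ℤ) ^ k ≤ C' * diam S (GI (I k)) := by nlinarith
      exact_mod_cast this
    calc 1 / (9 * C') * (Nat.card (G ⧸ GI (I k)) : ℝ) ^ (1 / 2 : ℝ)
        ≤ 1 / (9 * C') * 3 ^ (k + 2) := by gcongr
      _ = 3 ^ k / C' := by field_simp; ring
      _ ≤ _ := by rw [div_le_iff₀ hCr]; linarith

end Pool.Agent.H27.BoxZ
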