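import Mathlib
import Pool.Agent.H27.BoxZ

namespace Pool.Agent.H27.BoxZ

open LaurentPolynomial Filter Topology

instance : IsNoetherianRing A :=
  IsLocalization.isNoetherianRing (Submonoid.powers (Polynomial.X : Polynomial ℤ)) _ inferInstance

noncomputable def J (N : ℕ) : Ideal A := Ideal.span {(N : A), T N - 1}

lemma N_mem (N : ℕ) : (N : A) ∈ J N := Ideal.subset_span (by simp)
lemma T_mem (N : ℕ) : (T N - 1 : A) ∈ J N := Ideal.subset_span (by simp)

lemma T_mul_mem {I : Ideal A} {m : ℤ} (h : (T m - 1 : A) ∈ I) (c : ℤ) : (T (m * c) - 1 : A) ∈ I := by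
  have : (⟨0, m⟩ : G) ∈ GI I := ⟨I.zero_mem, h⟩
  have h2 := ((GI I).zpow_mem this c).2
  let f : G →* Multiplicative ℤ := ⟨⟨fun g => Multiplicative.ofAdd g.n, rfl⟩, fun _ _ => rfl⟩
  have h3 : ((⟨0, m⟩ : G) ^ c).n = m * c := by
    have := map_zpow f ⟨0, m⟩ c
    have h4 := congrArg Multiplicative.toAdd this
    rw [toAdd_zpow] at h4
    change ((⟨0, m⟩ : G) ^ c).n = c • m at h4
    rw [h4, smul_eq_mul, mul_comm]
  rwa [h3] at h2

lemma T_emod (N : ℕ) (n : ℤ) : (T n - T (n % N) : A) ∈ J N := by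
  have h := (J N).mul_mem_left (T (n % N)) (T_mul_mem (T_mem N) (n / N))
  rwa [mul_sub, ← T_add, mul_one, Int.emod_add_mul_ediv] at h

noncomputable def nf (N : ℕ) (c : ℕ → ℕ) : A := ∑ i ∈ Finset.range N, (c i : A) * T i

lemma exists_nf (N : ℕ) (hN : 0 < N) (P : A) : ∃ c : ℕ → ℕ, (∀ i, c i < N) ∧ P - nf N c ∈ J N := by
  have red : ∀ c : ℕ → ℤ, ∃ d : ℕ → ℕ, (∀ i, d i < N) ∧
      (∑ i ∈ Finset.range N, (c i : A) * T i) - nf N d ∈ J N := by
    intro c
    have hN' : (N : ℤ) ≠ 0 := by omega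
    refine ⟨fun i => (c i % N).toNat, fun i => ?_, ?_⟩
    · have := Int.emod_lt_of_pos (c i) (by omega : (0 : ℤ) < N)
      beta_reduce
      omega
    · rw [nf, ← Finset.sum_sub_distrib]
      apply Ideal.sum_mem
      intro i _
      rw [← sub_mul]
      apply Ideal.mul_mem_right
      have e : ((c i : ℤ) : A) - ((c i % N).toNat : A) = (N : A) * ((c i / N : ℤ) : A) := by
        have h1 : (((c i % N).toNat : ℤ)) = c i % N := Int.toNat_of_nonneg (Int.emod_nonneg _ hN')
        have h2 : ((c i % N).toNat : A) = ((c i % N : ℤ) : A) := by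
          conv_rhs => rw [← h1]
          exact (Int.cast_natCast _).symm
        rw [h2, ← Int.cast_sub, show c i - c i % N = N * (c i / N) by
          have := Int.emod_add_mul_ediv (c i) N; omega]
        simp
      rw [e]
      exact Ideal.mul_mem_right _ _ (N_mem N)
  have : ∃ c : ℕ → ℤ, P - ∑ i ∈ Finset.range N, (c i : A) * T i ∈ J N := by
    induction P using LaurentPolynomial.induction_on' with
    | add p q hp hq =>
      obtain ⟨c, hc⟩ := hp
      obtain ⟨d, hd⟩ := hq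
      refine ⟨c + d, ?_⟩
      have := (J N).add_mem hc hd
      simp only [Pi.add_apply, Int.cast_add, add_mul, Finset.sum_add_distrib]
      rwa [add_sub_add_comm]
    | C_mul_T n a =>
      have h1 : (((n % N).toNat : ℤ)) = n % N := Int.toNat_of_nonneg (Int.emod_nonneg _ (by omega))
      have h2 := Int.emod_lt_of_pos n (by omega : (0 : ℤ) < N)
      refine ⟨Pi.single (n % N).toNat a, ?_⟩
      rw [Finset.sum_eq_single (n % N).toNat]
      · rw [Pi.single_eq_same, h1, eq_intCast, ← mul_sub]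
        exact Ideal.mul_mem_left _ _ (T_emod N n)
      · intro b _ hb; simp [Pi.single_eq_of_ne hb]
      · intro h; exact absurd (Finset.mem_range.2 (by omega)) h
  obtain ⟨c, hc⟩ := this
  obtain ⟨d, hd1, hd2⟩ := red c
  exact ⟨d, hd1, by simpa using (J N).add_mem hc hd2⟩

lemma finite_J (N : ℕ) (hN : 0 < N) : Finite (A ⧸ J N) := by
  apply Finite.of_surjective (fun c : Fin N → Fin N =>
    Ideal.Quotient.mk (J N) (nf N fun i => if h : i < N then (c ⟨i, h⟩ : ℕ) else 0))
  intro q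
  obtain ⟨P, rfl⟩ := Ideal.Quotient.mk_surjective q
  obtain ⟨c, h1, h2⟩ := exists_nf N hN P
  refine ⟨fun i => ⟨c i, h1 i⟩, ?_⟩
  symm
  rw [Ideal.Quotient.eq]
  convert h2 using 2
  apply Finset.sum_congr rfl
  intro i hi
  simp [Finset.mem_range.1 hi]

lemma J_inter (P : A) (h : ∀ k, P ∈ J (2 ^ (k + 1))) : P = 0 := by
  let ev : A →+* ZMod 2 := LaurentPolynomial.eval₂ (Int.castRingHom _) 1
  let m : Ideal A := Ideal.span {(2 : A), T 1 - 1}
  have hm : m ≠ ⊤ := by
    have : m ≤ RingHom.ker ev := by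
      rw [Ideal.span_le]
      rintro x (rfl | rfl)
      · change ev 2 = 0
        rw [map_ofNat]; rfl
      · change ev (T 1 - 1) = 0
        simp [ev]
    intro h
    rw [h, top_le_iff, Ideal.eq_top_iff_one] at this
    simp at this
  have h2 : (2 : A) ∈ m := Ideal.subset_span (by simp)
  have hT : ∀ k : ℕ, (T ((2 ^ k : ℕ) : ℤ) - 1 : A) ∈ m ^ (k + 1) := by
    intro k
    induction k with
    | zero => simpa using Ideal.subset_span (by simp)
    | succ k ih =>
      have e : (T ((2 ^ (k + 1) : ℕ) : ℤ) - 1 : A) =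
          (T ((2 ^ k : ℕ) : ℤ) - 1) * ((T ((2 ^ k : ℕ) : ℤ) - 1) + 2) := by
        rw [show ((2 ^ (k + 1) : ℕ) : ℤ) = (2 ^ k : ℕ) + (2 ^ k : ℕ) by push_cast; ring, T_add]
        ring
      rw [e, pow_succ m (k + 1)]
      exact Ideal.mul_mem_mul ih (m.add_mem (Ideal.pow_le_self (by omega) ih) h2)
  have hJ : ∀ k, J (2 ^ (k + 1)) ≤ m ^ k := by
    intro k
    rw [J, Ideal.span_le]
    rintro x (rfl | rfl)
    · apply Ideal.pow_le_pow_right (by omega : k ≤ k + 1)
      push_cast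
      exact Ideal.pow_mem_pow h2 _
    · exact Ideal.pow_le_pow_right (by omega : k ≤ k + 1 + 1) (hT (k + 1))
  have := Ideal.iInf_pow_eq_bot_of_isDomain m hm
  rw [← Ideal.mem_bot, ← this, Ideal.mem_iInf]
  exact fun k => hJ k (h k)

lemma card_ge (N : ℕ) [NeZero N] (h2 : 2 ∣ N) : 2 ^ N ≤ Nat.card (G ⧸ GI (J N)) := by
  have := finite_J N (Nat.pos_of_ne_zero (NeZero.ne N))
  let B := AddMonoidAlgebra (ZMod 2) (ZMod N)
  let v : Bˣ := ⟨AddMonoidAlgebra.single 1 1, AddMonoidAlgebra.single (-1) 1,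
    by simp [B, AddMonoidAlgebra.single_mul_single, AddMonoidAlgebra.one_def],
    by simp [B, AddMonoidAlgebra.single_mul_single, AddMonoidAlgebra.one_def]⟩
  let ψ : A →+* B := LaurentPolynomial.eval₂ (Int.castRingHom _) v
  have hT : ∀ i : ℕ, ψ (T i) = AddMonoidAlgebra.single (i : ZMod N) 1 := by
    intro i
    simp only [ψ, eval₂_T, zpow_natCast, Units.val_pow_eq_pow_val, v, B,
      AddMonoidAlgebra.single_pow]
    simp
  have hJ : J N ≤ RingHom.ker ψ := by
    rw [J, Ideal.span_le]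
    rintro x (rfl | rfl)
    · change ψ N = 0
      rw [map_natCast]
      obtain ⟨c, hc⟩ := h2
      have h0 : ((2 : ℕ) : B) = 0 := by
        rw [← map_natCast (algebraMap (ZMod 2) B)]
        rw [show ((2 : ℕ) : ZMod 2) = 0 from rfl, map_zero]
      rw [show ((N : ℕ) : B) = ((2 * c : ℕ) : B) by rw [← hc], Nat.cast_mul, h0, zero_mul]
    · change ψ (T N - 1) = 0
      rw [map_sub, hT, map_one]
      simp [B, AddMonoidAlgebra.one_def]
  let F : G ⧸ GI (J N) → (ZMod N → ZMod 2) := fun q r => (ψ q.out.P).coeff r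
  have hF : ∀ g : G, F g = fun r => (ψ g.P).coeff r := by
    intro g
    have h1 := ((eq_iff _ _).1 (QuotientGroup.out_eq' (g : G ⧸ GI (J N)))).1
    have h3 := hJ h1
    rw [RingHom.mem_ker, map_sub, sub_eq_zero] at h3
    simp only [F, h3]
  have hs : Function.Surjective F := by
    intro f
    refine ⟨(⟨∑ r : ZMod N, ((f r).val : A) * T (r.val : ℕ), 0⟩ : G), ?_⟩
    rw [hF]
    funext r
    simp only [map_sum, map_mul, map_natCast, hT, ZMod.natCast_zmod_val]
    have e : ∀ s : ZMod N, (((f s).val : ℕ) : B) * AddMonoidAlgebra.single s 1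
        = AddMonoidAlgebra.single s (f s) := by
      intro s
      rw [← nsmul_eq_mul, AddMonoidAlgebra.smul_single]
      simp
    rw [Finset.sum_congr rfl fun s _ => e s, AddMonoidAlgebra.coeff_sum]
    simp [Finsupp.single_apply]
  have := Nat.card_le_card_of_surjective F hs
  simpa [Nat.card_fun] using this

lemma diam_le_J {S : Finset G} (hS : Subgroup.closure (S : Set G) = ⊤) :
    ∃ C : ℕ, ∀ N : ℕ, 0 < N → diam S (GI (J N)) ≤ C * N ^ 2 := by
  let a : G := ⟨1, 0⟩
  let t : G := ⟨0, 1⟩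
  obtain ⟨m1, h1⟩ := exists_W hS a
  obtain ⟨m2, h2⟩ := exists_W hS t
  obtain ⟨m3, h3⟩ := exists_W hS t⁻¹
  have ha : ∀ c : ℕ, a ^ c = ⟨c, 0⟩ := by
    intro c
    induction c with
    | zero => ext1 <;> simp
    | succ c ih => rw [pow_succ, ih]; ext1 <;> simp [a]
  have ht : ∀ c : ℕ, t ^ c = ⟨0, c⟩ := by
    intro c
    induction c with
    | zero => rfl
    | succ c ih => rw [pow_succ, ih]; ext1 <;> simp [t]
  refine ⟨m1 + m2 + m3 + m2, fun N hN => diam_le _ _ _ fun q => ?_⟩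
  obtain ⟨g, rfl⟩ := QuotientGroup.mk_surjective q
  obtain ⟨c, hc1, hc2⟩ := exists_nf N hN g.P
  have hw : ∀ k, k ≤ N → W S (k * (N * (m1 + m2 + m3)))
      ⟨∑ i ∈ Finset.range k, (c i : A) * T i, 0⟩ := by
    intro k
    induction k with
    | zero => intro _; rw [Finset.sum_range_zero, zero_mul]; exact W.one S
    | succ k ih =>
      intro hk
      have w := (ih (by omega)).mul (((h2.pow k).mul (h1.pow (c k))).mul (h3.pow k))
      have e : (⟨∑ i ∈ Finset.range k, (c i : A) * T i, 0⟩ : G) * (t ^ k * a ^ c k * t⁻¹ ^ k)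
          = ⟨∑ i ∈ Finset.range (k + 1), (c i : A) * T i, 0⟩ := by
        rw [inv_pow, ha, ht]
        ext1
        · simp only [mul_P, inv_P, mul_zero, neg_zero, add_zero, zero_add, T_zero, one_mul,
            Finset.sum_range_succ]
          ring
        · simp
      rw [e] at w
      refine w.mono ?_
      have := hc1 k
      have i1 : k * m2 ≤ N * m2 := Nat.mul_le_mul_right _ (by omega)
      have i2 : c k * m1 ≤ N * m1 := Nat.mul_le_mul_right _ (by omega)
      have i3 : k * m3 ≤ N * m3 := Nat.mul_le_mul_right _ (by omega)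
      rw [Nat.succ_mul, Nat.mul_add N, Nat.mul_add N]
      omega
  have hr : (((g.n % N).toNat : ℤ)) = g.n % N := Int.toNat_of_nonneg (Int.emod_nonneg _ (by omega))
  have hr2 := Int.emod_lt_of_pos g.n (by omega : (0 : ℤ) < N)
  have w := (hw N le_rfl).mul (h2.pow (g.n % N).toNat)
  have e : ((((⟨∑ i ∈ Finset.range N, (c i : A) * T i, 0⟩ : G) * t ^ (g.n % N).toNat : G)) :
      G ⧸ GI (J N)) = g := by
    rw [eq_iff, ht]
    constructor
    · simpa [nf] using hc2
    · simp only [mul_n, zero_add, hr]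
      exact T_emod N g.n
  rw [← e]
  refine le_trans (wl_le w) ?_
  have i1 : (g.n % N).toNat * m2 ≤ N * m2 := Nat.mul_le_mul_right _ (by omega)
  have i2 : N * m2 ≤ N * N * m2 := Nat.mul_le_mul_right _ (Nat.le_mul_self N)
  nlinarith

theorem q2 : ∃ I : ℕ → Ideal A, IsCongBox I ∧
    ∀ S : Finset G, Subgroup.closure (S : Set G) = ⊤ → ∀ α : ℝ, 0 < α → ¬ PropD S I α := by
  have hf : ∀ k, Finite (A ⧸ J (2 ^ (k + 1))) := fun k => finite_J _ (by positivity)
  refine ⟨fun k => J (2 ^ (k + 1)), ⟨?_, hf, fun k => finiteIndex _, iInf_GI _ J_inter⟩, ?_⟩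
  · intro a b hab
    obtain ⟨c, hc⟩ : 2 ^ (a + 1) ∣ 2 ^ (b + 1) := pow_dvd_pow _ (by omega)
    change J _ ≤ J _
    rw [J, Ideal.span_le]
    rintro x (rfl | rfl)
    · rw [hc, Nat.cast_mul]
      exact Ideal.mul_mem_right _ _ (N_mem _)
    · rw [hc, Nat.cast_mul]
      exact T_mul_mem (T_mem _) _
  · rintro S hS α hα ⟨K, hK, h⟩
    obtain ⟨C, hC⟩ := diam_le_J hS
    have hr : (1 : ℝ) < 2 ^ α := Real.one_lt_rpow (by norm_num) hα
    have t1 := (tendsto_pow_const_div_const_pow_of_one_lt 2 hr).const_mul (C : ℝ)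
    have t2 : Tendsto (fun k : ℕ => 2 ^ (k + 1)) atTop atTop :=
      (tendsto_pow_atTop_atTop_of_one_lt one_lt_two).comp (tendsto_add_atTop_nat 1)
    rw [mul_zero] at t1
    obtain ⟨k, hk⟩ := ((t1.comp t2).eventually (gt_mem_nhds hK)).exists
    simp only [Function.comp] at hk
    set N := 2 ^ (k + 1) with hN
    have hpos : 0 < N := by positivity
    have : NeZero N := ⟨hpos.ne'⟩
    have h1 := h k
    have h2 : (diam S (GI (J N)) : ℝ) ≤ C * (N : ℝ) ^ 2 := by exact_mod_cast hC N hpos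
    have h3 : ((2 : ℝ) ^ α) ^ N ≤ (Nat.card (G ⧸ GI (J N)) : ℝ) ^ α := by
      rw [← Real.rpow_natCast, ← Real.rpow_mul (by norm_num), mul_comm, Real.rpow_mul (by norm_num),
        Real.rpow_natCast]
      apply Real.rpow_le_rpow (by positivity) _ hα.le
      exact_mod_cast card_ge N (dvd_pow_self 2 (by omega))
    rw [← mul_div_assoc, div_lt_iff₀ (by positivity)] at hk
    have h4 : K * ((2 : ℝ) ^ α) ^ N ≤ K * (Nat.card (G ⧸ GI (J N)) : ℝ) ^ α := by gcongr
    simp only [← hN] at h1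
    linarith

end Pool.Agent.H27.BoxZ
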