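import Mathlib

namespace Pool.Agent.H27.Brachy

open Classical

abbrev T := FreeMagma Bool
abbrev F := ZMod 2
abbrev V := MonoidAlgebra F T

lemma F_cases (a : F) : a = 0 ∨ a = 1 := by revert a; decide

lemma add_self (p : V) : p + p = 0 := by
  ext t; simp [CharTwo.add_self_eq_zero]

lemma coeff_node (p q : V) (s t : T) : (p * q).coeff (s * t) = p.coeff s * q.coeff t := by
  rw [MonoidAlgebra.coeff_mul_antidiag p q (s * t) {(s, t)}]
  · simp
  · rintro ⟨a, b⟩
    simp only [Finset.mem_singleton, Prod.mk.injEq]
    constructor
    · rintro ⟨rfl, rfl⟩; rfl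
    · intro h
      have h' : FreeMagma.mul a b = FreeMagma.mul s t := h
      injection h' with h1 h2
      exact ⟨h1, h2⟩

lemma coeff_leaf (p q : V) (b : Bool) : (p * q).coeff (FreeMagma.of b) = 0 := by
  rw [MonoidAlgebra.coeff_mul_antidiag p q (FreeMagma.of b) ∅]
  · simp
  · rintro ⟨a, c⟩
    simp only [Finset.notMem_empty, false_iff]
    intro h
    exact FreeMagma.noConfusion rfl (heq_of_eq h)

noncomputable def deg (p : V) : ℕ := p.coeff.support.sup FreeMagma.length

lemma le_deg {p : V} {t : T} (h : p.coeff t ≠ 0) : t.length ≤ deg p :=
  Finset.le_sup (f := FreeMagma.length) (Finsupp.mem_support_iff.2 h)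

lemma coeff_zero_of_lt {p : V} {t : T} (h : deg p < t.length) : p.coeff t = 0 := by
  by_contra h'
  exact absurd (le_deg h') (by omega)

lemma exists_top {p : V} (hp : p ≠ 0) : ∃ t, p.coeff t = 1 ∧ t.length = deg p := by
  have hne : p.coeff.support.Nonempty := by
    rw [Finset.nonempty_iff_ne_empty]
    intro h
    apply hp
    ext t
    have : t ∉ p.coeff.support := by simp [h]
    simpa using this
  obtain ⟨t, ht, h⟩ := Finset.exists_mem_eq_sup _ hne FreeMagma.length
  refine ⟨t, ?_, h.symm⟩
  rcases F_cases (p.coeff t) with h0 | h0
  · exact absurd h0 (Finsupp.mem_support_iff.1 ht)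
  · exact h0

lemma len_pos (t : T) : 0 < t.length := FreeMagma.length_pos t

lemma len_mul (s t : T) : (s * t).length = s.length + t.length := rfl

lemma deg_pos {p : V} (hp : p ≠ 0) : 0 < deg p := by
  obtain ⟨t, -, h⟩ := exists_top hp
  rw [← h]; exact len_pos t

lemma deg_le {p : V} {n : ℕ} (h : ∀ t, p.coeff t ≠ 0 → t.length ≤ n) : deg p ≤ n :=
  Finset.sup_le fun t ht => h t (Finsupp.mem_support_iff.1 ht)

noncomputable def E (a b : F) (p q : V) : V := a • q + b • p + p * q

lemma E_node (a b : F) (p q : V) (s t : T) (h1 : deg p < s.length + t.length)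
    (h2 : deg q < s.length + t.length) :
    (E a b p q).coeff (s * t) = p.coeff s * q.coeff t := by
  have e1 : p.coeff (s * t) = 0 := coeff_zero_of_lt (by rw [len_mul]; exact h1)
  have e2 : q.coeff (s * t) = 0 := coeff_zero_of_lt (by rw [len_mul]; exact h2)
  simp [E, coeff_node, e1, e2]

lemma deg_E (a b : F) {p q : V} (hp : p ≠ 0) (hq : q ≠ 0) : deg (E a b p q) = deg p + deg q := by
  apply le_antisymm
  · apply deg_le
    intro t ht
    by_contra hlt
    apply ht
    have e1 : p.coeff t = 0 := coeff_zero_of_lt (by omega)
    have e2 : q.coeff t = 0 := coeff_zero_of_lt (by omega)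
    have e3 : (p * q).coeff t = 0 := by
      cases t with
      | of b => exact coeff_leaf p q b
      | mul s u =>
        have := coeff_node p q s u
        change (p * q).coeff (s * u) = 0
        rw [this]
        have hl : (FreeMagma.mul s u).length = s.length + u.length := rfl
        by_cases hs : p.coeff s = 0
        · simp [hs]
        · have := le_deg hs
          rw [coeff_zero_of_lt (p := q) (t := u) (by omega), mul_zero]
    simp [E, e1, e2, e3]
  · obtain ⟨s, hs, hs'⟩ := exists_top hp
    obtain ⟨t, ht, ht'⟩ := exists_top hq
    have h1 := deg_pos hp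
    have h2 := deg_pos hq
    have := E_node a b p q s t (by omega) (by omega)
    rw [hs, ht] at this
    have h3 := le_deg (p := E a b p q) (t := s * t) (by rw [this]; decide)
    rw [len_mul] at h3
    omega

def Dec (u : V) : Prop := ∃ z : F × F × V × V, z.2.2.1 ≠ 0 ∧ z.2.2.2 ≠ 0 ∧
  u = E z.1 z.2.1 z.2.2.1 z.2.2.2

noncomputable def vx : V := MonoidAlgebra.single (FreeMagma.of true) 1
noncomputable def vy : V := MonoidAlgebra.single (FreeMagma.of false) 1

noncomputable def g (u : V) : F :=
  if h : Dec u then
    h.choose.1 * g h.choose.2.2.2 + h.choose.2.1 * g h.choose.2.2.1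
      + g h.choose.2.2.1 * g h.choose.2.2.2
  else if u = vx + vy then 1 else 0
termination_by deg u
decreasing_by
  all_goals
    obtain ⟨h1, h2, h3⟩ := h.choose_spec
    have h4 := deg_E h.choose.1 h.choose.2.1 h1 h2
    rw [← h3] at h4
    have h5 := deg_pos h1
    have h6 := deg_pos h2
    omega

lemma same_deg {a b a' b' : F} {p q p' q' : V} (hp : p ≠ 0) (hq : q ≠ 0) (hp' : p' ≠ 0)
    (hq' : q' ≠ 0) (h : E a b p q = E a' b' p' q') : p = p' ∨ q = q' := by
  have d1 := deg_E a b hp hq
  have d2 := deg_E a' b' hp' hq'
  rw [h] at d1
  obtain ⟨s, hs, hs'⟩ := exists_top hp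
  obtain ⟨t, ht, ht'⟩ := exists_top hq
  have h1 := deg_pos hp
  have h2 := deg_pos hq
  have h1' := deg_pos hp'
  have h2' := deg_pos hq'
  have e1 := E_node a b p q s t (by omega) (by omega)
  have e2 := E_node a' b' p' q' s t (by omega) (by omega)
  rw [h, e2, hs, ht, one_mul] at e1
  have hs2 : p'.coeff s = 1 := by
    rcases F_cases (p'.coeff s) with h0 | h0
    · rw [h0, zero_mul] at e1; exact absurd e1 (by decide)
    · exact h0
  have ht2 : q'.coeff t = 1 := by rw [hs2, one_mul] at e1; exact e1
  have l1 := le_deg (p := p') (t := s) (by rw [hs2]; decide)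
  have l2 := le_deg (p := q') (t := t) (by rw [ht2]; decide)
  rcases le_total (deg p) (deg q) with hle | hle
  · left
    ext k
    have hk := len_pos k
    have f1 := E_node a b p q k t (by omega) (by omega)
    have f2 := E_node a' b' p' q' k t (by omega) (by omega)
    rw [h, f2, ht, ht2, mul_one, mul_one] at f1
    exact f1.symm
  · right
    ext k
    have hk := len_pos k
    have f1 := E_node a b p q s k (by omega) (by omega)
    have f2 := E_node a' b' p' q' s k (by omega) (by omega)
    rw [h, f2, hs, hs2, one_mul, one_mul] at f1
    exact f1.symm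

lemma E_ne_zero (a b : F) {p q : V} (hp : p ≠ 0) (hq : q ≠ 0) : E a b p q ≠ 0 := by
  intro h
  have := deg_E a b hp hq
  have h1 := deg_pos hp
  rw [h] at this
  have h2 : deg 0 = 0 := by simp [deg]
  omega

lemma two_eq (p : V) : (2 : ℕ) • p = 0 := by rw [two_nsmul, add_self]

lemma eq_of_add {p q : V} (h : p + q = 0) : p = q := by
  have : p + q + q = q := by rw [h, zero_add]
  rwa [add_assoc, add_self, add_zero] at this

lemma ext_coeff {p q : V} (h : ∀ t, p.coeff t = q.coeff t) : p = q := by ext t; exact h t

/-- consistency of two decompositions -/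
lemma consist (n : ℕ) (G : V → F)
    (IH : ∀ a b p q, p ≠ 0 → q ≠ 0 → deg p + deg q < n →
      G (E a b p q) = a * G q + b * G p + G p * G q)
    {a b a' b' : F} {p q p' q' : V} (hp : p ≠ 0) (hq : q ≠ 0) (hp' : p' ≠ 0)
    (hq' : q' ≠ 0) (hn : deg p + deg q ≤ n) (h : E a b p q = E a' b' p' q') :
    a * G q + b * G p + G p * G q = a' * G q' + b' * G p' + G p' * G q' := by
  have d1 := deg_E a b hp hq
  have d2 := deg_E a' b' hp' hq'
  rw [h] at d1
  have h1 := deg_pos hp
  have h2 := deg_pos hq
  have hc : ∀ t, a * q.coeff t + b * p.coeff t + (p * q).coeff t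
      = a' * q'.coeff t + b' * p'.coeff t + (p' * q').coeff t := by
    intro t
    have := congrArg (fun z : V => z.coeff t) h
    simpa [E] using this
  have both : p = p' → q = q' →
      a * G q + b * G p + G p * G q = a' * G q' + b' * G p' + G p' * G q' := by
    rintro rfl rfl
    by_cases hpq : p = q
    · subst hpq
      obtain ⟨s, hs, -⟩ := exists_top hp
      have := hc s
      rw [hs] at this
      generalize (p * p).coeff s = z at this
      generalize G p = w
      clear * - this
      revert a b a' b' z w
      decide
    · have haa : a = a' ∧ b = b' := by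
        by_contra hne
        obtain ⟨s, hs, -⟩ := exists_top hp
        obtain ⟨t, ht, -⟩ := exists_top hq
        have k1 := hc s
        have k2 := hc t
        rw [hs] at k1
        rw [ht] at k2
        have hab : a + a' = 1 ∧ b + b' = 1 := by
          generalize (p * q).coeff s = z at k1
          generalize (p * q).coeff t = z' at k2
          generalize q.coeff s = w at k1
          generalize p.coeff t = w' at k2
          clear * - k1 k2 hne
          revert a b a' b' z z' w w'
          decide
        apply hpq
        apply ext_coeff
        intro u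
        have k := hc u
        generalize (p * q).coeff u = z at k
        generalize q.coeff u = w at k
        generalize p.coeff u = w' at k
        clear * - k hab
        revert a b a' b' z w w'
        decide
      rw [haa.1, haa.2]
  rcases same_deg hp hq hp' hq' h with rfl | rfl
  · by_cases hd : q + q' = 0
    · exact both rfl (eq_of_add hd)
    · have hc' : ∀ t, (p * (q + q')).coeff t = (p * q).coeff t + (p * q').coeff t := by
        intro t; simp [mul_add]
      have hq1 : ∀ c : F, c = a' → c + a = 1 → q = E c (b + b') p (q + q') := by
        rintro c rfl hca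
        apply ext_coeff
        intro t
        have k := hc t
        simp only [E, MonoidAlgebra.coeff_add, MonoidAlgebra.coeff_smul, Finsupp.coe_add,
          Finsupp.coe_smul, Pi.add_apply, Pi.smul_apply, smul_eq_mul, hc']
        generalize (p * q).coeff t = z at k
        generalize (p * q').coeff t = z' at k
        generalize q.coeff t = w at k
        generalize q'.coeff t = w' at k
        generalize p.coeff t = v at k
        clear * - k hca
        revert a b c b' z z' w w' v
        decide
      have hq2 : ∀ c : F, c = a → c + a' = 1 → q' = E c (b + b') p (q + q') := by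
        rintro c rfl hca
        apply ext_coeff
        intro t
        have k := hc t
        simp only [E, MonoidAlgebra.coeff_add, MonoidAlgebra.coeff_smul, Finsupp.coe_add,
          Finsupp.coe_smul, Pi.add_apply, Pi.smul_apply, smul_eq_mul, hc']
        generalize (p * q).coeff t = z at k
        generalize (p * q').coeff t = z' at k
        generalize q.coeff t = w at k
        generalize q'.coeff t = w' at k
        generalize p.coeff t = v at k
        clear * - k hca
        revert c b a' b' z z' w w' v
        decide
      by_cases haa : a = a'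
      · exfalso
        apply E_ne_zero a (b + b') hp hd
        apply ext_coeff
        intro t
        have k := hc t
        simp only [E, MonoidAlgebra.coeff_add, MonoidAlgebra.coeff_smul, Finsupp.coe_add,
          Finsupp.coe_smul, Pi.add_apply, Pi.smul_apply, smul_eq_mul, hc',
          MonoidAlgebra.coeff_zero, Finsupp.coe_zero, Pi.zero_apply]
        generalize (p * q).coeff t = z at k
        generalize (p * q').coeff t = z' at k
        generalize q.coeff t = w at k
        generalize q'.coeff t = w' at k
        generalize p.coeff t = v at k
        clear * - k haa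
        revert a b a' b' z z' w w' v
        decide
      · have hab : a' + a = 1 ∧ a + a' = 1 := by
          clear * - haa
          revert a a'
          decide
        have k1 := hq1 a' rfl hab.1
        have k2 := hq2 a rfl hab.2
        have m1 := deg_E a' (b + b') hp hd
        rw [← k1] at m1
        have g1 := IH a' (b + b') p (q + q') hp hd (by omega)
        have g2 := IH a (b + b') p (q + q') hp hd (by omega)
        rw [← k1] at g1
        rw [← k2] at g2
        rw [g1, g2]
        generalize G p = P
        generalize G (q + q') = D
        clear * - haa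
        revert a b a' b' P D
        decide
  · by_cases hd : p + p' = 0
    · exact both (eq_of_add hd) rfl
    · have hc' : ∀ t, ((p + p') * q).coeff t = (p * q).coeff t + (p' * q).coeff t := by
        intro t; simp [add_mul]
      have hq1 : ∀ c : F, c = b' → c + b = 1 → p = E (a + a') c (p + p') q := by
        rintro c rfl hca
        apply ext_coeff
        intro t
        have k := hc t
        simp only [E, MonoidAlgebra.coeff_add, MonoidAlgebra.coeff_smul, Finsupp.coe_add,
          Finsupp.coe_smul, Pi.add_apply, Pi.smul_apply, smul_eq_mul, hc']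
        generalize (p * q).coeff t = z at k
        generalize (p' * q).coeff t = z' at k
        generalize p.coeff t = w at k
        generalize p'.coeff t = w' at k
        generalize q.coeff t = v at k
        clear * - k hca
        revert a b c a' z z' w w' v
        decide
      have hq2 : ∀ c : F, c = b → c + b' = 1 → p' = E (a + a') c (p + p') q := by
        rintro c rfl hca
        apply ext_coeff
        intro t
        have k := hc t
        simp only [E, MonoidAlgebra.coeff_add, MonoidAlgebra.coeff_smul, Finsupp.coe_add,
          Finsupp.coe_smul, Pi.add_apply, Pi.smul_apply, smul_eq_mul, hc']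
        generalize (p * q).coeff t = z at k
        generalize (p' * q).coeff t = z' at k
        generalize p.coeff t = w at k
        generalize p'.coeff t = w' at k
        generalize q.coeff t = v at k
        clear * - k hca
        revert c a a' b' z z' w w' v
        decide
      by_cases haa : b = b'
      · exfalso
        apply E_ne_zero (a + a') b hd hq
        apply ext_coeff
        intro t
        have k := hc t
        simp only [E, MonoidAlgebra.coeff_add, MonoidAlgebra.coeff_smul, Finsupp.coe_add,
          Finsupp.coe_smul, Pi.add_apply, Pi.smul_apply, smul_eq_mul, hc',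
          MonoidAlgebra.coeff_zero, Finsupp.coe_zero, Pi.zero_apply]
        generalize (p * q).coeff t = z at k
        generalize (p' * q).coeff t = z' at k
        generalize p.coeff t = w at k
        generalize p'.coeff t = w' at k
        generalize q.coeff t = v at k
        clear * - k haa
        revert a b a' b' z z' w w' v
        decide
      · have hab : b' + b = 1 ∧ b + b' = 1 := by
          clear * - haa
          revert b b'
          decide
        have k1 := hq1 b' rfl hab.1
        have k2 := hq2 b rfl hab.2
        have m1 := deg_E (a + a') b' hd hq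
        rw [← k1] at m1
        have g1 := IH (a + a') b' (p + p') q hd hq (by omega)
        have g2 := IH (a + a') b (p + p') q hd hq (by omega)
        rw [← k1] at g1
        rw [← k2] at g2
        rw [g1, g2]
        generalize G q = P
        generalize G (p + p') = D
        clear * - haa
        revert a b a' b' P D
        decide

lemma g_E (n : ℕ) : ∀ a b p q, p ≠ 0 → q ≠ 0 → deg p + deg q < n →
      g (E a b p q) = a * g q + b * g p + g p * g q := by
  induction n with
  | zero => intro a b p q _ _ h; omega
  | succ n ih =>
    intro a b p q hp hq hn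
    have hD : Dec (E a b p q) := ⟨(a, b, p, q), hp, hq, rfl⟩
    rw [g, dif_pos hD]
    obtain ⟨h1, h2, h3⟩ := hD.choose_spec
    exact (consist n g ih hp hq h1 h2 (by omega) h3).symm

lemma not_dec {u : V} (h : deg u ≤ 1) : ¬ Dec u := by
  rintro ⟨⟨a, b, p, q⟩, hp, hq, rfl⟩
  have := deg_E a b hp hq
  have h1 := deg_pos hp
  have h2 := deg_pos hq
  simp only at *
  omega

lemma g_small {u : V} (h : deg u ≤ 1) : g u = if u = vx + vy then 1 else 0 := by
  rw [g, dif_neg (not_dec h)]

lemma deg_vx : deg vx ≤ 1 := by
  apply deg_le
  intro t ht
  have : t = FreeMagma.of true := by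
    by_contra hne
    apply ht
    simp [vx, Finsupp.single_apply, Ne.symm hne]
  rw [this]; rfl

lemma deg_vy : deg vy ≤ 1 := by
  apply deg_le
  intro t ht
  have : t = FreeMagma.of false := by
    by_contra hne
    apply ht
    simp [vy, Finsupp.single_apply, Ne.symm hne]
  rw [this]; rfl

lemma deg_vxy : deg (vx + vy) ≤ 1 := by
  apply deg_le
  intro t ht
  by_contra hlt
  apply ht
  have := deg_vx
  have := deg_vy
  have e1 : vx.coeff t = 0 := coeff_zero_of_lt (by omega)
  have e2 : vy.coeff t = 0 := coeff_zero_of_lt (by omega)
  simp [e1, e2]

lemma vx_ne : vx ≠ 0 := by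
  intro h
  have := congrArg (fun z : V => z.coeff (FreeMagma.of true)) h
  simp [vx] at this

lemma vy_ne : vy ≠ 0 := by
  intro h
  have := congrArg (fun z : V => z.coeff (FreeMagma.of false)) h
  simp [vy] at this

lemma vxy_ne : vx + vy ≠ 0 := by
  intro h
  have := congrArg (fun z : V => z.coeff (FreeMagma.of true)) h
  have hne : (FreeMagma.of false : T) ≠ FreeMagma.of true := by
    intro h'
    injection h' with h'
    exact absurd h' (by decide)
  simp [vx, vy, Finsupp.single_apply, hne] at this

lemma g_zero : g 0 = 0 := by
  rw [g_small (by simp [deg]), if_neg (Ne.symm vxy_ne)]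

lemma g_vx : g vx = 0 := by
  rw [g_small deg_vx, if_neg]
  intro h
  exact vy_ne (by simpa using h)

lemma g_vy : g vy = 0 := by
  rw [g_small deg_vy, if_neg]
  intro h
  exact vx_ne (by simpa using h)

lemma g_vxy : g (vx + vy) = 1 := by
  rw [g_small deg_vxy, if_pos rfl]

lemma g_all (a b : F) (p q : V) : g (a • q + b • p + p * q) = a * g q + b * g p + g p * g q := by
  by_cases hp : p = 0
  · subst hp
    rcases F_cases a with rfl | rfl <;> simp [g_zero]
  by_cases hq : q = 0
  · subst hq
    rcases F_cases b with rfl | rfl <;> simp [g_zero]
  exact g_E _ a b p q hp hq (Nat.lt_succ_self _)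

abbrev R := Unitization F V

noncomputable def f (u : R) : F := u.fst + g u.snd

lemma f_succ (u : R) : f (1 + u) = 1 + f u := by simp [f, add_assoc]

lemma f_mul (u v : R) : f (u * v) = f u * f v := by
  simp only [f, Unitization.fst_mul, Unitization.snd_mul, g_all]
  ring

lemma f_not_add : ¬ ∀ u v : R, f (u + v) = f u + f v := by
  intro h
  have := h (Unitization.inr vx) (Unitization.inr vy)
  simp [f, g_vx, g_vy, g_vxy] at this

end Pool.Agent.H27.Brachy
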