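import Mathlib

set_option autoImplicit false

namespace Pool.Agent.H27.BranchV4

abbrev X : Type := {l : List ℕ // ∀ i (h : i < l.length), l.get ⟨i, h⟩ < (fun _ : ℕ => 2) i}

theorem aia (g : Equiv.Perm X) (v : X) : g (g⁻¹ v) = v := g.apply_symm_apply v

theorem iaa (g : Equiv.Perm X) (v : X) : g⁻¹ (g v) = v := g.symm_apply_apply v

theorem ok_iff (l : List ℕ) :
    (∀ i (h : i < l.length), l.get ⟨i, h⟩ < (fun _ : ℕ => 2) i) ↔ ∀ x ∈ l, x < 2 := by
  constructor
  · intro h x hx
    obtain ⟨i, hi, rfl⟩ := List.getElem_of_mem hx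
    exact h i hi
  · intro h i hi
    exact h _ (List.get_mem _ _)

def mk (l : List ℕ) (h : ∀ x ∈ l, x < 2) : X := ⟨l, (ok_iff l).2 h⟩

theorem lt2 (v : X) : ∀ x ∈ v.1, x < 2 := (ok_iff _).1 v.2

def tk (n : ℕ) (v : X) : X := mk (v.1.take n) fun x hx => lt2 v x (List.mem_of_mem_take hx)

def xr (s : ℕ → ℕ) (v : X) : X := mk (v.1.mapIdx fun i x => (x + s i) % 2) fun x hx => by
  obtain ⟨i, hi, rfl⟩ := List.mem_mapIdx.1 hx
  omega

def swl : List ℕ → List ℕ
  | a :: b :: l => b :: a :: l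
  | l => l

theorem swl_perm : ∀ l : List ℕ, (swl l).Perm l
  | [] => List.Perm.refl _
  | [_] => List.Perm.refl _
  | _ :: _ :: _ => List.Perm.swap _ _ _

def sw (v : X) : X := mk (swl v.1) fun x hx => lt2 v x ((swl_perm _).subset hx)

theorem sw_len (v : X) : (sw v).1.length = v.1.length := (swl_perm _).length_eq

theorem sw_sw (v : X) : sw (sw v) = v := by
  obtain ⟨l, h⟩ := v
  apply Subtype.ext
  match l with
  | [] => rfl
  | [_] => rfl
  | _ :: _ :: _ => rfl

theorem xr_len (s : ℕ → ℕ) (v : X) : (xr s v).1.length = v.1.length := by simp [xr, mk]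

theorem tk_len (n : ℕ) (v : X) : (tk n v).1.length = min n v.1.length := by simp [tk, mk]

theorem xr_xr (s t : ℕ → ℕ) (v : X) : xr s (xr t v) = xr (s + t) v := by
  apply Subtype.ext
  apply List.ext_getElem
  · simp [xr, mk]
  · intro i h1 h2
    simp only [xr, mk, List.getElem_mapIdx, Pi.add_apply]
    omega

theorem xr_invol (s : ℕ → ℕ) (v : X) : xr s (xr s v) = v := by
  apply Subtype.ext
  apply List.ext_getElem
  · simp [xr, mk]
  · intro i h1 h2
    have := lt2 v _ (List.getElem_mem h2)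
    simp only [xr, mk, List.getElem_mapIdx]
    omega

theorem xr_zero (v : X) : xr 0 v = v := by
  apply Subtype.ext
  apply List.ext_getElem
  · simp [xr, mk]
  · intro i h1 h2
    have := lt2 v _ (List.getElem_mem h2)
    simp only [xr, mk, List.getElem_mapIdx, Pi.zero_apply]
    omega

theorem xr_tk (s : ℕ → ℕ) (n : ℕ) (v : X) : xr s (tk n v) = tk n (xr s v) := by
  apply Subtype.ext
  apply List.ext_getElem
  · simp [xr, mk, tk]
  · intro i h1 h2
    simp [xr, mk, tk]

theorem tk_tk (m n : ℕ) (v : X) : tk m (tk n v) = tk (min m n) v := by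
  apply Subtype.ext
  simp [tk, mk, List.take_take]

theorem tk_self (v : X) (n : ℕ) (h : v.1.length ≤ n) : tk n v = v := by
  apply Subtype.ext
  simp [tk, mk, List.take_of_length_le h]

theorem sw_tk (n : ℕ) (hn : 2 ≤ n) (v : X) : sw (tk n v) = tk n (sw v) := by
  obtain ⟨l, h⟩ := v
  obtain ⟨k, rfl⟩ : ∃ k, n = k + 2 := ⟨n - 2, by omega⟩
  apply Subtype.ext
  match l with
  | [] => rfl
  | [_] => rfl
  | _ :: _ :: _ => rfl

theorem sw_xr (s : ℕ → ℕ) (v : X) (hv : v.1.length = 2) :
    sw (xr s (sw v)) = xr (fun i => s (1 - i)) v := by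
  obtain ⟨l, h⟩ := v
  apply Subtype.ext
  match l with
  | [a, b] => rfl

theorem pre_iff (v w : X) : v.1 <+: w.1 ↔ tk v.1.length w = v := by
  rw [List.prefix_iff_eq_take, Subtype.ext_iff]
  exact eq_comm

def L : Subgroup (Equiv.Perm X) where
  carrier := {g | (∀ v, (g v).1.length = v.1.length) ∧ (∀ n v, g (tk n v) = tk n (g v)) ∧
    ∃ s, ∀ v : X, v.1.length ≤ 2 → g v = xr s v}
  mul_mem' := by
    rintro g h ⟨a1, a2, s, a3⟩ ⟨b1, b2, t, b3⟩
    refine ⟨fun v => by simp [a1, b1], fun n v => by simp [a2, b2], s + t, fun v hv => ?_⟩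
    rw [Equiv.Perm.mul_apply, a3 _ (by rw [b1]; exact hv), b3 v hv, xr_xr]
  one_mem' := ⟨fun _ => rfl, fun _ _ => rfl, 0, fun v _ => (xr_zero v).symm⟩
  inv_mem' := by
    rintro g ⟨a1, a2, s, a3⟩
    refine ⟨fun v => ?_, fun n v => ?_, s, fun v hv => ?_⟩
    · rw [← a1, aia]
    · rw [Equiv.Perm.inv_eq_iff_eq, a2, aia]
    · rw [Equiv.Perm.inv_eq_iff_eq, a3 _ (by rw [xr_len]; exact hv), xr_invol]

theorem L_pre (g : Equiv.Perm X) (hg : g ∈ L) (v w : X) : v.1 <+: w.1 ↔ (g v).1 <+: (g w).1 := by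
  rw [pre_iff, pre_iff, hg.1, ← hg.2.1, g.apply_eq_iff_eq]

def xp (s : ℕ → ℕ) : Equiv.Perm X := Function.Involutive.toPerm (xr s) (xr_invol s)

theorem xp_mem (s : ℕ → ℕ) : xp s ∈ L := ⟨xr_len s, xr_tk s, s, fun _ _ => rfl⟩

theorem L_trans (v w : X) (h : v.1.length = w.1.length) : ∃ g ∈ L, g v = w := by
  refine ⟨xp fun i => v.1.getD i 0 + w.1.getD i 0, xp_mem _, ?_⟩
  apply Subtype.ext
  apply List.ext_getElem
  · exact (xr_len _ _).trans h
  · intro i h1 h2
    have h3 : i < v.1.length := by omega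
    have := lt2 w _ (List.getElem_mem h2)
    simp only [xp, Function.Involutive.coe_toPerm, xr, mk, List.getElem_mapIdx]
    rw [List.getD_eq_getElem _ _ h3, List.getD_eq_getElem _ _ h2]
    omega

theorem short_finite (n : ℕ) : {v : X | v.1.length ≤ n}.Finite := by
  refine Set.Finite.of_injOn (f := fun v : X => v.1.map (Nat.cast : ℕ → ZMod 2))
    (t := {l | l.length ≤ n}) (fun v hv => by simpa using hv) ?_ (List.finite_length_le _ _)
  intro v _ w _ h
  apply Subtype.ext
  have hl : v.1.length = w.1.length := by simpa using congrArg List.length h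
  apply List.ext_getElem hl
  intro i h1 h2
  have e : ((v.1[i] : ℕ) : ZMod 2) = (w.1[i] : ℕ) := by
    have := List.getElem_of_eq h (i := i) (by simpa using h1)
    simpa using this
  have a := lt2 v _ (List.getElem_mem h1)
  have b := lt2 w _ (List.getElem_mem h2)
  rw [ZMod.natCast_eq_natCast_iff'] at e
  omega

/-- the part of `g` below `u` -/
theorem exists_part (g : Equiv.Perm X) (hg : g ∈ L) (u : X) (hu : 2 ≤ u.1.length)
    (hfix : ∀ v : X, v.1.length ≤ u.1.length → g v = v) :
    ∃ k ∈ L, (∀ v : X, u.1 <+: v.1 → k v = g v) ∧ ∀ v : X, ¬ u.1 <+: v.1 → k v = v := by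
  classical
  have hp : ∀ v : X, u.1 <+: (g v).1 ↔ u.1 <+: v.1 := by
    intro v
    conv_lhs => rw [← hfix u le_rfl]
    exact (L_pre g hg u v).symm
  let k : Equiv.Perm X := Equiv.Perm.ofSubtype (g.subtypePerm (p := fun v : X => u.1 <+: v.1) hp)
  have k1 : ∀ v : X, u.1 <+: v.1 → k v = g v := fun v hv =>
    Equiv.Perm.ofSubtype_subtypePerm_of_mem (p := fun v : X => u.1 <+: v.1) hp hv
  have k2 : ∀ v : X, ¬ u.1 <+: v.1 → k v = v := fun v hv =>
    Equiv.Perm.ofSubtype_subtypePerm_of_not_mem (p := fun v : X => u.1 <+: v.1) hp hv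
  refine ⟨k, ⟨fun v => ?_, fun n v => ?_, 0, fun v hv => ?_⟩, k1, k2⟩
  · by_cases h : u.1 <+: v.1
    · rw [k1 v h, hg.1]
    · rw [k2 v h]
  · by_cases h : u.1 <+: v.1
    · by_cases h' : u.1 <+: (tk n v).1
      · rw [k1 v h, k1 _ h', hg.2.1]
      · rw [k1 v h, k2 _ h', ← hg.2.1, hfix]
        rw [tk_len]
        by_contra hc
        apply h'
        rw [pre_iff, tk_tk, min_eq_left (by omega), ← pre_iff]
        exact h
    · rw [k2 v h, k2]
      exact fun h' => h (h'.trans (List.take_prefix _ _))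
  · rw [xr_zero]
    by_cases h : u.1 <+: v.1
    · rw [k1 v h, hfix v (by omega)]
    · rw [k2 v h]

theorem L_index (n : ℕ) : ((Subgroup.closure {g : Equiv.Perm X | g ∈ L ∧ ∃ u : X, u.1.length = n ∧
    ∀ v : X, ¬ u.1 <+: v.1 → g v = v}).subgroupOf L).index ≠ 0 := by
  classical
  set C := Subgroup.closure {g : Equiv.Perm X | g ∈ L ∧ ∃ u : X, u.1.length = n ∧
    ∀ v : X, ¬ u.1 <+: v.1 → g v = v} with hC
  have key : ∀ U : Finset X, (∀ u ∈ U, u.1.length = n + 2) → ∀ g ∈ L,
      (∀ v : X, v.1.length ≤ n + 2 → g v = v) → (∀ v : X, (∀ u ∈ U, ¬ u.1 <+: v.1) → g v = v) →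
      g ∈ C := by
    intro U
    induction U using Finset.induction_on with
    | empty =>
      intro _ g _ _ h
      have : g = 1 := Equiv.ext fun v => h v (by simp)
      rw [this]; exact C.one_mem
    | insert u U huU ih =>
      intro hU g hg h1 h2
      have hu := hU u (Finset.mem_insert_self _ _)
      obtain ⟨k, hk, k1, k2⟩ := exists_part g hg u (by omega) (by rw [hu]; exact h1)
      have hkC : k ∈ C := Subgroup.subset_closure ⟨hk, tk n u, by rw [tk_len]; omega,
        fun v hv => k2 v fun h => hv ((List.take_prefix _ _).trans h)⟩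
      have : k⁻¹ * g ∈ C := by
        refine ih (fun w hw => hU w (Finset.mem_insert_of_mem hw)) _ (L.mul_mem (L.inv_mem hk) hg)
          (fun v hv => ?_) fun v hv => ?_
        · rw [Equiv.Perm.mul_apply, Equiv.Perm.inv_eq_iff_eq]
          by_cases h : u.1 <+: v.1
          · rw [k1 v h]
          · rw [k2 v h, h1 v hv]
        · rw [Equiv.Perm.mul_apply, Equiv.Perm.inv_eq_iff_eq]
          by_cases h : u.1 <+: v.1
          · rw [k1 v h]
          · rw [k2 v h, h2 v]
            intro w hw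
            rcases Finset.mem_insert.1 hw with rfl | hw
            · exact h
            · exact hv w hw
      have := C.mul_mem hkC this
      rwa [mul_inv_cancel_left] at this
  haveI : Finite {v : X // v.1.length ≤ n + 2} := (short_finite (n + 2)).to_subtype
  let ρ : L →* Equiv.Perm {v : X // v.1.length ≤ n + 2} :=
    { toFun := fun g => g.1.subtypePerm fun v => by rw [g.2.1]
      map_one' := by ext v; rfl
      map_mul' := fun g h => by ext v; rfl }
  have hle : ρ.ker ≤ C.subgroupOf L := by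
    intro g hg
    have h1 : ∀ v : X, v.1.length ≤ n + 2 → g.1 v = v := fun v hv =>
      congrArg Subtype.val (Equiv.congr_fun (MonoidHom.mem_ker.1 hg) ⟨v, hv⟩)
    refine key ((short_finite (n + 2)).toFinset.filter fun u => u.1.length = n + 2)
      (fun u hu => (Finset.mem_filter.1 hu).2) g.1 g.2 h1 fun v hv => ?_
    by_cases h : v.1.length ≤ n + 2
    · exact h1 v h
    · exfalso
      refine hv (tk (n + 2) v) ?_ (List.take_prefix _ _)
      simp only [Finset.mem_filter, Set.Finite.mem_toFinset, Set.mem_ofPred_eq, tk_len]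
      omega
  exact (Subgroup.finiteIndex_of_le hle).index_ne_zero

def app (v : X) : X := mk (v.1 ++ [0, 0]) fun x hx => by
  rcases List.mem_append.1 hx with h | h
  · exact lt2 v x h
  · simp at h; omega

theorem tk_app (v : X) : tk v.1.length (app v) = v := by
  apply Subtype.ext
  simp [tk, app, mk]

theorem app_len (v : X) : 2 ≤ (app v).1.length := by simp [app, mk]

theorem L_ext (g h : L) (e : ∀ v : X, 2 ≤ v.1.length → g.1 v = h.1 v) : g = h := by
  apply Subtype.ext
  ext1 v
  rw [← tk_app v, g.2.2.1, h.2.2.1, e _ (app_len v)]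

theorem exists_conj (g : L) : ∃ g' : L, ∀ v : X, 2 ≤ v.1.length → g'.1 v = sw (g.1 (sw v)) := by
  classical
  obtain ⟨g, a1, a2, s, a3⟩ := g
  let t : ℕ → ℕ := fun i => s (1 - i)
  have b1 := (L.inv_mem (show g ∈ L from ⟨a1, a2, s, a3⟩)).1
  let k : Equiv.Perm X :=
    { toFun := fun v => if 2 ≤ v.1.length then sw (g (sw v)) else xr t v
      invFun := fun v => if 2 ≤ v.1.length then sw (g⁻¹ (sw v)) else xr t v
      left_inv := fun v => by
        by_cases h : 2 ≤ v.1.length
        · simp only [if_pos h]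
          rw [if_pos (by rw [sw_len, a1, sw_len]; exact h), sw_sw, iaa, sw_sw]
        · simp only [if_neg h]
          rw [if_neg (by rw [xr_len]; exact h), xr_invol]
      right_inv := fun v => by
        by_cases h : 2 ≤ v.1.length
        · simp only [if_pos h]
          rw [if_pos (by rw [sw_len, b1, sw_len]; exact h), sw_sw, aia, sw_sw]
        · simp only [if_neg h]
          rw [if_neg (by rw [xr_len]; exact h), xr_invol] }
  have k1 : ∀ v : X, 2 ≤ v.1.length → k v = sw (g (sw v)) := fun v hv => if_pos hv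
  have k2 : ∀ v : X, v.1.length ≤ 2 → k v = xr t v := fun v hv => by
    by_cases h : 2 ≤ v.1.length
    · rw [k1 v h, a3 _ (by rw [sw_len]; exact hv), sw_xr s v (by omega)]
    · exact if_neg h
  have k3 : ∀ n, 2 ≤ n → ∀ v : X, 2 ≤ v.1.length → k (tk n v) = tk n (k v) := by
    intro n hn v hv
    rw [k1 v hv, k1 _ (by rw [tk_len]; omega), sw_tk n hn, a2, sw_tk n hn]
  refine ⟨⟨k, fun v => ?_, fun n v => ?_, t, k2⟩, k1⟩
  · by_cases h : 2 ≤ v.1.length
    · rw [k1 v h, sw_len, a1, sw_len]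
    · rw [k2 v (by omega), xr_len]
  · by_cases h : 2 ≤ v.1.length
    · by_cases hn : 2 ≤ n
      · exact k3 n hn v h
      · have e : tk n (k v) = tk n (tk 2 (k v)) := by rw [tk_tk, min_eq_left (by omega)]
        rw [e, ← k3 2 le_rfl v h, k2 (tk 2 v) (by rw [tk_len]; omega), ← xr_tk, tk_tk,
          min_eq_left (by omega), k2 _ (by rw [tk_len]; omega)]
    · rw [k2 v (by omega), k2 _ (by rw [tk_len]; omega), xr_tk]

theorem exists_aut : ∃ φ : L ≃* L, ∀ σ : Equiv.Perm X, ¬ ∀ g : L, (φ g).1 = σ * g.1 * σ⁻¹ := by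
  choose F hF using exists_conj
  have hinv : ∀ g, F (F g) = g := fun g => L_ext _ _ fun v hv => by
    rw [hF _ v hv, hF _ _ (by rw [sw_len]; exact hv), sw_sw, sw_sw]
  have hmul : ∀ g h, F (g * h) = F g * F h := fun g h => L_ext _ _ fun v hv => by
    rw [hF _ v hv, Subgroup.coe_mul, Subgroup.coe_mul, Equiv.Perm.mul_apply, Equiv.Perm.mul_apply,
      hF h v hv, hF g _ (by rw [sw_len, h.2.1, sw_len]; exact hv), sw_sw]
  refine ⟨⟨⟨F, F, hinv, hinv⟩, hmul⟩, fun σ h => ?_⟩
  let g : L := ⟨xp fun i => i, xp_mem _⟩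
  have h1 : (F g).1 = σ * g.1 * σ⁻¹ := h g
  have fix : ∀ v : X, (F g).1 v = v → v.1 = [] := by
    intro v hv
    have e := (L_pre _ (F g).2 v (app v)).1 (List.prefix_append _ _)
    rw [hv, hF g _ (app_len v)] at e
    obtain ⟨l, hl⟩ := v
    match l with
    | [] => rfl
    | [a] =>
      exfalso
      have := hl 0 (by simp)
      simp [g, xp, xr, sw, app, mk, swl, List.mapIdx_cons] at e this
      omega
    | a :: b :: l =>
      exfalso
      have := hl 0 (by simp)
      simp [g, xp, xr, sw, app, mk, swl, List.mapIdx_cons] at e this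
      omega
  have f0 : (F g).1 (σ (mk [0] (by simp))) = σ (mk [0] (by simp)) := by
    rw [h1]; simp only [Equiv.Perm.mul_apply, iaa]; rfl
  have f1 : (F g).1 (σ (mk [1] (by simp))) = σ (mk [1] (by simp)) := by
    rw [h1]; simp only [Equiv.Perm.mul_apply, iaa]; rfl
  have := σ.injective (Subtype.ext ((fix _ f0).trans (fix _ f1).symm))
  simp [mk] at this

end Pool.Agent.H27.BranchV4
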