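import Mathlib

namespace Pool.Agent.H27.Buo

open Filter Topology

/-- Membership in `ℓ_p`. -/
def InLp (p : ℝ) (x : ℕ → ℝ) : Prop := Summable fun j => |x j| ^ p

/-- Order convergence of a sequence in the vector lattice `ℓ_p` (coordinatewise order). -/
def OrdConv (p : ℝ) (d : ℕ → ℕ → ℝ) (e : ℕ → ℝ) : Prop :=
  ∃ z : ℕ → ℕ → ℝ, (∀ m, InLp p (z m)) ∧ (∀ m, 0 ≤ z m) ∧ Antitone z ∧
    (∀ w, InLp p w → (∀ m, w ≤ z m) → w ≤ 0) ∧
    ∃ N : ℕ → ℕ, ∀ m k, N m ≤ k → |d k - e| ≤ z m

/-- Buo-Cauchy sequences in `ℓ_p`. -/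
def BuoCauchy (p : ℝ) (x : ℕ → ℕ → ℝ) : Prop :=
  ∀ n : ℕ → ℕ, StrictMono n → OrdConv p (fun k => x (n (k + 1)) - x (n k)) 0

noncomputable def tent (v : ℝ) : ℝ := max 0 (min v (1 - v))

lemma tent_nonneg (v : ℝ) : 0 ≤ tent v := le_max_left _ _
lemma tent_le (v : ℝ) : tent v ≤ 1 := by
  unfold tent; refine max_le (by norm_num) ?_
  rcases le_total v 0 with h | h
  · exact (min_le_left _ _).trans (by linarith)
  · exact (min_le_right _ _).trans (by linarith)

lemma tent_lip (s t : ℝ) : |tent s - tent t| ≤ |s - t| := by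
  unfold tent
  refine (abs_max_sub_max_le_max _ _ _ _).trans (max_le (by simp) ?_)
  refine (abs_min_sub_min_le_max _ _ _ _).trans (max_le le_rfl ?_)
  rw [show 1 - s - (1 - t) = -(s - t) by ring, abs_neg]

lemma tent_zero {s : ℝ} (hs : 0 ≤ s) {a : ℕ} (h : a ≠ ⌊s⌋₊) : tent (s - a) = 0 := by
  unfold tent
  refine max_eq_left ?_
  rcases lt_or_gt_of_ne h with h | h
  · have : ((a + 1 : ℕ) : ℝ) ≤ s := (Nat.le_floor_iff hs).1 h
    push_cast at this
    exact (min_le_right _ _).trans (by linarith)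
  · have : s < a := Nat.lt_of_floor_lt h
    exact (min_le_left _ _).trans (by linarith)

variable {p : ℝ}

lemma row_bd (hp : 1 < p) {s t : ℝ} (hs : 0 ≤ s) (ht : 0 ≤ t) (F : Finset ℕ) :
    ∑ a ∈ F, |tent (s - a) - tent (t - a)| ^ p ≤ 2 * (min 1 |s - t|) ^ p := by
  classical
  have hb : ∀ a : ℕ, |tent (s - a) - tent (t - a)| ^ p ≤ (min 1 |s - t|) ^ p := fun a => by
    refine Real.rpow_le_rpow (abs_nonneg _) (le_min ?_ ?_) (by linarith)
    · have := tent_nonneg (s - a); have := tent_nonneg (t - a)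
      have := tent_le (s - a); have := tent_le (t - a)
      rw [abs_le]; constructor <;> linarith
    · simpa using tent_lip (s - a) (t - a)
  calc _ = ∑ a ∈ F ∩ {⌊s⌋₊, ⌊t⌋₊}, |tent (s - a) - tent (t - a)| ^ p := by
        refine (Finset.sum_subset Finset.inter_subset_left fun a ha hn => ?_).symm
        simp only [Finset.mem_inter, ha, true_and, Finset.mem_insert, Finset.mem_singleton,
          not_or] at hn
        rw [tent_zero hs hn.1, tent_zero ht hn.2]
        simp [Real.zero_rpow (by linarith : p ≠ 0)]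
    _ ≤ (F ∩ {⌊s⌋₊, ⌊t⌋₊}).card • (min 1 |s - t|) ^ p := Finset.sum_le_card_nsmul _ _ _ fun a _ => hb a
    _ ≤ _ := by
        rw [nsmul_eq_mul]
        have : (F ∩ {⌊s⌋₊, ⌊t⌋₊}).card ≤ 2 :=
          (Finset.card_le_card Finset.inter_subset_right).trans Finset.card_le_two
        have h2 : ((F ∩ {⌊s⌋₊, ⌊t⌋₊}).card : ℝ) ≤ 2 := by exact_mod_cast this
        exact mul_le_mul_of_nonneg_right h2 (by positivity)

lemma scale_bd (hp : 1 < p) : ∃ C : ℝ, 0 ≤ C ∧ ∀ d : ℝ, 0 ≤ d → ∀ n : ℕ,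
    ∑ i ∈ Finset.range n, (1 / 2 : ℝ) ^ i * (min 1 (2 ^ i * d)) ^ p ≤ C * d := by
  set r := min (p - 1) 1 with hr
  have r0 : 0 < r := lt_min (by linarith) one_pos
  have r1 : r ≤ 1 := min_le_right _ _
  have r2 : r ≤ p - 1 := min_le_left _ _
  set c := (2 : ℝ) ^ r with hc
  have c1 : 1 < c := Real.one_lt_rpow (by norm_num) r0
  have c2 : c ≤ 2 := by
    simpa using Real.rpow_le_rpow_of_exponent_le (by norm_num : (1 : ℝ) ≤ 2) r1
  refine ⟨8 / (c - 1), by have := sub_pos.2 c1; positivity, fun d hd n => ?_⟩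
  rcases eq_or_lt_of_le hd with h | hd
  · subst h; simp [Real.zero_rpow (by linarith : p ≠ 0)]
  let s : ℕ → ℝ := fun i => (2 ^ i * d) ^ r
  have s0 : ∀ i, 0 < s i := fun i => by simp only [s]; positivity
  have ss : ∀ i, s (i + 1) = c * s i := fun i => by
    simp only [s, hc]
    rw [← Real.mul_rpow (by norm_num) (by positivity)]; congr 1; ring
  have term : ∀ i, (1 / 2 : ℝ) ^ i * (min 1 (2 ^ i * d)) ^ p ≤
      8 / (c - 1) * d * (s (i + 1) / (1 + s (i + 1)) - s i / (1 + s i)) := by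
    intro i
    have hs := s0 i
    have t0 : (0 : ℝ) < 2 ^ i * d := by positivity
    have e0 : (1 / 2 : ℝ) ^ i = d / (2 ^ i * d) := by field_simp; simp
    have key : (1 / 2 : ℝ) ^ i * (min 1 (2 ^ i * d)) ^ p ≤ d * (4 * s i / (1 + s i) ^ 2) := by
      rw [e0]
      rcases le_total (2 ^ i * d) 1 with h | h
      · rw [min_eq_right h]
        have a1 : (2 ^ i * d) ^ p = (2 ^ i * d) ^ (p - 1) * (2 ^ i * d) := by
          rw [Real.rpow_sub_one t0.ne']; field_simp
        have a2 : (2 ^ i * d) ^ (p - 1) ≤ s i := Real.rpow_le_rpow_of_exponent_ge t0 h r2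
        have a3 : s i ≤ 1 := Real.rpow_le_one t0.le h r0.le
        have a4 : s i ≤ 4 * s i / (1 + s i) ^ 2 := by
          rw [le_div_iff₀ (by positivity)]; nlinarith [mul_pos hs hs]
        rw [a1]
        calc d / (2 ^ i * d) * ((2 ^ i * d) ^ (p - 1) * (2 ^ i * d)) = d * (2 ^ i * d) ^ (p - 1) := by
              field_simp
          _ ≤ _ := mul_le_mul_of_nonneg_left (a2.trans a4) hd.le
      · rw [min_eq_left h, Real.one_rpow, mul_one]
        have a2 : s i ≤ 2 ^ i * d := by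
          simpa using Real.rpow_le_rpow_of_exponent_le h r1
        have a3 : 1 ≤ s i := Real.one_le_rpow h r0.le
        have a4 : 1 / (2 ^ i * d) ≤ 4 * s i / (1 + s i) ^ 2 := by
          refine (one_div_le_one_div_of_le hs a2).trans ?_
          rw [div_le_div_iff₀ hs (by positivity)]; nlinarith
        rw [div_eq_mul_one_div]
        exact mul_le_mul_of_nonneg_left a4 hd.le
    refine key.trans ?_
    have hc0 : 0 < c - 1 := sub_pos.2 c1
    have e : 8 / (c - 1) * d * (s (i + 1) / (1 + s (i + 1)) - s i / (1 + s i)) =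
        d * (8 * s i / ((1 + s i) * (1 + c * s i))) := by
      rw [ss]; field_simp; ring
    rw [e]
    refine mul_le_mul_of_nonneg_left ?_ hd.le
    rw [div_le_div_iff₀ (by positivity) (by positivity)]
    have : 1 + c * s i ≤ 2 * (1 + s i) := by nlinarith
    nlinarith [mul_le_mul_of_nonneg_left this (by positivity : 0 ≤ 4 * s i * (1 + s i))]
  refine (Finset.sum_le_sum fun i _ => term i).trans ?_
  rw [← Finset.mul_sum, Finset.sum_range_sub (fun i => s i / (1 + s i))]
  have h1 : s n / (1 + s n) ≤ 1 := by rw [div_le_one (by linarith [s0 n])]; linarith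
  have h2 : 0 ≤ s 0 / (1 + s 0) := by have := s0 0; positivity
  have hc0 : 0 < c - 1 := sub_pos.2 c1
  have : 0 ≤ 8 / (c - 1) * d := by positivity
  nlinarith

noncomputable def Phi (p u : ℝ) (q : ℕ × ℕ) : ℝ :=
  ((1 / 2 : ℝ) ^ q.1) ^ (1 / p) * tent (2 ^ q.1 * u - q.2)

lemma wt_pow (hp : 1 < p) (i : ℕ) (t : ℝ) :
    |((1 / 2 : ℝ) ^ i) ^ (1 / p) * t| ^ p = (1 / 2 : ℝ) ^ i * |t| ^ p := by
  rw [abs_mul, Real.mul_rpow (abs_nonneg _) (abs_nonneg _), abs_of_nonneg (by positivity),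
    ← Real.rpow_mul (by positivity), one_div_mul_cancel (by linarith), Real.rpow_one]

lemma snow (hp : 1 < p) : ∃ C : ℝ, 0 ≤ C ∧ ∀ u v : ℝ, 0 ≤ u → 0 ≤ v →
    Summable (fun q => |Phi p u q - Phi p v q| ^ p) ∧
      ∑' q, |Phi p u q - Phi p v q| ^ p ≤ C * |u - v| := by
  obtain ⟨C, C0, hC⟩ := scale_bd hp
  refine ⟨2 * C, by positivity, fun u v hu hv => ?_⟩
  have hrow : ∀ (i : ℕ) (F : Finset ℕ), ∑ a ∈ F, |Phi p u (i, a) - Phi p v (i, a)| ^ p ≤
      2 * ((1 / 2 : ℝ) ^ i * (min 1 (2 ^ i * |u - v|)) ^ p) := by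
    intro i F
    simp only [Phi, ← mul_sub, wt_pow hp, ← Finset.mul_sum]
    have := row_bd hp (s := 2 ^ i * u) (t := 2 ^ i * v) (by positivity) (by positivity) F
    rw [← mul_sub, abs_mul, abs_of_pos (by positivity : (0 : ℝ) < 2 ^ i)] at this
    have h2 := mul_le_mul_of_nonneg_left this (by positivity : (0 : ℝ) ≤ (1 / 2) ^ i)
    linarith
  have h1 : ∀ i : ℕ, Summable fun a => |Phi p u (i, a) - Phi p v (i, a)| ^ p := fun i =>
    summable_of_sum_le (fun a => by positivity) (hrow i)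
  have h2 : ∀ n, ∑ i ∈ Finset.range n, ∑' a, |Phi p u (i, a) - Phi p v (i, a)| ^ p ≤
      2 * C * |u - v| := fun n => by
    refine (Finset.sum_le_sum fun i _ => (h1 i).tsum_le_of_sum_le (hrow i)).trans ?_
    rw [← Finset.mul_sum]
    linarith [hC _ (abs_nonneg (u - v)) n]
  have hnn : ∀ i : ℕ, 0 ≤ ∑' a, |Phi p u (i, a) - Phi p v (i, a)| ^ p := fun i =>
    tsum_nonneg fun a => by positivity
  have hs : Summable fun q => |Phi p u q - Phi p v q| ^ p :=
    (summable_prod_of_nonneg fun q => by positivity).2 ⟨h1, summable_of_sum_range_le hnn h2⟩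
  exact ⟨hs, by rw [hs.tsum_prod]; exact Real.tsum_le_of_sum_range_le hnn h2⟩

noncomputable def uu (n : ℕ) : ℝ := 1 / Real.log (n + 3)

lemma log_ge (n : ℕ) : 1 ≤ Real.log (n + 3) := by
  rw [Real.le_log_iff_exp_le (by positivity)]
  have := Real.exp_one_lt_d9
  have : (0 : ℝ) ≤ n := by positivity
  linarith

lemma uu_pos (n : ℕ) : 0 < uu n := by have := log_ge n; unfold uu; positivity

lemma uu_anti : Antitone uu := fun a b h => by
  unfold uu
  refine one_div_le_one_div_of_le (by linarith [log_ge a]) (Real.log_le_log (by positivity) ?_)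
  have : (a : ℝ) ≤ b := by exact_mod_cast h
  linarith

lemma uu_gap (n : ℕ) : uu n ≤ uu (n + 1) + 1 / (n + 3) := by
  have a := log_ge n
  have b := log_ge (n + 1)
  have c : Real.log ((n + 1 : ℕ) + 3) - Real.log (n + 3) ≤ 1 / (n + 3) := by
    rw [← Real.log_div (by positivity) (by positivity)]
    refine (Real.log_le_sub_one_of_pos (by positivity)).trans (le_of_eq ?_)
    push_cast; field_simp; ring
  have d : Real.log (n + 3) ≤ Real.log ((n + 1 : ℕ) + 3) :=
    Real.log_le_log (by positivity) (by push_cast; linarith)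
  unfold uu
  set A := Real.log (n + 3)
  set B := Real.log ((n + 1 : ℕ) + 3)
  have : 1 / A - 1 / B ≤ B - A := by
    rw [div_sub_div _ _ (by linarith) (by linarith), div_le_iff₀ (by positivity)]
    nlinarith [mul_nonneg (sub_nonneg.2 d) (by nlinarith : 0 ≤ A * B - 1)]
  linarith

lemma uu_hit (N : ℕ) (v : ℝ) (h0 : 0 < v) (h1 : v ≤ uu N) :
    ∃ n, N ≤ n ∧ v ≤ uu n ∧ uu n ≤ v + 1 / (N + 3) := by
  have ht : Tendsto uu atTop (𝓝 0) := by
    refine Tendsto.const_div_atTop ?_ 1
    exact Real.tendsto_log_atTop.comp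
      (tendsto_atTop_add_const_right _ _ tendsto_natCast_atTop_atTop)
  have hex : ∃ m, uu (N + m + 1) < v := by
    obtain ⟨M, hM⟩ := eventually_atTop.1 (ht.eventually (gt_mem_nhds h0))
    exact ⟨M, hM _ (by omega)⟩
  classical
  let m := Nat.find hex
  refine ⟨N + m, by omega, ?_, ?_⟩
  · rcases Nat.eq_zero_or_pos m with h | h
    · rw [h]; exact h1
    · have := Nat.find_min hex (m := m - 1) (by omega)
      rw [show N + (m - 1) + 1 = N + m by omega] at this
      exact not_lt.1 this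
  · have a := Nat.find_spec hex
    have b := uu_gap (N + m)
    have c : (1 : ℝ) / ((N + m : ℕ) + 3) ≤ 1 / (N + 3) :=
      one_div_le_one_div_of_le (by positivity) (by push_cast; linarith [Nat.cast_nonneg (α := ℝ) m])
    linarith

noncomputable def xx (p : ℝ) (n j : ℕ) : ℝ := Phi p (uu n) (Nat.pairEquiv.symm j)

lemma xx_mem (hp : 1 < p) (n : ℕ) : InLp p (xx p n) := by
  obtain ⟨C, -, hC⟩ := snow hp
  have := (hC (uu n) 0 (uu_pos n).le le_rfl).1
  have e : ∀ q, Phi p 0 q = 0 := fun q => by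
    have : tent (2 ^ q.1 * 0 - q.2) = 0 := max_eq_left ((min_le_left _ _).trans (by simp))
    rw [Phi, this, mul_zero]
  simp only [e, sub_zero] at this
  exact (Nat.pairEquiv.symm.summable_iff (f := fun q => |Phi p (uu n) q| ^ p)).2 this

lemma xx_cauchy (hp : 1 < p) : BuoCauchy p (xx p) := by
  obtain ⟨C, C0, hC⟩ := snow hp
  intro φ hφ
  have p0 : 0 < p := by linarith
  let E : ℕ × ℕ → ℝ := fun z => |xx p (φ (z.1 + 1)) z.2 - xx p (φ z.1) z.2| ^ p
  have E0 : ∀ z, 0 ≤ E z := fun z => by simp only [E]; positivity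
  have hk : ∀ k, Summable (fun j => E (k, j)) ∧
      ∑' j, E (k, j) ≤ C * (uu (φ k) - uu (φ (k + 1))) := by
    intro k
    obtain ⟨a, b⟩ := hC (uu (φ (k + 1))) (uu (φ k)) (uu_pos _).le (uu_pos _).le
    refine ⟨(Nat.pairEquiv.symm.summable_iff
      (f := fun q => |Phi p (uu (φ (k + 1))) q - Phi p (uu (φ k)) q| ^ p)).2 a, ?_⟩
    rw [abs_sub_comm, abs_of_nonneg (sub_nonneg.2 (uu_anti (hφ.monotone (Nat.le_succ k))))] at b
    exact le_of_eq_of_le (Nat.pairEquiv.symm.tsum_eq
      (fun q => |Phi p (uu (φ (k + 1))) q - Phi p (uu (φ k)) q| ^ p)) b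
  have hE : Summable E := by
    refine (summable_prod_of_nonneg E0).2 ⟨fun k => (hk k).1,
      summable_of_sum_range_le (c := C * uu (φ 0)) (fun k => tsum_nonneg fun j => E0 _) fun n => ?_⟩
    refine (Finset.sum_le_sum fun k _ => (hk k).2).trans ?_
    rw [← Finset.mul_sum, Finset.sum_range_sub' (fun k => uu (φ k))]
    have := uu_pos (φ n)
    nlinarith
  have hj : ∀ j, Summable fun k => E (k, j) := fun j => hE.prod_symm.prod_factor j
  have hS : Summable fun j => ∑' k, E (k, j) := hE.prod_symm.prod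
  have hjm : ∀ j m, Summable fun k => E (k + m, j) := fun j m =>
    (summable_nat_add_iff (f := fun k => E (k, j)) m).2 (hj j)
  let R : ℕ → ℕ → ℝ := fun m j => ∑' k, E (k + m, j)
  have R0 : ∀ m j, 0 ≤ R m j := fun m j => tsum_nonneg fun k => E0 _
  have Ranti : ∀ j, Antitone fun m => R m j := fun j => antitone_nat_of_succ_le fun m => by
    simp only [R]
    rw [(hjm j m).tsum_eq_zero_add]
    have := E0 (0 + m, j)
    have e : ∀ k, k + 1 + m = k + (m + 1) := fun k => by ring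
    simp only [e]
    linarith
  refine ⟨fun m j => R m j ^ (1 / p), fun m => ?_, fun m j => Real.rpow_nonneg (R0 m j) _,
    fun a b h j => Real.rpow_le_rpow (R0 _ _) (Ranti j h) (by positivity), fun w _ hw j => ?_,
    id, fun m k hmk j => ?_⟩
  · refine hS.of_nonneg_of_le (fun j => by positivity) fun j => ?_
    rw [abs_of_nonneg (Real.rpow_nonneg (R0 m j) _), ← Real.rpow_mul (R0 m j),
      one_div_mul_cancel p0.ne', Real.rpow_one]
    simpa [R] using Ranti j (Nat.zero_le m)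
  · have ht : Tendsto (fun m => R m j ^ (1 / p)) atTop (𝓝 0) := by
      have := (tendsto_sum_nat_add fun k => E (k, j)).rpow_const (p := 1 / p)
        (Or.inr (by positivity))
      rwa [Real.zero_rpow (by positivity)] at this
    exact ge_of_tendsto' ht fun m => hw m j
  · obtain ⟨i, rfl⟩ := Nat.exists_eq_add_of_le' (show m ≤ k from hmk)
    have : E (i + m, j) ≤ R m j := (hjm j m).le_tsum i fun k _ => E0 _
    have h2 := Real.rpow_le_rpow (E0 _) this (by positivity : 0 ≤ 1 / p)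
    simp only [E] at h2
    rw [← Real.rpow_mul (abs_nonneg _), mul_one_div_cancel p0.ne', Real.rpow_one] at h2
    simpa using h2

lemma xx_not (hp : 1 < p) (e : ℕ → ℝ) (he : InLp p e) : ¬ OrdConv p (xx p) e := by
  rintro ⟨z, hz, z0, -, -, N, hN⟩
  have p0 : 0 < p := by linarith
  let y : ℕ → ℝ := fun j => (2 : ℝ) ^ p * (|z 0 j| ^ p + |e j| ^ p)
  have hy : Summable y := ((hz 0).add he).mul_left _
  have hxy : ∀ n, N 0 ≤ n → ∀ j, |xx p n j| ^ p ≤ y j := by
    intro n hn j
    have a : |xx p n j - e j| ≤ z 0 j := hN 0 n hn j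
    have b : |xx p n j| ≤ 2 * max |z 0 j| |e j| := by
      have := abs_add_le (xx p n j - e j) (e j)
      rw [sub_add_cancel] at this
      linarith [le_max_left |z 0 j| |e j|, le_max_right |z 0 j| |e j|, le_abs_self (z 0 j)]
    refine (Real.rpow_le_rpow (abs_nonneg _) b p0.le).trans ?_
    rw [Real.mul_rpow (by norm_num) (by positivity)]
    refine mul_le_mul_of_nonneg_left ?_ (by positivity)
    rcases max_cases |z 0 j| |e j| with ⟨h, -⟩ | ⟨h, -⟩ <;> rw [h]
    · exact le_add_of_nonneg_right (by positivity)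
    · exact le_add_of_nonneg_left (by positivity)
  have y0 : ∀ j, 0 ≤ y j := fun j => by simp only [y]; positivity
  have hy2 : Summable fun q : ℕ × ℕ => y (Nat.pairEquiv q) :=
    (Nat.pairEquiv.summable_iff (f := y)).2 hy
  have hrow : ∀ i, N 0 ≤ i → (1 / 4 : ℝ) ^ p * (1 / (i + 3) - (1 / 2) ^ i) ≤
      ∑' a, y (Nat.pairEquiv (i, a)) := by
    intro i hi
    set M := 2 ^ (i + 2) with hM
    have hM2 : (M : ℝ) = 4 * 2 ^ i := by rw [hM]; push_cast; ring
    have hiM : N 0 ≤ M := by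
      have : i + 2 < 2 ^ (i + 2) := Nat.lt_pow_self (by norm_num)
      omega
    have t0 : (0 : ℝ) < 2 ^ i := by positivity
    have t1 : (1 : ℝ) ≤ 2 ^ i := one_le_pow₀ (by norm_num)
    have hu : 1 / ((i : ℝ) + 3) ≤ uu M := by
      refine one_div_le_one_div_of_le (by linarith [log_ge M]) ?_
      have a : Real.log (M + 3) ≤ Real.log (2 ^ (i + 3)) :=
        Real.log_le_log (by positivity) (by rw [hM2, pow_add]; linarith)
      rw [Real.log_pow] at a
      have b : Real.log 2 ≤ 1 := by linarith [Real.log_two_lt_d9]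
      push_cast at a
      nlinarith [Nat.cast_nonneg (α := ℝ) i]
    have hterm : ∀ a ∈ Finset.range ⌊2 ^ i * uu M⌋₊,
        (1 / 2 : ℝ) ^ i * (1 / 4) ^ p ≤ y (Nat.pairEquiv (i, a)) := by
      intro a ha
      have a1 : ((a + 1 : ℕ) : ℝ) ≤ 2 ^ i * uu M :=
        (Nat.le_floor_iff (by have := uu_pos M; positivity)).1 (Finset.mem_range.1 ha)
      push_cast at a1
      obtain ⟨n, n1, n2, n3⟩ := uu_hit M ((a + 1 / 4) / 2 ^ i) (by positivity)
        (by rw [div_le_iff₀ t0]; linarith)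
      refine le_trans ?_ (hxy n (hiM.trans n1) _)
      rw [xx, Equiv.symm_apply_apply, Phi, wt_pow hp]
      refine mul_le_mul_of_nonneg_left (Real.rpow_le_rpow (by norm_num) ?_ p0.le) (by positivity)
      rw [div_le_iff₀ t0] at n2
      have n4 : 1 / ((M : ℝ) + 3) ≤ 1 / 4 / 2 ^ i := by
        rw [div_div]; exact one_div_le_one_div_of_le (by positivity) (by linarith)
      have n5 : uu n ≤ (a + 1 / 2) / 2 ^ i := by
        have : ((a : ℝ) + 1 / 2) / 2 ^ i = (a + 1 / 4) / 2 ^ i + 1 / 4 / 2 ^ i := by ring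
        linarith
      rw [le_div_iff₀ t0] at n5
      refine le_trans ?_ (le_abs_self _)
      exact le_max_of_le_right (le_min (by linarith) (by linarith))
    refine le_trans ?_ ((hy2.prod_factor i).sum_le_tsum (Finset.range ⌊2 ^ i * uu M⌋₊)
      fun a _ => y0 _)
    refine le_trans ?_ (Finset.card_nsmul_le_sum _ _ _ hterm)
    rw [Finset.card_range, nsmul_eq_mul]
    have f1 := Nat.lt_floor_add_one (2 ^ i * uu M)
    have f2 : (2 : ℝ) ^ i * (1 / 2) ^ i = 1 := by rw [← mul_pow]; norm_num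
    have f3 : 1 / ((i : ℝ) + 3) - (1 / 2) ^ i ≤ ⌊2 ^ i * uu M⌋₊ * (1 / 2) ^ i := by
      have g : (0 : ℝ) < (1 / 2) ^ i := by positivity
      have := mul_le_mul_of_nonneg_right f1.le g.le
      nlinarith
    have q0 : (0 : ℝ) < (1 / 4) ^ p := by positivity
    nlinarith
  have hs : Summable fun i => ∑' a, y (Nat.pairEquiv (i, a)) := hy2.prod
  have q0 : (0 : ℝ) < (1 / 4) ^ p := by positivity
  have h3 : Summable fun i : ℕ => (1 : ℝ) / ((i + N 0 : ℕ) + 3) := by
    have a := ((summable_nat_add_iff (N 0)).2 ((hs.mul_left ((1 / 4 : ℝ) ^ p)⁻¹).add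
      summable_geometric_two))
    refine a.of_nonneg_of_le (fun i => by positivity) fun i => ?_
    have := hrow (i + N 0) (by omega)
    rw [← le_div_iff₀' q0, div_eq_inv_mul (∑' a, _)] at this
    linarith
  refine Real.not_summable_one_div_natCast ((summable_nat_add_iff (N 0 + 3)).1 ?_)
  refine h3.congr fun i => ?_
  push_cast; ring

end Pool.Agent.H27.Buo
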