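import Mathlib

set_option autoImplicit false

namespace Pool.Agent.H27.CWPend

open SimpleGraph

def Good {V : Type} (G : SimpleGraph V) : Prop :=
  ∀ T : Finset V, T.Nonempty → ∃ v ∈ T, (∀ a ∈ T, ∀ b ∈ T, G.Adj v a → G.Adj v b → a = b) ∨
    (∀ a ∈ T, a ≠ v → G.Adj v a)

theorem Good.of_emb {V W : Type} {G : SimpleGraph V} {H : SimpleGraph W} (f : H ↪g G)
    (h : Good G) : Good H := by
  classical
  intro T hT
  obtain ⟨v, hv, h'⟩ := h (T.image f) (hT.image _)
  obtain ⟨u, hu, rfl⟩ := Finset.mem_image.1 hv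
  refine ⟨u, hu, h'.imp (fun h1 a ha b hb e1 e2 => f.injective ?_) fun h1 a ha e => ?_⟩
  · exact h1 _ (Finset.mem_image_of_mem _ ha) _ (Finset.mem_image_of_mem _ hb)
      (f.map_adj_iff.2 e1) (f.map_adj_iff.2 e2)
  · exact f.map_adj_iff.1 (h1 _ (Finset.mem_image_of_mem _ ha) fun e' => e (f.injective e'))

theorem not_good {n : ℕ} (G : SimpleGraph (Fin n)) (hG : Good G) (h3 : 3 ≤ n) (hc : G.Connected)
    (h2 : ∀ v : Fin n, (G.induce {w | w ≠ v}).Connected)
    (hp : ∀ M : Set (Fin n), (∀ x, x ∉ M → ∀ y ∈ M, ∀ z ∈ M, (G.Adj x y ↔ G.Adj x z)) →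
      M.Subsingleton ∨ M = Set.univ) : False := by
  have h3' : ∀ a b : Fin n, ∃ c, c ≠ a ∧ c ≠ b := by
    intro a b
    by_contra h
    push Not at h
    have : (Finset.univ : Finset (Fin n)) ⊆ {a, b} := fun c _ => by
      by_cases e : c = a
      · simp [e]
      · simp [h c e]
    have := (Finset.card_le_card this).trans Finset.card_le_two
    simp at this
    omega
  obtain ⟨v, -, h | h⟩ := hG Finset.univ ⟨⟨0, by omega⟩, Finset.mem_univ _⟩
  · obtain ⟨c, hc1, -⟩ := h3' v v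
    obtain ⟨a, ha⟩ : ∃ a, G.Adj v a := by
      obtain ⟨p⟩ := hc v c
      cases p with
      | nil => exact absurd rfl hc1
      | cons h _ => exact ⟨_, h⟩
    obtain ⟨d, hd1, hd2⟩ := h3' v a
    obtain ⟨p⟩ := h2 a ⟨v, ha.ne⟩ ⟨d, hd2⟩
    cases p with
    | nil => exact hd1 rfl
    | cons h' _ =>
      rename_i b _
      exact b.2 (h _ (Finset.mem_univ _) _ (Finset.mem_univ _) h' ha)
  · rcases hp {w | w ≠ v} (fun x hx y hy z hz => by
      have : x = v := by simpa using hx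
      subst this
      exact ⟨fun _ => h z (Finset.mem_univ _) hz, fun _ => h y (Finset.mem_univ _) hy⟩) with e | e
    · obtain ⟨c, hc1, -⟩ := h3' v v
      obtain ⟨d, hd1, hd2⟩ := h3' v c
      exact hd2 (e hd1 hc1)
    · have : v ∈ {w | w ≠ v} := e ▸ Set.mem_univ v
      exact this rfl

theorem balanced {k : ℕ} (G : SimpleGraph ℕ) (W S0 : Finset ℕ) (hW : 3 ≤ W.card) (hWS : W ⊆ S0)
    (hGS : ∀ u w, G.Adj u w → u ∈ S0) (ℓ : ℕ → Fin k)
    (h : ∀ P : Finset ℕ → SimpleGraph ℕ → (ℕ → Fin k) → Prop,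
            ((∀ ℓ₀ : ℕ → Fin k, P ∅ ⊥ ℓ₀) ∧
             (∀ (i : ℕ) (ℓ₀ : ℕ → Fin k), P {i} ⊥ ℓ₀) ∧
             (∀ (S₁ S₂ : Finset ℕ) (H₁ H₂ : SimpleGraph ℕ) (ℓ₁ ℓ₂ : ℕ → Fin k),
                P S₁ H₁ ℓ₁ → P S₂ H₂ ℓ₂ → Disjoint S₁ S₂ →
                P (S₁ ∪ S₂) (H₁ ⊔ H₂) (fun v => if v ∈ S₁ then ℓ₁ v else ℓ₂ v)) ∧
             (∀ (S : Finset ℕ) (H : SimpleGraph ℕ) (ℓ₀ : ℕ → Fin k) (a b : Fin k),
                a ≠ b → P S H ℓ₀ →
                P S (H ⊔ SimpleGraph.fromRel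
                  (fun u v => u ∈ S ∧ v ∈ S ∧ ℓ₀ u = a ∧ ℓ₀ v = b)) ℓ₀) ∧
             (∀ (S : Finset ℕ) (H : SimpleGraph ℕ) (ℓ₀ : ℕ → Fin k) (a b : Fin k),
                P S H ℓ₀ → P S H (fun v => if ℓ₀ v = a then b else ℓ₀ v))) →
            P S0 G ℓ) :
    ∃ A : Finset ℕ, W.card < 3 * (A ∩ W).card ∧ 3 * (A ∩ W).card ≤ 2 * W.card ∧
      ∃ c : ℕ → Fin k, ∀ u ∈ A, ∀ v ∈ A, c u = c v → ∀ w, w ∉ A → G.Adj u w → G.Adj v w := by
  have key := h (fun S H l => (∀ u w, H.Adj u w → u ∈ S) ∧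
    (H ≤ G → (∀ u ∈ S, ∀ v ∈ S, ∀ w, l u = l v → G.Adj u w → ¬ H.Adj u w → G.Adj v w) →
      W.card < 3 * (S ∩ W).card →
      ∃ A : Finset ℕ, W.card < 3 * (A ∩ W).card ∧ 3 * (A ∩ W).card ≤ 2 * W.card ∧
      ∃ c : ℕ → Fin k, ∀ u ∈ A, ∀ v ∈ A, c u = c v → ∀ w, w ∉ A → G.Adj u w → G.Adj v w)) ?_
  · refine key.2 le_rfl (fun u _ v _ w _ h1 h2 => absurd h1 h2) ?_
    rw [Finset.inter_eq_right.2 hWS]; omega
  refine ⟨fun l => ⟨fun u w h => h.elim, fun _ _ h => by simp at h⟩,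
    fun i l => ⟨fun u w h => h.elim, fun _ _ h => ?_⟩, ?_, ?_, ?_⟩
  · have := Finset.card_le_card (Finset.inter_subset_left (s₁ := {i}) (s₂ := W))
    simp only [Finset.card_singleton] at this
    omega
  · rintro S₁ S₂ H₁ H₂ l₁ l₂ ⟨a1, a2⟩ ⟨b1, b2⟩ hd
    have hd' := Finset.disjoint_left.1 hd
    refine ⟨fun u w h => ?_, fun hle hc hw => ?_⟩
    · rcases h with h | h
      · exact Finset.mem_union_left _ (a1 u w h)
      · exact Finset.mem_union_right _ (b1 u w h)
    by_cases e1 : W.card < 3 * (S₁ ∩ W).card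
    · refine a2 (le_sup_left.trans hle) (fun u hu v hv w e h1 h2 => ?_) e1
      refine hc u (Finset.mem_union_left _ hu) v (Finset.mem_union_left _ hv) w
        (by simp only [if_pos hu, if_pos hv, e]) h1 ?_
      rintro (h | h)
      · exact h2 h
      · exact hd' hu (b1 u w h)
    by_cases e2 : W.card < 3 * (S₂ ∩ W).card
    · refine b2 (le_sup_right.trans hle) (fun u hu v hv w e h1 h2 => ?_) e2
      have hu' : u ∉ S₁ := fun h => hd' h hu
      have hv' : v ∉ S₁ := fun h => hd' h hv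
      refine hc u (Finset.mem_union_right _ hu) v (Finset.mem_union_right _ hv) w
        (by simp only [if_neg hu', if_neg hv', e]) h1 ?_
      rintro (h | h)
      · exact hu' (a1 u w h)
      · exact h2 h
    refine ⟨S₁ ∪ S₂, hw, ?_, _, fun u hu v hv e w hw h1 => hc u hu v hv w e h1 ?_⟩
    · have := Finset.card_union_le (S₁ ∩ W) (S₂ ∩ W)
      rw [Finset.union_inter_distrib_right]
      omega
    · rintro (h | h)
      · exact hw (Finset.mem_union_left _ (a1 w u h.symm))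
      · exact hw (Finset.mem_union_right _ (b1 w u h.symm))
  · rintro S H l a b hab ⟨a1, a2⟩
    refine ⟨fun u w h => ?_, fun hle hc hw => ?_⟩
    · rcases h with h | h
      · exact a1 u w h
      · rw [fromRel_adj] at h
        rcases h.2 with h | h
        · exact h.1
        · exact h.2.1
    refine a2 (le_sup_left.trans hle) (fun u hu v hv w e h1 h2 => ?_) hw
    by_cases hJ : (SimpleGraph.fromRel (fun u v => u ∈ S ∧ v ∈ S ∧ l u = a ∧ l v = b)).Adj u w
    · apply hle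
      right
      rw [fromRel_adj] at hJ ⊢
      rcases hJ.2 with h | h
      · refine ⟨?_, Or.inl ⟨hv, h.2.1, e ▸ h.2.2.1, h.2.2.2⟩⟩
        rintro rfl
        exact hab (h.2.2.1.symm.trans (e.trans h.2.2.2))
      · refine ⟨?_, Or.inr ⟨h.1, hv, h.2.2.1, e ▸ h.2.2.2⟩⟩
        rintro rfl
        exact hab (h.2.2.1.symm.trans (e.symm.trans h.2.2.2))
    · refine hc u hu v hv w e h1 ?_
      rintro (h | h)
      · exact h2 h
      · exact hJ h
  · rintro S H l a b ⟨a1, a2⟩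
    refine ⟨a1, fun hle hc hw => a2 hle (fun u hu v hv w e h1 h2 => hc u hu v hv w ?_ h1 h2) hw⟩
    simp only [e]

abbrev VV (n : ℕ) : Type := (Fin n × Fin n) ⊕ Fin n

def rel {n : ℕ} : VV n → VV n → Prop
  | .inl p, .inl q => p.2 = q.2 ∧ (p.1.val + 1 = q.1.val ∨ q.1.val + 1 = p.1.val)
  | .inl p, .inr t => p.1 ≤ t
  | .inr t, .inl p => p.1 ≤ t
  | .inr s, .inr t => s ≠ t

def G0 (n : ℕ) : SimpleGraph (VV n) where
  Adj := rel
  symm := ⟨by
    rintro (p | s) (q | t) h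
    · exact ⟨h.1.symm, h.2.symm⟩
    · exact h
    · exact h
    · exact Ne.symm h⟩
  loopless := ⟨by
    rintro (p | s) h
    · have := h.2; omega
    · exact h rfl⟩

def time {n : ℕ} : VV n → ℕ
  | .inl p => 2 * p.1.val
  | .inr t => 2 * t.val + 1

theorem good_G0 (n : ℕ) : Good (G0 n) := by
  intro T hT
  obtain ⟨v, hv, hm⟩ := T.exists_max_image time hT
  refine ⟨v, hv, ?_⟩
  rcases v with p | t
  · left
    have key : ∀ a ∈ T, (G0 n).Adj (.inl p) a → ∃ q, a = .inl q ∧ q.2 = p.2 ∧ q.1.val + 1 = p.1.val := by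
      rintro (q | s) ha h
      · have := hm _ ha
        simp only [time] at this
        exact ⟨q, rfl, h.1.symm, by have := h.2; omega⟩
      · have := hm _ ha
        have h' : p.1.val ≤ s.val := h
        simp only [time] at this
        omega
    intro a ha b hb h1 h2
    obtain ⟨q, rfl, e1, e2⟩ := key a ha h1
    obtain ⟨r, rfl, e3, e4⟩ := key b hb h2
    congr 1
    exact Prod.ext (Fin.ext (by omega)) (e1.trans e3.symm)
  · right
    rintro (q | s) ha h
    · have := hm _ ha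
      simp only [time] at this
      show q.1.val ≤ t.val
      omega
    · exact fun e => h (by rw [e])

theorem no_cut {k n : ℕ} (hn : n = 3 * k + 2 + 1) (A : Set (VV n)) (c : VV n → Fin k)
    (z : Fin n) (hz : z.val = 0)
    (hc : ∀ u ∈ A, ∀ v ∈ A, c u = c v → ∀ w, w ∉ A → (G0 n).Adj u w → (G0 n).Adj v w)
    (I : Finset (Fin n)) (hI : ∀ j, j ∈ I ↔ Sum.inl (z, j) ∈ A)
    (h1 : n < 3 * I.card) (h2 : 3 * I.card ≤ 2 * n) : False := by
  classical
  have inj : ∀ (J : Finset (Fin n)) (f : Fin n → Fin k), Set.InjOn f J → J.card ≤ k := by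
    intro J f hf
    simpa using Finset.card_le_card_of_injOn (t := Finset.univ) f (fun _ _ => Finset.mem_univ _) hf
  let SC : Finset (Fin n) := Finset.univ.filter fun j => ∃ p : Fin n × Fin n,
    Sum.inl (p.1, j) ∈ A ∧ Sum.inl (p.2, j) ∉ A ∧ (G0 n).Adj (.inl (p.1, j)) (.inl (p.2, j))
  have hSC : SC.card ≤ k := by
    have : ∀ j : Fin n, ∃ p : Fin n × Fin n, j ∈ SC → Sum.inl (p.1, j) ∈ A ∧ Sum.inl (p.2, j) ∉ A ∧
        (G0 n).Adj (.inl (p.1, j)) (.inl (p.2, j)) := by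
      intro j
      by_cases h : j ∈ SC
      · obtain ⟨p, hp⟩ := (Finset.mem_filter.1 h).2
        exact ⟨p, fun _ => hp⟩
      · exact ⟨(z, z), fun h' => absurd h' h⟩
    choose p hp using this
    refine inj SC (fun j => c (.inl ((p j).1, j))) fun j hj j' hj' e => ?_
    have := hc _ (hp j hj).1 _ (hp j' hj').1 e _ (hp j hj).2.1 (hp j hj).2.2
    exact this.1.symm
  have col : ∀ j, j ∉ SC → ∀ t : Fin n, (Sum.inl (t, j) ∈ A ↔ Sum.inl (z, j) ∈ A) := by
    intro j hj
    have hj' : ∀ s t : Fin n, (G0 n).Adj (.inl (s, j)) (.inl (t, j)) → Sum.inl (s, j) ∈ A →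
        Sum.inl (t, j) ∈ A := by
      intro s t h ha
      by_contra hb
      exact hj (Finset.mem_filter.2 ⟨Finset.mem_univ _, (s, t), ha, hb, h⟩)
    have : ∀ m (t : Fin n), t.val = m → (Sum.inl (t, j) ∈ A ↔ Sum.inl (z, j) ∈ A) := by
      intro m
      induction m with
      | zero => intro t ht; rw [show t = z from Fin.ext (by omega)]
      | succ m ih =>
        intro t ht
        rw [← ih ⟨m, by omega⟩ rfl]
        exact ⟨hj' _ _ ⟨rfl, Or.inr ht.symm⟩, hj' _ _ ⟨rfl, Or.inl ht.symm⟩⟩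
    exact fun t => this _ t rfl
  obtain ⟨j, hj1, hj2⟩ := Finset.exists_mem_notMem_of_card_lt_card (s := SC) (t := I) (by omega)
  obtain ⟨j', hj3, hj4⟩ := Finset.exists_mem_notMem_of_card_lt_card (s := SC) (t := Iᶜ) (by
    rw [Finset.card_compl, Fintype.card_fin]; omega)
  have full : ∀ t, Sum.inl (t, j) ∈ A := fun t => (col j hj2 t).2 ((hI j).1 hj1)
  have emp : ∀ t, Sum.inl (t, j') ∉ A := fun t h =>
    Finset.mem_compl.1 hj3 ((hI j').2 ((col j' hj4 t).1 h))
  have d1 : (Finset.univ.filter fun t : Fin n => Sum.inr t ∈ A).card ≤ k := by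
    refine inj _ (fun t => c (.inr t)) fun s hs t ht e => ?_
    have hs' := (Finset.mem_filter.1 hs).2
    have ht' := (Finset.mem_filter.1 ht).2
    exact le_antisymm (hc _ hs' _ ht' e _ (emp s) (le_refl s)) (hc _ ht' _ hs' e.symm _ (emp t) (le_refl t))
  have d2 : (Finset.univ.filter fun t : Fin n => ¬ Sum.inr t ∈ A).card ≤ k := by
    refine inj _ (fun t => c (.inl (t, j))) fun s hs t ht e => ?_
    have hs' := (Finset.mem_filter.1 hs).2
    have ht' := (Finset.mem_filter.1 ht).2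
    exact le_antisymm (hc _ (full t) _ (full s) e.symm _ ht' (le_refl t))
      (hc _ (full s) _ (full t) e _ hs' (le_refl s))
  have := Finset.card_filter_add_card_filter_not (s := Finset.univ) fun t : Fin n => Sum.inr t ∈ A
  simp only [Finset.card_univ, Fintype.card_fin] at this
  omega

theorem final (k : ℕ) : ∃ (N : ℕ) (G : SimpleGraph (Fin N)), Good G ∧ ∃ W : Finset ℕ,
    3 ≤ W.card ∧ W ⊆ Finset.range N ∧ ∀ A : Finset ℕ, W.card < 3 * (A ∩ W).card →
      3 * (A ∩ W).card ≤ 2 * W.card → ∀ c : ℕ → Fin k, ¬ ∀ u ∈ A, ∀ v ∈ A, c u = c v → ∀ w, w ∉ A →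
        (G.map Fin.valEmbedding).Adj u w → (G.map Fin.valEmbedding).Adj v w := by
  classical
  set n := 3 * k + 2 + 1 with hn
  let e := (Fintype.equivFin (VV n)).symm
  let f : VV n → ℕ := fun v => (e.symm v).val
  have hf : Function.Injective f := Fin.val_injective.comp e.symm.injective
  let z : Fin n := ⟨0, by omega⟩
  let g : Fin n → ℕ := fun j => f (.inl (z, j))
  have hg : Function.Injective g := fun a b h => by simpa using hf h
  have hW : (Finset.univ.image g).card = n := by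
    rw [Finset.card_image_of_injective _ hg]; simp
  have hadj : ∀ u v, (((G0 n).comap e).map Fin.valEmbedding).Adj (f u) (f v) ↔ (G0 n).Adj u v := by
    intro u v
    have := SimpleGraph.map_adj_apply (G := (G0 n).comap e) (f := Fin.valEmbedding)
      (a := e.symm u) (b := e.symm v)
    simp only [comap_adj, Equiv.apply_symm_apply] at this
    exact this
  refine ⟨_, (G0 n).comap e, (good_G0 n).of_emb (Embedding.comap e.toEmbedding _),
    Finset.univ.image g, by omega, fun x hx => ?_, fun A h1 h2 c hc => ?_⟩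
  · obtain ⟨j, -, rfl⟩ := Finset.mem_image.1 hx
    exact Finset.mem_range.2 (e.symm _).2
  · have hI : (A ∩ Finset.univ.image g).card = (Finset.univ.filter fun j => g j ∈ A).card := by
      rw [← Finset.card_image_of_injective (Finset.univ.filter fun j => g j ∈ A) hg]
      congr 1
      ext x
      simp only [Finset.mem_inter, Finset.mem_image, Finset.mem_univ, true_and, Finset.mem_filter]
      constructor
      · rintro ⟨h, j, rfl⟩; exact ⟨j, h, rfl⟩
      · rintro ⟨j, h, rfl⟩; exact ⟨h, j, rfl⟩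
    rw [hI, hW] at h1 h2
    refine no_cut hn {v | f v ∈ A} (fun v => c (f v)) z rfl ?_ _ (fun j => ?_) h1 h2
    · intro u hu v hv h w hw h'
      exact (hadj _ _).1 (hc _ hu _ hv h _ hw ((hadj _ _).2 h'))
    · simp [g]

end Pool.Agent.H27.CWPend
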