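import Mathlib

set_option autoImplicit false

namespace Pool.Agent.H27.ClassTr

open Equiv

/-- class transpositions -/
def Gen : Set (Perm ℤ) :=
  {σ : Equiv.Perm ℤ | ∃ r₁ m₁ r₂ m₂ : ℤ,
          0 ≤ r₁ ∧ r₁ < m₁ ∧ 0 ≤ r₂ ∧ r₂ < m₂ ∧
          (∀ n : ℤ, ¬ (Int.ModEq m₁ n r₁ ∧ Int.ModEq m₂ n r₂)) ∧
          (∀ k : ℤ, σ (r₁ + m₁ * k) = r₂ + m₂ * k ∧ σ (r₂ + m₂ * k) = r₁ + m₁ * k) ∧
          ∀ n : ℤ, ¬ Int.ModEq m₁ n r₁ → ¬ Int.ModEq m₂ n r₂ → σ n = n}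

def H : Subgroup (Perm ℤ) := Subgroup.closure Gen

lemma modEq_iff (m n r : ℤ) : Int.ModEq m n r ↔ ∃ k, n = r + m * k := by
  constructor
  · intro h
    obtain ⟨k, hk⟩ := h.symm.dvd
    exact ⟨k, by linarith⟩
  · rintro ⟨k, rfl⟩
    simp [Int.ModEq]

lemma uniq {m r r' k k' : ℤ} (h0 : 0 ≤ r) (h1 : r < m) (h0' : 0 ≤ r') (h1' : r' < m)
    (h : r + m * k = r' + m * k') : r = r' ∧ k = k' := by
  have hk : k = k' := by
    by_contra hne
    rcases lt_or_gt_of_ne hne with hlt | hlt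
    · have : m * (k + 1) ≤ m * k' := mul_le_mul_of_nonneg_left (by omega) (by omega)
      nlinarith
    · have : m * (k' + 1) ≤ m * k := mul_le_mul_of_nonneg_left (by omega) (by omega)
      nlinarith
  subst hk
  exact ⟨by linarith, rfl⟩

lemma rep {m : ℤ} (hm : 0 < m) (n : ℤ) : ∃ r k, 0 ≤ r ∧ r < m ∧ n = r + m * k :=
  ⟨n % m, n / m, Int.emod_nonneg _ hm.ne', Int.emod_lt_of_pos _ hm, by
    have := Int.emod_add_mul_ediv n m
    linarith⟩

lemma exists_ct {r₁ m₁ r₂ m₂ : ℤ} (a0 : 0 ≤ r₁) (a1 : r₁ < m₁) (b0 : 0 ≤ r₂) (b1 : r₂ < m₂)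
    (hd : ∀ k l, r₁ + m₁ * k ≠ r₂ + m₂ * l) :
    ∃ τ ∈ H, (∀ k : ℤ, τ (r₁ + m₁ * k) = r₂ + m₂ * k ∧ τ (r₂ + m₂ * k) = r₁ + m₁ * k) ∧
      ∀ n : ℤ, (∀ k, n ≠ r₁ + m₁ * k) → (∀ k, n ≠ r₂ + m₂ * k) → τ n = n := by
  classical
  have hm1 : m₁ ≠ 0 := by omega
  have hm2 : m₂ ≠ 0 := by omega
  let f : ℤ → ℤ := fun n =>
    if ∃ k, n = r₁ + m₁ * k then r₂ + m₂ * ((n - r₁) / m₁)
    else if ∃ k, n = r₂ + m₂ * k then r₁ + m₁ * ((n - r₂) / m₂) else n
  have f1 : ∀ k, f (r₁ + m₁ * k) = r₂ + m₂ * k := by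
    intro k
    have : ∃ k', r₁ + m₁ * k = r₁ + m₁ * k' := ⟨k, rfl⟩
    simp only [f, if_pos this, add_sub_cancel_left, Int.mul_ediv_cancel_left _ hm1]
  have f2 : ∀ k, f (r₂ + m₂ * k) = r₁ + m₁ * k := by
    intro k
    have h1 : ¬ ∃ k', r₂ + m₂ * k = r₁ + m₁ * k' := by
      rintro ⟨k', h⟩
      exact hd _ _ h.symm
    have : ∃ k', r₂ + m₂ * k = r₂ + m₂ * k' := ⟨k, rfl⟩
    simp only [f, if_neg h1, if_pos this, add_sub_cancel_left, Int.mul_ediv_cancel_left _ hm2]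
  have f3 : ∀ n, (∀ k, n ≠ r₁ + m₁ * k) → (∀ k, n ≠ r₂ + m₂ * k) → f n = n := by
    intro n h1 h2
    have h1' : ¬ ∃ k, n = r₁ + m₁ * k := by rintro ⟨k, h⟩; exact h1 k h
    have h2' : ¬ ∃ k, n = r₂ + m₂ * k := by rintro ⟨k, h⟩; exact h2 k h
    simp only [f, if_neg h1', if_neg h2']
  have hinv : Function.Involutive f := by
    intro n
    by_cases h1 : ∃ k, n = r₁ + m₁ * k
    · obtain ⟨k, rfl⟩ := h1
      rw [f1, f2]
    · by_cases h2 : ∃ k, n = r₂ + m₂ * k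
      · obtain ⟨k, rfl⟩ := h2
        rw [f2, f1]
      · push Not at h1 h2
        rw [f3 n h1 h2, f3 n h1 h2]
  refine ⟨hinv.toPerm f, Subgroup.subset_closure ⟨r₁, m₁, r₂, m₂, a0, a1, b0, b1, ?_, ?_, ?_⟩,
    fun k => ⟨f1 k, f2 k⟩, f3⟩
  · rintro n ⟨h1, h2⟩
    obtain ⟨k, hk⟩ := (modEq_iff _ _ _).1 h1
    obtain ⟨l, hl⟩ := (modEq_iff _ _ _).1 h2
    exact hd k l (hk.symm.trans hl)
  · exact fun k => ⟨f1 k, f2 k⟩
  · intro n h1 h2
    rw [modEq_iff] at h1 h2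
    push Not at h1 h2
    exact f3 n h1 h2

/-- permuting a finite family of disjoint classes -/
lemma family {ι : Type} [Finite ι] [DecidableEq ι] (r m : ι → ℤ) (h0 : ∀ i, 0 ≤ r i)
    (h1 : ∀ i, r i < m i) (hd : ∀ i j k l, r i + m i * k = r j + m j * l → i = j)
    (π : Perm ι) : ∀ σ : Perm ℤ, (∀ i k, σ (r i + m i * k) = r (π i) + m (π i) * k) →
      (∀ n, (∀ i k, n ≠ r i + m i * k) → σ n = n) → σ ∈ H := by
  induction π using Equiv.Perm.swap_induction_on with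
  | one =>
    intro σ ha hb
    have : σ = 1 := by
      ext n
      by_cases h : ∃ i k, n = r i + m i * k
      · obtain ⟨i, k, rfl⟩ := h
        simpa using ha i k
      · push Not at h
        simpa using hb n h
    rw [this]; exact H.one_mem
  | swap_mul f a b hab ih =>
    intro σ ha hb
    obtain ⟨τ, hτ, t1, t2⟩ := exists_ct (h0 a) (h1 a) (h0 b) (h1 b)
      (fun k l h => hab (hd _ _ _ _ h))
    have t3 : ∀ x k, τ (r (swap a b x) + m (swap a b x) * k) = r x + m x * k := by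
      intro x k
      by_cases hxa : x = a
      · subst hxa; rw [swap_apply_left]; exact (t1 k).2
      · by_cases hxb : x = b
        · subst hxb; rw [swap_apply_right]; exact (t1 k).1
        · rw [swap_apply_of_ne_of_ne hxa hxb]
          exact t2 _ (fun l h => hxa (hd _ _ _ _ h)) (fun l h => hxb (hd _ _ _ _ h))
    have : τ * σ ∈ H := by
      apply ih
      · intro i k
        rw [Perm.mul_apply, ha, Perm.mul_apply, t3]
      · intro n hn
        rw [Perm.mul_apply, hb n hn, t2 n (hn a) (hn b)]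
    have h2 := H.mul_mem (H.inv_mem hτ) this
    simpa using h2

def Sgn (g : Perm ℤ) : Prop := ∀ n : ℤ, 0 ≤ g n ↔ 0 ≤ n

lemma Sgn.mul {g h : Perm ℤ} (a : Sgn g) (b : Sgn h) : Sgn (g * h) := fun n => by
  rw [Perm.mul_apply, a, b]

lemma Sgn.inv {g : Perm ℤ} (a : Sgn g) : Sgn g⁻¹ := fun n => by
  have := a (g⁻¹ n)
  rw [← this]
  simp

lemma hor {σ : Perm ℤ} (hs : Sgn σ) {L : ℤ} (hL : 0 < L) (hp : ∀ n, σ (n + L) = σ n + L) :
    σ ∈ H := by
  classical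
  have hk : ∀ (k : ℤ) n, σ (n + L * k) = σ n + L * k := by
    intro k
    induction k using Int.induction_on with
    | zero => simp
    | succ i ih =>
      intro n
      rw [show n + L * ((i : ℤ) + 1) = (n + L * i) + L by ring, hp, ih]; ring
    | pred i ih =>
      intro n
      have := hp (n + L * (-(i : ℤ) - 1))
      rw [show n + L * (-(i : ℤ) - 1) + L = n + L * (-(i : ℤ)) by ring, ih] at this
      linarith
  let ι := {x : ℤ // x ∈ Finset.Ico 0 L}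
  haveI : Finite ι := (Finset.Ico 0 L).finite_toSet.to_subtype
  have hmem : ∀ x : ι, σ x.1 ∈ Finset.Ico 0 L := by
    intro x
    have hx := Finset.mem_Ico.1 x.2
    rw [Finset.mem_Ico]
    refine ⟨(hs _).2 hx.1, ?_⟩
    have h1 := hk (-1) x.1
    have h2 := hs (x.1 + L * (-1))
    rw [h1] at h2
    by_contra hc
    have := h2.1 (by linarith)
    linarith
  let f : ι → ι := fun x => ⟨σ x.1, hmem x⟩
  have hf : Function.Injective f := by
    intro x y h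
    have : σ x.1 = σ y.1 := congrArg Subtype.val h
    exact Subtype.ext (σ.injective this)
  refine family (ι := ι) (fun x => x.1) (fun _ => L) (fun x => (Finset.mem_Ico.1 x.2).1)
    (fun x => (Finset.mem_Ico.1 x.2).2) ?_
    (Equiv.ofBijective f (Finite.injective_iff_bijective.1 hf)) σ ?_ ?_
  · intro i j k l h
    exact Subtype.ext (uniq (Finset.mem_Ico.1 i.2).1 (Finset.mem_Ico.1 i.2).2
      (Finset.mem_Ico.1 j.2).1 (Finset.mem_Ico.1 j.2).2 h).1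
  · intro i k
    exact hk k i.1
  · intro n hn
    obtain ⟨r, k, a, b, c⟩ := rep hL n
    exact absurd c (hn ⟨r, Finset.mem_Ico.2 ⟨a, b⟩⟩ k)

/-- canonical with modulus m -/
def CanM (m : ℤ) (g : Perm ℤ) : Prop :=
  ∀ r, 0 ≤ r → r < m → ∃ s t, 0 ≤ s ∧ s < t ∧ ∀ k, g (r + m * k) = s + t * k

def Can (g : Perm ℤ) : Prop := ∃ m, 0 < m ∧ CanM m g

lemma bound {s t j p : ℤ} (s0 : 0 ≤ s) (s1 : s < t) (j0 : 0 ≤ j) (j1 : j < p) :
    0 ≤ s + t * j ∧ s + t * j < t * p := by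
  have : t * (j + 1) ≤ t * p := mul_le_mul_of_nonneg_left (by omega) (by omega)
  have : 0 ≤ t * j := mul_nonneg (by omega) j0
  constructor <;> nlinarith

lemma bound' {s t j p : ℤ} (s0 : 0 ≤ s) (s1 : s < t) (a : 0 ≤ s + t * j) (b : s + t * j < t * p) :
    0 ≤ j ∧ j < p := by
  constructor
  · by_contra h
    have : t * j ≤ t * (-1) := mul_le_mul_of_nonneg_left (by omega) (by omega)
    nlinarith
  · by_contra h
    have : t * p ≤ t * j := mul_le_mul_of_nonneg_left (by omega) (by omega)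
    nlinarith

lemma CanM.refine {m : ℤ} {g : Perm ℤ} (hm : 0 < m) (h : CanM m g) {p r : ℤ} (r0 : 0 ≤ r)
    (r1 : r < m * p) : ∃ s t, 0 ≤ s ∧ s < t * p ∧ ∀ k, g (r + m * p * k) = s + t * p * k := by
  obtain ⟨x, j, x0, x1, rfl⟩ := rep hm r
  obtain ⟨s, t, s0, s1, hs⟩ := h x x0 x1
  have hj := bound' x0 x1 r0 r1
  have hb := bound s0 s1 hj.1 hj.2
  refine ⟨s + t * j, t, hb.1, hb.2, fun k => ?_⟩
  rw [show x + m * j + m * p * k = x + m * (j + p * k) by ring, hs]; ring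

lemma Can.sgn {g : Perm ℤ} (h : Can g) : Sgn g := by
  obtain ⟨m, hm, h⟩ := h
  intro n
  obtain ⟨r, k, r0, r1, rfl⟩ := rep hm n
  obtain ⟨s, t, s0, s1, hs⟩ := h r r0 r1
  rw [hs]
  by_cases hk : 0 ≤ k
  · have : 0 ≤ t * k := mul_nonneg (by omega) hk
    have : 0 ≤ m * k := mul_nonneg (by omega) hk
    constructor <;> intro <;> omega
  · have : t * k ≤ t * (-1) := mul_le_mul_of_nonneg_left (by omega) (by omega)
    have : m * k ≤ m * (-1) := mul_le_mul_of_nonneg_left (by omega) (by omega)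
    constructor <;> intro <;> omega

lemma Can.mul {g h : Perm ℤ} (a : Can g) (b : Can h) : Can (g * h) := by
  obtain ⟨m, hm, a⟩ := a
  obtain ⟨m', hm', b⟩ := b
  refine ⟨m' * m, mul_pos hm' hm, fun r r0 r1 => ?_⟩
  obtain ⟨s, t, s0, s1, hs⟩ := b.refine hm' r0 r1
  obtain ⟨s', t', s0', s1', hs'⟩ := a.refine hm (p := t) s0 (by linarith)
  refine ⟨s', t' * t, s0', s1', fun k => ?_⟩
  rw [Perm.mul_apply, hs, mul_comm t m, hs']

lemma CanM.common {m : ℤ} {g : Perm ℤ} (h : CanM m g) : ∃ T, 0 < T ∧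
    ∀ r, 0 ≤ r → r < m → ∃ s t q, 0 ≤ s ∧ s < t ∧ T = t * q ∧ ∀ k, g (r + m * k) = s + t * k := by
  classical
  choose! s t hs using h
  refine ⟨∏ r ∈ Finset.Ico 0 m, t r, Finset.prod_pos fun r hr => ?_, fun r r0 r1 => ?_⟩
  · have := Finset.mem_Ico.1 hr
    have := hs r this.1 this.2
    omega
  · obtain ⟨q, hq⟩ := Finset.dvd_prod_of_mem t (Finset.mem_Ico.2 ⟨r0, r1⟩)
    exact ⟨s r, t r, q, (hs r r0 r1).1, (hs r r0 r1).2.1, hq, (hs r r0 r1).2.2⟩

lemma Can.inv {g : Perm ℤ} (a : Can g) : Can g⁻¹ := by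
  obtain ⟨m, hm, a⟩ := a
  obtain ⟨T, hT, h⟩ := a.common
  refine ⟨T, hT, fun x x0 x1 => ?_⟩
  obtain ⟨r, j, r0, r1, hx⟩ := rep hm (g⁻¹ x)
  obtain ⟨s, t, q, s0, s1, rfl, hs⟩ := h r r0 r1
  have hx' : x = s + t * j := by
    rw [← hs, ← hx]; simp
  have hj := bound' s0 s1 (hx' ▸ x0) (hx' ▸ x1)
  have hb := bound r0 r1 hj.1 hj.2
  refine ⟨r + m * j, m * q, hb.1, hb.2, fun k => ?_⟩
  rw [Perm.inv_eq_iff_eq, show r + m * j + m * q * k = r + m * (j + q * k) by ring, hs, hx']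
  ring

lemma can_one : Can 1 := ⟨1, one_pos, fun r r0 r1 => ⟨r, 1, r0, r1, fun k => rfl⟩⟩

lemma can_gen {σ : Perm ℤ} (h : σ ∈ Gen) : Can σ := by
  obtain ⟨r₁, m₁, r₂, m₂, a0, a1, b0, b1, -, h1, h2⟩ := h
  refine ⟨m₁ * m₂, mul_pos (by omega) (by omega), fun r r0 r1 => ?_⟩
  by_cases c1 : ∃ j, r = r₁ + m₁ * j
  · obtain ⟨j, rfl⟩ := c1
    have hj := bound' a0 a1 r0 r1
    have hb := bound b0 b1 hj.1 hj.2
    refine ⟨r₂ + m₂ * j, m₂ * m₂, hb.1, hb.2, fun k => ?_⟩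
    rw [show r₁ + m₁ * j + m₁ * m₂ * k = r₁ + m₁ * (j + m₂ * k) by ring, (h1 _).1]; ring
  · by_cases c2 : ∃ j, r = r₂ + m₂ * j
    · obtain ⟨j, rfl⟩ := c2
      have hj := bound' (p := m₁) b0 b1 r0 (by linarith)
      have hb := bound a0 a1 hj.1 hj.2
      refine ⟨r₁ + m₁ * j, m₁ * m₁, hb.1, hb.2, fun k => ?_⟩
      rw [show r₂ + m₂ * j + m₁ * m₂ * k = r₂ + m₂ * (j + m₁ * k) by ring, (h1 _).2]; ring
    · refine ⟨r, m₁ * m₂, r0, r1, fun k => h2 _ ?_ ?_⟩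
      · rw [modEq_iff]
        rintro ⟨l, hl⟩
        exact c1 ⟨l - m₂ * k, by linarith⟩
      · rw [modEq_iff]
        rintro ⟨l, hl⟩
        exact c2 ⟨l - m₁ * k, by linarith⟩

lemma can_of_mem {σ : Perm ℤ} (h : σ ∈ H) : Can σ := by
  induction h using Subgroup.closure_induction with
  | mem x hx => exact can_gen hx
  | one => exact can_one
  | mul x y _ _ a b => exact a.mul b
  | inv x _ a => exact a.inv

lemma conj_gen {g τ : Perm ℤ} (hg : Can g) (h : τ ∈ Gen) : g * τ * g⁻¹ ∈ H := by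
  classical
  obtain ⟨m, hm, hg⟩ := hg
  obtain ⟨r₁, m₁, r₂, m₂, a0, a1, b0, b1, hd, h1, h2⟩ := h
  let R : Bool → ℤ := fun b => if b then r₁ else r₂
  let M : Bool → ℤ := fun b => if b then m₁ else m₂
  have R0 : ∀ b, 0 ≤ R b := by intro b; cases b <;> simp [R, a0, b0]
  have R1 : ∀ b, R b < M b := by intro b; cases b <;> simp [R, M, a1, b1]
  have hτ : ∀ b k, τ (R b + M b * k) = R (!b) + M (!b) * k := by
    intro b k
    cases b
    · simpa [R, M] using (h1 k).2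
    · simpa [R, M] using (h1 k).1
  have hdis : ∀ b b' k l, R b + M b * k = R b' + M b' * l → b = b' := by
    intro b b' k l h
    cases b <;> cases b'
    · rfl
    · exfalso
      refine hd (R false + M false * k) ⟨(modEq_iff _ _ _).2 ⟨l, ?_⟩, (modEq_iff _ _ _).2 ⟨k, ?_⟩⟩
      · simpa [R, M] using h
      · simp [R, M]
    · exfalso
      refine hd (R true + M true * k) ⟨(modEq_iff _ _ _).2 ⟨k, ?_⟩, (modEq_iff _ _ _).2 ⟨l, ?_⟩⟩
      · simp [R, M]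
      · simpa [R, M] using h
    · rfl
  let ι := {x : ℤ // x ∈ Finset.Ico 0 m} × Bool
  have key : ∀ i : ι, ∃ s t, 0 ≤ s ∧ s < t ∧
      ∀ k, g (R i.2 + M i.2 * (i.1.1 + m * k)) = s + t * k := by
    intro i
    have hi := Finset.mem_Ico.1 i.1.2
    have hb := bound (R0 i.2) (R1 i.2) hi.1 hi.2
    obtain ⟨s, t, s0, s1, hs⟩ := hg.refine hm (p := M i.2) hb.1 (by linarith [hb.2])
    refine ⟨s, t * M i.2, s0, s1, fun k => ?_⟩
    rw [← hs]; congr 1; ring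
  choose s t s0 s1 hs using key
  let π : Perm ι := Equiv.prodCongr (Equiv.refl _) (Function.Involutive.toPerm _ Bool.not_not)
  refine family s t s0 s1 ?_ π _ ?_ ?_
  · intro i j k l h
    rw [← hs, ← hs] at h
    have h' := g.injective h
    have hb := hdis _ _ _ _ h'
    obtain ⟨i1, i2⟩ := i
    obtain ⟨j1, j2⟩ := j
    simp only at hb h'
    subst hb
    have hM : M i2 ≠ 0 := by have := R0 i2; have := R1 i2; omega
    have h3 : i1.1 + m * k = j1.1 + m * l := by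
      have := add_left_cancel h'
      exact mul_left_cancel₀ hM this
    have hi := Finset.mem_Ico.1 i1.2
    have hj := Finset.mem_Ico.1 j1.2
    have := (uniq hi.1 hi.2 hj.1 hj.2 h3).1
    rw [Subtype.ext this]
  · intro i k
    rw [← hs, ← hs]
    simp only [Perm.mul_apply]
    rw [show g⁻¹ (g (R i.2 + M i.2 * (i.1.1 + m * k))) = R i.2 + M i.2 * (i.1.1 + m * k) from
      g.symm_apply_apply _, hτ]
    rfl
  · intro n hn
    have hout : ∀ b k, g⁻¹ n ≠ R b + M b * k := by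
      intro b k h
      obtain ⟨j, l, j0, j1, rfl⟩ := rep hm k
      apply hn (⟨j, Finset.mem_Ico.2 ⟨j0, j1⟩⟩, b) l
      rw [← hs, ← h]; simp
    simp only [Perm.mul_apply]
    rw [h2]
    · simp
    · rw [modEq_iff]
      rintro ⟨k, hk⟩
      exact hout true k hk
    · rw [modEq_iff]
      rintro ⟨k, hk⟩
      exact hout false k hk

lemma conj_mem {g h : Perm ℤ} (hg : Can g) (hh : h ∈ H) : g * h * g⁻¹ ∈ H := by
  induction hh using Subgroup.closure_induction with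
  | mem x hx => exact conj_gen hg hx
  | one => simp [H.one_mem]
  | mul x y _ _ a b =>
    have := H.mul_mem a b
    rwa [show g * x * g⁻¹ * (g * y * g⁻¹) = g * (x * y) * g⁻¹ by group] at this
  | inv x _ a =>
    have := H.inv_mem a
    rwa [show (g * x * g⁻¹)⁻¹ = g * x⁻¹ * g⁻¹ by group] at this

/-- `d` is the copy of `g` on the class `r(m)` -/
def Copy (r m : ℤ) (g d : Perm ℤ) : Prop :=
  (∀ k, d (r + m * k) = r + m * g k) ∧ ∀ n, (∀ k, n ≠ r + m * k) → d n = n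

lemma exists_copy (r : ℤ) {m : ℤ} (hm : m ≠ 0) (g : Perm ℤ) : ∃ d, Copy r m g d := by
  let e : ℤ ↪ ℤ := ⟨fun k => r + m * k, fun a b h => mul_left_cancel₀ hm (add_left_cancel h)⟩
  refine ⟨g.viaEmbedding e, fun k => Perm.viaEmbedding_apply g e k, fun n hn => ?_⟩
  apply Perm.viaEmbedding_apply_of_notMem
  rintro ⟨k, hk⟩
  exact hn k hk.symm

lemma Copy.can {r m : ℤ} {g d : Perm ℤ} (r0 : 0 ≤ r) (r1 : r < m) (h : Copy r m g d)
    (hg : Can g) : Can d := by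
  obtain ⟨m0, hm0, hg⟩ := hg
  refine ⟨m * m0, mul_pos (by omega) hm0, fun x x0 x1 => ?_⟩
  by_cases c : ∃ j, x = r + m * j
  · obtain ⟨j, rfl⟩ := c
    have hj := bound' r0 r1 x0 x1
    obtain ⟨s, t, s0, s1, hs⟩ := hg j hj.1 hj.2
    have hb := bound r0 r1 s0 s1
    refine ⟨r + m * s, m * t, hb.1, hb.2, fun k => ?_⟩
    rw [show r + m * j + m * m0 * k = r + m * (j + m0 * k) by ring, h.1, hs]; ring
  · refine ⟨x, m * m0, x0, x1, fun k => h.2 _ fun l hl => c ⟨l - m0 * k, by linarith⟩⟩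

def E (a b : Perm ℤ) : Prop := a * b⁻¹ ∈ H

lemma E.symm {a b : Perm ℤ} (h : E a b) : E b a := by
  have := H.inv_mem h
  unfold E
  rwa [show (a * b⁻¹)⁻¹ = b * a⁻¹ by group] at this

lemma E.trans {a b c : Perm ℤ} (h : E a b) (h' : E b c) : E a c := by
  have := H.mul_mem h h'
  unfold E
  rwa [show a * b⁻¹ * (b * c⁻¹) = a * c⁻¹ by group] at this

lemma E.mul {a b a' b' : Perm ℤ} (ha : Can a) (h : E a a') (h' : E b b') : E (a * b) (a' * b') := by
  have := H.mul_mem (conj_mem ha h') h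
  unfold E
  rwa [show a * (b * b'⁻¹) * a⁻¹ * (a * a'⁻¹) = a * b * (a' * b')⁻¹ by group] at this

lemma copy_E {r₁ m₁ r₂ m₂ : ℤ} (a0 : 0 ≤ r₁) (a1 : r₁ < m₁) (b0 : 0 ≤ r₂) (b1 : r₂ < m₂)
    (hd : ∀ k l, r₁ + m₁ * k ≠ r₂ + m₂ * l) {g d₁ d₂ : Perm ℤ} (hg : Can g)
    (c₁ : Copy r₁ m₁ g d₁) (c₂ : Copy r₂ m₂ g d₂) : E d₂ d₁ := by
  obtain ⟨τ, hτ, t1, t2⟩ := exists_ct a0 a1 b0 b1 hd
  have he : d₂ * τ = τ * d₁ := by
    ext n
    simp only [Perm.mul_apply]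
    by_cases h : ∃ k, n = r₁ + m₁ * k
    · obtain ⟨k, rfl⟩ := h
      rw [(t1 k).1, c₁.1, c₂.1, (t1 _).1]
    · push Not at h
      rw [c₁.2 n h, c₂.2]
      intro k hk
      rw [← (t1 k).1] at hk
      exact h k (τ.injective hk)
  have h2 : d₂ * d₁⁻¹ = τ * (d₁ * τ⁻¹ * d₁⁻¹) := by
    have : d₂ = τ * d₁ * τ⁻¹ := by rw [← he]; group
    rw [this]; group
  unfold E
  rw [h2]
  exact H.mul_mem hτ (conj_mem (c₁.can a0 a1 hg) (H.inv_mem hτ))

lemma exists_alpha {m : ℤ} (hm : 0 < m) : ∃ α : Perm ℤ,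
    ∀ r e k, 0 ≤ r → r < m → 0 ≤ e → e < 2 → α (r + m * (e + 2 * k)) = e + 2 * (r + m * k) := by
  let f : ℤ → ℤ := fun n => (n / m) % 2 + 2 * (n % m + m * (n / m / 2))
  have hf : ∀ r e k, 0 ≤ r → r < m → 0 ≤ e → e < 2 →
      f (r + m * (e + 2 * k)) = e + 2 * (r + m * k) := by
    intro r e k r0 r1 e0 e1
    have h1 : (r + m * (e + 2 * k)) / m = e + 2 * k := by
      rw [Int.add_mul_ediv_left _ _ hm.ne', Int.ediv_eq_zero_of_lt r0 r1]; simp
    have h2 : (r + m * (e + 2 * k)) % m = r := by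
      rw [Int.add_mul_emod_self_left, Int.emod_eq_of_lt r0 r1]
    have h3 : (e + 2 * k) / 2 = k := by omega
    have h4 : (e + 2 * k) % 2 = e := by omega
    simp only [f, h1, h2, h3, h4]
  refine ⟨Equiv.ofBijective f ⟨?_, ?_⟩, hf⟩
  · intro x y h
    obtain ⟨r, j, r0, r1, rfl⟩ := rep hm x
    obtain ⟨e, k, e0, e1, rfl⟩ := rep (m := 2) two_pos j
    obtain ⟨r', j', r0', r1', rfl⟩ := rep hm y
    obtain ⟨e', k', e0', e1', rfl⟩ := rep (m := 2) two_pos j'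
    rw [hf _ _ _ r0 r1 e0 e1, hf _ _ _ r0' r1' e0' e1'] at h
    obtain ⟨rfl, h2⟩ := uniq e0 e1 e0' e1' h
    obtain ⟨rfl, rfl⟩ := uniq r0 r1 r0' r1' h2
    rfl
  · intro x
    obtain ⟨e, j, e0, e1, rfl⟩ := rep (m := 2) two_pos x
    obtain ⟨r, k, r0, r1, rfl⟩ := rep hm j
    exact ⟨_, hf r e k r0 r1 e0 e1⟩

lemma double_E {g D : Perm ℤ} (hg : Can g) (hD : ∀ e n, 0 ≤ e → e < 2 → D (e + 2 * n) = e + 2 * g n) :
    E D g := by
  have hgs := hg.sgn
  obtain ⟨m, hm, hg'⟩ := id hg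
  obtain ⟨α, hα⟩ := exists_alpha hm
  have rep2 : ∀ n : ℤ, ∃ r e k, 0 ≤ r ∧ r < m ∧ 0 ≤ e ∧ e < 2 ∧ n = r + m * (e + 2 * k) := by
    intro n
    obtain ⟨r, j, r0, r1, rfl⟩ := rep hm n
    obtain ⟨e, k, e0, e1, rfl⟩ := rep (m := 2) two_pos j
    exact ⟨r, e, k, r0, r1, e0, e1, rfl⟩
  have αs : Sgn α := by
    intro n
    obtain ⟨r, e, k, r0, r1, e0, e1, rfl⟩ := rep2 n
    rw [hα r e k r0 r1 e0 e1]
    have he : m * e = 0 ∨ m * e = m := by
      have : e = 0 ∨ e = 1 := by omega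
      rcases this with rfl | rfl <;> simp
    rw [show m * (e + 2 * k) = m * e + 2 * (m * k) by ring]
    by_cases hk : 0 ≤ k
    · have : 0 ≤ m * k := mul_nonneg (by omega) hk
      constructor <;> intro <;> omega
    · have : m * k ≤ m * (-1) := mul_le_mul_of_nonneg_left (by omega) (by omega)
      constructor <;> intro <;> omega
  have αH : α ∈ H := by
    refine hor αs (L := 2 * m) (by omega) fun n => ?_
    obtain ⟨r, e, k, r0, r1, e0, e1, rfl⟩ := rep2 n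
    rw [show r + m * (e + 2 * k) + 2 * m = r + m * (e + 2 * (k + 1)) by ring,
      hα r e k r0 r1 e0 e1, hα r e _ r0 r1 e0 e1]
    ring
  have Ds : Sgn D := by
    intro n
    obtain ⟨e, j, e0, e1, rfl⟩ := rep (m := 2) two_pos n
    rw [hD e j e0 e1]
    have := hgs j
    omega
  obtain ⟨T, hT, hc⟩ := hg'.common
  have βH : D * α * g⁻¹ ∈ H := by
    refine hor ((Ds.mul αs).mul hgs.inv) (L := 2 * T) (by omega) fun n => ?_
    obtain ⟨r, e, k, r0, r1, e0, e1, hn⟩ := rep2 (g⁻¹ n)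
    obtain ⟨s, t, q, s0, s1, rfl, hs⟩ := hc r r0 r1
    have hn' : n = s + t * (e + 2 * k) := by rw [← hs, ← hn]; simp
    have h2 : g⁻¹ (n + 2 * (t * q)) = r + m * (e + 2 * (k + q)) := by
      rw [Perm.inv_eq_iff_eq, hs, hn']; ring
    simp only [Perm.mul_apply]
    rw [h2, hn, hα r e k r0 r1 e0 e1, hα r e _ r0 r1 e0 e1, hD _ _ e0 e1, hD _ _ e0 e1, hs, hs]
    ring
  have := H.mul_mem βH (conj_mem hg (H.inv_mem αH))
  unfold E
  rwa [show D * α * g⁻¹ * (g * α⁻¹ * g⁻¹) = D * g⁻¹ by group] at this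

lemma mem_of_can {g : Perm ℤ} (hg : Can g) : g ∈ H := by
  obtain ⟨y0, c0⟩ := exists_copy 0 (m := 2) two_ne_zero g
  obtain ⟨y1, c1⟩ := exists_copy 1 (m := 2) two_ne_zero g
  obtain ⟨z0, d0⟩ := exists_copy 0 (m := 4) four_ne_zero g
  obtain ⟨z1, d1⟩ := exists_copy 1 (m := 4) four_ne_zero g
  have hy0 : Can y0 := c0.can (by omega) (by omega) hg
  have hz0 : Can z0 := d0.can (by omega) (by omega) hg
  have e1 : E y1 y0 := copy_E (by omega) (by omega) (by omega) (by omega)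
    (fun k l => by omega) hg c0 c1
  have e2 : E z0 y1 := copy_E (by omega) (by omega) (by omega) (by omega)
    (fun k l => by omega) hg c1 d0
  have e3 : E z1 y0 := copy_E (by omega) (by omega) (by omega) (by omega)
    (fun k l => by omega) hg c0 d1
  have e4 : E (y0 * y1) g := by
    refine double_E hg fun e n e0 e1 => ?_
    have : e = 0 ∨ e = 1 := by omega
    rcases this with rfl | rfl
    · rw [Perm.mul_apply, c1.2 _ (fun k => by omega), c0.1]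
    · rw [Perm.mul_apply, c1.1, c0.2 _ (fun k => by omega)]
  have e5 : E (z0 * z1) y0 := by
    refine double_E hy0 fun e n e0 e1 => ?_
    obtain ⟨e', k, e0', e1', rfl⟩ := rep (m := 2) two_pos n
    have : e = 0 ∨ e = 1 := by omega
    have : e' = 0 ∨ e' = 1 := by omega
    rcases this with rfl | rfl
    · rw [c0.1]
      rcases this with rfl | rfl
      · rw [Perm.mul_apply, d1.2 _ (fun k => by omega),
          show (0:ℤ) + 2 * (0 + 2 * k) = 0 + 4 * k by ring, d0.1]; ring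
      · rw [Perm.mul_apply, show (1:ℤ) + 2 * (0 + 2 * k) = 1 + 4 * k by ring, d1.1,
          d0.2 _ (fun k => by omega)]; ring
    · rw [c0.2 _ (fun k => by omega), Perm.mul_apply, d1.2 _ (fun k => by omega),
        d0.2 _ (fun k => by omega)]
  have e6 : E y0 (y0 * y0) := e5.symm.trans (E.mul hz0 (e2.trans e1) e3)
  have y0H : y0 ∈ H := by
    have := H.inv_mem e6
    rwa [show (y0 * (y0 * y0)⁻¹)⁻¹ = y0 by group] at this
  have y1H : y1 ∈ H := by
    have := H.mul_mem e1 y0H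
    rwa [show y1 * y0⁻¹ * y0 = y1 by group] at this
  have := H.mul_mem e4.symm (H.mul_mem y0H y1H)
  rwa [show g * (y0 * y1)⁻¹ * (y0 * y1) = g by group] at this

theorem main : (H : Set (Perm ℤ)) = {g : Equiv.Perm ℤ |
        (∃ m : ℤ, 0 < m ∧ ∀ r : ℤ, ∃ a b : ℚ, ∀ n : ℤ,
            Int.ModEq m n r → ((g n : ℤ) : ℚ) = a * (n : ℚ) + b) ∧
        ∀ n : ℤ, 0 ≤ g n ↔ 0 ≤ n} := by
  ext g
  constructor
  · intro hg
    have hc := can_of_mem hg
    refine ⟨?_, hc.sgn⟩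
    obtain ⟨m, hm, hc⟩ := hc
    refine ⟨m, hm, fun r => ?_⟩
    obtain ⟨x, j, x0, x1, rfl⟩ := rep hm r
    obtain ⟨s, t, -, -, hs⟩ := hc x x0 x1
    refine ⟨t / m, s - t / m * x, fun n hn => ?_⟩
    obtain ⟨k, rfl⟩ := (modEq_iff _ _ _).1 hn
    rw [show x + m * j + m * k = x + m * (j + k) by ring, hs]
    have : (m : ℚ) ≠ 0 := by exact_mod_cast hm.ne'
    push_cast
    field_simp
    ring
  · rintro ⟨⟨m, hm, h⟩, hs⟩
    refine mem_of_can ⟨m, hm, fun r r0 r1 => ?_⟩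
    obtain ⟨a, b, hab⟩ := h r
    have hk : ∀ k, g (r + m * k) = g r + (g r - g (r - m)) * k := by
      intro k
      have h1 := hab (r + m * k) ((modEq_iff _ _ _).2 ⟨k, rfl⟩)
      have h2 := hab r (Int.ModEq.refl _)
      have h3 := hab (r - m) ((modEq_iff _ _ _).2 ⟨-1, by ring⟩)
      have : ((g (r + m * k) : ℤ) : ℚ) = ((g r + (g r - g (r - m)) * k : ℤ) : ℚ) := by
        push_cast at h1 h3 ⊢
        rw [h1, h2, h3]; ring
      exact_mod_cast this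
    refine ⟨g r, g r - g (r - m), (hs r).2 r0, ?_, hk⟩
    have := hs (r - m)
    omega

end Pool.Agent.H27.ClassTr
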