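import Mathlib

set_option autoImplicit false

namespace Pool.Agent.H27.ConjOrd

section fam

variable {α : Type} [LinearOrder α]

def fam (k : ℤ) (F : ℤ → α ≃o α) : ℤ ×ₗ α ≃o ℤ ×ₗ α where
  toFun x := toLex ((ofLex x).1 + k, F (ofLex x).1 (ofLex x).2)
  invFun x := toLex ((ofLex x).1 - k, (F ((ofLex x).1 - k)).symm (ofLex x).2)
  left_inv x := by simp
  right_inv x := by simp
  map_rel_iff' := by
    rintro ⟨n, x⟩ ⟨m, y⟩
    change toLex (n + k, F n x) ≤ toLex (m + k, F m y) ↔ toLex (n, x) ≤ toLex (m, y)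
    simp only [Prod.Lex.toLex_le_toLex, add_lt_add_iff_right, add_left_inj]
    exact or_congr_right (and_congr_right fun e => by subst e; exact (F n).le_iff_le)

lemma fam_apply (k : ℤ) (F : ℤ → α ≃o α) (n : ℤ) (x : α) :
    fam k F (toLex (n, x)) = toLex (n + k, F n x) := rfl

lemma fam_mul (k k' : ℤ) (F F' : ℤ → α ≃o α) :
    fam k F * fam k' F' = fam (k' + k) fun n => F (n + k') * F' n :=
  OrderIso.ext (funext fun ⟨n, x⟩ => congrArg (fun m => toLex (m, F (n + k') (F' n x)))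
    (add_assoc n k' k))

lemma fam_one : fam 0 (fun _ => (1 : α ≃o α)) = 1 :=
  OrderIso.ext (funext fun ⟨n, x⟩ => congrArg (fun m => toLex (m, x)) (add_zero n))

def sh (m : ℤ) : ℤ ×ₗ α ≃o ℤ ×ₗ α := fam m fun _ => 1

lemma sh_add (m m' : ℤ) : (sh m * sh m' : ℤ ×ₗ α ≃o _) = sh (m + m') := by
  rw [sh, sh, fam_mul, add_comm]; rfl

lemma lt_fam (k : ℤ) (F : ℤ → α ≃o α) (n : ℤ) (x : α) :
    toLex (n, x) < fam k F (toLex (n, x)) ↔ 0 < k ∨ k = 0 ∧ x < F n x := by
  simp [fam_apply, Prod.Lex.toLex_lt_toLex]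

lemma fam_fix (k : ℤ) (F : ℤ → α ≃o α) (n : ℤ) (x : α) :
    fam k F (toLex (n, x)) = toLex (n, x) ↔ k = 0 ∧ F n x = x := by
  simp [fam_apply]

def IsC {G : Type} [Group G] (P : Set G) : Prop :=
  (∀ a ∈ P, ∀ b ∈ P, a * b ∈ P) ∧ (1 : G) ∉ P ∧ (∀ a : G, a ≠ 1 → (a ∈ P ↔ a⁻¹ ∉ P))

lemma isC_of {G : Type} [Group G] {P : Set G} (h1 : ∀ a ∈ P, ∀ b ∈ P, a * b ∈ P) (h2 : (1 : G) ∉ P)
    (h3 : ∀ a : G, a ≠ 1 → a ∈ P ∨ a⁻¹ ∈ P) : IsC P :=
  ⟨h1, h2, fun a ha => ⟨fun h h' => h2 (by simpa using h1 _ h _ h'), (h3 a ha).resolve_right⟩⟩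

lemma exists_cone : ∃ P : Set (α ≃o α), IsC P := by
  obtain ⟨r, hr⟩ : ∃ r : α → α → Prop, IsWellOrder α r := ⟨_, WellOrderingRel.isWellOrder⟩
  refine ⟨{g | ∃ t, t < g t ∧ ∀ s, r s t → g s = s}, isC_of ?_ ?_ fun g hg => ?_⟩
  · rintro g ⟨t, h1, h2⟩ k ⟨t', h3, h4⟩
    rcases trichotomous_of r t t' with e | rfl | e
    · exact ⟨t, by change t < g (k t); rwa [h4 t e], fun s hs => by
        change g (k s) = s; rw [h4 s (_root_.trans hs e), h2 s hs]⟩
    · exact ⟨t, h1.trans (g.strictMono h3), fun s hs => by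
        change g (k s) = s; rw [h4 s hs, h2 s hs]⟩
    · exact ⟨t', (h2 t' e).symm.trans_lt (g.strictMono h3), fun s hs => by
        change g (k s) = s; rw [h4 s hs, h2 s (_root_.trans hs e)]⟩
  · rintro ⟨t, h, -⟩
    exact lt_irrefl _ h
  · have ne : {t | g t ≠ t}.Nonempty := by
      by_contra hn
      exact hg (OrderIso.ext (funext fun t => not_not.1 fun c => hn ⟨t, c⟩))
    have a := hr.wf.min_mem _ ne
    have b : ∀ s, r s (hr.wf.min _ ne) → g s = s := fun s hs =>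
      not_not.1 fun c => hr.wf.not_lt_min _ c hs
    rcases lt_or_gt_of_ne a with e | e
    · exact Or.inr ⟨_, g.lt_symm_apply.2 e, fun s hs => g.symm_apply_eq.2 (b s hs).symm⟩
    · exact Or.inl ⟨_, e, b⟩

def coneAt (p : α) (W : Set (α ≃o α)) : Set (α ≃o α) := {g | p < g p ∨ g p = p ∧ g ∈ W}

lemma IsC.at {W : Set (α ≃o α)} (h : IsC W) (p : α) : IsC (coneAt p W) := by
  refine isC_of ?_ ?_ fun g hg => ?_
  · rintro g (h1 | ⟨h1, h2⟩) k (h3 | ⟨h3, h4⟩)
    · exact Or.inl (h1.trans (g.strictMono h3))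
    · exact Or.inl (by change p < g (k p); rwa [h3])
    · exact Or.inl (h1.symm.trans_lt (g.strictMono h3))
    · exact Or.inr ⟨by change g (k p) = p; rw [h3, h1], h.1 _ h2 _ h4⟩
  · rintro (e | ⟨-, e⟩)
    · exact lt_irrefl _ e
    · exact h.2.1 e
  · rcases lt_trichotomy (g p) p with e | e | e
    · exact Or.inr (Or.inl (g.lt_symm_apply.2 e))
    · by_cases c : g ∈ W
      · exact Or.inl (Or.inr ⟨e, c⟩)
      · exact Or.inr (Or.inr ⟨g.symm_apply_eq.2 e.symm, not_not.1 fun d => c ((h.2.2 g hg).2 d)⟩)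
    · exact Or.inl (Or.inl e)

end fam

abbrev II := {t : ℝ // Irrational t}

abbrev J := ℤ ×ₗ II

structure Mb (a b c d : ℝ) (f : J → J) : Prop where
  mono : StrictMono f
  comm : ∀ m x, f (sh m x) = sh m (f x)
  mob : ∀ x, (c * (ofLex x).2 + d) * (ofLex (f x)).2 = a * (ofLex x).2 + b

lemma Mb.comp {a b c d a' b' c' d' : ℝ} {f g : J → J} (h : Mb a b c d f) (h' : Mb a' b' c' d' g) :
    Mb (a * a' + b * c') (a * b' + b * d') (c * a' + d * c') (c * b' + d * d') (f ∘ g) :=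
  ⟨h.mono.comp h'.mono, fun m x => by simp [h.comm, h'.comm], fun x => by
    simp only [Function.comp]
    linear_combination (c' * (ofLex x).2 + d') * h.mob (g x) +
      (a - c * (ofLex (f (g x))).2) * h'.mob x⟩

lemma Mb.scalar {a b c d : ℝ} {f : J → J} (h : Mb a b c d f) (h1 : b = 0) (h2 : c = 0)
    (h3 : d = a) (ha : a ≠ 0) {t : II} {m : ℤ} (e : (ofLex (f (toLex (0, t)))).1 = m) (x : J) :
    f x = sh m x := by
  have s : ∀ x, (ofLex (f x)).2 = (ofLex x).2 := fun x => Subtype.ext (mul_left_cancel₀ ha (by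
    simpa [h1, h2, h3] using h.mob x))
  have s' : ∀ t : II, f (toLex (0, t)) = toLex ((ofLex (f (toLex (0, t)))).1, t) := fun t =>
    Prod.ext rfl (s _)
  have k : ∀ t t' : II, t < t' →
      (ofLex (f (toLex (0, t)))).1 = (ofLex (f (toLex (0, t')))).1 := by
    intro t t' e
    have a1 := h.mono (show toLex (0, t) < toLex (0, t') from Prod.Lex.right _ e)
    have a2 := h.mono (show toLex (0, t') < sh 1 (toLex (0, t)) from Prod.Lex.left _ _ one_pos)
    rw [h.comm] at a2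
    rw [s' t, s' t'] at a1 a2
    rw [sh, fam_apply] at a2
    rcases Prod.Lex.toLex_lt_toLex.1 a2 with c | c
    · rcases Prod.Lex.toLex_lt_toLex.1 a1 with c' | c'
      · simp only at c c'; omega
      · exact c'.1
    · exact absurd c.2 e.not_gt
  obtain ⟨n, u⟩ := x
  have : (ofLex (f (toLex (0, u)))).1 = m := by
    rcases lt_trichotomy t u with c | rfl | c
    · rw [← k _ _ c, e]
    · exact e
    · rw [k _ _ c, e]
  have b : f (toLex (n, u)) = sh n (f (toLex (0, u))) := by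
    rw [← h.comm, sh, fam_apply, zero_add]; rfl
  change f (toLex (n, u)) = sh m (toLex (n, u))
  rw [b, s', this, sh, sh, fam_apply, fam_apply, add_comm]

lemma den_ne (c d : ℚ) (hc : 0 < c) (t : II) : (c : ℝ) * t + d ≠ 0 :=
  ((t.2.ratCast_mul hc.ne').add_ratCast d).ne_zero

lemma mob_eq {a b c d : ℚ} (hc : 0 < c) (h : a * d - b * c = 1) (t : II) :
    ((a : ℝ) * t + b) / (c * t + d) = (a / c : ℚ) - ((c : ℝ) * (c * t + d))⁻¹ := by
  have h' : (a : ℝ) * d - b * c = 1 := by exact_mod_cast h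
  have := den_ne c d hc t
  have c0 : (c : ℝ) ≠ 0 := by exact_mod_cast hc.ne'
  push_cast
  rw [div_eq_iff this, sub_mul, mul_inv, mul_assoc, inv_mul_cancel₀ this]
  field_simp
  linear_combination -h'

open Classical in
noncomputable def L (a b c d : ℚ) (hc : 0 < c) (h : a * d - b * c = 1) (x : J) : J :=
  toLex ((ofLex x).1 + if (0 : ℝ) < c * (ofLex x).2 + d then 1 else 0,
    ⟨(a * (ofLex x).2 + b) / (c * (ofLex x).2 + d), by
      rw [mob_eq hc h]
      exact (((((ofLex x).2.2.ratCast_mul hc.ne').add_ratCast d).ratCast_mul hc.ne').inv).ratCast_sub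
        _⟩)

section

variable {a b c d : ℚ} (hc : 0 < c) (h : a * d - b * c = 1)

lemma L_pos {x : J} (e : (0 : ℝ) < c * (ofLex x).2 + d) :
    (ofLex (L a b c d hc h x)).1 = (ofLex x).1 + 1 := by simp [L, e]

lemma L_neg {x : J} (e : (c : ℝ) * (ofLex x).2 + d < 0) :
    (ofLex (L a b c d hc h x)).1 = (ofLex x).1 := by simp [L, e.not_gt]

lemma L_mb : Mb a b c d (L a b c d hc h) := by
  refine ⟨?_, fun m ⟨n, t⟩ => Prod.ext (add_right_comm _ _ _) rfl,
    fun x => mul_div_cancel₀ _ (den_ne c d hc _)⟩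
  rintro ⟨n, t⟩ ⟨m, u⟩ e
  have c0 : (0 : ℝ) < c := by exact_mod_cast hc
  refine Prod.Lex.toLex_lt_toLex.2 ?_
  simp only [← Subtype.coe_lt_coe, mob_eq hc h, sub_lt_sub_iff_left]
  change _ + (if (0 : ℝ) < c * t + d then 1 else 0) < _ + (if (0 : ℝ) < c * u + d then 1 else 0) ∨
    n + (if (0 : ℝ) < c * t + d then 1 else 0) = m + (if (0 : ℝ) < c * u + d then 1 else 0) ∧
    ((c : ℝ) * (c * u + d))⁻¹ < ((c : ℝ) * (c * t + d))⁻¹
  change n + _ < m + _ ∨ _
  rcases Prod.Lex.toLex_lt_toLex.1 e with e | ⟨rfl, e⟩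
  · simp only at e
    split_ifs with h1 h2 h2
    · exact Or.inl (by omega)
    · refine (show n + 1 ≤ m + 0 by omega).lt_or_eq.imp id fun z => ⟨z, ?_⟩
      have := lt_of_le_of_ne (not_lt.1 h2) (den_ne c d hc u)
      exact (inv_lt_zero.2 (mul_neg_of_pos_of_neg c0 this)).trans (inv_pos.2 (mul_pos c0 h1))
    · exact Or.inl (by omega)
    · exact Or.inl (by omega)
  · have e' : (c : ℝ) * (c * t + d) < c * (c * u + d) := by
      have : (t : ℝ) < u := e
      gcongr
    split_ifs with h1 h2 h2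
    · exact Or.inr ⟨rfl, inv_strictAnti₀ (mul_pos c0 h1) e'⟩
    · exact absurd (h1.trans (lt_of_mul_lt_mul_left e' c0.le)) h2
    · exact Or.inl (by omega)
    · have := mul_neg_of_pos_of_neg c0 (lt_of_le_of_ne (not_lt.1 h2) (den_ne c d hc u))
      exact Or.inr ⟨rfl, (inv_lt_inv_of_neg this (e'.trans this)).2 e'⟩

lemma L_cube (ht : a + d = 1) (x : J) :
    L a b c d hc h (L a b c d hc h (L a b c d hc h x)) = sh 2 x := by
  have h' : (a : ℝ) * d - b * c = 1 := by exact_mod_cast h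
  have ht' : (a : ℝ) + d = 1 := by exact_mod_cast ht
  have c0 : (0 : ℝ) < c := by exact_mod_cast hc
  have M := L_mb hc h
  obtain ⟨t, t1, t2, -⟩ := exists_irrational_btwn (lt_add_one ((1 - (d : ℝ)) / c))
  have u0 : 1 < c * t + d := by rw [div_lt_iff₀ c0] at t2; linarith
  have st : ∀ y : J, ((c : ℝ) * (ofLex y).2 + d) * (c * (ofLex (L a b c d hc h y)).2 + d) =
      (c * (ofLex y).2 + d : ℝ) - 1 := fun y => by
    linear_combination c * M.mob y - h' + (c * (ofLex y).2 + d) * ht'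
  have a1 := st (toLex (0, ⟨t, t1⟩))
  have a2 := st (L a b c d hc h (toLex (0, ⟨t, t1⟩)))
  change (c * t + d) * _ = c * t + d - 1 at a1
  have b1 : (0 : ℝ) < c * (ofLex (L a b c d hc h (toLex (0, ⟨t, t1⟩)))).2 + d := by nlinarith
  have b2 : (c : ℝ) * (ofLex (L a b c d hc h (toLex (0, ⟨t, t1⟩)))).2 + d < 1 := by nlinarith
  refine (M.comp (M.comp M)).scalar ?_ ?_ ?_ ?_ (t := ⟨t, t1⟩) ?_ x
  · linear_combination b * (a + d + 1) * ht' - b * h'
  · linear_combination c * (a + d + 1) * ht' - c * h'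
  · linear_combination (d - a) * (a + d + 1) * ht' - (d - a) * h'
  · have : (a : ℝ) * (a * a + b * c) + b * (c * a + d * c) = -1 := by
      linear_combination (a * (a + d + 1) - 1) * ht' - (2 * a + d) * h'
    rw [this]; norm_num
  · simp only [Function.comp]
    rw [L_neg hc h (by nlinarith), L_pos hc h b1, L_pos hc h (by change 0 < c * t + d; linarith)]
    rfl

noncomputable def rho (ht : a + d = 1) : J ≃o J :=
  (L_mb hc h).mono.orderIsoOfSurjective _ fun x => ⟨_, by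
    rw [L_cube hc h ht (sh (-2) x)]
    change (sh 2 * sh (-2) : J ≃o J) x = x
    rw [sh_add, add_neg_cancel, sh, fam_one]; rfl⟩

lemma rho_sh (ht : a + d = 1) (m : ℤ) : sh m * rho hc h ht = rho hc h ht * sh m :=
  OrderIso.ext (funext fun x => ((L_mb hc h).comm m x).symm)

lemma rho_cube (ht : a + d = 1) : rho hc h ht * (rho hc h ht * rho hc h ht) = sh 2 :=
  OrderIso.ext (funext (L_cube hc h ht))

end

lemma exists_rho : ∃ r1 r2 r3 r4 : J ≃o J, (∀ r ∈ [r1, r2, r3, r4],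
    (∀ m, sh m * r = r * sh m) ∧ r * (r * r) = sh 2) ∧ r1 * (r2 * (r3 * r4)) = sh 2 := by
  refine ⟨rho (a := -1) (b := -1) (c := 3) (d := 2) (by norm_num) (by norm_num) (by norm_num),
    rho (a := 0) (b := -2) (c := 1 / 2) (d := 1) (by norm_num) (by norm_num) (by norm_num),
    rho (a := 2) (b := -3) (c := 1) (d := -1) (by norm_num) (by norm_num) (by norm_num),
    rho (a := 1) (b := -1 / 2) (c := 2) (d := 0) (by norm_num) (by norm_num) (by norm_num),
    by simp [rho_sh, rho_cube], OrderIso.ext (funext fun x => ?_)⟩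
  have M1 := L_mb (a := -1) (b := -1) (c := 3) (d := 2) (by norm_num) (by norm_num)
  have M2 := L_mb (a := 0) (b := -2) (c := 1 / 2) (d := 1) (by norm_num) (by norm_num)
  have M3 := L_mb (a := 2) (b := -3) (c := 1) (d := -1) (by norm_num) (by norm_num)
  have M4 := L_mb (a := 1) (b := -1 / 2) (c := 2) (d := 0) (by norm_num) (by norm_num)
  obtain ⟨t, t1, t2, t3⟩ := exists_irrational_btwn (one_lt_two (α := ℝ))
  refine (M1.comp (M2.comp (M3.comp M4))).scalar (by norm_num) (by norm_num) (by norm_num)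
    (by norm_num) (t := ⟨t, t1⟩) ?_ x
  have a4 := M4.mob (toLex (0, ⟨t, t1⟩))
  have a3 := (M3.comp M4).mob (toLex (0, ⟨t, t1⟩))
  have a2 := (M2.comp (M3.comp M4)).mob (toLex (0, ⟨t, t1⟩))
  simp only [Function.comp, ofLex_toLex] at a2 a3 a4 ⊢
  push_cast at a2 a3 a4
  rw [L_neg _ _ (by push_cast; nlinarith), L_pos _ _ (by push_cast; nlinarith),
    L_neg _ _ (by push_cast; nlinarith), L_pos _ _ (by simp; linarith)]
  rfl

@[ext] structure He (R : Type) where
  k : R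
  i : R
  j : R

section He

variable {R : Type} [CommRing R]

instance : Mul (He R) := ⟨fun a b => ⟨a.k + b.k, a.i + b.i, a.j + b.j - b.k * a.i⟩⟩

instance : One (He R) := ⟨⟨0, 0, 0⟩⟩

instance : Inv (He R) := ⟨fun a => ⟨-a.k, -a.i, -a.j - a.k * a.i⟩⟩

lemma mul_def (a b : He R) : a * b = ⟨a.k + b.k, a.i + b.i, a.j + b.j - b.k * a.i⟩ := rfl

lemma one_def : (1 : He R) = ⟨0, 0, 0⟩ := rfl

lemma inv_def (a : He R) : a⁻¹ = ⟨-a.k, -a.i, -a.j - a.k * a.i⟩ := rfl

instance : Group (He R) := Group.ofLeftAxioms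
  (fun a b c => by ext <;> simp only [mul_def] <;> ring)
  (fun a => by simp [mul_def, one_def])
  (fun a => by ext <;> simp only [mul_def, inv_def, one_def] <;> ring)

lemma nilp : Group.IsNilpotent (He R) := by
  refine ⟨2, eq_top_iff.2 fun a _ => ?_⟩
  rw [Subgroup.mem_upperCentralSeries_succ_iff]
  intro b
  rw [Subgroup.upperCentralSeries_one, Subgroup.mem_center_iff]
  intro c
  ext <;> simp only [commutatorElement_def, mul_def, inv_def] <;> ring

end He

lemma pow_def (a : He ℚ) (n : ℕ) :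
    a ^ n = ⟨n * a.k, n * a.i, n * a.j - n * (n - 1) / 2 * (a.k * a.i)⟩ := by
  induction n with
  | zero => simp [one_def]
  | succ n ih => rw [pow_succ, ih]; ext <;> simp only [mul_def] <;> push_cast <;> ring

lemma divisible (h : He ℚ) (n : ℕ) (hn : 0 < n) : ∃ x : He ℚ, x ^ n = h := by
  have : (n : ℚ) ≠ 0 := by exact_mod_cast hn.ne'
  refine ⟨⟨h.k / n, h.i / n, (h.j + n * (n - 1) / 2 * (h.k / n * (h.i / n))) / n⟩, ?_⟩
  rw [pow_def]; ext <;> simp only <;> field_simp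
  ring

def cst : He ℤ →* He ℚ :=
  MonoidHom.mk' (fun a => ⟨a.k, a.i, a.j⟩) fun a b => by ext <;> simp [mul_def]

lemma cst_inj : Function.Injective cst := fun a b h => by
  simpa [cst, He.ext_iff] using h

lemma pow_mem (h : He ℚ) : ∃ n : ℕ, 0 < n ∧ h ^ n ∈ cst.range := by
  refine ⟨2 * (h.k.den * h.i.den * h.j.den), by positivity,
    ⟨2 * h.k.num * h.i.den * h.j.den, 2 * h.i.num * h.k.den * h.j.den,
      2 * h.j.num * h.k.den * h.i.den -
        h.j.den * (2 * (h.k.den * h.i.den * h.j.den) - 1) * h.k.num * h.i.num⟩, ?_⟩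
  rw [pow_def]
  ext <;> simp only [cst, MonoidHom.mk'_apply] <;> push_cast <;>
    simp only [← Rat.mul_den_eq_num] <;> ring

def QQ : Set (He ℚ) := {a | 0 < a.k ∨ a.k = 0 ∧ (0 < a.j ∨ a.j = 0 ∧ a.i < 0)}

lemma isC_QQ : IsC QQ := by
  refine isC_of ?_ (by simp [QQ, one_def]) fun a ha => ?_
  · rintro a (h | ⟨h1, h2⟩) b (h' | ⟨h3, h4⟩)
    · exact Or.inl (add_pos h h')
    · exact Or.inl (by simpa [mul_def, h3] using h)
    · exact Or.inl (by simpa [mul_def, h1] using h')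
    · refine Or.inr ⟨by simp [mul_def, h1, h3], ?_⟩
      simp only [mul_def, h3, zero_mul, sub_zero]
      rcases h2 with h2 | ⟨h2, h5⟩ <;> rcases h4 with h4 | ⟨h4, h6⟩
      · exact Or.inl (by linarith)
      · exact Or.inl (by linarith)
      · exact Or.inl (by linarith)
      · exact Or.inr ⟨by linarith, by linarith⟩
  · rcases lt_trichotomy a.k 0 with h | h | h
    · exact Or.inr (Or.inl (by simpa [inv_def] using h))
    · rcases lt_trichotomy a.j 0 with e | e | e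
      · exact Or.inr (Or.inr (by simpa [inv_def, h] using Or.inl e))
      · rcases lt_trichotomy a.i 0 with c | c | c
        · exact Or.inl (Or.inr ⟨h, Or.inr ⟨e, c⟩⟩)
        · exact absurd (He.ext h c e) ha
        · exact Or.inr (Or.inr (by simpa [inv_def, h, e] using c))
      · exact Or.inl (Or.inr ⟨h, Or.inl e⟩)
    · exact Or.inl (Or.inl h)

noncomputable def act : He ℤ →* (ℤ ×ₗ J ≃o ℤ ×ₗ J) :=
  MonoidHom.mk' (fun a => fam a.k fun n => sh (a.j - n * a.i)) fun a b => by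
    rw [fam_mul]
    simp only [mul_def, sh_add]
    congr 1
    · ring
    · funext n; congr 1; ring

lemma act_apply (a : He ℤ) : act a = fam a.k fun n => sh (a.j - n * a.i) := rfl

noncomputable def p0 : II := ⟨_, irrational_sqrt_two⟩

lemma act_inj : Function.Injective act := by
  refine (injective_iff_map_eq_one _).2 fun a h => ?_
  have h0 := (fam_fix a.k (fun n => sh (a.j - n * a.i)) 0 (toLex (0, p0))).1 (by
    rw [← act_apply, h]; rfl)
  have h1 := (fam_fix a.k (fun n => sh (a.j - n * a.i)) 1 (toLex (0, p0))).1 (by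
    rw [← act_apply, h]; rfl)
  have a0 := ((fam_fix _ _ _ _).1 h0.2).1
  have a1 := ((fam_fix _ _ _ _).1 h1.2).1
  exact He.ext h0.1 (by change a.i = 0; omega) (by change a.j = 0; omega)

lemma mem_iff {W : Set (ℤ ×ₗ J ≃o ℤ ×ₗ J)} (hW : IsC W) (a : He ℤ) : cst a ∈ QQ ↔
    act a ∈ coneAt (toLex (0, toLex (0, p0))) (coneAt (toLex (1, toLex (0, p0))) W) := by
  simp only [coneAt, Set.mem_ofPred_eq, act_apply, lt_fam, fam_fix, sh, QQ, cst,
    MonoidHom.mk'_apply, Int.cast_pos, Int.cast_eq_zero, Int.cast_lt_zero]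
  by_cases h : a = 1
  · subst h
    have := hW.2.1
    simp [one_def, fam_one, this]
  · have : ¬ (a.k = 0 ∧ a.i = 0 ∧ a.j = 0) := fun c => h (He.ext c.1 c.2.1 c.2.2)
    simp only [RelIso.one_apply, lt_self_iff_false, and_false, or_false, and_true]
    constructor
    · rintro (c | ⟨c, d | ⟨d, e⟩⟩)
      · exact Or.inl (Or.inl c)
      · exact Or.inl (Or.inr ⟨c, by omega⟩)
      · exact Or.inr ⟨⟨c, by omega⟩, Or.inl (Or.inr ⟨c, by omega⟩)⟩
    · rintro ((c | c) | ⟨c, (d | d) | ⟨d, -⟩⟩) <;> omega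

lemma contra {R : Set (ℤ ×ₗ J ≃o ℤ ×ₗ J)} (hR : IsC R) (h1 : act ⟨0, -3, -1⟩ ∈ R)
    (h2 : act ⟨0, 3, 2⟩ ∈ R) : False := by
  obtain ⟨r1, r2, r3, r4, h, e⟩ := exists_rho
  have root : ∀ g : ℤ ×ₗ J ≃o ℤ ×ₗ J, g * (g * g) ∈ R → g ∈ R := by
    intro g hg
    by_contra hn
    have g1 : g ≠ 1 := fun c => hR.2.1 (by simpa [c] using hg)
    have := not_not.1 ((hR.2.2 g g1).not.1 hn)
    exact hR.2.1 (by simpa [mul_assoc] using hR.1 _ this _ (hR.1 _ this _ (hR.1 _ this _ hg)))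
  have mv : ∀ r ∈ [r1, r2, r3, r4], ∀ m (s : J ≃o J), sh m * (r * s) = r * (sh m * s) :=
    fun r hr m s => by rw [← mul_assoc, (h r hr).1, mul_assoc]
  have cube : ∀ r ∈ [r1, r2, r3, r4], ∀ m,
      r * sh m * (r * sh m * (r * sh m)) = sh (2 + 3 * m) := by
    intro r hr m
    simp only [mul_assoc, mv r hr, sh_add]
    rw [← mul_assoc, ← mul_assoc, mul_assoc r r r, (h r hr).2, sh_add]
    congr 1; ring
  have a : ∀ r ∈ [r1, r2, r3, r4], fam 0 (fun n => r * sh (n - 1)) ∈ R := fun r hr =>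
    root _ (by
      simp only [fam_mul, add_zero, cube r hr]
      convert h1 using 1
      rw [act_apply]; congr 1; funext n; congr 1; ring)
  have b : ∀ r ∈ [r1, r2, r3, r4], fam 0 (fun n => r * sh (-n)) ∈ R := fun r hr =>
    root _ (by
      simp only [fam_mul, add_zero, cube r hr]
      convert h2 using 1
      rw [act_apply]; congr 1; funext n; congr 1; ring)
  have := hR.1 _ (a r1 (by simp)) _ (hR.1 _ (a r2 (by simp)) _
    (hR.1 _ (b r3 (by simp)) _ (b r4 (by simp))))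
  refine hR.2.1 ?_
  convert this using 1
  simp only [fam_mul, add_zero, mul_assoc, mv r2 (by simp), mv r3 (by simp), mv r4 (by simp), sh_add]
  rw [← fam_one]
  congr 1
  funext n
  rw [← mul_assoc r3, ← mul_assoc r2, ← mul_assoc, e, sh_add,
    show 2 + (n - 1 + (n - 1 + (-n + -n))) = 0 by ring, sh, fam_one]

end Pool.Agent.H27.ConjOrd
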