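import Mathlib

set_option autoImplicit false

namespace Pool.Agent.H27.CosetStab

open Finset Equiv

variable {n : ℕ}

lemma cnt (s : Finset (Fin n)) (τ : Perm (Fin n)) :
    (univ.filter (fun σ : Perm (Fin n) => ∀ x ∈ s, σ x = τ x)).card = (n - s.card).factorial := by
  have h1 : (univ.filter (fun σ : Perm (Fin n) => ∀ x ∈ s, σ x = τ x)).card =
      (univ.filter (fun σ : Perm (Fin n) => ∀ x, ¬ (x ∉ s) → σ x = x)).card := by
    apply Finset.card_bij (fun σ _ => τ⁻¹ * σ)
    · intro σ h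
      simp only [mem_filter, mem_univ, true_and, not_not] at h ⊢
      intro x hx
      simp [h x hx]
    · intro a _ b _ h
      exact mul_left_cancel h
    · intro σ h
      simp only [mem_filter, mem_univ, true_and, not_not] at h
      refine ⟨τ * σ, ?_, by simp⟩
      simp only [mem_filter, mem_univ, true_and]
      intro x hx
      simp [h x hx]
  rw [h1, ← Fintype.card_subtype,
    ← Fintype.card_congr (Perm.subtypeEquivSubtypePerm (fun x => x ∉ s)), Fintype.card_perm]
  congr 1
  simp [Fintype.card_subtype_compl]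

lemma cnt1 (a a' : Fin n) :
    (univ.filter (fun σ : Perm (Fin n) => σ a = a')).card = (n - 1).factorial := by
  have := cnt {a} (swap a a')
  simpa using this

lemma cnt2 {a a' b b' : Fin n} (h : a ≠ b) (h' : a' ≠ b') :
    (univ.filter (fun σ : Perm (Fin n) => σ a = a' ∧ σ b = b')).card = (n - 2).factorial := by
  have := cnt {a, b} (swap (swap a a' b) b' * swap a a')
  rw [card_pair h] at this
  rw [← this]
  congr 1
  ext σ
  have e : swap (swap a a' b) b' a' = a' := by
    apply swap_apply_of_ne_of_ne _ h'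
    intro e
    apply h
    apply (swap a a').injective
    rw [← e, swap_apply_left]
  simp [e]

lemma cnt3 {a a' b b' c c' : Fin n} (h1 : a ≠ b) (h2 : a ≠ c) (h3 : (b, b') ≠ (c, c')) :
    (univ.filter (fun σ : Perm (Fin n) => σ a = a' ∧ σ b = b' ∧ σ c = c')).card ≤
      (n - 3).factorial := by
  rcases (univ.filter (fun σ : Perm (Fin n) => σ a = a' ∧ σ b = b' ∧ σ c = c')).eq_empty_or_nonempty
    with h | ⟨τ, h⟩
  · simp [h]
  · simp only [mem_filter, mem_univ, true_and] at h
    have hbc : b ≠ c := by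
      rintro rfl
      exact h3 (by rw [← h.2.1, ← h.2.2])
    have := cnt {a, b, c} τ
    rw [card_eq_three.mpr ⟨a, b, c, h1, h2, hbc, rfl⟩] at this
    rw [← this]
    apply le_of_eq
    congr 1
    ext σ
    simp [h.1, h.2.1, h.2.2]

lemma bonf {ι α : Type} [DecidableEq ι] [DecidableEq α] (X : ι → Finset α) (a b : ℕ)
    (Q : Finset ι) (h1 : ∀ i ∈ Q, a ≤ (X i).card)
    (h2 : ∀ i ∈ Q, ∀ j ∈ Q, i ≠ j → (X i ∩ X j).card ≤ b) :
    Q.card * a ≤ (Q.biUnion X).card + Q.card ^ 2 * b := by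
  induction Q using Finset.induction_on with
  | empty => simp
  | insert i Q hi ih =>
    have ih' := ih (fun j hj => h1 j (mem_insert_of_mem hj))
      (fun j hj k hk => h2 j (mem_insert_of_mem hj) k (mem_insert_of_mem hk))
    rw [biUnion_insert, card_insert_of_notMem hi]
    have e1 := card_union_add_card_inter (X i) (Q.biUnion X)
    have e2 : (X i ∩ Q.biUnion X).card ≤ Q.card * b := by
      rw [inter_biUnion]
      exact card_biUnion_le_card_mul _ _ _ fun j hj =>
        h2 i (mem_insert_self _ _) j (mem_insert_of_mem hj) (fun e => hi (e ▸ hj))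
    have e3 := h1 i (mem_insert_self _ _)
    nlinarith [Nat.zero_le (Q.card * b), Nat.zero_le b]

lemma meet (a : Fin n) (Q : Finset (Fin n × Fin n)) (hQ : ∀ p ∈ Q, a ≠ p.1 ∧ a ≠ p.2) :
    Q.card * (n - 2).factorial ≤
      (univ.filter (fun σ : Perm (Fin n) => σ a = a ∧ ∃ p ∈ Q, σ p.1 = p.2)).card +
        Q.card ^ 2 * (n - 3).factorial := by
  have := bonf (fun p : Fin n × Fin n =>
    univ.filter (fun σ : Perm (Fin n) => σ a = a ∧ σ p.1 = p.2)) (n - 2).factorial
    (n - 3).factorial Q (fun p hp => (cnt2 (hQ p hp).1 (hQ p hp).2).ge) (fun p hp q hq hpq => by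
      refine le_trans (card_le_card ?_) (cnt3 (a' := a) (hQ p hp).1 (hQ q hq).1 hpq)
      intro σ hσ
      simp only [mem_inter, mem_filter, mem_univ, true_and] at hσ ⊢
      exact ⟨hσ.1.1, hσ.1.2, hσ.2.2⟩)
  refine this.trans (Nat.add_le_add_right (card_le_card ?_) _)
  intro σ hσ
  simp only [mem_biUnion, mem_filter, mem_univ, true_and] at hσ ⊢
  obtain ⟨p, hp, h1, h2⟩ := hσ
  exact ⟨h1, p, hp, h2⟩

def pairs (a : Fin n) : Finset (Fin n × Fin n) :=
  univ.filter (fun p => p.1 < p.2 ∧ (p.1 = a ∨ p.2 = a))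

lemma card_pairs (a : Fin n) : (pairs a).card ≤ n := by
  have : (pairs a).card ≤ (univ : Finset (Fin n)).card := by
    apply card_le_card_of_injOn (fun p => if p.1 = a then p.2 else p.1) (by simp)
    rintro ⟨x, y⟩ hp ⟨z, w⟩ hq h
    simp only [pairs, coe_filter, mem_univ, true_and, Set.mem_ofPred_eq] at hp hq h
    simp only [Prod.mk.injEq]
    split_ifs at h <;> omega
  simpa using this

variable {m : ℕ}

def T0 (m : ℕ) : Finset (Perm (Fin (m + 3))) := univ.filter (fun σ => σ 0 = 0)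
def T1 (m : ℕ) : Finset (Perm (Fin (m + 3))) := univ.filter (fun σ => σ 1 = 1)
def F (m : ℕ) : Finset (Perm (Fin (m + 3))) := univ.filter (fun σ => σ 0 = 1 ∧ σ 1 = 0)
def A (m : ℕ) : Finset (Perm (Fin (m + 3))) := (T0 m ∪ T1 m ∪ F m)ᶜ

lemma zero_ne_one' : (0 : Fin (m + 3)) ≠ 1 := by simp

lemma card_T0 : (T0 m).card = (m + 2).factorial := cnt1 _ _
lemma card_T1 : (T1 m).card = (m + 2).factorial := cnt1 _ _
lemma card_F : (F m).card = (m + 1).factorial := cnt2 zero_ne_one' zero_ne_one'.symm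

lemma card_A : (A m).card = (m + 1) * (m + 2).factorial := by
  have h1 : (T0 m ∩ T1 m).card = (m + 1).factorial := by
    have := cnt2 (n := m + 3) zero_ne_one' zero_ne_one'
    rw [← show _ = (m + 1).factorial from this]
    congr 1
    ext σ
    simp [T0, T1]
  have h2 := card_union_add_card_inter (T0 m) (T1 m)
  have h3 : Disjoint (T0 m ∪ T1 m) (F m) := by
    rw [disjoint_left]
    intro σ h1 h2
    simp only [T0, T1, F, mem_union, mem_filter, mem_univ, true_and] at h1 h2
    rcases h1 with h | h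
    · exact zero_ne_one' (h.symm.trans h2.1)
    · exact zero_ne_one' (h2.2.symm.trans h)
  rw [A, card_compl, card_union_of_disjoint h3, Fintype.card_perm, Fintype.card_fin, card_F]
  rw [card_T0, card_T1, h1] at h2
  have : (m + 3).factorial = (m + 3) * (m + 2).factorial := rfl
  rw [this]
  have : (m + 3) * (m + 2).factorial = (m + 1) * (m + 2).factorial + 2 * (m + 2).factorial := by
    ring
  omega

lemma boundary :
    (((A m ×ˢ (univ.filter (fun p : Fin (m + 3) × Fin (m + 3) => p.1 < p.2))).filter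
      (fun x => x.1 * Equiv.swap x.2.1 x.2.2 ∉ A m)).card) ≤
      2 * (m + 3) * (m + 2).factorial + 2 * (m + 3) * (m + 1).factorial := by
  have h : (((A m ×ˢ (univ.filter (fun p : Fin (m + 3) × Fin (m + 3) => p.1 < p.2))).filter
      (fun x => x.1 * Equiv.swap x.2.1 x.2.2 ∉ A m)).card) ≤
      ((T0 m ×ˢ pairs (n := m + 3) 0) ∪ (T1 m ×ˢ pairs (n := m + 3) 1) ∪
        (F m ×ˢ pairs (n := m + 3) 0) ∪ (F m ×ˢ pairs (n := m + 3) 1)).card := by
    apply card_le_card_of_injOn (fun x => (x.1 * Equiv.swap x.2.1 x.2.2, x.2))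
    · rintro ⟨σ, p⟩ hx
      simp only [A, T0, T1, F, pairs, coe_filter, mem_product, mem_compl, mem_union, mem_filter,
        mem_univ, true_and, not_not, Set.mem_ofPred_eq, coe_union, coe_product, Set.mem_union,
        Set.mem_prod, not_or, Perm.mul_apply] at hx ⊢
      obtain ⟨⟨⟨⟨a1, a2⟩, a3⟩, hp⟩, hx⟩ := hx
      by_cases h0 : p.1 = 0 ∨ p.2 = 0
      · by_cases h1 : p.1 = 1 ∨ p.2 = 1
        · tauto
        · have e1 : swap p.1 p.2 1 = 1 :=
            swap_apply_of_ne_of_ne (fun e => h1 (Or.inl e.symm)) (fun e => h1 (Or.inr e.symm))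
          rw [e1] at hx ⊢
          tauto
      · have e0 : swap p.1 p.2 0 = 0 :=
          swap_apply_of_ne_of_ne (fun e => h0 (Or.inl e.symm)) (fun e => h0 (Or.inr e.symm))
        rw [e0] at hx ⊢
        by_cases h1 : p.1 = 1 ∨ p.2 = 1
        · tauto
        · have e1 : swap p.1 p.2 1 = 1 :=
            swap_apply_of_ne_of_ne (fun e => h1 (Or.inl e.symm)) (fun e => h1 (Or.inr e.symm))
          rw [e1] at hx ⊢
          tauto
    · rintro ⟨σ, p⟩ - ⟨τ, q⟩ - h
      simp only [Prod.mk.injEq] at h ⊢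
      obtain ⟨h1, rfl⟩ := h
      exact ⟨mul_right_cancel h1, rfl⟩
  refine h.trans ?_
  refine (card_union_le _ _).trans ?_
  refine (Nat.add_le_add_right (card_union_le _ _) _).trans ?_
  refine (Nat.add_le_add_right (Nat.add_le_add_right (card_union_le _ _) _) _).trans ?_
  simp only [card_product, card_T0, card_T1, card_F]
  have h0 := card_pairs (0 : Fin (m + 3))
  have h1 := card_pairs (1 : Fin (m + 3))
  nlinarith [Nat.mul_le_mul_left (m + 2).factorial h0, Nat.mul_le_mul_left (m + 2).factorial h1,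
    Nat.mul_le_mul_left (m + 1).factorial h0, Nat.mul_le_mul_left (m + 1).factorial h1]

lemma far (K : ℕ) (hK : 2 * K + 1 ≤ m) (hK2 : K ^ 2 ≤ m + 1) (P : Finset (Fin (m + 3) × Fin (m + 3)))
    (hP : P.card = m + 1) :
    K * (m + 1).factorial ≤ (symmDiff (A m)
      (univ.filter (fun σ : Perm (Fin (m + 3)) => ∃ p ∈ P, σ p.1 = p.2))).card +
        (m + 1).factorial := by
  have key : ∀ a : Fin (m + 3), (a = 0 ∨ a = 1) →
      K ≤ (P.filter (fun p => a ≠ p.1 ∧ a ≠ p.2)).card → K * (m + 1).factorial ≤ (symmDiff (A m)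
      (univ.filter (fun σ : Perm (Fin (m + 3)) => ∃ p ∈ P, σ p.1 = p.2))).card +
        (m + 1).factorial := by
    intro a ha h
    obtain ⟨Q, hQ, hc⟩ := exists_subset_card_eq h
    have := meet a Q (fun p hp => (mem_filter.mp (hQ hp)).2)
    rw [hc] at this
    refine le_trans this (Nat.add_le_add (card_le_card ?_) ?_)
    · intro σ hσ
      simp only [mem_filter, mem_univ, true_and] at hσ
      obtain ⟨h1, p, hp, h2⟩ := hσ
      rw [mem_symmDiff]
      right
      refine ⟨mem_filter.mpr ⟨mem_univ _, p, (mem_filter.mp (hQ hp)).1, h2⟩, ?_⟩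
      simp only [A, T0, T1, mem_compl, mem_union, mem_filter, mem_univ, true_and, not_not]
      rcases ha with rfl | rfl
      · exact Or.inl (Or.inl h1)
      · exact Or.inl (Or.inr h1)
    · show K ^ 2 * m.factorial ≤ (m + 1) * m.factorial
      exact Nat.mul_le_mul_right _ hK2
  have hsub : P ⊆ P.filter (fun p => (0 : Fin (m + 3)) ≠ p.1 ∧ (0 : Fin (m + 3)) ≠ p.2) ∪
      P.filter (fun p => (1 : Fin (m + 3)) ≠ p.1 ∧ (1 : Fin (m + 3)) ≠ p.2) ∪ {(0, 1), (1, 0)} := by
    rintro ⟨x, y⟩ hp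
    have := zero_ne_one' (m := m)
    simp only [mem_union, mem_filter, hp, true_and, mem_insert, mem_singleton, Prod.mk.injEq]
    grind
  have h1 := card_le_card hsub
  have h2 := (card_union_le _ _).trans' h1
  have h3 := card_union_le
    (P.filter (fun p => (0 : Fin (m + 3)) ≠ p.1 ∧ (0 : Fin (m + 3)) ≠ p.2))
    (P.filter (fun p => (1 : Fin (m + 3)) ≠ p.1 ∧ (1 : Fin (m + 3)) ≠ p.2))
  have h4 : ({(0, 1), (1, 0)} : Finset (Fin (m + 3) × Fin (m + 3))).card ≤ 2 := card_le_two
  by_cases h : K ≤ (P.filter (fun p => (0 : Fin (m + 3)) ≠ p.1 ∧ (0 : Fin (m + 3)) ≠ p.2)).card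
  · exact key 0 (Or.inl rfl) h
  · exact key 1 (Or.inr rfl) (by omega)

end Pool.Agent.H27.CosetStab
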