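import Mathlib

namespace Pool.Agent.H27.DTC

open Filter Classical

/-- `u □ v = {A | {x | x⁻¹ A ∈ v} ∈ u}`. -/
def box {G : Type} [Group G] (u v : Ultrafilter G) : Set (Set G) :=
  {A | {x | {y | x * y ∈ A} ∈ v} ∈ u}

/-- `u ◇ v = {A | {x | A x⁻¹ ∈ u} ∈ v}`. -/
def diamond {G : Type} [Group G] (u v : Ultrafilter G) : Set (Set G) :=
  {A | {x | {y | y * x ∈ A} ∈ u} ∈ v}

noncomputable def kap (m : ℕ) : (ℕ →₀ ℤ) →+ ℤ :=
  Finsupp.liftAddHom fun j => if m ≤ j then AddMonoidHom.id ℤ else 0

lemma kap_single (m j : ℕ) (x : ℤ) : kap m (Finsupp.single j x) = if m ≤ j then x else 0 := by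
  simp only [kap, Finsupp.liftAddHom_apply_single]
  split_ifs <;> rfl

lemma kap_eq (m : ℕ) (c : ℕ →₀ ℤ) : kap m c = ∑ j ∈ c.support, if m ≤ j then c j else 0 := by
  simp only [kap, Finsupp.liftAddHom_apply, Finsupp.sum]
  apply Finset.sum_congr rfl
  intro j _
  split_ifs <;> rfl

lemma kap_zero {m : ℕ} {c : ℕ →₀ ℤ} (h : ∀ j, m ≤ j → c j = 0) : kap m c = 0 := by
  rw [kap_eq]
  apply Finset.sum_eq_zero
  intro j _
  split_ifs with hj
  · exact h j hj
  · rfl

lemma kap_mono {K m : ℕ} {c : ℕ →₀ ℤ} (h : ∀ j, K ≤ j → 0 ≤ c j) (hm : K ≤ m) :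
    0 ≤ kap m c ∧ kap m c ≤ kap K c := by
  rw [kap_eq, kap_eq]
  constructor
  · apply Finset.sum_nonneg
    intro j _
    split_ifs with hj
    · exact h j (hm.trans hj)
    · rfl
  · apply Finset.sum_le_sum
    intro j _
    split_ifs with h1 h2 h2
    · rfl
    · omega
    · exact h j h2
    · rfl

lemma zero_of_kap {m : ℕ} {c : ℕ →₀ ℤ} (h : ∀ j, m ≤ j → 0 ≤ c j) (h0 : kap m c = 0) :
    ∀ j, m ≤ j → c j = 0 := by
  intro j hj
  rw [kap_eq, Finset.sum_eq_zero_iff_of_nonneg] at h0
  · by_contra hne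
    have := h0 j (Finsupp.mem_support_iff.2 hne)
    rw [if_pos hj] at this
    exact hne this
  · intro i _
    split_ifs with hi
    · exact h i hi
    · rfl

abbrev N := Π₀ m : ℕ, ZMod (m + 1)

noncomputable def beta (c d : ℕ →₀ ℤ) : N :=
  DFinsupp.mk d.support fun m => ((kap (m + 1) c * d m : ℤ) : ZMod (m + 1))

lemma beta_apply (c d : ℕ →₀ ℤ) (m : ℕ) :
    beta c d m = ((kap (m + 1) c * d m : ℤ) : ZMod (m + 1)) := by
  rw [beta, DFinsupp.mk_apply]
  split_ifs with h
  · rfl
  · rw [Finsupp.notMem_support_iff.1 h]; simp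

@[ext] structure G where
  a : N
  c : ℕ →₀ ℤ

noncomputable instance : Mul G := ⟨fun x y => ⟨x.a + y.a + beta x.c y.c, x.c + y.c⟩⟩
noncomputable instance : One G := ⟨⟨0, 0⟩⟩
noncomputable instance : Inv G := ⟨fun x => ⟨-x.a + beta x.c x.c, -x.c⟩⟩

@[simp] lemma mul_a (x y : G) : (x * y).a = x.a + y.a + beta x.c y.c := rfl
@[simp] lemma mul_c (x y : G) : (x * y).c = x.c + y.c := rfl
@[simp] lemma one_a : (1 : G).a = 0 := rfl
@[simp] lemma one_c : (1 : G).c = 0 := rfl
@[simp] lemma inv_a (x : G) : (x⁻¹).a = -x.a + beta x.c x.c := rfl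
@[simp] lemma inv_c (x : G) : (x⁻¹).c = -x.c := rfl

noncomputable instance : Group G := Group.ofLeftAxioms
  (fun x y z => by
    ext m
    · simp [beta_apply]; ring
    · simp [add_assoc])
  (fun x => by
    ext m
    · simp [beta_apply]
    · simp)
  (fun x => by
    ext m
    · simp [beta_apply]
    · simp)

instance : Countable G := by
  have : Function.Injective fun x : G => (x.a, x.c) := by
    intro x y h
    exact G.ext (congrArg Prod.fst h) (congrArg Prod.snd h)
  exact this.countable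

noncomputable def y (m : ℕ) : G := ⟨0, Finsupp.single m 1⟩

instance : Infinite G := Infinite.of_injective y fun a b h => by
  have := congrArg G.c h
  simpa [y, Finsupp.single_left_inj] using this

lemma exists_bound (x : G) : ∃ K, ∀ j, K ≤ j → x.c j = 0 ∧ x.a j = 0 := by
  obtain ⟨K, hK⟩ := (x.c.support ∪ x.a.support).bddAbove
  refine ⟨K + 1, fun j hj => ⟨?_, ?_⟩⟩
  · by_contra h
    have := hK (Finset.mem_coe.2 (Finset.mem_union_left _ (Finsupp.mem_support_iff.2 h)))
    omega
  · by_contra h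
    have := hK (Finset.mem_coe.2 (Finset.mem_union_right _ (DFinsupp.mem_support_iff.2 h)))
    omega

lemma fc (g : G) : {h | IsConj g h}.Finite := by
  obtain ⟨K, hK⟩ := exists_bound g
  apply Set.Finite.of_injOn (f := fun (h : G) (i : Fin K) => h.a i) (t := Set.univ)
    (Set.mapsTo_univ _ _) _ Set.finite_univ
  have key : ∀ h, IsConj g h → h.c = g.c ∧ ∀ j, K ≤ j → h.a j = 0 := by
    intro h hh
    obtain ⟨k, rfl⟩ := isConj_iff.1 hh
    refine ⟨by simp, fun j hj => ?_⟩
    have h0 : kap (j + 1) g.c = 0 := kap_zero fun i hi => (hK i (by omega)).1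
    simp [beta_apply, (hK j hj).1, (hK j hj).2, h0]
  intro h hh h' hh' e
  ext j
  · by_cases hj : j < K
    · exact congrFun e ⟨j, hj⟩
    · rw [(key h hh).2 j (by omega), (key h' hh').2 j (by omega)]
  · rw [(key h hh).1, (key h' hh').1]

lemma y_c (x : G) (m j : ℕ) : (x * y m).c j = if j = m then x.c j + 1 else x.c j := by
  simp only [mul_c, y, Finsupp.add_apply, Finsupp.single_apply, eq_comm (a := m)]
  split_ifs <;> simp

lemma y_a (x : G) (m j : ℕ) :
    (x * y m).a j = if j = m then x.a j + (kap (j + 1) x.c : ℤ) else x.a j := by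
  simp only [mul_a, y, DFinsupp.add_apply, beta_apply, Finsupp.single_apply, eq_comm (a := m)]
  split_ifs <;> simp

lemma y_kap (x : G) (m K : ℕ) (h : K ≤ m) : kap K (x * y m).c = kap K x.c + 1 := by
  simp [y, kap_single, h]

noncomputable def U : Ultrafilter ℕ := hyperfilter ℕ
noncomputable def v : Ultrafilter G := U.map y

lemma U_le : (U : Filter ℕ) ≤ atTop := Nat.hyperfilter_le_atTop

lemma ulim {α F : Type} [Finite F] (u : Ultrafilter α) (g : α → F) : ∃ γ, ∀ᶠ x in u, g x = γ := by
  obtain ⟨γ, h⟩ := Ultrafilter.eq_pure_of_finite (u.map g)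
  refine ⟨γ, ?_⟩
  have : {γ} ∈ u.map g := by rw [h]; simp
  exact this

lemma ulim_int {α : Type} (u : Ultrafilter α) (g : α → ℤ) (n : ℤ)
    (h : ∀ᶠ x in u, 0 ≤ g x ∧ g x ≤ n) : ∃ γ, 0 ≤ γ ∧ γ ≤ n ∧ ∀ᶠ x in u, g x = γ := by
  obtain ⟨γ, h1, h2⟩ := Ultrafilter.eq_pure_of_finite_mem (f := u.map g) (Set.finite_Icc 0 n) h
  refine ⟨γ, h1.1, h1.2, ?_⟩
  have : {γ} ∈ u.map g := by rw [h2]; simp
  exact this

lemma transfer {u : Ultrafilter G} (h : box u v = diamond u v) {F : Type} [Finite F]
    (f g : G → F) (hf : ∀ x, ∀ᶠ m in atTop, f (x * y m) = g x) :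
    ∀ᶠ m in U, ∀ᶠ x : G in u, f (x * y m) = g x := by
  obtain ⟨γ, hγ⟩ := ulim u g
  have h1 : {z | f z = γ} ∈ box u v := by
    refine mem_of_superset hγ fun x hx => ?_
    have := U_le (hf x)
    refine mem_of_superset this fun m hm => ?_
    exact hm.trans hx
  rw [h] at h1
  refine mem_of_superset h1 fun m hm => ?_
  filter_upwards [hm, hγ] with x h2 h3
  exact h2.trans h3.symm

lemma ncard_flip {P Q : ℕ → Prop} (hP : {i | P i}.Finite) (m : ℕ) (h : ∀ i, i ≠ m → (Q i ↔ P i))
    (h1 : Q m) (h2 : ¬ P m) : {i | Q i}.ncard = {i | P i}.ncard + 1 := by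
  rw [← Set.ncard_insert_of_notMem (s := {i | P i}) (a := m) h2 hP]
  congr 1
  ext i
  by_cases hi : i = m
  · subst hi; simp [h1]
  · simp [hi, h i hi]

lemma ne_succ (n : ℕ) : ((n : ℕ) : ZMod 2) ≠ ((n + 1 : ℕ) : ZMod 2) := by
  push_cast
  generalize (n : ZMod 2) = z
  revert z; decide

theorem main (u : Ultrafilter G) (hu : ∀ x, u ≠ pure x) : box u v ≠ diamond u v := by
  intro h
  -- Step A
  let J : G → ℕ := fun z => {i | z.c i ≠ 0 ∧ ∀ j, i ≤ j → 0 ≤ z.c j}.ncard
  have A1 := transfer h (fun z => ((J z : ℕ) : ZMod 2)) (fun x => ((J x + 1 : ℕ) : ZMod 2)) (by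
    intro x
    obtain ⟨K, hK⟩ := exists_bound x
    filter_upwards [eventually_ge_atTop K] with m hm
    congr 1
    apply ncard_flip (x.c.hasFiniteSupport.subset fun i hi => hi.1) m
    · intro i hi
      rw [y_c, if_neg hi]
      refine and_congr_right fun _ => forall_congr' fun j => imp_congr_right fun _ => ?_
      rw [y_c]
      split_ifs with hj
      · rw [(hK j (by omega)).1]; simp
      · rfl
    · refine ⟨by rw [y_c, if_pos rfl, (hK m hm).1]; simp, fun j hj => ?_⟩
      rw [y_c, (hK j (by omega)).1]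
      split_ifs <;> simp
    · rw [(hK m hm).1]; simp)
  obtain ⟨K0, hK0⟩ := A1.exists
  have A : ∀ᶠ x : G in u, ∀ j, K0 + 1 ≤ j → 0 ≤ x.c j := by
    filter_upwards [hK0] with x hx j hj
    by_contra hneg
    apply ne_succ (J x)
    rw [← hx]
    refine congrArg (fun s : Set ℕ => ((s.ncard : ℕ) : ZMod 2)) (Set.ext fun i => ?_)
    simp only [Set.mem_ofPred_eq]
    by_cases hi : i ≤ j
    · constructor
      · intro h'; exact absurd (h'.2 j hi) hneg
      · intro h'
        have := h'.2 j hi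
        rw [y_c, if_neg (by omega)] at this
        exact absurd this hneg
    · rw [y_c, if_neg (by omega)]
      refine and_congr_right fun _ => forall_congr' fun l => imp_congr_right fun hl => ?_
      rw [y_c, if_neg (by omega)]
  set K := K0 + 1
  -- Step B
  have B1 := transfer h
    (fun z => ((∑ i ∈ Finset.range (kap K z.c).toNat, z.c i : ℤ) : ZMod 2))
    (fun x => ((∑ i ∈ Finset.range (kap K x.c + 1).toNat, x.c i : ℤ) : ZMod 2)) (by
    intro x
    filter_upwards [eventually_ge_atTop K, eventually_ge_atTop (kap K x.c + 1).toNat] with m h1 h2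
    rw [y_kap x m K h1]
    congr 1
    apply Finset.sum_congr rfl
    intro i hi
    rw [y_c, if_neg (by have := Finset.mem_range.1 hi; omega)])
  obtain ⟨n, hn1, hn2⟩ := (B1.and (U_le (eventually_ge_atTop K))).exists
  have B : ∀ᶠ x : G in u, kap K x.c ≤ n := by
    filter_upwards [hn1] with x hx
    by_contra hlt
    rw [y_kap x n K hn2] at hx
    have hm : n ∈ Finset.range (kap K x.c + 1).toNat := Finset.mem_range.2 (by omega)
    have e : ∑ i ∈ Finset.range (kap K x.c + 1).toNat, (x * y n).c i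
        = ∑ i ∈ Finset.range (kap K x.c + 1).toNat, x.c i + 1 := by
      simp [y, Finset.sum_add_distrib, Finsupp.single_apply, Finset.sum_ite_eq, hm]
    rw [e] at hx
    push_cast at hx
    simp at hx
  -- Step C
  have C1 : ∀ m : ℕ, ∃ γ : ℤ, K ≤ m + 1 → 0 ≤ γ ∧ γ ≤ n ∧ ∀ᶠ x : G in u, kap (m + 1) x.c = γ := by
    intro m
    by_cases hm : K ≤ m + 1
    · obtain ⟨γ, hγ⟩ := ulim_int u (fun x => kap (m + 1) x.c) n (by
        filter_upwards [A, B] with x h1 h2
        have := kap_mono h1 hm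
        exact ⟨this.1, this.2.trans h2⟩)
      exact ⟨γ, fun _ => hγ⟩
    · exact ⟨0, fun h => absurd h hm⟩
  choose γ hγ using C1
  choose α hα using fun m : ℕ => ulim u fun x => x.a m
  let t : ∀ m : ℕ, ZMod (m + 1) := fun m => if α m + γ m = 0 then α m else α m + γ m
  let ν : G → ℕ := fun z => {i | z.a i ≠ 0 ∧ z.a i = t i}.ncard
  have νfin : ∀ z : G, {i | z.a i ≠ 0 ∧ z.a i = t i}.Finite := fun z =>
    z.a.support.finite_toSet.subset fun i hi => Finset.mem_coe.2 (DFinsupp.mem_support_iff.2 hi.1)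
  have C2 := transfer h (fun z => ((ν z : ℕ) : ZMod 2)) (fun x => ((ν x : ℕ) : ZMod 2)) (by
    intro x
    obtain ⟨L, hL⟩ := exists_bound x
    filter_upwards [eventually_ge_atTop L] with m hm
    have : (x * y m).a = x.a := by
      ext j
      rw [y_a]
      split_ifs with hj
      · rw [kap_zero fun i hi => (hL i (by omega)).1]; simp
      · rfl
    simp only [ν, this])
  obtain ⟨m, ⟨hm1, hm2⟩, hm3⟩ := ((C2.and (U_le (eventually_ge_atTop K))).and
    (U_le (eventually_ge_atTop n))).exists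
  obtain ⟨g1, g2, g3⟩ := hγ m (by omega)
  have C3 : γ m = 0 := by
    by_contra hne
    have hz : ((γ m : ℤ) : ZMod (m + 1)) ≠ 0 := by
      rw [Ne, ZMod.intCast_zmod_eq_zero_iff_dvd]
      intro hd
      have := Int.le_of_dvd (by omega) hd
      push_cast at this
      omega
    obtain ⟨x, ⟨x1, x2⟩, x3⟩ := ((hm1.and g3).and (hα m)).exists
    have e1 : (x * y m).a m = α m + γ m := by rw [y_a, if_pos rfl, x2, x3]
    have e2 : ∀ i, i ≠ m → (x * y m).a i = x.a i := fun i hi => by rw [y_a, if_neg hi]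
    by_cases h0 : α m + γ m = 0
    · have ht : t m = α m := if_pos h0
      have : ν x = ν (x * y m) + 1 := by
        apply ncard_flip (νfin _) m
        · intro i hi; rw [e2 i hi]
        · refine ⟨?_, by rw [ht, x3]⟩
          rw [x3]
          intro h1
          rw [h1, zero_add] at h0
          exact hz h0
        · rw [e1, h0]; simp
      rw [this] at x1
      exact ne_succ _ x1
    · have ht : t m = α m + γ m := if_neg h0
      have : ν (x * y m) = ν x + 1 := by
        apply ncard_flip (νfin _) m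
        · intro i hi; rw [e2 i hi]
        · rw [e1, ht]; exact ⟨h0, rfl⟩
        · rw [x3, ht]
          intro h1
          exact hz (by simpa using h1.2)
      rw [this] at x1
      exact ne_succ _ x1.symm
  have C : ∀ᶠ x : G in u, ∀ j, m + 1 ≤ j → x.c j = 0 := by
    filter_upwards [A, g3] with x h1 h2
    exact zero_of_kap (fun j hj => h1 j (by omega)) (h2.trans C3)
  -- Step D
  obtain ⟨enc, henc⟩ := exists_injective_nat G
  let tr : G → G := fun z => ⟨z.a, z.c.filter fun j => j < m + 1⟩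
  have D1 := transfer h (fun z => ∃ j, z.c j ≠ 0 ∧ enc (tr z) < j ∧ m + 1 ≤ j) (fun _ => True) (by
    intro x
    obtain ⟨L, hL⟩ := exists_bound x
    filter_upwards [eventually_ge_atTop L, eventually_gt_atTop (enc (tr x)),
      eventually_ge_atTop (m + 1)] with l h1 h2 h3
    have e : tr (x * y l) = tr x := by
      ext j
      · simp only [tr]
        rw [y_a]
        split_ifs with hj
        · rw [kap_zero fun i hi => (hL i (by omega)).1]; simp
        · rfl
      · simp only [tr, Finsupp.filter_apply]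
        split_ifs with hj
        · rw [y_c, if_neg (by omega)]
        · rfl
    refine eq_true ⟨l, ?_, by rw [e]; exact h2, h3⟩
    rw [y_c, if_pos rfl, (hL l h1).1]; simp)
  obtain ⟨l, l1, l2⟩ := (D1.and (U_le (eventually_ge_atTop (m + 1)))).exists
  have D : {x | enc x < l} ∈ u := by
    filter_upwards [l1, C] with x h1 h2
    obtain ⟨j, j1, j2, j3⟩ := of_eq_true h1
    have e : tr (x * y l) = x := by
      ext i
      · simp only [tr]
        rw [y_a]
        split_ifs with hj
        · rw [kap_zero fun k hk => h2 k (by omega)]; simp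
        · rfl
      · simp only [tr, Finsupp.filter_apply]
        split_ifs with hj
        · rw [y_c, if_neg (by omega)]
        · exact (h2 i (by omega)).symm
    rw [e] at j2
    have : j = l := by
      by_contra hne
      rw [y_c, if_neg hne] at j1
      exact j1 (h2 j j3)
    exact this ▸ j2
  have hfin : {x | enc x < l}.Finite := (Set.finite_lt_nat l).preimage henc.injOn
  obtain ⟨x, -, hx⟩ := Ultrafilter.eq_pure_of_finite_mem hfin D
  exact hu x hx

end Pool.Agent.H27.DTC
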