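import Mathlib

namespace Pool.Agent.H27.DelA
open Finset

theorem ch1 (n k : ℕ) : ((k : ℤ) + 1) * (n.choose (k + 1) : ℤ) = ((n : ℤ) - k) * n.choose k := by
  rcases le_or_gt k n with h | h
  · have := congrArg (Nat.cast : ℕ → ℤ) (Nat.choose_succ_right_eq n k)
    push_cast [Nat.cast_sub h] at this
    linear_combination this
  · simp [Nat.choose_eq_zero_of_lt h, Nat.choose_eq_zero_of_lt (Nat.lt_succ_of_lt h)]

theorem ch2 (n k : ℕ) :
    ((k : ℤ) + 1) * ((n + 1).choose (k + 1) : ℤ) = ((n : ℤ) + 1) * n.choose k := by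
  have := congrArg (Nat.cast : ℕ → ℤ) (Nat.add_one_mul_choose_eq n k)
  push_cast at this
  linear_combination -this

theorem ch3 (n k : ℕ) :
    ((n : ℤ) + 1) * (n.choose k : ℤ) = ((n : ℤ) + 1 - k) * (n + 1).choose k := by
  have h1 := ch1 (n + 1) k
  have h2 := ch2 n k
  push_cast at h1
  linear_combination h1 - h2

def phi (s k : ℕ) : ℤ := (k.choose s : ℤ) * ((k + s).choose s : ℤ)

def cc (i j s : ℕ) : ℤ := ((i + j).choose s : ℤ) * (s.choose i : ℤ) * (s.choose j : ℤ)

theorem phi_zero {s k : ℕ} (h : k < s) : phi s k = 0 := by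
  simp [phi, Nat.choose_eq_zero_of_lt h]

theorem phi_succ (s k : ℕ) :
    ((s : ℤ) + 1) ^ 2 * phi (s + 1) k = ((k : ℤ) * (k + 1) - s * (s + 1)) * phi s k := by
  have h1 := ch1 k s
  have h2 := ch2 (k + s) s
  unfold phi
  rw [← add_assoc]
  push_cast at h2
  linear_combination (((s : ℤ) + 1) * ((k + s + 1).choose (s + 1) : ℤ)) * h1
    + (((k : ℤ) - s) * (k.choose s : ℤ)) * h2

theorem cc_succ (i j s : ℕ) :
    ((i : ℤ) + 1) ^ 2 * cc (i + 1) j (s + 1) = ((s : ℤ) + 1) ^ 2 * cc i j s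
      + (((s : ℤ) + 1) * (s + 2) - i * (i + 1)) * cc i j (s + 1) := by
  unfold cc
  have h1 := ch1 (s + 1) i
  have h2 := ch3 s i
  have h3 := ch3 s j
  have h4 := ch1 (i + j) s
  have h5 : ((i + 1 + j).choose (s + 1) : ℤ) = (i + j).choose s + (i + j).choose (s + 1) := by
    rw [show i + 1 + j = (i + j) + 1 by ring, Nat.choose_succ_succ]; push_cast; ring
  rw [h5]
  push_cast at h1 h4
  set a : ℤ := ((i + j).choose s : ℤ)
  set b : ℤ := ((i + j).choose (s + 1) : ℤ)
  set u : ℤ := ((s + 1).choose i : ℤ)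
  set v : ℤ := ((s + 1).choose j : ℤ)
  linear_combination (((i : ℤ) + 1) * (a + b) * v) * h1
    - (a * ((s : ℤ) + 1) * (s.choose j : ℤ)) * h2 - (a * ((s : ℤ) + 1 - i) * u) * h3
    - (((s : ℤ) + 1 - i) * u * v) * h4

theorem cc_zero_succ (i j : ℕ) : cc (i + 1) j 0 = 0 := by simp [cc]

theorem phi_mul (k M : ℕ) (hM : k < M) (i j : ℕ) :
    phi i k * phi j k = ∑ s ∈ range M, cc i j s * phi s k := by
  induction i with
  | zero =>
    rw [Finset.sum_eq_single j]
    · simp [cc, phi]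
    · intro s _ hs
      rcases lt_or_gt_of_ne hs with h | h
      · simp [cc, Nat.choose_eq_zero_of_lt h]
      · simp [cc, Nat.choose_eq_zero_of_lt h]
    · intro h
      rw [phi_zero (k := k) (s := j) (by simp at h; omega), mul_zero]
  | succ i ih =>
    have hne : ((i : ℤ) + 1) ^ 2 ≠ 0 := by positivity
    apply mul_left_cancel₀ hne
    rw [← mul_assoc, phi_succ, mul_assoc, ih]
    obtain ⟨m, rfl⟩ : ∃ m, M = m + 1 := ⟨M - 1, by omega⟩
    have e1 : ((k : ℤ) * (k + 1) - i * (i + 1)) * ∑ s ∈ range (m + 1), cc i j s * phi s k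
        = ∑ s ∈ range (m + 1), ((s : ℤ) + 1) ^ 2 * cc i j s * phi (s + 1) k
          + ∑ s ∈ range (m + 1), ((s : ℤ) * (s + 1) - i * (i + 1)) * cc i j s * phi s k := by
      rw [Finset.mul_sum, ← Finset.sum_add_distrib]
      refine Finset.sum_congr rfl fun s _ => ?_
      linear_combination (-cc i j s) * phi_succ s k
    rw [e1, Finset.sum_range_succ, phi_zero hM, Finset.sum_range_succ' _ m,
      Finset.sum_range_succ' _ m, cc_zero_succ, zero_mul, add_zero, mul_zero, add_zero,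
      Finset.mul_sum, ← add_assoc, ← Finset.sum_add_distrib]
    have e2 : (((0 : ℕ) : ℤ) * ((0 : ℕ) + 1) - i * (i + 1)) * cc i j 0 * phi 0 k = 0 := by
      rcases i with _ | i
      · simp
      · rw [cc_zero_succ]; simp
    rw [e2, add_zero]
    refine Finset.sum_congr rfl fun s _ => ?_
    push_cast
    linear_combination (-phi (s + 1) k) * cc_succ i j s

open Polynomial in
theorem cc_sum (x : ℤ) (s M : ℕ) (h : s < M) :
    ∑ i ∈ range M, ∑ j ∈ range M, cc i j s * x ^ (i + j)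
      = ((2 * s).choose s : ℤ) * (x ^ 2 + x) ^ s := by
  have e1 : (C x * (1 + X) + 1 : ℤ[X]) ^ s
      = ∑ i ∈ range M, (C x * (1 + X)) ^ i * (s.choose i : ℤ[X]) := by
    rw [add_pow]
    simp only [one_pow, mul_one]
    refine Finset.sum_subset (range_subset_range.mpr h) fun i _ hi => ?_
    rw [Nat.choose_eq_zero_of_lt (by simpa using hi)]; simp
  have e2 : ((C x * (1 + X) + 1 : ℤ[X]) ^ s * (C x * (1 + X) + 1 : ℤ[X]) ^ s).coeff s
      = ∑ i ∈ range M, ∑ j ∈ range M, cc i j s * x ^ (i + j) := by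
    rw [e1, Finset.sum_mul_sum, finsetSum_coeff]
    refine Finset.sum_congr rfl fun i _ => ?_
    rw [finsetSum_coeff]
    refine Finset.sum_congr rfl fun j _ => ?_
    have : (C x * (1 + X)) ^ i * (s.choose i : ℤ[X]) * ((C x * (1 + X)) ^ j * (s.choose j : ℤ[X]))
        = C (x ^ (i + j) * s.choose i * s.choose j) * (1 + X) ^ (i + j) := by
      simp only [map_mul, map_pow, map_natCast, mul_pow]; ring
    rw [this, coeff_C_mul, coeff_one_add_X_pow, cc]; ring
  have e3 : (C x * (1 + X) + 1 : ℤ[X]) ^ s * (C x * (1 + X) + 1 : ℤ[X]) ^ s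
      = ((X + C (x + 1)) ^ (2 * s)).comp (C x * X) := by
    simp only [pow_comp, add_comp, X_comp, C_comp, map_add, map_one, one_comp]; ring
  rw [← e2, e3, comp_C_mul_X_coeff, coeff_X_add_C_pow, show 2 * s - s = s by omega,
    show x ^ 2 + x = (x + 1) * x by ring, mul_pow]
  ring

theorem alt_sum (s m : ℕ) :
    ∑ k ∈ range (m + 1), (-1) ^ k * (2 * (k : ℤ) + 1) * phi s k
      = (-1) ^ m * ((m : ℤ) + 1) * ((m.choose s : ℤ) * ((m + 1 + s).choose s : ℤ)) := by
  induction m with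
  | zero =>
    rcases s with _ | s
    · simp [phi]
    · simp [phi]
  | succ m ih =>
    rw [Finset.sum_range_succ, ih, phi]
    have h1 := ch3 m s
    have h2 := ch3 (m + 1 + s) s
    rw [show m + 1 + 1 + s = m + 1 + s + 1 by ring]
    push_cast at h2 ⊢
    linear_combination ((-1) ^ m * ((m + 1 + s).choose s : ℤ)) * h1
      - ((-1) ^ m * ((m + 1).choose s : ℤ)) * h2

theorem psi_mod (m : ℕ) (hp : (m + 1).Prime) : ∀ s ≤ m,
    ((m : ℤ) + 1) ^ 2 ∣ (m.choose s : ℤ) * ((m + 1 + s).choose s : ℤ) - (-1) ^ s := by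
  intro s
  induction s with
  | zero => simp
  | succ s ih =>
    intro hs
    have ih' := ih (by omega)
    have h1 := ch1 m s
    have h2 := ch2 (m + 1 + s) s
    have hc : IsCoprime (((m : ℤ) + 1) ^ 2) (((s : ℤ) + 1) ^ 2) := by
      apply IsCoprime.pow
      have : Nat.Coprime (m + 1) (s + 1) :=
        (Nat.Prime.coprime_iff_not_dvd hp).mpr (Nat.not_dvd_of_pos_of_lt (by omega) (by omega))
      exact_mod_cast Nat.isCoprime_iff_coprime.mpr this
    have h3 : ((m : ℤ) + 1) ^ 2 ∣ (m.choose (s + 1) : ℤ) * ((m + 1 + s + 1).choose (s + 1) : ℤ)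
        + (m.choose s : ℤ) * ((m + 1 + s).choose s : ℤ) := by
      apply hc.dvd_of_dvd_mul_left
      refine ⟨(m.choose s : ℤ) * ((m + 1 + s).choose s : ℤ), ?_⟩
      push_cast at h2
      linear_combination (((s : ℤ) + 1) * ((m + 1 + s + 1).choose (s + 1) : ℤ)) * h1
        + (((m : ℤ) - s) * (m.choose s : ℤ)) * h2
    have := dvd_sub h3 ih'
    obtain ⟨c, hc⟩ := this
    exact ⟨c, by rw [← add_assoc]; linear_combination hc⟩

open Polynomial in
theorem tau_full (i j M : ℕ) (h : i + j < M) :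
    ∑ s ∈ range M, (-1) ^ s * cc i j s = (-1) ^ (i + j) * ((i + j).choose i : ℤ) := by
  have e1 : ∑ s ∈ range M, (-1) ^ s * cc i j s = ∑ s ∈ Ico i (i + j + 1), (-1) ^ s * cc i j s := by
    symm
    refine Finset.sum_subset (fun s hs => by simp at hs ⊢; omega) fun s _ hs => ?_
    simp only [mem_Ico, not_and_or, not_le, not_lt] at hs
    rcases hs with hs | hs
    · simp [cc, Nat.choose_eq_zero_of_lt hs]
    · simp [cc, Nat.choose_eq_zero_of_lt (show i + j < s by omega)]
  rw [e1, Finset.sum_Ico_eq_sum_range, show i + j + 1 - i = j + 1 by omega]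
  have e2 : ((1 + X : ℤ[X]) ^ i * (-(1 + X) + 1) ^ j).coeff j
      = ∑ t ∈ range (j + 1), (-1) ^ t * (j.choose t : ℤ) * ((i + t).choose j : ℤ) := by
    rw [add_pow (-(1 + X) : ℤ[X]), Finset.mul_sum, finsetSum_coeff]
    refine Finset.sum_congr rfl fun t _ => ?_
    have : (1 + X : ℤ[X]) ^ i * ((-(1 + X)) ^ t * 1 ^ (j - t) * (j.choose t : ℤ[X]))
        = C ((-1) ^ t * (j.choose t : ℤ)) * (1 + X) ^ (i + t) := by
      simp only [map_mul, map_pow, map_natCast, map_neg, map_one]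
      rw [neg_pow]; ring
    rw [this, coeff_C_mul, coeff_one_add_X_pow]
  have e3 : ((1 + X : ℤ[X]) ^ i * (-(1 + X) + 1) ^ j).coeff j = (-1) ^ j := by
    have : (1 + X : ℤ[X]) ^ i * (-(1 + X) + 1) ^ j = C ((-1) ^ j) * (1 + X) ^ i * X ^ j := by
      simp only [map_pow, map_neg, map_one]
      rw [show (-(1 + X) + 1 : ℤ[X]) = -X by ring, neg_pow]; ring
    rw [this]
    have := coeff_mul_X_pow (C ((-1 : ℤ) ^ j) * (1 + X) ^ i) j 0
    rw [zero_add] at this
    rw [this, coeff_C_mul, coeff_one_add_X_pow]; simp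
  rw [pow_add, ← e3, e2, Finset.mul_sum, Finset.sum_mul]
  refine Finset.sum_congr rfl fun t ht => ?_
  have := congrArg (Nat.cast : ℕ → ℤ)
    (Nat.choose_mul (n := i + j) (k := i + t) (s := i) (by omega))
  rw [Nat.add_sub_cancel_left, Nat.add_sub_cancel_left] at this
  push_cast at this
  rw [cc, this]; ring

theorem tau_big (p i j : ℕ) (hp : p.Prime) (hi : i < p) (hj : j < p) (h : p ≤ i + j) :
    (p : ℤ) ^ 2 ∣ ((2 * i).choose i : ℤ) * ((2 * j).choose j : ℤ) *
      ∑ s ∈ range p, (-1) ^ s * cc i j s := by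
  rw [pow_two]
  apply mul_dvd_mul
  · rcases le_or_gt p (2 * i) with h1 | h1
    · exact Dvd.dvd.mul_right (Int.natCast_dvd_natCast.mpr (hp.dvd_choose hi (by omega) h1)) _
    · exact Dvd.dvd.mul_left
        (Int.natCast_dvd_natCast.mpr (hp.dvd_choose hj (by omega) (by omega))) _
  · refine Finset.dvd_sum fun s hs => Dvd.dvd.mul_left ?_ _
    have hs' := mem_range.mp hs
    rcases lt_or_ge s i with h1 | h1
    · simp [cc, Nat.choose_eq_zero_of_lt h1]
    · unfold cc
      exact ((Int.natCast_dvd_natCast.mpr (hp.dvd_choose hs' (by omega) h)).mul_right _).mul_right _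

end Pool.Agent.H27.DelA
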