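import Mathlib
import Pool.Agent.H27.DelA

namespace Pool.Agent.H27.DelB
open Finset PowerSeries

/-- central binomial coefficient as a rational -/
def d (k : ℕ) : ℚ := ((2 * k).choose k : ℚ)

theorem d_succ (k : ℕ) : ((k : ℚ) + 1) * d (k + 1) = 2 * (2 * k + 1) * d k := by
  have h1 := congrArg (Nat.cast : ℕ → ℚ) (Nat.succ_mul_centralBinom_succ k)
  rw [Nat.centralBinom_eq_two_mul_choose, Nat.centralBinom_eq_two_mul_choose] at h1
  push_cast at h1
  exact h1

noncomputable def th (f : ℚ⟦X⟧) : ℚ⟦X⟧ := X * d⁄dX ℚ f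

theorem coeff_th (f : ℚ⟦X⟧) (n : ℕ) : coeff n (th f) = n * coeff n f := by
  rcases n with _ | n
  · simp [th]
  · rw [th, coeff_succ_X_mul, coeff_derivative]; push_cast; ring

theorem th_mul (f g : ℚ⟦X⟧) : th (f * g) = th f * g + f * th g := by
  simp only [th, Derivation.leibniz, smul_eq_mul]; ring

theorem th_add (f g : ℚ⟦X⟧) : th (f + g) = th f + th g := by
  simp only [th, map_add]; ring

theorem th_sub (f g : ℚ⟦X⟧) : th (f - g) = th f - th g := by
  simp only [th, map_sub]; ring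

theorem th_X : th X = X := by simp [th]

theorem th_C (c : ℚ) : th (C c) = 0 := by simp [th]

theorem th_nat (n : ℕ) : th (n : ℚ⟦X⟧) = 0 := by
  rw [← map_natCast (C (R := ℚ)), th_C]

theorem th_ofNat (n : ℕ) [n.AtLeastTwo] : th (ofNat(n) : ℚ⟦X⟧) = 0 := th_nat _

theorem th_one : th 1 = 0 := by simp [th]

theorem th_zero : th 0 = 0 := by simp [th]

theorem th_pow (f : ℚ⟦X⟧) (k : ℕ) : th (f ^ (k + 1)) = ((k : ℚ⟦X⟧) + 1) * f ^ k * th f := by
  induction k with
  | zero => simp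
  | succ k ih => rw [pow_succ, th_mul, ih]; push_cast; ring

noncomputable def E : ℚ⟦X⟧ := mk fun i => d i / i.factorial

theorem E_ode : th (th E) = X * (4 * th E + 2 * E) := by
  ext n
  rcases n with _ | n
  · simp [coeff_th]
  · rw [coeff_succ_X_mul, coeff_th, coeff_th]
    have h4 : (4 : ℚ⟦X⟧) = C 4 := rfl
    have h2 : (2 : ℚ⟦X⟧) = C 2 := rfl
    rw [map_add, h4, h2, coeff_C_mul, coeff_C_mul, coeff_th]
    simp only [E, coeff_mk, Nat.factorial_succ]
    have := d_succ n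
    have hf : (n.factorial : ℚ) ≠ 0 := by positivity
    push_cast
    field_simp
    linear_combination this

theorem W_ode : th (th (th (E * E)))
    = X * (12 * th (th (E * E)) + 12 * th (E * E) + 4 * (E * E))
      - X ^ 2 * (32 * th (E * E) + 32 * (E * E)) := by
  simp only [th_mul, th_add, E_ode, th_X, th_ofNat]
  ring

def a (N : ℕ) : ℚ := ∑ ij ∈ antidiagonal N, ((ij.1 + ij.2).choose ij.1 : ℚ) * d ij.1 * d ij.2

theorem a_eq (N : ℕ) : a N = N.factorial * coeff N (E * E) := by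
  rw [a, coeff_mul, Finset.mul_sum]
  refine Finset.sum_congr rfl fun ij h => ?_
  rw [← mem_antidiagonal.mp h]
  simp only [E, coeff_mk]
  have h1 := congrArg (Nat.cast : ℕ → ℚ) (Nat.add_choose_mul_factorial_mul_factorial ij.2 ij.1)
  have h2 : (ij.1.factorial : ℚ) ≠ 0 := by positivity
  have h3 : (ij.2.factorial : ℚ) ≠ 0 := by positivity
  rw [add_comm ij.2 ij.1] at h1
  push_cast at h1
  rw [← h1]
  field_simp

theorem cN (c : ℕ) [c.AtLeastTwo] (f : ℚ⟦X⟧) (n : ℕ) :
    coeff n ((ofNat(c) : ℚ⟦X⟧) * f) = (ofNat(c) : ℚ) * coeff n f := by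
  have : (ofNat(c) : ℚ⟦X⟧) = C (ofNat(c) : ℚ) := rfl
  rw [this, coeff_C_mul]

theorem a_rec (n : ℕ) : ((n : ℚ) + 2) ^ 2 * a (n + 2)
    = (12 * (n + 1) ^ 2 + 12 * (n + 1) + 4) * a (n + 1) - 32 * (n + 1) ^ 2 * a n := by
  have h := congrArg (coeff (n + 2)) W_ode
  rw [map_sub, coeff_succ_X_mul, coeff_X_pow_mul] at h
  simp only [map_add, cN, coeff_th] at h
  simp only [a_eq, Nat.factorial_succ]
  push_cast at h ⊢
  linear_combination ((n : ℚ) + 1) * (n.factorial : ℚ) * h

noncomputable def Z : ℚ⟦X⟧ := X * (1 - 4 * X)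

theorem th_Z : th Z = X * (1 - 8 * X) := by
  simp only [Z, th_mul, th_sub, th_X, th_ofNat, th_one]; ring

noncomputable def L (f : ℚ⟦X⟧) : ℚ⟦X⟧ :=
  th (th f) - X * (12 * th (th f) + 12 * th f + 4 * f) + X ^ 2 * (32 * th (th f) + 64 * th f + 32 * f)

theorem L_add (f g : ℚ⟦X⟧) : L (f + g) = L f + L g := by
  simp only [L, th_add]; ring

theorem L_pow (c : ℚ) (k : ℕ) : L (C c * Z ^ (k + 1)) = C c * (X * (1 - 8 * X)) *
    (((k : ℚ⟦X⟧) + 1) ^ 2 * Z ^ k - 4 * (2 * (k : ℚ⟦X⟧) + 3) ^ 2 * Z ^ (k + 1)) := by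
  rcases k with _ | k
  · simp only [L, zero_add, pow_one, th_mul, th_C, th_Z, th_sub, th_add, th_X, th_ofNat, th_one,
      th_zero]
    simp only [Z]; push_cast; ring
  · simp only [L, th_pow, th_mul, th_C, th_Z, th_sub, th_add, th_X, th_ofNat, th_one, th_nat,
      th_zero]
    simp only [pow_succ]
    generalize Z ^ k = T
    simp only [Z]; push_cast; ring

noncomputable def H (M : ℕ) : ℚ⟦X⟧ := ∑ k ∈ range (M + 1), C (d k ^ 2) * Z ^ k

theorem L_H (M : ℕ) : L (H M) = -(X * (1 - 8 * X)) * (C (4 * (2 * M + 1) ^ 2 * d M ^ 2) * Z ^ M) := by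
  induction M with
  | zero =>
    have h4 : (C (4 : ℚ) : ℚ⟦X⟧) = 4 := rfl
    simp [H, L, d, th_one, th_zero, h4]; ring
  | succ M ih =>
    rw [H, Finset.sum_range_succ, ← H, L_add, ih, L_pow]
    have h : ((M : ℚ) + 1) ^ 2 * d (M + 1) ^ 2 = 4 * (2 * M + 1) ^ 2 * d M ^ 2 := by
      rw [← mul_pow, d_succ]; ring
    have h' := congrArg (C (R := ℚ)) h
    simp only [map_mul, map_pow, map_add, map_natCast, map_one, map_ofNat] at h' ⊢
    push_cast
    linear_combination (X * (1 - 8 * X) * Z ^ M) * h'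

theorem coeff_H (M : ℕ) : ∀ N ≤ M, coeff N (H M) = a N := by
  have hz : ∀ n ≤ M, coeff n (L (H M)) = 0 := by
    intro n hn
    have : L (H M) = X ^ (M + 1) * (-(1 - 8 * X) * (C (4 * (2 * M + 1) ^ 2 * d M ^ 2)
        * (1 - 4 * X) ^ M)) := by rw [L_H, Z, mul_pow]; ring
    rw [this, coeff_X_pow_mul', if_neg (by omega)]
  have h0 : coeff 0 (H M) = 1 := by
    rw [H, map_sum, Finset.sum_eq_single 0]
    · simp [d]
    · intro k _ hk; simp [Z, hk]
    · simp
  intro N
  induction N using Nat.twoStepInduction with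
  | zero => intro _; rw [h0]; simp [a, d]
  | one =>
    intro h
    have h1 := hz 1 h
    rw [L, map_add, map_sub, coeff_succ_X_mul, coeff_X_pow_mul', if_neg (by omega)] at h1
    simp only [map_add, cN, coeff_th, h0] at h1
    have : a 1 = 4 := by
      rw [a, Finset.Nat.sum_antidiagonal_succ]; simp [d]; norm_num
    rw [this]; push_cast at h1; linarith
  | more n ih1 ih2 =>
    intro h
    have h1 := hz (n + 2) h
    rw [L, map_add, map_sub, coeff_succ_X_mul, coeff_X_pow_mul] at h1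
    simp only [map_add, cN, coeff_th, ih1 (by omega), ih2 (by omega)] at h1
    have hne : ((n : ℚ) + 2) ^ 2 ≠ 0 := by positivity
    apply mul_left_cancel₀ hne
    rw [a_rec]
    push_cast at h1
    linear_combination h1

end Pool.Agent.H27.DelB
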