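import Mathlib
import Pool.Agent.H27.DelA

namespace Pool.Agent.H27.DelC
open Finset Pool.Agent.H27.DelA

variable {R : Type*} [CommRing R]

def psi (m s : ℕ) : ℤ := (m.choose s : ℤ) * ((m + 1 + s).choose s : ℤ)

def conv (M : ℕ) (u v : ℕ → R) (s : ℕ) : R :=
  ∑ i ∈ range M, ∑ j ∈ range M, (cc i j s : R) * (u i * v j)

theorem mul_expand (k M : ℕ) (h : k < M) (u v : ℕ → R) :
    (∑ i ∈ range M, (phi i k : R) * u i) * (∑ i ∈ range M, (phi i k : R) * v i)
      = ∑ s ∈ range M, (phi s k : R) * conv M u v s := by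
  rw [Finset.sum_mul_sum]
  simp only [conv, Finset.mul_sum]
  rw [Finset.sum_comm (s := range M) (t := range M)
    (f := fun s i => ∑ j ∈ range M, (phi s k : R) * ((cc i j s : R) * (u i * v j)))]
  refine Finset.sum_congr rfl fun i _ => ?_
  rw [Finset.sum_comm]
  refine Finset.sum_congr rfl fun j _ => ?_
  have := congrArg (Int.cast : ℤ → R) (phi_mul k M h i j)
  push_cast at this
  rw [show (phi i k : R) * u i * (phi j k * v j) = phi i k * phi j k * (u i * v j) by ring,
    this, Finset.sum_mul]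
  refine Finset.sum_congr rfl fun s _ => by ring

theorem alt_expand (m : ℕ) (w : ℕ → R) :
    ∑ k ∈ range (m + 1), (2 * (k : R) + 1) * (-1) ^ k * ∑ s ∈ range (m + 1), (phi s k : R) * w s
      = ((m : R) + 1) * ((-1) ^ m * ∑ s ∈ range (m + 1), (psi m s : R) * w s) := by
  simp only [Finset.mul_sum]
  rw [Finset.sum_comm]
  refine Finset.sum_congr rfl fun s _ => ?_
  have := congrArg (Int.cast : ℤ → R) (alt_sum s m)
  push_cast at this
  have e : ∑ k ∈ range (m + 1), (2 * (k : R) + 1) * (-1) ^ k * ((phi s k : R) * w s)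
      = (∑ k ∈ range (m + 1), (-1) ^ k * (2 * (k : R) + 1) * (phi s k : R)) * w s := by
    rw [Finset.sum_mul]; exact Finset.sum_congr rfl fun k _ => by ring
  rw [e, this, psi]; push_cast; ring

theorem psi_add (m s : ℕ) : ((s : ℤ) + 1) * (psi m s + psi m (s + 1))
    = ((m : ℤ) + 1) * (((m + 1).choose (s + 1) : ℤ) * ((m + 1 + s).choose s : ℤ)) := by
  have h1 := ch1 m s
  have h2 := ch2 (m + 1 + s) s
  have h3 := ch2 m s
  have hne : ((s : ℤ) + 1) ≠ 0 := by positivity
  apply mul_left_cancel₀ hne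
  unfold psi
  rw [← add_assoc (m + 1) s 1]
  push_cast at h2
  linear_combination (((s : ℤ) + 1) * ((m + 1 + s + 1).choose (s + 1) : ℤ)) * h1
    + (((m : ℤ) - s) * (m.choose s : ℤ)) * h2
    - (((m : ℤ) + 1) * ((m + 1 + s).choose s : ℤ)) * h3

/-- coefficient polynomial for the Apery polynomials -/
def fr (M : ℕ) (x : R) (s : ℕ) : R := ∑ i ∈ range M, (cc i i s : R) * x ^ i

def kk (s i : ℕ) : ℤ :=
  (s.choose i : ℤ) ^ 2 * (4 * ((2 * i).choose (s + 1) : ℤ) - ((2 * i + 1).choose (s + 1) : ℤ))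

def KK (M : ℕ) (x : R) (s : ℕ) : R := ∑ i ∈ range M, (kk s i : R) * x ^ i

def vv (j i : ℕ) : ℤ := 2 * ((j + 1).choose i : ℤ) * (((j + 1).choose i : ℤ) - j.choose i)
  * ((j : ℤ) + 1 - 2 * i) * ((2 * i).choose (j + 1) : ℤ)

theorem wz (j i : ℕ) : 4 * (cc i i (j + 1) + ((j : ℤ) + 2) * kk (j + 1) i
    + ((j : ℤ) + 1) * kk j i + vv j i) = vv j (i + 1) := by
  unfold cc kk vv
  have h1 := ch3 j i
  have h2 := ch1 (j + 1) i
  have h3 := ch1 (2 * i) (j + 1)
  have h4 := ch2 (2 * i) (j + 1)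
  have h5 := ch3 (2 * i + 1) (j + 1)
  have h6 : ((j + 1).choose (i + 1) : ℤ) = j.choose i + j.choose (i + 1) := by
    rw [Nat.choose_succ_succ]; push_cast; ring
  rw [show 2 * (i + 1) = 2 * i + 1 + 1 by ring, ← two_mul i]
  push_cast at h2 h3 h4 h5 ⊢
  set A : ℤ := ((j + 1).choose i : ℤ)
  set P : ℤ := (j.choose i : ℤ)
  set B : ℤ := ((2 * i).choose (j + 1) : ℤ)
  set E : ℤ := ((2 * i + 1).choose (j + 1) : ℤ)
  set A1 : ℤ := ((j + 1).choose (i + 1) : ℤ)
  have h7 : A1 - (j.choose (i + 1) : ℤ) = P := by rw [h6]; ring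
  rw [h7]
  linear_combination (16 * A ^ 2) * h3 - (4 * A ^ 2) * h4 - (2 * A1 * P) * h5
    + (4 * P * E) * h2 + (8 * A * B + 16 * B * P - 4 * P * E) * h1

theorem KK_step (M : ℕ) (x : R) (hx : 4 * x = 1) (j : ℕ) (hj : j + 1 < M) :
    fr M x (j + 1) + ((j : R) + 2) * KK M x (j + 1) + ((j : R) + 1) * KK M x j = 0 := by
  have e : ∀ i, (cc i i (j + 1) : R) * x ^ i + ((j : R) + 2) * ((kk (j + 1) i : R) * x ^ i)
      + ((j : R) + 1) * ((kk j i : R) * x ^ i)
        = (vv j (i + 1) : R) * x ^ (i + 1) - (vv j i : R) * x ^ i := by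
    intro i
    have := congrArg (Int.cast : ℤ → R) (wz j i)
    push_cast at this
    linear_combination x ^ (i + 1) * this - (x ^ i * ((cc i i (j + 1) : R)
      + ((j : R) + 2) * kk (j + 1) i + ((j : R) + 1) * kk j i + vv j i)) * hx
  rw [fr, KK, KK, Finset.mul_sum, Finset.mul_sum, ← Finset.sum_add_distrib,
    ← Finset.sum_add_distrib, Finset.sum_congr rfl fun i _ => e i,
    Finset.sum_range_sub (fun i => (vv j i : R) * x ^ i)]
  simp [vv, Nat.choose_eq_zero_of_lt hj]

theorem apery_zero (m : ℕ) (x : R) (hx : 4 * x = 1) (hm : (m : R) + 1 = 0) :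
    ∑ s ∈ range (m + 1), (psi m s : R) * fr (m + 1) x s = 0 := by
  have key : ∀ t ≤ m, ∑ s ∈ range (t + 1), (psi m s : R) * fr (m + 1) x s
      = -((psi m t : R) * ((t : R) + 1) * KK (m + 1) x t) := by
    intro t
    induction t with
    | zero =>
      intro _
      simp only [zero_add, range_one, sum_singleton, fr, KK, Finset.sum_range_succ']
      simp [cc, kk]
    | succ t ih =>
      intro ht
      have h1 := KK_step (m + 1) x hx t (by omega)
      have h2 := congrArg (Int.cast : ℤ → R) (psi_add m t)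
      push_cast at h2
      rw [hm, zero_mul] at h2
      rw [Finset.sum_range_succ, ih (by omega)]
      push_cast
      linear_combination (psi m (t + 1) : R) * h1 - KK (m + 1) x t * h2
  rw [key m le_rfl, hm]; simp

theorem phi_step (s k : ℕ) :
    ((k : ℤ) + 1 - s) * phi s (k + 1) = ((k : ℤ) + 1 + s) * phi s k := by
  have h1 := ch3 k s
  have h2 := ch3 (k + s) s
  unfold phi
  rw [show k + 1 + s = k + s + 1 by ring]
  push_cast at h2
  linear_combination (-((k + s + 1).choose s : ℤ)) * h1 - (k.choose s : ℤ) * h2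

theorem phi_rec (i k : ℕ) : ((k : ℤ) + 2) * phi (i + 1) (k + 2) + ((k : ℤ) + 1) * phi (i + 1) k
    = (2 * k + 3) * (phi (i + 1) (k + 1) + 2 * phi i (k + 1)) := by
  have hne : ((i : ℤ) + 1) ^ 2 ≠ 0 := by positivity
  apply mul_left_cancel₀ hne
  have h1 := phi_succ i (k + 2)
  have h2 := phi_succ i (k + 1)
  have h3 := phi_succ i k
  have h4 := phi_step i (k + 1)
  have h5 := phi_step i k
  push_cast at h1 h2 h4
  linear_combination ((k : ℤ) + 2) * h1 + ((k : ℤ) + 1) * h3 - (2 * (k : ℤ) + 3) * h2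
    + (((k : ℤ) + 2) * (k + 3 + i)) * h4 - (((k : ℤ) + 1) * (k - i)) * h5

def DD (M : ℕ) (x : R) (k : ℕ) : R := ∑ i ∈ range M, (phi i k : R) * x ^ i

theorem DD_rec (M : ℕ) (x : R) (k : ℕ) (h : k + 2 < M) :
    ((k : R) + 2) * DD M x (k + 2) + ((k : R) + 1) * DD M x k
      = (2 * k + 3) * (1 + 2 * x) * DD M x (k + 1) := by
  obtain ⟨m, rfl⟩ : ∃ m, M = m + 1 := ⟨M - 1, by omega⟩
  have e : x * DD (m + 1) x (k + 1) = ∑ i ∈ range m, (phi i (k + 1) : R) * x ^ (i + 1) := by
    rw [DD, Finset.sum_range_succ, phi_zero (show k + 1 < m by omega)]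
    simp only [Int.cast_zero, zero_mul, add_zero, Finset.mul_sum]
    exact Finset.sum_congr rfl fun i _ => by ring
  have e2 : ∑ i ∈ range m, (((k : R) + 2) * ((phi (i + 1) (k + 2) : R) * x ^ (i + 1))
      + ((k : R) + 1) * ((phi (i + 1) k : R) * x ^ (i + 1)))
      = ∑ i ∈ range m, ((2 * (k : R) + 3) * ((phi (i + 1) (k + 1) : R) * x ^ (i + 1))
        + 2 * (2 * (k : R) + 3) * ((phi i (k + 1) : R) * x ^ (i + 1))) := by
    refine Finset.sum_congr rfl fun i _ => ?_
    have := congrArg (Int.cast : ℤ → R) (phi_rec i k)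
    push_cast at this
    linear_combination x ^ (i + 1) * this
  rw [Finset.sum_add_distrib, Finset.sum_add_distrib, ← Finset.mul_sum, ← Finset.mul_sum,
    ← Finset.mul_sum, ← Finset.mul_sum, ← e] at e2
  have p0 : ∀ n, (phi 0 n : R) = 1 := fun n => by simp [phi]
  have e3 : ∀ n, DD (m + 1) x n = ∑ i ∈ range m, (phi (i + 1) n : R) * x ^ (i + 1) + 1 := by
    intro n; rw [DD, Finset.sum_range_succ', p0]; simp
  rw [e3 (k + 2), e3 k]
  have := e3 (k + 1)
  linear_combination e2 - (2 * (k : R) + 3) * this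

theorem cube_closed (M : ℕ) (x : R) (hx : 4 * x = -1) : ∀ m, m + 1 < M →
    ∑ k ∈ range (m + 1), (2 * (k : R) + 1) * (-1) ^ k * DD M x k ^ 3
      = ((m : R) + 1) ^ 2 * (4 * (-1) ^ (m + 1) * DD M x (m + 1) * DD M x m
        * (DD M x (m + 1) - DD M x m)) := by
  intro m
  induction m with
  | zero =>
    intro h
    obtain ⟨m, rfl⟩ : ∃ m, M = m + 2 := ⟨M - 2, by omega⟩
    have h0 : DD (m + 2) x 0 = 1 := by
      rw [DD, Finset.sum_range_succ']; simp [phi]
    have h1 : DD (m + 2) x 1 = 1 + 2 * x := by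
      rw [DD, Finset.sum_range_succ', Finset.sum_range_succ']
      have : ∀ i, phi (i + 1 + 1) 1 = 0 := fun i => phi_zero (by omega)
      simp [this]; simp [phi]; ring
    simp only [zero_add, range_one, sum_singleton, h0, h1]
    push_cast
    linear_combination (4 * x + 1) * hx
  | succ m ih =>
    intro h
    have h1 := DD_rec M x m h
    rw [Finset.sum_range_succ, ih (by omega)]
    push_cast
    set Z := DD M x (m + 1 + 1)
    set X := DD M x (m + 1)
    set Y := DD M x m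
    have h2 : 2 * (((m : R) + 2) * Z) = (2 * m + 3) * X - 2 * (m + 1) * Y := by
      linear_combination 2 * h1 + (2 * (m : R) + 3) * X * hx
    linear_combination ((-1) ^ m * X * (-(2 * (((m : R) + 2) * Z)) - ((2 * m + 3) * X
      - 2 * (m + 1) * Y) + 2 * (m + 2) * X)) * h2

theorem val_le {p : ℕ} [Fact p.Prime] (a b F : ℤ_[p])
    (h : ∀ d : ℤ_[p], d ∣ a → d ∣ b → d ∣ F) :
    min (Padic.addValuation (a : ℚ_[p])) (Padic.addValuation (b : ℚ_[p]))
      ≤ Padic.addValuation (F : ℚ_[p]) := by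
  have key : ∀ d : ℤ_[p], d ∣ F →
      Padic.addValuation (d : ℚ_[p]) ≤ Padic.addValuation (F : ℚ_[p]) := by
    rintro d ⟨c, rfl⟩
    push_cast
    rw [AddValuation.map_mul]
    refine le_add_of_nonneg_right ?_
    rcases eq_or_ne (c : ℚ_[p]) 0 with hc | hc
    · rw [hc, AddValuation.map_zero]; exact le_top
    · rw [Padic.addValuation.apply hc]
      exact WithTop.coe_nonneg.mpr PadicInt.valuation_coe_nonneg
  rcases ValuationRing.dvd_total a b with hab | hab
  · exact (min_le_left _ _).trans (key a (h a dvd_rfl hab))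
  · exact (min_le_right _ _).trans (key b (h b hab dvd_rfl))

end Pool.Agent.H27.DelC
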