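import Mathlib
import Pool.Agent.H27.DelC

namespace Pool.Agent.H27.DelD
open Finset Pool.Agent.H27.DelA Pool.Agent.H27.DelC

variable {R : Type*} [CommRing R]

def bb (n s : ℕ) : ℤ := (n.choose (s + 1) : ℤ) * ((n + s).choose s : ℤ)

def sQ (n : ℕ) (x : R) : R := (-1) ^ n * ∑ s ∈ range n, KK n x s * (bb n s : R)

theorem map_KK {S : Type*} [CommRing S] (f : R →+* S) (n : ℕ) (x : R) (s : ℕ) :
    f (KK n x s) = KK n (f x) s := by
  simp only [KK, map_mul, map_pow, map_sum, map_intCast]

theorem map_sQ {S : Type*} [CommRing S] (f : R →+* S) (n : ℕ) (x : R) :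
    f (sQ n x) = sQ n (f x) := by
  simp only [sQ, map_mul, map_pow, map_sum, map_neg, map_one, map_intCast, map_KK]

theorem apery_closed (m : ℕ) (x : R) (hx : 4 * x = 1) :
    (-1) ^ m * ∑ s ∈ range (m + 1), (psi m s : R) * fr (m + 1) x s
      = ((m : R) + 1) * sQ (m + 1) x := by
  have key : ∀ t ≤ m, ∑ s ∈ range (t + 1), (psi m s : R) * fr (m + 1) x s
      = -((psi m t : R) * ((t : R) + 1) * KK (m + 1) x t)
        - ((m : R) + 1) * ∑ s ∈ range t, KK (m + 1) x s * (bb (m + 1) s : R) := by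
    intro t
    induction t with
    | zero =>
      intro _
      simp only [zero_add, range_one, sum_singleton, fr, KK, Finset.sum_range_succ']
      simp [cc, kk]
    | succ t ih =>
      intro ht
      have h1 := KK_step (m + 1) x hx t (by omega)
      have h2 := congrArg (Int.cast : ℤ → R) (psi_add m t)
      rw [Finset.sum_range_succ, ih (by omega), Finset.sum_range_succ _ t]
      simp only [bb]
      push_cast at h2 ⊢
      linear_combination (psi m (t + 1) : R) * h1 - KK (m + 1) x t * h2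
  rw [key m le_rfl, sQ, Finset.sum_range_succ]
  simp only [bb, psi, Nat.choose_self]
  push_cast
  ring

theorem strehl (s M : ℕ) (h : s < M) :
    ∑ i ∈ range M, cc i i s = ∑ k ∈ range (s + 1), (s.choose k : ℤ) ^ 3 := by
  have e0 : ∑ i ∈ range M, cc i i s = ∑ i ∈ range (s + 1), cc i i s := by
    symm
    refine Finset.sum_subset (range_subset_range.mpr h) fun i _ hi => ?_
    simp [cc, Nat.choose_eq_zero_of_lt (show s < i by simpa using hi)]
  have e1 : ∀ i, cc i i s = ∑ k ∈ range (s + 1),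
      ((s.choose i * i.choose k : ℕ) : ℤ) * ((s.choose i * i.choose (s - k) : ℕ) : ℤ) := by
    intro i
    rw [cc, Nat.add_choose_eq, Finset.Nat.sum_antidiagonal_eq_sum_range_succ_mk]
    push_cast
    rw [Finset.sum_mul, Finset.sum_mul]
    exact Finset.sum_congr rfl fun k _ => by ring
  rw [e0, Finset.sum_congr rfl fun i _ => e1 i, Finset.sum_comm]
  refine Finset.sum_congr rfl fun k hk => ?_
  obtain ⟨l, rfl⟩ := Nat.exists_eq_add_of_le (Nat.lt_succ_iff.mp (mem_range.mp hk))
  rw [Nat.add_sub_cancel_left]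
  have e2 : ∑ i ∈ range (k + l + 1), (((k + l).choose i * i.choose k : ℕ) : ℤ)
        * (((k + l).choose i * i.choose l : ℕ) : ℤ)
      = ∑ i ∈ Ico l (l + (k + 1)), (((k + l).choose i * i.choose k : ℕ) : ℤ)
        * (((k + l).choose i * i.choose l : ℕ) : ℤ) := by
    symm
    refine Finset.sum_subset (fun s hs => by simp at hs ⊢; omega) fun i hi hs => ?_
    have : i < l := by simp at hi hs; omega
    simp [Nat.choose_eq_zero_of_lt this]
  rw [e2, Finset.sum_Ico_eq_sum_range, Nat.add_sub_cancel_left]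
  have e3 := congrArg (Nat.cast : ℕ → ℤ) (Nat.add_choose_eq k l k)
  rw [Finset.Nat.sum_antidiagonal_eq_sum_range_succ_mk] at e3
  push_cast at e3 ⊢
  rw [show ((k + l).choose k : ℤ) ^ 3 = ((k + l).choose k : ℤ) ^ 2 * ∑ x ∈ range k.succ,
    (k.choose x : ℤ) * (l.choose (k - x) : ℤ) by rw [← e3]; ring, Finset.mul_sum]
  refine Finset.sum_congr rfl fun j hj => ?_
  have hj' : j ≤ k := Nat.lt_succ_iff.mp (mem_range.mp hj)
  have a1 : (k + l).choose (l + j) * (l + j).choose l = (k + l).choose k * k.choose j := by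
    rw [Nat.choose_mul (by omega), Nat.add_sub_cancel, Nat.add_sub_cancel_left,
      Nat.choose_symm_add]
  have a2 : (k + l).choose (l + j) * (l + j).choose k = (k + l).choose k * l.choose (k - j) := by
    rcases le_or_gt k (l + j) with h1 | h1
    · rw [Nat.choose_mul h1, Nat.add_sub_cancel_left,
        Nat.choose_symm_of_eq_add (show l = (l + j - k) + (k - j) by omega)]
    · rw [Nat.choose_eq_zero_of_lt h1, Nat.choose_eq_zero_of_lt (show l < k - j by omega)]; simp
  have b1 := congrArg (Nat.cast : ℕ → ℤ) a1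
  have b2 := congrArg (Nat.cast : ℕ → ℤ) a2
  push_cast at b1 b2
  rw [b1, b2]; ring

open Polynomial in
theorem bb_alt (m : ℕ) : ∑ s ∈ range (m + 1), (-1) ^ s * bb (m + 1) s = (-1) ^ m := by
  have e2 : ((1 + X : ℤ[X]) ^ m * (-(1 + X) + 1) ^ (m + 1)).coeff (m + 1)
      = ∑ t ∈ range (m + 1 + 1), (-1) ^ t * ((m + 1).choose t : ℤ)
        * ((m + t).choose (m + 1) : ℤ) := by
    rw [add_pow (-(1 + X) : ℤ[X]), Finset.mul_sum, finsetSum_coeff]
    refine Finset.sum_congr rfl fun t _ => ?_
    have : (1 + X : ℤ[X]) ^ m * ((-(1 + X)) ^ t * 1 ^ (m + 1 - t) * ((m + 1).choose t : ℤ[X]))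
        = C ((-1) ^ t * ((m + 1).choose t : ℤ)) * (1 + X) ^ (m + t) := by
      simp only [map_mul, map_pow, map_natCast, map_neg, map_one]
      rw [neg_pow]; ring
    rw [this, coeff_C_mul, coeff_one_add_X_pow]
  have e3 : ((1 + X : ℤ[X]) ^ m * (-(1 + X) + 1) ^ (m + 1)).coeff (m + 1) = (-1) ^ (m + 1) := by
    have : (1 + X : ℤ[X]) ^ m * (-(1 + X) + 1) ^ (m + 1)
        = C ((-1) ^ (m + 1)) * (1 + X) ^ m * X ^ (m + 1) := by
      simp only [map_pow, map_neg, map_one]
      rw [show (-(1 + X) + 1 : ℤ[X]) = -X by ring, neg_pow]; ring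
    rw [this]
    have := coeff_mul_X_pow (C ((-1 : ℤ) ^ (m + 1)) * (1 + X) ^ m) (m + 1) 0
    rw [zero_add] at this
    rw [this, coeff_C_mul, coeff_one_add_X_pow]; simp
  rw [e3, Finset.sum_range_succ'] at e2
  have e4 : ∑ s ∈ range (m + 1), (-1) ^ (s + 1) * ((m + 1).choose (s + 1) : ℤ)
      * ((m + (s + 1)).choose (m + 1) : ℤ) = -∑ s ∈ range (m + 1), (-1) ^ s * bb (m + 1) s := by
    rw [← Finset.sum_neg_distrib]
    refine Finset.sum_congr rfl fun s _ => ?_
    rw [bb, show m + (s + 1) = m + 1 + s by ring, Nat.choose_symm_add]; ring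
  rw [e4] at e2
  simp only [add_zero, Nat.choose_succ_self, Nat.cast_zero, mul_zero] at e2
  linear_combination e2

theorem kk_eq (s i : ℕ) : kk s i
    = (s.choose i : ℤ) ^ 2 * (3 * ((2 * i).choose (s + 1) : ℤ)) - cc i i s := by
  rw [kk, cc, Nat.choose_succ_succ, two_mul i]; push_cast; ring

theorem KK_three (M s : ℕ) (h : s < M) : KK M (1 : ZMod 3) s = -(-1) ^ s := by
  have h3 : (3 : ZMod 3) = 0 := rfl
  have := congrArg (Int.cast : ℤ → ZMod 3) (strehl s M h)
  have h2 := congrArg (Nat.cast : ℕ → ZMod 3) (Nat.sum_range_choose s)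
  push_cast at this h2
  have hc : ∀ a : ZMod 3, a ^ 3 = a := by decide
  simp only [hc] at this
  rw [h2, show (2 : ZMod 3) = -1 from rfl] at this
  rw [← this, KK, ← Finset.sum_neg_distrib]
  refine Finset.sum_congr rfl fun i _ => ?_
  rw [kk_eq]; push_cast; rw [h3]; ring

theorem sQ_three (m : ℕ) : sQ (m + 1) (1 : ZMod 3) = 1 := by
  have := congrArg (Int.cast : ℤ → ZMod 3) (bb_alt m)
  push_cast at this
  rw [sQ, Finset.sum_congr rfl fun s hs => by rw [KK_three _ s (mem_range.mp hs), neg_mul],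
    Finset.sum_neg_distrib, this, pow_succ]
  rw [mul_neg, mul_neg_one, neg_mul, neg_neg, ← mul_pow]; simp

section charp
variable (p a : ℕ) [Fact p.Prime]

open Polynomial in
theorem chP (r j : ℕ) : ((p ^ a + r).choose j : ZMod p)
    = r.choose j + if p ^ a ≤ j then (r.choose (j - p ^ a) : ZMod p) else 0 := by
  have : ((1 + X : (ZMod p)[X]) ^ (p ^ a + r)) = (1 + X) ^ r + X ^ (p ^ a) * (1 + X) ^ r := by
    rw [pow_add, add_pow_char_pow]; ring
  have h := congrArg (fun f => Polynomial.coeff f j) this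
  simp only [coeff_add, coeff_one_add_X_pow, coeff_X_pow_mul'] at h
  exact h

theorem chP1 (m : ℕ) (hm : p ^ a = m + 1) : ∀ i ≤ m, (m.choose i : ZMod p) = (-1) ^ i := by
  intro i
  induction i with
  | zero => simp
  | succ i ih =>
    intro hi
    have h := chP p a 0 (i + 1)
    rw [if_neg (by omega), add_zero, hm, Nat.choose_succ_succ] at h
    simp only [Nat.choose_zero_succ, Nat.cast_zero, add_zero] at h
    push_cast at h
    rw [ih (by omega)] at h
    linear_combination h

theorem chP2 (t : ℕ) (h1 : p ^ a ≤ t) (h2 : t < 2 * p ^ a) :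
    (t.choose (p ^ a) : ZMod p) = 1 := by
  obtain ⟨r, rfl⟩ := Nat.exists_eq_add_of_le h1
  rw [chP, Nat.choose_eq_zero_of_lt (by omega)]; simp

theorem bbP (s : ℕ) (h : s + 1 < p ^ a) : (bb (p ^ a) s : ZMod p) = 0 := by
  have := chP p a 0 (s + 1)
  rw [if_neg (by omega)] at this
  simp only [add_zero, Nat.choose_zero_succ, Nat.cast_zero] at this
  simp [bb, this]

theorem bbP1 (m : ℕ) (hm : p ^ a = m + 1) : (bb (m + 1) m : ZMod p) = 1 := by
  have := chP p a m m
  rw [if_neg (by omega), hm] at this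
  simp [bb, this]

theorem sQ_p (h : ℕ) (hm : p ^ a = 2 * h + 1) (x : ZMod p) (hx : 4 * x = 1) :
    sQ (p ^ a) x = 1 := by
  have hx0 : x ≠ 0 := by rintro rfl; simp at hx
  have hxm : x ^ (2 * h) = 1 := by
    have := ZMod.pow_card_pow (n := a) x
    rw [hm, pow_succ] at this
    exact mul_right_cancel₀ hx0 (this.trans (one_mul x).symm)
  have e1 : ∑ s ∈ range (p ^ a), KK (p ^ a) x s * (bb (p ^ a) s : ZMod p)
      = KK (p ^ a) x (2 * h) := by
    rw [Finset.sum_eq_single (2 * h)]
    · rw [hm, bbP1 p a _ hm, mul_one]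
    · intro s hs hne
      rw [bbP p a s (by have := mem_range.mp hs; omega), mul_zero]
    · intro hh; exact absurd (mem_range.mpr (by omega)) hh
  have hsq : ∀ i ≤ 2 * h, ((2 * h).choose i : ZMod p) ^ 2 = 1 := by
    intro i hi; rw [chP1 p a _ hm i hi, ← pow_mul, mul_comm, pow_mul]; simp
  have e2 : KK (p ^ a) x (2 * h) = -1 := by
    rw [KK, show range (p ^ a) = range (h + 1 + h) by rw [hm]; congr 1; ring,
      Finset.sum_range_add, Finset.sum_range_succ, Finset.sum_eq_zero]
    · have t : ∀ j ∈ range h, (kk (2 * h) (h + 1 + j) : ZMod p) * x ^ (h + 1 + j)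
          = x ^ (h + j) - x ^ (h + (j + 1)) := by
        intro j hj
        have := mem_range.mp hj
        rw [kk]; push_cast
        rw [hsq _ (by omega), ← hm, chP2 p a _ (by omega) (by omega),
          chP2 p a _ (by omega) (by omega)]
        linear_combination x ^ (h + j) * hx
      rw [Finset.sum_congr rfl t, Finset.sum_range_sub' (fun j => x ^ (h + j)), kk]
      push_cast
      rw [hsq _ (by omega), ← two_mul, hxm]
      simp
      ring
    · intro i hi
      have := mem_range.mp hi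
      rw [kk, Nat.choose_eq_zero_of_lt (show 2 * i < 2 * h + 1 by omega),
        Nat.choose_eq_zero_of_lt (show 2 * i + 1 < 2 * h + 1 by omega)]
      simp
  rw [sQ, e1, e2, hm, pow_succ, pow_mul]; simp

theorem DD_p (m : ℕ) (hm : p ^ a = m + 1) (x : ZMod p) :
    DD (m + 2) x m = 1 ∧ DD (m + 2) x (m + 1) = 1 + 2 * x := by
  constructor
  · rw [DD, Finset.sum_range_succ', Finset.sum_eq_zero]
    · simp [phi]
    · intro i hi
      have := mem_range.mp hi
      rcases eq_or_ne i m with rfl | hne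
      · simp [phi]
      · have h := chP p a i (i + 1)
        rw [if_neg (by omega), hm, Nat.choose_succ_self] at h
        rw [phi, show m + (i + 1) = m + 1 + i by ring]; push_cast; rw [h]; simp
  · rw [DD, Finset.sum_range_succ', Finset.sum_range_succ, Finset.sum_eq_zero]
    · have h := chP p a (p ^ a) (p ^ a)
      have h2 := ZMod.pow_card_pow (n := a) x
      rw [if_pos le_rfl, hm] at h
      rw [hm] at h2
      simp only [phi]; push_cast; rw [h, h2]; simp; ring
    · intro i hi
      have := mem_range.mp hi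
      have h := chP p a 0 (i + 1)
      rw [if_neg (by omega), add_zero, add_zero, hm] at h
      rw [phi]; push_cast; rw [h]; simp

end charp

end Pool.Agent.H27.DelD
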