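import Mathlib
import Pool.Agent.H27.DelD

namespace Pool.Agent.H27.DelE
open Finset Pool.Agent.H27.DelA Pool.Agent.H27.DelC Pool.Agent.H27.DelD

theorem sQ_nine (a : ℕ) (ha : 1 ≤ a) : (9 : ℤ) ∣ sQ (3 ^ a) (7 : ℤ) - 4 := by
  haveI : Fact (Nat.Prime 3) := ⟨by norm_num⟩
  obtain ⟨h, hm⟩ : Odd (3 ^ a) := Odd.pow (by decide)
  have cast3 : ∀ z : ℤ, (z : ZMod 3) = 0 → (3 : ℤ) ∣ z := fun z hz =>
    (ZMod.intCast_zmod_eq_zero_iff_dvd z 3).mp hz
  have h3 : (3 : ZMod 3) = 0 := rfl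
  have h7 : ((7 : ℤ) : ZMod 3) = 1 := rfl
  have hh : (h : ZMod 3) = 1 := by
    have := congrArg (Nat.cast : ℕ → ZMod 3) hm
    obtain ⟨b, rfl⟩ := Nat.exists_eq_add_of_le ha
    push_cast at this
    rw [pow_add, h3] at this
    linear_combination this + (h : ZMod 3) * h3
  have k3 : ∀ s < 3 ^ a, (3 : ℤ) ∣ KK (3 ^ a) (7 : ℤ) s + (-1) ^ s := by
    intro s hs
    apply cast3
    have := map_KK (Int.castRingHom (ZMod 3)) (3 ^ a) 7 s
    simp only [eq_intCast, h7] at this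
    push_cast
    rw [this, KK_three _ _ hs]; ring
  have f9 : (9 : ℤ) ∣ ∑ i ∈ range (3 ^ a), cc i i (2 * h) - 1 := by
    rw [strehl _ _ (by omega)]
    have e : (1 : ℤ) = ∑ k ∈ range (2 * h + 1), (-1) ^ k := by
      rw [neg_one_geom_sum, if_neg (by simp)]
    rw [e, ← Finset.sum_sub_distrib]
    refine Finset.dvd_sum fun k hk => ?_
    obtain ⟨c, hc⟩ : (3 : ℤ) ∣ ((2 * h).choose k : ℤ) - (-1) ^ k := by
      apply cast3; push_cast
      rw [chP1 3 a _ hm k (by have := mem_range.mp hk; omega), sub_self]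
    have hs : ((-1 : ℤ) ^ k) ^ 2 = 1 := by rw [← pow_mul, mul_comm, pow_mul]; simp
    refine ⟨c + 3 * c ^ 2 * (-1) ^ k + 3 * c ^ 3, ?_⟩
    rw [show ((2 * h).choose k : ℤ) = (-1) ^ k + 3 * c by linear_combination hc]
    linear_combination ((-1) ^ k + 9 * c) * hs
  set w : ℕ → ℤ := fun i => 2 * ∑ j ∈ range i, 7 ^ j with hw
  have hw1 : ∀ i, (7 : ℤ) ^ i = 1 + 3 * w i := by
    intro i
    have := mul_geom_sum (7 : ℤ) i
    simp only [hw]; linear_combination -this
  have hw2 : ∀ i, (w i : ZMod 3) = 2 * i := by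
    intro i; simp only [hw]; push_cast
    rw [show (7 : ZMod 3) = 1 from rfl]; simp
  have e1 : KK (3 ^ a) (7 : ℤ) (2 * h) + ∑ i ∈ range (3 ^ a), cc i i (2 * h)
      = 3 * ∑ i ∈ range (3 ^ a), (((2 * h).choose i : ℤ) ^ 2 * ((2 * i).choose (2 * h + 1) : ℤ)
        * 7 ^ i - cc i i (2 * h) * w i) := by
    rw [KK, ← Finset.sum_add_distrib, Finset.mul_sum]
    refine Finset.sum_congr rfl fun i _ => ?_
    rw [kk_eq]; simp only [Int.cast_id]
    linear_combination (-cc i i (2 * h)) * hw1 i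
  have e2 : (3 : ℤ) ∣ ∑ i ∈ range (3 ^ a), (((2 * h).choose i : ℤ) ^ 2
      * ((2 * i).choose (2 * h + 1) : ℤ) * 7 ^ i - cc i i (2 * h) * w i) + 1 := by
    apply cast3
    have hsq : ∀ i ≤ 2 * h, ((2 * h).choose i : ZMod 3) ^ 2 = 1 := by
      intro i hi; rw [chP1 3 a _ hm i hi, ← pow_mul, mul_comm, pow_mul]; simp
    push_cast
    rw [show range (3 ^ a) = range (h + 1 + h) by rw [hm]; congr 1; ring,
      Finset.sum_range_add, Finset.sum_range_succ, Finset.sum_eq_zero]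
    · have t : ∀ j ∈ range h, ((2 * h).choose (h + 1 + j) : ZMod 3) ^ 2
          * ((2 * (h + 1 + j)).choose (2 * h + 1) : ZMod 3) * 7 ^ (h + 1 + j)
          - (cc (h + 1 + j) (h + 1 + j) (2 * h) : ZMod 3) * (w (h + 1 + j) : ZMod 3) = 1 := by
        intro j hj
        have := mem_range.mp hj
        have c1 := chP 3 a (2 * j + 1) (2 * h)
        rw [if_neg (by omega), Nat.choose_eq_zero_of_lt (show 2 * j + 1 < 2 * h by omega), hm] at c1
        rw [hsq _ (by omega), ← hm, chP2 3 a _ (by omega) (by omega), cc,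
          show h + 1 + j + (h + 1 + j) = 2 * h + 1 + (2 * j + 1) by ring]
        push_cast
        rw [c1, show (7 : ZMod 3) = 1 from rfl]; simp
      rw [Finset.sum_congr rfl t, hw2, cc, ← two_mul]
      push_cast
      have := hsq h (by omega)
      simp only [Nat.choose_succ_self, Nat.choose_self, sum_const, card_range, nsmul_eq_mul, hh]
      push_cast
      linear_combination (-2) * this
    · intro i hi
      have := mem_range.mp hi
      rw [cc, Nat.choose_eq_zero_of_lt (show 2 * i < 2 * h + 1 by omega),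
        Nat.choose_eq_zero_of_lt (show i + i < 2 * h by omega)]
      simp
  have k9 : (9 : ℤ) ∣ KK (3 ^ a) (7 : ℤ) (2 * h) + 4 := by
    obtain ⟨c, hc⟩ := e2
    obtain ⟨d, hd⟩ := f9
    exact ⟨c - d, by linear_combination e1 + 3 * hc - hd⟩
  have alt := bb_alt (2 * h)
  have s1 : (9 : ℤ) ∣ ∑ s ∈ range (2 * h), (KK (3 ^ a) (7 : ℤ) s + (-1) ^ s) * bb (3 ^ a) s := by
    refine Finset.dvd_sum fun s hs => ?_
    have := mem_range.mp hs
    exact mul_dvd_mul (k3 s (by omega)) (cast3 _ (bbP 3 a s (by omega)))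
  obtain ⟨b, hb⟩ : (3 : ℤ) ∣ bb (2 * h + 1) (2 * h) - 1 := by
    apply cast3; push_cast; rw [bbP1 3 a _ hm, sub_self]
  obtain ⟨c, hc⟩ := k9
  obtain ⟨d, hd⟩ := s1
  simp only [add_mul, Finset.sum_add_distrib] at hd
  rw [sQ]
  rw [hm] at hc hd ⊢
  rw [Finset.sum_range_succ] at alt ⊢
  simp only [Int.cast_id, pow_succ, pow_mul, neg_mul, one_mul, mul_neg, mul_one, neg_neg, pow_zero,
    one_pow] at alt hd hc ⊢
  refine ⟨-d - c * (1 + 3 * b) + b, ?_⟩
  rw [show bb (2 * h + 1) (2 * h) = 1 + 3 * b by linear_combination hb] at alt ⊢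
  linear_combination -hd - (1 + 3 * b) * hc + alt

open Polynomial in
theorem transfer (Q : ℤ[X]) (ε : ℤ) (r : ℚ) (hr : r = eval₂ (Int.castRingHom ℚ) (ε / 4) Q) :
    (∃ N, r.den ∣ 4 ^ N) ∧ ∀ (S : Type) [CommRing S] (x : S), IsUnit (4 : S) → 4 * x = ε →
      (r.num : S) = r.den * eval₂ (Int.castRingHom S) x Q := by
  set N := Q.natDegree
  set c : ℤ := ∑ j ∈ range (N + 1), Q.coeff j * ε ^ j * 4 ^ (N - j) with hc
  have key : ∀ (S : Type) [CommRing S] (x : S), 4 * x = ε →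
      (c : S) = 4 ^ N * eval₂ (Int.castRingHom S) x Q := by
    intro S _ x hx
    rw [eval₂_eq_sum_range, hc, Finset.mul_sum]
    push_cast
    refine Finset.sum_congr rfl fun j hj => ?_
    obtain ⟨k, hk⟩ := Nat.exists_eq_add_of_le (Nat.lt_succ_iff.mp (mem_range.mp hj))
    have hk' : N = j + k := hk
    rw [← hx, hk', Nat.add_sub_cancel_left, eq_intCast]; ring
  have h1 := key ℚ (ε / 4) (by ring)
  rw [← hr] at h1
  have h2 : r.num * 4 ^ N = c * r.den := by
    apply Int.cast_injective (α := ℚ)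
    push_cast
    rw [h1, ← Rat.mul_den_eq_num]; ring
  refine ⟨⟨N, ?_⟩, fun S _ x hu hx => ?_⟩
  · have : (r.den : ℤ) ∣ r.num * 4 ^ N := ⟨c, by rw [h2]; ring⟩
    have h3 : (r.den : ℤ) ∣ 4 ^ N := (Rat.isCoprime_num_den r).symm.dvd_of_dvd_mul_left this
    exact_mod_cast h3
  · have := congrArg (Int.cast : ℤ → S) h2
    push_cast at this
    rw [key S x hx] at this
    apply (hu.pow N).mul_left_cancel
    linear_combination this

theorem den_eq (r : ℚ) (N e : ℕ) (u V : ℤ) (hd : r.den ∣ 4 ^ N) (hu : Odd u) (hV : Odd V)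
    (h : r * (2 ^ e * u) = V) : r.den = 2 ^ e ∧ r.num * u = V := by
  rw [show (4 : ℕ) ^ N = 2 ^ (2 * N) by rw [pow_mul]; norm_num,
    Nat.dvd_prime_pow Nat.prime_two] at hd
  obtain ⟨k, _, hk⟩ := hd
  have h2 : r.num * (2 ^ e * u) = V * 2 ^ k := by
    apply Int.cast_injective (α := ℚ)
    have := congrArg (Nat.cast : ℕ → ℚ) hk
    push_cast at this ⊢
    rw [← h, ← this, ← Rat.mul_den_eq_num]; ring
  have hke : k = e := by
    rcases lt_trichotomy k e with h3 | h3 | h3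
    · exfalso
      obtain ⟨d, rfl⟩ := Nat.exists_eq_add_of_lt h3
      have : V = 2 * (r.num * 2 ^ d * u) := by
        apply mul_right_cancel₀ (pow_ne_zero k (two_ne_zero (α := ℤ)))
        rw [← h2]; ring
      rw [this] at hV
      exact absurd hV (by simp)
    · exact h3
    · exfalso
      obtain ⟨d, rfl⟩ := Nat.exists_eq_add_of_lt h3
      have h4 : r.num * u = 2 * (V * 2 ^ d) := by
        apply mul_right_cancel₀ (pow_ne_zero e (two_ne_zero (α := ℤ)))
        linear_combination h2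
      have h5 : Even r.num := by
        have : Even (r.num * u) := by rw [h4]; simp
        exact (Int.even_mul.mp this).resolve_right (Int.not_even_iff_odd.mpr hu)
      have h6 : (2 : ℤ) ∣ r.den := by rw [hk]; push_cast; exact ⟨2 ^ (e + d), by ring⟩
      have := (Rat.isCoprime_num_den r).isUnit_of_dvd' h5.two_dvd h6
      exact absurd this (by decide)
  subst hke
  refine ⟨hk, ?_⟩
  apply mul_right_cancel₀ (pow_ne_zero k (two_ne_zero (α := ℤ)))
  linear_combination h2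

theorem fact_split (n : ℕ) (hn : n ≠ 0) : ∃ u : ℤ, Odd u ∧ (n : ℤ) = 2 ^ padicValNat 2 n * u := by
  obtain ⟨k, m, hm, rfl⟩ := Nat.exists_eq_two_pow_mul_odd hn
  refine ⟨m, by exact_mod_cast hm, ?_⟩
  have hm0 : m ≠ 0 := by rintro rfl; simp at hm
  rw [padicValNat.mul (by positivity) hm0, padicValNat.prime_pow,
    padicValNat.eq_zero_of_not_dvd (by rw [← even_iff_two_dvd]; exact Nat.not_even_iff_odd.mpr hm)]
  push_cast; ring

end Pool.Agent.H27.DelE
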