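import Mathlib
import Pool.Agent.H27.DelE

namespace Pool.Agent.H27.DelF
open Finset Pool.Agent.H27.DelA Pool.Agent.H27.DelC Pool.Agent.H27.DelD

variable {R : Type*} [CommRing R]

theorem DD_indep (x : R) (k M : ℕ) (h : k < M) : DD M x k = DD (k + 1) x k := by
  unfold DD
  symm
  refine Finset.sum_subset (range_subset_range.mpr h) fun i _ hi => ?_
  rw [phi_zero (by simpa using hi)]; simp

def dl (k : ℕ) : ℚ := DD (k + 1) (-1 / 4 : ℚ) k

theorem dl_unique (u : ℕ → ℚ) (h0 : u 0 = 1) (h1 : u 1 = 1 / 2)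
    (h : ∀ k : ℕ, ((k : ℚ) + 2) * u (k + 2) + ((k : ℚ) + 1) * u k = (2 * k + 3) / 2 * u (k + 1))
    (k : ℕ) : dl k = u k := by
  induction k using Nat.twoStepInduction with
  | zero => simp [dl, DD, phi, h0]
  | one => simp [dl, DD, phi, h1, Finset.sum_range_succ]; norm_num
  | more k ih1 ih2 =>
    have h2 := DD_rec (k + 3) (-1 / 4 : ℚ) k (by omega)
    rw [DD_indep _ k _ (by omega), DD_indep _ (k + 1) _ (by omega)] at h2
    have hne : ((k : ℚ) + 2) ≠ 0 := by positivity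
    apply mul_left_cancel₀ hne
    simp only [dl] at ih1 ih2 ⊢
    rw [ih1, ih2] at h2
    linear_combination h2 - h k

def aa : ℕ → ℤ
  | 0 => 1
  | 1 => 1
  | (k + 2) => (2 * k + 3) * aa (k + 1) - 4 * (k + 1) ^ 2 * aa k

theorem aa_odd (k : ℕ) : Odd (aa k) := by
  induction k using Nat.twoStepInduction with
  | zero => simp [aa]
  | one => simp [aa]
  | more k _ ih2 =>
    rw [aa]
    refine Odd.sub_even (Odd.mul ⟨k + 1, by ring⟩ ih2) ⟨2 * (k + 1) ^ 2 * aa k, by ring⟩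

theorem dl_aa (k : ℕ) : dl k = aa k / (2 ^ k * k.factorial) := by
  refine dl_unique (fun k => aa k / (2 ^ k * k.factorial)) (by simp [aa]) (by simp [aa])
    (fun k => ?_) k
  have hf : (k.factorial : ℚ) ≠ 0 := by positivity
  simp only [aa, Nat.factorial_succ]
  push_cast
  field_simp
  ring

def tau (k j : ℕ) : ℤ := (k.choose (2 * j) : ℤ) * ((2 * j).choose j : ℤ)

theorem tau_rec (k j : ℕ) : ((k : ℤ) + 2) * tau (k + 2) (j + 1) + ((k : ℤ) + 1) * tau k (j + 1)
    = (2 * k + 3) * tau (k + 1) (j + 1) + 4 * (k + 1) * tau k j := by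
  have h1 := congrArg (Nat.cast : ℕ → ℤ) (Nat.succ_mul_centralBinom_succ j)
  rw [Nat.centralBinom_eq_two_mul_choose, Nat.centralBinom_eq_two_mul_choose] at h1
  have h2 := ch2 k (2 * j)
  have p1 : ((k + 2).choose (2 * j + 2) : ℤ)
      = (k + 1).choose (2 * j + 1) + (k + 1).choose (2 * j + 2) := by
    rw [Nat.choose_succ_succ]; push_cast; ring
  have p2 : ((k + 1).choose (2 * j + 2) : ℤ) = k.choose (2 * j + 1) + k.choose (2 * j + 2) := by
    rw [Nat.choose_succ_succ]; push_cast; ring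
  have p3 : ((k + 1).choose (2 * j + 1) : ℤ) = k.choose (2 * j) + k.choose (2 * j + 1) := by
    rw [Nat.choose_succ_succ]; push_cast; ring
  have hne : ((j : ℤ) + 1) * (2 * j + 1) ≠ 0 := by positivity
  apply mul_left_cancel₀ hne
  unfold tau
  rw [show 2 * (j + 1) = 2 * j + 2 by ring] at h1 ⊢
  push_cast at h1 h2
  set c1 : ℤ := ((2 * j + 2).choose (j + 1) : ℤ)
  set c0 : ℤ := ((2 * j).choose j : ℤ)
  linear_combination (((j : ℤ) + 1) * (2 * j + 1) * c1) * (((k : ℤ) + 2) * p1 - ((k : ℤ) + 1) * p2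
    + ((k : ℤ) + 1) * p3) + (((j : ℤ) + 1) * c1) * h2
    + (((k : ℤ) + 1) * (k.choose (2 * j) : ℤ) * (2 * j + 2)) * h1

def ee (M : ℕ) (w : R) (k : ℕ) : R := ∑ j ∈ range M, (tau k j : R) * w ^ j

theorem ee_indep (w : R) (k M : ℕ) (h : k < M) : ee M w k = ee (k + 1) w k := by
  unfold ee
  symm
  refine Finset.sum_subset (range_subset_range.mpr h) fun i _ hi => ?_
  have : k < 2 * i := by simp at hi; omega
  simp [tau, Nat.choose_eq_zero_of_lt this]

theorem ee_rec (w : R) (k : ℕ) :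
    ((k : R) + 2) * ee (k + 3) w (k + 2) + ((k : R) + 1) * (1 - 4 * w) * ee (k + 3) w k
      = (2 * k + 3) * ee (k + 3) w (k + 1) := by
  have e : w * ee (k + 3) w k = ∑ i ∈ range (k + 2), (tau k i : R) * w ^ (i + 1) := by
    rw [ee, Finset.sum_range_succ, tau, Nat.choose_eq_zero_of_lt (show k < 2 * (k + 2) by omega)]
    simp only [Nat.cast_zero, Int.cast_zero, zero_mul, add_zero, Finset.mul_sum]
    exact Finset.sum_congr rfl fun i _ => by ring
  have e2 : ∑ i ∈ range (k + 2), (((k : R) + 2) * ((tau (k + 2) (i + 1) : R) * w ^ (i + 1))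
      + ((k : R) + 1) * ((tau k (i + 1) : R) * w ^ (i + 1)))
      = ∑ i ∈ range (k + 2), ((2 * (k : R) + 3) * ((tau (k + 1) (i + 1) : R) * w ^ (i + 1))
        + 4 * ((k : R) + 1) * ((tau k i : R) * w ^ (i + 1))) := by
    refine Finset.sum_congr rfl fun i _ => ?_
    have := congrArg (Int.cast : ℤ → R) (tau_rec k i)
    push_cast at this
    linear_combination w ^ (i + 1) * this
  rw [Finset.sum_add_distrib, Finset.sum_add_distrib, ← Finset.mul_sum, ← Finset.mul_sum,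
    ← Finset.mul_sum, ← Finset.mul_sum, ← e] at e2
  have e3 : ∀ n, ee (k + 3) w n = ∑ i ∈ range (k + 2), (tau n (i + 1) : R) * w ^ (i + 1) + 1 := by
    intro n; rw [ee, Finset.sum_range_succ']; simp [tau]
  have a1 := e3 (k + 2)
  have a2 := e3 (k + 1)
  have a3 := e3 k
  linear_combination e2 + ((k : R) + 2) * a1 + ((k : R) + 1) * a3 - (2 * (k : R) + 3) * a2

def dE (x : R) (k : ℕ) : R := (1 + 2 * x) ^ k * ee (k + 1) (3 * x) k

theorem dl_dE (k : ℕ) : dl k = dE (-1 / 4 : ℚ) k := by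
  refine dl_unique (fun k => dE (-1 / 4 : ℚ) k) (by simp [dE, ee, tau])
    (by simp [dE, ee, tau, Finset.sum_range_succ]; norm_num) (fun k => ?_) k
  have h := ee_rec (3 * (-1 / 4) : ℚ) k
  rw [ee_indep _ k _ (by omega), ee_indep _ (k + 1) _ (by omega)] at h
  simp only [dE]
  linear_combination ((1 + 2 * (-1 / 4 : ℚ)) ^ k / 4) * h

def tE (m : ℕ) (x : R) : R := 4 * (-1) ^ (m + 1) * dE x (m + 1) * dE x m * (dE x (m + 1) - dE x m)

theorem map_tE {S : Type*} [CommRing S] (f : R →+* S) (m : ℕ) (x : R) :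
    f (tE m x) = tE m (f x) := by
  simp only [tE, dE, ee, map_mul, map_pow, map_sum, map_neg, map_one, map_intCast, map_sub,
    map_add, map_ofNat]

def tD (m : ℕ) (x : R) : R := 4 * (-1) ^ (m + 1) * DD (m + 2) x (m + 1) * DD (m + 2) x m
  * (DD (m + 2) x (m + 1) - DD (m + 2) x m)

theorem map_tD {S : Type*} [CommRing S] (f : R →+* S) (m : ℕ) (x : R) :
    f (tD m x) = tD m (f x) := by
  simp only [tD, DD, map_mul, map_pow, map_sum, map_neg, map_one, map_intCast, map_sub,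
    map_ofNat]

theorem ee_trunc (k : ℕ) (hk : 8 ≤ k) (x : ZMod 243) : ee (k + 1) (3 * x) k
    = 1 + (k.choose 2 : ZMod 243) * 2 * (3 * x) + (k.choose 4 : ZMod 243) * 6 * (3 * x) ^ 2
      + (k.choose 6 : ZMod 243) * 20 * (3 * x) ^ 3 + (k.choose 8 : ZMod 243) * 70 * (3 * x) ^ 4 := by
  obtain ⟨l, rfl⟩ := Nat.exists_eq_add_of_le hk
  have h3 : (3 : ZMod 243) ^ 5 = 0 := by decide
  rw [ee, show 8 + l + 1 = 5 + (l + 4) by ring, Finset.sum_range_add,
    Finset.sum_eq_zero (s := range (l + 4)) fun i _ => by rw [pow_add, mul_pow, h3]; simp]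
  simp [Finset.sum_range_succ, tau, Nat.choose]

theorem tE_small (a : ℕ) (ha : 1 ≤ a) (ha3 : a ≤ 3) : tE (3 ^ a - 1) (182 : ZMod 243) = -8 := by
  interval_cases a
  · simp [tE, dE, ee, tau, Finset.sum_range_succ, Nat.choose]; decide
  · rw [show 3 ^ 2 - 1 = 8 by norm_num, tE, dE, dE, ee_trunc _ (by norm_num),
      ee_trunc _ (by norm_num)]
    simp only [Nat.choose_eq_descFactorial_div_factorial]
    decide +kernel
  · rw [show 3 ^ 3 - 1 = 26 by norm_num, tE, dE, dE, ee_trunc _ (by norm_num),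
      ee_trunc _ (by norm_num)]
    simp only [Nat.choose_eq_descFactorial_div_factorial]
    decide +kernel

theorem tE_big (b m : ℕ) (hm : 3 ^ (4 + b) = m + 1) : tE m (182 : ZMod 243) = -8 := by
  have z : (243 : ZMod 243) = 0 := by decide
  have hy : ∀ b, (365 : ZMod 243) ^ 3 ^ (4 + b) = -1 := by
    intro b
    induction b with
    | zero => decide +kernel
    | succ b ih => rw [← add_assoc, pow_succ, pow_mul, ih]; decide
  have hy1 := hy b
  rw [hm] at hy1
  have hy0 : (365 : ZMod 243) ^ m = -2 := by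
    rw [pow_succ] at hy1
    linear_combination 2 * hy1 - 3 * (365 : ZMod 243) ^ m * z
  set q : ℕ := 3 ^ b with hq
  have hmq : (m : ℤ) = 81 * q - 1 := by
    have := congrArg (Nat.cast : ℕ → ℤ) hm
    rw [pow_add] at this
    push_cast at this
    rw [hq]; push_cast; linear_combination -this
  have hm8 : 8 ≤ m := by
    have : 1 ≤ q := Nat.one_le_pow _ _ (by norm_num)
    omega
  have c := fun i => congrArg (Int.cast : ℤ → ZMod 243) (ch1 m i)
  have d := fun i => congrArg (Int.cast : ℤ → ZMod 243) (ch2 m i)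
  have c0 := c 0
  have c1 := c 1
  have c3 := c 3
  have c4 := c 4
  have c6 := c 6
  have c7 := c 7
  have c2 : (m.choose 3 : ℤ) = (27 * q - 1) * m.choose 2 := by
    have := ch1 m 2
    rw [hmq] at this
    push_cast at this
    linarith
  have c5 : 2 * (m.choose 6 : ℤ) = (27 * q - 2) * m.choose 5 := by
    have := ch1 m 5
    rw [hmq] at this
    push_cast at this
    linarith
  have d5 : 2 * ((m + 1).choose 6 : ℤ) = (27 * q) * m.choose 5 := by
    have := ch2 m 5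
    rw [hmq] at this
    push_cast at this
    linarith
  have c2' := congrArg (Int.cast : ℤ → ZMod 243) c2
  have c5' := congrArg (Int.cast : ℤ → ZMod 243) c5
  have d5' := congrArg (Int.cast : ℤ → ZMod 243) d5
  have d1 := d 1
  have d3 := d 3
  have d7 := d 7
  have hmz := congrArg (Int.cast : ℤ → ZMod 243) hmq
  push_cast at c0 c1 c3 c4 c6 c7 c2' c5' d5' d1 d3 d7 hmz
  rw [hmz] at c0 c1 c3 c4 c6 c7 d1 d3 d7
  simp only [Nat.choose_zero_right, Nat.cast_one] at c0
  have can : ∀ (u v s t : ZMod 243), u * v = 1 → u * s = u * t → s = t := by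
    intro u v s t h1 h2
    linear_combination v * h2 - (s - t) * h1
  set Q : ZMod 243 := (q : ZMod 243)
  have f1 : 3 * (m.choose 1 : ZMod 243) = -3 := by linear_combination 3 * c0 + Q * z
  have f2 : 3 * (m.choose 2 : ZMod 243) = 3 := can 2 122 _ _ (by decide) (by
    linear_combination 3 * c1 + (81 * Q - 2) * f1 - Q * z)
  have f3 : 9 * (m.choose 3 : ZMod 243) = -9 := by
    linear_combination 9 * c2' + 3 * (27 * Q - 1) * f2 + Q * z
  have f4 : 9 * (m.choose 4 : ZMod 243) = 9 := can 4 61 _ _ (by decide) (by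
    linear_combination 9 * c3 + (81 * Q - 4) * f3 - 3 * Q * z)
  have f5 : 9 * (m.choose 5 : ZMod 243) = -9 := can 5 146 _ _ (by decide) (by
    linear_combination 9 * c4 + (81 * Q - 5) * f4 + 3 * Q * z)
  have f6 : 9 * (m.choose 6 : ZMod 243) = 9 := can 2 122 _ _ (by decide) (by
    linear_combination 9 * c5' + (27 * Q - 2) * f5 - Q * z)
  have f7 : 9 * (m.choose 7 : ZMod 243) = -9 := can 7 139 _ _ (by decide) (by
    linear_combination 9 * c6 + (81 * Q - 7) * f6 + 3 * Q * z)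
  have f8 : 9 * (m.choose 8 : ZMod 243) = 9 := can 8 152 _ _ (by decide) (by
    linear_combination 9 * c7 + (81 * Q - 8) * f7 - 3 * Q * z)
  have g2 : 3 * ((m + 1).choose 2 : ZMod 243) = 0 := can 2 122 _ _ (by decide) (by
    linear_combination 3 * d1 + Q * (m.choose 1 : ZMod 243) * z)
  have g4 : 3 * ((m + 1).choose 4 : ZMod 243) = 0 := can 4 61 _ _ (by decide) (by
    linear_combination 3 * d3 + Q * (m.choose 3 : ZMod 243) * z)
  have g6 : 9 * ((m + 1).choose 6 : ZMod 243) = 0 := can 2 122 _ _ (by decide) (by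
    linear_combination 9 * d5' + Q * (m.choose 5 : ZMod 243) * z)
  have g8 : 3 * ((m + 1).choose 8 : ZMod 243) = 0 := can 8 152 _ _ (by decide) (by
    linear_combination 3 * d7 + Q * (m.choose 7 : ZMod 243) * z)
  have E1 : ee (m + 1 + 1) (3 * (182 : ZMod 243)) (m + 1) = 1 := by
    rw [ee_trunc _ (by omega)]
    linear_combination (2 * 182) * g2 + (18 * 182 ^ 2) * g4 + (60 * 182 ^ 3) * g6
      + (27 * 70 * 182 ^ 4) * g8
  have E0 : ee (m + 1) (3 * (182 : ZMod 243)) m = 1 + 2 * (3 * 182) + 6 * (3 * 182) ^ 2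
      + 20 * (3 * 182) ^ 3 + 70 * (3 * 182) ^ 4 := by
    rw [ee_trunc _ hm8]
    linear_combination (2 * 182) * f2 + (6 * 182 ^ 2) * f4 + (60 * 182 ^ 3) * f6
      + (9 * 70 * 182 ^ 4) * f8
  have hodd : Odd (m + 1) := by rw [← hm]; exact Odd.pow (by decide)
  rw [tE, dE, dE, E1, E0, show (1 + 2 * 182 : ZMod 243) = 365 by norm_num, hy1, hy0, hodd.neg_one_pow]
  decide

def od (i : ℕ) : ℤ := ∏ j ∈ range i, (2 * (j : ℤ) + 1)

theorem od_odd (i : ℕ) : Odd (od i) := by
  induction i with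
  | zero => simp [od]
  | succ i ih => rw [od, Finset.prod_range_succ]; exact Odd.mul ih ⟨i, rfl⟩

theorem od_eq (i : ℕ) : ((2 * i).choose i : ℤ) * i.factorial = 2 ^ i * od i := by
  induction i with
  | zero => simp [od]
  | succ i ih =>
    have h1 := congrArg (Nat.cast : ℕ → ℤ) (Nat.succ_mul_centralBinom_succ i)
    rw [Nat.centralBinom_eq_two_mul_choose, Nat.centralBinom_eq_two_mul_choose] at h1
    rw [od, Finset.prod_range_succ, ← od, Nat.factorial_succ]
    push_cast at h1 ⊢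
    linear_combination (i.factorial : ℤ) * h1 + 2 * (2 * (i : ℤ) + 1) * ih

theorem phi_eq (i k : ℕ) : phi i k = ((k + i).choose (2 * i) : ℤ) * ((2 * i).choose i : ℤ) := by
  have := Nat.choose_mul (n := k + i) (k := 2 * i) (s := i) (by omega)
  rw [Nat.add_sub_cancel, show 2 * i - i = i by omega] at this
  have h := congrArg (Nat.cast : ℕ → ℤ) this
  push_cast at h
  rw [phi, h, mul_comm]

def gg (m i : ℕ) : ℤ := od i * (m.descFactorial (m - i) : ℤ)

def VV (m : ℕ) : ℤ := ∑ i ∈ range (m + 1), gg m i ^ 2 *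
  ∑ k ∈ range (m + 1), (2 * (k : ℤ) + 1) * (-1) ^ k * ((k + i).choose (2 * i) : ℤ) ^ 2

theorem VV_eq (m : ℕ) : (VV m : ℚ) = (m.factorial : ℚ) ^ 2 * ∑ k ∈ range (m + 1),
    (2 * (k : ℚ) + 1) * (-1) ^ k * ∑ i ∈ range (m + 1), (phi i k : ℚ) * phi i k * (1 / 4) ^ i := by
  rw [VV]
  push_cast
  simp only [Finset.mul_sum]
  rw [Finset.sum_comm]
  refine Finset.sum_congr rfl fun k _ => Finset.sum_congr rfl fun i hi => ?_
  have hi' : i ≤ m := Nat.lt_succ_iff.mp (mem_range.mp hi)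
  have h1 := congrArg (Nat.cast : ℕ → ℚ) (Nat.factorial_mul_descFactorial (Nat.sub_le m i))
  rw [Nat.sub_sub_self hi'] at h1
  have h2 := congrArg (Int.cast : ℤ → ℚ) (od_eq i)
  have h3 : (gg m i : ℚ) = m.factorial * ((2 * i).choose i : ℚ) * (1 / 2) ^ i := by
    rw [gg]
    push_cast at h1 h2 ⊢
    rw [← h1, one_div, inv_pow]
    field_simp
    linear_combination -h2
  rw [h3, phi_eq, show (1 / 4 : ℚ) ^ i = ((1 / 2) ^ i) ^ 2 by
    rw [← pow_mul, mul_comm, pow_mul]; norm_num]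
  push_cast
  ring

theorem gg_even (m i : ℕ) (h : i + 2 ≤ m ∨ (i + 1 ≤ m ∧ Even m)) : (4 : ℤ) ∣ gg m i ^ 2 := by
  rw [show (4 : ℤ) = 2 ^ 2 by norm_num]
  refine pow_dvd_pow_of_dvd (Dvd.dvd.mul_left ?_ _) 2
  rcases h with h | ⟨h, h2⟩
  · have h1 : (2 : ℕ) ∣ (m - i).factorial := Nat.dvd_factorial (by norm_num) (by omega)
    exact_mod_cast h1.trans (Nat.factorial_dvd_descFactorial _ _)
  · obtain ⟨n, rfl⟩ : ∃ n, m = n + 1 := ⟨m - 1, by omega⟩
    rw [show n + 1 - i = (n - i) + 1 by omega, Nat.succ_descFactorial_succ]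
    exact_mod_cast h2.two_dvd.mul_right _

theorem VV_mod (m : ℕ) : VV m % 4 = if Even m then 1 else 3 := by
  have top : ∑ k ∈ range (m + 1), (2 * (k : ℤ) + 1) * (-1) ^ k * ((k + m).choose (2 * m) : ℤ) ^ 2
      = (2 * (m : ℤ) + 1) * (-1) ^ m := by
    rw [Finset.sum_range_succ, Finset.sum_eq_zero, ← two_mul]
    · simp
    · intro k hk
      rw [Nat.choose_eq_zero_of_lt (by have := mem_range.mp hk; omega)]; simp
  obtain ⟨u, hu⟩ := od_odd m
  have g1 : gg m m = 2 * u + 1 := by simp [gg, hu]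
  split_ifs with he
  · rw [VV, Finset.sum_range_succ, top, he.neg_one_pow, g1]
    obtain ⟨c, hc⟩ : (4 : ℤ) ∣ ∑ i ∈ range m, gg m i ^ 2 * ∑ k ∈ range (m + 1),
        (2 * (k : ℤ) + 1) * (-1) ^ k * ((k + i).choose (2 * i) : ℤ) ^ 2 :=
      Finset.dvd_sum fun i hi => (gg_even m i (Or.inr ⟨mem_range.mp hi, he⟩)).mul_right _
    obtain ⟨r, rfl⟩ := he
    rw [hc, show 4 * c + (2 * u + 1) ^ 2 * ((2 * ((r + r : ℕ) : ℤ) + 1) * 1)
      = 1 + 4 * (c + (u ^ 2 + u) * (4 * r + 1) + r) by push_cast; ring, Int.add_mul_emod_self_left]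
    rfl
  · obtain ⟨r, rfl⟩ := Nat.not_even_iff_odd.mp he
    have hodd : Odd (2 * r + 1) := ⟨r, rfl⟩
    have heven : Even (2 * r) := ⟨r, by ring⟩
    have sec : ∑ k ∈ range (2 * r + 1 + 1), (2 * (k : ℤ) + 1) * (-1) ^ k
        * ((k + 2 * r).choose (2 * (2 * r)) : ℤ) ^ 2
        = (4 * (r : ℤ) + 1) - (4 * (r : ℤ) + 3) * (4 * (r : ℤ) + 1) ^ 2 := by
      rw [Finset.sum_range_succ, Finset.sum_range_succ, Finset.sum_eq_zero, ← two_mul,
        show 2 * r + 1 + 2 * r = 2 * (2 * r) + 1 by ring, Nat.choose_succ_self_right,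
        hodd.neg_one_pow, heven.neg_one_pow]
      · simp; ring
      · intro k hk
        rw [Nat.choose_eq_zero_of_lt (by have := mem_range.mp hk; omega)]; simp
    obtain ⟨v, hv⟩ : Odd (gg (2 * r + 1) (2 * r)) := by
      rw [gg, show 2 * r + 1 - 2 * r = 1 by omega, Nat.descFactorial_one]
      exact (od_odd _).mul (by exact_mod_cast hodd)
    rw [VV, Finset.sum_range_succ, Finset.sum_range_succ, top, sec, hodd.neg_one_pow, g1, hv]
    obtain ⟨c, hc⟩ : (4 : ℤ) ∣ ∑ i ∈ range (2 * r), gg (2 * r + 1) i ^ 2 *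
        ∑ k ∈ range (2 * r + 1 + 1),
          (2 * (k : ℤ) + 1) * (-1) ^ k * ((k + i).choose (2 * i) : ℤ) ^ 2 :=
      Finset.dvd_sum fun i hi =>
        (gg_even _ i (Or.inl (by have := mem_range.mp hi; omega))).mul_right _
    rw [hc]
    have : 4 * c + (2 * v + 1) ^ 2 * ((4 * r + 1) - (4 * r + 3) * (4 * r + 1) ^ 2)
        + (2 * u + 1) ^ 2 * ((2 * ((2 * r + 1 : ℕ) : ℤ) + 1) * -1)
        = 3 + 4 * (c + (v ^ 2 + v) * ((4 * r + 1) - (4 * r + 3) * (4 * r + 1) ^ 2)
          - (u ^ 2 + u) * (4 * r + 3) - 2 - 16 * r ^ 3 - 20 * r ^ 2 - 7 * r) := by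
      push_cast; ring
    rw [this, Int.add_mul_emod_self_left]
    rfl

end Pool.Agent.H27.DelF
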