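import Pool.Agent.H27.DelC

namespace Pool.Agent.H27.DelG
open Finset Pool.Agent.H27.DelA Pool.Agent.H27.DelC

theorem phi_eq (i k : ℕ) : phi i k = ((k + i).choose (2 * i) : ℤ) * ((2 * i).choose i : ℤ) := by
  have := Nat.choose_mul (n := k + i) (k := 2 * i) (s := i) (by omega)
  rw [Nat.add_sub_cancel, show 2 * i - i = i by omega] at this
  have h := congrArg (Nat.cast : ℕ → ℤ) this
  push_cast at h
  rw [phi, h, mul_comm]

theorem psi_succ (m i : ℕ) :
    ((i : ℤ) + 1) ^ 2 * psi m (i + 1) = (((m : ℤ) + 1) ^ 2 - (i + 1) ^ 2) * psi m i := by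
  have h1 := ch1 m i
  have h2 := ch2 (m + 1 + i) i
  unfold psi
  rw [← add_assoc]
  push_cast at h2
  linear_combination (((i : ℤ) + 1) * ((m + 1 + i + 1).choose (i + 1) : ℤ)) * h1
    + (((m : ℤ) - i) * (m.choose i : ℤ)) * h2

theorem psi_top (m : ℕ) : psi m (m + 1) = 0 := by simp [psi]

theorem psi_phi (m i : ℕ) : ((m : ℤ) + 1) * psi m i = ((m : ℤ) + 1 + i) * phi i m := by
  have h := ch3 (m + i) i
  unfold psi phi
  rw [show m + 1 + i = m + i + 1 by ring]
  push_cast at h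
  linear_combination (-(m.choose i : ℤ)) * h

theorem sum_pp (i j m : ℕ) :
    (1 + (i : ℤ) + j) * ∑ l ∈ range (m + 1), (2 * (l : ℤ) + 1) * (phi i l * phi j l)
      = ((m : ℤ) + 1) ^ 2 * (psi m i * psi m j) := by
  have key : (1 + (i : ℤ) + j) * ∑ l ∈ range (m + 1), (2 * (l : ℤ) + 1) * (phi i l * phi j l)
      = (((m : ℤ) + 1 + i) * phi i m) * (((m : ℤ) + 1 + j) * phi j m) := by
    induction m with
    | zero =>
      rcases i with _ | i
      · rcases j with _ | j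
        · simp [phi]
        · simp [phi]
      · simp [phi]
    | succ m ih =>
      rw [Finset.sum_range_succ, mul_add, ih, ← phi_step, ← phi_step]
      push_cast
      ring
  rw [key, ← psi_phi, ← psi_phi]; ring

theorem sum_phi (s m : ℕ) : ∑ l ∈ range (m + 1), (2 * (l : ℤ) + 1) * phi s l
    = ((m : ℤ) + 1) * (((m + 1).choose (s + 1) : ℤ) * ((m + 1 + s).choose s : ℤ)) := by
  have h := sum_pp s 0 m
  have h0 : ∀ l, phi 0 l = 1 := fun l => by simp [phi]
  have h2 := ch2 m s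
  simp only [h0, mul_one] at h
  have hne : (1 + (s : ℤ) + (0 : ℕ)) ≠ 0 := by positivity
  apply mul_left_cancel₀ hne
  rw [h]
  simp only [psi, Nat.choose_zero_right]
  push_cast
  linear_combination (-((m : ℤ) + 1) * ((m + 1 + s).choose s : ℤ)) * h2

theorem dvd_pp (i j m : ℕ) :
    ((m : ℤ) + 1) ∣ ∑ l ∈ range (m + 1), (2 * (l : ℤ) + 1) * (phi i l * phi j l) := by
  have e : ∑ l ∈ range (m + 1), (2 * (l : ℤ) + 1) * (phi i l * phi j l)
      = ∑ s ∈ range (m + 1), cc i j s * ∑ l ∈ range (m + 1), (2 * (l : ℤ) + 1) * phi s l := by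
    simp only [Finset.mul_sum]
    rw [Finset.sum_comm]
    refine Finset.sum_congr rfl fun l hl => ?_
    rw [phi_mul l (m + 1) (mem_range.mp hl), Finset.mul_sum]
    exact Finset.sum_congr rfl fun s _ => by ring
  rw [e]
  exact Finset.dvd_sum fun s _ => by rw [sum_phi]; exact (dvd_mul_right _ _).mul_left _

/-- the kernel `n ψ_i ψ_j / (1 + i + j)` -/
def kr (m i j : ℕ) : ℚ := ((m : ℚ) + 1) * (psi m i * psi m j) / (1 + i + j)

theorem kr_mul (m i j : ℕ) : ((m : ℚ) + 1) * kr m i j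
    = ∑ l ∈ range (m + 1), (2 * (l : ℚ) + 1) * (phi i l * phi j l) := by
  have h := congrArg (Int.cast : ℤ → ℚ) (sum_pp i j m)
  push_cast at h
  have hne : (1 + (i : ℚ) + j) ≠ 0 := by positivity
  unfold kr
  rw [← mul_div_assoc, div_eq_iff hne]
  linear_combination -h

theorem kr_int (m i j : ℕ) : ∃ z : ℤ, kr m i j = z := by
  obtain ⟨z, hz⟩ := dvd_pp i j m
  refine ⟨z, ?_⟩
  have h := congrArg (Int.cast : ℤ → ℚ) hz
  push_cast at h
  have hne : ((m : ℚ) + 1) ≠ 0 := by positivity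
  apply mul_left_cancel₀ hne
  rw [kr_mul, h]

def KO : ℕ → ℤ
  | 0 => 1
  | r + 1 => (2 * r + 3) * KO r

theorem KO_ne (r : ℕ) : KO r ≠ 0 := by
  induction r with
  | zero => simp [KO]
  | succ r ih => exact mul_ne_zero (by positivity) ih

theorem cb_succ (k : ℕ) : ((k : ℤ) + 1) * ((2 * (k + 1)).choose (k + 1) : ℤ)
    = 2 * (2 * k + 1) * ((2 * k).choose k : ℤ) := by
  have := congrArg (Nat.cast : ℕ → ℤ) (Nat.succ_mul_centralBinom_succ k)
  simp only [Nat.centralBinom] at this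
  push_cast at this
  exact this

theorem KO_dvd (r : ℕ) : ∀ k : ℕ, (2 * (k : ℤ) - (2 * r + 1)) ∣ KO r * ((2 * k).choose k : ℤ) := by
  induction r with
  | zero =>
    intro k
    rcases k with _ | k
    · simp
    · refine ⟨4 * ((2 * k).choose k : ℤ) - ((2 * (k + 1)).choose (k + 1) : ℤ), ?_⟩
      have := cb_succ k
      simp only [KO]; push_cast
      linear_combination 2 * this
  | succ r ih =>
    intro k
    rcases k with _ | k
    · refine ⟨-KO r, ?_⟩
      simp only [KO]; push_cast; simp; ring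
    · obtain ⟨c, hc⟩ := ih k
      refine ⟨4 * (2 * k + 1) * c - KO r * ((2 * (k + 1)).choose (k + 1) : ℤ), ?_⟩
      have := cb_succ k
      simp only [KO]; push_cast
      linear_combination 2 * KO r * this + 4 * (2 * (k : ℤ) + 1) * hc

theorem odd_ne (i : ℕ) (u : ℤ) : (2 * (i : ℚ) - (2 * u + 1)) ≠ 0 := by
  have : (2 * (i : ℤ) - (2 * u + 1)) ≠ 0 := by omega
  exact_mod_cast this

theorem KO_int (r i : ℕ) (w : ℤ) :
    ∃ z : ℤ, (KO r : ℚ) * ((w * ((2 * i).choose i : ℤ) : ℤ) / (2 * (i : ℚ) - (2 * r + 1))) = z := by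
  obtain ⟨c, hc⟩ := KO_dvd r i
  refine ⟨w * c, ?_⟩
  have h := congrArg (Int.cast : ℤ → ℚ) hc
  have hne := odd_ne i r
  push_cast at h hne ⊢
  field_simp
  linear_combination w * h

/-- sequences that become integers after multiplying by integers `≡ c mod n`, `c ≠ 0` fixed -/
def Good (q : ℕ → ℚ) : Prop :=
  ∃ c : ℤ, c ≠ 0 ∧ ∀ m : ℕ, ∃ e z : ℤ, ((m : ℤ) + 1) ∣ e - c ∧ (e : ℚ) * q m = z

theorem Good.of_int {q : ℕ → ℚ} (h : ∀ m, ∃ z : ℤ, q m = z) : Good q :=
  ⟨1, one_ne_zero, fun m => by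
    obtain ⟨z, hz⟩ := h m
    exact ⟨1, z, by simp, by simp [hz]⟩⟩

theorem dvd_mul_sub {n e c e' c' : ℤ} (h : n ∣ e - c) (h' : n ∣ e' - c') : n ∣ e * e' - c * c' := by
  obtain ⟨a, ha⟩ := h
  obtain ⟨b, hb⟩ := h'
  exact ⟨a * e' + c * b, by linear_combination e' * ha + c * hb⟩

theorem Good.add {q q' : ℕ → ℚ} (h : Good q) (h' : Good q') : Good fun m => q m + q' m := by
  obtain ⟨c, hc, h⟩ := h
  obtain ⟨c', hc', h'⟩ := h'
  refine ⟨c * c', mul_ne_zero hc hc', fun m => ?_⟩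
  obtain ⟨e, z, h1, h2⟩ := h m
  obtain ⟨e', z', h1', h2'⟩ := h' m
  refine ⟨e * e', e' * z + e * z', dvd_mul_sub h1 h1', ?_⟩
  push_cast
  linear_combination e' * h2 + e * h2'

theorem Good.mul {q q' : ℕ → ℚ} (h : Good q) (h' : Good q') : Good fun m => q m * q' m := by
  obtain ⟨c, hc, h⟩ := h
  obtain ⟨c', hc', h'⟩ := h'
  refine ⟨c * c', mul_ne_zero hc hc', fun m => ?_⟩
  obtain ⟨e, z, h1, h2⟩ := h m
  obtain ⟨e', z', h1', h2'⟩ := h' m
  refine ⟨e * e', z * z', dvd_mul_sub h1 h1', ?_⟩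
  push_cast
  linear_combination (e' * q' m) * h2 + z * h2'

theorem Good.congr {q q' : ℕ → ℚ} (h : Good q) (e : ∀ m, q m = q' m) : Good q' := by
  rwa [show q' = q from funext fun m => (e m).symm]

theorem Good.sub {q q' : ℕ → ℚ} (h : Good q) (h' : Good q') : Good fun m => q m - q' m :=
  (h.add ((Good.of_int (q := fun _ => -1) fun _ => ⟨-1, by simp⟩).mul h')).congr
    fun m => by ring

theorem Good.div {q : ℕ → ℚ} (d : ℕ → ℤ) (c' : ℤ) (hc' : c' ≠ 0)
    (hd : ∀ m : ℕ, ((m : ℤ) + 1) ∣ d m - c') (h : Good fun m => d m * q m) : Good q := by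
  obtain ⟨c, hc, h⟩ := h
  refine ⟨c * c', mul_ne_zero hc hc', fun m => ?_⟩
  obtain ⟨e, z, h1, h2⟩ := h m
  refine ⟨e * d m, z, dvd_mul_sub h1 (hd m), ?_⟩
  push_cast
  linear_combination h2

theorem int_sum (n : ℕ) (f : ℕ → ℚ) (h : ∀ i, ∃ z : ℤ, f i = z) :
    ∃ z : ℤ, ∑ i ∈ range n, f i = z := by
  choose z hz using h
  exact ⟨∑ i ∈ range n, z i, by push_cast; exact Finset.sum_congr rfl fun i _ => hz i⟩

def PP (u : ℤ) (m : ℕ) : ℚ := ∑ i ∈ range (m + 1), (psi m i : ℚ) / (2 * i - (2 * u + 1))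

def gs (m i : ℕ) : ℚ := ∑ j ∈ range (m + 1), kr m i j

def GG (u : ℤ) (m : ℕ) : ℚ := ∑ i ∈ range (m + 1), gs m i / (2 * i - (2 * u + 1))

def TT (u v : ℤ) (m : ℕ) : ℚ := ∑ i ∈ range (m + 1), ∑ j ∈ range (m + 1),
  kr m i j / ((2 * i - (2 * u + 1)) * (2 * j - (2 * v + 1)))

theorem kr_comm (m i j : ℕ) : kr m i j = kr m j i := by
  unfold kr; rw [mul_comm (psi m i : ℚ), add_right_comm]

theorem TT_eq (u v : ℤ) (m : ℕ) : 2 * (2 + u + v) * TT u v m
    = 2 * ((m + 1) * PP u m) * PP v m - GG u m - GG v m := by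
  have e : GG v m = ∑ i ∈ range (m + 1), ∑ j ∈ range (m + 1),
      kr m i j / (2 * j - (2 * v + 1)) := by
    rw [Finset.sum_comm]
    unfold GG gs
    refine Finset.sum_congr rfl fun i _ => ?_
    rw [Finset.sum_div]
    exact Finset.sum_congr rfl fun j _ => by rw [kr_comm]
  have e2 : 2 * ((m + 1) * PP u m) * PP v m = 2 * (m + 1) * (PP u m * PP v m) := by ring
  rw [e, e2]
  unfold TT PP GG gs
  rw [Finset.sum_mul_sum]
  simp only [Finset.mul_sum, Finset.sum_div, ← Finset.sum_sub_distrib]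
  refine Finset.sum_congr rfl fun i _ => Finset.sum_congr rfl fun j _ => ?_
  have h1 := odd_ne i u
  have h2 := odd_ne j v
  have h3 : (1 + (i : ℚ) + j) ≠ 0 := by positivity
  unfold kr
  field_simp
  ring

theorem tele (n : ℕ) (f : ℕ → ℚ) (h0 : f 0 = 0) (hn : f n = 0) :
    ∑ i ∈ range n, f (i + 1) = ∑ i ∈ range n, f i := by
  have := Finset.sum_range_sub f n
  rw [Finset.sum_sub_distrib, h0, hn] at this
  linear_combination this

theorem psi_succQ (m i : ℕ) : ((i : ℚ) + 1) ^ 2 * psi m (i + 1)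
    = (((m : ℚ) + 1) ^ 2 - (i + 1) ^ 2) * psi m i := by
  exact_mod_cast psi_succ m i

theorem PP_shift (u : ℤ) (m : ℕ) : (2 * (u : ℚ) + 3) ^ 2 * (PP (u + 1) m + PP u m)
    = 4 * (m + 1) * ((m + 1) * PP u m)
      - ∑ i ∈ range (m + 1), (4 * (i : ℚ) + 4 * u + 8) * psi m i := by
  have h := tele (m + 1) (fun i => (2 * (i : ℚ)) ^ 2 * psi m i / (2 * i - (2 * (u + 1) + 1)))
    (by simp) (by simp [psi_top])
  unfold PP
  simp only [mul_add, Finset.mul_sum, ← Finset.sum_add_distrib, ← Finset.sum_sub_distrib]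
  rw [← sub_eq_zero] at h ⊢
  rw [← Finset.sum_sub_distrib] at h ⊢
  rw [← neg_eq_zero, ← Finset.sum_neg_distrib, ← h]
  refine Finset.sum_congr rfl fun i _ => ?_
  have h1 := odd_ne i u
  have h2 := odd_ne i (u + 1)
  have h3 := psi_succQ m i
  push_cast at h2 ⊢
  have h4 : (2 * ((i : ℚ) + 1) - (2 * (u + 1) + 1)) = 2 * i - (2 * u + 1) := by ring
  have h5 : (2 * ((i : ℚ) + 1)) ^ 2 * psi m (i + 1)
    = 4 * ((((m : ℚ) + 1) ^ 2 - (i + 1) ^ 2) * psi m i) := by rw [← h3]; ring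
  rw [h4, h5]
  field_simp
  ring

theorem gs_succ (m i : ℕ) : ((i : ℚ) + 1) ^ 2 * gs m (i + 1) = (i + 1) ^ 2 * gs m i
    + (m + 1) * psi m i * ∑ j ∈ range (m + 1), (2 * (j : ℚ) - (2 * i + 1)) * psi m j := by
  have h := tele (m + 1) (fun j => (j : ℚ) ^ 2 * kr m i j) (by simp) (by simp [kr, psi_top])
  unfold gs
  simp only [Finset.mul_sum, ← Finset.sum_add_distrib]
  rw [← sub_eq_zero] at h ⊢
  rw [← Finset.sum_sub_distrib] at h ⊢
  rw [← h]
  refine Finset.sum_congr rfl fun j _ => ?_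
  have h1 := psi_succQ m i
  have h2 := psi_succQ m j
  have h3 : (1 + (i : ℚ) + j) ≠ 0 := by positivity
  have h4 : (2 + (i : ℚ) + j) ≠ 0 := by positivity
  have e1 : ((i : ℚ) + 1) ^ 2 * kr m (i + 1) j
      = (m + 1) * (((m + 1) ^ 2 - (i + 1) ^ 2) * psi m i * psi m j) / (2 + i + j) := by
    rw [← h1]; unfold kr; push_cast
    rw [show (1 + ((i : ℚ) + 1) + j) = 2 + i + j by ring]; ring
  have e2 : ((j : ℚ) + 1) ^ 2 * kr m i (j + 1)
      = (m + 1) * (psi m i * (((m + 1) ^ 2 - (j + 1) ^ 2) * psi m j)) / (2 + i + j) := by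
    rw [← h2]; unfold kr; push_cast
    rw [show (1 + (i : ℚ) + (j + 1)) = 2 + i + j by ring]; ring
  push_cast
  rw [e1, e2]
  unfold kr
  field_simp
  ring

theorem GG_shift (u : ℤ) (m : ℕ) : (2 * (u : ℚ) + 3) ^ 2 * (GG (u + 1) m - GG u m)
    = 2 * ∑ i ∈ range (m + 1), gs m i
      + 8 * (∑ j ∈ range (m + 1), ((j : ℚ) - u - 1) * psi m j) * ((m + 1) * PP u m)
      - 4 * (m + 1) * (∑ j ∈ range (m + 1), (psi m j : ℚ)) * ∑ j ∈ range (m + 1), (psi m j : ℚ) := by
  have h := tele (m + 1) (fun i => (2 * (i : ℚ)) ^ 2 * gs m i / (2 * i - (2 * (u + 1) + 1)))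
    (by simp) (by simp [gs, kr, psi_top])
  set A := ∑ j ∈ range (m + 1), ((j : ℚ) - u - 1) * psi m j with hA
  set B := ∑ j ∈ range (m + 1), (psi m j : ℚ) with hB
  have hAB : ∀ i : ℕ, ∑ j ∈ range (m + 1), (2 * (j : ℚ) - (2 * i + 1)) * psi m j
      = 2 * A - (2 * i - (2 * u + 1)) * B := by
    intro i
    rw [hA, hB, Finset.mul_sum, Finset.mul_sum, ← Finset.sum_sub_distrib]
    exact Finset.sum_congr rfl fun j _ => by ring
  have e : 4 * (m + 1) * B * B = ∑ j ∈ range (m + 1), 4 * (m + 1) * B * (psi m j : ℚ) := by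
    rw [← Finset.mul_sum]
  rw [e]
  unfold GG PP
  simp only [mul_sub, Finset.mul_sum, ← Finset.sum_add_distrib, ← Finset.sum_sub_distrib]
  rw [← sub_eq_zero] at h ⊢
  rw [← Finset.sum_sub_distrib] at h ⊢
  rw [← neg_eq_zero, ← Finset.sum_neg_distrib, ← h]
  refine Finset.sum_congr rfl fun i _ => ?_
  have h1 := odd_ne i u
  have h2 := odd_ne i (u + 1)
  have h3 := gs_succ m i
  rw [hAB] at h3
  push_cast at h2 ⊢
  have h4 : (2 * ((i : ℚ) + 1) - (2 * (u + 1) + 1)) = 2 * i - (2 * u + 1) := by ring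
  have h5 : (2 * ((i : ℚ) + 1)) ^ 2 * gs m (i + 1) = 4 * ((i + 1) ^ 2 * gs m i
      + (m + 1) * psi m i * (2 * A - (2 * i - (2 * u + 1)) * B)) := by rw [← h3]; ring
  rw [h4, h5]
  field_simp
  ring

theorem good_psi (c : ℕ → ℤ) :
    Good fun m => ∑ i ∈ range (m + 1), (c i : ℚ) * psi m i :=
  Good.of_int fun m => int_sum _ _ fun i => ⟨c i * psi m i, by push_cast; ring⟩

theorem good_n : Good fun m => (m : ℚ) + 1 := Good.of_int fun m => ⟨m + 1, by push_cast; ring⟩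

theorem good_c (c : ℤ) : Good fun _ => (c : ℚ) := Good.of_int fun _ => ⟨c, rfl⟩

theorem good_P_nat (r : ℕ) : Good fun m => ((m : ℚ) + 1) * PP r m := by
  refine Good.div (fun _ => KO r) (KO r) (KO_ne r) (by simp) (Good.of_int fun m => ?_)
  unfold PP
  rw [Finset.mul_sum, Finset.mul_sum]
  refine int_sum _ _ fun i => ?_
  obtain ⟨z, hz⟩ := KO_int r i (((m : ℤ) + 1 + i) * ((m + i).choose (2 * i) : ℤ))
  refine ⟨z, ?_⟩
  have h := psi_phi m i
  rw [phi_eq, ← mul_assoc] at h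
  rw [← hz, ← h]
  push_cast
  ring

theorem good_P_down (u : ℤ) (h : Good fun m => ((m : ℚ) + 1) * PP (u + 1) m) :
    Good fun m => ((m : ℚ) + 1) * PP u m := by
  refine Good.div (fun m => 4 * ((m : ℤ) + 1) ^ 2 - (2 * u + 3) ^ 2) (-(2 * u + 3) ^ 2)
    (neg_ne_zero.mpr (pow_ne_zero _ (by omega))) (fun m => ⟨4 * (m + 1), by ring⟩) ?_
  refine (((good_c ((2 * u + 3) ^ 2)).mul h).add
    (good_n.mul (good_psi fun i => 4 * i + 4 * u + 8))).congr fun m => ?_
  have := PP_shift u m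
  push_cast
  linear_combination (m + 1) * this

theorem good_P (r k : ℕ) : Good fun m => ((m : ℚ) + 1) * PP (r - k) m := by
  induction k with
  | zero => simpa using good_P_nat r
  | succ k ih =>
    apply good_P_down
    rw [show (r : ℤ) - (k + 1 : ℕ) + 1 = r - k by push_cast; ring]
    exact ih

theorem good_P' (u : ℤ) : Good fun m => ((m : ℚ) + 1) * PP u m := by
  have := good_P u.toNat (-u).toNat
  rwa [Int.toNat_sub_toNat_neg] at this

theorem good_PP (u : ℤ) : Good fun m => PP (u + 1) m + PP u m := by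
  refine Good.div (fun _ => (2 * u + 3) ^ 2) ((2 * u + 3) ^ 2) (pow_ne_zero _ (by omega))
    (by simp) ?_
  refine ((((good_c 4).mul good_n).mul (good_P' u)).sub
    (good_psi fun i => 4 * i + 4 * u + 8)).congr fun m => ?_
  have := PP_shift u m
  push_cast
  linear_combination -this

theorem good_GG (u : ℤ) : Good fun m => GG (u + 1) m - GG u m := by
  refine Good.div (fun _ => (2 * u + 3) ^ 2) ((2 * u + 3) ^ 2) (pow_ne_zero _ (by omega))
    (by simp) ?_
  have h1 : Good fun m => ∑ i ∈ range (m + 1), gs m i :=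
    Good.of_int fun m => int_sum _ _ fun i => int_sum _ _ fun j => kr_int m i j
  refine ((((good_c 2).mul h1).add (((good_c 8).mul (good_psi fun j => j - u - 1)).mul
    (good_P' u))).sub ((((good_c 4).mul good_n).mul (good_psi fun _ => 1)).mul
      (good_psi fun _ => 1))).congr fun m => ?_
  have := GG_shift u m
  push_cast
  simp only [one_mul]
  linear_combination -this

theorem good_T_step (v : ℤ) (k : ℕ) :
    Good fun m => 2 * (2 * (k : ℚ)) * TT (2 * k - 2 - v) v m := by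
  induction k with
  | zero => exact (good_c 0).congr fun m => by simp
  | succ k ih =>
    have h1 := good_PP (2 * k - 2 - v)
    have h2 := good_PP (2 * k - 2 - v + 1)
    have h3 := good_GG (2 * k - 2 - v)
    have h4 := good_GG (2 * k - 2 - v + 1)
    refine (((ih.add (((good_c 2).mul (good_P' v)).mul (h2.sub h1))).sub h3).sub h4).congr
      fun m => ?_
    have e1 := TT_eq (2 * k - 2 - v) v m
    have e2 := TT_eq (2 * k - 2 - v + 1 + 1) v m
    rw [show (2 * ((k + 1 : ℕ) : ℤ) - 2 - v) = 2 * k - 2 - v + 1 + 1 by push_cast; ring]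
    push_cast at e1 e2 ⊢
    linear_combination e1 - e2

theorem good_T (r : ℕ) : Good (TT r r) := by
  refine Good.div (fun _ => 4 * ((r : ℤ) + 1)) (4 * (r + 1)) (by positivity) (by simp) ?_
  refine (good_T_step r (r + 1)).congr fun m => ?_
  rw [show (2 * ((r + 1 : ℕ) : ℤ) - 2 - r) = r by push_cast; ring]
  push_cast; ring

end Pool.Agent.H27.DelG
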