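import Pool.Agent.H27.DelG

namespace Pool.Agent.H27.DelH
open Finset Pool.Agent.H27.DelA Pool.Agent.H27.DelC Pool.Agent.H27.DelG

theorem ccA (i j s : ℕ) : (((s : ℤ) + 1 - i) * (s + 1 - j)) * cc i j (s + 1)
    = (s + 1) * (i + j - s) * cc i j s := by
  unfold cc
  have h1 := ch3 s i
  have h2 := ch3 s j
  have h3 := ch1 (i + j) s
  push_cast at h3
  linear_combination (-((s : ℤ) + 1 - j) * ((s + 1).choose j : ℤ) * ((i + j).choose (s + 1) : ℤ)) * h1
    - (((s : ℤ) + 1) * (s.choose i : ℤ) * ((i + j).choose (s + 1) : ℤ)) * h2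
    + (((s : ℤ) + 1) * (s.choose i : ℤ) * (s.choose j : ℤ)) * h3

theorem ccD (i j s : ℕ) : (((j : ℤ) + 1) * (s + 1 - i)) * cc i (j + 1) (s + 1)
    = (s + 1) ^ 2 * cc i j s + ((s + 1 - i) * (s + 1 - j)) * cc i j (s + 1) := by
  unfold cc
  have h1 := ch3 s i
  have h2 := ch3 s j
  have h3 := ch1 (s + 1) j
  have h5 : ((i + (j + 1)).choose (s + 1) : ℤ) = (i + j).choose s + (i + j).choose (s + 1) := by
    rw [← add_assoc, Nat.choose_succ_succ]; push_cast; ring
  rw [h5]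
  push_cast at h3
  set a : ℤ := ((i + j).choose s : ℤ)
  set b : ℤ := ((i + j).choose (s + 1) : ℤ)
  linear_combination (((s : ℤ) + 1 - i) * (a + b) * ((s + 1).choose i : ℤ)) * h3
    - (a * ((s : ℤ) + 1) * (s.choose j : ℤ)) * h1
    - (a * ((s : ℤ) + 1 - i) * ((s + 1).choose i : ℤ)) * h2

theorem cc_comm (i j s : ℕ) : cc i j s = cc j i s := by
  unfold cc; rw [add_comm]; ring

theorem cc_big {i j s : ℕ} (h : s < j) : cc i j s = 0 := by
  simp [cc, Nat.choose_eq_zero_of_lt h]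

def cv (u v : ℕ → ℚ) (s : ℕ) : ℚ := conv (s + 1) u v s

theorem cv_eq (u v : ℕ → ℚ) {s M : ℕ} (h : s < M) : cv u v s
    = ∑ i ∈ range M, ∑ j ∈ range M, (cc i j s : ℚ) * (u i * v j) := by
  unfold cv conv
  have e : ∀ i, ∑ j ∈ range (s + 1), (cc i j s : ℚ) * (u i * v j)
      = ∑ j ∈ range M, (cc i j s : ℚ) * (u i * v j) := fun i =>
    Finset.sum_subset (range_subset_range.mpr h) fun j _ hj => by
      rw [cc_big (by simpa using hj)]; simp
  simp only [e]
  refine Finset.sum_subset (range_subset_range.mpr h) fun i _ hi => ?_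
  exact Finset.sum_eq_zero fun j _ => by rw [cc_comm, cc_big (by simpa using hi)]; simp

theorem cv_comm (u v : ℕ → ℚ) (s : ℕ) : cv u v s = cv v u s := by
  unfold cv conv
  rw [Finset.sum_comm]
  exact Finset.sum_congr rfl fun i _ => Finset.sum_congr rfl fun j _ => by rw [cc_comm]; ring

theorem cvA (u v : ℕ → ℚ) (s : ℕ) :
    cv (fun i => (s + 1 - i) * u i) (fun j => (s + 1 - j) * v j) (s + 1)
      = (s + 1) * (cv (fun i => i * u i) v s + cv u (fun j => j * v j) s - s * cv u v s) := by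
  rw [cv_eq _ _ (show s + 1 < s + 2 by omega), cv_eq _ _ (show s < s + 2 by omega),
    cv_eq _ _ (show s < s + 2 by omega), cv_eq _ _ (show s < s + 2 by omega)]
  simp only [Finset.mul_sum, ← Finset.sum_add_distrib, ← Finset.sum_sub_distrib]
  refine Finset.sum_congr rfl fun i _ => Finset.sum_congr rfl fun j _ => ?_
  have h := congrArg (Int.cast : ℤ → ℚ) (ccA i j s)
  push_cast at h
  linear_combination (u i * v j) * h

theorem cvD (u : ℕ → ℚ) (s : ℕ) :
    2 * cv (fun i => (s + 1 - i) * u i) (fun j => j) (s + 1)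
      = (s + 1) ^ 2 * cv u (fun _ => 1) s
        + (s + 1) * cv (fun i => (s + 1 - i) * u i) (fun _ => 1) (s + 1) := by
  rw [cv_eq _ _ (show s + 1 < s + 2 by omega), cv_eq _ _ (show s < s + 2 by omega),
    cv_eq _ _ (show s + 1 < s + 2 by omega)]
  simp only [Finset.mul_sum, ← Finset.sum_add_distrib]
  refine Finset.sum_congr rfl fun i _ => ?_
  have h := tele (s + 2) (fun j => ((j : ℚ) * (s + 1 - i)) * cc i j (s + 1) * u i) (by simp)
    (by rw [cc_big (by omega)]; simp)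
  rw [← sub_eq_zero] at h ⊢
  rw [← Finset.sum_sub_distrib] at h ⊢
  rw [← neg_eq_zero, ← Finset.sum_neg_distrib, ← h]
  refine Finset.sum_congr rfl fun j _ => ?_
  have h := congrArg (Int.cast : ℤ → ℚ) (ccD i j s)
  push_cast at h ⊢
  linear_combination (-u i) * h

theorem cv_lin (a b : ℚ) (u u' u'' v : ℕ → ℚ) (s : ℕ) (h : ∀ i, u i = a * u' i + b * u'' i) :
    cv u v s = a * cv u' v s + b * cv u'' v s := by
  unfold cv conv
  simp only [Finset.mul_sum, ← Finset.sum_add_distrib]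
  exact Finset.sum_congr rfl fun i _ => Finset.sum_congr rfl fun j _ => by rw [h]; ring

def ww (u : ℤ) (i : ℕ) : ℚ := 1 / (2 * i - (2 * u + 1))
def FF (u : ℤ) : ℕ → ℚ := cv (ww u) (ww u)
def GF (u : ℤ) : ℕ → ℚ := cv (ww u) fun _ => 1
def KF (u : ℤ) : ℕ → ℚ := cv (ww u) fun j => j
def HF : ℕ → ℚ := cv (fun _ => 1) fun _ => 1
def MF : ℕ → ℚ := cv (fun _ => 1) fun j => j

theorem HF_eq (s : ℕ) : HF s = ((2 * s).choose s : ℚ) * 2 ^ s := by
  have h := congrArg (Int.cast : ℤ → ℚ) (cc_sum 1 s (s + 1) (by omega))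
  push_cast at h
  simp only [one_pow, mul_one] at h
  unfold HF cv conv
  simp only [mul_one]
  rw [h]

theorem HH (s : ℕ) : ((s : ℚ) + 1) * HF (s + 1) = 4 * (2 * s + 1) * HF s := by
  have h := congrArg (Int.cast : ℤ → ℚ) (cb_succ s)
  push_cast at h
  rw [HF_eq, HF_eq, pow_succ]
  linear_combination (2 * 2 ^ s) * h

theorem ww0 (u : ℤ) (i : ℕ) : (2 * (i : ℚ) - (2 * u + 1)) * ww u i = 1 :=
  mul_one_div_cancel (odd_ne i u)

theorem ww1 (u : ℤ) (c : ℚ) (i : ℕ) :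
    (c - i) * ww u i = (2 * c - (2 * u + 1)) / 2 * ww u i + (-1 / 2) * 1 := by
  linear_combination (-1 / 2) * ww0 u i

theorem ww2 (u : ℤ) (i : ℕ) : i * ww u i = (2 * u + 1) / 2 * ww u i + (1 / 2) * 1 := by
  linear_combination (1 / 2) * ww0 u i

theorem MF_eq (s : ℕ) : 4 * MF s = 3 * s * HF s := by
  induction s with
  | zero => simp [MF, cv, conv]
  | succ s ih =>
    have hA := cvA (fun _ => 1) (fun _ => 1) s
    have hD := cvD (fun _ => 1) s
    have l1 : ∀ v t, cv (fun i => ((s : ℚ) + 1 - i) * 1) v t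
        = (s + 1) * cv (fun _ => 1) v t + (-1) * cv (fun i => i) v t :=
      fun v t => cv_lin _ _ _ _ _ _ _ fun i => by ring
    rw [l1, cv_comm (fun _ => 1) (fun j => ((s : ℚ) + 1 - j) * 1),
      cv_comm (fun i => i) (fun j => ((s : ℚ) + 1 - j) * 1), l1, l1] at hA
    rw [l1, l1] at hD
    simp only [mul_one] at hA hD
    rw [cv_comm (fun i => (i : ℚ)) (fun _ => 1), cv_comm (fun i => (i : ℚ)) (fun _ => 1)] at hA
    rw [cv_comm (fun i => (i : ℚ)) (fun _ => 1)] at hD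
    have hH := HH s
    unfold MF HF at *
    have hne : ((s : ℚ) + 1) ≠ 0 := by positivity
    apply mul_left_cancel₀ hne
    push_cast
    linear_combination (-8) * hA - 4 * hD - 4 * (s + 1) * ih + (s + 1) * hH

theorem E1 (u : ℤ) (s : ℕ) : (2 * (s + 1) - (2 * u + 1)) ^ 2 * FF u (s + 1)
    - 2 * (2 * (s + 1) - (2 * u + 1)) * GF u (s + 1) + HF (s + 1)
      = 4 * (s + 1) * (2 * u + 1 - s) * FF u s + 4 * (s + 1) * GF u s := by
  have hA := cvA (ww u) (ww u) s
  have l1 := fun v t => cv_lin _ _ _ _ _ v t (ww1 u (s + 1))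
  have l2 := fun v t => cv_lin _ _ _ _ _ v t (ww2 u)
  rw [l1, cv_comm (ww u) (fun j => ((s : ℚ) + 1 - j) * ww u j),
    cv_comm (fun _ => 1) (fun j => ((s : ℚ) + 1 - j) * ww u j), l1, l1,
    cv_comm (ww u) (fun j => j * ww u j), l2, cv_comm (fun _ => 1) (ww u),
    cv_comm (fun _ => 1) (ww u)] at hA
  unfold FF GF HF
  linear_combination 4 * hA

theorem E23 (u : ℤ) (s : ℕ) :
    ((2 * (s + 1) - (2 * u + 1)) * GF u (s + 1)
      = HF (s + 1) + 2 * HF s + 2 * (2 * u + 2 - s) * GF u s + 4 * KF u s) ∧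
    ((2 * (s + 1) - (2 * u + 1)) * KF u (s + 1)
      = (7 * s + 4) * HF s + (s + 1) * (2 * u + 3) * GF u s + 2 * (s + 1) * KF u s) := by
  have hA := cvA (ww u) (fun _ => 1) s
  have hD := cvD (ww u) s
  have l1 := fun v t => cv_lin _ _ _ _ _ v t (ww1 u (s + 1))
  have l2 := fun v t => cv_lin _ _ _ _ _ v t (ww2 u)
  have l3 : ∀ v t, cv (fun i => ((s : ℚ) + 1 - i) * 1) v t
      = (s + 1) * cv (fun _ => 1) v t + (-1) * cv (fun i => i) v t :=
    fun v t => cv_lin _ _ _ _ _ _ _ fun i => by ring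
  rw [l1, l2, cv_comm (ww u) (fun j => ((s : ℚ) + 1 - j) * 1),
    cv_comm (fun _ => 1) (fun j => ((s : ℚ) + 1 - j) * 1), l3, l3,
    cv_comm (fun _ => 1) (ww u), cv_comm (fun i => i) (ww u),
    cv_comm (fun i => (i : ℚ)) (fun _ => 1)] at hA
  rw [l1, l1] at hD
  simp only [mul_one] at hA
  have hM := MF_eq (s + 1)
  have hH := HH s
  unfold GF KF MF HF at *
  push_cast at hM
  have hne : ((s : ℚ) + 1) ≠ 0 := by positivity
  have h2 : (2 * (s + 1) - (2 * u + 1)) * cv (ww u) (fun _ => 1) (s + 1)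
      = cv (fun _ => 1) (fun _ => 1) (s + 1) + 2 * cv (fun _ => 1) (fun _ => 1) s
        + 2 * (2 * u + 2 - s) * cv (ww u) (fun _ => 1) s + 4 * cv (ww u) (fun j => j) s := by
    apply mul_left_cancel₀ hne
    linear_combination 4 * hA + 2 * hD
  refine ⟨h2, ?_⟩
  linear_combination hD + ((s : ℚ) + 1) / 2 * h2 + 1 / 4 * hM + 3 / 4 * hH

theorem tri_int (w : ℕ → ℚ)
    (h : ∀ k, ∃ z : ℤ, ∑ s ∈ range (k + 1), ((k + s).choose (2 * s) : ℚ) * w s = z) (s : ℕ) :
    ∃ z : ℤ, w s = z := by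
  induction s using Nat.strong_induction_on with
  | _ s ih =>
    obtain ⟨z, hz⟩ := h s
    rw [Finset.sum_range_succ, ← two_mul, Nat.choose_self] at hz
    have : ∃ y : ℤ, ∑ t ∈ range s, ((s + t).choose (2 * t) : ℚ) * w t = y := by
      have : ∀ t, ∃ y : ℤ, t < s → ((s + t).choose (2 * t) : ℚ) * w t = y := fun t => by
        by_cases ht : t < s
        · obtain ⟨y, hy⟩ := ih t ht
          exact ⟨(s + t).choose (2 * t) * y, fun _ => by rw [hy]; push_cast; ring⟩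
        · exact ⟨0, fun h => absurd h ht⟩
      choose y hy using this
      exact ⟨∑ t ∈ range s, y t, by
        push_cast; exact Finset.sum_congr rfl fun t ht => hy t (mem_range.mp ht)⟩
    obtain ⟨y, hy⟩ := this
    exact ⟨z - y, by push_cast; linear_combination hz - hy⟩

theorem cv_expand (k M : ℕ) (h : k < M) (u v : ℕ → ℚ) :
    (∑ i ∈ range M, (phi i k : ℚ) * u i) * (∑ i ∈ range M, (phi i k : ℚ) * v i)
      = ∑ s ∈ range M, (phi s k : ℚ) * cv u v s := by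
  rw [mul_expand k M h]
  exact Finset.sum_congr rfl fun s hs => by rw [cv_eq u v (mem_range.mp hs)]; rfl

theorem cv_int (a b : ℚ) (u v : ℕ → ℚ) (hu : ∀ i k, ∃ z : ℤ, a * (phi i k * u i) = z)
    (hv : ∀ i k, ∃ z : ℤ, b * (phi i k * v i) = z) (s : ℕ) :
    ∃ z : ℤ, ((2 * s).choose s : ℚ) * (a * b * cv u v s) = z := by
  refine tri_int (fun s => ((2 * s).choose s : ℚ) * (a * b * cv u v s)) (fun k => ?_) s
  obtain ⟨x, hx⟩ := int_sum (k + 1) _ fun i => hu i k
  obtain ⟨y, hy⟩ := int_sum (k + 1) _ fun i => hv i k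
  refine ⟨x * y, ?_⟩
  rw [← Finset.mul_sum] at hx hy
  have h := cv_expand k (k + 1) (by omega) u v
  push_cast
  rw [← hx, ← hy, mul_mul_mul_comm, h, Finset.mul_sum]
  exact Finset.sum_congr rfl fun s _ => by rw [phi_eq]; push_cast; ring

theorem ww_int (r i k : ℕ) : ∃ z : ℤ, (KO r : ℚ) * (phi i k * ww r i) = z := by
  obtain ⟨z, hz⟩ := KO_int r i ((k + i).choose (2 * i) : ℤ)
  exact ⟨z, by rw [← hz, phi_eq, ww]; push_cast; ring⟩

/-- `2 ^ k` divides `q` in the localization of the integers at `2` -/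
def Tw (k : ℕ) (q : ℚ) : Prop := ∃ n d : ℤ, Odd d ∧ (d : ℚ) * q = 2 ^ k * n

theorem Tw.add {k : ℕ} {q q' : ℚ} (h : Tw k q) (h' : Tw k q') : Tw k (q + q') := by
  obtain ⟨n, d, hd, h⟩ := h
  obtain ⟨n', d', hd', h'⟩ := h'
  exact ⟨d' * n + d * n', d * d', hd.mul hd', by push_cast; linear_combination d' * h + d * h'⟩

theorem Tw.mul {k : ℕ} {q : ℚ} (c : ℤ) (h : Tw k q) : Tw k (c * q) := by
  obtain ⟨n, d, hd, h⟩ := h
  exact ⟨c * n, d, hd, by push_cast; linear_combination c * h⟩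

theorem Tw.two {k : ℕ} {q : ℚ} (h : Tw k q) : Tw (k + 1) (2 * q) := by
  obtain ⟨n, d, hd, h⟩ := h
  exact ⟨n, d, hd, by linear_combination 2 * h⟩

theorem Tw.div {k : ℕ} {q q' : ℚ} (c : ℤ) (hc : Odd c) (h : Tw k q') (e : c * q = q') :
    Tw k q := by
  obtain ⟨n, d, hd, h⟩ := h
  exact ⟨n, d * c, hd.mul hc, by push_cast; linear_combination h + d * e⟩

theorem Tw.mono {k l : ℕ} {q : ℚ} (hl : l ≤ k) (h : Tw k q) : Tw l q := by
  obtain ⟨n, d, hd, h⟩ := h
  obtain ⟨j, rfl⟩ := Nat.exists_eq_add_of_le hl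
  exact ⟨2 ^ j * n, d, hd, by push_cast; linear_combination h⟩

theorem Tw.fin {k j : ℕ} {q : ℚ} (h : Tw k q) (z : ℤ) (hz : 2 ^ j * q = z) :
    ∃ y : ℤ, q = 2 ^ k * y := by
  obtain ⟨n, d, hd, h⟩ := h
  have hc : IsCoprime d (2 ^ (j + k) : ℤ) := by
    apply IsCoprime.pow_right
    obtain ⟨c, rfl⟩ := hd
    exact ⟨1, -c, by ring⟩
  obtain ⟨a, b, hab⟩ := hc
  refine ⟨a * n + b * z, ?_⟩
  have := congrArg (Int.cast : ℤ → ℚ) hab
  push_cast at this ⊢
  linear_combination (-q) * this + a * h + b * 2 ^ k * hz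

theorem tw_H (s : ℕ) : Tw s (HF s) :=
  ⟨(2 * s).choose s, 1, odd_one, by rw [HF_eq]; push_cast; ring⟩

theorem tw_H' (s : ℕ) : Tw (s + 2) (HF (s + 1)) := by
  obtain ⟨c, hc⟩ := Nat.two_dvd_centralBinom_of_one_le (show 1 ≤ s + 1 by omega)
  rw [Nat.centralBinom] at hc
  exact ⟨c, 1, odd_one, by rw [HF_eq, hc]; push_cast; ring⟩

theorem tw_GK (u : ℤ) (s : ℕ) : Tw s (GF u s) ∧ Tw s (2 * KF u s) := by
  induction s with
  | zero =>
    constructor
    · refine ⟨-1, 2 * u + 1, odd_two_mul_add_one u, ?_⟩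
      have := odd_ne 0 u
      simp only [GF, cv, conv, ww, cc] at this ⊢
      simp at this ⊢
      field_simp
      ring
    · exact ⟨0, 1, odd_one, by simp [KF, cv, conv]⟩
  | succ s ih =>
    have ho : Odd (2 * ((s : ℤ) - u) + 1) := odd_two_mul_add_one _
    obtain ⟨h2, h3⟩ := E23 u s
    constructor
    · refine Tw.div _ ho ((((tw_H (s + 1)).add (tw_H s).two).add
        (ih.1.mul (2 * u + 2 - s)).two).add ih.2.two) ?_
      push_cast; linear_combination h2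
    · refine Tw.div _ ho ((((tw_H s).mul (7 * s + 4)).add (ih.1.mul ((s + 1) * (2 * u + 3)))).add
        (ih.2.mul (s + 1))).two ?_
      push_cast; linear_combination 2 * h3

theorem FF_zero (u : ℤ) : (2 * (u : ℚ) + 1) ^ 2 * FF u 0 = 1 := by
  have := odd_ne 0 u
  simp only [FF, cv, conv, ww, cc] at this ⊢
  simp at this ⊢
  field_simp
  ring

theorem tw_F (u : ℤ) (s : ℕ) : Tw s (FF u s) ∧ Tw (s + 2) (FF u (s + 1)) := by
  have step : ∀ s, Tw s (FF u s) → Tw (s + 2) (FF u (s + 1)) := by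
    intro s h
    have ho : Odd ((2 * ((s : ℤ) - u) + 1) ^ 2) := (odd_two_mul_add_one _).pow
    refine Tw.div _ ho ((((h.mul ((s + 1) * (2 * u + 1 - s))).add
      ((tw_GK u s).1.mul (s + 1))).two.two.add
        ((tw_GK u (s + 1)).1.mul (2 * ((s : ℤ) - u) + 1)).two).add ((tw_H' s).mul (-1))) ?_
    push_cast; linear_combination E1 u s
  induction s with
  | zero =>
    have : Tw 0 (FF u 0) := ⟨1, (2 * u + 1) ^ 2, (odd_two_mul_add_one _).pow, by
      push_cast; rw [FF_zero]; simp⟩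
    exact ⟨this, step 0 this⟩
  | succ s ih =>
    have := ih.2.mono (show s + 1 ≤ s + 2 by omega)
    exact ⟨this, step _ this⟩

end Pool.Agent.H27.DelH
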