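import Pool.Agent.H27.DelH

namespace Pool.Agent.H27.DelI
open Finset Pool.Agent.H27.DelA Pool.Agent.H27.DelC Pool.Agent.H27.DelG Pool.Agent.H27.DelH

def eh (r s : ℕ) : ℚ := ((2 * s + 1).choose s : ℚ) * (KO r * KO r * FF r s)

theorem ch_odd (s : ℕ) : ((s : ℚ) + 1) * ((2 * s + 1).choose s : ℚ)
    = (2 * s + 1) * ((2 * s).choose s : ℚ) := by
  have h := congrArg (Int.cast : ℤ → ℚ) (ch3 (2 * s) s)
  push_cast at h
  linear_combination -h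

theorem ints (r s : ℕ) : ∃ f g k : ℤ, ((2 * s).choose s : ℚ) * (KO r * KO r * FF r s) = f ∧
    ((2 * s).choose s : ℚ) * (KO r * 1 * GF r s) = g ∧
    ((2 * s).choose s : ℚ) * (KO r * 1 * KF r s) = k := by
  obtain ⟨f, hf⟩ := cv_int _ _ _ _ (ww_int r) (ww_int r) s
  obtain ⟨g, hg⟩ := cv_int _ 1 _ (fun _ => 1) (ww_int r) (fun i k => ⟨phi i k, by simp⟩) s
  obtain ⟨k, hk⟩ := cv_int _ 1 _ (fun j => j) (ww_int r) (fun i k => ⟨phi i k * i, by simp⟩) s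
  exact ⟨f, g, k, hf, hg, hk⟩

theorem eh_int (r s j : ℕ) (q b c a' b' c' : ℤ)
    (h : (2 ^ j + (s + 1) * q) * (KO r * KO r * FF r s) + (s + 1) * b * (KO r * GF r s)
      + (s + 1) * c * (KO r * KF r s) + a' * (KO r * KO r * FF r (s + 1))
      + b' * (KO r * GF r (s + 1)) + c' * (KO r * KF r (s + 1)) = 0) :
    ∃ z : ℤ, 2 ^ (j + 1) * eh r s = z := by
  obtain ⟨f, g, k, hf, hg, hk⟩ := ints r s
  obtain ⟨f', g', k', hf', hg', hk'⟩ := ints r (s + 1)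
  have h1 := ch_odd s
  have h2 := congrArg (Int.cast : ℤ → ℚ) (cb_succ s)
  push_cast at h2
  refine ⟨-(2 * (2 * s + 1) * (q * f + b * g + c * k) + (a' * f' + b' * g' + c' * k')), ?_⟩
  have hne : ((s : ℚ) + 1) ≠ 0 := by positivity
  apply mul_left_cancel₀ hne
  push_cast
  rw [← hf, ← hg, ← hk, ← hf', ← hg', ← hk', eh]
  linear_combination (2 * (2 * s + 1) * ((2 * s).choose s : ℚ)) * h
    + (2 ^ (j + 1) * (KO r * KO r * FF r s)) * h1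
    + (a' * (KO r * KO r * FF r (s + 1)) + b' * (KO r * GF r (s + 1))
      + c' * (KO r * KF r (s + 1))) * h2

theorem ch_prod (n s : ℕ) : n.choose (s + 1) * (n + s).choose s
    = (n + s).choose (2 * s + 1) * (2 * s + 1).choose s := by
  have := Nat.choose_mul (n := n + s) (k := 2 * s + 1) (s := s) (by omega)
  rw [Nat.add_sub_cancel, show 2 * s + 1 - s = s + 1 by omega] at this
  rw [this, mul_comm]

theorem final (r k : ℕ) (h0 : eh r 0 = 1) (h : ∀ s, ∃ y : ℤ, eh r (s + 1) = 2 ^ k * y) (R : ℕ → ℚ)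
    (hR : ∀ l, R l = ∑ i ∈ range (l + 1), (KO r : ℚ) * (phi i l * ww r i)) (n : ℕ) (hn : 0 < n) :
    (∀ l, ∃ z : ℤ, R l = z) ∧
      ∃ z : ℤ, ∑ l ∈ range n, (2 * (l : ℚ) + 1) * R l ^ 2
        = (n : ℚ) ^ 2 + (2 : ℚ) ^ k * (n : ℚ) * (z : ℚ) := by
  refine ⟨fun l => by rw [hR]; exact int_sum _ _ fun i => ww_int r i l, ?_⟩
  obtain ⟨m, rfl⟩ : ∃ m, n = m + 1 := ⟨n - 1, by omega⟩
  choose y hy using h
  refine ⟨∑ s ∈ range m, ((m + 1 + (s + 1)).choose (2 * (s + 1) + 1) : ℤ) * y s, ?_⟩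
  have e : ∀ l ∈ range (m + 1), (2 * (l : ℚ) + 1) * R l ^ 2
      = ∑ s ∈ range (m + 1), (2 * (l : ℚ) + 1) * phi s l * (KO r * KO r * FF r s) := by
    intro l hl
    have hl' := mem_range.mp hl
    have e1 : R l = KO r * ∑ i ∈ range (m + 1), (phi i l : ℚ) * ww r i := by
      rw [hR, Finset.mul_sum]
      refine Finset.sum_subset (range_subset_range.mpr hl') fun i _ hi => ?_
      rw [phi_zero (by simpa using hi)]; simp
    rw [e1, pow_two, mul_mul_mul_comm, cv_expand l (m + 1) hl', Finset.mul_sum, Finset.mul_sum]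
    exact Finset.sum_congr rfl fun s _ => by unfold FF; ring
  rw [Finset.sum_congr rfl e, Finset.sum_comm]
  have e2 : ∀ s ∈ range (m + 1), ∑ l ∈ range (m + 1),
      (2 * (l : ℚ) + 1) * phi s l * (KO r * KO r * FF r s)
        = (m + 1) * (((m + 1 + s).choose (2 * s + 1) : ℚ) * eh r s) := by
    intro s _
    have h1 := congrArg (Int.cast : ℤ → ℚ) (sum_phi s m)
    have h2 := congrArg (Nat.cast : ℕ → ℚ) (ch_prod (m + 1) s)
    push_cast at h1 h2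
    rw [← Finset.sum_mul, h1, h2, eh]; ring
  rw [Finset.sum_congr rfl e2, Finset.sum_range_succ', h0]
  simp only [hy]
  push_cast
  rw [Finset.mul_sum, add_comm]
  congr 1
  · simp; ring
  · exact Finset.sum_congr rfl fun s _ => by ring

theorem inv0 (s : ℕ) : (s - s ^ 2 : ℚ) * FF 0 s - 12 * s ^ 2 * GF 0 s + (4 + 12 * s) * KF 0 s
    + 2 * s * HF s = 0 := by
  induction s with
  | zero => simp [KF, cv, conv]
  | succ s ih =>
    have h1 := E1 0 s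
    obtain ⟨h2, h3⟩ := E23 0 s
    have h4 := HH s
    have hne : (2 * ((s : ℚ) + 1) - 1) ^ 2 ≠ 0 := by
      rw [show 2 * ((s : ℚ) + 1) - 1 = 2 * s + 1 by ring]; positivity
    apply mul_left_cancel₀ hne
    obtain ⟨t, ht⟩ : ∃ t : ℚ, (s : ℚ) = t - 1 := ⟨s + 1, by ring⟩
    push_cast at h1 h2 h3 ⊢
    rw [ht] at h1 h2 h3 h4 ih ⊢
    linear_combination (t - t ^ 2) * h1 + (2 * t + 10 * t ^ 2 - 24 * t ^ 3) * h2
      + (-4 - 4 * t + 24 * t ^ 2) * h3 + (3 + 3 * t - 16 * t ^ 2) * h4 + (-4 * t ^ 2) * ih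

theorem eh0 (s : ℕ) : ∃ z : ℤ, 2 ^ (3 + 1) * eh 0 s = z := by
  refine eh_int 0 s 3 (-4) (-40) 0 (8 - 9 * (s + 1)) (8 - 100 * (s + 1)) 140 ?_
  have h1 := E1 0 s
  obtain ⟨h2, h3⟩ := E23 0 s
  have h4 := HH s
  have ih := inv0 s
  have hne : (2 * ((s : ℚ) + 1) - 1) ^ 2 ≠ 0 := by
    rw [show 2 * ((s : ℚ) + 1) - 1 = 2 * s + 1 by ring]; positivity
  apply mul_left_cancel₀ hne
  obtain ⟨t, ht⟩ : ∃ t : ℚ, (s : ℚ) = t - 1 := ⟨s + 1, by ring⟩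
  simp only [KO]
  push_cast at h1 h2 h3 ⊢
  rw [ht] at h1 h2 h3 h4 ih ⊢
  linear_combination (8 - 9 * t) * h1 + (8 + 98 * t - 200 * t ^ 2) * h2
    + (-140 + 280 * t) * h3 + (107 - 200 * t) * h4 + (-4 - 20 * t) * ih

theorem inv1 (s : ℕ) : (-18 * s + 33 * s ^ 2 - 18 * s ^ 3 + 3 * s ^ 4 : ℚ) * FF 1 s
    + (60 * s ^ 3 - 180 * s ^ 4) * GF 1 s + (-24 - 36 * s + 72 * s ^ 2 + 180 * s ^ 3) * KF 1 s
    + (-4 * s - 14 * s ^ 2 + 30 * s ^ 3) * HF s = 0 := by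
  induction s with
  | zero => simp [KF, cv, conv]
  | succ s ih =>
    have h1 := E1 1 s
    obtain ⟨h2, h3⟩ := E23 1 s
    have h4 := HH s
    have hne : (2 * ((s : ℚ) + 1) - 3) ^ 2 ≠ 0 := by
      have := odd_ne s 0
      exact pow_ne_zero _ fun h => this (by push_cast; linear_combination h)
    apply mul_left_cancel₀ hne
    obtain ⟨t, ht⟩ : ∃ t : ℚ, (s : ℚ) = t - 1 := ⟨s + 1, by ring⟩
    push_cast at h1 h2 h3 ⊢
    rw [ht] at h1 h2 h3 h4 ih ⊢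
    linear_combination (-18 * t + 33 * t ^ 2 - 18 * t ^ 3 + 3 * t ^ 4) * h1
      + (-36 * t + 66 * t ^ 2 - 216 * t ^ 3 + 666 * t ^ 4 - 360 * t ^ 5) * h2
      + (72 + 60 * t - 288 * t ^ 2 - 396 * t ^ 3 + 360 * t ^ 4) * h3
      + (-54 - 45 * t + 224 * t ^ 2 + 247 * t ^ 3 - 240 * t ^ 4) * h4 + (-4 * t ^ 2) * ih

theorem eh1 (s : ℕ) : ∃ z : ℤ, 2 ^ (7 + 1) * eh 1 s = z := by
  refine eh_int 1 s 7 (576 - 2632 * (s + 1) + 620 * (s + 1) ^ 2)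
    (466 - 2770 * (s + 1) + 174 * (s + 1) ^ 2) (84 - 168 * (s + 1))
    (-384 + 1902 * (s + 1) - 2030 * (s + 1) ^ 2 + 621 * (s + 1) ^ 3)
    (-384 + 3061 * (s + 1) - 391 * (s + 1) ^ 2 - 6 * (s + 1) ^ 3) (-1844 - 922 * (s + 1)) ?_
  have h1 := E1 1 s
  obtain ⟨h2, h3⟩ := E23 1 s
  have h4 := HH s
  have ih := inv1 s
  have hne : (2 * ((s : ℚ) + 1) - 3) ^ 2 ≠ 0 := by
    have := odd_ne s 0
    exact pow_ne_zero _ fun h => this (by push_cast; linear_combination h)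
  apply mul_left_cancel₀ hne
  obtain ⟨t, ht⟩ : ∃ t : ℚ, (s : ℚ) = t - 1 := ⟨s + 1, by ring⟩
  simp only [KO]
  push_cast at h1 h2 h3 ⊢
  rw [ht] at h1 h2 h3 h4 ih ⊢
  linear_combination -((3456 - 17118 * t + 18270 * t ^ 2 - 5589 * t ^ 3) * h1
    + (3456 - 4383 * t + 14655 * t ^ 2 - 8886 * t ^ 3 + 36 * t ^ 4) * h2
    + (-16596 + 2766 * t + 5532 * t ^ 2) * h3
    + (12735 - 3615 * t - 3297 * t ^ 2 + 36 * t ^ 3) * h4 + (-144 + 12 * t) * ih)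

theorem tw_eh (r s : ℕ) : Tw (s + 2) (eh r (s + 1)) := by
  have := (tw_F r s).2.mul (((2 * (s + 1) + 1).choose (s + 1) : ℤ) * (KO r * KO r))
  convert this using 1
  rw [eh]; push_cast; ring

theorem div0 (s : ℕ) : ∃ y : ℤ, eh 0 (s + 1) = 2 ^ 4 * y := by
  obtain ⟨z, hz⟩ := eh0 (s + 1)
  refine Tw.fin ?_ z hz
  rcases s with _ | _ | s
  · exact ⟨0, 1, odd_one, by
      simp [eh, FF, cv, conv, ww, cc, KO, Finset.sum_range_succ, Nat.choose]; norm_num⟩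
  · have := ((tw_F 0 1).2.mul 5).two
    convert this using 1
    simp [eh, KO, Nat.choose]; ring
  · exact (tw_eh 0 _).mono (by omega)

theorem div1 (s : ℕ) : ∃ y : ℤ, eh 1 (s + 1) = 2 ^ 3 * y := by
  obtain ⟨z, hz⟩ := eh1 (s + 1)
  refine Tw.fin ?_ z hz
  rcases s with _ | s
  · exact ⟨9, 1, odd_one, by
      simp [eh, FF, cv, conv, ww, cc, KO, Finset.sum_range_succ, Nat.choose]; norm_num⟩
  · exact (tw_eh 1 _).mono (by omega)

end Pool.Agent.H27.DelI
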