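import Pool.Agent.H27.DelD
import Pool.Agent.H27.DelG

namespace Pool.Agent.H27.DelJ
open Finset Polynomial Pool.Agent.H27.DelA

theorem kummer (x y a c : ℕ) (h : ∀ t, c < t → t ≤ a → 3 ^ t ≤ y % 3 ^ t + x % 3 ^ t) :
    3 ^ a ∣ 3 ^ c * (x + y).choose y := by
  rcases le_or_gt a c with hac | hac
  · exact (pow_dvd_pow 3 hac).mul_right _
  haveI : Fact (Nat.Prime 3) := ⟨Nat.prime_three⟩
  have h1 := padicValNat_choose' (p := 3) (n := x) (k := y) (b := a + Nat.log 3 (x + y) + 1)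
    (by omega)
  have h2 : a - c ≤ padicValNat 3 ((x + y).choose y) := by
    rw [h1, ← Nat.card_Ioc c a]
    refine Finset.card_le_card fun t ht => ?_
    simp only [mem_Ioc, mem_filter, mem_Ico] at ht ⊢
    exact ⟨by omega, h t ht.1 ht.2⟩
  have h3 : 3 ^ (a - c) ∣ (x + y).choose y :=
    (pow_dvd_pow 3 h2).trans pow_padicValNat_dvd
  calc 3 ^ a = 3 ^ c * 3 ^ (a - c) := by rw [← pow_add]; congr 1; omega
    _ ∣ _ := Nat.mul_dvd_mul_left _ h3

theorem mod_add {q k j : ℕ} (h : q ∣ k + j) (hj : 0 < j) (hq : j ≤ q) : k % q + j = q := by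
  obtain ⟨c, hc⟩ := h
  rcases c with _ | c
  · omega
  · have : k = (q - j) + q * c := by rw [Nat.mul_succ] at hc; omega
    rw [this, Nat.add_mul_mod_self_left, Nat.mod_eq_of_lt (by omega)]; omega

theorem lt3 (l : ℕ) : 3 * l + 1 < 3 ^ (l + 1) := by
  induction l with
  | zero => simp
  | succ l ih => rw [pow_succ]; omega

theorem kum_cb (k i a c : ℕ) (h : 3 ^ a ∣ k + (i + 1)) (hc : 2 * (i + 1) ≤ 3 ^ (c + 1)) :
    (3 : ℤ) ^ a ∣ 3 ^ c * ((2 * k).choose k : ℤ) := by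
  have := kummer k k a c fun t h1 h2 => by
    have h3 : 3 ^ (c + 1) ≤ 3 ^ t := Nat.pow_le_pow_right (by norm_num) h1
    have := mod_add ((pow_dvd_pow 3 h2).trans h) (by omega) (by omega)
    omega
  rw [two_mul]; exact_mod_cast this

theorem kum_g (i l a : ℕ) (h : 3 ^ a ∣ i + (l + 1)) :
    (3 : ℤ) ^ a ∣ 3 ^ l * ((i + (3 * l + 1)).choose (3 * l + 1) : ℤ) := by
  have := kummer i (3 * l + 1) a l fun t h1 h2 => by
    have h3 : 3 ^ (l + 1) ≤ 3 ^ t := Nat.pow_le_pow_right (by norm_num) h1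
    have h4 := lt3 l
    have := mod_add ((pow_dvd_pow 3 h2).trans h) (by omega) (by omega)
    rw [Nat.mod_eq_of_lt (by omega)]
    omega
  exact_mod_cast this

noncomputable def AA (k j : ℕ) : ℤ :=
  ((1 - X + X ^ 2 : ℤ[X]) ^ k * (1 + X ^ 3) ^ (2 * j)).coeff (k + 3 * j)

theorem AA_rec (k j : ℕ) : AA (k + 3) j = AA k (j + 1) - 3 * AA (k + 2) j := by
  unfold AA
  have : (1 - X + X ^ 2 : ℤ[X]) ^ (k + 3) * (1 + X ^ 3) ^ (2 * j)
      = (1 - X + X ^ 2 : ℤ[X]) ^ k * (1 + X ^ 3) ^ (2 * (j + 1))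
        - C 3 * (X * ((1 - X + X ^ 2 : ℤ[X]) ^ (k + 2) * (1 + X ^ 3) ^ (2 * j))) := by
    simp only [map_ofNat]; ring
  rw [this, coeff_sub, coeff_C_mul, show k + 3 + 3 * j = (k + 2 + 3 * j) + 1 by ring, coeff_X_mul,
    show k + 2 + 3 * j + 1 = k + 3 * (j + 1) by ring]

theorem EE (j a n : ℕ) : (X ^ a * (1 + X ^ 3 : ℤ[X]) ^ (2 * j)).coeff n
    = if a ≤ n ∧ 3 ∣ n - a then ((2 * j).choose ((n - a) / 3) : ℤ) else 0 := by
  have : (1 + X ^ 3 : ℤ[X]) ^ (2 * j) = expand ℤ 3 ((1 + X) ^ (2 * j)) := by simp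
  rw [coeff_X_pow_mul', this, coeff_expand (by norm_num), coeff_one_add_X_pow]
  split_ifs <;> first | rfl | omega

theorem AA_zero (j : ℕ) : AA 0 j = (2 * j).choose j := by
  have := EE j 0 (3 * j)
  simpa [AA] using this

theorem AA_one (j : ℕ) : AA 1 j = -((2 * j).choose j : ℤ) := by
  have : (1 - X + X ^ 2 : ℤ[X]) ^ 1 * (1 + X ^ 3) ^ (2 * j)
      = X ^ 0 * (1 + X ^ 3) ^ (2 * j) - X ^ 1 * (1 + X ^ 3) ^ (2 * j)
        + X ^ 2 * (1 + X ^ 3) ^ (2 * j) := by ring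
  rw [AA, this, coeff_add, coeff_sub, EE, EE, EE, if_neg (by omega), if_pos (by omega),
    if_neg (by omega), show (1 + 3 * j - 1) / 3 = j by omega]
  ring

theorem AA_two (j : ℕ) : AA 2 j = 3 * ((2 * j).choose j : ℤ) := by
  have : (1 - X + X ^ 2 : ℤ[X]) ^ 2 * (1 + X ^ 3) ^ (2 * j)
      = X ^ 0 * (1 + X ^ 3) ^ (2 * j) - C 2 * (X ^ 1 * (1 + X ^ 3) ^ (2 * j))
        + C 3 * (X ^ 2 * (1 + X ^ 3) ^ (2 * j)) - C 2 * (X ^ 3 * (1 + X ^ 3) ^ (2 * j))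
        + X ^ 4 * (1 + X ^ 3) ^ (2 * j) := by simp only [map_ofNat]; ring
  rw [AA, this, coeff_add, coeff_sub, coeff_add, coeff_sub, coeff_C_mul, coeff_C_mul, coeff_C_mul,
    EE, EE, EE, EE, EE, if_neg (by omega), if_neg (by omega), if_pos (by omega),
    if_neg (by omega), if_neg (by omega), show (2 + 3 * j - 2) / 3 = j by omega]
  ring

def HH : ℕ → ℕ → ℤ
  | 0, 0 => 1
  | 1, 0 => -1
  | 2, 0 => 3
  | 0, _ + 1 => 0
  | 1, _ + 1 => 0
  | 2, _ + 1 => 0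
  | k + 3, 0 => -3 * HH (k + 2) 0
  | k + 3, i + 1 => HH k i - 3 * HH (k + 2) (i + 1)

theorem HH_zero : ∀ k i, k < 3 * i → HH k i = 0
  | 0, 0, h => by omega
  | 1, 0, h => by omega
  | 2, 0, h => by omega
  | 0, _ + 1, _ => rfl
  | 1, _ + 1, _ => rfl
  | 2, _ + 1, _ => rfl
  | k + 3, 0, h => by omega
  | k + 3, i + 1, h => by
    rw [HH, HH_zero k i (by omega), HH_zero (k + 2) (i + 1) (by omega)]; simp

theorem HH_diag (i : ℕ) : HH (3 * i) i = 1 := by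
  induction i with
  | zero => rfl
  | succ i ih => rw [Nat.mul_succ, HH, ih, HH_zero _ _ (by omega)]; simp

theorem HH_eq (i e : ℕ) : HH (3 * i + e + 1) i
    = -(-3) ^ e * (3 * ((i + e + 1).choose (e + 1) : ℤ) - 2 * (i + e).choose e) := by
  induction i generalizing e with
  | zero =>
    simp only [mul_zero, zero_add, Nat.choose_self]
    induction e with
    | zero => rfl
    | succ e ih =>
      rcases e with _ | e
      · rfl
      · rw [HH, ih]; ring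
  | succ i ih =>
    induction e with
    | zero =>
      have h0 := ih 0
      rw [show 3 * (i + 1) + 0 + 1 = (3 * i + 0 + 1) + 3 by ring, HH, h0,
        show 3 * i + 0 + 1 + 2 = 3 * (i + 1) by ring, HH_diag]
      simp; ring
    | succ e ih2 =>
      have h1 := Nat.choose_succ_succ' (i + e + 2) (e + 1)
      have h2 := Nat.choose_succ_succ' (i + e + 1) e
      rw [show 3 * (i + 1) + (e + 1) + 1 = (3 * i + (e + 1) + 1) + 3 by ring, HH, ih,
        show 3 * i + (e + 1) + 1 + 2 = 3 * (i + 1) + e + 1 by ring, ih2,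
        show i + 1 + (e + 1) + 1 = (i + e + 2) + 1 by ring, h1,
        show i + 1 + (e + 1) = (i + e + 1) + 1 by ring,
        show i + (e + 1) + 1 = i + e + 1 + 1 by ring, show i + (e + 1) = i + e + 1 by ring,
        show i + 1 + e + 1 = i + e + 1 + 1 by ring, show i + 1 + e = i + e + 1 by ring,
        show i + e + 2 = i + e + 1 + 1 by ring, h2]
      push_cast
      ring

theorem AA_eq : ∀ k j M, k < 3 * M →
    AA k j = ∑ i ∈ range M, HH k i * ((2 * (i + j)).choose (i + j) : ℤ)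
  | 0, j, M + 1, _ => by rw [AA_zero, Finset.sum_range_succ']; simp [HH]
  | 1, j, M + 1, _ => by rw [AA_one, Finset.sum_range_succ']; simp [HH]
  | 2, j, M + 1, _ => by rw [AA_two, Finset.sum_range_succ']; simp [HH]
  | k + 3, j, M + 1, h => by
    rw [AA_rec, AA_eq k (j + 1) M (by omega), AA_eq (k + 2) j (M + 1) (by omega),
      Finset.sum_range_succ', Finset.sum_range_succ']
    have e : ∀ i, i + (j + 1) = i + 1 + j := fun i => by ring
    simp only [HH, sub_mul, Finset.sum_sub_distrib, mul_assoc, ← Finset.mul_sum, e]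
    ring
  | k, j, 0, h => by omega

/-- the integer `m ^ k * S_m(k + 1)` -/
def tau (m : ℤ) (k : ℕ) : ℤ :=
  ∑ i ∈ range (k + 1), (-1) ^ i * (k.choose i : ℤ) * ((2 * i).choose i : ℤ) * m ^ (k - i)

theorem coeff_gen (x y : ℤ) (k : ℕ) : ((C y * (1 + X) ^ 2 + C x * X : ℤ[X]) ^ k).coeff k
    = ∑ i ∈ range (k + 1), y ^ i * (k.choose i : ℤ) * ((2 * i).choose i : ℤ) * x ^ (k - i) := by
  rw [add_pow, finsetSum_coeff]
  refine Finset.sum_congr rfl fun i hi => ?_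
  have hi' : i ≤ k := by simpa [Nat.lt_succ_iff] using hi
  have : (C y * (1 + X) ^ 2) ^ i * (C x * X) ^ (k - i) * (k.choose i : ℤ[X])
      = C (y ^ i * k.choose i * x ^ (k - i)) * (X ^ (k - i) * (1 + X) ^ (2 * i)) := by
    simp only [map_mul, map_pow, map_natCast, mul_pow, ← pow_mul]; ring
  rw [this, coeff_C_mul, coeff_X_pow_mul', if_pos (by omega), coeff_one_add_X_pow,
    show k - (k - i) = i by omega]
  ring

theorem tau_eq (m : ℤ) (k : ℕ) :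
    tau m k = ((C 1 * (1 + X) ^ 2 + C (m - 4) * X : ℤ[X]) ^ k).coeff k := by
  have h : ((C (-1) * (1 + X) ^ 2 + C m * X : ℤ[X]) ^ k)
      = C ((-1) ^ k) * ((C 1 * (1 + X) ^ 2 + C (m - 4) * X : ℤ[X]) ^ k).comp (C (-1) * X) := by
    simp only [pow_comp, add_comp, mul_comp, X_comp, C_comp, one_comp, map_pow, ← mul_pow]
    congr 1
    simp only [map_neg, map_one, map_sub, map_ofNat]; ring
  rw [tau, ← coeff_gen, h, coeff_C_mul, comp_C_mul_X_coeff, mul_left_comm, ← mul_pow]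
  simp

theorem tau_one (k : ℕ) : tau 1 k = AA k 0 := by
  rw [tau_eq, AA]
  congr 1
  simp only [map_one, map_sub, map_ofNat]; ring

theorem tau_sum (u : ℤ) (k : ℕ) : tau (3 * u + 4) k = ∑ i ∈ range (k + 1),
    3 ^ i * ((k.choose i : ℤ) * ((2 * (k - i)).choose (k - i) : ℤ)) * u ^ i := by
  rw [tau_eq, coeff_gen, ← Finset.sum_range_reflect]
  refine Finset.sum_congr rfl fun i hi => ?_
  have hi' : i ≤ k := by simpa [Nat.lt_succ_iff] using hi
  rw [show k + 1 - 1 - i = k - i by omega, show k - (k - i) = i by omega, Nat.choose_symm hi',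
    show 3 * u + 4 - 4 = 3 * u by ring, mul_pow]
  ring

theorem tau_third (N : ℕ) : tau 1 (3 * N + 2) = ∑ l ∈ range (N + 1),
    HH (3 * (N - l) + (3 * l + 1) + 1) (N - l) * ((2 * (N - l)).choose (N - l) : ℤ) := by
  rw [tau_one, AA_eq _ _ (N + 1) (by omega), ← Finset.sum_range_reflect]
  refine Finset.sum_congr rfl fun l hl => ?_
  have hl' : l ≤ N := by simpa [Nat.lt_succ_iff] using hl
  rw [show N + 1 - 1 - l = N - l by omega, show 3 * (N - l) + (3 * l + 1) + 1 = 3 * N + 2 by omega,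
    add_zero]

theorem term_dvd (i l b : ℕ) (h : 3 ^ b ∣ i + (l + 1)) :
    (3 : ℤ) ^ (2 * b + 1 + l) ∣ HH (3 * i + (3 * l + 1) + 1) i * ((2 * i).choose i : ℤ) := by
  obtain ⟨x, hx⟩ := kum_cb i l b l h (by have := lt3 l; omega)
  obtain ⟨y, hy⟩ := kum_g i l b h
  have h1 := ch2 (i + (3 * l + 1)) (3 * l + 1)
  have hc : IsCoprime ((3 : ℤ) ^ (2 * b + 1 + l)) (3 * l + 2) :=
    IsCoprime.pow_left ⟨l + 1, -1, by ring⟩
  apply hc.dvd_of_dvd_mul_left
  refine ⟨-(-1) ^ (3 * l + 1) * (3 * i + 3 * l + 2) * x * y, ?_⟩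
  rw [HH_eq, neg_pow 3]
  push_cast at h1
  set B : ℤ := ((i + (3 * l + 1)).choose (3 * l + 1) : ℤ)
  set D : ℤ := ((2 * i).choose i : ℤ)
  linear_combination (-(-1) ^ (3 * l + 1) * 3 ^ (3 * l + 1) * 3 * D) * h1
    + (-(-1) ^ (3 * l + 1) * (3 * i + 3 * l + 2) * 3 ^ (l + 1) * 3 ^ l * B) * hx
    + (-(-1) ^ (3 * l + 1) * (3 * i + 3 * l + 2) * 3 ^ (l + 1) * 3 ^ b * x) * hy

theorem tau_one_dvd (k a : ℕ) (h : 3 ^ a ∣ k + 1) : (3 : ℤ) ^ (2 * a) ∣ 3 * tau 1 k := by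
  rcases a with _ | b
  · simp
  obtain ⟨N, rfl⟩ : ∃ N, k = 3 * N + 2 := by
    have := (dvd_pow_self 3 (Nat.succ_ne_zero b)).trans h
    exact ⟨k / 3, by omega⟩
  have h' : 3 ^ b ∣ N + 1 := by
    rw [pow_succ', show 3 * N + 2 + 1 = 3 * (N + 1) by ring] at h
    exact Nat.dvd_of_mul_dvd_mul_left (by norm_num) h
  rw [show 2 * (b + 1) = (2 * b + 1) + 1 by ring, pow_succ', tau_third]
  refine mul_dvd_mul_left _ (Finset.dvd_sum fun l hl => ?_)
  have hl' : l ≤ N := by simpa [Nat.lt_succ_iff] using hl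
  exact (pow_dvd_pow 3 (by omega)).trans
    (term_dvd (N - l) l b (by rwa [show N - l + (l + 1) = N + 1 by omega]))

theorem cat3 (N b : ℕ) (h : 3 ^ (b + 1) = N + 1) :
    ∃ c : ℤ, ((2 * N).choose N : ℤ) = 3 ^ (b + 1) * (3 * c - 1) := by
  haveI : Fact (Nat.Prime 3) := ⟨Nat.prime_three⟩
  have h1 := DelD.chP 3 (b + 1) (N + 1) (N + 1)
  rw [h, if_pos le_rfl, ← two_mul] at h1
  have h2 : ((3 : ℕ) : ℤ) ∣ ((2 * (N + 1)).choose (N + 1) : ℤ) - 2 := by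
    rw [← ZMod.intCast_zmod_eq_zero_iff_dvd]; push_cast; rw [h1]; simp; rfl
  obtain ⟨d, hd⟩ := h2
  obtain ⟨x, hx⟩ := kum_cb N 0 (b + 1) 0 (by rw [h]) (by norm_num)
  have h3 := DelG.cb_succ N
  have h4 : ((N : ℤ) + 1) = 3 ^ (b + 1) := by exact_mod_cast h.symm
  have h5 : 3 * d + 2 = 2 * (2 * 3 ^ (b + 1) - 1) * x := by
    have hne : (3 : ℤ) ^ (b + 1) ≠ 0 := by positivity
    apply mul_left_cancel₀ hne
    push_cast at hd
    linear_combination h3 - ((2 * (N + 1)).choose (N + 1) : ℤ) * h4 - 3 ^ (b + 1) * hd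
      + 2 * (2 * 3 ^ (b + 1) - 1) * hx + 4 * ((2 * N).choose N : ℤ) * h4
  refine ⟨d + 1 + x - 4 * 3 ^ b * x, ?_⟩
  linear_combination hx - 3 ^ (b + 1) * h5

theorem tau_one_pow (k b : ℕ) (h : 3 ^ (b + 2) = k + 1) :
    (3 : ℤ) ^ (2 * (b + 2)) ∣ tau 1 k + 3 ^ (2 * (b + 2) - 1) := by
  obtain ⟨N, hN⟩ : ∃ N, 3 ^ (b + 1) = N + 1 := ⟨3 ^ (b + 1) - 1, by
    have : 0 < 3 ^ (b + 1) := by positivity
    omega⟩
  obtain rfl : k = 3 * N + 2 := by rw [pow_succ, hN] at h; omega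
  rw [tau_third, Finset.sum_range_succ', add_assoc]
  refine dvd_add (Finset.dvd_sum fun l hl => ?_) ?_
  · have hl' := mem_range.mp hl
    exact (pow_dvd_pow 3 (by omega)).trans (term_dvd (N - (l + 1)) (l + 1) (b + 1)
      (by rw [show N - (l + 1) + (l + 1 + 1) = N + 1 by omega, hN]))
  · obtain ⟨c, hc⟩ := cat3 N b hN
    have h1 := ch2 (N + 1) 1
    have h4 : (N : ℤ) = 3 ^ (b + 1) - 1 := by
      have : ((N : ℤ) + 1) = 3 ^ (b + 1) := by exact_mod_cast hN.symm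
      linear_combination this
    have hco : IsCoprime ((3 : ℤ) ^ (2 * (b + 2))) 2 := IsCoprime.pow_left ⟨1, -1, by ring⟩
    apply hco.dvd_of_dvd_mul_left
    refine ⟨3 ^ (b + 1) * (3 * c - 1) - c + 1, ?_⟩
    rw [HH_eq, show 2 * (b + 2) - 1 = 2 * b + 3 by omega]
    simp only [Nat.sub_zero, mul_zero, zero_add, Nat.choose_one_right] at h1 ⊢
    push_cast at h1 ⊢
    rw [hc]
    rw [h4] at h1 ⊢
    linear_combination (9 * 3 ^ (b + 1) * (3 * c - 1)) * h1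

theorem tau_diff (u : ℤ) (k a : ℕ) (h : 3 ^ a ∣ k + 1) :
    ∃ g : ℤ, tau (3 * u + 4) k - tau 1 k = 3 ^ a * (u + 1) * g ∧
      (1 ≤ k → (3 : ℤ) ^ (a + 1) ∣ 3 ^ a * g - 3 * (k * ((2 * (k - 1)).choose (k - 1) : ℤ))) := by
  have hq : ∀ i : ℕ, ∃ q : ℤ, u ^ i - (-1) ^ i = (u + 1) * q ∧ (i = 0 → q = 0) ∧ (i = 1 → q = 1) := by
    intro i
    rcases i with _ | _ | i
    · exact ⟨0, by simp⟩
    · exact ⟨1, by simp⟩
    · obtain ⟨q, hq⟩ := sub_dvd_pow_sub_pow u (-1) (i + 2)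
      exact ⟨q, by rw [hq]; ring, by omega, by omega⟩
  choose q hq using hq
  have hb : ∀ i, ∃ β : ℤ, i ≤ k → (3 ^ i * ((k.choose i : ℤ) * ((2 * (k - i)).choose (k - i) : ℤ))
      = 3 ^ a * β ∧ (2 ≤ i → 3 ∣ β)) := by
    intro i
    by_cases hi : i ≤ k
    swap
    · exact ⟨0, fun h => absurd h hi⟩
    have h' : 3 ^ a ∣ k - i + (i + 1) := by rwa [show k - i + (i + 1) = k + 1 by omega]
    rcases lt_or_ge i 2 with h2 | h2
    · obtain ⟨x, hx⟩ := kum_cb (k - i) i a i h' (by have := lt3 i; omega)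
      exact ⟨k.choose i * x, fun _ => ⟨by linear_combination (k.choose i : ℤ) * hx, by omega⟩⟩
    · obtain ⟨j, rfl⟩ : ∃ j, i = j + 1 := ⟨i - 1, by omega⟩
      obtain ⟨x, hx⟩ := kum_cb (k - (j + 1)) (j + 1) a j h' (by
        obtain ⟨t, rfl⟩ : ∃ t, j = t + 1 := ⟨j - 1, by omega⟩
        have := lt3 t; rw [pow_succ]; omega)
      exact ⟨3 * (k.choose (j + 1) * x), fun _ =>
        ⟨by linear_combination 3 * (k.choose (j + 1) : ℤ) * hx, fun _ => dvd_mul_right _ _⟩⟩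
  choose β hβ using hb
  refine ⟨∑ i ∈ range (k + 1), β i * q i, ?_, fun hk => ?_⟩
  · have := tau_sum (-1) k
    rw [show (3 : ℤ) * -1 + 4 = 1 by norm_num] at this
    rw [this, tau_sum, ← Finset.sum_sub_distrib, Finset.mul_sum]
    refine Finset.sum_congr rfl fun i hi => ?_
    rw [(hβ i (by simpa [Nat.lt_succ_iff] using hi)).1]
    linear_combination 3 ^ a * β i * (hq i).1
  · obtain ⟨j, rfl⟩ : ∃ j, k = j + 1 := ⟨k - 1, by omega⟩
    have h1 := (hβ 1 hk).1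
    rw [Finset.sum_range_succ', Finset.sum_range_succ', (hq 0).2.1 rfl, (hq 1).2.2 rfl]
    obtain ⟨w, hw⟩ : (3 : ℤ) ∣ ∑ i ∈ range j, β (i + 1 + 1) * q (i + 1 + 1) :=
      Finset.dvd_sum fun i hi =>
        ((hβ _ (by have := mem_range.mp hi; omega)).2 (by omega)).mul_right _
    refine ⟨w, ?_⟩
    rw [hw, Nat.choose_one_right] at *
    simp only [zero_add]
    linear_combination -h1

theorem tau_div (m : ℤ) (hm : (m : ℚ) ≠ 0) (k : ℕ) :
    ∑ i ∈ range (k + 1), (-1) ^ i * (k.choose i : ℚ) * ((2 * i).choose i : ℚ) / (m : ℚ) ^ i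
      = tau m k / (m : ℚ) ^ k := by
  rw [tau]; push_cast
  rw [Finset.sum_div]
  refine Finset.sum_congr rfl fun i hi => ?_
  obtain ⟨j, rfl⟩ := Nat.exists_eq_add_of_le (Nat.lt_succ_iff.mp (mem_range.mp hi))
  rw [Nat.add_sub_cancel_left, pow_add]
  field_simp

theorem beta_one (k b : ℕ) (h : 3 ^ (b + 2) = k + 1) :
    (3 : ℤ) ^ (b + 2 + 1) ∣ 3 * (k * ((2 * (k - 1)).choose (k - 1) : ℤ)) + 3 ^ (b + 2) := by
  obtain ⟨c, hc⟩ := cat3 k (b + 1) h
  obtain ⟨j, rfl⟩ : ∃ j, k = j + 1 := ⟨k - 1, by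
    have : 3 ^ 1 ≤ 3 ^ (b + 2) := Nat.pow_le_pow_right (by norm_num) (by omega)
    omega⟩
  have h3 := DelG.cb_succ j
  have h4 : (j : ℤ) = 3 ^ (b + 2) - 2 := by
    have : ((j : ℤ) + 1 + 1) = 3 ^ (b + 2) := by exact_mod_cast h.symm
    linear_combination this
  have hco : IsCoprime ((3 : ℤ) ^ (b + 2 + 1)) (2 * (2 * 3 ^ (b + 1) - 1)) :=
    IsCoprime.pow_left ⟨1 - 4 * 3 ^ b, 1, by ring⟩
  apply hco.dvd_of_dvd_mul_left
  refine ⟨c * (3 ^ (b + 2) - 1) ^ 2 - 3 ^ (2 * b + 3) + 2 * 3 ^ (b + 1) + 4 * 3 ^ b - 1, ?_⟩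
  rw [Nat.add_sub_cancel]
  rw [hc, h4] at h3
  push_cast
  rw [h4]
  linear_combination (-(3 ^ (b + 2) - 1)) * h3

end Pool.Agent.H27.DelJ
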