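import Pool.Agent.H27.DivCompDefs

set_option autoImplicit false

namespace Pool.Agent.H27.DivComp

universe u v

lemma root_inj {H : Type v} [Group H] [LinearOrder H] [MulLeftMono H] [MulRightMono H] {x y : H}
    {n : ℕ} (hn : 0 < n) (h : x ^ n = y ^ n) : x = y := by
  rcases lt_trichotomy x y with e | e | e
  · exact absurd h (pow_lt_pow_left' hn.ne' e).ne
  · exact e
  · exact absurd h (pow_lt_pow_left' hn.ne' e).ne'

inductive Tm (G : Type u) : Type u
  | of : G → Tm G
  | mul : Tm G → Tm G → Tm G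
  | inv : Tm G → Tm G
  | root : ℕ → Tm G → Tm G

variable {G : Type u} [Group G] [LinearOrder G]

noncomputable def ev (E : DivExt.{u, v} G) : Tm G → E.H
  | .of g => E.emb g
  | .mul s t => ev E s * ev E t
  | .inv s => (ev E s)⁻¹
  | .root n s => Classical.choose (E.div (ev E s) (n + 1) n.succ_pos)

lemma ev_root (E : DivExt.{u, v} G) (n : ℕ) (s : Tm G) : ev E (.root n s) ^ (n + 1) = ev E s :=
  Classical.choose_spec (E.div (ev E s) (n + 1) n.succ_pos)

def K0 (G : Type u) [Group G] [LinearOrder G] : Subgroup (∀ E : DivExt.{u, v} G, E.H) where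
  carrier := Set.range fun t E => ev E t
  one_mem' := ⟨.of 1, funext fun E => map_one E.emb⟩
  mul_mem' := by rintro _ _ ⟨s, rfl⟩ ⟨t, rfl⟩; exact ⟨.mul s t, rfl⟩
  inv_mem' := by rintro _ ⟨s, rfl⟩; exact ⟨.inv s, rfl⟩

instance : Small.{u} (K0.{u, v} G) := small_range _

def KK (G : Type u) [Group G] [LinearOrder G] : Type u := Shrink.{u} (K0.{u, v} G)

noncomputable instance : Group (KK.{u, v} G) := inferInstanceAs (Group (Shrink.{u} (K0.{u, v} G)))

theorem main (h : Nonempty (DivExt.{u, v} G)) :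
    ∃ K : DivExt.{u, u} G, K.IsMinimal ∧ ∀ E : DivExt.{u, v} G, E.IsMinimal →
      ∃ φ : K.H →* E.H, Function.Surjective φ ∧ ∀ g, φ (K.emb g) = E.emb g := by
  classical
  obtain ⟨_, wf⟩ := exists_wellFoundedLT (DivExt.{u, v} G)
  let e : KK.{u, v} G ≃* K0.{u, v} G := Shrink.mulEquiv
  let p : KK.{u, v} G →* ∀ E : DivExt.{u, v} G, E.H :=
    (K0 G).subtype.comp e.toMonoidHom
  have pi : Function.Injective p := Subtype.val_injective.comp e.injective
  letI o : LinearOrder (KK.{u, v} G) :=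
    LinearOrder.lift' (fun x => toLex (p x)) (toLex.injective.comp pi)
  have lt : ∀ x y : KK.{u, v} G,
      x < y ↔ ∃ i, (∀ j < i, p x j = p y j) ∧ p x i < p y i := fun _ _ => Iff.rfl
  haveI : MulLeftStrictMono (KK.{u, v} G) := ⟨fun c a b h => by
    obtain ⟨i, h1, h2⟩ := (lt _ _).1 h
    exact (lt _ _).2 ⟨i, fun j hj => by simp [h1 j hj], by simpa using h2⟩⟩
  haveI : MulRightStrictMono (KK.{u, v} G) := ⟨fun c a b h => by
    obtain ⟨i, h1, h2⟩ := (lt _ _).1 h
    exact (lt _ _).2 ⟨i, fun j hj => by simp [Function.swap, h1 j hj], by simpa using h2⟩⟩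
  let tm : Tm G → KK.{u, v} G := fun t => e.symm ⟨fun E => ev E t, t, rfl⟩
  have ptm : ∀ t E, p (tm t) E = ev E t := fun t E => by simp [p, tm]
  have sur : ∀ x, ∃ t, tm t = x := by
    intro x
    obtain ⟨t, ht⟩ := (e x).2
    exact ⟨t, pi (funext fun E => by rw [ptm]; exact congrFun ht E)⟩
  have t1 : ∀ s t, tm (.mul s t) = tm s * tm t := fun s t => pi (funext fun E => by
    simp [ptm, ev])
  have t2 : ∀ s, tm (.inv s) = (tm s)⁻¹ := fun s => pi (funext fun E => by simp [ptm, ev])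
  have t3 : ∀ n s, tm (.root n s) ^ (n + 1) = tm s := fun n s => pi (funext fun E => by
    simp [ptm, ev_root])
  let emb : G →* KK.{u, v} G := MonoidHom.mk' (fun g => tm (.of g)) fun a b =>
    pi (funext fun E => by simp [ptm, ev])
  have sm : StrictMono emb := by
    intro a b hab
    let i := wf.wf.min Set.univ ⟨h.some, trivial⟩
    refine (lt _ _).2 ⟨i, fun j hj => absurd hj (wf.wf.not_lt_min _ (Set.mem_univ j)), ?_⟩
    change p (tm _) i < p (tm _) i
    rw [ptm, ptm]
    exact i.mono.strictMono_of_injective i.inj hab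
  refine ⟨@DivExt.mk G _ _ _ _ o (mulLeftMono_of_mulLeftStrictMono _)
    (mulRightMono_of_mulRightStrictMono _) emb sm.injective sm.monotone ?_, ?_, ?_⟩
  · intro d n hn
    obtain ⟨t, rfl⟩ := sur d
    obtain ⟨n, rfl⟩ := Nat.exists_eq_succ_of_ne_zero hn.ne'
    exact ⟨_, t3 n t⟩
  · refine eq_top_iff.2 (le_sInf ?_)
    rintro J ⟨h1, h2⟩ x -
    obtain ⟨t, rfl⟩ := sur x
    induction t with
    | of g => exact h1 ⟨g, rfl⟩
    | mul s t a b => exact t1 s t ▸ J.mul_mem a b
    | inv s a => exact t2 s ▸ J.inv_mem a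
    | root n s a => exact h2 _ _ n.succ_pos ((t3 n s).symm ▸ a)
  · intro E hE
    refine ⟨(Pi.evalMonoidHom _ E).comp p, ?_, fun g => ptm _ E⟩
    rw [← MonoidHom.range_eq_top, eq_top_iff, ← hE]
    refine sInf_le ⟨?_, ?_⟩
    · rintro _ ⟨g, rfl⟩
      exact ⟨emb g, ptm _ E⟩
    · rintro g n hn ⟨x, hx⟩
      obtain ⟨t, rfl⟩ := sur x
      obtain ⟨n, rfl⟩ := Nat.exists_eq_succ_of_ne_zero hn.ne'
      refine ⟨tm (.root n t), root_inj hn ?_⟩
      rw [← hx, ← map_pow, t3]

end Pool.Agent.H27.DivComp
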