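import Mathlib

set_option autoImplicit false

namespace Pool.Agent.H27.DivComp

universe u v

/-- An order-embedding `emb` of `G` into a divisible ordered group `H`. -/
structure DivExt (G : Type u) [Group G] [LinearOrder G] : Type (max u (v + 1)) where
  H : Type v
  [grp : Group H]
  [ord : LinearOrder H]
  [lmono : MulLeftMono H]
  [rmono : MulRightMono H]
  emb : G →* H
  inj : Function.Injective emb
  mono : Monotone emb
  div : ∀ (d : H) (n : ℕ), 0 < n → ∃ x, x ^ n = d

attribute [instance] DivExt.grp DivExt.ord DivExt.lmono DivExt.rmono

/-- The isolator of a subgroup `S`: the least subgroup containing `S` that is closed under roots. -/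
def isolator {T : Type v} [Group T] (S : Subgroup T) : Subgroup T :=
  sInf {J | S ≤ J ∧ ∀ (g : T) (n : ℕ), 0 < n → g ^ n ∈ J → g ∈ J}

/-- `E` is a minimal divisible completion: `E.H` is the isolator of the image of `G`. -/
def DivExt.IsMinimal {G : Type u} [Group G] [LinearOrder G] (E : DivExt.{u, v} G) : Prop :=
  isolator E.emb.range = ⊤

end Pool.Agent.H27.DivComp
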