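import Mathlib

namespace Pool.Agent.H27.Extreme

open scoped ComplexConjugate

/-- `E` is extreme: a unimodular measure `μ` on `E` has `μ * μ~ = |E| δ₀`; the coefficient of
`μ * μ~` at `t` is the sum of `c x * conj (c y)` over `x - y = t`. -/
def IsExtreme {p : ℕ} (E : Finset (ZMod p)) : Prop :=
  ∃ c : ZMod p → ℂ, (∀ x ∈ E, ‖c x‖ = 1) ∧ ∀ t : ZMod p,
    (∑ x ∈ E, ∑ y ∈ E, if x - y = t then c x * conj (c y) else 0) =
      if t = 0 then (E.card : ℂ) else 0

def w (P N : ℕ) (x : ZMod 127) : ℤ := if P.testBit x.val then 1 else if N.testBit x.val then -1 else 0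

def supp (P N : ℕ) : Finset (ZMod 127) := Finset.univ.filter fun x => w P N x ≠ 0

lemma extreme_of (P N : ℕ) (hc : (supp P N).card = 64)
    (h : ∀ t : ZMod 127, ∑ x : ZMod 127, w P N x * w P N (x - t) = if t = 0 then 64 else 0) :
    IsExtreme (supp P N) := by
  refine ⟨fun x => (w P N x : ℂ), fun x hx => ?_, fun t => ?_⟩
  · have := (Finset.mem_filter.1 hx).2
    unfold w at this ⊢
    split_ifs at this ⊢ <;> simp_all
  · have e : ∀ x, (∑ y ∈ supp P N, if x - y = t then (w P N x : ℂ) * conj (w P N y : ℂ) else 0) =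
        (w P N x : ℂ) * w P N (x - t) := by
      intro x
      have : ∀ y, (x - y = t) ↔ (y = x - t) := fun y =>
        ⟨fun h => by rw [← h]; ring, fun h => by rw [h]; ring⟩
      simp only [this, Finset.sum_ite_eq', map_intCast]
      split_ifs with g
      · rfl
      · have : w P N (x - t) = 0 := by simpa [supp] using g
        simp [this]
    simp only [e]
    rw [hc, Finset.sum_subset (Finset.subset_univ _) (fun x _ hx => by
      have : w P N x = 0 := by simpa [supp] using hx
      simp [this])]
    have := congrArg (fun z : ℤ => (z : ℂ)) (h t)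
    push_cast at this
    rw [this]
    split_ifs <;> simp

def P1 : ℕ := 144395443378137741935860105331066560641
def N1 : ℕ := 23967983297652233738373723793576689664
def P2 : ℕ := 25307595253328836530604980288239010071
def N2 : ℕ := 5838254879836793180944993298070110208

lemma c1 : (supp P1 N1).card = 64 := by decide +kernel
lemma c2 : (supp P2 N2).card = 64 := by decide +kernel
lemma e1 : IsExtreme (supp P1 N1) := extreme_of _ _ c1 (by decide +kernel)
lemma e2 : IsExtreme (supp P2 N2) := extreme_of _ _ c2 (by decide +kernel)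
lemma ne : ∀ a b : ZMod 127, ∃ x : ZMod 127, w P1 N1 x ≠ 0 ∧ (a = 0 ∨ w P2 N2 (a * x + b) = 0) := by
  decide +kernel

end Pool.Agent.H27.Extreme
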