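import Pool.Agent.H27.FOGrpDefs

set_option autoImplicit false

namespace Pool.Agent.H27.FOGrp

open FirstOrder FirstOrder.Language LaurentPolynomial

universe u

section Formulas

variable {α : Type}

def tm (s t : groupLang.Term α) : groupLang.Term α := Term.func GFn.mul ![s, t]

def ti (s : groupLang.Term α) : groupLang.Term α := Term.func GFn.inv ![s]

def t1 : groupLang.Term α := Term.func GFn.one ![]

variable {M : Type u} [Group M]

@[simp] lemma r_tm (s t : groupLang.Term α) (v : α → M) :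
    (tm s t).realize v = s.realize v * t.realize v := rfl

@[simp] lemma r_ti (s : groupLang.Term α) (v : α → M) : (ti s).realize v = (s.realize v)⁻¹ := rfl

@[simp] lemma r_t1 (v : α → M) : (t1 : groupLang.Term α).realize v = 1 := rfl

def cj (g x : M) : M := g * x * g⁻¹

def cm (x y : M) : M := x * y * x⁻¹ * y⁻¹

def PP (a t x : M) : Prop := ∃ y v, cm y a = 1 ∧ cm y (cj t a) = 1 ∧
  cm v (a * cj (t * t) a) = 1 ∧ cm v (cj t v) ≠ 1 ∧ x = cm y t * cm v (cj t v)

def tcj (g x : groupLang.Term α) : groupLang.Term α := tm (tm g x) (ti g)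

def tcm (x y : groupLang.Term α) : groupLang.Term α := tm (tm (tm x y) (ti x)) (ti y)

@[simp] lemma r_tcj (s t : groupLang.Term α) (v : α → M) :
    (tcj s t).realize v = cj (s.realize v) (t.realize v) := rfl

@[simp] lemma r_tcm (s t : groupLang.Term α) (v : α → M) :
    (tcm s t).realize v = cm (s.realize v) (t.realize v) := rfl

def mat (a t x y v : groupLang.Term α) : groupLang.Formula α :=
  (tcm y a).equal t1 ⊓ ((tcm y (tcj t a)).equal t1 ⊓ ((tcm v (tm a (tcj (tm t t) a))).equal t1 ⊓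
    (((tcm v (tcj t v)).equal t1).not ⊓ x.equal (tm (tcm y t) (tcm v (tcj t v))))))

noncomputable def fP (a t x : groupLang.Term α) : groupLang.Formula α :=
  Formula.iExs Bool (mat (a.relabel Sum.inl) (t.relabel Sum.inl) (x.relabel Sum.inl)
    (Term.var (Sum.inr true)) (Term.var (Sum.inr false)))

@[simp] lemma r_fP (a t x : groupLang.Term α) (v : α → M) :
    (fP a t x).Realize v ↔ PP (a.realize v) (t.realize v) (x.realize v) := by
  simp only [fP, mat, Formula.realize_iExs, Formula.realize_inf, Formula.realize_equal,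
    Formula.realize_not, r_tcm, r_tcj, r_tm, r_t1, Term.realize_relabel, Sum.elim_comp_inl,
    Term.realize_var, Sum.elim_inr]
  exact ⟨fun ⟨i, h⟩ => ⟨_, _, h⟩, fun ⟨y, w, h⟩ => ⟨fun b => cond b y w, h⟩⟩

def Bad (a t : M) : Prop := (∀ x y, PP a t x → PP a t y → PP a t (x * y)) ∧
  (∀ x y, PP a t x → PP a t (cj y x)) ∧ ¬ PP a t 1 ∧
  PP a t (cj (cj t a)⁻¹ a * cj (t * t) a) ∧ PP a t (cj (cj t a) a * cj (t * t) a)⁻¹

noncomputable def fBad (a t : groupLang.Term α) : groupLang.Formula α :=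
  Formula.iAlls Bool ((fP (a.relabel Sum.inl) (t.relabel Sum.inl) (Term.var (Sum.inr true))).imp
    ((fP (a.relabel Sum.inl) (t.relabel Sum.inl) (Term.var (Sum.inr false))).imp
      (fP (a.relabel Sum.inl) (t.relabel Sum.inl)
        (tm (Term.var (Sum.inr true)) (Term.var (Sum.inr false)))))) ⊓
  (Formula.iAlls Bool ((fP (a.relabel Sum.inl) (t.relabel Sum.inl) (Term.var (Sum.inr true))).imp
      (fP (a.relabel Sum.inl) (t.relabel Sum.inl)
        (tcj (Term.var (Sum.inr false)) (Term.var (Sum.inr true))))) ⊓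
  ((fP a t t1).not ⊓ (fP a t (tm (tcj (ti (tcj t a)) a) (tcj (tm t t) a)) ⊓
    fP a t (ti (tm (tcj (tcj t a) a) (tcj (tm t t) a))))))

lemma r_fBad (a t : groupLang.Term α) (v : α → M) :
    (fBad a t).Realize v ↔ Bad (a.realize v) (t.realize v) := by
  simp only [fBad, Formula.realize_iAlls, Formula.realize_inf, Formula.realize_imp,
    Formula.realize_not, r_fP, r_tcj, r_tm, r_ti, r_t1, Term.realize_relabel,
    Term.realize_var]
  exact and_congr ⟨fun h x y => h fun b => cond b x y, fun h i => h _ _⟩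
    (and_congr ⟨fun h x y => h fun b => cond b x y, fun h i => h _ _⟩ Iff.rfl)

noncomputable def phi : groupLang.Sentence :=
  (Formula.iExs Bool (fBad (Term.var (Sum.inr true)) (Term.var (Sum.inr false)))).not

lemma r_phi : M ⊨ phi ↔ ¬ ∃ a t : M, Bad a t := by
  simp only [phi, Sentence.Realize, Formula.realize_not, Formula.realize_iExs, r_fBad,
    Term.realize_var, Sum.elim_inr]
  exact not_congr ⟨fun ⟨i, h⟩ => ⟨_, _, h⟩, fun ⟨y, w, h⟩ => ⟨fun b => cond b y w, h⟩⟩

lemma po_of_cone (P : M → Prop) (h1 : ∀ x y, P x → P y → P (x * y))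
    (h2 : ∀ x y, P x → P (cj y x)) (h3 : ¬ P 1) : IsPO M fun a b => a = b ∨ P (a⁻¹ * b) := by
  refine ⟨fun a => Or.inl rfl, ?_, ?_, ?_⟩
  · rintro a b (h | h) (h' | h')
    · exact h
    · exact h
    · exact h'.symm
    · exact absurd (by simpa using h1 _ _ h h') h3
  · rintro a b c (rfl | h) (rfl | h')
    · exact Or.inl rfl
    · exact Or.inr h'
    · exact Or.inr h
    · exact Or.inr (by simpa [mul_assoc] using h1 _ _ h h')
  · rintro a b x y (rfl | h)
    · exact Or.inl rfl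
    · exact Or.inr (by simpa [mul_assoc, cj] using h2 _ y⁻¹ h)

lemma pro_phi (h : ProOrderable M) : M ⊨ phi := by
  rw [r_phi]
  rintro ⟨a, t, h1, h2, h3, h4, h5⟩
  obtain ⟨s, ⟨-, s2, s3, s4⟩, s5, s6⟩ := h _ (po_of_cone _ h1 h2 h3)
  rcases s5 1 a with e | e
  · have : ∀ g k, s 1 (cj g a * cj k a) := fun g k =>
      s3 _ (cj g a) _ (by simpa [cj] using s4 _ _ g g⁻¹ e)
        (by simpa [cj, mul_assoc] using s4 _ _ (cj g a * k) k⁻¹ e)
    have e2 := s2 _ _ (this _ _) (s6 _ 1 (Or.inr (by rwa [mul_one])))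
    rw [← e2, inv_one] at h5
    exact h3 h5
  · have : ∀ g k, s (cj g a * cj k a) 1 := fun g k =>
      s3 _ (cj g a) _ (by simpa [cj, mul_assoc] using s4 _ _ (cj g a * k) k⁻¹ e)
        (by simpa [cj] using s4 _ _ g g⁻¹ e)
    have e2 := s2 _ _ (this _ _) (s6 1 _ (Or.inr (by rwa [inv_one, one_mul])))
    rw [e2] at h4
    exact h3 h4

end Formulas

abbrev U := LaurentPolynomial ℝ

noncomputable def sg : U →+* ℂ := eval₂ Complex.ofRealHom (Units.mk0 Complex.I Complex.I_ne_zero)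

noncomputable def e2 : U →+* ℝ := eval₂ (RingHom.id ℝ) (Units.mk0 2 two_ne_zero)

lemma sg_T (k : ℤ) : sg (T k) = Complex.I ^ k := by simp [sg]

lemma e2_T (k : ℤ) : e2 (T k) = 2 ^ k := by simp [e2]

noncomputable def om (u v : U) : ℝ := ((starRingEnd ℂ) (sg u) * sg v).im

lemma om_T (k : ℤ) (u v : U) : om (T k * u) (T k * v) = om u v := by
  have : (starRingEnd ℂ) (Complex.I ^ k) * Complex.I ^ k = 1 := by
    rw [map_zpow₀, ← mul_zpow]; simp
  unfold om
  rw [map_mul, map_mul, map_mul, sg_T]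
  congr 1
  linear_combination ((starRingEnd ℂ) (sg u) * sg v) * this

lemma om_add_l (u v w : U) : om (u + v) w = om u w + om v w := by simp [om, add_mul]

lemma om_add_r (u v w : U) : om u (v + w) = om u v + om u w := by simp [om, mul_add]

@[simp] lemma om_neg_l (u v : U) : om (-u) v = -om u v := by simp [om]

@[simp] lemma om_neg_r (u v : U) : om u (-v) = -om u v := by simp [om]

@[simp] lemma om_self (u : U) : om u u = 0 := by simp [om]; ring

@[simp] lemma om_zero_l (u : U) : om 0 u = 0 := by simp [om]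

@[simp] lemma om_zero_r (u : U) : om u 0 = 0 := by simp [om]

lemma om_comm (u v : U) : om u v = -om v u := by simp [om]; ring

lemma om_ker {u : U} (h : sg u = 0) (v : U) : om u v = 0 := by simp [om, h]

lemma om_rot (u : U) : om u (T 1 * u) = Complex.normSq (sg u) := by
  simp [om, sg_T, Complex.normSq_apply]

@[ext] structure GG where
  u : U
  z : ℝ
  k : ℤ

noncomputable instance : Mul GG := ⟨fun x y => ⟨x.u + T x.k * y.u, x.z + y.z + om x.u (T x.k * y.u), x.k + y.k⟩⟩

noncomputable instance : One GG := ⟨⟨0, 0, 0⟩⟩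

noncomputable instance : Inv GG := ⟨fun x => ⟨-(T (-x.k) * x.u), -x.z, -x.k⟩⟩

lemma mul_def (x y : GG) :
  x * y = ⟨x.u + T x.k * y.u, x.z + y.z + om x.u (T x.k * y.u), x.k + y.k⟩ := rfl

lemma one_def : (1 : GG) = ⟨0, 0, 0⟩ := rfl

lemma inv_def (x : GG) : x⁻¹ = ⟨-(T (-x.k) * x.u), -x.z, -x.k⟩ := rfl

noncomputable instance : Group GG := Group.ofLeftAxioms
  (fun x y z => by
    simp only [mul_def]
    refine GG.ext ?_ ?_ (add_assoc _ _ _)
    · simp only [T_add]; ring
    · simp only [T_add, mul_add, om_add_l, om_add_r, mul_assoc, om_T]; ring)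
  (fun x => by simp [mul_def, one_def])
  (fun x => by simp [mul_def, one_def, inv_def])

def N (u : U) (z : ℝ) : GG := ⟨u, z, 0⟩

lemma N_mul (u v : U) (z w : ℝ) : N u z * N v w = N (u + v) (z + w + om u v) := by
  simp [N, mul_def]

lemma N_inv (u : U) (z : ℝ) : (N u z)⁻¹ = N (-u) (-z) := by simp [N, inv_def]

lemma cj_N (g : GG) (u : U) (z : ℝ) :
    cj g (N u z) = N (T g.k * u) (z + 2 * om g.u (T g.k * u)) := by
  have : (T g.k : U) * (T (-g.k) * g.u) = g.u := by rw [← mul_assoc, ← T_add]; simp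
  simp only [cj, N, mul_def, inv_def, add_zero, mul_neg, this, om_neg_r, om_add_l, om_self]
  refine GG.ext (by simp) ?_ (by simp)
  simp only [om_comm (T g.k * u)]; ring

lemma cm_N (u v : U) (z w : ℝ) : cm (N u z) (N v w) = N 0 (2 * om u v) := by
  have := cj_N (N u z) v w
  unfold cj at this
  rw [cm, this, N_inv, N_mul]
  simp [N]

lemma comm_k {g : GG} {u : U} {z : ℝ} (h : cm g (N u z) = 1) (hu : e2 u ≠ 0) : g = N g.u g.z := by
  have h1 : cj g (N u z) = N u z := mul_inv_eq_one.1 h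
  rw [cj_N] at h1
  have := congrArg (fun x => e2 x.u) h1
  simp only [N, map_mul, e2_T, mul_eq_right₀ hu] at this
  exact GG.ext rfl rfl (by simpa [N, zpow_eq_one_iff_right₀] using this)

noncomputable def aa : GG := N (T 1 - 1) 0

noncomputable def tt : GG := ⟨0, 0, 1⟩

lemma cj_tt (u : U) (z : ℝ) : cj tt (N u z) = N (T 1 * u) z := by simp [cj_N, tt]

lemma cj_tt2 (u : U) (z : ℝ) : cj (tt * tt) (N u z) = N (T 1 * (T 1 * u)) z := by
  rw [← cj_tt, ← cj_tt]; simp [cj, mul_assoc]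

lemma sg2 (u : U) : sg (u + T 1 * (T 1 * u)) = 0 := by
  simp only [map_add, map_mul, sg_T, zpow_one, ← mul_assoc, Complex.I_mul_I]; ring

lemma om2 (u : U) : om u (T 1 * (T 1 * u)) = 0 := by
  have := om_ker (sg2 u) u
  rw [om_add_l, om_self, om_comm] at this
  linarith

lemma cm_tt {u : U} (h : sg u = 0) (z : ℝ) : cm (N u z) tt = N ((1 - T 1) * u) 0 := by
  have : cm (N u z) tt = N u z * cj tt (N u z)⁻¹ := by simp [cm, cj, mul_assoc]
  rw [this, N_inv, cj_tt, N_mul, om_ker h]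
  congr 1 <;> ring

lemma pp_iff (x : GG) : PP aa tt x ↔ ∃ y z, sg y = 0 ∧ 0 < z ∧ x = N ((1 - T 1) * y) z := by
  constructor
  · rintro ⟨y, v, h1, h2, h3, h4, rfl⟩
    have y1 := comm_k h1 (by simp [e2_T]; norm_num)
    rw [aa, cj_tt2, N_mul] at h3
    have v1 := comm_k h3 (by simp [e2_T]; norm_num)
    rw [y1] at h1 h2 ⊢
    rw [v1] at h4 ⊢
    rw [aa, cm_N] at h1
    rw [aa, cj_tt, cm_N] at h2
    rw [cj_tt, cm_N, om_rot] at h4 ⊢
    have a1 := congrArg GG.z h1
    have a2 := congrArg GG.z h2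
    simp [N, one_def, om, sg_T] at a1 a2
    have a3 : sg y.u = 0 := Complex.ext (by simp; linarith) (by simp; linarith)
    refine ⟨y.u, 2 * Complex.normSq (sg v.u), a3, ?_, by rw [cm_tt a3, N_mul]; simp⟩
    refine lt_of_le_of_ne (mul_nonneg two_pos.le (Complex.normSq_nonneg _)) fun e => h4 ?_
    rw [← e]; rfl
  · rintro ⟨y, z, h1, h2, rfl⟩
    have e : cm (N (C √(z / 2)) 0) (cj tt (N (C √(z / 2)) 0)) = N 0 z := by
      rw [cj_tt, cm_N, om_rot, sg, eval₂_C]
      simp only [Complex.ofRealHom_eq_coe, Complex.normSq_ofReal]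
      rw [Real.mul_self_sqrt (by positivity)]
      congr 1; ring
    refine ⟨N y 0, N (C √(z / 2)) 0, ?_, ?_, ?_, ?_, ?_⟩
    · rw [aa, cm_N, om_ker h1]; simp [N, one_def]
    · rw [aa, cj_tt, cm_N, om_ker h1]; simp [N, one_def]
    · rw [aa, cj_tt2, N_mul, cm_N, om_comm, om_ker (sg2 _)]; simp [N, one_def]
    · rw [e]; exact fun h => h2.ne' (congrArg GG.z h)
    · rw [e, cm_tt h1, N_mul]; simp

lemma bad : Bad aa tt := by
  have n2 : om (T 1 - 1) (T 1 * (T 1 - 1)) = 2 := by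
    rw [om_rot]; simp [sg_T, Complex.normSq_apply]; norm_num
  simp only [Bad, pp_iff]
  refine ⟨?_, ?_, ?_, ⟨-(1 + T 1 * (T 1 * 1)), 4, ?_, by norm_num, ?_⟩,
    ⟨1 + T 1 * (T 1 * 1), 4, sg2 1, by norm_num, ?_⟩⟩
  · rintro _ _ ⟨y, z, h1, h2, rfl⟩ ⟨y', z', h3, h4, rfl⟩
    refine ⟨y + y', z + z', by simp [h1, h3], by positivity, ?_⟩
    rw [N_mul, om_ker (by simp [h1]), mul_add, add_zero]
  · rintro _ g ⟨y, z, h1, h2, rfl⟩
    refine ⟨T g.k * y, z, by simp [h1], h2, ?_⟩
    rw [cj_N, om_comm, om_ker (by simp [h1])]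
    congr 1 <;> ring
  · rintro ⟨y, z, -, h2, h3⟩
    exact h2.ne (congrArg GG.z h3)
  · rw [map_neg, sg2, neg_zero]
  · rw [aa, cj_tt, cj_tt2, N_inv, cj_N, N_mul]
    simp only [N, T_zero, one_mul, om_neg_l, om2, om_comm (T 1 * (T 1 - 1)) (T 1 - 1), n2]
    congr 1 <;> ring
  · rw [aa, cj_tt, cj_tt2, cj_N, N_mul, N_inv]
    simp only [N, T_zero, one_mul, om2, om_comm (T 1 * (T 1 - 1)) (T 1 - 1), n2]
    congr 1 <;> ring

def Pos (u : U) : Prop := ∃ n, 0 < u.coeff n ∧ ∀ m, n < m → u.coeff m = 0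

lemma Pos.add {u v : U} (h : Pos u) (h' : Pos v) : Pos (u + v) := by
  obtain ⟨n, h1, h2⟩ := h
  obtain ⟨m, h3, h4⟩ := h'
  refine ⟨max n m, ?_, fun j hj => by
    simp [h2 j ((le_max_left _ _).trans_lt hj), h4 j ((le_max_right _ _).trans_lt hj)]⟩
  rcases lt_trichotomy n m with e | rfl | e
  · simpa [max_eq_right e.le, h2 m e] using h3
  · simpa using add_pos h1 h3
  · simpa [max_eq_left e.le, h4 n e] using h1

lemma coeff_T (k n : ℤ) (u : U) : (T k * u).coeff (k + n) = u.coeff n := by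
  rw [T, AddMonoidAlgebra.coeff_single_mul_eq_mul_coeff n (by simp), one_mul]

lemma Pos.T {u : U} (h : Pos u) (k : ℤ) : Pos (T k * u) := by
  obtain ⟨n, h1, h2⟩ := h
  refine ⟨k + n, by rwa [coeff_T], fun m hm => ?_⟩
  rw [← add_sub_cancel k m, coeff_T, h2 _ (by omega)]

lemma pos_tri (u : U) : u = 0 ∨ Pos u ∨ Pos (-u) := by
  by_cases h : u.coeff.support.Nonempty
  · have a := Finsupp.mem_support_iff.1 (Finset.max'_mem _ h)
    have b : ∀ m, u.coeff.support.max' h < m → u.coeff m = 0 := fun m hm =>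
      Finsupp.notMem_support_iff.1 fun c => absurd (Finset.le_max' _ _ c) (not_le.2 hm)
    rcases lt_or_gt_of_ne a with e | e
    · exact Or.inr (Or.inr ⟨_, by simpa using e, fun m hm => by simpa using b m hm⟩)
    · exact Or.inr (Or.inl ⟨_, e, b⟩)
  · refine Or.inl (LaurentPolynomial.ext fun n => ?_)
    simpa using Finsupp.notMem_support_iff.1 fun c => h ⟨n, c⟩

def PG (x : GG) : Prop := 0 < x.k ∨ x.k = 0 ∧ (Pos x.u ∨ x.u = 0 ∧ 0 < x.z)

lemma orderable : Orderable GG := by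
  refine ⟨_, po_of_cone PG ?_ ?_ ?_, fun a b => ?_⟩
  · rintro x y (h | ⟨h1, h2⟩) (h' | ⟨h3, h4⟩)
    · exact Or.inl (add_pos h h')
    · exact Or.inl (by simpa [mul_def, h3] using h)
    · exact Or.inl (by simpa [mul_def, h1] using h')
    · refine Or.inr ⟨by simp [mul_def, h1, h3], ?_⟩
      simp only [mul_def, h1, T_zero, one_mul]
      rcases h2 with h2 | ⟨h2, h5⟩ <;> rcases h4 with h4 | ⟨h4, h6⟩
      · exact Or.inl (h2.add h4)
      · exact Or.inl (by simpa [h4] using h2)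
      · exact Or.inl (by simpa [h2] using h4)
      · exact Or.inr (by simpa [h2, h4] using add_pos h5 h6)
  · rintro x g (h | ⟨h1, h2⟩)
    · exact Or.inl (by simpa [cj, mul_def, inv_def] using h)
    · rw [show x = N x.u x.z from GG.ext rfl rfl h1, cj_N]
      refine Or.inr ⟨rfl, h2.imp (fun h => h.T _) fun h => ?_⟩
      simpa [N, h.1] using h.2
  · rintro (h | ⟨-, ⟨n, h, -⟩ | ⟨-, h⟩⟩) <;> simp [one_def] at h
  · have : ∀ x : GG, x = 1 ∨ PG x ∨ PG x⁻¹ := by
      intro x
      rcases lt_trichotomy x.k 0 with h | h | h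
      · exact Or.inr (Or.inr (Or.inl (by simpa [inv_def] using h)))
      · rcases pos_tri x.u with e | e | e
        · rcases lt_trichotomy x.z 0 with c | c | c
          · exact Or.inr (Or.inr (Or.inr (by simpa [inv_def, h, e] using Or.inr c)))
          · exact Or.inl (GG.ext e c h)
          · exact Or.inr (Or.inl (Or.inr ⟨h, Or.inr ⟨e, c⟩⟩))
        · exact Or.inr (Or.inl (Or.inr ⟨h, Or.inl e⟩))
        · exact Or.inr (Or.inr (Or.inr (by simpa [inv_def, h] using Or.inl e)))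
      · exact Or.inr (Or.inl (Or.inl h))
    rcases this (a⁻¹ * b) with h | h | h
    · exact Or.inl (Or.inl (inv_mul_eq_one.1 h))
    · exact Or.inl (Or.inr h)
    · exact Or.inr (Or.inr (by simpa using h))

end Pool.Agent.H27.FOGrp
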