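import Mathlib

set_option autoImplicit false

namespace Pool.Agent.H27.FOGrp

universe u

/-- Function symbols of the language of groups: `1`, inverse, product. -/
inductive GFn : ℕ → Type
  | one : GFn 0
  | inv : GFn 1
  | mul : GFn 2

/-- The first-order language of groups (no relation symbols). -/
def groupLang : FirstOrder.Language.{0, 0} := ⟨GFn, fun _ => Empty⟩

/-- A group as a structure for the language of groups. -/
instance groupStr (M : Type u) [Group M] : groupLang.Structure M where
  funMap
    | GFn.one, _ => 1
    | GFn.inv, v => (v 0)⁻¹
    | GFn.mul, v => v 0 * v 1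
  RelMap r _ := Empty.elim r

/-- `r` is a partial order on `G` invariant under multiplication on both sides. -/
def IsPO (G : Type u) [Group G] (r : G → G → Prop) : Prop :=
  (∀ a, r a a) ∧ (∀ a b, r a b → r b a → a = b) ∧ (∀ a b c, r a b → r b c → r a c) ∧
    ∀ a b x y, r a b → r (x * a * y) (x * b * y)

/-- `G` has a two-sided invariant linear order. -/
def Orderable (G : Type u) [Group G] : Prop := ∃ s, IsPO G s ∧ ∀ a b, s a b ∨ s b a

/-- Every two-sided invariant partial order of `G` is contained in an invariant linear order. -/
def ProOrderable (G : Type u) [Group G] : Prop :=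
  ∀ r, IsPO G r → ∃ s, IsPO G s ∧ (∀ a b, s a b ∨ s b a) ∧ ∀ a b, r a b → s a b

end Pool.Agent.H27.FOGrp
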