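import Pool.Agent.H60.Four

/-! Binomial transforms, sections and 2-adic weights for the colored 4-ary partition series. -/

namespace Pool.Agent.H27.Four
open Finset PowerSeries Pool.Agent.H60.PAry
open Pool.Agent.H60.ColPart (G one_sub_mul_G)

set_option maxHeartbeats 400000

noncomputable def L (D : ℤ⟦X⟧) : Polynomial ℤ →ₗ[ℤ] ℤ := Polynomial.lsum fun k => LinearMap.mulRight ℤ (coeff k D)

theorem L_mono (D : ℤ⟦X⟧) (k : ℕ) (a : ℤ) : L D (Polynomial.monomial k a) = a * coeff k D := by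
  simp [L, Polynomial.lsum_apply, Polynomial.sum_monomial_index]

theorem L_lin (a : ℤ) (D E : ℤ⟦X⟧) (p : Polynomial ℤ) : L (D + C a * E) p = L D p + a * L E p := by
  induction p using Polynomial.induction_on' with
  | add p q hp hq => rw [map_add, map_add, map_add, hp, hq]; ring
  | monomial k b => simp only [L_mono, map_add, coeff_C_mul]; ring

theorem L_X (D : ℤ⟦X⟧) (p : Polynomial ℤ) : L (X * D) (Polynomial.X * p) = L D p := by
  induction p using Polynomial.induction_on' with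
  | add p q hp hq => rw [mul_add, map_add, map_add, hp, hq]
  | monomial k b => rw [Polynomial.X_mul_monomial, L_mono, L_mono, coeff_succ_X_mul]

theorem L_binom (D : ℤ⟦X⟧) (n : ℕ) :
    L D ((1 + Polynomial.X) ^ n) = ∑ k ∈ range (n + 1), (n.choose k : ℤ) * coeff k D := by
  rw [add_comm, add_pow, map_sum]
  refine sum_congr rfl fun k _ => ?_
  rw [one_pow, mul_one, ← L_mono, ← Polynomial.C_mul_X_pow_eq_monomial, mul_comm, map_natCast]

noncomputable def Bt (D : ℤ⟦X⟧) : ℤ⟦X⟧ := PowerSeries.mk fun n => L D ((1 + Polynomial.X) ^ n)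

theorem Bt_lin (a : ℤ) (D E : ℤ⟦X⟧) : Bt (D + C a * E) = Bt D + C a * Bt E := by
  ext n
  simp only [Bt, L_lin, map_add, coeff_C_mul, coeff_mk]

theorem Bt_X (D : ℤ⟦X⟧) : Bt (X * D) = X * G ℤ 1 * Bt D := by
  have h : (1 - X) * Bt (X * D) = X * Bt D := by
    ext n
    rcases n with _ | n
    · simp [Bt, L_binom]
    · rw [sub_mul, one_mul, map_sub, coeff_succ_X_mul, coeff_succ_X_mul]
      simp only [Bt, coeff_mk]
      rw [← L_X D, ← map_sub]
      congr 1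
      ring
  have g := one_sub_mul_G (R := ℤ) 1 one_pos
  linear_combination G ℤ 1 * h - Bt (X * D) * g

theorem Bt_one : Bt 1 = G ℤ 1 := by
  ext n
  simp [Bt, L_binom, G, coeff_one]

noncomputable def g : ℤ⟦X⟧ := 1 + 4 * X + 6 * X ^ 2 + 4 * X ^ 3
noncomputable def gx : ℤ⟦X⟧ := G ℤ 1 ^ 4 * (1 - X ^ 4)

theorem Bt_g (D : ℤ⟦X⟧) : Bt (D * g) = Bt D * gx := by
  have h := one_sub_mul_G (R := ℤ) 1 one_pos
  rw [show D * g = D + C 4 * (X * D) + C 6 * (X * (X * D)) + C 4 * (X * (X * (X * D))) by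
    simp only [g, map_ofNat]; ring, Bt_lin, Bt_lin, Bt_lin]
  simp only [Bt_X, map_ofNat, gx]
  generalize G ℤ 1 = y at *
  linear_combination -Bt D * (y ^ 3 + y ^ 2 * (1 + X * y) + y * (1 + X * y) ^ 2 + (1 + X * y) ^ 3) * h

theorem Bt_pow (m : ℕ) (D : ℤ⟦X⟧) : Bt (D * g ^ m) = Bt D * gx ^ m := by
  induction m with
  | zero => simp
  | succ m ih => rw [pow_succ, ← mul_assoc, Bt_g, ih, pow_succ, mul_assoc]

theorem Bt_K {m : ℕ} {K : ℤ⟦X⟧} (h : (1 + X) * K = g ^ m - 1) : gx ^ m = 1 + Bt K := by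
  have h1 := Bt_lin 1 K (X * K)
  have h2 := Bt_lin (-1) (1 * g ^ m) 1
  have h3 := one_sub_mul_G (R := ℤ) 1 one_pos
  rw [show 1 * g ^ m + C (-1) * 1 = K + C 1 * (X * K) by simp only [map_neg, map_one]; linear_combination -h,
    h1, Bt_X, Bt_pow, Bt_one] at h2
  simp only [map_neg, map_one] at h2
  linear_combination -(1 - X) * h2 - (gx ^ m - 1 - X * Bt K) * h3

noncomputable def T : Polynomial ℤ := (1 + Polynomial.X) ^ 4 - 1

noncomputable def sc (q : ℕ) (D : ℤ⟦X⟧) : ℤ⟦X⟧ := PowerSeries.mk fun j => L D ((1 + Polynomial.X) ^ q * T ^ j)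

theorem L_sc (q : ℕ) (D : ℤ⟦X⟧) (p : Polynomial ℤ) : L (sc q D) p = L D ((1 + Polynomial.X) ^ q * p.comp T) := by
  induction p using Polynomial.induction_on' with
  | add p r hp hr => rw [map_add, hp, hr, Polynomial.add_comp, mul_add, map_add]
  | monomial k b =>
    rw [L_mono, Polynomial.monomial_comp, mul_left_comm, ← Polynomial.smul_eq_C_mul, map_smul, sc, coeff_mk,
      smul_eq_mul]

theorem Bt_sc (q n : ℕ) (D : ℤ⟦X⟧) : coeff (4 * n + q) (Bt D) = coeff n (Bt (sc q D)) := by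
  simp only [Bt, coeff_mk, L_sc, Polynomial.pow_comp, Polynomial.add_comp, Polynomial.one_comp, Polynomial.X_comp, T]
  rw [add_sub_cancel, ← pow_mul, ← pow_add, add_comm q]

theorem sc_lin (q : ℕ) (a : ℤ) (D E : ℤ⟦X⟧) : sc q (D + C a * E) = sc q D + C a * sc q E := by
  ext n
  simp only [sc, L_lin, map_add, coeff_C_mul, coeff_mk]

/-- all coefficients of `Φ * F` are coefficients of `F`. -/
def Val (m : ℕ) (Φ : ℤ⟦X⟧) : Prop := ∀ n, ∃ n', coeff n (Φ * F4 ℤ ^ m) = coeff n' (F4 ℤ ^ m)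

theorem Val.step {m q : ℕ} {Φ Ψ : ℤ⟦X⟧} (h : Val m Φ) (hq : q < 4)
    (e : ∀ n, coeff (4 * n + q) (Φ * gx ^ m) = coeff n Ψ) : Val m Ψ := fun n => by
  obtain ⟨n', h⟩ := h (4 * n + q)
  refine ⟨n', Eq.trans ?_ h⟩
  have : Φ * F4 ℤ ^ m = Φ * gx ^ m * expand 4 (by norm_num) (F4 ℤ ^ m) := by
    nth_rewrite 1 [F4_eq]
    rw [mul_pow, map_pow, gx, mul_assoc]
  rw [this, coeff_mul_expand 4 _ q hq]
  congr 2
  ext i
  rw [coeff_mk, e]

theorem Val.s0 {m q : ℕ} {D : ℤ⟦X⟧} (h : Val m (Bt D)) (hq : q < 4) : Val m (Bt (sc q (D * g ^ m))) :=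
  h.step hq fun n => by rw [← Bt_pow, Bt_sc]

theorem Val.s1 {m : ℕ} {D K : ℤ⟦X⟧} (h : Val m (1 + Bt D)) (hK : (1 + X) * K = g ^ m - 1) :
    Val m (1 + Bt (sc 0 (K + D * g ^ m))) ∧ Val m (Bt (sc 1 (K + D * g ^ m))) := by
  have e : (1 + Bt D) * gx ^ m = 1 + Bt (K + D * g ^ m) := by
    have := Bt_lin 1 K (D * g ^ m)
    rw [map_one, one_mul, one_mul] at this
    rw [this, Bt_pow, add_mul, one_mul, ← add_assoc, ← Bt_K hK]
  refine ⟨h.step (q := 0) (by omega) fun n => ?_, h.step (q := 1) (by omega) fun n => ?_⟩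
  · rw [e, map_add, map_add, Bt_sc, coeff_one, coeff_one]
    simp
  · rw [e, map_add, Bt_sc, coeff_one, if_neg (by omega), zero_add]

def Wt (e : ℕ) (D : ℤ⟦X⟧) : Prop := ∀ k, (2 : ℤ) ^ ((k + e) / 2) ∣ coeff k D

theorem Wt.add {e : ℕ} {D E : ℤ⟦X⟧} (h : Wt e D) (h' : Wt e E) : Wt e (D + E) := fun k => by
  rw [map_add]
  exact (h k).add (h' k)

theorem Wt.mul {e : ℕ} {D E : ℤ⟦X⟧} (h : Wt e D) (h' : Wt 1 E) : Wt e (D * E) := fun k => by
  rw [coeff_mul]
  refine dvd_sum fun x hx => (pow_dvd_pow _ ?_).trans (pow_add (2 : ℤ) _ _ ▸ mul_dvd_mul (h x.1) (h' x.2))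
  have := mem_antidiagonal.mp hx
  omega

theorem Wt.mono (e k : ℕ) (a : ℤ) (h : 2 ^ ((k + e) / 2) ∣ a) : Wt e (C a * X ^ k) := fun i => by
  rw [coeff_C_mul, coeff_X_pow]
  split_ifs with h1
  · rwa [h1, mul_one]
  · simp

theorem Wt_one : Wt 1 1 := by simpa using Wt.mono 1 0 1 (by norm_num)

theorem Wt_g (m : ℕ) : Wt 1 (g ^ m) := by
  induction m with
  | zero => exact Wt_one
  | succ m ih =>
    rw [pow_succ]
    refine ih.mul ?_
    simpa [g] using ((Wt_one.add (Wt.mono 1 1 4 (by norm_num))).add (Wt.mono 1 2 6 (by norm_num))).add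
      (Wt.mono 1 3 4 (by norm_num))

def Cw (h : ℕ) (p : Polynomial ℤ) : Prop := ∀ k, (2 : ℤ) ^ ((h - k + 1) / 2) ∣ p.coeff k

theorem Cw_T (q j : ℕ) : Cw (4 * j) ((1 + Polynomial.X) ^ q * T ^ j) := by
  induction j with
  | zero => exact fun k => by simp
  | succ j ih =>
    have t : Cw 4 T := fun k => by
      rw [T, Polynomial.coeff_sub, Polynomial.coeff_one_add_X_pow, Polynomial.coeff_one]
      by_cases h : k < 4
      · interval_cases k <;> decide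
      · rw [show (4 - k + 1) / 2 = 0 by omega, pow_zero]
        exact one_dvd _
    intro k
    rw [pow_succ, ← mul_assoc, Polynomial.coeff_mul]
    refine dvd_sum fun x hx => (pow_dvd_pow _ ?_).trans (pow_add (2 : ℤ) _ _ ▸ mul_dvd_mul (ih x.1) (t x.2))
    have := mem_antidiagonal.mp hx
    omega

theorem Wt.sc {e : ℕ} {D : ℤ⟦X⟧} (h : Wt e D) (q j : ℕ) : (2 : ℤ) ^ (2 * j + e / 2) ∣ coeff j (sc q D) := by
  rw [Four.sc, coeff_mk, L, Polynomial.lsum_apply, Polynomial.sum]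
  refine dvd_sum fun k _ => (pow_dvd_pow _ ?_).trans (pow_add (2 : ℤ) _ _ ▸ mul_dvd_mul (Cw_T q j k) (h k))
  omega

theorem sc_co (q : ℕ) (D : ℤ⟦X⟧) : coeff 0 (sc q D) = coeff q (Bt D) ∧
    coeff 1 (sc q D) = coeff (q + 4) (Bt D) - coeff q (Bt D) ∧
    coeff 2 (sc q D) = coeff (q + 8) (Bt D) - 2 * coeff (q + 4) (Bt D) + coeff q (Bt D) ∧
    coeff 3 (sc q D) = coeff (q + 12) (Bt D) - 3 * coeff (q + 8) (Bt D) + 3 * coeff (q + 4) (Bt D) -
      coeff q (Bt D) := by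
  simp only [sc, Bt, coeff_mk, ← smul_eq_mul, ← map_smul, ← map_sub, ← map_add, T]
  refine ⟨?_, ?_, ?_, ?_⟩ <;> congr 1 <;> simp only [zsmul_eq_mul, smul_eq_mul] <;> push_cast <;> ring

end Pool.Agent.H27.Four
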