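import Mathlib

set_option autoImplicit false

namespace Pool.Agent.H27.FrobPart

open PowerSeries

/-- `A` is malnormal: `γ⁻¹ A γ ∩ A = 1` for `γ ∉ A`. -/
def Malnormal {Γ : Type*} [Group Γ] (A : Subgroup Γ) : Prop :=
  ∀ γ, γ ∉ A → ∀ x ∈ A, γ * x * γ⁻¹ ∈ A → x = 1

/-- `{N} ∪ 𝒜` is a nontrivial Frobenius partition (with all members of `𝒜` nontrivial). -/
def IsFrobPart {Γ : Type*} [Group Γ] (N : Subgroup Γ) (𝒜 : Set (Subgroup Γ)) : Prop :=
  N.Normal ∧ (∀ g : Γ, g ≠ 1 → ∃! P, P ∈ insert N 𝒜 ∧ g ∈ P) ∧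
  (∀ A ∈ 𝒜, A ≠ ⊥ ∧ Malnormal A ∧ ∀ γ : Γ, A.map (MulAut.conj γ⁻¹).toMonoidHom ∈ 𝒜) ∧
  ∃ P ∈ insert N 𝒜, ∃ Q ∈ insert N 𝒜, P ≠ Q ∧ P ≠ ⊥ ∧ Q ≠ ⊥

noncomputable def e (a : ℂ) : ℂ⟦X⟧ := rescale a (exp ℂ)

lemma e_add (a b : ℂ) : e (a + b) = e a * e b := (exp_mul_exp_eq_exp_add a b).symm
lemma e_zero : e 0 = 1 := by simp [e, rescale_zero]
lemma e0 (a : ℂ) : coeff 0 (e a) = 1 := by simp [e, coeff_rescale]
lemma e0' (a : ℂ) : constantCoeff (e a) = 1 := by rw [← coeff_zero_eq_constantCoeff_apply, e0]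
lemma e1 (a : ℂ) : coeff 1 (e a) = a := by simp [e, coeff_rescale]
lemma e_ne {a : ℂ} (h : a ≠ 0) : 1 - e a ≠ 0 := fun h' => h (by
  have := congrArg (coeff 1) h'
  simpa [e1, coeff_one] using this)

@[ext] structure G where
  a : ℂ
  b : ℂ⟦X⟧
  h : ∃ n : ℤ, a.im = n
  h' : constantCoeff b = a.im

noncomputable instance : Mul G := ⟨fun x y => ⟨x.a + y.a, x.b + e x.a * y.b, by
  obtain ⟨n, hn⟩ := x.h; obtain ⟨m, hm⟩ := y.h; exact ⟨n + m, by simp [hn, hm]⟩,
  by simp [e0', x.h', y.h']⟩⟩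
noncomputable instance : One G := ⟨⟨0, 0, ⟨0, by simp⟩, by simp⟩⟩
noncomputable instance : Inv G := ⟨fun x => ⟨-x.a, -(e (-x.a) * x.b), by
  obtain ⟨n, hn⟩ := x.h; exact ⟨-n, by simp [hn]⟩, by simp [e0', x.h']⟩⟩

@[simp] lemma mul_a (x y : G) : (x * y).a = x.a + y.a := rfl
@[simp] lemma mul_b (x y : G) : (x * y).b = x.b + e x.a * y.b := rfl
@[simp] lemma one_a : (1 : G).a = 0 := rfl
@[simp] lemma one_b : (1 : G).b = 0 := rfl
@[simp] lemma inv_a (x : G) : x⁻¹.a = -x.a := rfl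
@[simp] lemma inv_b (x : G) : x⁻¹.b = -(e (-x.a) * x.b) := rfl

noncomputable instance : Group G := Group.ofLeftAxioms
  (fun x y z => G.ext (add_assoc _ _ _) (by simp [e_add]; ring))
  (fun x => G.ext (zero_add _) (by simp [e_zero]))
  (fun x => G.ext (by simp) (by simp))

noncomputable def C (g : G) : Subgroup G := Subgroup.centralizer {g}

lemma mem_C {g x : G} : x ∈ C g ↔ (1 - e x.a) * g.b = (1 - e g.a) * x.b := by
  rw [C, Subgroup.mem_centralizer_singleton_iff]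
  constructor
  · intro h
    have := congrArg G.b h
    simp only [mul_b] at this
    linear_combination -this
  · intro h
    exact G.ext (add_comm _ _) (by simp only [mul_b]; linear_combination -h)

lemma self_mem (g : G) : g ∈ C g := mem_C.2 rfl

lemma eq_of_C {g x y : G} (hg : g.a ≠ 0) (hx : x ∈ C g) (hy : y ∈ C g) (h : x.a = y.a) :
    x = y := by
  rw [mem_C] at hx hy
  exact G.ext h (mul_left_cancel₀ (e_ne hg) (by rw [← hx, ← hy, h]))

lemma C_eq {g x : G} (hg : g.a ≠ 0) (hx0 : x.a ≠ 0) (hx : x ∈ C g) : C x = C g := by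
  ext y
  rw [mem_C] at hx
  rw [mem_C, mem_C]
  constructor
  · intro h
    exact mul_left_cancel₀ (e_ne hx0) (by linear_combination (1 - e y.a) * hx + (1 - e g.a) * h)
  · intro h
    exact mul_left_cancel₀ (e_ne hg) (by linear_combination (1 - e x.a) * h - (1 - e y.a) * hx)

lemma mal {g : G} (hg : g.a ≠ 0) : Malnormal (C g) := by
  intro γ hγ x hx hc
  by_contra h1
  have hx0 : x.a ≠ 0 := fun h => h1 (eq_of_C hg hx (one_mem _) h)
  have := eq_of_C hg hc hx (by simp)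
  apply hγ
  rw [← C_eq hg hx0 hx, C, Subgroup.mem_centralizer_singleton_iff]
  exact mul_inv_eq_iff_eq_mul.1 this

lemma C_conj (g γ : G) : (C g).map (MulAut.conj γ⁻¹).toMonoidHom = C (γ⁻¹ * g * γ) := by
  ext y
  simp only [Subgroup.mem_map, C, Subgroup.mem_centralizer_singleton_iff]
  constructor
  · rintro ⟨x, hx, rfl⟩
    simp only [MulEquiv.toMonoidHom_eq_coe, MonoidHom.coe_coe, MulAut.conj_apply, inv_inv]
    calc γ⁻¹ * x * γ * (γ⁻¹ * g * γ) = γ⁻¹ * (x * g) * γ := by group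
      _ = _ := by rw [hx]; group
  · intro h
    refine ⟨γ * y * γ⁻¹, ?_, by simp [mul_assoc]⟩
    calc γ * y * γ⁻¹ * g = γ * (y * (γ⁻¹ * g * γ)) * γ⁻¹ := by group
      _ = _ := by rw [h]; group

lemma part (N : Subgroup G) (hN : N.Normal) (hT : ∀ x : G, x.a = 0 → x ∈ N)
    (hs : ∀ g, g ∉ N → ∀ x ∈ N, x ∈ C g → x = 1) (g0 : G) (h0 : g0 ∉ N) :
    IsFrobPart N {A | ∃ g, g ∉ N ∧ A = C g} := by
  have ne : ∀ g, g ∉ N → g.a ≠ 0 := fun g hg h => hg (hT g h)
  have nb : ∀ g, g ∉ N → C g ≠ ⊥ := fun g hg h => hg (by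
    have := self_mem g; rw [h, Subgroup.mem_bot] at this; rw [this]; exact one_mem _)
  refine ⟨hN, fun x hx => ?_, ?_, N, Or.inl rfl, C g0, Or.inr ⟨g0, h0, rfl⟩,
    fun h => h0 (h ▸ self_mem g0), fun h => ?_, nb g0 h0⟩
  · by_cases hxN : x ∈ N
    · refine ⟨N, ⟨Or.inl rfl, hxN⟩, ?_⟩
      rintro P ⟨rfl | ⟨g, hg, rfl⟩, hP⟩
      · rfl
      · exact absurd (hs g hg x hxN hP) hx
    · refine ⟨C x, ⟨Or.inr ⟨x, hxN, rfl⟩, self_mem x⟩, ?_⟩
      rintro P ⟨rfl | ⟨g, hg, rfl⟩, hP⟩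
      · exact absurd hP hxN
      · exact (C_eq (ne g hg) (ne x hxN) hP).symm
  · rintro A ⟨g, hg, rfl⟩
    refine ⟨nb g hg, mal (ne g hg), fun γ => ⟨γ⁻¹ * g * γ, fun h => hg ?_, C_conj g γ⟩⟩
    have := hN.conj_mem _ h γ
    simpa [mul_assoc] using this
  · have := hT ⟨0, X, ⟨0, by simp⟩, by simp⟩ rfl
    rw [h, Subgroup.mem_bot] at this
    exact X_ne_zero (congrArg G.b this)

noncomputable def T : Subgroup G where
  carrier := {x | x.a = 0}
  mul_mem' := fun {x y} hx hy => by simp_all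
  one_mem' := rfl
  inv_mem' := fun {x} hx => by simp_all

noncomputable def N0 : Subgroup G where
  carrier := {x | x.a.im = 0}
  mul_mem' := fun {x y} hx hy => by simp_all
  one_mem' := by simp
  inv_mem' := fun {x} hx => by simp_all

lemma star {g : G} (hg : g ∉ N0) {x : G} (hx : x ∈ N0) (hc : x ∈ C g) : x = 1 := by
  have hg' : g.a.im ≠ 0 := hg
  have hx' : x.a.im = 0 := hx
  have h := congrArg (coeff 1) (mem_C.1 hc)
  rw [coeff_one_mul, coeff_one_mul] at h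
  simp only [map_sub, e1, coeff_one, e0', g.h', x.h', hx', map_one] at h
  have : x.a = 0 := by simpa [hg'] using h
  exact eq_of_C (fun h => hg' (by simp [h])) hc (one_mem _) this

noncomputable def gi : G := ⟨Complex.I, 1, ⟨1, by simp⟩, by simp⟩
noncomputable def g1 : G := ⟨1, 0, ⟨0, by simp⟩, by simp⟩

lemma gi_N0 : gi ∉ N0 := fun h => by
  have : (Complex.I).im = 0 := h
  simp at this
lemma gi_T : gi ∉ T := fun h => Complex.I_ne_zero h
lemma g1_T : g1 ∉ T := fun h => one_ne_zero (α := ℂ) h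

theorem partT : IsFrobPart T {A | ∃ g, g ∉ T ∧ A = C g} :=
  part T ⟨fun x hx γ => by
      have : x.a = 0 := hx
      show (γ * x * γ⁻¹).a = 0
      simp [this]⟩ (fun _ h => h)
    (fun g hg x hx hc => eq_of_C hg hc (one_mem _) hx) gi gi_T

theorem partN : IsFrobPart N0 {A | ∃ g, g ∉ N0 ∧ A = C g} :=
  part N0 ⟨fun x hx γ => by
      have : x.a.im = 0 := hx
      show (γ * x * γ⁻¹).a.im = 0
      simp [this]⟩ (fun x h => show x.a.im = 0 by simp [h])
    (fun g hg x hx hc => star hg hx hc) gi gi_N0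

theorem T_ne : N0 ≠ T := fun h => g1_T (h ▸ (show (1 : ℂ).im = 0 by simp))

theorem noniso : IsEmpty (C g1 ≃* C gi) := ⟨fun φ => by
  have sq : ∀ x : C g1, ∃ y : C g1, y * y = x := by
    rintro ⟨x, hx⟩
    have hb : x.b = 0 := by
      have := mem_C.1 hx
      simp only [g1, mul_zero] at this
      exact (mul_eq_zero.1 this.symm).resolve_left (e_ne one_ne_zero)
    have him : x.a.im = 0 := by
      have := x.h'; rw [hb, map_zero] at this; exact_mod_cast this.symm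
    refine ⟨⟨⟨x.a / 2, 0, ⟨0, by simp [him]⟩, by simp [him]⟩, mem_C.2 (by simp [g1])⟩,
      Subtype.ext (G.ext (by simp) (by simp [hb]))⟩
  obtain ⟨y, hy⟩ := sq (φ.symm ⟨gi, self_mem _⟩)
  have h' := congrArg φ hy
  rw [map_mul, MulEquiv.apply_symm_apply] at h'
  have h : (φ y : G).a.im + (φ y : G).a.im = Complex.I.im :=
    congrArg (fun z : C gi => (z : G).a.im) h'
  obtain ⟨n, hn⟩ := (φ y : G).h
  rw [hn, Complex.I_im] at h
  have : n + n = 1 := by exact_mod_cast h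
  omega⟩

theorem nonsplit (A : Subgroup G) (hA : ∃ g, g ∉ T ∧ A = C g) :
    ¬ ∀ γ : G, ∃ t ∈ T, ∃ a ∈ A, γ = t * a := by
  obtain ⟨g, hg, rfl⟩ := hA
  intro h
  obtain ⟨t, ht, x, hx, e1⟩ := h g1
  obtain ⟨s, hs, y, hy, e2⟩ := h gi
  have xa : x.a = 1 := by
    have := congrArg G.a e1; rw [mul_a, show t.a = 0 from ht, zero_add] at this; exact this.symm
  have ya : y.a = Complex.I := by
    have := congrArg G.a e2; rw [mul_a, show s.a = 0 from hs, zero_add] at this; exact this.symm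
  have : x = 1 := star (g := y) (fun h => by
      have : y.a.im = 0 := h
      simp [ya] at this) (show x.a.im = 0 by simp [xa])
    (by rw [C_eq hg (by rw [ya]; exact Complex.I_ne_zero) hy]; exact hx)
  rw [this] at xa
  exact zero_ne_one xa

instance : Infinite G := Infinite.of_injective
  (fun n : ℕ => (⟨n, 0, ⟨0, by simp⟩, by simp⟩ : G)) fun n m h => by
    simpa using congrArg G.a h

end Pool.Agent.H27.FrobPart
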