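import Mathlib

/-! Truncated cyclic sums of products of q-binomial coefficients. -/

namespace Pool.Agent.H27.GJ
open Finset

variable {K : Type} [Field K] {q : K}

def Good (q : K) : Prop := q ≠ 0 ∧ ∀ i : ℕ, q ^ (i + 1) ≠ 1

def br (q : K) (z : ℤ) : K := (1 - q ^ z) / (1 - q)
def f (q : K) (n : ℕ) : K := ∏ i ∈ range n, br q (i + 1)
def g (q : K) (z : ℤ) : K := if z < 0 then 0 else (f q z.toNat)⁻¹
def r (q : K) (n k : ℤ) : K := g q (n + k) * g q (n - k)
def xx (q : K) (z : ℤ) : K := q ^ (-z) * br q z ^ 2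

theorem Good.inv (h : Good q) : Good q⁻¹ :=
  ⟨inv_ne_zero h.1, fun i => by rw [inv_pow, Ne, inv_eq_one]; exact h.2 i⟩

theorem Good.one (h : Good q) : 1 - q ≠ 0 := fun e => h.2 0 (by rw [zero_add, pow_one, ← sub_eq_zero.mp e])

theorem br_ne (h : Good q) (i : ℕ) : br q (i + 1) ≠ 0 :=
  div_ne_zero (fun e => h.2 i (by rw [sub_eq_zero.mp e]; norm_cast)) h.one

theorem f_ne (h : Good q) (n : ℕ) : f q n ≠ 0 := prod_ne_zero_iff.mpr fun i _ => br_ne h i

theorem f_succ (n : ℕ) : f q (n + 1) = f q n * br q (n + 1) := prod_range_succ _ _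

theorem g_nat (n : ℕ) : g q n = (f q n)⁻¹ := by simp [g]

theorem fg (h : Good q) (n : ℕ) : f q n * g q n = 1 := by rw [g_nat, mul_inv_cancel₀ (f_ne h n)]

theorem g_neg {z : ℤ} (hz : z < 0) : g q z = 0 := if_pos hz

theorem br_zero : br q 0 = 0 := by simp [br]

theorem g_rec (h : Good q) (z : ℤ) : g q z = br q (z + 1) * g q (z + 1) := by
  rcases lt_trichotomy z (-1) with hz | rfl | hz
  · rw [g_neg (by omega), g_neg (by omega), mul_zero]
  · rw [g_neg (by omega), neg_add_cancel, br_zero, zero_mul]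
  · obtain ⟨n, rfl⟩ := Int.eq_ofNat_of_zero_le (by omega : 0 ≤ z)
    have := br_ne h n
    rw [← Nat.cast_succ, g_nat, g_nat, f_succ]
    push_cast
    field_simp

theorem br_add (h : Good q) (a b : ℤ) : br q (a + b) = br q a + q ^ a * br q b := by
  have := h.one
  simp only [br, zpow_add₀ h.1]
  field_simp
  ring

theorem pascal (h : Good q) (a b : ℤ) : br q (a + b + 2) * (g q (a + 1) * g q (b + 1))
    = g q a * g q (b + 1) + q ^ (a + 1) * (g q (a + 1) * g q b) := by
  rw [show a + b + 2 = a + 1 + (b + 1) by ring, br_add h, g_rec h a, g_rec h b]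
  ring

theorem vdm (h : Good q) (Z : K) (N : ℕ) : ∀ c : ℤ,
    ∑ s ∈ range (N + 1), q ^ ((s : ℤ) * (s + c)) * g q s * g q (N - s) * g q (s + c)
      * ∏ i ∈ range s, ((1 - Z * q ^ (-i : ℤ)) / (1 - q))
    = g q N * g q (N + c) * ∏ i ∈ range N, ((1 - Z * q ^ (c + i + 1)) / (1 - q)) := by
  have h0 := h.1
  have h1 := h.one
  induction N with
  | zero => intro c; simp [g, f]
  | succ N ih =>
    intro c
    apply mul_left_cancel₀ (br_ne h N)
    have e : ∀ s : ℕ, br q (N + 1) * (g q s * g q ((N + 1 : ℕ) - s))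
        = g q (s - 1) * g q (N + 1 - s) + q ^ (s : ℤ) * (g q s * g q (N - s)) := by
      intro s
      have := pascal h (s - 1) (N - s)
      rw [show (s : ℤ) - 1 + (N - s) + 2 = N + 1 by ring, sub_add_cancel,
        show (N : ℤ) - s + 1 = N + 1 - s by ring] at this
      push_cast
      exact this
    have e2 : ∀ s ∈ range (N + 1 + 1), br q (N + 1) * (q ^ ((s : ℤ) * (s + c)) * g q s
        * g q ((N + 1 : ℕ) - s) * g q (s + c) * ∏ i ∈ range s, ((1 - Z * q ^ (-i : ℤ)) / (1 - q)))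
        = q ^ ((s : ℤ) * (s + c)) * g q (s - 1) * g q (N + 1 - s) * g q (s + c)
          * ∏ i ∈ range s, ((1 - Z * q ^ (-i : ℤ)) / (1 - q))
        + q ^ ((s : ℤ) * (s + c)) * q ^ (s : ℤ) * g q s * g q (N - s) * g q (s + c)
          * ∏ i ∈ range s, ((1 - Z * q ^ (-i : ℤ)) / (1 - q)) := by
      intro s _
      linear_combination q ^ ((s : ℤ) * (s + c)) * g q (s + c)
        * (∏ i ∈ range s, ((1 - Z * q ^ (-i : ℤ)) / (1 - q))) * e s
    rw [mul_sum, sum_congr rfl e2, sum_add_distrib, sum_range_succ', sum_range_succ _ (N + 1),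
      g_neg (z := (0 : ℕ) - 1) (by omega), g_neg (z := N - (N + 1 : ℕ)) (by omega)]
    simp only [mul_zero, zero_mul, add_zero, ← sum_add_distrib]
    rw [prod_range_succ' _ N]
    have e3 := ih (c + 1)
    rw [g_rec h N, show (N : ℤ) + (c + 1) = (N + 1 : ℕ) + c by push_cast; ring] at e3
    simp only [show ∀ i : ℕ, c + 1 + i + 1 = c + (i + 1 : ℕ) + 1 by intro i; push_cast; ring] at e3
    push_cast at e3 ⊢
    rw [← mul_assoc, ← mul_assoc, ← mul_assoc, ← e3, sum_mul]
    refine sum_congr rfl fun s _ => ?_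
    rw [prod_range_succ, g_rec h (s + c), add_sub_cancel_right, add_sub_add_right_eq_sub,
      show (s : ℤ) + 1 + c = s + c + 1 by ring, show (s : ℤ) + (c + 1) = s + c + 1 by ring,
      show ((s : ℤ) + 1) * (s + c + 1) = s * (s + c) + s + (s + c + 1) by ring,
      show (s : ℤ) * (s + c + 1) = s * (s + c) + s by ring, br]
    generalize ∏ i ∈ range s, ((1 - Z * q ^ (-i : ℤ)) / (1 - q)) = P
    simp only [zpow_add₀ h0, zpow_neg, add_zero, zpow_one]
    have := zpow_ne_zero (s : ℤ) h0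
    field_simp
    ring

theorem shift (x k M : ℕ) (hk : k ≤ x) (hM : x < M) (φ : ℕ → K) :
    ∑ l ∈ range M, r q l k * g q (x - l) * φ l
      = ∑ s ∈ range (x - k + 1), r q (k + s : ℕ) k * g q (x - (k + s : ℕ)) * φ (k + s) := by
  rw [show x - k + 1 = x + 1 - k by omega,
    ← sum_Ico_eq_sum_range (fun l => r q l k * g q (x - l) * φ l)]
  symm
  refine sum_subset (fun l hl => by simp at hl ⊢; omega) fun l _ hl => ?_
  simp only [mem_Ico, not_and, not_lt] at hl
  rcases lt_or_ge l k with h | h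
  · rw [r, g_neg (z := l - k) (by omega)]; simp
  · rw [g_neg (z := x - l) (by have := hl h; omega)]; simp

theorem zero_side (x k M : ℕ) (hk : x < k) (φ : ℕ → K) :
    ∑ l ∈ range M, r q l k * g q (x - l) * φ l = 0 := by
  refine sum_eq_zero fun l _ => ?_
  rcases lt_or_ge l k with h | h
  · rw [r, g_neg (z := l - k) (by omega)]; simp
  · rw [g_neg (z := x - l) (by omega)]; simp

theorem two (h : Good q) (x y k M : ℕ) (hM : x < M) :
    ∑ l ∈ range M, r q l k * g q (x - l) * (q ^ ((l : ℤ) ^ 2) * g q (y - l))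
      = q ^ ((k : ℤ) ^ 2) * r q x k * r q y k * f q (x + y) := by
  rcases lt_or_ge x k with hk | hk
  · rw [zero_side _ _ _ hk, r, g_neg (z := x - k) (by omega)]; simp
  rw [shift x k M hk hM]
  obtain ⟨N, rfl⟩ := Nat.exists_eq_add_of_le hk
  have e := vdm h (q ^ ((y : ℤ) - k)) N (2 * k)
  have e1 : ∀ s : ℕ, g q (y - k) * ∏ i ∈ range s, ((1 - q ^ ((y : ℤ) - k) * q ^ (-i : ℤ)) / (1 - q))
      = g q (y - (k + s : ℕ)) := by
    intro s
    induction s with
    | zero => simp
    | succ s ih =>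
      rw [prod_range_succ, ← mul_assoc, ih, g_rec h (y - (k + (s + 1) : ℕ)), ← zpow_add₀ h.1, br]
      push_cast
      rw [show (y : ℤ) - (k + (s + 1)) + 1 = y - (k + s) by ring, show (y : ℤ) - k + -s = y - (k + s) by ring,
        mul_comm]
  have e2 : ∀ s : ℕ, g q (y + k + s) * ∏ i ∈ range s,
      ((1 - q ^ ((y : ℤ) - k) * q ^ (2 * k + i + 1 : ℤ)) / (1 - q)) = g q (y + k) := by
    intro s
    induction s with
    | zero => simp
    | succ s ih =>
      rw [prod_range_succ, ← ih, g_rec h (y + k + s), ← zpow_add₀ h.1, br]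
      push_cast
      rw [show (y : ℤ) - k + (2 * k + s + 1) = y + k + s + 1 by ring, add_assoc _ (s : ℤ)]
      ring
  have e3 := fg h (k + N + y)
  rw [Nat.add_sub_cancel_left]
  calc _ = q ^ ((k : ℤ) ^ 2) * g q (y - k) * ∑ s ∈ range (N + 1), _ := ?_
    _ = _ := by
      rw [e, r, r, ← e2 N]
      push_cast at e3 ⊢
      rw [show (k : ℤ) + N + k = N + 2 * k by ring, add_sub_cancel_left]
      rw [show (k : ℤ) + N + y = y + k + N by ring] at e3
      linear_combination (-q ^ ((k : ℤ) ^ 2) * g q (y - k) * g q N * g q (N + 2 * k) * ∏ i ∈ range N,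
        ((1 - q ^ ((y : ℤ) - k) * q ^ (2 * k + i + 1 : ℤ)) / (1 - q))) * e3
  rw [mul_sum]
  refine sum_congr rfl fun s _ => ?_
  rw [← e1 s, r]
  push_cast
  rw [show ((k : ℤ) + s) ^ 2 = k ^ 2 + s * (s + 2 * k) by ring, zpow_add₀ h.1, add_sub_cancel_left,
    add_sub_add_left_eq_sub, show (k : ℤ) + s + k = s + 2 * k by ring]
  ring

theorem one (h : Good q) (x k M : ℕ) (hM : x < M) :
    ∑ l ∈ range M, r q l k * g q (x - l) * (q ^ ((l : ℤ) ^ 2) * (1 - q) ^ (x - l))
      = q ^ ((k : ℤ) ^ 2) * r q x k := by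
  rcases lt_or_ge x k with hk | hk
  · rw [zero_side _ _ _ hk, r, g_neg (z := x - k) (by omega)]; simp
  rw [shift x k M hk hM]
  obtain ⟨N, rfl⟩ := Nat.exists_eq_add_of_le hk
  have e := vdm h 0 N (2 * k)
  have h1 := h.one
  simp only [zero_mul, sub_zero, prod_const, card_range, one_div, inv_pow] at e
  rw [Nat.add_sub_cancel_left]
  calc _ = q ^ ((k : ℤ) ^ 2) * (1 - q) ^ N * ∑ s ∈ range (N + 1), _ := ?_
    _ = _ := by
      rw [e, r]
      push_cast
      rw [show (k : ℤ) + N + k = N + 2 * k by ring, add_sub_cancel_left]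
      field_simp
  rw [mul_sum]
  refine sum_congr rfl fun s hs => ?_
  obtain ⟨t, rfl⟩ : ∃ t, N = s + t := ⟨N - s, by have := mem_range.mp hs; omega⟩
  rw [r, show k + (s + t) - (k + s) = t by omega]
  push_cast
  rw [show ((k : ℤ) + s) ^ 2 = k ^ 2 + s * (s + 2 * k) by ring, zpow_add₀ h.1, add_sub_cancel_left,
    add_sub_add_left_eq_sub, show (k : ℤ) + s + k = s + 2 * k by ring, pow_add]
  field_simp

theorem xx_sub (h : Good q) (n k : ℤ) : xx q n - xx q k = q ^ (-n) * br q (n - k) * br q (n + k) := by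
  have h0 := h.1
  have h1 := h.one
  have := zpow_ne_zero n h0
  have := zpow_ne_zero k h0
  simp only [xx, br, zpow_add₀ h0, zpow_sub₀ h0, zpow_neg]
  field_simp
  ring

theorem newton (h : Good q) (a M i : ℕ) : ∀ n : ℤ, n < M → a ≤ M →
    ∑ k ∈ Ico a M, q ^ (-k : ℤ) * br q (2 * k) * (∏ t ∈ range i, (xx q k - xx q (a + t))) * r q n k
      = f q i * q ^ (-(i + 1) * n) * g q (n - a - i) * g q (n + a - 1) := by
  have h0 := h.1
  have h1 := h.one
  induction i with
  | zero =>
    intro n hn ha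
    have e : ∀ k ∈ Ico a M, q ^ (-k : ℤ) * br q (2 * k) * (∏ t ∈ range 0, (xx q k - xx q (a + t)))
        * r q n k = (-q ^ (-n) * g q (n - (k + 1 : ℕ)) * g q (n + (k + 1 : ℕ) - 1))
          - (-q ^ (-n) * g q (n - k) * g q (n + k - 1)) := by
      intro k _
      rw [g_rec h (n - (k + 1 : ℕ)), g_rec h (n + k - 1), r]
      push_cast
      rw [show n - (k + 1) + 1 = n - k by ring, show n + (k + 1) - 1 = n + k by ring, sub_add_cancel,
        two_mul]
      have := zpow_ne_zero n h0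
      have := zpow_ne_zero (k : ℤ) h0
      simp only [br, zpow_add₀ h0, zpow_sub₀ h0, zpow_neg, prod_range_zero]
      field_simp
      ring
    rw [sum_congr rfl e, sum_Ico_sub (fun k : ℕ => -q ^ (-n) * g q (n - k) * g q (n + k - 1)) ha,
      g_neg (z := n - M) (by omega)]
    simp [f]
  | succ i ih =>
    intro n hn ha
    have e : ∀ k ∈ Ico a M, q ^ (-k : ℤ) * br q (2 * k)
        * (∏ t ∈ range (i + 1), (xx q k - xx q (a + t))) * r q n k
        = (xx q n - xx q (a + i)) * (q ^ (-k : ℤ) * br q (2 * k)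
          * (∏ t ∈ range i, (xx q k - xx q (a + t))) * r q n k) - q ^ (-n) * (q ^ (-k : ℤ)
          * br q (2 * k) * (∏ t ∈ range i, (xx q k - xx q (a + t))) * r q (n - 1) k) := by
      intro k _
      have e1 : r q (n - 1) k = br q (n - k) * br q (n + k) * r q n k := by
        rw [r, r, g_rec h (n - 1 + k), g_rec h (n - 1 - k), show n - 1 + k + 1 = n + k by ring,
          show n - 1 - k + 1 = n - k by ring]
        ring
      rw [prod_range_succ, e1]
      linear_combination -(q ^ (-k : ℤ) * br q (2 * k) * (∏ t ∈ range i, (xx q k - xx q (a + t)))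
        * r q n k) * xx_sub h n k
    rw [sum_congr rfl e, sum_sub_distrib, ← mul_sum, ← mul_sum, ih n hn ha, ih (n - 1) (by omega) ha,
      xx_sub h, f_succ, g_rec h (n - 1 + a - 1), show n - 1 + a - 1 + 1 = n + a - 1 by ring]
    push_cast
    rw [show n - a - (i + 1) = n - 1 - a - i by ring, g_rec h (n - 1 - a - i),
      show n - 1 - a - i + 1 = n - (a + i) by ring, show n - a - i = n - (a + i) by ring,
      show -((i : ℤ) + 1 + 1) * n = -(i + 1) * n - n by ring,
      show -((i : ℤ) + 1) * (n - 1) = -(i + 1) * n + (i + 1) by ring]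
    generalize br q (n - (a + i)) = B
    have := zpow_ne_zero n h0
    simp only [br, zpow_add₀ h0, zpow_sub₀ h0, zpow_neg, zpow_one]
    field_simp
    ring

end Pool.Agent.H27.GJ
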