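import Pool.Agent.H27.GJ

namespace Pool.Agent.H27.GJ
open Finset

variable {K : Type} [Field K] {q : K} {S : Subsemiring K}

theorem zp (h1 : q ∈ S) (h2 : q⁻¹ ∈ S) (z : ℤ) : q ^ z ∈ S := by
  obtain ⟨n, rfl | rfl⟩ := z.eq_nat_or_neg
  · simpa using pow_mem h1 n
  · simpa using pow_mem h2 n

theorem br_mem (h : Good q) (h1 : q ∈ S) (n : ℕ) : br q n ∈ S := by
  induction n with
  | zero => simp [br]
  | succ n ih =>
    rw [Nat.cast_succ, add_comm, br_add h, zpow_one, br, zpow_one, div_self h.one]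
    exact add_mem (one_mem _) (mul_mem h1 ih)

theorem f_mem (h : Good q) (h1 : q ∈ S) (n : ℕ) : f q n ∈ S :=
  prod_mem fun i _ => by exact_mod_cast br_mem h h1 (i + 1)

theorem b_mem (h : Good q) (h1 : q ∈ S) (u : ℕ) : ∀ v : ℕ, f q (u + v) * (g q u * g q v) ∈ S := by
  have g0 : g q (0 : ℕ) = 1 := by simp [g, f]
  induction u with
  | zero => intro v; rw [g0, zero_add, one_mul, fg h]; exact one_mem _
  | succ u ihu =>
    intro v
    induction v with
    | zero => rw [g0, add_zero, mul_one, fg h]; exact one_mem _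
    | succ v ihv =>
      have e := pascal h u v
      have a1 := ihu (v + 1)
      rw [show u + (v + 1) = u + 1 + v by ring] at a1
      rw [← add_assoc, f_succ]
      convert add_mem a1 (mul_mem (pow_mem h1 (u + 1)) ihv) using 1
      push_cast
      rw [← zpow_natCast]
      push_cast
      rw [show (u : ℤ) + 1 + v + 1 = u + v + 2 by ring]
      linear_combination f q (u + 1 + v) * e

def w (q : K) (p : ℕ) (j : ℤ) (k : ℕ) : K :=
  q ^ (j * k ^ 2) * (q ^ (-k : ℤ) * br q (2 * k)) * xx q k ^ p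

def I (q : K) (p a M : ℕ) (j : ℤ) (L : List ℕ) : K :=
  ∑ k ∈ Ico a M, w q p j k * (L.map fun y : ℕ => r q y k).prod

def A (q : K) (a : ℕ) : ℕ → List ℕ → K
  | x, [] => f q (x + a - 1)
  | x, y :: L => f q (x + y) * A q a y L

def T (q : K) (p a M : ℕ) (j : ℤ) (x : ℕ) (L : List ℕ) : K :=
  f q (x - a) * A q a x L * I q p a M j (x :: L)

variable {p a M : ℕ}

theorem I_zero (j : ℤ) {l : ℕ} (L : List ℕ) (hl : l < a ∨ l = 0) : I q p a M j (l :: L) = 0 := by
  refine sum_eq_zero fun k hk => ?_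
  have := (mem_Ico.mp hk).1
  rcases Nat.eq_zero_or_pos k with rfl | h0
  · rcases hl with hl | rfl
    · omega
    · simp [w, br]
  · rw [List.map_cons, List.prod_cons, r, g_neg (z := l - k) (by omega)]; simp

theorem w_succ (h : Good q) (j : ℤ) (k : ℕ) : w q p (j + 1) k = q ^ ((k : ℤ) ^ 2) * w q p j k := by
  rw [w, w, add_mul, zpow_add₀ h.1, one_mul]; ring

theorem bin (h : Good q) (h1 : q ∈ S) {x l a : ℕ} (ha : a ≤ l) (hl : l ≤ x) :
    ∃ c ∈ S, f q (x - a) * g q (x - l) = c * f q (l - a) := by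
  refine ⟨_, b_mem h h1 (x - l) (l - a), ?_⟩
  rw [show x - l + (l - a) = x - a by omega, Nat.cast_sub hl]
  linear_combination -f q (x - a) * g q (x - l) * fg h (l - a)

theorem binA (h : Good q) (h1 : q ∈ S) {y l : ℕ} (h0 : 0 < l) (hl : l ≤ y) (L : List ℕ) :
    ∃ c ∈ S, g q (y - l) * A q a y L = c * A q a l L := by
  rcases L with _ | ⟨z, L⟩
  · refine ⟨_, b_mem h h1 (y - l) (l + a - 1), ?_⟩
    rw [show y - l + (l + a - 1) = y + a - 1 by omega, Nat.cast_sub hl, A, A]
    linear_combination -f q (y + a - 1) * g q (y - l) * fg h (l + a - 1)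
  · refine ⟨_, b_mem h h1 (y - l) (l + z), ?_⟩
    rw [show y - l + (l + z) = y + z by omega, Nat.cast_sub hl, A, A]
    linear_combination -f q (y + z) * g q (y - l) * A q a z L * fg h (l + z)

theorem rec2 (h : Good q) (h1 : q ∈ S) (h2 : q⁻¹ ∈ S) {j : ℤ} {x y : ℕ} {L : List ℕ} (hM : x < M)
    (H : ∀ l, l ≤ x → T q p a M j l L ∈ S) : T q p a M (j + 1) x (y :: L) ∈ S := by
  have e : T q p a M (j + 1) x (y :: L) = ∑ l ∈ range M, q ^ ((l : ℤ) ^ 2)
      * (f q (x - a) * g q (x - l)) * (g q (y - l) * A q a y L) * I q p a M j (l :: L) := by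
    simp only [T, I, A, mul_sum, List.map_cons, List.prod_cons, w_succ h]
    rw [sum_comm]
    refine sum_congr rfl fun k _ => ?_
    calc _ = f q (x - a) * A q a y L * w q p j k * (L.map fun y : ℕ => r q y k).prod
          * (q ^ ((k : ℤ) ^ 2) * r q x k * r q y k * f q (x + y)) := by ring
      _ = _ := by
        rw [← two h x y k M hM, mul_sum]
        exact sum_congr rfl fun l _ => by ring
  rw [e]
  refine sum_mem fun l _ => ?_
  by_cases hl : l < a ∨ l = 0
  · rw [I_zero _ _ hl, mul_zero]; exact zero_mem _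
  rcases lt_or_ge x l with hx | hx
  · rw [g_neg (z := x - l) (by omega)]; simp
  rcases lt_or_ge y l with hy | hy
  · rw [g_neg (z := y - l) (by omega)]; simp
  obtain ⟨c, hc, e1⟩ := bin h h1 (by omega : a ≤ l) hx
  obtain ⟨d, hd, e2⟩ := binA (a := a) h h1 (by omega : 0 < l) hy L
  rw [e1, e2]
  convert mul_mem (mul_mem (mul_mem (zp h1 h2 ((l : ℤ) ^ 2)) hc) hd) (H l hx) using 1
  rw [T]; ring

theorem rec1 (h : Good q) (h1 : q ∈ S) (h2 : q⁻¹ ∈ S) (h3 : 1 - q ∈ S) {j : ℤ} {x : ℕ} (hM : x < M)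
    (H : ∀ l, l ≤ x → T q p a M j l [] ∈ S) : T q p a M (j + 1) x [] ∈ S := by
  have e : T q p a M (j + 1) x [] = ∑ l ∈ range M, q ^ ((l : ℤ) ^ 2) * (1 - q) ^ (x - l)
      * (f q (x - a) * g q (x - l)) * A q a x [] * I q p a M j [l] := by
    simp only [T, I, mul_sum, List.map_cons, List.prod_cons, w_succ h, List.map_nil, List.prod_nil]
    rw [sum_comm]
    refine sum_congr rfl fun k _ => ?_
    calc _ = f q (x - a) * A q a x [] * w q p j k * (q ^ ((k : ℤ) ^ 2) * r q x k) := by ring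
      _ = _ := by
        rw [← one h x k M hM, mul_sum]
        exact sum_congr rfl fun l _ => by ring
  rw [e]
  refine sum_mem fun l _ => ?_
  by_cases hl : l < a ∨ l = 0
  · rw [I_zero _ _ hl, mul_zero]; exact zero_mem _
  rcases lt_or_ge x l with hx | hx
  · rw [g_neg (z := x - l) (by omega)]; simp
  obtain ⟨c, hc, e1⟩ := bin h h1 (by omega : a ≤ l) hx
  obtain ⟨d, hd, e2⟩ := binA (a := a) h h1 (by omega : 0 < l) hx []
  have e3 := fg h (x - l)
  rw [Nat.cast_sub hx] at e3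
  rw [e1, show A q a x [] = f q (x - l) * (d * A q a l []) by
    linear_combination -A q a x [] * e3 + f q (x - l) * e2]
  convert mul_mem (mul_mem (mul_mem (mul_mem (mul_mem (zp h1 h2 ((l : ℤ) ^ 2)) hc) hd)
    (pow_mem h3 (x - l))) (f_mem h h1 (x - l))) (H l hx) using 1
  rw [T]; ring

theorem base (h : Good q) (h1 : q ∈ S) (h2 : q⁻¹ ∈ S) {x : ℕ} (hM : x < M) :
    T q p a M 0 x [] ∈ S := by
  by_cases hl : x < a ∨ x = 0
  · rw [T, I_zero _ _ hl, mul_zero]; exact zero_mem _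
  have key : ∀ p i : ℕ, f q (x - a) * f q (x + a - 1) * ∑ k ∈ Ico a M, q ^ (-k : ℤ) * br q (2 * k)
      * (∏ t ∈ range i, (xx q k - xx q (a + t))) * r q x k * xx q k ^ p ∈ S := by
    intro p
    induction p with
    | zero =>
      intro i
      simp only [pow_zero, mul_one]
      rw [newton h a M i x (by omega) (by omega)]
      rcases lt_or_ge (x - a) i with hi | hi
      · rw [g_neg (z := x - a - i) (by omega)]; simp
      have e := fg h (x + a - 1)
      have e2 := fg h i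
      have b := b_mem h h1 (x - a - i) i
      rw [show ((x + a - 1 : ℕ) : ℤ) = x + a - 1 by omega] at e
      rw [show ((x - a - i : ℕ) : ℤ) = x - a - i by omega, Nat.sub_add_cancel hi] at b
      convert mul_mem (mul_mem (mul_mem b (f_mem h h1 i)) (f_mem h h1 i)) (zp h1 h2 (-(i + 1) * x))
        using 1
      linear_combination f q (x - a) * f q i * q ^ (-((i : ℤ) + 1) * x) * g q (x - a - i) * (e - e2)
    | succ p ih =>
      intro i
      have hx : xx q (a + i) ∈ S :=
        mul_mem (zp h1 h2 _) (pow_mem (by exact_mod_cast br_mem h h1 (a + i)) 2)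
      convert add_mem (ih (i + 1)) (mul_mem hx (ih i)) using 1
      simp only [mul_sum, ← sum_add_distrib, prod_range_succ]
      exact sum_congr rfl fun k _ => by ring
  have e : I q p a M 0 [x] = ∑ k ∈ Ico a M, q ^ (-k : ℤ) * br q (2 * k)
      * (∏ t ∈ range 0, (xx q k - xx q (a + t))) * r q x k * xx q k ^ p :=
    sum_congr rfl fun k _ => by simp [w]; ring
  rw [T, e]
  exact key p 0

theorem br_inv (h : Good q) (z : ℤ) : br q⁻¹ z = q ^ (1 - z) * br q z := by
  have h0 := h.1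
  have h1 := h.one
  have h2 : q - 1 ≠ 0 := fun e => h1 (by linear_combination -e)
  have := zpow_ne_zero z h0
  simp only [br, zpow_sub₀ h0, inv_zpow, zpow_one]
  field_simp
  ring

theorem f_inv (h : Good q) (n : ℕ) : ∃ e : ℤ, 2 * e = n * (1 - n) ∧ f q⁻¹ n = q ^ e * f q n := by
  induction n with
  | zero => exact ⟨0, by simp, by simp [f]⟩
  | succ n ih =>
    obtain ⟨e, h1, h2⟩ := ih
    refine ⟨e + (1 - (n + 1)), by push_cast; linear_combination h1, ?_⟩
    rw [f_succ, f_succ, h2, br_inv h, zpow_add₀ h.1]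
    ring

theorem r_inv (h : Good q) (y k : ℕ) : r q⁻¹ y k = q ^ ((y : ℤ) ^ 2 - y) * q ^ ((k : ℤ) ^ 2) * r q y k := by
  rcases lt_or_ge y k with hk | hk
  · simp [r, g_neg (by omega : (y : ℤ) - k < 0)]
  obtain ⟨e1, a1, b1⟩ := f_inv h (y + k)
  obtain ⟨e2, a2, b2⟩ := f_inv h (y - k)
  rw [r, r, ← Nat.cast_add, ← Nat.cast_sub hk, g_nat, g_nat, g_nat, g_nat, b1, b2, ← zpow_add₀ h.1,
    show (y : ℤ) ^ 2 - y + k ^ 2 = -e1 + -e2 by
      rw [Nat.cast_sub hk] at a2; push_cast at a1; linarith, zpow_add₀ h.1]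
  simp only [zpow_neg, mul_inv]
  ring

theorem A_inv (h : Good q) (L : List ℕ) : ∀ x, ∃ e : ℤ, A q⁻¹ a x L = q ^ e * A q a x L := by
  induction L with
  | nil => intro x; obtain ⟨e, -, he⟩ := f_inv h (x + a - 1); exact ⟨e, he⟩
  | cons y L ih =>
    intro x
    obtain ⟨e, -, he⟩ := f_inv h (x + y)
    obtain ⟨e', he'⟩ := ih y
    exact ⟨e + e', by rw [A, A, he, he', zpow_add₀ h.1]; ring⟩

theorem R_inv (h : Good q) (L : List ℕ) : ∃ e : ℤ, ∀ k : ℕ, (L.map fun y : ℕ => r q⁻¹ y k).prod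
    = q ^ e * q ^ ((L.length : ℤ) * k ^ 2) * (L.map fun y : ℕ => r q y k).prod := by
  induction L with
  | nil => exact ⟨0, by simp⟩
  | cons y L ih =>
    obtain ⟨e, he⟩ := ih
    refine ⟨e + (y ^ 2 - y), fun k => ?_⟩
    rw [List.map_cons, List.prod_cons, he, r_inv h, List.length_cons, List.map_cons, List.prod_cons]
    push_cast
    rw [add_mul, one_mul, zpow_add₀ h.1, zpow_add₀ h.1]
    ring

theorem dual (h : Good q) (j : ℤ) (x : ℕ) (L : List ℕ) :
    ∃ e : ℤ, T q⁻¹ p a M j x L = q ^ e * T q p a M (L.length + 1 - j) x L := by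
  obtain ⟨e1, -, h1⟩ := f_inv h (x - a)
  obtain ⟨e2, h2⟩ := A_inv (a := a) h L x
  obtain ⟨e3, h3⟩ := R_inv h (x :: L)
  have h0 := h.1
  refine ⟨e1 + e2 + e3 + 1 + 2 * p, ?_⟩
  simp only [T, I, h1, h2, h3, mul_sum]
  refine sum_congr rfl fun k _ => ?_
  have hx : xx q⁻¹ k = q ^ 2 * xx q k := by
    have := zpow_ne_zero (k : ℤ) h0
    simp only [xx, br_inv h, zpow_sub₀ h0, inv_zpow, zpow_neg, zpow_one]
    field_simp
  have := zpow_ne_zero (k : ℤ) h0
  have := zpow_ne_zero (j * k ^ 2) h0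
  rw [w, w, hx, br_inv h, List.length_cons, sub_mul, two_mul (k : ℤ), mul_pow, ← pow_mul]
  generalize br q (k + k) = B
  push_cast
  simp only [zpow_add₀ h0, zpow_sub₀ h0, inv_zpow, zpow_neg, zpow_one, ← zpow_natCast q (2 * p)]
  push_cast
  field_simp

theorem flip (h : Good q) (h1 : q ∈ S) (h2 : q⁻¹ ∈ S) {j : ℤ} {x : ℕ} {L : List ℕ}
    (H : T q⁻¹ p a M (L.length + 1 - j) x L ∈ S) : T q p a M j x L ∈ S := by
  obtain ⟨e, he⟩ := dual (p := p) (a := a) (M := M) h.inv j x L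
  rw [inv_inv] at he
  rw [he]
  exact mul_mem (zp h2 (by rwa [inv_inv]) e) H

theorem pos (L : List ℕ) : ∀ (q : K), Good q → q ∈ S → q⁻¹ ∈ S → ∀ (j : ℤ) (x : ℕ), x < M → 0 ≤ j →
    j ≤ L.length + 1 → T q p a M j x L ∈ S := by
  induction L with
  | nil =>
    intro q h h1 h2 j x hx j0 j1
    rcases j0.eq_or_lt with rfl | j0
    · exact base h h1 h2 hx
    · obtain rfl : j = 1 := by simp at j1; omega
      exact flip h h1 h2 (by simpa using base h.inv h2 (by rwa [inv_inv]) hx)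
  | cons y L ih =>
    have k : ∀ (q : K), Good q → q ∈ S → q⁻¹ ∈ S → ∀ (j : ℤ) (x : ℕ), x < M → 0 < j →
        j ≤ L.length + 2 → T q p a M j x (y :: L) ∈ S := by
      intro q h h1 h2 j x hx j0 j1
      rw [← sub_add_cancel j 1]
      exact rec2 h h1 h2 hx fun l hl => ih q h h1 h2 _ l (by omega) (by omega) (by omega)
    intro q h h1 h2 j x hx j0 j1
    rcases j0.eq_or_lt with rfl | j0
    · exact flip h h1 h2 (k _ h.inv h2 (by rwa [inv_inv]) _ x hx (by omega) (by simp))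
    · exact k q h h1 h2 j x hx j0 (by simp at j1; omega)

theorem lau (h : Good q) (h1 : q ∈ S) (h2 : q⁻¹ ∈ S) (h3 : -1 ∈ S) (L : List ℕ) :
    ∀ (j : ℤ) (x : ℕ), x < M → T q p a M j x L ∈ S := by
  induction L with
  | nil =>
    have k : ∀ (q : K), Good q → q ∈ S → q⁻¹ ∈ S → ∀ (j : ℕ) (x : ℕ), x < M →
        T q p a M j x [] ∈ S := by
      intro q h h1 h2 j
      induction j with
      | zero => exact fun x hx => base h h1 h2 hx
      | succ j ih =>
        exact fun x hx => rec1 h h1 h2 (by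
          convert add_mem (one_mem S) (mul_mem h3 h1) using 1; ring) hx fun l hl => ih l (by omega)
    intro j x hx
    rcases le_or_gt 0 j with j0 | j0
    · obtain ⟨n, rfl⟩ := Int.eq_ofNat_of_zero_le j0
      exact k q h h1 h2 n x hx
    · obtain ⟨n, hn⟩ := Int.eq_ofNat_of_zero_le (by omega : 0 ≤ 1 - j)
      refine flip h h1 h2 ?_
      simpa [hn] using k _ h.inv h2 (by rwa [inv_inv]) n x hx
  | cons y L ih =>
    intro j x hx
    rw [← sub_add_cancel j 1]
    exact rec2 h h1 h2 hx fun l hl => ih _ l (by omega)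

end Pool.Agent.H27.GJ
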