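import Mathlib

set_option autoImplicit false

namespace Pool.Agent.H27.Gamma

open Pointwise

variable {n : ℕ}

/-- a lattice point viewed as a real point -/
def toR (m : Fin n → ℤ) : Fin n → ℝ := fun k => (m k : ℝ)

/-- the lattice polytope spanned by a finite set of lattice points -/
def poly (V : Finset (Fin n → ℤ)) : Set (Fin n → ℝ) := convexHull ℝ (toR '' (V : Set (Fin n → ℤ)))

/-- the lattice points of a set -/
def latt (S : Set (Fin n → ℝ)) : Set (Fin n → ℤ) := {m | toR m ∈ S}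

/-- integrally closed -/
def IntClosed (P : Set (Fin n → ℝ)) : Prop :=
  ∀ r : ℕ, 1 ≤ r → latt P + latt ((r : ℝ) • P) = latt (((r : ℝ) + 1) • P)

/-- `u` and `v` are adjacent vertices: distinct vertices whose segment is a face -/
def IsEdge (P : Set (Fin n → ℝ)) (u v : Fin n → ℝ) : Prop :=
  u ∈ P.extremePoints ℝ ∧ v ∈ P.extremePoints ℝ ∧ u ≠ v ∧ IsExposed ℝ P (segment ℝ u v)

/-- `L(P)`, the least lattice length of an edge -/
noncomputable def minLen (P : Set (Fin n → ℝ)) : ℕ :=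
  sInf {l | ∃ u v, IsEdge P u v ∧ l = (latt (segment ℝ u v)).ncard - 1}

/-- primitive lattice vector -/
def Primitive (w : Fin n → ℤ) : Prop := ∀ (k : ℕ) (w' : Fin n → ℤ), w = k • w' → k = 1

/-- primitive ray generators of the vertex cone `C(P,u)` -/
def rays (P : Set (Fin n → ℝ)) (u : Fin n → ℝ) : Set (Fin n → ℤ) :=
  {w | Primitive w ∧ ∃ v, IsEdge P u v ∧ ∃ t : ℝ, 0 < t ∧ toR w = t • (v - u)}

/-- `a` writes `x` as a nonnegative real combination of vectors of `W` -/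
def Rep (W : Set (Fin n → ℤ)) (a : (Fin n → ℤ) →₀ ℝ) (x : Fin n → ℤ) : Prop :=
  (↑a.support : Set (Fin n → ℤ)) ⊆ W ∧ (∀ w, 0 ≤ a w) ∧ toR x = a.sum (fun w c => c • toR w)

/-- lattice points of the cone generated by `W` -/
def coneLatt (W : Set (Fin n → ℤ)) : Set (Fin n → ℤ) := {x | ∃ a, Rep W a x}

/-- Hilbert basis: the irreducible elements of the semigroup of lattice points of the cone -/
def hilb (W : Set (Fin n → ℤ)) : Set (Fin n → ℤ) :=
  {b | b ∈ coneLatt W ∧ b ≠ 0 ∧ ∀ y ∈ coneLatt W, ∀ z ∈ coneLatt W, y + z = b → y = 0 ∨ z = 0}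

noncomputable def ht (W : Set (Fin n → ℤ)) (x : Fin n → ℤ) : ℝ :=
  sSup {t | ∃ a, Rep W a x ∧ t = a.sum (fun _ c => c)}

noncomputable def ord (W : Set (Fin n → ℤ)) (x : Fin n → ℤ) : ℕ :=
  sSup {k | ∃ l : Multiset (Fin n → ℤ), (∀ b ∈ l, b ∈ hilb W) ∧ l.sum = x ∧ l.card = k}

/-- `Γ_Q` for the cone with primitive ray generators `W` -/
noncomputable def gammaCone (W : Set (Fin n → ℤ)) : ℝ :=
  sSup {r | ∃ x, (∃ a, Rep W a x ∧ ∀ w, a w < 1) ∧ r = ht W x - (ord W x : ℝ)}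

/-- `Γ_P` -/
noncomputable def gammaP (P : Set (Fin n → ℝ)) : ℝ :=
  sSup {r | ∃ u ∈ P.extremePoints ℝ, r = gammaCone (rays P u)}

end Pool.Agent.H27.Gamma
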