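import Pool.Agent.H27.GammaDefs

set_option autoImplicit false

namespace Pool.Agent.H27.Gamma

open Pointwise Finset

def vx : Fin 8 → Fin 3 → ℤ := ![![0, 0, 0], ![0, 0, 1], ![1, 0, 0], ![1, 0, 1], ![0, 1, 0], ![0, 1, 1], ![1, 1, 4], ![1, 1, 5]]

def fa : Fin 8 → Fin 3 → ℤ := ![![1, 0, 0], ![0, 1, 0], ![-1, 0, 0], ![0, -1, 0], ![0, 0, 1], ![-4, -4, 1], ![4, 0, -1], ![0, 4, -1]]

def fc : Fin 8 → ℤ := ![0, 0, 1, 1, 0, 4, 1, 1]

def nb : Fin 8 → Fin 2 → Fin 3 → Fin 8 := ![![![1, 2, 4], ![1, 2, 4]], ![![0, 3, 7], ![0, 5, 7]], ![![0, 3, 4], ![3, 4, 6]], ![![1, 2, 7], ![1, 2, 7]], ![![0, 2, 5], ![2, 5, 6]], ![![1, 4, 7], ![1, 4, 7]], ![![2, 4, 7], ![2, 4, 7]], ![![1, 3, 6], ![1, 5, 6]]]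

def gg : Fin 8 → Fin 2 → Fin 3 → Fin 3 → ℤ := ![![![![0, 0, 1], ![1, 0, 0], ![0, 1, 0]], ![![0, 0, 1], ![1, 0, 0], ![0, 1, 0]]], ![![![0, 4, -1], ![1, -1, 0], ![0, 1, 0]], ![![4, 0, -1], ![-1, 1, 0], ![1, 0, 0]]], ![![![-1, -1, 0], ![0, 0, 1], ![0, 1, 0]], ![![-4, -4, 1], ![-1, 0, 0], ![1, 1, 0]]], ![![![-1, 0, 0], ![0, 4, -1], ![0, 1, 0]], ![![-1, 0, 0], ![0, 4, -1], ![0, 1, 0]]], ![![![-1, -1, 0], ![1, 0, 0], ![0, 0, 1]], ![![0, -1, 0], ![-4, -4, 1], ![1, 1, 0]]], ![![![0, -1, 0], ![4, 0, -1], ![1, 0, 0]], ![![0, -1, 0], ![4, 0, -1], ![1, 0, 0]]], ![![![0, -1, 0], ![-1, 0, 0], ![-4, -4, 1]], ![![0, -1, 0], ![-1, 0, 0], ![-4, -4, 1]]], ![![![-1, 0, 0], ![1, -1, 0], ![0, 4, -1]], ![![0, -1, 0], ![-1, 1, 0], ![4, 0, -1]]]]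

def dz (f d : Fin 3 → ℤ) : ℤ := f 0 * d 0 + f 1 * d 1 + f 2 * d 2

noncomputable def lin (f : Fin 3 → ℤ) : (Fin 3 → ℝ) →L[ℝ] ℝ :=
  (f 0 : ℝ) • ContinuousLinearMap.proj 0 + (f 1 : ℝ) • ContinuousLinearMap.proj 1 +
    (f 2 : ℝ) • ContinuousLinearMap.proj 2

lemma lin_toR (f d : Fin 3 → ℤ) : lin f (toR d) = (dz f d : ℝ) := by
  simp [lin, toR, dz]

lemma toR_inj : Function.Injective (toR : (Fin 3 → ℤ) → _) := by
  intro a b h
  funext k
  have := congrFun h k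
  simpa [toR] using this

lemma toR_sub (a b : Fin 3 → ℤ) : toR (a - b) = toR a - toR b := by
  funext k; simp [toR]

def V0 : Finset (Fin 3 → ℤ) := univ.image vx

abbrev P0 : Set (Fin 3 → ℝ) := poly V0

lemma range_eq : toR '' (V0 : Set (Fin 3 → ℤ)) = Set.range (fun i => toR (vx i)) := by
  ext x; simp [V0]

lemma vx_mem (i : Fin 8) : toR (vx i) ∈ P0 :=
  subset_convexHull _ _ (by rw [range_eq]; exact ⟨i, rfl⟩)

lemma lin_le (f : Fin 3 → ℤ) (c : ℤ) (h : ∀ i, dz f (vx i) ≤ c) : ∀ x ∈ P0, lin f x ≤ c := by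
  have : P0 ⊆ {x | lin f x ≤ c} := by
    apply convexHull_min
    · rw [range_eq]
      rintro _ ⟨i, rfl⟩
      show lin f (toR (vx i)) ≤ c
      rw [lin_toR]; exact_mod_cast h i
    · exact convex_halfSpace_le (lin f).toLinearMap.isLinear _
  exact fun x hx => this hx

lemma exposed (f : Fin 3 → ℤ) (i j : Fin 8) (h1 : ∀ l, dz f (vx l) ≤ dz f (vx i))
    (h2 : dz f (vx j) = dz f (vx i)) (h3 : ∀ l, dz f (vx l) = dz f (vx i) → l = i ∨ l = j) :
    IsExposed ℝ P0 (segment ℝ (toR (vx i)) (toR (vx j))) := by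
  intro _
  refine ⟨lin f, ?_⟩
  have hle := lin_le f _ h1
  ext x
  constructor
  · intro hx
    have hxP : x ∈ P0 := (convex_convexHull ℝ _).segment_subset (vx_mem i) (vx_mem j) hx
    refine ⟨hxP, fun y hy => (hle y hy).trans ?_⟩
    obtain ⟨a, b, ha, hb, hab, rfl⟩ := hx
    rw [map_add, map_smul, map_smul, lin_toR, lin_toR, h2, smul_eq_mul, smul_eq_mul, ← add_mul, hab,
      one_mul]
  · rintro ⟨hx, hm⟩
    have hx' := hx
    unfold P0 poly at hx'
    rw [range_eq, convexHull_range_eq_exists_affineCombination] at hx'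
    obtain ⟨s, w, hw0, hw1, rfl⟩ := hx'
    rw [Finset.affineCombination_eq_linear_combination _ _ _ hw1] at hm ⊢
    have hge := hm _ (vx_mem i)
    rw [map_sum, lin_toR] at hge
    simp only [map_smul, lin_toR, smul_eq_mul] at hge
    have hz : ∑ l ∈ s, w l * ((dz f (vx i) : ℝ) - dz f (vx l)) = 0 := by
      apply le_antisymm
      · simp only [mul_sub, sum_sub_distrib, ← sum_mul, hw1]; linarith
      · exact sum_nonneg fun l hl => mul_nonneg (hw0 l hl) (sub_nonneg.mpr (by exact_mod_cast h1 l))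
    rw [sum_eq_zero_iff_of_nonneg
      (fun l hl => mul_nonneg (hw0 l hl) (sub_nonneg.mpr (by exact_mod_cast h1 l)))] at hz
    rw [← sum_filter_of_ne (p := fun l => w l ≠ 0) (fun l _ h e => h (by rw [e, zero_smul]))]
    refine (convex_segment _ _).sum_mem (fun l hl => hw0 l (mem_filter.mp hl).1) ?_ ?_
    · rw [sum_filter_ne_zero, hw1]
    · intro l hl
      obtain ⟨hl1, hl2⟩ := mem_filter.mp hl
      have := (mul_eq_zero.mp (hz l hl1)).resolve_left hl2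
      have e : dz f (vx l) = dz f (vx i) := by exact_mod_cast (sub_eq_zero.mp this).symm
      rcases h3 l e with rfl | rfl
      · exact left_mem_segment _ _ _
      · exact right_mem_segment _ _ _

def tight (i k : Fin 8) : Prop := dz (fa k) (vx i) + fc k = 0

instance (i k : Fin 8) : Decidable (tight i k) := by unfold tight; infer_instance

def ψ (i j : Fin 8) : Fin 3 → ℤ := fun c => -∑ k, if tight i k ∧ tight j k then fa k c else 0

lemma ψ_ok : ∀ (i : Fin 8) (j : Fin 2) (r : Fin 3), nb i j r ≠ i ∧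
    (∀ l, dz (ψ i (nb i j r)) (vx l) ≤ dz (ψ i (nb i j r)) (vx i)) ∧
    dz (ψ i (nb i j r)) (vx (nb i j r)) = dz (ψ i (nb i j r)) (vx i) ∧
    ∀ l, dz (ψ i (nb i j r)) (vx l) = dz (ψ i (nb i j r)) (vx i) → l = i ∨ l = nb i j r := by
  decide +kernel

lemma ψ_ok' : ∀ (i : Fin 8), (∀ l, dz (ψ i i) (vx l) ≤ dz (ψ i i) (vx i)) ∧
    ∀ l, dz (ψ i i) (vx l) = dz (ψ i i) (vx i) → l = i ∨ l = i := by
  decide +kernel

lemma vx_inj : Function.Injective vx := by decide +kernel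

lemma vx_extreme (i : Fin 8) : toR (vx i) ∈ P0.extremePoints ℝ := by
  have := exposed (ψ i i) i i (ψ_ok' i).1 rfl (ψ_ok' i).2
  rw [segment_same] at this
  exact this.isExtreme.mem_extremePoints

lemma extreme_cases {u : Fin 3 → ℝ} (h : u ∈ P0.extremePoints ℝ) : ∃ i, u = toR (vx i) := by
  have := extremePoints_convexHull_subset h
  rw [range_eq] at this
  obtain ⟨i, rfl⟩ := this
  exact ⟨i, rfl⟩

lemma edge (i : Fin 8) (j : Fin 2) (r : Fin 3) : IsEdge P0 (toR (vx i)) (toR (vx (nb i j r))) := by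
  obtain ⟨h0, h1, h2, h3⟩ := ψ_ok i j r
  exact ⟨vx_extreme _, vx_extreme _, fun e => h0 (vx_inj (toR_inj e)).symm, exposed _ _ _ h1 h2 h3⟩

lemma bounded (u v : Fin 3 → ℝ) : (latt (segment ℝ u v)).Finite := by
  have hb : Bornology.IsBounded (segment ℝ u v) := by
    rw [← convexHull_pair, isBounded_convexHull]
    exact (Set.toFinite _).isBounded
  obtain ⟨C, hC⟩ := hb.exists_norm_le
  refine (Set.Finite.pi' (fun _ : Fin 3 => Set.finite_Icc (-⌈C⌉) ⌈C⌉)).subset ?_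
  intro m hm k
  have h1 := (norm_le_pi_norm (toR m) k).trans (hC _ hm)
  have h2 := Int.le_ceil C
  rw [Real.norm_eq_abs, abs_le] at h1
  simp only [toR] at h1
  constructor
  · have : ((-⌈C⌉ : ℤ) : ℝ) ≤ m k := by push_cast; linarith [h1.1]
    exact_mod_cast this
  · have : (m k : ℝ) ≤ (⌈C⌉ : ℤ) := by linarith [h1.2]
    exact_mod_cast this

lemma minLen_ge : 1 ≤ minLen P0 := by
  unfold minLen
  refine le_csInf ⟨_, _, _, edge 0 0 0, rfl⟩ ?_
  rintro l ⟨u, v, ⟨hu, hv, huv, -⟩, rfl⟩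
  obtain ⟨i, rfl⟩ := extreme_cases hu
  obtain ⟨j, rfl⟩ := extreme_cases hv
  have : 1 < (latt (segment ℝ (toR (vx i)) (toR (vx j)))).ncard :=
    (Set.one_lt_ncard (bounded _ _)).mpr ⟨vx i, left_mem_segment ℝ _ _, vx j,
      right_mem_segment ℝ _ _, fun e => huv (by rw [e])⟩
  omega

lemma facet (k : Fin 8) : ∀ x ∈ P0, lin (-fa k) x ≤ fc k :=
  lin_le _ _ (by revert k; decide +kernel)

lemma not_closed : ¬ IntClosed P0 := by
  intro h
  have h1 := h 1 le_rfl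
  have h2 : (![1, 1, 3] : Fin 3 → ℤ) ∈ latt ((((1 : ℕ) : ℝ) + 1) • P0) := by
    refine ⟨(1 / 2 : ℝ) • ((1 / 2 : ℝ) • toR (vx 0) + (1 / 2 : ℝ) • toR (vx 6)) +
      (1 / 2 : ℝ) • ((1 / 2 : ℝ) • toR (vx 3) + (1 / 2 : ℝ) • toR (vx 5)), ?_, ?_⟩
    · have c := convex_convexHull ℝ (toR '' (V0 : Set (Fin 3 → ℤ)))
      exact c (c (vx_mem 0) (vx_mem 6) (by norm_num) (by norm_num) (by norm_num))
        (c (vx_mem 3) (vx_mem 5) (by norm_num) (by norm_num) (by norm_num))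
        (by norm_num) (by norm_num) (by norm_num)
    · funext k
      fin_cases k <;> simp [toR, vx] <;> norm_num
  rw [← h1, Nat.cast_one, one_smul] at h2
  obtain ⟨a, ha, b, hb, hab⟩ := h2
  have fa' : ∀ k, dz (-fa k) a ≤ fc k := fun k => by
    have := facet k _ ha; rw [lin_toR] at this; exact_mod_cast this
  have fb' : ∀ k, dz (-fa k) b ≤ fc k := fun k => by
    have := facet k _ hb; rw [lin_toR] at this; exact_mod_cast this
  have e0 := congrFun hab 0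
  have e1 := congrFun hab 1
  have e2 := congrFun hab 2
  simp [Fin.forall_fin_succ, dz, fa, fc] at fa' fb' e0 e1 e2
  omega

lemma full : affineSpan ℝ P0 = ⊤ := by
  rw [AffineSubspace.affineSpan_eq_top_iff_vectorSpan_eq_top_of_nonempty ℝ _ _ ⟨_, vx_mem 0⟩,
    Submodule.eq_top_iff']
  intro x
  have h : x = x 0 • (toR (vx 2) -ᵥ toR (vx 0)) + x 1 • (toR (vx 4) -ᵥ toR (vx 0)) +
      x 2 • (toR (vx 1) -ᵥ toR (vx 0)) := by
    funext k
    fin_cases k <;> simp [toR, vx]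
  rw [h]
  refine Submodule.add_mem _ (Submodule.add_mem _ ?_ ?_) ?_ <;>
    exact Submodule.smul_mem _ _ (vsub_mem_vectorSpan ℝ (vx_mem _) (vx_mem _))

def InC (i : Fin 8) (d : Fin 3 → ℤ) : Prop := ∀ k, tight i k → 0 ≤ dz (fa k) d

def e (i : Fin 8) (j : Fin 2) (r : Fin 3) : Fin 3 → ℤ := vx (nb i j r) - vx i

def φ (i : Fin 8) (j : Fin 2) : Fin 3 → ℤ := gg i j 0 + gg i j 1 + gg i j 2

lemma chart (i : Fin 8) (d : Fin 3 → ℤ) (h : InC i d) : ∃ j, ∀ r, 0 ≤ dz (gg i j r) d := by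
  fin_cases i <;>
    simp [InC, tight, Fin.forall_fin_succ, Fin.exists_fin_succ, dz, fa, fc, vx, gg] at h ⊢ <;> omega

lemma φ_pos (i : Fin 8) (j : Fin 2) (d : Fin 3 → ℤ) (h : InC i d) (hd : d ≠ 0) :
    1 ≤ dz (φ i j) d := by
  have hd' : ¬ (d 0 = 0 ∧ d 1 = 0 ∧ d 2 = 0) := by
    rintro ⟨h0, h1, h2⟩
    apply hd
    funext k
    fin_cases k <;> assumption
  fin_cases i <;> fin_cases j <;>
    simp [InC, tight, Fin.forall_fin_succ, dz, fa, fc, vx, gg, φ] at h ⊢ <;> omega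

lemma expand (i : Fin 8) (j : Fin 2) (d : Fin 3 → ℤ) :
    dz (gg i j 0) d • e i j 0 + dz (gg i j 1) d • e i j 1 + dz (gg i j 2) d • e i j 2 = d := by
  funext k
  fin_cases i <;> fin_cases j <;> fin_cases k <;> simp [dz, vx, gg, e, nb] <;> ring

lemma φ_e : ∀ i j r, dz (φ i j) (e i j r) = 1 := by decide +kernel

lemma dz_add (f a b : Fin 3 → ℤ) : dz f (a + b) = dz f a + dz f b := by simp [dz]; ring

lemma e_ray (i : Fin 8) (j : Fin 2) (r : Fin 3) : e i j r ∈ rays P0 (toR (vx i)) := by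
  refine ⟨fun k w h => ?_, _, edge i j r, 1, one_pos, by rw [e, toR_sub, one_smul]⟩
  have h1 := φ_e i j r
  rw [h] at h1
  have : (k : ℤ) * dz (φ i j) w = 1 := by rw [← h1]; simp [dz]; ring
  exact_mod_cast Int.eq_one_of_mul_eq_one_right (Int.natCast_nonneg k) this

lemma ray_in (i : Fin 8) {w : Fin 3 → ℤ} (h : w ∈ rays P0 (toR (vx i))) : InC i w ∧ w ≠ 0 := by
  obtain ⟨hp, v, hv, t, ht, hw⟩ := h
  constructor
  · intro k hk
    have h1 := facet k v hv.2.1.1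
    have h2 : lin (-fa k) (toR w) ≤ 0 := by
      rw [hw, map_smul, map_sub, lin_toR, smul_eq_mul]
      apply mul_nonpos_of_nonneg_of_nonpos ht.le
      have : dz (-fa k) (vx i) = fc k := by unfold tight at hk; simp only [dz, Pi.neg_apply] at *; linarith
      rw [this]; linarith
    rw [lin_toR] at h2
    have h3 : dz (-fa k) w ≤ 0 := by exact_mod_cast h2
    simp only [dz, Pi.neg_apply] at *; linarith
  · rintro rfl
    have := hp 2 0 (by simp)
    omega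

lemma rep_lin {W : Set (Fin 3 → ℤ)} {a : (Fin 3 → ℤ) →₀ ℝ} {x : Fin 3 → ℤ} (h : Rep W a x)
    (f : Fin 3 → ℤ) : (dz f x : ℝ) = ∑ w ∈ a.support, a w * dz f w := by
  rw [← lin_toR, h.2.2, Finsupp.sum, map_sum]
  simp only [map_smul, lin_toR, smul_eq_mul]

lemma cone_in (i : Fin 8) {x : Fin 3 → ℤ} (h : x ∈ coneLatt (rays P0 (toR (vx i)))) : InC i x := by
  obtain ⟨a, ha⟩ := h
  intro k hk
  have : (0 : ℝ) ≤ dz (fa k) x := by
    rw [rep_lin ha]
    exact sum_nonneg fun w hw => mul_nonneg (ha.2.1 w)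
      (by exact_mod_cast (ray_in i (ha.1 hw)).1 k hk)
  exact_mod_cast this

lemma e_hilb (i : Fin 8) (j : Fin 2) (r : Fin 3) : e i j r ∈ hilb (rays P0 (toR (vx i))) := by
  refine ⟨⟨Finsupp.single (e i j r) 1, ?_, ?_, ?_⟩, (ray_in i (e_ray i j r)).2, ?_⟩
  · intro w hw
    have := Finsupp.support_single_subset hw
    rw [mem_singleton] at this
    rw [this]; exact e_ray i j r
  · intro w
    rw [Finsupp.single_apply]; split_ifs <;> norm_num
  · rw [Finsupp.sum_single_index] <;> simp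
  · intro y hy z hz h
    by_contra hc
    push Not at hc
    have h1 := φ_pos i j y (cone_in i hy) hc.1
    have h2 := φ_pos i j z (cone_in i hz) hc.2
    have h3 := φ_e i j r
    rw [← h, dz_add] at h3
    omega

lemma card_le (i : Fin 8) (j : Fin 2) (l : Multiset (Fin 3 → ℤ))
    (h : ∀ b ∈ l, b ∈ hilb (rays P0 (toR (vx i)))) : (l.card : ℤ) ≤ dz (φ i j) l.sum := by
  induction l using Multiset.induction_on with
  | empty => simp [dz]
  | cons b l ih =>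
    have h1 := ih fun c hc => h c (Multiset.mem_cons_of_mem hc)
    have hb := h b (Multiset.mem_cons_self _ _)
    have h2 := φ_pos i j b (cone_in i hb.1) hb.2.1
    rw [Multiset.sum_cons, dz_add, Multiset.card_cons]
    push_cast
    omega

lemma ht_le_ord (i : Fin 8) {x : Fin 3 → ℤ} (h : x ∈ coneLatt (rays P0 (toR (vx i)))) :
    ht (rays P0 (toR (vx i))) x ≤ ord (rays P0 (toR (vx i))) x := by
  obtain ⟨j, hj⟩ := chart i x (cone_in i h)
  have h1 : ht (rays P0 (toR (vx i))) x ≤ dz (φ i j) x := by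
    obtain ⟨a0, ha0⟩ := h
    unfold ht
    refine csSup_le ⟨_, a0, ha0, rfl⟩ ?_
    rintro t ⟨a, ha, rfl⟩
    rw [rep_lin ha, Finsupp.sum]
    refine sum_le_sum fun w hw => le_mul_of_one_le_right (ha.2.1 w) ?_
    exact_mod_cast φ_pos i j w (ray_in i (ha.1 hw)).1 (ray_in i (ha.1 hw)).2
  refine h1.trans ?_
  obtain ⟨n0, e0⟩ := Int.eq_ofNat_of_zero_le (hj 0)
  obtain ⟨n1, e1⟩ := Int.eq_ofNat_of_zero_le (hj 1)
  obtain ⟨n2, e2⟩ := Int.eq_ofNat_of_zero_le (hj 2)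
  have h2 : n0 + n1 + n2 ≤ ord (rays P0 (toR (vx i))) x := by
    apply le_csSup
    · refine ⟨(dz (φ i j) x).toNat, ?_⟩
      rintro k ⟨l, hl, rfl, rfl⟩
      have := card_le i j l hl
      omega
    · refine ⟨Multiset.replicate n0 (e i j 0) + Multiset.replicate n1 (e i j 1) +
        Multiset.replicate n2 (e i j 2), ?_, ?_, by simp⟩
      · intro b hb
        simp only [Multiset.mem_add, Multiset.mem_replicate] at hb
        rcases hb with (⟨-, rfl⟩ | ⟨-, rfl⟩) | ⟨-, rfl⟩ <;> exact e_hilb _ _ _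
      · have := expand i j x
        rw [e0, e1, e2] at this
        simpa using this
  have h3 : dz (φ i j) x = (n0 + n1 + n2 : ℕ) := by
    push_cast
    rw [← e0, ← e1, ← e2]
    simp [dz, φ]; ring
  rw [h3]
  exact_mod_cast h2

lemma gamma_le : gammaP P0 ≤ 0 := by
  apply Real.sSup_nonpos
  rintro r ⟨u, hu, rfl⟩
  obtain ⟨i, rfl⟩ := extreme_cases hu
  apply Real.sSup_nonpos
  rintro r ⟨x, ⟨a, ha, -⟩, rfl⟩
  exact sub_nonpos.mpr (ht_le_ord i ⟨a, ha⟩)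

end Pool.Agent.H27.Gamma
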