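import Mathlib

namespace Pool.Agent.H27.GmpA
open Finset Nat

/-- `S_n`, the sum over `0 ≤ k ≤ n - 3` (empty for `n < 3`) -/
def S (n : ℕ) : ℤ := ∑ k ∈ range (n - 2),
  (-1) ^ k * ((2 * k).choose k : ℤ) * ((n - 3).choose k : ℤ) * (k.choose (n - 3 - k) : ℤ)

/-- `T_m` -/
def T (m : ℕ) : ℤ := S (m + 2) + 12 * S (m + 1) + 16 * S m

/-- `A(N)` -/
def A (N : ℕ) : ℚ := ∑ k ∈ Icc 1 N, (-1) ^ k * (T k : ℚ) / k

def X (m : ℕ) : ℤ :=
  ∑ j ∈ range (m + 1), (-1) ^ j * (m.choose (2 * j) : ℤ) * catalan j * catalan (m - j)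

theorem S_eq (m : ℕ) : (S (m + 3) : ℚ) = (-1) ^ m * ∑ j ∈ range (m + 1),
    (-1) ^ j * (m.choose (2 * j) : ℚ) * centralBinom j * centralBinom (m - j) := by
  rw [S, show m + 3 - 2 = m + 1 by omega, show m + 3 - 3 = m by omega, ← sum_range_reflect, mul_sum]
  push_cast
  refine sum_congr rfl fun j hj => ?_
  obtain ⟨i, rfl⟩ : ∃ i, m = j + i := ⟨m - j, by have := mem_range.mp hj; omega⟩
  have h : (j + i).choose i * i.choose j = (j + i).choose (2 * j) * centralBinom j := by
    rw [centralBinom_eq_two_mul_choose, choose_symm_of_eq_add (a := i) (b := j) (add_comm _ _)]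
    rcases le_or_gt j i with h | h
    · rw [choose_mul (by omega : j ≤ 2 * j), show j + i - j = i by omega,
        show 2 * j - j = j by omega]
    · rw [choose_eq_zero_of_lt h, choose_eq_zero_of_lt (by omega : j + i < 2 * j)]; simp
  have h' : ((j + i).choose i : ℚ) * i.choose j = (j + i).choose (2 * j) * centralBinom j := by
    exact_mod_cast h
  have h2 : (-1 : ℚ) ^ j * (-1) ^ j = 1 := by rw [← pow_add, (Even.add_self j).neg_one_pow]
  rw [show j + i - j = i by omega, show j + i - i = j by omega, ← centralBinom_eq_two_mul_choose, pow_add]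
  linear_combination ((-1) ^ i * centralBinom i : ℚ) * h'
    - ((-1) ^ i * (j + i).choose (2 * j) * centralBinom j * centralBinom i : ℚ) * h2

theorem ch1 (n k : ℕ) : (n.choose k : ℚ) = (n + 1).choose k * (n + 1 - k) / (n + 1) := by
  rw [eq_div_iff (by positivity)]
  rcases le_or_gt k (n + 1) with h | h
  · exact_mod_cast choose_mul_succ_eq n k
  · simp [choose_eq_zero_of_lt h, choose_eq_zero_of_lt (by omega : n < k)]

theorem ch2 (n k : ℕ) : (n.choose (k + 1) : ℚ) = n.choose k * (n - k) / (k + 1) := by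
  rw [eq_div_iff (by positivity)]
  rcases le_or_gt k n with h | h
  · exact_mod_cast choose_succ_right_eq n k
  · simp [choose_eq_zero_of_lt h, choose_eq_zero_of_lt (by omega : n < k + 1)]

theorem cb (j : ℕ) : (centralBinom (j + 1) : ℚ) = 2 * (2 * j + 1) * centralBinom j / (j + 1) := by
  rw [eq_div_iff (by positivity), mul_comm]
  exact_mod_cast succ_mul_centralBinom_succ j

theorem cat (j : ℕ) : (catalan j : ℚ) = centralBinom j / (j + 1) := by
  rw [eq_div_iff (by positivity), mul_comm]
  exact_mod_cast succ_mul_catalan_eq_centralBinom j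

theorem step (m : ℕ) (hm : 0 < m) : ((m : ℚ) + 3) ^ 2 * (2 * X (m + 1))
    - (m + 3) * (m + 2) * (2 * X m) = (-1) ^ (m + 3) * T (m + 3) := by
  let g : ℕ → ℚ := fun j => (-1) ^ j * ((m + 2).choose (2 * j) : ℚ) * centralBinom j
    * centralBinom (m + 2 - j) * (j * (4 * j ^ 2 - 6 * j - 5 * m - 3 * m ^ 2)
      / ((2 * (m + 2 - j) - 1) * (m + 1) * (m + 2)))
  have h : ∑ j ∈ range (m + 1), (g (j + 1) - g j) = 0 := by
    rw [sum_range_sub]; simp [g, choose_eq_zero_of_lt (by omega : m + 2 < 2 * (m + 1))]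
  have h2 : (-1 : ℚ) ^ m * (-1) ^ m = 1 := by rw [← pow_add, (Even.add_self m).neg_one_pow]
  have e1 := S_eq (m + 2)
  have e2 := S_eq (m + 1)
  have e3 := S_eq m
  rw [sum_range_succ, sum_range_succ, choose_eq_zero_of_lt (by omega : m + 2 < 2 * (m + 1)),
    choose_eq_zero_of_lt (by omega : m + 2 < 2 * (m + 2))] at e1
  rw [sum_range_succ, choose_eq_zero_of_lt (by omega : m + 1 < 2 * (m + 1))] at e2
  have key : ((m : ℚ) + 3) ^ 2 * (2 * ∑ j ∈ range (m + 1), (-1) ^ j * ((m + 1).choose (2 * j) : ℚ)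
      * catalan j * catalan (m + 1 - j)) - (m + 3) * (m + 2) * (2 * ∑ j ∈ range (m + 1),
        (-1) ^ j * (m.choose (2 * j) : ℚ) * catalan j * catalan (m - j))
      + ∑ j ∈ range (m + 1), (-1) ^ j * ((m + 2).choose (2 * j) : ℚ) * centralBinom j
        * centralBinom (m + 2 - j) - 12 * ∑ j ∈ range (m + 1), (-1) ^ j
          * ((m + 1).choose (2 * j) : ℚ) * centralBinom j * centralBinom (m + 1 - j)
      + 16 * ∑ j ∈ range (m + 1), (-1) ^ j * (m.choose (2 * j) : ℚ) * centralBinom j
        * centralBinom (m - j) = 0 := by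
    rw [← h]
    simp only [mul_sum, ← sum_add_distrib, ← sum_sub_distrib]
    refine sum_congr rfl fun j hj => ?_
    obtain ⟨i, rfl⟩ : ∃ i, m = j + i := ⟨m - j, by have := mem_range.mp hj; omega⟩
    simp only [g]
    rw [show j + i + 2 - (j + 1) = i + 1 by omega, show j + i + 2 - j = i + 1 + 1 by omega,
      show j + i + 1 - j = i + 1 by omega, show j + i - j = i by omega, cat, cat, cat,
      show 2 * (j + 1) = 2 * j + 1 + 1 by ring, ch2, ch2, ch1 (j + i), ch1 (j + i + 1),
      pow_succ (-1 : ℚ)]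
    simp only [cb]
    push_cast
    rw [show 2 * ((j : ℚ) + i + 2 - (j + 1)) - 1 = 2 * i + 1 by ring,
      show 2 * ((j : ℚ) + i + 2 - j) - 1 = 2 * i + 3 by ring]
    field_simp
    ring
  rw [T, X, X, sum_range_succ, choose_eq_zero_of_lt (by omega : m + 1 < 2 * (m + 1))]
  push_cast
  rw [e1, e2, e3]
  simp only [pow_succ]
  push_cast
  linear_combination key + (∑ j ∈ range (m + 1), (-1) ^ j * ((m + 2).choose (2 * j) : ℚ)
    * centralBinom j * centralBinom (m + 2 - j) - 12 * ∑ j ∈ range (m + 1), (-1) ^ j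
      * ((m + 1).choose (2 * j) : ℚ) * centralBinom j * centralBinom (m + 1 - j)
      + 16 * ∑ j ∈ range (m + 1), (-1) ^ j * (m.choose (2 * j) : ℚ) * centralBinom j
        * centralBinom (m - j)) * h2

theorem A_eq (m : ℕ) : A (m + 3) = (m + 3) * (2 * X (m + 1)) := by
  induction m with
  | zero =>
    simp [A, T, S, X, sum_range_succ, sum_Icc_succ_top, catalan_one, Nat.choose]
    norm_num
  | succ m ih =>
    have := step (m + 1) (by omega)
    rw [A, sum_Icc_succ_top (by omega), ← A, ih, ← this]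
    push_cast
    field_simp
    ring

theorem both : (∀ n : ℕ, 0 < n → ∃ z : ℤ, A n = n * z) ∧
    ∀ p : ℕ, p.Prime → Odd p → ∃ z : ℤ, A p - 2 * p * (-1) ^ ((p + 1) / 2) = p ^ 2 * z := by
  constructor
  · intro n hn
    rcases n with _ | _ | _ | n
    · omega
    · exact ⟨-1, by simp [A, T, S]⟩
    · exact ⟨2, by simp [A, T, S, sum_range_succ, sum_Icc_succ_top]; norm_num⟩
    · exact ⟨2 * X (n + 1), by rw [A_eq]; push_cast; ring⟩
  · rintro p hp ⟨h, rfl⟩
    obtain ⟨h, rfl⟩ : ∃ k, h = k + 1 := ⟨h - 1, by have := hp.two_le; omega⟩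
    haveI := Fact.mk hp
    have key : ((2 * (h + 1) + 1 : ℕ) : ℤ) ∣ X (2 * h + 1) - (-1) ^ h := by
      rw [← ZMod.intCast_zmod_eq_zero_iff_dvd, X]
      push_cast
      have ne : ∀ k : ℕ, 0 < k → k < 2 * (h + 1) + 1 → (k : ZMod (2 * (h + 1) + 1)) ≠ 0 :=
        fun k h0 h1 h2 => absurd (le_of_dvd h0 ((ZMod.natCast_eq_zero_iff _ _).mp h2)) (by omega)
      have p0 : (2 * (h + 1) + 1 : ZMod (2 * (h + 1) + 1)) = 0 := by
        exact_mod_cast ZMod.natCast_self (2 * (h + 1) + 1)
      rw [sum_eq_single h]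
      · have c1 : ((h + 1 + 1 : ℕ) : ZMod (2 * (h + 1) + 1)) * catalan (h + 1)
            = centralBinom (h + 1) := by exact_mod_cast congrArg _ (succ_mul_catalan_eq_centralBinom _)
        have c2 : ((h + 1 : ℕ) : ZMod (2 * (h + 1) + 1)) * catalan h = centralBinom h := by
          exact_mod_cast congrArg _ (succ_mul_catalan_eq_centralBinom _)
        have c3 : ((h + 1 : ℕ) : ZMod (2 * (h + 1) + 1)) * centralBinom (h + 1)
            = 2 * (2 * h + 1) * centralBinom h := by
          exact_mod_cast congrArg _ (succ_mul_centralBinom_succ h)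
        have c4 : ∀ k, k ≤ 2 * (h + 1) →
            ((2 * (h + 1)).choose k : ZMod (2 * (h + 1) + 1)) = (-1) ^ k := by
          intro k hk
          induction k with
          | zero => simp
          | succ k ih =>
            have := (ZMod.natCast_eq_zero_iff _ _).mpr
              (hp.dvd_choose_self (k := k + 1) (by omega) (by omega))
            rw [Nat.choose_succ_succ', cast_add, ih (by omega)] at this
            linear_combination this
        have c5 := c4 (h + 1) (by omega)
        rw [← centralBinom_eq_two_mul_choose] at c5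
        have h2 : (-1 : ZMod (2 * (h + 1) + 1)) ^ h * (-1) ^ h = 1 := by
          rw [← pow_add, (Even.add_self h).neg_one_pow]
        have n1 := ne (h + 1) (by omega) (by omega)
        have n2 := ne 2 (by omega) (by omega)
        rw [show 2 * h + 1 - h = h + 1 by omega, choose_succ_self_right]
        push_cast at *
        have d1 : (catalan (h + 1) : ZMod (2 * (h + 1) + 1)) = -2 * (-1) ^ h := by
          linear_combination 2 * c1 + 2 * c5 - (catalan (h + 1) : ZMod (2 * (h + 1) + 1)) * p0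
        have d2 : (2 * (2 * h + 1) * catalan h : ZMod (2 * (h + 1) + 1)) = -(-1) ^ h := by
          apply mul_left_cancel₀ n1
          linear_combination 2 * (2 * h + 1) * c2 - c3 + (h + 1) * c5
        rw [d1]
        linear_combination (-(-1) ^ h * (-1) ^ h) * d2 + (-1) ^ h * h2
      · intro j hj hne
        rcases lt_or_gt_of_ne hne with hl | hl
        · obtain ⟨i, hi⟩ : ∃ i, 2 * h + 1 - j = i := ⟨_, rfl⟩
          have c1 : ((i + 1 : ℕ) : ZMod (2 * (h + 1) + 1)) * catalan i = centralBinom i := by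
            exact_mod_cast congrArg _ (succ_mul_catalan_eq_centralBinom _)
          rw [centralBinom_eq_two_mul_choose, (ZMod.natCast_eq_zero_iff _ _).mpr
            (hp.dvd_choose (by omega) (by omega) (by omega))] at c1
          rw [hi, (mul_eq_zero.mp c1).resolve_left (ne _ (by omega) (by omega)), mul_zero]
        · simp [choose_eq_zero_of_lt (by omega : 2 * h + 1 < 2 * j)]
      · intro hh
        exact absurd (mem_range.mpr (by omega)) hh
    obtain ⟨z, hz⟩ := key
    have hz' : (X (2 * h + 1) : ℚ) - (-1) ^ h = (2 * (h + 1) + 1) * z := by exact_mod_cast hz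
    refine ⟨2 * z, ?_⟩
    rw [show 2 * (h + 1) + 1 = 2 * h + 3 by ring, A_eq, show (2 * h + 3 + 1) / 2 = h + 2 by omega,
      pow_add]
    push_cast
    linear_combination (2 * (2 * h + 3)) * hz'

end Pool.Agent.H27.GmpA
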