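import Mathlib

namespace Pool.Agent.H27.Haar

open Polynomial

/-- Nonnegative linearization of products: `P m * P n` is a nonnegative combination of the `P k`
with `|m - n| ≤ k ≤ m + n`. -/
def NonnegLin (P : ℕ → ℝ[X]) : Prop :=
  ∀ m n, ∃ g : ℕ → ℝ, (∀ k, 0 ≤ g k) ∧
    P m * P n = ∑ k ∈ Finset.Icc (Nat.dist m n) (m + n), C (g k) * P k

noncomputable def cc (n : ℕ) : ℝ :=
  if n = 0 then 0 else if n = 1 then 9 / 20 else if n = 2 then 4 / 5 else
    if n % 2 = 1 then 1 / 20 else 19 / 20

noncomputable def aa (n : ℕ) : ℝ := 1 - cc n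

lemma cc_bd (n : ℕ) : 0 ≤ cc n ∧ cc n < 1 ∧ (1 ≤ n → 0 < cc n) := by
  unfold cc; split_ifs <;> refine ⟨by norm_num, by norm_num, fun h => ?_⟩ <;>
    first | omega | norm_num

lemma aa_pos (n : ℕ) : 0 < aa n := by have := (cc_bd n).2.1; unfold aa; linarith

noncomputable def PP : ℕ → ℝ[X]
  | 0 => 1
  | 1 => X
  | n + 2 => C (aa (n + 1))⁻¹ * (X * PP (n + 1) - C (cc (n + 1)) * PP n)

lemma PP_rec (n : ℕ) :
    X * PP (n + 1) = C (aa (n + 1)) * PP (n + 2) + C (cc (n + 1)) * PP n := by
  rw [PP, ← mul_assoc, ← C_mul, mul_inv_cancel₀ (aa_pos _).ne']; simp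

lemma cc_odd {n : ℕ} (h : n % 2 = 1) (h3 : 3 ≤ n) : cc n = 1 / 20 := by
  unfold cc; rw [if_neg (by omega), if_neg (by omega), if_neg (by omega), if_pos h]

lemma cc_even {n : ℕ} (h : n % 2 = 0) (h3 : 3 ≤ n) : cc n = 19 / 20 := by
  unfold cc; rw [if_neg (by omega), if_neg (by omega), if_neg (by omega), if_neg (by omega)]

section
variable (x : ℝ)

noncomputable def p (n : ℕ) : ℝ := (PP n).eval x

lemma prec (n : ℕ) : x * p x (n + 1) = (1 - cc (n + 1)) * p x (n + 2) + cc (n + 1) * p x n := by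
  have := congrArg (eval x) (PP_rec n)
  simpa [p, aa] using this

lemma p0 : p x 0 = 1 := by simp [p, PP]
lemma p1 : p x 1 = x := by simp [p, PP]

lemma comm (m k : ℕ) : (1 - cc (m + 1)) * (p x (m + 2) * p x (k + 1)) +
    cc (m + 1) * (p x m * p x (k + 1)) =
    (1 - cc (k + 1)) * (p x (m + 1) * p x (k + 2)) + cc (k + 1) * (p x (m + 1) * p x k) := by
  linear_combination p x (m + 1) * prec x k - p x (k + 1) * prec x m

noncomputable def upc (μ e : ℕ) : ℝ × ℝ × ℝ :=
  if μ % 2 = 1 ∧ e % 2 = 0 then (15, 380, 1805) else (285, 1820, 95)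

noncomputable def loc (μ e : ℕ) : ℝ × ℝ × ℝ :=
  if e = 0 then (720, 910, 570) else
  if e = 1 then (if μ % 2 = 1 then (1520, 665, 15) else (80, 1835, 285)) else
  if μ % 2 = 1 ∧ e % 2 = 1 then (1805, 380, 15) else (95, 1820, 285)

noncomputable def tri (v : ℝ × ℝ × ℝ) (i : ℕ) : ℝ :=
  v.1 * p x i + v.2.1 * p x (i + 2) + v.2.2 * p x (i + 4)

def St (μ e : ℕ) : Prop :=
  4400 * (p x (μ + 2) * p x (μ + 2 + e)) = tri x (upc μ e) (2 * μ + e) + tri x (loc μ e) e

lemma c1 : cc 1 = 9 / 20 := by simp [cc]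
lemma c2 : cc 2 = 4 / 5 := by simp [cc]

lemma row0 (e : ℕ) : St x 0 (e + 2) := by
  have h0 := prec x 0
  have r1 := prec x (e + 3)
  have r2 := prec x (e + 4)
  have r3 := prec x (e + 2)
  simp only [zero_add, p0, p1, c1] at h0
  have hu : upc 0 (e + 2) = (285, 1820, 95) := by simp [upc]
  have hl : loc 0 (e + 2) = (95, 1820, 285) := by simp [loc]
  unfold St tri
  rw [hu, hl]
  simp only [show 0 + 2 + (e + 2) = e + 4 by ring, show 2 * 0 + (e + 2) = e + 2 by ring,
    zero_add, add_assoc] at *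
  norm_num at *
  rcases Nat.mod_two_eq_zero_or_one e with he | he
  · rw [cc_even (by omega) (by omega)] at r1
    rw [cc_odd (by omega) (by omega)] at r2 r3
    linear_combination (-8000 * p x (e + 4)) * h0 + 8000 * x * r1 + 400 * r2 + 7600 * r3
  · rw [cc_odd (by omega) (by omega)] at r1
    rw [cc_even (by omega) (by omega)] at r2 r3
    linear_combination (-8000 * p x (e + 4)) * h0 + 8000 * x * r1 + 7600 * r2 + 400 * r3

lemma p22 : 4400 * (p x 2 * p x 2) = 2880 * p x 0 + 1520 * p x 4 := by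
  have h0 := prec x 0
  have r1 := prec x 1
  have r2 := prec x 2
  simp only [zero_add, p0, p1, c1, c2, cc_odd (n := 2 + 1) (by norm_num) (by norm_num),
    show (1 : ℕ) + 1 = 2 from rfl] at *
  norm_num at *
  linear_combination (-8000 * p x 2) * h0 + 8000 * x * r1 + 1600 * r2 + 6400 * h0

lemma p23 : 4400 * (p x 2 * p x 3) = 320 * p x 1 + 3700 * p x 3 + 380 * p x 5 := by
  have h0 := prec x 0
  have r1 := prec x 1
  have r2 := prec x 2
  have r3 := prec x 3
  simp only [zero_add, p0, p1, c1, c2, cc_odd (n := 2 + 1) (by norm_num) (by norm_num),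
    cc_even (n := 3 + 1) (by norm_num) (by norm_num), show (1 : ℕ) + 1 = 2 from rfl] at *
  norm_num at *
  linear_combination (-8000 * p x 3) * h0 + 8000 * x * r2 + 7600 * r3 + 400 * r1

lemma row1 (e : ℕ) : St x 1 e := by
  have hc := comm x 1 (e + 2)
  have r := prec x (e + 2)
  simp only [p1, show (1 : ℕ) + 1 = 2 from rfl, c2] at hc
  rcases e with _ | _ | e
  · have a := row0 x 0
    have b := p22 x
    simp only [St, tri, upc, loc, cc_odd (n := 0 + 2 + 1) (by norm_num) (by norm_num)] at *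
    norm_num at *
    linear_combination 22000 * hc + (19 / 4) * a + (1 / 4) * b - 17600 * r
  · have a := row0 x 1
    have b := p23 x
    simp only [St, tri, upc, loc, cc_even (n := 0 + 1 + 2 + 1) (by norm_num) (by norm_num)] at *
    norm_num at *
    linear_combination 22000 * hc + (1 / 4) * a + (19 / 4) * b - 17600 * r
  · rw [show e + 1 + 1 = e + 2 from rfl] at *
    have a := row0 x (e + 2)
    have b := row0 x e
    have hu : ∀ e, upc 0 (e + 2) = (285, 1820, 95) := fun e => by simp [upc]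
    have hl : ∀ e, loc 0 (e + 2) = (95, 1820, 285) := fun e => by simp [loc]
    unfold St tri at *
    rw [hu, hl] at a b
    rcases Nat.mod_two_eq_zero_or_one e with he | he
    · have hu1 : upc 1 (e + 2) = (15, 380, 1805) := by simp [upc, he]
      have hl1 : loc 1 (e + 2) = (95, 1820, 285) := by simp [loc, he]
      rw [hu1, hl1]
      rw [cc_odd (by omega) (by omega)] at hc r
      ring_nf at *
      linear_combination 22000 * hc + (19 / 4) * a + (1 / 4) * b - 17600 * r
    · have hu1 : upc 1 (e + 2) = (285, 1820, 95) := by simp [upc, he]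
      have hl1 : loc 1 (e + 2) = (1805, 380, 15) := by simp [loc, he]
      rw [hu1, hl1]
      rw [cc_even (by omega) (by omega)] at hc r
      ring_nf at *
      linear_combination 22000 * hc + (1 / 4) * a + (19 / 4) * b - 17600 * r

lemma step (μ e : ℕ) (a : St x (μ + 1) (e + 2)) (b : St x (μ + 1) e) (c : St x μ (e + 2)) :
    St x (μ + 2) e := by
  have hc := comm x (μ + 2) (μ + 3 + e)
  unfold St tri at *
  have m1 : (μ + 2) % 2 = μ % 2 := by omega
  have m2 : (e + 2) % 2 = e % 2 := by omega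
  have m3 : (μ + 1) % 2 = 1 - μ % 2 := by omega
  have m4 : e + 2 ≠ 0 := by omega
  have m5 : e + 2 ≠ 1 := by omega
  simp only [upc, loc, m1, m2, m3, m4, m5, if_false] at a b c ⊢
  rcases Nat.mod_two_eq_zero_or_one μ with hμ | hμ <;>
    rcases Nat.mod_two_eq_zero_or_one e with he | he
  · rw [cc_odd (n := μ + 2 + 1) (by omega) (by omega),
      cc_even (n := μ + 3 + e + 1) (by omega) (by omega)] at hc
    have h1 : e ≠ 1 := by omega
    by_cases h0 : e = 0
    · subst h0
      simp only [hμ] at a b c ⊢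
      norm_num at a b c ⊢
      ring_nf at a b c hc ⊢
      linarith
    · simp only [hμ, he, h0, h1] at a b c ⊢
      norm_num at a b c ⊢
      ring_nf at a b c hc ⊢
      linarith
  · rw [cc_odd (n := μ + 2 + 1) (by omega) (by omega),
      cc_odd (n := μ + 3 + e + 1) (by omega) (by omega)] at hc
    have h0 : e ≠ 0 := by omega
    by_cases h1 : e = 1
    · subst h1
      simp only [hμ] at a b c ⊢
      norm_num at a b c ⊢
      ring_nf at a b c hc ⊢
      linarith
    · simp only [hμ, he, h0, h1] at a b c ⊢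
      norm_num at a b c ⊢
      ring_nf at a b c hc ⊢
      linarith
  · rw [cc_even (n := μ + 2 + 1) (by omega) (by omega),
      cc_odd (n := μ + 3 + e + 1) (by omega) (by omega)] at hc
    have h1 : e ≠ 1 := by omega
    by_cases h0 : e = 0
    · subst h0
      simp only [hμ] at a b c ⊢
      norm_num at a b c ⊢
      ring_nf at a b c hc ⊢
      linarith
    · simp only [hμ, he, h0, h1] at a b c ⊢
      norm_num at a b c ⊢
      ring_nf at a b c hc ⊢
      linarith
  · rw [cc_even (n := μ + 2 + 1) (by omega) (by omega),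
      cc_even (n := μ + 3 + e + 1) (by omega) (by omega)] at hc
    have h0 : e ≠ 0 := by omega
    by_cases h1 : e = 1
    · subst h1
      simp only [hμ] at a b c ⊢
      norm_num at a b c ⊢
      ring_nf at a b c hc ⊢
      linarith
    · simp only [hμ, he, h0, h1] at a b c ⊢
      norm_num at a b c ⊢
      ring_nf at a b c hc ⊢
      linarith

lemma allSt (μ : ℕ) : (∀ e, St x μ (e + 2)) ∧ ∀ e, St x (μ + 1) e := by
  induction μ with
  | zero => exact ⟨row0 x, row1 x⟩
  | succ μ ih => exact ⟨fun e => ih.2 _, fun e => step x μ e (ih.2 _) (ih.2 _) (ih.1 _)⟩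

end

def Cone (lo hi : ℕ) (q : ℝ[X]) : Prop :=
  ∃ g : ℕ → ℝ, (∀ k, 0 ≤ g k) ∧ q = ∑ k ∈ Finset.Icc lo hi, C (g k) * PP k

lemma Cone.add {lo hi : ℕ} {q r : ℝ[X]} (h : Cone lo hi q) (h' : Cone lo hi r) :
    Cone lo hi (q + r) := by
  obtain ⟨g, g0, rfl⟩ := h
  obtain ⟨f, f0, rfl⟩ := h'
  exact ⟨fun k => g k + f k, fun k => add_nonneg (g0 k) (f0 k), by
    simp [← Finset.sum_add_distrib, add_mul]⟩

lemma Cone.single {lo hi i : ℕ} {a : ℝ} (ha : 0 ≤ a) (h1 : lo ≤ i) (h2 : i ≤ hi) :
    Cone lo hi (C a * PP i) := by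
  refine ⟨fun k => if k = i then a else 0, fun k => by simp only; split_ifs <;> simp [ha], ?_⟩
  rw [Finset.sum_eq_single i]
  · simp
  · intro b _ hb; simp [hb]
  · intro h; exact absurd (Finset.mem_Icc.2 ⟨h1, h2⟩) h

lemma cone_St (μ e : ℕ) (h : ∀ x, St x μ e) : Cone e (μ + 2 + (μ + 2 + e))
    (PP (μ + 2) * PP (μ + 2 + e)) := by
  have hu : 0 ≤ (upc μ e).1 ∧ 0 ≤ (upc μ e).2.1 ∧ 0 ≤ (upc μ e).2.2 := by
    unfold upc; split_ifs <;> norm_num
  have hl : 0 ≤ (loc μ e).1 ∧ 0 ≤ (loc μ e).2.1 ∧ 0 ≤ (loc μ e).2.2 := by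
    unfold loc; split_ifs <;> norm_num
  have : PP (μ + 2) * PP (μ + 2 + e) = C ((upc μ e).1 / 4400) * PP (2 * μ + e) +
      C ((upc μ e).2.1 / 4400) * PP (2 * μ + e + 2) + C ((upc μ e).2.2 / 4400) * PP (2 * μ + e + 4) +
      C ((loc μ e).1 / 4400) * PP e + C ((loc μ e).2.1 / 4400) * PP (e + 2) +
      C ((loc μ e).2.2 / 4400) * PP (e + 4) := by
    refine Polynomial.funext fun x => ?_
    have := h x
    simp only [St, tri, p] at this
    simp only [eval_add, eval_mul, eval_C]
    linear_combination (1 / 4400) * this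
  rw [this]
  obtain ⟨a1, a2, a3⟩ := hu
  obtain ⟨b1, b2, b3⟩ := hl
  have s : ∀ (a : ℝ) (i : ℕ), 0 ≤ a → e ≤ i → i ≤ μ + 2 + (μ + 2 + e) →
      Cone e (μ + 2 + (μ + 2 + e)) (C (a / 4400) * PP i) := fun a i h0 h1 h2 =>
    Cone.single (by positivity) h1 h2
  have t1 := s _ (2 * μ + e) a1 (by omega) (by omega)
  have t2 := s _ (2 * μ + e + 2) a2 (by omega) (by omega)
  have t3 := s _ (2 * μ + e + 4) a3 (by omega) (by omega)
  have t4 := s _ e b1 (by omega) (by omega)
  have t5 := s _ (e + 2) b2 (by omega) (by omega)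
  have t6 := s _ (e + 4) b3 (by omega) (by omega)
  have t := ((((t1.add t2).add t3).add t4).add t5).add t6
  exact t

lemma cone_le (m e : ℕ) : Cone e (m + (m + e)) (PP m * PP (m + e)) := by
  match m, e with
  | 0, e =>
    have : PP 0 * PP (0 + e) = C 1 * PP e := by simp [PP]
    rw [this]; exact Cone.single (by norm_num) le_rfl (by omega)
  | 1, e =>
    have : PP 1 * PP (1 + e) = C (aa (e + 1)) * PP (e + 2) + C (cc (e + 1)) * PP e := by
      rw [add_comm 1 e, ← PP_rec, PP]
    rw [this]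
    exact (Cone.single (aa_pos _).le (by omega) (by omega)).add
      (Cone.single (cc_bd _).1 le_rfl (by omega))
  | 2, 0 =>
    have : PP 2 * PP (2 + 0) = C (2880 / 4400) * PP 0 + C (1520 / 4400) * PP 4 := by
      refine Polynomial.funext fun x => ?_
      have := p22 x
      simp only [p] at this
      simp only [eval_add, eval_mul, eval_C]
      linear_combination (1 / 4400) * this
    rw [this]
    exact (Cone.single (by norm_num) (by omega) (by omega)).add
      (Cone.single (by norm_num) (by omega) (by omega))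
  | 2, 1 =>
    have : PP 2 * PP (2 + 1) = C (320 / 4400) * PP 1 + C (3700 / 4400) * PP 3 +
        C (380 / 4400) * PP 5 := by
      refine Polynomial.funext fun x => ?_
      have := p23 x
      simp only [p] at this
      simp only [eval_add, eval_mul, eval_C]
      linear_combination (1 / 4400) * this
    rw [this]
    exact ((Cone.single (by norm_num) (by omega) (by omega)).add
      (Cone.single (by norm_num) (by omega) (by omega))).add
      (Cone.single (by norm_num) (by omega) (by omega))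
  | 2, e + 2 => exact cone_St 0 (e + 2) fun x => (allSt x 0).1 e
  | μ + 3, e => exact cone_St (μ + 1) e fun x => (allSt x μ).2 e

theorem nonnegLin : NonnegLin PP := by
  intro m n
  rcases le_total m n with h | h
  · obtain ⟨e, rfl⟩ := Nat.exists_eq_add_of_le h
    have : Nat.dist m (m + e) = e := by simp [Nat.dist]
    rw [this]; exact cone_le m e
  · obtain ⟨e, rfl⟩ := Nat.exists_eq_add_of_le h
    have : Nat.dist (n + e) n = e := by simp [Nat.dist]
    rw [this, mul_comm, add_comm (n + e)]; exact cone_le n e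

lemma zero_dual (n : ℕ) : |(PP n).eval 0| ≤ 1 := by
  have key : ∀ n, (|p 0 (2 * n)| ≤ 1 ∧ p 0 (2 * n + 1) = 0) := by
    intro n
    induction n with
    | zero => simp [p0, p1]
    | succ n ih =>
      have r1 := prec 0 (2 * n)
      have r2 := prec 0 (2 * n + 1)
      have hc : cc (2 * n + 1) ≤ 1 / 2 := by
        rcases Nat.eq_zero_or_pos n with h | h
        · subst h; simp [c1]; norm_num
        · rw [cc_odd (by omega) (by omega)]; norm_num
      have h0 := (cc_bd (2 * n + 1)).1
      have h1 := (cc_bd (2 * n + 1 + 1)).2.1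
      rw [ih.2] at r2
      rw [show 2 * (n + 1) = 2 * n + 2 by ring]
      constructor
      · have e : (1 - cc (2 * n + 1)) * |p 0 (2 * n + 2)| = cc (2 * n + 1) * |p 0 (2 * n)| := by
          rw [← abs_of_nonneg (by linarith : 0 ≤ 1 - cc (2 * n + 1)), ← abs_mul,
            ← abs_of_nonneg h0, ← abs_mul, ← abs_neg, abs_of_nonneg h0]
          congr 1; linarith
        nlinarith [ih.1, abs_nonneg (p 0 (2 * n + 2)), abs_nonneg (p 0 (2 * n))]
      · have : (1 - cc (2 * n + 1 + 1)) * p 0 (2 * n + 1 + 2) = 0 := by linarith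
        exact (mul_eq_zero.1 this).resolve_left (by linarith)
  rcases Nat.even_or_odd' n with ⟨k, rfl | rfl⟩
  · exact (key k).1
  · have := (key k).2
    rw [p] at this; simp [this]

end Pool.Agent.H27.Haar
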