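import Mathlib

/-! Solvability of Toeplitz systems for series of the form `h (X ^ 2)` and `(1 + s X) h (X ^ 2)`. -/

namespace Pool.Agent.H27.Hank
open Finset PowerSeries

set_option maxHeartbeats 400000

variable {K : Type} [Field K]

def Zr (l r : ℕ) (A : K⟦X⟧) : Prop := ∀ i, l ≤ i → i < r → coeff i A = 0
def Sp (n : ℕ) (A : K⟦X⟧) : Prop := ∀ i, n ≤ i → coeff i A = 0
def Sol (f : K⟦X⟧) (l r n : ℕ) : Prop := ∃ V, V ≠ 0 ∧ Sp n V ∧ Zr l r (f * V)

noncomputable def ex (A : K⟦X⟧) : K⟦X⟧ := expand 2 two_ne_zero A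
noncomputable def mix (A B : K⟦X⟧) : K⟦X⟧ := ex A + X * ex B

theorem mix0 (A B : K⟦X⟧) (i : ℕ) : coeff (2 * i) (mix A B) = coeff i A := by
  rw [mix, map_add, ex, coeff_expand_mul]
  rcases i with _ | i
  · simp
  · rw [show 2 * (i + 1) = 2 * i + 1 + 1 from rfl, coeff_succ_X_mul, ex, coeff_expand_of_not_dvd _ _ _ (by omega), add_zero]

theorem mix1 (A B : K⟦X⟧) (i : ℕ) : coeff (2 * i + 1) (mix A B) = coeff i B := by
  rw [mix, map_add, ex, coeff_expand_of_not_dvd _ _ _ (by omega), coeff_succ_X_mul, ex, coeff_expand_mul, zero_add]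

theorem par (i : ℕ) : ∃ j, i = 2 * j ∨ i = 2 * j + 1 := ⟨i / 2, by omega⟩

theorem exmix (V : K⟦X⟧) : ∃ A B, V = mix A B :=
  ⟨PowerSeries.mk fun i => coeff (2 * i) V, PowerSeries.mk fun i => coeff (2 * i + 1) V, by
    ext i
    obtain ⟨j, rfl | rfl⟩ := par i
    · rw [mix0, coeff_mk]
    · rw [mix1, coeff_mk]⟩

theorem mix_ne {A B : K⟦X⟧} : mix A B ≠ 0 ↔ A ≠ 0 ∨ B ≠ 0 := by
  rw [← not_iff_not]
  push Not
  refine ⟨fun h => ⟨?_, ?_⟩, ?_⟩
  · ext i; rw [← mix0 A B, h]; simp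
  · ext i; rw [← mix1 A B, h]; simp
  · rintro ⟨rfl, rfl⟩; simp [mix, ex]

theorem Zr_mix {l r : ℕ} {A B : K⟦X⟧} : Zr l r (mix A B) ↔ Zr ((l + 1) / 2) ((r + 1) / 2) A ∧ Zr (l / 2) (r / 2) B := by
  refine ⟨fun h => ⟨fun i h1 h2 => ?_, fun i h1 h2 => ?_⟩, fun ⟨h, h'⟩ i h1 h2 => ?_⟩
  · rw [← mix0 A B, h _ (by omega) (by omega)]
  · rw [← mix1 A B, h _ (by omega) (by omega)]
  · obtain ⟨j, rfl | rfl⟩ := par i
    · rw [mix0, h _ (by omega) (by omega)]
    · rw [mix1, h' _ (by omega) (by omega)]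

theorem Sp_mix {n : ℕ} {A B : K⟦X⟧} : Sp n (mix A B) ↔ Sp ((n + 1) / 2) A ∧ Sp (n / 2) B := by
  refine ⟨fun h => ⟨fun i h1 => ?_, fun i h1 => ?_⟩, fun ⟨h, h'⟩ i h1 => ?_⟩
  · rw [← mix0 A B, h _ (by omega)]
  · rw [← mix1 A B, h _ (by omega)]
  · obtain ⟨j, rfl | rfl⟩ := par i
    · rw [mix0, h _ (by omega)]
    · rw [mix1, h' _ (by omega)]

theorem ex_mix (h A B : K⟦X⟧) : ex h * mix A B = mix (h * A) (h * B) := by
  simp only [mix, ex, map_mul]
  ring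

theorem lin_mix (s : K) (A B : K⟦X⟧) : (1 + C s * X) * mix A B = mix (A + C s * (X * B)) (B + C s * A) := by
  simp only [mix, ex, map_mul, map_add, expand_C, expand_X]
  ring

theorem Zr0 (l r : ℕ) : Zr l r (0 : K⟦X⟧) := fun _ _ _ => map_zero _
theorem Sp0 (n : ℕ) : Sp n (0 : K⟦X⟧) := fun _ _ => map_zero _
theorem Sp.mono {n m : ℕ} {A : K⟦X⟧} (h : Sp n A) (hm : n ≤ m) : Sp m A := fun i hi => h i (hm.trans hi)
theorem Sp.C {n : ℕ} {A : K⟦X⟧} (h : Sp n A) (s : K) : Sp n (C s * A) := fun i hi => by rw [coeff_C_mul, h i hi, mul_zero]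
theorem Sp.add {n : ℕ} {A B : K⟦X⟧} (h : Sp n A) (h' : Sp n B) : Sp n (A + B) := fun i hi => by
  rw [map_add, h i hi, h' i hi, add_zero]
theorem Sp.X {n : ℕ} {A : K⟦X⟧} (h : Sp n A) : Sp (n + 1) (X * A) := fun i hi => by
  obtain ⟨i, rfl⟩ : ∃ j, i = j + 1 := ⟨i - 1, by omega⟩
  rw [coeff_succ_X_mul, h i (by omega)]
theorem Zr.C {l r : ℕ} {A B : K⟦X⟧} (h : Zr l r (A * B)) (s : K) : Zr l r (A * (C s * B)) := fun i h1 h2 => by
  rw [mul_left_comm, coeff_C_mul, h i h1 h2, mul_zero]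

theorem ev (h : K⟦X⟧) (l r n : ℕ) :
    Sol (ex h) l r n ↔ Sol h ((l + 1) / 2) ((r + 1) / 2) ((n + 1) / 2) ∨ Sol h (l / 2) (r / 2) (n / 2) := by
  constructor
  · rintro ⟨V, h1, h2, h3⟩
    obtain ⟨A, B, rfl⟩ := exmix V
    rw [ex_mix, Zr_mix] at h3
    rw [Sp_mix] at h2
    exact (mix_ne.mp h1).imp (fun h => ⟨A, h, h2.1, h3.1⟩) fun h => ⟨B, h, h2.2, h3.2⟩
  · rintro (⟨A, h1, h2, h3⟩ | ⟨A, h1, h2, h3⟩)
    · exact ⟨mix A 0, mix_ne.mpr (.inl h1), Sp_mix.mpr ⟨h2, Sp0 _⟩, by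
        rw [ex_mix, mul_zero]; exact Zr_mix.mpr ⟨h3, Zr0 _ _⟩⟩
    · exact ⟨mix 0 A, mix_ne.mpr (.inr h1), Sp_mix.mpr ⟨Sp0 _, h2⟩, by
        rw [ex_mix, mul_zero]; exact Zr_mix.mpr ⟨Zr0 _ _, h3⟩⟩

theorem od0 {s : K} {h : K⟦X⟧} {l r n : ℕ} : Sol ((1 + C s * X) * ex h) l r n ↔ ∃ A B, (A ≠ 0 ∨ B ≠ 0) ∧
    Sp ((n + 1) / 2) A ∧ Sp (n / 2) B ∧ Zr ((l + 1) / 2) ((r + 1) / 2) (h * (A + C s * (X * B))) ∧
      Zr (l / 2) (r / 2) (h * (B + C s * A)) := by
  have e : ∀ A B, (1 + C s * X) * ex h * mix A B = mix (h * (A + C s * (X * B))) (h * (B + C s * A)) := fun A B => by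
    rw [mul_comm _ (ex h), mul_assoc, lin_mix, ex_mix]
  constructor
  · rintro ⟨V, h1, h2, h3⟩
    obtain ⟨A, B, rfl⟩ := exmix V
    rw [e, Zr_mix] at h3
    exact ⟨A, B, mix_ne.mp h1, (Sp_mix.mp h2).1, (Sp_mix.mp h2).2, h3⟩
  · rintro ⟨A, B, h1, h2, h3, h4⟩
    exact ⟨mix A B, mix_ne.mpr h1, Sp_mix.mpr ⟨h2, h3⟩, by rw [e, Zr_mix]; exact h4⟩

section
variable {s : K} (hs : s * s = 1) {h : K⟦X⟧} {l r n : ℕ}
include hs

theorem cs : (C s * C s : K⟦X⟧) = 1 := by rw [← map_mul, hs, map_one]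

theorem od1 (H : Sol ((1 + C s * X) * ex h) l r n) :
    (Sol h (l / 2) (r / 2) ((n + 1) / 2) ∨ Sol ((1 - X) * h) ((l + 1) / 2) ((r + 1) / 2) (n / 2)) ∧
    (Sol h ((l + 1) / 2) ((r + 1) / 2) (n / 2 + 1) ∨ Sol ((1 - X) * h) (l / 2) (r / 2) (n / 2)) := by
  obtain ⟨A, B, h1, h2, h3, h4, h5⟩ := od0.mp H
  have c := cs hs
  constructor
  · by_cases e : B + C s * A = 0
    · obtain rfl : A = C (-s) * B := by rw [map_neg]; linear_combination C s * e - A * c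
      refine .inr ⟨C (-s) * B, h1.elim id fun h e' => h ?_, h3.C _, ?_⟩
      · rw [map_neg] at e'
        linear_combination -C s * e' - B * c
      · convert h4 using 1
        rw [map_neg]
        ring
    · exact .inl ⟨_, e, (h3.mono (by omega)).add (h2.C _), h5⟩
  · by_cases e : A + C s * (X * B) = 0
    · obtain rfl : A = -C s * (X * B) := by linear_combination e
      refine .inr ⟨B, h1.elim (fun h e' => h (by rw [e']; simp)) id, h3, ?_⟩
      convert h5 using 1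
      linear_combination h * X * B * c
    · exact .inl ⟨_, e, (h2.mono (by omega)).add (h3.X.C _), h4⟩

theorem od2 (H : Sol ((1 - X) * h) ((l + 1) / 2) ((r + 1) / 2) (n / 2)) : Sol ((1 + C s * X) * ex h) l r n := by
  obtain ⟨A, h1, h2, h3⟩ := H
  have c := cs hs
  refine od0.mpr ⟨A, C (-s) * A, .inl h1, h2.mono (by omega), h2.C _, ?_, ?_⟩
  · convert h3 using 1
    rw [map_neg]
    linear_combination -h * X * A * c
  · convert Zr0 _ _ using 1
    rw [map_neg]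
    ring

theorem od3 (hn : n % 2 = 1) (H : Sol ((1 - X) * h) (l / 2) (r / 2) (n / 2)) : Sol ((1 + C s * X) * ex h) l r n := by
  obtain ⟨B, h1, h2, h3⟩ := H
  have c := cs hs
  refine od0.mpr ⟨C (-s) * (X * B), B, .inr h1, (h2.X.mono (by omega)).C _, h2, ?_, ?_⟩
  · convert Zr0 _ _ using 1
    rw [map_neg]
    ring
  · convert h3 using 1
    rw [map_neg]
    linear_combination -h * X * B * c

theorem od4 (H : Sol h ((l + 1) / 2) ((r + 1) / 2) (n / 2 + 1)) (H' : Sol h (l / 2) (r / 2) ((n + 1) / 2)) :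
    Sol ((1 + C s * X) * ex h) l r n := by
  have c := cs hs
  obtain ⟨A, B, h1, h2, h3, h4, h5, h6⟩ : ∃ A B : K⟦X⟧, (A ≠ 0 ∨ B ≠ 0) ∧ Sp (n / 2 + 1) A ∧ Sp ((n + 1) / 2) B ∧
      Zr ((l + 1) / 2) ((r + 1) / 2) (h * A) ∧ Zr (l / 2) (r / 2) (h * B) ∧
        ∑ i ∈ range (n / 2 + 1), coeff i (B + C (-s) * A) = 0 := by
    obtain ⟨A, h1, h2, h3⟩ := H
    obtain ⟨B, h4, h5, h6⟩ := H'
    by_cases e : ∑ i ∈ range (n / 2 + 1), coeff i A = 0
    · exact ⟨A, 0, .inl h1, h2, Sp0 _, h3, by rw [mul_zero]; exact Zr0 _ _, by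
        simp only [zero_add, coeff_C_mul, ← mul_sum, e, mul_zero]⟩
    · refine ⟨C (∑ i ∈ range (n / 2 + 1), coeff i B) * A, C (s * ∑ i ∈ range (n / 2 + 1), coeff i A) * B,
        .inr (mul_ne_zero (fun z => mul_ne_zero (left_ne_zero_of_mul_eq_one hs) e (C_injective (by rw [z, map_zero]))) h4),
        h2.C _, h5.C _, h3.C _, h6.C _, ?_⟩
      simp only [map_add, coeff_C_mul, sum_add_distrib, ← mul_sum]
      ring
  obtain ⟨W, e, w⟩ : ∃ W, W * (1 - X) = B + C (-s) * A ∧ Sp (n / 2) W := by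
    refine ⟨(B + C (-s) * A) * PowerSeries.mk 1, by rw [mul_assoc, mk_one_mul_one_sub_eq_one, mul_one], fun i hi => ?_⟩
    rw [coeff_mul, Finset.Nat.sum_antidiagonal_eq_sum_range_succ fun a b => coeff a (B + C (-s) * A) * coeff b (PowerSeries.mk 1),
      ← h6]
    simp only [coeff_mk, Pi.one_apply, mul_one]
    exact (sum_subset (range_mono (by omega)) fun x _ hx =>
      ((h3.mono (by omega)).add (h2.C _)) x (by simpa using hx)).symm
  rw [map_neg] at e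
  have e1 : C s * (B + C (-1) * W) + C s * (X * W) = A := by
    rw [map_neg, map_one]; linear_combination -C s * e + A * c
  have e2 : W + C s * (C s * (B + C (-1) * W)) = B := by
    rw [map_neg, map_one]; linear_combination (B - W) * c
  refine od0.mpr ⟨C s * (B + C (-1) * W), W, ?_, (h3.add ((w.mono (by omega)).C _)).C _, w, by rwa [e1], by rwa [e2]⟩
  by_contra z
  push Not at z
  rw [z.1, z.2] at e1 e2
  exact h1.elim (fun t => t (by rw [← e1]; simp)) fun t => t (by rw [← e2]; simp)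

end

noncomputable def emb (K : Type) [Field K] (n : ℕ) : (Fin n → K) →ₗ[K] K⟦X⟧ :=
  Fintype.linearCombination K fun j : Fin n => X ^ (n - 1 - j)

theorem emb_co {n : ℕ} (v : Fin n → K) (j : Fin n) : coeff (n - 1 - j) (emb K n v) = v j := by
  rw [emb, Fintype.linearCombination_apply, map_sum, sum_eq_single j]
  · simp
  · intro k _ hk
    rw [map_smul, coeff_X_pow, if_neg (fun h => hk (Fin.ext (by omega))), smul_zero]
  · simp

theorem emb_sp {n : ℕ} (v : Fin n → K) : Sp n (emb K n v) := fun i hi => by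
  rw [emb, Fintype.linearCombination_apply, map_sum]
  exact sum_eq_zero fun k _ => by rw [map_smul, coeff_X_pow, if_neg (by omega), smul_zero]

theorem emb_ne {n : ℕ} {v : Fin n → K} (h : v ≠ 0) : emb K n v ≠ 0 := fun z =>
  h (funext fun j => by rw [← emb_co v j, z]; simp)

theorem under (f : K⟦X⟧) {l r n : ℕ} (h : r < l + n) (hn : 0 < n) : Sol f l r n := by
  obtain ⟨v, h1, h2⟩ := (Submodule.ne_bot_iff _).mp (LinearMap.ker_ne_bot_of_finrank_lt
    (f := (LinearMap.pi fun i : Fin (r - l) => coeff (l + i)) ∘ₗ LinearMap.mulLeft K f ∘ₗ emb K n) (by simp; omega))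
  refine ⟨_, emb_ne h2, emb_sp v, fun i h3 h4 => ?_⟩
  have := congrFun (LinearMap.mem_ker.mp h1) ⟨i - l, by omega⟩
  simpa [Nat.add_sub_cancel' h3] using this

theorem link (f : K⟦X⟧) (p n : ℕ) :
    (Matrix.of fun i j : Fin n => coeff (p + 1 + i + j) f).det = 0 ↔ Sol f (p + n) (p + n + n) n := by
  rw [← Matrix.exists_mulVec_eq_zero_iff]
  have e : ∀ (v : Fin n → K) (i : Fin n), coeff (p + n + i) (f * emb K n v) =
      (Matrix.of fun i j : Fin n => coeff (p + 1 + i + j) f).mulVec v i := fun v i => by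
    rw [emb, Fintype.linearCombination_apply, mul_sum, map_sum]
    refine sum_congr rfl fun j _ => ?_
    rw [mul_smul_comm, map_smul, coeff_mul_X_pow', if_pos (by omega), smul_eq_mul, mul_comm,
      show p + n + i - (n - 1 - j) = p + 1 + i + j by omega]
    rfl
  constructor
  · rintro ⟨v, h1, h2⟩
    refine ⟨_, emb_ne h1, emb_sp v, fun i h3 h4 => ?_⟩
    have := e v ⟨i - (p + n), by omega⟩
    rwa [h2, Nat.add_sub_cancel' h3] at this
  · rintro ⟨V, h1, h2, h3⟩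
    have e' : emb K n (fun j => coeff (n - 1 - j) V) = V := by
      ext i
      by_cases hi : n ≤ i
      · rw [emb_sp _ i hi, h2 i hi]
      · have := emb_co (fun j : Fin n => coeff (n - 1 - j) V) ⟨n - 1 - i, by omega⟩
        rwa [show n - 1 - (n - 1 - i) = i by omega] at this
    refine ⟨fun j => coeff (n - 1 - j) V, fun z => h1 (by rw [← e', z, map_zero]), funext fun i => ?_⟩
    rw [← e, e', h3 _ (by omega) (by omega), Pi.zero_apply]

end Pool.Agent.H27.Hank
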