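import Pool.Agent.H27.HankA

/-! Field independence of the Toeplitz systems attached to the inverse Thue-Morse series. -/

namespace Pool.Agent.H27.Hank
open Finset PowerSeries

set_option maxHeartbeats 400000

variable {K : Type} [Field K] {F : Type} [Field F]

def Tr (f : K⟦X⟧) (g : F⟦X⟧) (l n : ℕ) : Prop := Sol f l (l + n) n → Sol g l (l + n) n

theorem no0 (f : K⟦X⟧) (l r : ℕ) : ¬Sol f l r 0 := fun ⟨V, h1, h2, _⟩ => h1 (by ext i; exact h2 i i.zero_le)

theorem no1 {f : K⟦X⟧} (h : constantCoeff f = 1) : ¬Sol f 0 1 1 := fun ⟨V, h1, h2, h3⟩ => h1 (by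
  ext i
  rcases i with _ | i
  · simpa [h] using h3 0 le_rfl one_pos
  · exact h2 _ (by omega))

theorem gev {f : K⟦X⟧} {g : F⟦X⟧} {l n : ℕ} (h1 : 0 < n) (h2 : 2 ≤ l + n)
    (ih : ∀ l' n', l' + n' < l + n → Tr f g l' n') : Tr (ex f) (ex g) l n := fun H => by
  rw [ev] at H ⊢
  by_cases c : l % 2 = 1 ∧ n % 2 = 1
  · exact .inl (under _ (by omega) (by omega))
  rw [show (l + n + 1) / 2 = (l + 1) / 2 + (n + 1) / 2 by omega, show (l + n) / 2 = l / 2 + n / 2 by omega] at H ⊢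
  exact H.imp (ih _ _ (by omega)) (ih _ _ (by omega))

theorem god {s : K} {t : F} (hs : s * s = 1) (ht : t * t = 1) {f : K⟦X⟧} {g : F⟦X⟧} {l n : ℕ} (h1 : 0 < n)
    (h2 : 2 ≤ l + n) (ih : ∀ l' n', l' + n' < l + n → Tr f g l' n' ∧ Tr ((1 - X) * f) ((1 - X) * g) l' n') :
    Tr ((1 + C s * X) * ex f) ((1 + C t * X) * ex g) l n := fun H => by
  obtain ⟨H0, H1⟩ := od1 hs H
  by_cases c : l % 2 = 0 ∧ n % 2 = 1
  · have e0 : (l + n + 1) / 2 = (l + 1) / 2 + (n / 2 + 1) := by omega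
    have e1 : (l + n) / 2 = l / 2 + n / 2 := by omega
    rcases H1 with H | H
    · exact od4 ht (e0 ▸ (ih _ _ (by omega)).1 (e0 ▸ H)) (under _ (by omega) (by omega))
    · exact od3 ht c.2 (e1 ▸ (ih _ _ (by omega)).2 (e1 ▸ H))
  · have e0 : (l + n + 1) / 2 = (l + 1) / 2 + n / 2 := by omega
    have e1 : (l + n) / 2 = l / 2 + (n + 1) / 2 := by omega
    rcases H0 with H | H
    · exact od4 ht (under _ (by omega) (by omega)) (e1 ▸ (ih _ _ (by omega)).1 (e1 ▸ H))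
    · exact od2 ht (e0 ▸ (ih _ _ (by omega)).2 (e0 ▸ H))

def dg (z : ℕ) : Prop := ∀ d ∈ Nat.digits 4 z, d = 0 ∨ d = 2

instance : DecidablePred dg := fun _ => inferInstanceAs (Decidable (∀ d ∈ _, _))

theorem dg_iff (z : ℕ) : dg z ↔ z % 2 = 0 ∧ dg (z / 4) := by
  rcases z.eq_zero_or_pos with rfl | h
  · simp
  · rw [dg, Nat.digits_def' (by norm_num) h, List.forall_mem_cons, dg]
    exact and_congr_left fun _ => by omega

noncomputable def S (K : Type) [Field K] (c : ℕ) : K⟦X⟧ := PowerSeries.mk fun z => if dg (z / c) then 1 else 0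

theorem lin0 (s : K) (A : K⟦X⟧) : (1 + C s * X) * ex A = mix A (C s * A) := by
  simpa [mix, ex] using lin_mix s A 0

theorem S1 : S K 1 = ex (S K 2) := by
  rw [show ex (S K 2) = mix (S K 2) 0 by simp [mix, ex]]
  ext i
  obtain ⟨j, rfl | rfl⟩ := par i
  · simp only [mix0, S, coeff_mk, Nat.div_one, dg_iff (2 * j), show 2 * j / 4 = j / 2 by omega, Nat.mul_mod_right, true_and]
  · rw [mix1, S, coeff_mk, Nat.div_one, if_neg (by rw [dg_iff]; omega), map_zero]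

theorem S2 (c : ℕ) : S K (2 * c) = (1 + C 1 * X) * ex (S K c) := by
  rw [lin0, map_one, one_mul]
  ext i
  obtain ⟨j, rfl | rfl⟩ := par i
  · simp only [mix0, S, coeff_mk, ← Nat.div_div_eq_div_mul, show 2 * j / 2 = j by omega]
  · simp only [mix1, S, coeff_mk, ← Nat.div_div_eq_div_mul, show (2 * j + 1) / 2 = j by omega]

theorem S3 : (1 - X) * S K 2 = ex ((1 - X) * S K 1) := by
  rw [S2 1]
  simp only [ex, map_mul, map_sub, map_one, expand_X]
  ring

theorem S4 : (1 - X) * S K 1 = (1 + C (-1) * X) * ex (S K 2) := by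
  rw [S1, map_neg, map_one]
  ring

theorem S0 (c : ℕ) : constantCoeff (S K c) = 1 := by simp [S, dg]

theorem tr (N : ℕ) : ∀ l n, l + n = N → (Tr (S K 1) (S F 1) l n ∧ Tr ((1 - X) * S K 1) ((1 - X) * S F 1) l n) ∧
    (Tr (S K 2) (S F 2) l n ∧ Tr ((1 - X) * S K 2) ((1 - X) * S F 2) l n) ∧ Tr (S K 4) (S F 4) l n := by
  induction N using Nat.strong_induction_on with
  | _ N ih =>
    rintro l n rfl
    rcases n.eq_zero_or_pos with rfl | h1
    · refine ⟨⟨?_, ?_⟩, ⟨?_, ?_⟩, ?_⟩ <;> exact fun H => (no0 _ _ _ H).elim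
    by_cases h2 : 2 ≤ l + n
    · refine ⟨⟨?_, ?_⟩, ⟨?_, ?_⟩, ?_⟩
      · rw [S1, S1]
        exact gev h1 h2 fun _ _ h => (ih _ h _ _ rfl).2.1.1
      · rw [S4, S4]
        exact god (by simp) (by simp) h1 h2 fun _ _ h => (ih _ h _ _ rfl).2.1
      · rw [S2 1, S2 1]
        exact god (by simp) (by simp) h1 h2 fun _ _ h => (ih _ h _ _ rfl).1
      · rw [S3, S3]
        exact gev h1 h2 fun _ _ h => (ih _ h _ _ rfl).1.2
      · rw [S2 2, S2 2]
        exact god (by simp) (by simp) h1 h2 fun _ _ h => (ih _ h _ _ rfl).2.1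
    · obtain ⟨rfl, rfl⟩ : l = 0 ∧ n = 1 := by omega
      refine ⟨⟨?_, ?_⟩, ⟨?_, ?_⟩, ?_⟩ <;> exact fun H => (no1 (by simp [S0]) H).elim

end Pool.Agent.H27.Hank
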