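import Pool.Agent.H27.HankB

/-! The coefficients of the compositional inverse of the Thue-Morse series. -/

namespace Pool.Agent.H27.Hank
open Finset PowerSeries

set_option maxHeartbeats 400000

/-- The Thue-Morse series over the field with two elements. -/
noncomputable def TM : (ZMod 2)⟦X⟧ := PowerSeries.mk fun n => ((Nat.digits 2 n).sum : ZMod 2)

theorem ex_sq (A : (ZMod 2)⟦X⟧) : ex A = A ^ 2 := by
  have := MvPowerSeries.map_frobenius_expand 2 two_ne_zero (f := A)
  rw [ZMod.frobenius_zmod, MvPowerSeries.map_id] at this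
  exact this

theorem two0 : (2 : (ZMod 2)⟦X⟧) = 0 := by
  rw [show (2 : (ZMod 2)⟦X⟧) = C 2 from rfl, show (2 : ZMod 2) = 0 from rfl, map_zero]

theorem TM_eq : (1 + X) ^ 2 * TM = (1 + X) ^ 3 * TM ^ 2 + X := by
  have h : TM = mix TM (TM + PowerSeries.mk 1) := by
    ext i
    obtain ⟨j, rfl | rfl⟩ := par i
    · rw [mix0, TM, coeff_mk, coeff_mk]
      rcases j.eq_zero_or_pos with rfl | h
      · rfl
      · rw [Nat.digits_def' (by norm_num) (by omega), show 2 * j / 2 = j by omega]
        simp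
    · rw [mix1, TM, coeff_mk, map_add, coeff_mk, coeff_mk, Nat.digits_def' (by norm_num) (by omega),
        show (2 * j + 1) / 2 = j by omega, show (2 * j + 1) % 2 = 1 by omega]
      simp [add_comm]
  have g := mk_one_mul_one_sub_eq_one (ZMod 2)
  rw [mix, ex_sq, ex_sq] at h
  generalize (PowerSeries.mk 1 : (ZMod 2)⟦X⟧) = y at *
  linear_combination (1 + X) ^ 2 * h + X * (y * (1 - X) + 1) * g + (X * (1 + X) ^ 2 * TM * y + 2 * X ^ 2 * y ^ 2) * two0

theorem inv_co {G : (ZMod 2)⟦X⟧} (h0 : constantCoeff G = 0) (h : TM.subst G = X) (m : ℕ) :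
    ((coeff (m + 1) G).val : ℤ) = if dg ((m + 2) / 4) then 1 else 0 := by
  have hs := HasSubst.of_constantCoeff_zero' h0
  have e := congrArg (substAlgHom hs) TM_eq
  simp only [map_mul, map_add, map_pow, map_one, substAlgHom_X] at e
  rw [coe_substAlgHom, h] at e
  have e1 := S1 (K := ZMod 2)
  have e2 := S2 (K := ZMod 2) 1
  have e4 := S2 (K := ZMod 2) 2
  rw [ex_sq] at e1 e2 e4
  rw [e1, map_one, one_mul] at e2
  rw [map_one, one_mul] at e4
  have e3 : (1 + X) * S (ZMod 2) 2 ^ 3 = 1 :=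
    mul_left_cancel₀ (a := S (ZMod 2) 2) (fun z => by simpa [z] using S0 (K := ZMod 2) 2) (by linear_combination -e2)
  have e5 : S (ZMod 2) 4 ^ 3 = 1 + X := by
    rw [show S (ZMod 2) 4 = _ from e4]
    linear_combination (1 + X) * ((1 + X) * S (ZMod 2) 2 ^ 3 + 1) * e3
  have e6 : X * (1 + G) = S (ZMod 2) 4 + 1 := by
    have c := S0 (K := ZMod 2) 4
    generalize S (ZMod 2) 4 = E at *
    refine sub_eq_zero.mp ((mul_eq_zero.mp (show (X * (1 + G) - (E + 1)) * ((X * (1 + G)) ^ 2 + X * (1 + G) * (E + 1) +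
      (E + 1) ^ 2 + X * (1 + G) + (E + 1) + 1) = 0 by
        linear_combination -X * e - e5 + (X ^ 2 * (1 + G) ^ 2 - 2 * E ^ 2 - 3 * E - 2) * two0)).resolve_right fun z => ?_)
    have := congrArg constantCoeff z
    simp only [map_add, map_mul, map_pow, constantCoeff_X, c, map_one, zero_mul] at this
    exact absurd this (by decide)
  have e7 := congrArg (coeff (m + 2)) e6
  rw [coeff_succ_X_mul, map_add, map_add, coeff_one, coeff_one, if_neg (by omega), if_neg (by omega), zero_add,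
    add_zero, S, coeff_mk] at e7
  rw [e7]
  split_ifs <;> rfl

theorem det_S {G : (ZMod 2)⟦X⟧} (h0 : constantCoeff G = 0) (h : TM.subst G = X) (K : Type) [Field K] (p n : ℕ) :
    ((Matrix.of fun i j : Fin n => ((coeff (p + i + j + 1) G).val : ℤ)).det : K) = 0 ↔
      Sol (S K 4) (p + 1 + n) (p + 1 + n + n) n := by
  rw [← link, Int.cast_det]
  refine Eq.congr_left (congrArg _ ?_)
  ext i j
  simp only [Matrix.map_apply, Matrix.of_apply, inv_co h0 h, S, coeff_mk,
    show p + 1 + 1 + i + j = p + i + j + 2 by omega]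
  split_ifs <;> simp

theorem det_unit {G : (ZMod 2)⟦X⟧} (h0 : constantCoeff G = 0) (h : TM.subst G = X) (p n : ℕ) :
    (Matrix.of fun i j : Fin n => ((coeff (p + i + j + 1) G).val : ℤ)).det ∈ ({-1, 0, 1} : Set ℤ) := by
  have k := fun K [Field K] => det_S h0 h K p n
  generalize (Matrix.of fun i j : Fin n => ((coeff (p + i + j + 1) G).val : ℤ)).det = D at *
  by_cases e : D.natAbs = 1
  · simp only [Set.mem_insert_iff, Set.mem_singleton_iff]
    omega
  obtain ⟨q, hq, hd⟩ := Nat.exists_prime_and_dvd e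
  haveI := Fact.mk hq
  have := (k ℚ).mpr ((tr _ _ _ rfl).2.2 ((k (ZMod q)).mp
    ((ZMod.intCast_zmod_eq_zero_iff_dvd D q).mpr (Int.natCast_dvd.mpr hd))))
  simp [Int.cast_eq_zero.mp this]

end Pool.Agent.H27.Hank
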