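import Mathlib

/-! Even-odd splitting of Toeplitz determinants. -/

namespace Pool.Agent.H27.Hank
open Matrix

set_option maxHeartbeats 400000

def D (f : ℤ → ℤ) (l : ℤ) (n : ℕ) : ℤ := (of fun i j : Fin n => f (l + (i : ℕ) - (j : ℕ))).det

def eo {a b : ℕ} (h : a = b ∨ a = b + 1) : Fin a ⊕ Fin b ≃ Fin (a + b) where
  toFun := Sum.elim (fun i => ⟨2 * i, by omega⟩) fun j => ⟨2 * j + 1, by omega⟩
  invFun k := if h' : k.1 % 2 = 0 then .inl ⟨k / 2, by omega⟩ else .inr ⟨k / 2, by omega⟩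
  left_inv := by
    rintro (i | j)
    · simp
    · simp only [Sum.elim_inr]
      rw [dif_neg (by omega)]
      exact congrArg _ (Fin.ext (by simp only; omega))
  right_inv k := by
    dsimp only
    split_ifs <;> exact Fin.ext (by simp only [Sum.elim_inl, Sum.elim_inr]; omega)

def M (f : ℤ → ℤ) (l : ℤ) (a b : ℕ) : Matrix (Fin a) (Fin b) ℤ := of fun i j => f (l + (i : ℕ) - (j : ℕ))

theorem blk {a b : ℕ} (h : a = b ∨ a = b + 1) (f : ℤ → ℤ) (l : ℤ) :
    D f l (a + b) = (fromBlocks (M (fun t => f (2 * t + l)) 0 a a) (M (fun t => f (2 * t + l - 1)) 0 a b)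
      (M (fun t => f (2 * t + l + 1)) 0 b a) (M (fun t => f (2 * t + l)) 0 b b)).det := by
  rw [D, ← det_submatrix_equiv_self (eo h)]
  congr 1
  ext (i | i) (j | j) <;> simp only [eo, M, submatrix_apply, of_apply, Equiv.coe_fn_mk, Sum.elim_inl, Sum.elim_inr,
    fromBlocks_apply₁₁, fromBlocks_apply₁₂, fromBlocks_apply₂₁, fromBlocks_apply₂₂] <;> congr 1 <;> push_cast <;> ring

theorem rowE {m n : Type} [Fintype m] [Fintype n] [DecidableEq m] [DecidableEq n] (A : Matrix m m ℤ) (B : Matrix m n ℤ)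
    (E : Matrix n m ℤ) (G : Matrix n n ℤ) : (fromBlocks A B (E * A) G).det = A.det * (G - E * B).det := by
  rw [show fromBlocks A B (E * A) G = fromBlocks 1 0 E 1 * fromBlocks A B 0 (G - E * B) by simp [fromBlocks_multiply],
    det_mul, det_fromBlocks_zero₁₂, det_fromBlocks_zero₂₁]
  simp

theorem colE {m n : Type} [Fintype m] [Fintype n] [DecidableEq m] [DecidableEq n] (A : Matrix m m ℤ) (C : Matrix n m ℤ)
    (E : Matrix m n ℤ) (G : Matrix n n ℤ) : (fromBlocks A (A * E) C G).det = A.det * (G - C * E).det := by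
  rw [show fromBlocks A (A * E) C G = fromBlocks A 0 C (G - C * E) * fromBlocks 1 E 0 1 by simp [fromBlocks_multiply],
    det_mul, det_fromBlocks_zero₁₂, det_fromBlocks_zero₂₁]
  simp

def P (a b : ℕ) : Matrix (Fin a) (Fin b) ℤ := of fun i j => if i.1 = j.1 then 1 else 0

theorem PM {a b c : ℕ} (h : b ≤ a) (f : ℤ → ℤ) (l : ℤ) : P b a * M f l a c = M f l b c := by
  ext i j
  rw [mul_apply, Finset.sum_eq_single (Fin.castLE h i)]
  · simp [P, M]
  · intro k _ hk
    simp [P, show i.1 ≠ k.1 from fun e => hk (Fin.ext e.symm)]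
  · simp

theorem MP {a b c : ℕ} (h : b ≤ a) (f : ℤ → ℤ) (l : ℤ) : M f l c a * P a b = M f l c b := by
  ext i j
  rw [mul_apply, Finset.sum_eq_single (Fin.castLE h j)]
  · simp [P, M]
  · intro k _ hk
    simp [P, show k.1 ≠ j.1 from fun e => hk (Fin.ext e)]
  · simp

theorem Mc {f g : ℤ → ℤ} {l : ℤ} (s : ℤ) (a b : ℕ) (h : ∀ t, f t = s * g (l + t)) : M f 0 a b = s • M g l a b := by
  ext i j
  simp only [M, of_apply, Matrix.smul_apply, smul_eq_mul, h, zero_add, add_sub_assoc]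

section
variable {f h g : ℤ → ℤ} {s : ℤ} (h0 : ∀ t, f (2 * t) = h t) (h1 : ∀ t, f (2 * t + 1) = s * h t)
include h0 h1

theorem De (hg : ∀ t, g t = h t - s * s * h (t - 1)) {a b : ℕ} (H : a = b ∨ a = b + 1) (l : ℤ) :
    D f (2 * l) (a + b) = D h l a * D g l b := by
  have e0 : ∀ t, f (2 * t + 2 * l) = 1 * h (l + t) := fun t => by rw [one_mul, ← h0]; congr 1; ring
  rw [blk H, Mc 1 a a e0, Mc 1 b b e0, Mc (g := h) (l := l) s b a fun t => by rw [← h1]; congr 1; ring,
    Mc (g := h) (l := l - 1) s a b fun t => by rw [← h1]; congr 1; ring, one_smul, one_smul,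
    ← PM (by omega : b ≤ a) h l (c := a), ← Matrix.smul_mul, rowE, Matrix.smul_mul, Matrix.mul_smul, PM (by omega)]
  congr 2
  ext i j
  simp only [M, Matrix.sub_apply, Matrix.smul_apply, of_apply, smul_eq_mul, hg]
  rw [show l - 1 + (i : ℕ) - (j : ℕ) = l + (i : ℕ) - (j : ℕ) - 1 by ring]
  ring

theorem Db {a b : ℕ} (H : a = b ∨ a = b + 1) (l : ℤ) : D f (2 * l + 1) (a + b) =
    (fromBlocks (s • M h l a a) (M h l a b) (M h (l + 1) b a) (s • M h l b b)).det := by
  have e0 : ∀ t, f (2 * t + (2 * l + 1)) = s * h (l + t) := fun t => by rw [← h1]; congr 1; ring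
  rw [blk H, Mc s a a e0, Mc s b b e0, Mc (g := h) (l := l + 1) 1 b a fun t => by rw [one_mul, ← h0]; congr 1; ring,
    Mc (g := h) (l := l) 1 a b fun t => by rw [one_mul, ← h0]; congr 1; ring, one_smul, one_smul]

theorem Do (hs : s * s = 1) (hg : ∀ t, g t = h t - h (t - 1)) {a b : ℕ} (H : a = b ∨ a = b + 1) (l : ℤ) :
    D f (2 * l + 1) (a + b) = s ^ a * (-s) ^ b * D h l a * D g (l + 1) b := by
  rw [Db h0 h1 H, show M h l a b = (s • M h l a a) * (s • P a b) by
    rw [Matrix.smul_mul, Matrix.mul_smul, MP (by omega), smul_smul, hs, one_smul], colE, Matrix.mul_smul, MP (by omega),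
    show s • M h l b b - s • M h (l + 1) b b = (-s) • M g (l + 1) b b by
      ext i j
      simp only [M, Matrix.sub_apply, Matrix.smul_apply, of_apply, smul_eq_mul, hg]
      rw [show l + 1 + (i : ℕ) - (j : ℕ) - 1 = l + (i : ℕ) - (j : ℕ) by ring]
      ring, det_smul, det_smul, Fintype.card_fin, Fintype.card_fin]
  simp only [D, M]
  ring

theorem Dz (hs : s = 0) (b : ℕ) (l : ℤ) : D f (2 * l + 1) (b + b) = (-1) ^ b * D h l b * D h (l + 1) b := by
  have e := colE (M h l b b) (M h (l + 1) b b) 1 0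
  rw [show fromBlocks (M h l b b) (M h l b b * 1) (M h (l + 1) b b) 0 =
    fromBlocks 0 (M h l b b) (M h (l + 1) b b) 0 * fromBlocks 1 0 1 1 by simp [fromBlocks_multiply],
    det_mul, det_fromBlocks_zero₁₂, Matrix.mul_one, zero_sub, det_neg, Fintype.card_fin] at e
  rw [Db h0 h1 (.inl rfl), hs, zero_smul]
  simp only [D, M, det_one, mul_one] at e ⊢
  rw [e]
  ring

theorem Dy (hs : s = 0) (b : ℕ) (l : ℤ) : D f (2 * l + 1) (b + 1 + b) = 0 := by
  rw [Db h0 h1 (.inr rfl), hs, zero_smul, zero_smul]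
  have e := congrArg det (show fromBlocks 1 0 0 (-1) * fromBlocks 0 (M h l (b + 1) b) (M h (l + 1) b (b + 1)) 0 *
    fromBlocks 1 0 0 (-1) = -fromBlocks 0 (M h l (b + 1) b) (M h (l + 1) b (b + 1)) 0 by simp [fromBlocks_multiply, fromBlocks_neg])
  rw [det_mul, det_mul, det_fromBlocks_zero₁₂, det_neg, det_neg, Fintype.card_sum, Fintype.card_fin, Fintype.card_fin,
    det_one, det_one, pow_add, pow_add] at e
  have : ((-1 : ℤ) ^ b) * (-1) ^ b = 1 := by rw [← mul_pow]; simp
  generalize (fromBlocks 0 (M h l (b + 1) b) (M h (l + 1) b (b + 1)) 0).det = x at *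
  have : 2 * x = 0 := by linear_combination e - 2 * x * this
  omega

end

end Pool.Agent.H27.Hank
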