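import Pool.Agent.H27.HankC
import Pool.Agent.H27.HankD

/-! Closed forms for a family of Toeplitz determinants attached to the inverse Thue-Morse series. -/

namespace Pool.Agent.H27.Hank
open Matrix

set_option maxHeartbeats 400000

def d (z : ℤ) : ℤ := if 0 ≤ z ∧ dg z.toNat then 1 else 0
def m (z : ℤ) : ℤ := d (z / 2)
def q (z : ℤ) : ℤ := m (z / 2)
def u (z : ℤ) : ℤ := d z - d (z - 1)
def v (z : ℤ) : ℤ := m z - m (z - 1)

theorem d0 (t : ℤ) : d (2 * t) = m t := by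
  rw [m, d, d]
  refine if_congr (and_congr (by omega) ?_) rfl rfl
  rw [dg_iff, show (2 * t).toNat / 4 = (t / 2).toNat by omega]
  exact and_iff_right (by omega)

theorem d1 (t : ℤ) : d (2 * t + 1) = 0 * m t := by
  rw [d, if_neg (by rw [dg_iff]; omega), zero_mul]

theorem m0 (t : ℤ) : m (2 * t) = d t := by rw [m, show 2 * t / 2 = t by omega]
theorem m1 (t : ℤ) : m (2 * t + 1) = 1 * d t := by rw [m, show (2 * t + 1) / 2 = t by omega, one_mul]
theorem q0 (t : ℤ) : q (2 * t) = m t := by rw [q, show 2 * t / 2 = t by omega]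
theorem q1 (t : ℤ) : q (2 * t + 1) = 1 * m t := by rw [q, show (2 * t + 1) / 2 = t by omega, one_mul]
theorem u0 (t : ℤ) : u (2 * t) = m t := by rw [u, d0, show 2 * t - 1 = 2 * (t - 1) + 1 by ring, d1]; ring
theorem u1 (t : ℤ) : u (2 * t + 1) = -1 * m t := by rw [u, d1, add_sub_cancel_right, d0]; ring
theorem v0 (t : ℤ) : v (2 * t) = u t := by rw [v, m0, show 2 * t - 1 = 2 * (t - 1) + 1 by ring, m1, u]; ring
theorem v1 (t : ℤ) : v (2 * t + 1) = 0 * u t := by rw [v, m1, add_sub_cancel_right, m0]; ring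
theorem dd (t : ℤ) : d t * d t = d t := by rw [d]; split_ifs <;> rfl
theorem mm (t : ℤ) : m t * m t = m t := dd _

theorem dj (j : ℕ) : (-1) ^ j * d j = d j ∧ d j * q j = d j ∧ d j * q (j + 1) = d j ∧ d j * d (j + 1) = 0 := by
  obtain ⟨i, rfl | rfl⟩ := par j <;> push_cast
  · rw [d0, q0, q1, d1, pow_mul]
    simp [mm]
  · simp [d1]

def A (k : ℕ) : Prop := D d (2 * k) k = m k ∧ D d (2 * k) (k + 1) = m k ∧ D d (2 * k + 1) (k + 1) = 0 ∧
  D m (2 * k) k = d k ∧ D m (2 * k) (k + 1) = d k ∧ D m (2 * k + 1) k = d k ∧ D m (2 * k + 1) (k + 1) = d k ∧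
  D u (2 * k) k = m k ∧ D u (2 * k + 1) k = (-1) ^ k * m k ∧ D u (2 * k + 1) (k + 1) = -(-1) ^ k * m k ∧
  D u (2 * k + 1 + 1) k = m (k + 1) ∧ D v (2 * k) k = (-1) ^ k * q k ∧ D v (2 * k + 1) k = d k ∧
  D v (2 * k + 1 + 1) k = q (k + 1) ∧ D q (2 * k + 1) k = m k

theorem ed {a b : ℕ} (H : a = b ∨ a = b + 1) (l : ℤ) : D d (2 * l) (a + b) = D m l a * D m l b :=
  De d0 d1 (fun _ => by ring) H l
theorem em {a b : ℕ} (H : a = b ∨ a = b + 1) (l : ℤ) : D m (2 * l) (a + b) = D d l a * D u l b :=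
  De m0 m1 (fun _ => by rw [u]; ring) H l
theorem eu {a b : ℕ} (H : a = b ∨ a = b + 1) (l : ℤ) : D u (2 * l) (a + b) = D m l a * D v l b :=
  De u0 u1 (fun _ => by rw [v]; ring) H l
theorem ev' {a b : ℕ} (H : a = b ∨ a = b + 1) (l : ℤ) : D v (2 * l) (a + b) = D u l a * D u l b :=
  De v0 v1 (fun _ => by ring) H l
theorem om {a b : ℕ} (H : a = b ∨ a = b + 1) (l : ℤ) : D m (2 * l + 1) (a + b) = (-1) ^ b * D d l a * D u (l + 1) b := by
  rw [Do m0 m1 (by simp) (fun _ => rfl) H l, one_pow, one_mul]; rfl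
theorem oq {a b : ℕ} (H : a = b ∨ a = b + 1) (l : ℤ) : D q (2 * l + 1) (a + b) = (-1) ^ b * D m l a * D v (l + 1) b := by
  rw [Do q0 q1 (by simp) (fun _ => rfl) H l, one_pow, one_mul]; rfl
theorem ou {a b : ℕ} (H : a = b ∨ a = b + 1) (l : ℤ) : D u (2 * l + 1) (a + b) = (-1) ^ a * D m l a * D v (l + 1) b := by
  rw [Do u0 u1 (by simp) (fun _ => rfl) H l, neg_neg, one_pow, mul_one]; rfl

theorem Aev {j : ℕ} (h : A j) : A (j + j) := by
  obtain ⟨h1, h2, h3, h4, h5, h6, h7, h8, h9, h10, h11, h12, h13, h14, -⟩ := h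
  obtain ⟨e1, e2, e3, e4⟩ := dj j
  have e5 := dd j
  have e6 := mm j
  have e7 : ((-1 : ℤ) ^ j) * (-1) ^ j = 1 := by rw [← mul_pow]; simp
  rw [A, show ((j + j : ℕ) : ℤ) = 2 * j by push_cast; ring, show j + j + 1 = j + 1 + j by ring,
    show 2 * (2 * (j : ℤ)) + 1 + 1 = 2 * (2 * j + 1) by ring, pow_add, e7, d0, m0, q0, m1, q1]
  simp only [ed (.inl rfl), ed (.inr rfl), em (.inl rfl), em (.inr rfl), eu (.inl rfl), eu (.inr rfl), ev' (.inl rfl),
    om (.inl rfl), om (.inr rfl), ou (.inl rfl), ou (.inr rfl), oq (.inl rfl), Dy d0 d1 rfl, Dz v0 v1 rfl,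
    h1, h2, h3, h4, h5, h6, h7, h8, h9, h10, h11, h12, h13, h14, pow_succ]
  refine ⟨?_, ?_, ?_, ?_, ?_, ?_, ?_, ?_, ?_, ?_, ?_, ?_, ?_, ?_, ?_⟩ <;> grind

theorem Aod {j : ℕ} (h : A j) (g1 : D m (2 * j + 1 + 1) (j + 1) = d (j + 1))
    (g2 : D u (2 * j + 1 + 1) (j + 1) = m (j + 1)) (g3 : D v (2 * j + 1 + 1) (j + 1) = (-1) ^ (j + 1) * q (j + 1)) :
    A (j + 1 + j) := by
  obtain ⟨h1, h2, h3, h4, h5, h6, h7, h8, h9, h10, h11, h12, h13, h14, -⟩ := h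
  obtain ⟨e1, e2, e3, e4⟩ := dj j
  obtain ⟨-, e8, -⟩ := dj (j + 1)
  have e5 := dd j
  have e6 := mm j
  have e9 := mm (j + 1)
  have e7 : ((-1 : ℤ) ^ j) * (-1) ^ j = 1 := by rw [← mul_pow]; simp
  push_cast at e8
  rw [A, show ((j + 1 + j : ℕ) : ℤ) = 2 * j + 1 by push_cast; ring, show j + 1 + j + 1 = j + 1 + (j + 1) by ring,
    show 2 * (2 * (j : ℤ) + 1) + 1 + 1 = 2 * (2 * j + 1 + 1) by ring, pow_add, pow_succ, d1, m1, q1,
    show m (2 * j + 1 + 1) = d (j + 1) by rw [← m0]; congr 1,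
    show q (2 * j + 1 + 1) = m (j + 1) by rw [← q0]; congr 1]
  simp only [ed (.inl rfl), ed (.inr rfl), em (.inl rfl), em (.inr rfl), eu (.inl rfl), eu (.inr rfl), ev' (.inr rfl),
    om (.inl rfl), om (.inr rfl), ou (.inl rfl), ou (.inr rfl), oq (.inr rfl), Dz d0 d1 rfl, Dy v0 v1 rfl,
    h1, h2, h3, h4, h5, h6, h7, h8, h9, h10, h11, h12, h13, h14, g1, g2, g3, pow_succ]
  refine ⟨?_, ?_, ?_, ?_, ?_, ?_, ?_, ?_, ?_, ?_, ?_, ?_, ?_, ?_, ?_⟩ <;> grind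

theorem all (k : ℕ) : A k := by
  have z0 : d 0 = 1 := by simp [d, dg]
  have z1 : d 1 = 0 := by simpa using d1 0
  have zn : d (-1) = 0 := by simp [d]
  have z2 : d 2 = 1 := by simpa [m, z0] using d0 1
  induction k using Nat.strong_induction_on with
  | _ k ih =>
    obtain ⟨j, rfl | rfl⟩ := par k
    · rcases j.eq_zero_or_pos with rfl | h
      · simp [A, D, m, q, u, v, z0, z1, zn]
      · rw [two_mul]
        exact Aev (ih _ (by omega))
    · rw [show 2 * j + 1 = j + 1 + j by ring]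
      rcases j.eq_zero_or_pos with rfl | h
      · refine Aod (ih _ (by omega)) ?_ ?_ ?_ <;> norm_num [D, m, q, u, v, z0, z1, z2] <;> simp
      · obtain ⟨-, -, -, h4, -, -, -, h8, -, -, -, h12, -⟩ := ih (j + 1) (by omega)
        push_cast at h4 h8 h12
        rw [show 2 * ((j : ℤ) + 1) = 2 * j + 1 + 1 by ring] at h4 h8 h12
        exact Aod (ih _ (by omega)) h4 h8 h12

end Pool.Agent.H27.Hank
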