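import Pool.Agent.H27.HankD

/-! Rank one perturbations of block determinants. -/

namespace Pool.Agent.H27.Hank
open Matrix

set_option maxHeartbeats 400000

def J (a b : ℕ) : Matrix (Fin a) (Fin b) ℤ := of fun _ _ => 1

theorem radd {n : Type} [Fintype n] [DecidableEq n] (T : Matrix n n ℤ) (u u' : n → ℤ) :
    (T + of fun i _ => u i + u' i).det = (T + of fun i _ => u i).det + (T + of fun i _ => u' i).det - T.det := by
  have e : ∀ u : n → ℤ, (T + of fun i _ => u i).det =
      (updateCol (fromBlocks T 0 (of fun _ _ => -1) (1 : Matrix Unit Unit ℤ)) (.inr ()) (Sum.elim u 1)).det := fun u => by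
    rw [show updateCol (fromBlocks T 0 (of fun _ _ => -1) (1 : Matrix Unit Unit ℤ)) (.inr ()) (Sum.elim u 1) =
      fromBlocks T (of fun i _ => u i) (of fun _ _ => -1) 1 by ext (i | i) (j | j) <;> simp [updateCol_apply],
      det_fromBlocks_one₂₂]
    congr 1
    ext i j
    simp [mul_apply]
  have e0 := e 0
  rw [show T + (of fun i _ => (0 : n → ℤ) i) = T by ext; simp] at e0
  rw [e0, e u, e u', e fun i => u i + u' i, eq_sub_iff_add_eq, ← det_updateCol_add, ← det_updateCol_add]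
  congr 2
  ext (i | i) <;> simp

theorem gp {a b : ℕ} (A : Matrix (Fin a) (Fin a) ℤ) (G : Matrix (Fin b) (Fin b) ℤ) (c : ℤ) :
    (fromBlocks (A + c • J a a) (c • J a b) (c • J b a) (G + c • J b b)).det =
      (A + c • J a a).det * G.det + A.det * (G + c • J b b).det - A.det * G.det := by
  rw [← det_fromBlocks_zero₂₁ _ (c • J a b), ← det_fromBlocks_zero₁₂ _ (c • J b a), ← det_fromBlocks_zero₂₁ _ 0]
  convert radd (fromBlocks A 0 0 G) (Sum.elim (fun _ => c) 0) (Sum.elim 0 fun _ => c) using 4 <;>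
    ext (i | i) (j | j) <;> simp [J]

theorem dif {b : ℕ} (B : Matrix (Fin (b + 1)) (Fin b) ℤ) :
    (of fun i => Fin.cons 1 (B i) : Matrix (Fin (b + 1)) (Fin (b + 1)) ℤ).det =
      (of fun (i : Fin b) j => B i.succ j - B i.castSucc j).det := by
  refine (det_eq_of_forall_row_eq_smul_add_pred (B := of (Fin.cons (Fin.cons 1 (B 0))
    fun i => Fin.cons 0 fun j => B i.succ j - B i.castSucc j)) (fun _ => 1) (fun j => by rfl)
    fun i j => by refine Fin.cases ?_ (fun j => ?_) j <;> simp).trans ?_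
  rw [det_succ_column_zero, Fin.sum_univ_succ]
  simp
  rfl

def Q (b : ℕ) : Matrix (Fin (b + 1)) (Fin b) ℤ := of fun i j => if i = j.succ then 1 else 0

theorem odo {b : ℕ} (B : Matrix (Fin (b + 1)) (Fin b) ℤ) (C : Matrix (Fin b) (Fin (b + 1)) ℤ) (X : Matrix (Fin b) (Fin b) ℤ)
    (c : ℤ) : (fromBlocks (c • J _ _) B C X).det = c * (-1) ^ b * (of fun (i : Fin b) j => B i.succ j - B i.castSucc j).det *
      (of fun (i : Fin b) j => C j i.succ - C j i.castSucc).det := by
  rw [← dif B, show (of fun (i : Fin b) j => C j i.succ - C j i.castSucc).det = _ from (dif Cᵀ).symm]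
  set Y : Matrix (Fin (b + 1)) (Fin (b + 1)) ℤ := of fun i => Fin.cons 1 (B i)
  set Y' : Matrix (Fin (b + 1)) (Fin (b + 1)) ℤ := of fun i => Fin.cons 1 (Cᵀ i)
  set G : Matrix (Fin (b + 1)) (Fin (b + 1)) ℤ := diagonal (Fin.cons c 1)
  have h1 : Y * Q b = B := by ext i j; simp [Y, Q, mul_apply]
  have h2 : (Q b)ᵀ * Y'ᵀ = C := by ext i j; simp [Y', Q, mul_apply]
  have h3 : (Q b)ᵀ * Q b = 1 := by ext i j; simp [Q, mul_apply, one_apply, eq_comm]
  have h4 : G * Q b = Q b := by
    ext i j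
    refine Fin.cases ?_ (fun i => ?_) i <;> simp [G, Q, (Fin.succ_ne_zero j).symm]
  have h5 : Y * G * Y'ᵀ = c • J _ _ + B * C := by
    ext i j
    rw [mul_apply]
    simp only [G, mul_diagonal]
    simp [Y, Y', J, mul_apply, Fin.sum_univ_succ]
  have e := colE G ((Q b)ᵀ + X * (Q b)ᵀ) (Q b) X
  rw [h4, Matrix.add_mul, Matrix.mul_assoc, h3, show X - (1 + X * 1) = -1 by simp, det_neg, det_one, Fintype.card_fin,
    show G.det = c by simp [G, Fin.prod_univ_succ]] at e
  rw [show fromBlocks (c • J _ _) B C X = fromBlocks Y 0 0 1 * (fromBlocks G (Q b) ((Q b)ᵀ + X * (Q b)ᵀ) X *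
    fromBlocks 1 0 (-(Q b)ᵀ) 1) * fromBlocks Y'ᵀ 0 0 1 by
      simp only [fromBlocks_multiply, Matrix.mul_one, Matrix.mul_zero, Matrix.zero_mul, Matrix.one_mul, add_zero, zero_add,
        Matrix.mul_neg, add_neg_cancel_right, h1, h2, Matrix.mul_add, Matrix.add_mul, h5, ← Matrix.mul_assoc, Matrix.neg_mul]
      rw [Matrix.mul_assoc B, h2, add_neg_cancel_right, neg_zero, zero_add],
    det_mul, det_mul, det_mul, e, det_fromBlocks_zero₁₂, det_fromBlocks_zero₁₂, det_fromBlocks_zero₁₂]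
  simp only [det_one, det_transpose]
  ring

theorem MQ {b c : ℕ} (f : ℤ → ℤ) (l : ℤ) : M f l c (b + 1) * Q b = M f (l - 1) c b := by
  ext i j
  simp [M, Q, mul_apply]
  ring_nf

theorem MJ (f : ℤ → ℤ) (l c : ℤ) (a b : ℕ) : M f l a b + c • J a b = M (fun z => f z + c) l a b := by
  ext; simp [M, J]

theorem JM (l : ℤ) (a b : ℕ) : J a b = M (fun _ => 1) l a b := rfl

theorem Ml {f g : ℤ → ℤ} {l l' : ℤ} (a b : ℕ) (h : ∀ t : ℤ, -b < t → f (l + t) = g (l' + t)) : M f l a b = M g l' a b := by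
  ext i j
  simp only [M, of_apply, add_sub_assoc]
  exact h _ (by omega)

end Pool.Agent.H27.Hank
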