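import Pool.Agent.H27.HankF

/-! Polynomial recurrences for Toeplitz determinants built from the binary digit sum. -/

namespace Pool.Agent.H27.Hank
open Matrix

set_option maxHeartbeats 400000

def sd (z : ℤ) : ℤ := ((Nat.digits 2 z.toNat).sum : ℕ)
def K (z : ℤ) : ℤ := sd z - sd (z - 1) - 2
def N (z : ℤ) : ℤ := K z - K (z - 1)

theorem s0 {t z : ℤ} (h : 0 ≤ t) (e : z = 2 * t) : sd z = sd t := by
  obtain ⟨j, rfl⟩ := Int.eq_ofNat_of_zero_le h
  rw [sd, sd, show z.toNat = 2 * j by omega, Int.toNat_natCast]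
  rcases j.eq_zero_or_pos with rfl | h
  · rfl
  · rw [Nat.digits_def' (by norm_num) (by omega), show 2 * j / 2 = j by omega]
    simp

theorem s1 {t z : ℤ} (h : 0 ≤ t) (e : z = 2 * t + 1) : sd z = sd t + 1 := by
  obtain ⟨j, rfl⟩ := Int.eq_ofNat_of_zero_le h
  rw [sd, sd, show z.toNat = 2 * j + 1 by omega, Int.toNat_natCast, Nat.digits_def' (by norm_num) (by omega),
    show (2 * j + 1) / 2 = j by omega, show (2 * j + 1) % 2 = 1 by omega]
  simp [add_comm]

theorem K0 {t z : ℤ} (h : 0 < t) (e : z = 2 * t) : K z = K t - 1 := by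
  rw [K, K, s0 h.le e, s1 (t := t - 1) (z := z - 1) (by omega) (by omega)]; ring

theorem K1 {t z : ℤ} (h : 0 ≤ t) (e : z = 2 * t + 1) : K z = -1 := by
  rw [K, s1 h e, s0 (t := t) (z := z - 1) h (by omega)]; ring

def x (c : ℤ) (n : ℕ) : ℤ := (M (fun z => K z + c) n n n).det
def h (c : ℤ) (n : ℕ) : ℤ := (M (fun z => sd z + c) (n - 1) n n).det
def y (n : ℕ) : ℤ := (M N (n + 1) n n).det

theorem x00 (n : ℕ) : (M K n n n).det = x 0 n := by simp [x]

theorem aff (f : ℤ → ℤ) (l : ℤ) (n : ℕ) : (M (fun z => f z + -2) l n n).det =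
    2 * (M (fun z => f z + -1) l n n).det - (M (fun z => f z + 0) l n n).det := by
  rw [two_mul]
  convert radd (M (fun z => f z + 0) l n n) (fun _ => -1) (fun _ => -1) using 4 <;> ext <;> simp [M]

theorem hx0 (c : ℤ) (b : ℕ) : x c (b + b) = 2 * x (c - 1) b * x 0 b - x 0 b ^ 2 := by
  have e : M (fun t => K (2 * t + ((b + b : ℕ) : ℤ)) + c) 0 b b = M K b b b + (c - 1) • J b b := by
    rw [MJ]
    exact Ml _ _ fun t ht => by rw [K0 (t := b + t) (by omega) (by push_cast; ring)]; ring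
  have e' : ∀ k : ℤ, k = 1 ∨ k = -1 → M (fun t => K (2 * t + ((b + b : ℕ) : ℤ) + k) + c) 0 b b = (c - 1) • J b b := by
    intro k hk
    rw [← zero_add ((c - 1) • J b b), show (0 : Matrix (Fin b) (Fin b) ℤ) = M (fun _ => 0) 0 b b from rfl, MJ]
    exact Ml _ _ fun t ht => by rw [K1 (t := b + t + (k - 1) / 2) (by omega) (by push_cast; omega)]; ring
  refine (blk (.inl rfl) (fun z => K z + c) (b + b : ℕ)).trans ?_
  simp only [sub_eq_add_neg (_ : ℤ) 1] at *
  rw [e, e' 1 (.inl rfl), e' (-1) (.inr rfl), gp, MJ, x00, ← x]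
  ring

theorem hx1 (c : ℤ) (b : ℕ) : x c (b + 1 + b) = (c - 1) * y b ^ 2 := by
  refine (blk (.inr rfl) (fun z => K z + c) (b + 1 + b : ℕ)).trans ?_
  rw [show M (fun t => K (2 * t + ((b + 1 + b : ℕ) : ℤ)) + c) 0 (b + 1) (b + 1) = (c - 1) • J _ _ by
      rw [← zero_add ((c - 1) • J _ _), show (0 : Matrix (Fin (b + 1)) (Fin (b + 1)) ℤ) = M (fun _ => 0) 0 _ _ from rfl, MJ]
      exact Ml _ _ fun t ht => by rw [K1 (t := b + t) (by omega) (by push_cast; omega)]; ring,
    Ml (g := fun z => K z + (c - 1)) (l' := b) (b + 1) b fun t ht => by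
      rw [K0 (t := b + t) (by omega) (by push_cast; omega)]; ring,
    Ml (g := fun z => K z + (c - 1)) (l' := b + 1) b (b + 1) fun t ht => by
      rw [K0 (t := b + 1 + t) (by omega) (by push_cast; omega)]; ring, odo,
    show (of fun (i : Fin b) j => M (fun z => K z + (c - 1)) b (b + 1) b i.succ j -
      M (fun z => K z + (c - 1)) b (b + 1) b i.castSucc j) = M N (b + 1) b b by
        ext i j; simp [M, N]; ring_nf,
    show (of fun (i : Fin b) j => M (fun z => K z + (c - 1)) (b + 1) b (b + 1) j i.succ -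
      M (fun z => K z + (c - 1)) (b + 1) b (b + 1) j i.castSucc) = -(M N (b + 1) b b)ᵀ by
        ext i j; simp [M, N]; ring_nf, det_neg, det_transpose, Fintype.card_fin, y]
  have e7 : ((-1 : ℤ) ^ b) * (-1) ^ b = 1 := by rw [← mul_pow]; simp
  linear_combination (c - 1) * (M N (b + 1) b b).det ^ 2 * e7

def N' (z : ℤ) : ℤ := if z % 2 = 0 then K (z / 2) else -K (z / 2)

theorem yN (n : ℕ) : y n = D N' (n + 1) n :=
  congrArg det (Ml _ _ fun t ht => by
    rw [N, N']
    split_ifs with e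
    · rw [K0 (z := n + 1 + t) (t := (n + 1 + t) / 2) (by omega) (by omega), 
        K1 (z := n + 1 + t - 1) (t := (n + 1 + t) / 2 - 1) (by omega) (by omega)]; ring
    · rw [K1 (z := n + 1 + t) (t := (n + 1 + t) / 2) (by omega) (by omega),
        K0 (z := n + 1 + t - 1) (t := (n + 1 + t) / 2) (by omega) (by omega)]
      ring)

theorem N0 (t : ℤ) : N' (2 * t) = K t := by rw [N', if_pos (by omega), show 2 * t / 2 = t by omega]
theorem N1 (t : ℤ) : N' (2 * t + 1) = -1 * K t := by rw [N', if_neg (by omega), show (2 * t + 1) / 2 = t by omega]; ring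

theorem hy0 (b : ℕ) : y (b + b) = (-1) ^ b * x 0 b * y b := by
  rw [yN, show ((b + b : ℕ) : ℤ) = 2 * b by push_cast; ring, Do N0 N1 (by simp) (fun _ => rfl) (.inl rfl), ← x00,
    neg_neg, one_pow, mul_one]
  rfl

theorem hy1 (b : ℕ) : y (b + 1 + b) = x 0 (b + 1) * y b := by
  rw [yN, show ((b + 1 + b : ℕ) : ℤ) + 1 = 2 * (b + 1) by push_cast; ring,
    De (g := N) N0 N1 (fun _ => by rw [N]; ring) (.inr rfl), ← x00]
  rfl

theorem cp (c : ℤ) (a b : ℕ) : (fromBlocks (M (fun z => sd z + c) (a - 1) a a) (J a b) (J b a) (M K b b b)).det =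
    h c a * x (-1) b + h (c - 1) a * x 0 b - h (c - 1) a * x (-1) b := by
  have e := gp (M (fun z => sd z + (c - 1)) (a - 1) a a) (M (fun z => K z + -1) b b b) 1
  rw [MJ, MJ, one_smul, one_smul] at e
  simp only [add_assoc, sub_add_cancel, neg_add_cancel, add_zero] at e
  rw [e, x00]
  rfl

theorem hh0 (c : ℤ) (b : ℕ) : h c (b + b) =
    (-1) ^ b * (h c b * x (-1) b + h (c - 1) b * x 0 b - h (c - 1) b * x (-1) b) := by
  refine (blk (.inl rfl) (fun z => sd z + c) ((b + b : ℕ) - 1)).trans ?_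
  rw [← cp, Ml (g := fun z => sd z + c + 1) (l' := b - 1) b b fun t ht => by
      rw [s1 (t := b - 1 + t) (by omega) (by push_cast; omega)]; ring,
    Ml (f := fun t => sd (2 * t + (((b + b : ℕ) : ℤ) - 1) - 1) + c) (g := fun z => sd z + c) (l' := b - 1) b b fun t ht => by
      rw [s0 (t := b - 1 + t) (by omega) (by push_cast; omega)],
    Ml (f := fun t => sd (2 * t + (((b + b : ℕ) : ℤ) - 1) + 1) + c) (g := fun z => sd z + c) (l' := b) b b fun t ht => by
      rw [s0 (t := b + t) (by omega) (by push_cast; omega)],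
    show fromBlocks (M (fun z => sd z + c + 1) (b - 1) b b) (M (fun z => sd z + c) (b - 1) b b) (M (fun z => sd z + c) b b b)
      (M (fun z => sd z + c + 1) (b - 1) b b) = fromBlocks 1 0 1 1 * fromBlocks (M (fun z => sd z + c) (b - 1) b b) (J b b)
        (J b b) (M K b b b) * fromBlocks 1 0 0 (-1) * fromBlocks 1 0 (-1) 1 * fromBlocks 1 1 0 1 by
      simp only [fromBlocks_multiply, Matrix.mul_one, Matrix.mul_zero, Matrix.one_mul, Matrix.zero_mul, add_zero, zero_add,
        Matrix.mul_neg]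
      congr 1 <;> ext i j <;> simp [M, J, K] <;> ring_nf]
  simp only [det_mul, det_fromBlocks_zero₁₂, det_fromBlocks_zero₂₁, det_one, det_neg, Fintype.card_fin]
  ring

theorem hh1 (c : ℤ) (b : ℕ) : h c (b + 1 + b) =
    h c (b + 1) * x (-1) b + h (c - 1) (b + 1) * x 0 b - h (c - 1) (b + 1) * x (-1) b := by
  refine (blk (.inr rfl) (fun z => sd z + c) ((b + 1 + b : ℕ) - 1)).trans ?_
  have e : ∀ a ≤ b + 1, M (fun t => sd (2 * t + (((b + 1 + b : ℕ) : ℤ) - 1)) + c) 0 a a = M (fun z => sd z + c) b a a :=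
    fun a ha => Ml _ _ fun t ht => by rw [s0 (t := b + t) (by omega) (by push_cast; omega)]
  rw [← cp, e _ le_rfl, e _ b.le_succ,
    Ml (f := fun t => sd (2 * t + (((b + 1 + b : ℕ) : ℤ) - 1) - 1) + c) (g := fun z => sd z + c + 1) (l' := b - 1) (b + 1) b
      fun t ht => by rw [s1 (t := b - 1 + t) (by omega) (by push_cast; omega)]; ring,
    Ml (f := fun t => sd (2 * t + (((b + 1 + b : ℕ) : ℤ) - 1) + 1) + c) (g := fun z => sd z + c + 1) (l' := b) b (b + 1)
      fun t ht => by rw [s1 (t := b + t) (by omega) (by push_cast; omega)]; ring,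
    show ((b + 1 : ℕ) : ℤ) - 1 = b by push_cast; ring,
    show fromBlocks (M (fun z => sd z + c) b (b + 1) (b + 1)) (M (fun z => sd z + c + 1) (b - 1) (b + 1) b)
      (M (fun z => sd z + c + 1) b b (b + 1)) (M (fun z => sd z + c) b b b) = fromBlocks 1 0 (P b (b + 1)) 1 *
        fromBlocks (M (fun z => sd z + c) b (b + 1) (b + 1)) (J _ _) (J _ _) (M K b b b) * fromBlocks 1 (Q b) 0 1 by
      simp only [fromBlocks_multiply, Matrix.mul_one, Matrix.mul_zero, Matrix.one_mul, Matrix.zero_mul, add_zero, zero_add,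
        Matrix.add_mul, JM 0, PM b.le_succ, MQ]
      congr 1 <;> ext i j <;> simp [M, K] <;> ring_nf]
  simp only [det_mul, det_fromBlocks_zero₁₂, det_fromBlocks_zero₂₁, det_one]
  ring

end Pool.Agent.H27.Hank
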