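import Pool.Agent.H27.HankD

/-! Even-odd splitting of complex Toeplitz determinants. -/

namespace Pool.Agent.H27.HankR
open Matrix

set_option maxHeartbeats 400000

noncomputable def D (f : ℤ → ℂ) (l : ℤ) (n : ℕ) : ℂ := (of fun i j : Fin n => f (l + (i : ℕ) - (j : ℕ))).det

noncomputable def M (f : ℤ → ℂ) (l : ℤ) (a b : ℕ) : Matrix (Fin a) (Fin b) ℂ := of fun i j => f (l + (i : ℕ) - (j : ℕ))

theorem blk {a b : ℕ} (h : a = b ∨ a = b + 1) (f : ℤ → ℂ) (l : ℤ) :
    D f l (a + b) = (fromBlocks (M (fun t => f (2 * t + l)) 0 a a) (M (fun t => f (2 * t + l - 1)) 0 a b)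
      (M (fun t => f (2 * t + l + 1)) 0 b a) (M (fun t => f (2 * t + l)) 0 b b)).det := by
  rw [D, ← det_submatrix_equiv_self (Hank.eo h)]
  congr 1
  ext (i | i) (j | j) <;> simp only [Hank.eo, M, submatrix_apply, of_apply, Equiv.coe_fn_mk, Sum.elim_inl, Sum.elim_inr,
    fromBlocks_apply₁₁, fromBlocks_apply₁₂, fromBlocks_apply₂₁, fromBlocks_apply₂₂] <;> congr 1 <;> push_cast <;> ring

theorem rowE {m n : Type} [Fintype m] [Fintype n] [DecidableEq m] [DecidableEq n] (A : Matrix m m ℂ) (B : Matrix m n ℂ)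
    (E : Matrix n m ℂ) (G : Matrix n n ℂ) : (fromBlocks A B (E * A) G).det = A.det * (G - E * B).det := by
  rw [show fromBlocks A B (E * A) G = fromBlocks 1 0 E 1 * fromBlocks A B 0 (G - E * B) by simp [fromBlocks_multiply],
    det_mul, det_fromBlocks_zero₁₂, det_fromBlocks_zero₂₁]
  simp

theorem colE {m n : Type} [Fintype m] [Fintype n] [DecidableEq m] [DecidableEq n] (A : Matrix m m ℂ) (C : Matrix n m ℂ)
    (E : Matrix m n ℂ) (G : Matrix n n ℂ) : (fromBlocks A (A * E) C G).det = A.det * (G - C * E).det := by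
  rw [show fromBlocks A (A * E) C G = fromBlocks A 0 C (G - C * E) * fromBlocks 1 E 0 1 by simp [fromBlocks_multiply],
    det_mul, det_fromBlocks_zero₁₂, det_fromBlocks_zero₂₁]
  simp

noncomputable def P (a b : ℕ) : Matrix (Fin a) (Fin b) ℂ := of fun i j => if i.1 = j.1 then 1 else 0

theorem PM {a b c : ℕ} (h : b ≤ a) (f : ℤ → ℂ) (l : ℤ) : P b a * M f l a c = M f l b c := by
  ext i j
  rw [mul_apply, Finset.sum_eq_single (Fin.castLE h i)]
  · simp [P, M]
  · intro k _ hk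
    simp [P, show i.1 ≠ k.1 from fun e => hk (Fin.ext e.symm)]
  · simp

theorem MP {a b c : ℕ} (h : b ≤ a) (f : ℤ → ℂ) (l : ℤ) : M f l c a * P a b = M f l c b := by
  ext i j
  rw [mul_apply, Finset.sum_eq_single (Fin.castLE h j)]
  · simp [P, M]
  · intro k _ hk
    simp [P, show k.1 ≠ j.1 from fun e => hk (Fin.ext e)]
  · simp

theorem Mc {f g : ℤ → ℂ} {l : ℤ} (s : ℂ) (a b : ℕ) (h : ∀ t, f t = s * g (l + t)) : M f 0 a b = s • M g l a b := by
  ext i j
  simp only [M, of_apply, Matrix.smul_apply, smul_eq_mul, h, zero_add, add_sub_assoc]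

section
variable {f h g : ℤ → ℂ} {s : ℂ} (h0 : ∀ t, f (2 * t) = h t) (h1 : ∀ t, f (2 * t + 1) = s * h t)
include h0 h1

theorem De (hg : ∀ t, g t = h t - s * s * h (t - 1)) {a b : ℕ} (H : a = b ∨ a = b + 1) (l : ℤ) :
    D f (2 * l) (a + b) = D h l a * D g l b := by
  have e0 : ∀ t, f (2 * t + 2 * l) = 1 * h (l + t) := fun t => by rw [one_mul, ← h0]; congr 1; ring
  rw [blk H, Mc 1 a a e0, Mc 1 b b e0, Mc (g := h) (l := l) s b a fun t => by rw [← h1]; congr 1; ring,
    Mc (g := h) (l := l - 1) s a b fun t => by rw [← h1]; congr 1; ring, one_smul, one_smul,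
    ← PM (by omega : b ≤ a) h l (c := a), ← Matrix.smul_mul, rowE, Matrix.smul_mul, Matrix.mul_smul, PM (by omega)]
  congr 2
  ext i j
  simp only [M, Matrix.sub_apply, Matrix.smul_apply, of_apply, smul_eq_mul, hg]
  rw [show l - 1 + (i : ℕ) - (j : ℕ) = l + (i : ℕ) - (j : ℕ) - 1 by ring]
  ring

theorem Db {a b : ℕ} (H : a = b ∨ a = b + 1) (l : ℤ) : D f (2 * l + 1) (a + b) =
    (fromBlocks (s • M h l a a) (M h l a b) (M h (l + 1) b a) (s • M h l b b)).det := by
  have e0 : ∀ t, f (2 * t + (2 * l + 1)) = s * h (l + t) := fun t => by rw [← h1]; congr 1; ring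
  rw [blk H, Mc s a a e0, Mc s b b e0, Mc (g := h) (l := l + 1) 1 b a fun t => by rw [one_mul, ← h0]; congr 1; ring,
    Mc (g := h) (l := l) 1 a b fun t => by rw [one_mul, ← h0]; congr 1; ring, one_smul, one_smul]

theorem Do (hs : s * s = 1) (hg : ∀ t, g t = h t - h (t - 1)) {a b : ℕ} (H : a = b ∨ a = b + 1) (l : ℤ) :
    D f (2 * l + 1) (a + b) = s ^ a * (-s) ^ b * D h l a * D g (l + 1) b := by
  rw [Db h0 h1 H, show M h l a b = (s • M h l a a) * (s • P a b) by
    rw [Matrix.smul_mul, Matrix.mul_smul, MP (by omega), smul_smul, hs, one_smul], colE, Matrix.mul_smul, MP (by omega),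
    show s • M h l b b - s • M h (l + 1) b b = (-s) • M g (l + 1) b b by
      ext i j
      simp only [M, Matrix.sub_apply, Matrix.smul_apply, of_apply, smul_eq_mul, hg]
      rw [show l + 1 + (i : ℕ) - (j : ℕ) - 1 = l + (i : ℕ) - (j : ℕ) by ring]
      ring, det_smul, det_smul, Fintype.card_fin, Fintype.card_fin]
  simp only [D, M]
  ring

end

noncomputable def J (a b : ℕ) : Matrix (Fin a) (Fin b) ℂ := of fun _ _ => 1

theorem radd {n : Type} [Fintype n] [DecidableEq n] (T : Matrix n n ℂ) (u u' : n → ℂ) :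
    (T + of fun i _ => u i + u' i).det = (T + of fun i _ => u i).det + (T + of fun i _ => u' i).det - T.det := by
  have e : ∀ u : n → ℂ, (T + of fun i _ => u i).det =
      (updateCol (fromBlocks T 0 (of fun _ _ => -1) (1 : Matrix Unit Unit ℂ)) (.inr ()) (Sum.elim u 1)).det := fun u => by
    rw [show updateCol (fromBlocks T 0 (of fun _ _ => -1) (1 : Matrix Unit Unit ℂ)) (.inr ()) (Sum.elim u 1) =
      fromBlocks T (of fun i _ => u i) (of fun _ _ => -1) 1 by ext (i | i) (j | j) <;> simp [updateCol_apply],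
      det_fromBlocks_one₂₂]
    congr 1
    ext i j
    simp [mul_apply]
  have e0 := e 0
  rw [show T + (of fun i _ => (0 : n → ℂ) i) = T by ext; simp] at e0
  rw [e0, e u, e u', e fun i => u i + u' i, eq_sub_iff_add_eq, ← det_updateCol_add, ← det_updateCol_add]
  congr 2
  ext (i | i) <;> simp

theorem gp {a b : ℕ} (A : Matrix (Fin a) (Fin a) ℂ) (G : Matrix (Fin b) (Fin b) ℂ) (c : ℂ) :
    (fromBlocks (A + c • J a a) (c • J a b) (c • J b a) (G + c • J b b)).det =
      (A + c • J a a).det * G.det + A.det * (G + c • J b b).det - A.det * G.det := by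
  rw [← det_fromBlocks_zero₂₁ _ (c • J a b), ← det_fromBlocks_zero₁₂ _ (c • J b a), ← det_fromBlocks_zero₂₁ _ 0]
  convert radd (fromBlocks A 0 0 G) (Sum.elim (fun _ => c) 0) (Sum.elim 0 fun _ => c) using 4 <;>
    ext (i | i) (j | j) <;> simp [J]

theorem dif {b : ℕ} (B : Matrix (Fin (b + 1)) (Fin b) ℂ) :
    (of fun i => Fin.cons 1 (B i) : Matrix (Fin (b + 1)) (Fin (b + 1)) ℂ).det =
      (of fun (i : Fin b) j => B i.succ j - B i.castSucc j).det := by
  refine (det_eq_of_forall_row_eq_smul_add_pred (B := of (Fin.cons (Fin.cons 1 (B 0))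
    fun i => Fin.cons 0 fun j => B i.succ j - B i.castSucc j)) (fun _ => 1) (fun j => by rfl)
    fun i j => by refine Fin.cases ?_ (fun j => ?_) j <;> simp).trans ?_
  rw [det_succ_column_zero, Fin.sum_univ_succ]
  simp
  rfl

noncomputable def Q (b : ℕ) : Matrix (Fin (b + 1)) (Fin b) ℂ := of fun i j => if i = j.succ then 1 else 0

theorem odo {b : ℕ} (B : Matrix (Fin (b + 1)) (Fin b) ℂ) (C : Matrix (Fin b) (Fin (b + 1)) ℂ) (X : Matrix (Fin b) (Fin b) ℂ)
    (c : ℂ) : (fromBlocks (c • J _ _) B C X).det = c * (-1) ^ b * (of fun (i : Fin b) j => B i.succ j - B i.castSucc j).det *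
      (of fun (i : Fin b) j => C j i.succ - C j i.castSucc).det := by
  rw [← dif B, show (of fun (i : Fin b) j => C j i.succ - C j i.castSucc).det = _ from (dif Cᵀ).symm]
  set Y : Matrix (Fin (b + 1)) (Fin (b + 1)) ℂ := of fun i => Fin.cons 1 (B i)
  set Y' : Matrix (Fin (b + 1)) (Fin (b + 1)) ℂ := of fun i => Fin.cons 1 (Cᵀ i)
  set G : Matrix (Fin (b + 1)) (Fin (b + 1)) ℂ := diagonal (Fin.cons c 1)
  have h1 : Y * Q b = B := by ext i j; simp [Y, Q, mul_apply]
  have h2 : (Q b)ᵀ * Y'ᵀ = C := by ext i j; simp [Y', Q, mul_apply]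
  have h3 : (Q b)ᵀ * Q b = 1 := by ext i j; simp [Q, mul_apply, one_apply, eq_comm]
  have h4 : G * Q b = Q b := by
    ext i j
    refine Fin.cases ?_ (fun i => ?_) i <;> simp [G, Q, (Fin.succ_ne_zero j).symm]
  have h5 : Y * G * Y'ᵀ = c • J _ _ + B * C := by
    ext i j
    rw [mul_apply]
    simp only [G, mul_diagonal]
    simp [Y, Y', J, mul_apply, Fin.sum_univ_succ]
  have e := colE G ((Q b)ᵀ + X * (Q b)ᵀ) (Q b) X
  rw [h4, Matrix.add_mul, Matrix.mul_assoc, h3, show X - (1 + X * 1) = -1 by simp, det_neg, det_one, Fintype.card_fin,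
    show G.det = c by simp [G, Fin.prod_univ_succ]] at e
  rw [show fromBlocks (c • J _ _) B C X = fromBlocks Y 0 0 1 * (fromBlocks G (Q b) ((Q b)ᵀ + X * (Q b)ᵀ) X *
    fromBlocks 1 0 (-(Q b)ᵀ) 1) * fromBlocks Y'ᵀ 0 0 1 by
      simp only [fromBlocks_multiply, Matrix.mul_one, Matrix.mul_zero, Matrix.zero_mul, Matrix.one_mul, add_zero, zero_add,
        Matrix.mul_neg, add_neg_cancel_right, h1, h2, Matrix.mul_add, Matrix.add_mul, h5, ← Matrix.mul_assoc, Matrix.neg_mul]
      rw [Matrix.mul_assoc B, h2, add_neg_cancel_right, neg_zero, zero_add],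
    det_mul, det_mul, det_mul, e, det_fromBlocks_zero₁₂, det_fromBlocks_zero₁₂, det_fromBlocks_zero₁₂]
  simp only [det_one, det_transpose]
  ring

theorem MQ {b c : ℕ} (f : ℤ → ℂ) (l : ℤ) : M f l c (b + 1) * Q b = M f (l - 1) c b := by
  ext i j
  simp [M, Q, mul_apply]
  ring_nf

theorem MJ (f : ℤ → ℂ) (l : ℤ) (c : ℂ) (a b : ℕ) : M f l a b + c • J a b = M (fun z => f z + c) l a b := by
  ext; simp [M, J]

theorem JM (l : ℤ) (a b : ℕ) : J a b = M (fun _ => 1) l a b := rfl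

theorem Ml {f g : ℤ → ℂ} {l l' : ℤ} (a b : ℕ) (h : ∀ t : ℤ, -b < t → f (l + t) = g (l' + t)) : M f l a b = M g l' a b := by
  ext i j
  simp only [M, of_apply, add_sub_assoc]
  exact h _ (by omega)

end Pool.Agent.H27.HankR
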