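import Pool.Agent.H27.HankH

/-! Recurrences for Toeplitz determinants built from the weighted binary digit sum. -/

namespace Pool.Agent.H27.HankR
open Matrix

set_option maxHeartbeats 400000

variable (w : ℂ)

noncomputable def sd (z : ℤ) : ℂ := Nat.ofDigits w (Nat.digits 2 z.toNat)
noncomputable def K (z : ℤ) : ℂ := w * sd w z - w * sd w (z - 1) - 2
noncomputable def N (z : ℤ) : ℂ := K w z - K w (z - 1)

theorem s0 {t z : ℤ} (h : 0 ≤ t) (e : z = 2 * t) : sd w z = w * sd w t := by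
  obtain ⟨j, rfl⟩ := Int.eq_ofNat_of_zero_le h
  rw [sd, sd, show z.toNat = 2 * j by omega, Int.toNat_natCast]
  rcases j.eq_zero_or_pos with rfl | h
  · simp [Nat.ofDigits]
  · rw [Nat.digits_def' (by norm_num) (by omega), show 2 * j / 2 = j by omega]
    simp [Nat.ofDigits]

theorem s1 {t z : ℤ} (h : 0 ≤ t) (e : z = 2 * t + 1) : sd w z = w * sd w t + 1 := by
  obtain ⟨j, rfl⟩ := Int.eq_ofNat_of_zero_le h
  rw [sd, sd, show z.toNat = 2 * j + 1 by omega, Int.toNat_natCast, Nat.digits_def' (by norm_num) (by omega),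
    show (2 * j + 1) / 2 = j by omega, show (2 * j + 1) % 2 = 1 by omega]
  simp [add_comm, Nat.ofDigits]

theorem K0 {t z : ℤ} (h : 0 < t) (e : z = 2 * t) : K w z = w * K w t + (w - 2) := by
  rw [K, K, s0 w h.le e, s1 w (t := t - 1) (z := z - 1) (by omega) (by omega)]; ring

theorem K1 {t z : ℤ} (h : 0 ≤ t) (e : z = 2 * t + 1) : K w z = w - 2 := by
  rw [K, s1 w h e, s0 w (t := t) (z := z - 1) h (by omega)]; ring

noncomputable def x (c : ℂ) (n : ℕ) : ℂ := (M (fun z => K w z + c) n n n).det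
noncomputable def h (c : ℂ) (n : ℕ) : ℂ := (M (fun z => sd w z + c) (n - 1) n n).det
noncomputable def y (n : ℕ) : ℂ := (M (N w) (n + 1) n n).det

theorem x00 (n : ℕ) : (M (K w) n n n).det = x w 0 n := by simp [x]

theorem Ms (f : ℤ → ℂ) (l : ℤ) (n : ℕ) : (M (fun z => w * f z) l n n).det = w ^ n * (M f l n n).det := by
  rw [show M (fun z => w * f z) l n n = w • M f l n n from rfl, det_smul, Fintype.card_fin]

variable {w} (hw : w ≠ 0)
include hw

theorem Mt (f : ℤ → ℂ) (c : ℂ) (l : ℤ) (n : ℕ) :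
    (M (fun z => w * f z + c) l n n).det = w ^ n * (M (fun z => f z + c / w) l n n).det := by
  rw [← Ms]
  congr 2
  ext z
  field_simp

theorem hx0 (c : ℂ) (b : ℕ) : x w c (b + b) = (w ^ b) ^ 2 * (2 * x w ((w - 2 + c) / w) b * x w 0 b - x w 0 b ^ 2) := by
  have e : M (fun t => K w (2 * t + ((b + b : ℕ) : ℤ)) + c) 0 b b = M (fun z => w * K w z) b b b + (w - 2 + c) • J b b := by
    rw [MJ]
    exact Ml _ _ fun t ht => by rw [K0 w (t := b + t) (by omega) (by push_cast; ring)]; ring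
  have e' : ∀ k : ℤ, k = 1 ∨ k = -1 → M (fun t => K w (2 * t + ((b + b : ℕ) : ℤ) + k) + c) 0 b b = (w - 2 + c) • J b b := by
    intro k hk
    rw [← zero_add ((w - 2 + c) • J b b), show (0 : Matrix (Fin b) (Fin b) ℂ) = M (fun _ => 0) 0 b b from rfl, MJ]
    exact Ml _ _ fun t ht => by rw [K1 w (t := b + t + (k - 1) / 2) (by omega) (by push_cast; omega)]; ring
  refine (blk (.inl rfl) (fun z => K w z + c) (b + b : ℕ)).trans ?_
  simp only [sub_eq_add_neg (_ : ℤ) 1] at *
  rw [e, e' 1 (.inl rfl), e' (-1) (.inr rfl), gp, MJ, Mt hw, Ms, x00, ← x]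
  ring

omit hw in
theorem hx1 (c : ℂ) (b : ℕ) : x w c (b + 1 + b) = (w - 2 + c) * (w ^ b * y w b) ^ 2 := by
  refine (blk (.inr rfl) (fun z => K w z + c) (b + 1 + b : ℕ)).trans ?_
  rw [show M (fun t => K w (2 * t + ((b + 1 + b : ℕ) : ℤ)) + c) 0 (b + 1) (b + 1) = (w - 2 + c) • J _ _ by
      rw [← zero_add ((w - 2 + c) • J _ _), show (0 : Matrix (Fin (b + 1)) (Fin (b + 1)) ℂ) = M (fun _ => 0) 0 _ _ from rfl, MJ]
      exact Ml _ _ fun t ht => by rw [K1 w (t := b + t) (by omega) (by push_cast; omega)]; ring,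
    Ml (g := fun z => w * K w z + (w - 2 + c)) (l' := b) (b + 1) b fun t ht => by
      rw [K0 w (t := b + t) (by omega) (by push_cast; omega)]; ring,
    Ml (g := fun z => w * K w z + (w - 2 + c)) (l' := b + 1) b (b + 1) fun t ht => by
      rw [K0 w (t := b + 1 + t) (by omega) (by push_cast; omega)]; ring, odo,
    show (of fun (i : Fin b) j => M (fun z => w * K w z + (w - 2 + c)) b (b + 1) b i.succ j -
      M (fun z => w * K w z + (w - 2 + c)) b (b + 1) b i.castSucc j) = M (fun z => w * N w z) (b + 1) b b by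
        ext i j; simp [M, N]; ring_nf,
    show (of fun (i : Fin b) j => M (fun z => w * K w z + (w - 2 + c)) (b + 1) b (b + 1) j i.succ -
      M (fun z => w * K w z + (w - 2 + c)) (b + 1) b (b + 1) j i.castSucc) = -(M (fun z => w * N w z) (b + 1) b b)ᵀ by
        ext i j; simp [M, N]; ring_nf, det_neg, det_transpose, Fintype.card_fin, Ms, ← y]
  have e7 : ((-1 : ℂ) ^ b) * (-1) ^ b = 1 := by rw [← mul_pow]; simp
  linear_combination (w - 2 + c) * (w ^ b * y w b) ^ 2 * e7

omit hw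

noncomputable def N' (w : ℂ) (z : ℤ) : ℂ := if z % 2 = 0 then w * K w (z / 2) else -(w * K w (z / 2))

theorem yN (n : ℕ) : y w n = D (N' w) (n + 1) n :=
  congrArg det (Ml _ _ fun t ht => by
    rw [N, N']
    split_ifs with e
    · rw [K0 w (z := n + 1 + t) (t := (n + 1 + t) / 2) (by omega) (by omega),
        K1 w (z := n + 1 + t - 1) (t := (n + 1 + t) / 2 - 1) (by omega) (by omega)]; ring
    · rw [K1 w (z := n + 1 + t) (t := (n + 1 + t) / 2) (by omega) (by omega),
        K0 w (z := n + 1 + t - 1) (t := (n + 1 + t) / 2) (by omega) (by omega)]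
      ring)

theorem N0 (t : ℤ) : N' w (2 * t) = w * K w t := by rw [N', if_pos (by omega), show 2 * t / 2 = t by omega]
theorem N1 (t : ℤ) : N' w (2 * t + 1) = -1 * (w * K w t) := by
  rw [N', if_neg (by omega), show (2 * t + 1) / 2 = t by omega]; ring

theorem hy0 (b : ℕ) : y w (b + b) = (-1) ^ b * (w ^ b * x w 0 b) * (w ^ b * y w b) := by
  rw [yN, show ((b + b : ℕ) : ℤ) = 2 * b by push_cast; ring,
    Do (g := fun z => w * N w z) N0 N1 (by simp) (fun _ => by rw [N]; ring) (.inl rfl), ← x00, neg_neg, one_pow, mul_one,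
    y, ← Ms w (K w), ← Ms w (N w)]
  rfl

theorem hy1 (b : ℕ) : y w (b + 1 + b) = w ^ (b + 1) * x w 0 (b + 1) * (w ^ b * y w b) := by
  rw [yN, show ((b + 1 + b : ℕ) : ℤ) + 1 = 2 * (b + 1) by push_cast; ring,
    De (g := fun z => w * N w z) N0 N1 (fun _ => by rw [N]; ring) (.inr rfl), ← x00, y, ← Ms w (K w), ← Ms w (N w)]
  rfl

include hw

theorem cp (c : ℂ) (a b : ℕ) : (fromBlocks (M (fun z => w * sd w z + c) (a - 1) a a) (J a b) (J b a) (M (K w) b b b)).det =
    w ^ a * (h w (c / w) a * x w (-1) b + h w ((c - 1) / w) a * x w 0 b - h w ((c - 1) / w) a * x w (-1) b) := by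
  have e := gp (M (fun z => w * sd w z + (c - 1)) (a - 1) a a) (M (fun z => K w z + -1) b b b) 1
  rw [MJ, MJ, one_smul, one_smul] at e
  simp only [add_assoc, sub_add_cancel, neg_add_cancel, add_zero] at e
  rw [e, x00, Mt hw, Mt hw, ← h, ← h, ← x]
  ring

theorem hh0 (c : ℂ) (b : ℕ) : h w c (b + b) = (-1) ^ b *
    (w ^ b * (h w (c / w) b * x w (-1) b + h w ((c - 1) / w) b * x w 0 b - h w ((c - 1) / w) b * x w (-1) b)) := by
  refine (blk (.inl rfl) (fun z => sd w z + c) ((b + b : ℕ) - 1)).trans ?_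
  rw [← cp hw, Ml (g := fun z => w * sd w z + c + 1) (l' := b - 1) b b fun t ht => by
      rw [s1 w (t := b - 1 + t) (by omega) (by push_cast; omega)]; ring,
    Ml (f := fun t => sd w (2 * t + (((b + b : ℕ) : ℤ) - 1) - 1) + c) (g := fun z => w * sd w z + c) (l' := b - 1) b b
      fun t ht => by rw [s0 w (t := b - 1 + t) (by omega) (by push_cast; omega)],
    Ml (f := fun t => sd w (2 * t + (((b + b : ℕ) : ℤ) - 1) + 1) + c) (g := fun z => w * sd w z + c) (l' := b) b b
      fun t ht => by rw [s0 w (t := b + t) (by omega) (by push_cast; omega)],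
    show fromBlocks (M (fun z => w * sd w z + c + 1) (b - 1) b b) (M (fun z => w * sd w z + c) (b - 1) b b)
      (M (fun z => w * sd w z + c) b b b) (M (fun z => w * sd w z + c + 1) (b - 1) b b) = fromBlocks 1 0 1 1 *
        fromBlocks (M (fun z => w * sd w z + c) (b - 1) b b) (J b b) (J b b) (M (K w) b b b) * fromBlocks 1 0 0 (-1) *
          fromBlocks 1 0 (-1) 1 * fromBlocks 1 1 0 1 by
      simp only [fromBlocks_multiply, Matrix.mul_one, Matrix.mul_zero, Matrix.one_mul, Matrix.zero_mul, add_zero, zero_add,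
        Matrix.mul_neg]
      congr 1 <;> ext i j <;> simp [M, J, K] <;> ring_nf]
  simp only [det_mul, det_fromBlocks_zero₁₂, det_fromBlocks_zero₂₁, det_one, det_neg, Fintype.card_fin]
  ring

theorem hh1 (c : ℂ) (b : ℕ) : h w c (b + 1 + b) = w ^ (b + 1) * (h w (c / w) (b + 1) * x w (-1) b +
    h w ((c - 1) / w) (b + 1) * x w 0 b - h w ((c - 1) / w) (b + 1) * x w (-1) b) := by
  refine (blk (.inr rfl) (fun z => sd w z + c) ((b + 1 + b : ℕ) - 1)).trans ?_
  have e : ∀ a ≤ b + 1, M (fun t => sd w (2 * t + (((b + 1 + b : ℕ) : ℤ) - 1)) + c) 0 a a =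
      M (fun z => w * sd w z + c) b a a :=
    fun a ha => Ml _ _ fun t ht => by rw [s0 w (t := b + t) (by omega) (by push_cast; omega)]
  rw [← cp hw, e _ le_rfl, e _ b.le_succ,
    Ml (f := fun t => sd w (2 * t + (((b + 1 + b : ℕ) : ℤ) - 1) - 1) + c) (g := fun z => w * sd w z + c + 1) (l' := b - 1)
      (b + 1) b fun t ht => by rw [s1 w (t := b - 1 + t) (by omega) (by push_cast; omega)]; ring,
    Ml (f := fun t => sd w (2 * t + (((b + 1 + b : ℕ) : ℤ) - 1) + 1) + c) (g := fun z => w * sd w z + c + 1) (l' := b) b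
      (b + 1) fun t ht => by rw [s1 w (t := b + t) (by omega) (by push_cast; omega)]; ring,
    show ((b + 1 : ℕ) : ℤ) - 1 = b by push_cast; ring,
    show fromBlocks (M (fun z => w * sd w z + c) b (b + 1) (b + 1)) (M (fun z => w * sd w z + c + 1) (b - 1) (b + 1) b)
      (M (fun z => w * sd w z + c + 1) b b (b + 1)) (M (fun z => w * sd w z + c) b b b) = fromBlocks 1 0 (P b (b + 1)) 1 *
        fromBlocks (M (fun z => w * sd w z + c) b (b + 1) (b + 1)) (J _ _) (J _ _) (M (K w) b b b) * fromBlocks 1 (Q b) 0 1 by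
      simp only [fromBlocks_multiply, Matrix.mul_one, Matrix.mul_zero, Matrix.one_mul, Matrix.zero_mul, add_zero, zero_add,
        Matrix.add_mul, JM 0, PM b.le_succ, MQ]
      congr 1 <;> ext i j <;> simp [M, K] <;> ring_nf]
  simp only [det_mul, det_fromBlocks_zero₁₂, det_fromBlocks_zero₂₁, det_one]
  ring

end Pool.Agent.H27.HankR
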