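import Mathlib

namespace Pool.Agent.H27.Hardy

open MeasureTheory
open scoped NNReal ENNReal

/-- Vertices of the dyadic tree: finite binary words; the root is `[]`, the children of `x` are
`x ++ [b]`. The extra vertex `o*` is `none : Option Vx`. An edge is named by its child end. -/
abbrev Vx := List Bool

/-- The parent end of the edge whose child end is `x`. -/
def par (x : Vx) : Option Vx := if x = [] then none else some x.dropLast

/-- Last common vertex of the geodesics from `o*`: the longest common initial segment. -/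
def meet : Vx → Vx → Vx
  | a :: x, b :: y => if a = b then a :: meet x y else []
  | _, _ => []

/-- Number of edges from `o*` to `z`. -/
def dep (z : Vx) : ℤ := (z.length : ℤ) + 1

/-- The kernel `k_{(a,b)}(x,y)`. -/
def kk (p q : Vx × Vx) : ℤ :=
  dep (meet p.1 q.1) + dep (meet p.2 q.2) - dep (meet p.1 q.2) - dep (meet p.2 q.1)

/-- Edges from `o*` to `x`. -/
def anc (x : Vx) : Finset Vx := x.inits.toFinset

/-- Edges of the geodesic between two vertices. -/
def geo (p : Vx × Vx) : Finset Vx := symmDiff (anc p.1) (anc p.2)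

lemma mem_anc {a x : Vx} : a ∈ anc x ↔ a <+: x := by simp [anc, List.mem_inits]

lemma mem_geo {a : Vx} {p : Vx × Vx} :
    a ∈ geo p ↔ (a <+: p.1 ∧ ¬ a <+: p.2) ∨ (a <+: p.2 ∧ ¬ a <+: p.1) := by
  simp [geo, Finset.mem_symmDiff, mem_anc]

lemma prefix_meet : ∀ (x y a : Vx), a <+: meet x y ↔ a <+: x ∧ a <+: y
  | [], y, a => by
    simp only [meet, List.prefix_nil]
    constructor
    · rintro rfl; simp
    · exact fun h => h.1
  | b :: x, [], a => by
    simp only [meet, List.prefix_nil]
    constructor
    · rintro rfl; simp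
    · exact fun h => h.2
  | b :: x, c :: y, a => by
    cases a with
    | nil => simp
    | cons d a =>
      simp only [meet]
      split_ifs with h
      · subst h
        simp only [List.cons_prefix_cons, prefix_meet x y a]
        tauto
      · simp only [List.prefix_nil, List.cons_prefix_cons]
        constructor
        · intro h; simp at h
        · rintro ⟨⟨h1, -⟩, h2, -⟩; exact absurd (h1.symm.trans h2) h

lemma anc_nil : anc [] = {[]} := by ext a; simp [mem_anc]

lemma anc_concat (x : Vx) (b : Bool) : anc (x ++ [b]) = insert (x ++ [b]) (anc x) := by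
  ext a; simp [mem_anc, List.prefix_concat_iff]

lemma not_mem_anc_concat (x : Vx) (b : Bool) : x ++ [b] ∉ anc x := by
  rw [mem_anc]; intro h; have := h.length_le; simp at this

lemma card_anc (x : Vx) : (anc x).card = x.length + 1 := by
  induction x using List.reverseRecOn with
  | nil => simp [anc_nil]
  | append_singleton x b ih =>
    rw [anc_concat, Finset.card_insert_of_notMem (not_mem_anc_concat x b), ih]; simp

lemma dep_meet (x y : Vx) : dep (meet x y) = ((anc x ∩ anc y).card : ℤ) := by
  have : anc (meet x y) = anc x ∩ anc y := by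
    ext a; simp [mem_anc, prefix_meet]
  rw [← this, card_anc]; simp [dep]

lemma card_eq_sum (U s t : Finset Vx) (hs : s ⊆ U) :
    ((s ∩ t).card : ℤ) = ∑ a ∈ U, (if a ∈ s then (1 : ℤ) else 0) * (if a ∈ t then 1 else 0) := by
  have : ∀ a, (if a ∈ s then (1 : ℤ) else 0) * (if a ∈ t then 1 else 0) =
      if a ∈ s ∩ t then 1 else 0 := by
    intro a; by_cases h1 : a ∈ s <;> by_cases h2 : a ∈ t <;> simp [h1, h2]
  simp_rw [this]
  rw [Finset.sum_boole]
  congr 2
  ext a
  simp only [Finset.mem_inter, Finset.mem_filter]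
  exact ⟨fun h => ⟨hs h.1, h⟩, fun h => h.2⟩

lemma abs_kk (p q : Vx × Vx) : |kk p q| = ((geo p ∩ geo q).card : ℤ) := by
  obtain ⟨a, b⟩ := p
  obtain ⟨x, y⟩ := q
  set U := anc a ∪ anc b with hU
  have ha : anc a ⊆ U := Finset.subset_union_left
  have hb : anc b ⊆ U := Finset.subset_union_right
  have hg : geo (a, b) ⊆ U := by
    intro z hz
    rcases Finset.mem_symmDiff.1 hz with h | h
    · exact ha h.1
    · exact hb h.1
  let t : Vx → ℤ := fun z => ((if z ∈ anc a then (1 : ℤ) else 0) - (if z ∈ anc b then 1 else 0)) *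
    ((if z ∈ anc x then (1 : ℤ) else 0) - (if z ∈ anc y then 1 else 0))
  have hk : kk (a, b) (x, y) = ∑ z ∈ U, t z := by
    simp only [kk, dep_meet]
    rw [card_eq_sum U _ _ ha, card_eq_sum U _ _ hb, card_eq_sum U _ _ ha, card_eq_sum U _ _ hb,
      ← Finset.sum_add_distrib, ← Finset.sum_sub_distrib, ← Finset.sum_sub_distrib]
    refine Finset.sum_congr rfl fun z _ => ?_
    simp only [t]; ring
  have habs : ∀ z, |t z| = (if z ∈ geo (a, b) then (1 : ℤ) else 0) *
      (if z ∈ geo (x, y) then 1 else 0) := by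
    intro z
    simp only [t, geo, Finset.mem_symmDiff]
    by_cases h1 : z ∈ anc a <;> by_cases h2 : z ∈ anc b <;> by_cases h3 : z ∈ anc x <;>
      by_cases h4 : z ∈ anc y <;> simp [h1, h2, h3, h4]
  have hsign : (∀ z, 0 ≤ t z) ∨ (∀ z, t z ≤ 0) := by
    by_contra hcon
    push Not at hcon
    obtain ⟨⟨z, hz⟩, ⟨w, hw⟩⟩ := hcon
    have key : ∀ (c : Vx), z <+: c → w <+: c → (z <+: w ∨ w <+: z) := fun c h1 h2 =>
      List.prefix_or_prefix_of_prefix h1 h2
    simp only [t, mem_anc] at hz hw
    by_cases h1 : z <+: a <;> by_cases h2 : z <+: b <;> by_cases h3 : z <+: x <;>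
      by_cases h4 : z <+: y <;> simp [h1, h2, h3, h4] at hz <;>
      by_cases g1 : w <+: a <;> by_cases g2 : w <+: b <;> by_cases g3 : w <+: x <;>
      by_cases g4 : w <+: y <;> simp [g1, g2, g3, g4] at hw
    · rcases key a h1 g1 with h | h
      · exact h3 (h.trans g3)
      · exact g4 (h.trans h4)
    · rcases key y h4 g4 with h | h
      · exact h2 (h.trans g2)
      · exact g1 (h.trans h1)
    · rcases key x h3 g3 with h | h
      · exact h1 (h.trans g1)
      · exact g2 (h.trans h2)
    · rcases key b h2 g2 with h | h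
      · exact h4 (h.trans g4)
      · exact g3 (h.trans h3)
  rw [card_eq_sum U _ _ hg, hk, ← Finset.sum_congr rfl fun z _ => habs z]
  rcases hsign with h | h
  · rw [abs_of_nonneg (Finset.sum_nonneg fun z _ => h z)]
    exact Finset.sum_congr rfl fun z _ => (abs_of_nonneg (h z)).symm
  · rw [abs_of_nonpos (Finset.sum_nonpos fun z _ => h z), ← Finset.sum_neg_distrib]
    exact Finset.sum_congr rfl fun z _ => (abs_of_nonpos (h z)).symm

lemma geo_edge (x : Vx) (b : Bool) : geo (x, x ++ [b]) = {x ++ [b]} := by
  ext a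
  simp only [mem_geo, List.prefix_concat_iff, Finset.mem_singleton]
  constructor
  · rintro (⟨h1, h2⟩ | ⟨h1 | h1, h2⟩)
    · exact absurd (Or.inr h1) h2
    · exact h1
    · exact absurd h1 h2
  · rintro rfl
    exact Or.inr ⟨Or.inl rfl, fun h => not_mem_anc_concat x b (mem_anc.2 h)⟩

lemma geo_triangle (m x y : Vx) : geo (x, y) ⊆ geo (m, x) ∪ geo (m, y) := by
  intro a ha
  simp only [Finset.mem_union, mem_geo] at *
  tauto

lemma nil_not_mem_geo (p : Vx × Vx) : [] ∉ geo p := by simp [mem_geo]

/-- The branch at `m` containing a vertex or edge. -/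
def cls (m a : Vx) : Option Bool :=
  if m ++ [false] <+: a then some false else if m ++ [true] <+: a then some true else none

lemma cls_eq_some {m a : Vx} {b : Bool} : cls m a = some b ↔ m ++ [b] <+: a := by
  unfold cls
  have hx : ¬ (m ++ [false] <+: a ∧ m ++ [true] <+: a) := by
    rintro ⟨h1, h2⟩
    rcases List.prefix_or_prefix_of_prefix h1 h2 with h | h
    · have := h.eq_of_length (by simp); simp at this
    · have := h.eq_of_length (by simp); simp at this
  cases b <;> split_ifs with h1 h2 <;> simp_all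

lemma cls_geo {m x a : Vx} (ha : a ∈ geo (m, x)) : cls m a = cls m x := by
  have key : ∀ b, m ++ [b] <+: a ↔ m ++ [b] <+: x := by
    intro b
    rw [mem_geo] at ha
    simp only at ha
    constructor
    · intro h
      rcases ha with ⟨h1, -⟩ | ⟨h1, -⟩
      · have := (h.trans h1).length_le; simp at this
      · exact h.trans h1
    · intro h
      rcases ha with ⟨h1, h2⟩ | ⟨h1, h2⟩
      · exact absurd (h1.trans ((List.prefix_append m [b]).trans h)) h2
      · rcases List.prefix_or_prefix_of_prefix h1 h with h3 | h3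
        · rcases List.prefix_concat_iff.1 h3 with h4 | h4
          · rw [h4]
          · exact absurd h4 h2
        · exact h3
  unfold cls
  simp only [key]

lemma cls_none {m x : Vx} (h : cls m x = none) (hx : x ≠ m) : ¬ m <+: x := by
  rintro ⟨t, rfl⟩
  cases t with
  | nil => simp at hx
  | cons b t =>
    have : cls m (m ++ b :: t) = some b := cls_eq_some.2 ⟨t, by simp⟩
    rw [this] at h; simp at h

/-- The branches at `m`. -/
def br (m : Vx) (j : Option Bool) : Set Vx := {x | cls m x = j ∧ x ≠ m}

lemma median_fin [MeasurableSpace Vx] [DiscreteMeasurableSpace Vx] (μ : Measure Vx)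
    (hμ : μ Set.univ ≠ ⊤) : ∃ m, ∀ j, μ (br m j) ≤ μ (br m j)ᶜ := by
  by_cases h0 : μ Set.univ = 0
  · exact ⟨[], fun j => by
      rw [measure_mono_null (Set.subset_univ _) h0]; exact zero_le⟩
  let S : Vx → Set Vx := fun v => {x | v <+: x}
  let P : Vx → Prop := fun v => μ (S v)ᶜ ≤ μ (S v)
  have hP0 : P [] := by
    have : S [] = Set.univ := by ext; simp [S]
    simp [P, this]
  have hbd : ∃ N, ∀ v, P v → v.length < N := by
    let A : ℕ → Set Vx := fun n => {x | n ≤ x.length}
    have ht := tendsto_measure_iInter_atTop (μ := μ) (s := A)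
      (fun n => (MeasurableSet.of_discrete).nullMeasurableSet)
      (fun n n' h x hx => le_trans h hx)
      ⟨0, ne_top_of_le_ne_top hμ (measure_mono (Set.subset_univ _))⟩
    have hemp : ⋂ n, A n = ∅ := by
      ext x
      simp only [Set.mem_iInter, A, Set.mem_ofPred_eq, Set.mem_empty_iff_false, iff_false]
      intro h; have := h (x.length + 1); omega
    rw [hemp, measure_empty] at ht
    have hpos : 0 < μ Set.univ / 2 := ENNReal.half_pos h0
    obtain ⟨N, hN⟩ := (ht.eventually (gt_mem_nhds hpos)).exists
    refine ⟨N, fun v hv => ?_⟩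
    by_contra hcon
    have h1 : μ (S v) ≤ μ (A N) := measure_mono fun x hx => by
      have := (show v <+: x from hx).length_le
      show N ≤ x.length
      omega
    have h2 : μ (S v) < μ Set.univ / 2 := lt_of_le_of_lt h1 hN
    have h3 : μ Set.univ ≤ μ (S v) + μ (S v)ᶜ := by
      rw [measure_add_measure_compl MeasurableSet.of_discrete]
    have h4 : μ (S v) + μ (S v)ᶜ < μ Set.univ / 2 + μ Set.univ / 2 :=
      ENNReal.add_lt_add h2 (lt_of_le_of_lt hv h2)
    rw [ENNReal.add_halves] at h4
    exact absurd (lt_of_le_of_lt h3 h4) (lt_irrefl _)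
  obtain ⟨N, hN⟩ := hbd
  have hex : ∃ m, P m ∧ ∀ v, P v → v.length ≤ m.length := by
    classical
    have hh : ∃ n, ∀ v, P v → v.length ≤ n := ⟨N, fun v hv => (hN v hv).le⟩
    by_contra hcon
    push Not at hcon
    have : ∀ n, ∃ v, P v ∧ n ≤ v.length := by
      intro n
      induction n with
      | zero => exact ⟨[], hP0, by simp⟩
      | succ n ih =>
        obtain ⟨v, hv, hn⟩ := ih
        obtain ⟨w, hw, hl⟩ := hcon v hv
        exact ⟨w, hw, by omega⟩
    obtain ⟨v, hv, hn⟩ := this N
    have := hN v hv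
    omega
  obtain ⟨m, hm, hmax⟩ := hex
  refine ⟨m, fun j => ?_⟩
  cases j with
  | none =>
    have hs : br m none ⊆ (S m)ᶜ := fun x hx => cls_none hx.1 hx.2
    calc μ (br m none) ≤ μ (S m)ᶜ := measure_mono hs
      _ ≤ μ (S m) := hm
      _ ≤ μ (br m none)ᶜ := measure_mono (Set.subset_compl_comm.1 hs |> fun h => by
          intro x hx; exact fun hx' => hs hx' hx)
  | some b =>
    have hs : br m (some b) ⊆ S (m ++ [b]) := fun x hx => cls_eq_some.1 hx.1
    have hn : ¬ P (m ++ [b]) := fun h => by have := hmax _ h; simp at this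
    calc μ (br m (some b)) ≤ μ (S (m ++ [b])) := measure_mono hs
      _ ≤ μ (S (m ++ [b]))ᶜ := (not_le.1 hn).le
      _ ≤ μ (br m (some b))ᶜ := measure_mono (Set.compl_subset_compl.2 hs)

end Pool.Agent.H27.Hardy
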