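import Mathlib
import Pool.Agent.H27.HardyA

namespace Pool.Agent.H27.Hardy

open MeasureTheory
open scoped NNReal ENNReal InnerProductSpace ComplexConjugate

/-- The gradient of `F` on the edge whose child end is `a`. -/
def grad {𝕜 : Type*} [RCLike 𝕜] (F : Option Vx → 𝕜) (a : Vx) : 𝕜 := F (some a) - F (par a)

/-- Condition (a') with constant `C`. -/
def CondA (𝕜 : Type*) [RCLike 𝕜] [MeasurableSpace Vx] (μ : Measure Vx) (C : ℝ≥0) : Prop :=
  ∀ F : Option Vx → 𝕜, ∫⁻ p, ‖F (some p.1) - F (some p.2)‖ₑ ^ 2 ∂(μ.prod μ) ≤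
    C * ∑' a, ‖grad F a‖ₑ ^ 2

/-- Condition (b) with constant `C`, for a Hilbert space `H` of functions on pairs of vertices. -/
def CondB (𝕜 : Type*) [RCLike 𝕜] (H : Type*) [NormedAddCommGroup H] [InnerProductSpace 𝕜 H]
    [RKHS 𝕜 H (Vx × Vx) 𝕜] [MeasurableSpace Vx] (μ : Measure Vx) (C : ℝ≥0) : Prop :=
  ∀ G : H, ∫⁻ p, ‖G p‖ₑ ^ 2 ∂(μ.prod μ) ≤ C * ‖G‖ₑ ^ 2

/-- The kernel `|k|`, as a matrix of multiplication operators on the scalars. -/
noncomputable def absK (𝕜 : Type*) [RCLike 𝕜] : Matrix (Vx × Vx) (Vx × Vx) (𝕜 →L[𝕜] 𝕜) :=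
  Matrix.of fun p q => ((|kk q p| : ℤ) : 𝕜) • (1 : 𝕜 →L[𝕜] 𝕜)

variable {𝕜 : Type*} [RCLike 𝕜]

/-- Sum of `h` along the geodesic from `m`. -/
def phi (m : Vx) (h : Vx → ℝ≥0) (x : Vx) : ℝ≥0 := ∑ a ∈ geo (m, x), h a

lemma phi_eq (m : Vx) (h : Vx → ℝ≥0) (x : Vx) : (phi m h x : ℝ) =
    ∑ a ∈ anc x, (if a ∈ anc m then -(h a : ℝ) else h a) + ∑ a ∈ anc m, (h a : ℝ) := by
  have e1 : geo (m, x) = (anc m \ anc x) ∪ (anc x \ anc m) := by
    ext a; simp [geo, Finset.mem_symmDiff]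
  have hd : Disjoint (anc m \ anc x) (anc x \ anc m) := by
    rw [Finset.disjoint_left]; intro a h1 h2; simp at h1 h2; exact h1.2 h2.1
  rw [phi, e1, Finset.sum_union hd, Finset.sum_ite]
  have e2 : (anc x).filter (fun a => a ∈ anc m) = anc m ∩ anc x := by ext a; simp [and_comm]
  have e3 : (anc x).filter (fun a => ¬ a ∈ anc m) = anc x \ anc m := by ext a; simp
  rw [e2, e3, ← Finset.sum_inter_add_sum_sdiff (anc m) (anc x) (fun a => (h a : ℝ))]
  push_cast
  rw [Finset.sum_neg_distrib]; ring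

lemma condA_phi [MeasurableSpace Vx] {μ : Measure Vx} {C : ℝ≥0} (hA : CondA 𝕜 μ C) (m : Vx)
    (h : Vx → ℝ≥0) :
    ∫⁻ p, ‖(phi m h p.1 : ℝ) - (phi m h p.2 : ℝ)‖ₑ ^ 2 ∂(μ.prod μ) ≤
      C * ∑' a, (h a : ℝ≥0∞) ^ 2 := by
  let F : Option Vx → 𝕜 := fun o => match o with
    | none => ((∑ a ∈ anc m, (h a : ℝ) : ℝ) : 𝕜)
    | some x => (((phi m h x : ℝ)) : 𝕜)
  have hg : ∀ a, ‖grad F a‖ₑ = h a := by
    intro a
    have : ∃ r : ℝ, grad F a = (r : 𝕜) ∧ |r| = h a := by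
      refine ⟨if a ∈ anc m then -(h a : ℝ) else h a, ?_, by split_ifs <;> simp⟩
      induction a using List.reverseRecOn with
      | nil =>
        simp only [grad, par, if_true, F]
        rw [phi_eq, anc_nil, Finset.sum_singleton, ← RCLike.ofReal_sub]; congr 1; ring
      | append_singleton x b _ =>
        have : par (x ++ [b]) = some x := by simp [par]
        simp only [grad, this, F]
        rw [phi_eq, phi_eq, anc_concat, Finset.sum_insert (not_mem_anc_concat x b),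
          ← RCLike.ofReal_sub]; congr 1; ring
    obtain ⟨r, h1, h2⟩ := this
    rw [h1, ← ofReal_norm, RCLike.norm_ofReal, h2]; simp
  have := hA F
  simp only [hg] at this
  refine le_trans (le_of_eq ?_) this
  refine lintegral_congr fun p => ?_
  simp only [F]
  rw [← RCLike.ofReal_sub, ← ofReal_norm, ← ofReal_norm, RCLike.norm_ofReal,
    Real.norm_eq_abs]

lemma median [MeasurableSpace Vx] [DiscreteMeasurableSpace Vx] {μ : Measure Vx} {C : ℝ≥0}
    (hA : CondA 𝕜 μ C) : ∃ m, ∀ j, μ (br m j) ≤ μ (br m j)ᶜ := by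
  by_cases hμ : μ Set.univ = ⊤
  swap
  · exact median_fin μ hμ
  by_cases hat : ∃ m, μ {m} = ⊤
  · obtain ⟨m, hm⟩ := hat
    refine ⟨m, fun j => ?_⟩
    have : μ {m} ≤ μ (br m j)ᶜ := measure_mono fun x hx => by
      rw [Set.mem_singleton_iff.1 hx]; exact fun h => h.2 rfl
    rw [hm, top_le_iff] at this
    rw [this]; exact le_top
  push Not at hat
  exfalso
  have hx0 : ∃ x0, μ {x0} ≠ 0 := by
    by_contra hcon
    push Not at hcon
    have : μ Set.univ = 0 := by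
      rw [← Set.iUnion_of_singleton Vx]
      exact measure_iUnion_null hcon
    rw [this] at hμ; simp at hμ
  obtain ⟨x0, hx0⟩ := hx0
  have hc : μ {x0}ᶜ = ⊤ := by
    by_contra hne
    have := measure_add_measure_compl (μ := μ) (s := {x0}) MeasurableSet.of_discrete
    rw [hμ] at this
    exact (ENNReal.add_ne_top.2 ⟨hat x0, hne⟩) this
  classical
  let F : Option Vx → 𝕜 := fun o => if o = some x0 then 1 else 0
  have h1 := hA F
  have hfin : ∑' a, ‖grad F a‖ₑ ^ 2 ≠ ⊤ := by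
    rw [tsum_eq_sum (s := {x0, x0 ++ [false], x0 ++ [true]})]
    · exact ENNReal.sum_ne_top.2 fun a _ => by simp
    · intro a ha
      simp only [Finset.mem_insert, Finset.mem_singleton, not_or] at ha
      have e1 : F (some a) = 0 := by simp [F, ha.1]
      have e2 : F (par a) = 0 := by
        simp only [F]
        rw [if_neg]
        intro h
        induction a using List.reverseRecOn with
        | nil => simp [par] at h
        | append_singleton x b _ =>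
          have : par (x ++ [b]) = some x := by simp [par]
          rw [this, Option.some.injEq] at h
          subst h
          cases b
          · exact ha.2.1 rfl
          · exact ha.2.2 rfl
      simp [grad, e1, e2]
  have h2 : ∫⁻ p : Vx × Vx, ({x0} : Set Vx).indicator 1 p.1 * ({x0}ᶜ : Set Vx).indicator 1 p.2
      ∂(μ.prod μ) ≤ ∫⁻ p, ‖F (some p.1) - F (some p.2)‖ₑ ^ 2 ∂(μ.prod μ) := by
    refine lintegral_mono fun p => ?_
    by_cases g1 : p.1 = x0 <;> by_cases g2 : p.2 = x0 <;> simp [F, g1, g2, Set.indicator]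
  rw [lintegral_prod_mul (Measurable.of_discrete.aemeasurable) (Measurable.of_discrete.aemeasurable),
    lintegral_indicator_one MeasurableSet.of_discrete,
    lintegral_indicator_one MeasurableSet.of_discrete, hc, ENNReal.mul_top hx0] at h2
  exact (ENNReal.mul_ne_top ENNReal.coe_ne_top hfin) (top_le_iff.1 (h2.trans h1))

lemma branch [MeasurableSpace Vx] [DiscreteMeasurableSpace Vx] {μ : Measure Vx} {C : ℝ≥0}
    (hA : CondA 𝕜 μ C) (m : Vx) (h : Vx → ℝ≥0) (K : Set Vx) (hK : μ K ≤ μ Kᶜ)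
    (hz : ∀ x, x ∉ K → phi m h x = 0) :
    μ Set.univ * ∫⁻ x, (phi m h x : ℝ≥0∞) ^ 2 ∂μ ≤ C * ∑' a, (h a : ℝ≥0∞) ^ 2 := by
  refine le_trans ?_ (condA_phi hA m h)
  have hm : ∀ f : Vx → ℝ≥0∞, AEMeasurable f μ := fun f => Measurable.of_discrete.aemeasurable
  have h2 : ∫⁻ p : Vx × Vx, ((phi m h p.1 : ℝ≥0∞) ^ 2 * Kᶜ.indicator 1 p.2 +
      Kᶜ.indicator 1 p.1 * (phi m h p.2 : ℝ≥0∞) ^ 2) ∂(μ.prod μ) ≤
      ∫⁻ p, ‖(phi m h p.1 : ℝ) - (phi m h p.2 : ℝ)‖ₑ ^ 2 ∂(μ.prod μ) := by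
    refine lintegral_mono fun p => ?_
    by_cases g1 : p.1 ∈ K <;> by_cases g2 : p.2 ∈ K
    · simp [g1, g2]
    · simp [g1, g2, hz _ g2]
    · simp [g1, g2, hz _ g1]
    · simp [hz _ g1, hz _ g2]
  refine le_trans ?_ h2
  rw [lintegral_add_left Measurable.of_discrete,
    lintegral_prod_mul (f := fun x => (phi m h x : ℝ≥0∞) ^ 2) (hm _) (hm _),
    lintegral_prod_mul (g := fun x => (phi m h x : ℝ≥0∞) ^ 2) (hm _) (hm _),
    lintegral_indicator_one MeasurableSet.of_discrete, mul_comm _ (μ Kᶜ), ← add_mul,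
    ← measure_add_measure_compl (μ := μ) (s := K) MeasurableSet.of_discrete]
  gcongr

lemma core [MeasurableSpace Vx] [DiscreteMeasurableSpace Vx] {μ : Measure Vx} {C : ℝ≥0}
    (hA : CondA 𝕜 μ C) (g : Vx → ℝ≥0) :
    ∫⁻ p, ((∑ a ∈ geo p, g a : ℝ≥0) : ℝ≥0∞) ^ 2 ∂(μ.prod μ) ≤
      (4 * C : ℝ≥0) * ∑' a, (g a : ℝ≥0∞) ^ 2 := by
  obtain ⟨m, hm⟩ := median hA
  have hme : ∀ f : Vx → ℝ≥0∞, AEMeasurable f μ := fun f => Measurable.of_discrete.aemeasurable
  let gj : Option Bool → Vx → ℝ≥0 := fun j a => if cls m a = j then g a else 0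
  have hphi : ∀ j x, phi m (gj j) x = if cls m x = j then phi m g x else 0 := by
    intro j x
    simp only [phi, gj]
    split_ifs with h
    · exact Finset.sum_congr rfl fun a ha => by rw [cls_geo ha, if_pos h]
    · exact Finset.sum_eq_zero fun a ha => by rw [cls_geo ha, if_neg h]
  have hb : ∀ j, μ Set.univ * ∫⁻ x, (phi m (gj j) x : ℝ≥0∞) ^ 2 ∂μ ≤
      C * ∑' a, (gj j a : ℝ≥0∞) ^ 2 := by
    intro j
    refine branch hA m _ (br m j) (hm j) fun x hx => ?_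
    rw [hphi]
    split_ifs with h
    · have : x = m := by
        by_contra hne
        exact hx ⟨h, hne⟩
      simp [this, phi, geo]
    · rfl
  have hsum := Finset.sum_le_sum (s := Finset.univ) fun j _ => hb j
  rw [← Finset.mul_sum, ← Finset.mul_sum,
    ← lintegral_finsetSum _ (fun j _ => Measurable.of_discrete),
    ← Summable.tsum_finsetSum (fun j _ => ENNReal.summable)] at hsum
  have e1 : ∀ x, ∑ j, (phi m (gj j) x : ℝ≥0∞) ^ 2 = (phi m g x : ℝ≥0∞) ^ 2 := by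
    intro x
    rw [Finset.sum_eq_single (cls m x)]
    · rw [hphi, if_pos rfl]
    · intro j _ hj; rw [hphi, if_neg (Ne.symm hj)]; simp
    · simp
  have e2 : ∀ a, ∑ j, (gj j a : ℝ≥0∞) ^ 2 = (g a : ℝ≥0∞) ^ 2 := by
    intro x
    rw [Finset.sum_eq_single (cls m x)]
    · simp [gj]
    · intro j _ hj; simp [gj, Ne.symm hj]
    · simp
  simp only [e1, e2] at hsum
  have h2 : ∫⁻ p, ((∑ a ∈ geo p, g a : ℝ≥0) : ℝ≥0∞) ^ 2 ∂(μ.prod μ) ≤
      ∫⁻ p : Vx × Vx, ((2 * (phi m g p.1 : ℝ≥0∞) ^ 2) * (fun _ => (1 : ℝ≥0∞)) p.2 +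
      (fun _ => (1 : ℝ≥0∞)) p.1 * (2 * (phi m g p.2 : ℝ≥0∞) ^ 2)) ∂(μ.prod μ) := by
    refine lintegral_mono fun p => ?_
    have t1 : ∑ a ∈ geo p, g a ≤ phi m g p.1 + phi m g p.2 :=
      le_trans (Finset.sum_le_sum_of_subset (geo_triangle m p.1 p.2))
        (by rw [phi, phi, ← Finset.sum_union_inter]; exact le_self_add)
    have t2 : (∑ a ∈ geo p, g a) ^ 2 ≤ 2 * phi m g p.1 ^ 2 + 2 * phi m g p.2 ^ 2 := by
      refine le_trans (pow_le_pow_left₀ zero_le t1 2) ?_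
      rw [← NNReal.coe_le_coe]; push_cast
      nlinarith [sq_nonneg ((phi m g p.1 : ℝ) - phi m g p.2)]
    simp only [mul_one, one_mul]
    exact_mod_cast t2
  refine le_trans h2 ?_
  rw [lintegral_add_left Measurable.of_discrete,
    lintegral_prod_mul (f := fun x => 2 * (phi m g x : ℝ≥0∞) ^ 2) (g := fun _ => 1) (hme _) (hme _),
    lintegral_prod_mul (g := fun x => 2 * (phi m g x : ℝ≥0∞) ^ 2) (f := fun _ => 1) (hme _) (hme _),
    lintegral_const_mul _ Measurable.of_discrete, lintegral_one]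
  calc _ = 4 * (μ Set.univ * ∫⁻ x, (phi m g x : ℝ≥0∞) ^ 2 ∂μ) := by ring
    _ ≤ 4 * (C * ∑' a, (g a : ℝ≥0∞) ^ 2) := by gcongr
    _ = _ := by push_cast; ring

section
variable {H : Type*} [NormedAddCommGroup H] [InnerProductSpace 𝕜 H] [CompleteSpace H]
  [RKHS 𝕜 H (Vx × Vx) 𝕜]

/-- `G` is represented by the finitely supported edge function `f`. -/
def Rep (G : H) (f : Vx →₀ 𝕜) : Prop :=
  (∀ p, G p = ∑ a ∈ geo p, f a) ∧
    ∀ (G' : H) (f' : Vx → 𝕜), (∀ p, G' p = ∑ a ∈ geo p, f' a) →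
      ⟪G, G'⟫_𝕜 = f.sum fun a c => conj c * f' a

omit [CompleteSpace H] in
lemma Rep.zero : Rep (0 : H) (0 : Vx →₀ 𝕜) := ⟨by simp, by simp⟩

omit [CompleteSpace H] in
lemma Rep.add {G G' : H} {f f' : Vx →₀ 𝕜} (h : Rep G f) (h' : Rep G' f') :
    Rep (G + G') (f + f') := by
  refine ⟨fun p => by simp [h.1 p, h'.1 p, Finset.sum_add_distrib], fun G2 f2 h2 => ?_⟩
  rw [inner_add_left, h.2 G2 f2 h2, h'.2 G2 f2 h2, Finsupp.sum_add_index'] <;> simp [add_mul]

omit [CompleteSpace H] in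
lemma Rep.smul {G : H} {f : Vx →₀ 𝕜} (h : Rep G f) (c : 𝕜) : Rep (c • G) (c • f) := by
  refine ⟨fun p => by simp [h.1 p, Finset.mul_sum], fun G2 f2 h2 => ?_⟩
  rw [inner_smul_left, h.2 G2 f2 h2, Finsupp.sum_smul_index' (by simp), Finsupp.mul_sum]
  simp [mul_assoc]

lemma Rep.ker (hK : RKHS.kernel H = absK 𝕜) (q : Vx × Vx) (v : 𝕜) :
    Rep (RKHS.kerFun H q v) (∑ a ∈ geo q, Finsupp.single a v) := by
  refine ⟨fun p => ?_, fun G2 f2 h2 => ?_⟩
  · rw [RKHS.kerFun_apply, hK]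
    simp only [absK, Matrix.of_apply, abs_kk, Finsupp.coe_finsetSum, Finset.sum_apply,
      Finsupp.single_apply]
    simp only [Finset.sum_ite_eq', Finset.sum_ite_mem, Finset.sum_const]
    rw [Finset.inter_comm]
    simp
  · rw [RKHS.kerFun_inner, h2, ← Finsupp.sum_finsetSum_index (by simp) (by simp [add_mul])]
    simp [Finset.sum_mul, mul_comm]

omit [CompleteSpace H] in
lemma Rep.norm {G : H} {f : Vx →₀ 𝕜} (h : Rep G f) :
    ‖G‖ₑ ^ 2 = ∑' a, ‖f a‖ₑ ^ 2 := by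
  have h1 := h.2 G f h.1
  rw [inner_self_eq_norm_sq_to_K] at h1
  simp only [RCLike.conj_mul, Finsupp.sum] at h1
  have h2 : ‖G‖ ^ 2 = ∑ a ∈ f.support, ‖f a‖ ^ 2 := by
    apply RCLike.ofReal_injective (K := 𝕜)
    push_cast; exact h1
  rw [tsum_eq_sum (s := f.support) (fun a ha => by simp [Finsupp.notMem_support_iff.1 ha])]
  have h3 : ‖G‖₊ ^ 2 = ∑ a ∈ f.support, ‖f a‖₊ ^ 2 := by
    rw [← NNReal.coe_inj]; push_cast; exact h2
  simp only [enorm_eq_nnnorm]
  exact_mod_cast h3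

theorem a_to_b (hK : RKHS.kernel H = absK 𝕜) [MeasurableSpace Vx] [DiscreteMeasurableSpace Vx]
    {μ : Measure Vx} {C : ℝ≥0} (hA : CondA 𝕜 μ C) : CondB 𝕜 H μ (4 * C) := by
  have hspan : ∀ G ∈ Submodule.span 𝕜 {RKHS.kerFun H x v | (x) (v)}, ∃ f : Vx →₀ 𝕜, Rep G f := by
    intro G hG
    induction hG using Submodule.span_induction with
    | mem x hx => obtain ⟨q, v, rfl⟩ := hx; exact ⟨_, Rep.ker hK q v⟩
    | zero => exact ⟨0, Rep.zero⟩
    | add x y _ _ hx hy =>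
      obtain ⟨f, hf⟩ := hx; obtain ⟨g, hg⟩ := hy; exact ⟨_, hf.add hg⟩
    | smul c x _ hx => obtain ⟨f, hf⟩ := hx; exact ⟨_, hf.smul c⟩
  have hb : ∀ G ∈ Submodule.span 𝕜 {RKHS.kerFun H x v | (x) (v)},
      ∫⁻ p, ‖G p‖ₑ ^ 2 ∂(μ.prod μ) ≤ (4 * C : ℝ≥0) * ‖G‖ₑ ^ 2 := by
    intro G hG
    obtain ⟨f, hf⟩ := hspan G hG
    rw [hf.norm]
    refine le_trans (lintegral_mono fun p => ?_) (core hA fun a => ‖f a‖₊)
    rw [hf.1 p, enorm_eq_nnnorm]
    gcongr
    exact nnnorm_sum_le _ _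
  intro G
  have hG : G ∈ closure ((Submodule.span 𝕜 {RKHS.kerFun H x v | (x) (v)} : Submodule 𝕜 H) :
      Set H) := by
    rw [← Submodule.topologicalClosure_coe, RKHS.kerFun_dense]; trivial
  obtain ⟨u, hu, hlim⟩ := mem_closure_iff_seq_limit.1 hG
  have hpt : ∀ p, Filter.liminf (fun n => ‖u n p‖ₑ ^ 2) Filter.atTop = ‖G p‖ₑ ^ 2 := by
    intro p
    apply Filter.Tendsto.liminf_eq
    exact ENNReal.Tendsto.pow (((RKHS.continuous_eval p).tendsto G).comp hlim).enorm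
  have hn : Filter.Tendsto (fun n => ((4 * C : ℝ≥0) : ℝ≥0∞) * ‖u n‖ₑ ^ 2) Filter.atTop
      (nhds (((4 * C : ℝ≥0) : ℝ≥0∞) * ‖G‖ₑ ^ 2)) :=
    ENNReal.Tendsto.const_mul (ENNReal.Tendsto.pow hlim.enorm) (Or.inr ENNReal.coe_ne_top)
  calc ∫⁻ p, ‖G p‖ₑ ^ 2 ∂(μ.prod μ)
      = ∫⁻ p, Filter.liminf (fun n => ‖u n p‖ₑ ^ 2) Filter.atTop ∂(μ.prod μ) := by simp only [hpt]
    _ ≤ Filter.liminf (fun n => ∫⁻ p, ‖u n p‖ₑ ^ 2 ∂(μ.prod μ)) Filter.atTop :=
        lintegral_liminf_le fun n => Measurable.of_discrete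
    _ ≤ Filter.liminf (fun n => ((4 * C : ℝ≥0) : ℝ≥0∞) * ‖u n‖ₑ ^ 2) Filter.atTop :=
        Filter.liminf_le_liminf (Filter.Eventually.of_forall fun n => hb _ (hu n))
    _ = _ := hn.liminf_eq

lemma sub_eq_sum (F : Option Vx → 𝕜) (x : Vx) : F (some x) - F none = ∑ a ∈ anc x, grad F a := by
  induction x using List.reverseRecOn with
  | nil => simp [anc_nil, grad, par]
  | append_singleton x b ih =>
    have : par (x ++ [b]) = some x := by simp [par]
    rw [anc_concat, Finset.sum_insert (not_mem_anc_concat x b), ← ih, grad, this]; ring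

lemma norm_sub_le_geo (F : Option Vx → 𝕜) (p : Vx × Vx) :
    ‖F (some p.1) - F (some p.2)‖ ≤ ∑ a ∈ geo p, ‖grad F a‖ := by
  have e : F (some p.1) - F (some p.2) =
      ∑ a ∈ anc p.1 \ anc p.2, grad F a - ∑ a ∈ anc p.2 \ anc p.1, grad F a := by
    rw [Finset.sum_sdiff_sub_sum_sdiff, ← sub_eq_sum, ← sub_eq_sum]; ring
  have e1 : geo p = (anc p.1 \ anc p.2) ∪ (anc p.2 \ anc p.1) := by
    ext a; simp [geo, Finset.mem_symmDiff]
  have hd : Disjoint (anc p.1 \ anc p.2) (anc p.2 \ anc p.1) := by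
    rw [Finset.disjoint_left]; intro a h1 h2; simp at h1 h2; exact h1.2 h2.1
  rw [e, e1, Finset.sum_union hd]
  exact le_trans (norm_sub_le _ _) (add_le_add (norm_sum_le _ _) (norm_sum_le _ _))

theorem b_to_a (hK : RKHS.kernel H = absK 𝕜) [MeasurableSpace Vx] [DiscreteMeasurableSpace Vx]
    {μ : Measure Vx} {C : ℝ≥0} (hB : CondB 𝕜 H μ C) : CondA 𝕜 μ C := by
  intro F
  have hrep : ∀ s : Finset Vx, [] ∉ s → ∃ G : H,
      Rep G (∑ a ∈ s, Finsupp.single a ((‖grad F a‖ : ℝ) : 𝕜)) := by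
    intro s
    induction s using Finset.induction_on with
    | empty => exact fun _ => ⟨0, by simpa using Rep.zero⟩
    | insert a s ha ih =>
      intro h
      obtain ⟨G, hG⟩ := ih (fun h' => h (Finset.mem_insert_of_mem h'))
      rw [Finset.sum_insert ha]
      induction a using List.reverseRecOn with
      | nil => simp at h
      | append_singleton x b _ =>
        have := Rep.ker hK (x, x ++ [b]) ((‖grad F (x ++ [b])‖ : ℝ) : 𝕜)
        rw [geo_edge, Finset.sum_singleton] at this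
        exact ⟨_, this.add hG⟩
  let s : ℕ → Finset Vx := fun n => ((List.finite_length_le Bool n).toFinset).erase []
  choose G hG using fun n => hrep (s n) (Finset.notMem_erase _ _)
  have hval : ∀ n a, (∑ a ∈ s n, Finsupp.single a ((‖grad F a‖ : ℝ) : 𝕜)) a =
      if a ∈ s n then ((‖grad F a‖ : ℝ) : 𝕜) else 0 := by
    intro n a
    simp only [Finsupp.coe_finsetSum, Finset.sum_apply, Finsupp.single_apply]
    rw [Finset.sum_ite_eq']
  have hnorm : ∀ n, ‖G n‖ₑ ^ 2 ≤ ∑' a, ‖grad F a‖ₑ ^ 2 := by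
    intro n
    rw [(hG n).norm]
    refine ENNReal.tsum_le_tsum fun a => ?_
    rw [hval]
    split_ifs
    · rw [← ofReal_norm, RCLike.norm_ofReal, abs_norm, ofReal_norm]
    · simp
  have hpt : ∀ p : Vx × Vx, ‖F (some p.1) - F (some p.2)‖ₑ ^ 2 ≤
      Filter.liminf (fun n => ‖G n p‖ₑ ^ 2) Filter.atTop := by
    intro p
    refine Filter.le_liminf_of_le (by isBoundedDefault) ?_
    filter_upwards [Filter.eventually_ge_atTop (p.1.length + p.2.length)] with n hn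
    have e : G n p = ((∑ a ∈ geo p, ‖grad F a‖ : ℝ) : 𝕜) := by
      rw [(hG n).1 p, RCLike.ofReal_sum]
      refine Finset.sum_congr rfl fun a ha => ?_
      rw [hval, if_pos]
      simp only [s, Finset.mem_erase, Set.Finite.mem_toFinset]
      refine ⟨fun h => nil_not_mem_geo p (h ▸ ha), ?_⟩
      show a.length ≤ n
      rcases mem_geo.1 ha with h | h <;> have := h.1.length_le <;> omega
    gcongr
    rw [← ofReal_norm, ← ofReal_norm, e, RCLike.norm_ofReal]
    exact ENNReal.ofReal_le_ofReal ((norm_sub_le_geo F p).trans (le_abs_self _))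
  calc _ ≤ ∫⁻ p, Filter.liminf (fun n => ‖G n p‖ₑ ^ 2) Filter.atTop ∂(μ.prod μ) :=
        lintegral_mono hpt
    _ ≤ Filter.liminf (fun n => ∫⁻ p, ‖G n p‖ₑ ^ 2 ∂(μ.prod μ)) Filter.atTop :=
        lintegral_liminf_le fun n => Measurable.of_discrete
    _ ≤ _ := by
        refine Filter.liminf_le_of_frequently_le' (Filter.Frequently.of_forall fun n => ?_)
        exact (hB (G n)).trans (by gcongr; exact hnorm n)

end

open scoped ComplexOrder in
theorem absK_psd : (absK 𝕜).PosSemidef := by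
  have hh : (absK 𝕜).IsHermitian := by
    ext p q
    simp [absK, abs_kk, Matrix.conjTranspose_apply, Finset.inter_comm]
  have ht := (RKHS.posSemidef_tfae (𝕜 := 𝕜) (K := absK 𝕜)).out 2 0
  refine ht.1 ⟨hh, fun vv => ?_⟩
  let U := vv.support.biUnion geo
  let w : Vx → 𝕜 := fun a => ∑ p ∈ vv.support, if a ∈ geo p then vv p else 0
  have : (vv.sum fun x v => vv.sum fun x' v' => ⟪absK 𝕜 x' x v, v'⟫_𝕜) =
      ∑ a ∈ U, conj (w a) * w a := by
    simp only [w, map_sum, Finset.sum_mul_sum, Finsupp.sum]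
    rw [Finset.sum_comm (s := U)]
    refine Finset.sum_congr rfl fun p hp => ?_
    rw [Finset.sum_comm (s := U)]
    refine Finset.sum_congr rfl fun q hq => ?_
    have hs : geo p ⊆ U := Finset.subset_biUnion_of_mem geo hp
    simp only [absK, Matrix.of_apply, abs_kk, card_eq_sum U _ _ hs]
    simp only [ContinuousLinearMap.smul_apply, ContinuousLinearMap.one_apply, smul_eq_mul,
      RCLike.inner_apply, map_mul, map_intCast]
    push_cast
    rw [Finset.sum_mul, Finset.mul_sum]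
    refine Finset.sum_congr rfl fun a _ => ?_
    split_ifs <;> simp [mul_comm]
  rw [this, map_sum]
  refine Finset.sum_nonneg fun a _ => ?_
  rw [RCLike.conj_mul]
  norm_cast
  simp

end Pool.Agent.H27.Hardy
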