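import Mathlib

namespace Pool.Agent.H27.Hasse
open Polynomial Finset

variable {F : Type*} [Field F]

/-- coefficient of the middle term -/
theorem mid_coeff (n : ℕ) (a b : F) :
    ((X * (X - C a) * (X - C b)) ^ n).coeff (2 * n)
      = ∑ i ∈ range (n + 1), (n.choose i : F) ^ 2 * (-a) ^ (n - i) * (-b) ^ i := by
  rw [mul_assoc, mul_pow, mul_pow, two_mul, coeff_X_pow_mul, coeff_mul,
    Finset.Nat.sum_antidiagonal_eq_sum_range_succ_mk]
  refine Finset.sum_congr rfl fun i hi => ?_
  have hi' : i ≤ n := Nat.lt_succ_iff.mp (mem_range.mp hi)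
  rw [sub_eq_add_neg, sub_eq_add_neg X (C b), ← C_neg, ← C_neg, coeff_X_add_C_pow,
    coeff_X_add_C_pow, Nat.choose_symm hi', Nat.sub_sub_self hi']
  ring

theorem homog (G U T : F[X]) (hT : T ≠ 0) (d : ℕ) (hG : G.natDegree ≤ d) :
    algebraMap F[X] (FractionRing F[X]) (∑ i ∈ range (d + 1), C (G.coeff i) * U ^ i * T ^ (d - i))
      = (algebraMap F[X] (FractionRing F[X]) T) ^ d *
        aeval (algebraMap F[X] (FractionRing F[X]) U / algebraMap F[X] (FractionRing F[X]) T) G := by
  have hT' : algebraMap F[X] (FractionRing F[X]) T ≠ 0 := by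
    simpa using hT
  rw [aeval_eq_sum_range' (Nat.lt_succ_of_le hG), map_sum, Finset.mul_sum]
  refine Finset.sum_congr rfl fun i hi => ?_
  have hi' : i ≤ d := Nat.lt_succ_iff.mp (mem_range.mp hi)
  obtain ⟨k, rfl⟩ := Nat.exists_eq_add_of_le hi'
  rw [Nat.add_sub_cancel_left, Algebra.smul_def, map_mul, map_mul, map_pow, map_pow,
    IsScalarTower.algebraMap_apply F F[X] (FractionRing F[X]), algebraMap_eq, div_pow]
  field_simp
  ring

theorem homog_pow (n : ℕ) (A B : F) (U T : F[X]) (hT : T ≠ 0) :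
    ∑ i ∈ range (3 * n + 1), C (((X * (X - C A) * (X - C B)) ^ n).coeff i) * U ^ i * T ^ (3 * n - i)
      = (U * (U - C A * T) * (U - C B * T)) ^ n := by
  apply IsFractionRing.injective F[X] (FractionRing F[X])
  have hT' : algebraMap F[X] (FractionRing F[X]) T ≠ 0 := by
    simpa using hT
  have hdeg : ((X * (X - C A) * (X - C B)) ^ n).natDegree ≤ 3 * n := by
    refine natDegree_pow_le.trans ?_
    have : (X * (X - C A) * (X - C B)).natDegree ≤ 3 := by compute_degree
    nlinarith
  rw [homog _ _ _ hT _ hdeg]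
  simp only [map_pow, map_mul, map_sub, aeval_X, aeval_C]
  rw [pow_mul, ← mul_pow]
  congr 1
  rw [IsScalarTower.algebraMap_apply F F[X] (FractionRing F[X]),
    IsScalarTower.algebraMap_apply F F[X] (FractionRing F[X]) B, algebraMap_eq]
  field_simp

/-- Transfer of the Hasse coefficient along an isogeny of degree three. -/
theorem transfer (p n : ℕ) [Fact p.Prime] [CharP F p] (hp : p = 2 * n + 1)
    (f U V W : F[X]) (A B c : F) (hc : c ≠ 0)
    (hf : f.natDegree ≤ 3) (hU : U.natDegree ≤ 3) (hV : V.natDegree ≤ 1) (hW : W.natDegree ≤ 3)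
    (hUc : U.coeff 3 = c ^ 2) (hVc : V.coeff 1 = c) (hWc : W.coeff 3 = c ^ 3)
    (hD : derivative U * V - 2 * U * derivative V = W)
    (hI : U * (U - C A * V ^ 2) * (U - C B * V ^ 2) = f * W ^ 2) :
    ((X * (X - C A) * (X - C B)) ^ n).coeff (2 * n) * c ^ (6 * n + 3)
      = (f ^ n).coeff (2 * n) * (c ^ 3) ^ p := by
  have hpp : p.Prime := Fact.out
  have hn : 1 ≤ n := by have := hpp.two_le; omega
  have hV0 : V ≠ 0 := by rintro rfl; simp at hVc; exact hc hVc.symm
  have key := homog_pow n A B U (V ^ 2) (pow_ne_zero _ hV0)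
  rw [hI] at key
  set G := (X * (X - C A) * (X - C B)) ^ n with hG
  have key2 : ∑ i ∈ range (3 * n + 1), C (G.coeff i) * (U ^ i * V ^ (6 * n - 2 * i) * W)
      = f ^ n * W ^ p := by
    have : f ^ n * W ^ p = (f * W ^ 2) ^ n * W := by rw [hp]; ring
    rw [this, ← key, Finset.sum_mul]
    refine Finset.sum_congr rfl fun i hi => ?_
    rw [← pow_mul, show 2 * (3 * n - i) = 6 * n - 2 * i by omega]
    ring
  have hp0 : ((2 * n + 1 : ℕ) : F) = 0 := by rw [← hp]; exact CharP.cast_eq_zero F p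
  -- vanishing of the exact terms
  have hexact : ∀ i ∈ range (3 * n + 1), i ≠ 2 * n →
      (C (G.coeff i) * (U ^ i * V ^ (6 * n - 2 * i) * W)).coeff (8 * n + 3) = 0 := by
    intro i hi hne
    have hi' : i ≤ 3 * n := Nat.lt_succ_iff.mp (mem_range.mp hi)
    obtain ⟨k, hk⟩ : ∃ k, k + 2 * i = 6 * n := ⟨6 * n - 2 * i, by omega⟩
    have hk' : 6 * n - 2 * i = k := by omega
    rw [hk']
    have hcast : ((k + 1 : ℕ) : F) = -2 * ((i + 1 : ℕ) : F) := by
      have h1 : ((k + 2 * i : ℕ) : F) = ((6 * n : ℕ) : F) := by rw [hk]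
      push_cast at h1 hp0 ⊢
      linear_combination h1 + 3 * hp0
    have hder : derivative (U ^ (i + 1) * V ^ (k + 1))
        = C ((i + 1 : ℕ) : F) * (U ^ i * V ^ k * W) := by
      rw [derivative_mul, derivative_pow_succ, derivative_pow_succ, ← hD]
      have e1 : (C ((k : F) + 1) : F[X]) = -2 * C ((i : F) + 1) := by
        have := hcast; push_cast at this
        rw [this, map_mul, map_neg]; rfl
      rw [e1]; push_cast; ring
    have h0 : (derivative (U ^ (i + 1) * V ^ (k + 1))).coeff (8 * n + 3) = 0 := by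
      rw [coeff_derivative]
      have : ((8 * n + 3 : ℕ) : F) + 1 = 0 := by
        push_cast at hp0 ⊢; linear_combination 4 * hp0
      rw [this, mul_zero]
    rw [hder, coeff_C_mul] at h0
    have hi0 : ((i + 1 : ℕ) : F) ≠ 0 := by
      rw [Ne, CharP.cast_eq_zero_iff F p]
      rintro ⟨m, hm⟩
      rcases m with _ | _ | m
      · omega
      · omega
      · rw [hp] at hm; nlinarith
    rw [coeff_C_mul, (mul_eq_zero.mp h0).resolve_left hi0, mul_zero]
  have hL : (∑ i ∈ range (3 * n + 1), C (G.coeff i) * (U ^ i * V ^ (6 * n - 2 * i) * W)).coeff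
      (8 * n + 3) = G.coeff (2 * n) * c ^ (6 * n + 3) := by
    rw [finsetSum_coeff, Finset.sum_eq_single (2 * n) hexact
      (by intro h; exact absurd (mem_range.mpr (by omega)) h), coeff_C_mul]
    congr 1
    have h1 : (U ^ (2 * n)).natDegree ≤ 2 * n * 3 := natDegree_pow_le.trans (by gcongr)
    have h2 : (V ^ (2 * n)).natDegree ≤ 2 * n * 1 := natDegree_pow_le.trans (by gcongr)
    have h3 : (U ^ (2 * n) * V ^ (2 * n)).natDegree ≤ 2 * n * 3 + 2 * n * 1 :=
      natDegree_mul_le.trans (by omega)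
    rw [show 6 * n - 2 * (2 * n) = 2 * n by omega,
      show 8 * n + 3 = (2 * n * 3 + 2 * n * 1) + 3 by ring,
      coeff_mul_add_eq_of_natDegree_le h3 hW, coeff_mul_add_eq_of_natDegree_le h1 h2,
      coeff_pow_of_natDegree_le hU, coeff_pow_of_natDegree_le hV, hUc, hVc, hWc]
    ring
  have hWp : W ^ p = ∑ j ∈ range 4, C (W.coeff j ^ p) * X ^ (p * j) := by
    conv_lhs => rw [as_sum_range' W 4 (by omega)]
    rw [sum_pow_char]
    refine Finset.sum_congr rfl fun j _ => ?_
    rw [← C_mul_X_pow_eq_monomial, mul_pow, ← pow_mul, map_pow, mul_comm j p]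
  have hfn : (f ^ n).natDegree ≤ n * 3 := natDegree_pow_le.trans (by gcongr)
  have hR : (f ^ n * W ^ p).coeff (8 * n + 3) = (f ^ n).coeff (2 * n) * (c ^ 3) ^ p := by
    rw [hWp, Finset.mul_sum, finsetSum_coeff, Finset.sum_eq_single 3]
    · rw [← mul_assoc, show 8 * n + 3 = 2 * n + p * 3 by omega, coeff_mul_X_pow, coeff_mul_C, hWc]
    · intro j hj hne
      have hj' : j ≤ 2 := by have := mem_range.mp hj; omega
      obtain ⟨m, hm⟩ : ∃ m, 8 * n + 3 = m + p * j := ⟨8 * n + 3 - p * j, by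
        have : p * j ≤ p * 2 := by gcongr
        omega⟩
      have hm2 : n * 3 < m := by
        have : p * j ≤ p * 2 := by gcongr
        omega
      rw [← mul_assoc, hm, coeff_mul_X_pow, coeff_mul_C,
        coeff_eq_zero_of_natDegree_lt (by omega), zero_mul]
    · intro h; exact absurd (mem_range.mpr (by omega)) h
  rw [← hL, key2, hR]

theorem centralBinom_cast (p n : ℕ) [Fact p.Prime] [CharP F p] (hp : p = 2 * n + 1) :
    ∀ k ≤ n, ((2 * k).choose k : F) = (n.choose k : F) * (-4) ^ k := by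
  have hp0 : ((2 * n + 1 : ℕ) : F) = 0 := by rw [← hp]; exact CharP.cast_eq_zero F p
  intro k
  induction k with
  | zero => simp
  | succ k ih =>
    intro hk
    have ih' := ih (by omega)
    have hk0 : ((k + 1 : ℕ) : F) ≠ 0 := by
      rw [Ne, CharP.cast_eq_zero_iff F p]
      intro h
      have := Nat.le_of_dvd (by omega) h
      omega
    have h1 := congrArg (Nat.cast : ℕ → F) (Nat.succ_mul_centralBinom_succ k)
    have h2 := congrArg (Nat.cast : ℕ → F) (Nat.choose_succ_right_eq n k)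
    rw [Nat.centralBinom_eq_two_mul_choose, Nat.centralBinom_eq_two_mul_choose] at h1
    rw [Nat.cast_mul, Nat.cast_mul, Nat.cast_sub (by omega)] at h2
    apply mul_left_cancel₀ hk0
    push_cast at h1 h2 hp0 ⊢
    rw [h1, ih', pow_succ]
    linear_combination 4 * (-4 : F) ^ k * h2 + 2 * (-4 : F) ^ k * (n.choose k : F) * hp0

end Pool.Agent.H27.Hasse
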