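import Mathlib

namespace Pool.Agent.H27.Irreg

open Filter Topology

open Classical in
/-- The proportion of `A` in `[0, N]`. -/
noncomputable def frac (A : Set ℕ) (N : ℕ) : ℝ :=
  (((Finset.range (N + 1)).filter (· ∈ A)).card : ℝ) / (N + 1)

/-- Lower density. -/
noncomputable def lowerDens (A : Set ℕ) : ℝ := liminf (frac A) atTop

/-- Upper density. -/
noncomputable def upperDens (A : Set ℕ) : ℝ := limsup (frac A) atTop

/-- Visiting times. -/
def visits {X : Type*} (T : X → X) (x : X) (U : Set X) : Set ℕ := {n | T^[n] x ∈ U}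

/-- `x` is frequently hypercyclic for `T`. -/
def FreqHC {X : Type*} [TopologicalSpace X] (T : X → X) (x : X) : Prop :=
  ∀ U : Set X, IsOpen U → U.Nonempty → 0 < lowerDens (visits T x U)

/-- The orbit of `x` is irregularly visiting. -/
def IrregVisit {X : Type*} [TopologicalSpace X] (T : X → X) (x : X) : Prop :=
  ∃ U : Set X, IsOpen U ∧ U.Nonempty ∧ lowerDens (visits T x U) < upperDens (visits T x U)

lemma frac_bd (A : Set ℕ) (N : ℕ) : 0 ≤ frac A N ∧ frac A N ≤ 1 := by
  classical
  unfold frac
  refine ⟨by positivity, ?_⟩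
  rw [div_le_one (by positivity)]
  have := Finset.card_filter_le (Finset.range (N + 1)) (· ∈ A)
  rw [Finset.card_range] at this
  exact_mod_cast this

lemma sep_card (S : Finset ℕ) (K N : ℕ) (hK : 0 < K) (n : ℕ) (h1 : ∀ m ∈ S, n < m ∧ m ≤ N)
    (h2 : ∀ m ∈ S, ∀ m' ∈ insert n S, m' < m → m' + K ≤ m) : S.card * K ≤ N := by
  have hinj : Set.InjOn (fun m => m / K) S := by
    intro a ha b hb hab
    simp only at hab
    by_contra hne
    rcases lt_or_gt_of_ne hne with h | h
    · have := h2 b hb a (Finset.mem_insert_of_mem ha) h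
      have := Nat.div_le_div_right (c := K) this
      rw [Nat.add_div_right _ hK] at this; omega
    · have := h2 a ha b (Finset.mem_insert_of_mem hb) h
      have := Nat.div_le_div_right (c := K) this
      rw [Nat.add_div_right _ hK] at this; omega
  have hmap : Set.MapsTo (fun m => m / K) S (Finset.Icc 1 (N / K) : Finset ℕ) := by
    intro m hm
    have a := h2 m hm n (Finset.mem_insert_self _ _) (h1 m hm).1
    simp only [Finset.coe_Icc, Set.mem_Icc]
    exact ⟨(Nat.le_div_iff_mul_le hK).2 (by omega), Nat.div_le_div_right (h1 m hm).2⟩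
  have := Finset.card_le_card_of_injOn _ hmap hinj
  simp only [Nat.card_Icc, add_tsub_cancel_right] at this
  exact (Nat.mul_le_mul_right K this).trans (Nat.div_mul_le_self N K)

theorem irreg {X : Type*} [TopologicalSpace X] [T2Space X] (T : X → X) (hT : Continuous T) (x : X)
    (hinj : Function.Injective fun n => T^[n] x) : IrregVisit T x := by
  classical
  have hV : ∀ n : ℕ, ∃ V : Set X, IsOpen V ∧ T^[n] x ∈ V ∧ (∀ m < n, T^[m] x ∉ V) ∧
      ∀ k, 0 < k → k < 2 ^ (n + 4) → ∀ y ∈ V, T^[k] y ∉ V := by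
    intro n
    have h1 : ∀ k : ℕ, ∃ W : Set X, IsOpen W ∧ T^[n] x ∈ W ∧ (0 < k → ∀ y ∈ W, T^[k] y ∉ W) := by
      intro k
      rcases Nat.eq_zero_or_pos k with hk | hk
      · exact ⟨Set.univ, isOpen_univ, trivial, fun h => by omega⟩
      have hne : T^[n] x ≠ T^[k] (T^[n] x) := by
        rw [← Function.iterate_add_apply]
        exact fun h => by have := hinj h; omega
      obtain ⟨A, B, hA, hB, a, b, hd⟩ := t2_separation hne
      refine ⟨A ∩ T^[k] ⁻¹' B, hA.inter (hB.preimage (hT.iterate k)), ⟨a, b⟩, fun _ y hy hy' => ?_⟩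
      exact Set.disjoint_left.1 hd hy'.1 hy.2
    choose W hW1 hW2 hW3 using h1
    refine ⟨(⋂ k ∈ Finset.range (2 ^ (n + 4)), W k) ∩ ⋂ m ∈ Finset.range n, {T^[m] x}ᶜ,
      (isOpen_biInter_finset fun k _ => hW1 k).inter
        (isOpen_biInter_finset fun m _ => isOpen_compl_singleton), ⟨?_, ?_⟩, ?_, ?_⟩
    · simp only [Set.mem_iInter]; exact fun k _ => hW2 k
    · simp only [Set.mem_iInter, Finset.mem_range]
      exact fun m hm h => by have := hinj h; omega
    · intro m hm h
      have := h.2
      simp only [Set.mem_iInter, Finset.mem_range] at this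
      exact this m hm rfl
    · intro k hk hk' y hy hy'
      have a := hy.1
      have b := hy'.1
      simp only [Set.mem_iInter, Finset.mem_range] at a b
      exact hW3 k hk y (a k hk') (b k hk')
  choose V hV1 hV2 hV3 hV4 using hV
  let A : Set ℕ := {n | Nat.log 4 n % 2 = 1}
  let U : Set X := ⋃ n ∈ A, V n
  have hlow : ∀ j : ℕ, frac (visits T x U) (4 ^ (2 * j + 1) - 1) ≤ 1 / 2 := by
    intro j
    set N := 4 ^ (2 * j + 1) - 1 with hN
    have hN1 : N + 1 = 4 ^ (2 * j + 1) := by
      have : 0 < 4 ^ (2 * j + 1) := by positivity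
      omega
    let S : ℕ → Finset ℕ := fun n => (Finset.range (N + 1)).filter fun m => n < m ∧ T^[m] x ∈ V n
    have hS : ∀ n, ((S n).card : ℝ) ≤ (N + 1) / 2 ^ (n + 4) := by
      intro n
      have := sep_card (S n) (2 ^ (n + 4)) N (by positivity) n
        (fun m hm => by
          simp only [S, Finset.mem_filter, Finset.mem_range] at hm; exact ⟨hm.2.1, by omega⟩)
        (fun m hm m' hm' hlt => by
          simp only [S, Finset.mem_filter, Finset.mem_range, Finset.mem_insert] at hm hm'
          have h' : T^[m'] x ∈ V n := by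
            rcases hm' with rfl | h
            · exact hV2 _
            · exact h.2.2
          by_contra hc
          refine hV4 n (m - m') (by omega) (by omega) _ h' ?_
          rw [← Function.iterate_add_apply, Nat.sub_add_cancel hlt.le]; exact hm.2.2)
      rw [le_div_iff₀ (by positivity)]
      have h2 : (((S n).card * 2 ^ (n + 4) : ℕ) : ℝ) ≤ N := by exact_mod_cast this
      push_cast at h2; linarith
    have hsub : (Finset.range (N + 1)).filter (· ∈ visits T x U) ⊆
        Finset.range (4 ^ (2 * j)) ∪ (Finset.range (N + 1)).biUnion S := by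
      intro m hm
      simp only [Finset.mem_filter, Finset.mem_range, visits, U, Set.mem_ofPred_eq,
        Set.mem_iUnion] at hm
      obtain ⟨h1, n, hn, h2⟩ := hm
      rcases lt_trichotomy m n with h | h | h
      · exact absurd h2 (hV3 n m h)
      · subst h
        refine Finset.mem_union_left _ (Finset.mem_range.2 ?_)
        by_contra hc
        have : Nat.log 4 m = 2 * j :=
          Nat.log_eq_of_pow_le_of_lt_pow (by omega) (by omega)
        have hn' : Nat.log 4 m % 2 = 1 := hn
        omega
      · refine Finset.mem_union_right _ (Finset.mem_biUnion.2 ⟨n, Finset.mem_range.2 (by omega), ?_⟩)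
        simp only [S, Finset.mem_filter, Finset.mem_range]
        exact ⟨h1, h, h2⟩
    have hc := (Finset.card_le_card hsub).trans
      ((Finset.card_union_le _ _).trans (Nat.add_le_add_left Finset.card_biUnion_le _))
    rw [Finset.card_range] at hc
    have hc' : ((((Finset.range (N + 1)).filter (· ∈ visits T x U)).card : ℕ) : ℝ) ≤
        4 ^ (2 * j) + ∑ n ∈ Finset.range (N + 1), ((S n).card : ℝ) := by exact_mod_cast hc
    have hsum : ∑ n ∈ Finset.range (N + 1), ((S n).card : ℝ) ≤ (N + 1) / 8 := by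
      refine (Finset.sum_le_sum fun n _ => hS n).trans ?_
      have : ∀ M : ℕ, ∑ n ∈ Finset.range M, ((N : ℝ) + 1) / 2 ^ (n + 4) =
          (N + 1) / 8 - (N + 1) / 2 ^ (M + 3) := by
        intro M
        induction M with
        | zero => simp; norm_num
        | succ M ih => rw [Finset.sum_range_succ, ih]; field_simp; ring
      rw [this]
      have : (0 : ℝ) ≤ (N + 1) / 2 ^ (N + 1 + 3) := by positivity
      linarith
    have hN2 : (N : ℝ) + 1 = 4 * 4 ^ (2 * j) := by
      have : ((N + 1 : ℕ) : ℝ) = 4 ^ (2 * j + 1) := by rw [hN1]; push_cast; rfl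
      push_cast at this; rw [this]; ring
    unfold frac
    rw [div_le_iff₀ (by positivity)]
    have : (0 : ℝ) ≤ 4 ^ (2 * j) := by positivity
    convert (by linarith : ((((Finset.range (N + 1)).filter (· ∈ visits T x U)).card : ℕ) : ℝ) ≤
      1 / 2 * ((N : ℝ) + 1))
  have hup : ∀ j : ℕ, 3 / 4 ≤ frac (visits T x U) (4 ^ (2 * j + 2) - 1) := by
    intro j
    set N := 4 ^ (2 * j + 2) - 1 with hN
    have hN1 : N + 1 = 4 ^ (2 * j + 2) := by
      have : 0 < 4 ^ (2 * j + 2) := by positivity
      omega
    have hsub : Finset.Ico (4 ^ (2 * j + 1)) (4 ^ (2 * j + 2)) ⊆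
        (Finset.range (N + 1)).filter (· ∈ visits T x U) := by
      intro m hm
      rw [Finset.mem_Ico] at hm
      simp only [Finset.mem_filter, Finset.mem_range, visits, U, Set.mem_ofPred_eq,
        Set.mem_iUnion]
      refine ⟨by omega, m, ?_, hV2 m⟩
      have : Nat.log 4 m = 2 * j + 1 := Nat.log_eq_of_pow_le_of_lt_pow hm.1 hm.2
      show Nat.log 4 m % 2 = 1
      omega
    have hc := Finset.card_le_card hsub
    rw [Nat.card_Ico] at hc
    have e : 4 ^ (2 * j + 2) - 4 ^ (2 * j + 1) = 3 * 4 ^ (2 * j + 1) := by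
      rw [pow_succ 4 (2 * j + 1)]; omega
    rw [e] at hc
    have hc' : (3 : ℝ) * 4 ^ (2 * j + 1) ≤
        ((((Finset.range (N + 1)).filter (· ∈ visits T x U)).card : ℕ) : ℝ) := by
      exact_mod_cast hc
    have hN2 : (N : ℝ) + 1 = 4 * 4 ^ (2 * j + 1) := by
      have : ((N + 1 : ℕ) : ℝ) = 4 ^ (2 * j + 2) := by rw [hN1]; push_cast; rfl
      push_cast at this; rw [this]; ring
    unfold frac
    rw [le_div_iff₀ (by positivity)]
    convert (by linarith : 3 / 4 * ((N : ℝ) + 1) ≤
      ((((Finset.range (N + 1)).filter (· ∈ visits T x U)).card : ℕ) : ℝ))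
  have big : ∀ j c : ℕ, j ≤ 4 ^ (2 * j + c) - 1 := fun j c => by
    have : 2 * j + c < 4 ^ (2 * j + c) := Nat.lt_pow_self (by norm_num)
    omega
  refine ⟨U, isOpen_biUnion fun n _ => hV1 n, ⟨T^[4] x, Set.mem_biUnion (x := 4) ?_ (hV2 4)⟩, ?_⟩
  · show Nat.log 4 4 % 2 = 1
    norm_num
  have l1 : lowerDens (visits T x U) ≤ 1 / 2 :=
    liminf_le_of_frequently_le (frequently_atTop.2 fun j => ⟨_, big j 1, hlow j⟩)
      (isBoundedUnder_of ⟨0, fun N => (frac_bd _ N).1⟩)
  have l2 : 3 / 4 ≤ upperDens (visits T x U) :=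
    le_limsup_of_frequently_le (frequently_atTop.2 fun j => ⟨_, big j 2, hup j⟩)
      (isBoundedUnder_of ⟨1, fun N => (frac_bd _ N).2⟩)
  linarith

lemma inj_of_freq {X : Type*} [TopologicalSpace X] [T1Space X] [Infinite X] (T : X → X) (x : X)
    (h : FreqHC T x) : Function.Injective fun n => T^[n] x := by
  classical
  by_contra hne
  have hfin : (Set.range fun n => T^[n] x).Finite := by
    obtain ⟨a, b, hab, hne⟩ := Function.not_injective_iff.1 hne
    wlog hlt : a < b generalizing a b
    · exact this b a hab.symm (Ne.symm hne) (by omega)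
    refine ((Set.finite_lt_nat b).image fun n => T^[n] x).subset ?_
    rintro _ ⟨n, rfl⟩
    induction n with
    | zero => exact ⟨0, by show 0 < b; omega, rfl⟩
    | succ n ih =>
      obtain ⟨m, hm, e⟩ := ih
      have hm' : m < b := hm
      simp only at e ⊢ hab
      rw [Function.iterate_succ_apply', ← e, ← Function.iterate_succ_apply' T]
      rcases lt_or_eq_of_le (Nat.succ_le_of_lt hm') with g | g
      · exact ⟨m + 1, g, rfl⟩
      · exact ⟨a, hlt, by rw [g]; exact hab⟩
  have := h _ hfin.isClosed.isOpen_compl hfin.infinite_compl.nonempty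
  have e : visits T x (Set.range fun n => T^[n] x)ᶜ = ∅ := by ext n; simp [visits]
  have e2 : frac ∅ = fun _ => 0 := by funext N; simp [frac]
  rw [e, lowerDens, e2, liminf_const] at this
  exact lt_irrefl _ this

end Pool.Agent.H27.Irreg
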