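import Mathlib

/-! Gaussian binomials in a commutative ring and the finite triple product identity. -/

namespace Pool.Agent.H27.Jt
open Finset

variable {A : Type} [CommRing A]

def g (Q : A) : ℕ → ℤ → A
  | 0, k => if k = 0 then 1 else 0
  | N + 1, k => g Q N (k - 1) + Q ^ k.toNat * g Q N k

def P (Q : A) (n : ℕ) : A := ∏ i ∈ range n, (1 - Q ^ (i + 1))

variable {Q : A}

theorem g_succ (Q : A) (N : ℕ) (k : ℤ) : g Q (N + 1) k = g Q N (k - 1) + Q ^ k.toNat * g Q N k := rfl

theorem g_out (N : ℕ) : ∀ {k : ℤ}, k < 0 ∨ (N : ℤ) < k → g Q N k = 0 := by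
  induction N with
  | zero => intro k h; rw [g, if_neg (by omega)]
  | succ N ih => intro k h; rw [g, ih (by omega), ih (by omega)]; simp

theorem pascal (N : ℕ) : ∀ k : ℤ, g Q (N + 1) k = g Q N k + Q ^ (N + 1 - k).toNat * g Q N (k - 1) := by
  induction N with
  | zero =>
    intro k
    simp only [g]
    by_cases h : k = 0
    · simp [h]
    by_cases h' : k = 1
    · simp [h']
    simp [h, sub_eq_zero, h']
  | succ N ih =>
    intro k
    have e : Q ^ k.toNat * Q ^ (N + 1 - k).toNat * g Q N (k - 1) =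
        Q ^ ((N + 1 : ℕ) + 1 - k).toNat * Q ^ (k - 1).toNat * g Q N (k - 1) := by
      by_cases h : k - 1 < 0 ∨ (N : ℤ) < k - 1
      · simp [g_out N h]
      · rw [← pow_add, ← pow_add]; congr 2; omega
    have h1 := ih k
    have h2 := ih (k - 1)
    rw [show (N : ℤ) + 1 - (k - 1) = (N + 1 : ℕ) + 1 - k by push_cast; ring] at h2
    have h3 := g_succ Q N k
    have h4 := g_succ Q N (k - 1)
    rw [g]
    linear_combination h2 + Q ^ k.toNat * h1 - h3 - Q ^ ((N + 1 : ℕ) + 1 - k).toNat * h4 + e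

theorem g_prod (N : ℕ) : ∀ k j : ℕ, k + j = N → g Q N k * P Q k * P Q j = P Q N := by
  induction N with
  | zero => intro k j h; obtain ⟨rfl, rfl⟩ : k = 0 ∧ j = 0 := by omega
            simp [g, P]
  | succ N ih =>
    intro k j h
    have ps : ∀ n, P Q (n + 1) = P Q n * (1 - Q ^ (n + 1)) := fun n => prod_range_succ _ _
    rw [g]
    rcases k with _ | k
    · have := ih 0 N (by omega)
      obtain rfl : j = N + 1 := by omega
      rw [g_out N (by omega), ps]
      simp only [Nat.cast_zero, Int.toNat_zero] at this ⊢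
      linear_combination (1 - Q ^ (N + 1)) * this
    rw [show ((k + 1 : ℕ) : ℤ) - 1 = k by simp, Int.toNat_natCast]
    have h1 := ih k j (by omega)
    rcases j with _ | j
    · obtain rfl : k = N := by omega
      rw [g_out k (k := (k + 1 : ℕ)) (by omega), ps]
      linear_combination (1 - Q ^ (k + 1)) * h1
    have h2 := ih (k + 1) j (by omega)
    obtain rfl : N = k + 1 + j := by omega
    rw [ps (k + 1 + j), ps j, ps k] at *
    linear_combination (1 - Q ^ (k + 1)) * h1 + Q ^ (k + 1) * (1 - Q ^ (j + 1)) * h2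

theorem g_map {B : Type} [CommRing B] (f : A →+* B) (N : ℕ) : ∀ k, f (g Q N k) = g (f Q) N k := by
  induction N with
  | zero => intro k; simp only [g]; split_ifs <;> simp
  | succ N ih => intro k; simp [g, ih]

theorem P_sub {a b : ℕ} (h : a ≤ b) : Q ^ (a + 1) ∣ P Q b - P Q a := by
  induction b, h using Nat.le_induction with
  | base => simp
  | succ b h ih =>
    rw [P, prod_range_succ, ← P]
    exact (dvd_sub ih ((pow_dvd_pow Q (by omega : a + 1 ≤ b + 1)).mul_left (P Q b))).trans
      (dvd_of_eq (by ring))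

theorem g_lim (hu : ∀ n, IsUnit (P Q n)) {M L : ℕ} (hL : M ≤ L) {n : ℤ} (hn : n ∈ Icc (-M : ℤ) M) :
    Q ^ (M - n.natAbs + 1) ∣ P Q L * g Q (2 * M) (M + n) - 1 := by
  rw [mem_Icc] at hn
  obtain ⟨k, hk⟩ : ∃ k : ℕ, (k : ℤ) = M + n := ⟨(M + n).toNat, by omega⟩
  have h := g_prod (Q := Q) (2 * M) k (2 * M - k) (by omega)
  rw [← hk, ← (hu k).dvd_mul_left]
  have h1 := P_sub (Q := Q) (a := M - n.natAbs) (b := L) (by omega)
  have h2 := P_sub (Q := Q) (a := M - n.natAbs) (b := 2 * M - k) (by omega)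
  have h3 := P_sub (Q := Q) (a := M - n.natAbs) (b := 2 * M) (by omega)
  have h4 := P_sub (Q := Q) (a := M - n.natAbs) (b := k) (by omega)
  exact (dvd_add ((dvd_sub h1 h2).mul_left (g Q (2 * M) k * P Q k)) (dvd_sub h3 h4)).trans
    (dvd_of_eq (by linear_combination -h))

def T (n : ℤ) : ℤ := n * (n + 1) / 2

theorem two_T (n : ℤ) : 2 * T n = n * (n + 1) := Int.two_mul_ediv_two_of_even (Int.even_mul_succ_self n)

theorem T_bd (n : ℤ) : 0 ≤ T n ∧ |n| ≤ T n + 1 := by
  have := two_T n
  refine ⟨by nlinarith [sq_nonneg (2 * n + 1)], abs_le.mpr ⟨?_, ?_⟩⟩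
  · by_contra h
    have : n ≤ -2 := by nlinarith [sq_nonneg (2 * n + 1)]
    nlinarith
  · nlinarith [sq_nonneg (2 * n - 1)]

/-- The sign `(-1) ^ n`. -/
def sg (A : Type) [CommRing A] (n : ℤ) : A := if Even n then 1 else -1

theorem sg_succ (n : ℤ) : sg A (n + 1) = -sg A n := by
  unfold sg; by_cases h : Even n <;> simp [h, Int.even_add_one]

theorem shift {M : ℕ} (φ : ℤ → A) (h : ∀ n, n ∉ Icc (-M : ℤ) M → φ n = 0) (d : ℤ) (hd : |d| ≤ 1) :
    ∑ n ∈ Icc (-(M + 1 : ℕ) : ℤ) (M + 1 : ℕ), φ (n + d) = ∑ n ∈ Icc (-M : ℤ) M, φ n := by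
  rw [abs_le] at hd
  rw [sum_subset (s₂ := (Icc (-(M + 1 : ℕ) : ℤ) (M + 1 : ℕ)).map (addRightEmbedding d)) _ fun n _ => h n,
    sum_map]
  · rfl
  intro n hn
  rw [map_add_right_Icc]
  simp only [mem_Icc] at hn ⊢
  omega

theorem jtp (a b : A) (M : ℕ) : ∏ i ∈ range M, ((1 - a * (a * b) ^ i) * (1 - b * (a * b) ^ i)) =
    ∑ n ∈ Icc (-M : ℤ) M, sg A n * a ^ (T n).toNat * b ^ (T (-n)).toNat * g (a * b) (2 * M) (M + n) := by
  induction M with
  | zero => simp [sg, T, g]
  | succ M ih =>
    set φ : ℤ → A := fun n => sg A n * a ^ (T n).toNat * b ^ (T (-n)).toNat * g (a * b) (2 * M) (M + n)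
    have out : ∀ n, n ∉ Icc (-M : ℤ) M → g (a * b) (2 * M) (M + n) = 0 := fun n hn =>
      g_out _ (by simp only [mem_Icc] at hn; omega)
    have h0 : ∀ n, n ∉ Icc (-M : ℤ) M → φ n = 0 := fun n hn => by simp only [φ, out n hn, mul_zero]
    rw [prod_range_succ, ih, show ∀ S x y : A, S * ((1 - x) * (1 - y)) = (1 + x * y) * S - x * S - y * S by
      intros; ring]
    nth_rw 1 [← shift φ h0 0 (by simp)]
    nth_rw 1 [← shift φ h0 (-1) (by simp)]
    rw [← shift φ h0 1 (by simp), mul_sum, mul_sum, mul_sum, ← sum_sub_distrib, ← sum_sub_distrib]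
    refine sum_congr rfl fun n hn => ?_
    have e1 : a * (a * b) ^ M * φ (n + -1) = -(sg A n * a ^ (T n).toNat * b ^ (T (-n)).toNat *
        ((a * b) ^ (M + 1 - n).toNat * g (a * b) (2 * M) (M + (n + -1)))) := by
      by_cases h : n + -1 ∈ Icc (-M : ℤ) M
      swap
      · simp [h0 _ h, out _ h]
      rw [mem_Icc] at h
      have s1 := sg_succ (A := A) (n + -1)
      have t1 : (T n).toNat + (M + 1 - n).toNat = (T (n + -1)).toNat + M + 1 := by
        have := two_T n; have := two_T (n + -1); have := (T_bd n).1; have := (T_bd (n + -1)).1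
        have : T n = T (n + -1) + n := by linarith
        omega
      have t2 : (T (-n)).toNat + (M + 1 - n).toNat = (T (-(n + -1))).toNat + M := by
        have := two_T (-n); have := two_T (-(n + -1)); have := (T_bd (-n)).1; have := (T_bd (-(n + -1))).1
        have : T (-(n + -1)) = T (-n) + 1 - n := by linarith
        omega
      have p1 := congrArg (a ^ ·) t1
      have p2 := congrArg (b ^ ·) t2
      simp only [pow_add, neg_add_cancel_right] at p1 p2 s1
      simp only [φ, mul_pow, s1]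
      linear_combination -(sg A (n + -1) * g (a * b) (2 * M) (M + (n + -1))) *
        (b ^ (T (-n)).toNat * b ^ (M + 1 - n).toNat * p1 + a ^ (T (n + -1)).toNat * a ^ M * a * p2)
    have e2 : b * (a * b) ^ M * φ (n + 1) = -(sg A n * a ^ (T n).toNat * b ^ (T (-n)).toNat *
        ((a * b) ^ (M + 1 + n).toNat * g (a * b) (2 * M) (M + (n + 1)))) := by
      by_cases h : n + 1 ∈ Icc (-M : ℤ) M
      swap
      · simp [h0 _ h, out _ h]
      rw [mem_Icc] at h
      have t1 : (T n).toNat + (M + 1 + n).toNat = (T (n + 1)).toNat + M := by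
        have := two_T n; have := two_T (n + 1); have := (T_bd n).1; have := (T_bd (n + 1)).1
        have : T (n + 1) = T n + n + 1 := by linarith
        omega
      have t2 : (T (-n)).toNat + (M + 1 + n).toNat = (T (-(n + 1))).toNat + M + 1 := by
        have := two_T (-n); have := two_T (-(n + 1)); have := (T_bd (-n)).1; have := (T_bd (-(n + 1))).1
        have : T (-n) = T (-(n + 1)) - n := by linarith
        omega
      have p1 := congrArg (a ^ ·) t1
      have p2 := congrArg (b ^ ·) t2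
      simp only [pow_add] at p1 p2
      simp only [φ, mul_pow, sg_succ]
      linear_combination (sg A n * g (a * b) (2 * M) (M + (n + 1))) *
        (b ^ (T (-n)).toNat * b ^ (M + 1 + n).toNat * p1 + a ^ (T (n + 1)).toNat * a ^ M * p2)
    have e3 : (a * b) ^ (M + 1 - n).toNat * (a * b) ^ (M + n).toNat * g (a * b) (2 * M) (M + n) =
        a * (a * b) ^ M * (b * (a * b) ^ M) * g (a * b) (2 * M) (M + n) := by
      by_cases h : n ∈ Icc (-M : ℤ) M
      swap
      · simp [out _ h]
      rw [mem_Icc] at h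
      rw [← pow_add, show (M + 1 - n).toNat + (M + n).toNat = M + M + 1 by omega]
      ring
    have g1 := pascal (Q := a * b) (2 * M + 1) (M + 1 + n)
    have g2 := g_succ (a * b) (2 * M) (M + 1 + n)
    have g3 := g_succ (a * b) (2 * M) (M + n)
    rw [show ((2 * M + 1 : ℕ) : ℤ) + 1 - (M + 1 + n) = M + 1 - n by push_cast; ring,
      show (M : ℤ) + 1 + n - 1 = M + n by ring] at g1
    rw [show (M : ℤ) + 1 + n - 1 = M + n by ring, show (M : ℤ) + 1 + n = M + (n + 1) by ring] at g2
    rw [show (M : ℤ) + n - 1 = M + (n + -1) by ring] at g3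
    rw [e1, e2, show 2 * (M + 1) = 2 * M + 1 + 1 by ring, Nat.cast_succ, g1, g3,
      show (M : ℤ) + 1 + n = M + (n + 1) by ring, g2]
    simp only [φ, add_zero]
    linear_combination -(sg A n * a ^ (T n).toNat * b ^ (T (-n)).toNat) * e3

end Pool.Agent.H27.Jt
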