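import Pool.Agent.H27.JtA

/-! Truncated theta series and a lattice identity. -/

namespace Pool.Agent.H27.Jt
open Finset PowerSeries

variable {R : Type} [CommRing R]

noncomputable def th (M : ℕ) (e : ℤ → ℤ) (w : ℤ → R) : R⟦X⟧ :=
  ∑ n ∈ Icc (-M : ℤ) M, C (w n) * X ^ (e n).toNat

def Bd (e : ℤ → ℤ) : Prop := ∀ n, 0 ≤ e n ∧ |n| ≤ e n + 1

theorem P_unit {s : ℕ} (hs : s ≠ 0) (n : ℕ) : IsUnit (P (X ^ s : R⟦X⟧) n) := by
  rw [isUnit_iff_constantCoeff]
  simp [P, hs]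

theorem lim_th {s M L : ℕ} (hs : s ≠ 0) (hL : M ≤ L) {e : ℤ → ℤ} (he : Bd e) (w : ℤ → R) :
    (X : R⟦X⟧) ^ M ∣ P (X ^ s) L * ∑ n ∈ Icc (-M : ℤ) M,
      C (w n) * X ^ (e n).toNat * g (X ^ s) (2 * M) (M + n) - th M e w := by
  rw [th, mul_sum, ← sum_sub_distrib]
  refine dvd_sum fun n hn => ?_
  have h := mul_dvd_mul_left (X ^ (e n).toNat) (g_lim (P_unit (R := R) hs) hL hn)
  rw [← pow_mul, ← pow_add] at h
  refine (((pow_dvd_pow X ?_).trans h).mul_left (C (w n))).trans (dvd_of_eq (by ring))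
  have h1 := Nat.mul_le_mul_right (M - n.natAbs + 1) (Nat.one_le_iff_ne_zero.mpr hs)
  have h2 := he n
  rw [← Int.natCast_natAbs] at h2
  omega

theorem sg_eq {a b : ℤ} (h : (a - b) % 2 = 0) : sg R a = sg R b := by
  simp only [sg, Int.even_iff]; split_ifs <;> first | rfl | omega
theorem sg_ne {a b : ℤ} (h : (a - b) % 2 = 1) : sg R a = -sg R b := by
  simp only [sg, Int.even_iff]; split_ifs <;> first | omega | simp
theorem sg_mul (a b : ℤ) : sg R a * sg R b = sg R (a + b) := by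
  simp only [sg, Int.even_iff]; split_ifs <;> first | omega | simp
theorem sg_map {B : Type} [CommRing B] (f : R →+* B) (n : ℤ) : f (sg R n) = sg B n := by
  unfold sg; split_ifs <;> simp

noncomputable def sol (M : ℕ) (e e' : ℤ → ℤ) (N : ℕ) : Finset (ℤ × ℤ) :=
  (Icc (-M : ℤ) M ×ˢ Icc (-M : ℤ) M).filter fun p => e p.1 + e' p.2 = N

theorem mem_sol {M N : ℕ} (h : N < M) {e e' : ℤ → ℤ} (he : Bd e) (he' : Bd e') (p : ℤ × ℤ) :
    p ∈ sol M e e' N ↔ e p.1 + e' p.2 = N := by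
  have h1 := he p.1
  have h2 := he' p.2
  simp only [abs_le] at h1 h2
  simp only [sol, mem_filter, mem_product, mem_Icc]
  omega

theorem coeff_th (M N : ℕ) {e e' : ℤ → ℤ} (he : Bd e) (he' : Bd e') (w w' : ℤ → R) :
    coeff N (th M e w * th M e' w') = ∑ p ∈ sol M e e' N, w p.1 * w' p.2 := by
  rw [th, th, sum_mul_sum, ← sum_product', map_sum, sol, sum_filter]
  refine sum_congr rfl fun p _ => ?_
  rw [mul_mul_mul_comm, ← map_mul, ← pow_add, coeff_C_mul, coeff_X_pow]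
  have := (he p.1).1
  have := (he' p.2).1
  split_ifs <;> first | omega | simp

def e1 (n : ℤ) : ℤ := n * n
def e2 (n : ℤ) : ℤ := 3 * n * n - n
def e3 (n : ℤ) : ℤ := T n + n * n

theorem b1 : Bd e1 := fun n => ⟨mul_self_nonneg n, abs_le.mpr
  ⟨by unfold e1; nlinarith [sq_nonneg (n + 1)], by unfold e1; nlinarith [sq_nonneg (n - 1)]⟩⟩
theorem b2 : Bd e2 := fun n => ⟨by unfold e2; nlinarith [sq_nonneg (2 * n - 1), (b1 n).1, Int.le_self_sq n],
  abs_le.mpr ⟨by unfold e2; nlinarith [sq_nonneg n], by unfold e2; nlinarith [sq_nonneg (n - 1)]⟩⟩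
theorem b3 : Bd e3 := fun n => by
  have := T_bd n
  have := mul_self_nonneg n
  unfold e3
  omega

theorem lattice (M : ℕ) : (X : R⟦X⟧) ^ M ∣ th M T (fun n => sg R n * n) * th M e1 (sg R) -
    th M e2 (sg R) * th M e3 fun n => (6 * n + 1 : R) := by
  rw [X_pow_dvd_iff]
  intro N hN
  rw [map_sub, coeff_th _ _ T_bd b1, coeff_th _ _ b2 b3, sub_eq_zero]
  have m1 := mem_sol hN T_bd b1
  have m2 := mem_sol hN b2 b3
  simp only [e1, e2, e3] at m1 m2
  generalize sol M T e1 N = S at *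
  generalize sol M e2 e3 N = S' at *
  have ha : ∑ p ∈ S, sg R (p.1 + p.2) * (p.2 : R) = 0 := by
    refine sum_involution (fun p _ => (p.1, -p.2)) (fun p _ => ?_) (fun p _ h e => h ?_)
      (fun p hp => by rw [m1] at hp ⊢; simpa using hp) (fun p _ => by simp)
    · rw [sg_eq (a := p.1 + -p.2) (b := p.1 + p.2) (by omega)]
      simp
    · have : p.2 = 0 := by have := congrArg Prod.snd e; simp only at this; omega
      simp [this]
  have hc : ∑ p ∈ S with (p.1 + 2 * p.2) % 3 = 1, sg R (p.1 + p.2) * ((p.1 + 2 * p.2 : ℤ) : R) = 0 := by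
    refine sum_involution (fun p _ => (2 * p.2 - 1 - (p.1 + 2 * p.2) / 3, 2 * ((p.1 + 2 * p.2) / 3) + 1 - p.2))
      (fun p hp => ?_) (fun p _ _ e => ?_) (fun p hp => ?_) (fun p hp => ?_)
    · have := (mem_filter.mp hp).2
      simp only
      rw [show 2 * p.2 - 1 - (p.1 + 2 * p.2) / 3 + 2 * (2 * ((p.1 + 2 * p.2) / 3) + 1 - p.2) = p.1 + 2 * p.2 by omega,
        sg_ne (a := 2 * p.2 - 1 - (p.1 + 2 * p.2) / 3 + (2 * ((p.1 + 2 * p.2) / 3) + 1 - p.2))
          (b := p.1 + p.2) (by omega)]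
      ring
    · have := congrArg Prod.snd e
      simp only at this
      omega
    · rw [mem_filter, m1] at hp ⊢
      refine ⟨?_, by simp only; omega⟩
      obtain ⟨s, hs⟩ : ∃ s, p.1 = 3 * s + 1 - 2 * p.2 := ⟨(p.1 + 2 * p.2) / 3, by omega⟩
      have h1 := two_T p.1
      have h2 := two_T (2 * p.2 - 1 - s)
      rw [show (p.1 + 2 * p.2) / 3 = s by omega, ← hp.1]
      simp only [hs] at h1 ⊢
      linarith
    · have := (mem_filter.mp hp).2
      ext <;> simp only <;> omega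
  have hd : ∑ p ∈ S with (p.1 + 2 * p.2) % 3 = 2, sg R (p.1 + p.2) * ((p.1 + 2 * p.2 : ℤ) : R) =
      ∑ p ∈ S with (p.1 + 2 * p.2) % 3 = 0, sg R (p.1 + p.2) * ((p.1 + 2 * p.2 + 1 : ℤ) : R) := by
    have t : ∀ m, T (-1 - m) = T m := fun m => by have := two_T m; have := two_T (-1 - m); linarith
    refine sum_nbij' (fun p => (-1 - p.1, -p.2)) (fun p => (-1 - p.1, -p.2)) (fun p hp => ?_) (fun p hp => ?_)
      (fun p _ => by simp) (fun p _ => by simp) (fun p _ => ?_)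
    · simp only [mem_filter, m1, t] at hp ⊢
      exact ⟨by linarith, by omega⟩
    · simp only [mem_filter, m1, t] at hp ⊢
      exact ⟨by linarith, by omega⟩
    · simp only
      rw [sg_ne (b := -1 - p.1 + -p.2) (by omega)]
      push_cast
      ring
  have he : ∑ p ∈ S with (p.1 + 2 * p.2) % 3 = 0, sg R (p.1 + p.2) * ((2 * (p.1 + 2 * p.2) + 1 : ℤ) : R) =
      ∑ p ∈ S', sg R p.1 * (6 * p.2 + 1) := by
    symm
    refine sum_nbij' (fun p => (p.2 - 2 * p.1, p.2 + p.1))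
      (fun p => (p.2 - (p.1 + 2 * p.2) / 3, (p.1 + 2 * p.2) / 3)) (fun p hp => ?_) (fun p hp => ?_)
      (fun p _ => by ext <;> simp only <;> omega) (fun p hp => ?_) (fun p _ => ?_)
    · simp only [mem_filter, m1, m2] at hp ⊢
      have := two_T p.2
      have := two_T (p.2 - 2 * p.1)
      exact ⟨by linarith, by omega⟩
    · simp only [mem_filter, m1, m2] at hp ⊢
      obtain ⟨s, hs⟩ : ∃ s, p.1 = 3 * s - 2 * p.2 := ⟨(p.1 + 2 * p.2) / 3, by omega⟩
      have h1 := two_T p.1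
      have h2 := two_T s
      rw [show (p.1 + 2 * p.2) / 3 = s by omega, ← hp.1]
      simp only [hs] at h1 ⊢
      linarith
    · simp only [mem_filter] at hp
      ext <;> simp only <;> omega
    · simp only
      rw [sg_eq (b := p.2 - 2 * p.1 + (p.2 + p.1)) (by omega)]
      push_cast
      ring
  have hs : ∑ p ∈ S, sg R (p.1 + p.2) * ((p.1 + 2 * p.2 : ℤ) : R) =
      ∑ p ∈ S with (p.1 + 2 * p.2) % 3 = 0, sg R (p.1 + p.2) * ((p.1 + 2 * p.2 : ℤ) : R) +
      ∑ p ∈ S with (p.1 + 2 * p.2) % 3 = 1, sg R (p.1 + p.2) * ((p.1 + 2 * p.2 : ℤ) : R) +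
      ∑ p ∈ S with (p.1 + 2 * p.2) % 3 = 2, sg R (p.1 + p.2) * ((p.1 + 2 * p.2 : ℤ) : R) := by
    simp only [sum_filter, ← sum_add_distrib]
    refine sum_congr rfl fun p _ => ?_
    split_ifs <;> first | omega | simp
  rw [hc, hd, add_zero, ← sum_add_distrib] at hs
  rw [← he]
  calc _ = ∑ p ∈ S, sg R (p.1 + p.2) * ((p.1 + 2 * p.2 : ℤ) : R) -
        2 * ∑ p ∈ S, sg R (p.1 + p.2) * (p.2 : R) := by
        rw [mul_sum, ← sum_sub_distrib]
        exact sum_congr rfl fun p _ => by rw [← sg_mul]; push_cast; ring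
    _ = _ := by
        rw [ha, hs, mul_zero, sub_zero]
        exact sum_congr rfl fun p _ => by push_cast; ring

end Pool.Agent.H27.Jt
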