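import Pool.Agent.H27.JtB

/-! Gauss, Euler and Jacobi series in truncated form, and the series for `f₁ ^ 5 / f₂ ^ 2`. -/

namespace Pool.Agent.H27.Jt
open Finset PowerSeries

set_option maxHeartbeats 200000

variable {R : Type} [CommRing R]

theorem sg_C (n : ℤ) : C (sg R n) = sg R⟦X⟧ n := by unfold sg; split_ifs <;> simp

noncomputable def O (R : Type) [CommRing R] (M : ℕ) : R⟦X⟧ := ∏ i ∈ range M, (1 - X ^ (2 * i + 1))

theorem P_succ {A : Type} [CommRing A] (Q : A) (n : ℕ) : P Q (n + 1) = P Q n * (1 - Q ^ (n + 1)) :=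
  prod_range_succ _ _

theorem P_split (M : ℕ) : P (X : R⟦X⟧) (2 * M) = O R M * P (X ^ 2) M := by
  induction M with
  | zero => simp [P, O]
  | succ M ih => rw [Nat.mul_succ, P_succ, P_succ, P_succ, ih, O, O, prod_range_succ]; ring

theorem jtp_X (u v M : ℕ) {e : ℤ → ℤ} (he : ∀ n, e n = u * T n + v * T (-n)) :
    ∏ i ∈ range M, ((1 - X ^ (u + (u + v) * i)) * (1 - X ^ (v + (u + v) * i)) : R⟦X⟧) =
    ∑ n ∈ Icc (-M : ℤ) M, C (sg R n) * X ^ (e n).toNat * g (X ^ (u + v)) (2 * M) (M + n) := by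
  have := jtp (X ^ u : R⟦X⟧) (X ^ v) M
  simp only [← pow_add, ← pow_mul] at this
  rw [this]
  refine sum_congr rfl fun n _ => ?_
  rw [sg_C, mul_assoc (sg _ _), ← pow_add, he]
  obtain ⟨a, ha⟩ := Int.eq_ofNat_of_zero_le (T_bd n).1
  obtain ⟨b, hb⟩ := Int.eq_ofNat_of_zero_le (T_bd (-n)).1
  rw [ha, hb]
  norm_cast

theorem gauss (M : ℕ) : (X : R⟦X⟧) ^ M ∣ P (X ^ 2) M * O R M ^ 2 - th M e1 (sg R) := by
  have := lim_th (R := R) two_ne_zero (le_refl M) b1 (sg R)
  rw [← jtp_X 1 1 M fun n => by have := two_T n; have := two_T (-n); simp only [e1]; push_cast; linarith] at this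
  simpa [O, prod_mul_distrib, sq, add_comm, two_mul] using this

theorem euler (M : ℕ) : (X : R⟦X⟧) ^ M ∣ P (X ^ 2) (3 * M) - th M e2 (sg R) := by
  have := lim_th (R := R) (s := 6) (by norm_num) (le_refl M) b2 (sg R)
  rw [← jtp_X 2 4 M fun n => by have := two_T n; have := two_T (-n); simp only [e2]; push_cast; linarith] at this
  convert this using 2
  clear this
  induction M with
  | zero => simp [P]
  | succ M ih => rw [Nat.mul_succ, P_succ, P_succ, P_succ, P_succ, ih, prod_range_succ]; ring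

open TrivSqZeroExt DualNumber in
theorem jac_fin {A : Type} [CommRing A] (q : A) (M : ℕ) : P q (M + 1) * P q M =
    ∑ n ∈ Icc (-(M + 1 : ℕ) : ℤ) (M + 1 : ℕ),
      sg A n * n * q ^ (T n).toNat * g q (2 * (M + 1)) ((M + 1 : ℕ) + n) := by
  have h := jtp ((1 + ε) * inl q : A[ε]) (1 - ε) (M + 1)
  have hq : ((1 + ε) * inl q : A[ε]) * (1 - ε) = inl q := by
    linear_combination -(inl q : A[ε]) * eps_mul_eps (R := A)
  rw [hq, prod_mul_distrib, prod_range_succ' (fun i => 1 - (1 - ε) * (inl q : A[ε]) ^ i)] at h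
  have h1 := congrArg snd h
  have f1 : ∀ (s : Finset ℕ) (f : ℕ → A[ε]), fst (∏ i ∈ s, f i) = ∏ i ∈ s, fst (f i) := fun s f =>
    map_prod (fstHom A A A) f s
  simp only [pow_zero, mul_one, sub_sub_cancel, ← mul_assoc, DualNumber.snd_mul, fst_eps, snd_eps, mul_zero,
    add_zero, fst_mul, f1, fst_sub, fst_one, fst_add, fst_inl, fst_pow, one_mul, sub_zero, ← pow_succ',
    snd_sum] at h1
  rw [P, P, h1]
  refine sum_congr rfl fun n _ => ?_
  rw [← sg_map (inlHom A A), show (inl q : A[ε]) = inlHom A A q from rfl, ← g_map]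
  obtain ⟨a, ha⟩ := Int.eq_ofNat_of_zero_le (T_bd n).1
  obtain ⟨b, hb⟩ := Int.eq_ofNat_of_zero_le (T_bd (-n)).1
  have hn : n = a - b := by have := two_T n; have := two_T (-n); linarith
  rw [ha, hb, show (n : A) = a - b by rw [hn]; push_cast; rfl]
  simp [mul_pow, snd_pow, ← inl_pow]
  ring

theorem jacobi (M : ℕ) : (X : R⟦X⟧) ^ (M + 1) ∣ P X (M + 1) * (P X (M + 1) * P X M) -
    th (M + 1) T fun n => sg R n * n := by
  have := lim_th (R := R) one_ne_zero (le_refl (M + 1)) T_bd fun n => sg R n * n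
  rw [jac_fin]
  simp only [pow_one, map_mul, sg_C, map_intCast] at this
  exact this

theorem five (M : ℕ) : (X : R⟦X⟧) ^ (M + 1) ∣ P X (2 * (M + 1)) ^ 3 - th (M + 1) T (fun n => sg R n * n) ∧
    (X : R⟦X⟧) ^ (M + 1) ∣ P X (2 * (M + 1)) ^ 5 -
      th (M + 1) e3 (fun n => (6 * n + 1 : R)) * P (X ^ 2) (M + 1) ^ 2 := by
  have h1 := jacobi (R := R) M
  have h2 := gauss (R := R) (M + 1)
  have h3 := euler (R := R) (M + 1)
  have h4 := lattice (R := R) (M + 1)
  have h5 := P_sub (Q := (X : R⟦X⟧)) (a := M) (b := 2 * (M + 1)) (by omega)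
  have h6 := P_sub (Q := (X : R⟦X⟧)) (a := M) (b := M + 1) (by omega)
  have h7 := (pow_dvd_pow (X : R⟦X⟧) (by omega : M + 1 ≤ 2 * (M + 1 + 1))).trans
    (pow_mul (X : R⟦X⟧) 2 _ ▸ P_sub (Q := (X ^ 2 : R⟦X⟧)) (a := M + 1) (b := 3 * (M + 1)) (by omega))
  have h8 := congrArg (Ideal.Quotient.mk (Ideal.span {(X : R⟦X⟧) ^ (M + 1)})) (P_split (R := R) (M + 1))
  have hu := (P_unit (R := R) two_ne_zero (M + 1)).map (Ideal.Quotient.mk (Ideal.span {(X : R⟦X⟧) ^ (M + 1)}))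
  simp only [← Ideal.mem_span_singleton, ← Ideal.Quotient.eq, map_mul, map_pow] at *
  rw [h6, ← h5] at h1
  refine ⟨by linear_combination h1, ?_⟩
  rw [← h1, ← h2, ← h3, h7, mul_left_comm, hu.mul_right_inj] at h4
  rw [← h4, h8]
  ring

end Pool.Agent.H27.Jt
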