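import Pool.Agent.H27.JtC

/-! The generating function of partitions with distinct odd parts, and the reduction modulo seven. -/

namespace Pool.Agent.H27.Jt
open Finset PowerSeries

set_option maxHeartbeats 200000

section gf
open scoped PowerSeries.WithPiTopology
variable {S : Type} [CommRing S]

def ff (a b : S) (i c : ℕ) : S := if Odd i then (if c = 1 then a ^ i else 0) else b ^ (i * c)

theorem gf (a b : S) (M : ℕ) : ∃ L, M ≤ L ∧ (X : S⟦X⟧) ^ M ∣ Nat.Partition.genFun (ff a b) *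
    P ((C b * X) ^ 2) (L + 1) - ∏ i ∈ range (L + 1), (1 + (C a * X) ^ (2 * i + 1)) := by
  letI : TopologicalSpace S := ⊥
  haveI : DiscreteTopology S := ⟨rfl⟩
  set F : ℕ → S⟦X⟧ := fun i => 1 + ∑' j, ff a b (i + 1) (j + 1) • X ^ ((i + 1) * (j + 1)) with hF
  have h := (Nat.Partition.hasProd_genFun (ff a b)).tendsto_prod_nat
  rw [WithPiTopology.tendsto_iff_coeff_tendsto] at h
  simp only [nhds_discrete, Filter.tendsto_pure] at h
  obtain ⟨N, hN⟩ := Filter.eventually_atTop.mp ((Filter.eventually_all_finset (range M)).mpr fun d _ => h d)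
  have o : ∀ i, F (2 * i) = 1 + (C a * X) ^ (2 * i + 1) := fun i => by
    simp only [hF]
    rw [tsum_eq_single 0 fun j hj => by simp [ff, hj]]
    simp [ff, mul_pow, smul_eq_C_mul]
  have e : ∀ i, F (2 * i + 1) * (1 - ((C b * X) ^ 2) ^ (i + 1)) = 1 := fun i => by
    have h0 : constantCoeff (((C b * X) ^ 2) ^ (i + 1) : S⟦X⟧) = 0 := by simp
    refine Eq.trans ?_ (WithPiTopology.tsum_pow_mul_one_sub_of_constantCoeff_eq_zero h0)
    rw [(WithPiTopology.summable_pow_of_constantCoeff_eq_zero h0).tsum_eq_zero_add, pow_zero]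
    simp only [hF]
    congr 3
    ext1 j
    rw [ff, if_neg (by simp [Nat.odd_add_one]), smul_eq_C_mul, map_pow, ← mul_pow, ← pow_mul, ← pow_mul]
    congr 1
    ring
  have p : ∀ L, (∏ i ∈ range (2 * L), F i) * P ((C b * X) ^ 2) L =
      ∏ i ∈ range L, (1 + (C a * X) ^ (2 * i + 1)) := fun L => by
    induction L with
    | zero => simp [P]
    | succ L ih =>
      rw [Nat.mul_succ, prod_range_succ, prod_range_succ, prod_range_succ, P_succ, ← ih, o]
      linear_combination (∏ i ∈ range (2 * L), F i) * P ((C b * X) ^ 2) L *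
        (1 + (C a * X) ^ (2 * L + 1)) * e L
  refine ⟨M + N, by omega, ?_⟩
  rw [← p, ← sub_mul]
  refine Dvd.dvd.mul_right (X_pow_dvd_iff.mpr fun d hd => ?_) _
  rw [map_sub, sub_eq_zero]
  exact (hN _ (by omega) d (mem_range.mpr hd)).symm

end gf

variable {R : Type} [CommRing R]

noncomputable def D (F : R⟦X⟧) : R⟦X⟧ := PowerSeries.mk fun n => n * coeff n F

theorem D_eq (F : R⟦X⟧) : D F = X * d⁄dX R F := by
  ext n
  rcases n with _ | n
  · simp [D]
  · simp [D, coeff_succ_X_mul, coeff_derivative, mul_comm]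

theorem D_cube (F : R⟦X⟧) : D (F ^ 3) = 3 * F ^ 2 * D F := by
  simp only [D_eq, Derivation.leibniz_pow, smul_eq_mul, nsmul_eq_mul]
  push_cast
  ring

theorem D_dvd {M : ℕ} {F G : R⟦X⟧} (h : X ^ M ∣ F - G) : X ^ M ∣ D F - D G := by
  rw [X_pow_dvd_iff] at h ⊢
  intro n hn
  have := h n hn
  rw [map_sub, sub_eq_zero] at this ⊢
  simp [D, this]

theorem D_th (M : ℕ) {e : ℤ → ℤ} (he : Bd e) (w : ℤ → R) : D (th M e w) = th M e fun n => e n * w n := by
  ext N
  simp only [D, coeff_mk, th, map_sum, coeff_C_mul, coeff_X_pow, mul_sum]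
  refine sum_congr rfl fun n _ => ?_
  split_ifs with h
  · obtain ⟨a, ha⟩ := Int.eq_ofNat_of_zero_le (he n).1
    simp [h, ha]
  · simp

theorem one_add_pow {x : R} (hx : x * x = 0) (n : ℕ) : (1 + x) ^ n = 1 + n * x := by
  induction n with
  | zero => simp
  | succ n ih => rw [pow_succ, ih]; push_cast; linear_combination n * hx

theorem resc {S : Type} [CommRing S] (ι : R →+* S) {x : S} (hx : x * x = 0) (F : R⟦X⟧) :
    rescale (1 + x) (PowerSeries.map ι F) = PowerSeries.map ι F + C x * PowerSeries.map ι (D F) := by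
  ext n
  simp [D, one_add_pow hx]
  ring

theorem seven {M N : ℕ} (hN : N < M) (h : N % 7 = 0 ∨ N % 7 = 5) :
    coeff N (D (th M T fun n => sg (ZMod 7) n * n) * th M e3 fun n => (6 * n + 1 : ZMod 7)) = 0 := by
  rw [D_th _ T_bd, coeff_th _ _ T_bd b3]
  have m1 := mem_sol hN T_bd b3
  have t : ∀ m, T (-1 - m) = T m := fun m => by have := two_T m; have := two_T (-1 - m); linarith
  refine sum_involution (fun p _ => (-1 - p.1, p.2)) (fun p hp => ?_) (fun p _ _ e => ?_)
    (fun p hp => by rw [m1] at hp ⊢; simpa [t] using hp) (fun p _ => by simp)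
  · have key : ∀ x y t s : ZMod 7, 2 * t = x * (x + 1) → 2 * s = y * (y + 1) →
        t + (s + y * y) = 0 ∨ t + (s + y * y) = 5 → t * (2 * x + 1) * (6 * y + 1) = 0 := by decide +kernel
    have h0 := congrArg (Int.cast : ℤ → ZMod 7) ((m1 p).mp hp)
    have h1 := congrArg (Int.cast : ℤ → ZMod 7) (two_T p.1)
    have h2 := congrArg (Int.cast : ℤ → ZMod 7) (two_T p.2)
    simp only [e3] at h0
    push_cast at h0 h1 h2
    have := key _ _ _ _ h1 h2 (by
      rw [h0, ← ZMod.natCast_mod N 7]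
      rcases h with h | h <;> simp [h])
    simp only [t]
    rw [sg_ne (a := -1 - p.1) (b := p.1) (by omega)]
    push_cast
    linear_combination sg (ZMod 7) p.1 * this
  · have := congrArg Prod.fst e
    simp only at this
    omega

def Z (r M : ℕ) (G : R⟦X⟧) : Prop := ∀ n < M, n % 7 = r → coeff n G = 0

theorem Z.cancel {r M : ℕ} (L : ℕ) : ∀ {G : R⟦X⟧}, Z r M (P (X ^ 7) L * G) → Z r M G := by
  induction L with
  | zero => simp [P]
  | succ L ih =>
    intro G h n
    rw [P_succ, mul_assoc] at h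
    have h := ih h
    induction n using Nat.strong_induction_on with
    | _ n ih =>
      intro h1 h2
      have := h n h1 h2
      rw [sub_mul, one_mul, map_sub, ← pow_mul, coeff_X_pow_mul', sub_eq_zero] at this
      rw [this]
      split_ifs with h3
      · exact ih _ (by omega) (by omega) (by omega)
      · rfl

theorem frob (L : ℕ) : P (X : (ZMod 7)⟦X⟧) L ^ 7 = P (X ^ 7) L := by
  haveI : Fact (Nat.Prime 7) := ⟨by norm_num⟩
  haveI : CharP (ZMod 7)⟦X⟧ 7 := charP_of_injective_ringHom (C_injective (R := ZMod 7)) 7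
  rw [P, P, ← prod_pow]
  exact prod_congr rfl fun i _ => by rw [sub_pow_char, one_pow, ← pow_mul, ← pow_mul, mul_comm]

theorem final {M L : ℕ} (hL : M ≤ L) {G : (ZMod 7)⟦X⟧}
    (h : X ^ M ∣ G * P (X ^ 2) (L + 1) ^ 2 - D (P X (2 * (L + 1)))) {n : ℕ} (hn : n < M)
    (h7 : n % 7 = 0 ∨ n % 7 = 5) : coeff n G = 0 := by
  obtain ⟨h1, h2⟩ := five (R := ZMod 7) L
  have h3 := (pow_dvd_pow X (by omega : M ≤ L + 1)).trans (D_dvd h1)
  replace h2 := (pow_dvd_pow X (by omega : M ≤ L + 1)).trans h2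
  rw [D_cube] at h3
  have h4 : (X : (ZMod 7)⟦X⟧) ^ M ∣ P (X ^ 7) (2 * (L + 1)) * (3 * G) -
      D (th (L + 1) T fun n => sg (ZMod 7) n * n) * th (L + 1) e3 fun n => (6 * n + 1 : ZMod 7) := by
    rw [← ((P_unit two_ne_zero (L + 1)).pow 2).dvd_mul_left, ← frob]
    exact (dvd_add (dvd_add (h.mul_left (3 * P X (2 * (L + 1)) ^ 7)) (h3.mul_left (P X (2 * (L + 1)) ^ 5)))
      (h2.mul_left (D (th (L + 1) T fun n => sg (ZMod 7) n * n)))).trans (dvd_of_eq (by ring))
  have h5 : Z (n % 7) M (3 * G) := Z.cancel (2 * (L + 1)) fun k hk e => by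
    have := X_pow_dvd_iff.mp h4 k hk
    rwa [map_sub, seven (by omega) (by omega), sub_zero] at this
  have h6 := h5 n hn rfl
  rw [show (3 : (ZMod 7)⟦X⟧) = C 3 from rfl, coeff_C_mul] at h6
  have z : (7 : ZMod 7) = 0 := rfl
  linear_combination 5 * h6 - 2 * coeff n G * z

end Pool.Agent.H27.Jt
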