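import Pool.Agent.H27.JtD

/-! Distinct parts generating function and reduction modulo sixteen. -/

namespace Pool.Agent.H27.Jt
open Finset PowerSeries

set_option maxHeartbeats 200000

section gf
open scoped PowerSeries.WithPiTopology
variable {S : Type} [CommRing S]

theorem gf2 (u : ℕ → S) (M : ℕ) : ∃ N, ∀ L, N ≤ L → (X : S⟦X⟧) ^ M ∣
    Nat.Partition.genFun (fun i c => if c = 1 then u i else 0) -
      ∏ i ∈ range L, (1 + C (u (i + 1)) * X ^ (i + 1)) := by
  letI : TopologicalSpace S := ⊥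
  haveI : DiscreteTopology S := ⟨rfl⟩
  have h := (Nat.Partition.hasProd_genFun (fun i c => if c = 1 then u i else 0)).tendsto_prod_nat
  rw [WithPiTopology.tendsto_iff_coeff_tendsto] at h
  simp only [nhds_discrete, Filter.tendsto_pure] at h
  obtain ⟨N, hN⟩ := Filter.eventually_atTop.mp ((Filter.eventually_all_finset (range M)).mpr fun d _ => h d)
  refine ⟨N, fun L hL => X_pow_dvd_iff.mpr fun d hd => ?_⟩
  rw [map_sub, sub_eq_zero, ← hN L hL d (mem_range.mpr hd)]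
  congr 1
  refine prod_congr rfl fun i _ => ?_
  rw [tsum_eq_single 0 fun j hj => by simp [hj]]
  simp [smul_eq_C_mul]

end gf

theorem alg {B : Type} [CommRing B] {p m E f dp dm dE df a o da dq t : B} (z : (16 : B) = 0)
    (h1 : p * E * m = 1) (h2 : p * E * dm + m * (p * dE + E * dp) = 0)
    (h3 : f * m ^ 2 = 1 + 2 * a - 2 * o) (h4 : f * p ^ 2 = 1 + 2 * a + 2 * o)
    (h5 : f * (2 * m * dm) + m ^ 2 * df = 2 * da - 2 * dq) (h6 : f * (2 * p * dp) + p ^ 2 * df = 2 * da + 2 * dq)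
    (h7 : 4 * dq = 4 * o) (h8 : 8 * da = 0) (h9 : t = m ^ 5 * f ^ 3) :
    4 * E * dp + 2 * p * dE = 4 * t * o + 8 * t * o ^ 2 ∧
      p * E = t * (1 + 2 * a - 2 * o) + 8 * t * (a - o) + 8 * t * (a - o) ^ 2 := by
  have H : 2 * f ^ 2 * p * m * (m * dp - p * dm) = 4 * (1 + 2 * a) * o := by
    linear_combination f * m ^ 2 * h6 - f * p ^ 2 * h5 + (2 * da + 2 * dq) * h3 - (2 * da - 2 * dq) * h4 +
      (1 + 2 * a) * h7 - o * h8
  have H2 : (1 + 2 * a + 2 * o) * (1 + 2 * a - 2 * o) * (4 * E * dp + 2 * p * dE) =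
      4 * (p * E) * (1 + 2 * a) * o := by
    rw [← h3, ← h4]
    linear_combination p * E * H + 2 * f ^ 2 * p ^ 2 * m * h2
  have H3 : p * E * (1 + 2 * (a - o)) ^ 4 = t * (1 + 2 * a - 2 * o) := by
    rw [show 1 + 2 * (a - o) = 1 + 2 * a - 2 * o by ring, ← h3, h9]
    linear_combination f ^ 4 * m ^ 7 * h1
  generalize p * E = Q at *
  generalize 4 * E * dp + 2 * p * dE = Y at *
  have H4 : Q = t * (1 + 2 * a - 2 * o) - 8 * Q * ((a - o) + (a - o) ^ 2) := by
    linear_combination H3 - Q * ((a - o) ^ 2 + 2 * (a - o) ^ 3 + (a - o) ^ 4) * z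
  have H5 : 4 * Q = 4 * t * (1 + 2 * a - 2 * o) := by
    linear_combination 4 * H4 - 2 * Q * ((a - o) + (a - o) ^ 2) * z
  have H6 : Y = 4 * Q * (1 + 2 * a) * o := by
    linear_combination (1 - 4 * (a + a ^ 2 - o ^ 2)) * H2 + ((a + a ^ 2 - o ^ 2) ^ 2 * Y -
      (a + a ^ 2 - o ^ 2) * Q * (1 + 2 * a) * o) * z
  constructor
  · linear_combination H6 + (1 + 2 * a) * o * H5 + t * o * (a + a ^ 2 - a * o - o) * z
  · linear_combination H4 - 2 * ((a - o) + (a - o) ^ 2) * H5 -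
      t * ((a - o) + (a - o) ^ 2) * (1 + a - o) * z

variable {R : Type} [CommRing R]

def wo (R : Type) [CommRing R] (y : ℤ) : R := if 0 < y ∧ y % 2 = 1 then 1 else 0
def we (R : Type) [CommRing R] (y : ℤ) : R := if 0 < y ∧ y % 2 = 0 then 1 else 0

theorem th_half (M : ℕ) (s : R) : th M e1 (fun y => if y % 2 = 0 then 1 else s) =
    1 + 2 * th M e1 (we R) + 2 * C s * th M e1 (wo R) := by
  have h1 : (1 : R⟦X⟧) = ∑ y ∈ Icc (-M : ℤ) M, if y = 0 then 1 else 0 := by simp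
  rw [← sub_eq_zero, h1]
  simp only [th, mul_sum, ← sum_add_distrib, ← sum_sub_distrib]
  refine sum_involution (fun y _ => -y) (fun y _ => ?_) (fun y _ h e => h ?_)
    (fun y hy => by simp only [mem_Icc] at hy ⊢; omega) (fun y _ => by simp)
  · simp only [e1, we, wo, neg_mul_neg]
    split_ifs <;> first | omega | (simp only [map_one, map_zero]; ring1) | skip
    all_goals
      have : y = 0 := by omega
      simp [this]
  · have : y = 0 := by omega
    simp [this, we, wo, e1]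

theorem sq_sum {A ι : Type} [CommRing A] [DecidableEq ι] (s : Finset ι) (f : ι → A) :
    ∃ Z, (∑ i ∈ s, f i) ^ 2 = ∑ i ∈ s, f i ^ 2 + 2 * Z := by
  induction s using Finset.induction_on with
  | empty => exact ⟨0, by simp⟩
  | insert i s hi ih =>
    obtain ⟨Z, h⟩ := ih
    exact ⟨Z + f i * ∑ i ∈ s, f i, by rw [sum_insert hi, sum_insert hi]; linear_combination h⟩

theorem pent {k y : ℤ} {n : ℕ} (h : e3 k + y = n) : (6 * k + 1) ^ 2 + 24 * y = 24 * n + 1 := by
  have := two_T k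
  unfold e3 at h
  linarith

theorem mod5 (x y : ℤ) (n : ℕ) (h5 : n % 5 = 1) (h25 : n % 25 ≠ 1) (c : ℤ)
    (h : x ^ 2 + 24 * (c * (y * y)) = 24 * n + 1) :
    y % 5 ≠ 0 ∧ c % 5 ≠ 2 ∧ (c = 1 → (x - y) % 5 = 0 ∨ (x + y) % 5 = 0) := by
  obtain ⟨a, r, hr, rfl⟩ : ∃ a r, (r = 0 ∨ r = 1 ∨ r = 2 ∨ r = 3 ∨ r = 4) ∧ x = 5 * a + r :=
    ⟨x / 5, x % 5, by omega, by omega⟩
  obtain ⟨b, s, hs, rfl⟩ : ∃ a r, (r = 0 ∨ r = 1 ∨ r = 2 ∨ r = 3 ∨ r = 4) ∧ y = 5 * a + r :=
    ⟨y / 5, y % 5, by omega, by omega⟩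
  have e1 : (5 * a + r) ^ 2 = 25 * (a * a) + 10 * (r * a) + r * r := by ring
  have e2 : c * ((5 * b + s) * (5 * b + s)) = 25 * (c * b * b) + 10 * (s * (c * b)) + s * s * c := by ring
  rw [e1, e2] at h
  generalize a * a = u, c * b * b = v, c * b = w at h
  rcases hr with rfl | rfl | rfl | rfl | rfl <;> rcases hs with rfl | rfl | rfl | rfl | rfl <;> omega

theorem sq_zero {M n : ℕ} (hn : n < M) (h5 : n % 5 = 1) (h25 : n % 25 ≠ 1) (v w : ℤ → R) :
    ∃ Z, coeff n (th M e3 v * th M e1 w ^ 2) = 2 * Z := by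
  obtain ⟨Z, h⟩ := sq_sum (Icc (-M : ℤ) M) fun y => (C (w y) * X ^ (e1 y).toNat : R⟦X⟧)
  have b : Bd fun y => 2 * e1 y := fun y => by have := b1 y; simp only; omega
  have e : ∑ y ∈ Icc (-M : ℤ) M, (C (w y) * X ^ (e1 y).toNat : R⟦X⟧) ^ 2 =
      th M (fun y => 2 * e1 y) fun y => w y ^ 2 := sum_congr rfl fun y _ => by
    rw [mul_pow, map_pow, ← pow_mul]
    have := (b1 y).1
    congr 2
    simp only
    omega
  refine ⟨coeff n (th M e3 v * Z), ?_⟩
  rw [th.eq_1 M e1, h, e, mul_add, map_add, coeff_th _ _ b3 b, sum_eq_zero, zero_add, mul_left_comm,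
    show (2 : R⟦X⟧) = C 2 from rfl, coeff_C_mul]
  intro p hp
  exact absurd rfl (mod5 _ _ n h5 h25 2 (pent ((mem_sol hn b3 b p).mp hp))).2.1

theorem lat {M n : ℕ} (hn : n < M) (h5 : n % 5 = 1) (h25 : n % 25 ≠ 1) (c : R)
    (hc : ∀ k l : ℤ, (k + l) % 4 = 3 → c * ((6 * k + 1) * (4 + 30 * n) - (6 * l + 1) * (30 * n)) = 0) :
    c * ∑ p ∈ sol M e3 e1 n, (6 * p.1 + 1 : R) * (4 * wo R p.2 - 3 * n *
      ((if p.2 % 2 = 0 then 1 else -1) + 8 * (we R p.2 - wo R p.2))) = 0 := by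
  have m1 := mem_sol hn b3 b1
  have m5 := fun p hp => mod5 _ _ n h5 h25 1 (by simpa only [one_mul, e1] using pent ((m1 p).mp hp))
  generalize sol M e3 e1 n = S at *
  set g : ℤ × ℤ → R := fun p => (6 * p.1 + 1 : R) * (if p.2 % 2 = 0 then -(30 * n : R) else 4 + 30 * n) with hg
  have h1 : ∑ p ∈ S, ((6 * p.1 + 1 : R) * (4 * wo R p.2 - 3 * n *
      ((if p.2 % 2 = 0 then 1 else -1) + 8 * (we R p.2 - wo R p.2))) -
        if (6 * p.1 + 1 - p.2) % 5 = 0 then g p else 0) = 0 := by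
    refine sum_involution (fun p _ => (p.1, -p.2)) (fun p hp => ?_) (fun p hp h e => ?_)
      (fun p hp => by rw [m1] at hp ⊢; simpa [e1] using hp) (fun p _ => by simp)
    · obtain ⟨h0, -, h1⟩ := m5 p hp
      have h1 := h1 rfl
      have e : -p.2 % 2 = p.2 % 2 := by omega
      have e' : (6 * p.1 + 1 - -p.2) % 5 = 0 ↔ ¬(6 * p.1 + 1 - p.2) % 5 = 0 := by omega
      have e'' : 0 < -p.2 ↔ ¬0 < p.2 := by omega
      simp only [hg, we, wo, e, e', e'']
      rcases Int.emod_two_eq_zero_or_one p.2 with h | h <;> by_cases a : 0 < p.2 <;>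
        by_cases b : (6 * p.1 + 1 - p.2) % 5 = 0 <;> simp [h, a, b] <;> ring
    · have := congrArg Prod.snd e
      have := (m5 p hp).1
      simp only at *
      omega
  rw [sum_sub_distrib, sub_eq_zero, ← sum_filter] at h1
  rw [h1, mul_sum]
  refine sum_involution (fun p _ => (-p.1 - 1 - 4 * ((p.2 - p.1 - 1) / 5), (p.2 - p.1 - 1) / 5 - p.1))
    (fun p hp => ?_) (fun p hp _ e => ?_) (fun p hp => ?_) (fun p hp => ?_)
  all_goals
    obtain ⟨hp, h2⟩ := mem_filter.mp hp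
    obtain ⟨k, y⟩ := p
    obtain ⟨t, rfl⟩ : ∃ t, y = k + 1 + 5 * t := ⟨(y - k - 1) / 5, by simp only at h2; omega⟩
    have ht : (k + 1 + 5 * t - k - 1) / 5 = t := by omega
    simp only [ht] at *
  · have h3 := hc k (-k - 1 - 4 * t) (by omega)
    have h4 := hc (-k - 1 - 4 * t) k (by omega)
    simp only [hg]
    split_ifs <;> first | omega | linear_combination h3 | linear_combination h4
  · have := congrArg Prod.snd e
    simp only at this
    omega
  · rw [mem_filter, m1] at *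
    refine ⟨?_, by simp only; omega⟩
    have h1 := two_T k
    have h2 := two_T (-k - 1 - 4 * t)
    simp only [e3, e1] at hp ⊢
    linarith
  · ext <;> simp only <;> omega

end Pool.Agent.H27.Jt
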