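import Pool.Agent.H27.JtE

/-! Partitions counted by their number of part sizes. -/

namespace Pool.Agent.H27.Jt
open Finset PowerSeries

set_option maxHeartbeats 200000

variable {S : Type} [CommRing S]

noncomputable def uu (S : Type) [CommRing S] (n i : ℕ) : S⟦X⟧ := ∑ j ∈ Ico 1 (n + 1), X ^ (i * j)

section gf
open scoped PowerSeries.WithPiTopology

theorem gf3 (t : S) (n : ℕ) : coeff n (∏ i ∈ range n, (1 + C t * uu S n (i + 1))) =
    ∑ p : n.Partition, t ^ #p.parts.toFinset := by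
  letI : TopologicalSpace S := ⊥
  haveI : DiscreteTopology S := ⟨rfl⟩
  have h := (Nat.Partition.hasProd_genFun (fun _ c => if c ≤ n then t else 0)).tendsto_prod_nat
  rw [WithPiTopology.tendsto_iff_coeff_tendsto] at h
  simp only [nhds_discrete, Filter.tendsto_pure] at h
  obtain ⟨N, hN⟩ := Filter.eventually_atTop.mp (h n)
  have e : ∀ i, (1 + ∑' j, (if j + 1 ≤ n then t else 0) • X ^ ((i + 1) * (j + 1)) : S⟦X⟧) =
      1 + C t * uu S n (i + 1) := fun i => by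
    rw [tsum_eq_sum (s := range n) fun j hj => by rw [if_neg (by simpa using hj), zero_smul], uu,
      sum_Ico_eq_sum_range, mul_sum]
    congr 1
    refine sum_congr rfl fun j hj => ?_
    rw [if_pos (by simpa using hj), smul_eq_C_mul, add_comm 1]
  have st : ∀ L, n ≤ L → (X : S⟦X⟧) ^ (n + 1) ∣ ∏ i ∈ range L, (1 + C t * uu S n (i + 1)) -
      ∏ i ∈ range n, (1 + C t * uu S n (i + 1)) := fun L hL => by
    induction L, hL using Nat.le_induction with
    | base => simp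
    | succ L hL ih =>
      have : (X : S⟦X⟧) ^ (n + 1) ∣ uu S n (L + 1) := dvd_sum fun j hj =>
        pow_dvd_pow _ (by have := (mem_Ico.mp hj).1; nlinarith)
      rw [prod_range_succ]
      exact (dvd_add ih (this.mul_left ((∏ i ∈ range L, (1 + C t * uu S n (i + 1))) * C t))).trans
        (dvd_of_eq (by ring))
  have h1 := hN (N + n) (by omega)
  have h2 := X_pow_dvd_iff.mp (st (N + n) (by omega)) n (by omega)
  simp only [e] at h1
  rw [map_sub, sub_eq_zero] at h2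
  rw [← h2, h1, Nat.Partition.coeff_genFun]
  refine sum_congr rfl fun p _ => ?_
  simp only [Finsupp.prod, Multiset.toFinsupp_support, Multiset.toFinsupp_apply]
  rw [← prod_const]
  refine prod_congr rfl fun i _ => if_pos ((Multiset.count_le_card _ _).trans ?_)
  simpa [p.parts_sum] using Multiset.card_nsmul_le_sum (s := p.parts) (a := 1) fun x hx => p.parts_pos hx

end gf

theorem prod3 {ι : Type} [DecidableEq ι] (s : Finset ι) (t : S) (u : ι → S) : ∃ Z, 2 * ∏ i ∈ s, (1 + t * u i) =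
    2 + 2 * t * ∑ i ∈ s, u i + t ^ 2 * ((∑ i ∈ s, u i) ^ 2 - ∑ i ∈ s, u i ^ 2) + t ^ 3 * Z := by
  induction s using Finset.induction_on with
  | empty => exact ⟨0, by simp⟩
  | insert i s hi ih =>
    obtain ⟨Z, h⟩ := ih
    refine ⟨Z + u i * ((∑ i ∈ s, u i) ^ 2 - ∑ i ∈ s, u i ^ 2) + t * u i * Z, ?_⟩
    rw [sum_insert hi, sum_insert hi, prod_insert hi]
    linear_combination (1 + t * u i) * h

theorem nu_exp (t : S) {n : ℕ} (hn : n ≠ 0) : ∃ Z, ∑ p : n.Partition, t ^ #p.parts.toFinset =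
    t * #{p : n.Partition | #p.parts.toFinset = 1} + t ^ 2 * #{p : n.Partition | #p.parts.toFinset = 2} +
      t ^ 3 * #{p : n.Partition | #p.parts.toFinset = 3} + t ^ 4 * Z := by
  suffices h : t ^ 4 ∣ ∑ p : n.Partition, (t ^ #p.parts.toFinset - t * (if #p.parts.toFinset = 1 then 1 else 0) -
      t ^ 2 * (if #p.parts.toFinset = 2 then 1 else 0) - t ^ 3 * (if #p.parts.toFinset = 3 then 1 else 0)) by
    obtain ⟨Z, hZ⟩ := h
    simp only [sum_sub_distrib, ← mul_sum, sum_boole] at hZ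
    exact ⟨Z, by linear_combination hZ⟩
  refine dvd_sum fun p _ => ?_
  have : #p.parts.toFinset ≠ 0 := fun h => hn (by
    rw [card_eq_zero, Multiset.toFinset_eq_empty] at h
    rw [← p.parts_sum, h, Multiset.sum_zero])
  generalize #p.parts.toFinset = k at *
  rcases k with _ | _ | _ | _ | k
  any_goals simp_all; done
  simpa using pow_dvd_pow t (by omega)

theorem cf {ι : Type} (s : Finset ι) (w : ι → S) (f : ι → ℕ) (n : ℕ) :
    coeff n (∑ x ∈ s, C (w x) * X ^ f x) = ∑ x ∈ s with f x = n, w x := by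
  simp only [map_sum, coeff_C_mul, coeff_X_pow, sum_filter, mul_ite, mul_one, mul_zero, eq_comm]

theorem cf1 {ι : Type} (s : Finset ι) (f : ι → ℕ) (n : ℕ) :
    coeff n (∑ x ∈ s, X ^ f x : S⟦X⟧) = #{x ∈ s | f x = n} := by
  simpa using cf s (fun _ => (1 : S)) f n

theorem sym_sum (s : Finset ℕ) (f : ℕ → S) : ∑ i ∈ s, ∑ j ∈ s, f (i * j) =
    ∑ i ∈ s, f (i * i) + 2 * ∑ x ∈ s ×ˢ s with x.1 < x.2, f (x.1 * x.2) := by
  have h : ∀ i j, f (i * j) = (if i = j then f (i * j) else 0) + (if i < j then f (i * j) else 0) +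
      (if j < i then f (j * i) else 0) := fun i j => by
    split_ifs <;> first | omega | simp [mul_comm]
  rw [sum_congr rfl fun i _ => sum_congr rfl fun j _ => h i j]
  simp only [sum_add_distrib]
  rw [sum_comm (f := fun i j => if j < i then f (j * i) else 0), sum_filter, sum_product, two_mul, add_assoc]
  congr 1
  exact sum_congr rfl fun i hi => by simp [hi]

def II (n : ℕ) : Finset ℕ := Ico 1 (n + 1)
def JJ (n : ℕ) : Finset (ℕ × ℕ) := {x ∈ II n ×ˢ II n | x.1 < x.2}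

theorem E1 {n : ℕ} (hn : n ≠ 0) :
    (32 : ℤ) ∣ #{p : n.Partition | #p.parts.toFinset = 1} - #{x ∈ II n ×ˢ II n | x.1 * x.2 = n} ∧
    (8 : ℤ) ∣ 2 * #{p : n.Partition | #p.parts.toFinset = 2} - (#{x ∈ II n ×ˢ II n | x.1 * x.1 + x.2 * x.2 = n} +
      4 * #{x ∈ II n ×ˢ JJ n | x.1 * x.1 + x.2.1 * x.2.2 = n} + 4 * #{x ∈ JJ n | x.1 * x.2 * 2 = n}) +
        #{x ∈ II n ×ˢ (II n ×ˢ II n) | x.1 * x.2.1 + x.1 * x.2.2 = n} := by
  have r : ∀ f : ℕ → ℤ⟦X⟧, ∑ i ∈ range n, f (i + 1) = ∑ i ∈ II n, f i := fun f => by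
    simp only [II, sum_Ico_eq_sum_range, add_comm 1, Nat.add_sub_cancel]
  have c1 : coeff (R := ℤ) n (∑ i ∈ range n, uu ℤ n (i + 1)) = #{x ∈ II n ×ˢ II n | x.1 * x.2 = n} := by
    rw [r, ← cf1, sum_product]
    rfl
  have c2 : coeff (R := ℤ) n (∑ i ∈ range n, uu ℤ n (i + 1) ^ 2) =
      #{x ∈ II n ×ˢ (II n ×ˢ II n) | x.1 * x.2.1 + x.1 * x.2.2 = n} := by
    rw [r fun i => uu ℤ n i ^ 2, ← cf1, sum_product]
    simp only [uu, sq, sum_mul_sum, sum_product, pow_add, II]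
  obtain ⟨Y, hY⟩ := sq_sum (JJ n) fun x => (X ^ (x.1 * x.2) : ℤ⟦X⟧)
  have c3 : coeff (R := ℤ) n ((∑ i ∈ range n, uu ℤ n (i + 1)) ^ 2) = #{x ∈ II n ×ˢ II n | x.1 * x.1 + x.2 * x.2 = n} +
      4 * #{x ∈ II n ×ˢ JJ n | x.1 * x.1 + x.2.1 * x.2.2 = n} + 4 * #{x ∈ JJ n | x.1 * x.2 * 2 = n} +
        8 * coeff n Y := by
    rw [r, ← cf1, ← cf1, ← cf1, ← coeff_C_mul, ← coeff_C_mul, ← coeff_C_mul, ← map_add, ← map_add, ← map_add]
    congr 1
    simp only [pow_add, pow_mul _ _ 2, sum_product, ← sum_mul_sum, map_ofNat]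
    rw [show ∑ i ∈ II n, uu ℤ n i = _ from sym_sum (II n) fun k => (X ^ k : ℤ⟦X⟧), ← JJ]
    linear_combination 4 * hY
  have key : ∀ t : ℤ, ∃ Z, 2 * (t * #{p : n.Partition | #p.parts.toFinset = 1} +
      t ^ 2 * #{p : n.Partition | #p.parts.toFinset = 2}) = 2 * t * coeff n (∑ i ∈ range n, uu ℤ n (i + 1)) +
        t ^ 2 * (coeff n ((∑ i ∈ range n, uu ℤ n (i + 1)) ^ 2) - coeff n (∑ i ∈ range n, uu ℤ n (i + 1) ^ 2)) +
          t ^ 3 * Z := fun t => by
    obtain ⟨Z, h⟩ := prod3 (range n) (C t) fun i => uu ℤ n (i + 1)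
    obtain ⟨Z', h'⟩ := nu_exp t hn
    have h1 := congrArg (coeff n) h
    rw [show (2 : ℤ⟦X⟧) = C 2 from rfl] at h1
    simp only [← map_mul, ← map_pow, map_add (coeff n), coeff_C_mul, map_sub (coeff n), coeff_C, if_neg hn,
      gf3] at h1
    exact ⟨coeff n Z - 2 * #{p : n.Partition | #p.parts.toFinset = 3} - 2 * t * Z',
      by linear_combination h1 - 2 * h'⟩
  obtain ⟨Z1, h1⟩ := key 64
  obtain ⟨Z2, h2⟩ := key 8
  rw [c1, c2, c3] at h1 h2
  constructor <;> omega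

theorem th_sg (M : ℕ) : th M e1 (sg S) = 1 + 2 * ∑ x ∈ II M, C ((-1) ^ x) * X ^ (x * x) := by
  induction M with
  | zero => simp [th, II, e1, sg]
  | succ M ih =>
    have e : Icc (-(M + 1 : ℕ) : ℤ) (M + 1 : ℕ) = insert (-(M + 1 : ℕ) : ℤ) 
        (insert ((M + 1 : ℕ) : ℤ) (Icc (-M : ℤ) M)) := by
      ext; simp only [mem_insert, mem_Icc]; omega
    have s : ∀ k : ℕ, sg S k = (-1) ^ k := fun k => by simp [sg, neg_one_pow_eq_ite]
    rw [th, e, sum_insert (by simp only [mem_insert, mem_Icc]; omega), sum_insert (by simp only [mem_Icc]; omega),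
      ← th, ih, II, II, sum_Ico_succ_top (by omega : 1 ≤ M + 1), sg_eq (b := (M + 1 : ℕ)) (by omega), s, e1, e1, neg_mul_neg,
      ← Nat.cast_mul, Int.toNat_natCast]
    ring

theorem E2 {n : ℕ} (hn : n ≠ 0) :
    (2 * #{p : n.Partition | #p.parts.toFinset = 1} + 4 * #{p : n.Partition | #p.parts.toFinset = 2} +
      8 * #{p : n.Partition | #p.parts.toFinset = 3} : ZMod 16) =
    -2 * ∑ x ∈ II (n + 1) with x * x = n, (-1) ^ x +
      4 * ∑ x ∈ II (n + 1) ×ˢ II (n + 1) with x.1 * x.1 + x.2 * x.2 = n, (-1) ^ (x.1 + x.2) -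
      8 * ∑ x ∈ II (n + 1) ×ˢ (II (n + 1) ×ˢ II (n + 1)) with x.1 * x.1 + (x.2.1 * x.2.1 + x.2.2 * x.2.2) = n,
        (-1) ^ (x.1 + (x.2.1 + x.2.2)) := by
  have z : (16 : ZMod 16) = 0 := rfl
  have z' : (16 : (ZMod 16)⟦X⟧) = 0 := by rw [show (16 : (ZMod 16)⟦X⟧) = C 16 from rfl, z, map_zero]
  obtain ⟨Z, h⟩ := nu_exp (2 : ZMod 16) hn
  rw [← gf3] at h
  have g := gauss (R := ZMod 16) (n + 1)
  have a1 := P_sub (Q := (X : (ZMod 16)⟦X⟧)) (by omega : n ≤ 2 * (n + 1))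
  have a2 : (X : (ZMod 16)⟦X⟧) ^ (n + 1) ∣ P (X ^ 2) (n + 1) - P (X ^ 2) n :=
    (pow_dvd_pow _ (by omega)).trans (pow_mul (X : (ZMod 16)⟦X⟧) 2 _ ▸ P_sub (by omega : n ≤ n + 1))
  have a3 : (X : (ZMod 16)⟦X⟧) ^ (n + 1) ∣
      (∏ i ∈ range n, (1 + C 2 * uu (ZMod 16) n (i + 1))) * P X n ^ 2 - P (X ^ 2) n := by
    rw [P, P, ← prod_pow, ← prod_mul_distrib, ← Ideal.mem_span_singleton, ← Ideal.Quotient.eq, map_prod, map_prod]
    refine prod_congr rfl fun i _ => Ideal.Quotient.eq.mpr (Ideal.mem_span_singleton.mpr ?_)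
    have e : uu (ZMod 16) n (i + 1) * (1 - X ^ (i + 1)) = X ^ (i + 1) - (X ^ (i + 1)) ^ (n + 1) := by
      simp only [uu, pow_mul]
      rw [geom_sum_Ico_mul_neg _ (by omega), pow_one]
    refine ((pow_dvd_pow_of_dvd (dvd_pow_self X (by omega : i + 1 ≠ 0)) (n + 1)).mul_left
      (-2 * (1 - X ^ (i + 1)))).trans (dvd_of_eq ?_)
    rw [map_ofNat, ← pow_mul X 2, mul_comm 2 (i + 1), pow_mul]
    linear_combination -2 * (1 - X ^ (i + 1)) * e
  have hu := P_unit (R := ZMod 16) two_ne_zero n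
  rw [P_split] at a1
  rw [th_sg] at g
  rw [← cf, ← cf, ← cf]
  simp only [pow_add, map_mul, mul_mul_mul_comm (C _) (C _ * C _), mul_mul_mul_comm (C _) (C _), sum_product,
    ← sum_mul_sum, ← mul_sum, ← sum_mul]
  generalize ∑ x ∈ II (n + 1), C ((-1 : ZMod 16) ^ x) * X ^ (x * x) = A,
    ∏ i ∈ range n, (1 + C 2 * uu (ZMod 16) n (i + 1)) = G at *
  have k : X ^ (n + 1) ∣ G - (1 + C (-2) * A + C 4 * (A * A) - C 8 * (A * (A * A))) := by
    have hu := hu.map (Ideal.Quotient.mk (Ideal.span {(X : (ZMod 16)⟦X⟧) ^ (n + 1)}))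
    have z'' := congrArg (Ideal.Quotient.mk (Ideal.span {(X : (ZMod 16)⟦X⟧) ^ (n + 1)})) z'
    simp only [← Ideal.mem_span_singleton, ← Ideal.Quotient.eq, map_mul, map_pow, map_add, map_one, map_neg,
      map_ofNat, map_zero, map_sub] at *
    rw [a2] at g a1
    rw [← a1] at a3
    generalize Ideal.Quotient.mk (Ideal.span {(X : (ZMod 16)⟦X⟧) ^ (n + 1)}) = π at *
    have b : π G * (1 + 2 * π A) = 1 := hu.mul_left_cancel (by rw [← g]; linear_combination a3)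
    linear_combination (1 - 2 * π A + 4 * π A ^ 2 - 8 * π A ^ 3) * b + π G * π A ^ 4 * z''
  have k1 := X_pow_dvd_iff.mp k n (by omega)
  simp only [map_sub, map_add, coeff_C_mul, coeff_one, if_neg hn] at k1
  linear_combination k1 - h - Z * z

end Pool.Agent.H27.Jt
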