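import Pool.Agent.H27.JtF

/-! Parity arguments for the counts of representations. -/

namespace Pool.Agent.H27.Jt
open Finset

set_option maxHeartbeats 400000

theorem ev {α : Type} (s : Finset α) (g : α → α) (h1 : ∀ a ∈ s, g a ∈ s) (h2 : ∀ a ∈ s, g (g a) = a)
    (h3 : ∀ a ∈ s, g a ≠ a) : 2 ∣ #s := by
  rw [← ZMod.natCast_eq_zero_iff, card_eq_sum_ones, Nat.cast_sum]
  exact sum_involution (fun a _ => g a) (fun _ _ => rfl) (fun a ha _ => h3 a ha) h1 h2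

theorem mem_II {n x : ℕ} : x ∈ II n ↔ 0 < x ∧ x ≤ n := by simp only [II, mem_Ico]; omega

theorem L1 {n k : ℕ} (hk : k ≠ 0) (h : k ≤ n) : #{x ∈ II n ×ˢ II n | x.1 * x.2 = k} = #k.divisors := by
  rw [card_eq_sum_ones k.divisors, ← Nat.sum_divisorsAntidiagonal fun _ _ => 1, ← card_eq_sum_ones]
  congr 1
  ext ⟨a, b⟩
  simp only [mem_filter, mem_product, mem_II, Nat.mem_divisorsAntidiagonal]
  refine ⟨fun h => ⟨h.2, hk⟩, fun ⟨e, _⟩ => ?_⟩
  have ha : 0 < a := Nat.pos_of_ne_zero (by rintro rfl; omega)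
  have hb : 0 < b := Nat.pos_of_ne_zero (by rintro rfl; omega)
  exact ⟨⟨⟨ha, by nlinarith⟩, hb, by nlinarith⟩, e⟩

theorem L2 {n k : ℕ} (hk : k ≠ 0) (h : k ≤ n) (s : ∀ i, i * i ≠ k) :
    #k.divisors = 2 * #{x ∈ JJ n | x.1 * x.2 = k} := by
  have := sym_sum (II n) fun m => if m = k then (1 : ℤ) else 0
  rw [← sum_product', sum_boole, L1 hk h] at this
  simp only [sum_boole, s, if_false, sum_const_zero, zero_add, ← JJ.eq_1] at this
  exact_mod_cast this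

theorem L3 {n : ℕ} (hn : n ≠ 0) : #{x ∈ II n ×ˢ (II n ×ˢ II n) | x.1 * x.2.1 + x.1 * x.2.2 = n} + #n.divisors =
    ∑ d ∈ n.divisors, d := by
  rw [card_eq_sum_card_fiberwise (f := fun x : ℕ × ℕ × ℕ => x.2.1 + x.2.2) (t := n.divisors) fun x hx =>
    Nat.mem_divisors.mpr ⟨⟨x.1, by rw [← (mem_filter.mp hx).2]; ring⟩, hn⟩, card_eq_sum_ones n.divisors,
    ← sum_add_distrib]
  refine sum_congr rfl fun b hb => ?_
  obtain ⟨⟨a, rfl⟩, -⟩ := Nat.mem_divisors.mp hb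
  have ha : 0 < a := Nat.pos_of_ne_zero (by rintro rfl; omega)
  have hb : 0 < b := Nat.pos_of_ne_zero (by rintro rfl; omega)
  rw [card_nbij' (t := Ioo 0 b) (fun x => x.2.1) (fun j => (a, j, b - j)), Nat.card_Ioo]
  · omega
  · intro x hx
    simp only [coe_filter, mem_filter, mem_product, mem_II, Set.mem_ofPred_eq, coe_Ioo, Set.mem_Ioo] at hx ⊢
    omega
  · intro j hj
    simp only [coe_filter, mem_filter, mem_product, mem_II, Set.mem_ofPred_eq, coe_Ioo, Set.mem_Ioo] at hj ⊢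
    have : b ≤ b * a := Nat.le_mul_of_pos_right _ ha
    refine ⟨⟨⟨⟨ha, Nat.le_mul_of_pos_left _ hb⟩, by omega⟩, ?_⟩, by omega⟩
    rw [← mul_add, mul_comm, add_tsub_cancel_of_le hj.2.le]
  · rintro ⟨x, j, k⟩ hx
    simp only [coe_filter, mem_filter, mem_product, mem_II, Set.mem_ofPred_eq] at hx
    obtain ⟨⟨-, e⟩, rfl⟩ := hx
    rw [← mul_add, mul_comm] at e
    simp [Nat.eq_of_mul_eq_mul_left hb e]
  · intro j _
    rfl

theorem sq4 (x : ℕ) : x % 2 = 0 ∧ x * x % 4 = 0 ∨ x % 2 = 1 ∧ x * x % 4 = 1 := by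
  have : x % 4 = 0 ∨ x % 4 = 1 ∨ x % 4 = 2 ∨ x % 4 = 3 := by omega
  rcases this with h | h | h | h <;> simp [Nat.mul_mod, h] <;> omega

theorem mul4 (a b : ℕ) : (a * b % 4 = 1 → a % 4 = b % 4) ∧
    (a * b % 4 = 2 → a % 4 = 2 ∧ b % 2 = 1 ∨ a % 2 = 1 ∧ b % 4 = 2) := by
  have : a % 4 = 0 ∨ a % 4 = 1 ∨ a % 4 = 2 ∨ a % 4 = 3 := by omega
  have : b % 4 = 0 ∨ b % 4 = 1 ∨ b % 4 = 2 ∨ b % 4 = 3 := by omega
  rcases this with h | h | h | h <;> rcases this with h' | h' | h' | h' <;> simp [Nat.mul_mod, h, h'] <;> omega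

def zag (w : ℕ × ℕ × ℕ × ℕ) : ℕ × ℕ × ℕ × ℕ :=
  if w.2.1 + w.2.2.2 < w.2.2.1 then (w.1, w.2.1 + 2 * w.2.2.2, w.2.2.2, w.2.2.1 - w.2.1 - w.2.2.2)
  else if w.2.1 < 2 * w.2.2.1 then (w.1, 2 * w.2.2.1 - w.2.1, w.2.2.1, w.2.1 + w.2.2.2 - w.2.2.1)
  else (w.1, w.2.1 - 2 * w.2.2.1, w.2.1 + w.2.2.2 - w.2.2.1, w.2.2.1)

theorem L4 {n : ℕ} (h2 : n % 4 = 2) (s1 : ∀ x y, x * x + y * y ≠ n) (s2 : ∀ x y, x * x + 2 * (y * y) ≠ n) :
    2 ∣ #{x ∈ II n ×ˢ JJ n | x.1 * x.1 + x.2.1 * x.2.2 = n} := by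
  have mT : ∀ x a b, (x, a, b) ∈ {x ∈ II n ×ˢ JJ n | x.1 * x.1 + x.2.1 * x.2.2 = n} ↔
      0 < x ∧ 0 < a ∧ a < b ∧ x * x + a * b = n := fun x a b => by
    simp only [mem_filter, mem_product, mem_II, JJ]
    refine ⟨by omega, fun ⟨h1, h2, h3, h4⟩ => ?_⟩
    have : x ≤ x * x := Nat.le_mul_self x
    have : b ≤ a * b := Nat.le_mul_of_pos_left _ h2
    omega
  obtain ⟨W, mW⟩ : ∃ W : Finset (ℕ × ℕ × ℕ × ℕ), ∀ x u y z, (x, u, y, z) ∈ W ↔
      0 < x ∧ 0 < u ∧ 0 < y ∧ 0 < z ∧ x * x + u * u + 4 * (y * z) = n := by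
    refine ⟨{w ∈ II n ×ˢ II n ×ˢ II n ×ˢ II n | w.1 * w.1 + w.2.1 * w.2.1 + 4 * (w.2.2.1 * w.2.2.2) = n},
      fun x u y z => ?_⟩
    simp only [mem_filter, mem_product, mem_II]
    refine ⟨by omega, fun ⟨h1, h2, h3, h4, h5⟩ => ?_⟩
    have : x ≤ x * x := Nat.le_mul_self x
    have : u ≤ u * u := Nat.le_mul_self u
    have : z ≤ y * z := Nat.le_mul_of_pos_left _ h3
    have : y ≤ y * z := Nat.le_mul_of_pos_right _ h4
    omega
  generalize {x ∈ II n ×ˢ JJ n | x.1 * x.1 + x.2.1 * x.2.2 = n} = T at *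
  have w1 : 2 ∣ #W := by
    refine ev W (fun w => (w.2.1, w.1, w.2.2.2, w.2.2.1)) ?_ (fun _ _ => rfl) ?_
    · rintro ⟨x, u, y, z⟩ h
      simp only [mW, mul_comm z] at h ⊢
      omega
    · rintro ⟨x, u, y, z⟩ h e
      simp only [Prod.mk.injEq] at e
      obtain ⟨rfl, -, rfl, -⟩ := e
      exact s2 (2 * z) u (by rw [← ((mW ..).mp h).2.2.2.2]; ring)
  have bd : ∀ x u y z, (x, u, y, z) ∈ W → u + z ≠ y ∧ u ≠ 2 * y ∧ x % 2 = 1 := fun x u y z h => by
    rw [mW] at h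
    have := sq4 x
    have := sq4 u
    refine ⟨?_, by omega, by omega⟩
    rintro rfl
    exact s1 x (u + 2 * z) (by rw [← h.2.2.2.2]; ring)
  have w2 : 2 ∣ #{w ∈ W | ¬w.2.1 = w.2.2.1} := by
    refine ev _ zag ?_ ?_ ?_
    all_goals
      rintro ⟨x, u, y, z⟩ h
      obtain ⟨h, h'⟩ := mem_filter.mp h
      have b := bd _ _ _ _ h
      rw [mW] at h
      simp only at h'
    · simp only [zag]
      split_ifs with c1 c2 <;> simp only [mem_filter, mW] <;> refine ⟨⟨h.1, by omega, by omega, by omega, ?_⟩, ?_⟩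
      · obtain ⟨v, rfl⟩ : ∃ v, y = u + z + v := ⟨y - u - z, by omega⟩
        rw [← h.2.2.2.2, show u + z + v - u - z = v by omega]
        ring
      · omega
      · zify [c2.le, not_lt.mp c1]
        have := h.2.2.2.2
        zify at this
        linarith
      · omega
      · zify [not_lt.mp c2, not_lt.mp c1]
        have := h.2.2.2.2
        zify at this
        linarith
      · omega
    · by_cases c1 : u + z < y <;> by_cases c2 : u < 2 * y <;> simp only [zag, c1, c2, if_true, if_false] <;>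
        split_ifs <;> simp only [Prod.mk.injEq, true_and, and_true] <;> omega
    · simp only [zag]
      split_ifs <;> simp only [ne_eq, Prod.mk.injEq, true_and] <;> omega
  have w3 : #{w ∈ W | w.2.1 = w.2.2.1} = #{x ∈ T | ¬x.1 % 2 = 0} := by
    refine card_nbij' (fun w => (w.1, w.2.1, w.2.1 + 4 * w.2.2.2)) (fun x => (x.1, x.2.1, x.2.1, (x.2.2 - x.2.1) / 4))
      ?_ ?_ ?_ ?_
    · rintro ⟨x, u, y, z⟩ h
      obtain ⟨h, h'⟩ := mem_filter.mp h
      have b := bd _ _ _ _ h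
      simp only [coe_filter, Set.mem_ofPred_eq, mT, mW] at *
      subst h'
      exact ⟨⟨h.1, h.2.1, by omega, by rw [← h.2.2.2.2]; ring⟩, by omega⟩
    · rintro ⟨x, a, b⟩ h
      simp only [coe_filter, Set.mem_ofPred_eq, mT, mW] at *
      have := sq4 x
      have := (mul4 a b).1 (by omega)
      obtain ⟨z, rfl⟩ : ∃ z, b = a + 4 * z := ⟨(b - a) / 4, by omega⟩
      rw [show (a + 4 * z - a) / 4 = z by omega]
      exact ⟨⟨h.1.1, h.1.2.1, h.1.2.1, by omega, by rw [← h.1.2.2.2]; ring⟩, trivial⟩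
    · rintro ⟨x, u, y, z⟩ h
      simp only [coe_filter, Set.mem_ofPred_eq, Prod.mk.injEq, true_and] at *
      omega
    · rintro ⟨x, a, b⟩ h
      simp only [coe_filter, Set.mem_ofPred_eq, mT, Prod.mk.injEq, true_and] at *
      have := sq4 x
      have := (mul4 a b).1 (by omega)
      omega
  have w4 : 2 ∣ #{x ∈ T | x.1 % 2 = 0} := by
    refine ev _ (fun x => if x.2.1 % 2 = 0 then (x.1, x.2.1 / 2, 2 * x.2.2) else if 2 * x.2.1 < x.2.2 / 2 then
      (x.1, 2 * x.2.1, x.2.2 / 2) else (x.1, x.2.2 / 2, 2 * x.2.1)) ?_ ?_ ?_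
    all_goals
      rintro ⟨x, a, b⟩ h
      simp only [mem_filter, mT] at h
      have := sq4 x
      have := (mul4 a b).2 (by omega)
    · split_ifs with c1 c2 <;> simp only [mem_filter, mT] at * <;> refine ⟨⟨h.1.1, by omega, by omega, ?_⟩, h.2⟩
      · obtain ⟨v, rfl⟩ : ∃ v, a = 2 * v := ⟨a / 2, by omega⟩
        rw [← h.1.2.2.2, show 2 * v / 2 = v by omega]
        ring
      all_goals
        obtain ⟨v, rfl⟩ : ∃ v, b = 2 * v := ⟨b / 2, by omega⟩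
        rw [← h.1.2.2.2, show 2 * v / 2 = v by omega]
        ring
    · simp only
      split_ifs <;> simp only [Prod.mk.injEq, true_and] at * <;> omega
    · have : b ≠ 2 * a := by
        rintro rfl
        exact s2 x a (by rw [← h.1.2.2.2]; ring)
      simp only
      split_ifs <;> simp only [ne_eq, Prod.mk.injEq, true_and] at * <;> omega
  have := card_filter_add_card_filter_not (s := W) fun w => w.2.1 = w.2.2.1
  have := card_filter_add_card_filter_not (s := T) fun x => x.1 % 2 = 0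
  omega

theorem core {n : ℕ} (h2 : n % 4 = 2) (s1 : ∀ x y, x * x + y * y ≠ n) (s2 : ∀ x y, x * x + 2 * (y * y) ≠ n)
    (d1 : 8 ∣ #n.divisors) (d2 : 4 ∣ #(n / 2).divisors) (d3 : 8 ∣ ∑ d ∈ n.divisors, d) :
    4 ∣ #{p : n.Partition | #p.parts.toFinset = 2} ∧ 2 ∣ #{p : n.Partition | #p.parts.toFinset = 3} := by
  have hn : n ≠ 0 := by omega
  obtain ⟨a1, a2⟩ := E1 hn
  have a3 := E2 hn
  have l2 := L2 (n := n) (k := n / 2) (by omega) (by omega) fun i h => s2 0 i (by omega)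
  have l3 := L3 hn
  have l4 := L4 h2 s1 s2
  rw [filter_congr (q := fun x => x.1 * x.2 * 2 = n) fun _ _ => by omega] at l2
  rw [L1 hn le_rfl] at a1
  rw [filter_false_of_mem fun x _ => s1 _ _] at a2 a3
  rw [filter_false_of_mem (p := fun x => x * x = n) fun x _ h => s1 x 0 h, mul_sum _ _ (8 : ZMod 16), sum_involution
    (fun x _ => (x.2.1, x.1, x.2.2))] at a3
  · have a4 : (16 : ℤ) ∣ 2 * #{p : n.Partition | #p.parts.toFinset = 1} +
        4 * #{p : n.Partition | #p.parts.toFinset = 2} + 8 * #{p : n.Partition | #p.parts.toFinset = 3} :=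
      (ZMod.intCast_zmod_eq_zero_iff_dvd _ 16).mp (by simpa using a3)
    simp only [card_empty] at a2
    omega
  · intro x _
    have z : (16 : ZMod 16) = 0 := rfl
    simp only [pow_add]
    linear_combination (-1) ^ x.1 * (-1) ^ x.2.1 * (-1) ^ x.2.2 * z
  · rintro ⟨x, y, z⟩ h _ e
    simp only [Prod.mk.injEq] at e
    obtain ⟨rfl, -⟩ := e
    exact s2 z y (by rw [← (mem_filter.mp h).2]; ring)
  · intro x h
    simp only [mem_filter, mem_product] at h ⊢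
    exact ⟨⟨h.1.2.1, h.1.1, h.1.2.2⟩, by omega⟩
  · intro x _
    rfl

theorem six : ¬4 ∣ #{p : Nat.Partition 6 | #p.parts.toFinset = 2} ∧
    ¬2 ∣ #{p : Nat.Partition 6 | #p.parts.toFinset = 3} := by
  obtain ⟨a1, a2⟩ := E1 (n := 6) (by omega)
  have a3 := (E2 (n := 6) (by omega)).trans (show _ = 8 by decide +kernel)
  rw [show #{x ∈ II 6 ×ˢ II 6 | x.1 * x.2 = 6} = 4 by decide +kernel] at a1
  rw [show #{x ∈ II 6 ×ˢ II 6 | x.1 * x.1 + x.2 * x.2 = 6} = 0 by decide +kernel,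
    show #{x ∈ II 6 ×ˢ JJ 6 | x.1 * x.1 + x.2.1 * x.2.2 = 6} = 2 by decide +kernel,
    show #{x ∈ JJ 6 | x.1 * x.2 * 2 = 6} = 1 by decide +kernel,
    show #{x ∈ II 6 ×ˢ (II 6 ×ˢ II 6) | x.1 * x.2.1 + x.1 * x.2.2 = 6} = 8 by decide +kernel] at a2
  have a4 : (16 : ℤ) ∣ 2 * #{p : Nat.Partition 6 | #p.parts.toFinset = 1} +
      4 * #{p : Nat.Partition 6 | #p.parts.toFinset = 2} + 8 * #{p : Nat.Partition 6 | #p.parts.toFinset = 3} - 8 :=
    (ZMod.intCast_zmod_eq_zero_iff_dvd _ 16).mp (by push_cast; rw [a3, sub_self])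
  omega

end Pool.Agent.H27.Jt
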