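import Pool.Agent.H27.JtG

/-! Further parity arguments for sums of two products. -/

namespace Pool.Agent.H27.Jt
open Finset PowerSeries

set_option maxHeartbeats 400000

theorem evf {α : Type} [DecidableEq α] (s : Finset α) (g : α → α) (h1 : ∀ a ∈ s, g a ∈ s)
    (h2 : ∀ a ∈ s, g (g a) = a) (h3 : 2 ∣ #{a ∈ s | g a = a}) : 2 ∣ #s := by
  have := card_filter_add_card_filter_not (s := s) fun a => g a = a
  have := ev {a ∈ s | ¬g a = a} g (fun a ha => by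
    rw [mem_filter] at ha ⊢
    exact ⟨h1 a ha.1, by rw [h2 a ha.1]; exact fun h => ha.2 h.symm⟩) (fun a ha => h2 a (mem_filter.mp ha).1)
    fun a ha => (mem_filter.mp ha).2
  omega

theorem L5 {n : ℕ} (h2 : n % 4 = 2) (s1 : ∀ x y, x * x + y * y ≠ n) {R : Finset (ℕ × ℕ)}
    (mR : ∀ x y, (x, y) ∈ R ↔ 0 < x ∧ 0 < y ∧ 2 * (x * x) + 4 * (y * y) = n) (hR : 2 ∣ #R) :
    2 ∣ #{x ∈ {x ∈ II n ×ˢ JJ n | x.1 * x.1 + x.2.1 * x.2.2 = n} | x.1 % 2 = 0} ∧
      2 ∣ #{x ∈ {x ∈ II n ×ˢ JJ n | x.1 * x.1 + x.2.1 * x.2.2 = n} | ¬x.1 % 2 = 0} := by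
  have mT : ∀ x a b, (x, a, b) ∈ {x ∈ II n ×ˢ JJ n | x.1 * x.1 + x.2.1 * x.2.2 = n} ↔
      0 < x ∧ 0 < a ∧ a < b ∧ x * x + a * b = n := fun x a b => by
    simp only [mem_filter, mem_product, mem_II, JJ]
    refine ⟨by omega, fun ⟨h1, h2, h3, h4⟩ => ?_⟩
    have : x ≤ x * x := Nat.le_mul_self x
    have : b ≤ a * b := Nat.le_mul_of_pos_left _ h2
    omega
  obtain ⟨W, mW⟩ : ∃ W : Finset (ℕ × ℕ × ℕ × ℕ), ∀ x u y z, (x, u, y, z) ∈ W ↔
      0 < x ∧ 0 < u ∧ 0 < y ∧ 0 < z ∧ x * x + u * u + 4 * (y * z) = n := by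
    refine ⟨{w ∈ II n ×ˢ II n ×ˢ II n ×ˢ II n | w.1 * w.1 + w.2.1 * w.2.1 + 4 * (w.2.2.1 * w.2.2.2) = n},
      fun x u y z => ?_⟩
    simp only [mem_filter, mem_product, mem_II]
    refine ⟨by omega, fun ⟨h1, h2, h3, h4, h5⟩ => ?_⟩
    have : x ≤ x * x := Nat.le_mul_self x
    have : u ≤ u * u := Nat.le_mul_self u
    have : z ≤ y * z := Nat.le_mul_of_pos_left _ h3
    have : y ≤ y * z := Nat.le_mul_of_pos_right _ h4
    omega
  generalize {x ∈ II n ×ˢ JJ n | x.1 * x.1 + x.2.1 * x.2.2 = n} = T at *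
  have w1 : 2 ∣ #W := by
    refine evf W (fun w => (w.2.1, w.1, w.2.2.2, w.2.2.1)) ?_ (fun _ _ => rfl) (hR.trans (dvd_of_eq ?_))
    · rintro ⟨x, u, y, z⟩ h
      simp only [mW, mul_comm z] at h ⊢
      omega
    · refine card_nbij' (fun p => (p.1, p.1, p.2, p.2)) (fun w => (w.1, w.2.2.1)) ?_ ?_ (fun _ _ => rfl) ?_
      · rintro ⟨x, y⟩ h
        simp only [mem_coe, mR, mem_filter, mW, and_true] at h ⊢
        omega
      all_goals
        rintro ⟨x, u, y, z⟩ h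
        simp only [mem_coe, mR, mem_filter, mW, Prod.mk.injEq] at h ⊢
        obtain ⟨h, rfl, -, rfl, -⟩ := h
        first | omega | simp
  have bd : ∀ x u y z, (x, u, y, z) ∈ W → u + z ≠ y ∧ u ≠ 2 * y ∧ x % 2 = 1 := fun x u y z h => by
    rw [mW] at h
    have := sq4 x
    have := sq4 u
    refine ⟨?_, by omega, by omega⟩
    rintro rfl
    exact s1 x (u + 2 * z) (by rw [← h.2.2.2.2]; ring)
  have w2 : 2 ∣ #{w ∈ W | ¬w.2.1 = w.2.2.1} := by
    refine ev _ zag ?_ ?_ ?_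
    all_goals
      rintro ⟨x, u, y, z⟩ h
      obtain ⟨h, h'⟩ := mem_filter.mp h
      have b := bd _ _ _ _ h
      rw [mW] at h
      simp only at h'
    · simp only [zag]
      split_ifs with c1 c2 <;> simp only [mem_filter, mW] <;> refine ⟨⟨h.1, by omega, by omega, by omega, ?_⟩, ?_⟩
      · obtain ⟨v, rfl⟩ : ∃ v, y = u + z + v := ⟨y - u - z, by omega⟩
        rw [← h.2.2.2.2, show u + z + v - u - z = v by omega]
        ring
      · omega
      · zify [c2.le, not_lt.mp c1]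
        have := h.2.2.2.2
        zify at this
        linarith
      · omega
      · zify [not_lt.mp c2, not_lt.mp c1]
        have := h.2.2.2.2
        zify at this
        linarith
      · omega
    · by_cases c1 : u + z < y <;> by_cases c2 : u < 2 * y <;> simp only [zag, c1, c2, if_true, if_false] <;>
        split_ifs <;> simp only [Prod.mk.injEq, true_and, and_true] <;> omega
    · simp only [zag]
      split_ifs <;> simp only [ne_eq, Prod.mk.injEq, true_and] <;> omega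
  have w3 : #{w ∈ W | w.2.1 = w.2.2.1} = #{x ∈ T | ¬x.1 % 2 = 0} := by
    refine card_nbij' (fun w => (w.1, w.2.1, w.2.1 + 4 * w.2.2.2)) (fun x => (x.1, x.2.1, x.2.1, (x.2.2 - x.2.1) / 4))
      ?_ ?_ ?_ ?_
    · rintro ⟨x, u, y, z⟩ h
      obtain ⟨h, h'⟩ := mem_filter.mp h
      have b := bd _ _ _ _ h
      simp only [coe_filter, Set.mem_ofPred_eq, mT, mW] at *
      subst h'
      exact ⟨⟨h.1, h.2.1, by omega, by rw [← h.2.2.2.2]; ring⟩, by omega⟩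
    · rintro ⟨x, a, b⟩ h
      simp only [coe_filter, Set.mem_ofPred_eq, mT, mW] at *
      have := sq4 x
      have := (mul4 a b).1 (by omega)
      obtain ⟨z, rfl⟩ : ∃ z, b = a + 4 * z := ⟨(b - a) / 4, by omega⟩
      rw [show (a + 4 * z - a) / 4 = z by omega]
      exact ⟨⟨h.1.1, h.1.2.1, h.1.2.1, by omega, by rw [← h.1.2.2.2]; ring⟩, trivial⟩
    · rintro ⟨x, u, y, z⟩ h
      simp only [coe_filter, Set.mem_ofPred_eq, Prod.mk.injEq, true_and] at *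
      omega
    · rintro ⟨x, a, b⟩ h
      simp only [coe_filter, Set.mem_ofPred_eq, mT, Prod.mk.injEq, true_and] at *
      have := sq4 x
      have := (mul4 a b).1 (by omega)
      omega
  have w4 : 2 ∣ #{x ∈ T | x.1 % 2 = 0} := by
    refine evf _ (fun x => if x.2.1 % 2 = 0 then (x.1, x.2.1 / 2, 2 * x.2.2) else if 2 * x.2.1 < x.2.2 / 2 then
      (x.1, 2 * x.2.1, x.2.2 / 2) else (x.1, x.2.2 / 2, 2 * x.2.1)) ?_ ?_ (hR.trans (dvd_of_eq ?_))
    rotate_left 2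
    · refine card_nbij' (fun p => (2 * p.2, p.1, 2 * p.1)) (fun w => (w.2.1, w.1 / 2)) ?_ ?_ (fun _ _ => by simp) ?_
      · rintro ⟨x, y⟩ h
        simp only [mem_coe, mR, mem_filter, mT] at h ⊢
        have := sq4 x
        refine ⟨⟨⟨by omega, by omega, by omega, by rw [← h.2.2]; ring⟩, by omega⟩, ?_⟩
        rw [if_neg (by omega), if_neg (by omega)]
        simp
      all_goals
        rintro ⟨x, a, b⟩ h
        simp only [mem_coe, mR, mem_filter, mT] at h ⊢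
        obtain ⟨h, e⟩ := h
        obtain rfl : b = 2 * a := by split_ifs at e <;> simp only [Prod.mk.injEq] at e <;> omega
        obtain ⟨v, rfl⟩ : ∃ v, x = 2 * v := ⟨x / 2, by omega⟩
        rw [show 2 * v / 2 = v by omega]
      exact ⟨by omega, by omega, by rw [← h.1.2.2.2]; ring⟩
    all_goals
      rintro ⟨x, a, b⟩ h
      simp only [mem_filter, mT] at h
      have := sq4 x
      have := (mul4 a b).2 (by omega)
    · split_ifs with c1 c2 <;> simp only [mem_filter, mT] at * <;> refine ⟨⟨h.1.1, by omega, by omega, ?_⟩, h.2⟩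
      · obtain ⟨v, rfl⟩ : ∃ v, a = 2 * v := ⟨a / 2, by omega⟩
        rw [← h.1.2.2.2, show 2 * v / 2 = v by omega]
        ring
      all_goals
        obtain ⟨v, rfl⟩ : ∃ v, b = 2 * v := ⟨b / 2, by omega⟩
        rw [← h.1.2.2.2, show 2 * v / 2 = v by omega]
        ring
    · simp only
      split_ifs <;> simp only [Prod.mk.injEq, true_and] at * <;> omega
  have := card_filter_add_card_filter_not (s := W) fun w => w.2.1 = w.2.2.1
  omega

def J (s : Finset ℕ) : Finset (ℕ × ℕ) := {x ∈ s ×ˢ s | x.1 < x.2}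

theorem conv (s : Finset ℕ) (n : ℕ) : (8 : ℤ) ∣ #{x ∈ (s ×ˢ s) ×ˢ (s ×ˢ s) | x.1.1 * x.1.2 + x.2.1 * x.2.2 = n} -
    (#{x ∈ s ×ˢ s | x.1 * x.1 + x.2 * x.2 = n} + 4 * #{x ∈ s ×ˢ J s | x.1 * x.1 + x.2.1 * x.2.2 = n} +
      4 * #{x ∈ J s | x.1 * x.2 * 2 = n}) := by
  obtain ⟨Y, hY⟩ := sq_sum (J s) fun x => (X ^ (x.1 * x.2) : ℤ⟦X⟧)
  refine ⟨coeff n Y, ?_⟩
  rw [← cf1, ← cf1, ← cf1, ← cf1, ← coeff_C_mul, ← coeff_C_mul, ← coeff_C_mul, ← map_add, ← map_add, ← map_sub]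
  congr 1
  simp only [pow_add, pow_mul _ _ 2, sum_product (s ×ˢ s), sum_product s (J s), ← sum_mul_sum, map_ofNat]
  simp only [sum_product, ← sum_mul_sum]
  rw [sym_sum s fun k => (X ^ k : ℤ⟦X⟧), ← J]
  linear_combination 4 * hY

theorem L6 {s : Finset ℕ} {m : ℕ} (hm : m ≠ 0) (h : ∀ x, x ∣ m → x ∈ s) (q : ∀ i, i * i ≠ m) :
    #m.divisors = 2 * #{x ∈ J s | x.1 * x.2 * 2 = 2 * m} := by
  have := sym_sum s fun k => if k = m then (1 : ℤ) else 0
  rw [← sum_product', sum_boole, show {x ∈ s ×ˢ s | x.1 * x.2 = m} = m.divisorsAntidiagonal from ext fun x => by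
    simp only [mem_filter, mem_product, Nat.mem_divisorsAntidiagonal]
    exact ⟨fun h => ⟨h.2, hm⟩, fun e => ⟨⟨h _ (Dvd.intro _ e.1), h _ (Dvd.intro_left _ e.1)⟩, e.1⟩⟩] at this
  simp only [sum_boole, q, if_false, sum_const_zero, zero_add, ← J.eq_1] at this
  rw [card_eq_sum_ones m.divisors, ← Nat.sum_divisorsAntidiagonal fun _ _ => 1, ← card_eq_sum_ones,
    filter_congr (q := fun x : ℕ × ℕ => x.1 * x.2 = m) fun _ _ => by omega]
  exact_mod_cast this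

theorem sig {m k : ℕ} (h : ∀ a b, a * b = m → k ∣ a + b ∧ a ≠ b) : k ∣ ∑ d ∈ m.divisors, d := by
  rw [← Nat.sum_divisorsAntidiagonal fun a _ => a, ← ZMod.natCast_eq_zero_iff, Nat.cast_sum]
  refine sum_involution (fun x _ => x.swap) (fun x hx => ?_) (fun x hx _ e => ?_)
    (fun x hx => Nat.swap_mem_divisorsAntidiagonal.mpr hx) fun _ _ => rfl
  · rw [← Nat.cast_add, ZMod.natCast_eq_zero_iff]
    exact (h _ _ (Nat.mem_divisorsAntidiagonal.mp hx).1).1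
  · exact (h _ _ (Nat.mem_divisorsAntidiagonal.mp hx).1).2 (congrArg Prod.snd e)

/-- Representations of `3 m` by `x ^ 2 + 2 y ^ 2` come in pairs. -/
theorem three {m : ℕ} (h2 : m % 2 = 1) (h3 : m % 3 ≠ 0) (q : ∀ i, i * i ≠ m) {R : Finset (ℕ × ℕ)}
    (mR : ∀ x y, (x, y) ∈ R ↔ 0 < x ∧ 0 < y ∧ 2 * (x * x) + 4 * (y * y) = 2 * (3 * m)) : 2 ∣ #R := by
  have s3 : ∀ x : ℕ, x % 3 = 0 ∧ x * x % 9 = 0 ∨ x % 3 ≠ 0 ∧ x * x % 3 = 1 := fun x => by
    obtain ⟨a, r, hr, rfl⟩ : ∃ a r, (r = 0 ∨ r = 1 ∨ r = 2) ∧ x = 3 * a + r := ⟨x / 3, x % 3, by omega, by omega⟩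
    rw [show (3 * a + r) * (3 * a + r) = 9 * (a * a) + 6 * (r * a) + r * r by ring]
    rcases hr with rfl | rfl | rfl <;> omega
  have key : ∀ x y, (x, y) ∈ R → x % 3 ≠ 0 ∧ y % 3 ≠ 0 ∧ x % 2 = 1 ∧ x ≠ y ∧ y ≠ 2 * x := fun x y h => by
    rw [mR] at h
    have a1 := s3 x
    have a2 := s3 y
    have a3 := sq4 x
    refine ⟨by omega, by omega, by omega, ?_, ?_⟩
    · rintro rfl
      exact q x (by omega)
    · rintro rfl
      rw [show 2 * x * (2 * x) = 4 * (x * x) by ring] at h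
      omega
  obtain ⟨F, hF⟩ : ∃ F : ℕ × ℕ → ℕ × ℕ, ∀ x y, F (x, y) = if (x + y) % 3 = 0 then
      ((x + 4 * y) / 3, ((2 * x - y) + (y - 2 * x)) / 3) else (((x - 4 * y) + (4 * y - x)) / 3, (2 * x + y) / 3) :=
    ⟨fun p => if (p.1 + p.2) % 3 = 0 then ((p.1 + 4 * p.2) / 3, ((2 * p.1 - p.2) + (p.2 - 2 * p.1)) / 3)
      else (((p.1 - 4 * p.2) + (4 * p.2 - p.1)) / 3, (2 * p.1 + p.2) / 3), fun _ _ => rfl⟩
  have k2 : ∀ x y, (x, y) ∈ R → ∃ u v, F (x, y) = (u, v) ∧ (u, v) ∈ R ∧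
      ((x + y) % 3 = 0 ∧ x + 4 * y = 3 * u ∧ (2 * x = y + 3 * v ∨ y = 2 * x + 3 * v) ∨
        (x + y) % 3 ≠ 0 ∧ 2 * x + y = 3 * v ∧ (x = 4 * y + 3 * u ∨ 4 * y = x + 3 * u)) := fun x y h => by
    have k := key x y h
    refine ⟨(F (x, y)).1, (F (x, y)).2, rfl, ?_⟩
    have e : (x + y) % 3 = 0 ∧ x + 4 * y = 3 * (F (x, y)).1 ∧
        (2 * x = y + 3 * (F (x, y)).2 ∨ y = 2 * x + 3 * (F (x, y)).2) ∨ (x + y) % 3 ≠ 0 ∧ 2 * x + y = 3 * (F (x, y)).2 ∧
          (x = 4 * y + 3 * (F (x, y)).1 ∨ 4 * y = x + 3 * (F (x, y)).1) := by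
      rw [hF]
      have : (x + y) % 3 = 0 ∨ x % 3 = y % 3 := by
        have : x % 3 = 1 ∨ x % 3 = 2 := by omega
        have : y % 3 = 1 ∨ y % 3 = 2 := by omega
        omega
      split_ifs <;> simp only <;> omega
    refine ⟨?_, e⟩
    generalize (F (x, y)).1 = u, (F (x, y)).2 = v at *
    rw [mR] at h ⊢
    refine ⟨by omega, by omega, ?_⟩
    zify at h e ⊢
    rcases e with ⟨-, e1, e2 | e2⟩ | ⟨-, e1, e2 | e2⟩
    · nlinarith [congrArg (· ^ 2) e1, congrArg (· ^ 2) (show 2 * (x : ℤ) - y = 3 * v by linarith)]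
    · nlinarith [congrArg (· ^ 2) e1, congrArg (· ^ 2) (show (y : ℤ) - 2 * x = 3 * v by linarith)]
    · nlinarith [congrArg (· ^ 2) e1, congrArg (· ^ 2) (show (x : ℤ) - 4 * y = 3 * u by linarith)]
    · nlinarith [congrArg (· ^ 2) e1, congrArg (· ^ 2) (show 4 * (y : ℤ) - x = 3 * u by linarith)]
  refine ev R F ?_ ?_ ?_
  all_goals
    rintro ⟨x, y⟩ h
    obtain ⟨u, v, e, h1, h2⟩ := k2 x y h
    have k := key x y h
    rw [e]
  · exact h1
  · obtain ⟨u', v', e', -, h3⟩ := k2 u v h1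
    have k' := key u v h1
    rw [e', Prod.mk.injEq]
    omega
  · rw [ne_eq, Prod.mk.injEq]
    omega

end Pool.Agent.H27.Jt
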