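import Pool.Agent.H27.JtH

/-! Counting solutions of `a i + b j = n` by parity classes. -/

namespace Pool.Agent.H27.Jt
open Finset

set_option maxHeartbeats 400000

def QQ (n : ℕ) : Finset (ℕ × ℕ × ℕ × ℕ) :=
  {x ∈ II n ×ˢ II n ×ˢ II n ×ˢ II n | x.1 * x.2.1 + x.2.2.1 * x.2.2.2 = n}

theorem mQ {n a i b j : ℕ} : (a, i, b, j) ∈ QQ n ↔ 0 < a ∧ 0 < i ∧ 0 < b ∧ 0 < j ∧ a * i + b * j = n := by
  simp only [QQ, mem_filter, mem_product, mem_II]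
  refine ⟨by omega, fun ⟨h1, h2, h3, h4, h5⟩ => ?_⟩
  have : a ≤ a * i := Nat.le_mul_of_pos_right _ h2
  have : i ≤ a * i := Nat.le_mul_of_pos_left _ h1
  have : b ≤ b * j := Nat.le_mul_of_pos_right _ h4
  have : j ≤ b * j := Nat.le_mul_of_pos_left _ h3
  omega

open Classical in
noncomputable def cnt (n : ℕ) (φ : ℕ → ℕ → ℕ → ℕ → Prop) : ℕ := #{x ∈ QQ n | φ x.1 x.2.1 x.2.2.1 x.2.2.2}

variable {n : ℕ}

theorem par (a i : ℕ) : (a % 2 = 0 → i % 2 = 0 → a * i % 4 = 0) ∧ (a % 2 = 0 ∨ i % 2 = 0 ↔ a * i % 2 = 0) := by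
  have : a % 4 = 0 ∨ a % 4 = 1 ∨ a % 4 = 2 ∨ a % 4 = 3 := by omega
  have : i % 4 = 0 ∨ i % 4 = 1 ∨ i % 4 = 2 ∨ i % 4 = 3 := by omega
  have := Nat.mul_mod a i 4
  rcases ‹a % 4 = 0 ∨ _› with h | h | h | h <;> rcases ‹i % 4 = 0 ∨ _› with h' | h' | h' | h' <;>
    rw [h, h'] at this <;> omega

theorem cnt_add {χ φ ψ : ℕ → ℕ → ℕ → ℕ → Prop} (h : ∀ a i b j, 0 < a → 0 < i → 0 < b → 0 < j → a * i + b * j = n →
    (χ a i b j ↔ φ a i b j ∨ ψ a i b j) ∧ ¬(φ a i b j ∧ ψ a i b j)) : cnt n χ = cnt n φ + cnt n ψ := by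
  classical
  unfold cnt
  rw [← card_union_of_disjoint, ← filter_or]
  · congr 1
    refine filter_congr fun ⟨a, i, b, j⟩ hx => ?_
    obtain ⟨h1, h2, h3, h4, h5⟩ := mQ.mp hx
    exact (h a i b j h1 h2 h3 h4 h5).1
  · refine disjoint_filter.mpr fun ⟨a, i, b, j⟩ hx p q => ?_
    obtain ⟨h1, h2, h3, h4, h5⟩ := mQ.mp hx
    exact (h a i b j h1 h2 h3 h4 h5).2 ⟨p, q⟩

theorem cnt_bij {φ : ℕ → ℕ → ℕ → ℕ → Prop} {α : Type} {t : Finset α} (f : ℕ → ℕ → ℕ → ℕ → α)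
    (g : α → ℕ × ℕ × ℕ × ℕ) (h1 : ∀ a i b j, (a, i, b, j) ∈ QQ n → φ a i b j →
      f a i b j ∈ t ∧ g (f a i b j) = (a, i, b, j)) (h2 : ∀ y ∈ t, g y ∈ QQ n ∧
        φ (g y).1 (g y).2.1 (g y).2.2.1 (g y).2.2.2 ∧ f (g y).1 (g y).2.1 (g y).2.2.1 (g y).2.2.2 = y) :
    cnt n φ = #t := by
  classical
  refine card_nbij' (fun x => f x.1 x.2.1 x.2.2.1 x.2.2.2) g (fun x hx => ?_) (fun y hy => ?_) (fun x hx => ?_)
    fun y hy => (h2 y hy).2.2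
  · exact (h1 _ _ _ _ (mem_filter.mp hx).1 (mem_filter.mp hx).2).1
  · exact mem_filter.mpr ⟨(h2 y hy).1, (h2 y hy).2.1⟩
  · exact (h1 _ _ _ _ (mem_filter.mp hx).1 (mem_filter.mp hx).2).2

theorem cnt_swap (φ : ℕ → ℕ → ℕ → ℕ → Prop) : cnt n φ = cnt n fun a i b j => φ b j a i := by
  classical
  refine cnt_bij (fun a i b j => (b, j, a, i)) (fun x => (x.2.2.1, x.2.2.2, x.1, x.2.1)) (fun a i b j h p => ?_) ?_
  · simp only [mem_filter, mQ, p, and_true] at h ⊢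
    omega
  · rintro ⟨a, i, b, j⟩ h
    simp only [mem_filter, mQ, and_true] at h ⊢
    exact ⟨by omega, h.2⟩

theorem cnt_tr (φ : ℕ → ℕ → ℕ → ℕ → Prop) : cnt n φ = cnt n fun a i b j => φ a i j b := by
  classical
  refine cnt_bij (fun a i b j => (a, i, j, b)) (fun x => (x.1, x.2.1, x.2.2.2, x.2.2.1)) (fun a i b j h p => ?_) ?_
  · simp only [mem_filter, mQ, p, and_true, mul_comm j] at h ⊢
    omega
  · rintro ⟨a, i, b, j⟩ h
    simp only [mem_filter, mQ, and_true, mul_comm j] at h ⊢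
    exact ⟨by omega, h.2⟩

theorem cnt_conj {φ ψ : ℕ → ℕ → ℕ → ℕ → Prop} (h : ∀ b d i j, φ (b + d) i b j ↔ ψ (i + j) b i d) :
    (cnt n fun a i b j => b < a ∧ φ a i b j) = cnt n fun a i b j => b < a ∧ ψ a i b j := by
  classical
  refine cnt_bij (fun a i b j => (i + j, b, i, a - b)) (fun x => (x.2.1 + x.2.2.2, x.2.2.1, x.2.1, x.1 - x.2.2.1))
    (fun a i b j h1 p => ?_) ?_
  · obtain ⟨d, rfl⟩ : ∃ d, a = b + d := ⟨a - b, by omega⟩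
    simp only [mem_filter, mQ, Nat.add_sub_cancel_left, and_true, ← h] at h1 ⊢
    exact ⟨⟨by omega, by omega, by omega, by omega, by rw [← h1.2.2.2.2]; ring⟩, by omega, p.2⟩
  · rintro ⟨a, i, b, j⟩ h1
    simp only [mem_filter, mQ] at h1
    obtain ⟨d, rfl⟩ : ∃ d, a = b + d := ⟨a - b, by omega⟩
    simp only [mQ, Nat.add_sub_cancel_left, and_true, h]
    exact ⟨⟨by omega, by omega, by omega, by omega, by rw [← h1.1.2.2.2.2]; ring⟩, by omega, h1.2.2⟩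

theorem cnt_sym {φ : ℕ → ℕ → ℕ → ℕ → Prop} (h : ∀ a i b j, φ b j a i ↔ φ a i b j) :
    cnt n φ = 2 * (cnt n fun a i b j => b < a ∧ φ a i b j) + cnt n fun a i b j => a = b ∧ φ a i b j := by
  rw [cnt_add (χ := φ) (φ := fun a i b j => a ≠ b ∧ φ a i b j) (ψ := fun a i b j => a = b ∧ φ a i b j)
    fun _ _ _ _ _ _ _ _ _ => by tauto, cnt_add (χ := fun a i b j => a ≠ b ∧ φ a i b j)
      (φ := fun a i b j => b < a ∧ φ a i b j) (ψ := fun a i b j => a < b ∧ φ a i b j) fun a i b j _ _ _ _ _ => by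
        by_cases φ a i b j <;> simp [*] <;> omega, cnt_swap fun a i b j => a < b ∧ φ a i b j, two_mul]
  simp only [h]

theorem cnt_conv (p : ℕ → Prop) [DecidablePred p] : (cnt n fun a i b j => p a ∧ p i ∧ p b ∧ p j) =
    #{x ∈ ({x ∈ II n | p x} ×ˢ {x ∈ II n | p x}) ×ˢ ({x ∈ II n | p x} ×ˢ {x ∈ II n | p x}) |
      x.1.1 * x.1.2 + x.2.1 * x.2.2 = n} := by
  refine cnt_bij (fun a i b j => ((a, i), (b, j))) (fun x => (x.1.1, x.1.2, x.2.1, x.2.2)) (fun a i b j h p => ?_) ?_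
  · simp only [QQ, mem_filter, mem_product] at h ⊢
    tauto
  · rintro ⟨⟨a, i⟩, b, j⟩ h
    simp only [QQ, mem_filter, mem_product] at h ⊢
    tauto

theorem cnt_diag {m u v : ℕ} (hm : m ≠ 0) (hu : 0 < u) (hv : 0 < v) :
    (cnt (u * v * m) fun a i b j => a = b ∧ u ∣ a ∧ v ∣ i ∧ v ∣ j) + #m.divisors = ∑ d ∈ m.divisors, d := by
  rw [← L3 hm]
  congr 1
  have mD : ∀ a j k, (a, j, k) ∈ {x ∈ II m ×ˢ (II m ×ˢ II m) | x.1 * x.2.1 + x.1 * x.2.2 = m} ↔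
      (a, j, a, k) ∈ QQ m := fun a j k => by
    simp only [QQ, mem_filter, mem_product]
    tauto
  refine cnt_bij (fun a i _ j => (a / u, i / v, j / v)) (fun x => (u * x.1, v * x.2.1, u * x.1, v * x.2.2))
    (fun a i b j h p => ?_) ?_
  · obtain ⟨rfl, ⟨a, rfl⟩, ⟨i, rfl⟩, j, rfl⟩ := p
    simp only [mD, mQ, Nat.mul_div_cancel_left, hu, hv, and_true, Nat.mul_pos_iff_of_pos_left] at h ⊢
    exact ⟨h.1, h.2.1, h.1, h.2.2.2.1, Nat.eq_of_mul_eq_mul_left (Nat.mul_pos hu hv) (by rw [← h.2.2.2.2]; ring)⟩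
  · rintro ⟨a, i, j⟩ h
    simp only [mD, mQ, Nat.mul_div_cancel_left, hu, hv, and_true, Nat.mul_pos_iff_of_pos_left, dvd_mul_right] at h ⊢
    exact ⟨h.1, h.2.1, h.1, h.2.2.2.1, by rw [← h.2.2.2.2]; ring⟩

theorem cls {m : ℕ} (h2 : m % 2 = 1) (q : ∀ i, i * i ≠ m) (s1 : ∀ x y, x * x + y * y ≠ 2 * m)
    (hR : ∀ R : Finset (ℕ × ℕ), (∀ x y, (x, y) ∈ R ↔ 0 < x ∧ 0 < y ∧ 2 * (x * x) + 4 * (y * y) = 2 * m) → 2 ∣ #R)
    (d3 : 8 ∣ ∑ d ∈ m.divisors, d) :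
    4 ∣ (cnt (2 * m) fun a _ b _ => b < a ∧ True) ∧ 4 ∣ (cnt (2 * m) fun a _ b j => b < a ∧ (a + b + j) % 2 = 0) ∧
      4 ∣ (cnt (2 * m) fun a i b j => b < a ∧ (a + i + j) % 2 = 0) + #m.divisors := by
  have hm : m ≠ 0 := by omega
  have c2 : Nat.Coprime 2 m := Nat.prime_two.coprime_iff_not_dvd.mpr (by omega)
  have mR : ∀ x y, (x, y) ∈ {x ∈ II (2 * m) ×ˢ II (2 * m) | 2 * (x.1 * x.1) + 4 * (x.2 * x.2) = 2 * m} ↔
      0 < x ∧ 0 < y ∧ 2 * (x * x) + 4 * (y * y) = 2 * m := fun x y => by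
    simp only [mem_filter, mem_product, mem_II]
    have := Nat.le_mul_self x
    have := Nat.le_mul_self y
    have := sq4 x
    refine ⟨by omega, fun h => by omega⟩
  obtain ⟨t1, t2⟩ := L5 (n := 2 * m) (by omega) s1 mR (hR _ mR)
  have v1 := conv {x ∈ II (2 * m) | True} (2 * m)
  have v2 := conv {x ∈ II (2 * m) | x % 2 = 1} (2 * m)
  have l1 := L6 (s := {x ∈ II (2 * m) | True}) hm (fun x hx => by
    have := Nat.le_of_dvd (by omega) hx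
    have := Nat.pos_of_dvd_of_pos hx (by omega)
    simp only [mem_filter, mem_II, and_true]
    omega) q
  have l2 := L6 (s := {x ∈ II (2 * m) | x % 2 = 1}) hm (fun x hx => by
    have := Nat.le_of_dvd (by omega) hx
    have := Nat.pos_of_dvd_of_pos hx (by omega)
    obtain ⟨c, rfl⟩ := hx
    have := par x c
    simp only [mem_filter, mem_II]
    omega) q
  rw [← cnt_conv, filter_false_of_mem fun x _ => s1 _ _] at v1 v2
  rw [show {x ∈ {x ∈ II (2 * m) | x % 2 = 1} ×ˢ J {x ∈ II (2 * m) | x % 2 = 1} | x.1 * x.1 + x.2.1 * x.2.2 = 2 * m} =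
    {x ∈ {x ∈ II (2 * m) ×ˢ JJ (2 * m) | x.1 * x.1 + x.2.1 * x.2.2 = 2 * m} | ¬x.1 % 2 = 0} from ext fun x => by
      have := sq4 x.1
      have := par x.2.1 x.2.2
      simp only [mem_filter, mem_product, J, JJ, mem_II]
      omega] at v2
  have t3 := card_filter_add_card_filter_not
    (s := {x ∈ II (2 * m) ×ˢ JJ (2 * m) | x.1 * x.1 + x.2.1 * x.2.2 = 2 * m}) fun x => x.1 % 2 = 0
  rw [filter_true, show J (II (2 * m)) = JJ (2 * m) from rfl] at v1 l1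
  have g0 := cnt_diag (m := 2 * m) (by omega) one_pos one_pos
  have g1 := cnt_diag hm two_pos one_pos
  have g2 := cnt_diag hm one_pos two_pos
  rw [c2.card_divisors_mul, c2.sum_divisors_mul, show #(Nat.divisors 2) = 2 from rfl,
    show ∑ d ∈ Nat.divisors 2, d = 3 from rfl] at g0
  simp only [one_dvd, true_and, and_true, mul_one, one_mul, Nat.dvd_iff_mod_eq_zero, and_self] at g0 g1 g2 v1 ⊢
  have e0 := cnt_sym (n := 2 * m) (φ := fun _ _ _ _ => True) fun _ _ _ _ => Iff.rfl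
  have e1 := cnt_sym (n := 2 * m) (φ := fun a i b j => a % 2 = 1 ∧ i % 2 = 0 ∧ b % 2 = 1 ∧ j % 2 = 0)
    fun _ _ _ _ => by omega
  have e2 := cnt_sym (n := 2 * m) (φ := fun a i b j => a % 2 = 0 ∧ i % 2 = 1 ∧ b % 2 = 0 ∧ j % 2 = 1)
    fun _ _ _ _ => by omega
  have e3 := cnt_sym (n := 2 * m) (φ := fun a i b j => a % 2 = 1 ∧ i % 2 = 1 ∧ b % 2 = 1 ∧ j % 2 = 1)
    fun _ _ _ _ => by omega
  have x1 := cnt_tr (n := 2 * m) fun a i b j => a % 2 = 1 ∧ i % 2 = 0 ∧ b % 2 = 1 ∧ j % 2 = 0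
  have x2 := cnt_tr (n := 2 * m) fun a i b j => a % 2 = 0 ∧ i % 2 = 1 ∧ b % 2 = 0 ∧ j % 2 = 1
  have x3 := cnt_swap (n := 2 * m) fun a i b j => a % 2 = 0 ∧ i % 2 = 1 ∧ j % 2 = 0 ∧ b % 2 = 1
  have x4 := cnt_swap (n := 2 * m) fun a i b j => b < a ∧ a % 2 = 0 ∧ i % 2 = 1 ∧ b % 2 = 1 ∧ j % 2 = 0
  have x5 := cnt_add (n := 2 * m) (χ := fun a i b j => a % 2 = 1 ∧ i % 2 = 0 ∧ j % 2 = 1 ∧ b % 2 = 0)
    (φ := fun a i b j => b < a ∧ a % 2 = 1 ∧ i % 2 = 0 ∧ b % 2 = 0 ∧ j % 2 = 1)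
    (ψ := fun a i b j => a < b ∧ b % 2 = 0 ∧ j % 2 = 1 ∧ a % 2 = 1 ∧ i % 2 = 0) fun _ _ _ _ _ _ _ _ _ => by omega
  have x6 := cnt_add (n := 2 * m) (χ := fun a i b j => b % 2 = 0 ∧ j % 2 = 1 ∧ i % 2 = 0 ∧ a % 2 = 1)
    (φ := fun a i b j => b < a ∧ a % 2 = 1 ∧ i % 2 = 0 ∧ b % 2 = 0 ∧ j % 2 = 1)
    (ψ := fun a i b j => a < b ∧ b % 2 = 0 ∧ j % 2 = 1 ∧ a % 2 = 1 ∧ i % 2 = 0) fun _ _ _ _ _ _ _ _ _ => by omega
  have j1 := cnt_conj (n := 2 * m) (φ := fun a i b j => a % 2 = 1 ∧ i % 2 = 0 ∧ b % 2 = 1 ∧ j % 2 = 0)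
    (ψ := fun a i b j => a % 2 = 0 ∧ i % 2 = 1 ∧ b % 2 = 0 ∧ j % 2 = 0) fun _ _ _ _ => by omega
  have j2 := cnt_conj (n := 2 * m) (φ := fun a i b j => a % 2 = 0 ∧ i % 2 = 1 ∧ b % 2 = 0 ∧ j % 2 = 1)
    (ψ := fun a i b j => a % 2 = 0 ∧ i % 2 = 0 ∧ b % 2 = 1 ∧ j % 2 = 0) fun _ _ _ _ => by omega
  have j3 := cnt_conj (n := 2 * m) (φ := fun a i b j => a % 2 = 1 ∧ i % 2 = 1 ∧ b % 2 = 1 ∧ j % 2 = 1)
    (ψ := fun a i b j => a % 2 = 0 ∧ i % 2 = 1 ∧ b % 2 = 1 ∧ j % 2 = 0) fun _ _ _ _ => by omega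
  have y1 := cnt_add (n := 2 * m) (χ := fun a i b j => a = b) (φ := fun a i b j => a = b ∧ a % 2 = 0)
    (ψ := fun a i b j => a = b ∧ a % 2 = 1) fun _ _ _ _ _ _ _ _ _ => by omega
  have y2 := cnt_add (n := 2 * m) (χ := fun a i b j => a = b ∧ a % 2 = 1)
    (φ := fun a i b j => a = b ∧ a % 2 = 1 ∧ i % 2 = 0 ∧ b % 2 = 1 ∧ j % 2 = 0)
    (ψ := fun a i b j => a = b ∧ a % 2 = 1 ∧ i % 2 = 1 ∧ b % 2 = 1 ∧ j % 2 = 1) fun a i b j _ _ _ _ _ => by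
      have := par a i
      have := par b j
      omega
  have y3 := cnt_add (n := 2 * m) (χ := fun a i b j => a = b ∧ i % 2 = 0 ∧ j % 2 = 0)
    (φ := fun a i b j => a = b ∧ a % 2 = 1 ∧ i % 2 = 0 ∧ b % 2 = 1 ∧ j % 2 = 0)
    (ψ := fun a i b j => a = b ∧ a % 2 = 0 ∧ i % 2 = 1 ∧ b % 2 = 0 ∧ j % 2 = 1) fun a i b j _ _ _ _ h => by
      have := par a i
      have := par b j
      have w := par a (i + j)
      rw [mul_add] at w
      by_cases e : a = b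
      · subst e
        omega
      · omega
  have y4 := cnt_add (n := 2 * m) (χ := fun a i b j => a = b ∧ i % 2 = 0 ∧ j % 2 = 0)
    (φ := fun a i b j => a = b ∧ a % 2 = 1 ∧ i % 2 = 0 ∧ b % 2 = 1 ∧ j % 2 = 0)
    (ψ := fun a i b j => False) fun a i b j _ _ _ _ h => by
      have := par a i
      have := par b j
      simp only [or_false, and_false, not_false_eq_true, and_true]
      omega
  have y5 : cnt (2 * m) (fun _ _ _ _ => False) = 0 := by simp [cnt]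
  have z1 := cnt_add (n := 2 * m) (χ := fun a i b j => b < a ∧ (a + b + j) % 2 = 0)
    (φ := fun a i b j => b < a ∧ a % 2 = 1 ∧ i % 2 = 0 ∧ b % 2 = 0 ∧ j % 2 = 1)
    (ψ := fun a i b j => b < a ∧ a % 2 = b % 2 ∧ j % 2 = 0) fun a i b j _ _ _ _ _ => by
      have := par a i
      have := par b j
      omega
  have z2 := cnt_add (n := 2 * m) (χ := fun a i b j => b < a ∧ a % 2 = b % 2 ∧ j % 2 = 0)
    (φ := fun a i b j => b < a ∧ a % 2 = 1 ∧ i % 2 = 0 ∧ b % 2 = 1 ∧ j % 2 = 0)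
    (ψ := fun a i b j => b < a ∧ a % 2 = 0 ∧ i % 2 = 1 ∧ b % 2 = 0 ∧ j % 2 = 0) fun a i b j _ _ _ _ _ => by
      have := par a i
      have := par b j
      omega
  have z3 := cnt_add (n := 2 * m) (χ := fun a i b j => b < a ∧ (a + i + j) % 2 = 0)
    (φ := fun a i b j => b < a ∧ a % 2 = 1 ∧ i % 2 = 0 ∧ b % 2 = 0 ∧ j % 2 = 1)
    (ψ := fun a i b j => b < a ∧ a % 2 = 0 ∧ i % 2 = j % 2) fun a i b j _ _ _ _ _ => by
      have := par a i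
      have := par b j
      omega
  have z4 := cnt_add (n := 2 * m) (χ := fun a i b j => b < a ∧ a % 2 = 0 ∧ i % 2 = j % 2)
    (φ := fun a i b j => b < a ∧ a % 2 = 0 ∧ i % 2 = 1 ∧ b % 2 = 0 ∧ j % 2 = 1)
    (ψ := fun a i b j => b < a ∧ a % 2 = 0 ∧ i % 2 = 0 ∧ b % 2 = 1 ∧ j % 2 = 0) fun a i b j _ _ _ _ _ => by
      have := par a i
      have := par b j
      omega
  simp only [and_true, card_empty] at e0 v1 v2
  omega

end Pool.Agent.H27.Jt
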