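import Pool.Agent.H27.JtE

/-! Two lattice identities and the reduction modulo 256. -/

namespace Pool.Agent.H27.Jt
open Finset PowerSeries

set_option maxHeartbeats 400000

variable {R : Type} [CommRing R]

def e4 (n : ℤ) : ℤ := 2 * T n
def e5 (n : ℤ) : ℤ := 2 * e1 n
theorem b4 : Bd e4 := fun n => by have := T_bd n; unfold e4; omega
theorem b5 : Bd e5 := fun n => by have := b1 n; unfold e5; omega

theorem C_th (c : R) (M : ℕ) (e : ℤ → ℤ) (v : ℤ → R) : C c * th M e v = th M e fun y => c * v y := by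
  simp only [th, mul_sum, map_mul, mul_assoc]

theorem T_neg (m : ℤ) : T (-1 - m) = T m := by have := two_T m; have := two_T (-1 - m); linarith

theorem latJ (M : ℕ) : (X : R⟦X⟧) ^ M ∣ C 4 * (th M T (fun n => sg R n * n) * th M T (fun n => sg R n * n)) -
    C 2 * (th M e4 (fun _ => 1) * th M e1 (fun _ => 1) + C 4 * (D (th M e4 fun _ => 1) * th M e1 fun _ => 1) -
      C 4 * (th M e4 (fun _ => 1) * D (th M e1 fun _ => 1))) := by
  rw [X_pow_dvd_iff]
  intro N hN
  simp only [map_sub, map_add, coeff_C_mul, D_th _ b4, D_th _ b1, coeff_th _ _ T_bd T_bd, coeff_th _ _ b4 b1]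
  have m1 := mem_sol hN T_bd T_bd
  have m2 := mem_sol hN b4 b1
  generalize sol M T T N = S at *
  generalize sol M e4 e1 N = S' at *
  have h1 : ∑ p ∈ S, sg R (p.1 + p.2) * (2 * p.2 + 1 : R) = 0 := by
    refine sum_involution (fun p _ => (-1 - p.1, p.2)) (fun p _ => ?_) (fun p _ _ e => ?_)
      (fun p hp => by rw [m1] at hp ⊢; simpa [T_neg] using hp) (fun p _ => by simp)
    · rw [sg_ne (a := -1 - p.1 + p.2) (b := p.1 + p.2) (by omega)]
      ring
    · have := congrArg Prod.fst e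
      simp only at this
      omega
  have h2 : ∑ p ∈ S, sg R (p.1 + p.2) * (p.1 : R) = 0 := by
    refine sum_involution (fun p _ => (p.1, -1 - p.2)) (fun p _ => ?_) (fun p _ _ e => ?_)
      (fun p hp => by rw [m1] at hp ⊢; simpa [T_neg] using hp) (fun p _ => by simp)
    · rw [sg_ne (a := p.1 + (-1 - p.2)) (b := p.1 + p.2) (by omega)]
      ring
    · have := congrArg Prod.snd e
      simp only at this
      omega
  have h3 : ∑ p ∈ S, ((2 * p.1 + 1) * (2 * p.2 + 1) : R) = 0 := by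
    refine sum_involution (fun p _ => (p.1, -1 - p.2)) (fun p _ => ?_) (fun p _ _ e => ?_)
      (fun p hp => by rw [m1] at hp ⊢; simpa [T_neg] using hp) (fun p _ => by simp)
    · push_cast
      ring
    · have := congrArg Prod.snd e
      simp only at this
      omega
  have h4 : ∑ p ∈ S with (p.1 + p.2) % 2 = 0, ((2 * p.1 + 1) * (2 * p.2 + 1) : R) =
      ∑ p ∈ S', (1 + 4 * e4 p.1 - 4 * e1 p.2 : R) := by
    symm
    refine sum_nbij' (fun p => (p.1 + p.2, p.1 - p.2)) (fun p => ((p.1 + p.2) / 2, (p.1 - p.2) / 2))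
      (fun p hp => ?_) (fun p hp => ?_) (fun p _ => by ext <;> simp only <;> omega) (fun p hp => ?_) (fun p _ => ?_)
    · simp only [mem_filter, m1, m2, e4, e1] at hp ⊢
      have := two_T p.1
      have := two_T (p.1 + p.2)
      have := two_T (p.1 - p.2)
      exact ⟨by linarith, by omega⟩
    · simp only [mem_filter, m1, m2, e4, e1] at hp ⊢
      obtain ⟨r, hr⟩ : ∃ r, p.1 = 2 * r - p.2 := ⟨(p.1 + p.2) / 2, by omega⟩
      have h1 := two_T p.1
      have h2 := two_T p.2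
      have h3 := two_T r
      rw [show (p.1 + p.2) / 2 = r by omega, show (p.1 - p.2) / 2 = r - p.2 by omega, ← hp.1]
      rw [hr] at h1 ⊢
      linarith
    · simp only [mem_filter] at hp
      ext <;> simp only <;> omega
    · simp only [e4, e1, two_T]
      push_cast
      ring
  rw [sum_filter] at h4
  have h5 : 4 * ∑ p ∈ S, sg R p.1 * p.1 * (sg R p.2 * p.2) + ∑ p ∈ S, sg R (p.1 + p.2) * (2 * p.2 + 1 : R) +
      2 * ∑ p ∈ S, sg R (p.1 + p.2) * (p.1 : R) + ∑ p ∈ S, ((2 * p.1 + 1) * (2 * p.2 + 1) : R) =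
      2 * ∑ p ∈ S, if (p.1 + p.2) % 2 = 0 then ((2 * p.1 + 1) * (2 * p.2 + 1) : R) else 0 := by
    simp only [mul_sum, ← sum_add_distrib]
    refine sum_congr rfl fun p _ => ?_
    rw [mul_mul_mul_comm, sg_mul, sg]
    simp only [Int.even_iff]
    split_ifs <;> ring
  rw [h1, h2, h3, h4] at h5
  simp only [sum_sub_distrib, sum_add_distrib, ← mul_sum, mul_one, one_mul] at h5 ⊢
  linear_combination h5

def io (R : Type) [CommRing R] (y : ℤ) : R := if y % 2 = 0 then 0 else 1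
def ie (R : Type) [CommRing R] (y : ℤ) : R := if y % 2 = 0 then 1 else 0

theorem latK (M : ℕ) : (X : R⟦X⟧) ^ M ∣ th M e1 (io R) * th M e1 (io R) - C 2 * (th M e5 (io R) * th M e5 (ie R)) := by
  rw [X_pow_dvd_iff]
  intro N hN
  simp only [map_sub, coeff_C_mul, coeff_th _ _ b1 b1, coeff_th _ _ b5 b5]
  have m1 := mem_sol hN b1 b1
  have m2 := mem_sol hN b5 b5
  generalize sol M e1 e1 N = S at *
  generalize sol M e5 e5 N = S' at *
  have h1 : ∑ p ∈ S', (io R p.1 * ie R p.2 - ie R p.1 * io R p.2) = 0 := by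
    refine sum_involution (fun p _ => p.swap) (fun p _ => by simp; ring) (fun p _ h e => h ?_)
      (fun p hp => by rw [m2] at hp ⊢; simpa [add_comm] using hp) (fun p _ => by simp)
    rw [show p.2 = p.1 from congrArg Prod.fst e]
    ring
  have h2 : ∑ p ∈ S with p.1 % 2 = 1 ∧ p.2 % 2 = 1, (1 : R) = ∑ p ∈ S' with (p.1 + p.2) % 2 = 1, (1 : R) := by
    symm
    refine sum_nbij' (fun p => (p.1 + p.2, p.1 - p.2)) (fun p => ((p.1 + p.2) / 2, (p.1 - p.2) / 2))
      (fun p hp => ?_) (fun p hp => ?_) (fun p _ => by ext <;> simp only <;> omega) (fun p hp => ?_) (fun p _ => rfl)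
    · simp only [mem_filter, m1, m2, e5, e1] at hp ⊢
      exact ⟨by linarith, by omega⟩
    · simp only [mem_filter, m1, m2, e5, e1] at hp ⊢
      obtain ⟨r, hr⟩ : ∃ r, p.1 = 2 * r - p.2 := ⟨(p.1 + p.2) / 2, by omega⟩
      rw [show (p.1 + p.2) / 2 = r by omega, show (p.1 - p.2) / 2 = r - p.2 by omega, ← hp.1]
      rw [hr]
      exact ⟨by ring, by omega⟩
    · simp only [mem_filter] at hp
      ext <;> simp only <;> omega
  rw [sum_filter, sum_filter] at h2
  rw [sum_congr rfl (g := fun p : ℤ × ℤ => if p.1 % 2 = 1 ∧ p.2 % 2 = 1 then (1 : R) else 0) fun p _ => by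
    simp only [io]; split_ifs <;> first | omega | simp, h2, sum_congr rfl (g := fun p : ℤ × ℤ =>
      2 * (io R p.1 * ie R p.2) - (io R p.1 * ie R p.2 - ie R p.1 * io R p.2)) fun p _ => by
        simp only [io, ie]; split_ifs <;> first | omega | ring1, sum_sub_distrib, h1, ← mul_sum]
  ring

theorem th_half' (M : ℕ) {e : ℤ → ℤ} (h : ∀ y, e (-y) = e y) (h0 : e 0 = 0) (r s : R) :
    th M e (fun y => if y % 2 = 0 then r else s) =
      C r + 2 * C r * th M e (we R) + 2 * C s * th M e (wo R) := by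
  have h1 : (C r : R⟦X⟧) = ∑ y ∈ Icc (-M : ℤ) M, if y = 0 then C r else 0 := by simp
  rw [← sub_eq_zero]
  nth_rewrite 1 [h1]
  simp only [th, mul_sum, ← sum_add_distrib, ← sum_sub_distrib]
  refine sum_involution (fun y _ => -y) (fun y _ => ?_) (fun y _ h e => h ?_)
    (fun y hy => by simp only [mem_Icc] at hy ⊢; omega) (fun y _ => by simp)
  · simp only [h, we, wo]
    split_ifs <;> first | omega | (simp only [map_one, map_zero]; ring1) | skip
    all_goals
      have : y = 0 := by omega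
      simp [this, h0]
  · have : y = 0 := by omega
    simp [this, we, wo, h0]

theorem th_sq (M : ℕ) {e : ℤ → ℤ} (he : Bd e) (w : ℤ → R) :
    ∃ Z, th M e w ^ 2 = th M (fun y => 2 * e y) (fun y => w y ^ 2) + 2 * Z := by
  obtain ⟨Z, h⟩ := sq_sum (Icc (-M : ℤ) M) fun y => (C (w y) * X ^ (e y).toNat : R⟦X⟧)
  refine ⟨Z, h.trans ?_⟩
  congr 1
  refine sum_congr rfl fun y _ => ?_
  rw [mul_pow, map_pow, ← pow_mul]
  have := (he y).1
  congr 2
  simp only
  omega

theorem alg2 {B : Type} [CommRing B] {G dG t dt a o da dq s ds o2 a8 o4 Z Y : B} (z : (256 : B) = 0) (hu : IsUnit G)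
    (h1 : s = 2 * G ^ 2 * (1 + 2 * a + 2 * o))
    (h2 : ds = 4 * G * dG * (1 + 2 * a + 2 * o) + 2 * G ^ 2 * (2 * da + 2 * dq))
    (h3 : t = G * (1 + 2 * a + 2 * o) * (1 + 2 * a - 2 * o) ^ 2)
    (h4 : dt = dG * (1 + 2 * a + 2 * o) * (1 + 2 * a - 2 * o) ^ 2 + G * (2 * da + 2 * dq) * (1 + 2 * a - 2 * o) ^ 2 +
      G * (1 + 2 * a + 2 * o) * (2 * (1 + 2 * a - 2 * o) * (2 * da - 2 * dq)))
    (h5 : 4 * (t * t) = 2 * (s * (1 + 2 * a + 2 * o) + 4 * (ds * (1 + 2 * a + 2 * o)) - 4 * (s * (2 * da + 2 * dq))))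
    (h6 : 2 * o * (2 * o) = 2 * (2 * o2 * (1 + 2 * a8))) (h7 : (a + o) ^ 2 = a8 + o2 + 2 * Z)
    (h8 : o2 ^ 2 = o4 + 2 * Y) :
    4 * G + 32 * dG = 4 * (t * (1 + 2 * a + 2 * o)) - 32 * (t * o) + 64 * (t * o2) + 128 * (dt * o2) +
      128 * (t * o4) := by
  obtain ⟨u, hu'⟩ : ∃ u, u = a + o := ⟨_, rfl⟩
  obtain rfl : a = u - o := by rw [hu']; ring
  have i1 : (1 + 2 * u) * ((1 - 2 * u) * (1 + 4 * u ^ 2) * (1 + 16 * u ^ 4)) = 1 := by
    linear_combination -u ^ 8 * z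
  generalize (1 - 2 * u) * (1 + 4 * u ^ 2) * (1 + 16 * u ^ 4) = v at i1
  have H : 4 * G * (1 + 2 * u - 4 * o) ^ 4 = 4 * G + 32 * dG := by
    refine hu.mul_left_cancel ?_
    rw [h1, h2, h3] at h5
    linear_combination v ^ 2 * h5 - (4 * G ^ 2 * (1 + 2 * u - 4 * o) ^ 4 - 4 * G ^ 2 - 32 * G * dG) *
      ((1 + 2 * u) * v + 1) * i1
  have H1 : 128 * dG = 128 * G * (u + u ^ 2) := by
    linear_combination -4 * H + G * ((u - 2 * o) ^ 2 + 2 * (u - 2 * o) ^ 3 + (u - 2 * o) ^ 4 - o - 2 * u * o +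
      2 * o ^ 2) * z
  have H2 : 128 * dt = 128 * dG := by
    rw [h4]
    linear_combination (dG * (u * (1 + 2 * u - 4 * o) ^ 2 + 2 * (u - 2 * o) + 2 * (u - 2 * o) ^ 2) +
      G * (da + dq) * (1 + 2 * u - 4 * o) ^ 2 + G * (1 + 2 * u) * (1 + 2 * u - 4 * o) * (2 * da - 2 * dq)) * z
  have H3 : 128 * t = 128 * G := by
    rw [h3]
    linear_combination G * (u * (1 + 2 * u - 4 * o) ^ 2 + 2 * (u - 2 * o) + 2 * (u - 2 * o) ^ 2) * z
  have H4 : 64 * (G * (1 + 2 * u - 4 * o) ^ 2) = 64 * (t * (1 + 2 * u)) := by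
    rw [h3]
    linear_combination -G * (1 + 2 * u - 4 * o) ^ 2 * (u + u ^ 2) * z
  have H5 : 4 * G * (1 + 2 * u - 4 * o) ^ 4 = 4 * (t * (1 + 2 * u)) - 32 * (t * o) +
      64 * (G * (1 + 2 * u - 4 * o) ^ 2) * o ^ 2 := by
    rw [h3]
    ring
  rw [H4] at H5
  linear_combination H5 - H + 16 * t * (1 + 2 * u) * h6 - o2 * H2 - o2 * H1 + (u + u ^ 2) * o2 * H3 -
    128 * t * o2 * h7 + 128 * t * h8 + (t * o2 * a8 * u - t * o2 * Z + t * Y - t * o2 ^ 2) * z

end Pool.Agent.H27.Jt
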