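import Pool.Agent.H27.JtJ

/-! Vanishing modulo 64 of the coefficients of `ψ / φ`. -/

namespace Pool.Agent.H27.Jt
open Finset PowerSeries

set_option maxHeartbeats 400000

variable {R : Type} [CommRing R]

theorem jtp_plus (u v M : ℕ) {e : ℤ → ℤ} (he : ∀ n, e n = u * T n + v * T (-n)) :
    ∏ i ∈ range M, ((1 + X ^ (u + (u + v) * i)) * (1 + X ^ (v + (u + v) * i)) : R⟦X⟧) =
    ∑ n ∈ Icc (-M : ℤ) M, C 1 * X ^ (e n).toNat * g (X ^ (u + v)) (2 * M) (M + n) := by
  have := jtp (-X ^ u : R⟦X⟧) (-X ^ v) M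
  rw [neg_mul_neg] at this
  simp only [neg_mul, sub_neg_eq_add, ← pow_add, ← pow_mul] at this
  rw [this]
  refine sum_congr rfl fun n _ => ?_
  obtain ⟨a, ha⟩ := Int.eq_ofNat_of_zero_le (T_bd n).1
  obtain ⟨b, hb⟩ := Int.eq_ofNat_of_zero_le (T_bd (-n)).1
  have hn : n = a - b := by have := two_T n; have := two_T (-n); linarith
  have s : ∀ k : ℕ, sg R⟦X⟧ k = (-1) ^ k := fun k => by simp [sg, neg_one_pow_eq_ite]
  have : sg R⟦X⟧ n * (-1) ^ a * (-1) ^ b = 1 := by
    rw [← s, ← s, sg_mul, sg_mul, sg_eq (b := 0) (by omega)]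
    simp [sg]
  rw [he, ha, hb, map_one, ← this, neg_pow, neg_pow (X ^ v), ← Nat.cast_mul, ← Nat.cast_mul, ← Nat.cast_add]
  simp only [Int.toNat_natCast]
  ring

theorem plus_lim (u v M : ℕ) (h : u + v ≠ 0) {e : ℤ → ℤ} (hb : Bd e) (he : ∀ n, e n = u * T n + v * T (-n)) :
    (X : R⟦X⟧) ^ M ∣ P (X ^ (u + v)) M * ∏ i ∈ range M, ((1 + X ^ (u + (u + v) * i)) * (1 + X ^ (v + (u + v) * i))) -
      th M e fun _ => 1 := by
  rw [jtp_plus u v M he]
  exact lim_th h le_rfl hb _

noncomputable def Op (R : Type) [CommRing R] (M : ℕ) : R⟦X⟧ := ∏ i ∈ range M, (1 + X ^ (2 * i + 1))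
noncomputable def Ep (R : Type) [CommRing R] (M : ℕ) : R⟦X⟧ := ∏ i ∈ range M, (1 + X ^ (2 * i + 2))

theorem D_mul (F G : R⟦X⟧) : D (F * G) = F * D G + G * D F := by
  simp only [D_eq, Derivation.leibniz, smul_eq_mul]
  ring

theorem D_lin (r s : R) (F G : R⟦X⟧) : D (C r + 2 * C r * F + 2 * C s * G) = 2 * C r * D F + 2 * C s * D G := by
  simp only [two_mul, add_mul, D_eq, map_add, Derivation.leibniz, derivative_C, smul_eq_mul]
  ring

theorem th_add (M : ℕ) (e : ℤ → ℤ) (u v : ℤ → R) : th M e u + th M e v = th M e fun y => u y + v y := by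
  simp only [th, ← sum_add_distrib, map_add, add_mul]

theorem QO (M : ℕ) : Op R M * Ep R M * O R M * P (X ^ 2) M = P (X ^ 2) (2 * M) := by
  induction M with
  | zero => simp [Op, Ep, O, P]
  | succ M ih =>
    rw [Nat.mul_succ, P_succ, P_succ, P_succ, ← ih]
    simp only [Op, Ep, O, prod_range_succ]
    ring

theorem van {M n : ℕ} (hn : n < M) {e : ℤ → ℤ} (he : Bd e) (h : ∀ k y, T k + e y ≠ n) (v w : ℤ → R) :
    coeff n (th M T v * th M e w) = 0 := by
  rw [coeff_th _ _ T_bd he]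
  exact sum_eq_zero fun p hp => absurd ((mem_sol hn T_bd he p).mp hp) (h _ _)

theorem m64 {L n : ℕ} (hn : n < L + 1) {G : (ZMod 256)⟦X⟧}
    (hG : X ^ (L + 1) ∣ G * Op _ (L + 1) - Ep _ (L + 1)) (n1 : ∀ x y : ℤ, x * x + y * y ≠ 8 * n + 1)
    (n2 : ∀ x y : ℤ, x * x + 2 * (y * y) ≠ 8 * n + 1) : 4 * (8 * n + 1) * coeff n G = 0 := by
  have h9 := (five (R := ZMod 256) L).1
  have h10 := plus_lim (R := ZMod 256) 2 0 (L + 1) (by omega) b4 fun n => by simp [e4]
  rw [prod_mul_distrib, prod_range_succ' fun i => 1 + X ^ (0 + (2 + 0) * i),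
    show ∏ i ∈ range (L + 1), (1 + X ^ (2 + (2 + 0) * i) : (ZMod 256)⟦X⟧) = Ep _ (L + 1) from
      prod_congr rfl fun i _ => by rw [add_comm 2],
    show ∏ i ∈ range L, (1 + X ^ (0 + (2 + 0) * (i + 1)) : (ZMod 256)⟦X⟧) = Ep _ L from
      prod_congr rfl fun i _ => by rw [zero_add]; rfl] at h10
  have h11 : (X : (ZMod 256)⟦X⟧) ^ (L + 1) ∣ Ep _ (L + 1) - Ep _ L := by
    rw [Ep, prod_range_succ, ← Ep]
    exact ((pow_dvd_pow X (by omega : L + 1 ≤ 2 * L + 2)).mul_left (Ep _ L)).trans (dvd_of_eq (by ring))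
  generalize L + 1 = M at *
  have z' : (256 : (ZMod 256)⟦X⟧) = 0 := by
    rw [show (256 : (ZMod 256)⟦X⟧) = C 256 from rfl, show (256 : ZMod 256) = 0 from rfl, map_zero]
  have h1 : (X : (ZMod 256)⟦X⟧) ^ M ∣ Op _ M * Ep _ M * O _ M - 1 := by
    rw [← (P_unit two_ne_zero M).dvd_mul_right, sub_mul, QO, one_mul]
    exact (pow_dvd_pow _ (by omega)).trans (pow_mul (X : (ZMod 256)⟦X⟧) 2 _ ▸ P_sub (by omega : M ≤ 2 * M))
  have h3 := gauss (R := ZMod 256) M
  have h4 := plus_lim (R := ZMod 256) 1 1 M (by omega) b1 fun n => by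
    have := two_T n; have := two_T (-n); simp only [e1]; push_cast; linarith
  rw [prod_mul_distrib, ← sq, show ∏ i ∈ range M, (1 + X ^ (1 + (1 + 1) * i) : (ZMod 256)⟦X⟧) = Op _ M from
      prod_congr rfl fun i _ => by rw [add_comm 1 (_ * i)]] at h4
  have q1 : ∀ y, e1 (-y) = e1 y := fun y => neg_mul_neg y y
  have q5 : ∀ y, e5 (-y) = e5 y := fun y => by rw [e5, e5, q1]
  have f1 := th_half' (R := ZMod 256) M q1 rfl 1 (-1)
  have f2 := th_half' (R := ZMod 256) M q1 rfl 1 1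
  have f3 := th_half' (R := ZMod 256) M q1 rfl 0 1
  have f4 := th_half' (R := ZMod 256) M q5 rfl 0 1
  have f5 := th_half' (R := ZMod 256) M q5 rfl 1 0
  rw [show sg (ZMod 256) = fun y => if y % 2 = 0 then 1 else -1 from funext fun y => by
    simp only [sg, Int.even_iff], f1] at h3
  simp only [ite_self] at f2
  have h5 := latJ (R := ZMod 256) M
  have h6 := latK (R := ZMod 256) M
  unfold io ie at h6
  rw [f3, f4, f5] at h6
  obtain ⟨Z, h7⟩ := th_sq M b1 fun y => we (ZMod 256) y + wo _ y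
  rw [show (fun y => (we (ZMod 256) y + wo _ y) ^ 2) = fun y => we (ZMod 256) y + wo _ y from funext fun y => by
    simp only [we, wo]; split_ifs <;> first | omega | simp, ← th_add, ← th_add] at h7
  obtain ⟨Y, h8⟩ := th_sq M b5 (wo (ZMod 256))
  have t2 : ∀ k y, T k + e5 y ≠ n := fun k y h => n1 (2 * k + 1) (4 * y) (by
    have := two_T k; simp only [e5, e1] at h; linarith)
  have v1 : ∀ w, coeff n (th M T (fun n => sg (ZMod 256) n * n) * th M e1 w) = 0 := van hn b1 (fun k y h =>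
    n2 (2 * k + 1) (2 * y) (by have := two_T k; simp only [e1] at h; linarith)) _
  have v2 := v1 (wo _)
  have v3 := van hn b5 t2 (fun n => sg (ZMod 256) n * n) (wo _)
  have v4 := van hn b5 t2 (fun n => T n * (sg (ZMod 256) n * n)) (wo _)
  have v5 := van hn (e := fun y => 2 * e5 y) (fun y => by have := b5 y; simp only; omega) (fun k y h =>
    n2 (2 * k + 1) (4 * y) (by have := two_T k; simp only [e5, e1] at h; linarith))
      (fun n => sg (ZMod 256) n * n) fun y => wo (ZMod 256) y ^ 2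
  replace v1 := v1 fun _ => 1
  rw [← D_th _ T_bd] at v4
  rw [f2] at h4 h5 v1
  rw [P_split] at h9
  rw [D_lin] at h5
  change _ = th M e5 _ + th M e5 _ + _ at h7
  norm_num only at h4 h10
  generalize th M e1 (wo (ZMod 256)) = o, th M e1 (we (ZMod 256)) = a, P (X ^ 2 : (ZMod 256)⟦X⟧) M = f,
    th M T (fun n => sg (ZMod 256) n * n) = t, Op (ZMod 256) M = p, Ep (ZMod 256) M = E, O (ZMod 256) M = m,
    th M e5 (wo (ZMod 256)) = o2, th M e5 (we (ZMod 256)) = a8, th M e4 (fun _ => (1 : ZMod 256)) = s,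
    th M (fun y => 2 * e5 y) (fun y => wo (ZMod 256) y ^ 2) = o4, Ep (ZMod 256) L = E' at *
  let π := Ideal.Quotient.mk (Ideal.span {(X : (ZMod 256)⟦X⟧) ^ M})
  have a1 : X ^ M ∣ s - (G * G + G * G) * (C 1 + 2 * C 1 * a + 2 * C 1 * o) ∧ X ^ M ∣ t -
      G * (C 1 + 2 * C 1 * a + 2 * C 1 * o) * ((C 1 + 2 * C 1 * a + 2 * C (-1) * o) *
        (C 1 + 2 * C 1 * a + 2 * C (-1) * o)) := by
    simp only [← Ideal.mem_span_singleton, ← Ideal.Quotient.eq, map_mul, map_pow, map_add] at h1 h3 h4 h9 h10 h11 hG ⊢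
    rw [← h3, ← h4, ← h9, ← h10, ← h11]
    generalize Ideal.Quotient.mk (Ideal.span {(X : (ZMod 256)⟦X⟧) ^ M}) = π at *
    simp only [map_one] at *
    constructor
    · linear_combination -2 * π f * (π G * π p + π E) * hG
    · linear_combination -π f ^ 3 * π m ^ 4 * π p * hG - π f ^ 3 * π m ^ 3 * h1
  obtain ⟨a1, a2⟩ := a1
  have a3 := D_dvd a1
  have a4 := D_dvd a2
  rw [D_mul, D_lin, show D (G * G + G * G) = 4 * G * D G by
    simp only [D_eq, map_add, Derivation.leibniz, smul_eq_mul]; ring] at a3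
  rw [D_mul, D_mul, D_mul, D_lin, D_lin] at a4
  have key := alg2 (G := π G) (dG := π (D G)) (t := π t) (dt := π (D t)) (a := π a) (o := π o) (da := π (D a))
    (dq := π (D o)) (s := π s) (ds := π (D s)) (o2 := π o2) (a8 := π a8) (o4 := π o4) (Z := π Z) (Y := π Y)
    (by simpa only [map_ofNat, map_zero] using congrArg π z')
  simp only [← Ideal.mem_span_singleton, ← Ideal.Quotient.eq, map_mul, map_pow, map_add, map_one, map_neg,
    map_ofNat, map_zero, map_sub] at h1 hG a1 a2 a3 a4 h5 h6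
  have k1 := key (IsUnit.of_mul_eq_one (π p * π p * π m) (by linear_combination π p * π m * hG + h1))
    (by linear_combination a1) (by linear_combination a3) (by linear_combination a2) (by linear_combination a4)
    (by linear_combination h5) (by linear_combination h6)
    (by simpa only [map_mul, map_ofNat, map_add, map_pow] using congrArg π h7)
    (by simpa only [map_mul, map_ofNat, map_add, map_pow] using congrArg π h8)
  have k3 : X ^ M ∣ C 4 * G + C 32 * D G - (C 4 * (t * (C 1 + 2 * C 1 * a + 2 * C 1 * o)) - C 32 * (t * o) +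
      C 64 * (t * o2) + C 128 * (D t * o2) + C 128 * (t * o4)) := by
    simp only [← Ideal.mem_span_singleton, ← Ideal.Quotient.eq, map_mul, map_add, map_ofNat, map_sub, map_one]
    linear_combination k1
  have k5 := X_pow_dvd_iff.mp k3 n hn
  simp only [map_sub, map_add (coeff n), coeff_C_mul, v1, v2, v3, v4, v5] at k5
  rw [D, coeff_mk] at k5
  linear_combination k5

end Pool.Agent.H27.Jt
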