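import Pool.Agent.H27.JtK
import Pool.Agent.H27.JtF

/-! Vanishing modulo 3 on the progression `9 n + 7`. -/

namespace Pool.Agent.H27.Jt
open Finset PowerSeries

set_option maxHeartbeats 400000

variable {R : Type} [CommRing R]

theorem sqz (x : ℤ) : (x % 2 = 0 ∧ x * x % 4 = 0 ∨ x % 2 = 1 ∧ x * x % 4 = 1) ∧
    (x % 3 = 0 ∧ x * x % 3 = 0 ∨ x % 3 ≠ 0 ∧ x * x % 3 = 1) := by
  constructor
  · have : x % 4 = 0 ∨ x % 4 = 1 ∨ x % 4 = 2 ∨ x % 4 = 3 := by omega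
    rcases this with h | h | h | h <;> simp [Int.mul_emod, h] <;> omega
  · have : x % 3 = 0 ∨ x % 3 = 1 ∨ x % 3 = 2 := by omega
    rcases this with h | h | h <;> simp [Int.mul_emod, h]

theorem tern {N : ℤ} (hN : N % 12 = 7) {S : Finset (ℤ × ℤ × ℤ)}
    (mS : ∀ a b c, (a, b, c) ∈ S ↔ a * a + b * b + c * c = N ∧ (a + b + c) % 3 = 1 ∧ (b - c) % 4 = 0) : 3 ∣ #S := by
  have k : ∀ a b c, (a, b, c) ∈ S → (a % 2 = 1 ∧ b % 2 = 1 ∧ c % 2 = 1) ∧ (a % 3 = 1 ∧ b % 3 = 0 ∧ c % 3 = 0 ∨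
      a % 3 = 0 ∧ b % 3 = 1 ∧ c % 3 = 0 ∨ a % 3 = 0 ∧ b % 3 = 0 ∧ c % 3 = 1) := fun a b c h => by
    rw [mS] at h
    obtain ⟨a1, a2⟩ := sqz a
    obtain ⟨b1, b2⟩ := sqz b
    obtain ⟨c1, c2⟩ := sqz c
    constructor
    · clear a2 b2 c2
      omega
    · clear a1 b1 c1
      omega
  have h1 := card_filter_add_card_filter_not (s := S) fun x => x.1 % 3 = 1
  have h2 := card_filter_add_card_filter_not (s := {x ∈ S | ¬x.1 % 3 = 1}) fun x => x.2.1 % 3 = 1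
  have h3 : #{x ∈ {x ∈ S | ¬x.1 % 3 = 1} | x.2.1 % 3 = 1} = #{x ∈ {x ∈ S | ¬x.1 % 3 = 1} | ¬x.2.1 % 3 = 1} := by
    refine card_nbij' (fun x => (x.1, x.2.2, x.2.1)) (fun x => (x.1, x.2.2, x.2.1)) ?_ ?_ (fun _ _ => rfl) fun _ _ => rfl
    all_goals
      rintro ⟨a, b, c⟩ h
      simp only [mem_coe, mem_filter] at h ⊢
      have := k a b c h.1.1
      rw [mS] at h ⊢
      omega
  have h4 : #{x ∈ S | x.1 % 3 = 1} = #{x ∈ {x ∈ S | ¬x.1 % 3 = 1} | x.2.1 % 3 = 1} := by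
    refine card_nbij' (fun x => (x.2.1, x.1, if (x.1 - x.2.2) % 4 = 0 then x.2.2 else -x.2.2))
      (fun x => (x.2.1, x.1, if (x.1 - x.2.2) % 4 = 0 then x.2.2 else -x.2.2)) ?_ ?_ ?_ ?_
    all_goals
      rintro ⟨a, b, c⟩ h
      simp only [mem_coe, mem_filter] at h ⊢
      have := k a b c (by tauto)
      rw [mS] at h
      split_ifs <;> simp only [mS, neg_mul_neg, Prod.mk.injEq, true_and] <;> omega
  omega

theorem tri3 {M n : ℕ} (hn : n < M) (h9 : n % 9 = 7) : coeff n (th M e3 (fun _ => (1 : ZMod 3)) *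
    th M (fun k => 2 * e3 k) (fun _ => 1) * th M (fun k => 3 * e1 k) fun _ => 1) = 0 := by
  simp only [th, map_one, one_mul, sum_mul_sum, ← sum_product', ← pow_add]
  rw [cf1, ZMod.natCast_eq_zero_iff]
  obtain ⟨N, hN⟩ : ∃ N : ℤ, (n : ℤ) = 9 * N + 7 := ⟨n / 9, by omega⟩
  have m1 : ∀ k l z, ((k, l), z) ∈ {x ∈ (Icc (-M : ℤ) M ×ˢ Icc (-M : ℤ) M) ×ˢ Icc (-M : ℤ) M |
      (e3 x.1.1).toNat + (2 * e3 x.1.2).toNat + (3 * e1 x.2).toNat = n} ↔
        3 * (k * k) + k + 2 * (3 * (l * l) + l) + 6 * (z * z) = 2 * n := fun k l z => by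
    have h1 := b3 k
    have h2 := b3 l
    have h3 := b1 z
    have h4 : 2 * e3 k = 3 * (k * k) + k := by have := two_T k; unfold e3; linarith
    have h5 : 2 * e3 l = 3 * (l * l) + l := by have := two_T l; unfold e3; linarith
    simp only [abs_le, e1] at h1 h2 h3
    simp only [mem_filter, mem_product, mem_Icc, e1]
    omega
  generalize {x ∈ (Icc (-M : ℤ) M ×ˢ Icc (-M : ℤ) M) ×ˢ Icc (-M : ℤ) M |
      (e3 x.1.1).toNat + (2 * e3 x.1.2).toNat + (3 * e1 x.2).toNat = n} = S at *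
  obtain ⟨W, mW⟩ : ∃ W : Finset (ℤ × ℤ × ℤ), ∀ a b c, (a, b, c) ∈ W ↔
      a * a + b * b + c * c = 24 * N + 19 ∧ (a + b + c) % 3 = 1 ∧ (b - c) % 4 = 0 := by
    refine ⟨{x ∈ Icc (-(24 * N + 20)) (24 * N + 20) ×ˢ Icc (-(24 * N + 20)) (24 * N + 20) ×ˢ
      Icc (-(24 * N + 20)) (24 * N + 20) | x.1 * x.1 + x.2.1 * x.2.1 + x.2.2 * x.2.2 = 24 * N + 19 ∧
        (x.1 + x.2.1 + x.2.2) % 3 = 1 ∧ (x.2.1 - x.2.2) % 4 = 0}, fun a b c => ?_⟩
    have h1 := b1 a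
    have h2 := b1 b
    have h3 := b1 c
    simp only [abs_le, e1] at h1 h2 h3
    simp only [mem_filter, mem_product, mem_Icc]
    omega
  refine (tern (by omega) mW).trans (dvd_of_eq (card_nbij' (fun x => (((x.1 - 2 * (x.2.1 + x.2.2) - 1) / 6,
    (-4 * x.1 - x.2.1 - x.2.2 - 2) / 12), (x.2.1 - x.2.2) / 4)) (fun x => (2 * ((x.1.1 + 2 * x.1.2 + 1) / 3) - 4 * x.1.2 - 1,
      2 * x.1.2 - 4 * ((x.1.1 + 2 * x.1.2 + 1) / 3) + 1 + 2 * x.2,
      2 * x.1.2 - 4 * ((x.1.1 + 2 * x.1.2 + 1) / 3) + 1 - 2 * x.2)) ?_ ?_ ?_ ?_))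
  any_goals
    rintro ⟨⟨k, l⟩, z⟩ h
    simp only [mem_coe, m1] at h
    obtain ⟨j, rfl⟩ : ∃ j, k = 3 * j - 2 * l - 1 := ⟨(k + 2 * l + 1) / 3, by omega⟩
    simp only [mem_coe, mW, show (3 * j - 2 * l - 1 + 2 * l + 1) / 3 = j by omega, Prod.mk.injEq]
    refine ⟨by first | omega | linarith, by omega⟩
  all_goals
    rintro ⟨a, b, c⟩ h
    simp only [mem_coe, mW] at h
    have := (sqz a).1
    have := (sqz b).1
    have := (sqz c).1
    obtain ⟨z, rfl⟩ : ∃ z, b = c + 4 * z := ⟨(b - c) / 4, by omega⟩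
    obtain ⟨l, hl⟩ : ∃ l, -4 * a - (c + 4 * z) - c - 2 = 12 * l := ⟨(-4 * a - (c + 4 * z) - c - 2) / 12, by omega⟩
    obtain ⟨k, hk⟩ : ∃ k, a - 2 * (c + 4 * z + c) - 1 = 6 * k := ⟨(a - 2 * (c + 4 * z + c) - 1) / 6, by omega⟩
    simp only [mem_coe, m1, hl, hk, Prod.mk.injEq, show 6 * k / 6 = k by omega, show 12 * l / 12 = l by omega,
      show (c + 4 * z - c) / 4 = z by omega]
  · obtain ⟨j, rfl⟩ : ∃ j, k = 3 * j - 2 * l - 1 := ⟨(k + 2 * l + 1) / 3, by omega⟩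
    obtain rfl : a = 2 * j - 4 * l - 1 := by omega
    obtain rfl : c = 2 * l - 4 * j + 1 - 2 * z := by omega
    linarith
  · omega

def Zk (M : ℕ) (G : R⟦X⟧) : Prop := ∀ n < M, n % 9 = 7 → coeff n G = 0

theorem Zk_P {M s : ℕ} (L : ℕ) : ∀ {G : R⟦X⟧}, Zk M (P (X ^ (9 * (s + 1))) L * G) ↔ Zk M G := by
  induction L with
  | zero => simp [P]
  | succ L ih =>
    intro G
    rw [P_succ, mul_assoc, ih, ← pow_mul]
    obtain ⟨c, hc⟩ : ∃ c, 9 * (s + 1) * (L + 1) = 9 * c + 9 := ⟨s * L + s + L, by ring⟩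
    simp only [Zk, hc, sub_mul, one_mul, map_sub, coeff_X_pow_mul']
    refine ⟨fun h n => ?_, fun h n h1 h2 => ?_⟩
    · induction n using Nat.strong_induction_on with
      | _ n ih =>
        intro h1 h2
        rw [sub_eq_zero.mp (h n h1 h2)]
        split_ifs with h3
        · exact ih _ (by omega) (by omega) (by omega)
        · rfl
    · rw [h n h1 h2]
      split_ifs with h3
      · rw [h _ (by omega) (by omega), sub_zero]
      · simp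

theorem pA (c M : ℕ) : (∏ i ∈ range M, ((1 + X ^ (2 * c + (2 * c + c) * i)) * (1 + X ^ (c + (2 * c + c) * i))) : R⟦X⟧) *
    P (X ^ c) (3 * M) * P (X ^ (6 * c)) M = P (X ^ (2 * c)) (3 * M) * P (X ^ (3 * c)) M := by
  induction M with
  | zero => simp [P]
  | succ M ih =>
    simp only [Nat.mul_succ, P_succ, prod_range_succ]
    linear_combination (1 - X ^ (c * (6 * M + 2))) * (1 - X ^ (c * (6 * M + 4))) * (1 - X ^ (c * (6 * M + 6))) *
      (1 - X ^ (c * (3 * M + 3))) * ih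

theorem pB (M : ℕ) : (∏ i ∈ range M, (1 + X ^ (3 + (3 + 3) * i)) : R⟦X⟧) * P (X ^ 3) (2 * M) * P (X ^ 12) M =
    P (X ^ 6) (2 * M) * P (X ^ 6) M := by
  induction M with
  | zero => simp [P]
  | succ M ih =>
    simp only [Nat.mul_succ, P_succ, prod_range_succ]
    linear_combination (1 - X ^ (12 * M + 6)) * (1 - X ^ (12 * M + 12)) * (1 - X ^ (6 * M + 6)) * ih

theorem m3 {M n : ℕ} (hn : n < M) (h9 : n % 9 = 7) {G : (ZMod 3)⟦X⟧}
    (hG : X ^ M ∣ G * P X (2 * M) - P (X ^ 4) M) : coeff n G = 0 := by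
  have fr : ∀ k, P (X ^ k : (ZMod 3)⟦X⟧) M ^ 3 = P (X ^ (k * 3)) M := fun k => by
    haveI : CharP (ZMod 3)⟦X⟧ 3 := charP_of_injective_ringHom (C_injective (R := ZMod 3)) 3
    rw [P, P, ← prod_pow]
    exact prod_congr rfl fun i _ => by rw [sub_pow_char, one_pow]; ring
  have q : ∀ k c, k ≠ 0 → c ≠ 0 → (X : (ZMod 3)⟦X⟧) ^ M ∣ P (X ^ k) (c * M) - P (X ^ k) M := fun k c hk hc =>
    (pow_dvd_pow _ ((Nat.le_succ M).trans (Nat.le_mul_of_pos_left _ (by omega)))).trans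
      (pow_mul (X : (ZMod 3)⟦X⟧) k _ ▸ P_sub (Nat.le_mul_of_pos_left _ (by omega)))
  have t1 := plus_lim (R := ZMod 3) (2 * 1) 1 M (by omega) b3 fun n => by
    have := two_T n; have := two_T (-n); simp only [e3]; push_cast; linarith
  have t2 := plus_lim (R := ZMod 3) (2 * 2) 2 M (by omega) (e := fun k => 2 * e3 k)
    (fun y => by have := b3 y; simp only; omega) fun n => by
      have := two_T n; have := two_T (-n); simp only [e3]; push_cast; linarith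
  have t3 := plus_lim (R := ZMod 3) 3 3 M (by omega) (e := fun k => 3 * e1 k)
    (fun y => by have := b1 y; simp only; omega) fun n => by
      have := two_T n; have := two_T (-n); simp only [e1]; push_cast; linarith
  rw [prod_mul_distrib] at t3
  let π := Ideal.Quotient.mk (Ideal.span {(X : (ZMod 3)⟦X⟧) ^ M})
  have p1 := congrArg π (pA 1 M)
  have p2 := congrArg π (pA 2 M)
  have p3 := congrArg π (pB M)
  have f1 := congrArg π (fr 6)
  have f2 := congrArg π (fr 12)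
  have q1 := q 1 2 one_ne_zero two_ne_zero
  have q2 := q 1 3 one_ne_zero three_ne_zero
  have q3 := q 2 3 two_ne_zero three_ne_zero
  have q4 := q 4 3 four_ne_zero three_ne_zero
  have q5 := q 3 2 three_ne_zero two_ne_zero
  have q6 := q 6 2 (by omega) two_ne_zero
  have u := fun k hk => (P_unit (R := ZMod 3) (s := k) hk M).map π
  have u1 := (((((u 1 one_ne_zero).mul (u 2 two_ne_zero)).mul ((u 3 three_ne_zero).pow 2)).mul (u 6 (by omega))).mul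
    ((u 12 (by omega)).pow 3))
  have key : X ^ M ∣ P (X ^ (9 * (1 + 1))) M * (P (X ^ (9 * (1 + 1))) M * G) - P (X ^ (9 * (3 + 1))) M *
      (th M e3 (fun _ => (1 : ZMod 3)) * th M (fun k => 2 * e3 k) (fun _ => 1) * th M (fun k => 3 * e1 k) fun _ => 1) := by
    generalize (∏ i ∈ range M, ((1 + X ^ (2 * 1 + (2 * 1 + 1) * i)) * (1 + X ^ (1 + (2 * 1 + 1) * i))) :
      (ZMod 3)⟦X⟧) = A1, (∏ i ∈ range M, ((1 + X ^ (2 * 2 + (2 * 2 + 2) * i)) * (1 + X ^ (2 + (2 * 2 + 2) * i))) :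
      (ZMod 3)⟦X⟧) = A2, (∏ i ∈ range M, (1 + X ^ (3 + (3 + 3) * i)) : (ZMod 3)⟦X⟧) = A3 at *
    simp only [← Ideal.mem_span_singleton, ← Ideal.Quotient.eq, map_mul, map_pow, Nat.reduceMul, Nat.reduceAdd,
      pow_one, π] at *
    rw [q2, q3] at p1
    rw [q3, q4] at p2
    rw [q5, q6] at p3
    rw [q1] at hG
    rw [← t1, ← t2, ← t3, ← f1, ← f2]
    generalize Ideal.Quotient.mk (Ideal.span {(X : (ZMod 3)⟦X⟧) ^ M}) = π at *
    generalize π (P X M) = F1, π (P (X ^ 2) M) = F2, π (P (X ^ 3) M) = F3, π (P (X ^ 4) M) = F4, π (P (X ^ 6) M) = F6,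
      π (P (X ^ 12) M) = F12, π A1 = A1, π A2 = A2, π A3 = A3 at *
    refine u1.mul_left_cancel ?_
    linear_combination F2 * F3 ^ 2 * F6 ^ 7 * F12 ^ 3 * hG - F12 ^ 3 * F3 * F6 ^ 2 * (A2 * F2 * F12 * (A3 * F3 * F12) ^ 2 * p1 +
      F2 * F3 * (A3 * F3 * F12) ^ 2 * p2 + F2 * F3 * F4 * F6 * (A3 * F3 * F12 + F6 * F6) * p3)
  refine Zk_P (s := 1) M |>.mp (Zk_P (s := 1) M |>.mp fun k hk h => ?_) n hn h9
  have := X_pow_dvd_iff.mp key k hk
  rwa [map_sub, (Zk_P (s := 3) M).mpr (fun k hk h => tri3 hk h) k hk h, sub_zero] at this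

end Pool.Agent.H27.Jt
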