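import Pool.Agent.H27.NOrd1

set_option autoImplicit false

namespace Pool.Agent.H27.KOrd

open Set ProOrd NOrd

section FB

variable {X : Type} [LinearOrder X]

def FU (g : X → X) : Prop := ∃ x, x < g x ∧ ∀ y ≤ x, y < g y ∨ ∀ z ≤ y, g z = z

def FD (g : X → X) : Prop := ∃ x, g x < x ∧ ∀ y ≤ x, g y < y ∨ ∀ z ≤ y, g z = z

def FB (g : X → X) : Prop := (∀ x, g x = x) ∨ FU g ∨ FD g

def Ord (G : Type) [Group G] : Prop := ∃ P : Set G, Cone P ∧ ∀ a, a ∈ P ∨ a⁻¹ ∈ P

lemma ord_of_fb (B : Subgroup (X ≃o X)) (h : ∀ g ∈ B, FB (g : X ≃o X)) : Ord B := by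
  refine ⟨{g | g = 1 ∨ ∃ x, x < g.1 x ∧ ∀ y ≤ x, y ≤ g.1 y}, ⟨Or.inl rfl, ?_, ?_, ?_⟩, ?_⟩
  · rintro g (rfl | ⟨x, h1, h2⟩) k hk
    · simpa using hk
    rcases hk with rfl | ⟨x', h3, h4⟩
    · exact Or.inr ⟨x, by simpa using h1, by simpa using h2⟩
    refine Or.inr ⟨min x x', ?_, fun y hy => ?_⟩
    · change _ < g.1 (k.1 _)
      rcases le_total x x' with e | e
      · rw [min_eq_left e]; exact h1.trans_le (g.1.monotone (h4 x e))
      · rw [min_eq_right e]; exact (h2 x' e).trans_lt (g.1.strictMono h3)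
    · exact (h2 y (hy.trans (min_le_left _ _))).trans
        (g.1.monotone (h4 y (hy.trans (min_le_right _ _))))
  · rintro g (rfl | ⟨x, h1, h2⟩) k
    · exact Or.inl (by simp)
    refine Or.inr ⟨k.1 x, ?_, fun y hy => ?_⟩
    · change _ < k.1 (g.1 (k.1.symm (k.1 x)))
      rw [OrderIso.symm_apply_apply]; exact k.1.strictMono h1
    · change _ ≤ k.1 (g.1 (k.1.symm y))
      rw [← k.1.symm_apply_le]
      exact h2 _ (k.1.symm_apply_le.2 hy)
  · rintro g (rfl | ⟨x, h1, h2⟩) hk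
    · rfl
    rcases hk with hk | ⟨x', h3, h4⟩
    · exact inv_eq_one.1 hk
    exfalso
    rcases le_total x x' with e | e
    · have : x ≤ g.1.symm x := h4 x e
      exact absurd (g.1.le_symm_apply.1 this) (not_le.2 h1)
    · have : x' < g.1.symm x' := h3
      exact absurd (g.1.lt_symm_apply.1 this) (not_lt.2 (h2 x' e))
  · intro g
    rcases h g.1 g.2 with e | ⟨x, h1, h2⟩ | ⟨x, h1, h2⟩
    · exact Or.inl (Or.inl (Subtype.ext (OrderIso.ext (funext e))))
    · exact Or.inl (Or.inr ⟨x, h1, fun y hy => (h2 y hy).elim le_of_lt fun e => (e y le_rfl).ge⟩)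
    · refine Or.inr (Or.inr ⟨g.1 x, ?_, fun y hy => ?_⟩)
      · change _ < g.1.symm (g.1 x)
        rwa [OrderIso.symm_apply_apply]
      · change _ ≤ g.1.symm y
        rw [g.1.le_symm_apply]
        exact (h2 y (hy.trans h1.le)).elim le_of_lt fun e => (e y le_rfl).le

lemma exists_glue (g k : X ≃o X) {c : X} (e : g c = k c) :
    ∃ h : X ≃o X, (∀ z ≤ c, h z = g z) ∧ ∀ z, c ≤ z → h z = k z := by
  classical
  let f : X → X := fun z => if z ≤ c then g z else k z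
  have f1 : ∀ z ≤ c, f z = g z := fun z hz => if_pos hz
  have f2 : ∀ z, c ≤ z → f z = k z := by
    intro z hz
    rcases hz.eq_or_lt with rfl | hz
    · rw [f1 _ le_rfl, e]
    · exact if_neg (not_le.2 hz)
  have hm : StrictMono f := by
    intro x y hxy
    rcases le_total y c with h | h
    · rw [f1 _ h, f1 _ (hxy.le.trans h)]; exact g.strictMono hxy
    rcases le_total x c with h' | h'
    · rw [f1 _ h', f2 _ h]
      rcases h'.eq_or_lt with rfl | h'
      · rw [e]; exact k.strictMono hxy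
      · exact (g.strictMono h').trans_le (e ▸ k.monotone h)
    · rw [f2 _ h, f2 _ h']; exact k.strictMono hxy
  have hs : Function.Surjective f := by
    intro y
    rcases le_total y (g c) with h | h
    · exact ⟨g.symm y, by rw [f1 _ (g.symm_apply_le.2 h), OrderIso.apply_symm_apply]⟩
    · exact ⟨k.symm y, by rw [f2 _ (k.le_symm_apply.2 (e ▸ h)), OrderIso.apply_symm_apply]⟩
  exact ⟨hm.orderIsoOfSurjective f hs, f1, f2⟩

end FB

variable {V : Type} [AddCommGroup V] [LinearOrder V] [IsOrderedAddMonoid V]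
  (L : Subgroup (V ≃o V))

def PW (g : V → V) (F : Finset V) : Prop :=
  ∀ x y, (∀ z ∈ F, z ≤ x ∨ y ≤ z) → ∃ l ∈ L, ∃ q, ∀ z, x ≤ z → z ≤ y → g z = q + l z

def Addv : Prop := ∀ l ∈ L, ∀ x y, l (x + y) = l x + l y

variable {L}

omit [IsOrderedAddMonoid V] in
lemma Addv.zero (hL : Addv L) {l : V ≃o V} (h : l ∈ L) : l 0 = 0 := by
  have := hL l h 0 0
  simpa using this

omit [IsOrderedAddMonoid V] in
lemma Addv.sub (hL : Addv L) {l : V ≃o V} (h : l ∈ L) (x y : V) : l (x - y) = l x - l y := by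
  rw [eq_sub_iff_add_eq, ← hL l h, sub_add_cancel]

def PL0 (hL : Addv L) : Subgroup (V ≃o V) where
  carrier := {g | ∃ F, PW L g F}
  one_mem' := ⟨∅, fun _ _ _ => ⟨1, L.one_mem, 0, fun z _ _ => by simp⟩⟩
  mul_mem' := by
    classical
    rintro g k ⟨F, hF⟩ ⟨E, hE⟩
    refine ⟨E ∪ F.image k.symm, fun x y h => ?_⟩
    obtain ⟨l, hl, q, e⟩ := hE x y fun z hz => h z (Finset.mem_union_left _ hz)
    obtain ⟨l', hl', q', e'⟩ := hF (k x) (k y) fun z hz => by
      rcases h _ (Finset.mem_union_right _ (Finset.mem_image_of_mem _ hz)) with a | a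
      · exact Or.inl (k.symm_apply_le.1 a)
      · exact Or.inr (k.le_symm_apply.1 a)
    refine ⟨l' * l, L.mul_mem hl' hl, q' + l' q, fun z a b => ?_⟩
    change g (k z) = _ + l' (l z)
    rw [e' _ (k.monotone a) (k.monotone b), e z a b, hL l' hl', add_assoc]
  inv_mem' := by
    classical
    rintro g ⟨F, hF⟩
    refine ⟨F.image g, fun x y h => ?_⟩
    obtain ⟨l, hl, q, e⟩ := hF (g.symm x) (g.symm y) fun z hz => by
      rcases h _ (Finset.mem_image_of_mem _ hz) with a | a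
      · exact Or.inl (g.le_symm_apply.2 a)
      · exact Or.inr (g.symm_apply_le.2 a)
    refine ⟨l⁻¹, L.inv_mem hl, -l⁻¹ q, fun z a b => ?_⟩
    have := e _ (g.symm.monotone a) (g.symm.monotone b)
    rw [OrderIso.apply_symm_apply] at this
    rw [neg_add_eq_sub, ← hL.sub (L.inv_mem hl)]
    change g.symm z = l.symm _
    rw [OrderIso.eq_symm_apply, eq_sub_iff_add_eq', ← this]

def PL (hL : Addv L) : Subgroup (V ≃o V) where
  carrier := {g | g ∈ PL0 hL ∧ ∃ m q, ∀ x ≤ m, g x = q + x}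
  one_mem' := ⟨(PL0 hL).one_mem, 0, 0, fun x _ => by simp⟩
  mul_mem' := by
    rintro g k ⟨h1, m, q, e⟩ ⟨h2, m', q', e'⟩
    refine ⟨(PL0 hL).mul_mem h1 h2, min m' (k.symm m), q + q', fun x hx => ?_⟩
    change g (k x) = _
    rw [e _ (k.le_symm_apply.1 (hx.trans (min_le_right _ _))), e' _ (hx.trans (min_le_left _ _)),
      add_assoc]
  inv_mem' := by
    rintro g ⟨h1, m, q, e⟩
    refine ⟨(PL0 hL).inv_mem h1, g m, -q, fun x hx => ?_⟩
    have := e _ (g.symm_apply_le.2 hx)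
    rw [OrderIso.apply_symm_apply] at this
    change g.symm x = _
    rw [eq_neg_add_iff_add_eq, ← this]

def Gam (hL : Addv L) : Subgroup (V ≃o V) where
  carrier := {g | g ∈ PL hL ∧ ∃ l r, ∀ t, t ≤ l ∨ r ≤ t → g t = t}
  one_mem' := ⟨(PL hL).one_mem, 0, 0, fun _ _ => rfl⟩
  mul_mem' := by
    rintro g k ⟨h1, l, r, e⟩ ⟨h2, l', r', e'⟩
    refine ⟨(PL hL).mul_mem h1 h2, min l l', max r r', fun x hx => ?_⟩
    change g (k x) = _
    rw [e' x (hx.imp (fun a => a.trans (min_le_right _ _)) fun a => (le_max_right _ _).trans a),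
      e x (hx.imp (fun a => a.trans (min_le_left _ _)) fun a => (le_max_left _ _).trans a)]
  inv_mem' := by
    rintro g ⟨h1, l, r, e⟩
    refine ⟨(PL hL).inv_mem h1, l, r, fun x hx => ?_⟩
    change g.symm x = _
    rw [OrderIso.symm_apply_eq, e x hx]

variable (hL : Addv L)

omit [IsOrderedAddMonoid V] in
lemma lin_mem {l : V ≃o V} (h : l ∈ L) : l ∈ PL0 hL :=
  ⟨∅, fun _ _ _ => ⟨l, h, 0, fun z _ _ => by simp⟩⟩

lemma tr_mem (q : V) : OrderIso.addLeft q ∈ PL hL :=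
  ⟨⟨∅, fun _ _ _ => ⟨1, L.one_mem, q, fun z _ _ => by simp⟩⟩, 0, q, fun z _ => by simp⟩

omit [IsOrderedAddMonoid V] in
lemma glue {g k : V ≃o V} (hg : g ∈ PL hL) (hk : k ∈ PL0 hL) {c : V} (e : g c = k c) :
    ∃ h ∈ PL hL, (∀ z ≤ c, h z = g z) ∧ ∀ z, c ≤ z → h z = k z := by
  classical
  obtain ⟨h, h1, h2⟩ := exists_glue g k e
  obtain ⟨⟨F, hF⟩, m, q, e1⟩ := hg
  obtain ⟨E, hE⟩ := hk
  refine ⟨h, ⟨⟨insert c (F ∪ E), fun x y a => ?_⟩, min m c, q, fun x hx => ?_⟩, h1, h2⟩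
  · rcases a c (Finset.mem_insert_self _ _) with b | b
    · obtain ⟨l, hl, q, e⟩ := hE x y fun z hz => a z (by simp [hz])
      exact ⟨l, hl, q, fun z z1 z2 => by rw [h2 z (b.trans z1), e z z1 z2]⟩
    · obtain ⟨l, hl, q, e⟩ := hF x y fun z hz => a z (by simp [hz])
      exact ⟨l, hl, q, fun z z1 z2 => by rw [h1 z (z2.trans b), e z z1 z2]⟩
  · rw [h1 x (hx.trans (min_le_right _ _)), e1 x (hx.trans (min_le_left _ _))]

def HU (l : V → V) : Prop := ∃ x, 0 < x ∧ x < l x ∧ ∀ y, 0 < y → y ≤ x → y < l y ∨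
  ∀ z, 0 ≤ z → z ≤ y → l z = z

def HD (l : V → V) : Prop := ∃ x, 0 < x ∧ l x < x ∧ ∀ y, 0 < y → y ≤ x → l y < y ∨
  ∀ z, 0 ≤ z → z ≤ y → l z = z

lemma fb_pl (hH : ∀ l ∈ L, (∀ x, l x = x) ∨ HU l ∨ HD l) {g : V ≃o V} (hg : g ∈ PL hL) :
    FB g := by
  classical
  obtain ⟨⟨F, hF⟩, m, q, e⟩ := hg
  rcases lt_trichotomy q 0 with hq | rfl | hq
  · refine Or.inr (Or.inr ⟨m, ?_, fun y hy => Or.inl ?_⟩)
    · rw [e m le_rfl]; simpa using hq
    · rw [e y hy]; simpa using hq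
  swap
  · refine Or.inr (Or.inl ⟨m, ?_, fun y hy => Or.inl ?_⟩)
    · rw [e m le_rfl]; simpa using hq
    · rw [e y hy]; simpa using hq
  by_cases hid : ∀ x, g x = x
  · exact Or.inl hid
  right
  push Not at hid
  obtain ⟨w0, hw0⟩ := hid
  let S := (insert m F).filter fun f => ∀ z ≤ f, g z = z
  have hS : S.Nonempty := ⟨m, by simpa [S] using e⟩
  obtain ⟨-, hf⟩ := Finset.mem_filter.1 (S.max'_mem hS)
  set f := S.max' hS with hfd
  have : ∃ y w, w ≤ y ∧ g w ≠ w ∧ ∀ z ∈ F, z ≤ f ∨ y ≤ z := by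
    by_cases hT : (F.filter fun z => f < z).Nonempty
    · obtain ⟨a, b⟩ := Finset.mem_filter.1 (Finset.min'_mem _ hT)
      have : ¬ ∀ z ≤ (F.filter fun z => f < z).min' hT, g z = z := fun hn =>
        absurd (S.le_max' _ (Finset.mem_filter.2 ⟨Finset.mem_insert_of_mem a, hn⟩)) (not_le.2 b)
      push Not at this
      obtain ⟨w, w1, w2⟩ := this
      refine ⟨_, w, w1, w2, fun z hz => (le_or_gt z f).imp id fun c => ?_⟩
      exact Finset.min'_le _ _ (Finset.mem_filter.2 ⟨hz, c⟩)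
    · refine ⟨w0, w0, le_rfl, hw0, fun z hz => Or.inl (not_lt.1 fun c => hT ⟨z, ?_⟩)⟩
      exact Finset.mem_filter.2 ⟨hz, c⟩
  obtain ⟨y, w, w1, w2, w3⟩ := this
  have w4 : f < w := not_le.1 fun c => w2 (hf w c)
  obtain ⟨l, hl, q, e1⟩ := hF f y w3
  have e2 : ∀ z, f ≤ z → z ≤ y → g z = f + l (z - f) := by
    intro z a b
    have := e1 f le_rfl (w4.le.trans w1)
    rw [hf f le_rfl] at this
    rw [e1 z a b, hL.sub hl]
    nth_rewrite 1 [this]
    abel
  have e3 : ∀ x, x ≤ y → (∀ z, 0 ≤ z → z ≤ x - f → l z = z) → ∀ z ≤ x, g z = z := by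
    intro x a b z c
    rcases le_total z f with d | d
    · exact hf z d
    · rw [e2 z d (c.trans a), b _ (sub_nonneg.2 d) (sub_le_sub_right c f), add_sub_cancel]
  rcases hH l hl with h | ⟨x, x1, x2, x3⟩ | ⟨x, x1, x2, x3⟩
  · exact absurd (e3 w w1 (fun z _ _ => h z) w le_rfl) w2
  · have key : ∀ z, z ≤ y → z - f ≤ x → z < g z ∨ ∀ z' ≤ z, g z' = z' := by
      intro z a b
      rcases le_or_gt z f with c | c
      · exact Or.inr fun z' d => hf z' (d.trans c)
      · refine (x3 _ (sub_pos.2 c) b).imp (fun d => ?_) (e3 z a)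
        rwa [e2 z c.le a, ← sub_lt_iff_lt_add']
    left
    rcases le_total (w - f) x with a | a
    · exact ⟨w, (key w w1 a).resolve_right fun b => w2 (b w le_rfl),
        fun z b => key z (b.trans w1) ((sub_le_sub_right b f).trans a)⟩
    · have b : f + x ≤ y := (le_sub_iff_add_le'.1 a).trans w1
      refine ⟨f + x, ?_, fun z c => key z (c.trans b) (sub_le_iff_le_add'.2 c)⟩
      rw [e2 _ (by simpa using x1.le) b]; simpa using x2
  · have key : ∀ z, z ≤ y → z - f ≤ x → g z < z ∨ ∀ z' ≤ z, g z' = z' := by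
      intro z a b
      rcases le_or_gt z f with c | c
      · exact Or.inr fun z' d => hf z' (d.trans c)
      · refine (x3 _ (sub_pos.2 c) b).imp (fun d => ?_) (e3 z a)
        rwa [e2 z c.le a, ← lt_sub_iff_add_lt']
    right
    rcases le_total (w - f) x with a | a
    · exact ⟨w, (key w w1 a).resolve_right fun b => w2 (b w le_rfl),
        fun z b => key z (b.trans w1) ((sub_le_sub_right b f).trans a)⟩
    · have b : f + x ≤ y := (le_sub_iff_add_le'.1 a).trans w1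
      refine ⟨f + x, ?_, fun z c => key z (c.trans b) (sub_le_iff_le_add'.2 c)⟩
      rw [e2 _ (by simpa using x1.le) b]; simpa using x2

lemma rich (hT : ∀ s t : V, 0 < s → 0 < t → ∃ g ∈ PL hL, (∀ z ≤ 0, g z = z) ∧ g s = t)
    (hp : ∃ e : V, 0 < e) (hd : ∀ s : V, 0 < s → ∃ u, 0 < u ∧ u < s) :
    Rich (fun (g : Gam hL) (x : V) => g.1 x) := by
  have T : ∀ a x y : V, a < x → a < y → ∃ g ∈ PL hL, (∀ z ≤ a, g z = z) ∧ g x = y := by
    intro a x y h1 h2
    obtain ⟨g, g1, g2, g3⟩ := hT _ _ (sub_pos.2 h1) (sub_pos.2 h2)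
    refine ⟨OrderIso.addLeft a * g * OrderIso.addLeft (-a), (PL hL).mul_mem
      ((PL hL).mul_mem (tr_mem hL a) g1) (tr_mem hL _), fun z hz => ?_, ?_⟩
    · change a + g (-a + z) = z
      rw [g2 _ (by simpa using hz)]; abel
    · change a + g (-a + x) = y
      rw [neg_add_eq_sub, g3]; abel
  obtain ⟨e, he⟩ := hp
  refine ⟨fun _ => rfl, fun _ _ _ => rfl, fun g => g.1.strictMono,
    fun g k h => Subtype.ext (OrderIso.ext (funext h)), fun g => g.2.2, ?_,
    fun t => ⟨t + e, by simpa using he⟩, fun t => ⟨t - e, by simpa using he⟩, ?_⟩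
  · intro a b x y h1 h2 h3 h4
    obtain ⟨g, g1, g2, g3⟩ := T a x y h1 h3
    obtain ⟨k, k1, k2, k3⟩ := T y (g b) b (g3 ▸ g.strictMono h2) h4
    obtain ⟨h, a1, a2, a3⟩ := glue hL ((PL hL).mul_mem k1 g1) (PL0 hL).one_mem (c := b) k3
    have : ∀ t, t ≤ a ∨ b ≤ t → h t = t := by
      rintro t (ht | ht)
      · rw [a2 t (by order)]
        change k (g t) = t
        rw [g2 t ht, k2 t (by order)]
      · exact a3 t ht
    refine ⟨⟨h, a1, a, b, this⟩, ?_, this⟩
    change h x = y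
    rw [a2 x h2.le]
    change k (g x) = y
    rw [g3, k2 y le_rfl]
  · intro s t h
    obtain ⟨u, u1, u2⟩ := hd _ (sub_pos.2 h)
    exact ⟨s + u, by simpa using u1, lt_sub_iff_add_lt'.1 u2⟩

end Pool.Agent.H27.KOrd
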