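import Pool.Agent.H27.KOrd1

set_option autoImplicit false

namespace Pool.Agent.H27.KOrd

open Set ProOrd NOrd

def VV (Ω : Type) : Type := Ω →₀ ℚ

variable {Ω : Type} [LinearOrder Ω]

noncomputable instance : AddCommGroup (VV Ω) := inferInstanceAs (AddCommGroup (Ω →₀ ℚ))

noncomputable instance : LinearOrder (VV Ω) := inferInstanceAs (LinearOrder (Colex (Ω →₀ ℚ)))

def ev (x : VV Ω) (ω : Ω) : ℚ := (show Ω →₀ ℚ from x) ω

omit [LinearOrder Ω] in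
lemma ev_ext {x y : VV Ω} (h : ∀ ω, ev x ω = ev y ω) : x = y := Finsupp.ext h

omit [LinearOrder Ω] in
@[simp] lemma ev_add (x y : VV Ω) (ω : Ω) : ev (x + y) ω = ev x ω + ev y ω := rfl

omit [LinearOrder Ω] in
@[simp] lemma ev_sub (x y : VV Ω) (ω : Ω) : ev (x - y) ω = ev x ω - ev y ω := rfl

omit [LinearOrder Ω] in
@[simp] lemma ev_zero (ω : Ω) : ev (0 : VV Ω) ω = 0 := rfl

lemma vlt {x y : VV Ω} : x < y ↔ ∃ i, (∀ j, i < j → ev x j = ev y j) ∧ ev x i < ev y i := Iff.rfl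

instance : IsOrderedAddMonoid (VV Ω) where
  add_le_add_left a b h c := by
    rcases h.eq_or_lt with rfl | h
    · exact le_rfl
    · obtain ⟨i, h1, h2⟩ := vlt.1 h
      exact le_of_lt (vlt.2 ⟨i, fun j hj => by simp [h1 j hj], by simpa using h2⟩)

noncomputable def bs (ω : Ω) : VV Ω := (Finsupp.single ω 1 : Ω →₀ ℚ)

lemma bs_self (ω : Ω) : ev (bs ω) ω = 1 := Finsupp.single_eq_same

lemma bs_ne {ω j : Ω} (h : j ≠ ω) : ev (bs ω) j = 0 := Finsupp.single_eq_of_ne h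

def Lead (x : VV Ω) (ω : Ω) : Prop := 0 < ev x ω ∧ ∀ j, ω < j → ev x j = 0

lemma lead_bs (ω : Ω) : Lead (bs ω) ω := ⟨by simp [bs_self], fun _ h => bs_ne h.ne'⟩

lemma exists_lead {x : VV Ω} (h : 0 < x) : ∃ ω, Lead x ω := by
  obtain ⟨i, h1, h2⟩ := vlt.1 h
  exact ⟨i, h2, fun j hj => (h1 j hj).symm⟩

lemma Lead.pos {x : VV Ω} {ω : Ω} (h : Lead x ω) : 0 < x :=
  vlt.2 ⟨ω, fun j hj => (h.2 j hj).symm, h.1⟩

lemma Lead.lt {x y : VV Ω} {ω : Ω} (hx : ∀ j, ω < j → ev x j = 0) (hy : Lead y ω)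
    (h : ev x ω < ev y ω) : x < y :=
  vlt.2 ⟨ω, fun j hj => by rw [hx j hj, hy.2 j hj], h⟩

lemma Lead.lt' {x y : VV Ω} {ω ω' : Ω} (hx : Lead x ω) (hy : Lead y ω') (h : ω < ω') : x < y :=
  Lead.lt (fun j hj => hx.2 j (h.trans hj)) hy (by rw [hx.2 _ h]; exact hy.1)

lemma Lead.le {x y : VV Ω} {ω ω' : Ω} (hx : Lead x ω) (hy : Lead y ω') (h : x ≤ y) : ω ≤ ω' :=
  not_lt.1 fun e => absurd (hy.lt' hx e) (not_lt.2 h)

lemma vanish {y z : VV Ω} {ω : Ω} (hy : Lead y ω) (h0 : 0 ≤ z) (h : z ≤ y) (j : Ω) (hj : ω < j) :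
    ev z j = 0 := by
  rcases h0.eq_or_lt with rfl | h0
  · rfl
  · obtain ⟨ω', h'⟩ := exists_lead h0
    exact h'.2 j ((h'.le hy h).trans_lt hj)

def IsLin (l : VV Ω → VV Ω) (p : ℚ) (β : Ω ≃o Ω) : Prop := ∀ x ω, ev (l x) (β ω) = p * ev x ω

lemma IsLin.ev' {l : VV Ω → VV Ω} {p : ℚ} {β : Ω ≃o Ω} (h : IsLin l p β) (x : VV Ω) (ω : Ω) :
    ev (l x) ω = p * ev x (β.symm ω) := by
  rw [← h, OrderIso.apply_symm_apply]

lemma exists_lin {p : ℚ} (hp : 0 < p) (β : Ω ≃o Ω) : ∃ l : VV Ω ≃o VV Ω, IsLin l p β := by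
  have ex : ∀ (p : ℚ) (β : Ω ≃o Ω), ∃ l : VV Ω → VV Ω, IsLin l p β := by
    intro p β
    refine ⟨fun x => (p • Finsupp.equivMapDomain β.toEquiv (show Ω →₀ ℚ from x) : Ω →₀ ℚ),
      fun x ω => ?_⟩
    simp [ev]
  obtain ⟨l, hl⟩ := ex p β
  obtain ⟨l', hl'⟩ := ex p⁻¹ β.symm
  have hm : StrictMono l := by
    intro x y h
    obtain ⟨i, h1, h2⟩ := vlt.1 h
    refine vlt.2 ⟨β i, fun j hj => ?_, ?_⟩
    · rw [hl.ev', hl.ev', h1 _ (β.lt_symm_apply.2 hj)]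
    · rw [hl, hl]; exact mul_lt_mul_of_pos_left h2 hp
  have hs : Function.Surjective l := by
    intro y
    refine ⟨l' y, ev_ext fun ω => ?_⟩
    rw [hl.ev', hl', mul_inv_cancel_left₀ hp.ne']
  exact ⟨hm.orderIsoOfSurjective l hs, hl⟩

def LL (B : Subgroup (Ω ≃o Ω)) : Subgroup (VV Ω ≃o VV Ω) where
  carrier := {l | ∃ p, 0 < p ∧ ∃ β ∈ B, IsLin l p β}
  one_mem' := ⟨1, one_pos, 1, B.one_mem, fun x ω => by simp⟩
  mul_mem' := by
    rintro l k ⟨p, hp, β, hβ, h⟩ ⟨q, hq, γ, hγ, h'⟩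
    refine ⟨p * q, mul_pos hp hq, β * γ, B.mul_mem hβ hγ, fun x ω => ?_⟩
    change ev (l (k x)) (β (γ ω)) = _
    rw [h, h', mul_assoc]
  inv_mem' := by
    rintro l ⟨p, hp, β, hβ, h⟩
    refine ⟨p⁻¹, inv_pos.2 hp, β⁻¹, B.inv_mem hβ, fun x ω => ?_⟩
    have := h.ev' (l.symm x) ω
    rw [OrderIso.apply_symm_apply] at this
    change ev (l.symm x) (β.symm ω) = _
    rw [this, inv_mul_cancel_left₀ hp.ne']

lemma addv (B : Subgroup (Ω ≃o Ω)) : Addv (LL B) := by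
  rintro l ⟨p, -, β, -, h⟩ x y
  exact ev_ext fun ω => by simp only [h.ev', ev_add, mul_add]

section

variable {l : VV Ω → VV Ω} {p : ℚ} {β : Ω ≃o Ω} (h : IsLin l p β)
include h

lemma IsLin.lead (hp : 0 < p) {x : VV Ω} {ω : Ω} (hx : Lead x ω) : Lead (l x) (β ω) :=
  ⟨by rw [h]; exact mul_pos hp hx.1, fun j hj => by
    rw [h.ev', hx.2 _ (β.lt_symm_apply.2 hj), mul_zero]⟩

lemma IsLin.fix {x : VV Ω} {ω : Ω} (hx : ∀ j, ω < j → ev x j = 0) (hβ : ∀ z ≤ ω, β z = z)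
    (j : Ω) : ev (l x) j = p * ev x j := by
  rcases le_or_gt j ω with a | a
  · conv_lhs => rw [← hβ j a]
    exact h x j
  · rw [h.ev', hx j a, hx _ (β.lt_symm_apply.2 ((hβ ω le_rfl).symm ▸ a))]

lemma IsLin.fix1 (hp : p = 1) {y : VV Ω} {ω : Ω} (hy : Lead y ω) (hβ : ∀ z ≤ ω, β z = z)
    (z : VV Ω) (h0 : 0 ≤ z) (h1 : z ≤ y) : l z = z :=
  ev_ext fun j => by rw [h.fix (vanish hy h0 h1) hβ, hp, one_mul]

lemma IsLin.bs (hp : p = 1) (ω : Ω) : l (bs ω) = bs (β ω) := by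
  refine ev_ext fun j => ?_
  obtain ⟨i, rfl⟩ := β.surjective j
  rw [h, hp, one_mul]
  by_cases e : i = ω
  · rw [e, bs_self, bs_self]
  · rw [bs_ne e, bs_ne (β.injective.ne e)]

end

lemma half_fb {B : Subgroup (Ω ≃o Ω)} (hB : ∀ β ∈ B, FB (β : Ω ≃o Ω)) :
    ∀ l ∈ LL B, (∀ x, l x = x) ∨ HU l ∨ HD l := by
  rintro l ⟨p, hp, β, hβ, h⟩
  by_cases hc : p ≠ 1 ∧ ∃ ω, ∀ z ≤ ω, β z = z
  · obtain ⟨h1, ω, h2⟩ := hc
    have key : ∀ y, 0 < y → y ≤ bs ω → ∃ ω', Lead y ω' ∧ Lead (l y) ω' ∧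
        ev (l y) ω' = p * ev y ω' := by
      intro y a b
      obtain ⟨ω', h'⟩ := exists_lead a
      have c := h2 _ (h'.le (lead_bs ω) b)
      exact ⟨ω', h', c ▸ h.lead hp h', by conv_lhs => rw [← c]; exact h y ω'⟩
    right
    rcases lt_or_gt_of_ne h1 with h1 | h1
    · have k2 : ∀ y, 0 < y → y ≤ bs ω → l y < y := by
        intro y a b
        obtain ⟨ω', c, d, e⟩ := key y a b
        exact Lead.lt d.2 c (by rw [e]; exact mul_lt_of_lt_one_left c.1 h1)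
      exact Or.inr ⟨bs ω, (lead_bs ω).pos, k2 _ (lead_bs ω).pos le_rfl,
        fun y a b => Or.inl (k2 y a b)⟩
    · have k2 : ∀ y, 0 < y → y ≤ bs ω → y < l y := by
        intro y a b
        obtain ⟨ω', c, d, e⟩ := key y a b
        exact Lead.lt c.2 d (by rw [e]; exact lt_mul_of_one_lt_left c.1 h1)
      exact Or.inl ⟨bs ω, (lead_bs ω).pos, k2 _ (lead_bs ω).pos le_rfl,
        fun y a b => Or.inl (k2 y a b)⟩
  have hc' : ∀ ω, (∀ z ≤ ω, β z = z) → p = 1 := fun ω e => by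
    by_contra hn
    exact hc ⟨hn, ω, e⟩
  rcases hB β hβ with e | ⟨ω, h1, h2⟩ | ⟨ω, h1, h2⟩
  · refine Or.inl fun x => ev_ext fun j => ?_
    conv_lhs => rw [← e j]
    rw [h, hc' j fun z _ => e z, one_mul]
  · refine Or.inr (Or.inl ⟨bs ω, (lead_bs ω).pos, (lead_bs ω).lt' (h.lead hp (lead_bs ω)) h1,
      fun y a b => ?_⟩)
    obtain ⟨ω', h'⟩ := exists_lead a
    exact (h2 _ (h'.le (lead_bs ω) b)).imp (fun c => h'.lt' (h.lead hp h') c)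
      fun c => h.fix1 (hc' _ c) h' c
  · refine Or.inr (Or.inr ⟨bs ω, (lead_bs ω).pos, (h.lead hp (lead_bs ω)).lt' (lead_bs ω) h1,
      fun y a b => ?_⟩)
    obtain ⟨ω', h'⟩ := exists_lead a
    exact (h2 _ (h'.le (lead_bs ω) b)).imp (fun c => (h.lead hp h').lt' h' c)
      fun c => h.fix1 (hc' _ c) h' c

lemma exists_half {B : Subgroup (Ω ≃o Ω)} {p : ℚ} (hp : 0 < p) {β : Ω ≃o Ω} (hβ : β ∈ B) :
    ∃ l, IsLin l p β ∧ ∃ g ∈ PL (addv B), (∀ z ≤ 0, g z = z) ∧ ∀ z, 0 ≤ z → g z = l z := by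
  obtain ⟨l, hl⟩ := exists_lin hp β
  have m : l ∈ LL B := ⟨p, hp, β, hβ, hl⟩
  exact ⟨l, hl, glue (addv B) (PL _).one_mem (lin_mem _ m) ((addv B).zero m).symm⟩

lemma rich_vv {B : Subgroup (Ω ≃o Ω)} [Nonempty Ω] (hB : ∀ x y, ∃ β ∈ B, β x = y) :
    Rich (fun (g : Gam (addv B)) (x : VV Ω) => g.1 x) := by
  refine rich _ (fun s t hs ht => ?_) ⟨_, (lead_bs (Classical.arbitrary Ω)).pos⟩ fun s hs => ?_
  · obtain ⟨ω, h1⟩ := exists_lead hs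
    obtain ⟨ω', h2⟩ := exists_lead ht
    obtain ⟨β, hβ, rfl⟩ := hB ω ω'
    have a1 := h1.1
    have a2 := h2.1
    have hp : 0 < 2 / 3 * ev t (β ω) / ev s ω := by positivity
    obtain ⟨l, l1, g, g1, g2, g3⟩ := exists_half hp hβ
    obtain ⟨l', l2, k, k1, k2, k3⟩ := exists_half (B := B) two_pos B.one_mem
    have h3 := l1.lead hp h1
    have h4 : ev (l s) (β ω) = 2 / 3 * ev t (β ω) := by rw [l1]; field_simp
    have z1 : 0 < t - l s := sub_pos.2 (Lead.lt h3.2 h2 (by linarith))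
    have z2 : t - l s < l s := Lead.lt (fun j hj => by simp [h2.2 j hj, h3.2 j hj]) h3
      (by rw [ev_sub]; linarith)
    obtain ⟨m, m1, m2, m3⟩ := glue (addv B) k1 (tr_mem (addv B) (t - l s)).1 (c := t - l s) (by
      rw [k3 _ z1.le]
      refine ev_ext fun j => ?_
      have := l2 (t - l s) j
      change ev (l' _) j = _ at this
      rw [this]
      change _ = ev (t - l s + (t - l s)) j
      rw [ev_add, two_mul])
    refine ⟨m * g, (PL _).mul_mem m1 g1, fun z hz => ?_, ?_⟩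
    · change m (g z) = z
      rw [g2 z hz, m2 z (hz.trans z1.le), k2 z hz]
    · change m (g s) = t
      rw [g3 s hs.le, m3 _ z2.le]
      simp
  · obtain ⟨ω, h1⟩ := exists_lead hs
    obtain ⟨l, hl⟩ := exists_lin (p := 1 / 2) (by norm_num) (1 : Ω ≃o Ω)
    have h2 : Lead (l s) ω := hl.lead (by norm_num) h1
    have h3 : ev (l s) ω = 1 / 2 * ev s ω := hl s ω
    exact ⟨l s, h2.pos, Lead.lt h2.2 h1 (by linarith [h1.1])⟩

lemma trans_pl (B : Subgroup (Ω ≃o Ω)) (x y : VV Ω) : ∃ g ∈ PL (addv B), g x = y :=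
  ⟨_, tr_mem _ (y - x), by simp⟩

lemma lift_hom {A : Type} [Group A] {B : Subgroup (Ω ≃o Ω)} (ψ : A →* Ω ≃o Ω)
    (hψ : ∀ a, ψ a ∈ B) {r : Ω} (hr : ∀ a, ψ a r = r) :
    ∃ χ : A →* VV Ω ≃o VV Ω, (∀ a, χ a ∈ Gam (addv B)) ∧ (∀ a, χ a (bs r) = bs r) ∧
      (∀ a ω, ω ≤ r → χ a (bs ω) = bs (ψ a ω)) ∧
      (∀ a ω, ω < r → χ a (bs r - bs ω) = bs r - bs (ψ a ω)) ∧
      ∀ a ω, (∀ z ≤ ω, ψ a z = z) → ∀ x, x ≤ bs ω ∨ bs r - bs ω ≤ x → χ a x = x := by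
  have r0 := (lead_bs r).pos
  have ex : ∀ a, ∃ l ∈ LL B, IsLin l 1 (ψ a) ∧ ∃ g ∈ PL (addv B), (∀ z, z ≤ 0 ∨ bs r ≤ z → g z = z) ∧
      ∀ z, 0 ≤ z → z ≤ bs r → g z = l z := by
    intro a
    obtain ⟨l, hl⟩ := exists_lin one_pos (ψ a)
    have m : l ∈ LL B := ⟨1, one_pos, _, hψ a, hl⟩
    obtain ⟨g, g1, g2, g3⟩ :=
      glue (addv B) (PL _).one_mem (lin_mem _ m) ((addv B).zero m).symm
    obtain ⟨k, k1, k2, k3⟩ := glue (addv B) g1 (PL0 _).one_mem (c := bs r)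
      (by rw [g3 _ r0.le, hl.bs rfl, hr]; rfl)
    refine ⟨l, m, hl, k, k1, ?_, fun z a b => by rw [k2 z b, g3 z a]⟩
    rintro z (hz | hz)
    · rw [k2 z (hz.trans r0.le), g2 z hz]; rfl
    · exact k3 z hz
  choose l l0 l1 g g1 g2 g3 using ex
  have lr : ∀ a, l a (bs r) = bs r := fun a => by rw [(l1 a).bs rfl, hr]
  have hm : ∀ a b, g (a * b) = g a * g b := by
    intro a b
    refine OrderIso.ext (funext fun z => ?_)
    change _ = g a (g b z)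
    by_cases hz : z ≤ 0 ∨ bs r ≤ z
    · rw [g2 _ z hz, g2 _ z hz, g2 _ z hz]
    push Not at hz
    rw [g3 _ z hz.1.le hz.2.le, g3 _ z hz.1.le hz.2.le, g3]
    · refine ev_ext fun j => ?_
      obtain ⟨i, rfl⟩ := (ψ (a * b)).surjective j
      rw [l1, map_mul]
      change _ = ev _ (ψ a (ψ b i))
      rw [l1, l1, one_mul, one_mul]
    · rw [← (addv B).zero (l0 b)]; exact (l b).monotone hz.1.le
    · rw [← lr b]; exact (l b).monotone hz.2.le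
  have mo : ∀ ω ≤ r, bs ω ≤ bs r := fun ω h =>
    h.eq_or_lt.elim (fun e => e ▸ le_rfl) fun e => ((lead_bs ω).lt' (lead_bs r) e).le
  refine ⟨MonoidHom.mk' g hm, fun a => ⟨g1 a, 0, bs r, g2 a⟩, fun a => g2 a _ (Or.inr le_rfl),
    fun a ω h => ?_, fun a ω h => ?_, fun a ω h x hx => ?_⟩
  · change g a _ = _
    rw [g3 a _ (lead_bs ω).pos.le (mo ω h), (l1 a).bs rfl]
  · change g a _ = _
    rw [g3 a _ (sub_nonneg.2 (mo ω h.le)) (sub_le_self _ (lead_bs ω).pos.le),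
      (addv B).sub (l0 a), lr, (l1 a).bs rfl]
  · change g a _ = _
    by_cases hz : x ≤ 0 ∨ bs r ≤ x
    · exact g2 a x hz
    push Not at hz
    rw [g3 a x hz.1.le hz.2.le]
    rcases hx with hx | hx
    · exact (l1 a).fix1 rfl (lead_bs ω) h x hz.1.le hx
    · have := (l1 a).fix1 rfl (lead_bs ω) h (bs r - x) (sub_nonneg.2 hz.2.le)
        (sub_le_comm.1 hx)
      rw [(addv B).sub (l0 a), lr] at this
      exact sub_right_injective this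

end Pool.Agent.H27.KOrd
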