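import Pool.Agent.H27.ProOrd1

set_option autoImplicit false

namespace Pool.Agent.H27.KOrd

open Set ProOrd

lemma small_real {r C : ℝ} (h : ∀ n : ℕ, 0 < n → |n * r| ≤ C) : r = 0 := by
  by_contra hr
  have hp : 0 < |r| := abs_pos.2 hr
  obtain ⟨n, hn⟩ := exists_nat_gt (C / |r|)
  have := h (n + 1) n.succ_pos
  rw [abs_mul, Nat.abs_cast] at this
  rw [div_lt_iff₀ hp] at hn
  push_cast at this
  nlinarith

variable {A : Type} [Group A]

def pr (l : List A) (x : A) : A := (l.map fun g => g * x * g⁻¹).prod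

lemma pr_cons (g : A) (l : List A) (x : A) : pr (g :: l) x = g * x * g⁻¹ * pr l x := by
  simp [pr]

lemma pr_inS {l : List A} (h : l ≠ []) (x : A) : InS x (pr l x) := by
  induction l with
  | nil => exact absurd rfl h
  | cons g l ih =>
    rw [pr_cons]
    by_cases e : l = []
    · simpa [e, pr] using InS.conj g
    · exact (InS.conj g).mul (ih e)

lemma inS_pr {a b : A} (h : InS a b) : ∃ l, l ≠ [] ∧ b = pr l a := by
  induction h with
  | conj g => exact ⟨[g], by simp, by simp [pr]⟩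
  | mul _ _ h1 h2 =>
    obtain ⟨l, a1, rfl⟩ := h1
    obtain ⟨l', -, rfl⟩ := h2
    exact ⟨l ++ l', by simp [a1], by simp [pr]⟩

lemma pr_conj (k : A) (l : List A) (x : A) : k * pr l x * k⁻¹ = pr (l.map (k * ·)) x := by
  induction l with
  | nil => simp [pr]
  | cons g l ih => rw [List.map_cons, pr_cons, pr_cons, ← ih]; group

lemma pr_ab (l : List A) (x : A) :
    Abelianization.of (pr l x) = Abelianization.of x ^ l.length := by
  induction l with
  | nil => simp [pr]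
  | cons g l ih =>
    rw [pr_cons, map_mul, ih, List.length_cons, pow_succ']
    simp [mul_right_comm]

variable [LinearOrder A] [MulLeftMono A] [MulRightMono A]

lemma conj_le {x y : A} (g : A) (h : x ≤ y) : g * x * g⁻¹ ≤ g * y * g⁻¹ := by gcongr

lemma sand1 {x y : A} (h : x * y ≤ y * x) (n : ℕ) :
    x ^ n * y ^ n ≤ (x * y) ^ n ∧ (x * y) ^ n ≤ y ^ n * x ^ n := by
  have a1 : ∀ n : ℕ, x * (x * y) ^ n ≤ (x * y) ^ n * x := by
    intro n
    induction n with
    | zero => simp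
    | succ n ih =>
      calc x * (x * y) ^ (n + 1) = x * (x * y) ^ n * (x * y) := by rw [pow_succ, mul_assoc]
        _ ≤ (x * y) ^ n * x * (y * x) := mul_le_mul' ih h
        _ = _ := by rw [pow_succ]; simp only [mul_assoc]
  have a2 : ∀ n : ℕ, (x * y) ^ n * y ≤ y * (x * y) ^ n := by
    intro n
    induction n with
    | zero => simp
    | succ n ih =>
      calc (x * y) ^ (n + 1) * y = (x * y) * ((x * y) ^ n * y) := by rw [pow_succ', mul_assoc]
        _ ≤ (y * x) * (y * (x * y) ^ n) := mul_le_mul' h ih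
        _ = _ := by rw [pow_succ']; simp only [mul_assoc]
  induction n with
  | zero => simp
  | succ n ih =>
    constructor
    · calc x ^ (n + 1) * y ^ (n + 1) = x * (x ^ n * y ^ n) * y := by
            rw [pow_succ', pow_succ]; simp only [mul_assoc]
        _ ≤ x * (x * y) ^ n * y := by gcongr; exact ih.1
        _ ≤ (x * y) ^ n * x * y := mul_le_mul' (a1 n) le_rfl
        _ = _ := by rw [pow_succ, mul_assoc]
    · calc (x * y) ^ (n + 1) = (x * y) ^ n * (x * y) := pow_succ _ _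
        _ ≤ (x * y) ^ n * (y * x) := by gcongr
        _ = (x * y) ^ n * y * x := by rw [mul_assoc]
        _ ≤ y * (x * y) ^ n * x := mul_le_mul' (a2 n) le_rfl
        _ ≤ y * (y ^ n * x ^ n) * x := by gcongr; exact ih.2
        _ = _ := by rw [pow_succ', pow_succ]; simp only [mul_assoc]

lemma sand (x y : A) (n : ℕ) : (x ^ n * y ^ n ≤ (x * y) ^ n ∨ y ^ n * x ^ n ≤ (x * y) ^ n) ∧
    ((x * y) ^ n ≤ x ^ n * y ^ n ∨ (x * y) ^ n ≤ y ^ n * x ^ n) := by
  rcases le_total (x * y) (y * x) with h | h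
  · exact ⟨Or.inl (sand1 h n).1, Or.inr (sand1 h n).2⟩
  · refine ⟨Or.inr ((sand1 h n).1.trans (pow_le_pow_left' h n)), Or.inl ?_⟩
    cases n with
    | zero => simp
    | succ n =>
      calc (x * y) ^ (n + 1) = x * (y * x) ^ n * y := by
            rw [← mul_pow_mul, pow_succ, mul_assoc]
        _ ≤ x * (x ^ n * y ^ n) * y := by gcongr; exact (sand1 h n).2
        _ = _ := by rw [pow_succ', pow_succ]; simp only [mul_assoc]

def Cs (a x : A) : Prop := ∃ K : ℕ, x ≤ a ^ K ∧ x⁻¹ ≤ a ^ K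

noncomputable def ph (a x : A) : ℝ :=
  sSup {r | ∃ (p : ℤ) (q : ℕ), 0 < q ∧ a ^ p ≤ x ^ q ∧ r = p / q}

variable {a : A} (ha : 1 < a)
include ha

lemma zp_mono : StrictMono fun n : ℤ => a ^ n :=
  strictMono_int_of_lt_succ fun n => by
    simp only [zpow_add_one]; exact lt_mul_of_one_lt_right' _ ha

lemma Cs.self : Cs a a := ⟨1, by simp, by simpa using (inv_lt_one'.2 ha).le.trans ha.le⟩

omit ha in
lemma Cs.one : Cs a 1 := ⟨0, by simp, by simp⟩

omit ha [MulLeftMono A] [MulRightMono A] in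
lemma Cs.inv {x : A} (h : Cs a x) : Cs a x⁻¹ := by
  obtain ⟨K, h1, h2⟩ := h
  exact ⟨K, h2, by simpa using h1⟩

omit ha in
lemma Cs.mul {x y : A} (h : Cs a x) (h' : Cs a y) : Cs a (x * y) := by
  obtain ⟨K, h1, h2⟩ := h
  obtain ⟨K', h3, h4⟩ := h'
  exact ⟨K + K', by rw [pow_add]; exact mul_le_mul' h1 h3,
    by rw [mul_inv_rev, add_comm, pow_add]; exact mul_le_mul' h4 h2⟩

omit ha in
lemma Cs.pow {x : A} (h : Cs a x) (n : ℕ) : Cs a (x ^ n) := by
  induction n with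
  | zero => simpa using Cs.one
  | succ n ih => rw [pow_succ]; exact ih.mul h

omit ha in
lemma Cs.conj {x g : A} (h : Cs a x) (hg : g * a * g⁻¹ ≤ a) : Cs a (g * x * g⁻¹) := by
  obtain ⟨K, h1, h2⟩ := h
  have : g * a ^ K * g⁻¹ ≤ a ^ K := by rw [← conj_pow]; exact pow_le_pow_left' hg K
  exact ⟨K, (conj_le g h1).trans this, by rw [conj_inv]; exact (conj_le g h2).trans this⟩

lemma Cs.floor {x : A} (h : Cs a x) : ∃ p : ℤ, a ^ p ≤ x ∧ x ≤ a ^ (p + 1) := by
  obtain ⟨K, h1, h2⟩ := h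
  obtain ⟨p, p1, p2⟩ := Int.exists_greatest_of_bdd (P := fun p => a ^ p ≤ x)
    ⟨K, fun z hz => (zp_mono ha).le_iff_le.1 (by simpa using hz.trans h1)⟩
    ⟨-K, by simpa using inv_le'.1 h2⟩
  exact ⟨p, p1, le_of_not_ge fun e => by have := p2 _ e; omega⟩

lemma cross {x : A} {p p' : ℤ} {q q' : ℕ} (hq : 0 < q) (hq' : 0 < q') (h : a ^ p' ≤ x ^ q')
    (h' : x ^ q ≤ a ^ p) : (p' : ℝ) / q' ≤ p / q := by
  have h1 := pow_le_pow_left' h q
  have h2 := pow_le_pow_left' h' q'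
  rw [← pow_mul, mul_comm, pow_mul] at h1
  have := h1.trans h2
  rw [← zpow_natCast, ← zpow_natCast, ← zpow_mul, ← zpow_mul] at this
  have h3 := (zp_mono ha).le_iff_le.1 this
  rw [div_le_div_iff₀ (by exact_mod_cast hq') (by exact_mod_cast hq)]
  exact_mod_cast h3

lemma ph_ge {x : A} (hx : Cs a x) {p : ℤ} {q : ℕ} (hq : 0 < q) (h : a ^ p ≤ x ^ q) :
    (p : ℝ) ≤ q * ph a x := by
  obtain ⟨K, h1, -⟩ := hx
  rw [← div_le_iff₀' (by exact_mod_cast hq)]
  refine le_csSup ⟨((K : ℤ) : ℝ) / (1 : ℕ), ?_⟩ ⟨p, q, hq, h, rfl⟩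
  rintro _ ⟨p', q', a1, a2, rfl⟩
  exact cross ha one_pos a1 a2 (by simpa using h1)

lemma ph_le {x : A} (hx : Cs a x) {p : ℤ} {q : ℕ} (hq : 0 < q) (h : x ^ q ≤ a ^ p) :
    q * ph a x ≤ p := by
  obtain ⟨K, -, h1⟩ := hx
  rw [← le_div_iff₀' (by exact_mod_cast hq)]
  refine csSup_le ⟨_, -K, 1, one_pos, by simpa using inv_le'.1 h1, rfl⟩ ?_
  rintro _ ⟨p', q', a1, a2, rfl⟩
  exact cross ha hq a1 a2 h

lemma ph_mul {x y : A} (hx : Cs a x) (hy : Cs a y) : ph a (x * y) = ph a x + ph a y := by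
  rw [← sub_eq_zero]
  refine small_real (C := 2) fun n hn => ?_
  obtain ⟨p, p1, p2⟩ := (hx.pow n).floor ha
  obtain ⟨p', p3, p4⟩ := (hy.pow n).floor ha
  have a1 := ph_ge ha hx hn p1
  have a2 := ph_le ha hx hn p2
  have a3 := ph_ge ha hy hn p3
  have a4 := ph_le ha hy hn p4
  have a5 := ph_ge ha (hx.mul hy) hn (p := p + p') ((sand x y n).1.elim
    (fun e => le_trans (by rw [zpow_add]; exact mul_le_mul' p1 p3) e)
    fun e => le_trans (by rw [add_comm, zpow_add]; exact mul_le_mul' p3 p1) e)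
  have a6 := ph_le ha (hx.mul hy) hn (p := p + 1 + (p' + 1)) ((sand x y n).2.elim
    (fun e => e.trans (by rw [zpow_add]; exact mul_le_mul' p2 p4))
    fun e => e.trans (by rw [add_comm, zpow_add]; exact mul_le_mul' p4 p2))
  push_cast at *
  rw [abs_le]
  constructor <;> linarith

lemma ph_one : ph a 1 = 0 := by
  have := ph_mul ha (x := 1) (y := 1) Cs.one Cs.one
  simpa using this

lemma ph_inv {x : A} (hx : Cs a x) : ph a x⁻¹ = -ph a x := by
  have := ph_mul ha hx hx.inv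
  rw [mul_inv_cancel, ph_one ha] at this
  linarith

lemma ph_zpow {x : A} (hx : Cs a x) (n : ℤ) : Cs a (x ^ n) ∧ ph a (x ^ n) = n * ph a x := by
  induction n using Int.induction_on with
  | zero => simpa using ⟨Cs.one, ph_one ha⟩
  | succ n ih =>
    rw [zpow_add_one]
    exact ⟨ih.1.mul hx, by rw [ph_mul ha ih.1 hx, ih.2]; push_cast; ring⟩
  | pred n ih =>
    rw [zpow_sub_one]
    exact ⟨ih.1.mul hx.inv, by rw [ph_mul ha ih.1 hx.inv, ih.2, ph_inv ha hx]; push_cast; ring⟩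

lemma ph_mono {x y : A} (hx : Cs a x) (hy : Cs a y) (h : x ≤ y) : ph a x ≤ ph a y := by
  have := ph_ge ha (hx.inv.mul hy) (p := 0) one_pos (by simpa using h)
  rw [ph_mul ha hx.inv hy, ph_inv ha hx] at this
  push_cast at this
  linarith

lemma ph_self : ph a a = 1 := by
  have a1 := ph_ge ha (Cs.self ha) (p := 1) one_pos (by simp)
  have a2 := ph_le ha (Cs.self ha) (p := 1) one_pos (by simp)
  push_cast at *
  linarith

lemma lam_nonneg {g : A} (hg : g * a * g⁻¹ ≤ a) : 0 ≤ ph a (g * a * g⁻¹) := by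
  have := ph_mono ha Cs.one ((Cs.self ha).conj hg) (by simpa using conj_le g ha.le)
  rwa [ph_one ha] at this

lemma ph_conj {x g : A} (hx : Cs a x) (hg : g * a * g⁻¹ ≤ a) :
    ph a (g * x * g⁻¹) = ph a (g * a * g⁻¹) * ph a x := by
  rw [← sub_eq_zero]
  refine small_real (C := ph a (g * a * g⁻¹)) fun n hn => ?_
  obtain ⟨p, p1, p2⟩ := (hx.pow n).floor ha
  have s := lam_nonneg ha hg
  have c := (Cs.self ha).conj hg
  have a1 := mul_le_mul_of_nonneg_left (ph_ge ha hx hn p1) s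
  have a2 := mul_le_mul_of_nonneg_left (ph_le ha hx hn p2) s
  have b := ph_zpow ha (hx.conj hg) n
  have a3 := ph_mono ha (ph_zpow ha c p).1 b.1
    (by rw [conj_zpow, conj_zpow]; exact conj_le g (by simpa using p1))
  have a4 := ph_mono ha b.1 (ph_zpow ha c (p + 1)).1
    (by rw [conj_zpow, conj_zpow]; exact conj_le g (by simpa using p2))
  rw [b.2, (ph_zpow ha c _).2] at a3 a4
  push_cast at *
  rw [abs_le]
  constructor <;> nlinarith

lemma ph_pr {x : A} (hx : Cs a x) {l : List A} (hl : ∀ g ∈ l, g * a * g⁻¹ ≤ a) :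
    Cs a (pr l x) ∧ ph a (pr l x) = (l.map fun g => ph a (g * a * g⁻¹)).sum * ph a x := by
  induction l with
  | nil => simpa [pr] using ⟨Cs.one, ph_one ha⟩
  | cons g l ih =>
    obtain ⟨h1, h2⟩ := ih fun k hk => hl k (List.mem_cons_of_mem _ hk)
    have h3 := hl g List.mem_cons_self
    rw [pr_cons]
    refine ⟨(hx.conj h3).mul h1, ?_⟩
    rw [ph_mul ha (hx.conj h3) h1, h2, ph_conj ha hx h3, List.map_cons, List.sum_cons, add_mul]

lemma normal_form {b : A} (h : InS a b) : ∃ l : List A, l ≠ [] ∧ InS b (pr l a) ∧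
    (∀ g ∈ l, g * a * g⁻¹ ≤ a) ∧ 1 ≤ (l.map fun g => ph a (g * a * g⁻¹)).sum := by
  classical
  obtain ⟨l, h1, rfl⟩ := inS_pr h
  obtain ⟨g, g1, g2⟩ := Finset.exists_max_image l.toFinset (fun g => g * a * g⁻¹)
    (by simpa using h1)
  have k : ∀ g' ∈ l.map (g⁻¹ * ·), g' * a * g'⁻¹ ≤ a := by
    intro g' hg'
    obtain ⟨k, hk, rfl⟩ := List.mem_map.1 hg'
    have := conj_le g⁻¹ (g2 k (by simpa using hk))
    convert this using 1 <;> group
  refine ⟨l.map (g⁻¹ * ·), by simpa using h1, by rw [← pr_conj]; exact InS.conj _, k, ?_⟩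
  refine List.single_le_sum (fun r hr => ?_) _ (List.mem_map.2 ⟨1, ?_, by simpa using ph_self ha⟩)
  · obtain ⟨g', hg', rfl⟩ := List.mem_map.1 hr
    exact lam_nonneg ha (k g' hg')
  · exact List.mem_map.2 ⟨g, by simpa using g1, by simp⟩

theorem holder {b c : A} (hb : InS a b) (hc : InS a c) : ∃ e e', InS b e ∧ InS c e' ∧
    e⁻¹ * e' ∈ commutator A ∧ ∀ n : ℤ, (e⁻¹ * e') ^ n < e := by
  obtain ⟨l, l1, l2, l3, l4⟩ := normal_form ha hb
  obtain ⟨m, m1, m2, m3, m4⟩ := normal_form ha hc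
  obtain ⟨a1, a2⟩ := ph_pr ha (Cs.self ha) l3
  obtain ⟨a3, a4⟩ := ph_pr ha (Cs.self ha) m3
  obtain ⟨b1, b2⟩ := ph_pr ha a1 m3
  obtain ⟨b3, b4⟩ := ph_pr ha a3 l3
  rw [a2, ph_self ha] at b2
  rw [a4, ph_self ha] at b4
  refine ⟨_, _, l2.trans (pr_inS m1 _), m2.trans (pr_inS l1 _), ?_, fun n => ?_⟩
  · rw [← Abelianization.ker_of, MonoidHom.mem_ker, map_mul, map_inv, pr_ab, pr_ab, pr_ab, pr_ab,
      ← pow_mul, ← pow_mul, mul_comm l.length, inv_mul_cancel]
  · refine not_le.1 fun e => ?_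
    obtain ⟨c1, c2⟩ := ph_zpow ha (b1.inv.mul b3) n
    have := ph_mono ha b1 c1 e
    rw [c2, ph_mul ha b1.inv b3, ph_inv ha b1, b2, b4] at this
    nlinarith

end Pool.Agent.H27.KOrd
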