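import Pool.Agent.H27.KOrd2
import Pool.Agent.H27.KOrd3

set_option autoImplicit false

namespace Pool.Agent.H27.KOrd

open Set ProOrd NOrd

section

variable {G : Type} [Group G] {Ω : Type} [LinearOrder Ω] {act : G → Ω → Ω} (h : Rich act)
include h

lemma stage2 {β γ : G} (hc : β⁻¹ * γ ∈ commutator G) {r1 r2 r3 : Ω} (r12 : r1 < r2)
    (r23 : r2 < r3) (e : ∀ s ≤ r3, act β s = act γ s) (e1 : act β r1 = r2)
    {x1 x2 x3 x4 : Ω} (h12 : x1 < x2) (h23 : x2 < x3) (h34 : x3 < x4) :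
    ∃ b1 c1, InS β b1 ∧ InS γ c1 ∧ (∀ t ≤ x3, act b1 t = act c1 t) ∧
      (∀ t, x4 ≤ t → act b1 t = t ∧ act c1 t = t) ∧ act b1 x1 = x2 ∧
      b1⁻¹ * c1 ∈ commutator G := by
  obtain ⟨l, r, -, s1, s2⟩ := h.exists_supp2 β γ
  obtain ⟨r4, a1, a2⟩ := h.up2 r r3
  obtain ⟨g, g1, g2, g3, g4⟩ := h.T4 r12 h12 r23 h23 a2 h34
  refine ⟨g * β * g⁻¹, g * γ * g⁻¹, InS.conj g, InS.conj g, fun t ht => ?_, fun t ht => ?_,
    ?_, ?_⟩
  · simp only [h.mul]
    rw [e _ (by rw [← h.le_iff g, h.act_inv, g3]; exact ht)]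
  · have h1 : r4 ≤ act g⁻¹ t := by rw [← h.le_iff g, h.act_inv, g4]; exact ht
    simp only [h.mul]
    rw [s1 _ (fun hn => absurd hn.2 (by order)), s2 _ (fun hn => absurd hn.2 (by order)),
      h.act_inv]
    exact ⟨rfl, rfl⟩
  · rw [h.mul, h.mul, ← g1, h.inv_act, e1, g2]
  · have := (Subgroup.commutator_normal ⊤ ⊤).conj_mem _ hc g
    rwa [show g * (β⁻¹ * γ) * g⁻¹ = (g * β * g⁻¹)⁻¹ * (g * γ * g⁻¹) by group] at this

lemma meet2 {b c : G} (hc : b⁻¹ * c ∈ commutator G) (e1 : Up act b c)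
    (e2 : Up (Ω := Ωᵒᵈ) act b c) : ∃ d, InS b d ∧ InS c d := by
  obtain ⟨t0, t, q1, q2, q3⟩ := e1
  obtain ⟨t1, o1⟩ := h.up t0
  obtain ⟨t2, o2⟩ := h.up t1
  obtain ⟨t3, o3⟩ := h.up t2
  obtain ⟨tm, o4⟩ := h.up t3
  obtain ⟨t4, o5⟩ := h.up tm
  obtain ⟨t5, o6⟩ := h.up t4
  obtain ⟨t6, o7⟩ := h.up t5
  obtain ⟨b1, c1, i1, j1, l1, l2, l3, k1⟩ := stage2 h hc q1 q2 q3 rfl (x1 := t0) (x2 := t3)
    (x3 := t4) (x4 := t5) (by order) (by order) (by order)
  have s1 : b1⁻¹ * c1 ∈ h.Supp (Ioo t4 t5) := by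
    intro t ht
    rw [mem_Ioo, not_and_or, not_lt, not_lt] at ht
    rcases ht with ht | ht
    · rw [h.mul, ← l1 t ht, h.inv_act]
    · rw [h.mul, (l2 t ht).2, h.inv_fix (l2 t ht).1]
  obtain ⟨r, t', p1, p2, p3⟩ := e2
  obtain ⟨b2, c2, i2, j2, m1, m2, l4, k2⟩ := stage2 h.dual hc p1 p2 p3 rfl (x1 := t6) (x2 := tm)
    (x3 := t2) (x4 := t1) (show tm < t6 by order) (show t2 < tm by order) o2
  have m1' : ∀ t : Ω, t2 ≤ t → act b2 t = act c2 t := m1
  have m2' : ∀ t : Ω, t ≤ t1 → act b2 t = t ∧ act c2 t = t := m2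
  have l4 : act b2 t6 = tm := l4
  have s2 : c2 * b2⁻¹ ∈ h.Supp (Ioo t1 (act b2 t2)) := by
    intro t ht
    rw [mem_Ioo, not_and_or, not_lt, not_lt] at ht
    rcases ht with ht | ht
    · rw [h.mul, h.inv_fix (m2' t ht).1, (m2' t ht).2]
    · have h1 : t2 ≤ act b2⁻¹ t := by rw [← h.le_iff b2, h.act_inv]; exact ht
      rw [h.mul, ← m1' _ h1, h.act_inv]
  have m3 : t1 < act b2 t2 := by rw [← (m2' t1 le_rfl).1]; exact h.mono b2 o2
  have k3 : c2 * b2⁻¹ ∈ commutator G := by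
    have := (Subgroup.commutator_normal ⊤ ⊤).conj_mem _ k2 b2
    rwa [show b2 * (b2⁻¹ * c2) * b2⁻¹ = c2 * b2⁻¹ by group] at this
  have e0 : act (b2 * b1) t0 = act b2 t3 := by rw [h.mul, l3]
  have e6 : act (b2 * b1) t6 = tm := by rw [h.mul, (l2 t6 o7.le).1, l4]
  have y1 : act b2 t3 < tm := by rw [← l4]; exact h.mono _ (by order)
  have y2 : act b2 t2 < act b2 t3 := h.mono _ o3
  have hm : ∀ t, t0 < t → t < t6 → act (b2 * b1) t ∈ Ioo (act b2 t3) tm := by
    intro t a0 a6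
    constructor
    · rw [← e0]; exact h.mono _ a0
    · rw [← e6]; exact h.mono _ a6
  let U := Ioo t0 (act b2 t3) ∪ Ioo tm t6
  have n1 := Subgroup.commutator_mono (h.Supp_mono (V := U) subset_union_right)
    (h.Supp_mono (V := U) subset_union_right) (h.squeeze k1 s1 o5 o6 o7)
  have n2 := Subgroup.commutator_mono (h.Supp_mono (V := U) subset_union_left)
    (h.Supp_mono (V := U) subset_union_left) (h.squeeze k3 s2 o1 m3 y2)
  have hp : ∀ n : ℕ, ∀ t ∈ U, act ((b2 * b1) ^ (n + 1)) t ∈ Ioo (act b2 t3) tm := by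
    intro n
    induction n with
    | zero =>
      rintro t (⟨a, b⟩ | ⟨a, b⟩)
      · simpa using hm t a (by order)
      · simpa using hm t (by order) b
    | succ n ih =>
      intro t ht
      obtain ⟨a, b⟩ := ih t ht
      rw [pow_succ', h.mul]
      exact hm _ (by order) (by order)
  obtain ⟨d, d1, d2⟩ := wander (e := b2 * b1) (H := h.Supp U)
    (fun n x hx y hy => h.commute hx (h.conj_supp hy _ (hp n)) fun t ht hn =>
      ht.elim (fun a => lt_asymm a.2 hn.1) fun a => lt_asymm a.1 hn.2) (Subgroup.mul_mem _ n1 n2)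
  refine ⟨d, (i2.mul i1).trans d1, InS.trans ?_ d2⟩
  have := (j2.mul j1).conj_mem (b1⁻¹ * c1)
  rwa [show b1⁻¹ * c1 * (c2 * c1) * (b1⁻¹ * c1)⁻¹ = b1⁻¹ * c1 * (c2 * b2⁻¹) * (b2 * b1) by group]
    at this

end

section

variable {A : Type} [Group A] [LinearOrder A]

variable (A) in
@[ext] structure Cz where
  L : LowerSet A
  M : LowerSet A
  one : L = ⊥ ∨ 1 ∈ L
  mul : ∀ x ∈ L, ∀ y ∈ L, x * y ∈ L
  cos : ∃ g, ∀ z, z ∈ M ↔ z * g⁻¹ ∈ L

noncomputable instance : LinearOrder (Cz A) :=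
  LinearOrder.lift' (fun w => toLex (OrderDual.toDual w.L, w.M)) fun _ _ h =>
    Cz.ext (congrArg (fun p : (LowerSet A)ᵒᵈ ×ₗ LowerSet A => OrderDual.ofDual (ofLex p).1) h)
      (congrArg (fun p : (LowerSet A)ᵒᵈ ×ₗ LowerSet A => (ofLex p).2) h)

omit [Group A] in
lemma ls_lt {L M : LowerSet A} : L < M ↔ L ≤ M ∧ ∃ z ∈ M, z ∉ L := by
  rw [lt_iff_le_not_ge]
  exact and_congr_right fun _ => Set.not_subset

lemma cz_lt {w w' : Cz A} : w < w' ↔ w'.L < w.L ∨ w.L = w'.L ∧ w.M < w'.M :=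
  Prod.Lex.toLex_lt_toLex

lemma cz_le {w w' : Cz A} (h : w ≤ w') : w'.L ≤ w.L := by
  rcases h.eq_or_lt with rfl | h
  · exact le_rfl
  · exact (cz_lt.1 h).elim le_of_lt fun e => e.1.ge

def tpz : Cz A := ⟨⊥, ⊥, Or.inl rfl, fun _ h => absurd h (by simp), 1, by simp⟩

lemma lt_tpz {w : Cz A} (h : 1 ∈ w.L) : w < tpz :=
  cz_lt.2 (Or.inl (bot_lt_iff_ne_bot.2 fun e => by simp [e] at h))

variable [MulLeftMono A] [MulRightMono A]

def cL (a : A) (L : LowerSet A) : LowerSet A :=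
  ⟨{z | a⁻¹ * z * a ∈ L}, fun _ _ h hx => L.lower (by gcongr) hx⟩

def mL (a : A) (L : LowerSet A) : LowerSet A :=
  ⟨{z | a⁻¹ * z ∈ L}, fun _ _ h hx => L.lower (by gcongr) hx⟩

@[simp] lemma mem_cL {a z : A} {L : LowerSet A} : z ∈ cL a L ↔ a⁻¹ * z * a ∈ L := Iff.rfl

@[simp] lemma mem_mL {a z : A} {L : LowerSet A} : z ∈ mL a L ↔ a⁻¹ * z ∈ L := Iff.rfl

def az (a : A) (w : Cz A) : Cz A where
  L := cL a w.L
  M := mL a w.M
  one := w.one.imp (fun h => SetLike.ext fun z => by simp [h]) fun h => by simpa using h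
  mul x hx y hy := by simpa [mul_assoc] using w.mul _ hx _ hy
  cos := by
    obtain ⟨g, hg⟩ := w.cos
    exact ⟨a * g, fun z => by simp [hg, mul_assoc]⟩

lemma az_mul (a b : A) (w : Cz A) : az (a * b) w = az a (az b w) :=
  Cz.ext (SetLike.ext fun z => by simp [az, mul_assoc]) (SetLike.ext fun z => by simp [az, mul_assoc])

lemma az_one (w : Cz A) : az 1 w = w :=
  Cz.ext (SetLike.ext fun z => by simp [az]) (SetLike.ext fun z => by simp [az])

lemma az_mono (a : A) : StrictMono (az a) := by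
  intro w w' h
  rcases cz_lt.1 h with e | ⟨e, e'⟩
  · obtain ⟨z, z1, z2⟩ := (ls_lt.1 e).2
    exact cz_lt.2 (Or.inl (ls_lt.2 ⟨fun _ hx => e.le hx, a * z * a⁻¹,
      by simpa [az, mul_assoc] using z1, by simpa [az, mul_assoc] using z2⟩))
  · obtain ⟨z, z1, z2⟩ := (ls_lt.1 e').2
    exact cz_lt.2 (Or.inr ⟨congrArg (cL a) e, ls_lt.2
      ⟨fun _ hx => e'.le hx, a * z, by simpa [az] using z1, by simpa [az] using z2⟩⟩)

noncomputable def psi : A →* Cz A ≃o Cz A :=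
  MonoidHom.mk' (fun a => (az_mono a).orderIsoOfRightInverse _ (az a⁻¹) fun w => by
    rw [← az_mul, mul_inv_cancel, az_one]) fun a b => OrderIso.ext (funext (az_mul a b))

lemma psi_apply (a : A) (w : Cz A) : psi a w = az a w := rfl

lemma az_fix {u : A} {w : Cz A} (h1 : u ∈ w.L) (h2 : u⁻¹ ∈ w.L) : az u w = w := by
  obtain ⟨g, hg⟩ := w.cos
  refine Cz.ext (SetLike.ext fun z => ⟨fun h => ?_, fun h => w.mul _ (w.mul _ h2 _ h) _ h1⟩)
    (SetLike.ext fun z => ?_)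
  · simpa [mul_assoc] using w.mul _ (w.mul _ h1 _ h) _ h2
  · change u⁻¹ * z ∈ w.M ↔ _
    rw [hg, hg]
    exact ⟨fun h => by simpa [mul_assoc] using w.mul _ h1 _ h,
      fun h => by simpa [mul_assoc] using w.mul _ h2 _ h⟩

lemma az_tpz (a : A) : az a tpz = tpz :=
  Cz.ext (SetLike.ext fun z => by simp [az, tpz]) (SetLike.ext fun z => by simp [az, tpz])

def Le (e : A) : LowerSet A :=
  ⟨{z | ∀ n : ℕ, z ^ (n + 1) < e}, fun _ _ h hx n => (pow_le_pow_left' h _).trans_lt (hx n)⟩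

def wz {e : A} (he : 1 < e) : Cz A where
  L := Le e
  M := Le e
  one := Or.inr fun n => by simpa using he
  mul x hx y hy n := by
    have : ∀ z ∈ Le e, x ≤ z → y ≤ z → (x * y) ^ (n + 1) < e := fun z hz a b =>
      (pow_le_pow_left' (mul_le_mul' a b) _).trans_lt (by
        rw [← sq, ← pow_mul]; exact hz (2 * n + 1))
    exact (le_total x y).elim (fun h => this y hy h le_rfl) fun h => this x hx le_rfl h
  cos := ⟨1, by simp⟩

lemma cL_Le (e : A) : cL e (Le e) = Le e := by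
  refine SetLike.ext fun z => forall_congr' fun n => ?_
  have := conj_pow (a := e⁻¹) (b := z) (i := n + 1)
  rw [inv_inv] at this
  rw [this, mul_assoc, inv_mul_lt_iff_lt_mul, mul_lt_mul_iff_right]

lemma az_up {e : A} (he : 1 < e) {w : Cz A} (h : w.L = Le e) : w < az e w := by
  obtain ⟨g, hg⟩ := w.cos
  refine cz_lt.2 (Or.inr ⟨by change _ = cL e w.L; rw [h, cL_Le], ls_lt.2
    ⟨fun z hz => w.M.lower (by simpa using he.le) hz, e * g, ?_, ?_⟩⟩)
  · change e⁻¹ * (e * g) ∈ w.M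
    rw [hg, h]
    exact fun n => by simpa using he
  · rw [hg, h]
    exact fun hn => absurd (hn 0) (by simp)

lemma below {e : A} (he : 1 < e) {y : Cz A} (h : y ≤ wz he) :
    y.L = Le e ∨ ∀ z ≤ y, e ∈ z.L ∧ e⁻¹ ∈ z.L := by
  rcases (cz_le h).eq_or_lt with a | a
  · exact Or.inl a.symm
  right
  obtain ⟨x, x1, x2⟩ := (ls_lt.1 a).2
  have : ∃ n : ℕ, e ≤ x ^ (n + 1) := by
    by_contra hn
    push Not at hn
    exact x2 hn
  obtain ⟨n, hn⟩ := this
  have hp : ∀ n : ℕ, x ^ (n + 1) ∈ y.L := by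
    intro n
    induction n with
    | zero => simpa using x1
    | succ n ih => rw [pow_succ]; exact y.mul _ ih _ x1
  have := y.L.lower hn (hp n)
  exact fun z hz => ⟨cz_le hz this,
    cz_le hz (y.L.lower ((inv_lt_one'.2 he).trans he).le this)⟩

lemma fb_psi (a : A) : FB (psi a) := by
  rcases lt_trichotomy a 1 with h | rfl | h
  · have he := one_lt_inv'.2 h
    have k : ∀ y : Cz A, y.L = Le a⁻¹ → az a y < y := fun y hy => by
      have := az_mono a (az_up he hy)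
      rwa [← az_mul, mul_inv_cancel, az_one] at this
    exact Or.inr (Or.inr ⟨wz he, k _ rfl, fun y hy => (below he hy).imp (k y)
      fun b z hz => az_fix (by simpa using (b z hz).2) (b z hz).1⟩)
  · exact Or.inl az_one
  · exact Or.inr (Or.inl ⟨wz h, az_up h rfl, fun y hy => (below h hy).imp (az_up h)
      fun b z hz => az_fix (b z hz).1 (b z hz).2⟩)

lemma bs_mono {Ω : Type} [LinearOrder Ω] : StrictMono (bs (Ω := Ω)) :=
  fun a b h => (lead_bs a).lt' (lead_bs b) h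

theorem step1 : ∃ (H : Type) (_ : Group H) (f : A →* H), Ord H ∧ Function.Injective f ∧
    ∀ a b c : A, a ≠ 1 → InS a b → InS a c → ∃ d, InS (f b) d ∧ InS (f c) d := by
  have fb0 : ∀ β ∈ (psi (A := A)).range, FB (β : Cz A ≃o Cz A) := by
    rintro _ ⟨a, rfl⟩; exact fb_psi a
  obtain ⟨χ, a1, a2, a3, -, a5⟩ := lift_hom (B := (psi (A := A)).range) psi (fun a => ⟨a, rfl⟩) az_tpz
  have fb1 : ∀ β ∈ PL (addv (psi (A := A)).range), FB (β : _ ≃o _) :=
    fun β h => fb_pl _ (half_fb fb0) h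
  obtain ⟨ρ, b1, -, b3, b4, b5⟩ := lift_hom χ (fun a => (a1 a).1) a2
  haveI : Nonempty (VV (Cz A)) := ⟨0⟩
  have R := rich_vv (trans_pl (psi (A := A)).range)
  have mv : ∀ (a : A) (w : Cz A), 1 ∈ w.L → ρ a (bs (bs w)) = bs (bs (az a w)) ∧
      ρ a (bs (bs tpz) - bs (bs w)) = bs (bs tpz) - bs (bs (az a w)) := fun a w h =>
    ⟨by rw [b3 _ _ (bs_mono (lt_tpz h)).le, a3 _ _ (lt_tpz h).le]; rfl,
     by rw [b4 _ _ (bs_mono (lt_tpz h)), a3 _ _ (lt_tpz h).le]; rfl⟩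
  let f := ρ.codRestrict _ b1
  have ins : ∀ {x y : A}, InS x y → InS (f x) (f y) := by
    intro x y h
    induction h with
    | conj g => simpa using InS.conj (a := f x) (f g)
    | mul _ _ h1 h2 => rw [map_mul]; exact h1.mul h2
  have main : ∀ a b c : A, 1 < a → InS a b → InS a c → ∃ d, InS (f b) d ∧ InS (f c) d := by
    intro a b c ha hb hc
    obtain ⟨e, e', h1, h2, h3, h4⟩ := holder ha hb hc
    have he : 1 < e := by simpa using h4 0
    have l1 : (az e (wz he)).L = Le e := cL_Le e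
    have l2 : (az e (az e (wz he))).L = Le e := (congrArg (cL e) l1).trans (cL_Le e)
    have u1 := bs_mono (bs_mono (az_up he (w := wz he) rfl))
    have u2 := bs_mono (bs_mono (az_up he l1))
    have o1 : (1 : A) ∈ (wz he).L := fun n => by simpa using he
    have fx : ∀ x, x ≤ bs (bs (az e (az e (wz he)))) ∨
        bs (bs tpz) - bs (bs (az e (az e (wz he)))) ≤ x → ρ e x = ρ e' x := by
      intro x hx
      have := b5 (e⁻¹ * e') _ (fun z hz => a5 _ _ (fun w hw => az_fix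
        (cz_le hw (l2 ▸ fun n => by rw [← zpow_natCast]; exact h4 _))
        (cz_le hw (l2 ▸ fun n => by
          rw [inv_pow, ← zpow_natCast, ← zpow_neg]; exact h4 _))) z (Or.inl hz)) x hx
      conv_lhs => rw [← this]
      change (ρ e * ρ (e⁻¹ * e')) x = _
      rw [← map_mul, mul_inv_cancel_left]
    obtain ⟨d, d1, d2⟩ := meet2 R (b := f e) (c := f e') (by
      rw [← map_inv, ← map_mul]
      have := Subgroup.mem_map_of_mem f h3
      rw [map_commutator_eq] at this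
      exact Subgroup.commutator_mono le_top le_top this)
      ⟨bs (bs (wz he)), _, by
        change _ < ρ e _
        rw [(mv e _ o1).1]; exact u1, by
        change ρ e _ < _
        rw [(mv e _ o1).1]; exact u2, fun s hs => fx s (Or.inl hs)⟩
      ⟨(bs (bs tpz) - bs (bs (wz he)) : VV _), (bs (bs tpz) - bs (bs (az e (az e (wz he)))) : VV _), by
        change ρ e _ < (_ : VV _)
        rw [(mv e _ o1).2]; exact sub_lt_sub_left u1 _, by
        change (_ : VV _) < ρ e _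
        rw [(mv e _ o1).2]; exact sub_lt_sub_left u2 _, fun s hs => fx s (Or.inr hs)⟩
    exact ⟨d, (ins h1).trans d1, (ins h2).trans d2⟩
  have inj : ∀ a : A, 1 < a → f a ≠ 1 := by
    intro a ha e
    have o1 : (1 : A) ∈ (wz ha).L := fun n => by simpa using ha
    have := (mv a _ o1).1
    rw [show ρ a = 1 from congrArg Subtype.val e] at this
    exact (bs_mono (bs_mono (az_up ha (w := wz ha) rfl))).ne this
  refine ⟨_, inferInstance, f, ord_of_fb _ fun g h => fb_pl _ (half_fb fb1) h.1,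
    (injective_iff_map_eq_one f).2 fun a e => ?_, fun a b c ha hb hc => ?_⟩
  · rcases lt_trichotomy a 1 with h | h | h
    · exact absurd (by rw [map_inv, e, inv_one]) (inj _ (one_lt_inv'.2 h))
    · exact h
    · exact absurd e (inj _ h)
  · rcases lt_or_gt_of_ne ha with h | h
    · obtain ⟨d, d1, d2⟩ := main _ _ _ (one_lt_inv'.2 h) hb.inv hc.inv
      exact ⟨d⁻¹, by simpa using d1.inv, by simpa using d2.inv⟩
    · exact main a b c h hb hc

end

end Pool.Agent.H27.KOrd
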