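import Pool.Agent.H27.KOrd4

set_option autoImplicit false

namespace Pool.Agent.H27.KOrd

open Set ProOrd

lemma ins_map {G H : Type} [Group G] [Group H] (f : G →* H) {x y : G} (h : InS x y) :
    InS (f x) (f y) := by
  induction h with
  | conj g => simpa using InS.conj (a := f x) (f g)
  | mul _ _ h1 h2 => rw [map_mul]; exact h1.mul h2

lemma Ord.h1 {G : Type} [Group G] (h : Ord G) (a : G) (e : InS a 1) : a = 1 := by
  obtain ⟨P, hP, ht⟩ := h
  have key : ∀ a ∈ P, InS a 1 → a = 1 := by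
    intro a ha e
    obtain ⟨l, h1, h2⟩ := inS_pr e
    obtain ⟨g, l, rfl⟩ := List.exists_cons_of_ne_nil h1
    rw [pr_cons] at h2
    have h3 : pr l a ∈ P := by
      by_cases c : l = []
      · simpa [c, pr] using hP.one
      · exact hP.inS ha (pr_inS c a)
    have := hP.pure _ (hP.conj _ ha g) (by rwa [← eq_inv_of_mul_eq_one_right h2.symm])
    simpa using this
  rcases ht a with h | h
  · exact key a h e
  · exact inv_eq_one.1 (key _ h (by simpa using e.inv))

theorem step2 (A : Type) [Group A] (h : Ord A) :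
    ∃ (H : Type) (_ : Group H) (f : A →* H), Ord H ∧ Function.Injective f ∧
    ∀ a b c : A, a ≠ 1 → InS a b → InS a c → ∃ d, InS (f b) d ∧ InS (f c) d := by
  classical
  obtain ⟨P, hP, ht⟩ := h
  letI : LinearOrder A :=
    { le := fun a b => a⁻¹ * b ∈ P
      le_refl := fun a => by simpa using hP.one
      le_trans := fun a b c h1 h2 => by simpa [mul_assoc] using hP.mul _ h1 _ h2
      le_antisymm := fun a b h1 h2 => inv_mul_eq_one.1 (hP.pure _ h1 (by simpa using h2))
      le_total := fun a b => by simpa using ht (a⁻¹ * b)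
      toDecidableLE := inferInstance }
  haveI : MulLeftMono A := ⟨fun c a b (h : a⁻¹ * b ∈ P) => by
    change (c * a)⁻¹ * (c * b) ∈ P
    simpa [mul_assoc] using h⟩
  haveI : MulRightMono A := ⟨fun c a b (h : a⁻¹ * b ∈ P) => by
    change (a * c)⁻¹ * (b * c) ∈ P
    simpa [mul_assoc] using hP.conj _ h c⁻¹⟩
  exact step1

structure Bun : Type 1 where
  G : Type
  [grp : Group G]
  ord : Ord G

attribute [instance] Bun.grp

theorem final (A : Type) [Group A] (h : Ord A) :
    ∃ (H : Type) (_ : Group H) (f : A →* H), Function.Injective f ∧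
      (∀ a : H, InS a 1 → a = 1) ∧
      ∀ a b c : H, a ≠ 1 → InS a b → InS a c → ∃ d, InS b d ∧ InS c d := by
  have : ∀ X : Bun, ∃ (Y : Bun) (f : X.G →* Y.G), Function.Injective f ∧
      ∀ a b c : X.G, a ≠ 1 → InS a b → InS a c → ∃ d, InS (f b) d ∧ InS (f c) d := by
    intro X
    obtain ⟨H, _, f, h1, h2⟩ := step2 X.G X.ord
    exact ⟨⟨H, h1⟩, f, h2⟩
  choose nx f f1 f2 using this
  let X : ℕ → Bun := fun n => Nat.rec (motive := fun _ => Bun) ⟨A, h⟩ (fun _ Y => nx Y) n
  let g : ∀ n : ℕ, (X n).G →* (X (n + 1)).G := fun n => f (X n)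
  let F : ∀ i j, i ≤ j → (X i).G →* (X j).G := fun i j h =>
    Nat.leRec (motive := fun j _ => (X i).G →* (X j).G) (MonoidHom.id _)
      (fun k _ φ => (g k).comp φ) h
  have F0 : ∀ i, F i i le_rfl = MonoidHom.id _ := fun i => Nat.leRec_self ..
  have F1 : ∀ i j (h : i ≤ j), F i (j + 1) (h.trans j.le_succ) = (g j).comp (F i j h) :=
    fun i j h => Nat.leRec_succ ..
  haveI : DirectedSystem (fun n => (X n).G) (F · · ·) := by
    refine ⟨fun i x => by rw [F0]; rfl, fun k j i hij hjk x => ?_⟩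
    induction hjk with
    | refl => rw [F0]; rfl
    | step hk ih => rw [F1 _ _ hk, F1 _ _ (hij.trans hk)]; exact congrArg _ ih
  have Fi : ∀ i j h, Function.Injective (F i j h) := by
    intro i j h
    induction h with
    | refl => rw [F0]; exact fun _ _ e => e
    | step hk ih => rw [F1 _ _ hk]; exact (f1 _).comp ih
  let H := DirectLimit (fun n => (X n).G) F
  let ι : ∀ n, (X n).G →* H := fun n =>
    MonoidHom.mk' (fun x => (⟦⟨n, x⟩⟧ : H)) fun x y => (DirectLimit.mul_def (f := F) n x y).symm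
  have i1 : ∀ n, Function.Injective (ι n) := DirectLimit.mk_injective F Fi
  have i2 : ∀ i j h x, ι j (F i j h x) = ι i x := fun i j h x => by
    have := DirectLimit.mk_apply (F := fun n => (X n).G) (f := F) i j x h
    exact this
  have Q : ∀ a b : H, InS a b → ∃ n, ∀ m, n ≤ m → ∃ x y, ι m x = a ∧ ι m y = b ∧ InS x y := by
    intro a b e
    induction e with
    | conj k =>
      obtain ⟨n, x, y, rfl, rfl⟩ := DirectLimit.exists_eq_mk₂ F a k
      exact ⟨n, fun m hm => ⟨F _ _ hm x, _, i2 _ _ _ _, by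
        rw [map_mul, map_mul, map_inv, i2, i2]; rfl, InS.conj (F _ _ hm y)⟩⟩
    | mul _ _ h1 h2 =>
      obtain ⟨n, h1⟩ := h1
      obtain ⟨n', h2⟩ := h2
      refine ⟨max n n', fun m hm => ?_⟩
      obtain ⟨x, y, a1, rfl, a3⟩ := h1 m ((le_max_left _ _).trans hm)
      obtain ⟨x', y', b1, rfl, b3⟩ := h2 m ((le_max_right _ _).trans hm)
      obtain rfl := i1 m (a1.trans b1.symm)
      exact ⟨x, y * y', a1, map_mul _ _ _, a3.mul b3⟩
  refine ⟨H, inferInstance, ι 0, i1 0, fun a e => ?_, fun a b c ha hb hc => ?_⟩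
  · obtain ⟨n, hn⟩ := Q a 1 e
    obtain ⟨x, y, rfl, a2, a3⟩ := hn n le_rfl
    obtain rfl := i1 n (a2.trans (map_one _).symm)
    rw [(X n).ord.h1 x a3, map_one]
  · obtain ⟨n, h1⟩ := Q a b hb
    obtain ⟨n', h2⟩ := Q a c hc
    obtain ⟨x, y, a1, rfl, a3⟩ := h1 _ (le_max_left n n')
    obtain ⟨x', y', b1, rfl, b3⟩ := h2 _ (le_max_right n n')
    obtain rfl := i1 _ (a1.trans b1.symm)
    obtain ⟨d, d1, d2⟩ := f2 _ x y y' (fun e => ha (by rw [← a1, e, map_one])) a3 b3
    have k : ∀ z, ι (max n n' + 1) (g _ z) = ι _ z := fun z => by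
      rw [← i2 _ _ (Nat.le_succ _) z, F1 _ _ le_rfl, F0]; rfl
    exact ⟨ι (max n n' + 1) d, k y ▸ ins_map _ d1, k y' ▸ ins_map _ d2⟩

theorem main (G : Type) [Group G] (s : G → G → Prop) (s1 : ∀ a b, s a b → s b a → a = b)
    (s2 : ∀ a b c, s a b → s b c → s a c) (s3 : ∀ a b, s a b ∨ s b a)
    (s4 : ∀ a b c d, s a b → s (c * a * d) (c * b * d)) :
    ∃ (H : Type) (_ : Group H) (f : G →* H), Function.Injective f ∧
        ∀ r : H → H → Prop,
          (∀ a, r a a) →
          (∀ a b, r a b → r b a → a = b) →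
          (∀ a b c, r a b → r b c → r a c) →
          (∀ a b c d, r a b → r (c * a * d) (c * b * d)) →
          ∃ s : H → H → Prop,
            (∀ a b, r a b → s a b) ∧
            (∀ a b, s a b → s b a → a = b) ∧
            (∀ a b c, s a b → s b c → s a c) ∧
            (∀ a b, s a b ∨ s b a) ∧
            (∀ a b c d, s a b → s (c * a * d) (c * b * d)) := by
  have cone : ∀ (K : Type) [Group K] (r : K → K → Prop), (∀ a, r a a) →
      (∀ a b, r a b → r b a → a = b) → (∀ a b c, r a b → r b c → r a c) →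
      (∀ a b c d, r a b → r (c * a * d) (c * b * d)) → Cone {x | r 1 x} := by
    intro K _ r r1 r2 r3 r4
    refine ⟨r1 1, fun x hx y hy => r3 _ x _ hx (by simpa using r4 _ _ x 1 hy), fun x hx g => ?_,
      fun x hx hy => r2 _ _ (by simpa using r4 _ _ x 1 hy) hx⟩
    simpa using r4 _ _ g g⁻¹ hx
  obtain ⟨H, _, f, h1, h2, h3⟩ := final G ⟨_, cone G s (fun a => (s3 a a).elim id id) s1 s2 s4,
    fun a => (s3 1 a).imp id fun e => by simpa using s4 _ _ 1 a⁻¹ e⟩
  refine ⟨H, inferInstance, f, h1, fun r r1 r2 r3 r4 => ?_⟩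
  obtain ⟨P, hP, h0, ht⟩ := exists_total h2 h3 (cone H r r1 r2 r3 r4)
  refine ⟨fun a b => a⁻¹ * b ∈ P, fun a b e => h0 (by simpa using r4 _ _ a⁻¹ 1 e),
    fun a b h1 h2 => inv_mul_eq_one.1 (hP.pure _ h1 (by simpa using h2)),
    fun a b c h1 h2 => by simpa [mul_assoc] using hP.mul _ h1 _ h2,
    fun a b => by simpa using ht (a⁻¹ * b), fun a b c d h => ?_⟩
  simpa [mul_assoc] using hP.conj _ h d⁻¹

end Pool.Agent.H27.KOrd
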