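import Mathlib

namespace Pool.Agent.H27.Kozy

open scoped Matrix.Norms.Elementwise

/-- `prodP A B n = A (n-1) * B (n-1) * ... * A 0 * B 0` (the empty product is `1`). -/
noncomputable def prodP {d : ℕ} (A B : ℕ → Matrix (Fin d) (Fin d) ℝ) : ℕ → Matrix (Fin d) (Fin d) ℝ
  | 0 => 1
  | n + 1 => A n * B n * prodP A B n

/-- Condition (H): every sequence from `SA` admits a sequence from `SB` with bounded products. -/
def CondH {d : ℕ} (SA SB : Finset (Matrix (Fin d) (Fin d) ℝ)) : Prop :=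
  ∀ A : ℕ → Matrix (Fin d) (Fin d) ℝ, (∀ n, A n ∈ SA) →
    ∃ B : ℕ → Matrix (Fin d) (Fin d) ℝ, (∀ n, B n ∈ SB) ∧
      ∃ C : ℝ, ∀ n, 1 ≤ n → ‖prodP A B n‖ ≤ C

def a0 : Matrix (Fin 2) (Fin 2) ℝ := !![2, 0; 0, 1]
def a1 : Matrix (Fin 2) (Fin 2) ℝ := !![0, 2; 0, 0]
def b1 : Matrix (Fin 2) (Fin 2) ℝ := !![0, 0; 1, 1]

lemma bdd_of_ev {X : Type*} [SeminormedAddCommGroup X] (f : ℕ → X) (N : ℕ)
    (h : ∀ n, N ≤ n → f n = f N) : ∃ C : ℝ, ∀ n, 1 ≤ n → ‖f n‖ ≤ C := by
  refine ⟨∑ i ∈ Finset.range (N + 1), ‖f i‖, fun n _ => ?_⟩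
  rcases le_total N n with h1 | h1
  · rw [h n h1]
    exact Finset.single_le_sum (f := fun i => ‖f i‖) (fun i _ => norm_nonneg _)
      (Finset.mem_range.2 (Nat.lt_succ_self N))
  · exact Finset.single_le_sum (f := fun i => ‖f i‖) (fun i _ => norm_nonneg _)
      (Finset.mem_range.2 (Nat.lt_succ_of_le h1))

lemma idem : a0 * b1 * (a0 * b1) = a0 * b1 := by
  ext i j; fin_cases i <;> fin_cases j <;> simp [a0, b1, Matrix.mul_apply, Fin.sum_univ_two]

lemma condH : CondH ({a0, a1} : Finset (Matrix (Fin 2) (Fin 2) ℝ)) {1, b1} := by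
  classical
  intro A hA
  have hA' : ∀ n, A n = a0 ∨ A n = a1 := fun n => by simpa using hA n
  by_cases h : ∃ N, ∀ n, N ≤ n → A n = a0
  · obtain ⟨N, hN⟩ := h
    refine ⟨fun _ => b1, fun n => by simp, bdd_of_ev _ (N + 1) ?_⟩
    intro n hn
    induction n, hn using Nat.le_induction with
    | base => rfl
    | succ n hn ih =>
      rw [prodP, ih, hN n (by omega), prodP, hN N le_rfl, ← Matrix.mul_assoc, idem]
  · push Not at h
    have h' : ∀ N, ∃ n, N ≤ n ∧ A n = a1 := fun N => by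
      obtain ⟨n, h1, h2⟩ := h N
      exact ⟨n, h1, (hA' n).resolve_left h2⟩
    obtain ⟨i, -, hi⟩ := h' 0
    obtain ⟨j, hij, hj⟩ := h' (i + 1)
    have row : ∀ n, i + 1 ≤ n → ∀ c, prodP A (fun _ => 1) n 1 c = 0 := by
      intro n hn
      induction n, hn using Nat.le_induction with
      | base =>
        intro c
        simp [prodP, hi, a1, Matrix.mul_apply, Fin.sum_univ_two]
      | succ n hn ih =>
        intro c
        rcases hA' n with h0 | h0
        · simp [prodP, h0, a0, Matrix.mul_apply, Fin.sum_univ_two, ih c]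
        · simp [prodP, h0, a1, Matrix.mul_apply, Fin.sum_univ_two]
    have hz : prodP A (fun _ => 1) (j + 1) = 0 := by
      ext r c
      fin_cases r <;> simp [prodP, hj, a1, Matrix.mul_apply, Fin.sum_univ_two, row j hij c]
    refine ⟨fun _ => 1, fun n => by simp, bdd_of_ev _ (j + 1) ?_⟩
    intro n hn
    induction n, hn using Nat.le_induction with
    | base => rfl
    | succ n hn ih => rw [prodP, ih, hz]; simp

lemma notUnif (C : ℝ) : ∃ A : ℕ → Matrix (Fin 2) (Fin 2) ℝ,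
    (∀ n, A n ∈ ({a0, a1} : Finset (Matrix (Fin 2) (Fin 2) ℝ))) ∧
    ∀ B : ℕ → Matrix (Fin 2) (Fin 2) ℝ,
      (∀ n, B n ∈ ({1, b1} : Finset (Matrix (Fin 2) (Fin 2) ℝ))) →
      ∃ n, 1 ≤ n ∧ C < ‖prodP A B n‖ := by
  classical
  obtain ⟨n0, hn0⟩ := pow_unbounded_of_one_lt C (by norm_num : (1 : ℝ) < 2)
  set n := n0 + 1 with hn
  have hC : C < 2 ^ n := lt_of_lt_of_le hn0 (pow_le_pow_right₀ (by norm_num) (by omega))
  refine ⟨fun k => if k % (n + 1) = n then a1 else a0, fun k => by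
    by_cases h : k % (n + 1) = n <;> simp [h], fun B hB => ?_⟩
  set A : ℕ → Matrix (Fin 2) (Fin 2) ℝ := fun k => if k % (n + 1) = n then a1 else a0 with hAdef
  have hB' : ∀ k, B k = 1 ∨ B k = b1 := fun k => by simpa using hB k
  by_contra hcon
  push Not at hcon
  have hent : ∀ k, 1 ≤ k → ∀ r, prodP A B k r 1 ≤ C := fun k hk r =>
    le_trans (le_trans (le_abs_self _)
      (Matrix.norm_entry_le_entrywise_sup_norm (prodP A B k) (i := r) (j := 1))) (hcon k hk)
  have inv : ∀ m r, r ≤ n → 0 ≤ prodP A B (m * (n + 1) + r) 0 1 ∧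
      0 ≤ prodP A B (m * (n + 1) + r) 1 1 ∧
      ((2 : ℝ) ^ m ≤ prodP A B (m * (n + 1) + r) 1 1 ∨
        (2 : ℝ) ^ (m + r) ≤ prodP A B (m * (n + 1) + r) 0 1) := by
    have step : ∀ m r, r < n → (0 ≤ prodP A B (m * (n + 1) + r) 0 1 ∧
      0 ≤ prodP A B (m * (n + 1) + r) 1 1 ∧
      ((2 : ℝ) ^ m ≤ prodP A B (m * (n + 1) + r) 1 1 ∨
        (2 : ℝ) ^ (m + r) ≤ prodP A B (m * (n + 1) + r) 0 1)) →
        (0 ≤ prodP A B (m * (n + 1) + (r + 1)) 0 1 ∧
      0 ≤ prodP A B (m * (n + 1) + (r + 1)) 1 1 ∧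
      ((2 : ℝ) ^ m ≤ prodP A B (m * (n + 1) + (r + 1)) 1 1 ∨
        (2 : ℝ) ^ (m + (r + 1)) ≤ prodP A B (m * (n + 1) + (r + 1)) 0 1)) := by
      intro m r hr ⟨h1, h2, h3⟩
      have hA : A (m * (n + 1) + r) = a0 := by
        have : (m * (n + 1) + r) % (n + 1) = r := by
          rw [Nat.mul_add_mod_self_right]; exact Nat.mod_eq_of_lt (by omega)
        simp only [hAdef, this]; rw [if_neg (by omega)]
      have hp : (2 : ℝ) ^ m ≤ 2 ^ (m + r) := pow_le_pow_right₀ (by norm_num) (by omega)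
      rw [← add_assoc, prodP, hA]
      rcases hB' (m * (n + 1) + r) with hb | hb
      · rw [hb]
        simp only [a0, Matrix.mul_one, Matrix.mul_apply, Fin.sum_univ_two]
        simp
        refine ⟨h1, h2, ?_⟩
        rcases h3 with h3 | h3
        · exact Or.inl h3
        · right; rw [← add_assoc, pow_succ]; linarith
      · rw [hb]
        simp only [a0, b1, Matrix.mul_apply, Fin.sum_univ_two]
        simp
        refine ⟨by linarith, Or.inl ?_⟩
        rcases h3 with h3 | h3 <;> linarith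
    have blk : ∀ m, (0 ≤ prodP A B (m * (n + 1) + 0) 0 1 ∧
      0 ≤ prodP A B (m * (n + 1) + 0) 1 1 ∧
      ((2 : ℝ) ^ m ≤ prodP A B (m * (n + 1) + 0) 1 1 ∨
        (2 : ℝ) ^ (m + 0) ≤ prodP A B (m * (n + 1) + 0) 0 1)) → ∀ r, r ≤ n →
        (0 ≤ prodP A B (m * (n + 1) + r) 0 1 ∧
      0 ≤ prodP A B (m * (n + 1) + r) 1 1 ∧
      ((2 : ℝ) ^ m ≤ prodP A B (m * (n + 1) + r) 1 1 ∨
        (2 : ℝ) ^ (m + r) ≤ prodP A B (m * (n + 1) + r) 0 1)) := by
      intro m h0 r hr
      induction r with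
      | zero => exact h0
      | succ r ih => exact step m r (by omega) (ih (by omega))
    intro m
    induction m with
    | zero => exact blk 0 (by simp [prodP])
    | succ m ih =>
      apply blk
      obtain ⟨h1, h2, h3⟩ := ih n le_rfl
      have hA : A (m * (n + 1) + n) = a1 := by
        have : (m * (n + 1) + n) % (n + 1) = n := by
          rw [Nat.mul_add_mod_self_right]; exact Nat.mod_eq_of_lt (by omega)
        simp only [hAdef, this]; simp
      have hp : (2 : ℝ) ^ m ≤ 2 ^ (m + n) := pow_le_pow_right₀ (by norm_num) (by omega)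
      have hp' : (2 : ℝ) ^ n ≤ 2 ^ (m + n) := pow_le_pow_right₀ (by norm_num) (by omega)
      have hle := hent (m * (n + 1) + n) (by omega) 0
      have e : (m + 1) * (n + 1) + 0 = (m * (n + 1) + n) + 1 := by ring
      rw [e, prodP, hA]
      rcases hB' (m * (n + 1) + n) with hb | hb
      · rw [hb]
        simp only [a1, Matrix.mul_one, Matrix.mul_apply, Fin.sum_univ_two]
        simp
        refine ⟨h2, Or.inr ?_⟩
        rcases h3 with h3 | h3
        · rw [pow_succ]; linarith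
        · linarith
      · rw [hb]
        simp only [a1, b1, Matrix.mul_apply, Fin.sum_univ_two]
        simp
        refine ⟨by linarith, Or.inr ?_⟩
        rw [pow_succ]
        rcases h3 with h3 | h3 <;> linarith
  obtain ⟨-, -, h3⟩ := inv n 0 (Nat.zero_le _)
  have hk : 1 ≤ n * (n + 1) + 0 := by
    have : 1 ≤ n := by omega
    nlinarith
  rcases h3 with h3 | h3
  · linarith [hent _ hk 1]
  · rw [add_zero] at h3; linarith [hent _ hk 0]

end Pool.Agent.H27.Kozy
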