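import Mathlib

namespace Pool.Agent.H27.Leav

open Filter

abbrev X := ℕ → Bool
abbrev E := Module.End (ZMod 2) (X → ZMod 2)

def t (i : Bool) : E where
  toFun f x := f (fun n => Nat.casesOn n i x)
  map_add' _ _ := rfl
  map_smul' _ _ := rfl

def s (i : Bool) : E where
  toFun f x := if x 0 = i then f (fun n => x (n + 1)) else 0
  map_add' f g := by funext x; simp only [Pi.add_apply]; split_ifs <;> simp
  map_smul' c f := by funext x; simp only [Pi.smul_apply, RingHom.id_apply]; split_ifs <;> simp

lemma t_s (i j : Bool) : t i * s j = if i = j then 1 else 0 := by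
  ext f x
  by_cases h : i = j
  · simp [t, s, h]
  · simp [t, s, h]

lemma s_t : s false * t false + s true * t true = 1 := by
  apply LinearMap.ext
  intro f
  funext x
  have e : ∀ i, x 0 = i → (fun n => (Nat.casesOn n i (fun n => x (n + 1)) : Bool)) = x := by
    rintro i rfl
    funext n
    cases n <;> rfl
  cases h : x 0
  · simp [t, s, h]
    exact congrArg f (e false h)
  · simp [t, s, h]
    exact congrArg f (e true h)

lemma add_self (x : E) : x + x = 0 := by
  rw [← two_smul (ZMod 2) x, show (2 : ZMod 2) = 0 from rfl, zero_smul]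

lemma neg_eq (x : E) : -x = x := neg_eq_of_add_eq_zero_left (add_self x)

def Sw : List Bool → E
  | [] => 1
  | i :: a => s i * Sw a

def Tw : List Bool → E
  | [] => 1
  | i :: a => Tw a * t i

lemma Sw_append (a b : List Bool) : Sw (a ++ b) = Sw a * Sw b := by
  induction a with
  | nil => simp [Sw]
  | cons i a ih => simp [Sw, ih, mul_assoc]

lemma Tw_append (a b : List Bool) : Tw (a ++ b) = Tw b * Tw a := by
  induction a with
  | nil => simp [Tw]
  | cons i a ih => simp [Tw, ih, mul_assoc]

lemma TS_self (a : List Bool) : Tw a * Sw a = 1 := by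
  induction a with
  | nil => simp [Tw, Sw]
  | cons i a ih => rw [Tw, Sw, mul_assoc, ← mul_assoc (t i), t_s, if_pos rfl, one_mul, ih]

lemma TS (a b : List Bool) : Tw a * Sw b = 0 ∨ (∃ m, b = a ++ m ∧ Tw a * Sw b = Sw m) ∨
    ∃ m, a = b ++ m ∧ Tw a * Sw b = Tw m := by
  induction a generalizing b with
  | nil => exact Or.inr (Or.inl ⟨b, rfl, by simp [Tw]⟩)
  | cons i a ih =>
    cases b with
    | nil => exact Or.inr (Or.inr ⟨i :: a, rfl, by simp [Sw]⟩)
    | cons j b =>
      rw [Tw, Sw, mul_assoc, ← mul_assoc (t i), t_s]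
      by_cases h : i = j
      · subst h
        rw [if_pos rfl, one_mul]
        simpa using ih b
      · left; simp [h]

lemma left_ext (k : ℕ) : ∀ x : E, (∀ a : List Bool, a.length = k → Tw a * x = 0) → x = 0 := by
  induction k with
  | zero => intro x h; simpa [Tw] using h [] rfl
  | succ k ih =>
    intro x h
    have h1 : ∀ i, t i * x = 0 := fun i => ih _ fun a ha => by
      rw [← mul_assoc]; exact h (i :: a) (by simp [ha])
    rw [← one_mul x, ← s_t, add_mul, mul_assoc, mul_assoc, h1, h1]; simp

lemma right_ext (k : ℕ) : ∀ x : E, (∀ a : List Bool, a.length = k → x * Sw a = 0) → x = 0 := by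
  induction k with
  | zero => intro x h; simpa [Sw] using h [] rfl
  | succ k ih =>
    intro x h
    have h1 : ∀ i, x * s i = 0 := fun i => ih _ fun a ha => by
      rw [mul_assoc]; exact h (i :: a) (by simp [ha])
    rw [← mul_one x, ← s_t, mul_add, ← mul_assoc, ← mul_assoc, h1, h1]; simp

lemma mono_ext (P : E → Prop) (hP : ∀ x y, P x → P y → P (x + y)) (k : ℕ) :
    ∀ a b : List Bool, (∀ m : List Bool, m.length = k → P (Sw (a ++ m) * Tw (b ++ m))) →
      P (Sw a * Tw b) := by
  induction k with
  | zero => intro a b h; simpa using h [] rfl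
  | succ k ih =>
    intro a b h
    have h1 : ∀ i, P (Sw (a ++ [i]) * Tw (b ++ [i])) := fun i => ih _ _ fun m hm => by
      simpa using h (i :: m) (by simp [hm])
    have e : Sw a * Tw b = Sw (a ++ [false]) * Tw (b ++ [false])
        + Sw (a ++ [true]) * Tw (b ++ [true]) := by
      simp only [Sw_append, Tw_append, Sw, Tw, mul_one, one_mul]
      calc Sw a * Tw b = Sw a * (s false * t false + s true * t true) * Tw b := by rw [s_t]; simp
        _ = _ := by noncomm_ring
    rw [e]
    exact hP _ _ (h1 _) (h1 _)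

def Deg (a b : List Bool) (n : ℤ) : Prop := (a.length : ℤ) - b.length = n

def Rn (n : ℤ) : AddSubgroup E :=
  AddSubgroup.closure {x | ∃ a b, Deg a b n ∧ x = Sw a * Tw b}

lemma mono_mem {a b : List Bool} {n : ℤ} (h : Deg a b n) : Sw a * Tw b ∈ Rn n :=
  AddSubgroup.subset_closure ⟨a, b, h, rfl⟩

lemma Rn_ind {n : ℤ} (P : E → Prop) (h0 : P 0) (hP : ∀ x y, P x → P y → P (x + y))
    (hm : ∀ a b, Deg a b n → P (Sw a * Tw b)) {x : E} (hx : x ∈ Rn n) : P x := by
  induction hx using AddSubgroup.closure_induction with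
  | mem x hx => obtain ⟨a, b, h, rfl⟩ := hx; exact hm a b h
  | zero => exact h0
  | add x y _ _ hx hy => exact hP _ _ hx hy
  | neg x _ hx => rwa [neg_eq]

lemma Rn_mul {n m : ℤ} {x y : E} (hx : x ∈ Rn n) (hy : y ∈ Rn m) : x * y ∈ Rn (n + m) := by
  refine Rn_ind (fun x => x * y ∈ Rn (n + m)) (by simp) (fun x x' h h' => ?_) ?_ hx
  · rw [add_mul]; exact add_mem h h'
  intro a b hab
  refine Rn_ind (fun y => Sw a * Tw b * y ∈ Rn (n + m)) (by simp) (fun x x' h h' => ?_) ?_ hy
  · rw [mul_add]; exact add_mem h h'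
  intro c d hcd
  rw [mul_assoc, ← mul_assoc (Tw b)]
  unfold Deg at hab hcd
  rcases TS b c with h | ⟨u, rfl, h⟩ | ⟨u, rfl, h⟩
  · simp [h]
  · rw [h, ← mul_assoc, ← Sw_append]
    apply mono_mem
    simp only [Deg, List.length_append] at *
    push_cast at *
    omega
  · rw [h, ← Tw_append]
    apply mono_mem
    simp only [Deg, List.length_append] at *
    push_cast at *
    omega

def g (N : ℕ) : List Bool := List.replicate N false ++ [true]

lemma g_len (N : ℕ) : (g N).length = N + 1 := by simp [g]

lemma aper {a b a1 b1 u r : List Bool} {N : ℕ} (h1 : a ++ g N = a1 ++ u)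
    (h2 : b ++ g N = b1 ++ (u ++ r)) (hu : a1.length ≤ N) (hr : r ≠ []) (hr2 : r.length ≤ N) :
    False := by
  have l1 := congrArg List.length h1
  have l2 := congrArg List.length h2
  simp only [List.length_append, g_len] at l1 l2
  have hr0 : 0 < r.length := List.length_pos_iff.2 hr
  have e1 := congrArg (fun l : List Bool => l[a1.length + (u.length - 1)]?) h1
  have e2 := congrArg (fun l : List Bool => l[b1.length + (u.length - 1)]?) h2
  rw [List.getElem?_append_right (by omega), List.getElem?_append_right (by omega), g,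
    List.getElem?_append_right (by simp; omega)] at e1
  rw [List.getElem?_append_right (by omega), List.getElem?_append_right (by omega), g,
    List.getElem?_append_left (by simp; omega), List.getElem?_append_left (by omega),
    List.getElem?_replicate, if_pos (by omega)] at e2
  rw [show a1.length + (u.length - 1) - a.length - (List.replicate N false).length = 0 by
    simp; omega, show a1.length + (u.length - 1) - a1.length = u.length - 1 by omega] at e1
  rw [show b1.length + (u.length - 1) - b1.length = u.length - 1 by omega, ← e1] at e2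
  simp at e2

def Kill (x : E) (m : ℤ) : Prop :=
  ∀ a b, Deg a b m → ∀ᶠ N in atTop, Tw (a ++ g N) * x * Sw (b ++ g N) = 0

lemma kill_zero (m : ℤ) : Kill 0 m := fun _ _ _ => by simp

lemma Kill.add {x y : E} {m : ℤ} (hx : Kill x m) (hy : Kill y m) : Kill (x + y) m := by
  intro a b h
  filter_upwards [hx a b h, hy a b h] with N h1 h2
  rw [mul_add, add_mul, h1, h2, add_zero]

lemma kill_of_mem {n m : ℤ} (hnm : n ≠ m) {x : E} (hx : x ∈ Rn n) : Kill x m := by
  refine Rn_ind (fun x => Kill x m) (kill_zero m) (fun _ _ => Kill.add) ?_ hx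
  intro a1 b1 h1 a b h
  filter_upwards [eventually_ge_atTop a1.length, eventually_ge_atTop b1.length,
    eventually_ge_atTop (n - m).natAbs] with N k1 k2 k3
  rw [← mul_assoc, mul_assoc _ (Tw b1)]
  unfold Deg at h h1
  rcases TS (a ++ g N) a1 with e | ⟨u, e0, e⟩ | ⟨u, e0, e⟩
  · simp [e]
  · have := congrArg List.length e0
    simp only [List.length_append, g_len] at this
    omega
  rcases TS b1 (b ++ g N) with f | ⟨w, f0, f⟩ | ⟨w, f0, f⟩
  · simp [f]
  swap
  · have := congrArg List.length f0
    simp only [List.length_append, g_len] at this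
    omega
  rw [e, f]
  have l1 := congrArg List.length e0
  have l2 := congrArg List.length f0
  simp only [List.length_append, g_len] at l1 l2
  rcases TS u w with q | ⟨r, rfl, -⟩ | ⟨r, rfl, -⟩
  · exact q
  · exfalso
    simp only [List.length_append] at l2
    exact aper e0 f0 k1 (by rintro rfl; simp at l2; omega) (by omega)
  · exfalso
    simp only [List.length_append] at l1
    exact aper f0 e0 k2 (by rintro rfl; simp at l1; omega) (by omega)

lemma scalar {n : ℤ} {x : E} (hx : x ∈ Rn n) : ∀ᶠ k in atTop, ∀ a b : List Bool, b.length = k →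
    Deg a b n → Tw a * x * Sw b = 0 ∨ Tw a * x * Sw b = 1 := by
  refine Rn_ind (fun x => ∀ᶠ k in atTop, ∀ a b : List Bool, b.length = k →
    Deg a b n → Tw a * x * Sw b = 0 ∨ Tw a * x * Sw b = 1) (by simp) ?_ ?_ hx
  · intro x y hx hy
    filter_upwards [hx, hy] with k h1 h2 a b hb hd
    rw [mul_add, add_mul]
    rcases h1 a b hb hd with e | e <;> rcases h2 a b hb hd with f | f <;> simp [e, f, add_self]
  · intro a1 b1 h1
    filter_upwards [eventually_gt_atTop b1.length] with k hk a b hb hd
    rw [← mul_assoc, mul_assoc _ (Tw b1)]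
    unfold Deg at hd h1
    rcases TS a a1 with e | ⟨u, e0, e⟩ | ⟨u, e0, e⟩
    · simp [e]
    · have := congrArg List.length e0
      simp only [List.length_append] at this
      omega
    rcases TS b1 b with f | ⟨w, f0, f⟩ | ⟨w, f0, f⟩
    · simp [f]
    swap
    · have := congrArg List.length f0
      simp only [List.length_append] at this
      omega
    rw [e, f]
    have l1 := congrArg List.length e0
    have l2 := congrArg List.length f0
    simp only [List.length_append] at l1 l2
    rcases TS u w with q | ⟨r, rfl, q⟩ | ⟨r, rfl, q⟩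
    · exact Or.inl q
    · have : r = [] := List.length_eq_zero_iff.1 (by simp at l2; omega)
      subst this
      exact Or.inr q
    · have : r = [] := List.length_eq_zero_iff.1 (by simp at l1; omega)
      subst this
      exact Or.inr q

def One (x : E) (m : ℤ) : Prop :=
  ∃ a b, Deg a b m ∧ ∀ᶠ N in atTop, Tw (a ++ g N) * x * Sw (b ++ g N) = 1

lemma one_of_mem {n : ℤ} {x : E} (hx : x ∈ Rn n) (h0 : x ≠ 0) : One x n := by
  obtain ⟨k, h1, h2⟩ := ((scalar hx).and (eventually_ge_atTop n.natAbs)).exists
  by_contra hne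
  apply h0
  apply left_ext (k + n).toNat
  intro a ha
  apply right_ext k
  intro b hb
  have hd : Deg a b n := by unfold Deg; omega
  refine (h1 a b hb hd).resolve_right fun e => hne ⟨a, b, hd, Eventually.of_forall fun N => ?_⟩
  rw [Tw_append, Sw_append, mul_assoc (Tw (g N)), mul_assoc (Tw (g N)), ← mul_assoc _ (Sw b), e,
    one_mul, TS_self]

lemma One.add {x y : E} {m : ℤ} (hx : One x m) (hy : Kill y m) : One (x + y) m := by
  obtain ⟨a, b, h, h1⟩ := hx
  refine ⟨a, b, h, ?_⟩
  filter_upwards [h1, hy a b h] with N k1 k2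
  rw [mul_add, add_mul, k1, k2, add_zero]

lemma One.not_kill {x : E} {m : ℤ} (hx : One x m) : ¬ Kill x m := by
  obtain ⟨a, b, h, h1⟩ := hx
  intro hk
  obtain ⟨N, k1, k2⟩ := (h1.and (hk a b h)).exists
  rw [k1] at k2
  exact one_ne_zero k2

lemma exists_decomp {x : E} (hx : x ∈ ⨆ n, Rn n) :
    ∃ f : ℤ →₀ E, (∀ n, f n ∈ Rn n) ∧ f.sum (fun _ y => y) = x := by
  refine AddSubgroup.iSup_induction (C := fun x => ∃ f : ℤ →₀ E, (∀ n, f n ∈ Rn n) ∧
    f.sum (fun _ y => y) = x) _ hx ?_ ⟨0, by simp, by simp⟩ ?_
  · intro n x hx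
    refine ⟨Finsupp.single n x, fun m => ?_, by simp⟩
    rw [Finsupp.single_apply]
    split_ifs with h
    · exact h ▸ hx
    · exact zero_mem _
  · rintro x y ⟨f, h1, rfl⟩ ⟨f', h2, rfl⟩
    exact ⟨f + f', fun n => add_mem (h1 n) (h2 n), Finsupp.sum_add_index' (by simp) (by simp)⟩

lemma one_of_decomp {f : ℤ →₀ E} (hf : ∀ n, f n ∈ Rn n) {m : ℤ} (hm : f m ≠ 0) :
    One (f.sum fun _ y => y) m := by
  rw [Finsupp.sum, ← Finset.add_sum_erase _ _ (Finsupp.mem_support_iff.2 hm)]
  refine (one_of_mem (hf m) hm).add ?_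
  refine Finset.sum_induction _ (fun x => Kill x m) (fun _ _ => Kill.add) (kill_zero m) ?_
  intro n hn
  exact kill_of_mem (Finset.mem_erase.1 hn).1 (hf n)

lemma mono_ne (a b : List Bool) : Sw a * Tw b ≠ 0 := by
  intro h
  have : Tw a * (Sw a * Tw b) * Sw b = 1 := by
    rw [← mul_assoc, TS_self, one_mul, TS_self]
  rw [h] at this
  simp at this

lemma no_unit {u : E} (hu : u ∈ Rn 1) : ¬ IsUnit u := by
  classical
  intro hU
  obtain ⟨k, h1⟩ := (scalar hu).exists
  let F : Finset (List.Vector Bool (k + 1)) → (List.Vector Bool k → Bool) :=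
    fun L b => decide ((∑ a ∈ L, Tw a.1) * u * Sw b.1 = 0)
  obtain ⟨L1, L2, hne, he⟩ := Fintype.exists_ne_map_eq_of_card_lt F (by
    simp only [Fintype.card_fun, Fintype.card_bool, card_vector, Fintype.card_finset]
    apply Nat.pow_lt_pow_right (by norm_num)
    apply Nat.pow_lt_pow_right (by norm_num)
    omega)
  have h01 : ∀ (L : Finset (List.Vector Bool (k + 1))) (b : List Bool), b.length = k →
      (∑ a ∈ L, Tw a.1) * u * Sw b = 0 ∨ (∑ a ∈ L, Tw a.1) * u * Sw b = 1 := by
    intro L b hb
    rw [Finset.sum_mul, Finset.sum_mul]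
    refine Finset.sum_induction _ (fun x => x = 0 ∨ x = 1) ?_ (Or.inl rfl) ?_
    · rintro x y (rfl | rfl) (rfl | rfl) <;> simp [add_self]
    · intro a _
      exact h1 a.1 b hb (by unfold Deg; rw [a.2, hb]; omega)
  have h2 : ((∑ a ∈ L1, Tw a.1) - ∑ a ∈ L2, Tw a.1) * u = 0 := by
    apply right_ext k
    intro b hb
    have := congrFun he ⟨b, hb⟩
    simp only [F, decide_eq_decide] at this
    rw [sub_mul, sub_mul]
    rcases h01 L1 b hb with e | e <;> rcases h01 L2 b hb with f | f
    · rw [e, f, sub_self]
    · rw [this.1 e] at f; exact absurd f zero_ne_one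
    · rw [this.2 f] at e; exact absurd e zero_ne_one
    · rw [e, f, sub_self]
  have h3 := sub_eq_zero.1 (hU.mul_left_eq_zero.1 h2)
  have h4 : ∀ (L : Finset (List.Vector Bool (k + 1))) (c : List.Vector Bool (k + 1)),
      (∑ a ∈ L, Tw a.1) * Sw c.1 = if c ∈ L then 1 else 0 := by
    intro L c
    rw [Finset.sum_mul]
    refine Eq.trans ?_ (Finset.sum_ite_eq L c fun _ => (1 : E))
    apply Finset.sum_congr rfl
    intro a _
    split_ifs with h
    · rw [h, TS_self]
    · have la := a.2
      have lc := c.2
      rcases TS a.1 c.1 with q | ⟨r, e, -⟩ | ⟨r, e, -⟩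
      · exact q
      · have : r = [] := List.length_eq_zero_iff.1 (by
          have := congrArg List.length e
          simp only [List.length_append] at this; omega)
        subst this
        exact absurd (Subtype.ext (by simpa using e)) h
      · have : r = [] := List.length_eq_zero_iff.1 (by
          have := congrArg List.length e
          simp only [List.length_append] at this; omega)
        subst this
        exact absurd (Subtype.ext (by simpa using e.symm)) h
  apply hne
  ext c
  have e1 := h4 L1 c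
  rw [h3, h4] at e1
  by_cases k1 : c ∈ L1 <;> by_cases k2 : c ∈ L2 <;> simp_all

end Pool.Agent.H27.Leav
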