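import Mathlib
import Pool.Agent.H27.LeavA

namespace Pool.Agent.H27.Leav

open Filter

section Defs

variable {G R : Type} [AddGroup G] [Ring R]

/-- `R = ⨁ g, ℛ g` (internal direct sum of additive subgroups) with `ℛ g * ℛ h ⊆ ℛ (g + h)`. -/
def IsGraded (ℛ : G → AddSubgroup R) : Prop :=
  iSupIndep ℛ ∧ ⨆ g, ℛ g = ⊤ ∧ ∀ g h, ∀ x ∈ ℛ g, ∀ y ∈ ℛ h, x * y ∈ ℛ (g + h)

/-- `ℛ g ℛ h = ℛ (g + h)`, the left side being the finite sums of products. -/
def IsStrong (ℛ : G → AddSubgroup R) : Prop :=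
  ∀ g h, AddSubgroup.closure {z | ∃ x ∈ ℛ g, ∃ y ∈ ℛ h, z = x * y} = ℛ (g + h)

/-- `R_H = ⨁_{h ∈ H} R_h`. -/
def part (ℛ : G → AddSubgroup R) (H : Set G) : AddSubgroup R := ⨆ h ∈ H, ℛ h

/-- `M` is an `R_e`-sub-bimodule of `R`. -/
def IsSubBimod (ℛ : G → AddSubgroup R) (M : AddSubgroup R) : Prop :=
  ∀ a ∈ ℛ 0, ∀ x ∈ M, a * x ∈ M ∧ x * a ∈ M

/-- `M` and `N` are isomorphic as `R_e`-bimodules. -/
def BimodIso (ℛ : G → AddSubgroup R) (M N : AddSubgroup R) : Prop :=
  ∃ φ : M ≃+ N, ∀ a ∈ ℛ 0, ∀ x y : M,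
    ((y : R) = a * x → (φ y : R) = a * φ x) ∧ ((y : R) = x * a → (φ y : R) = φ x * a)

/-- `R` is `G`-controlled. -/
def IsControlled (ℛ : G → AddSubgroup R) : Prop :=
  Set.BijOn (part ℛ) Set.univ {M | IsSubBimod ℛ M} ∧
    ∀ S T : Set G, BimodIso ℛ (part ℛ S) (part ℛ T) → S = T

end Defs

def Rall : Subring E where
  carrier := (⨆ n, Rn n : AddSubgroup E)
  zero_mem' := zero_mem _
  add_mem' := add_mem
  neg_mem' := neg_mem
  one_mem' := by
    have : Sw [] * Tw [] ∈ Rn 0 := mono_mem rfl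
    rw [Sw, Tw, one_mul] at this
    exact AddSubgroup.mem_iSup_of_mem 0 this
  mul_mem' := by
    intro x y hx hy
    refine AddSubgroup.iSup_induction (C := fun x => x * y ∈ (⨆ n, Rn n : AddSubgroup E)) _ hx
      ?_ (by simp) (fun a b ha hb => by rw [add_mul]; exact add_mem ha hb)
    intro n x hx
    refine AddSubgroup.iSup_induction (C := fun y => x * y ∈ (⨆ n, Rn n : AddSubgroup E)) _ hy
      ?_ (by simp) (fun a b ha hb => by rw [mul_add]; exact add_mem ha hb)
    intro m y hy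
    exact AddSubgroup.mem_iSup_of_mem _ (Rn_mul hx hy)

abbrev L := ↥Rall

def gr (n : ℤ) : AddSubgroup L := (Rn n).comap Rall.subtype.toAddMonoidHom

lemma mem_gr {n : ℤ} {x : L} : x ∈ gr n ↔ (x : E) ∈ Rn n := Iff.rfl

def lift {n : ℤ} (x : E) (h : x ∈ Rn n) : L := ⟨x, AddSubgroup.mem_iSup_of_mem n h⟩

def mono (a b : List Bool) : L := lift (Sw a * Tw b) (mono_mem (n := a.length - b.length) rfl)

lemma mono_gr {a b : List Bool} {n : ℤ} (h : Deg a b n) : mono a b ∈ gr n := mono_mem h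

lemma gr_le {n : ℤ} {M : AddSubgroup L} (h : ∀ a b, Deg a b n → mono a b ∈ M) : gr n ≤ M := by
  intro x hx
  have := Rn_ind (fun y => ∃ z ∈ M, (z : E) = y) ⟨0, zero_mem _, rfl⟩
    (by rintro _ _ ⟨z, hz, rfl⟩ ⟨w, hw, rfl⟩; exact ⟨z + w, add_mem hz hw, rfl⟩)
    (fun a b hab => ⟨mono a b, h a b hab, rfl⟩) hx
  obtain ⟨z, hz, e⟩ := this
  rwa [← Subtype.ext e]

lemma mono_ext' {M : AddSubgroup L} (k : ℕ) (a b : List Bool)
    (h : ∀ m : List Bool, m.length = k → mono (a ++ m) (b ++ m) ∈ M) : mono a b ∈ M := by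
  have := mono_ext (fun y => ∃ z ∈ M, (z : E) = y)
    (by rintro _ _ ⟨z, hz, rfl⟩ ⟨w, hw, rfl⟩; exact ⟨z + w, add_mem hz hw, rfl⟩) k a b
    (fun m hm => ⟨_, h m hm, rfl⟩)
  obtain ⟨z, hz, e⟩ := this
  rwa [← Subtype.ext (a2 := mono a b) e]

lemma part_ind {H : Set ℤ} (P : L → Prop) (h0 : P 0) (hP : ∀ x y, P x → P y → P (x + y))
    (h : ∀ n ∈ H, ∀ x ∈ gr n, P x) {x : L} (hx : x ∈ part gr H) : P x := by
  rw [part, iSup_subtype'] at hx
  exact AddSubgroup.iSup_induction (C := P) _ hx (fun n => h n.1 n.2) h0 hP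

lemma le_part {H : Set ℤ} {n : ℤ} (h : n ∈ H) : gr n ≤ part gr H :=
  le_iSup₂ (f := fun h (_ : h ∈ H) => gr h) n h

lemma kill_part {H : Set ℤ} {m : ℤ} (hm : m ∉ H) {x : L} (hx : x ∈ part gr H) : Kill x m :=
  part_ind (fun x => Kill x m) (kill_zero m) (fun _ _ => Kill.add)
    (fun n hn _ hx => kill_of_mem (fun h : n = m => hm (h ▸ hn)) hx) hx

lemma part_bimod (H : Set ℤ) : IsSubBimod gr (part gr H) := by
  intro a ha x hx
  refine part_ind (fun x => a * x ∈ part gr H ∧ x * a ∈ part gr H) (by simp) ?_ ?_ hx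
  · intro x y hx hy
    rw [mul_add, add_mul]
    exact ⟨add_mem hx.1 hy.1, add_mem hx.2 hy.2⟩
  · intro n hn x hx
    refine ⟨le_part hn ?_, le_part hn ?_⟩
    · have := Rn_mul ha hx
      rwa [zero_add] at this
    · have := Rn_mul hx ha
      rwa [add_zero] at this

lemma mem_of_decomp (x : L) (M : AddSubgroup L) (h : ∀ m, One x m → gr m ≤ M) : x ∈ M := by
  obtain ⟨f, hf, e⟩ := exists_decomp x.2
  have : x = ∑ n ∈ f.support, lift (f n) (hf n) := by
    apply Subtype.ext
    rw [← e, Finsupp.sum]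
    simp [lift]
  rw [this]
  refine sum_mem fun n hn => h n ?_ (hf n)
  rw [← e]
  exact one_of_decomp hf (Finsupp.mem_support_iff.1 hn)

lemma exists_one {x : L} (hx : x ≠ 0) : ∃ m, One x m := by
  by_contra h
  exact hx (AddSubgroup.mem_bot.1 (mem_of_decomp x ⊥ fun m hm => absurd ⟨m, hm⟩ h))

lemma graded : IsGraded gr := by
  refine ⟨?_, ?_, fun g h x hx y hy => Rn_mul hx hy⟩
  · rw [iSupIndep_def]
    intro n
    rw [AddSubgroup.disjoint_def]
    intro x h1 h2
    by_contra h0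
    exact (one_of_mem h1 (fun h => h0 (Subtype.ext h))).not_kill
      (kill_part (H := {j | j ≠ n}) (by simp) h2)
  · rw [eq_top_iff]
    intro x _
    exact mem_of_decomp x _ fun m _ => le_iSup gr m

lemma strong : IsStrong gr := by
  intro n m
  apply le_antisymm
  · rw [AddSubgroup.closure_le]
    rintro _ ⟨x, hx, y, hy, rfl⟩
    exact Rn_mul hx hy
  · apply gr_le
    intro a b hab
    apply mono_ext' n.natAbs
    intro u hu
    let d := List.replicate ((a ++ u).length - n).toNat false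
    unfold Deg at hab
    refine AddSubgroup.subset_closure ⟨mono (a ++ u) d, mono_gr ?_, mono d (b ++ u), mono_gr ?_, ?_⟩
    · simp only [Deg, d, List.length_append, List.length_replicate]; omega
    · simp only [Deg, d, List.length_append, List.length_replicate]; omega
    · apply Subtype.ext
      change _ = Sw (a ++ u) * Tw d * (Sw d * Tw (b ++ u))
      rw [mul_assoc, ← mul_assoc (Tw d), TS_self, one_mul]
      rfl

lemma sandwich (a b c d : List Bool) (x : L) :
    ((mono a b * x * mono c d : L) : E) = Sw a * (Tw b * x * Sw c) * Tw d := by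
  change Sw a * Tw b * x * (Sw c * Tw d) = _
  noncomm_ring

lemma gen {M : AddSubgroup L} (hM : IsSubBimod gr M) {x : L} (hx : x ∈ M) {m : ℤ}
    (h : One x m) : gr m ≤ M := by
  obtain ⟨a, b, hab, h1⟩ := h
  apply gr_le
  intro c d hcd
  obtain ⟨N, k1, k2⟩ := (h1.and (eventually_ge_atTop c.length)).exists
  apply mono_ext' ((a ++ g N).length - c.length)
  intro u hu
  unfold Deg at hab hcd
  simp only [List.length_append, g_len] at hu
  have e : mono (c ++ u) (d ++ u) = mono (c ++ u) (a ++ g N) * x * mono (b ++ g N) (d ++ u) := by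
    apply Subtype.ext
    rw [sandwich, k1, mul_one]
    rfl
  rw [e]
  refine (hM _ (mono_gr ?_) _ (hM _ (mono_gr ?_) _ hx).1).2
  · simp only [Deg, List.length_append, g_len]; omega
  · simp only [Deg, List.length_append, g_len]; omega

lemma exists_mono (n : ℤ) : ∃ x ∈ gr n, x ≠ 0 ∧ One x n := by
  have hd : Deg (List.replicate n.toNat false) (List.replicate (-n).toNat false) n := by
    simp only [Deg, List.length_replicate]; omega
  exact ⟨mono _ _, mono_gr hd, fun h => mono_ne _ _ (congrArg Subtype.val h),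
    one_of_mem (mono_gr hd) (mono_ne _ _)⟩

lemma iso_eq (S T : Set ℤ) (h : BimodIso gr (part gr S) (part gr T)) : S = T := by
  obtain ⟨φ, hφ⟩ := h
  have key : ∀ (x : part gr S) (m : ℤ), Kill ((x : L) : E) m → ¬ One ((φ x : L) : E) m := by
    rintro x m hk ⟨a, b, hab, h1⟩
    obtain ⟨N, k1, k2⟩ := (h1.and (hk a b hab)).exists
    have p1 : mono (a ++ g N) (a ++ g N) ∈ gr 0 := mono_gr (by simp [Deg])
    have p2 : mono (b ++ g N) (b ++ g N) ∈ gr 0 := mono_gr (by simp [Deg])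
    let y : part gr S := ⟨_, (part_bimod S _ p1 _ x.2).1⟩
    have e1 := (hφ _ p1 x y).1 rfl
    have e2 := (hφ _ p2 y 0).2 (by
      apply Subtype.ext
      change (0 : E) = ((mono _ _ * (x : L) * mono _ _ : L) : E)
      rw [sandwich, k2]; simp)
    rw [e1, map_zero] at e2
    have e3 := congrArg Subtype.val e2
    rw [sandwich, k1, mul_one] at e3
    exact mono_ne _ _ e3.symm
  ext n
  obtain ⟨z, hz, h0, h1⟩ := exists_mono n
  constructor
  · intro hn
    by_contra hT
    let x : part gr S := ⟨z, le_part hn hz⟩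
    have hx : (φ x : L) ≠ 0 := by
      intro h
      have : φ x = 0 := Subtype.ext h
      rw [map_eq_zero_iff _ φ.injective] at this
      exact h0 (congrArg Subtype.val this)
    obtain ⟨m, hm⟩ := exists_one hx
    have hmn : n ≠ m := by
      rintro rfl
      exact hm.not_kill (kill_part hT (φ x).2)
    exact key x m (kill_of_mem hmn hz) hm
  · intro hn
    by_contra hS
    let y : part gr T := ⟨z, le_part hn hz⟩
    refine key (φ.symm y) n (kill_part hS (φ.symm y).2) ?_
    rw [φ.apply_symm_apply]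
    exact h1

lemma controlled : IsControlled gr := by
  refine ⟨⟨fun H _ => part_bimod H, ?_, ?_⟩, iso_eq⟩
  · intro S _ T _ h
    apply iso_eq
    rw [← h]
    exact ⟨AddEquiv.refl _, fun a _ x y => ⟨id, id⟩⟩
  · intro M hM
    refine ⟨{n | gr n ≤ M}, trivial, le_antisymm (iSup₂_le fun n hn => hn) ?_⟩
    intro x hx
    exact mem_of_decomp x _ fun m hm => le_part (gen hM hx hm)

lemma not_unit (x : L) (hx : x ∈ gr 1) : ¬ IsUnit x := fun h =>
  no_unit hx (h.map Rall.subtype)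

end Pool.Agent.H27.Leav
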