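import Mathlib

set_option autoImplicit false

namespace Pool.Agent.H27.LocInt

open scoped commutatorElement

/-- `H` is an integral of `G`: the derived subgroup of `H` is isomorphic to `G`. -/
def IsIntegral (H : Type*) (G : Type*) [Group H] [Group G] : Prop :=
  Nonempty (commutator H ≃* G)

/-- Every finitely generated subgroup is finite. -/
def LocallyFiniteGrp (G : Type*) [Group G] : Prop :=
  ∀ S : Finset G, Finite (Subgroup.closure (S : Set G))

/-- Every finite subset lies in a subgroup that has an integral. -/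
def LocallyIntegrable (G : Type) [Group G] : Prop :=
  ∀ S : Finset G, ∃ K : Subgroup G, (S : Set G) ⊆ K ∧
    ∃ (H : Type) (_ : Group H), IsIntegral H K

abbrev Z9 := ZMod 9

@[ext] structure W where
  b : ℕ → Z9
  s : ℕ → Z9ˣ
  p : Equiv.Perm ℕ

instance : Mul W := ⟨fun x y => ⟨fun i => x.b i + x.s i * y.b (x.p⁻¹ i),
  fun i => x.s i * y.s (x.p⁻¹ i), x.p * y.p⟩⟩
instance : One W := ⟨⟨0, 1, 1⟩⟩
instance : Inv W := ⟨fun x => ⟨fun i => -(((x.s (x.p i))⁻¹ : Z9ˣ) * x.b (x.p i)),
  fun i => (x.s (x.p i))⁻¹, x.p⁻¹⟩⟩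

@[simp] lemma mul_b (x y : W) (i : ℕ) : (x * y).b i = x.b i + x.s i * y.b (x.p⁻¹ i) := rfl
@[simp] lemma mul_s (x y : W) (i : ℕ) : (x * y).s i = x.s i * y.s (x.p⁻¹ i) := rfl
@[simp] lemma mul_p (x y : W) : (x * y).p = x.p * y.p := rfl
@[simp] lemma one_b (i : ℕ) : (1 : W).b i = 0 := rfl
@[simp] lemma one_s (i : ℕ) : (1 : W).s i = 1 := rfl
@[simp] lemma one_p : (1 : W).p = 1 := rfl
@[simp] lemma inv_b (x : W) (i : ℕ) :
    x⁻¹.b i = -(((x.s (x.p i))⁻¹ : Z9ˣ) * x.b (x.p i)) := rfl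
@[simp] lemma inv_s (x : W) (i : ℕ) : x⁻¹.s i = (x.s (x.p i))⁻¹ := rfl
@[simp] lemma inv_p (x : W) : x⁻¹.p = x.p⁻¹ := rfl

instance : Group W := Group.ofLeftAxioms
  (fun x y z => by
    refine W.ext (funext fun i => ?_) (funext fun i => ?_) (mul_assoc _ _ _)
    · simp [mul_add, add_assoc, mul_assoc]
    · simp [mul_assoc])
  (fun x => by
    refine W.ext (funext fun i => ?_) (funext fun i => ?_) (one_mul _) <;> simp)
  (fun x => by
    refine W.ext (funext fun i => ?_) (funext fun i => ?_) (inv_mul_cancel _) <;> simp)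

lemma fin_mul {x y : W} (hx : (Function.support x.b).Finite) (hy : (Function.support y.b).Finite) :
    (Function.support (x * y).b).Finite := by
  refine (hx.union (hy.preimage (x.p⁻¹.injective.injOn))).subset fun i hi => ?_
  by_contra h
  simp only [Set.mem_union, Function.mem_support, Set.mem_preimage, not_or, not_not] at h
  exact hi (by rw [mul_b, h.1, h.2]; simp)

lemma fin_inv {x : W} (hx : (Function.support x.b).Finite) :
    (Function.support x⁻¹.b).Finite := by
  refine (hx.preimage (x.p.injective.injOn)).subset fun i hi => ?_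
  by_contra h
  simp only [Function.mem_support, Set.mem_preimage, not_not] at h
  simp [h] at hi

lemma three_mul {a c : Z9} (u : Z9ˣ) (ha : 3 * a = 0) (hc : 3 * c = 0) : 3 * (a + u * c) = 0 := by
  linear_combination ha + (u : Z9) * hc

/-- The group `G`. -/
def G : Subgroup W where
  carrier := {x | x.p = 1 ∧ ((∀ i, x.s i = 1) ∨ ∀ i, x.s i = -1) ∧ 3 * x.b 0 = 0 ∧
    (Function.support x.b).Finite}
  mul_mem' := by
    rintro x y ⟨h1, h2, h3, h4⟩ ⟨k1, k2, k3, k4⟩
    refine ⟨by simp [h1, k1], ?_, ?_, fin_mul h4 k4⟩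
    · rcases h2 with h2 | h2 <;> rcases k2 with k2 | k2 <;> simp [h2, k2]
    · rw [mul_b, h1]; exact three_mul _ h3 k3
  one_mem' := ⟨rfl, Or.inl fun _ => rfl, by simp, by simp [Function.support]⟩
  inv_mem' := by
    rintro x ⟨h1, h2, h3, h4⟩
    refine ⟨by simp [h1], ?_, ?_, fin_inv h4⟩
    · rcases h2 with h2 | h2 <;> simp [h2]
    · rw [inv_b, h1]; simp only [Equiv.Perm.coe_one, id]
      linear_combination (-(((x.s 0)⁻¹ : Z9ˣ) : Z9)) * h3

def K (n : ℕ) : Subgroup W where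
  carrier := {x | x ∈ G ∧ 3 * x.b n = 0}
  mul_mem' := by
    rintro x y ⟨h1, h2⟩ ⟨k1, k2⟩
    refine ⟨G.mul_mem h1 k1, ?_⟩
    rw [mul_b, h1.1]; exact three_mul _ h2 k2
  one_mem' := ⟨G.one_mem, by simp⟩
  inv_mem' := by
    rintro x ⟨h1, h2⟩
    refine ⟨G.inv_mem h1, ?_⟩
    rw [inv_b, h1.1]; simp only [Equiv.Perm.coe_one, id]
    linear_combination (-(((x.s n)⁻¹ : Z9ˣ) : Z9)) * h2

section
variable (n : ℕ) (p : Equiv.Perm ℕ) (t : ℕ → Z9ˣ) (hp : ∀ i, p (p i) = i) (h0 : p 0 = n)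
  (ht : ∀ i, t (p i) = -t i) (ht2 : ∀ i, t i * t i = 1)

include hp in
lemma p_inv : p⁻¹ = p := by
  ext i; rw [Equiv.Perm.inv_eq_iff_eq, hp]

def H : Subgroup W where
  carrier := {x | (x.p = 1 ∨ x.p = p) ∧
    (∃ e : Z9ˣ, (e = 1 ∨ e = -1) ∧ ((∀ i, x.s i = e) ∨ ∀ i, x.s i = e * t i)) ∧
    3 * x.b 0 = 0 ∧ 3 * x.b n = 0 ∧ (Function.support x.b).Finite}
  mul_mem' := by
    have hi := p_inv p hp
    have hn : p n = 0 := by rw [← h0, hp]
    have hpp : p * p = 1 := by ext i; simp [hp]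
    rintro x y ⟨h1, ⟨e, he, h2⟩, h3, h4, h5⟩ ⟨k1, ⟨f, hf, k2⟩, k3, k4, k5⟩
    refine ⟨?_, ?_, ?_, ?_, fin_mul h5 k5⟩
    · rcases h1 with h1 | h1 <;> rcases k1 with k1 | k1 <;> simp [h1, k1, hpp]
    · have hef : e * f = 1 ∨ e * f = -1 := by
        rcases he with rfl | rfl <;> rcases hf with rfl | rfl <;> simp
      have hef' : -(e * f) = 1 ∨ -(e * f) = -1 := by
        rcases he with rfl | rfl <;> rcases hf with rfl | rfl <;> simp
      have tt : ∀ i, e * t i * (f * t i) = e * f := fun i => by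
        rw [mul_mul_mul_comm, ht2, mul_one]
      rcases h1 with h1 | h1 <;> rcases h2 with h2 | h2 <;> rcases k2 with k2 | k2
      · exact ⟨e * f, hef, Or.inl fun i => by simp [h1, h2, k2]⟩
      · exact ⟨e * f, hef, Or.inr fun i => by simp [h1, h2, k2, mul_assoc]⟩
      · exact ⟨e * f, hef, Or.inr fun i => by simp [h1, h2, k2, mul_right_comm]⟩
      · exact ⟨e * f, hef, Or.inl fun i => by simp [h1, h2, k2, tt]⟩
      · exact ⟨e * f, hef, Or.inl fun i => by simp [h1, h2, k2]⟩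
      · exact ⟨-(e * f), hef', Or.inr fun i => by simp [h1, h2, k2, hi, ht, mul_assoc]⟩
      · exact ⟨e * f, hef, Or.inr fun i => by simp [h1, h2, k2, mul_right_comm]⟩
      · exact ⟨-(e * f), hef', Or.inl fun i => by simp [h1, h2, k2, hi, ht, tt]⟩
    · rcases h1 with h1 | h1
      · rw [mul_b, h1]; exact three_mul _ h3 k3
      · rw [mul_b, h1, hi, h0]; exact three_mul _ h3 k4
    · rcases h1 with h1 | h1
      · rw [mul_b, h1]; exact three_mul _ h4 k4
      · rw [mul_b, h1, hi, hn]; exact three_mul _ h4 k3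
  one_mem' := ⟨Or.inl rfl, ⟨1, Or.inl rfl, Or.inl fun _ => rfl⟩, by simp, by simp,
    by simp [Function.support]⟩
  inv_mem' := by
    have hi := p_inv p hp
    have hn : p n = 0 := by rw [← h0, hp]
    have ti : ∀ i, (t i)⁻¹ = t i := fun i => inv_eq_of_mul_eq_one_right (ht2 i)
    rintro x ⟨h1, ⟨e, he, h2⟩, h3, h4, h5⟩
    have ei : e⁻¹ = e := by rcases he with rfl | rfl <;> simp
    have he' : -e = 1 ∨ -e = -1 := by rcases he with rfl | rfl <;> simp
    refine ⟨?_, ?_, ?_, ?_, fin_inv h5⟩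
    · rcases h1 with h1 | h1 <;> simp [h1, hi]
    · rcases h1 with h1 | h1 <;> rcases h2 with h2 | h2
      · exact ⟨e, he, Or.inl fun i => by simp [h1, h2, ei]⟩
      · exact ⟨e, he, Or.inr fun i => by simp [h1, h2, ei, ti, mul_comm]⟩
      · exact ⟨e, he, Or.inl fun i => by simp [h1, h2, ei]⟩
      · exact ⟨-e, he', Or.inr fun i => by simp [h1, h2, ei, ti, ht, mul_comm]⟩
    · rcases h1 with h1 | h1
      · rw [inv_b, h1]; simp only [Equiv.Perm.coe_one, id]
        linear_combination (-(((x.s 0)⁻¹ : Z9ˣ) : Z9)) * h3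
      · rw [inv_b, h1, h0]
        linear_combination (-(((x.s n)⁻¹ : Z9ˣ) : Z9)) * h4
    · rcases h1 with h1 | h1
      · rw [inv_b, h1]; simp only [Equiv.Perm.coe_one, id]
        linear_combination (-(((x.s n)⁻¹ : Z9ˣ) : Z9)) * h4
      · rw [inv_b, h1, hn]
        linear_combination (-(((x.s 0)⁻¹ : Z9ˣ) : Z9)) * h3

lemma comm_eq : ⁅H n p t hp h0 ht ht2, H n p t hp h0 ht ht2⁆ = K n := by
  have hi := p_inv p hp
  have hpp : p * p = 1 := by ext i; simp [hp]
  have ti : ∀ i, (t i)⁻¹ = t i := fun i => inv_eq_of_mul_eq_one_right (ht2 i)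
  have tt : ∀ i (a : Z9ˣ), t i * (t i * a) = a := fun i a => by rw [← mul_assoc, ht2, one_mul]
  apply le_antisymm
  · rw [Subgroup.commutator_le]
    intro x hx y hy
    have hm : ⁅x, y⁆ ∈ H n p t hp h0 ht ht2 := by
      rw [commutatorElement_def]
      exact mul_mem (mul_mem (mul_mem hx hy) (inv_mem hx)) (inv_mem hy)
    obtain ⟨h1, ⟨e, he, h2⟩, -⟩ := hx
    obtain ⟨k1, ⟨f, hf, k2⟩, -⟩ := hy
    refine ⟨⟨?_, ?_, hm.2.2.1, hm.2.2.2.2⟩, hm.2.2.2.1⟩
    · rcases h1 with h1 | h1 <;> rcases k1 with k1 | k1 <;>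
        simp [commutatorElement_def, h1, k1, hpp, hi]
    · rcases h1 with h1 | h1 <;> rcases k1 with k1 | k1 <;> rcases h2 with h2 | h2 <;>
        rcases k2 with k2 | k2 <;> rcases he with rfl | rfl <;> rcases hf with rfl | rfl <;>
        simp [commutatorElement_def, h1, k1, h2, k2, hi, hp, ht, ti, ht2, mul_assoc, tt]
  · have hz : (⟨0, fun _ => -1, 1⟩ : W) ∈ H n p t hp h0 ht ht2 :=
      ⟨Or.inl rfl, ⟨-1, Or.inr rfl, Or.inl fun _ => rfl⟩, by simp, by simp,
        by simp [Function.support]⟩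
    have hz' : (⟨0, fun _ => -1, 1⟩ : W) ∈ ⁅H n p t hp h0 ht ht2, H n p t hp h0 ht ht2⁆ := by
      have a1 : (⟨0, fun _ => 1, p⟩ : W) ∈ H n p t hp h0 ht ht2 :=
        ⟨Or.inr rfl, ⟨1, Or.inl rfl, Or.inl fun _ => rfl⟩, by simp, by simp,
          by simp [Function.support]⟩
      have a2 : (⟨0, t, 1⟩ : W) ∈ H n p t hp h0 ht ht2 :=
        ⟨Or.inl rfl, ⟨1, Or.inl rfl, Or.inr fun _ => by simp⟩, by simp, by simp,
          by simp [Function.support]⟩
      convert Subgroup.commutator_mem_commutator a1 a2 using 1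
      refine W.ext (funext fun i => ?_) (funext fun i => ?_) ?_ <;>
        simp [commutatorElement_def, hi, hp, ht, ti, ht2, hpp]
    have htr : ∀ b : ℕ → Z9, 3 * b 0 = 0 → 3 * b n = 0 → (Function.support b).Finite →
        (⟨b, fun _ => 1, 1⟩ : W) ∈ ⁅H n p t hp h0 ht ht2, H n p t hp h0 ht ht2⁆ := by
      intro b b0 bn bf
      have a1 : (⟨fun i => 5 * b i, fun _ => 1, 1⟩ : W) ∈ H n p t hp h0 ht ht2 := by
        refine ⟨Or.inl rfl, ⟨1, Or.inl rfl, Or.inl fun _ => rfl⟩, ?_, ?_, bf.subset ?_⟩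
        · linear_combination 5 * b0
        · linear_combination 5 * bn
        · intro i hi h; exact hi (by simp [h])
      convert Subgroup.commutator_mem_commutator a1 hz using 1
      refine W.ext (funext fun i => ?_) (funext fun i => ?_) ?_
      · simp only [commutatorElement_def, mul_b, inv_b, mul_s, inv_s, mul_p, inv_p]
        have : (9 : Z9) = 0 := rfl
        simp
        linear_combination (-(b i)) * this
      · simp [commutatorElement_def]
      · simp [commutatorElement_def]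
    rintro x ⟨⟨h1, h2, h3, h4⟩, h5⟩
    rcases h2 with h2 | h2
    · convert htr x.b h3 h5 h4 using 1
      exact W.ext rfl (funext h2) h1
    · convert mul_mem (htr x.b h3 h5 h4) hz' using 1
      refine W.ext (funext fun i => ?_) (funext fun i => ?_) ?_ <;> simp [h1, h2]
end

lemma exists_pt (n : ℕ) (hn : n ≠ 0) : ∃ (p : Equiv.Perm ℕ) (t : ℕ → Z9ˣ), (∀ i, p (p i) = i) ∧
    p 0 = n ∧ (∀ i, t (p i) = -t i) ∧ ∀ i, t i * t i = 1 := by
  let f : ℕ → ℕ := fun i => if i % 2 = 0 then i + 1 else i - 1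
  have hf : Function.Involutive f := fun i => by
    simp only [f]; split_ifs <;> omega
  let e := Equiv.swap 1 n
  have he : ∀ i, e (e i) = i := fun i => Equiv.swap_apply_self _ _ _
  refine ⟨e * hf.toPerm * e, fun i => if e i % 2 = 0 then 1 else -1, fun i => ?_, ?_, fun i => ?_,
    fun i => ?_⟩
  · simp [he, hf _]
  · have : e 0 = 0 := Equiv.swap_apply_of_ne_of_ne (by omega) hn.symm
    simp [this, f, e]
  · simp only [Equiv.Perm.coe_mul, Function.comp_apply, he, Function.Involutive.coe_toPerm, f]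
    by_cases h : e i % 2 = 0
    · rw [if_pos h, if_neg (by omega), if_pos h]
    · rw [if_neg h, if_pos (by omega), if_neg h, neg_neg]
  · dsimp only; split_ifs <;> simp

lemma exists_bound (S : Finset G) : ∃ N, N ≠ 0 ∧ ∀ x ∈ S, ∀ i, N ≤ i → (x : W).b i = 0 := by
  have : (⋃ x ∈ S, Function.support (x : W).b).Finite :=
    S.finite_toSet.biUnion fun x _ => x.2.2.2.2
  obtain ⟨N, hN⟩ := this.bddAbove
  refine ⟨N + 1, by omega, fun x hx i hi => ?_⟩
  by_contra h
  have := hN (Set.mem_biUnion hx (show i ∈ Function.support (x : W).b from h))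
  omega

theorem locInt : LocallyIntegrable G := by
  intro S
  obtain ⟨n, hn, hS⟩ := exists_bound S
  obtain ⟨p, t, hp, h0, ht, ht2⟩ := exists_pt n hn
  refine ⟨(K n).subgroupOf G, fun x hx => ⟨x.2, show 3 * (x : W).b n = 0 by rw [hS x hx n le_rfl, mul_zero]⟩,
    H n p t hp h0 ht ht2, inferInstance, ⟨?_⟩⟩
  refine ((commutator _).equivMapOfInjective _ (H n p t hp h0 ht ht2).subtype_injective).trans
    ((MulEquiv.subgroupCongr ?_).trans (Subgroup.subgroupOfEquivOfLe (show K n ≤ G from fun x hx => hx.1)).symm)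
  rw [commutator_def, Subgroup.map_commutator, ← MonoidHom.range_eq_map, Subgroup.range_subtype,
    comm_eq]

theorem locFin : LocallyFiniteGrp G := by
  intro S
  obtain ⟨N, -, hS⟩ := exists_bound S
  let L : Subgroup G :=
    { carrier := {x | ∀ i, N ≤ i → (x : W).b i = 0}
      mul_mem' := fun {x y} hx hy i hi => by
        simp [x.2.1, hx i hi, hy i hi]
      one_mem' := fun _ _ => rfl
      inv_mem' := fun {x} hx i hi => by simp [x.2.1, hx i hi] }
  have hle : Subgroup.closure (S : Set G) ≤ L := (Subgroup.closure_le _).2 fun x hx => hS x hx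
  refine Finite.of_injective
    (fun x => ((fun i : Fin N => ((x : G) : W).b i), ((x : G) : W).s 0)) fun x y h => ?_
  simp only [Prod.mk.injEq] at h
  apply Subtype.ext; apply Subtype.ext
  refine W.ext (funext fun i => ?_) (funext fun i => ?_) (x.1.2.1.trans y.1.2.1.symm)
  · by_cases hi : i < N
    · exact congrFun h.1 ⟨i, hi⟩
    · rw [hle x.2 i (by omega), hle y.2 i (by omega)]
  · have := h.2
    rcases x.1.2.2.1 with a | a <;> rcases y.1.2.2.1 with c | c <;> rw [a, c] at this ⊢ <;>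
      exact this

def a0 : G := ⟨⟨fun i => if i = 0 then 3 else 0, fun _ => 1, 1⟩, rfl, Or.inl fun _ => rfl,
  by decide, (Set.finite_singleton 0).subset fun i hi => by
    by_contra h; exact hi (if_neg h)⟩

def z0 : G := ⟨⟨0, fun _ => -1, 1⟩, rfl, Or.inr fun _ => rfl, by simp, by simp [Function.support]⟩

def c (g : G) : Z9 := (g : W).b 0

def Tr (g : G) : Prop := ∀ i, (g : W).s i = 1

lemma Tr.mul {g h : G} (a : Tr g) (b : Tr h) : Tr (g * h) := fun i => by simp [a _, b _]
lemma Tr.inv {g : G} (a : Tr g) : Tr g⁻¹ := fun i => by simp [a _]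
lemma Tr.mul_b {g : G} (a : Tr g) (h : G) (i : ℕ) :
    ((g * h : G) : W).b i = (g : W).b i + (h : W).b i := by simp [a _, g.2.1]
lemma Tr.inv_b {g : G} (a : Tr g) (i : ℕ) : ((g⁻¹ : G) : W).b i = -(g : W).b i := by
  simp [a _, g.2.1]
lemma Tr.pow_b {g : G} (a : Tr g) (k i : ℕ) : ((g ^ k : G) : W).b i = k * (g : W).b i := by
  induction k with
  | zero => simp
  | succ k ih => rw [pow_succ', a.mul_b, ih]; push_cast; ring
lemma Tr.pow {g : G} (a : Tr g) (k : ℕ) : Tr (g ^ k) := by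
  induction k with
  | zero => intro i; simp
  | succ k ih => rw [pow_succ]; exact ih.mul a
lemma Tr.ext {g h : G} (a : Tr g) (b : Tr h) (e : ∀ i, (g : W).b i = (h : W).b i) : g = h :=
  Subtype.ext (W.ext (funext e) (funext fun i => (a i).trans (b i).symm) (g.2.1.trans h.2.1.symm))

lemma tr_of_pow {g : G} (h : g ^ 9 = 1) : Tr g := by
  rcases g.2.2.1 with a | a
  · exact a
  · exfalso
    have h2 : g ^ 2 = 1 := by
      apply Subtype.ext
      refine W.ext (funext fun i => ?_) (funext fun i => ?_) ?_ <;> simp [pow_two, a, g.2.1]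
    have : g = 1 := by
      calc g = g ^ 9 * (g ^ 2)⁻¹ ^ 4 := by group
        _ = 1 := by simp [h, h2]
    have e := a 0
    rw [this] at e
    exact absurd e (by decide)

lemma tr3 {g : G} (h : g ^ 3 = 1) : Tr g :=
  tr_of_pow (by rw [show 9 = 3 * 3 from rfl, pow_mul, h, one_pow])

def Cube (g : G) : Prop := ∃ y : G, y ^ 9 = 1 ∧ g = y ^ 3

lemma Cube.map {g : G} (h : Cube g) (α : MulAut G) : Cube (α g) := by
  obtain ⟨y, h1, rfl⟩ := h
  exact ⟨α y, by rw [← map_pow, h1, map_one], map_pow _ _ _⟩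

lemma Cube.c_eq {g : G} (h : Cube g) : c g = 0 := by
  obtain ⟨y, h1, rfl⟩ := h
  rw [c, (tr_of_pow h1).pow_b]; exact y.2.2.2.1

lemma tr_one : Tr 1 := fun _ => rfl

lemma cube_of {g : G} (a : Tr g) (h : ∀ i, 3 * (g : W).b i = 0) (h0 : c g = 0) : Cube g := by
  let d : Z9 → Z9 := fun a => if a = 3 then 1 else if a = 6 then 2 else 0
  have hd : ∀ a : Z9, 3 * a = 0 → 3 * d a = a := by decide
  let y : G := ⟨⟨fun i => d ((g : W).b i), fun _ => 1, 1⟩, rfl, Or.inl fun _ => rfl,
    by show 3 * d (c g) = 0; rw [h0]; decide, g.2.2.2.2.subset fun i hi e => hi (by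
      show d _ = 0; rw [e]; decide)⟩
  have ty : Tr y := fun _ => rfl
  refine ⟨y, (ty.pow 9).ext tr_one fun i => ?_, a.ext (ty.pow 3) fun i => ?_⟩
  · rw [ty.pow_b]; exact zero_mul _
  · rw [ty.pow_b]; exact (hd _ (h i)).symm

lemma three_b {g : G} (h : g ^ 3 = 1) (i : ℕ) : 3 * (g : W).b i = 0 := by
  have := (tr3 h).pow_b 3 i
  rw [h] at this; exact this.symm

lemma ta0 : Tr a0 := fun _ => rfl
lemma a0_pow : a0 ^ 3 = 1 := (ta0.pow 3).ext tr_one fun i => by
  rw [ta0.pow_b]; show _ = (0 : Z9); simp only [a0]; split_ifs <;> decide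

lemma map3 {g : G} (h : g ^ 3 = 1) (α : MulAut G) : α g ^ 3 = 1 := by
  rw [← map_pow, h, map_one]

lemma u_cases (α : MulAut G) : c (α a0) = 3 ∨ c (α a0) = -3 := by
  have h := three_b (map3 a0_pow α) 0
  have h0 : c (α a0) ≠ 0 := fun e => by
    have := ((cube_of (tr3 (map3 a0_pow α)) (three_b (map3 a0_pow α)) e).map α⁻¹).c_eq
    rw [MulAut.inv_apply_self] at this
    exact absurd this (by decide)
  have : ∀ a : Z9, 3 * a = 0 → a ≠ 0 → a = 3 ∨ a = -3 := by decide
  exact this _ h h0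

lemma c_map (α : MulAut G) {g : G} (h : g ^ 3 = 1) :
    (c g = 3 → c (α g) = c (α a0)) ∧ (c g = -3 → c (α g) = -c (α a0)) := by
  have t := tr3 h
  have ta := tr3 (map3 a0_pow α)
  constructor
  · intro e
    have : Cube (a0⁻¹ * g) := cube_of (ta0.inv.mul t) (fun i => by
      rw [ta0.inv.mul_b, ta0.inv_b]; linear_combination three_b h i - three_b a0_pow i) (by
      rw [c, ta0.inv.mul_b, ta0.inv_b]; exact (congrArg _ e).trans (by decide))
    have := (this.map α).c_eq
    rw [map_mul, map_inv, c, ta.inv.mul_b, ta.inv_b] at this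
    simp only [c]; linear_combination this
  · intro e
    have : Cube (a0 * g) := cube_of (ta0.mul t) (fun i => by
      rw [ta0.mul_b]; linear_combination three_b h i + three_b a0_pow i) (by
      rw [c, ta0.mul_b]; exact (congrArg _ e).trans (by decide))
    have := (this.map α).c_eq
    rw [map_mul, c, ta.mul_b] at this
    simp only [c]; linear_combination this

def eps : MulAut G →* ℤˣ := MonoidHom.mk' (fun α => if c (α a0) = 3 then 1 else -1) (by
  intro α β
  have n3 : (-3 : Z9) ≠ 3 := by decide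
  have := c_map α (map3 a0_pow β)
  rw [MulAut.mul_apply]
  rcases u_cases β with b | b
  · rw [this.1 b, if_pos b, mul_one]
  · rw [this.2 b, b, if_neg n3]
    rcases u_cases α with a | a
    · rw [a, if_neg n3, if_pos rfl, one_mul]
    · rw [a, neg_neg, if_pos rfl, if_neg n3]; simp)

theorem notInt (H : Type*) [Group H] : ¬ IsIntegral H G := by
  rintro ⟨φ⟩
  let ψ : H →* ℤˣ := eps.comp ((MulAut.congr φ).toMonoidHom.comp MulAut.conjNormal)
  have h1 : ψ (φ.symm z0 : commutator H) = 1 :=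
    Abelianization.commutator_subset_ker ψ (φ.symm z0).2
  have h2 : (MulAut.congr φ (MulAut.conjNormal ((φ.symm z0 : commutator H) : H))) a0
      = z0 * a0 * z0⁻¹ := by
    have : MulAut.conjNormal ((φ.symm z0 : commutator H) : H) (φ.symm a0)
        = φ.symm z0 * φ.symm a0 * (φ.symm z0)⁻¹ := Subtype.ext rfl
    simp [MulAut.congr, this]
  have h3 : c (z0 * a0 * z0⁻¹) ≠ 3 := by
    have : c (z0 * a0 * z0⁻¹) = -3 := by simp [c, z0, a0]
    rw [this]; decide
  have h4 : ψ (φ.symm z0 : commutator H) = -1 := by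
    show (if c ((MulAut.congr φ (MulAut.conjNormal ((φ.symm z0 : commutator H) : H))) a0) = 3
      then (1 : ℤˣ) else -1) = -1
    rw [h2, if_neg h3]
  rw [h1] at h4
  exact absurd h4 (by decide)

end Pool.Agent.H27.LocInt
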