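import Pool.Agent.H27.JtG

/-! Infinitely many maximal congruence progressions for partitions with two or three part sizes. -/

namespace Pool.Agent.H27.MaxProg
open Finset Pool.Agent.H27.Jt

/-- Number of partitions of `m` with exactly `k` distinct part sizes. -/
def nu (k m : ℕ) : ℕ := #{p : m.Partition | #p.parts.toFinset = k}

/-- The set of the numbers `A n + B`. -/
def PP (A B : ℕ) : Set ℕ := {m | ∃ n, m = A * n + B}

/-- `(A, B)` is a progression on which `nu k` vanishes modulo `M`. -/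
def IsProg (k M A B : ℕ) : Prop := 1 ≤ A ∧ 1 ≤ B ∧ B ≤ A ∧ ∀ n, M ∣ nu k (A * n + B)

/-- Maximal such progressions. -/
def IsMax (k M A B : ℕ) : Prop := IsProg k M A B ∧ ¬∃ A' B', IsProg k M A' B' ∧ PP A B ⊂ PP A' B'

theorem dvd_of_sub {A B A' B' : ℕ} (h : PP A B ⊆ PP A' B') : A' ∣ A ∧ ∃ n, B = A' * n + B' := by
  obtain ⟨a, ha⟩ := h ⟨0, rfl⟩
  obtain ⟨b, hb⟩ := h ⟨1, rfl⟩
  refine ⟨(Nat.dvd_add_left (Dvd.intro a rfl)).mp (Dvd.intro b (by omega)), a, by omega⟩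

theorem ex_max {k M A B : ℕ} (h : IsProg k M A B) : ∃ A' B', IsMax k M A' B' ∧ PP A B ⊆ PP A' B' := by
  induction A using Nat.strong_induction_on generalizing B with
  | _ A ih =>
    by_cases c : ∃ A' B', IsProg k M A' B' ∧ PP A B ⊂ PP A' B'
    · obtain ⟨A', B', h1, h2⟩ := c
      obtain ⟨d, n, hn⟩ := dvd_of_sub h2.1
      rcases (Nat.le_of_dvd h.1 d).lt_or_eq with l | rfl
      · obtain ⟨A'', B'', h3, h4⟩ := ih _ l h1
        exact ⟨A'', B'', h3, h2.1.trans h4⟩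
      · have := h.2.2.1
        have := h1.2.1
        rcases n with _ | n
        · obtain rfl : B = B' := by omega
          exact absurd rfl h2.ne
        · rw [mul_add] at hn
          omega
    · exact ⟨A, B, ⟨h, c⟩, subset_rfl⟩

theorem nores {p : ℕ} (hp : p.Prime) (h8 : p % 8 = 7) {c x y : ℕ} (hc : c = 1 ∨ c = 2)
    (h : p ∣ x * x + c * (y * y)) : p ∣ x ∧ p ∣ y := by
  haveI := Fact.mk hp
  have hy : p ∣ y := by
    by_contra hy
    rw [← ZMod.natCast_eq_zero_iff] at h hy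
    push_cast at h
    have : IsSquare (-c : ZMod p) := ⟨x / y, by field_simp; linear_combination -h⟩
    rcases hc with rfl | rfl
    · exact ZMod.exists_sq_eq_neg_one_iff.mp (by simpa using this) (by omega)
    · have := (ZMod.exists_sq_eq_neg_two_iff (p := p) (by omega)).mp (by simpa using this)
      omega
  exact ⟨(hp.dvd_mul.mp ((Nat.dvd_add_left ((hy.mul_left y).mul_left c)).mp h)).elim id id, hy⟩

theorem fam {p m : ℕ} (hp : p.Prime) (h8 : p % 8 = 7) (hm : 2 * p ∣ m + 1) :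
    4 ∣ nu 2 (2 * (p * m)) ∧ 2 ∣ nu 3 (2 * (p * m)) := by
  have h1 : ¬p ∣ m := fun h => hp.one_lt.ne' (Nat.dvd_one.mp
    ((Nat.dvd_add_right h).mp ((Dvd.intro_left 2 rfl).trans hm)))
  have h2 : m % 2 = 1 := by have := (Dvd.intro p rfl).trans hm; omega
  have h3 : p * m % 2 = 1 := by rw [Nat.mul_mod, h2, show p % 2 = 1 by omega]
  have s : ∀ c, c = 1 ∨ c = 2 → ∀ x y, x * x + c * (y * y) ≠ 2 * (p * m) := fun c hc x y h => by
    obtain ⟨⟨a, rfl⟩, b, rfl⟩ := nores hp h8 hc (h ▸ (Dvd.intro m rfl).mul_left 2)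
    have : p ∣ 2 * m := ⟨a * a + c * (b * b), Nat.eq_of_mul_eq_mul_left hp.pos (by linear_combination h.symm)⟩
    rcases hp.dvd_mul.mp this with h | h
    · have := Nat.le_of_dvd two_pos h
      omega
    · exact h1 h
  have c1 := (hp.coprime_iff_not_dvd).mpr h1
  have c2 : Nat.Coprime 2 (p * m) := Nat.prime_two.coprime_iff_not_dvd.mpr (by omega)
  have d0 := L2 (k := m) (by omega) le_rfl fun i h => hp.one_lt.ne' (Nat.dvd_one.mp
    (nores hp h8 (x := i) (y := 1) (Or.inl rfl) (h ▸ (Dvd.intro_left 2 rfl).trans hm)).2)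
  have d1 : #(p * m).divisors = 2 * #m.divisors := by
    rw [c1.card_divisors_mul, hp.divisors, card_pair hp.one_lt.ne]
  refine core (by omega) (by simpa using s 1 (Or.inl rfl)) (s 2 (Or.inr rfl)) ?_ ?_ ?_
  · rw [c2.card_divisors_mul, d1, show #(Nat.divisors 2) = 2 from rfl]
    omega
  · rw [Nat.mul_div_cancel_left _ two_pos]
    omega
  · rw [c2.sum_divisors_mul, c1.sum_divisors_mul, hp.sum_divisors]
    exact (Dvd.dvd.mul_right (by omega) _).mul_left _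

theorem inf {k M : ℕ} (h : ∀ p m, p.Prime → p % 8 = 7 → 2 * p ∣ m + 1 → M ∣ nu k (2 * (p * m)))
    (h6 : ¬M ∣ nu k 6) : {x : ℕ × ℕ | IsMax k M x.1 x.2}.Infinite := fun hf => by
  have H : ∀ p, ∃ x : ℕ × ℕ, p.Prime ∧ p ≡ 7 [MOD 8] → IsMax k M x.1 x.2 ∧
      PP (4 * p ^ 2) (2 * (p * (2 * p - 1))) ⊆ PP x.1 x.2 := fun p => by
    by_cases c : p.Prime ∧ p ≡ 7 [MOD 8]
    · obtain ⟨r, hr⟩ : ∃ r, 2 * p = r + 1 := ⟨2 * p - 1, by have := c.1.pos; omega⟩
      have := c.1.two_le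
      obtain ⟨A, B, h⟩ := ex_max (k := k) (M := M) (A := 4 * p ^ 2) (B := 2 * (p * (2 * p - 1)))
        ⟨by nlinarith, by rw [hr, Nat.add_sub_cancel]; nlinarith, by rw [hr, Nat.add_sub_cancel]; nlinarith,
          fun n => by
            rw [show 4 * p ^ 2 * n + 2 * (p * (2 * p - 1)) = 2 * (p * (2 * p * n + (2 * p - 1))) by ring]
            exact h p _ c.1 c.2 ⟨n + 1, by rw [mul_add]; omega⟩⟩
      exact ⟨(A, B), fun _ => h⟩
    · exact ⟨0, fun h => absurd h c⟩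
  choose f hf' using H
  obtain ⟨p, hp, q, hq, ne, e⟩ := (Nat.infinite_setOfPred_prime_and_modEq (q := 8) (a := 7) (by omega)
    (by norm_num)).exists_ne_map_eq_of_mapsTo (f := f) (fun p hp => (hf' p hp).1) hf
  obtain ⟨⟨⟨a1, a2, a3, a4⟩, -⟩, h1⟩ := hf' p hp
  obtain ⟨d1, n, hn⟩ := dvd_of_sub h1
  have d2 := (dvd_of_sub (hf' q hq).2).1
  have d3 := Nat.dvd_gcd d1 (e ▸ d2)
  rw [Nat.gcd_mul_left, ((Nat.coprime_primes hp.1 hq.1).mpr ne).pow 2 2, mul_one] at d3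
  have p8 : p % 8 = 7 := hp.2
  have o : p * (2 * p - 1) % 2 = 1 := by rw [Nat.mul_mod, show p % 2 = 1 by omega, show (2 * p - 1) % 2 = 1 by omega]
  generalize (f p).1 = A, (f p).2 = B at *
  have := Nat.le_of_dvd (by omega) d3
  obtain ⟨j, hj⟩ : ∃ j, 6 = A * j + B := ⟨(6 - B) / A, by interval_cases A <;> omega⟩
  exact h6 (hj ▸ a4 j)

theorem both : {x : ℕ × ℕ | IsMax 2 4 x.1 x.2}.Infinite ∧ {x : ℕ × ℕ | IsMax 3 2 x.1 x.2}.Infinite :=
  ⟨inf (fun _ _ a b c => (fam a b c).1) six.1, inf (fun _ _ a b c => (fam a b c).2) six.2⟩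

end Pool.Agent.H27.MaxProg
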