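import Mathlib

/-! Positive vectors attached to the mirror Markov tree. -/

namespace Pool.Agent.H27.Mk
open LaurentPolynomial

abbrev R := LaurentPolynomial ℤ

noncomputable abbrev q : R := T 1
noncomputable abbrev p : R := T (-1)
noncomputable abbrev c : R ≃ₐ[ℤ] R := invert

theorem pq : p * q = 1 := by rw [← T_add]; rfl
theorem cq : c q = p := invert_T 1
theorem cp : c p = q := invert_T (-1)
theorem cc (f : R) : c (c f) = f := involutive_invert f

theorem le_mul {f g : R} (hf : ∀ n, 0 ≤ f.coeff n) (hg : ∀ n, 0 ≤ g.coeff n) (i j : ℤ) :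
    f.coeff i * g.coeff j ≤ (f * g).coeff (i + j) := by
  rw [AddMonoidAlgebra.coeff_mul_apply_left, Finsupp.sum]
  have h : ∀ h ∈ f.coeff.support, 0 ≤ f.coeff h * g.coeff (-h + (i + j)) :=
    fun h _ => mul_nonneg (hf _) (hg _)
  by_cases hi : i ∈ f.coeff.support
  · simpa using Finset.single_le_sum h hi
  · rw [Finsupp.notMem_support_iff.mp hi, zero_mul]
    exact Finset.sum_nonneg h

noncomputable def P : Subsemiring R where
  carrier := {f | ∀ n, 0 ≤ f.coeff n}
  mul_mem' := fun {f g} hf hg n => by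
    simpa using (mul_nonneg (hf n) (hg 0)).trans (le_mul hf hg n 0)
  one_mem' := fun n => by rw [← T_zero, T_apply]; split_ifs <;> norm_num
  add_mem' := fun {f g} hf hg n => by simpa using add_nonneg (hf n) (hg n)
  zero_mem' := fun n => by simp

theorem T_mem (n : ℤ) : (T n : R) ∈ P := fun m => by rw [T_apply]; split_ifs <;> norm_num
theorem c_mem {f : R} (hf : f ∈ P) : c f ∈ P := fun n => by rw [invert_apply]; exact hf _

def Full (a b : ℤ) (f : R) : Prop := f ∈ P ∧ a ≤ b ∧ ∀ i, a ≤ i → i ≤ b → 1 ≤ f.coeff i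

theorem Full.add {a b : ℤ} {f g : R} (hf : Full a b f) (hg : g ∈ P) : Full a b (f + g) :=
  ⟨add_mem hf.1 hg, hf.2.1, fun i h1 h2 => by
    simpa using add_le_add (hf.2.2 i h1 h2) (hg i)⟩

theorem Full.mul {a b a' b' : ℤ} {f g : R} (hf : Full a b f) (hg : Full a' b' g) :
    Full (a + a') (b + b') (f * g) := by
  refine ⟨mul_mem hf.1 hg.1, add_le_add hf.2.1 hg.2.1, fun i h1 h2 => ?_⟩
  have := hf.2.1
  have := hg.2.1
  have e := le_mul hf.1 hg.1 (max a (i - b')) (i - max a (i - b'))
  rw [add_sub_cancel] at e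
  exact (one_le_mul_of_one_le_of_one_le (hf.2.2 _ (by omega) (by omega))
    (hg.2.2 _ (by omega) (by omega))).trans e

theorem Full.c {a b : ℤ} {f : R} (hf : Full a b f) : Full (-b) (-a) (c f) :=
  ⟨c_mem hf.1, by have := hf.2.1; omega, fun i h1 h2 => by
    rw [invert_apply]; exact hf.2.2 _ (by omega) (by omega)⟩

theorem Full.eq {a b a' b' : ℤ} {f g : R} (hf : Full a b f) (h1 : a' = a) (h2 : b' = b) (h : g = f) :
    Full a' b' g := by subst h1 h2 h; exact hf

theorem Full.T (a : ℤ) : Full a a (T a) :=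
  ⟨T_mem a, le_rfl, fun i h1 h2 => by rw [T_apply, if_pos (by omega)]⟩

theorem Full.glue {a b d : ℤ} {f g : R} (hf : Full a b f) (hg : Full (b + 1) d g) : Full a d (f + g) := by
  refine ⟨add_mem hf.1 hg.1, by have := hf.2.1; have := hg.2.1; omega, fun i h1 h2 => ?_⟩
  rcases le_or_gt i b with h | h
  · simpa using add_le_add (hf.2.2 i h1 h) (hg.1 i)
  · simpa using add_le_add (hf.1 i) (hg.2.2 i h h2)

noncomputable abbrev K : R := p + 1 + q

theorem K_full : Full (-1) 1 K :=
  ((Full.T (-1)).glue ((Full.T 0).eq (by norm_num) rfl T_zero.symm)).glue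
    ((Full.T 1).eq (by norm_num) rfl rfl)

theorem Full.sK {a b : ℤ} {f : R} (hf : Full a b f) (ha : a ≤ -1) (hb : 1 ≤ b) : f - K ∈ P := by
  intro n
  have h0 := hf.1 n
  have h1 := hf.2.2 n
  rw [K, ← T_zero]
  simp only [AddMonoidAlgebra.coeff_sub, AddMonoidAlgebra.coeff_add, Finsupp.sub_apply,
    Finsupp.add_apply, T_apply]
  split_ifs <;> first | omega | (have := h1 (by omega) (by omega); linarith) | linarith

structure El where
  x : R
  y : R
  a : ℤ
  b : ℤ

namespace El
variable (v : El)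
noncomputable def z : R := 3 * K * v.x - v.y
noncomputable def N : R := v.x * c v.x
noncomputable def u : R := c v.x * v.y - q
noncomputable def w : R := v.y * c v.y
noncomputable def al : R := 3 * K * v.N - v.u - (p + q)
noncomputable def be : R := 3 * K * v.u - v.w

structure Good : Prop where
  re : v.x * c v.y - p = v.u
  fx : Full v.a v.b v.x
  fy : Full (v.a - 1) (v.b + 1) v.y
  fz : Full (v.a - 1) (v.b + 1) v.z
  pu : v.u - K ∈ P
  pa : v.al - K ∈ P
  fb : Full (v.a - v.b - 2) (v.b - v.a + 2) v.be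

noncomputable def fl : El := ⟨c v.x, c v.z, -v.b, -v.a⟩

noncomputable def op (l r : El) : El :=
  ⟨l.al * r.x + l.N * r.y, l.be * r.x + l.u * r.y, r.a - (l.b - l.a) - 1, r.b + (l.b - l.a) + 1⟩

end El
open El

theorem cK : c K = K := by simp only [K, map_add, cp, cq, map_one]; ring

theorem cz (v : El) : c v.z = 3 * K * c v.x - c v.y := by
  simp only [z, map_sub, map_mul, cK, map_ofNat]

theorem cN (v : El) : c v.N = v.N := by rw [N, map_mul, cc, mul_comm]
theorem cw (v : El) : c v.w = v.w := by rw [w, map_mul, cc, mul_comm]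

variable {v l m r : El}

theorem cu (h : v.Good) : c v.u = v.u := by rw [u, map_sub, map_mul, cc, cq, h.re]; rfl
theorem cal (h : v.Good) : c v.al = v.al := by
  simp only [al, map_sub, map_mul, map_add, cK, cN, cu h, cp, cq, map_ofNat, map_one]; ring
theorem cbe (h : v.Good) : c v.be = v.be := by
  simp only [be, map_sub, map_mul, cK, cw, cu h, map_ofNat]

theorem fl_N : v.fl.N = v.N := by simp only [N, fl, cc, mul_comm]
theorem fl_u (h : v.Good) : v.fl.u = v.al := by
  have := h.re
  simp only [u, fl, cc, cz, al, N] at this ⊢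
  linear_combination -this
theorem fl_al (h : v.Good) : v.fl.al = v.u := by rw [al, fl_N, fl_u h, al]; ring
theorem fl_w (h : v.Good) : v.fl.w = 3 * K * v.al - v.be := by
  have := h.re
  simp only [u, fl, cc, cz, al, N, w, be, z, map_sub, map_mul, cK, map_ofNat] at this ⊢
  linear_combination -3 * K * this
theorem fl_be (h : v.Good) : v.fl.be = v.be := by rw [be, fl_u h, fl_w h]; ring

theorem Good.fl (h : v.Good) : v.fl.Good where
  re := by
    rw [fl_u h]
    simp only [El.fl, cc, z, al, N, u]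
    ring
  fx := h.fx.c
  fy := h.fz.c.eq (by simp [El.fl]; ring) (by simp [El.fl]; ring) rfl
  fz := h.fy.c.eq (by simp [El.fl]; ring) (by simp [El.fl]; ring) (by
    rw [z]; simp only [El.fl, cz]; ring)
  pu := fl_u h ▸ h.pa
  pa := fl_al h ▸ h.pu
  fb := h.fb.eq (by simp [El.fl]; ring) (by simp [El.fl]; ring) (fl_be h)

structure Rel (l m r : El) : Prop where
  gl : l.Good
  gm : m.Good
  gr : r.Good
  e1 : m.u = l.al * (r.u + (p + q)) + l.N * r.w
  e2 : m.N = l.al * r.N + l.N * r.u
  e3 : m.w = l.be * (r.u + (p + q)) + l.u * r.w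
  e4 : m.u + (p + q) = l.be * r.N + l.u * r.u
  dg : m.b - m.a = l.b - l.a + (r.b - r.a) + 1

theorem Rel.fl (h : Rel l m r) : Rel r.fl m.fl l.fl := by
  obtain ⟨gl, gm, gr, e1, e2, e3, e4, dg⟩ := h
  refine ⟨Good.fl gr, Good.fl gm, Good.fl gl, ?_, ?_, ?_, ?_, by simp only [El.fl]; omega⟩ <;>
    simp only [fl_N, fl_u gl, fl_u gm, fl_u gr, fl_al gr, fl_w gl, fl_w gm, fl_be gr]
  · have : l.al + (p + q) = 3 * K * l.N - l.u := by rw [al]; ring
    rw [this, al]
    linear_combination 3 * K * e2 - e4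
  · linear_combination e2
  · have : l.al + (p + q) = 3 * K * l.N - l.u := by rw [al]; ring
    rw [this, show m.al = _ from rfl, show m.be = _ from rfl, show r.al = _ from rfl,
      show r.be = _ from rfl]
    simp only [al, be] at *
    linear_combination 9 * K ^ 2 * e2 - 3 * K * e4 - 3 * K * e1 + e3
  · simp only [al, be] at *
    linear_combination 3 * K * e2 - e1

theorem det (h : v.Good) : v.al * v.u - v.N * v.be = 1 := by
  have := h.re
  simp only [al, be, N, w, u] at this ⊢
  linear_combination pq + (c v.x * v.y) * this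

theorem op_c (h : l.Good) : c (op l r).x = l.al * c r.x + l.N * c r.y ∧
    c (op l r).y = l.be * c r.x + l.u * c r.y := by
  simp only [op, map_add, map_mul, cal h, cN, cbe h, cu h, and_self]

theorem Rel.key (h : Rel l m r) : c r.x * (op l r).x = m.N + q * l.N := by
  rw [h.e2]
  simp only [op, N, u]
  ring

theorem Rel.op (h : Rel l m r) : Rel l (op l r) m := by
  obtain ⟨gl, gm, gr, e1, e2, e3, e4, dg⟩ := h
  have hd := det gl
  have h1 : c r.x * r.y = r.u + q := by rw [u]; ring
  have h2 : r.x * c r.y = r.u + p := by rw [← gr.re]; ring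
  have h3 : r.x * c r.x = r.N := rfl
  have h4 : r.y * c r.y = r.w := rfl
  obtain ⟨c1, c2⟩ := op_c (r := r) gl
  have a1 : (El.op l r).u = l.al * (m.u + (p + q)) + l.N * m.w := by
    rw [u, c1, e3, e4]
    simp only [El.op]
    linear_combination l.al * l.u * h1 + l.N * l.be * h2 + l.al * l.be * h3 + l.N * l.u * h4 + q * hd
  have a2 : (El.op l r).N = l.al * m.N + l.N * m.u := by
    rw [N, c1, e1, e2]
    simp only [El.op]
    linear_combination l.al * l.N * (h1 + h2) + l.al ^ 2 * h3 + l.N ^ 2 * h4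
  have a3 : (El.op l r).w = l.be * (m.u + (p + q)) + l.u * m.w := by
    rw [w, c2, e3, e4]
    simp only [El.op]
    linear_combination l.be * l.u * (h1 + h2) + l.be ^ 2 * h3 + l.u ^ 2 * h4
  have a4 : (El.op l r).u + (p + q) = l.be * m.N + l.u * m.u := by
    rw [a1, e3, e4, e2, e1]
    linear_combination -(p + q) * hd
  have hz : (El.op l r).z = l.fl.w * r.x + (l.al + (p + q)) * r.y := by
    rw [fl_w gl]
    simp only [z, El.op, al]
    ring
  have k : p + q ∈ P := add_mem (T_mem _) (T_mem _)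
  have kK := K_full.1
  have up : ∀ {v : El}, v.Good → v.u ∈ P ∧ v.al ∈ P := fun h =>
    ⟨by simpa using add_mem h.pu kK, by simpa using add_mem h.pa kK⟩
  have fN : ∀ {v : El}, v.Good → Full (v.a - v.b) (v.b - v.a) v.N := fun h =>
    (h.fx.mul h.fx.c).eq (by ring) (by ring) rfl
  have fw : ∀ {v : El}, v.Good → Full (v.a - v.b - 2) (v.b - v.a + 2) v.w := fun h =>
    (h.fy.mul h.fy.c).eq (by ring) (by ring) rfl
  have fs : ∀ {v : El}, v.Good → Full (v.a - v.b - 2) (v.b - v.a + 2) v.fl.w := fun h =>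
    (fw (Good.fl h)).eq (by simp only [El.fl]; ring) (by simp only [El.fl]; ring) rfl
  have := gl.fx.2.1
  have := gm.fx.2.1
  have := gr.fx.2.1
  refine ⟨gl, ⟨?_, ?_, ?_, ?_, ?_, ?_, ?_⟩, gm, a1, a2, a3, a4, by simp only [El.op]; omega⟩
  · rw [u, c1, c2]
    simp only [El.op]
    linear_combination (l.al * l.u - l.N * l.be) * (h2 - h1) + (p - q) * hd
  · exact (((fN gl).mul gr.fy).add (mul_mem (up gl).2 gr.fx.1)).eq (by simp only [El.op]; ring)
      (by simp only [El.op]; ring) (add_comm _ _)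
  · exact ((gl.fb.mul gr.fx).add (mul_mem (up gl).1 gr.fy.1)).eq (by simp only [El.op]; ring)
      (by simp only [El.op]; ring) rfl
  · exact (((fs gl).mul gr.fx).add (mul_mem (add_mem (up gl).2 k) gr.fy.1)).eq
      (by simp only [El.op]; ring) (by simp only [El.op]; ring) hz
  · rw [a1, add_comm]
    exact (((fN gl).mul (fw gm)).add (mul_mem (up gl).2 (add_mem (up gm).1 k))).sK (by omega) (by omega)
  · have : (El.op l r).al = m.N * l.fl.w + m.u * (l.al + (p + q)) := by
      rw [fl_w gl, al]
      simp only [al] at *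
      linear_combination 3 * K * a2 - a4
    rw [this]
    exact (((fN gm).mul (fs gl)).add (mul_mem (up gm).1 (add_mem (up gl).2 k))).sK (by omega) (by omega)
  · have w0 := (fw gr).sK (by omega) (by omega)
    have u0 := gl.pu
    have a0 := gl.pa
    have b1 : (El.op l r).be = l.be * l.fl.w * r.N + (l.be * (l.al + (p + q)) * (r.u + p)
        + l.u * l.fl.w * (r.u + q) + ((l.u - K) * (l.al + (p + q)) * r.w + K * ((l.al - K) * r.w
        + (K + (p + q)) * (r.w - K) + (2 * p ^ 2 + 3 * p + 5 + 2 * q ^ 2)))) := by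
      rw [be, a1, a3, e3, e4, fl_w gl]
      simp only [al] at *
      linear_combination -3 * K * q * hd + 4 * K * pq
    rw [b1]
    refine ((((gl.fb.mul (fs gl)).mul (fN gr)).add ?_).eq (by simp only [El.op]; ring)
      (by simp only [El.op]; ring) rfl)
    have := gl.fb.1
    have := (fs gl).1
    have := (fw gr).1
    have := (up gl).1
    have := (up gl).2
    have := (up gr).1
    have := T_mem 1
    have := T_mem (-1)
    repeat' first | assumption | apply ofNat_mem | apply add_mem | apply pow_mem | apply mul_mem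

end Pool.Agent.H27.Mk
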