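import Pool.Agent.H27.MkA

/-! The base triple. -/

namespace Pool.Agent.H27.Mk
open LaurentPolynomial El

noncomputable def L0 : El := ⟨1, K + q, 0, 0⟩
noncomputable def R0 : El := ⟨1 + q, K + q ^ 2 + q, 0, 1⟩
noncomputable def M0 : El := ⟨K + (1 + q), K * K + (p + 1 + 2 * q + q ^ 2), -1, 1⟩

theorem pP : p ∈ P := T_mem _
theorem qP : q ∈ P := T_mem _

theorem F12 : Full (-1) 2 (K + q ^ 2) := K_full.glue ((Full.T 2).eq (by norm_num) rfl (by simp))
theorem F22 : Full (-2) 2 (K * K) := (K_full.mul K_full).eq (by norm_num) (by norm_num) rfl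
theorem F33 : Full (-3) 3 (K * K * K) := (F22.mul K_full).eq (by norm_num) (by norm_num) rfl
theorem F44 : Full (-4) 4 (K * K * K * K) := (F33.mul K_full).eq (by norm_num) (by norm_num) rfl

theorem memP {f g : R} (h : g ∈ P) (e : f = g) : f ∈ P := e ▸ h

theorem L0_good : L0.Good := by
  have := pq
  have := pP
  have := qP
  refine ⟨?_, (Full.T 0).eq rfl rfl T_zero.symm, (K_full.add qP).eq rfl rfl rfl,
    (K_full.add (g := p + 1) ?_).eq rfl rfl ?_, memP (zero_mem P) ?_, memP (one_mem P) ?_,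
    (F22.add (g := p + q) ?_).eq rfl rfl ?_⟩
  all_goals first
    | (simp only [L0, K, be, al, u, z, N, w, map_add, map_mul, map_one, map_ofNat, map_pow, cp, cq]; grind)
    | (repeat' first | assumption | apply ofNat_mem | apply one_mem | apply add_mem | apply pow_mem | apply mul_mem)

theorem R0_good : R0.Good := by
  have := pq
  have := pP
  have := qP
  refine ⟨?_, ((Full.T 0).glue ((Full.T 1).eq (by norm_num) rfl rfl)).eq rfl rfl rfl,
    (F12.add qP).eq rfl rfl rfl,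
    (F12.add (g := p + 4 + 3 * q + q ^ 2) ?_).eq rfl rfl ?_,
    memP (g := p ^ 2 + p + 2 + q + q ^ 2) ?_ ?_,
    memP (g := 2 * p ^ 2 + 5 * p + 8 + 5 * q + 2 * q ^ 2) ?_ ?_,
    (F33.add (g := p ^ 3 + 3 * p ^ 2 + 7 * p + 7 + 7 * q + 3 * q ^ 2 + q ^ 3) ?_).eq rfl rfl ?_⟩
  all_goals first
    | (simp only [R0, K, be, al, u, z, N, w, map_add, map_mul, map_one, map_ofNat, map_pow, cp, cq]; grind)
    | (repeat' first | assumption | apply ofNat_mem | apply one_mem | apply add_mem | apply pow_mem | apply mul_mem)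

theorem M0_good : M0.Good := by
  have := pq
  have := pP
  have := qP
  refine ⟨?_, (K_full.add (g := 1 + q) ?_).eq rfl rfl rfl,
    (F22.add (g := p + 1 + 2 * q + q ^ 2) ?_).eq rfl rfl rfl,
    (F22.add (g := p ^ 2 + 4 * p + 8 + 6 * q + 3 * q ^ 2) ?_).eq rfl rfl ?_,
    memP (g := 2 * p ^ 3 + 8 * p ^ 2 + 14 * p + 18 + 14 * q + 8 * q ^ 2 + 2 * q ^ 3) ?_ ?_,
    memP (g := 4 * p ^ 3 + 16 * p ^ 2 + 34 * p + 43 + 34 * q + 16 * q ^ 2 + 4 * q ^ 3) ?_ ?_,
    (F44.add (g := 3 * p ^ 4 + 16 * p ^ 3 + 41 * p ^ 2 + 71 * p + 82 + 71 * q + 41 * q ^ 2 + 16 * q ^ 3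
      + 3 * q ^ 4) ?_).eq rfl rfl ?_⟩
  all_goals first
    | (simp only [M0, K, be, al, u, z, N, w, map_add, map_mul, map_one, map_ofNat, map_pow, cp, cq]; grind)
    | (repeat' first | assumption | apply ofNat_mem | apply one_mem | apply add_mem | apply pow_mem | apply mul_mem)

theorem rel0 : Rel L0 M0 R0 := by
  have := pq
  refine ⟨L0_good, M0_good, R0_good, ?_, ?_, ?_, ?_, rfl⟩ <;>
    simp only [L0, M0, R0, K, be, al, u, z, N, w, map_add, map_mul, map_one, map_ofNat, map_pow, cp, cq] <;>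
    grind

end Pool.Agent.H27.Mk
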