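import Mathlib

/-! The mirror Markov tree. -/

namespace Pool.Agent.H27.Mk
open Polynomial

/-- The symmetrisation `x(q) x(1/q)`, a Laurent polynomial. -/
noncomputable def sym (x : ℤ[X]) : LaurentPolynomial ℤ :=
  toLaurent x * LaurentPolynomial.invert (toLaurent x)

/-- `d = q ^ deg c * (q ^ s * K + C) / mirror(o)`, with the denominator cleared. -/
def Mut (k c o : ℤ[X]) (s : ℤ) (d : ℤ[X]) : Prop :=
  toLaurent d * toLaurent o.reverse =
    LaurentPolynomial.T c.natDegree * (LaurentPolynomial.T s * sym k + sym c)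

/-- `Tree w a b c e`: the vertex reached from `t₀` by the moves `w` (latest move first, `false` = left,
`true` = right) is `(a, b, c)`, and its entering edge has sign `e`. -/
inductive Tree : List Bool → ℤ[X] → ℤ[X] → ℤ[X] → ℤ → Prop
  | root : Tree [] 1 (1 + X) (1 + 2 * X + 2 * X ^ 2) 1
  | left {w : List Bool} {a b c d : ℤ[X]} {e : ℤ} :
      Tree w a b c e → Mut a c b e d → Tree (false :: w) a c d e
  | right {w : List Bool} {a b c d : ℤ[X]} {e : ℤ} :
      Tree w a b c e → Mut b c a (-e) d → Tree (true :: w) b c d (-e)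

/-- All vertices: the two top vertices of the chain, and the binary tree below. -/
inductive Vert : Bool ⊕ List Bool → ℤ[X] → ℤ[X] → ℤ[X] → Prop
  | top : Vert (Sum.inl false) 1 1 1
  | second : Vert (Sum.inl true) 1 1 (1 + X)
  | node {w : List Bool} {a b c : ℤ[X]} {e : ℤ} : Tree w a b c e → Vert (Sum.inr w) a b c

end Pool.Agent.H27.Mk
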