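import Pool.Agent.H27.MkB
import Pool.Agent.H27.MkD

/-! The invariant along the mirror Markov tree. -/

namespace Pool.Agent.H27.Mk
open LaurentPolynomial El Polynomial

noncomputable def kap (e : ℤ) : R ≃ₐ[ℤ] R := if e = 1 then AlgEquiv.refl else c

def Sg (e : ℤ) : Prop := e = 1 ∨ e = -1

variable {e : ℤ}

theorem Sg.neg (h : Sg e) : Sg (-e) := by rcases h with rfl | rfl <;> simp [Sg]
theorem kap_T (h : Sg e) (n : ℤ) : kap e (T n) = T (e * n) := by
  rcases h with rfl | rfl <;> simp [kap]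
theorem kap_c (f : R) : kap e (c f) = c (kap e f) := by
  unfold kap; split_ifs <;> rfl
theorem kap_kap (f : R) : kap e (kap e f) = f := by
  unfold kap; split_ifs
  · rfl
  · exact cc f
theorem kap_neg (h : Sg e) (f : R) : kap (-e) f = c (kap e f) := by
  rcases h with rfl | rfl <;> simp [kap, cc]
theorem kap_full {a b : ℤ} {f : R} (h : Full a b (kap e f)) : ∃ a' b', Full a' b' f ∧ b' - a' = b - a := by
  unfold kap at h; split_ifs at h
  · exact ⟨a, b, h, rfl⟩
  · exact ⟨-b, -a, h.c.eq rfl rfl (cc f).symm, by ring⟩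

theorem coeff_nat (f : ℤ[X]) (j : ℕ) : (toLaurent f).coeff (j : ℤ) = f.coeff j := by
  rw [coeff_toLaurent]
  exact Finsupp.mapDomain_apply Nat.cast_injective _ j

theorem coeff_ne {f : ℤ[X]} {i : ℤ} (h : (toLaurent f).coeff i ≠ 0) : 0 ≤ i ∧ i ≤ f.natDegree := by
  have := Finsupp.mem_support_iff.mpr h
  rw [support_coeff_toLaurent, Finset.mem_map] at this
  obtain ⟨j, hj, rfl⟩ := this
  exact ⟨by simp, by simpa using le_natDegree_of_mem_supp j hj⟩

def Pos (f : ℤ[X]) : Prop := ∀ j ≤ f.natDegree, 0 < f.coeff j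

theorem poly_of_full {f : ℤ[X]} {a b : ℤ} (h : Full a b (toLaurent f)) (hd : (f.natDegree : ℤ) ≤ b - a) :
    (f.natDegree : ℤ) = b - a ∧ Pos f := by
  have h0 := h.2.1
  have h1 := coeff_ne (i := a) (f := f) (by have := h.2.2 a le_rfl h0; omega)
  have h2 := coeff_ne (i := b) (f := f) (by have := h.2.2 b h0 le_rfl; omega)
  refine ⟨by omega, fun j hj => ?_⟩
  have := h.2.2 j (by omega) (by omega)
  rw [coeff_nat] at this
  omega

structure Rep (e : ℤ) (f : ℤ[X]) (v : El) : Prop where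
  ex : ∃ n, kap e (toLaurent f) = T n * v.x
  dg : (f.natDegree : ℤ) = v.b - v.a

theorem full_of {f : R} {v : El} {n : ℤ} (h : kap e f = T n * v.x) (hv : v.Good) :
    ∃ a b, Full a b f ∧ b - a = v.b - v.a := by
  obtain ⟨a, b, h1, h2⟩ := kap_full (h ▸ (Full.T n).mul hv.fx)
  exact ⟨a, b, h1, by omega⟩

theorem Rep.pos {f : ℤ[X]} {v : El} (h : Rep e f v) (hv : v.Good) : Pos f := by
  obtain ⟨n, hn⟩ := h.ex
  obtain ⟨a, b, h1, h2⟩ := full_of hn hv
  exact (poly_of_full h1 (by have := h.dg; omega)).2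

theorem Rep.fl {f : ℤ[X]} {v : El} (he : Sg e) (h : Rep e f v) : Rep (-e) f v.fl := by
  obtain ⟨n, hn⟩ := h.ex
  refine ⟨⟨-n, by rw [kap_neg he, hn, map_mul, invert_T]; rfl⟩, ?_⟩
  have := h.dg
  simp only [El.fl]
  omega

theorem Rep.sym {f : ℤ[X]} {v : El} (h : Rep e f v) : kap e (sym f) = v.N := by
  obtain ⟨n, hn⟩ := h.ex
  rw [Mk.sym, map_mul, kap_c, hn, map_mul, invert_T, N, mul_mul_mul_comm, ← T_add]
  simp

theorem Good.ne {v : El} (h : v.Good) : c v.x ≠ 0 := by
  intro h0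
  have := h.fx.c.2.2 _ le_rfl h.fx.c.2.1
  rw [h0] at this
  simp at this

variable {k o d : ℤ[X]} {cc : ℤ[X]} {l m r : El}

theorem mut_iff (he : Sg e) (h : Rel l m r) (hk : Rep e k l) (ho : Rep e o r) (hc : Rep e cc m) :
    ∃ t, ∀ D : R, D * toLaurent o.reverse = T cc.natDegree * (T e * sym k + sym cc) ↔
      kap e D = T t * (op l r).x := by
  obtain ⟨n, hn⟩ := ho.ex
  refine ⟨e * cc.natDegree + n - e * o.natDegree, fun D => ?_⟩
  rw [← (kap e).injective.eq_iff]
  simp only [map_mul, map_add, toLaurent_reverse, kap_T he, kap_c, hn, hk.sym, hc.sym, invert_T]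
  have h1 : e * e = 1 := by rcases he with rfl | rfl <;> rfl
  have hW : T (-n) * c r.x * T (e * o.natDegree) ≠ 0 :=
    mul_ne_zero (mul_ne_zero (isUnit_T _).ne_zero (Good.ne h.gr)) (isUnit_T _).ne_zero
  have hT : (T (e * cc.natDegree) : R) =
      T (e * cc.natDegree + n - e * o.natDegree) * (T (-n) * T (e * o.natDegree)) := by
    rw [← T_add, ← T_add]; congr 1; ring
  rw [h1, hT]
  refine Iff.trans (Eq.congr_right ?_) (mul_left_inj' hW)
  linear_combination -T (e * cc.natDegree + n - e * o.natDegree) * T (-n) * T (e * o.natDegree) * h.key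

theorem num_eq (t : ℕ) (ht : (t : ℤ) + k.natDegree = cc.natDegree + e) :
    toLaurent (X ^ t * (k * k.reverse) + cc * cc.reverse) = T cc.natDegree * (T e * sym k + sym cc) := by
  have hT : (T t * T k.natDegree : R) = T cc.natDegree * T e := by rw [← T_add, ← T_add, ht]
  simp only [map_add, map_mul, toLaurent_reverse, toLaurent_X_pow, sym]
  linear_combination toLaurent k * invert (toLaurent k) * hT

theorem Pos.ne {f : ℤ[X]} (h : Pos f) : f ≠ 0 := by
  rintro rfl
  simpa using h 0 (by simp)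

theorem Pos.rev {f : ℤ[X]} (h : Pos f) : f.reverse.natDegree = f.natDegree := by
  rw [reverse_natDegree, natTrailingDegree_eq_zero.mpr (Or.inr (h 0 (by simp)).ne'), Nat.sub_zero]

theorem mut_poly {t : ℕ} (ht : (t : ℤ) + k.natDegree = cc.natDegree + e) (h : Mut k cc o e d) :
    d * o.reverse = X ^ t * (k * k.reverse) + cc * cc.reverse := by
  apply toLaurent_injective
  rw [num_eq t ht, map_mul]
  exact h

theorem step (he : Sg e) (h : Rel l m r) (hk : Rep e k l) (ho : Rep e o r) (hc : Rep e cc m) :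
    (∃ d, Mut k cc o e d) ∧ ∀ d, Mut k cc o e d → Rep e d (op l r) := by
  obtain ⟨t, ht⟩ := mut_iff he h hk ho hc
  have d1 := hk.dg
  have d2 := ho.dg
  have d3 := hc.dg
  have d4 := h.dg
  have po := ho.pos h.gr
  obtain ⟨s, hs⟩ : ∃ s : ℕ, (s : ℤ) + k.natDegree = cc.natDegree + e :=
    ⟨(o.natDegree + 1 + e).toNat, by rcases he with rfl | rfl <;> omega⟩
  constructor
  · have h1 := (ht (kap e (T t * (op l r).x))).2 (kap_kap _)
    obtain ⟨j, g, hg⟩ := exists_T_pow (kap e (T t * (op l r).x))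
    have h2 : o.reverse * g = X ^ j * (X ^ s * (k * k.reverse) + cc * cc.reverse) := by
      apply toLaurent_injective
      rw [map_mul, map_mul, num_eq s hs, hg, ← h1, toLaurent_X_pow]
      ring
    obtain ⟨d, rfl⟩ := (prime_X (R := ℤ)).pow_dvd_of_dvd_mul_left j
      (by rw [X_dvd_iff, coeff_zero_reverse]; exact (po _ le_rfl).ne') ⟨_, h2⟩
    refine ⟨d, ?_⟩
    rw [map_mul, toLaurent_X_pow, mul_comm, mul_left_inj' (isUnit_T _).ne_zero] at hg
    rw [Mut, hg, h1]
  · intro d hd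
    have h1 := (ht _).1 hd
    obtain ⟨a, b, h2, h3⟩ := full_of h1 h.op.gm
    have h4 := h.op.dg
    refine ⟨⟨t, h1⟩, h3 ▸ (poly_of_full h2 ?_).1⟩
    by_cases h0 : d = 0
    · have := h2.2.1
      simp only [h0, natDegree_zero]
      omega
    have h5 := congrArg natDegree (mut_poly hs hd)
    rw [natDegree_mul h0 (by simpa using po.ne), po.rev] at h5
    have h6 := natDegree_add_le (X ^ s * (k * k.reverse)) (cc * cc.reverse)
    have h7 := natDegree_mul_le (p := X ^ s) (q := k * k.reverse)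
    have h8 := natDegree_mul_le (p := k) (q := k.reverse)
    have h9 := natDegree_mul_le (p := cc) (q := cc.reverse)
    rw [natDegree_X_pow] at h7
    have := reverse_natDegree_le k
    have := reverse_natDegree_le cc
    rcases he with rfl | rfl <;> omega

theorem deg0 : (1 + X : ℤ[X]).natDegree = 1 ∧ (1 + 2 * X + 2 * X ^ 2 : ℤ[X]).natDegree = 2 := by
  constructor <;> compute_degree!

theorem Tree.inv {w : List Bool} {a b : ℤ[X]} (h : Tree w a b cc e) :
    Sg e ∧ ∃ l m r, Rel l m r ∧ Rep e a l ∧ Rep e b r ∧ Rep e cc m := by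
  induction h with
  | root =>
    have := pq
    refine ⟨Or.inl rfl, L0, M0, R0, rel0, ⟨⟨0, ?_⟩, by simp [L0]⟩, ⟨⟨0, ?_⟩, by simp [R0, deg0.1]⟩,
      ⟨⟨1, ?_⟩, by simp [M0, deg0.2]⟩⟩
    · simp [kap, L0]
    · simp [kap, R0]
    · simp only [kap, if_true, AlgEquiv.coe_refl, id, map_add, map_mul, map_pow, map_one, map_ofNat,
        toLaurent_X, M0, K]
      grind
  | left _ hm ih =>
    obtain ⟨he, l, m, r, h, ha, hb, hc⟩ := ih
    exact ⟨he, l, _, m, h.op, ha, hc, (step he h ha hb hc).2 _ hm⟩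
  | right _ hm ih =>
    obtain ⟨he, l, m, r, h, ha, hb, hc⟩ := ih
    exact ⟨he.neg, _, _, _, h.fl.op, hb.fl he, hc.fl he,
      (step he.neg h.fl (hb.fl he) (ha.fl he) (hc.fl he)).2 _ hm⟩

theorem Tree.ex (w : List Bool) : ∃ a b c e, Tree w a b c e := by
  induction w with
  | nil => exact ⟨_, _, _, _, Tree.root⟩
  | cons x w ih =>
    obtain ⟨a, b, c, e, ht⟩ := ih
    obtain ⟨he, l, m, r, h, ha, hb, hc⟩ := ht.inv
    cases x
    · obtain ⟨d, hd⟩ := (step he h ha hb hc).1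
      exact ⟨_, _, _, _, ht.left hd⟩
    · obtain ⟨d, hd⟩ := (step he.neg h.fl (hb.fl he) (ha.fl he) (hc.fl he)).1
      exact ⟨_, _, _, _, ht.right hd⟩

theorem Vert.ex (v : Bool ⊕ List Bool) : ∃ a b c, Vert v a b c := by
  rcases v with (_ | _) | w
  · exact ⟨_, _, _, Vert.top⟩
  · exact ⟨_, _, _, Vert.second⟩
  · obtain ⟨a, b, c, e, h⟩ := Tree.ex w
    exact ⟨_, _, _, Vert.node h⟩

theorem Tree.pos {w : List Bool} {a b : ℤ[X]} (h : Tree w a b cc e) :
    Sg e ∧ Pos a ∧ Pos b ∧ Pos cc ∧ cc.natDegree = a.natDegree + b.natDegree + 1 := by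
  obtain ⟨he, l, m, r, h, ha, hb, hc⟩ := h.inv
  refine ⟨he, ha.pos h.gl, hb.pos h.gr, hc.pos h.gm, ?_⟩
  have := ha.dg
  have := hb.dg
  have := hc.dg
  have := h.dg
  omega

end Pool.Agent.H27.Mk
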