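import Pool.Agent.H27.MkC

/-! The product of the extreme coefficients of the maximum determines the vertex. -/

namespace Pool.Agent.H27.Mk
open Polynomial

noncomputable def mu (f : ℤ[X]) : ℤ := f.leadingCoeff * f.coeff 0
noncomputable def lam (f : ℤ[X]) : ℤ := if f.natDegree = 0 then 2 else 3 * mu f

variable {k o d c a b : ℤ[X]} {s e : ℤ} {w : List Bool}

theorem Pos.mu (h : Pos c) : 0 < mu c := mul_pos (h _ le_rfl) (h 0 (by simp))

theorem Pos.lead_rev (h : Pos c) : c.reverse.leadingCoeff = c.coeff 0 := by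
  rw [reverse_leadingCoeff, trailingCoeff,
    natTrailingDegree_eq_zero.mpr (Or.inr (h 0 (by simp)).ne')]

theorem ends (hs : Sg s) (pk : Pos k) (pc : Pos c) (po : Pos o)
    (hd : c.natDegree = k.natDegree + o.natDegree + 1) (h : Mut k c o s d)
    (h0 : 0 < o.natDegree ∨ s = -1) :
    d.leadingCoeff * o.coeff 0 = mu c ∧
      d.coeff 0 * o.leadingCoeff = (if (o.natDegree : ℤ) + 1 + s = 0 then mu k else 0) + mu c := by
  obtain ⟨t, ht⟩ : ∃ t : ℕ, (t : ℤ) = o.natDegree + 1 + s :=
    ⟨(o.natDegree + 1 + s).toNat, by rcases hs with rfl | rfl <;> omega⟩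
  have hp := mut_poly (t := t) (by omega) h
  constructor
  · have h1 := congrArg leadingCoeff hp
    rw [leadingCoeff_mul, po.lead_rev, leadingCoeff_add_of_degree_lt, leadingCoeff_mul, pc.lead_rev] at h1
    · exact h1
    apply degree_lt_degree
    have h7 := natDegree_mul_le (p := X ^ t) (q := k * k.reverse)
    have h8 := natDegree_mul_le (p := k) (q := k.reverse)
    rw [natDegree_X_pow] at h7
    rw [natDegree_mul pc.ne (by simpa using pc.ne), pc.rev]
    have := pk.rev
    rcases hs with rfl | rfl <;> omega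
  · have h1 := congrArg (fun f => coeff f 0) hp
    simp only [coeff_add, mul_coeff_zero, coeff_zero_reverse, coeff_X_pow] at h1
    rw [h1, mu, mu, ← ht]
    split_ifs <;> first | omega | ring

theorem lam_step (hs : Sg s) (pk : Pos k) (pc : Pos c) (po : Pos o)
    (hd : c.natDegree = k.natDegree + o.natDegree + 1) (h : Mut k c o s d) (dd : d.natDegree ≠ 0)
    (h0 : o.natDegree = 0 → o = 1 ∧ s = -1 ∧ k.natDegree ≠ 0) (hl : lam c = lam k * lam o) :
    lam d = lam k * lam c := by
  obtain ⟨h1, h2⟩ := ends hs pk pc po hd h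
    ((Nat.eq_zero_or_pos o.natDegree).symm.imp_right fun h => (h0 h).2.1)
  have dc : c.natDegree ≠ 0 := by omega
  by_cases ho : o.natDegree = 0
  · obtain ⟨rfl, rfl, dk⟩ := h0 ho
    simp only [lam, dd, dc, dk, ho, if_true, if_false] at hl ⊢
    simp only [ho, leadingCoeff_one, coeff_one_zero, mul_one] at h1 h2
    rw [if_pos (by simp)] at h2
    rw [show mu d = _ * _ from rfl, h1, h2]
    linear_combination mu c * hl
  · rw [if_neg (by rcases hs with rfl | rfl <;> omega), zero_add] at h2
    have h3 : mu d * mu o = mu c * mu c := by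
      rw [show mu d = _ * _ from rfl, show mu o = _ * _ from rfl]
      linear_combination d.coeff 0 * o.leadingCoeff * h1 + mu c * h2
    apply mul_right_cancel₀ po.mu.ne'
    simp only [lam, dd, dc, ho, if_false] at hl ⊢
    linear_combination 3 * h3 + mu c * hl

structure Lab (f : ℤ[X]) (i j : ℕ) : Prop where
  l : lam f = 2 ^ i * 3 ^ j
  d : f.natDegree + 1 = i + 2 * j

theorem Tree.lab (h : Tree w a b c e) : (a.natDegree = 0 → a = 1 ∧ e = 1) ∧ a.natDegree < b.natDegree ∧
    lam c = lam a * lam b ∧ ∃ i j i' j', Lab a i j ∧ Lab b i' j' ∧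
      ((i : ℤ) * j' - j * i') ^ 2 = 1 := by
  induction h with
  | root =>
    have h1 : lam (1 + X) = 3 := by
      simp [lam, mu, deg0.1, leadingCoeff, coeff_one]
    have h2 : lam (1 + 2 * X + 2 * X ^ 2) = 6 := by
      simp [lam, mu, deg0.2, leadingCoeff, coeff_one, coeff_X]
    have h0 : lam 1 = 2 := by simp [lam]
    refine ⟨fun _ => ⟨rfl, rfl⟩, by simp [deg0.1], by rw [h0, h1, h2]; rfl, 1, 0, 0, 1,
      ⟨by simp [h0], by simp⟩, ⟨by simp [h1], by simp [deg0.1]⟩, by simp⟩
  | left h hm ih =>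
    obtain ⟨h1, h2, h3, i, j, i', j', ha, hb, hd⟩ := ih
    obtain ⟨he, pa, pb, pc, dc⟩ := h.pos
    have dd := (h.left hm).pos.2.2.2.2
    have := ha.d
    have := hb.d
    refine ⟨h1, by omega, lam_step he pa pc pb dc hm (by omega) (by omega) h3, i, j, i + i', j + j', ha,
      ⟨by rw [h3, ha.l, hb.l]; ring, by omega⟩, by push_cast; linear_combination hd⟩
  | right h hm ih =>
    obtain ⟨h1, h2, h3, i, j, i', j', ha, hb, hd⟩ := ih
    obtain ⟨he, pa, pb, pc, dc⟩ := h.pos
    have dd := (h.right hm).pos.2.2.2.2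
    have := ha.d
    have := hb.d
    refine ⟨by omega, by omega, lam_step he.neg pb pc pa (by omega) hm (by omega)
      (fun h => ⟨(h1 h).1, by rw [(h1 h).2], by omega⟩) (by rw [h3, mul_comm]), i', j', i + i', j + j', hb,
      ⟨by rw [h3, ha.l, hb.l]; ring, by omega⟩, by push_cast; linear_combination hd⟩

theorem pow23 {i j i' j' : ℕ} (h : (2 : ℤ) ^ i * 3 ^ j = 2 ^ i' * 3 ^ j') : i = i' ∧ j = j' := by
  have h' : 2 ^ i * 3 ^ j = 2 ^ i' * 3 ^ j' := by exact_mod_cast h
  have f : ∀ i j : ℕ, (2 ^ i * 3 ^ j).factorization 2 = i ∧ (2 ^ i * 3 ^ j).factorization 3 = j := by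
    intro i j
    rw [Nat.factorization_mul (by positivity) (by positivity), Nat.prime_two.factorization_pow,
      Nat.prime_three.factorization_pow]
    simp
  exact ⟨by rw [← (f i j).1, h', (f i' j').1], by rw [← (f i j).2, h', (f i' j').2]⟩

theorem farey {a1 a2 x1 x2 c1 c2 : ℤ} (h : a1 * c2 - a2 * c1 = x1 * c2 - x2 * c1)
    (hd : (a1 * c2 - a2 * c1) ^ 2 = 1) (h1 : 0 < a1 + 2 * a2) (h2 : a1 + 2 * a2 < c1 + 2 * c2)
    (h3 : 0 < x1 + 2 * x2) (h4 : x1 + 2 * x2 < c1 + 2 * c2) : a1 = x1 ∧ a2 = x2 := by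
  set t := (a1 * c2 - a2 * c1) * (a2 * x1 - a1 * x2) with ht
  have e1 : a1 - x1 = t * c1 := by
    rw [ht]
    linear_combination -(a1 - x1) * hd + (a1 * c2 - a2 * c1) * a1 * h
  have e2 : a2 - x2 = t * c2 := by
    rw [ht]
    linear_combination -(a2 - x2) * hd + (a1 * c2 - a2 * c1) * a2 * h
  have : t = 0 := by
    rcases lt_trichotomy t 0 with h0 | h0 | h0
    · nlinarith
    · exact h0
    · nlinarith
  rw [this] at e1 e2
  constructor <;> linarith

theorem Tree.same {w' : List Bool} {a' b' c' : ℤ[X]} {e' : ℤ} (h : Tree w a b c e)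
    (h' : Tree w' a' b' c' e') (hl : lam c = lam c') :
    lam b = lam b' ∧ a.natDegree = a'.natDegree ∧ b.natDegree = b'.natDegree := by
  obtain ⟨-, h2, h3, i, j, u, v, ha, hb, hd⟩ := h.lab
  obtain ⟨-, h2', h3', i', j', u', v', ha', hb', hd'⟩ := h'.lab
  obtain ⟨s1, s2⟩ := pow23 (i := i + u) (j := j + v) (i' := i' + u') (j' := j' + v') (by
    rw [h3, h3', ha.l, hb.l, ha'.l, hb'.l] at hl
    linear_combination hl)
  have := ha.d
  have := hb.d
  have := ha'.d
  have := hb'.d
  have z1 : (u' : ℤ) = i + u - i' := by omega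
  have z2 : (v' : ℤ) = j + v - j' := by omega
  have key : u = u' ∧ v = v' := by
    rcases sq_eq_sq_iff_eq_or_eq_neg.mp (hd.trans hd'.symm) with q | q
    · have := farey (a1 := i) (a2 := j) (x1 := i') (x2 := j') (c1 := i + u) (c2 := j + v)
        (by rw [z1, z2] at q; linear_combination q) (by linear_combination hd)
        (by omega) (by omega) (by omega) (by omega)
      omega
    · have := farey (a1 := i) (a2 := j) (x1 := u') (x2 := v') (c1 := i + u) (c2 := j + v)
        (by rw [z1, z2] at q ⊢; linear_combination q) (by linear_combination hd)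
        (by omega) (by omega) (by omega) (by omega)
      omega
  refine ⟨by rw [hb.l, hb'.l, key.1, key.2], by omega, by omega⟩

theorem Mut.uniq {d' : ℤ[X]} (po : Pos o) (h : Mut k c o s d) (h' : Mut k c o s d') : d = d' :=
  toLaurent_injective (mul_right_cancel₀ (by simpa using po.ne) (h.trans h'.symm))

theorem Tree.uniq (h : Tree w a b c e) : ∀ {w' : List Bool} {a' b' c' : ℤ[X]} {e' : ℤ},
    Tree w' a' b' c' e' → lam c = lam c' → w = w' ∧ a = a' ∧ b = b' ∧ c = c' ∧ e = e' := by
  induction h with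
  | root =>
    intro w' a' b' c' e' h' hl
    have := (Tree.root.same h' hl).2.2
    rw [deg0.1] at this
    cases h' with
    | root => simp
    | left h _ => have := h.pos.2.2.2.2; have := h.lab.2.1; omega
    | right h _ => have := h.pos.2.2.2.2; have := h.lab.2.1; omega
  | left h hm ih =>
    intro w' a' b' c' e' h' hl
    obtain ⟨s1, s2, s3⟩ := (h.left hm).same h' hl
    have := h.pos.2.2.2.2
    have := h.lab.2.1
    cases h' with
    | root => rw [deg0.1] at s3; omega
    | left g gm =>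
      obtain ⟨rfl, rfl, rfl, -, rfl⟩ := ih g s1
      obtain ⟨-, -, -, rfl, -⟩ := ih g s1
      simp [hm.uniq h.pos.2.2.1 gm]
    | right g gm =>
      obtain ⟨-, -, rfl, -⟩ := ih g s1
      omega
  | right h hm ih =>
    intro w' a' b' c' e' h' hl
    obtain ⟨s1, s2, s3⟩ := (h.right hm).same h' hl
    have := h.pos.2.2.2.2
    have := h.lab.2.1
    cases h' with
    | root => rw [deg0.1] at s3; omega
    | left g gm =>
      obtain ⟨-, rfl, -⟩ := ih g s1
      omega
    | right g gm =>
      obtain ⟨rfl, rfl, rfl, -, rfl⟩ := ih g s1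
      obtain ⟨-, -, -, rfl, -⟩ := ih g s1
      simp [hm.uniq h.pos.2.1 gm]

end Pool.Agent.H27.Mk
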