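import Mathlib

set_option autoImplicit false

namespace Pool.Agent.H27.ModAut

open Classical

/-- the flat lattice on a set of atoms -/
inductive M (X : Type) : Type
  | bot : M X
  | atom (x : X) : M X
  | top : M X

namespace M
variable {X : Type}

def le (a b : M X) : Prop := a = bot ∨ b = top ∨ a = b

noncomputable instance : Lattice (M X) where
  le := le
  le_refl a := Or.inr (Or.inr rfl)
  le_trans a b c := by unfold le; grind
  le_antisymm a b := by unfold le; grind
  sup a b := if le a b then b else if le b a then a else top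
  inf a b := if le a b then a else if le b a then b else bot
  le_sup_left a b := by unfold le; grind
  le_sup_right a b := by unfold le; grind
  sup_le a b c := by unfold le; grind
  inf_le_left a b := by unfold le; grind
  inf_le_right a b := by unfold le; grind
  le_inf a b c := by unfold le; grind

lemma le_def (a b : M X) : a ≤ b ↔ (a = bot ∨ b = top ∨ a = b) := Iff.rfl
lemma sup_def (a b : M X) : a ⊔ b = if (a = bot ∨ b = top ∨ a = b) then b
    else if (b = bot ∨ a = top ∨ b = a) then a else top := by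
  show (if le a b then b else if le b a then a else top) = _
  unfold le; congr
lemma inf_def (a b : M X) : a ⊓ b = if (a = bot ∨ b = top ∨ a = b) then a
    else if (b = bot ∨ a = top ∨ b = a) then b else bot := by
  show (if le a b then a else if le b a then b else bot) = _
  unfold le; congr

instance : IsModularLattice (M X) where
  sup_inf_le_assoc_of_le := by
    intro x y z
    simp only [le_def, sup_def, inf_def]
    grind

lemma bot_le' (a : M X) : bot ≤ a := Or.inl rfl
lemma le_top' (a : M X) : a ≤ top := Or.inr (Or.inl rfl)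
lemma atom_le_atom (x y : X) : atom x ≤ atom y ↔ x = y := by simp [le_def]
lemma not_atom_le_bot (x : X) : ¬ atom x ≤ bot := by simp [le_def]

lemma sup_eq_atom {a b : M X} {x : X} (h : a ⊔ b = atom x) : a = atom x ∨ b = atom x := by
  rw [sup_def] at h; grind

lemma sup_ne_bot {a b : M X} (h : a ⊔ b ≠ bot) : a ≠ bot ∨ b ≠ bot := by
  rw [sup_def] at h; grind

lemma inf_ne_bot {a b : M X} (h : a ⊓ b ≠ bot) : a ≠ bot ∧ b ≠ bot := by
  rw [inf_def] at h; grind

lemma atom_sup_atom {x y : X} (h : x ≠ y) : atom x ⊔ atom y = top := by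
  rw [sup_def]; simp [h, h.symm]

lemma le_of_atoms {a b : M X} {y z : X} (hyz : y ≠ z) (h : ∀ x, atom x ≤ a → atom x ≤ b) :
    a ≤ b := by
  cases a with
  | bot => exact bot_le' _
  | atom x => exact h x le_rfl
  | top =>
    have h1 := h y (le_top' _)
    have h2 := h z (le_top' _)
    simp only [le_def] at *
    grind

/-- extension of a map on atoms -/
def ext (s : X → M X) : M X → M X
  | bot => bot
  | atom x => s x
  | top => top

def Good (s : X → M X) : Prop := ∀ x y, x ≠ y → s x ⊔ s y = top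

lemma ext_mono (s : X → M X) {a b : M X} (h : a ≤ b) : ext s a ≤ ext s b := by
  rcases h with rfl | rfl | rfl
  · exact bot_le' _
  · exact le_top' _
  · exact le_rfl

lemma ext_sup {s : X → M X} (hs : Good s) (a b : M X) : ext s (a ⊔ b) ≤ ext s a ⊔ ext s b := by
  by_cases h1 : a ≤ b
  · rw [sup_eq_right.mpr h1]; exact le_sup_right
  by_cases h2 : b ≤ a
  · rw [sup_eq_left.mpr h2]; exact le_sup_left
  cases a with
  | bot => exact absurd (bot_le' _) h1
  | top => exact absurd (le_top' _) h2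
  | atom x =>
    cases b with
    | bot => exact absurd (bot_le' _) h2
    | top => exact absurd (le_top' _) h1
    | atom y =>
      have : x ≠ y := fun h => h1 (h ▸ le_rfl)
      show _ ≤ s x ⊔ s y
      rw [hs x y this]; exact le_top' _

def map (p : X → X) : M X → M X := ext (fun x => atom (p x))

lemma map_le_map {p : X → X} (hp : Function.Injective p) (a b : M X) :
    map p a ≤ map p b ↔ a ≤ b := by
  cases a <;> cases b <;> simp [map, ext, le_def, hp.eq_iff]

lemma map_ne_bot (p : X → X) {a : M X} (h : map p a ≠ bot) : a ≠ bot := by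
  rintro rfl; exact h rfl

lemma map_map (p q : X → X) (a : M X) : map p (map q a) = map (p ∘ q) a := by
  cases a <;> rfl

lemma map_id' (p : X → X) (hp : ∀ x, p x = x) (a : M X) : map p a = a := by
  cases a <;> simp [map, ext, hp]

def equivOpt : M X ≃ Option (Option X) where
  toFun | bot => none | top => some none | atom x => some (some x)
  invFun | none => bot | some none => top | some (some x) => atom x
  left_inv a := by cases a <;> rfl
  right_inv a := by rcases a with _ | _ | _ <;> rfl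

instance [Finite X] : Finite (M X) := Finite.of_equiv _ equivOpt.symm

def rk : M X → ℕ
  | bot => 0
  | atom _ => 1
  | top => 2

lemma rk_le (a : M X) : rk a ≤ 2 := by cases a <;> simp [rk]

lemma rk_lt {a b : M X} (h : a < b) : rk a < rk b := by
  obtain ⟨h1, h2⟩ := lt_iff_le_and_ne.mp h
  cases a <;> cases b <;> simp_all [rk, le_def]

lemma rk_mono {a b : M X} (h : a ≤ b) : rk a ≤ rk b := by
  rcases h.eq_or_lt with rfl | h
  · exact le_rfl
  · exact (rk_lt h).le

def emb {n : ℕ} (e : X ≃ Fin n) : M X → Bool → ℕ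
  | bot, _ => 0
  | top, _ => n + 1
  | atom x, true => e x + 1
  | atom x, false => n - e x

lemma emb_le {n : ℕ} (e : X ≃ Fin n) (a b : M X) :
    (∀ c, emb e a c ≤ emb e b c) ↔ a ≤ b := by
  rw [Bool.forall_bool]
  cases a with
  | bot => simp [emb, le_def]
  | top =>
    cases b with
    | bot => simp [emb, le_def]
    | top => simp [emb, le_def]
    | atom y =>
      have := (e y).2
      simp [emb, le_def] <;> omega
  | atom x =>
    have hx := (e x).2
    cases b with
    | bot => simp [emb, le_def]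
    | top => simp [emb, le_def] <;> omega
    | atom y =>
      have hy := (e y).2
      rw [atom_le_atom]
      simp only [emb]
      constructor
      · intro h
        apply e.injective
        apply Fin.ext
        omega
      · rintro rfl
        omega

end M

open M

section Lat
variable {X : Type} (s t : X → M X)

/-- connecting maps between the five coordinates -/
def f (k l : Fin 5) : M X → M X :=
  if k = l ∨ (k = 2 ∧ l = 0) ∨ (2 ≤ k ∧ l = 1) then id
  else if k = 3 ∧ l = 0 then ext s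
  else if k = 4 ∧ l = 0 then ext t
  else fun _ => bot

lemma f_self (k : Fin 5) (a : M X) : f s t k k a = a := by simp [f]

lemma f_bot (k l : Fin 5) : f s t k l bot = bot := by
  unfold f; split_ifs <;> rfl

lemma f_mono (k l : Fin 5) {a b : M X} (h : a ≤ b) : f s t k l a ≤ f s t k l b := by
  unfold f; split_ifs
  · exact h
  · exact ext_mono _ h
  · exact ext_mono _ h
  · exact le_rfl

lemma f_sup (hs : Good s) (ht : Good t) (k l : Fin 5) (a b : M X) :
    f s t k l (a ⊔ b) ≤ f s t k l a ⊔ f s t k l b := by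
  unfold f; split_ifs
  · exact le_rfl
  · exact ext_sup hs _ _
  · exact ext_sup ht _ _
  · exact bot_le' _

lemma f_level {k l : Fin 5} {a : M X} (h : f s t k l a ≠ bot) : l ≤ k := by
  unfold f at h
  split_ifs at h with h1 h2 h3
  · omega
  · omega
  · omega
  · exact absurd rfl h

lemma f_comp (k l m : Fin 5) (a : M X) : f s t l m (f s t k l a) ≤ f s t k m a := by
  by_cases h1 : k = l
  · subst h1; rw [f_self]
  by_cases h2 : l = m
  · subst h2; rw [f_self]
  by_cases h3 : 2 ≤ l
  · have : f s t k l a = bot := by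
      unfold f
      rw [if_neg (by omega), if_neg (by omega), if_neg (by omega)]
    rw [this, f_bot]; exact bot_le' _
  · have : ∀ b, f s t l m b = bot := by
      intro b
      unfold f
      rw [if_neg (by omega), if_neg (by omega), if_neg (by omega)]
    rw [this]; exact bot_le' _

def P (y : (Fin 5 → M X) × Fin 5) : Prop :=
  (∀ k l, f s t k l (y.1 k) ≤ y.1 l) ∧ ∀ k, y.1 k ≠ bot → k ≤ y.2

variable (hs : Good s) (ht : Good t)

def SL : Sublattice ((Fin 5 → M X) × Fin 5) where
  carrier := {y | P s t y}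
  supClosed' := by
    intro a ha b hb
    refine ⟨fun k l => ?_, fun k hk => ?_⟩
    · exact (f_sup s t hs ht k l _ _).trans (sup_le_sup (ha.1 k l) (hb.1 k l))
    · rcases sup_ne_bot hk with h | h
      · exact (ha.2 k h).trans le_sup_left
      · exact (hb.2 k h).trans le_sup_right
  infClosed' := by
    intro a ha b hb
    refine ⟨fun k l => ?_, fun k hk => ?_⟩
    · exact le_inf ((f_mono s t k l inf_le_left).trans (ha.1 k l))
        ((f_mono s t k l inf_le_right).trans (hb.1 k l))
    · exact le_inf (ha.2 k (inf_ne_bot hk).1) (hb.2 k (inf_ne_bot hk).2)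

/-- the lattice -/
abbrev L : Type := SL s t hs ht

variable {s t hs ht}

lemma L_le (a b : L s t hs ht) : a ≤ b ↔ (∀ k, a.1.1 k ≤ b.1.1 k) ∧ a.1.2 ≤ b.1.2 := Iff.rfl

instance : IsModularLattice (L s t hs ht) where
  sup_inf_le_assoc_of_le := by
    intro x y z h
    rw [L_le] at h ⊢
    exact ⟨fun k => IsModularLattice.sup_inf_le_assoc_of_le (y.1.1 k) (h.1 k),
      IsModularLattice.sup_inf_le_assoc_of_le y.1.2 h.2⟩

def J (k : Fin 5) (x : X) : L s t hs ht :=
  ⟨(fun l => f s t k l (atom x), k), fun l m => f_comp s t k l m _, fun l hl => f_level s t hl⟩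

def W (i : Fin 5) : L s t hs ht :=
  ⟨(fun _ => bot, i), fun l m => by rw [f_bot], fun l hl => absurd rfl hl⟩

lemma J_le {k : Fin 5} {x : X} {y : L s t hs ht} : J k x ≤ y ↔ atom x ≤ y.1.1 k := by
  rw [L_le]
  constructor
  · intro h
    have := h.1 k
    simpa [J, f_self] using this
  · intro h
    refine ⟨fun l => (f_mono s t k l h).trans (y.2.1 k l), y.2.2 k ?_⟩
    intro e
    rw [e] at h
    exact not_atom_le_bot _ h

lemma W_le {i : Fin 5} {y : L s t hs ht} : W i ≤ y ↔ i ≤ y.1.2 := by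
  rw [L_le]
  exact ⟨fun h => h.2, fun h => ⟨fun k => bot_le' _, h⟩⟩

instance : OrderBot (L s t hs ht) where
  bot := W 0
  bot_le y := W_le.mpr (Fin.zero_le _)

lemma J_self (k : Fin 5) (x : X) : (J k x : L s t hs ht).1.1 k = atom x := f_self s t k _

lemma ext_le {y z : X} (hyz : y ≠ z) {a b : L s t hs ht} (h1 : ∀ k x, J k x ≤ a → J k x ≤ b)
    (h2 : ∀ i, W i ≤ a → W i ≤ b) : a ≤ b := by
  rw [L_le]
  refine ⟨fun k => le_of_atoms hyz fun x hx => J_le.mp (h1 k x (J_le.mpr hx)), ?_⟩
  exact W_le.mp (h2 _ (W_le.mpr le_rfl))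

lemma J_irred (k : Fin 5) (x : X) : SupIrred (J k x : L s t hs ht) := by
  constructor
  · intro h
    have := J_le.mp (h (bot_le : (⊥ : L s t hs ht) ≤ J k x))
    exact not_atom_le_bot _ this
  · intro b c h
    have h1 : b.1.1 k ⊔ c.1.1 k = atom x := by
      rw [← J_self (hs := hs) (ht := ht) k x, ← h]; rfl
    rcases sup_eq_atom h1 with e | e
    · exact Or.inl (le_antisymm (h ▸ le_sup_left) (J_le.mpr e.ge))
    · exact Or.inr (le_antisymm (h ▸ le_sup_right) (J_le.mpr e.ge))

lemma J_not_prime (h3 : ∀ x : X, ∃ y z, y ≠ z ∧ x ≠ y ∧ x ≠ z) (k : Fin 5) (x : X) :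
    ¬ SupPrime (J k x : L s t hs ht) := by
  intro h
  obtain ⟨y, z, h1, h2, h3⟩ := h3 x
  have : (J k x : L s t hs ht) ≤ J k y ⊔ J k z := by
    rw [J_le]
    show _ ≤ (J k y : L s t hs ht).1.1 k ⊔ (J k z : L s t hs ht).1.1 k
    rw [J_self, J_self, atom_sup_atom h1]
    exact le_top' _
  rcases h.2 this with e | e
  · rw [J_le, J_self, atom_le_atom] at e; exact h2 e
  · rw [J_le, J_self, atom_le_atom] at e; exact h3 e

lemma W_prime {i : Fin 5} (hi : i ≠ 0) : SupPrime (W i : L s t hs ht) := by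
  constructor
  · intro h
    have := W_le.mp (h (bot_le : (⊥ : L s t hs ht) ≤ W i))
    exact hi (le_antisymm this (Fin.zero_le _))
  · intro b c h
    rw [W_le] at h
    rw [W_le, W_le]
    exact le_sup_iff.mp h

lemma irred_cases [Finite X] {y z : X} (hyz : y ≠ z) {a : L s t hs ht} (ha : SupIrred a) :
    (∃ k x, a = J k x) ∨ ∃ i, a = W i := by
  have := Fintype.ofFinite X
  let gen : (Fin 5 × X) ⊕ Fin 5 → L s t hs ht := Sum.elim (fun p => J p.1 p.2) W
  have : (Finset.univ.filter (fun p => gen p ≤ a)).sup gen = a := by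
    apply le_antisymm
    · exact Finset.sup_le fun p hp => (Finset.mem_filter.mp hp).2
    · apply ext_le hyz
      · intro k x h
        exact Finset.le_sup (f := gen) (b := Sum.inl (k, x))
          (Finset.mem_filter.mpr ⟨Finset.mem_univ _, h⟩)
      · intro i h
        exact Finset.le_sup (f := gen) (b := Sum.inr i)
          (Finset.mem_filter.mpr ⟨Finset.mem_univ _, h⟩)
  obtain ⟨p, _, hp⟩ := ha.finset_sup_eq this
  rcases p with ⟨k, x⟩ | i
  · exact Or.inl ⟨k, x, hp.symm⟩
  · exact Or.inr ⟨i, hp.symm⟩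

lemma iso_irred {α : Type} [Lattice α] (φ : α ≃o α) {a : α} (h : SupIrred a) :
    SupIrred (φ a) := by
  constructor
  · exact fun hm => h.1 fun b hb => φ.le_iff_le.mp (hm (φ.monotone hb))
  · intro b c e
    have : φ.symm b ⊔ φ.symm c = a := by rw [← φ.symm.map_sup, e]; simp
    rcases h.2 this with e | e
    · left; rw [← e]; simp
    · right; rw [← e]; simp

lemma iso_prime {α : Type} [Lattice α] (φ : α ≃o α) {a : α} (h : SupPrime a) :
    SupPrime (φ a) := by
  constructor
  · exact fun hm => h.1 fun b hb => φ.le_iff_le.mp (hm (φ.monotone hb))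
  · intro b c e
    have : a ≤ φ.symm b ⊔ φ.symm c := by rw [← φ.symm.map_sup]; exact φ.le_symm_apply.mpr e
    exact (h.2 this).imp φ.le_symm_apply.mp φ.le_symm_apply.mp

lemma iso_W [Finite X] [Nonempty X] (h3 : ∀ x : X, ∃ y z, y ≠ z ∧ x ≠ y ∧ x ≠ z)
    (φ : L s t hs ht ≃o L s t hs ht) (i : Fin 5) : φ (W i) = W i := by
  obtain ⟨y, z, hyz, -⟩ := h3 (Classical.arbitrary X)
  have : ∀ i, ∃ j, φ (W i) = W j := by
    intro i
    by_cases hi : i = 0
    · subst hi; exact ⟨0, φ.map_bot⟩
    · have hp := iso_prime φ (W_prime hi)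
      rcases irred_cases hyz hp.supIrred with ⟨k, x, e⟩ | h
      · exact absurd (e ▸ hp) (J_not_prime h3 k x)
      · exact h
  choose σ hσ using this
  have hm : StrictMono σ := by
    intro a b hab
    by_contra hc
    have : (W (σ b) : L s t hs ht) ≤ W (σ a) := W_le.mpr (not_lt.mp hc)
    rw [← hσ, ← hσ, φ.le_iff_le, W_le] at this
    exact absurd hab (not_lt.mpr this)
  rw [hσ, le_antisymm (hm.apply_le) (hm.le_apply)]

lemma iso_J [Finite X] [Nonempty X] (h3 : ∀ x : X, ∃ y z, y ≠ z ∧ x ≠ y ∧ x ≠ z)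
    (φ : L s t hs ht ≃o L s t hs ht) (k : Fin 5) (x : X) : ∃ x', φ (J k x) = J k x' := by
  obtain ⟨y, z, hyz, -⟩ := h3 x
  rcases irred_cases hyz (iso_irred φ (J_irred k x)) with ⟨k', x', e⟩ | ⟨i, e⟩
  · have key : ∀ i, i ≤ k ↔ i ≤ k' := fun i => by
      have : (W i : L s t hs ht) ≤ J k x ↔ (W i : L s t hs ht) ≤ J k' x' := by
        rw [← e, ← φ.le_iff_le, iso_W h3]
      rwa [W_le, W_le] at this
    have : k = k' := le_antisymm ((key k).mp le_rfl) ((key k').mpr le_rfl)
    subst this
    exact ⟨x', e⟩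
  · rw [← iso_W h3 φ i, φ.apply_eq_iff_eq] at e
    have := J_le.mp e.le
    exact absurd this (not_atom_le_bot _)

lemma iso_perm [Finite X] [Nonempty X] (h3 : ∀ x : X, ∃ y z, y ≠ z ∧ x ≠ y ∧ x ≠ z)
    (φ : L s t hs ht ≃o L s t hs ht) : ∃ π : X → X, (∀ k x, φ (J k x) = J k (π x)) ∧
      (∀ x y, atom x ≤ s y ↔ atom (π x) ≤ s (π y)) ∧
      (∀ x y, atom x ≤ t y ↔ atom (π x) ≤ t (π y)) := by
  choose π hπ using iso_J h3 φ
  have key : ∀ k l x y, atom x ≤ f s t k l (atom y) ↔ atom (π l x) ≤ f s t k l (atom (π k y)) := by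
    intro k l x y
    have : (J l x : L s t hs ht) ≤ J k y ↔ (J l (π l x) : L s t hs ht) ≤ J k (π k y) := by
      rw [← hπ, ← hπ, φ.le_iff_le]
    rwa [J_le, J_le] at this
  have e20 : ∀ x, π 0 x = π 2 x := fun x => by
    have := (key 2 0 x x).mp (by simp [f])
    simpa [f, atom_le_atom] using this
  have e1 : ∀ k, 2 ≤ k → ∀ x, π 1 x = π k x := fun k hk x => by
    have := (key k 1 x x).mp (by simp [f, hk])
    simpa [f, hk, atom_le_atom] using this
  have e : ∀ k x, π k x = π 1 x := by
    intro k x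
    fin_cases k
    · exact (e20 x).trans (e1 2 (by decide) x).symm
    · rfl
    · exact (e1 _ (by decide) x).symm
    · exact (e1 _ (by decide) x).symm
    · exact (e1 _ (by decide) x).symm
  refine ⟨π 1, fun k x => by rw [hπ, e], fun x y => ?_, fun x y => ?_⟩
  · have := key 3 0 x y
    rw [e 0, e 3] at this
    simpa [f, ext] using this
  · have := key 4 0 x y
    rw [e 0, e 4] at this
    simpa [f, ext] using this

lemma iso_ext [Finite X] [Nonempty X] (h3 : ∀ x : X, ∃ y z, y ≠ z ∧ x ≠ y ∧ x ≠ z)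
    (φ ψ : L s t hs ht ≃o L s t hs ht) (h : ∀ k x, φ (J k x) = ψ (J k x)) : φ = ψ := by
  obtain ⟨y, z, hyz, -⟩ := h3 (Classical.arbitrary X)
  have key : ∀ φ ψ : L s t hs ht ≃o L s t hs ht, (∀ k x, φ (J k x) = ψ (J k x)) →
      ∀ a, ψ.symm (φ a) ≥ a := by
    intro φ ψ h a
    apply ext_le hyz
    · intro k x hk
      rw [ψ.le_symm_apply, ← h, φ.le_iff_le]; exact hk
    · intro i hi
      rw [ψ.le_symm_apply, iso_W h3 ψ, ← iso_W h3 φ, φ.le_iff_le]; exact hi
  refine DFunLike.ext _ _ fun a => ?_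
  exact le_antisymm (φ.le_symm_apply.mp (key ψ φ (fun k x => (h k x).symm) a))
    (ψ.le_symm_apply.mp (key φ ψ h a))

def rank (a : L s t hs ht) : ℕ := (∑ k, rk (a.1.1 k)) + a.1.2

lemma rank_lt (a : L s t hs ht) : rank a < 15 := by
  unfold rank
  have h1 : ∑ k, rk (a.1.1 k) ≤ ∑ k : Fin 5, 2 := Finset.sum_le_sum fun k _ => rk_le _
  have h2 := a.1.2.2
  simp at h1
  omega

lemma rank_strictMono : StrictMono (rank : L s t hs ht → ℕ) := by
  intro a b hab
  obtain ⟨h1, h2⟩ := lt_iff_le_and_ne.mp hab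
  rw [L_le] at h1
  unfold rank
  by_cases e : a.1.1 = b.1.1
  · have : a.1.2 ≠ b.1.2 := fun e' => h2 (Subtype.ext (Prod.ext e e'))
    have := lt_of_le_of_ne h1.2 this
    rw [e]
    exact Nat.add_lt_add_left this _
  · obtain ⟨k, hk⟩ := Function.ne_iff.mp e
    have : ∑ k, rk (a.1.1 k) < ∑ k, rk (b.1.1 k) :=
      Finset.sum_lt_sum (fun k _ => rk_mono (h1.1 k))
        ⟨k, Finset.mem_univ _, rk_lt (lt_of_le_of_ne (h1.1 k) hk)⟩
    exact Nat.add_lt_add_of_lt_of_le this h1.2

lemma krull : Order.krullDim (L s t hs ht) ≤ ((14 : ℕ) : WithBot ℕ∞) := by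
  have hf : StrictMono (fun a : L s t hs ht => (⟨rank a, rank_lt a⟩ : Fin 15)) :=
    fun a b h => rank_strictMono h
  refine (Order.krullDim_le_of_strictMono _ hf).trans ?_
  unfold Order.krullDim
  refine iSup_le fun p => ?_
  have := p.length_lt_card
  simp only [Fintype.card_fin] at this
  exact_mod_cast Nat.le_of_lt_succ this

lemma dim [Finite X] : Nonempty (L s t hs ht ↪o (Fin 11 → ℕ)) := by
  obtain ⟨n, ⟨e⟩⟩ := Finite.exists_equiv_fin X
  let F : L s t hs ht → Option (Fin 5 × Bool) → ℕ := fun a p =>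
    p.elim a.1.2 fun q => emb e (a.1.1 q.1) q.2
  let u : Option (Fin 5 × Bool) ≃ Fin 11 := Fintype.equivFinOfCardEq (by simp)
  refine ⟨OrderEmbedding.ofMapLEIff (fun a j => F a (u.symm j)) fun a b => ?_⟩
  rw [L_le, Pi.le_def]
  constructor
  · intro h
    refine ⟨fun k => (emb_le e _ _).mp fun c => ?_, ?_⟩
    · simpa [F] using h (u (some (k, c)))
    · simpa [F] using h (u none)
  · intro h j
    rcases u.symm j with _ | ⟨k, c⟩
    · exact h.2
    · exact (emb_le e _ _).mpr (h.1 k) c

lemma card_le [Finite X] : Nat.card (L s t hs ht) ≤ (Nat.card X + 2) ^ 5 * 5 := by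
  have h1 : Nat.card (L s t hs ht) ≤ Nat.card ((Fin 5 → M X) × Fin 5) :=
    Nat.card_le_card_of_injective _ Subtype.val_injective
  rw [Nat.card_prod, Nat.card_fun, Nat.card_congr (equivOpt (X := X))] at h1
  simpa [Finite.card_option] using h1

end Lat

section Grp
variable {G : Type} [Group G] {m : ℕ} (γ : Fin (m + 1) → G)

def sG (p : G × Fin (m + 1)) : M (G × Fin (m + 1)) :=
  if h : p.2.1 + 1 < m + 1 then atom (p.1, ⟨p.2.1 + 1, h⟩) else top

def tG (p : G × Fin (m + 1)) : M (G × Fin (m + 1)) := atom (p.1 * γ p.2, p.2)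

lemma sG_good : Good (sG : G × Fin (m + 1) → _) := by
  intro x y hxy
  unfold sG
  split_ifs with h1 h2
  · apply atom_sup_atom
    intro e
    apply hxy
    simp only [Prod.mk.injEq, Fin.mk.injEq] at e
    exact Prod.ext e.1 (Fin.ext (by omega))
  · exact sup_eq_right.mpr (le_top' _)
  · exact sup_eq_left.mpr (le_top' _)
  · exact sup_eq_left.mpr (le_top' _)

lemma tG_good : Good (tG γ) := by
  intro x y hxy
  apply atom_sup_atom
  intro e
  apply hxy
  simp only [Prod.mk.injEq] at e
  refine Prod.ext ?_ e.2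
  have := e.1
  rw [e.2] at this
  exact mul_right_cancel this

abbrev LG : Type := L sG (tG γ) sG_good (tG_good γ)

def lm (g : G) (p : G × Fin (m + 1)) : G × Fin (m + 1) := (g * p.1, p.2)

lemma lm_inj (g : G) : Function.Injective (lm (m := m) g) := by
  intro x y e
  simp only [lm, Prod.mk.injEq] at e
  exact Prod.ext (mul_left_cancel e.1) e.2

lemma f_map (g : G) (k l : Fin 5) (a : M (G × Fin (m + 1))) :
    f sG (tG γ) k l (map (lm g) a) = map (lm g) (f sG (tG γ) k l a) := by
  unfold f
  split_ifs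
  · rfl
  · cases a with
    | bot => rfl
    | top => rfl
    | atom x =>
      show sG (lm g x) = map (lm g) (sG x)
      unfold sG
      by_cases h : x.2.1 + 1 < m + 1
      · rw [dif_pos h, dif_pos (show (lm g x).2.1 + 1 < m + 1 from h)]; rfl
      · rw [dif_neg h, dif_neg (show ¬ (lm g x).2.1 + 1 < m + 1 from h)]; rfl
  · cases a with
    | bot => rfl
    | top => rfl
    | atom x =>
      show atom (g * x.1 * γ x.2, x.2) = atom (g * (x.1 * γ x.2), x.2)
      rw [mul_assoc]
  · rfl

def act0 (g : G) (a : LG γ) : LG γ :=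
  ⟨(fun k => map (lm g) (a.1.1 k), a.1.2),
    fun k l => by
      show f sG (tG γ) k l (map (lm g) (a.1.1 k)) ≤ map (lm g) (a.1.1 l)
      rw [f_map, map_le_map (lm_inj g)]; exact a.2.1 k l,
    fun k hk => a.2.2 k (map_ne_bot _ hk)⟩

lemma act0_mul (g h : G) (a : LG γ) : act0 γ g (act0 γ h a) = act0 γ (g * h) a := by
  refine Subtype.ext (Prod.ext (funext fun k => ?_) rfl)
  show map _ (map _ _) = map _ _
  rw [map_map]
  congr 1
  funext p
  simp [lm, mul_assoc]

lemma act0_one (a : LG γ) : act0 γ 1 a = a := by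
  refine Subtype.ext (Prod.ext (funext fun k => ?_) rfl)
  exact map_id' _ (fun p => by simp [lm]) _

def act1 (g : G) : LG γ ≃o LG γ where
  toFun := act0 γ g
  invFun := act0 γ g⁻¹
  left_inv a := by rw [act0_mul, inv_mul_cancel, act0_one]
  right_inv a := by rw [act0_mul, mul_inv_cancel, act0_one]
  map_rel_iff' := by
    intro a b
    rw [L_le, L_le]
    exact and_congr (forall_congr' fun k => map_le_map (lm_inj g) _ _) Iff.rfl

def act : G →* (LG γ ≃o LG γ) :=
  MonoidHom.mk' (act1 γ) fun g h => by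
    refine DFunLike.ext _ _ fun a => ?_
    exact (act0_mul γ g h a).symm

lemma act_J (g : G) (k : Fin 5) (x : G × Fin (m + 1)) : act γ g (J k x) = J k (lm g x) := by
  refine Subtype.ext (Prod.ext (funext fun l => ?_) rfl)
  exact (f_map γ g k l (atom x)).symm

lemma three (hm : 2 ≤ m) (x : G × Fin (m + 1)) : ∃ y z, y ≠ z ∧ x ≠ y ∧ x ≠ z := by
  obtain ⟨g, i, hi⟩ := x
  by_cases h0 : i = 0
  · exact ⟨(g, ⟨1, by omega⟩), (g, ⟨2, by omega⟩), by simp, by simp [h0], by simp [h0]⟩
  by_cases h1 : i = 1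
  · exact ⟨(g, ⟨0, by omega⟩), (g, ⟨2, by omega⟩), by simp, by simp [h1], by simp [h1]⟩
  · exact ⟨(g, ⟨0, by omega⟩), (g, ⟨1, by omega⟩), by simp, by simpa using h0, by simpa using h1⟩

lemma centralizer (hm : 2 ≤ m) (hγ : Function.Surjective γ)
    (π : G × Fin (m + 1) → G × Fin (m + 1))
    (h1 : ∀ x y, atom x ≤ sG y ↔ atom (π x) ≤ sG (π y))
    (h2 : ∀ x y, atom x ≤ tG γ y ↔ atom (π x) ≤ tG γ (π y)) : ∃ g, ∀ x, π x = lm g x := by
  have step : ∀ (g : G) (i : ℕ) (hi : i + 1 < m + 1),
      (π (g, ⟨i + 1, hi⟩)).1 = (π (g, ⟨i, by omega⟩)).1 ∧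
      (π (g, ⟨i + 1, hi⟩)).2.1 = (π (g, ⟨i, by omega⟩)).2.1 + 1 := by
    intro g i hi
    have e : sG (g, (⟨i, by omega⟩ : Fin (m + 1))) = atom (g, ⟨i + 1, hi⟩) := dif_pos hi
    by_cases h : (π (g, ⟨i, by omega⟩)).2.1 + 1 < m + 1
    · have := (h1 (g, ⟨i + 1, hi⟩) (g, ⟨i, by omega⟩)).mp (by rw [e])
      unfold sG at this
      rw [dif_pos h, atom_le_atom] at this
      rw [this]
      exact ⟨rfl, rfl⟩
    · exfalso
      have := (h1 (g, ⟨i, by omega⟩) (g, ⟨i, by omega⟩)).mpr (by
        unfold sG; rw [dif_neg h]; exact le_top' _)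
      rw [e, atom_le_atom] at this
      simp at this
  have ind : ∀ (g : G) (i : ℕ) (hi : i < m + 1),
      (π (g, ⟨i, hi⟩)).1 = (π (g, 0)).1 ∧ (π (g, ⟨i, hi⟩)).2.1 = (π (g, 0)).2.1 + i := by
    intro g i
    induction i with
    | zero => intro hi; exact ⟨rfl, rfl⟩
    | succ i ih =>
      intro hi
      have a := step g i hi
      have b := ih (by omega)
      exact ⟨a.1.trans b.1, by omega⟩
  have form : ∀ (g : G) (i : Fin (m + 1)), π (g, i) = ((π (g, 0)).1, i) := by
    intro g i
    have a := ind g i.1 i.2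
    have b := (ind g m (by omega)).2
    have c := (π (g, ⟨m, by omega⟩)).2.2
    exact Prod.ext a.1 (Fin.ext (by
      have := a.2; simp only [Fin.eta] at this; show _ = i.1; omega))
  refine ⟨(π (1, 0)).1, fun x => ?_⟩
  obtain ⟨g, j⟩ := x
  obtain ⟨i, rfl⟩ := hγ g
  have := (h2 (1 * γ i, i) (1, i)).mp le_rfl
  unfold tG at this
  rw [atom_le_atom, form, form 1 i, one_mul] at this
  rw [form]
  simp only [Prod.mk.injEq, and_true] at this
  rw [this]
  rfl

theorem act_bij [Finite G] (hm : 2 ≤ m) (hγ : Function.Surjective γ) :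
    Function.Bijective (act γ) := by
  constructor
  · rw [injective_iff_map_eq_one]
    intro g hg
    have := act_J γ g 0 (1, 0)
    rw [hg] at this
    have h2 := J_le.mp this.le
    rw [J_self, atom_le_atom] at h2
    simpa [lm] using h2.symm
  · intro φ
    obtain ⟨π, hπ, h1, h2⟩ := iso_perm (three hm) φ
    obtain ⟨g, hg⟩ := centralizer γ hm hγ π h1 h2
    exact ⟨g, iso_ext (three hm) _ _ fun k x => by rw [act_J, hπ, hg]⟩

end Grp

theorem main (G : Type) [Group G] [Finite G] :
    ∃ (L : Type) (_ : Lattice L) (_ : IsModularLattice L) (_ : Finite L) (_ : Nonempty L),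
      Nonempty (G ≃* (L ≃o L)) ∧ Nonempty (L ↪o (Fin 11 → ℕ)) ∧
      Order.krullDim L ≤ ((14 : ℕ) : WithBot ℕ∞) ∧
      Nat.card L ≤ (Nat.card G * (Nat.card G + 2) + 2) ^ 5 * 5 := by
  have hpos : 0 < Nat.card G := Nat.card_pos
  let e := Finite.equivFin G
  let γ : Fin (Nat.card G + 1 + 1) → G := fun i => if h : i.1 < Nat.card G then e.symm ⟨i.1, h⟩ else 1
  have hγ : Function.Surjective γ := fun g =>
    ⟨⟨(e g).1, by have := (e g).2; omega⟩, by simp [γ]⟩
  refine ⟨LG γ, inferInstance, inferInstance, inferInstance, ⟨⊥⟩,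
    ⟨MulEquiv.ofBijective (act γ) (act_bij γ (by omega) hγ)⟩, dim, krull, ?_⟩
  have := card_le (s := sG) (t := tG γ) (hs := sG_good) (ht := tG_good γ)
  simpa [Nat.card_prod] using this

end Pool.Agent.H27.ModAut
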