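import Pool.Agent.H27.ProOrd1

set_option autoImplicit false

namespace Pool.Agent.H27.NOrd

open Set ProOrd
open scoped commutatorElement

variable {G : Type} [Group G] {Ω : Type} [LinearOrder Ω]

structure Rich (act : G → Ω → Ω) : Prop where
  one : ∀ t, act 1 t = t
  mul : ∀ g h t, act (g * h) t = act g (act h t)
  mono : ∀ g, StrictMono (act g)
  ext : ∀ g h, (∀ t, act g t = act h t) → g = h
  bdd : ∀ g, ∃ l r, ∀ t, t ≤ l ∨ r ≤ t → act g t = t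
  bump : ∀ a b x y, a < x → x < b → a < y → y < b →
    ∃ g, act g x = y ∧ ∀ t, t ≤ a ∨ b ≤ t → act g t = t
  up : ∀ t : Ω, ∃ s, t < s
  dn : ∀ t : Ω, ∃ s, s < t
  mid : ∀ s t : Ω, s < t → ∃ u, s < u ∧ u < t

variable {act : G → Ω → Ω}

lemma Rich.dual (h : Rich act) : Rich (Ω := Ωᵒᵈ) act where
  one := h.one
  mul := h.mul
  mono g := (h.mono g).dual
  ext := h.ext
  bdd g := by
    obtain ⟨l, r, e⟩ := h.bdd g
    exact ⟨r, l, fun t ht => e t ht.symm⟩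
  bump a b x y h1 h2 h3 h4 := by
    obtain ⟨g, g1, g2⟩ := h.bump b a x y h2 h1 h4 h3
    exact ⟨g, g1, fun t ht => g2 t ht.symm⟩
  up := h.dn
  dn := h.up
  mid s t e := by
    obtain ⟨u, a, b⟩ := h.mid t s e
    exact ⟨u, b, a⟩

namespace Rich

variable (h : Rich act)
include h

lemma inv_act (g : G) (t : Ω) : act g⁻¹ (act g t) = t := by rw [← h.mul, inv_mul_cancel, h.one]

lemma act_inv (g : G) (t : Ω) : act g (act g⁻¹ t) = t := by rw [← h.mul, mul_inv_cancel, h.one]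

lemma lt_iff (g : G) {s t : Ω} : act g s < act g t ↔ s < t := (h.mono g).lt_iff_lt

lemma le_iff (g : G) {s t : Ω} : act g s ≤ act g t ↔ s ≤ t := (h.mono g).le_iff_le

lemma inj (g : G) {s t : Ω} (e : act g s = act g t) : s = t := (h.mono g).injective e

lemma inv_fix {g : G} {t : Ω} (e : act g t = t) : act g⁻¹ t = t := by
  conv_lhs => rw [← e]
  exact h.inv_act g t

lemma up2 (s t : Ω) : ∃ u, s < u ∧ t < u := by
  obtain ⟨u, hu⟩ := h.up (max s t)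
  exact ⟨u, (le_max_left _ _).trans_lt hu, (le_max_right _ _).trans_lt hu⟩

lemma dn2 (s t : Ω) : ∃ u, u < s ∧ u < t := h.dual.up2 s t

lemma extend (g : G) {a x y : Ω} (hx : a < x) (hy : act g a < y) :
    ∃ g', (∀ t ≤ a, act g' t = act g t) ∧ act g' x = y := by
  obtain ⟨u, u1, u2⟩ := h.up2 (act g x) y
  obtain ⟨k, k1, k2⟩ := h.bump (act g a) u (act g x) y (h.mono g hx) u1 hy u2
  exact ⟨k * g, fun t ht => by rw [h.mul, k2 _ (Or.inl ((h.le_iff g).2 ht))], by rw [h.mul, k1]⟩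

lemma T1 (x y : Ω) : ∃ g, act g x = y := by
  obtain ⟨u, u1, u2⟩ := h.dn2 x y
  obtain ⟨g, -, hg⟩ := h.extend 1 (a := u) (x := x) (y := y) u1 (by rw [h.one]; exact u2)
  exact ⟨g, hg⟩

lemma T2 {x1 x2 y1 y2 : Ω} (a : x1 < x2) (b : y1 < y2) : ∃ g, act g x1 = y1 ∧ act g x2 = y2 := by
  obtain ⟨g, hg⟩ := h.T1 x1 y1
  obtain ⟨k, k1, k2⟩ := h.extend g a (hg ▸ b)
  exact ⟨k, by rw [k1 _ le_rfl, hg], k2⟩

lemma T4 {x1 x2 x3 x4 y1 y2 y3 y4 : Ω} (a : x1 < x2) (b : y1 < y2) (c : x2 < x3) (d : y2 < y3)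
    (e : x3 < x4) (f : y3 < y4) :
    ∃ g, act g x1 = y1 ∧ act g x2 = y2 ∧ act g x3 = y3 ∧ act g x4 = y4 := by
  obtain ⟨g, g1, g2⟩ := h.T2 a b
  obtain ⟨k, k1, k2⟩ := h.extend g c (g2 ▸ d)
  obtain ⟨l, l1, l2⟩ := h.extend k e (k2 ▸ f)
  refine ⟨l, ?_, ?_, ?_, l2⟩
  · rw [l1 _ (a.trans c).le, k1 _ a.le, g1]
  · rw [l1 _ c.le, k1 _ le_rfl, g2]
  · rw [l1 _ le_rfl, k2]

def Supp (U : Set Ω) : Subgroup G where
  carrier := {g | ∀ t, t ∉ U → act g t = t}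
  one_mem' := fun t _ => h.one t
  mul_mem' := fun {a b} ha hb t ht => by rw [h.mul, hb t ht, ha t ht]
  inv_mem' := fun {a} ha t ht => h.inv_fix (ha t ht)

lemma Supp_mono {U V : Set Ω} (e : U ⊆ V) : h.Supp U ≤ h.Supp V :=
  fun _ hg t ht => hg t fun ht' => ht (e ht')

lemma maps {U : Set Ω} {g : G} (hg : g ∈ h.Supp U) {t : Ω} (ht : t ∈ U) : act g t ∈ U := by
  by_contra hn
  have := h.inj g (hg _ hn)
  exact hn (this.symm ▸ ht)

lemma commute {U V : Set Ω} {g k : G} (hg : g ∈ h.Supp U) (hk : k ∈ h.Supp V)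
    (hd : ∀ t, t ∈ U → t ∉ V) : Commute g k := by
  apply h.ext
  intro t
  rw [h.mul, h.mul]
  by_cases h1 : t ∈ U
  · rw [hk t (hd t h1), hk _ (hd _ (h.maps hg h1))]
  · rw [hg t h1]
    by_cases h2 : t ∈ V
    · exact hg _ fun h3 => hd _ h3 (h.maps hk h2)
    · rw [hk t h2, hg t h1]

lemma conj_supp {U V : Set Ω} {g : G} (hg : g ∈ h.Supp U) (k : G) (e : ∀ t ∈ U, act k t ∈ V) :
    k * g * k⁻¹ ∈ h.Supp V := by
  intro t ht
  rw [h.mul, h.mul, hg _ fun hn => ht (h.act_inv k t ▸ e _ hn), h.act_inv]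

lemma supp_le {l r l' r' : Ω} (e : l' ≤ l) (e' : r ≤ r') : h.Supp (Ioo l r) ≤ h.Supp (Ioo l' r') :=
  h.Supp_mono (Ioo_subset_Ioo e e')

lemma exists_supp (g : G) : ∃ l r, g ∈ h.Supp (Ioo l r) := by
  obtain ⟨l, r, e⟩ := h.bdd g
  refine ⟨l, r, fun t ht => e t ?_⟩
  rwa [mem_Ioo, not_and_or, not_lt, not_lt] at ht

lemma exists_supp2 (g k : G) : ∃ l r, l < r ∧ g ∈ h.Supp (Ioo l r) ∧ k ∈ h.Supp (Ioo l r) := by
  obtain ⟨l1, r1, h1⟩ := h.exists_supp g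
  obtain ⟨l2, r2, h2⟩ := h.exists_supp k
  obtain ⟨u, u1, u2⟩ := h.up2 (min l1 l2) (max r1 r2)
  exact ⟨min l1 l2, u, u1, h.supp_le (min_le_left _ _) ((le_max_left _ _).trans u2.le) h1,
    h.supp_le (min_le_right _ _) ((le_max_right _ _).trans u2.le) h2⟩

lemma conj_trick (g a : G) : ∃ g' ∈ commutator G, g' * a * g'⁻¹ = g * a * g⁻¹ := by
  obtain ⟨l, r, -, h1, h2⟩ := h.exists_supp2 g a
  obtain ⟨t, ht⟩ := h.T1 l r
  have c : Commute a (t * g⁻¹ * t⁻¹) := by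
    refine h.commute h2 (h.conj_supp (V := Ioi r) (Subgroup.inv_mem _ h1) t fun s hs => ?_) ?_
    · rw [mem_Ioi, ← ht]; exact h.mono t hs.1
    · intro s hs hs'
      exact lt_asymm hs.2 hs'
  refine ⟨⁅g, t⁆, Subgroup.commutator_mem_commutator (Subgroup.mem_top g) (Subgroup.mem_top t), ?_⟩
  calc ⁅g, t⁆ * a * ⁅g, t⁆⁻¹ = g * ((t * g⁻¹ * t⁻¹) * a) * (t * g⁻¹ * t⁻¹)⁻¹ * g⁻¹ := by
        rw [commutatorElement_def]; group
    _ = _ := by rw [← c.eq]; group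

lemma comm_union {u : G} (hu : u ∈ commutator G) (l0 r0 : Ω) :
    ∃ l r, l < l0 ∧ r0 < r ∧ u ∈ ⁅h.Supp (Ioo l r), h.Supp (Ioo l r)⁆ := by
  have mono : ∀ {l r l' r' : Ω}, l' ≤ l → r ≤ r' → ⁅h.Supp (Ioo l r), h.Supp (Ioo l r)⁆ ≤
      ⁅h.Supp (Ioo l' r'), h.Supp (Ioo l' r')⁆ :=
    fun e e' => Subgroup.commutator_mono (h.supp_le e e') (h.supp_le e e')
  obtain ⟨l1, e1⟩ := h.dn l0
  obtain ⟨r1, e2⟩ := h.up r0
  rw [commutator_def, Subgroup.commutator_def] at hu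
  induction hu using Subgroup.closure_induction with
  | mem x hx =>
    obtain ⟨a, -, b, -, rfl⟩ := hx
    obtain ⟨l, r, -, h1, h2⟩ := h.exists_supp2 a b
    exact ⟨min l l1, max r r1, min_lt_of_right_lt e1, lt_max_of_lt_right e2,
      mono (min_le_left _ _) (le_max_left _ _) (Subgroup.commutator_mem_commutator h1 h2)⟩
  | one => exact ⟨l1, r1, e1, e2, Subgroup.one_mem _⟩
  | mul x y _ _ a b =>
    obtain ⟨l, r, p1, p2, h1⟩ := a
    obtain ⟨l', r', -, -, h2⟩ := b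
    exact ⟨min l l', max r r', min_lt_of_left_lt p1, lt_max_of_lt_left p2,
      Subgroup.mul_mem _ (mono (min_le_left _ _) (le_max_left _ _) h1)
      (mono (min_le_right _ _) (le_max_right _ _) h2)⟩
  | inv x _ a =>
    obtain ⟨l, r, p1, p2, h1⟩ := a
    exact ⟨l, r, p1, p2, Subgroup.inv_mem _ h1⟩

lemma squeeze {u : G} (hu : u ∈ commutator G) {x y α β : Ω} (hs : u ∈ h.Supp (Ioo x y))
    (h1 : α < x) (h2 : x < y) (h3 : y < β) : u ∈ ⁅h.Supp (Ioo α β), h.Supp (Ioo α β)⁆ := by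
  obtain ⟨l, r, r1, r2, hR⟩ := h.comm_union hu α β
  obtain ⟨l', e1⟩ := h.dn l
  obtain ⟨r', e2⟩ := h.up r
  obtain ⟨g1, a1, a2⟩ := h.bump l' x l α e1 (r1.trans h1) (e1.trans r1) h1
  obtain ⟨g2, b1, b2⟩ := h.bump y r' r β (h3.trans r2) e2 h3 (r2.trans e2)
  have e1 : act (g1 * g2) l = α := by rw [h.mul, b2 _ (Or.inl (by order)), a1]
  have e2 : act (g1 * g2) r = β := by rw [h.mul, b1, a2 _ (Or.inr (by order))]
  have c : Commute u (g1 * g2) := by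
    refine h.commute hs (V := (Ioo x y)ᶜ) (fun t ht => ?_) (fun t ht hn => hn ht)
    have ht' : t ∈ Ioo x y := not_not.1 ht
    rw [h.mul, b2 _ (Or.inl ht'.2.le), a2 _ (Or.inr ht'.1.le)]
  have hm : (h.Supp (Ioo l r)).map (MulAut.conj (g1 * g2)).toMonoidHom ≤ h.Supp (Ioo α β) := by
    rintro _ ⟨k, hk, rfl⟩
    refine h.conj_supp hk (g1 * g2) fun t ht => ⟨?_, ?_⟩
    · rw [← e1]; exact h.mono _ ht.1
    · rw [← e2]; exact h.mono _ ht.2
  have := Subgroup.mem_map_of_mem (MulAut.conj (g1 * g2)).toMonoidHom hR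
  rw [Subgroup.map_commutator] at this
  have := Subgroup.commutator_mono hm hm this
  have e3 : (MulAut.conj (g1 * g2)).toMonoidHom u = u := by
    change g1 * g2 * u * (g1 * g2)⁻¹ = u
    rw [← c.eq]; group
  rwa [e3] at this

end Rich

def Up (act : G → Ω → Ω) (b c : G) : Prop :=
  ∃ r t, r < act b r ∧ act b r < t ∧ ∀ s ≤ t, act b s = act c s

def Dn (act : G → Ω → Ω) (b c : G) : Prop :=
  ∃ r t, act b r < r ∧ r < t ∧ ∀ s ≤ t, act b s = act c s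

namespace Rich

variable (h : Rich act)
include h

lemma agree_inv {b c : G} {t : Ω} (e : ∀ s ≤ t, act b s = act c s) :
    ∀ s ≤ act b t, act b⁻¹ s = act c⁻¹ s := by
  intro s hs
  have h1 : act b⁻¹ s ≤ t := by rw [← h.le_iff b, h.act_inv]; exact hs
  have := e _ h1
  rw [h.act_inv] at this
  conv_rhs => rw [this, h.inv_act]

lemma Up_inv {b c : G} (e : Up act b c) : Dn act b⁻¹ c⁻¹ := by
  obtain ⟨r, t, h1, h2, h3⟩ := e
  exact ⟨act b r, act b t, by rwa [h.inv_act], h.mono b (h1.trans h2), h.agree_inv h3⟩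

lemma Dn_inv {b c : G} (e : Dn act b c) : Up act b⁻¹ c⁻¹ := by
  obtain ⟨r, t, h1, h2, h3⟩ := e
  refine ⟨act b (act b r), act b t, ?_, ?_, h.agree_inv h3⟩
  · rw [h.inv_act]; exact h.mono b h1
  · rw [h.inv_act]; exact h.mono b h2

lemma stage {β γ : G} {r1 r2 r3 : Ω} (r12 : r1 < r2) (r23 : r2 < r3)
    (e : ∀ s ≤ r3, act β s = act γ s)
    {x1 x2 x3 x4 : Ω} (h12 : x1 < x2) (h23 : x2 < x3) (h34 : x3 < x4) :
    ∃ b1 c1, InS β b1 ∧ InS γ c1 ∧ (∀ t ≤ x3, act b1 t = act c1 t) ∧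
      (∀ t, x4 ≤ t → act b1 t = t ∧ act c1 t = t) ∧ (act β r1 = r2 → act b1 x1 = x2) ∧
      (act β r2 = r1 → act b1 x2 = x1) := by
  obtain ⟨l, r, -, s1, s2⟩ := h.exists_supp2 β γ
  obtain ⟨r4, a1, a2⟩ := h.up2 r r3
  obtain ⟨g, g1, g2, g3, g4⟩ := h.T4 r12 h12 r23 h23 a2 h34
  refine ⟨g * β * g⁻¹, g * γ * g⁻¹, InS.conj g, InS.conj g, fun t ht => ?_, fun t ht => ?_,
    fun h1 => ?_, fun h1 => ?_⟩
  · simp only [h.mul]
    rw [e _ (by rw [← h.le_iff g, h.act_inv, g3]; exact ht)]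
  · have h1 : r4 ≤ act g⁻¹ t := by rw [← h.le_iff g, h.act_inv, g4]; exact ht
    simp only [h.mul]
    rw [s1 _ (fun hn => absurd hn.2 (by order)), s2 _ (fun hn => absurd hn.2 (by order)),
      h.act_inv]
    exact ⟨rfl, rfl⟩
  · rw [h.mul, h.mul, ← g1, h.inv_act, h1, g2]
  · rw [h.mul, h.mul, ← g2, h.inv_act, h1, g1]

lemma finish {b c b1 c1 b2 c2 : G} (hb : b ∈ commutator G) (hc : c ∈ commutator G)
    (i1 : InS b b1) (j1 : InS c c1) (i2 : InS b b2) (j2 : InS c c2) {U V : Set Ω}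
    (hUV : ∀ t, t ∈ U → t ∉ V) (hU : ∀ t ∈ U, act (b2 * b1) t ∈ V)
    (hV : ∀ t ∈ V, act (b2 * b1) t ∈ V) {α1 x1 y1 β1 α2 x2 y2 β2 : Ω}
    (s1 : b1⁻¹ * c1 ∈ h.Supp (Ioo x1 y1)) (s2 : c2 * b2⁻¹ ∈ h.Supp (Ioo x2 y2))
    (a1 : α1 < x1) (a2 : x1 < y1) (a3 : y1 < β1) (a4 : α2 < x2) (a5 : x2 < y2) (a6 : y2 < β2)
    (u1 : Ioo α1 β1 ⊆ U) (u2 : Ioo α2 β2 ⊆ U) : ∃ d, InS b d ∧ InS c d := by
  have m1 := Subgroup.commutator_mono (h.Supp_mono u1) (h.Supp_mono u1) (h.squeeze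
    (Subgroup.mul_mem _ (Subgroup.inv_mem _ (i1.mem hb)) (j1.mem hc)) s1 a1 a2 a3)
  have m2 := Subgroup.commutator_mono (h.Supp_mono u2) (h.Supp_mono u2) (h.squeeze
    (Subgroup.mul_mem _ (j2.mem hc) (Subgroup.inv_mem _ (i2.mem hb))) s2 a4 a5 a6)
  have hp : ∀ n : ℕ, ∀ t ∈ U, act ((b2 * b1) ^ (n + 1)) t ∈ V := by
    intro n
    induction n with
    | zero => simpa using hU
    | succ n ih => intro t ht; rw [pow_succ', h.mul]; exact hV _ (ih t ht)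
  obtain ⟨d, d1, d2⟩ := wander (e := b2 * b1) (H := h.Supp U)
    (fun n x hx y hy => h.commute hx (h.conj_supp hy _ (hp n)) hUV) (Subgroup.mul_mem _ m1 m2)
  refine ⟨d, (i2.mul i1).trans d1, InS.trans ?_ d2⟩
  have := (j2.mul j1).conj_mem (b1⁻¹ * c1)
  rwa [show b1⁻¹ * c1 * (c2 * c1) * (b1⁻¹ * c1)⁻¹ = b1⁻¹ * c1 * (c2 * b2⁻¹) * (b2 * b1) by group]
    at this

lemma meet1 {b c c' c'' : G} (hb : b ∈ commutator G) (hc : c ∈ commutator G) (k1 : InS c c')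
    (k2 : InS c c'') (e1 : Up act b c')
    (e2 : Up (Ω := Ωᵒᵈ) act b c'' ∨ Dn (Ω := Ωᵒᵈ) act b c'') : ∃ d, InS b d ∧ InS c d := by
  obtain ⟨t0, t, q1, q2, q3⟩ := e1
  obtain ⟨t1, o1⟩ := h.up t0
  obtain ⟨t2, o2⟩ := h.up t1
  obtain ⟨t3, o3⟩ := h.up t2
  obtain ⟨tm, o4⟩ := h.up t3
  obtain ⟨t4, o5⟩ := h.up tm
  obtain ⟨t5, o6⟩ := h.up t4
  obtain ⟨t6, o7⟩ := h.up t5
  obtain ⟨b1, c1, i1, j1, l1, l2, l3, -⟩ := h.stage q1 q2 q3 (x1 := t0) (x2 := t3) (x3 := t4)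
    (x4 := t5) (by order) (by order) (by order)
  have l3' := l3 rfl
  have s1 : b1⁻¹ * c1 ∈ h.Supp (Ioo t4 t5) := by
    intro t ht
    rw [mem_Ioo, not_and_or, not_lt, not_lt] at ht
    rcases ht with ht | ht
    · rw [h.mul, ← l1 t ht, h.inv_act]
    · rw [h.mul, (l2 t ht).2, h.inv_fix (l2 t ht).1]
  have right : ∀ r1 r2 r3 x1 x2 : Ω, r2 < r1 → r3 < r2 → (∀ s, r3 ≤ s → act b s = act c'' s) →
      x2 < x1 → t2 < x2 → ∃ b2 c2, InS b b2 ∧ InS c c2 ∧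
      c2 * b2⁻¹ ∈ h.Supp (Ioo t1 (act b2 t2)) ∧ t1 < act b2 t2 ∧
      (act b r1 = r2 → act b2 x1 = x2) ∧ (act b r2 = r1 → act b2 x2 = x1) := by
    intro r1 r2 r3 x1 x2 a1 a2 a3 h12 h23
    obtain ⟨b2, c2, i2, j2, m1, m2, m3, m4⟩ := h.dual.stage (r1 := r1) (r2 := r2) (r3 := r3)
      a1 a2 a3 (x1 := x1) (x2 := x2) (x3 := t2) (x4 := t1) h12 h23 o2
    have m1' : ∀ t : Ω, t2 ≤ t → act b2 t = act c2 t := m1
    have m2' : ∀ t : Ω, t ≤ t1 → act b2 t = t ∧ act c2 t = t := m2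
    refine ⟨b2, c2, i2, k2.trans j2, ?_, ?_, m3, m4⟩
    · intro t ht
      rw [mem_Ioo, not_and_or, not_lt, not_lt] at ht
      rcases ht with ht | ht
      · rw [h.mul, h.inv_fix (m2' t ht).1, (m2' t ht).2]
      · have h1 : t2 ≤ act b2⁻¹ t := by rw [← h.le_iff b2, h.act_inv]; exact ht
        rw [h.mul, ← m1' _ h1, h.act_inv]
    · rw [← (m2' t1 le_rfl).1]; exact h.mono b2 o2
  rcases e2 with ⟨r, t', p1, p2, p3⟩ | ⟨r, t', p1, p2, p3⟩
  · obtain ⟨b2, c2, i2, j2, s2, m1, m2, -⟩ := right r (act b r) t' t6 tm p1 p2 p3 (by order)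
      (by order)
    have l4 : act b2 t6 = tm := m2 rfl
    have e0 : act (b2 * b1) t0 = act b2 t3 := by rw [h.mul, l3']
    have e6 : act (b2 * b1) t6 = tm := by rw [h.mul, (l2 t6 o7.le).1, l4]
    have y1 : act b2 t3 < tm := by rw [← l4]; exact h.mono _ (by order)
    have y2 : act b2 t2 < act b2 t3 := h.mono _ o3
    have hm : ∀ t, t0 < t → t < t6 → act (b2 * b1) t ∈ Ioo (act b2 t3) tm := by
      intro t a0 a6
      constructor
      · rw [← e0]; exact h.mono _ a0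
      · rw [← e6]; exact h.mono _ a6
    refine h.finish hb hc i1 (k1.trans j1) i2 j2
      (U := Ioo t0 (act b2 t3) ∪ Ioo tm t6) (V := Ioo (act b2 t3) tm)
      (fun t ht hn => ?_) (fun t ht => ?_) (fun t ht => ?_) s1 s2
      (α1 := tm) (β1 := t6) (α2 := t0) (β2 := act b2 t3) o5 o6 o7 o1 m1 y2
      subset_union_right subset_union_left
    · rcases ht with ht | ht
      · exact lt_asymm ht.2 hn.1
      · exact lt_asymm ht.1 hn.2
    · rcases ht with ⟨a, b⟩ | ⟨a, b⟩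
      · exact hm t a (by order)
      · exact hm t (by order) b
    · obtain ⟨a, b⟩ := ht
      exact hm t (by order) (by order)
  · obtain ⟨b2, c2, i2, j2, s2, m1, -, m2⟩ := right (act b r) r t' t6 t3 p1 p2 p3 (by order) o3
    have l4 : act b2 t3 = t6 := m2 rfl
    have e0 : act (b2 * b1) t0 = t6 := by rw [h.mul, l3', l4]
    refine h.finish hb hc i1 (k1.trans j1) i2 j2 (U := Ioo t0 t6) (V := Ioi t6)
      (fun t ht hn => lt_asymm ht.2 hn) (fun t ht => ?_) (fun t ht => ?_) s1 s2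
      (α1 := t0) (β1 := t6) (α2 := t0) (β2 := t6) (by order) o6 o7 o1 m1 ?_ subset_rfl subset_rfl
    · rw [mem_Ioi, ← e0]; exact h.mono _ ht.1
    · have : t6 < t := ht
      rw [mem_Ioi, ← e0]; exact h.mono _ (by order)
    · rw [← l4]; exact h.mono _ o3

lemma meet {b c c' c'' : G} (hb : b ∈ commutator G) (hc : c ∈ commutator G) (k1 : InS c c')
    (k2 : InS c c'') (e1 : Up act b c' ∨ Dn act b c')
    (e2 : Up (Ω := Ωᵒᵈ) act b c'' ∨ Dn (Ω := Ωᵒᵈ) act b c'') : ∃ d, InS b d ∧ InS c d := by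
  rcases e1 with e1 | e1
  · exact h.meet1 hb hc k1 k2 e1 e2
  · obtain ⟨d, d1, d2⟩ := h.meet1 (Subgroup.inv_mem _ hb) (Subgroup.inv_mem _ hc) k1.inv k2.inv
      (h.Dn_inv e1) (e2.elim (fun e => Or.inr (h.dual.Up_inv e)) fun e => Or.inl (h.dual.Dn_inv e))
    exact ⟨d⁻¹, by simpa using d1.inv, by simpa using d2.inv⟩

end Rich

def fixL (act : G → Ω → Ω) (g : G) : Set Ω := {t | ∀ s ≤ t, act g s = s}

structure Germ (act : G → Ω → Ω) {A : Type} [Group A] (lam : G → A) : Prop where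
  one : lam 1 = 1
  ne : ∀ g, lam g = 1 → g = 1
  mul : ∀ g k, fixL act g = fixL act k → lam g * lam k ≠ 1 → lam (g * k) = lam g * lam k
  agree : ∀ g k t, t ∉ fixL act g → (∀ s ≤ t, act k s = act g s) → lam k = lam g
  conv : ∀ g k, g ≠ 1 → fixL act g = fixL act k → lam g = lam k →
    ∃ t, t ∉ fixL act g ∧ ∀ s ≤ t, act g s = act k s
  conj : ∀ g k, IsConj (lam g) (lam (k * g * k⁻¹))
  strong : ∀ g k β, g ≠ 1 → k ≠ 1 →
    ∃ m, fixL act (m * g * m⁻¹) = fixL act k ∧ lam (m * g * m⁻¹) = β * lam g * β⁻¹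
  real : ∀ α, ∃ g, lam g = α
  inv : ∀ g, lam g⁻¹ = (lam g)⁻¹

def OrdSet (H : Type) [Group H] : Set (Set H) := {P | Cone P ∧ ∀ a, a ∈ P ∨ a⁻¹ ∈ P}

def Phi {A : Type} (lam : G → A) (Q : Set A) : Set (commutator G) := {g | lam g ∈ Q}

lemma Cone.isConj {A : Type} [Group A] {Q : Set A} (hQ : Cone Q) {a b : A} (e : IsConj a b)
    (ha : a ∈ Q) : b ∈ Q := by
  obtain ⟨c, rfl⟩ := isConj_iff.1 e
  exact hQ.conj _ ha c

namespace Rich

variable (h : Rich act) {A : Type} [Group A] {lam : G → A} (L : Germ act lam)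
include h

lemma not_fix {g : G} (hg : g ≠ 1) {l r : Ω} (s : g ∈ h.Supp (Ioo l r)) : r ∉ fixL act g := by
  intro hr
  refine hg (h.ext _ _ fun t => ?_)
  rw [h.one]
  rcases le_total t r with e | e
  · exact hr t e
  · exact s t fun hn => absurd hn.2 (not_lt.2 e)

lemma conj_mem {P : Set (commutator G)} (hP : Cone P) {g : commutator G} (hg : g ∈ P) (m : G) :
    ∃ g' ∈ P, (g' : G) = m * g * m⁻¹ := by
  obtain ⟨m', hm', e⟩ := h.conj_trick m g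
  exact ⟨_, hP.conj _ hg ⟨m', hm'⟩, e⟩

lemma inS_mem {P : Set (commutator G)} (hP : Cone P) {g : commutator G} (hg : g ∈ P) {d : G}
    (e : InS (g : G) d) : ∃ d' ∈ P, (d' : G) = d := by
  induction e with
  | conj k => exact h.conj_mem hP hg k
  | mul _ _ i1 i2 =>
    obtain ⟨x, hx, rfl⟩ := i1
    obtain ⟨y, hy, rfl⟩ := i2
    exact ⟨x * y, hP.mul _ hx _ hy, rfl⟩

include L

lemma updn {b c : G} (hb : b ≠ 1) (hc : c ≠ 1) (e : IsConj (lam c) (lam b)) :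
    ∃ c', InS c c' ∧ (Up act b c' ∨ Dn act b c') := by
  obtain ⟨β, hβ⟩ := isConj_iff.1 e
  obtain ⟨m, m1, m2⟩ := L.strong c b β hc hb
  obtain ⟨t, t1, t2⟩ := L.conv b _ hb m1.symm (by rw [m2, hβ])
  refine ⟨_, InS.conj m, ?_⟩
  simp only [fixL, mem_ofPred_eq, not_forall] at t1
  obtain ⟨s, hs, hne⟩ := t1
  rcases lt_or_gt_of_ne hne with h1 | h1
  · exact Or.inr ⟨act b s, t, h.mono b h1, h1.trans_le hs, t2⟩
  · have h2 : act b⁻¹ s < s := by rw [← h.lt_iff b, h.act_inv]; exact h1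
    refine Or.inl ⟨act b⁻¹ (act b⁻¹ s), t, ?_, ?_, t2⟩
    · rw [h.act_inv]; exact h.mono _ h2
    · rw [h.act_inv]; exact h2.trans_le hs

lemma real' (α : A) : ∃ g : commutator G, lam g = α := by
  obtain ⟨g, rfl⟩ := L.real α
  by_cases hg : g = 1
  · exact ⟨1, by rw [hg]; rfl⟩
  obtain ⟨l, r, s⟩ := h.exists_supp g
  obtain ⟨t, ht⟩ := h.T1 l r
  have s2 : t * g⁻¹ * t⁻¹ ∈ h.Supp (Ioi r) :=
    h.conj_supp (Subgroup.inv_mem _ s) t fun x hx => by rw [mem_Ioi, ← ht]; exact h.mono t hx.1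
  refine ⟨⟨⁅g, t⁆, Subgroup.commutator_mem_commutator (Subgroup.mem_top g) (Subgroup.mem_top t)⟩,
    L.agree g _ r (h.not_fix hg s) fun x hx => ?_⟩
  change act ⁅g, t⁆ x = _
  rw [show ⁅g, t⁆ = g * (t * g⁻¹ * t⁻¹) by rw [commutatorElement_def]; group, h.mul,
    s2 x (not_lt.2 hx)]

lemma phi_mem {Q : Set A} (hQ : Q ∈ OrdSet A) : Phi lam Q ∈ OrdSet (commutator G) := by
  refine ⟨⟨?_, fun g hg k hk => ?_, fun g hg k => ?_, fun g h1 h2 => ?_⟩, fun g => ?_⟩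
  · change lam 1 ∈ Q
    rw [L.one]; exact hQ.1.one
  · change lam (g * k) ∈ Q
    by_cases e : fixL act (g : G) = fixL act (k : G)
    · by_cases e2 : lam g * lam k = 1
      · have : lam g = 1 := hQ.1.pure _ hg (by rw [← eq_inv_of_mul_eq_one_right e2]; exact hk)
        rw [L.ne _ this, one_mul]; exact hk
      · rw [L.mul _ _ e e2]; exact hQ.1.mul _ hg _ hk
    · by_cases e2 : fixL act (k : G) ⊆ fixL act (g : G)
      · obtain ⟨t, t1, t2⟩ : ∃ t, t ∈ fixL act (g : G) ∧ t ∉ fixL act (k : G) := by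
          by_contra hn
          push Not at hn
          exact e (subset_antisymm hn e2)
        rw [L.agree k (g * k) (act (k : G)⁻¹ t) (fun hn => t2 ?_) (fun s hs => ?_)]
        · exact hk
        · have := hn _ le_rfl
          rw [h.act_inv] at this
          rwa [← this] at hn
        · rw [h.mul, t1 _ (by rw [← h.act_inv k t]; exact (h.le_iff _).2 hs)]
      · obtain ⟨t, t1, t2⟩ := not_subset.1 e2
        rw [L.agree g (g * k) t t2 (fun s hs => by rw [h.mul, t1 s hs])]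
        exact hg
  · exact Cone.isConj hQ.1 (L.conj g k) hg
  · have h2' : lam (g : G)⁻¹ ∈ Q := h2
    rw [L.inv] at h2'
    exact Subtype.ext (L.ne _ (hQ.1.pure _ h1 h2'))
  · change lam g ∈ Q ∨ lam (g : G)⁻¹ ∈ Q
    rw [L.inv]; exact hQ.2 _

lemma phi_inj : Function.Injective (Phi lam) := by
  intro Q Q' e
  ext α
  obtain ⟨g, rfl⟩ := h.real' L α
  exact Set.ext_iff.1 e g

lemma typeL {P : Set (commutator G)} (hP : P ∈ OrdSet (commutator G))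
    (e : ∀ g g' : commutator G, IsConj (lam g) (lam g') → g ∈ P → g' ∈ P) :
    ∃ Q ∈ OrdSet A, Phi lam Q = P := by
  refine ⟨{α | ∃ g ∈ P, lam g = α}, ⟨⟨⟨1, hP.1.one, L.one⟩, ?_, ?_, ?_⟩, fun α => ?_⟩, ?_⟩
  · rintro _ ⟨g, hg, rfl⟩ _ ⟨k, hk, rfl⟩
    by_cases g1 : (g : G) = 1
    · rw [g1, L.one, one_mul]; exact ⟨k, hk, rfl⟩
    by_cases k1 : (k : G) = 1
    · rw [k1, L.one, mul_one]; exact ⟨g, hg, rfl⟩
    by_cases e2 : lam g * lam k = 1
    · rw [e2]; exact ⟨1, hP.1.one, L.one⟩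
    obtain ⟨m, m1, m2⟩ := L.strong k g 1 k1 g1
    obtain ⟨k', hk', e3⟩ := h.conj_mem hP.1 hk m
    rw [← e3] at m1 m2
    rw [one_mul, inv_one, mul_one] at m2
    rw [← m2] at e2 ⊢
    exact ⟨g * k', hP.1.mul _ hg _ hk', L.mul _ _ m1.symm e2⟩
  · rintro _ ⟨g, hg, rfl⟩ β
    obtain ⟨k, hk⟩ := h.real' L (β * lam g * β⁻¹)
    exact ⟨k, e g k (isConj_iff.2 ⟨β, hk.symm⟩) hg, hk⟩
  · rintro _ ⟨g, hg, rfl⟩ ⟨k, hk, e2⟩
    have := e k g⁻¹ (by rw [e2, ← L.inv]; exact IsConj.refl _) hk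
    rw [hP.1.pure _ hg this]; exact L.one
  · obtain ⟨g, rfl⟩ := h.real' L α
    rcases hP.2 g with h1 | h1
    · exact Or.inl ⟨g, h1, rfl⟩
    · exact Or.inr ⟨g⁻¹, h1, L.inv g⟩
  · ext g
    exact ⟨fun ⟨k, hk, e2⟩ => e k g (e2 ▸ IsConj.refl _) hk, fun hg => ⟨g, hg, rfl⟩⟩

variable {B : Type} [Group B] {mu : G → B} (M : Germ (Ω := Ωᵒᵈ) act mu)
include M

lemma splice {g k : G} (hg : g ≠ 1) (hk : k ≠ 1) :
    ∃ m, lam (g * (m * k * m⁻¹)) = lam g ∧ IsConj (mu k) (mu (g * (m * k * m⁻¹))) := by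
  obtain ⟨l, r, -, s1, s2⟩ := h.exists_supp2 g k
  obtain ⟨m, hm⟩ := h.T1 l r
  have s3 : m * k * m⁻¹ ∈ h.Supp (Ioo r (act m r)) :=
    h.conj_supp s2 m fun x hx => ⟨by rw [← hm]; exact h.mono m hx.1, h.mono m hx.2⟩
  refine ⟨m, L.agree g _ r (h.not_fix hg s1) fun x hx => ?_, (M.conj k m).trans ?_⟩
  · rw [h.mul, s3 x fun hn => absurd hn.1 (not_lt.2 hx)]
  · have hk' : m * k * m⁻¹ ≠ 1 := by simpa using hk
    rw [M.agree (m * k * m⁻¹) (g * (m * k * m⁻¹)) r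
      (h.dual.not_fix hk' (l := act m r) (r := r) fun t ht => s3 t fun hn => ht ⟨hn.2, hn.1⟩)
      fun x hx => ?_]
    have hx' : r ≤ OrderDual.ofDual x := hx
    have : r ≤ act (m * k * m⁻¹) x := by
      rw [← s3 r fun hn => lt_irrefl _ hn.1]; exact (h.le_iff _).2 hx'
    exact (h.mul _ _ _).trans (s1 _ fun hn => absurd hn.2 (not_lt.2 this))

lemma same {P : Set (commutator G)} (hP : P ∈ OrdSet (commutator G)) {g g' : commutator G}
    (e1 : IsConj (lam g) (lam g')) (e2 : IsConj (mu g) (mu g')) (hg : g ∈ P) : g' ∈ P := by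
  by_cases h1 : (g' : G) = 1
  · rw [show g' = 1 from Subtype.ext h1]; exact hP.1.one
  have h2 : (g : G) ≠ 1 := by
    intro e
    rw [e, L.one] at e1
    exact h1 (L.ne _ (isConj_one_right.1 e1))
  obtain ⟨c', i1, u1⟩ := h.updn L h1 h2 e1
  obtain ⟨c'', i2, u2⟩ := h.dual.updn M h1 h2 e2
  obtain ⟨d, d1, d2⟩ := h.meet g'.2 g.2 i1 i2 u1 u2
  by_contra hn
  have h3 := (hP.2 g').resolve_left hn
  obtain ⟨x, hx, ex⟩ := h.inS_mem hP.1 hg d2
  obtain ⟨y, hy, ey⟩ := h.inS_mem hP.1 h3 d1.inv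
  have : y = x⁻¹ := Subtype.ext (by rw [ey, ← ex]; rfl)
  have hx1 : x = 1 := hP.1.pure _ hx (this ▸ hy)
  have hd : d = 1 := by rw [← ex, hx1]; rfl
  have key : ∀ z, InS (g : G) z → ∃ z' ∈ P, z' ≠ 1 ∧ (z' : G) = z := by
    intro z hz
    induction hz with
    | conj k =>
      obtain ⟨z', a, b⟩ := h.conj_mem hP.1 hg k
      refine ⟨z', a, fun e => h2 ?_, b⟩
      rw [e] at b
      simpa using b.symm
    | mul _ _ j1 j2 =>
      obtain ⟨x, hx, x1, rfl⟩ := j1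
      obtain ⟨y, hy, -, rfl⟩ := j2
      exact ⟨x * y, hP.1.mul _ hx _ hy,
        fun e => x1 (hP.1.pure _ hx (by rw [← eq_inv_of_mul_eq_one_right e]; exact hy)), rfl⟩
  obtain ⟨z, -, z1, z2⟩ := key d d2
  exact z1 (Subtype.ext (z2.trans hd))

theorem count [Nontrivial A] [Nontrivial B] :
    (OrdSet (commutator G)).encard = (OrdSet A).encard + (OrdSet B).encard := by
  have e : OrdSet (commutator G) = Phi lam '' OrdSet A ∪ Phi mu '' OrdSet B := by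
    apply subset_antisymm
    · intro P hP
      by_cases c : ∀ g g' : commutator G, IsConj (lam g) (lam g') → g ∈ P → g' ∈ P
      · exact Or.inl (h.typeL L hP c)
      push Not at c
      obtain ⟨g0, g0', c1, c2, c3⟩ := c
      refine Or.inr (h.dual.typeL M hP fun g g' d1 d2 => ?_)
      by_contra d3
      have n1 : (g0' : G) ≠ 1 := fun e => c3 ((show g0' = 1 from Subtype.ext e) ▸ hP.1.one)
      have n2 : (g0 : G) ≠ 1 := by
        intro e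
        rw [e, L.one] at c1
        exact n1 (L.ne _ (isConj_one_right.1 c1))
      have n3 : (g' : G) ≠ 1 := fun e => d3 ((show g' = 1 from Subtype.ext e) ▸ hP.1.one)
      have n4 : (g : G) ≠ 1 := by
        intro e
        rw [e, M.one] at d1
        exact n3 (M.ne _ (isConj_one_right.1 d1))
      obtain ⟨m, m1, m2⟩ := h.splice L M n2 n4
      obtain ⟨m', m1', m2'⟩ := h.splice L M n1 n3
      obtain ⟨x, hx, ex⟩ := h.conj_mem hP.1 d2 m
      obtain ⟨y, hy, ey⟩ := h.conj_mem hP.1 ((hP.2 g').resolve_left d3) m'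
      have ey' : ((g0' * y⁻¹ : commutator G) : G) = g0' * (m' * g' * m'⁻¹) := by
        simp only [Subgroup.coe_mul, Subgroup.coe_inv, ey]; group
      have ex' : ((g0 * x : commutator G) : G) = g0 * (m * g * m⁻¹) := by
        simp only [Subgroup.coe_mul, ex]
      have p1 : g0' * y⁻¹ ∈ P := by
        refine h.same L M hP (g := g0 * x) ?_ ?_ (hP.1.mul _ c2 _ hx)
        · rw [ex', ey', m1, m1']; exact c1
        · rw [ex', ey']; exact (m2.symm.trans d1).trans m2'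
      have := hP.1.mul _ p1 _ hy
      exact c3 (by simpa using this)
    · rintro P (⟨Q, hQ, rfl⟩ | ⟨Q, hQ, rfl⟩)
      · exact h.phi_mem L hQ
      · exact h.dual.phi_mem M hQ
  rw [e, encard_union_eq, (h.phi_inj L).encard_image, (h.dual.phi_inj M).encard_image]
  rw [Set.disjoint_left]
  rintro P ⟨Q, hQ, rfl⟩ ⟨Q', hQ', e'⟩
  obtain ⟨α, a1, a2⟩ : ∃ α ∈ Q, α ≠ 1 := by
    obtain ⟨α, hα⟩ := exists_ne (1 : A)
    rcases hQ.2 α with h1 | h1
    · exact ⟨α, h1, hα⟩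
    · exact ⟨α⁻¹, h1, inv_ne_one.2 hα⟩
  obtain ⟨β, b1, b2⟩ : ∃ β, β⁻¹ ∈ Q' ∧ β ≠ 1 := by
    obtain ⟨α, hα⟩ := exists_ne (1 : B)
    rcases hQ'.2 α with h1 | h1
    · exact ⟨α⁻¹, by simpa using h1, inv_ne_one.2 hα⟩
    · exact ⟨α, h1, hα⟩
  obtain ⟨g, rfl⟩ := h.real' L α
  obtain ⟨k, rfl⟩ := h.dual.real' M β
  obtain ⟨m, m1, m2⟩ := h.splice L M (g := g) (k := k) (fun e => a2 (e ▸ L.one))
    (fun e => b2 (e ▸ M.one))
  let z : commutator G := g * ⟨m * k * m⁻¹, Subgroup.Normal.conj_mem inferInstance _ k.2 m⟩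
  have z1 : z ∈ Phi lam Q := by
    change lam (g * (m * k * m⁻¹)) ∈ Q
    rwa [m1]
  rw [← e'] at z1
  exact b2 (hQ'.1.pure _ (Cone.isConj hQ'.1 m2.symm z1) b1)

end Rich

end Pool.Agent.H27.NOrd
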