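import Pool.Agent.H27.NOrd1

set_option autoImplicit false

namespace Pool.Agent.H27.NOrd

open Set

variable {A : Type} [Group A] [LinearOrder A]

def sm (α : A) (x : WithBot A) : WithBot A := x.map (fun a => α * a)

omit [LinearOrder A] in
@[simp] lemma sm_bot (α : A) : sm α ⊥ = ⊥ := rfl

omit [LinearOrder A] in
@[simp] lemma sm_coe (α a : A) : sm α (a : WithBot A) = (α * a : A) := rfl

omit [LinearOrder A] in
lemma sm_mul (α β : A) (x : WithBot A) : sm (α * β) x = sm α (sm β x) := by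
  induction x with
  | bot => rfl
  | coe a => simp [mul_assoc]

omit [LinearOrder A] in
@[simp] lemma sm_one (x : WithBot A) : sm 1 x = x := by
  induction x with
  | bot => rfl
  | coe a => simp

omit [LinearOrder A] in
lemma sm_inj {α : A} {x y : WithBot A} (h : sm α x = sm α y) : x = y := by
  have := congrArg (sm α⁻¹) h
  rwa [← sm_mul, ← sm_mul, inv_mul_cancel, sm_one, sm_one] at this

omit [LinearOrder A] in
lemma sm_eq_bot {α : A} {x : WithBot A} : sm α x = ⊥ ↔ x = ⊥ :=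
  ⟨fun h => sm_inj (h.trans (sm_bot α).symm), fun h => by rw [h, sm_bot]⟩

omit [LinearOrder A] in
lemma sm_fix {α : A} {x : WithBot A} (h : sm α x = x) (hx : x ≠ ⊥) : α = 1 := by
  induction x with
  | bot => exact absurd rfl hx
  | coe a => simpa using h

lemma sm_lt [MulLeftMono A] {α : A} {x y : WithBot A} (h : x < y) : sm α x < sm α y := by
  induction y with
  | bot => exact absurd h not_lt_bot
  | coe b =>
    induction x with
    | bot => simp
    | coe a => simpa using h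

def Valid (s : ℕ → WithBot A) : Prop :=
  (∀ i, s i ≤ ((1 : A) : WithBot A)) ∧ ∀ i, s i = ⊥ → s (i + 1) = ⊥

variable (A) in
structure Om : Type where
  f : ℕ → WithBot A
  v : Valid f

instance : CoeFun (Om A) (fun _ => ℕ → WithBot A) := ⟨Om.f⟩

lemma om_ext {s t : Om A} (h : ∀ i, s i = t i) : s = t := by
  cases s; cases t; congr 1; exact funext h

noncomputable instance : LinearOrder (Om A) :=
  LinearOrder.lift' (fun s : Om A => toLex s.f) fun _ _ h => om_ext (congrFun h)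

lemma lt_def {s t : Om A} : s < t ↔ ∃ i, (∀ j < i, s j = t j) ∧ s i < t i := Iff.rfl

lemma le_one (s : Om A) (i : ℕ) : s i ≤ ((1 : A) : WithBot A) := s.v.1 i

lemma bot_mono (s : Om A) {i j : ℕ} (h : s i = ⊥) (hij : i ≤ j) : s j = ⊥ := by
  induction hij with
  | refl => exact h
  | step _ ih => exact s.v.2 _ ih

def mk' (f : ℕ → WithBot A) (h : Valid f) : Om A := ⟨f, h⟩

@[simp] lemma mk'_apply (f : ℕ → WithBot A) (h : Valid f) (i : ℕ) : mk' f h i = f i := rfl

def bt : Om A := mk' (fun _ => ⊥) ⟨fun _ => bot_le, fun _ _ => rfl⟩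

def tp : Om A := mk' (fun _ => ((1 : A) : WithBot A)) ⟨fun _ => le_rfl, fun _ h => h⟩

@[simp] lemma bt_apply (i : ℕ) : (bt : Om A) i = ⊥ := rfl

@[simp] lemma tp_apply (i : ℕ) : (tp : Om A) i = ((1 : A) : WithBot A) := rfl

lemma bt_le (s : Om A) : bt ≤ s := not_lt.1 fun ⟨_, _, h⟩ => not_lt_bot h

lemma le_tp (s : Om A) : s ≤ tp := not_lt.1 fun ⟨i, _, h⟩ => absurd (le_one s i) (not_le.2 h)

lemma fix_bt (g : Om A ≃o Om A) : g bt = bt :=
  le_antisymm (by simpa using g.monotone (bt_le (g.symm bt))) (bt_le _)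

lemma fix_tp (g : Om A ≃o Om A) : g tp = tp :=
  le_antisymm (le_tp _) (by simpa using g.monotone (le_tp (g.symm tp)))

lemma convex {x y z : Om A} {n : ℕ} (h1 : x ≤ z) (h2 : z ≤ y) (h : ∀ i < n, y i = x i) :
    ∀ i < n, z i = x i := by
  intro i
  induction i using Nat.strong_induction_on with
  | _ i ih =>
    intro hi
    by_contra hn
    rcases lt_or_gt_of_ne hn with h3 | h3
    · exact absurd h1 (not_le.2 (lt_def.2 ⟨i, fun j hj => ih j hj (hj.trans hi), h3⟩))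
    · refine absurd h2 (not_le.2 (lt_def.2 ⟨i, fun j hj => ?_, by rwa [h i hi]⟩))
      rw [ih j hj (hj.trans hi), h j (hj.trans hi)]

lemma lt_ge {x y : Om A} {n : ℕ} (h1 : x < y) (h : ∀ i < n, y i = x i) :
    ∃ i, n ≤ i ∧ x i < y i := by
  obtain ⟨i, -, hi⟩ := lt_def.1 h1
  exact ⟨i, not_lt.1 fun h2 => hi.ne' (h i h2), hi⟩

lemma ne_bot_of_lt' {x y : Om A} {n : ℕ} (h1 : x < y) (h : ∀ i < n, y i = x i) : y n ≠ ⊥ := by
  obtain ⟨i, a, b⟩ := lt_ge h1 h
  exact fun e => not_lt_bot (bot_mono y e a ▸ b)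

lemma pre_ne_bot {x y : Om A} {n : ℕ} (h1 : x < y) (h : ∀ i < n, y i = x i) :
    ∀ i < n, x i ≠ ⊥ := fun i hi e =>
  ne_bot_of_lt' h1 h (bot_mono y ((h i hi).trans e) hi.le)

def graft (p : Om A) (m : ℕ) (hp : ∀ i < m, p i ≠ ⊥) (u : Om A) : Om A :=
  mk' (fun i => if i < m then p i else u (i - m)) ⟨fun i => by
    dsimp only; split_ifs <;> exact le_one _ _, fun i => by
    dsimp only
    split_ifs with h1 h2 h2
    · exact p.v.2 i
    · exact fun e => absurd e (hp i h1)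
    · omega
    · exact fun e => bot_mono u e (by omega)⟩

lemma graft_lt (p : Om A) (m : ℕ) (hp) (u : Om A) {i : ℕ} (h : i < m) :
    graft p m hp u i = p i := if_pos h

lemma graft_ge (p : Om A) (m : ℕ) (hp) (u : Om A) (i : ℕ) : graft p m hp u (m + i) = u i := by
  change (if m + i < m then _ else _) = _
  rw [if_neg (by omega), Nat.add_sub_cancel_left]

lemma graft_ge' (p : Om A) (m : ℕ) (hp) (u : Om A) {i : ℕ} (h : m ≤ i) :
    graft p m hp u i = u (i - m) := if_neg (not_lt.2 h)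

def cons (c : A) (hc : c ≤ 1) (s : Om A) : Om A :=
  mk' (fun i => Nat.casesOn i (c : WithBot A) (fun j => s j)) ⟨fun i => by
    cases i
    · exact WithBot.coe_le_coe.2 hc
    · exact le_one _ _, fun i => by
    cases i
    · exact fun e => absurd e WithBot.coe_ne_bot
    · exact s.v.2 _⟩

def tail (s : Om A) : Om A := mk' (fun i => s (i + 1)) ⟨fun _ => le_one _ _, fun _ => s.v.2 _⟩

@[simp] lemma cons_zero (c : A) (hc) (s : Om A) : cons c hc s 0 = c := rfl

@[simp] lemma cons_succ (c : A) (hc) (s : Om A) (i : ℕ) : cons c hc s (i + 1) = s i := rfl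

@[simp] lemma tail_apply (s : Om A) (i : ℕ) : tail s i = s (i + 1) := rfl

@[simp] lemma tail_cons (c : A) (hc) (s : Om A) : tail (cons c hc s) = s := rfl

lemma cons_tail {s : Om A} {c : A} (hc) (h : s 0 = c) : cons c hc (tail s) = s :=
  om_ext fun i => by cases i; exacts [h.symm, rfl]

lemma cons_lt {c : A} {hc} {s t : Om A} : cons c hc s < cons c hc t ↔ s < t := by
  rw [lt_def, lt_def]
  constructor
  · rintro ⟨i, h1, h2⟩
    cases i with
    | zero => exact absurd h2 (lt_irrefl _)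
    | succ i => exact ⟨i, fun j hj => h1 (j + 1) (by omega), h2⟩
  · rintro ⟨i, h1, h2⟩
    refine ⟨i + 1, fun j hj => ?_, h2⟩
    cases j with
    | zero => rfl
    | succ j => exact h1 j (by omega)

lemma cons_le {c : A} {hc} {s t : Om A} : cons c hc s ≤ cons c hc t ↔ s ≤ t := by
  rw [← not_lt, ← not_lt, cons_lt]

lemma lt_of_hd {s t : Om A} (h : s 0 < t 0) : s < t := ⟨0, fun _ h => absurd h (Nat.not_lt_zero _), h⟩

lemma hd_le {s t : Om A} (h : s ≤ t) : s 0 ≤ t 0 := not_lt.1 fun e => absurd h (not_le.2 (lt_of_hd e))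

lemma in_cone {c : A} {hc} {z : Om A} (h1 : cons c hc bt ≤ z) (h2 : z ≤ cons c hc tp) : z 0 = c :=
  le_antisymm (hd_le h2) (hd_le h1)

def D1 (s : Om A) : Prop := ∃ N, ∀ i, N ≤ i → s i = ⊥

def D2 (s : Om A) : Prop := ∃ N, ∀ i, N ≤ i → s i = ((1 : A) : WithBot A)

lemma D2.ne_bot {s : Om A} (h : D2 s) (i : ℕ) : s i ≠ ⊥ := by
  obtain ⟨N, hN⟩ := h
  intro e
  have := bot_mono s e (Nat.le_add_left i N)
  rw [hN _ (by omega)] at this
  exact WithBot.coe_ne_bot this

def Th (g : Om A → Om A) (n n' : ℕ) (α : A) (x y : Om A) : Prop :=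
  ∀ z, x ≤ z → z ≤ y → (∀ i < n, z i = x i) ∧ (∀ i < n', g z i = g x i) ∧
    g z n' = sm α (z n) ∧ ∀ i, g z (n' + 1 + i) = z (n + 1 + i)

variable {g k : Om A → Om A} {n n' m m' : ℕ} {α β : A} {x y : Om A}

lemma Th.mono (h : Th g n n' α x y) {x' y' : Om A} (h1 : x ≤ x') (h2 : y' ≤ y) :
    Th g n n' α x' y' := by
  intro z a b
  have p := h z (h1.trans a) (b.trans h2)
  have q := h x' h1 (a.trans (b.trans h2))
  exact ⟨fun i hi => by rw [p.1 i hi, q.1 i hi], fun i hi => by rw [p.2.1 i hi, q.2.1 i hi], p.2.2⟩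

lemma Th.shift (h : Th g n n' α x y) (j : ℕ)
    (e : ∀ z, x ≤ z → z ≤ y → ∀ i < n + 1 + j, z i = x i) :
    Th g (n + 1 + j) (n' + 1 + j) 1 x y := by
  intro z a b
  have p := h z a b
  have q := h x le_rfl (a.trans b)
  refine ⟨e z a b, fun i hi => ?_, by rw [sm_one, p.2.2.2], fun i => ?_⟩
  · rcases lt_trichotomy i n' with h1 | rfl | h1
    · exact p.2.1 i h1
    · rw [p.2.2.1, q.2.2.1, e z a b n (by omega)]
    · obtain ⟨l, rfl⟩ : ∃ l, i = n' + 1 + l := ⟨i - n' - 1, by omega⟩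
      rw [p.2.2.2, q.2.2.2, e z a b _ (by omega)]
  · rw [show n' + 1 + j + 1 + i = n' + 1 + (j + 1 + i) by omega, p.2.2.2]
    exact congrArg _ (by omega)

lemma Th.shift' (h : Th g n n' α x y) (j : ℕ)
    (e : ∀ z, x ≤ z → z ≤ y → ∀ i < n' + 1 + j, g z i = g x i) :
    Th g (n + 1 + j) (n' + 1 + j) 1 x y := by
  refine h.shift j fun z a b i hi => ?_
  have p := h z a b
  have q := h x le_rfl (a.trans b)
  rcases lt_trichotomy i n with h1 | rfl | h1
  · exact p.1 i h1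
  · apply sm_inj (α := α)
    rw [← p.2.2.1, ← q.2.2.1, e z a b n' (by omega)]
  · obtain ⟨l, rfl⟩ : ∃ l, i = n + 1 + l := ⟨i - n - 1, by omega⟩
    rw [← p.2.2.2, ← q.2.2.2, e z a b _ (by omega)]

lemma Th.comp {g k : Om A ≃o Om A} (hk : Th k n m β x y) (hg : Th g m m' α (k x) (k y)) :
    Th (g * k : Om A ≃o Om A) n m' (α * β) x y := by
  intro z a b
  have p := hk z a b
  have q := hg (k z) (k.monotone a) (k.monotone b)
  refine ⟨p.1, q.2.1, ?_, fun i => ?_⟩
  · change g (k z) m' = _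
    rw [q.2.2.1, p.2.2.1, sm_mul]
  · change g (k z) _ = _
    rw [q.2.2.2, p.2.2.2]

lemma Th.comp' {g k : Om A ≃o Om A} (hk : Th k n n' β x y) (hg : Th g m m' α (k x) (k y)) :
    ∃ a b γ, Th (g * k : Om A ≃o Om A) a b γ x y := by
  rcases lt_trichotomy n' m with h1 | rfl | h1
  · obtain ⟨l, rfl⟩ : ∃ l, m = n' + 1 + l := ⟨m - n' - 1, by omega⟩
    exact ⟨_, _, _, (hk.shift' l fun z a b => (hg (k z) (k.monotone a) (k.monotone b)).1).comp hg⟩
  · exact ⟨_, _, _, hk.comp hg⟩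
  · obtain ⟨l, rfl⟩ : ∃ l, n' = m + 1 + l := ⟨n' - m - 1, by omega⟩
    refine ⟨_, _, _, hk.comp (hg.shift l fun z a b => ?_)⟩
    have := (hk (k.symm z) (by simpa using k.symm.monotone a)
      (by simpa using k.symm.monotone b)).2.1
    simpa using this

lemma Th.inv {g : Om A ≃o Om A} (h : Th g n n' α x y) :
    Th (g⁻¹ : Om A ≃o Om A) n' n α⁻¹ (g x) (g y) := by
  intro z a b
  have p := h (g.symm z) (by simpa using g.symm.monotone a) (by simpa using g.symm.monotone b)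
  rw [g.apply_symm_apply] at p
  refine ⟨p.2.1, fun i hi => ?_, ?_, fun i => (p.2.2.2 i).symm⟩
  · change g.symm z i = g.symm (g x) i
    rw [g.symm_apply_apply, p.1 i hi]
  · change g.symm z n = _
    rw [p.2.2.1, ← sm_mul, inv_mul_cancel, sm_one]

lemma Th.strictMonoOn [MulLeftMono A] (h : Th g n n' α x y) : StrictMonoOn g (Icc x y) := by
  intro z hz w hw hzw
  have p := h z hz.1 hz.2
  have q := h w hw.1 hw.2
  obtain ⟨i, h1, h2⟩ := lt_def.1 hzw
  rw [lt_def]
  rcases lt_trichotomy i n with h3 | rfl | h3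
  · rw [p.1 i h3, q.1 i h3] at h2
    exact absurd h2 (lt_irrefl _)
  · refine ⟨n', fun j hj => by rw [p.2.1 j hj, q.2.1 j hj], ?_⟩
    rw [p.2.2.1, q.2.2.1]; exact sm_lt h2
  · obtain ⟨l, rfl⟩ : ∃ l, i = n + 1 + l := ⟨i - n - 1, by omega⟩
    refine ⟨n' + 1 + l, fun j hj => ?_, by rw [p.2.2.2, q.2.2.2]; exact h2⟩
    rcases lt_trichotomy j n' with h4 | rfl | h4
    · rw [p.2.1 j h4, q.2.1 j h4]
    · rw [p.2.2.1, q.2.2.1, h1 n h3]
    · obtain ⟨l', rfl⟩ : ∃ l, j = n' + 1 + l := ⟨j - n' - 1, by omega⟩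
      rw [p.2.2.2, q.2.2.2, h1 _ (by omega)]

lemma th_id (h : ∀ z, x ≤ z → z ≤ y → g z = z) : Th g 0 0 1 x y := fun z a b =>
  ⟨fun _ h => absurd h (Nat.not_lt_zero _), fun _ h => absurd h (Nat.not_lt_zero _),
    by rw [h z a b, sm_one], fun i => by rw [h z a b]⟩

lemma Th.eq (h : Th g n n' α x y) (h' : Th k n n' α x y) {w : Om A} (w1 : x ≤ w) (w2 : w ≤ y)
    (e : g w = k w) {z : Om A} (a : x ≤ z) (b : z ≤ y) : g z = k z := by
  have p := h z a b
  have q := h' z a b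
  refine om_ext fun i => ?_
  rcases lt_trichotomy i n' with h1 | rfl | h1
  · rw [p.2.1 i h1, q.2.1 i h1, ← (h w w1 w2).2.1 i h1, ← (h' w w1 w2).2.1 i h1, e]
  · rw [p.2.2.1, q.2.2.1]
  · obtain ⟨l, rfl⟩ : ∃ l, i = n' + 1 + l := ⟨i - n' - 1, by omega⟩
    rw [p.2.2.2, q.2.2.2]

lemma Th.id (h : Th g n n 1 x y) {w : Om A} (w1 : x ≤ w) (w2 : w ≤ y) (e : g w = w)
    {z : Om A} (a : x ≤ z) (b : z ≤ y) : g z = z :=
  h.eq (k := fun z => z) (fun z a b => ⟨(h z a b).1, (h z a b).1, (sm_one _).symm, fun _ => rfl⟩) w1 w2 e a b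

lemma tail_ev {s t : Om A} {v : WithBot A} (h : ∀ i, t (n' + 1 + i) = s (n + 1 + i))
    (e : ∃ N, ∀ i, N ≤ i → s i = v) : ∃ N, ∀ i, N ≤ i → t i = v := by
  obtain ⟨N, hN⟩ := e
  refine ⟨n' + 1 + N, fun i hi => ?_⟩
  obtain ⟨l, rfl⟩ : ∃ l, i = n' + 1 + l := ⟨i - n' - 1, by omega⟩
  rw [h, hN _ (by omega)]

lemma periodic {s : Om A} {v : WithBot A} (h : ∀ i, s (n' + 1 + i) = s (n + 1 + i)) (hn : n < n')
    (e : ∃ N, ∀ i, N ≤ i → s i = v) : ∀ i, n + 1 ≤ i → s i = v := by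
  obtain ⟨N, hN⟩ := e
  have key : ∀ l i, n + 1 ≤ i → N ≤ i + l → s i = v := by
    intro l
    induction l with
    | zero => exact fun i _ hi => hN i hi
    | succ l ih =>
      intro i h1 h2
      obtain ⟨j, rfl⟩ : ∃ j, i = n + 1 + j := ⟨i - n - 1, by omega⟩
      rw [← h]; exact ih _ (by omega) (by omega)
  exact fun i hi => key N i hi (by omega)

def PW (g : Om A → Om A) (F : Finset (Om A)) : Prop :=
  ∀ x y, x ≤ y → (∀ f ∈ F, ¬ (x < f ∧ f < y)) → ∃ n n' α, Th g n n' α x y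

lemma PW.tails {F : Finset (Om A)} (h : PW g F) (z : Om A) :
    ∃ n n', ∀ i, g z (n' + 1 + i) = z (n + 1 + i) := by
  obtain ⟨n, n', α, e⟩ := h z z le_rfl fun f _ hf => lt_asymm hf.1 hf.2
  exact ⟨n, n', (e z le_rfl le_rfl).2.2.2⟩

variable (A) in
def GH : Subgroup (Om A ≃o Om A) where
  carrier := {g | ∃ F : Finset (Om A), (∀ f ∈ F, D1 f ∨ D2 f) ∧ PW g F}
  one_mem' := ⟨∅, by simp, fun x y _ _ => ⟨0, 0, 1, th_id fun _ _ _ => rfl⟩⟩
  mul_mem' := by
    classical
    rintro g k ⟨F, F1, F2⟩ ⟨E, E1, E2⟩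
    refine ⟨E ∪ F.image k.symm, fun f hf => ?_, fun x y hxy h => ?_⟩
    · rcases Finset.mem_union.1 hf with hf | hf
      · exact E1 f hf
      · obtain ⟨f', hf', rfl⟩ := Finset.mem_image.1 hf
        obtain ⟨n, n', e⟩ := E2.tails (k.symm f')
        rw [k.apply_symm_apply] at e
        exact (F1 f' hf').imp (tail_ev fun i => (e i).symm) (tail_ev fun i => (e i).symm)
    · obtain ⟨n, n', β, e1⟩ := E2 x y hxy fun f hf => h f (Finset.mem_union_left _ hf)
      obtain ⟨m, m', α, e2⟩ := F2 (k x) (k y) (k.monotone hxy) fun f hf hn =>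
        h (k.symm f) (Finset.mem_union_right _ (Finset.mem_image_of_mem _ hf))
          ⟨k.lt_symm_apply.2 hn.1, k.symm_apply_lt.2 hn.2⟩
      exact e1.comp' e2
  inv_mem' := by
    classical
    rintro g ⟨F, F1, F2⟩
    refine ⟨F.image g, fun f hf => ?_, fun x y hxy h => ?_⟩
    · obtain ⟨f', hf', rfl⟩ := Finset.mem_image.1 hf
      obtain ⟨n, n', e⟩ := F2.tails f'
      exact (F1 f' hf').imp (tail_ev e) (tail_ev e)
    · obtain ⟨n, n', β, e1⟩ := F2 (g.symm x) (g.symm y) (g.symm.monotone hxy) fun f hf hn =>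
        h (g f) (Finset.mem_image_of_mem _ hf) ⟨g.symm_apply_lt.1 hn.1, g.lt_symm_apply.1 hn.2⟩
      have := e1.inv
      rw [g.apply_symm_apply, g.apply_symm_apply] at this
      exact ⟨_, _, _, this⟩

lemma GH.d1 {g : Om A ≃o Om A} (hg : g ∈ GH A) {z : Om A} (hz : D1 z) : D1 (g z) := by
  obtain ⟨F, -, h⟩ := hg
  obtain ⟨n, n', e⟩ := h.tails z
  exact tail_ev e hz

lemma GH.d2 {g : Om A ≃o Om A} (hg : g ∈ GH A) {z : Om A} (hz : D2 z) : D2 (g z) := by
  obtain ⟨F, -, h⟩ := hg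
  obtain ⟨n, n', e⟩ := h.tails z
  exact tail_ev e hz

lemma d1_cons {c : A} {hc} {s : Om A} : D1 (cons c hc s) ↔ D1 s :=
  ⟨fun ⟨N, h⟩ => ⟨N, fun i hi => h (i + 1) (by omega)⟩, fun ⟨N, h⟩ => ⟨N + 1, fun i hi => by
    obtain ⟨j, rfl⟩ : ∃ j, i = j + 1 := ⟨i - 1, by omega⟩
    exact h j (by omega)⟩⟩

lemma d2_cons {c : A} {hc} {s : Om A} : D2 (cons c hc s) ↔ D2 s :=
  ⟨fun ⟨N, h⟩ => ⟨N, fun i hi => h (i + 1) (by omega)⟩, fun ⟨N, h⟩ => ⟨N + 1, fun i hi => by
    obtain ⟨j, rfl⟩ : ∃ j, i = j + 1 := ⟨i - 1, by omega⟩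
    exact h j (by omega)⟩⟩

lemma d1_bt : D1 (bt : Om A) := ⟨0, fun _ _ => rfl⟩

lemma d2_tp : D2 (tp : Om A) := ⟨0, fun _ _ => rfl⟩

lemma mono3 {f : Om A → Om A} {a b : Om A} (hab : a ≤ b) (h1 : StrictMonoOn f (Icc bt a))
    (h2 : StrictMonoOn f (Icc a b)) (h3 : StrictMonoOn f (Icc b tp)) : StrictMono f := by
  have m5 := h2.union h3 (isGreatest_Icc hab) (isLeast_Icc (le_tp _))
  rw [Icc_union_Icc_eq_Icc hab (le_tp _)] at m5
  have m6 := h1.union m5 (isGreatest_Icc (bt_le _)) (isLeast_Icc (le_tp _))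
  rw [Icc_union_Icc_eq_Icc (bt_le _) (le_tp _)] at m6
  exact fun s t e => m6 ⟨bt_le _, le_tp _⟩ ⟨bt_le _, le_tp _⟩ e

lemma exists_cone {g : Om A ≃o Om A} (hg : g ∈ GH A) (c : A) (hc : c ≤ 1) :
    ∃ k ∈ GH A, (∀ s, k (cons c hc s) = cons c hc (g s)) ∧
      ∀ z, z ≤ cons c hc bt ∨ cons c hc tp ≤ z → k z = z := by
  classical
  let f : Om A → Om A := fun s => if s 0 = c then cons c hc (g (tail s)) else s
  have f1 : ∀ s, f (cons c hc s) = cons c hc (g s) := fun s => if_pos rfl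
  have f2 : ∀ z, z ≤ cons c hc bt ∨ cons c hc tp ≤ z → f z = z := by
    intro z hz
    by_cases h : z 0 = c
    · rw [← cons_tail hc h] at hz ⊢
      rw [f1]
      rcases hz with hz | hz
      · rw [le_antisymm (cons_le.1 hz) (bt_le _), fix_bt]
      · rw [le_antisymm (le_tp _) (cons_le.1 hz), fix_tp]
    · exact if_neg h
  have hm : StrictMono f := by
    refine mono3 (a := cons c hc bt) (b := cons c hc tp) (cons_le.2 (bt_le _)) ?_ ?_ ?_
    · intro s hs t ht e
      rwa [f2 s (Or.inl hs.2), f2 t (Or.inl ht.2)]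
    · intro s hs t ht e
      rw [← cons_tail hc (in_cone hs.1 hs.2), ← cons_tail hc (in_cone ht.1 ht.2)] at e ⊢
      rw [f1, f1, cons_lt]
      exact g.strictMono (cons_lt.1 e)
    · intro s hs t ht e
      rwa [f2 s (Or.inr hs.1), f2 t (Or.inr ht.1)]
  have hs : Function.Surjective f := by
    intro z
    by_cases h : z 0 = c
    · exact ⟨cons c hc (g.symm (tail z)), by rw [f1, g.apply_symm_apply, cons_tail hc h]⟩
    · exact ⟨z, if_neg h⟩
  obtain ⟨F, F1, F2⟩ := hg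
  refine ⟨hm.orderIsoOfSurjective f hs, ⟨insert (cons c hc bt) (insert (cons c hc tp)
    (F.image (cons c hc))), fun z hz => ?_, fun x y hxy h => ?_⟩, f1, f2⟩
  · rcases Finset.mem_insert.1 hz with rfl | hz
    · exact Or.inl (d1_cons.2 d1_bt)
    rcases Finset.mem_insert.1 hz with rfl | hz
    · exact Or.inr (d2_cons.2 d2_tp)
    obtain ⟨w, hw, rfl⟩ := Finset.mem_image.1 hz
    exact (F1 w hw).imp d1_cons.2 d2_cons.2
  · change ∃ n n' α, Th f n n' α x y
    by_cases c1 : y ≤ cons c hc bt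
    · exact ⟨0, 0, 1, th_id fun z _ b => f2 z (Or.inl (b.trans c1))⟩
    by_cases c2 : cons c hc tp ≤ x
    · exact ⟨0, 0, 1, th_id fun z a _ => f2 z (Or.inr (c2.trans a))⟩
    have c3 : cons c hc bt ≤ x := not_lt.1 fun e => h _ (Finset.mem_insert_self _ _) ⟨e, not_le.1 c1⟩
    have c4 : y ≤ cons c hc tp := not_lt.1 fun e =>
      h _ (Finset.mem_insert_of_mem (Finset.mem_insert_self _ _)) ⟨not_le.1 c2, e⟩
    obtain ⟨x, rfl⟩ : ∃ x', x = cons c hc x' := ⟨_, (cons_tail hc (in_cone c3 (hxy.trans c4))).symm⟩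
    obtain ⟨y, rfl⟩ : ∃ y', y = cons c hc y' := ⟨_, (cons_tail hc (in_cone (c3.trans hxy) c4)).symm⟩
    obtain ⟨n, n', α, e⟩ := F2 x y (cons_le.1 hxy) fun w hw hn => h (cons c hc w)
      (Finset.mem_insert_of_mem (Finset.mem_insert_of_mem (Finset.mem_image_of_mem _ hw)))
      ⟨cons_lt.2 hn.1, cons_lt.2 hn.2⟩
    refine ⟨n + 1, n' + 1, α, fun z a b => ?_⟩
    obtain ⟨z, rfl⟩ : ∃ z', z = cons c hc z' :=
      ⟨_, (cons_tail hc (in_cone (c3.trans a) (b.trans c4))).symm⟩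
    have p := e z (cons_le.1 a) (cons_le.1 b)
    rw [f1, f1]
    refine ⟨fun i hi => ?_, fun i hi => ?_, p.2.2.1, fun i => ?_⟩
    · cases i with
      | zero => rfl
      | succ i => exact p.1 i (by omega)
    · cases i with
      | zero => rfl
      | succ i => exact p.2.1 i (by omega)
    · rw [show n' + 1 + 1 + i = (n' + 1 + i) + 1 by omega,
        show n + 1 + 1 + i = (n + 1 + i) + 1 by omega]
      exact p.2.2.2 i

/-- multiply the head -/
def hdm (α : A) (s : Om A) (h : sm α (s 0) ≤ ((1 : A) : WithBot A)) : Om A :=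
  mk' (fun i => Nat.casesOn i (sm α (s 0)) (fun j => s (j + 1))) ⟨fun i => by
    cases i
    · exact h
    · exact le_one _ _, fun i => by
    cases i
    · exact fun e => s.v.2 _ (sm_eq_bot.1 e)
    · exact s.v.2 _⟩

variable [MulLeftMono A]

lemma sm_le {α : A} {x y : WithBot A} (h : x ≤ y) : sm α x ≤ sm α y :=
  h.lt_or_eq.elim (fun e => (sm_lt e).le) fun e => by rw [e]

lemma exists_phi {c : A} (hc : c < 1) : ∃ φ ∈ GH A,
    Th φ 0 0 c⁻¹ bt (cons c hc.le bt) ∧ Th φ 1 1 c (cons c hc.le bt) (cons c hc.le tp) ∧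
    φ (cons c hc.le bt) = cons 1 le_rfl bt ∧
    ∀ z, cons c hc.le tp ≤ z → φ z = cons 1 le_rfl z := by
  classical
  have v1 : ∀ s : Om A, s 0 < (c : WithBot A) → sm c⁻¹ (s 0) ≤ ((1 : A) : WithBot A) := fun s h => by
    have := sm_le (α := c⁻¹) h.le
    simpa using this
  have v2 : ∀ s : Om A, sm c (s 0) ≤ ((1 : A) : WithBot A) := fun s => by
    have := sm_le (α := c) (le_one s 0)
    exact this.trans (WithBot.coe_le_coe.2 (by simpa using hc.le))
  let f : Om A → Om A := fun s => if h : s 0 < (c : WithBot A) then hdm c⁻¹ s (v1 s h)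
    else if s 0 = c then cons 1 le_rfl (hdm c (tail s) (v2 _)) else cons 1 le_rfl s
  have f1 : ∀ s (h : s 0 < (c : WithBot A)), f s = hdm c⁻¹ s (v1 s h) := fun s h => dif_pos h
  have f2 : ∀ s, f (cons c hc.le s) = cons 1 le_rfl (hdm c s (v2 _)) := fun s => by
    simp only [f]
    exact (dif_neg (lt_irrefl (c : WithBot A))).trans (if_pos rfl)
  have f3 : ∀ s : Om A, (c : WithBot A) < s 0 → f s = cons 1 le_rfl s := fun s h => by
    simp only [f]
    rw [dif_neg (lt_asymm h), if_neg h.ne']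
  have f4 : f (cons c hc.le bt) = cons 1 le_rfl bt := by
    rw [f2]; congr 1
    exact om_ext fun i => by cases i <;> rfl
  have f5 : ∀ z, cons c hc.le tp ≤ z → f z = cons 1 le_rfl z := by
    intro z hz
    rcases (hd_le hz).lt_or_eq with h | h
    · exact f3 z h
    · rw [← cons_tail hc.le h.symm] at hz ⊢
      rw [le_antisymm (le_tp _) (cons_le.1 hz), f2]
      congr 1
      refine om_ext fun i => ?_
      cases i with
      | zero => change ((c * 1 : A) : WithBot A) = c; rw [mul_one]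
      | succ i => rfl
  have t1 : Th f 0 0 c⁻¹ bt (cons c hc.le bt) := by
    intro z _ b
    refine ⟨fun _ h => absurd h (Nat.not_lt_zero _), fun _ h => absurd h (Nat.not_lt_zero _), ?_⟩
    rcases (hd_le b).lt_or_eq with h | h
    · rw [f1 z h]
      exact ⟨rfl, fun i => by rw [show 0 + 1 + i = i + 1 by omega]; rfl⟩
    · rw [← cons_tail hc.le h] at b ⊢
      rw [le_antisymm (cons_le.1 b) (bt_le _), f4]
      exact ⟨by simp, fun i => by rw [show 0 + 1 + i = i + 1 by omega]; rfl⟩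
  have t2 : Th f 1 1 c (cons c hc.le bt) (cons c hc.le tp) := by
    intro z a b
    obtain ⟨z, rfl⟩ : ∃ z', z = cons c hc.le z' := ⟨_, (cons_tail hc.le (in_cone a b)).symm⟩
    rw [f2, f2]
    refine ⟨fun i hi => ?_, fun i hi => ?_, rfl, fun i => ?_⟩
    · obtain rfl : i = 0 := by omega
      rfl
    · obtain rfl : i = 0 := by omega
      rfl
    · rw [show 1 + 1 + i = i + 1 + 1 by omega]; rfl
  have t3 : Th f 0 1 1 (cons c hc.le tp) tp := by
    intro z a _
    rw [f5 z a, f5 _ le_rfl]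
    refine ⟨fun _ h => absurd h (Nat.not_lt_zero _), fun i hi => ?_, by simp, fun i => ?_⟩
    · obtain rfl : i = 0 := by omega
      rfl
    · rw [show 1 + 1 + i = (0 + 1 + i) + 1 by omega]; rfl
  have hm : StrictMono f :=
    mono3 (cons_le.2 (bt_le _)) t1.strictMonoOn t2.strictMonoOn t3.strictMonoOn
  have hs : Function.Surjective f := by
    intro z
    rcases (le_one z 0).lt_or_eq with h | h
    · have h2 : hdm c z (v2 z) 0 < (c : WithBot A) := by
        have := sm_lt (α := c) h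
        rwa [sm_coe, mul_one] at this
      refine ⟨hdm c z (v2 z), ?_⟩
      rw [f1 _ h2]
      refine om_ext fun i => ?_
      cases i with
      | zero => change sm c⁻¹ (sm c (z 0)) = _; rw [← sm_mul, inv_mul_cancel, sm_one]
      | succ i => rfl
    · rw [← cons_tail le_rfl h]
      by_cases h2 : (c : WithBot A) < tail z 0
      · exact ⟨_, f3 _ h2⟩
      · have h3 : sm c⁻¹ (tail z 0) ≤ ((1 : A) : WithBot A) := by
          have := sm_le (α := c⁻¹) (not_lt.1 h2)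
          simpa using this
        refine ⟨cons c hc.le (hdm c⁻¹ (tail z) h3), ?_⟩
        rw [f2]
        congr 1
        refine om_ext fun i => ?_
        cases i with
        | zero => change sm c (sm c⁻¹ (tail z 0)) = _; rw [← sm_mul, mul_inv_cancel, sm_one]
        | succ i => rfl
  refine ⟨hm.orderIsoOfSurjective f hs, ⟨{cons c hc.le bt, cons c hc.le tp}, fun z hz => ?_,
    fun x y hxy h => ?_⟩, t1, t2, f4, f5⟩
  · rcases Finset.mem_insert.1 hz with rfl | hz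
    · exact Or.inl (d1_cons.2 d1_bt)
    · rw [Finset.mem_singleton.1 hz]; exact Or.inr (d2_cons.2 d2_tp)
  · by_cases c1 : y ≤ cons c hc.le bt
    · exact ⟨_, _, _, t1.mono (bt_le _) c1⟩
    by_cases c2 : cons c hc.le tp ≤ x
    · exact ⟨_, _, _, t3.mono c2 (le_tp _)⟩
    have c3 : cons c hc.le bt ≤ x :=
      not_lt.1 fun e => h _ (Finset.mem_insert_self _ _) ⟨e, not_le.1 c1⟩
    have c4 : y ≤ cons c hc.le tp := not_lt.1 fun e =>
      h _ (Finset.mem_insert_of_mem (Finset.mem_singleton_self _)) ⟨not_le.1 c2, e⟩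
    exact ⟨_, _, _, t2.mono c3 c4⟩

end Pool.Agent.H27.NOrd
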