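import Pool.Agent.H27.NOrd2

set_option autoImplicit false

namespace Pool.Agent.H27.NOrd

open Set

variable {A : Type} [Group A] [LinearOrder A]

def Eqv (x y : Om A) : Prop := ∃ g ∈ GH A, g x = y

lemma Eqv.refl (x : Om A) : Eqv x x := ⟨1, (GH A).one_mem, rfl⟩

lemma Eqv.symm {x y : Om A} (h : Eqv x y) : Eqv y x := by
  obtain ⟨g, hg, rfl⟩ := h
  exact ⟨g⁻¹, (GH A).inv_mem hg, g.symm_apply_apply x⟩

lemma Eqv.trans {x y z : Om A} (h : Eqv x y) (h' : Eqv y z) : Eqv x z := by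
  obtain ⟨g, hg, rfl⟩ := h
  obtain ⟨k, hk, rfl⟩ := h'
  exact ⟨k * g, (GH A).mul_mem hk hg, rfl⟩

lemma Eqv.cone {x y : Om A} (h : Eqv x y) (c : A) (hc : c ≤ 1) :
    Eqv (cons c hc x) (cons c hc y) := by
  obtain ⟨g, hg, rfl⟩ := h
  obtain ⟨k, hk, e, -⟩ := exists_cone hg c hc
  exact ⟨k, hk, e x⟩

lemma eq_cons {s : Om A} (h : s 0 ≠ ⊥) : ∃ c hc, s = cons c hc (tail s) := by
  obtain ⟨c, hc⟩ := WithBot.ne_bot_iff_exists.1 h
  exact ⟨c, WithBot.coe_le_coe.1 (hc ▸ le_one s 0), (cons_tail _ hc.symm).symm⟩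

lemma cons_tp : cons (1 : A) le_rfl tp = tp := om_ext fun i => by cases i <;> rfl

lemma le_of_pt {s t : Om A} (h : ∀ i, s i ≤ t i) : s ≤ t :=
  not_lt.1 fun e => by
    obtain ⟨i, -, hi⟩ := lt_def.1 e
    exact absurd (h i) (not_le.2 hi)

def Len (p : Om A) (m : ℕ) : Prop := (∀ i < m, p i ≠ ⊥) ∧ p m = ⊥

lemma Len.unique {p : Om A} {m m' : ℕ} (h : Len p m) (h' : Len p m') : m = m' := by
  rcases lt_trichotomy m m' with e | e | e
  · exact absurd h.2 (h'.1 m e)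
  · exact e
  · exact absurd h'.2 (h.1 m' e)

lemma Len.d1 {p : Om A} {m : ℕ} (h : Len p m) : D1 p := ⟨m, fun _ hi => bot_mono p h.2 hi⟩

lemma D1.len {p : Om A} (h : D1 p) : ∃ m, Len p m := by
  classical
  have : ∃ m, p m = ⊥ := ⟨h.choose, h.choose_spec _ le_rfl⟩
  exact ⟨Nat.find this, fun i hi => Nat.find_min this hi, Nat.find_spec this⟩

lemma d1_ne_d2 {p q : Om A} (h : D1 p) (h' : D2 q) : p ≠ q := by
  rintro rfl
  obtain ⟨N, hN⟩ := h
  exact h'.ne_bot N (hN N le_rfl)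

lemma len_graft (p : Om A) (m : ℕ) (hp) : Len (graft p m hp bt) m :=
  ⟨fun i hi => by rw [graft_lt _ _ _ _ hi]; exact hp i hi, graft_ge p m hp bt 0⟩

lemma graft_bt_le (p : Om A) (m : ℕ) (hp) : graft p m hp bt ≤ p := le_of_pt fun i => by
  by_cases h : i < m
  · rw [graft_lt _ _ _ _ h]
  · rw [graft_ge' _ _ _ _ (not_lt.1 h)]; exact bot_le

lemma d2_graft (p : Om A) (m : ℕ) (hp) {u : Om A} (hu : D2 u) : D2 (graft p m hp u) := by
  obtain ⟨N, hN⟩ := hu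
  exact ⟨m + N, fun i hi => by rw [graft_ge' _ _ _ _ (by omega), hN _ (by omega)]⟩

lemma d1_graft (p : Om A) (m : ℕ) (hp) {u : Om A} (hu : D1 u) : D1 (graft p m hp u) := by
  obtain ⟨N, hN⟩ := hu
  exact ⟨m + N, fun i hi => by rw [graft_ge' _ _ _ _ (by omega), hN _ (by omega)]⟩

lemma lt_graft {x y : Om A} {i N : ℕ} (h1 : ∀ j < i, x j = y j) (h2 : x i < y i) (hN : i < N) (hp)
    (u : Om A) : x < graft y N hp u :=
  lt_def.2 ⟨i, fun j hj => by rw [graft_lt _ _ _ _ (hj.trans hN), h1 j hj],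
    by rwa [graft_lt _ _ _ _ hN]⟩

lemma trunc {x y : Om A} (h : x < y) : ∃ d, D1 d ∧ x < d ∧ d ≤ y := by
  obtain ⟨i, h1, h2⟩ := lt_def.1 h
  have hp : ∀ j < i + 1, y j ≠ ⊥ := fun j hj e =>
    not_lt_bot (bot_mono y e (Nat.lt_succ_iff.1 hj) ▸ h2)
  exact ⟨graft y (i + 1) hp bt, (len_graft _ _ _).d1, lt_graft h1 h2 (Nat.lt_succ_self i) _ _,
    graft_bt_le _ _ _⟩

lemma above {y : Om A} (h : y ≠ tp) : ∃ N0, ∀ N, N0 ≤ N → ∀ hp u, y < graft tp N hp u := by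
  obtain ⟨i, h1, h2⟩ := lt_def.1 (lt_of_le_of_ne (le_tp y) h)
  exact ⟨i + 1, fun N hN hp u => lt_graft h1 h2 hN hp u⟩

lemma tp_pre (N : ℕ) : ∀ i < N, (tp : Om A) i ≠ ⊥ := fun _ _ => WithBot.coe_ne_bot

lemma next_break (F : Finset (Om A)) {p : Om A} (h : p ≠ tp) :
    ∃ y, p < y ∧ (y ∈ F ∨ y = tp) ∧ ∀ f ∈ F, ¬ (p < f ∧ f < y) := by
  classical
  obtain ⟨y, hy, hm⟩ := Finset.exists_min_image ((insert tp F).filter (p < ·)) id
    ⟨tp, Finset.mem_filter.2 ⟨Finset.mem_insert_self _ _, lt_of_le_of_ne (le_tp p) h⟩⟩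
  rw [Finset.mem_filter, Finset.mem_insert] at hy
  exact ⟨y, hy.2, hy.1.symm, fun f hf hn => absurd
    (hm f (Finset.mem_filter.2 ⟨Finset.mem_insert_of_mem hf, hn.1⟩)) (not_le.2 hn.2)⟩

lemma prev_break (F : Finset (Om A)) {q : Om A} (h : q ≠ bt) :
    ∃ x, x < q ∧ (x ∈ F ∨ x = bt) ∧ ∀ f ∈ F, ¬ (x < f ∧ f < q) := by
  classical
  obtain ⟨y, hy, hm⟩ := Finset.exists_max_image ((insert bt F).filter (· < q)) id
    ⟨bt, Finset.mem_filter.2 ⟨Finset.mem_insert_self _ _, lt_of_le_of_ne (bt_le q) h.symm⟩⟩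
  rw [Finset.mem_filter, Finset.mem_insert] at hy
  exact ⟨y, hy.2, hy.1.symm, fun f hf hn => absurd
    (hm f (Finset.mem_filter.2 ⟨Finset.mem_insert_of_mem hf, hn.2⟩)) (not_le.2 hn.1)⟩

lemma th_cone {g k : Om A → Om A} {c : A} {hc} (e : ∀ s, k (cons c hc s) = cons c hc (g s))
    {n n' : ℕ} {α : A} {x y : Om A} (h : Th g n n' α x y) :
    Th k (n + 1) (n' + 1) α (cons c hc x) (cons c hc y) := by
  intro z a b
  obtain ⟨z, rfl⟩ : ∃ z', z = cons c hc z' :=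
    ⟨_, (cons_tail hc (le_antisymm (hd_le b) (hd_le a))).symm⟩
  have p := h z (cons_le.1 a) (cons_le.1 b)
  rw [e, e]
  refine ⟨fun i hi => ?_, fun i hi => ?_, p.2.2.1, fun i => ?_⟩
  · cases i with
    | zero => rfl
    | succ i => exact p.1 i (by omega)
  · cases i with
    | zero => rfl
    | succ i => exact p.2.1 i (by omega)
  · rw [show n' + 1 + 1 + i = (n' + 1 + i) + 1 by omega,
      show n + 1 + 1 + i = (n + 1 + i) + 1 by omega]
    exact p.2.2.2 i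

variable [MulLeftMono A]

lemma E1 {c : A} (hc : c < 1) : Eqv (cons c hc.le bt) (cons 1 le_rfl bt) := by
  obtain ⟨φ, h, -, -, e, -⟩ := exists_phi hc
  exact ⟨φ, h, e⟩

lemma E2 {c a d : A} (hc : c < 1) (ha : a ≤ 1) (hd : d ≤ 1) (e : d = c * a) (s : Om A) :
    Eqv (cons c hc.le (cons a ha s)) (cons 1 le_rfl (cons d hd s)) := by
  subst e
  obtain ⟨φ, h, -, t, e, -⟩ := exists_phi hc
  refine ⟨φ, h, om_ext fun i => ?_⟩
  have p := t (cons c hc.le (cons a ha s)) (cons_le.2 (bt_le _)) (cons_le.2 (le_tp _))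
  rcases i with _ | _ | i
  · rw [p.2.1 0 one_pos, e]; rfl
  · exact p.2.2.1
  · have := p.2.2.2 i
    rw [show 1 + 1 + i = i + 1 + 1 by omega] at this
    exact this

lemma E3 {d x t : A} (hd : d < 1) (hx : x < 1) (ht : t ≤ 1) (e : t = d * x) (s : Om A) :
    Eqv (cons t ht s) (cons x hx.le s) := by
  subst e
  obtain ⟨φ, h, t, -, -, -⟩ := exists_phi hd
  refine ⟨φ, h, om_ext fun i => ?_⟩
  have p := t (cons (d * x) ht s) (bt_le _) (lt_of_hd (WithBot.coe_lt_coe.2 (by simpa using hx))).le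
  rcases i with _ | i
  · rw [p.2.2.1]; simp
  · have := p.2.2.2 i
    rw [show 0 + 1 + i = i + 1 by omega] at this
    exact this

lemma E4 {c : A} (hc : c < 1) {z : Om A} (hz : cons c hc.le tp ≤ z) : Eqv z (cons 1 le_rfl z) := by
  obtain ⟨φ, h, -, -, -, e⟩ := exists_phi hc
  exact ⟨φ, h, e z hz⟩

variable {c0 : A} (hc0 : c0 < 1)
include hc0

lemma claim1 {s : Om A} (h : D1 s) (hs : s ≠ bt) : Eqv s (cons 1 le_rfl bt) := by
  obtain ⟨N, hN⟩ := h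
  induction N generalizing s with
  | zero => exact absurd (om_ext fun i => hN i (Nat.zero_le i)) hs
  | succ N ih =>
    obtain ⟨c, hc, e⟩ := eq_cons (s := s) fun e => hs (om_ext fun i => bot_mono s e (Nat.zero_le i))
    have e4 : Eqv (cons (1 : A) le_rfl (cons 1 le_rfl bt)) (cons 1 le_rfl bt) :=
      (E4 hc0 (lt_of_hd (WithBot.coe_lt_coe.2 hc0)).le).symm
    rw [e]
    by_cases h1 : tail s = bt
    · rw [h1]
      rcases hc.lt_or_eq with h2 | rfl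
      · exact E1 h2
      · exact Eqv.refl _
    · refine ((ih h1 fun i hi => hN (i + 1) (by omega)).cone c hc).trans ?_
      rcases hc.lt_or_eq with h2 | rfl
      · exact ((E2 h2 le_rfl hc (mul_one c).symm bt).trans ((E1 h2).cone 1 le_rfl)).trans e4
      · exact e4

omit [MulLeftMono A] in
lemma small [MulRightMono A] (a : A) : ∃ b, b < a ∧ b < 1 := by
  have : c0 * min a 1 < min a 1 := (mul_lt_iff_lt_one_right' _).2 hc0
  exact ⟨_, this.trans_le (min_le_left _ _), this.trans_le (min_le_right _ _)⟩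

variable [MulRightMono A]

lemma move0 {x : A} (hx : x < 1) : Eqv (cons x hx.le tp) (cons c0 hc0.le tp) := by
  obtain ⟨t, t1, t2⟩ := small hc0 (min x c0)
  have a1 : t < x := t1.trans_le (min_le_left _ _)
  have a2 : t < c0 := t1.trans_le (min_le_right _ _)
  exact (E3 (d := t * x⁻¹) (by simpa using a1) hx t2.le (by simp) tp).symm.trans
    (E3 (d := t * c0⁻¹) (by simpa using a2) hc0 t2.le (by simp) tp)

lemma claim2 {s : Om A} (h : D2 s) (hs : s ≠ tp) : Eqv s (cons c0 hc0.le tp) := by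
  have hb := h.ne_bot
  obtain ⟨N, hN⟩ := h
  induction N generalizing s with
  | zero => exact absurd (om_ext fun i => hN i (Nat.zero_le i)) hs
  | succ N ih =>
    obtain ⟨c, hc, e⟩ := eq_cons (hb 0)
    have e4 : Eqv (cons (1 : A) le_rfl (cons c0 hc0.le tp)) (cons c0 hc0.le tp) :=
      (E4 hc0 le_rfl).symm
    rw [e]
    by_cases h1 : tail s = tp
    · rw [h1]
      rcases hc.lt_or_eq with h2 | rfl
      · exact move0 hc0 h2
      · rw [h1, cons_tp] at e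
        exact absurd e hs
    · refine ((ih h1 (fun i => hb (i + 1)) fun i hi => hN (i + 1) (by omega)).cone c hc).trans ?_
      rcases hc.lt_or_eq with h2 | rfl
      · have h3 : c * c0 < 1 := mul_lt_one_of_lt_of_le h2 hc0.le
        exact ((E2 h2 hc0.le h3.le rfl tp).trans ((move0 hc0 h3).cone 1 le_rfl)).trans e4
      · exact e4

lemma claim3 {a b : Om A} (ha : D1 a) (ha' : a ≠ bt) (hb : D2 b) (hb' : b ≠ tp) (hab : a < b) :
    ∃ h ∈ GH A, h a = cons c0 hc0.le bt ∧ h b = cons c0 hc0.le tp := by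
  obtain ⟨h1, m1, e1⟩ := claim1 hc0 ha ha'
  have q : h1 b 0 = (1 : A) := in_cone (hc := le_rfl) (e1 ▸ h1.monotone hab.le)
    (by rw [cons_tp]; exact le_tp _)
  have q2 := cons_tail le_rfl q
  have q3 : tail (h1 b) ≠ tp := fun e => by
    rw [e, cons_tp] at q2
    exact hb' (h1.injective (by rw [← q2, fix_tp]))
  obtain ⟨g, m2, e2⟩ := claim2 hc0 (d2_cons.1 (q2 ▸ GH.d2 m1 hb)) q3
  obtain ⟨k, m3, e3, e4⟩ := exists_cone m2 1 le_rfl
  obtain ⟨φ, m4, -, -, e5, e6⟩ := exists_phi hc0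
  refine ⟨φ⁻¹ * k * h1, (GH A).mul_mem ((GH A).mul_mem ((GH A).inv_mem m4) m3) m1, ?_, ?_⟩
  · change φ.symm (k (h1 a)) = _
    rw [e1, e4 _ (Or.inl le_rfl), ← e5, φ.symm_apply_apply]
  · change φ.symm (k (h1 b)) = _
    rw [← q2, e3, e2, ← e6 _ le_rfl, φ.symm_apply_apply]

lemma local_move {a b x y : Om A} (ha : D1 a) (ha' : a ≠ bt) (hb : D2 b) (hb' : b ≠ tp)
    (h1 : a < x) (h2 : x < b) (h3 : a < y) (h4 : y < b) (e : D1 x ∧ D1 y ∨ D2 x ∧ D2 y) :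
    ∃ g ∈ GH A, g x = y ∧ ∀ t, t ≤ a ∨ b ≤ t → g t = t := by
  obtain ⟨h, m, e1, e2⟩ := claim3 hc0 ha ha' hb hb' (h1.trans h2)
  have key : ∀ x, a < x → x < b → ∃ x', h x = cons c0 hc0.le x' ∧ x' ≠ bt ∧ x' ≠ tp := by
    intro x h1 h2
    have q := cons_tail hc0.le (in_cone (e1 ▸ h.monotone h1.le) (e2 ▸ h.monotone h2.le))
    refine ⟨_, q.symm, fun e => ?_, fun e => ?_⟩
    · rw [e, ← e1] at q
      exact h1.ne (h.injective q)
    · rw [e, ← e2] at q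
      exact h2.ne' (h.injective q)
  obtain ⟨x', a1, a2, a3⟩ := key x h1 h2
  obtain ⟨y', b1, b2, b3⟩ := key y h3 h4
  obtain ⟨g, m2, e3⟩ : Eqv x' y' := by
    rcases e with ⟨p, q⟩ | ⟨p, q⟩
    · exact (claim1 hc0 (d1_cons.1 (a1 ▸ GH.d1 m p)) a2).trans
        (claim1 hc0 (d1_cons.1 (b1 ▸ GH.d1 m q)) b2).symm
    · exact (claim2 hc0 (d2_cons.1 (a1 ▸ GH.d2 m p)) a3).trans
        (claim2 hc0 (d2_cons.1 (b1 ▸ GH.d2 m q)) b3).symm
  obtain ⟨k, m3, e4, e5⟩ := exists_cone m2 c0 hc0.le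
  refine ⟨h⁻¹ * k * h, (GH A).mul_mem ((GH A).mul_mem ((GH A).inv_mem m) m3) m, ?_, fun t ht => ?_⟩
  · change h.symm (k (h x)) = _
    rw [a1, e4, e3, ← b1, h.symm_apply_apply]
  · change h.symm (k (h t)) = _
    rw [e5 _ (ht.imp (fun e => e1 ▸ h.monotone e) fun e => e2 ▸ h.monotone e), h.symm_apply_apply]

omit [MulLeftMono A] in
lemma between2 {x b : Om A} (hx : D1 x) (h : x < b) : ∃ b', D2 b' ∧ x < b' ∧ b' < b := by
  obtain ⟨i, h1, h2⟩ := lt_def.1 h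
  by_cases e : x i = ⊥
  · obtain ⟨β, hβ⟩ := WithBot.ne_bot_iff_exists.1 (ne_bot_of_gt h2)
    obtain ⟨a, a1, a2⟩ := small hc0 β
    have hp : ∀ j < i, b j ≠ ⊥ := fun j hj e => not_lt_bot (bot_mono b e hj.le ▸ h2)
    have q : graft b i hp (cons a a2.le tp) i = a := graft_ge b i hp _ 0
    refine ⟨graft b i hp (cons a a2.le tp), d2_graft _ _ _ (d2_cons.2 d2_tp), lt_def.2
      ⟨i, fun j hj => by rw [graft_lt _ _ _ _ hj, h1 j hj], ?_⟩,
      lt_def.2 ⟨i, fun j hj => graft_lt _ _ _ _ hj, ?_⟩⟩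
    · rw [q, e]; exact WithBot.bot_lt_coe _
    · rw [q, ← hβ]; exact WithBot.coe_lt_coe.2 a1
  · have hp : ∀ j < i + 1, x j ≠ ⊥ := fun j hj e' => e (bot_mono x e' (Nat.lt_succ_iff.1 hj))
    have d := d2_graft x (i + 1) hp d2_tp
    refine ⟨_, d, lt_of_le_of_ne (le_of_pt fun j => ?_) (d1_ne_d2 hx d), lt_def.2
      ⟨i, fun j hj => by rw [graft_lt _ _ _ _ (by omega), h1 j hj], ?_⟩⟩
    · by_cases h : j < i + 1
      · rw [graft_lt _ _ _ _ h]
      · rw [graft_ge' _ _ _ _ (not_lt.1 h)]; exact le_one _ _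
    · rwa [graft_lt _ _ _ _ (by omega)]

omit [MulLeftMono A] in
lemma near {p y : Om A} {m : ℕ} (hp : Len p m) (h : p < y) :
    ∃ s, Len s (m + 1) ∧ p < s ∧ s < y ∧ ∀ i < m, s i = p i := by
  obtain ⟨i, h1, h2⟩ := lt_def.1 h
  obtain ⟨β, hβ⟩ := WithBot.ne_bot_iff_exists.1 (ne_bot_of_gt h2)
  obtain ⟨a, a1, a2⟩ := small hc0 β
  have q : graft p m hp.1 (cons a a2.le bt) m = a := graft_ge p m hp.1 _ 0
  refine ⟨graft p m hp.1 (cons a a2.le bt), ⟨fun j hj => ?_, graft_ge p m hp.1 _ 1⟩,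
    lt_def.2 ⟨m, fun j hj => (graft_lt _ _ _ _ hj).symm, ?_⟩, ?_, fun j hj => graft_lt _ _ _ _ hj⟩
  · rcases (Nat.lt_succ_iff.1 hj).lt_or_eq with h3 | rfl
    · rw [graft_lt _ _ _ _ h3]; exact hp.1 j h3
    · rw [q]; exact WithBot.coe_ne_bot
  · rw [q, hp.2]; exact WithBot.bot_lt_coe _
  · rcases lt_trichotomy i m with h3 | rfl | h3
    · exact lt_def.2 ⟨i, fun j hj => by rw [graft_lt _ _ _ _ (hj.trans h3), h1 j hj],
        by rwa [graft_lt _ _ _ _ h3]⟩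
    · exact lt_def.2 ⟨i, fun j hj => by rw [graft_lt _ _ _ _ hj, h1 j hj],
        by rw [q, ← hβ]; exact WithBot.coe_lt_coe.2 a1⟩
    · exact absurd h2 (by rw [bot_mono y ((h1 m h3).symm.trans hp.2) h3.le]; exact not_lt_bot)

end Pool.Agent.H27.NOrd
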