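import Pool.Agent.H27.NOrd3

set_option autoImplicit false

namespace Pool.Agent.H27.NOrd

open Set

variable {A : Type} [Group A] [LinearOrder A]

variable (A) in
def Pt : Type := {s : Om A // D1 s ∧ s ≠ bt}

noncomputable instance : LinearOrder (Pt A) :=
  inferInstanceAs (LinearOrder {s : Om A // D1 s ∧ s ≠ bt})

variable (A) in
def Gm : Subgroup (Om A ≃o Om A) where
  carrier := {g | g ∈ GH A ∧ ∃ l r : Pt A, ∀ t, t ≤ l.1 ∨ r.1 ≤ t → g t = t}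
  one_mem' := ⟨(GH A).one_mem, ⟨cons 1 le_rfl bt, d1_cons.2 d1_bt, fun e =>
    WithBot.coe_ne_bot (congrArg (fun s : Om A => s 0) e)⟩, ⟨cons 1 le_rfl bt, d1_cons.2 d1_bt,
    fun e => WithBot.coe_ne_bot (congrArg (fun s : Om A => s 0) e)⟩, fun _ _ => rfl⟩
  mul_mem' := by
    rintro g k ⟨g1, l, r, g2⟩ ⟨k1, l', r', k2⟩
    refine ⟨(GH A).mul_mem g1 k1, min l l', max r r', fun t ht => ?_⟩
    have a1 : (min l l').1 ≤ l.1 := min_le_left l l'
    have a2 : (min l l').1 ≤ l'.1 := min_le_right l l'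
    have a3 : r.1 ≤ (max r r').1 := le_max_left r r'
    have a4 : r'.1 ≤ (max r r').1 := le_max_right r r'
    change g (k t) = t
    rw [k2 t (ht.imp (·.trans a2) a4.trans), g2 t (ht.imp (·.trans a1) a3.trans)]
  inv_mem' := by
    rintro g ⟨g1, l, r, g2⟩
    refine ⟨(GH A).inv_mem g1, l, r, fun t ht => ?_⟩
    change g.symm t = t
    rw [OrderIso.symm_apply_eq, g2 t ht]

noncomputable def ac (g : Gm A) (s : Pt A) : Pt A :=
  ⟨g.1 s.1, GH.d1 g.2.1 s.2.1, fun e => s.2.2 (g.1.injective (by rw [e, fix_bt]))⟩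

lemma fixes_le {u : Om A ≃o Om A} {t : Om A} (h : ∀ d, D1 d → d ≠ bt → d ≤ t → u d = d)
    (ht : u t = t) {z : Om A} (hz : z ≤ t) : u z = z := by
  rcases lt_trichotomy (u z) z with e | e | e
  · obtain ⟨d, d1, d2, d3⟩ := trunc e
    rw [← h d d1 ((bt_le _).trans_lt d2).ne' (d3.trans hz)] at d2
    exact absurd (u.lt_iff_lt.1 d2) (not_lt.2 d3)
  · exact e
  · obtain ⟨d, d1, d2, d3⟩ := trunc e
    rw [← h d d1 ((bt_le _).trans_lt d2).ne' (d3.trans (ht ▸ u.monotone hz))] at d3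
    exact absurd (u.le_iff_le.1 d3) (not_le.2 d2)

lemma fixes_ge {u : Om A ≃o Om A} {t : Om A} (h : ∀ d, D1 d → d ≠ bt → t ≤ d → u d = d)
    (ht : u t = t) {z : Om A} (hz : t ≤ z) : u z = z := by
  rcases lt_trichotomy (u z) z with e | e | e
  · obtain ⟨d, d1, d2, d3⟩ := trunc e
    rw [← h d d1 ((bt_le _).trans_lt d2).ne' ((ht ▸ u.monotone hz).trans d2.le)] at d2
    exact absurd (u.lt_iff_lt.1 d2) (not_lt.2 d3)
  · exact e
  · obtain ⟨d, d1, d2, d3⟩ := trunc e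
    rw [← h d d1 ((bt_le _).trans_lt d2).ne' (hz.trans d2.le)] at d3
    exact absurd (u.le_iff_le.1 d3) (not_le.2 d2)

lemma agree_le {g k : Gm A} {t : Pt A} (h : ∀ s ≤ t, ac k s = ac g s) {z : Om A} (hz : z ≤ t.1) :
    k.1 z = g.1 z := by
  have key : ∀ d, D1 d → d ≠ bt → d ≤ t.1 → (g.1⁻¹ * k.1) d = d := fun d d1 d2 d3 => by
    change g.1.symm (k.1 d) = d
    rw [OrderIso.symm_apply_eq]
    exact congrArg Subtype.val (h ⟨d, d1, d2⟩ d3)
  exact (OrderIso.symm_apply_eq _).1 (fixes_le key (key _ t.2.1 t.2.2 le_rfl) hz)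

lemma agree_ge {g k : Gm A} {t : Pt A} (h : ∀ s, t ≤ s → ac k s = ac g s) {z : Om A}
    (hz : t.1 ≤ z) : k.1 z = g.1 z := by
  have key : ∀ d, D1 d → d ≠ bt → t.1 ≤ d → (g.1⁻¹ * k.1) d = d := fun d d1 d2 d3 => by
    change g.1.symm (k.1 d) = d
    rw [OrderIso.symm_apply_eq]
    exact congrArg Subtype.val (h ⟨d, d1, d2⟩ d3)
  exact (OrderIso.symm_apply_eq _).1 (fixes_ge key (key _ t.2.1 t.2.2 le_rfl) hz)

lemma pt_above {y : Om A} (h : y ≠ tp) : ∃ r : Pt A, y < r.1 := by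
  obtain ⟨N, hN⟩ := above h
  have := hN N le_rfl (tp_pre N) bt
  exact ⟨⟨_, (len_graft _ _ _).d1, ((bt_le _).trans_lt this).ne'⟩, this⟩

/-! left germs -/

def GmL (g : Om A → Om A) (p : Om A) (m m' : ℕ) (β : A) : Prop := ∃ y, p < y ∧ Th g m m' β p y

def LGm (g : Om A → Om A) (p : Om A) (m : ℕ) (α : A) : Prop :=
  (∀ z ≤ p, g z = z) ∧ Len p m ∧ GmL g p m m α

lemma GmL.comp {g k : Om A ≃o Om A} {p : Om A} {m m' m'' : ℕ} {α β : A} (hk : GmL k p m m' β)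
    (hg : GmL g (k p) m' m'' α) : GmL (g * k : Om A ≃o Om A) p m m'' (α * β) := by
  obtain ⟨y1, a1, a2⟩ := hk
  obtain ⟨y2, b1, b2⟩ := hg
  refine ⟨min y1 (k.symm y2), lt_min a1 (k.lt_symm_apply.2 b1),
    (a2.mono le_rfl (min_le_left _ _)).comp (b2.mono le_rfl ?_)⟩
  exact k.le_symm_apply.1 (min_le_right _ _)

lemma GmL.inv {g : Om A ≃o Om A} {p : Om A} {m m' : ℕ} {α : A} (h : GmL g p m m' α) :
    GmL (g⁻¹ : Om A ≃o Om A) (g p) m' m α⁻¹ := by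
  obtain ⟨y, a1, a2⟩ := h
  exact ⟨g y, g.strictMono a1, a2.inv⟩

lemma LGm.mul {g k : Om A ≃o Om A} {p : Om A} {m : ℕ} {α β : A} (hg : LGm g p m α)
    (hk : LGm k p m β) : LGm (g * k : Om A ≃o Om A) p m (α * β) :=
  ⟨fun z hz => by change g (k z) = z; rw [hk.1 z hz, hg.1 z hz], hg.2.1,
    hk.2.2.comp (by rw [hk.1 p le_rfl]; exact hg.2.2)⟩

lemma LGm.inv {g : Om A ≃o Om A} {p : Om A} {m : ℕ} {α : A} (hg : LGm g p m α) :
    LGm (g⁻¹ : Om A ≃o Om A) p m α⁻¹ :=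
  ⟨fun z hz => by change g.symm z = z; rw [OrderIso.symm_apply_eq, hg.1 z hz], hg.2.1, by
    have := hg.2.2.inv
    rwa [hg.1 p le_rfl] at this⟩

lemma LGm.conj {g k : Om A ≃o Om A} {p : Om A} {m m' : ℕ} {α β : A} (hg : LGm g p m α)
    (hk : GmL k p m m' β) (hl : Len (k p) m') :
    LGm (k * g * k⁻¹ : Om A ≃o Om A) (k p) m' (β * α * β⁻¹) := by
  refine ⟨fun z hz => ?_, hl, hk.inv.comp ?_⟩
  · change k (g (k.symm z)) = z
    rw [hg.1 _ (k.symm_apply_le.2 hz), k.apply_symm_apply]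
  · have e : (k⁻¹ : Om A ≃o Om A) (k p) = p := k.symm_apply_apply p
    rw [e]
    exact hg.2.2.comp (by rw [hg.1 p le_rfl]; exact hk)

lemma LG_exists {g : Gm A} (hg : g ≠ 1) : ∃ p m α, p ≠ bt ∧ α ≠ 1 ∧ LGm g.1 p m α := by
  classical
  obtain ⟨⟨F, F1, F2⟩, l, r, hb⟩ := g.2
  obtain ⟨p, hp, hm⟩ := Finset.exists_max_image ((insert l.1 F).filter (fun f => ∀ z ≤ f, g.1 z = z))
    id ⟨l.1, Finset.mem_filter.2 ⟨Finset.mem_insert_self _ _, fun z hz => hb z (Or.inl hz)⟩⟩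
  have lp : l.1 ≤ p :=
    hm _ (Finset.mem_filter.2 ⟨Finset.mem_insert_self _ _, fun z hz => hb z (Or.inl hz)⟩)
  rw [Finset.mem_filter, Finset.mem_insert] at hp
  have hD : D1 p ∨ D2 p := hp.1.elim (fun e => Or.inl (e ▸ l.2.1)) (F1 p)
  have all : ¬ ∀ z, g.1 z = z := fun e => hg (Subtype.ext (OrderIso.ext (funext e)))
  have ptp : p ≠ tp := fun e => all fun z => hp.2 z (e ▸ le_tp z)
  obtain ⟨y, y1, y2, y3⟩ := next_break F ptp
  obtain ⟨n, n', α, e⟩ := F2 p y y1.le y3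
  have gp : g.1 p = p := hp.2 p le_rfl
  have nid : ¬ ∀ z, p ≤ z → z ≤ y → g.1 z = z := by
    intro h
    have h2 : ∀ z ≤ y, g.1 z = z := fun z hz => (le_total z p).elim (hp.2 z) fun h3 => h z h3 hz
    rcases y2 with y2 | rfl
    · exact absurd (hm y (Finset.mem_filter.2 ⟨Finset.mem_insert_of_mem y2, h2⟩)) (not_le.2 y1)
    · exact all fun z => h2 z (le_tp z)
  have q := e p le_rfl y1.le
  have q' := e y y1.le le_rfl
  rw [gp] at q q'
  have gy : p < g.1 y := gp ▸ g.1.strictMono y1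
  have b1 := pre_ne_bot y1 q'.1
  have b2 := pre_ne_bot gy q'.2.1
  have nn : n = n' := by
    rcases lt_trichotomy n n' with h1 | h1 | h1
    · exfalso
      rcases hD with hD | hD
      · have t := periodic q.2.2.2 h1 hD
        have := t n' h1
        rw [q.2.2.1, sm_eq_bot] at this
        exact b2 n h1 this
      · obtain ⟨i, i1, i2⟩ := lt_ge gy q'.2.1
        rw [periodic q.2.2.2 h1 hD i (by omega)] at i2
        exact absurd (le_one _ i) (not_le.2 i2)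
    · exact h1
    · exfalso
      rcases hD with hD | hD
      · have t := periodic (fun i => (q.2.2.2 i).symm) h1 hD
        have := q.2.2.1
        rw [t n h1, sm_bot] at this
        exact b1 n' h1 this
      · obtain ⟨i, i1, i2⟩ := lt_ge y1 q'.1
        rw [periodic (fun i => (q.2.2.2 i).symm) h1 hD i (by omega)] at i2
        exact absurd (le_one _ i) (not_le.2 i2)
  subst nn
  have a1 : α ≠ 1 := by
    rintro rfl
    exact nid fun z a b => e.id le_rfl y1.le gp a b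
  refine ⟨p, n, α, fun e => l.2.2 (le_antisymm (e ▸ lp) (bt_le _)), a1, hp.2, ⟨b1, ?_⟩, y, y1, e⟩
  by_contra hn
  exact a1 (sm_fix q.2.2.1.symm hn)

/-! right germs -/

def GR (g : Om A → Om A) (q : Om A) (k : ℤ) : Prop :=
  ∃ (n n' : ℕ) (x : Om A), x < q ∧ (n' : ℤ) - n = k ∧ Th g n n' 1 x q

def RG (g : Om A → Om A) (q : Om A) (k : ℤ) : Prop := (∀ z, q ≤ z → g z = z) ∧ D2 q ∧ GR g q k

lemma raise {g : Om A → Om A} {q x : Om A} {n n' : ℕ} {α : A} (hq : D2 q) (hx : x < q)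
    (h : Th g n n' α x q) (l : ℕ) : ∃ x', x' < q ∧ Th g (n + 1 + l) (n' + 1 + l) 1 x' q := by
  have hp : ∀ i < n + 1 + l, q i ≠ ⊥ := fun i _ => hq.ne_bot i
  have t1 := graft_bt_le q (n + 1 + l) hp
  have t2 : graft q (n + 1 + l) hp bt < q :=
    lt_of_le_of_ne t1 (d1_ne_d2 (len_graft _ _ _).d1 hq)
  have t3 : ∀ i < n + 1 + l, q i = graft q (n + 1 + l) hp bt i :=
    fun i hi => (graft_lt _ _ _ _ hi).symm
  refine ⟨max x _, max_lt hx t2, (h.mono (le_max_left _ _) le_rfl).shift l fun z a b i hi => ?_⟩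
  rw [convex ((le_max_right _ _).trans a) b t3 i hi,
    convex (le_max_right _ _) (max_lt hx t2).le t3 i hi]

lemma GR.comp {g k : Om A ≃o Om A} {q : Om A} {i j : ℤ} (hq : D2 q) (hq' : D2 (k q))
    (hk : GR k q i) (hg : GR g (k q) j) : GR (g * k : Om A ≃o Om A) q (j + i) := by
  obtain ⟨n, n', x, a1, rfl, a2⟩ := hk
  obtain ⟨m, m', x', b1, rfl, b2⟩ := hg
  obtain ⟨x1, c1, c2⟩ := raise hq a1 a2 m
  obtain ⟨x2, d1, d2⟩ := raise hq' b1 b2 n'
  rw [show m + 1 + n' = n' + 1 + m by omega] at d2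
  refine ⟨n + 1 + m, m' + 1 + n', max x1 (k.symm x2), max_lt c1 (k.symm_apply_lt.2 d1),
    by push_cast; ring, ?_⟩
  have := (c2.mono (le_max_left x1 (k.symm x2)) le_rfl).comp
    (d2.mono (k.symm_apply_le.1 (le_max_right _ _)) le_rfl)
  rwa [mul_one] at this

lemma GR.inv {g : Om A ≃o Om A} {q : Om A} {i : ℤ} (h : GR g q i) :
    GR (g⁻¹ : Om A ≃o Om A) (g q) (-i) := by
  obtain ⟨n, n', x, a1, rfl, a2⟩ := h
  exact ⟨n', n, g x, g.strictMono a1, by ring, by simpa using a2.inv⟩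

lemma GR_exists {g : Om A ≃o Om A} (hg : g ∈ GH A) {q : Om A} (hq : D2 q) : ∃ i, GR g q i := by
  obtain ⟨F, -, F2⟩ := hg
  obtain ⟨x, x1, -, x3⟩ := prev_break F (d1_ne_d2 d1_bt hq).symm
  obtain ⟨n, n', α, e⟩ := F2 x q x1.le x3
  obtain ⟨x', a, b⟩ := raise hq x1 e 0
  exact ⟨_, _, _, x', a, rfl, b⟩

lemma GR.len {g : Om A → Om A} {q : Om A} {i : ℤ} (hq : D2 q) (h : GR g q i) :
    ∃ N0 : ℕ, ∀ N : ℕ, N0 ≤ N → ∃ M : ℕ, (M : ℤ) = N + i ∧
      Len (g (graft q N (fun i _ => hq.ne_bot i) bt)) M := by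
  obtain ⟨n, n', x, a1, rfl, a2⟩ := h
  obtain ⟨i, h1, h2⟩ := lt_def.1 a1
  refine ⟨i + n + 2, fun N hN => ?_⟩
  obtain ⟨l, rfl⟩ : ∃ l, N = n + 1 + (l + 1) := ⟨N - n - 2, by omega⟩
  have p := a2 _ (lt_graft h1 h2 (N := n + 1 + (l + 1)) (by omega) (fun i _ => hq.ne_bot i) bt).le
    (graft_bt_le _ _ _)
  have L := len_graft q (n + 1 + (l + 1)) (fun i _ => hq.ne_bot i)
  refine ⟨n' + 1 + (l + 1), by push_cast; ring, fun j hj e => ?_, by rw [p.2.2.2]; exact L.2⟩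
  have := bot_mono _ e (j := n' + 1 + l) (by omega)
  rw [p.2.2.2] at this
  exact L.1 _ (by omega) this

lemma GR.unique {g : Om A → Om A} {q : Om A} {i j : ℤ} (hq : D2 q) (h : GR g q i) (h' : GR g q j) :
    i = j := by
  obtain ⟨N, a⟩ := h.len hq
  obtain ⟨N', b⟩ := h'.len hq
  obtain ⟨M, a1, a2⟩ := a (N + N') (by omega)
  obtain ⟨M', b1, b2⟩ := b (N + N') (by omega)
  have := a2.unique b2
  omega

lemma RG.moved {g : Om A → Om A} {q t : Om A} {i : ℤ} (h : RG g q i) (hi : i ≠ 0) (ht : t < q) :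
    ∃ s, D1 s ∧ t < s ∧ s < q ∧ g s ≠ s := by
  obtain ⟨N, a⟩ := h.2.2.len h.2.1
  obtain ⟨j, h1, h2⟩ := lt_def.1 ht
  obtain ⟨M, a1, a2⟩ := a (N + j + 1) (by omega)
  have L := len_graft q (N + j + 1) (fun i _ => h.2.1.ne_bot i)
  refine ⟨_, L.d1, lt_graft h1 h2 (by omega) _ _,
    lt_of_le_of_ne (graft_bt_le _ _ _) (d1_ne_d2 L.d1 h.2.1), fun e => ?_⟩
  rw [e] at a2
  have := a2.unique L
  omega

lemma RG.unique {g : Om A → Om A} {q q' : Om A} {i j : ℤ} (h : RG g q i) (hi : i ≠ 0)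
    (h' : RG g q' j) (hj : j ≠ 0) : i = j := by
  rcases lt_trichotomy q q' with e | rfl | e
  · obtain ⟨s, -, a, -, b⟩ := h'.moved hj e
    exact absurd (h.1 s a.le) b
  · exact h.2.2.unique h.2.1 h'.2.2
  · obtain ⟨s, -, a, -, b⟩ := h.moved hi e
    exact absurd (h'.1 s a.le) b

lemma RG.mul {g k : Om A ≃o Om A} {q : Om A} {i j : ℤ} (hg : RG g q i) (hk : RG k q j) :
    RG (g * k : Om A ≃o Om A) q (i + j) :=
  ⟨fun z hz => by change g (k z) = z; rw [hk.1 z hz, hg.1 z hz], hg.2.1,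
    hk.2.2.comp hg.2.1 (by rw [hk.1 q le_rfl]; exact hg.2.1) (by rw [hk.1 q le_rfl]; exact hg.2.2)⟩

lemma RG.inv {g : Om A ≃o Om A} {q : Om A} {i : ℤ} (hg : RG g q i) :
    RG (g⁻¹ : Om A ≃o Om A) q (-i) :=
  ⟨fun z hz => by change g.symm z = z; rw [OrderIso.symm_apply_eq, hg.1 z hz], hg.2.1, by
    have := hg.2.2.inv
    rwa [hg.1 q le_rfl] at this⟩

lemma RG.conj {g k : Om A ≃o Om A} {q : Om A} {i : ℤ} (hg : RG g q i) (hk : k ∈ GH A) :
    RG (k * g * k⁻¹ : Om A ≃o Om A) (k q) i := by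
  obtain ⟨j, hj⟩ := GR_exists hk hg.2.1
  have d := GH.d2 hk hg.2.1
  have e : (k⁻¹ : Om A ≃o Om A) (k q) = q := k.symm_apply_apply q
  refine ⟨fun z hz => ?_, d, ?_⟩
  · change k (g (k.symm z)) = z
    rw [hg.1 _ (k.le_symm_apply.2 hz), k.apply_symm_apply]
  · have h1 := hg.2.2.comp (g := k) (j := j) hg.2.1 (by rw [hg.1 q le_rfl]; exact hg.2.1)
      (by rw [hg.1 q le_rfl]; exact hj)
    have := hj.inv.comp (g := k * g) (j := j + i) d (by rw [e]; exact hg.2.1) (by rw [e]; exact h1)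
    rwa [show j + i + -j = i by ring] at this

lemma RG_exists {g : Gm A} (hg : g ≠ 1) : ∃ q i, q ≠ tp ∧ i ≠ 0 ∧ RG g.1 q i := by
  classical
  obtain ⟨⟨F, F1, F2⟩, l, r, hb⟩ := g.2
  obtain ⟨q, hq, hm⟩ := Finset.exists_min_image
    ((insert r.1 F).filter (fun f => ∀ z, f ≤ z → g.1 z = z))
    id ⟨r.1, Finset.mem_filter.2 ⟨Finset.mem_insert_self _ _, fun z hz => hb z (Or.inr hz)⟩⟩
  have lp : q ≤ r.1 :=
    hm _ (Finset.mem_filter.2 ⟨Finset.mem_insert_self _ _, fun z hz => hb z (Or.inr hz)⟩)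
  rw [Finset.mem_filter, Finset.mem_insert] at hq
  have hD : D1 q ∨ D2 q := hq.1.elim (fun e => Or.inl (e ▸ r.2.1)) (F1 q)
  have all : ¬ ∀ z, g.1 z = z := fun e => hg (Subtype.ext (OrderIso.ext (funext e)))
  have qbt : q ≠ bt := fun e => all fun z => hq.2 z (e ▸ bt_le z)
  obtain ⟨x, x1, x2, x3⟩ := prev_break F qbt
  obtain ⟨n, n', α, e⟩ := F2 x q x1.le x3
  have gq : g.1 q = q := hq.2 q le_rfl
  have nid : ¬ ∀ z, x ≤ z → z ≤ q → g.1 z = z := by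
    intro h
    have h2 : ∀ z, x ≤ z → g.1 z = z := fun z hz => (le_total z q).elim (h z hz) (hq.2 z)
    rcases x2 with x2 | rfl
    · exact absurd (hm x (Finset.mem_filter.2 ⟨Finset.mem_insert_of_mem x2, h2⟩)) (not_le.2 x1)
    · exact all fun z => h2 z (bt_le z)
  have p := e q x1.le le_rfl
  rw [gq] at p
  have b1 : q n ≠ ⊥ := ne_bot_of_lt' x1 p.1
  have b2 : q n' ≠ ⊥ := by rw [p.2.2.1]; exact fun e => b1 (sm_eq_bot.1 e)
  have nn : n ≠ n' := by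
    rintro rfl
    have := sm_fix p.2.2.1.symm b1
    subst this
    exact nid fun z a b => e.id x1.le le_rfl gq a b
  have hD2 : D2 q := by
    refine hD.resolve_left fun hD => ?_
    rcases lt_or_gt_of_ne nn with h1 | h1
    · exact b2 (periodic p.2.2.2 h1 hD n' h1)
    · exact b1 (periodic (fun i => (p.2.2.2 i).symm) h1 hD n h1)
  obtain ⟨x', a, b⟩ := raise hD2 x1 e 0
  exact ⟨q, _, fun e => d1_ne_d2 r.2.1 d2_tp (le_antisymm (le_tp _) (e ▸ lp)), by omega, hq.2, hD2,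
    _, _, x', a, rfl, b⟩

open Classical in
noncomputable def lam (g : Gm A) : A :=
  if h : ∃ α, α ≠ 1 ∧ ∃ p m, LGm g.1 p m α then h.choose else 1

open Classical in
noncomputable def mu (g : Gm A) : Multiplicative ℤ :=
  if h : ∃ i : ℤ, i ≠ 0 ∧ ∃ q, RG g.1 q i then Multiplicative.ofAdd h.choose else 1

lemma mu_eq {g : Gm A} {q : Om A} {i : ℤ} (h : RG g.1 q i) (hi : i ≠ 0) :
    mu g = Multiplicative.ofAdd i := by
  have e : ∃ i : ℤ, i ≠ 0 ∧ ∃ q, RG g.1 q i := ⟨i, hi, q, h⟩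
  obtain ⟨a, q', b⟩ := e.choose_spec
  rw [mu, dif_pos e, b.unique a h hi]

lemma mu_one : mu (1 : Gm A) = 1 := by
  refine dif_neg ?_
  rintro ⟨i, hi, q, h⟩
  obtain ⟨s, -, -, -, b⟩ := h.moved hi (lt_of_le_of_ne (bt_le q) (d1_ne_d2 d1_bt h.2.1))
  exact b rfl

lemma fixR {g : Gm A} {q : Om A} {i : ℤ} (h : RG g.1 q i) (hi : i ≠ 0) (t : Pt A) :
    t ∈ fixL (Ω := (Pt A)ᵒᵈ) ac g ↔ q ≤ t.1 := by
  constructor
  · intro e
    by_contra hn
    obtain ⟨s, s1, s2, -, s3⟩ := h.moved hi (not_le.1 hn)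
    exact s3 (congrArg Subtype.val (e (⟨s, s1, ((bt_le _).trans_lt s2).ne'⟩ : Pt A) s2.le))
  · exact fun e s hs => Subtype.ext (h.1 _ (e.trans hs))

lemma fixR_eq {g k : Gm A} {q q' : Om A} {i j : ℤ} (h : RG g.1 q i) (hi : i ≠ 0)
    (h' : RG k.1 q' j) (hj : j ≠ 0)
    (e : fixL (Ω := (Pt A)ᵒᵈ) ac g = fixL (Ω := (Pt A)ᵒᵈ) ac k) : q = q' := by
  rcases lt_trichotomy q q' with e1 | e1 | e1
  · obtain ⟨s, s1, a, b, -⟩ := h'.moved hj e1
    have := (fixR h hi ⟨s, s1, ((bt_le _).trans_lt a).ne'⟩).2 a.le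
    rw [e, fixR h' hj] at this
    exact absurd this (not_le.2 b)
  · exact e1
  · obtain ⟨s, s1, a, b, -⟩ := h.moved hi e1
    have := (fixR h' hj ⟨s, s1, ((bt_le _).trans_lt a).ne'⟩).2 a.le
    rw [← e, fixR h hi] at this
    exact absurd this (not_le.2 b)

variable [MulLeftMono A] [MulRightMono A] {c0 : A} (hc0 : c0 < 1)
include hc0

lemma rich : Rich (ac (A := A)) where
  one _ := rfl
  mul _ _ _ := rfl
  mono g := fun _ _ e => g.1.strictMono e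
  ext g k e := by
    obtain ⟨-, l, -⟩ := g.2
    refine Subtype.ext (OrderIso.ext (funext fun z => ?_))
    rcases le_total z l.1 with h | h
    · exact agree_le (fun s _ => e s) h
    · exact agree_ge (fun s _ => e s) h
  bdd g := by
    obtain ⟨-, l, r, e⟩ := g.2
    exact ⟨l, r, fun t ht => Subtype.ext (e t.1 ht)⟩
  bump a b x y h1 h2 h3 h4 := by
    obtain ⟨b', b1, b2, b3⟩ := between2 hc0 (max x y).2.1 (max_lt h2 h4 : max x y < b)
    obtain ⟨g, g1, g2, g3⟩ := local_move hc0 a.2.1 a.2.2 b1 (b3.trans_le (le_tp _)).ne h1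
      (lt_of_le_of_lt (le_max_left x y : x.1 ≤ (max x y).1) b2) h3
      (lt_of_le_of_lt (le_max_right x y : y.1 ≤ (max x y).1) b2) (Or.inl ⟨x.2.1, y.2.1⟩)
    have g4 : ∀ t, t ≤ a.1 ∨ b.1 ≤ t → g t = t := fun t ht => g3 t (ht.imp id b3.le.trans)
    exact ⟨⟨g, g1, a, b, g4⟩, Subtype.ext g2, fun t ht => Subtype.ext (g4 t.1 ht)⟩
  up t := pt_above (d1_ne_d2 t.2.1 d2_tp)
  dn t := by
    obtain ⟨s, a, b, c, -⟩ := near hc0 (p := bt) (m := 0)
      ⟨fun _ h => absurd h (Nat.not_lt_zero _), rfl⟩ (lt_of_le_of_ne (bt_le t.1) t.2.2.symm)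
    exact ⟨⟨s, a.d1, b.ne'⟩, c⟩
  mid s t e := by
    obtain ⟨m, hm⟩ := s.2.1.len
    obtain ⟨u, a, b, c, -⟩ := near hc0 hm e
    exact ⟨⟨u, a.d1, ((bt_le _).trans_lt b).ne'⟩, b, c⟩

omit [MulLeftMono A] in
lemma GmL_exists {g : Om A ≃o Om A} (hg : g ∈ GH A) {p : Om A} {m : ℕ} (hp : Len p m) :
    ∃ m' β, Len (g p) m' ∧ GmL g p m m' β := by
  obtain ⟨F, -, F2⟩ := hg
  obtain ⟨y, y1, -, y3⟩ := next_break F (d1_ne_d2 hp.d1 d2_tp)
  obtain ⟨n, n', α, e⟩ := F2 p y y1.le y3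
  have key : ∀ y n' α, p < y → Th g m n' α p y → ∃ m' β, Len (g p) m' ∧ GmL g p m m' β := by
    intro y n' α y1 e
    refine ⟨n', α, ⟨pre_ne_bot (g.strictMono y1) (e y y1.le le_rfl).2.1, ?_⟩, y, y1, e⟩
    rw [(e p le_rfl y1.le).2.2.1, hp.2, sm_bot]
  rcases lt_trichotomy n m with h1 | rfl | h1
  · obtain ⟨s, -, a, b, c⟩ := near hc0 hp y1
    obtain ⟨l, rfl⟩ : ∃ l, m = n + 1 + l := ⟨m - n - 1, by omega⟩
    exact key s _ _ a ((e.mono le_rfl b.le).shift l fun z a b => convex a b c)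
  · exact key y _ _ y1 e
  · exact absurd hp.2 (pre_ne_bot y1 (e y y1.le le_rfl).1 m h1)

omit [MulLeftMono A] in
lemma LGm.moved {g : Om A → Om A} {p t : Om A} {m : ℕ} {α : A} (h : LGm g p m α) (hα : α ≠ 1)
    (ht : p < t) : ∃ s, D1 s ∧ p < s ∧ s < t ∧ g s ≠ s := by
  obtain ⟨y, y1, y2⟩ := h.2.2
  obtain ⟨s, a, b, c, -⟩ := near hc0 h.2.1 (lt_min y1 ht)
  refine ⟨s, a.d1, b, c.trans_le (min_le_right _ _), fun e => hα ?_⟩
  have := (y2 s b.le (c.le.trans (min_le_left _ _))).2.2.1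
  rw [e] at this
  exact sm_fix this.symm (a.1 m (Nat.lt_succ_self m))

omit [MulLeftMono A] in
lemma LGm.unique {g : Om A → Om A} {p p' : Om A} {m m' : ℕ} {α α' : A} (h : LGm g p m α)
    (hα : α ≠ 1) (h' : LGm g p' m' α') (hα' : α' ≠ 1) : α = α' := by
  rcases lt_trichotomy p p' with e | rfl | e
  · obtain ⟨s, -, -, a, b⟩ := h.moved hc0 hα e
    exact absurd (h'.1 s a.le) b
  · obtain rfl := h.2.1.unique h'.2.1
    obtain ⟨y, y1, y2⟩ := h.2.2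
    obtain ⟨y', y1', y2'⟩ := h'.2.2
    obtain ⟨s, a, b, c, -⟩ := near hc0 h.2.1 (lt_min y1 y1')
    have e1 := (y2 s b.le (c.le.trans (min_le_left _ _))).2.2.1
    rw [(y2' s b.le (c.le.trans (min_le_right _ _))).2.2.1] at e1
    have e2 := congrArg (sm α⁻¹) e1
    rw [← sm_mul, ← sm_mul, inv_mul_cancel, sm_one] at e2
    exact inv_mul_eq_one.1 (sm_fix e2 (a.1 m (Nat.lt_succ_self m)))
  · obtain ⟨s, -, -, a, b⟩ := h'.moved hc0 hα' e
    exact absurd (h.1 s a.le) b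

omit [MulLeftMono A] in
lemma lam_eq {g : Gm A} {p : Om A} {m : ℕ} {α : A} (h : LGm g.1 p m α) (hα : α ≠ 1) :
    lam g = α := by
  have e : ∃ α, α ≠ 1 ∧ ∃ p m, LGm g.1 p m α := ⟨α, hα, p, m, h⟩
  obtain ⟨a, p', m', b⟩ := e.choose_spec
  rw [lam, dif_pos e, b.unique hc0 a h hα]

omit [MulLeftMono A] in
lemma lam_one : lam (1 : Gm A) = 1 := by
  refine dif_neg ?_
  rintro ⟨α, hα, p, m, h⟩
  obtain ⟨s, -, -, -, b⟩ := h.moved hc0 hα (lt_of_le_of_ne (le_tp p) (d1_ne_d2 h.2.1.d1 d2_tp))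
  exact b rfl

omit [MulLeftMono A] in
lemma fixL_iff {g : Gm A} {p : Om A} {m : ℕ} {α : A} (h : LGm g.1 p m α) (hα : α ≠ 1) (t : Pt A) :
    t ∈ fixL ac g ↔ t.1 ≤ p := by
  constructor
  · intro e
    by_contra hn
    obtain ⟨s, s1, s2, s3, s4⟩ := h.moved hc0 hα (not_le.1 hn)
    exact s4 (congrArg Subtype.val (e (⟨s, s1, ((bt_le _).trans_lt s2).ne'⟩ : Pt A) s3.le))
  · exact fun e s hs => Subtype.ext (h.1 _ (le_trans hs e))

omit [MulLeftMono A] in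
lemma fixL_eq {g k : Gm A} {p p' : Om A} {m m' : ℕ} {α β : A} (h : LGm g.1 p m α) (hα : α ≠ 1)
    (hp : p ≠ bt) (h' : LGm k.1 p' m' β) (hβ : β ≠ 1) (hp' : p' ≠ bt)
    (e : fixL ac g = fixL ac k) : p = p' := by
  apply le_antisymm
  · have := (fixL_iff hc0 h hα ⟨p, h.2.1.d1, hp⟩).2 le_rfl
    rwa [e, fixL_iff hc0 h' hβ] at this
  · have := (fixL_iff hc0 h' hβ ⟨p', h'.2.1.d1, hp'⟩).2 le_rfl
    rwa [← e, fixL_iff hc0 h hα] at this

omit [MulLeftMono A] [MulRightMono A] in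
lemma cone_mem {g : Om A ≃o Om A} (hg : g ∈ GH A) :
    ∃ k : Gm A, (∀ s, k.1 (cons c0 hc0.le s) = cons c0 hc0.le (g s)) ∧
      ∀ z, z ≤ cons c0 hc0.le bt ∨ cons c0 hc0.le tp ≤ z → k.1 z = z := by
  obtain ⟨k, k1, k2, k3⟩ := exists_cone hg c0 hc0.le
  obtain ⟨r, hr⟩ := pt_above (y := cons c0 hc0.le tp)
    (lt_of_hd (t := tp) (WithBot.coe_lt_coe.2 hc0)).ne
  exact ⟨⟨k, k1, ⟨cons c0 hc0.le bt, d1_cons.2 d1_bt, fun e =>
    WithBot.coe_ne_bot (congrArg (fun s : Om A => s 0) e)⟩, r,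
    fun t ht => k3 t (ht.imp id hr.le.trans)⟩, k2, k3⟩

omit [MulRightMono A] in
lemma real0 (α : A) : ∃ k : Gm A, LGm k.1 (cons c0 hc0.le bt) 1 α := by
  have L : Len (cons c0 hc0.le bt) 1 := ⟨fun i hi => by
    obtain rfl : i = 0 := by omega
    exact WithBot.coe_ne_bot, rfl⟩
  have key : ∀ c : A, c < 1 → ∃ k : Gm A, LGm k.1 (cons c0 hc0.le bt) 1 c⁻¹ := by
    intro c hc
    obtain ⟨φ, h, t, -⟩ := exists_phi hc
    obtain ⟨k, k1, k2⟩ := cone_mem hc0 h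
    exact ⟨k, fun z hz => k2 z (Or.inl hz), L, _,
      cons_lt.2 (lt_of_hd (t := cons c hc.le bt) (WithBot.bot_lt_coe _)), th_cone k1 t⟩
  rcases lt_trichotomy α 1 with h | rfl | h
  · obtain ⟨k, hk⟩ := key α h
    exact ⟨k⁻¹, by simpa using hk.inv⟩
  · obtain ⟨k, hk⟩ := key c0 hc0
    exact ⟨k * k⁻¹, by simpa using hk.mul hk.inv⟩
  · obtain ⟨k, hk⟩ := key α⁻¹ (inv_lt_one'.2 h)
    exact ⟨k, by simpa using hk⟩

lemma realp {p : Om A} {m : ℕ} (hp : Len p m) (hb : p ≠ bt) (α : A) :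
    ∃ k : Gm A, LGm k.1 p m α := by
  obtain ⟨g, hg⟩ := (rich hc0).T1 ⟨cons c0 hc0.le bt, d1_cons.2 d1_bt, fun e =>
    WithBot.coe_ne_bot (congrArg (fun s : Om A => s 0) e)⟩ ⟨p, hp.d1, hb⟩
  have hg' : g.1 (cons c0 hc0.le bt) = p := congrArg Subtype.val hg
  obtain ⟨k0, h0⟩ := real0 hc0 1
  obtain ⟨m', β, a, b⟩ := GmL_exists hc0 g.2.1 h0.2.1
  obtain ⟨k, hk⟩ := real0 hc0 (β⁻¹ * α * β)
  have := hk.conj b a
  rw [hg'] at this a
  obtain rfl := a.unique hp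
  exact ⟨g * k * g⁻¹, by simpa [mul_assoc] using this⟩

lemma germL : Germ (ac (A := A)) lam where
  one := lam_one hc0
  ne g e := by
    by_contra hg
    obtain ⟨p, m, α, -, a, b⟩ := LG_exists hg
    exact a (lam_eq hc0 b a ▸ e)
  mul g k e h := by
    by_cases g1 : g = 1
    · rw [g1, lam_one hc0, one_mul, one_mul]
    by_cases k1 : k = 1
    · rw [k1, lam_one hc0, mul_one, mul_one]
    obtain ⟨p, m, α, p1, a, b⟩ := LG_exists g1
    obtain ⟨p', m', β, p1', a', b'⟩ := LG_exists k1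
    obtain rfl := fixL_eq hc0 b a p1 b' a' p1' e
    obtain rfl := b.2.1.unique b'.2.1
    rw [lam_eq hc0 b a, lam_eq hc0 b' a'] at h ⊢
    exact lam_eq hc0 (b.mul b') h
  agree g k t ht e := by
    have g1 : g ≠ 1 := by
      rintro rfl
      exact ht fun _ _ => rfl
    obtain ⟨p, m, α, p1, a, b⟩ := LG_exists g1
    have h1 : p < t.1 := not_le.1 fun h => ht ((fixL_iff hc0 b a t).2 h)
    rw [lam_eq hc0 b a]
    obtain ⟨y, y1, y2⟩ := b.2.2
    refine lam_eq hc0 (p := p) (m := m) ⟨fun z hz => by rw [agree_le e (hz.trans h1.le), b.1 z hz],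
      b.2.1, min y t.1, lt_min y1 h1, fun z z1 z2 => ?_⟩ a
    rw [agree_le e (z2.trans (min_le_right _ _)), agree_le e h1.le]
    exact y2 z z1 (z2.trans (min_le_left _ _))
  conv g k g1 e e2 := by
    obtain ⟨p, m, α, p1, a, b⟩ := LG_exists g1
    have k1 : k ≠ 1 := by
      rintro rfl
      rw [lam_eq hc0 b a, lam_one hc0] at e2
      exact a e2
    obtain ⟨p', m', β, p1', a', b'⟩ := LG_exists k1
    obtain rfl := fixL_eq hc0 b a p1 b' a' p1' e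
    obtain rfl := b.2.1.unique b'.2.1
    rw [lam_eq hc0 b a, lam_eq hc0 b' a'] at e2
    subst e2
    obtain ⟨y, y1, y2⟩ := b.2.2
    obtain ⟨y', y1', y2'⟩ := b'.2.2
    obtain ⟨s, s1, s2, s3, -⟩ := near hc0 b.2.1 (lt_min y1 y1')
    refine ⟨⟨s, s1.d1, ((bt_le _).trans_lt s2).ne'⟩, fun h => absurd ((fixL_iff hc0 b a _).1 h)
      (not_le.2 s2), fun z hz => Subtype.ext ?_⟩
    change g.1 z.1 = k.1 z.1
    rcases le_total z.1 p with h | h
    · rw [b.1 _ h, b'.1 _ h]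
    · exact (y2.mono le_rfl (min_le_left y y')).eq (y2'.mono le_rfl (min_le_right y y')) le_rfl
        (lt_min y1 y1').le (by rw [b.1 p le_rfl, b'.1 p le_rfl]) h (le_trans hz s3.le)
  conj g k := by
    by_cases g1 : g = 1
    · rw [g1, mul_one, mul_inv_cancel]
    obtain ⟨p, m, α, p1, a, b⟩ := LG_exists g1
    obtain ⟨m', β, c, d⟩ := GmL_exists hc0 k.2.1 b.2.1
    rw [lam_eq hc0 b a, lam_eq hc0 (g := k * g * k⁻¹) (b.conj d c) (by simpa using a)]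
    exact isConj_iff.2 ⟨β, rfl⟩
  strong g k β g1 k1 := by
    obtain ⟨p, m, α, p1, a, b⟩ := LG_exists g1
    obtain ⟨p', m', α', p1', a', b'⟩ := LG_exists k1
    obtain ⟨u, hu⟩ := (rich hc0).T1 ⟨p, b.2.1.d1, p1⟩ ⟨p', b'.2.1.d1, p1'⟩
    have hu' : u.1 p = p' := congrArg Subtype.val hu
    obtain ⟨m1, β1, c, d⟩ := GmL_exists hc0 u.2.1 b.2.1
    have e1 := b.conj d c
    rw [hu'] at e1 c
    obtain rfl := c.unique b'.2.1
    obtain ⟨v, hv⟩ := realp hc0 c p1' (β * β1⁻¹)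
    have e2 := e1.conj hv.2.2 (by rw [hv.1 p' le_rfl]; exact c)
    rw [hv.1 p' le_rfl] at e2
    have e3 : LGm (v * u * g * (v * u)⁻¹ : Gm A).1 p' m1 (β * α * β⁻¹) := by
      convert e2 using 1
      · rw [show v * u * g * (v * u)⁻¹ = v * (u * g * u⁻¹) * v⁻¹ by group]; rfl
      · group
    have n3 : β * α * β⁻¹ ≠ 1 := by simpa using a
    refine ⟨v * u, Set.ext fun t => ?_, by rw [lam_eq hc0 e3 n3, lam_eq hc0 b a]⟩
    rw [fixL_iff hc0 e3 n3, fixL_iff hc0 b' a']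
  real α := by
    by_cases a : α = 1
    · exact ⟨1, by rw [lam_one hc0, a]⟩
    obtain ⟨k, hk⟩ := real0 hc0 α
    exact ⟨k, lam_eq hc0 hk a⟩
  inv g := by
    by_cases g1 : g = 1
    · rw [g1, inv_one, lam_one hc0, inv_one]
    obtain ⟨p, m, α, p1, a, b⟩ := LG_exists g1
    rw [lam_eq hc0 b a, lam_eq hc0 (g := g⁻¹) b.inv (inv_ne_one.2 a)]

lemma move2 {q q' : Om A} (h : D2 q) (h1 : q ≠ tp) (h' : D2 q') (h1' : q' ≠ tp) :
    ∃ g : Gm A, g.1 q = q' := by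
  obtain ⟨N, hN⟩ := above h1
  obtain ⟨N', hN'⟩ := above h1'
  have d := d2_graft tp (N + N') (tp_pre _) ((d2_cons (hc := hc0.le)).2 d2_tp)
  have d' : graft tp (N + N') (tp_pre _) (cons c0 hc0.le tp) ≠ tp := fun e => by
    have := graft_ge tp (N + N') (tp_pre _) (cons c0 hc0.le tp) 0
    rw [e] at this
    exact hc0.ne' (WithBot.coe_injective this)
  obtain ⟨s, a, b, c, -⟩ := near hc0 (p := bt) (m := 0)
    ⟨fun _ h => absurd h (Nat.not_lt_zero _), rfl⟩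
    (lt_min (lt_of_le_of_ne (bt_le q) (d1_ne_d2 d1_bt h))
      (lt_of_le_of_ne (bt_le q') (d1_ne_d2 d1_bt h')))
  obtain ⟨g, g1, g2, g3⟩ := local_move hc0 a.d1 b.ne' d d' (c.trans_le (min_le_left _ _))
    (hN _ (by omega) _ _) (c.trans_le (min_le_right _ _)) (hN' _ (by omega) _ _) (Or.inr ⟨h, h'⟩)
  obtain ⟨r, hr⟩ := pt_above d'
  exact ⟨⟨g, g1, ⟨s, a.d1, b.ne'⟩, r, fun t ht => g3 t (ht.imp id hr.le.trans)⟩, g2⟩

lemma germR : Germ (Ω := (Pt A)ᵒᵈ) (ac (A := A)) mu where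
  one := mu_one
  ne g e := by
    by_contra hg
    obtain ⟨q, i, -, a, b⟩ := RG_exists hg
    rw [mu_eq b a] at e
    exact a (by simpa using e)
  mul g k e h := by
    by_cases g1 : g = 1
    · rw [g1, mu_one, one_mul, one_mul]
    by_cases k1 : k = 1
    · rw [k1, mu_one, mul_one, mul_one]
    obtain ⟨q, i, -, a, b⟩ := RG_exists g1
    obtain ⟨q', j, -, a', b'⟩ := RG_exists k1
    obtain rfl := fixR_eq b a b' a' e
    rw [mu_eq b a, mu_eq b' a'] at h ⊢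
    exact mu_eq (b.mul b') fun (e : i + j = 0) => h (by rw [← ofAdd_add, e]; rfl)
  agree g k t ht e := by
    have g1 : g ≠ 1 := by
      rintro rfl
      exact ht fun _ _ => rfl
    obtain ⟨q, i, -, a, b⟩ := RG_exists g1
    have h1 : (OrderDual.ofDual t).1 < q := not_le.1 fun h => ht ((fixR b a t).2 h)
    have e' : ∀ s : Pt A, OrderDual.ofDual t ≤ s → ac k s = ac g s := e
    rw [mu_eq b a]
    obtain ⟨n, n', x, x1, x2, x3⟩ := b.2.2
    refine mu_eq (q := q) ⟨fun z hz => by rw [agree_ge e' (h1.le.trans hz), b.1 z hz],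
      b.2.1, n, n', max x (OrderDual.ofDual t).1, max_lt x1 h1, x2, fun z z1 z2 => ?_⟩ a
    rw [agree_ge e' ((le_max_right _ _).trans z1), agree_ge e' (le_max_right _ _)]
    exact x3.mono (le_max_left _ _) le_rfl z z1 z2
  conv g k g1 e e2 := by
    obtain ⟨q, i, -, a, b⟩ := RG_exists g1
    have k1 : k ≠ 1 := by
      rintro rfl
      rw [mu_eq b a, mu_one] at e2
      exact a (by simpa using e2)
    obtain ⟨q', j, -, a', b'⟩ := RG_exists k1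
    obtain rfl := fixR_eq b a b' a' e
    rw [mu_eq b a, mu_eq b' a'] at e2
    obtain rfl : i = j := by simpa using e2
    obtain ⟨n, n', x, x1, x2, x3⟩ := b.2.2
    obtain ⟨m, m', y, y1, y2, y3⟩ := b'.2.2
    obtain ⟨x', c1, c2⟩ := raise b.2.1 x1 x3 m
    obtain ⟨y', d1, d2⟩ := raise b.2.1 y1 y3 n
    rw [show m + 1 + n = n + 1 + m by omega, show m' + 1 + n = n' + 1 + m by omega] at d2
    obtain ⟨s, s1, s2, s3, -⟩ := b.moved a (max_lt c1 d1)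
    refine ⟨(⟨s, s1, ((bt_le _).trans_lt s2).ne'⟩ : Pt A), fun h => absurd ((fixR b a _).1 h)
      (not_le.2 s3), fun z hz => Subtype.ext ?_⟩
    have hz' : s ≤ (OrderDual.ofDual z).1 := hz
    change g.1 (OrderDual.ofDual z).1 = k.1 (OrderDual.ofDual z).1
    rcases le_total q (OrderDual.ofDual z).1 with h | h
    · rw [b.1 _ h, b'.1 _ h]
    · exact (c2.mono (le_max_left x' y') le_rfl).eq (d2.mono (le_max_right x' y') le_rfl)
        (max_lt c1 d1).le le_rfl (by rw [b.1 q le_rfl, b'.1 q le_rfl]) (s2.le.trans hz') h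
  conj g k := by
    by_cases g1 : g = 1
    · rw [g1, mul_one, mul_inv_cancel]
      exact IsConj.refl _
    obtain ⟨q, i, -, a, b⟩ := RG_exists g1
    rw [mu_eq b a, mu_eq (g := k * g * k⁻¹) (b.conj k.2.1) a]
    exact IsConj.refl _
  strong g k β g1 k1 := by
    obtain ⟨q, i, q1, a, b⟩ := RG_exists g1
    obtain ⟨q', j, q1', a', b'⟩ := RG_exists k1
    obtain ⟨u, hu⟩ := move2 hc0 b.2.1 q1 b'.2.1 q1'
    have e1 : RG (u * g * u⁻¹ : Gm A).1 q' i := hu ▸ b.conj u.2.1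
    refine ⟨u, Set.ext fun t => ?_, by rw [mu_eq e1 a, mu_eq b a, mul_inv_cancel_comm]⟩
    exact (fixR e1 a t).trans (fixR b' a' t).symm
  real α := by
    obtain ⟨φ, h, -, -, -, e⟩ := exists_phi hc0
    obtain ⟨k, k1, k2⟩ := cone_mem hc0 h
    have t3 : Th φ 0 1 1 (cons c0 hc0.le tp) tp := by
      intro z a _
      rw [e z a, e _ le_rfl]
      refine ⟨fun _ h => absurd h (Nat.not_lt_zero _), fun i hi => ?_, by simp, fun i => ?_⟩
      · obtain rfl : i = 0 := by omega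
        rfl
      · rw [show 1 + 1 + i = (0 + 1 + i) + 1 by omega]; rfl
    have r1 : RG k.1 (cons c0 hc0.le tp) 1 := ⟨fun z hz => k2 z (Or.inr hz), d2_cons.2 d2_tp,
      _, _, _, cons_lt.2 (lt_of_hd (t := tp) (WithBot.coe_lt_coe.2 hc0)), by simp, th_cone k1 t3⟩
    have key : ∀ i : ℤ, ∃ g : Gm A, RG g.1 (cons c0 hc0.le tp) i := by
      intro i
      induction i using Int.induction_on with
      | zero => exact ⟨k * k⁻¹, by simpa using r1.mul r1.inv⟩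
      | succ i ih => obtain ⟨g, hg⟩ := ih; exact ⟨g * k, hg.mul r1⟩
      | pred i ih => obtain ⟨g, hg⟩ := ih; exact ⟨g * k⁻¹, hg.mul r1.inv⟩
    by_cases a : α = 1
    · exact ⟨1, by rw [mu_one, a]⟩
    obtain ⟨g, hg⟩ := key α.toAdd
    exact ⟨g, mu_eq hg a⟩
  inv g := by
    by_cases g1 : g = 1
    · rw [g1, inv_one, mu_one, inv_one]
    obtain ⟨q, i, -, a, b⟩ := RG_exists g1
    rw [mu_eq b a, mu_eq (g := g⁻¹) b.inv (neg_ne_zero.2 a)]
    rfl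

end Pool.Agent.H27.NOrd
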