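import Pool.Agent.H27.NOrd4

set_option autoImplicit false

namespace Pool.Agent.H27.NOrd

open Set ProOrd

lemma cone_pow {G : Type} [Group G] {P : Set G} (hP : Cone P) {x : G} (hx : x ∈ P) (n : ℕ) :
    x ^ n ∈ P := by
  induction n with
  | zero => simpa using hP.one
  | succ n ih => rw [pow_succ]; exact hP.mul _ ih _ hx

lemma ord_int : (OrdSet (Multiplicative ℤ)).encard = 2 := by
  have key : ∀ s : ℤ, s * s = 1 → ∀ P ∈ OrdSet (Multiplicative ℤ), Multiplicative.ofAdd s ∈ P →
      P = {x | 0 ≤ s * x.toAdd} := by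
    intro s hs P hP h
    have h1 : ∀ x : Multiplicative ℤ, 0 ≤ s * x.toAdd → x ∈ P := by
      intro x hx
      have := cone_pow hP.1 h (s * x.toAdd).toNat
      rwa [← ofAdd_nsmul, nsmul_eq_mul, Int.toNat_of_nonneg hx, mul_right_comm, hs, one_mul] at this
    ext x
    refine ⟨fun hx => ?_, h1 x⟩
    by_contra hn
    have h2 : s * x.toAdd < 0 := not_le.1 hn
    have := hP.1.pure x hx (h1 _ (by simp; omega))
    rw [this] at h2
    simp at h2
  have mem : ∀ s : ℤ, s * s = 1 →
      {x : Multiplicative ℤ | 0 ≤ s * x.toAdd} ∈ OrdSet (Multiplicative ℤ) := by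
    intro s hs
    refine ⟨⟨by simp, fun x hx y hy => ?_, fun x hx g => by simpa using hx, fun x hx hy => ?_⟩,
      fun x => ?_⟩
    · simp only [mem_ofPred_eq, toAdd_mul, mul_add] at *
      omega
    · simp only [mem_ofPred_eq, toAdd_inv, mul_neg] at *
      have : s * x.toAdd = 0 := by omega
      have h2 : x.toAdd = 0 := by rw [← one_mul x.toAdd, ← hs, mul_assoc, this, mul_zero]
      exact h2
    · simp only [mem_ofPred_eq, toAdd_inv, mul_neg]
      omega
  have e : OrdSet (Multiplicative ℤ) = {{x | 0 ≤ 1 * x.toAdd}, {x | 0 ≤ -1 * x.toAdd}} := by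
    ext P
    constructor
    · intro hP
      rcases hP.2 (Multiplicative.ofAdd 1) with h | h
      · exact Or.inl (key 1 rfl P hP h)
      · exact Or.inr (key (-1) rfl P hP h)
    · rintro (rfl | rfl)
      · exact mem 1 rfl
      · exact mem (-1) rfl
  rw [e]
  refine encard_pair fun h => ?_
  have := Set.ext_iff.1 h (Multiplicative.ofAdd 1)
  simp at this

@[reducible] noncomputable def ordOf {G : Type} [Group G] {P : Set G} (hP : P ∈ OrdSet G) :
    LinearOrder G := by
  classical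
  exact
    { le := fun x y => x⁻¹ * y ∈ P
      le_refl := fun a => by simpa using hP.1.one
      le_trans := fun a b c h1 h2 => by simpa [mul_assoc] using hP.1.mul _ h1 _ h2
      le_antisymm := fun a b h1 h2 => inv_mul_eq_one.1 (hP.1.pure _ h1 (by simpa using h2))
      le_total := fun a b => by simpa using hP.2 (a⁻¹ * b)
      toDecidableLE := inferInstance }

lemma step {A : Type} [Group A] [Nontrivial A] (h : (OrdSet A).Nonempty) :
    ∃ (G : Type) (_ : Group G), Nontrivial G ∧ (OrdSet G).encard = (OrdSet A).encard + 2 := by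
  obtain ⟨P, hP⟩ := h
  letI := ordOf hP
  haveI : MulLeftMono A := ⟨fun g a b h => by
    change (g * a)⁻¹ * (g * b) ∈ P
    have h' : a⁻¹ * b ∈ P := h
    simpa [mul_assoc] using h'⟩
  haveI : MulRightMono A := ⟨fun g a b h => by
    change (a * g)⁻¹ * (b * g) ∈ P
    have h' : a⁻¹ * b ∈ P := h
    simpa [mul_assoc] using hP.1.conj _ h' g⁻¹⟩
  obtain ⟨c0, hc0⟩ : ∃ c0 : A, c0 < 1 := by
    obtain ⟨a, ha⟩ := exists_ne (1 : A)
    rcases lt_or_gt_of_ne ha with h | h
    · exact ⟨a, h⟩
    · exact ⟨a⁻¹, inv_lt_one'.2 h⟩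
  refine ⟨commutator (Gm A), inferInstance, ?_, ?_⟩
  · obtain ⟨g, hg⟩ := (rich hc0).real' (germL hc0) c0
    refine ⟨⟨g, 1, fun e => hc0.ne ?_⟩⟩
    rw [← hg, e]; exact lam_one hc0
  · rw [(rich hc0).count (germL hc0) (germR hc0), ord_int]

lemma all (k : ℕ) : ∃ (G : Type) (_ : Group G), Nontrivial G ∧
    (OrdSet G).encard = ((2 * (k + 1) : ℕ) : ℕ∞) := by
  induction k with
  | zero => exact ⟨Multiplicative ℤ, inferInstance, inferInstance, ord_int⟩
  | succ k ih =>
    obtain ⟨A, _, _, h⟩ := ih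
    obtain ⟨G, _, a, b⟩ := step (A := A) (encard_ne_zero.1 (by rw [h]; simp))
    refine ⟨G, inferInstance, a, ?_⟩
    rw [b, h]
    push_cast
    ring

theorem main (k : ℕ) (hk : 0 < k) : ∃ (G : Type) (_ : Group G),
    {r : G → G → Prop | IsLinearOrder G r ∧
      ∀ a b c d : G, r a b → r (c * a * d) (c * b * d)}.encard = ((2 * k : ℕ) : ℕ∞) := by
  obtain ⟨k, rfl⟩ : ∃ j, k = j + 1 := ⟨k - 1, by omega⟩
  obtain ⟨G, _, -, h⟩ := all k
  refine ⟨G, inferInstance, ?_⟩
  have inj : Function.Injective (fun (P : Set G) (x y : G) => x⁻¹ * y ∈ P) := by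
    intro P Q e
    ext x
    simpa using congrFun (congrFun e 1) x
  rw [← h, ← inj.encard_image]
  congr 1
  ext r
  constructor
  · rintro ⟨h1, h2⟩
    have e : ∀ x y, r 1 (x⁻¹ * y) ↔ r x y := fun x y =>
      ⟨fun h => by simpa using h2 _ _ x 1 h, fun h => by simpa using h2 _ _ x⁻¹ 1 h⟩
    refine ⟨{x | r 1 x}, ⟨⟨h1.refl _, fun x hx y hy => ?_, fun x hx g => ?_, fun x hx hy => ?_⟩,
      fun a => ?_⟩, funext fun x => funext fun y => propext (e x y)⟩
    · exact h1.trans _ _ _ hx (by simpa using h2 _ _ x 1 hy)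
    · simpa using h2 _ _ g g⁻¹ hx
    · exact h1.antisymm _ _ (by simpa using h2 _ _ x 1 hy) hx
    · rcases h1.total 1 a with h | h
      · exact Or.inl h
      · exact Or.inr (by simpa using (e a 1).2 h)
  · rintro ⟨P, hP, rfl⟩
    refine ⟨?_, fun a b c d h => ?_⟩
    · exact
        { refl := fun a => by simpa using hP.1.one
          trans := fun a b c h1 h2 => by simpa [mul_assoc] using hP.1.mul _ h1 _ h2
          antisymm := fun a b h1 h2 => inv_mul_eq_one.1 (hP.1.pure _ h1 (by simpa using h2))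
          total := fun a b => by simpa using hP.2 (a⁻¹ * b) }
    · simpa [mul_assoc] using hP.1.conj _ h d⁻¹

end Pool.Agent.H27.NOrd
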