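import Mathlib

set_option autoImplicit false

namespace Pool.Agent.H27.NearChain

open Function

/-- `G` has a chain of rank `n - 1`. -/
def HasChain (G : Type*) [Group G] : Prop :=
  ∃ θ : Equiv.Perm G, (Set.range fun x => x * θ x).ncard = Nat.card G - 1

theorem ncard_range_of_one_change {α : Type*} [Finite α] (f h : α → α) (hh : Bijective h) (z : α)
    (hz : f z ≠ h z) (hne : ∀ x, x ≠ z → f x = h x) : (Set.range f).ncard = Nat.card α - 1 := by
  have : Set.range f = Set.univ \ {h z} := by
    ext y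
    simp only [Set.mem_range, Set.mem_sdiff, Set.mem_univ, Set.mem_singleton_iff, true_and]
    constructor
    · rintro ⟨x, rfl⟩
      by_cases hx : x = z
      · subst hx; exact hz
      · rw [hne x hx]; exact fun h' => hx (hh.1 h')
    · intro hy
      obtain ⟨x, rfl⟩ := hh.2 y
      have hx : x ≠ z := fun h' => hy (by rw [h'])
      exact ⟨x, hne x hx⟩
  rw [this, Set.ncard_sdiff_singleton_of_mem (Set.mem_univ _), Set.ncard_univ]

theorem sq_inj {G : Type*} [Group G] [Finite G] (hodd : Odd (Nat.card G)) :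
    Injective fun x : G => x * x := by
  have hc : (Nat.card G).Coprime 2 := Nat.coprime_two_right.2 hodd
  intro x y hxy
  have := (powCoprime hc).injective (a₁ := x) (a₂ := y) (by
    simp only [powCoprime_apply, pow_two]; exact hxy)
  exact this

section seqs
variable {G : Type*} [Group G]

def ww (a b : G) (k e : ℕ) : G := if e = k then a else b

def XX (a b : G) (k : ℕ) : ℕ → G
  | 0 => 1
  | e + 1 => XX a b k e * ww a b k e

def YY (a b : G) (k : ℕ) : ℕ → G
  | 0 => b
  | e + 1 => ww a b k e * YY a b k e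

theorem XX_low (a b : G) (k : ℕ) : ∀ e, e ≤ k → XX a b k e = b ^ e
  | 0, _ => by simp [XX]
  | e + 1, h => by
    rw [XX, XX_low a b k e (by omega), ww, if_neg (by omega), pow_succ]

theorem XX_high (a b : G) (k : ℕ) : ∀ j, XX a b k (k + 1 + j) = b ^ k * a * b ^ j
  | 0 => by simp [XX, XX_low a b k k le_rfl, ww]
  | j + 1 => by
    rw [← add_assoc, XX, XX_high a b k j, ww, if_neg (by omega), pow_succ, mul_assoc (b ^ k * a)]

theorem YY_low (a b : G) (k : ℕ) : ∀ e, e ≤ k → YY a b k e = b ^ e * b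
  | 0, _ => by simp [YY]
  | e + 1, h => by
    rw [YY, YY_low a b k e (by omega), ww, if_neg (by omega), pow_succ', mul_assoc]

theorem YY_high (a b : G) (k : ℕ) : ∀ j, YY a b k (k + 1 + j) = b ^ j * a * b ^ k * b
  | 0 => by simp [YY, YY_low a b k k le_rfl, ww, mul_assoc]
  | j + 1 => by
    rw [← add_assoc, YY, YY_high a b k j, ww, if_neg (by omega), pow_succ']
    simp only [mul_assoc]

theorem map_ww {Q : Type*} [Group Q] (φ : G →* Q) (a b : G) (hab : φ a = φ b) (k e : ℕ) :
    φ (ww a b k e) = φ b := by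
  unfold ww; split_ifs <;> simp [hab]

theorem map_XX {Q : Type*} [Group Q] (φ : G →* Q) (a b : G) (hab : φ a = φ b) (k : ℕ) :
    ∀ e, φ (XX a b k e) = φ b ^ e
  | 0 => by simp [XX]
  | e + 1 => by rw [XX, map_mul, map_XX φ a b hab k e, map_ww φ a b hab, pow_succ]

theorem map_YY {Q : Type*} [Group Q] (φ : G →* Q) (a b : G) (hab : φ a = φ b) (k : ℕ) :
    ∀ e, φ (YY a b k e) = φ b ^ (e + 1)
  | 0 => by simp [YY]
  | e + 1 => by rw [YY, map_mul, map_YY φ a b hab k e, map_ww φ a b hab, ← pow_succ']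

end seqs

theorem main_hom {G Q : Type*} [Group G] [Finite G] [Group Q] [Finite Q]
    (hodd : Odd (Nat.card G)) (hQ : Odd (Nat.card Q)) (φ : G →* Q) (a b : G)
    (hab : φ a = φ b) (hb : φ b ≠ 1) (hnc : a * b ≠ b * a) : HasChain G := by
  classical
  set q := φ b with hq
  have hm_odd : Odd (orderOf q) := Odd.of_dvd_nat hQ (orderOf_dvd_natCard q)
  obtain ⟨k, hk⟩ := hm_odd
  have hk1 : 1 ≤ k := by
    by_contra h
    have : orderOf q = 1 := by omega
    exact hb (orderOf_eq_one_iff.1 this)
  set m := 2 * k + 1 with hm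
  haveI : NeZero m := ⟨by omega⟩
  haveI : Fact (1 < m) := ⟨by omega⟩
  let ι : ZMod m → G := fun e => XX a b k e.val
  let y : ZMod m → G := fun e => YY a b k (e - 1).val
  let ψ : ZMod m → Q := fun e => q ^ e.val
  have hψ_inj : Injective ψ := by
    intro e e' h
    apply ZMod.val_injective
    exact pow_injOn_Iio_orderOf (by rw [hk]; exact ZMod.val_lt e) (by rw [hk]; exact ZMod.val_lt e') h
  have hφι : ∀ e, φ (ι e) = ψ e := fun e => map_XX φ a b hab k _
  have hφy : ∀ e, φ (y e) = ψ e := by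
    intro e
    show φ (YY a b k (e - 1).val) = q ^ e.val
    rw [map_YY φ a b hab, ← hq, pow_eq_pow_iff_modEq, hk]
    rw [← ZMod.natCast_eq_natCast_iff]
    push_cast
    simp
  have hι_inj : Injective ι := fun e e' h => hψ_inj (by rw [← hφι, ← hφι, h])
  let d : Q → G := Function.extend ψ (fun e => (ι e)⁻¹ * y e) 1
  have hd : ∀ e, d (ψ e) = (ι e)⁻¹ * y e := fun e => hψ_inj.extend_apply _ _ e
  have hdφ : ∀ u, φ (d u) = 1 := by
    intro u
    by_cases hu : ∃ e, ψ e = u
    · obtain ⟨e, rfl⟩ := hu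
      rw [hd, map_mul, map_inv, hφι, hφy, inv_mul_cancel]
    · simp only [d]
      rw [Function.extend_apply' _ _ _ hu]; simp
  let θ0 : G → G := fun x => x * d (φ x)
  have hθ0_inj : Injective θ0 := by
    intro x x' h
    have h1 : φ x = φ x' := by
      have := congrArg φ h
      simpa [θ0, hdφ] using this
    simp only [θ0, h1] at h
    exact mul_right_cancel h
  have hθ0ι : ∀ e, θ0 (ι e) = y e := by
    intro e; simp only [θ0]; rw [hφι, hd]; simp
  let g : G → G := fun x => x * θ0 x
  have hg_inj : Injective g := by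
    intro x x' h
    have h1 : φ x = φ x' := by
      have := congrArg φ h
      simp only [g, θ0, map_mul, hdφ, mul_one] at this
      exact sq_inj hQ this
    simp only [g, θ0, h1, ← mul_assoc] at h
    exact sq_inj hodd (mul_right_cancel h)
  let τ : Equiv.Perm G := Equiv.Perm.viaEmbedding (Equiv.addRight (1 : ZMod m)) ⟨ι, hι_inj⟩
  have hτι : ∀ e, τ (ι e) = ι (e + 1) := fun e =>
    Equiv.Perm.viaEmbedding_apply (Equiv.addRight (1 : ZMod m)) ⟨ι, hι_inj⟩ e
  have hτ : ∀ x, x ∉ Set.range ι → τ x = x := fun x hx =>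
    Equiv.Perm.viaEmbedding_apply_of_notMem (Equiv.addRight (1 : ZMod m)) ⟨ι, hι_inj⟩ x hx
  let θ0e : Equiv.Perm G := Equiv.ofBijective θ0 (Finite.injective_iff_bijective.1 hθ0_inj)
  refine ⟨θ0e * τ * τ, ?_⟩
  have hval : (-1 : ZMod m).val = 2 * k := by
    have : (-1 : ZMod m) = ((2 * k : ℕ) : ZMod m) := by
      have h0 : ((2 * k + 1 : ℕ) : ZMod m) = 0 := ZMod.natCast_self m
      push_cast at h0 ⊢
      linear_combination -h0
    rw [this, ZMod.val_natCast_of_lt (by omega)]
  refine ncard_range_of_one_change _ (g ∘ τ)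
    ((Finite.injective_iff_bijective.1 hg_inj).comp τ.bijective) (ι (-1)) ?_ ?_
  · show ι (-1) * θ0 (τ (τ (ι (-1)))) ≠ g (τ (ι (-1)))
    simp only [hτι, g, hθ0ι]
    simp only [ι, y, neg_add_cancel, zero_add, sub_self, ZMod.val_zero, zero_sub, hval]
    obtain ⟨j, rfl⟩ : ∃ j, k = j + 1 := ⟨k - 1, by omega⟩
    have e1 : 2 * (j + 1) = (j + 1) + 1 + j := by ring
    rw [e1, XX_high, YY_high]
    simp only [XX, YY, one_mul]
    intro h
    apply hnc
    have h2 := mul_right_cancel h
    rw [pow_succ b j, mul_assoc, mul_assoc, mul_assoc] at h2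
    have h3 := mul_left_cancel h2
    rw [← pow_succ, pow_succ', ← mul_assoc, ← mul_assoc] at h3
    exact (mul_right_cancel h3).symm
  · intro x hx
    show x * θ0 (τ (τ x)) = g (τ x)
    by_cases hr : x ∈ Set.range ι
    · obtain ⟨e, rfl⟩ := hr
      have he : e ≠ -1 := fun h => hx (by rw [h])
      have hlt : e.val + 1 < m := by
        have h1 := ZMod.val_lt e
        by_contra h2
        apply he
        apply ZMod.val_injective
        rw [hval]; omega
      have hv : (e + 1).val = e.val + 1 := by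
        rw [ZMod.val_add, ZMod.val_one, Nat.mod_eq_of_lt hlt]
      simp only [hτι, g, hθ0ι]
      simp only [ι, y, add_sub_cancel_right, hv, XX, YY, mul_assoc]
    · rw [hτ x hr, hτ x hr]

theorem of_subgroup {G : Type*} [Group G] [Finite G] (hodd : Odd (Nat.card G)) (H : Subgroup G)
    (hH : HasChain H) : HasChain G := by
  classical
  obtain ⟨θ, hθ⟩ := hH
  let ι : H ↪ G := ⟨Subtype.val, Subtype.val_injective⟩
  refine ⟨θ.viaEmbedding ι, ?_⟩
  have hsq := sq_inj hodd
  have hHodd : Odd (Nat.card H) := Odd.of_dvd_nat hodd (Subgroup.card_subgroup_dvd_card H)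
  have hsqH : Surjective fun x : H => x * x := Finite.injective_iff_surjective.1 (sq_inj hHodd)
  have hsqG : Surjective fun x : G => x * x := Finite.injective_iff_surjective.1 hsq
  have hr : (Set.range fun x => x * θ.viaEmbedding ι x) =
      (Subtype.val '' (Set.range fun x : H => x * θ x)) ∪ (H : Set G)ᶜ := by
    ext z
    simp only [Set.mem_range, Set.mem_union, Set.mem_image, Set.mem_compl_iff, SetLike.mem_coe]
    constructor
    · rintro ⟨x, rfl⟩
      by_cases hx : x ∈ H
      · left
        refine ⟨_, ⟨⟨x, hx⟩, rfl⟩, ?_⟩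
        have := Equiv.Perm.viaEmbedding_apply θ ι ⟨x, hx⟩
        change θ.viaEmbedding ι x = _ at this
        rw [this]; rfl
      · right
        rw [Equiv.Perm.viaEmbedding_apply_of_notMem θ ι x (by rintro ⟨u, rfl⟩; exact hx u.2)]
        intro h
        obtain ⟨u, hu⟩ := hsqH ⟨_, h⟩
        have : (u : G) = x := hsq (congrArg Subtype.val hu)
        exact hx (this ▸ u.2)
    · rintro (⟨_, ⟨u, rfl⟩, rfl⟩ | hz)
      · refine ⟨u, ?_⟩
        have := Equiv.Perm.viaEmbedding_apply θ ι u
        change θ.viaEmbedding ι u = _ at this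
        rw [this]; rfl
      · obtain ⟨x, rfl⟩ := hsqG z
        have hx : x ∉ H := fun h => hz (H.mul_mem h h)
        refine ⟨x, ?_⟩
        rw [Equiv.Perm.viaEmbedding_apply_of_notMem θ ι x (by rintro ⟨u, rfl⟩; exact hx u.2)]
  rw [hr, Set.ncard_union_eq, Set.ncard_image_of_injective _ Subtype.val_injective, hθ]
  · have h1 := Set.ncard_add_ncard_compl (H : Set G)
    have h2 : (H : Set G).ncard = Nat.card H := (Nat.card_coe_set_eq _).symm
    have h3 : 0 < Nat.card H := Nat.card_pos
    omega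
  · rw [Set.disjoint_left]
    rintro _ ⟨u, _, rfl⟩ h
    exact h u.2

theorem of_normal {G : Type*} [Group G] [Finite G] (hodd : Odd (Nat.card G)) (N : Subgroup G)
    [N.Normal] (b n : G) (hb : b ∉ N) (hn : n ∈ N) (hnc : n * b ≠ b * n) : HasChain G := by
  refine main_hom hodd (Odd.of_dvd_nat hodd (Subgroup.card_quotient_dvd_card N))
    (QuotientGroup.mk' N) (n * b) b ?_ ?_ ?_
  · rw [map_mul, (QuotientGroup.eq_one_iff n).2 hn |> fun h => (show QuotientGroup.mk' N n = 1 from h),
      one_mul]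
  · exact fun h => hb ((QuotientGroup.eq_one_iff b).1 h)
  · intro h
    rw [← mul_assoc b n b] at h
    exact hnc (mul_right_cancel h)

theorem of_not_perfect {G : Type*} [Group G] [Finite G] (hodd : Odd (Nat.card G))
    (hc : commutator G ≠ ⊤) (hna : ∃ a b : G, a * b ≠ b * a) : HasChain G := by
  by_cases h1 : ∃ t, t ∉ commutator G ∧ ∃ n ∈ commutator G, n * t ≠ t * n
  · obtain ⟨t, ht, n, hn, hnc⟩ := h1
    exact of_normal hodd (commutator G) t n ht hn hnc
  push Not at h1
  by_cases h2 : ∃ t, t ∉ commutator G ∧ ∃ u, u * t ≠ t * u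
  · obtain ⟨t, ht, u, hu⟩ := h2
    have hle : commutator G ≤ Subgroup.centralizer {t} := by
      intro n hn
      rw [Subgroup.mem_centralizer_singleton_iff]
      exact h1 t ht n hn
    haveI : (Subgroup.centralizer {t}).Normal := Subgroup.Normal.of_commutator_le _ hle
    refine of_normal hodd (Subgroup.centralizer {t}) u t ?_ ?_ (Ne.symm hu)
    · rw [Subgroup.mem_centralizer_singleton_iff]; exact hu
    · rw [Subgroup.mem_centralizer_singleton_iff]
  · exfalso
    push Not at h2
    obtain ⟨t, ht⟩ : ∃ t, t ∉ commutator G := by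
      by_contra h
      push Not at h
      exact hc (eq_top_iff.2 fun x _ => h x)
    obtain ⟨a, b, hab⟩ := hna
    apply hab
    by_cases hb : b ∈ commutator G
    · have hbt : b * t ∉ commutator G := fun h => ht ((Subgroup.mul_mem_cancel_left _ hb).1 h)
      have e1 := h2 _ hbt a
      have e2 := h2 t ht a
      rw [mul_assoc b t a, ← e2, ← mul_assoc, ← mul_assoc] at e1
      exact mul_right_cancel e1
    · exact h2 b hb a

theorem all_nonabelian {G : Type*} [Group G] [Finite G] (hodd : Odd (Nat.card G))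
    (hna : ∃ a b : G, a * b ≠ b * a) : HasChain G := by
  classical
  have hnt : Nontrivial G := by
    obtain ⟨a, b, h⟩ := hna
    exact ⟨⟨_, _, h⟩⟩
  obtain ⟨p, hp, hpd⟩ := Nat.exists_prime_and_dvd (Finite.one_lt_card (α := G)).ne'
  haveI : Fact p.Prime := ⟨hp⟩
  let P : Sylow p G := default
  have hPne : (P : Subgroup G) ≠ ⊥ := P.ne_bot_of_dvd_card hpd
  by_cases h1 : Subgroup.normalizer (P : Set G) ≤ Subgroup.centralizer (P : Set G)
  · refine of_not_perfect hodd ?_ hna
    have hcomp := MonoidHom.ker_transferSylow_isComplement' P h1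
    haveI : IsMulCommutative (P : Subgroup G) := ⟨⟨fun x y => Subtype.ext (by
      have := h1 (Subgroup.le_normalizer x.2)
      exact (Subgroup.mem_centralizer_iff.1 this y y.2).symm)⟩⟩
    have hle : commutator G ≤ (MonoidHom.transferSylow P h1).ker := by
      rw [commutator_eq_closure, Subgroup.closure_le]
      rintro _ ⟨x, y, rfl⟩
      simp only [SetLike.mem_coe, MonoidHom.mem_ker, map_commutatorElement,
        commutatorElement_eq_one_iff_mul_comm]
      exact mul_comm' _ _
    intro htop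
    have hk : (MonoidHom.transferSylow P h1).ker = ⊤ := top_le_iff.1 (htop ▸ hle)
    rw [hk] at hcomp
    exact hPne (Subgroup.isComplement'_top_left.1 hcomp)
  · obtain ⟨b, hb, hb'⟩ := SetLike.not_le_iff_exists.1 h1
    rw [Subgroup.mem_centralizer_iff] at hb'
    push Not at hb'
    obtain ⟨n, hn, hnb⟩ := hb'
    by_cases hbP : b ∈ (P : Subgroup G)
    · refine of_subgroup hodd (P : Subgroup G) ?_
      haveI : Nontrivial (P : Subgroup G) := (Subgroup.nontrivial_iff_ne_bot _).2 hPne
      haveI : Group.IsNilpotent (P : Subgroup G) := P.isPGroup'.isNilpotent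
      refine of_not_perfect (Odd.of_dvd_nat hodd (Subgroup.card_subgroup_dvd_card _))
        (Group.IsSolvable.commutator_lt_top_of_nontrivial _).ne ⟨⟨n, hn⟩, ⟨b, hbP⟩, ?_⟩
      exact fun h => hnb (congrArg Subtype.val h)
    · refine of_subgroup hodd (Subgroup.normalizer ((P : Subgroup G) : Set G)) ?_
      refine of_normal (Odd.of_dvd_nat hodd (Subgroup.card_subgroup_dvd_card _))
        ((P : Subgroup G).subgroupOf (Subgroup.normalizer ((P : Subgroup G) : Set G)))
        ⟨b, hb⟩ ⟨n, Subgroup.le_normalizer hn⟩ hbP hn ?_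
      exact fun h => hnb (congrArg Subtype.val h)

/-- Heisenberg group mod 3. -/
@[ext] structure Heis where
  x : ZMod 3
  y : ZMod 3
  z : ZMod 3
  deriving DecidableEq, Fintype

instance : Group Heis where
  mul u v := ⟨u.x + v.x, u.y + v.y, u.z + v.z + u.x * v.y⟩
  one := ⟨0, 0, 0⟩
  inv u := ⟨-u.x, -u.y, -u.z + u.x * u.y⟩
  mul_assoc u v w := by
    show Heis.mk _ _ _ = Heis.mk _ _ _
    congr 1
    · show u.x + v.x + w.x = u.x + (v.x + w.x); ring
    · show u.y + v.y + w.y = u.y + (v.y + w.y); ring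
    · show u.z + v.z + u.x * v.y + w.z + (u.x + v.x) * w.y =
        u.z + (v.z + w.z + v.x * w.y) + u.x * (v.y + w.y); ring
  one_mul u := by
    show Heis.mk (0 + u.x) (0 + u.y) (0 + u.z + 0 * u.y) = u
    cases u; simp
  mul_one u := by
    show Heis.mk (u.x + 0) (u.y + 0) (u.z + 0 + u.x * 0) = u
    cases u; simp
  inv_mul_cancel u := by
    show Heis.mk (-u.x + u.x) (-u.y + u.y) (-u.z + u.x * u.y + u.z + -u.x * u.y) = Heis.mk 0 0 0
    congr 1 <;> ring

theorem heis_card : Nat.card Heis = 27 := by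
  rw [Nat.card_eq_fintype_card]; rfl

theorem heis_na : ∃ a b : Heis, a * b ≠ b * a :=
  ⟨⟨1, 0, 0⟩, ⟨0, 1, 0⟩, by decide⟩

end Pool.Agent.H27.NearChain
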