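import Mathlib

set_option autoImplicit false

namespace Pool.Agent.H27.NetBlow

abbrev B := ℤ × ℕ

def par (p : B) : B := (p.1 - 1, p.2 / 2)

def ch (c : Fin 2) (p : B) : B := (p.1 + 1, 2 * p.2 + c)

lemma par_ch (c : Fin 2) (p : B) : par (ch c p) = p := by
  have := c.2
  refine Prod.ext (by simp [par, ch]) ?_
  simp only [par, ch]; omega

lemma par_ne (p : B) : par p ≠ p := by
  intro h
  have := congrArg Prod.fst h
  simp only [par] at this
  omega

abbrev V := B × Fin 300

def G : SimpleGraph V where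
  Adj u v := (u.1 = v.1 ∧ u.2 ≠ v.2) ∨ par u.1 = v.1 ∨ par v.1 = u.1
  symm := ⟨fun u v h => by
    rcases h with h | h | h
    · exact Or.inl ⟨h.1.symm, h.2.symm⟩
    · exact Or.inr (Or.inr h)
    · exact Or.inr (Or.inl h)⟩
  loopless := ⟨fun u h => by
    rcases h with h | h | h
    · exact h.2 rfl
    · exact par_ne _ h
    · exact par_ne _ h⟩

def nb (p : B) : Finset B := {p, par p, ch 0 p, ch 1 p}

lemma mem_nb {u v : V} (h : G.Adj u v) : v.1 ∈ nb u.1 := by
  simp only [nb, Finset.mem_insert, Finset.mem_singleton]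
  rcases h with h | h | h
  · exact Or.inl h.1.symm
  · exact Or.inr (Or.inl h.symm)
  · right; right
    rw [← h]
    rcases Nat.mod_two_eq_zero_or_one v.1.2 with e | e
    · left; refine Prod.ext (by simp [par, ch]) ?_
      simp only [par, ch, Fin.val_zero]; omega
    · right; refine Prod.ext (by simp [par, ch]) ?_
      simp only [par, ch, Fin.val_one]; omega

lemma locfin (v : V) : (G.neighborSet v).Finite :=
  (nb v.1 ×ˢ (Finset.univ : Finset (Fin 300))).finite_toSet.subset fun w hw => by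
    simp only [Finset.coe_product, Set.mem_prod, Finset.mem_coe, Finset.mem_univ, and_true]
    exact mem_nb hw

lemma adj_par (p : B) (i j : Fin 300) : G.Adj (p, i) (par p, j) := Or.inr (Or.inl rfl)

lemma conn : G.Connected := by
  have h1 : ∀ (x : ℕ) (n : ℤ) (i : Fin 300), ∃ n', G.Reachable ((n, x), i) ((n', 0), 0) := by
    intro x
    induction x using Nat.strong_induction_on with
    | _ x ih =>
      intro n i
      by_cases hx : x = 0
      · subst hx
        have := (adj_par (n, 0) i 0).reachable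
        simp only [par, Nat.zero_div] at this
        exact ⟨n - 1, this⟩
      · obtain ⟨n', h⟩ := ih (x / 2) (by omega) (n - 1) 0
        exact ⟨n', (adj_par (n, x) i 0).reachable.trans h⟩
  have h2 : ∀ n : ℤ, G.Reachable ((n, 0), 0) ((0, 0), 0) := by
    intro n
    induction n using Int.induction_on with
    | zero => rfl
    | succ n ih =>
      have := (adj_par ((n : ℤ) + 1, 0) 0 0).reachable
      simp only [par, add_sub_cancel_right, Nat.zero_div] at this
      exact this.trans ih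
    | pred n ih =>
      have := (adj_par (-(n : ℤ), 0) 0 0).reachable
      simp only [par, Nat.zero_div] at this
      exact this.symm.trans ih
  have h3 : ∀ v : V, G.Reachable v ((0, 0), 0) := fun v => by
    obtain ⟨n', h⟩ := h1 v.1.2 v.1.1 v.2
    exact h.trans (h2 n')
  exact ⟨fun u v => (h3 u).trans (h3 v).symm⟩

def Y (y : ℕ) (n l : ℤ) : ℕ := y * 2 ^ (l - n).toNat / 2 ^ (n - l).toNat

lemma Y_self (y : ℕ) (n : ℤ) : Y y n n = y := by simp [Y]

lemma Y_half (y : ℕ) (n l : ℤ) : Y y n l / 2 = Y y n (l - 1) := by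
  unfold Y
  by_cases h : n < l
  · have e1 : (n - l).toNat = 0 := by omega
    have e2 : (n - (l - 1)).toNat = 0 := by omega
    have e3 : (l - n).toNat = (l - 1 - n).toNat + 1 := by omega
    rw [e1, e2, e3, pow_succ, ← mul_assoc]
    simp
  · have e1 : (l - n).toNat = 0 := by omega
    have e2 : (l - 1 - n).toNat = 0 := by omega
    have e3 : (n - (l - 1)).toNat = (n - l).toNat + 1 := by omega
    rw [e1, e2, e3, pow_succ, Nat.div_div_eq_div_mul]

def ψ (c : ℤ) (y : ℕ) (n : ℤ) : B ≃ B where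
  toFun p := (p.1 + c, p.2 ^^^ Y y n p.1)
  invFun p := (p.1 - c, p.2 ^^^ Y y n (p.1 - c))
  left_inv p := by simp [Nat.xor_assoc]
  right_inv p := by simp [Nat.xor_assoc]

lemma ψ_par (c : ℤ) (y : ℕ) (n : ℤ) (p : B) : par (ψ c y n p) = ψ c y n (par p) := by
  show (p.1 + c - 1, (p.2 ^^^ Y y n p.1) / 2) = (p.1 - 1 + c, (p.2 / 2) ^^^ Y y n (p.1 - 1))
  rw [Nat.xor_div_two, Y_half]
  congr 1
  ring

lemma trans (u v : V) : ∃ φ : G ≃g G, φ u = v := by
  let e := ψ (v.1.1 - u.1.1) (u.1.2 ^^^ v.1.2) u.1.1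
  refine ⟨⟨e.prodCongr (Equiv.swap u.2 v.2), ?_⟩, ?_⟩
  · intro a b
    show (e a.1 = e b.1 ∧ Equiv.swap u.2 v.2 a.2 ≠ Equiv.swap u.2 v.2 b.2) ∨
      par (e a.1) = e b.1 ∨ par (e b.1) = e a.1 ↔ _
    rw [ψ_par, ψ_par]
    simp only [ne_eq, EmbeddingLike.apply_eq_iff_eq, e]
    rfl
  · show (e u.1, Equiv.swap u.2 v.2 u.2) = v
    refine Prod.ext ?_ (by simp)
    show (u.1.1 + (v.1.1 - u.1.1), u.1.2 ^^^ Y _ u.1.1 u.1.1) = v.1
    rw [Y_self, ← Nat.xor_assoc]
    simp

def S : Set V := {v | v.1.1 % 2 = 0 ∧ v.2 = 0}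

lemma S_sep : ∀ u ∈ S, ∀ v ∈ S, u ≠ v → 2 ≤ G.dist u v := by
  intro u hu v hv huv
  have h0 : G.dist u v ≠ 0 := fun h => huv (conn.dist_eq_zero_iff.mp h)
  have h1 : G.dist u v ≠ 1 := fun h => by
    have a := hu.1
    have b := hv.1
    rcases SimpleGraph.dist_eq_one_iff_adj.mp h with h | h | h
    · exact h.2 (hu.2.trans hv.2.symm)
    · have := congrArg Prod.fst h
      simp only [par] at this
      omega
    · have := congrArg Prod.fst h
      simp only [par] at this
      omega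
  omega

lemma S_max : ∀ w : V, w ∉ S → ∃ u ∈ S, G.dist w u < 2 := by
  intro w hw
  by_cases h : w.1.1 % 2 = 0
  · refine ⟨(w.1, 0), ⟨h, rfl⟩, ?_⟩
    rw [SimpleGraph.dist_eq_one_iff_adj.mpr (Or.inl ⟨rfl, fun e => hw ⟨h, e⟩⟩)]
    norm_num
  · refine ⟨(par w.1, 0), ⟨by simp only [par]; omega, rfl⟩, ?_⟩
    rw [SimpleGraph.dist_eq_one_iff_adj.mpr (adj_par w.1 w.2 0)]
    norm_num

def ball (p : B) : ℕ → Finset B
  | 0 => {p}
  | r + 1 => (ball p r).biUnion nb

lemma card_ball (p : B) (r : ℕ) : (ball p r).card ≤ 4 ^ r := by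
  induction r with
  | zero => simp [ball]
  | succ r ih =>
    refine (Finset.card_biUnion_le_card_mul _ _ 4 fun a _ => Finset.card_le_four).trans ?_
    rw [pow_succ]
    exact Nat.mul_le_mul_right _ ih

lemma mem_ball {u v : V} (w : G.Walk u v) : ∀ r, w.length ≤ r → u.1 ∈ ball v.1 r := by
  induction w with
  | nil =>
    intro r _
    induction r with
    | zero => simp [ball]
    | succ r ih =>
      exact Finset.mem_biUnion.mpr ⟨_, ih (Nat.zero_le _), by simp [nb]⟩
  | cons h w ih =>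
    intro r hr
    obtain ⟨r, rfl⟩ : ∃ r', r = r' + 1 := ⟨r - 1, by simp at hr; omega⟩
    exact Finset.mem_biUnion.mpr ⟨_, ih r (by simpa using hr), mem_nb h.symm⟩

lemma net_small (v : V) :
    Set.ncard {p : V × V | p.1 ∈ ({v} : Finset V) ∧ p.2 ∈ S ∧ p.2 ∉ ({v} : Finset V) ∧
      G.dist p.1 p.2 ≤ 2 * 2} ≤ 256 := by
  classical
  have : {p : V × V | p.1 ∈ ({v} : Finset V) ∧ p.2 ∈ S ∧ p.2 ∉ ({v} : Finset V) ∧
      G.dist p.1 p.2 ≤ 2 * 2} ⊆ ((ball v.1 4).image (fun q => (v, (q, (0 : Fin 300)))) : Finset _) := by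
    rintro ⟨a, b⟩ ⟨h1, h2, -, h4⟩
    simp only [Finset.mem_singleton] at h1
    subst h1
    obtain ⟨w, hw⟩ := conn.exists_walk_length_eq_dist b a
    have := mem_ball w 4 (by rw [hw, SimpleGraph.dist_comm]; exact h4)
    simp only [Finset.coe_image, Set.mem_image, Finset.mem_coe]
    exact ⟨b.1, this, Prod.ext rfl (Prod.ext rfl h2.2.symm)⟩
  refine (Set.ncard_le_ncard this (Finset.finite_toSet _)).trans ?_
  rw [Set.ncard_coe_finset]
  exact Finset.card_image_le.trans (card_ball _ 4)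

lemma big (A : Finset V) :
    300 * A.card ≤ Set.ncard {p : V × V | p.1 ∈ A ∧ p.2 ∉ A ∧ G.Adj p.1 p.2} := by
  classical
  have fin : {p : V × V | p.1 ∈ A ∧ p.2 ∉ A ∧ G.Adj p.1 p.2}.Finite := by
    refine (A.finite_toSet.biUnion fun a _ => (locfin a).image (fun b => (a, b))).subset ?_
    rintro ⟨a, b⟩ ⟨h1, -, h3⟩
    simp only [Set.mem_iUnion]
    exact ⟨a, h1, b, h3, rfl⟩
  let F : V × Fin 2 × Fin 300 → V × V := fun q => (q.1, (ch q.2.1 q.1.1, q.2.2))
  have Finj : Function.Injective F := by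
    rintro ⟨a, c, i⟩ ⟨a', c', i'⟩ h
    simp only [F, Prod.mk.injEq, ch] at h
    obtain ⟨rfl, ⟨-, h2⟩, rfl⟩ := h
    have : c = c' := Fin.ext (by omega)
    rw [this]
  let T := (A ×ˢ (Finset.univ : Finset (Fin 2 × Fin 300))).image F
  have hT : T.card = A.card * 600 := by
    rw [Finset.card_image_of_injective _ Finj]; simp
  have hpar : ∀ p ∈ T, p.1 ∈ A ∧ par p.2.1 = p.1.1 := by
    intro p hp
    obtain ⟨q, hq, rfl⟩ := Finset.mem_image.mp hp
    exact ⟨(Finset.mem_product.mp hq).1, par_ch _ _⟩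
  have h1 : (T.filter (fun p => p.2 ∈ A)).card ≤ (A ×ˢ (Finset.univ : Finset (Fin 300))).card := by
    apply Finset.card_le_card_of_injOn (fun p => (p.2, p.1.2))
    · intro p hp
      simp only [Finset.coe_filter, Set.mem_ofPred_eq] at hp
      simp [hp.2]
    · intro p hp q hq h
      simp only [Finset.coe_filter, Set.mem_ofPred_eq] at hp hq
      simp only [Prod.mk.injEq] at h
      refine Prod.ext (Prod.ext ?_ h.2) h.1
      rw [← (hpar p hp.1).2, ← (hpar q hq.1).2, h.1]
  have h2 := Finset.card_filter_add_card_filter_not (s := T) (fun p => p.2 ∈ A)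
  have h3 : (T.filter (fun p => ¬ p.2 ∈ A)).card ≤
      Set.ncard {p : V × V | p.1 ∈ A ∧ p.2 ∉ A ∧ G.Adj p.1 p.2} := by
    rw [← Set.ncard_coe_finset]
    refine Set.ncard_le_ncard ?_ fin
    intro p hp
    simp only [Finset.coe_filter, Set.mem_ofPred_eq] at hp
    exact ⟨(hpar p hp.1).1, hp.2, Or.inr (Or.inr (hpar p hp.1).2)⟩
  simp only [Finset.card_product, Finset.card_univ, Fintype.card_fin] at h1
  omega

end Pool.Agent.H27.NetBlow
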