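import Pool.Agent.H27.NetTree

set_option autoImplicit false

namespace Pool.Agent.H27.Net

open SimpleGraph

theorem pot_le_dist {V : Type} {G : SimpleGraph V} (hc : G.Connected) (f : V → ℤ)
    (hf : ∀ p q, G.Adj p q → f q ≤ f p + 1) (p q : V) : f q - f p ≤ G.dist p q := by
  obtain ⟨w, hw⟩ := hc.exists_walk_length_eq_dist p q
  rw [← hw]
  clear hw
  induction w with
  | nil => simp
  | cons h w ih =>
    have := hf _ _ h
    simp only [Walk.length_cons]
    push_cast
    linarith

theorem child_count {V I : Type} [Fintype I] {G : SimpleGraph V} (A A' A'' : Finset V)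
    (hA' : A' ⊆ A) (c : V → I → V) (hadj : ∀ p ∈ A', ∀ i, G.Adj p (c p i))
    (hinj : ∀ p ∈ A', ∀ p' ∈ A', ∀ i i', c p i = c p' i' → p = p' ∧ i = i')
    (hin : ∀ p ∈ A', ∀ i, c p i ∈ A → c p i ∈ A'')
    (hB : {p : V × V | p.1 ∈ A ∧ p.2 ∉ A ∧ G.Adj p.1 p.2}.Finite) :
    A'.card * Fintype.card I ≤
      A''.card + Set.ncard {p : V × V | p.1 ∈ A ∧ p.2 ∉ A ∧ G.Adj p.1 p.2} := by
  classical
  let P : Finset (V × I) := A' ×ˢ Finset.univ
  have hP : P.card = A'.card * Fintype.card I := by simp [P]
  have hinj' : Set.InjOn (fun p : V × I => c p.1 p.2) P := by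
    intro p hp p' hp' he
    have := hinj _ (Finset.mem_product.1 hp).1 _ (Finset.mem_product.1 hp').1 _ _ he
    exact Prod.ext this.1 this.2
  have h1 : (P.filter fun p => c p.1 p.2 ∈ A).card ≤ A''.card :=
    Finset.card_le_card_of_injOn (fun p : V × I => c p.1 p.2)
      (fun p hp => hin _ (Finset.mem_product.1 (Finset.mem_filter.1 hp).1).1 _
        (Finset.mem_filter.1 hp).2)
      (hinj'.mono (Finset.coe_subset.2 (Finset.filter_subset _ _)))
  have h2 : (P.filter fun p => ¬ c p.1 p.2 ∈ A).card ≤ hB.toFinset.card := by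
    refine Finset.card_le_card_of_injOn (fun p => (p.1, c p.1 p.2)) (fun p hp => ?_) ?_
    · have hp' := Finset.mem_filter.1 hp
      have hA := (Finset.mem_product.1 hp'.1).1
      simp only [Finset.mem_coe, Set.Finite.mem_toFinset, Set.mem_ofPred_eq]
      exact ⟨hA' hA, hp'.2, hadj _ hA _⟩
    · intro p hp p' hp' he
      exact hinj' (Finset.mem_filter.1 hp).1 (Finset.mem_filter.1 hp').1 (congrArg Prod.snd he)
  have h3 := Finset.card_filter_add_card_filter_not (s := P) fun p => c p.1 p.2 ∈ A
  rw [Set.ncard_eq_toFinset_card _ hB]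
  omega

namespace Caps

abbrev W (K : ℕ) : Type :=
  {p : List (Fin 3) × List (Fin 8) // p.2.length ≤ K ∧ (p.2.length = K ∨ K + 1 ≤ p.1.length)}

variable {K : ℕ}

def R (p q : W K) : Prop :=
  (p.1.2.length = K ∧ q.1.2 = p.1.2 ∧ ∃ i, q.1.1 = i :: p.1.1) ∨
    (q.1.1 = p.1.1 ∧ ∃ i, q.1.2 = i :: p.1.2)

def GG (K : ℕ) : SimpleGraph (W K) where
  Adj p q := R p q ∨ R q p
  symm := ⟨fun _ _ h => h.symm⟩
  loopless := ⟨fun p h => by
    rcases h with h | h <;> rcases h with ⟨-, -, i, h⟩ | ⟨-, i, h⟩ <;>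
      exact absurd (congrArg List.length h) (by simp)⟩

theorem dist_up (w : List (Fin 3)) (u : List (Fin 8)) (hu : u.length = K) :
    ∃ p : (GG K).Walk ⟨(w, u), hu.le, Or.inl hu⟩ ⟨([], u), hu.le, Or.inl hu⟩,
      p.length = w.length := by
  induction w with
  | nil => exact ⟨Walk.nil, rfl⟩
  | cons i w ih =>
    obtain ⟨p, hp⟩ := ih
    refine ⟨Walk.cons ?_ p, ?_⟩
    · exact Or.inr (Or.inl ⟨hu, rfl, i, rfl⟩)
    · exact congrArg (· + 1) hp

theorem dist_cap (w : List (Fin 3)) (hw : K + 1 ≤ w.length) (u : List (Fin 8)) (hu : u.length ≤ K) :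
    ∃ p : (GG K).Walk ⟨(w, u), hu, Or.inr hw⟩ ⟨(w, []), Nat.zero_le _, Or.inr hw⟩,
      p.length = u.length := by
  induction u with
  | nil => exact ⟨Walk.nil, rfl⟩
  | cons i u ih =>
    obtain ⟨p, hp⟩ := ih (by simp at hu; omega)
    refine ⟨Walk.cons ?_ p, ?_⟩
    · exact Or.inr (Or.inr ⟨rfl, i, rfl⟩)
    · exact congrArg (· + 1) hp

theorem conn : (GG K).Connected := by
  let w0 : List (Fin 3) := List.replicate (K + 1) 0
  have hw0 : K + 1 ≤ w0.length := by simp [w0]
  let z : W K := ⟨(w0, []), Nat.zero_le _, Or.inr hw0⟩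
  have h1 : ∀ w u (hu : u.length = K), (GG K).Reachable ⟨(w, u), hu.le, Or.inl hu⟩ z := by
    intro w u hu
    obtain ⟨p, -⟩ := dist_up w u hu
    obtain ⟨q, -⟩ := dist_up w0 u hu
    obtain ⟨r, -⟩ := dist_cap w0 hw0 u hu.le
    exact p.reachable.trans (q.reachable.symm.trans r.reachable)
  have h2 : ∀ v : W K, (GG K).Reachable v z := by
    rintro ⟨⟨w, u⟩, h, h' | h'⟩
    · exact h1 w u h'
    · obtain ⟨p, -⟩ := dist_cap w h' u h
      obtain ⟨q, -⟩ := dist_cap w h' (List.replicate K 0) (by simp)
      exact p.reachable.trans (q.reachable.symm.trans (h1 w _ (by simp)))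
  haveI : Nonempty (W K) := ⟨z⟩
  exact ⟨fun u v => (h2 u).trans (h2 v).symm⟩

theorem inf : Infinite (W K) :=
  Infinite.of_injective
    (fun n : ℕ => (⟨(List.replicate n 0, List.replicate K 0), by simp⟩ : W K))
    fun a b h => by
      have := congrArg (fun p : W K => p.1.1.length) h
      simpa using this

theorem deg (v : W K) : ((GG K).neighborSet v).encard ≤ 9 := by
  classical
  obtain ⟨⟨w, u⟩, h1, h2⟩ := v
  let F : Finset (List (Fin 3) × List (Fin 8)) :=
    if u.length = K then insert (w, u.tail) (insert (w.tail, u) (Finset.univ.image fun i => (i :: w, u)))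
    else insert (w, u.tail) (Finset.univ.image fun i => (w, i :: u))
  have hF : F.card ≤ 9 := by
    simp only [F]
    split_ifs
    · refine (Finset.card_insert_le _ _).trans ?_
      refine (Nat.succ_le_succ (Finset.card_insert_le _ _)).trans ?_
      have := Finset.card_image_le (s := (Finset.univ : Finset (Fin 3))) (f := fun i => (i :: w, u))
      simp at this
      omega
    · refine (Finset.card_insert_le _ _).trans ?_
      have := Finset.card_image_le (s := (Finset.univ : Finset (Fin 8))) (f := fun i => (w, i :: u))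
      simp at this
      omega
  have : ((GG K).neighborSet ⟨(w, u), h1, h2⟩).encard ≤ (F : Set (List (Fin 3) × List (Fin 8))).encard := by
    refine Set.encard_le_encard_of_injOn (f := Subtype.val) ?_ Subtype.val_injective.injOn
    rintro ⟨⟨w', u'⟩, h3, h4⟩ h
    simp only at h1 h2 h3 h4
    simp only [Finset.mem_coe, F]
    rcases h with (⟨a, b, i, c⟩ | ⟨a, i, c⟩) | (⟨a, b, i, c⟩ | ⟨a, i, c⟩) <;> simp only at a c
    · simp only at b
      subst b c
      simp [a]
    · subst a c
      have : u.length ≠ K := by simp at h3; omega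
      simp [this]
    · simp only at b
      subst b c
      simp [a]
    · subst a c
      split_ifs <;> simp
  refine this.trans ?_
  rw [Set.encard_coe_eq_coe_finsetCard]
  exact_mod_cast hF

theorem locfin (v : W K) : ((GG K).neighborSet v).Finite :=
  Set.finite_of_encard_le_coe (k := 9) (deg v)

theorem cheeger_G : 1 < cheeger (GG K) := by
  classical
  have : (7 / 5 : ℝ) ≤ cheeger (GG K) := by
    unfold cheeger
    refine le_csInf ⟨_, {⟨([], List.replicate K 0), by simp⟩}, by simp, rfl⟩ ?_
    rintro r ⟨A, hA, rfl⟩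
    have hpos : (0 : ℝ) < A.card := by exact_mod_cast hA.card_pos
    rw [le_div_iff₀ hpos]
    have hB : {p : W K × W K | p.1 ∈ A ∧ p.2 ∉ A ∧ (GG K).Adj p.1 p.2}.Finite := by
      refine (A.finite_toSet.biUnion fun a _ => (locfin a).image (fun v => (a, v))).subset ?_
      rintro ⟨a, v⟩ ⟨ha, -, h⟩
      simp only [Set.mem_iUnion]
      exact ⟨a, ha, v, h, rfl⟩
    have h1 := child_count (G := GG K) A (A.filter fun p => p.1.2.length = K)
      (A.filter fun p => p.1.2.length = K) (Finset.filter_subset _ _)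
      (fun p (i : Fin 3) => ⟨(i :: p.1.1, p.1.2), p.2.1, p.2.2.imp id fun h => by simp; omega⟩)
      (fun p hp i => Or.inl (Or.inl ⟨(Finset.mem_filter.1 hp).2, rfl, i, rfl⟩))
      (fun p _ p' _ i i' h => by
        simp only [Subtype.mk.injEq, Prod.mk.injEq, List.cons.injEq] at h
        exact ⟨Subtype.ext (Prod.ext h.1.2 h.2), h.1.1⟩)
      (fun p hp i h => Finset.mem_filter.2 ⟨h, (Finset.mem_filter.1 hp).2⟩) hB
    have h2 := child_count (G := GG K) A (A.filter fun p => ¬ p.1.2.length = K) A
      (Finset.filter_subset _ _)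
      (fun p (i : Fin 8) => if h : p.1.2.length = K then p else
        ⟨(p.1.1, i :: p.1.2), by have := p.2.1; simp; omega, Or.inr (p.2.2.resolve_left h)⟩)
      (fun p hp i => by
        rw [dif_neg (Finset.mem_filter.1 hp).2]
        exact Or.inl (Or.inr ⟨rfl, i, rfl⟩))
      (fun p hp p' hp' i i' h => by
        rw [dif_neg (Finset.mem_filter.1 hp).2, dif_neg (Finset.mem_filter.1 hp').2] at h
        simp only [Subtype.mk.injEq, Prod.mk.injEq, List.cons.injEq] at h
        exact ⟨Subtype.ext (Prod.ext h.1 h.2.2), h.2.1⟩)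
      (fun p hp i h => h) hB
    have h3 := Finset.card_filter_add_card_filter_not (s := A) fun p => p.1.2.length = K
    simp only [Fintype.card_fin] at h1 h2
    have h4 : 7 * A.card ≤ 5 * Set.ncard {p : W K × W K | p.1 ∈ A ∧ p.2 ∉ A ∧ (GG K).Adj p.1 p.2} := by
      omega
    have h5 : ((7 * A.card : ℕ) : ℝ) ≤ _ := Nat.cast_le.2 h4
    push_cast at h5
    linarith
  linarith

def SS (K : ℕ) : Set (W K) := {p | p.1.1 = [] ∨ p.1.2 = []}

theorem net (hK : 1 ≤ K) : IsNet (GG K) (K + 1) (SS K) := by
  refine isNet_of ?_ ?_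
  · have key1 : ∀ p q : W K, p.1.1 = [] → q ∈ SS K → p ≠ q → K + 1 ≤ (GG K).dist p q := by
      rintro ⟨⟨w0, u0⟩, a1, a2⟩ q hp hq hpq
      simp only at hp a1 a2
      subst hp
      have hu0 : u0.length = K := by simpa using a2
      have := pot_le_dist conn
        (fun v : W K => if v.1.2 = u0 then min (v.1.1.length : ℤ) (K + 1) else K + 1)
        (by
          rintro ⟨⟨w, u⟩, b1, b2⟩ ⟨⟨w', u'⟩, c1, c2⟩ h
          simp only at b1 b2 c1 c2 ⊢
          rcases h with (⟨a, b, i, c⟩ | ⟨a, i, c⟩) | (⟨a, b, i, c⟩ | ⟨a, i, c⟩) <;>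
            simp only at a c
          · simp only at b
            subst b c
            split_ifs <;> simp <;> omega
          · subst a c
            simp only [List.length_cons] at c1
            split_ifs <;> omega
          · simp only at b
            subst b c
            split_ifs <;> simp <;> omega
          · subst a c
            simp only [List.length_cons] at b1
            split_ifs <;> omega) ⟨([], u0), a1, a2⟩ q
      have hne : q.1.2 ≠ u0 := by
        intro h
        rcases hq with hq | hq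
        · exact hpq (Subtype.ext (Prod.ext hq.symm h.symm))
        · rw [hq] at h; rw [← h] at hu0; simp at hu0; omega
      simp only [if_neg hne, if_true, List.length_nil] at this
      omega
    have key2 : ∀ p q : W K, p.1.2 = [] → q.1.2 = [] → p ≠ q → K + 1 ≤ (GG K).dist p q := by
      rintro ⟨⟨w0, u0⟩, a1, a2⟩ q hp hq hpq
      simp only at hp a1 a2
      subst hp
      have := pot_le_dist conn
        (fun v : W K => if v.1.1 = w0 then (v.1.2.length : ℤ) else K + 1)
        (by
          rintro ⟨⟨w, u⟩, b1, b2⟩ ⟨⟨w', u'⟩, c1, c2⟩ h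
          simp only at b1 b2 c1 c2 ⊢
          rcases h with (⟨a, b, i, c⟩ | ⟨a, i, c⟩) | (⟨a, b, i, c⟩ | ⟨a, i, c⟩) <;>
            simp only at a c
          · simp only at b
            subst b c
            split_ifs <;> omega
          · subst a c
            split_ifs <;> simp
          · simp only at b
            subst b c
            split_ifs <;> omega
          · subst a c
            split_ifs <;> simp <;> omega) ⟨(w0, []), a1, a2⟩ q
      have hne : q.1.1 ≠ w0 := fun h => hpq (Subtype.ext (Prod.ext h.symm hq.symm))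
      simp only [if_neg hne, if_true, List.length_nil] at this
      omega
    intro p hp q hq hpq
    rcases hp with hp | hp
    · exact key1 p q hp hq hpq
    rcases hq with hq | hq
    · rw [dist_comm]; exact key1 q p hq (Or.inr hp) hpq.symm
    · exact key2 p q hp hq hpq
  · rintro ⟨⟨w, u⟩, h1, h2⟩ -
    simp only at h1 h2
    by_cases hw : K + 1 ≤ w.length
    · obtain ⟨p, hp⟩ := dist_cap w hw u h1
      exact ⟨_, Or.inr rfl, lt_of_le_of_lt (dist_le p) (by omega)⟩
    · obtain ⟨p, hp⟩ := dist_up w u (h2.resolve_right hw)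
      exact ⟨_, Or.inl rfl, lt_of_le_of_lt (dist_le p) (by omega)⟩

theorem close (hK : 1 ≤ K) (p q : W K) (hp : p ∈ SS K) (hq : q.1.2 = [])
    (h1 : p.1.1.length ≤ K + 2) (h2 : K + 2 < q.1.1.length) (hd : (GG K).dist q p ≤ 2 * (K + 1)) :
    p.1.2 = [] ∧ p.1.1 <:+ q.1.1 ∧ q.1.1.length ≤ p.1.1.length + 2 := by
  classical
  obtain ⟨⟨w0, u0⟩, a1, a2⟩ := q
  simp only at hq a1 a2 h2 ⊢
  subst hq
  have := pot_le_dist conn
    (fun v : W K => if v.1.1 = w0 then (v.1.2.length : ℤ) else
      2 * K - v.1.2.length + (w0.length - v.1.1.length + if v.1.1 <:+ w0 then 0 else 2))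
    (by
      rintro ⟨⟨w, u⟩, b1, b2⟩ ⟨⟨w', u'⟩, c1, c2⟩ h
      simp only at b1 b2 c1 c2 ⊢
      rcases h with (⟨a, b, i, c⟩ | ⟨a, i, c⟩) | (⟨a, b, i, c⟩ | ⟨a, i, c⟩) <;>
        simp only at a c
      · simp only at b
        subst b c
        by_cases e1 : w = w0
        · subst e1
          have n1 : ¬ (i :: w = w) := fun h => absurd (congrArg List.length h) (by simp)
          have n2 : ¬ (i :: w <:+ w) := fun h => absurd h.length_le (by simp)
          simp only [if_neg n1, if_neg n2, if_true, List.length_cons]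
          push_cast; omega
        · by_cases e2 : i :: w = w0
          · subst e2
            have : w <:+ i :: w := List.suffix_cons i w
            simp only [if_neg e1, if_pos this, if_true, List.length_cons]
            push_cast; omega
          · simp only [if_neg e1, if_neg e2, List.length_cons]
            split_ifs <;> push_cast <;> omega
      · subst a c
        split_ifs <;> simp <;> omega
      · simp only at b
        subst b c
        by_cases e1 : w' = w0
        · subst e1
          have n1 : ¬ (i :: w' = w') := fun h => absurd (congrArg List.length h) (by simp)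
          have n2 : ¬ (i :: w' <:+ w') := fun h => absurd h.length_le (by simp)
          simp only [if_neg n1, if_neg n2, if_true, List.length_cons]
          push_cast; omega
        · by_cases e2 : i :: w' = w0
          · subst e2
            have : w' <:+ i :: w' := List.suffix_cons i w'
            simp only [if_neg e1, if_pos this, if_true, List.length_cons]
            push_cast; omega
          · simp only [if_neg e1, if_neg e2, List.length_cons]
            by_cases e3 : i :: w' <:+ w0
            · have : w' <:+ w0 := (List.suffix_cons i w').trans e3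
              simp only [if_pos e3, if_pos this]
              push_cast; omega
            · simp only [if_neg e3]
              split_ifs <;> push_cast <;> omega
      · subst a c
        split_ifs <;> simp <;> omega) ⟨(w0, []), a1, a2⟩ p
  have hne : p.1.1 ≠ w0 := fun h => by rw [h] at h1; omega
  simp only [if_neg hne, if_true, List.length_nil] at this
  have b1 := p.2.1
  rcases hp with hp | hp
  · exfalso
    have h0 : p.1.1.length = 0 := by rw [hp]; rfl
    split_ifs at this <;> omega
  · have : p.1.2.length = 0 := by rw [hp]; rfl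
    refine ⟨hp, ?_⟩
    by_cases e : p.1.1 <:+ w0
    · refine ⟨e, ?_⟩
      simp only [if_pos e] at *
      omega
    · exfalso
      simp only [if_neg e] at *
      omega

theorem lists_card (n m : ℕ) : ∃ F : Finset (List (Fin m)), F.card = m ^ n ∧
    ∀ l, l ∈ F ↔ l.length = n := by
  classical
  refine ⟨(Finset.univ : Finset (List.Vector (Fin m) n)).image List.Vector.toList, ?_, ?_⟩
  · rw [Finset.card_image_of_injective _ List.Vector.toList_injective]
    simp [card_vector]
  · intro l
    simp only [Finset.mem_image, Finset.mem_univ, true_and]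
    exact ⟨fun ⟨v, hv⟩ => hv ▸ v.toList_length, fun h => ⟨⟨l, h⟩, rfl⟩⟩

theorem net_small (hK : 1 ≤ K) :
    cheeger (netGraph (GG K) (K + 1) (SS K)) ≤ 216 * (3 / 8 : ℝ) ^ K := by
  classical
  have hfin : {p : SS K | p.1.1.1.length ≤ K + 2}.Finite := by
    refine Set.Finite.of_injOn (f := fun p : SS K => p.1.1)
      (t := {l | l.length ≤ K + 2} ×ˢ {l | l.length ≤ K}) ?_ ?_
      ((List.finite_length_le _ _).prod (List.finite_length_le _ _))
    · intro p hp
      exact ⟨hp, p.1.2.1⟩
    · intro p _ q _ h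
      exact Subtype.ext (Subtype.ext h)
  let A := hfin.toFinset
  have hA : ∀ p, p ∈ A ↔ p.1.1.1.length ≤ K + 2 := fun p => by simp [A]
  obtain ⟨F8, hF8, hF8'⟩ := lists_card K 8
  obtain ⟨F3, hF3, hF3'⟩ := lists_card (K + 3) 3
  obtain ⟨F4, hF4, hF4'⟩ := lists_card (K + 4) 3
  have hcard : 8 ^ K ≤ A.card := by
    rw [← hF8]
    refine Finset.card_le_card_of_surjOn (fun p : SS K => p.1.1.2) ?_
    intro u hu
    have hu' := (hF8' u).1 hu
    exact ⟨⟨⟨([], u), hu'.le, Or.inl hu'⟩, Or.inl rfl⟩, (hA _).2 (by simp), rfl⟩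
  have hB : Set.ncard {p : SS K × SS K | p.1 ∈ A ∧ p.2 ∉ A ∧
      (netGraph (GG K) (K + 1) (SS K)).Adj p.1 p.2} ≤ 216 * 3 ^ K := by
    have hT : (((F3 ∪ F4) ×ˢ ({K + 1, K + 2} : Finset ℕ))).card ≤ 216 * 3 ^ K := by
      rw [Finset.card_product]
      have a1 := Finset.card_union_le F3 F4
      have a2 : ({K + 1, K + 2} : Finset ℕ).card ≤ 2 := Finset.card_le_two
      rw [hF3, hF4] at a1
      calc _ ≤ (3 ^ (K + 3) + 3 ^ (K + 4)) * 2 := Nat.mul_le_mul a1 a2
        _ = 216 * 3 ^ K := by ring
    refine le_trans ?_ hT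
    rw [← Set.ncard_coe_finset]
    have hcl : ∀ p : SS K × SS K, p.1 ∈ A → p.2 ∉ A → (netGraph (GG K) (K + 1) (SS K)).Adj p.1 p.2 →
        p.2.1.1.2 = [] ∧ p.1.1.1.1.length ≤ K + 2 ∧ K + 2 < p.2.1.1.1.length ∧
        p.1.1.1.2 = [] ∧ p.1.1.1.1 <:+ p.2.1.1.1 ∧ p.2.1.1.1.length ≤ p.1.1.1.1.length + 2 := by
      intro p h1 h2 h3
      rw [hA] at h1 h2
      have h4 : p.2.1.1.2 = [] := by
        rcases p.2.2 with h | h
        · rw [h] at h2; simp at h2
        · exact h
      refine ⟨h4, h1, by omega, close hK _ _ p.1.2 h4 h1 (by omega) ?_⟩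
      rw [dist_comm]; exact h3.2
    refine Set.ncard_le_ncard_of_injOn (fun p : SS K × SS K => (p.2.1.1.1, p.1.1.1.1.length)) ?_ ?_
    · rintro p ⟨h1, h2, h3⟩
      obtain ⟨-, a2, a3, -, -, a6⟩ := hcl p h1 h2 h3
      simp only [Finset.coe_product, Set.mem_prod, Finset.mem_coe, Finset.mem_union, hF3', hF4',
        Finset.mem_insert, Finset.mem_singleton]
      omega
    · rintro p ⟨h1, h2, h3⟩ q ⟨g1, g2, g3⟩ he
      obtain ⟨a1, -, -, a4, a5, -⟩ := hcl p h1 h2 h3
      obtain ⟨b1, -, -, b4, b5, -⟩ := hcl q g1 g2 g3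
      simp only [Prod.mk.injEq] at he
      rw [← he.1] at b5
      have e : p.1.1.1.1 = q.1.1.1.1 :=
        (List.suffix_of_suffix_length_le a5 b5 he.2.le).eq_of_length he.2
      exact Prod.ext (Subtype.ext (Subtype.ext (Prod.ext e (a4.trans b4.symm))))
        (Subtype.ext (Subtype.ext (Prod.ext he.1 (a1.trans b1.symm))))
  have h8 : (0 : ℝ) < 8 ^ K := by positivity
  have hAne : A.Nonempty := by
    rw [← Finset.card_pos]; exact lt_of_lt_of_le (by positivity) hcard
  unfold cheeger
  refine le_trans (csInf_le ⟨0, ?_⟩ ⟨A, hAne, rfl⟩) ?_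
  · rintro r ⟨B, -, rfl⟩
    positivity
  · have c1 : ((8 ^ K : ℕ) : ℝ) ≤ A.card := Nat.cast_le.2 hcard
    have c2 : (_ : ℝ) ≤ ((216 * 3 ^ K : ℕ) : ℝ) := Nat.cast_le.2 hB
    push_cast at c1 c2
    rw [div_pow, ← mul_div_assoc]
    exact div_le_div₀ (by positivity) c2 h8 c1

end Caps

theorem not_uniform (ε : ℝ) (hε : 0 < ε) : ∃ k : ℕ, 1 ≤ k ∧ ∃ (V : Type) (G : SimpleGraph V),
    Infinite V ∧ G.Connected ∧ (∀ v : V, (G.neighborSet v).encard ≤ 9) ∧ 1 < cheeger G ∧
      ∃ S : Set V, IsNet G k S ∧ cheeger (netGraph G k S) < ε := by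
  obtain ⟨n, hn⟩ := exists_pow_lt_of_lt_one (x := ε / 216) (y := 3 / 8) (by positivity) (by norm_num)
  refine ⟨n + 1 + 1, by omega, Caps.W (n + 1), Caps.GG (n + 1), Caps.inf, Caps.conn, Caps.deg,
    Caps.cheeger_G, Caps.SS (n + 1), Caps.net (by omega), ?_⟩
  refine lt_of_le_of_lt (Caps.net_small (by omega)) ?_
  have : (0 : ℝ) < (3 / 8) ^ n := by positivity
  rw [pow_succ]
  linarith

end Pool.Agent.H27.Net
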