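import Mathlib

set_option autoImplicit false

namespace Pool.Agent.H27.Net

/-- Edge-isoperimetric (Cheeger) constant: the infimum of (boundary edges of `A`) / `|A|`. -/
noncomputable def cheeger {V : Type} (G : SimpleGraph V) : ℝ :=
  sInf {r : ℝ | ∃ A : Finset V, A.Nonempty ∧
    r = (Set.ncard {p : V × V | p.1 ∈ A ∧ p.2 ∉ A ∧ G.Adj p.1 p.2} : ℝ) / (A.card : ℝ)}

/-- `S` is maximal among vertex sets whose points are pairwise at distance at least `k`. -/
def IsNet {V : Type} (G : SimpleGraph V) (k : ℕ) (S : Set V) : Prop :=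
  Maximal (fun T : Set V => T.Pairwise fun u v => k ≤ G.dist u v) S

/-- The `k`-net graph on `S`: distinct points are adjacent iff their distance is at most `2k`. -/
def netGraph {V : Type} (G : SimpleGraph V) (k : ℕ) (S : Set V) : SimpleGraph S where
  Adj u v := u ≠ v ∧ G.dist u v ≤ 2 * k
  symm := ⟨fun _ _ h => ⟨h.1.symm, by rw [SimpleGraph.dist_comm]; exact h.2⟩⟩
  loopless := ⟨fun _ h => h.1 rfl⟩

end Pool.Agent.H27.Net
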