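import Pool.Agent.H27.NetDefs

set_option autoImplicit false

namespace Pool.Agent.H27.Net

open SimpleGraph

variable {V : Type} {G : SimpleGraph V}

theorem IsNet.cover {k : ℕ} {S : Set V} (h : IsNet G k S) (hk : 1 ≤ k) (w : V) :
    ∃ u ∈ S, G.dist w u < k := by
  by_cases hw : w ∈ S
  · exact ⟨w, hw, by rw [dist_self]; omega⟩
  by_contra hc
  push Not at hc
  have : (insert w S).Pairwise fun u v => k ≤ G.dist u v := by
    refine h.1.insert_of_notMem hw fun u hu => ⟨hc u hu, ?_⟩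
    rw [dist_comm]; exact hc u hu
  exact hw (h.2 this (Set.subset_insert _ _) (Set.mem_insert _ _))

theorem isNet_of {k : ℕ} {S : Set V} (h1 : S.Pairwise fun u v => k ≤ G.dist u v)
    (h2 : ∀ w, w ∉ S → ∃ u ∈ S, G.dist w u < k) : IsNet G k S := by
  refine ⟨h1, fun T hT hST w hw => ?_⟩
  by_contra hwS
  obtain ⟨u, hu, hd⟩ := h2 w hwS
  have : k ≤ G.dist w u := hT hw (hST hu) (fun e => hwS (e ▸ hu))
  omega

theorem ball_finite (hc : G.Connected) (hf : ∀ v, (G.neighborSet v).Finite) (a : V) :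
    ∀ n : ℕ, {v | G.dist a v ≤ n}.Finite
  | 0 => (Set.finite_singleton a).subset fun v hv => by
      have : G.dist a v = 0 := Nat.le_zero.1 hv
      exact (hc.dist_eq_zero_iff.1 this).symm
  | n + 1 => by
      have ih := ball_finite hc hf a n
      refine (ih.union (ih.biUnion fun u _ => hf u)).subset fun v hv => ?_
      have hv' : G.dist a v ≤ n + 1 := hv
      by_cases h : G.dist a v ≤ n
      · exact Or.inl h
      · right
        obtain ⟨p, hp⟩ := hc.exists_walk_length_eq_dist v a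
        rw [dist_comm] at hp
        cases p with
        | nil => simp at hp h
        | cons hadj q =>
          rename_i u
          simp only [Set.mem_iUnion]
          refine ⟨u, ?_, hadj.symm⟩
          have := dist_le q
          simp only [Walk.length_cons] at hp
          show G.dist a u ≤ n
          rw [dist_comm]; omega

/-- boundary of a finite set in the net graph is finite -/
theorem net_bdry_finite (hc : G.Connected) (hf : ∀ v, (G.neighborSet v).Finite) (k : ℕ) (S : Set V)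
    (A : Finset S) : {p : S × S | p.1 ∈ A ∧ p.2 ∉ A ∧ (netGraph G k S).Adj p.1 p.2}.Finite := by
  have h1 : ∀ a : S, {v : S | G.dist a v ≤ 2 * k}.Finite := fun a =>
    (ball_finite hc hf a (2 * k)).preimage Subtype.val_injective.injOn
  refine (A.finite_toSet.biUnion fun a _ => (h1 a).image (fun v => (a, v))).subset ?_
  rintro ⟨a, v⟩ ⟨ha, -, h⟩
  simp only [Set.mem_iUnion]
  exact ⟨a, ha, v, h.2, rfl⟩

section tree
variable (G) (o : V)

def Ch (x y : V) : Prop := G.Adj x y ∧ G.dist o x = G.dist o y + 1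

def Anc : ℕ → V → V → Prop
  | 0, x, a => x = a
  | j + 1, x, a => ∃ y, Ch G o x y ∧ Anc j y a

variable {G o}

theorem ch_unique (hT : G.IsTree) {x y y' : V} (h : Ch G o x y) (h' : Ch G o x y') : y = y' := by
  obtain ⟨p, hp⟩ := hT.connected.exists_walk_length_eq_dist o y
  obtain ⟨p', hp'⟩ := hT.connected.exists_walk_length_eq_dist o y'
  have e1 : (p.concat h.1.symm).IsPath :=
    Walk.isPath_of_length_eq_dist _ (by rw [Walk.length_concat, hp, h.2])
  have e2 : (p'.concat h'.1.symm).IsPath :=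
    Walk.isPath_of_length_eq_dist _ (by rw [Walk.length_concat, hp', h'.2])
  have := Subtype.mk.inj <| (hT.isAcyclic.subsingleton_path o x).elim ⟨_, e1⟩ ⟨_, e2⟩
  have := congrArg Walk.penultimate this
  simpa using this

theorem ch_or (hT : G.IsTree) {x y : V} (h : G.Adj x y) : Ch G o x y ∨ Ch G o y x := by
  rcases hT.dist_eq_dist_add_one_of_adj o h with e | e
  · exact Or.inl ⟨h, e⟩
  · exact Or.inr ⟨h.symm, e⟩

theorem anc_unique (hT : G.IsTree) : ∀ {j : ℕ} {x a b : V}, Anc G o j x a → Anc G o j x b → a = b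
  | 0, _, _, _, h, h' => Eq.trans (Eq.symm h) h'
  | _ + 1, _, _, _, ⟨_, h1, h2⟩, ⟨_, h3, h4⟩ => by
    have := ch_unique hT h1 h3
    subst this
    exact anc_unique hT h2 h4

theorem anc_dep : ∀ {j : ℕ} {x a : V}, Anc G o j x a → G.dist o x = G.dist o a + j
  | 0, _, _, h => by rw [show _ = _ from h]; rfl
  | _ + 1, _, _, ⟨_, h1, h2⟩ => by rw [h1.2, anc_dep h2]; ring

theorem anc_trans : ∀ {i j : ℕ} {x y z : V}, Anc G o i x y → Anc G o j y z → Anc G o (j + i) x z
  | 0, _, _, _, _, h, h' => by rw [show _ = _ from h]; exact h'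
  | _ + 1, _, _, _, _, ⟨u, h1, h2⟩, h' => ⟨u, h1, anc_trans h2 h'⟩

theorem anc_split : ∀ {i j : ℕ} {x z : V}, Anc G o (j + i) x z → ∃ y, Anc G o i x y ∧ Anc G o j y z
  | 0, _, x, _, h => ⟨x, rfl, h⟩
  | _ + 1, _, _, _, ⟨u, h1, h2⟩ => by
    obtain ⟨y, h3, h4⟩ := anc_split h2
    exact ⟨y, ⟨u, h1, h3⟩, h4⟩

theorem anc_dist_le (hc : G.Connected) : ∀ {j : ℕ} {x a : V}, Anc G o j x a → G.dist x a ≤ j
  | 0, _, _, h => by rw [show _ = _ from h]; simp
  | j + 1, x, a, ⟨u, h1, h2⟩ => by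
    have e1 := anc_dist_le hc h2
    have e2 : G.dist x u = 1 := dist_eq_one_iff_adj.2 h1.1
    have e3 := hc.dist_triangle (u := x) (v := u) (w := a)
    omega

theorem anc_dist (hc : G.Connected) {j : ℕ} {x a : V} (h : Anc G o j x a) : G.dist x a = j := by
  have e1 := anc_dist_le hc h
  have e2 := anc_dep h
  have e3 := hc.dist_triangle (u := o) (v := a) (w := x)
  rw [dist_comm (u := a)] at e3
  omega

theorem walk_anc (hT : G.IsTree) {x s : V} (w : G.Walk x s) :
    ∃ p q z, p + q ≤ w.length ∧ Anc G o p x z ∧ Anc G o q s z := by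
  induction w with
  | nil => exact ⟨0, 0, _, le_rfl, rfl, rfl⟩
  | @cons x x' s h w ih =>
    obtain ⟨p, q, z, h1, h2, h3⟩ := ih
    rcases ch_or (o := o) hT h with e | e
    · exact ⟨p + 1, q, z, by simp; omega, ⟨_, e, h2⟩, h3⟩
    · cases p with
      | zero =>
        have : x' = z := h2
        subst this
        refine ⟨0, 1 + q, x, by simp; omega, rfl, anc_trans h3 ⟨x, e, rfl⟩⟩
      | succ p =>
        obtain ⟨u, h4, h5⟩ := h2
        have := ch_unique hT h4 e
        subst this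
        exact ⟨p, q, z, by simp; omega, h5, h3⟩

theorem children (hT : G.IsTree) {d : ℕ} (hd : 3 ≤ d) (hreg : ∀ v, (G.neighborSet v).ncard = d)
    (y : V) : ∃ F : Finset V, F.card = d - 1 ∧ ∀ x ∈ F, Ch G o x y := by
  classical
  have hfin : (G.neighborSet y).Finite := Set.finite_of_ncard_pos (by rw [hreg]; omega)
  have h1 : (hfin.toFinset.filter fun x => ¬ Ch G o x y).card ≤ 1 := by
    rw [Finset.card_le_one]
    intro a ha b hb
    simp only [Finset.mem_filter, Set.Finite.mem_toFinset, mem_neighborSet] at ha hb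
    exact ch_unique hT ((ch_or hT ha.1).resolve_right ha.2) ((ch_or hT hb.1).resolve_right hb.2)
  have h2 := Finset.card_filter_add_card_filter_not (s := hfin.toFinset) fun x => Ch G o x y
  have h3 : hfin.toFinset.card = d := by rw [← Set.ncard_eq_toFinset_card _ hfin, hreg]
  obtain ⟨F, hF, hF'⟩ := Finset.exists_subset_card_eq
    (s := hfin.toFinset.filter fun x => Ch G o x y) (n := d - 1) (by omega)
  exact ⟨F, hF', fun x hx => (Finset.mem_filter.1 (hF hx)).2⟩

theorem descs (hT : G.IsTree) {d : ℕ} (hd : 3 ≤ d) (hreg : ∀ v, (G.neighborSet v).ncard = d)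
    (a : V) : ∀ j : ℕ, ∃ F : Finset V, F.card = (d - 1) ^ j ∧ ∀ x ∈ F, Anc G o j x a
  | 0 => ⟨{a}, by simp, fun x hx => Finset.mem_singleton.1 hx⟩
  | j + 1 => by
    classical
    obtain ⟨F, hF, hF'⟩ := descs hT hd hreg a j
    choose C hC hC' using children (o := o) hT hd hreg
    refine ⟨F.biUnion C, ?_, ?_⟩
    · rw [Finset.card_biUnion]
      · simp [hC, hF, pow_succ]
      · intro u _ v _ huv
        rw [Function.onFun, Finset.disjoint_left]
        intro x hx hx'
        exact huv (ch_unique hT (hC' _ _ hx) (hC' _ _ hx'))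
    · intro x hx
      obtain ⟨y, hy, hxy⟩ := Finset.mem_biUnion.1 hx
      exact ⟨y, hC' _ _ hxy, hF' _ hy⟩

/-- `a` is the nearest proper ancestor of `s` in `S` -/
def Near (S : Set V) (k : ℕ) (s a : V) : Prop :=
  ∃ j, 1 ≤ j ∧ j ≤ 2 * k ∧ Anc G o j s a ∧ ∀ j' b, 1 ≤ j' → j' < j → Anc G o j' s b → b ∉ S

theorem near_unique (hT : G.IsTree) {S : Set V} {k : ℕ} {s a b : V} (ha : a ∈ S) (hb : b ∈ S)
    (h1 : Near (G := G) (o := o) S k s a) (h2 : Near (G := G) (o := o) S k s b) : a = b := by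
  obtain ⟨j, e1, -, e3, e4⟩ := h1
  obtain ⟨j', f1, -, f3, f4⟩ := h2
  rcases lt_trichotomy j j' with h | h | h
  · exact absurd ha (f4 j a e1 h e3)
  · subst h; exact anc_unique hT e3 f3
  · exact absurd hb (e4 j' b f1 h f3)

theorem exists_near (hT : G.IsTree) {d : ℕ} (hd : 3 ≤ d) (hreg : ∀ v, (G.neighborSet v).ncard = d)
    {k : ℕ} (hk : 1 ≤ k) {S : Set V} (hS : IsNet G k S) {a y : V} (ha : a ∈ S)
    (hy : Anc G o (k / 2 + 1) y a) :
    ∃ s ∈ S, Near (G := G) (o := o) S k s a ∧ ∃ j, Anc G o j s y := by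
  classical
  set i := k / 2 + 1 with hi
  have hc := hT.connected
  obtain ⟨F, hF, hF'⟩ := descs (o := o) hT hd hreg y (k + 1 - i)
  obtain ⟨x, hx⟩ : F.Nonempty := by
    rw [← Finset.card_pos, hF]; exact pow_pos (by omega) _
  have hxy := hF' x hx
  have hxa : Anc G o (i + (k + 1 - i)) x a := anc_trans hxy hy
  obtain ⟨s, hs, hds⟩ := hS.cover hk x
  obtain ⟨w, hw⟩ := hc.exists_walk_length_eq_dist x s
  obtain ⟨p, q, z, h1, h2, h3⟩ := walk_anc (o := o) hT w
  have hp : p ≤ k + 1 - i := by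
    by_contra hp
    have hxa' : Anc G o ((k + 1 - p) + p) x a := by
      rwa [show (k + 1 - p) + p = i + (k + 1 - i) by omega]
    obtain ⟨z', h4, h5⟩ := anc_split hxa'
    have := anc_unique hT h4 h2
    subst this
    have h6 := anc_dist hc (anc_trans h3 h5)
    have hne : s ≠ a := by
      rintro rfl
      have := anc_dist hc hxa
      omega
    have : k ≤ G.dist s a := hS.1 hs ha hne
    omega
  -- `s` is a descendant of `y`
  have hxy' : Anc G o ((k + 1 - i - p) + p) x y := by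
    rwa [show (k + 1 - i - p) + p = k + 1 - i by omega]
  obtain ⟨z', h4, h5⟩ := anc_split hxy'
  have := anc_unique hT h4 h2
  subst this
  have hsy := anc_trans h3 h5
  have hex : ∃ j, ∃ s ∈ S, 1 ≤ j ∧ j ≤ 2 * k ∧ Anc G o j s a ∧ ∃ j', Anc G o j' s y :=
    ⟨_, s, hs, by omega, by omega, anc_trans hsy hy, _, hsy⟩
  obtain ⟨t, ht, e1, e2, e3, j0, e4⟩ := Nat.find_spec hex
  refine ⟨t, ht, ⟨_, e1, e2, e3, ?_⟩, j0, e4⟩
  intro j' b f1 f2 f3 hb
  have e3' : Anc G o ((Nat.find hex - j') + j') t a := by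
    rwa [show (Nat.find hex - j') + j' = Nat.find hex by omega]
  obtain ⟨b', g1, g2⟩ := anc_split e3'
  have := anc_unique hT g1 f3
  subst this
  have hba : b' ≠ a := by
    rintro rfl
    have := anc_dist hc g2
    rw [dist_self] at this
    omega
  have hk' : k ≤ G.dist b' a := hS.1 hb ha hba
  rw [anc_dist hc g2] at hk'
  have g2' : Anc G o (i + (Nat.find hex - j' - i)) b' a := by
    rwa [show i + (Nat.find hex - j' - i) = Nat.find hex - j' by omega]
  obtain ⟨y', g3, g4⟩ := anc_split g2'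
  have hyy : y' = y := by
    have a1 := anc_trans f3 g3
    have d1 := anc_dep a1
    have d2 := anc_dep e4
    have d3 := anc_dep g4
    have d4 := anc_dep hy
    have : Nat.find hex - j' - i + j' = j0 := by omega
    rw [this] at a1
    exact anc_unique hT a1 e4
  subst hyy
  exact Nat.find_min hex (m := Nat.find hex - j') (by omega)
    ⟨b', hb, by omega, by omega, g2, _, g3⟩

end tree

theorem tree_count (hT : G.IsTree) {d : ℕ} (hd : 3 ≤ d) (hreg : ∀ v, (G.neighborSet v).ncard = d)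
    {k : ℕ} (hk : 1 ≤ k) {S : Set V} (hS : IsNet G k S) (A : Finset S) :
    A.card * (d - 1) ^ (k / 2 + 1) ≤
      A.card + Set.ncard {p : S × S | p.1 ∈ A ∧ p.2 ∉ A ∧ (netGraph G k S).Adj p.1 p.2} := by
  classical
  obtain ⟨o⟩ := hT.connected.nonempty
  have hf : ∀ v, (G.neighborSet v).Finite := fun v => Set.finite_of_ncard_pos (by rw [hreg]; omega)
  have hB := net_bdry_finite hT.connected hf k S A
  choose D hD hD' using fun a => descs (o := o) hT hd hreg a (k / 2 + 1)
  have hex : ∀ p : (Σ _ : S, V), ∃ s : S, Anc G o (k / 2 + 1) p.2 p.1 →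
      Near (G := G) (o := o) S k s p.1 ∧ ∃ j, Anc G o j s p.2 := by
    intro p
    by_cases h : Anc G o (k / 2 + 1) p.2 p.1
    · obtain ⟨s, hs, h'⟩ := exists_near hT hd hreg hk hS p.1.2 h
      exact ⟨⟨s, hs⟩, fun _ => h'⟩
    · exact ⟨p.1, fun h' => absurd h' h⟩
  choose f hf' using hex
  let P : Finset (Σ _ : S, V) := A.sigma fun a => D a
  have hP : P.card = A.card * (d - 1) ^ (k / 2 + 1) := by
    simp [P, Finset.card_sigma, hD]
  have hPa : ∀ p ∈ P, Anc G o (k / 2 + 1) p.2 p.1 := fun p hp =>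
    hD' _ _ (Finset.mem_sigma.1 hp).2
  have hinj : Set.InjOn f P := by
    rintro ⟨a, y⟩ hp ⟨a', y'⟩ hp' he
    obtain ⟨h1, j, h2⟩ := hf' _ (hPa _ hp)
    obtain ⟨h3, j', h4⟩ := hf' _ (hPa _ hp')
    rw [← he] at h3 h4
    have haa : a = a' := Subtype.ext (near_unique hT a.2 a'.2 h1 h3)
    subst haa
    have d1 := anc_dep h2
    have d2 := anc_dep h4
    have d3 := anc_dep (hPa _ hp)
    have d4 := anc_dep (hPa _ hp')
    simp only at d1 d2 d3 d4
    have : j = j' := by omega
    subst this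
    have : y = y' := anc_unique hT h2 h4
    rw [this]
  have h1 : (P.filter fun p => f p ∈ A).card ≤ A.card :=
    Finset.card_le_card_of_injOn f (fun p hp => (Finset.mem_filter.1 hp).2)
      (hinj.mono (Finset.coe_subset.2 (Finset.filter_subset _ _)))
  have h2 : (P.filter fun p => ¬ f p ∈ A).card ≤ hB.toFinset.card := by
    refine Finset.card_le_card_of_injOn (fun p => (p.1, f p)) (fun p hp => ?_) ?_
    · have hp' := Finset.mem_filter.1 hp
      have hA := (Finset.mem_sigma.1 hp'.1).1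
      simp only [Finset.mem_coe, Set.Finite.mem_toFinset, Set.mem_ofPred_eq]
      refine ⟨hA, hp'.2, fun e => hp'.2 (e ▸ hA), ?_⟩
      obtain ⟨⟨j, -, e2, e3, -⟩, -⟩ := hf' _ (hPa _ hp'.1)
      rw [dist_comm, anc_dist hT.connected e3]
      exact e2
    · intro p hp p' hp' he
      exact hinj (Finset.mem_filter.1 hp).1 (Finset.mem_filter.1 hp').1 (congrArg Prod.snd he)
  have h3 := Finset.card_filter_add_card_filter_not (s := P) fun p => f p ∈ A
  rw [Set.ncard_eq_toFinset_card _ hB]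
  omega

theorem tree_cheeger (hT : G.IsTree) {d : ℕ} (hd : 3 ≤ d) (hreg : ∀ v, (G.neighborSet v).ncard = d)
    {k : ℕ} (hk : 1 ≤ k) {S : Set V} (hS : IsNet G k S) :
    ((d : ℝ) - 1) ^ (k / 2 + 1) - 1 ≤ cheeger (netGraph G k S) := by
  obtain ⟨o⟩ := hT.connected.nonempty
  obtain ⟨s, hs, -⟩ := hS.cover hk o
  unfold cheeger
  refine le_csInf ⟨_, {⟨s, hs⟩}, by simp, rfl⟩ ?_
  rintro r ⟨A, hA, rfl⟩
  have hpos : (0 : ℝ) < A.card := by exact_mod_cast hA.card_pos
  rw [le_div_iff₀ hpos]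
  have h := tree_count hT hd hreg hk hS A
  have h' : ((A.card * (d - 1) ^ (k / 2 + 1) : ℕ) : ℝ) ≤ _ := Nat.cast_le.2 h
  push_cast [Nat.cast_sub (show 1 ≤ d by omega)] at h'
  linarith

end Pool.Agent.H27.Net
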