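import Mathlib

/-! An orientation with a unique long directed path gives a colouring with a rigid chain. -/

namespace Pool.Agent.H27.Ori
open Function

/-- `p` is a directed path on `k` distinct vertices of the digraph `D`. -/
def IsPath {V : Type} (D : V → V → Prop) (k : ℕ) (p : Fin k → V) : Prop :=
  Injective p ∧ ∀ i j : Fin k, (j : ℕ) = i + 1 → D (p i) (p j)

variable {V : Type} {D : V → V → Prop} {c : V → ℕ}

def Par (D : V → V → Prop) (c : V → ℕ) (f : V → V) : Prop :=
  ∀ v, c v ≠ 0 → D (f v) v ∧ c (f v) + 1 = c v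

theorem Par.iter {f : V → V} (h : Par D c f) (v : V) (n : ℕ) (hn : n ≤ c v) : c (f^[n] v) + n = c v := by
  induction n with
  | zero => rfl
  | succ n ih =>
    have h1 := ih (by omega)
    have := (h (f^[n] v) (by omega)).2
    rw [iterate_succ_apply']
    omega

theorem Par.path {f : V → V} (h : Par D c f) (v : V) (k : ℕ) (hk : k ≤ c v) :
    IsPath D (k + 1) fun i => f^[k - i] v := by
  refine ⟨fun i j hij => ?_, fun i j hij => ?_⟩
  · have h1 := h.iter v (k - i) (by omega)
    have h2 := h.iter v (k - j) (by omega)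
    simp only at hij
    rw [hij] at h1
    ext
    omega
  · have h2 := h.iter v (k - j) (by omega)
    show D (f^[k - i] v) _
    rw [show k - i = k - j + 1 by omega, iterate_succ_apply']
    exact (h _ (by omega)).1

theorem exists_col [Fintype V] (as : ∀ u v, D u v → ¬ D v u) :
    ∃ c f, Par D c f ∧ ∀ u v, D u v → c u < c v ∨ c v + 2 ≤ c u := by
  classical
  have bd : ∀ (c : V → ℕ) f, Par D c f → ∑ v, c v ≤ Fintype.card V * Fintype.card V := fun c f h => by
    refine (Finset.sum_le_card_nsmul _ _ (Fintype.card V) fun v _ => ?_).trans (by simp)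
    have := Fintype.card_le_of_injective _ (h.path v (c v) le_rfl).1
    simp at this
    omega
  let Q : ℕ → Prop := fun s => ∃ (c : V → ℕ) (f : V → V), Par D c f ∧ ∑ v, c v = s
  have q0 : Q 0 := ⟨fun _ => 0, id, fun _ h => absurd rfl h, by simp⟩
  obtain ⟨c, f, h, hs⟩ := Nat.findGreatest_spec (P := Q) (Nat.zero_le (Fintype.card V * Fintype.card V)) q0
  refine ⟨c, f, h, fun u v huv => ?_⟩
  by_contra hc
  push Not at hc
  let S : V → Prop := Relation.ReflTransGen (fun a b => D a b ∧ c a + 1 = c b) v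
  have hS : ∀ w, S w → w = v ∨ (D v w ∧ c v + 1 = c w) ∨ c v + 2 ≤ c w := fun w hw => by
    induction hw with
    | refl => exact Or.inl rfl
    | tail _ h2 ih =>
      rcases ih with rfl | ih | ih
      · exact Or.inr (Or.inl h2)
      · exact Or.inr (Or.inr (by omega))
      · exact Or.inr (Or.inr (by omega))
  have hu : ¬ S u := fun hw => by
    rcases hS u hw with rfl | h1 | h1
    · exact as _ _ huv huv
    · exact as _ _ huv h1.1
    · omega
  have par : ∀ w, ∃ z, (if S w then c w + (c u + 1 - c v) else c w) ≠ 0 →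
      D z w ∧ (if S z then c z + (c u + 1 - c v) else c z) + 1 =
        if S w then c w + (c u + 1 - c v) else c w := fun w => by
    by_cases hw : S w
    · rcases hw.cases_tail with rfl | ⟨z, h1, h2⟩
      · exact ⟨u, fun _ => ⟨huv, by rw [if_neg hu, if_pos hw]; omega⟩⟩
      · exact ⟨z, fun _ => ⟨h2.1, by rw [if_pos h1, if_pos hw]; omega⟩⟩
    · refine ⟨f w, fun h0 => ?_⟩
      rw [if_neg hw] at h0 ⊢
      exact ⟨(h w h0).1, by rw [if_neg fun h1 => hw (h1.tail (h w h0))]; exact (h w h0).2⟩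
  choose g hg using par
  have h1 := Nat.le_findGreatest (P := Q) (bd _ g hg) ⟨_, g, hg, rfl⟩
  rw [← hs] at h1
  refine absurd h1 (not_le.mpr (Finset.sum_lt_sum (fun w _ => by split_ifs <;> omega)
    ⟨v, Finset.mem_univ _, by rw [if_pos Relation.ReflTransGen.refl]; omega⟩))

theorem rigid [Fintype V] (G : SimpleGraph V) (hG : ∀ u v, G.Adj u v ↔ D u v ∨ D v u)
    (as : ∀ u v, D u v → ¬ D v u) (k : ℕ) (hu : ∃! p, IsPath D (k + 1) p) :
    ∃ (c : V → ℕ) (On : V → Prop), (∀ u v, G.Adj u v → c u ≠ c v) ∧ (∀ v, k ≤ c v → c v = k ∧ On v) ∧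
      (∀ u v, k ≤ c u → k ≤ c v → u = v) ∧
      ∀ y, On y → c y ≠ 0 → ∃ w, On w ∧ G.Adj w y ∧ c w + 1 = c y ∧
        ∀ w', G.Adj w' y → c w' + 1 = c y → w' = w := by
  classical
  obtain ⟨c, f, h, hc⟩ := exists_col as
  have uq : ∀ {f g u v}, Par D c f → Par D c g → k ≤ c u → k ≤ c v → ∀ n ≤ k, f^[n] u = g^[n] v :=
    fun hf hg h1 h2 n hn => by
      have := congrFun (hu.unique (hf.path _ k h1) (hg.path _ k h2)) ⟨k - n, by omega⟩
      simpa [Nat.sub_sub_self hn] using this
  have one : ∀ u v, k ≤ c u → k ≤ c v → u = v := fun u v h1 h2 => uq h h h1 h2 0 (by omega)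
  have top : ∀ v, k ≤ c v → c v = k := fun v hv => by
    by_contra h1
    have h2 := (h v (by omega)).2
    rw [one (f v) v (by omega) hv] at h2
    omega
  refine ⟨c, fun y => ∃ t n, k ≤ c t ∧ n ≤ k ∧ y = f^[n] t, fun u v huv => ?_,
    fun v hv => ⟨top v hv, v, 0, hv, by omega, rfl⟩, one, ?_⟩
  · rcases (hG u v).mp huv with h1 | h1 <;> have := hc _ _ h1 <;> omega
  rintro y ⟨t, n, ht, hn, hy⟩ h0
  have h1 := h.iter t n (by omega)
  have h2 := top t ht
  rw [← hy] at h1
  refine ⟨f y, ⟨t, n + 1, ht, by omega, by rw [iterate_succ_apply', hy]⟩, (hG _ _).mpr (Or.inl (h y h0).1),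
    (h y h0).2, fun w hw hw' => ?_⟩
  have hD : D w y := ((hG _ _).mp hw).resolve_right fun h3 => by have := hc _ _ h3; omega
  have hg : Par D c (update f y w) := fun v hv => by
    by_cases e : v = y
    · rw [e, update_self]; exact ⟨hD, hw'⟩
    · rw [update_of_ne e]; exact h v hv
  have := uq hg h ht ht (n + 1) (by omega)
  rwa [iterate_succ_apply', iterate_succ_apply', uq hg h ht ht n hn, ← hy, update_self] at this

end Pool.Agent.H27.Ori
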