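import Pool.Agent.H27.OriA

/-! The Hanson-Toft graphs and the colouring argument. -/

namespace Pool.Agent.H27.Ori
open Function Finset

/-- Generating relation: cycle edges, clique-to-cycle edges, clique edges. -/
def rel (m : ℕ) : Fin 7 ⊕ Fin 7 × Fin m → Fin 7 ⊕ Fin 7 × Fin m → Prop
  | Sum.inl a, Sum.inl b => b = a + 1
  | Sum.inr u, Sum.inl a => a = u.1 ∨ a = u.1 + 1 ∨ a = u.1 + 3
  | Sum.inr u, Sum.inr v => u.1 = v.1
  | Sum.inl _, Sum.inr _ => False

/-- The graph `G_k`: a 7-cycle `x_i` and seven cliques `K_(k-3)`. -/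
def HT (k : ℕ) : SimpleGraph (Fin 7 ⊕ Fin 7 × Fin (k - 3)) := SimpleGraph.fromRel (rel (k - 3))

theorem fill {m p q : ℕ} {φ : Fin m → ℕ} (hi : Injective φ) (hl : ∀ y, φ y < m + 2 ∧ φ y ≠ p ∧ φ y ≠ q)
    (hpq : p ≠ q) (hp : p < m + 2) (hq : q < m + 2) (j : ℕ) (h : j < m + 2) (h1 : j ≠ p) (h2 : j ≠ q) :
    ∃ y, φ y = j := by
  have : univ.image φ = ((range (m + 2)).erase p).erase q := eq_of_subset_of_card_le
    (fun z hz => by
      obtain ⟨y, -, rfl⟩ := mem_image.mp hz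
      simpa using ⟨(hl y).2.2, (hl y).2.1, (hl y).1⟩)
    (by rw [card_image_of_injective _ hi, card_erase_of_mem (by simpa using ⟨hpq.symm, hq⟩),
      card_erase_of_mem (by simpa using hp)]; simp)
  have h3 : j ∈ univ.image φ := by rw [this]; simpa using ⟨h2, h1, h⟩
  simpa using h3

structure Emb {V : Type} (G : SimpleGraph V) (m : ℕ) (x : Fin 7 → V) (g : Fin 7 → Fin m → V) : Prop where
  hx : ∀ s, G.Adj (x s) (x (s + 1))
  g0 : ∀ i y, G.Adj (g i y) (x i)
  g1 : ∀ i y, G.Adj (g i y) (x (i + 1))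
  g3 : ∀ i y, G.Adj (g i y) (x (i + 3))
  hc : ∀ i y y', y ≠ y' → G.Adj (g i y) (g i y')
  nb : ∀ y w, G.Adj w (g 0 y) → w = x 0 ∨ w = x 1 ∨ w = x 3 ∨ ∃ y', w = g 0 y'
  xi : Injective x
  gi : ∀ i i' y y', g i y = g i' y' → i = i'
  gx : ∀ i y s, g i y ≠ x s

variable {V : Type} {G : SimpleGraph V} {m : ℕ} {x : Fin 7 → V} {g : Fin 7 → Fin m → V} {c : V → ℕ}
  {On : V → Prop}

/-- Clique `i` is properly coloured. -/
def Ok (G : SimpleGraph V) (g : Fin 7 → Fin m → V) (c : V → ℕ) (i : Fin 7) : Prop :=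
  ∀ y v, G.Adj (g i y) v → c (g i y) ≠ c v

theorem Emb.has (E : Emb G m x g) (bd : ∀ v, c v < m + 2) {i : Fin 7} (h : Ok G g c i) {u v : V}
    (hu : ∀ y, G.Adj (g i y) u) (hv : ∀ y, G.Adj (g i y) v) (huv : c u ≠ c v) (j : ℕ) (hj : j < m + 2)
    (h1 : j ≠ c u) (h2 : j ≠ c v) : ∃ y, c (g i y) = j :=
  fill (fun y y' e => by_contra fun ne => h y _ (E.hc i y y' ne) e)
    (fun y => ⟨bd _, h y _ (hu y), h y _ (hv y)⟩) huv (bd _) (bd _) j hj h1 h2

theorem Emb.line (E : Emb G m x g) (bd : ∀ v, c v < m + 2) {i : Fin 7} (h : Ok G g c i) :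
    c (x i) = c (x (i + 1)) ∨ c (x (i + 3)) = c (x i) ∨ c (x (i + 3)) = c (x (i + 1)) := by
  by_contra hc
  push Not at hc
  obtain ⟨y, hy⟩ := E.has bd h (E.g0 i) (E.g1 i) hc.1 _ (bd _) hc.2.1 hc.2.2
  exact h y _ (E.g3 i y) hy

def Chain (G : SimpleGraph V) (c : V → ℕ) (On : V → Prop) : Prop :=
  ∀ y, On y → c y ≠ 0 → ∃ w, On w ∧ G.Adj w y ∧ c w + 1 = c y ∧
    ∀ w', G.Adj w' y → c w' + 1 = c y → w' = w

theorem Chain.two (h : Chain G c On) {y u v : V} (hy : On y) (hu : G.Adj u y) (hv : G.Adj v y)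
    (h1 : c u + 1 = c y) (h2 : c v + 1 = c y) : u = v ∧ On u := by
  obtain ⟨w, h3, -, -, h4⟩ := h y hy (by omega)
  rw [h4 u hu h1, h4 v hv h2]
  exact ⟨rfl, h3⟩

/-- Two different cliques adjacent to a chain vertex cannot both contain the previous colour. -/
theorem Emb.gg (E : Emb G m x g) (bd : ∀ v, c v < m + 2) (ch : Chain G c On) {i i' : Fin 7} {v : V} {j : ℕ}
    (hv : On v) (hj : j + 1 = c v) (ne : i ≠ i') (h : Ok G g c i) (h' : Ok G g c i')
    (a : ∀ y, G.Adj (g i y) v) (a' : ∀ y, G.Adj (g i' y) v)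
    (e : c (x i) ≠ c (x (i + 1)) ∧ j ≠ c (x i) ∧ j ≠ c (x (i + 1)))
    (e' : c (x i') ≠ c (x (i' + 1)) ∧ j ≠ c (x i') ∧ j ≠ c (x (i' + 1))) : False := by
  have := bd v
  obtain ⟨y, hy⟩ := E.has bd h (E.g0 i) (E.g1 i) e.1 j (by omega) e.2.1 e.2.2
  obtain ⟨y', hy'⟩ := E.has bd h' (E.g0 i') (E.g1 i') e'.1 j (by omega) e'.2.1 e'.2.2
  exact ne (E.gi _ _ _ _ (ch.two hv (a y) (a' y') (by omega) (by omega)).1)

theorem Emb.gx' (E : Emb G m x g) (bd : ∀ v, c v < m + 2) (ch : Chain G c On) {i s : Fin 7} {v : V}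
    (hv : On v) (hj : c (x s) + 1 = c v) (h : Ok G g c i) (a : ∀ y, G.Adj (g i y) v) (a' : G.Adj (x s) v)
    (e : c (x i) ≠ c (x (i + 1)) ∧ c (x s) ≠ c (x i) ∧ c (x s) ≠ c (x (i + 1))) : False := by
  obtain ⟨y, hy⟩ := E.has bd h (E.g0 i) (E.g1 i) e.1 _ (bd _) e.2.1 e.2.2
  exact E.gx _ _ _ (ch.two hv (a y) a' (by omega) hj).1

theorem Emb.pat (E : Emb G m x g) (bd : ∀ v, c v < m + 2) (hx : ∀ s, c (x s) ≠ c (x (s + 1)))
    (ok : ∀ i ≠ 0, Ok G g c i) :
    c (x 2) = c (x 0) ∧ c (x 5) = c (x 0) ∧ c (x 4) = c (x 1) ∧ c (x 6) = c (x 1) ∧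
      c (x 3) ≠ c (x 0) ∧ c (x 3) ≠ c (x 1) ∧ c (x 0) ≠ c (x 1) := by
  have h0 := hx 0
  have h1 := hx 1
  have h2 := hx 2
  have h3 := hx 3
  have h4 := hx 4
  have h5 := hx 5
  have h6 := hx 6
  have l1 := E.line bd (ok 1 (by decide))
  have l2 := E.line bd (ok 2 (by decide))
  have l3 := E.line bd (ok 3 (by decide))
  have l4 := E.line bd (ok 4 (by decide))
  have l5 := E.line bd (ok 5 (by decide))
  have l6 := E.line bd (ok 6 (by decide))
  simp only [Fin.reduceAdd] at *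
  omega

theorem Emb.coreA (E : Emb G m x g) (bd : ∀ v, c v < m + 2) (ch : Chain G c On)
    (hx : ∀ s, c (x s) ≠ c (x (s + 1))) (ok : ∀ i ≠ 0, Ok G g c i) {w : V} (h0 : On w) (h1 : c w = m + 1)
    (h2 : w = x 0 ∨ w = x 1 ∨ w = x 3 ∨ ∃ y, w = g 0 y) : False := by
  obtain ⟨p2, p5, p4, p6, p3, p3', p0⟩ := E.pat bd hx ok
  have z : ∀ w, On w → c w ≠ 0 → (w = x 0 ∨ w = x 1 ∨ w = x 3 ∨ ∃ y, w = g 0 y) → ∃ y, w = g 0 y := by
    rintro w h hz (rfl | rfl | rfl | h3)
    · exfalso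
      by_cases e : c (x 1) + 1 = c (x 0)
      · exact absurd (E.xi (ch.two h (E.hx 0).symm (E.hx 6) e (by omega)).1) (by decide)
      exact E.gg bd ch (j := c (x 0) - 1) h (by omega) (by decide) (ok 6 (by decide)) (ok 4 (by decide))
        (E.g1 6) (E.g3 4) (by simp only [Fin.reduceAdd]; omega) (by simp only [Fin.reduceAdd]; omega)
    · exfalso
      by_cases e : c (x 0) + 1 = c (x 1)
      · exact absurd (E.xi (ch.two h (E.hx 0) (E.hx 1).symm e
          (by simp only [Fin.reduceAdd]; omega)).1) (by decide)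
      exact E.gg bd ch (j := c (x 1) - 1) h (by omega) (by decide) (ok 1 (by decide)) (ok 5 (by decide))
        (E.g0 1) (E.g3 5) (by simp only [Fin.reduceAdd]; omega) (by simp only [Fin.reduceAdd]; omega)
    · exfalso
      by_cases e : c (x 2) + 1 = c (x 3)
      · exact E.gx' bd ch h e (ok 3 (by decide)) (E.g0 3) (E.hx 2) (by simp only [Fin.reduceAdd]; omega)
      by_cases e' : c (x 4) + 1 = c (x 3)
      · exact E.gx' bd ch h e' (ok 2 (by decide)) (E.g1 2) (E.hx 3).symm (by simp only [Fin.reduceAdd]; omega)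
      exact E.gg bd ch (j := c (x 3) - 1) h (by omega) (by decide) (ok 3 (by decide)) (ok 2 (by decide))
        (E.g0 3) (E.g1 2) (by simp only [Fin.reduceAdd]; omega) (by simp only [Fin.reduceAdd]; omega)
    · exact h3
  have down : ∀ n, n ≤ m → ∃ y, On (g 0 y) ∧ c (g 0 y) + n = m + 1 := fun n hn => by
    induction n with
    | zero =>
      obtain ⟨y, rfl⟩ := z w h0 (by omega) h2
      exact ⟨y, h0, h1⟩
    | succ n ih =>
      obtain ⟨y, hy, hy'⟩ := ih (by omega)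
      obtain ⟨w, w1, w2, w3, -⟩ := ch _ hy (by omega)
      obtain ⟨y, rfl⟩ := z w w1 (by omega) (E.nb y w w2)
      exact ⟨y, w1, by omega⟩
  choose φ hφ using fun n : Fin (m + 1) => down n (by omega)
  have := Fintype.card_le_of_injective φ fun a b e => by
    have h3 := (hφ a).2
    have h4 := (hφ b).2
    rw [e] at h3
    ext
    omega
  simp at this

theorem Emb.coreB (E : Emb G m x g) (hm : 1 ≤ m) (bd : ∀ v, c v < m + 2) (ch : Chain G c On)
    (hx : ∀ s ≠ 0, c (x s) ≠ c (x (s + 1))) (ok : ∀ i, Ok G g c i) (e0 : c (x 0) = m + 1)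
    (e1 : c (x 1) = m + 1) (h : On (x 0) ∨ On (x 1)) : False := by
  obtain ⟨p3, p5, p4, p6, p2⟩ : c (x 3) = m + 1 ∧ c (x 5) = m + 1 ∧ c (x 4) = c (x 2) ∧ c (x 6) = c (x 2) ∧
      c (x 2) ≠ m + 1 := by
    have h1 := hx 1 (by decide)
    have h2 := hx 2 (by decide)
    have h3 := hx 3 (by decide)
    have h4 := hx 4 (by decide)
    have h5 := hx 5 (by decide)
    have h6 := hx 6 (by decide)
    have l1 := E.line bd (ok 1)
    have l2 := E.line bd (ok 2)
    have l3 := E.line bd (ok 3)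
    have l4 := E.line bd (ok 4)
    have l5 := E.line bd (ok 5)
    have l6 := E.line bd (ok 6)
    simp only [Fin.reduceAdd] at *
    omega
  rcases h with h | h
  · by_cases e : c (x 2) = m
    · exact E.gg bd ch (j := m - 1) (ch.two h (E.hx 6) (E.hx 6) (by show _ = c (x 0); omega)
        (by show _ = c (x 0); omega)).2 (by omega) (by decide) (ok 6) (ok 5) (E.g0 6) (E.g1 5)
        (by simp only [Fin.reduceAdd]; omega) (by simp only [Fin.reduceAdd]; omega)
    · exact E.gg bd ch (j := m) h (by omega) (by decide) (ok 6) (ok 4) (E.g1 6) (E.g3 4)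
        (by simp only [Fin.reduceAdd]; omega) (by simp only [Fin.reduceAdd]; omega)
  · by_cases e : c (x 2) = m
    · have h2 : On (x 2) := (ch.two h (E.hx 1).symm (E.hx 1).symm (by show c (x 2) + 1 = _; omega)
        (by show c (x 2) + 1 = _; omega)).2
      exact E.gg bd ch (j := m - 1) h2 (by omega) (by decide) (ok 2) (ok 1) (E.g0 2) (E.g1 1)
        (by simp only [Fin.reduceAdd]; omega) (by simp only [Fin.reduceAdd]; omega)
    · exact E.gg bd ch (j := m) h (by omega) (by decide) (ok 1) (ok 5) (E.g0 1) (E.g3 5)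
        (by simp only [Fin.reduceAdd]; omega) (by simp only [Fin.reduceAdd]; omega)

theorem emb (m : ℕ) (i : Fin 7) : Emb (SimpleGraph.fromRel (rel m)) m (fun s => Sum.inl (i + s))
    fun s y => Sum.inr (i + s, y) where
  hx s := by simp [rel, add_assoc]
  g0 s y := by simp [rel]
  g1 s y := by simp [rel, add_assoc]
  g3 s y := by simp [rel, add_assoc]
  hc s y y' h := by simp [rel, h]
  nb y w h := by
    rcases w with a | ⟨a, y'⟩
    · simpa [rel, ← or_assoc] using h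
    · simp only [SimpleGraph.fromRel_adj, rel, add_zero] at h
      simp only [add_zero]
      exact Or.inr (Or.inr (Or.inr ⟨y', by rcases h.2 with h | h <;> simp [h]⟩))
  xi a b h := by simpa using h
  gi a b y y' h := by simp at h; exact h.1
  gx a y s := by simp

end Pool.Agent.H27.Ori
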