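import Mathlib

set_option autoImplicit false

namespace Pool.Agent.H27.Pinwheel

open Set Filter

/-- a continuous injective function on a left ray that is unbounded takes every value beyond
the end value in the direction it starts -/
lemma ray_left (g : ℝ → ℝ) (a t0 c : ℝ) (hc : Continuous g) (hi : InjOn g (Iic a))
    (hu : ∀ M : ℝ, ∃ t, t ≤ t0 ∧ M < |g t|) (ht0 : t0 < a)
    (hs : 0 < (g t0 - g a) * (c - g a)) : ∃ t, t ≤ a ∧ g t = c := by
  obtain ⟨t, htt, hM⟩ := hu (|c| + |g a|)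
  have hta : t ≤ a := le_trans htt ht0.le
  have h1 := abs_nonneg c
  have h2 := abs_nonneg (g a)
  have h3 := le_abs_self c
  have h4 := le_abs_self (g a)
  have h5 := neg_abs_le c
  have h6 := neg_abs_le (g a)
  have key : ∀ u, u ≤ t0 → g u ≠ g a := fun u hu h =>
    absurd (hi (show u ∈ Iic a from le_trans hu ht0.le) (show a ∈ Iic a from mem_Iic.mpr le_rfl) h)
      (ne_of_lt (lt_of_le_of_lt hu ht0))
  rcases lt_or_gt_of_ne (key t0 le_rfl) with hlt | hgt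
  · have hc' : c < g a := by
      by_contra h; push Not at h; nlinarith
    rcases lt_abs.mp hM with h | h
    · obtain ⟨u, hu, hgu⟩ := intermediate_value_Icc' htt hc.continuousOn
        (show g a ∈ Icc (g t0) (g t) from ⟨hlt.le, by linarith⟩)
      exact absurd hgu (key u hu.2)
    · obtain ⟨u, hu, hgu⟩ := intermediate_value_Icc hta hc.continuousOn
        (show c ∈ Icc (g t) (g a) from ⟨by linarith, hc'.le⟩)
      exact ⟨u, hu.2, hgu⟩
  · have hc' : g a < c := by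
      by_contra h; push Not at h; nlinarith
    rcases lt_abs.mp hM with h | h
    · obtain ⟨u, hu, hgu⟩ := intermediate_value_Icc' hta hc.continuousOn
        (show c ∈ Icc (g a) (g t) from ⟨hc'.le, by linarith⟩)
      exact ⟨u, hu.2, hgu⟩
    · obtain ⟨u, hu, hgu⟩ := intermediate_value_Icc htt hc.continuousOn
        (show g a ∈ Icc (g t) (g t0) from ⟨by linarith, hgt.le⟩)
      exact absurd hgu (key u hu.2)

lemma ray_right (g : ℝ → ℝ) (a t0 c : ℝ) (hc : Continuous g) (hi : InjOn g (Ici a))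
    (hu : ∀ M : ℝ, ∃ t, t0 ≤ t ∧ M < |g t|) (ht0 : a < t0)
    (hs : 0 < (g t0 - g a) * (c - g a)) : ∃ t, a ≤ t ∧ g t = c := by
  obtain ⟨t, ht, hg⟩ := ray_left (fun x => g (-x)) (-a) (-t0) c (hc.comp continuous_neg)
    (fun x hx y hy h => by
      have := hi (show -x ∈ Ici a by simp only [mem_Iic, mem_Ici] at *; linarith)
        (show -y ∈ Ici a by simp only [mem_Iic, mem_Ici] at *; linarith) h
      linarith)
    (fun M => by
      obtain ⟨t, h1, h2⟩ := hu M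
      exact ⟨-t, by linarith, by simpa using h2⟩) (by linarith) (by simpa using hs)
  exact ⟨-t, by linarith, hg⟩

lemma between (g : ℝ → ℝ) (a b t : ℝ) (hc : Continuous g) (hi : InjOn g (Icc a b))
    (h1 : a < t) (h2 : t < b) : (g a < g t ∧ g t < g b) ∨ (g b < g t ∧ g t < g a) := by
  have hab : a ≤ b := by linarith
  have ma : a ∈ Icc a b := ⟨le_rfl, hab⟩
  have mb : b ∈ Icc a b := ⟨hab, le_rfl⟩
  have mt : t ∈ Icc a b := ⟨h1.le, h2.le⟩
  rcases hc.continuousOn.strictMonoOn_of_injOn_Icc' hab hi with h | h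
  · exact Or.inl ⟨h ma mt h1, h mt mb h2⟩
  · exact Or.inr ⟨h mt mb h2, h ma mt h1⟩

/-- horizontal, vertical, horizontal, vertical -/
lemma hvhv (g h : ℝ → ℝ) (hg : Continuous g) (hh : Continuous h)
    (hinj : ∀ x y, g x = g y → h x = h y → x = y)
    (hbot : ∀ M a : ℝ, ∃ t, t ≤ a ∧ M < max |g t| |h t|)
    (htop : ∀ M a : ℝ, ∃ t, a ≤ t ∧ M < max |g t| |h t|)
    (t0 t1 t2 t3 z1 z2 z3 : ℝ) (o1 : t0 < z1) (o2 : z1 < t1) (o3 : t1 < z2) (o4 : z2 < t2)
    (o5 : t2 < z3) (o6 : z3 < t3)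
    (p0 : ∀ x ∈ Iic z1, ∀ y ∈ Iic z1, h x = h y)
    (p1 : ∀ x ∈ Icc z1 z2, ∀ y ∈ Icc z1 z2, g x = g y)
    (p2 : ∀ x ∈ Icc z2 z3, ∀ y ∈ Icc z2 z3, h x = h y)
    (p3 : ∀ x ∈ Ici z3, ∀ y ∈ Ici z3, g x = g y) :
    ((h t0 < h t1 ∧ h t1 < h t2) ∨ (h t2 < h t1 ∧ h t1 < h t0)) ∧
    ((g t1 < g t2 ∧ g t2 < g t3) ∨ (g t3 < g t2 ∧ g t2 < g t1)) ∧
    ¬ (0 < (g t0 - g t1) * (g t3 - g t1) ∧ 0 < (h t3 - h t2) * (h t0 - h t2)) := by
  have e0 : h t0 = h z1 := p0 _ (show t0 ≤ z1 from o1.le) _ (show z1 ≤ z1 from le_rfl)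
  have e1 : g t1 = g z1 := p1 _ ⟨o2.le, o3.le⟩ _ ⟨le_rfl, by linarith⟩
  have e1' : g t1 = g z2 := p1 _ ⟨o2.le, o3.le⟩ _ ⟨by linarith, le_rfl⟩
  have e2 : h t2 = h z2 := p2 _ ⟨o4.le, o5.le⟩ _ ⟨le_rfl, by linarith⟩
  have e2' : h t2 = h z3 := p2 _ ⟨o4.le, o5.le⟩ _ ⟨by linarith, le_rfl⟩
  have e3 : g t3 = g z3 := p3 _ (show z3 ≤ t3 from o6.le) _ (show z3 ≤ z3 from le_rfl)
  refine ⟨?_, ?_, ?_⟩
  · rw [e0, e2]
    exact between h z1 z2 t1 hh (fun x hx y hy e => hinj x y (p1 x hx y hy) e) o2 o3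
  · rw [e1', e3]
    exact between g z2 z3 t2 hg (fun x hx y hy e => hinj x y e (p2 x hx y hy)) o4 o5
  · rintro ⟨c1, c2⟩
    obtain ⟨u, hu, hgu⟩ := ray_left g z1 t0 (g t3) hg
      (fun x hx y hy e => hinj x y e (p0 x hx y hy))
      (fun M => by
        obtain ⟨t, ht, hM⟩ := hbot (max M |h z1|) t0
        refine ⟨t, ht, ?_⟩
        have e : h t = h z1 := p0 _ (show t ≤ z1 by linarith) _ (show z1 ≤ z1 from le_rfl)
        rw [e] at hM
        rcases lt_max_iff.mp hM with h' | h'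
        · exact lt_of_le_of_lt (le_max_left _ _) h'
        · exact absurd h' (not_lt.mpr (le_max_right _ _))) o1 (by rw [← e1]; exact c1)
    obtain ⟨v, hv, hhv⟩ := ray_right h z3 t3 (h t0) hh
      (fun x hx y hy e => hinj x y (p3 x hx y hy) e)
      (fun M => by
        obtain ⟨t, ht, hM⟩ := htop (max M |g z3|) t3
        refine ⟨t, ht, ?_⟩
        have e : g t = g z3 := p3 _ (show z3 ≤ t by linarith) _ (show z3 ≤ z3 from le_rfl)
        rw [e] at hM
        rcases lt_max_iff.mp hM with h' | h'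
        · exact absurd h' (not_lt.mpr (le_max_right _ _))
        · exact lt_of_le_of_lt (le_max_left _ _) h') o6 (by rw [← e2']; exact c2)
    have a1 : g v = g t3 := p3 _ hv _ (show z3 ≤ t3 from o6.le)
    have a2 : h u = h t0 := p0 _ hu _ (show t0 ≤ z1 from o1.le)
    have := hinj u v (by rw [hgu, a1]) (by rw [a2, hhv])
    linarith

lemma line (g h : ℝ → ℝ) (S : Set ℝ) (H : ∀ x ∈ S, ∀ y ∈ S, g x = g y ∨ h x = h y) :
    (∀ x ∈ S, ∀ y ∈ S, g x = g y) ∨ (∀ x ∈ S, ∀ y ∈ S, h x = h y) := by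
  by_contra hc
  push Not at hc
  obtain ⟨⟨a, ha, b, hb, hab⟩, ⟨c, hc, d, hd, hcd⟩⟩ := hc
  have h1 := (H a ha b hb).resolve_left hab
  have h2 := (H c hc d hd).resolve_right hcd
  rcases H a ha c hc with e1 | e1 <;> rcases H b hb c hc with e2 | e2 <;>
    rcases H a ha d hd with e3 | e3 <;> rcases H b hb d hd with e4 | e4 <;>
    first
      | exact hab (by linarith)
      | exact hcd (by linarith)

/-- the row of blob `k` -/
def β : Fin 4 → Fin 4 := ![1, 3, 0, 2]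

def blob (k : Fin 4) : Set (ℝ × ℝ) :=
  Ioo (2 * (k : ℝ)) (2 * (k : ℝ) + 1) ×ˢ Ioo (2 * (β k : ℝ)) (2 * (β k : ℝ) + 1)

lemma lt_of_lab {a b : Fin 4} {x y : ℝ} (hx : x ∈ Ioo (2 * (a : ℝ)) (2 * (a : ℝ) + 1))
    (hy : y ∈ Ioo (2 * (b : ℝ)) (2 * (b : ℝ) + 1)) (hab : a < b) : x < y := by
  have : ((a : ℕ) : ℝ) + 1 ≤ ((b : ℕ) : ℝ) := by exact_mod_cast hab
  have := hx.2; have := hy.1; linarith

lemma lab_of_lt {a b : Fin 4} {x y : ℝ} (hx : x ∈ Ioo (2 * (a : ℝ)) (2 * (a : ℝ) + 1))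
    (hy : y ∈ Ioo (2 * (b : ℝ)) (2 * (b : ℝ) + 1)) (hne : a ≠ b) (hxy : x < y) : a < b := by
  rcases lt_or_gt_of_ne hne with h | h
  · exact h
  · exact absurd (lt_of_lab hy hx h) (not_lt.mpr hxy.le)

lemma ne_of_lab {a b : Fin 4} {x y : ℝ} (hx : x ∈ Ioo (2 * (a : ℝ)) (2 * (a : ℝ) + 1))
    (hy : y ∈ Ioo (2 * (b : ℝ)) (2 * (b : ℝ) + 1)) (hne : a ≠ b) : x ≠ y := by
  rcases lt_or_gt_of_ne hne with h | h
  · exact ne_of_lt (lt_of_lab hx hy h)
  · exact ne_of_gt (lt_of_lab hy hx h)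

def Bad (X Y : Fin 4 → Fin 4) : Prop :=
  ((Y 0 < Y 1 ∧ Y 1 < Y 2) ∨ (Y 2 < Y 1 ∧ Y 1 < Y 0)) →
  ((X 1 < X 2 ∧ X 2 < X 3) ∨ (X 3 < X 2 ∧ X 2 < X 1)) →
  ((X 1 < X 0 ∧ X 1 < X 3) ∨ (X 0 < X 1 ∧ X 3 < X 1)) ∧
  ((Y 2 < Y 3 ∧ Y 2 < Y 0) ∨ (Y 3 < Y 2 ∧ Y 0 < Y 2))

instance (X Y : Fin 4 → Fin 4) : Decidable (Bad X Y) := by unfold Bad; infer_instance

lemma comb : ∀ a : Fin 4 → Fin 4, Function.Injective a → Bad a (β ∘ a) ∧ Bad (β ∘ a) a := by
  decide +kernel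

lemma β_inj : Function.Injective β := by decide

lemma numeric (X Y : Fin 4 → Fin 4) (hX : Function.Injective X) (hY : Function.Injective Y)
    (hb : Bad X Y) (x y : Fin 4 → ℝ)
    (hx : ∀ i, x i ∈ Ioo (2 * (X i : ℝ)) (2 * (X i : ℝ) + 1))
    (hy : ∀ i, y i ∈ Ioo (2 * (Y i : ℝ)) (2 * (Y i : ℝ) + 1))
    (H : ((y 0 < y 1 ∧ y 1 < y 2) ∨ (y 2 < y 1 ∧ y 1 < y 0)) ∧
      ((x 1 < x 2 ∧ x 2 < x 3) ∨ (x 3 < x 2 ∧ x 2 < x 1)) ∧
      ¬ (0 < (x 0 - x 1) * (x 3 - x 1) ∧ 0 < (y 3 - y 2) * (y 0 - y 2))) : False := by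
  obtain ⟨h1, h2, h3⟩ := H
  have lx : ∀ i j, i ≠ j → x i < x j → X i < X j := fun i j hij h =>
    lab_of_lt (hx i) (hx j) (hX.ne hij) h
  have ly : ∀ i j, i ≠ j → y i < y j → Y i < Y j := fun i j hij h =>
    lab_of_lt (hy i) (hy j) (hY.ne hij) h
  have rx : ∀ i j, X i < X j → x i < x j := fun i j h => lt_of_lab (hx i) (hx j) h
  have ry : ∀ i j, Y i < Y j → y i < y j := fun i j h => lt_of_lab (hy i) (hy j) h
  obtain ⟨c1, c2⟩ := hb
    (h1.imp (fun h => ⟨ly _ _ (by decide) h.1, ly _ _ (by decide) h.2⟩)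
      (fun h => ⟨ly _ _ (by decide) h.1, ly _ _ (by decide) h.2⟩))
    (h2.imp (fun h => ⟨lx _ _ (by decide) h.1, lx _ _ (by decide) h.2⟩)
      (fun h => ⟨lx _ _ (by decide) h.1, lx _ _ (by decide) h.2⟩))
  apply h3
  constructor
  · rcases c1 with ⟨a, b⟩ | ⟨a, b⟩
    · exact mul_pos (sub_pos.mpr (rx _ _ a)) (sub_pos.mpr (rx _ _ b))
    · exact mul_pos_of_neg_of_neg (sub_neg.mpr (rx _ _ a)) (sub_neg.mpr (rx _ _ b))
  · rcases c2 with ⟨a, b⟩ | ⟨a, b⟩
    · exact mul_pos (sub_pos.mpr (ry _ _ a)) (sub_pos.mpr (ry _ _ b))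
    · exact mul_pos_of_neg_of_neg (sub_neg.mpr (ry _ _ a)) (sub_neg.mpr (ry _ _ b))

/-- no simple rectilinear path with at most three turns meets all four blobs -/
theorem no_path (f : ℝ → ℝ × ℝ) (s : Finset ℝ) (hc : Continuous f) (hi : Function.Injective f)
    (htop : Tendsto (fun x => ‖f x‖) atTop atTop) (hbot : Tendsto (fun x => ‖f x‖) atBot atTop)
    (hs : s.card ≤ 3)
    (hp : ∀ x y : ℝ, (∀ z ∈ s, z ∉ Set.Ioo (min x y) (max x y)) →
          (f x).1 = (f y).1 ∨ (f x).2 = (f y).2)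
    (t : Fin 4 → ℝ) (ht : ∀ k, f (t k) ∈ blob k) : False := by
  classical
  have tinj : Function.Injective t := by
    intro i j e
    by_contra hne
    exact ne_of_lab (ht i).1 (ht j).1 hne (by rw [e])
  set a : Fin 4 → Fin 4 := fun i => Tuple.sort t i with ha
  have ainj : Function.Injective a := (Tuple.sort t).injective
  set τ : Fin 4 → ℝ := t ∘ a with hτ
  have hmono : StrictMono τ :=
    (Tuple.monotone_sort t).strictMono_of_injective (tinj.comp ainj)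
  have hX : ∀ i, (f (τ i)).1 ∈ Ioo (2 * (a i : ℝ)) (2 * (a i : ℝ) + 1) := fun i => (ht (a i)).1
  have hY : ∀ i, (f (τ i)).2 ∈ Ioo (2 * ((β ∘ a) i : ℝ)) (2 * ((β ∘ a) i : ℝ) + 1) :=
    fun i => (ht (a i)).2
  have nx : ∀ i j, i ≠ j → (f (τ i)).1 ≠ (f (τ j)).1 := fun i j h =>
    ne_of_lab (hX i) (hX j) (ainj.ne h)
  have ny : ∀ i j, i ≠ j → (f (τ i)).2 ≠ (f (τ j)).2 := fun i j h =>
    ne_of_lab (hY i) (hY j) ((β_inj.comp ainj).ne h)
  have gap : ∀ i j, i < j → ∃ z ∈ s, τ i < z ∧ z < τ j := by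
    intro i j hij
    by_contra hcon
    push Not at hcon
    have hlt := hmono hij
    rcases hp (τ i) (τ j) (fun z hz hm => by
      rw [min_eq_left hlt.le, max_eq_right hlt.le] at hm
      exact absurd hm.2 (not_lt.mpr (hcon z hz hm.1))) with e | e
    · exact nx i j hij.ne e
    · exact ny i j hij.ne e
  obtain ⟨z1, m1, o1, o2⟩ := gap 0 1 (by decide)
  obtain ⟨z2, m2, o3, o4⟩ := gap 1 2 (by decide)
  obtain ⟨z3, m3, o5, o6⟩ := gap 2 3 (by decide)
  have hsz : ∀ z ∈ s, z = z1 ∨ z = z2 ∨ z = z3 := by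
    have hsub : ({z1, z2, z3} : Finset ℝ) ⊆ s := by
      intro z hz
      simp only [Finset.mem_insert, Finset.mem_singleton] at hz
      rcases hz with rfl | rfl | rfl <;> assumption
    have hcard : ({z1, z2, z3} : Finset ℝ).card = 3 := by
      rw [Finset.card_eq_three]
      exact ⟨z1, z2, z3, by linarith, by linarith, by linarith, rfl⟩
    have := Finset.eq_of_subset_of_card_le hsub (by omega)
    intro z hz
    rw [← this] at hz
    simpa using hz
  set g : ℝ → ℝ := fun x => (f x).1 with hgdef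
  set h : ℝ → ℝ := fun x => (f x).2 with hhdef
  have gc : Continuous g := continuous_fst.comp hc
  have hcc : Continuous h := continuous_snd.comp hc
  have piece : ∀ S : Set ℝ, (∀ x ∈ S, ∀ y ∈ S, ∀ z, z = z1 ∨ z = z2 ∨ z = z3 →
      x < z → z < y → False) →
      (∀ x ∈ S, ∀ y ∈ S, g x = g y) ∨ (∀ x ∈ S, ∀ y ∈ S, h x = h y) := by
    intro S hS
    apply line
    intro x hx y hy
    apply hp
    intro z hz hm
    rcases le_total x y with hxy | hxy
    · rw [min_eq_left hxy, max_eq_right hxy] at hm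
      exact hS x hx y hy z (hsz z hz) hm.1 hm.2
    · rw [min_eq_right hxy, max_eq_left hxy] at hm
      exact hS y hy x hx z (hsz z hz) hm.1 hm.2
  have q0 := piece (Iic z1) (fun x hx y hy z hz h1 h2 => by
    simp only [mem_Iic] at hx hy
    rcases hz with rfl | rfl | rfl <;> linarith)
  have q1 := piece (Icc z1 z2) (fun x hx y hy z hz h1 h2 => by
    simp only [mem_Icc] at hx hy
    rcases hz with rfl | rfl | rfl <;> linarith [hx.1, hy.2])
  have q2 := piece (Icc z2 z3) (fun x hx y hy z hz h1 h2 => by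
    simp only [mem_Icc] at hx hy
    rcases hz with rfl | rfl | rfl <;> linarith [hx.1, hy.2])
  have q3 := piece (Ici z3) (fun x hx y hy z hz h1 h2 => by
    simp only [mem_Ici] at hx hy
    rcases hz with rfl | rfl | rfl <;> linarith)
  have m0 : τ 0 ∈ Iic z1 := o1.le
  have m0' : z1 ∈ Iic z1 := mem_Iic.mpr le_rfl
  have n1 : τ 1 ∈ Icc z1 z2 := ⟨o2.le, o3.le⟩
  have n1a : z1 ∈ Icc z1 z2 := ⟨le_rfl, by linarith⟩
  have n1b : z2 ∈ Icc z1 z2 := ⟨by linarith, le_rfl⟩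
  have n2 : τ 2 ∈ Icc z2 z3 := ⟨o4.le, o5.le⟩
  have n2a : z2 ∈ Icc z2 z3 := ⟨le_rfl, by linarith⟩
  have n2b : z3 ∈ Icc z2 z3 := ⟨by linarith, le_rfl⟩
  have n3 : τ 3 ∈ Ici z3 := o6.le
  have n3a : z3 ∈ Ici z3 := mem_Ici.mpr le_rfl
  have hbot' : ∀ M a : ℝ, ∃ t, t ≤ a ∧ M < max |g t| |h t| := by
    intro M a
    obtain ⟨t, h1, h2⟩ := ((hbot.eventually (eventually_gt_atTop M)).and
      (eventually_le_atBot a)).exists
    exact ⟨t, h2, by simpa [Prod.norm_def] using h1⟩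
  have htop' : ∀ M a : ℝ, ∃ t, a ≤ t ∧ M < max |g t| |h t| := by
    intro M a
    obtain ⟨t, h1, h2⟩ := ((htop.eventually (eventually_gt_atTop M)).and
      (eventually_ge_atTop a)).exists
    exact ⟨t, h2, by simpa [Prod.norm_def] using h1⟩
  have inj' : ∀ x y, g x = g y → h x = h y → x = y := fun x y e1 e2 => hi (Prod.ext e1 e2)
  have cb := comb a ainj
  rcases q0 with q0 | q0
  · rcases q1 with q1 | q1
    · exact nx 0 1 (by decide) ((q0 _ m0 _ m0').trans (q1 _ n1a _ n1))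
    rcases q2 with q2 | q2
    swap
    · exact ny 1 2 (by decide) ((q1 _ n1 _ n1b).trans (q2 _ n2a _ n2))
    rcases q3 with q3 | q3
    · exact nx 2 3 (by decide) ((q2 _ n2 _ n2b).trans (q3 _ n3a _ n3))
    exact numeric (β ∘ a) a (β_inj.comp ainj) ainj cb.2 (fun i => h (τ i)) (fun i => g (τ i))
      hY hX
      (hvhv h g hcc gc (fun x y e1 e2 => inj' x y e2 e1)
        (fun M a => by simpa only [max_comm] using hbot' M a)
        (fun M a => by simpa only [max_comm] using htop' M a)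
        (τ 0) (τ 1) (τ 2) (τ 3) z1 z2 z3 o1 o2 o3 o4 o5 o6 q0 q1 q2 q3)
  · rcases q1 with q1 | q1
    swap
    · exact ny 0 1 (by decide) ((q0 _ m0 _ m0').trans (q1 _ n1a _ n1))
    rcases q2 with q2 | q2
    · exact nx 1 2 (by decide) ((q1 _ n1 _ n1b).trans (q2 _ n2a _ n2))
    rcases q3 with q3 | q3
    swap
    · exact ny 2 3 (by decide) ((q2 _ n2 _ n2b).trans (q3 _ n3a _ n3))
    exact numeric a (β ∘ a) ainj (β_inj.comp ainj) cb.1 (fun i => g (τ i)) (fun i => h (τ i))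
      hX hY
      (hvhv g h gc hcc inj' hbot' htop'
        (τ 0) (τ 1) (τ 2) (τ 3) z1 z2 z3 o1 o2 o3 o4 o5 o6 q0 q1 q2 q3)

open MeasureTheory

lemma vol_blob (k : Fin 4) : volume (blob k) = 1 := by
  unfold blob
  rw [Measure.volume_eq_prod, Measure.prod_prod]
  simp [Real.volume_Ioo]

lemma meets (k : Fin 4) (U : Set (ℝ × ℝ)) (hU : IsOpen U)
    (h : (volume.restrict (blob k)) U = (volume.restrict (blob k)) univ / 2) :
    (blob k ∩ frontier U).Nonempty := by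
  by_contra hne
  rw [Set.not_nonempty_iff_eq_empty] at hne
  rw [Measure.restrict_apply hU.measurableSet, Measure.restrict_apply MeasurableSet.univ,
    univ_inter, vol_blob] at h
  have hpc : IsPreconnected (blob k) := isPreconnected_Ioo.prod isPreconnected_Ioo
  have hsub : blob k ⊆ U ∪ (closure U)ᶜ := by
    intro p hp
    by_contra hc
    simp only [mem_union, mem_compl_iff, not_or, not_not] at hc
    have : p ∈ blob k ∩ frontier U := ⟨hp, by rw [hU.frontier_eq]; exact ⟨hc.2, hc.1⟩⟩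
    rw [hne] at this
    exact this
  have hdis : Disjoint U (closure U)ᶜ := disjoint_compl_right_iff_subset.mpr subset_closure
  rcases hpc.subset_or_subset hU isClosed_closure.isOpen_compl hdis hsub with hs | hs
  · rw [inter_eq_right.mpr hs, vol_blob] at h
    have h2 := congrArg ENNReal.toReal h
    norm_num at h2
  · have : U ∩ blob k = ∅ := by
      ext p
      simp only [mem_inter_iff, mem_empty_iff_false, iff_false, not_and]
      exact fun h1 h2 => hs h2 (subset_closure h1)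
    rw [this, measure_empty] at h
    have h2 := congrArg ENNReal.toReal h
    norm_num at h2

end Pool.Agent.H27.Pinwheel
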