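import Mathlib

set_option autoImplicit false

namespace Pool.Agent.H27.ProOrd

open scoped commutatorElement

variable {G : Type*} [Group G]

/-- the normal subsemigroup generated by `a` -/
inductive InS (a : G) : G → Prop
  | conj (g : G) : InS a (g * a * g⁻¹)
  | mul {x y : G} : InS a x → InS a y → InS a (x * y)

lemma InS.self (a : G) : InS a a := by simpa using InS.conj (a := a) 1

lemma InS.conj_mem {a x : G} (h : InS a x) (g : G) : InS a (g * x * g⁻¹) := by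
  induction h with
  | conj k =>
    have := InS.conj (a := a) (g * k)
    rwa [show g * k * a * (g * k)⁻¹ = g * (k * a * k⁻¹) * g⁻¹ by group] at this
  | @mul x y _ _ a b =>
    have := a.mul b
    rwa [show g * x * g⁻¹ * (g * y * g⁻¹) = g * (x * y) * g⁻¹ by group] at this

lemma InS.trans {a b c : G} (h : InS a b) (h' : InS b c) : InS a c := by
  induction h' with
  | conj k => exact h.conj_mem k
  | mul _ _ a b => exact a.mul b

lemma InS.inv {a x : G} (h : InS a x) : InS a⁻¹ x⁻¹ := by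
  induction h with
  | conj k =>
    have := InS.conj (a := a⁻¹) k
    rwa [show k * a⁻¹ * k⁻¹ = (k * a * k⁻¹)⁻¹ by group] at this
  | mul _ _ a b => rw [mul_inv_rev]; exact b.mul a

lemma InS.pow {a x : G} (h : InS a x) (n : ℕ) : InS a (x ^ (n + 1)) := by
  induction n with
  | zero => simpa using h
  | succ n ih => rw [pow_succ]; exact ih.mul h

lemma InS.mem {a x : G} (h : InS a x) {N : Subgroup G} [hN : N.Normal] (ha : a ∈ N) : x ∈ N := by
  induction h with
  | conj k => exact hN.conj_mem _ ha k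
  | mul _ _ a b => exact N.mul_mem a b

structure Cone (P : Set G) : Prop where
  one : (1 : G) ∈ P
  mul : ∀ x ∈ P, ∀ y ∈ P, x * y ∈ P
  conj : ∀ x ∈ P, ∀ g, g * x * g⁻¹ ∈ P
  pure : ∀ x ∈ P, x⁻¹ ∈ P → x = 1

lemma Cone.inS {P : Set G} (hP : Cone P) {a x : G} (ha : a ∈ P) (h : InS a x) : x ∈ P := by
  induction h with
  | conj k => exact hP.conj _ ha k
  | mul _ _ a b => exact hP.mul _ a _ b

lemma exists_total (h1 : ∀ a : G, InS a 1 → a = 1)
    (h2 : ∀ a b c : G, a ≠ 1 → InS a b → InS a c → ∃ d, InS b d ∧ InS c d)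
    {P0 : Set G} (h0 : Cone P0) : ∃ P, Cone P ∧ P0 ⊆ P ∧ ∀ a, a ∈ P ∨ a⁻¹ ∈ P := by
  obtain ⟨P, hP0, hP⟩ := zorn_subset_nonempty {P : Set G | Cone P} (by
    intro c hc hch hne
    refine ⟨⋃₀ c, ⟨?_, ?_, ?_, ?_⟩, fun s hs => Set.subset_sUnion_of_mem hs⟩
    · obtain ⟨s, hs⟩ := hne
      exact ⟨s, hs, (hc hs).one⟩
    · rintro x ⟨s, hs, hx⟩ y ⟨t, ht, hy⟩
      rcases hch.total hs ht with h | h
      · exact ⟨t, ht, (hc ht).mul _ (h hx) _ hy⟩
      · exact ⟨s, hs, (hc hs).mul _ hx _ (h hy)⟩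
    · rintro x ⟨s, hs, hx⟩ g
      exact ⟨s, hs, (hc hs).conj _ hx g⟩
    · rintro x ⟨s, hs, hx⟩ ⟨t, ht, hy⟩
      rcases hch.total hs ht with h | h
      · exact (hc ht).pure _ (h hx) hy
      · exact (hc hs).pure _ hx (h hy)) P0 h0
  have hC : Cone P := hP.1
  have key : ∀ a, a ∉ P → ∃ b, InS a b ∧ b⁻¹ ∈ P := by
    intro a ha
    by_contra hno
    push Not at hno
    let E : Set G := {x | x ∈ P ∨ ∃ p ∈ P, ∃ b, InS a b ∧ x = p * b}
    have m1 : ∀ x ∈ E, ∀ p ∈ P, ∀ b, InS a b → ∃ p' ∈ P, ∃ b', InS a b' ∧ x * (p * b) = p' * b' := by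
      rintro x (hx | ⟨q, hq, c, hc, rfl⟩) p hp b hb
      · exact ⟨x * p, hC.mul _ hx _ hp, b, hb, by group⟩
      · exact ⟨q * (c * p * c⁻¹), hC.mul _ hq _ (hC.conj _ hp c), c * b, hc.mul hb, by group⟩
    have m2 : ∀ p ∈ P, ∀ b, InS a b → ∀ x ∈ P, ∃ p' ∈ P, ∃ b', InS a b' ∧ p * b * x = p' * b' :=
      fun p hp b hb x hx =>
        ⟨p * (b * x * b⁻¹), hC.mul _ hp _ (hC.conj _ hx b), b, hb, by group⟩
    have no1 : ∀ p ∈ P, ∀ b, InS a b → 1 ≠ p * b := by
      intro p hp b hb h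
      apply hno b hb
      rwa [← eq_inv_of_mul_eq_one_left h.symm]
    have hE : Cone E := by
      refine ⟨Or.inl hC.one, ?_, ?_, ?_⟩
      · rintro x hx y (hy | ⟨p, hp, b, hb, rfl⟩)
        · rcases hx with hx | ⟨p, hp, b, hb, rfl⟩
          · exact Or.inl (hC.mul _ hx _ hy)
          · exact Or.inr (m2 p hp b hb y hy)
        · exact Or.inr (m1 x hx p hp b hb)
      · rintro x (hx | ⟨p, hp, b, hb, rfl⟩) g
        · exact Or.inl (hC.conj _ hx g)
        · exact Or.inr ⟨g * p * g⁻¹, hC.conj _ hp g, g * b * g⁻¹, hb.conj_mem g, by group⟩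
      · rintro x hx (hy | ⟨p, hp, b, hb, hy⟩)
        · rcases hx with hx | ⟨p, hp, b, hb, rfl⟩
          · exact hC.pure _ hx hy
          · obtain ⟨p', hp', b', hb', e⟩ := m2 p hp b hb _ hy
            rw [mul_inv_cancel] at e
            exact absurd e (no1 p' hp' b' hb')
        · obtain ⟨p', hp', b', hb', e⟩ := m1 x hx p hp b hb
          rw [← hy, mul_inv_cancel] at e
          exact absurd e (no1 p' hp' b' hb')
    have : E ⊆ P := hP.2 hE (fun x hx => Or.inl hx)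
    exact ha (this (Or.inr ⟨1, hC.one, a, InS.self a, by simp⟩))
  refine ⟨P, hC, hP0, fun a => ?_⟩
  by_contra hno
  push Not at hno
  obtain ⟨b, hb, hb'⟩ := key a hno.1
  obtain ⟨c, hc, hc'⟩ := key a⁻¹ hno.2
  have hc2 : InS a c⁻¹ := by simpa using hc.inv
  have ha : a ≠ 1 := fun e => hno.1 (e ▸ hC.one)
  obtain ⟨d, d1, d2⟩ := h2 a b c⁻¹ ha hb hc2
  have : d = 1 := hC.pure d (hC.inS hc' d2) (hC.inS hb' d1.inv)
  exact ha (h1 a (this ▸ hb.trans d1))

/-! the wandering lemma -/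

def cj (e : G) (i : ℕ) (x : G) : G := e ^ i * x * (e ^ i)⁻¹

def Dg (e : G) : ℕ → G → G
  | 0, _ => 1
  | m + 1, x => Dg e m x * cj e (m + 2) x

lemma cj_mul (e : G) (i : ℕ) (x y : G) : cj e i (x * y) = cj e i x * cj e i y := by
  unfold cj; group

lemma cj_zero (e x : G) : cj e 0 x = x := by simp [cj]

lemma slide {e a W : G} {j : ℕ} (h : Commute (cj e (j + 1) a) W) :
    IsConj (cj e (j + 1) a * W * e) (cj e j a * W * e) := by
  rw [isConj_iff]
  refine ⟨cj e j a, ?_⟩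
  rw [h.eq]
  unfold cj
  rw [pow_succ']
  group

section
variable {e : G} {H : Subgroup G}
  (hc : ∀ n : ℕ, ∀ x ∈ H, ∀ y ∈ H, Commute x (cj e (n + 1) y))
include hc

lemma cj_comm {i j : ℕ} (hij : i ≠ j) {x y : G} (hx : x ∈ H) (hy : y ∈ H) :
    Commute (cj e i x) (cj e j y) := by
  have key : ∀ i n : ℕ, ∀ x ∈ H, ∀ y ∈ H, Commute (cj e i x) (cj e (i + (n + 1)) y) := by
    intro i n x hx y hy
    have := (hc n x hx y hy).map (MulAut.conj (e ^ i))
    have e2 : cj e (i + (n + 1)) y = MulAut.conj (e ^ i) (cj e (n + 1) y) := by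
      simp only [cj, MulAut.conj_apply, pow_add]; group
    rw [e2]; exact this
  rcases lt_or_gt_of_ne hij with h | h
  · obtain ⟨n, rfl⟩ := Nat.exists_eq_add_of_lt h
    exact key i n x hx y hy
  · obtain ⟨n, rfl⟩ := Nat.exists_eq_add_of_lt h
    exact (key j n y hy x hx).symm

lemma cj_comm_Dg {j m : ℕ} (hj : j < 2 ∨ m + 2 ≤ j) {x y : G} (hx : x ∈ H) (hy : y ∈ H) :
    Commute (cj e j y) (Dg e m x) := by
  induction m with
  | zero => exact Commute.one_right _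
  | succ m ih => exact (ih (by omega)).mul_right (cj_comm hc (by omega) hy hx)

lemma Dg_mul (m : ℕ) {x y : G} (hx : x ∈ H) (hy : y ∈ H) :
    Dg e m (x * y) = Dg e m x * Dg e m y := by
  induction m with
  | zero => simp [Dg]
  | succ m ih =>
    simp only [Dg, ih, cj_mul]
    have := (cj_comm_Dg hc (j := m + 2) (m := m) (Or.inr le_rfl) hy hx).eq
    calc Dg e m x * Dg e m y * (cj e (m + 2) x * cj e (m + 2) y)
        = Dg e m x * (Dg e m y * cj e (m + 2) x) * cj e (m + 2) y := by group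
      _ = _ := by rw [← this]; group

lemma collapse {x β δ : G} (hx : x ∈ H) (hβ : β ∈ H) (hδ : δ ∈ H) (m : ℕ) : ∀ a ∈ H,
    IsConj (cj e (m + 1) a * (Dg e m x * cj e 1 β * δ) * e) (cj e 1 (a * x ^ m * β) * δ * e) := by
  induction m with
  | zero => intro a _; simp only [Dg, cj_mul, pow_zero, mul_one, one_mul, zero_add, mul_assoc]
            exact IsConj.refl _
  | succ m ih =>
    intro a ha
    have hax := H.mul_mem ha hx
    have c1 : Commute (cj e (m + 1 + 1) (a * x)) (Dg e m x * cj e 1 β * δ) := by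
      refine ((cj_comm_Dg hc (Or.inr le_rfl) hx hax).mul_right
        (cj_comm hc (by omega) hax hβ)).mul_right ?_
      have := cj_comm hc (i := m + 1 + 1) (j := 0) (by omega) hax hδ
      rwa [cj_zero] at this
    have e1 : cj e (m + 1 + 1) a * (Dg e (m + 1) x * cj e 1 β * δ) =
        cj e (m + 1 + 1) (a * x) * (Dg e m x * cj e 1 β * δ) := by
      simp only [Dg, cj_mul]
      rw [← (cj_comm_Dg hc (j := m + 2) (m := m) (Or.inr le_rfl) hx hx).eq]
      group
    rw [e1]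
    refine (slide c1).trans ?_
    have := ih (a * x) hax
    rwa [show a * x * x ^ m * β = a * x ^ (m + 1) * β by rw [pow_succ']; group] at this

lemma isT {x β δ : G} (hx : x ∈ H) (hβ : β ∈ H) (hδ : δ ∈ H) (m : ℕ) (h : x ^ m * β * δ = 1) :
    IsConj (Dg e m x * cj e 1 β * δ * e) e := by
  have h1 := collapse hc hx hβ hδ m 1 H.one_mem
  have e1 : cj e (m + 1) 1 = 1 := by simp [cj]
  rw [e1, one_mul, one_mul] at h1
  refine h1.trans ?_
  have hz : x ^ m * β ∈ H := H.mul_mem (H.pow_mem hx m) hβ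
  have := slide (e := e) (j := 0) (hc 0 δ hδ _ hz).symm
  rwa [cj_zero, h, one_mul] at this

omit hc in
lemma q_step {w w' : G} {k : ℕ} (h : IsConj (w' * e) e) (hq : InS e (w * e ^ (k + 1))) :
    InS e (w' * w * e ^ (k + 1 + 1)) := by
  obtain ⟨g, hg⟩ := isConj_iff.1 h.symm
  have := (hg ▸ InS.conj (a := e) g).mul (hq.conj_mem e⁻¹)
  rwa [show w' * e * (e⁻¹ * (w * e ^ (k + 1)) * e⁻¹⁻¹) = w' * w * e ^ (k + 1 + 1) by
    rw [pow_succ e (k + 1)]; group] at this

lemma q_comm {x y : G} (hx : x ∈ H) (hy : y ∈ H) (m k : ℕ) (w : G)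
    (hq : InS e (w * e ^ (k + 1))) : InS e (Dg e m ⁅x, y⁆ * w * e ^ (k + 2 + 1)) := by
  have hz : y * x⁻¹ * y⁻¹ ∈ H := H.mul_mem (H.mul_mem hy (H.inv_mem hx)) (H.inv_mem hy)
  have hδ : x ^ m * y⁻¹ ∈ H := H.mul_mem (H.pow_mem hx m) (H.inv_mem hy)
  have t1 := isT hc hx (H.inv_mem hy) (H.inv_mem hδ) m (by group)
  have t2 := isT hc hz hy hδ m (by rw [conj_pow]; group)
  have := q_step t1 (q_step t2 hq)
  have c1 := (cj_comm_Dg hc (j := 1) (m := m) (Or.inl (by omega)) hz (H.inv_mem hy)).eq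
  have c2 := (cj_comm_Dg hc (j := 0) (m := m) (Or.inl (by omega)) hz (H.inv_mem hδ)).eq
  have c3 := (hc 0 _ (H.inv_mem hδ) y hy).eq
  rw [cj_zero] at c2
  have e1 : Dg e m x * cj e 1 y⁻¹ * (x ^ m * y⁻¹)⁻¹ *
      (Dg e m (y * x⁻¹ * y⁻¹) * cj e 1 y * (x ^ m * y⁻¹) * w) = Dg e m ⁅x, y⁆ * w := by
    rw [show ⁅x, y⁆ = x * (y * x⁻¹ * y⁻¹) by rw [commutatorElement_def]; group, Dg_mul hc m hx hz]
    generalize Dg e m (y * x⁻¹ * y⁻¹) = Z at *
    generalize (x ^ m * y⁻¹) = d at *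
    have e2 : cj e 1 y⁻¹ = (cj e 1 y)⁻¹ := by unfold cj; group
    rw [e2] at c1 ⊢
    simp only [zero_add] at c3
    generalize cj e 1 y = Y at *
    calc Dg e m x * Y⁻¹ * d⁻¹ * (Z * Y * d * w)
        = Dg e m x * Y⁻¹ * (d⁻¹ * Z) * Y * d * w := by group
      _ = Dg e m x * (Y⁻¹ * Z) * (d⁻¹ * Y) * d * w := by rw [c2]; group
      _ = _ := by rw [c1, c3]; group
  rwa [e1] at this

lemma wander {u : G} (hu : u ∈ ⁅H, H⁆) : ∃ d, InS e d ∧ InS (u * e) d := by
  have key : u ∈ H ∧ ∃ n, ∀ m k w, InS e (w * e ^ (k + 1)) →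
      InS e (Dg e m u * w * e ^ (k + n + 1)) := by
    rw [Subgroup.commutator_def] at hu
    induction hu using Subgroup.closure_induction'' with
    | one =>
      refine ⟨H.one_mem, 0, fun m k w h => ?_⟩
      have : Dg e m 1 = 1 := by
        have := Dg_mul hc m H.one_mem H.one_mem
        simpa using this
      simpa [this] using h
    | mem x hx =>
      obtain ⟨a, ha, b, hb, rfl⟩ := hx
      exact ⟨H.mul_mem (H.mul_mem (H.mul_mem ha hb) (H.inv_mem ha)) (H.inv_mem hb), 2,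
        fun m k w h => q_comm hc ha hb m k w h⟩
    | inv_mem x hx =>
      obtain ⟨a, ha, b, hb, rfl⟩ := hx
      rw [commutatorElement_inv]
      exact ⟨H.mul_mem (H.mul_mem (H.mul_mem hb ha) (H.inv_mem hb)) (H.inv_mem ha), 2,
        fun m k w h => q_comm hc hb ha m k w h⟩
    | mul x y _ _ h1 h2 =>
      obtain ⟨hx, n1, h1⟩ := h1
      obtain ⟨hy, n2, h2⟩ := h2
      refine ⟨H.mul_mem hx hy, n2 + n1, fun m k w h => ?_⟩
      have := h1 m _ _ (h2 m k w h)
      rwa [Dg_mul hc m hx hy, ← add_assoc, mul_assoc (Dg e m x)]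
  obtain ⟨-, n, h⟩ := key
  have hp : ∀ m, e ^ 2 * (u * e) ^ m * (e ^ 2)⁻¹ = Dg e m u * e ^ m := by
    intro m
    induction m with
    | zero => simp [Dg]
    | succ m ih =>
      calc e ^ 2 * (u * e) ^ (m + 1) * (e ^ 2)⁻¹
          = (e ^ 2 * (u * e) ^ m * (e ^ 2)⁻¹) * (e ^ 2 * (u * e) * (e ^ 2)⁻¹) := by
            rw [pow_succ (u * e) m]; generalize (u * e) ^ m = z; group
        _ = _ := by rw [ih]; simp only [Dg, cj]; group
  refine ⟨Dg e (n + 1) u * e ^ (n + 1), ?_, ?_⟩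
  · have := h (n + 1) 0 1 (by simpa using InS.self e)
    simpa using this
  · rw [← hp]; exact ((InS.self _).pow n).conj_mem _

end

end Pool.Agent.H27.ProOrd
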