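import Pool.Agent.H27.ProOrd1

set_option autoImplicit false

namespace Pool.Agent.H27.ProOrd

open Filter Topology Set
open scoped commutatorElement

variable {G : Type} [Group G]

structure PL (act : G → ℝ → ℝ) : Prop where
  one : ∀ t, act 1 t = t
  mul : ∀ g h t, act (g * h) t = act g (act h t)
  mono : ∀ g, StrictMono (act g)
  ext : ∀ g h, (∀ t, act g t = act h t) → g = h
  bdd : ∀ g, ∃ R, ∀ t, t ≤ -R ∨ R ≤ t → act g t = t
  bump : ∀ a b x y, a < x → x < b → a < y → y < b →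
    ∃ g, act g x = y ∧ ∀ t, t ≤ a ∨ b ≤ t → act g t = t
  raff : ∀ g t, ∃ a, ∀ᶠ s in 𝓝[>] t, act g s = act g t + a * (s - t)
  laff : ∀ g t, ∃ a, ∀ᶠ s in 𝓝[>] t, -act g (-s) = -act g (-t) + a * (s - t)

def rfl' (act : G → ℝ → ℝ) : G → ℝ → ℝ := fun g t => -act g (-t)

variable {act : G → ℝ → ℝ}

lemma PL.reflect (h : PL act) : PL (rfl' act) where
  one t := by simp [rfl', h.one]
  mul g k t := by simp [rfl', h.mul]
  mono g := fun a b hab => neg_lt_neg (h.mono g (neg_lt_neg hab))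
  ext g k e := h.ext g k fun t => by simpa [rfl'] using e (-t)
  bdd g := by
    obtain ⟨R, hR⟩ := h.bdd g
    refine ⟨R, fun t ht => ?_⟩
    simp only [rfl']
    rw [hR (-t) (by rcases ht with ht | ht; right; linarith; left; linarith), neg_neg]
  bump a b x y h1 h2 h3 h4 := by
    obtain ⟨g, g1, g2⟩ := h.bump (-b) (-a) (-x) (-y) (by linarith) (by linarith) (by linarith)
      (by linarith)
    refine ⟨g, by simp [rfl', g1], fun t ht => ?_⟩
    simp only [rfl']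
    rw [g2 (-t) (by rcases ht with ht | ht; right; linarith; left; linarith), neg_neg]
  raff := h.laff
  laff g t := by simpa [rfl'] using h.raff g t

namespace PL

variable (h : PL act)
include h

lemma inv_act (g : G) (t : ℝ) : act g⁻¹ (act g t) = t := by rw [← h.mul, inv_mul_cancel, h.one]

lemma act_inv (g : G) (t : ℝ) : act g (act g⁻¹ t) = t := by rw [← h.mul, mul_inv_cancel, h.one]

lemma lt_iff (g : G) {s t : ℝ} : act g s < act g t ↔ s < t := (h.mono g).lt_iff_lt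

lemma le_iff (g : G) {s t : ℝ} : act g s ≤ act g t ↔ s ≤ t := (h.mono g).le_iff_le

lemma inj (g : G) {s t : ℝ} (e : act g s = act g t) : s = t := (h.mono g).injective e

lemma inv_fix {g : G} {t : ℝ} (e : act g t = t) : act g⁻¹ t = t := by
  conv_lhs => rw [← e]
  exact h.inv_act g t

lemma tend (g : G) (t : ℝ) : Tendsto (act g) (𝓝[>] t) (𝓝[>] (act g t)) := by
  have hc : Continuous (act g) :=
    ((h.mono g).orderIsoOfSurjective (act g) (fun s => ⟨_, h.act_inv g s⟩)).continuous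
  apply tendsto_nhdsWithin_iff.2
  refine ⟨(hc.tendsto t).mono_left nhdsWithin_le_nhds, ?_⟩
  filter_upwards [self_mem_nhdsWithin] with s hs
  exact h.mono g hs

lemma extend (g : G) {a x y : ℝ} (hx : a < x) (hy : act g a < y) :
    ∃ g', (∀ t ≤ a, act g' t = act g t) ∧ act g' x = y := by
  obtain ⟨k, k1, k2⟩ := h.bump (act g a) (max (act g x) y + 1) (act g x) y (h.mono g hx)
    (by linarith [le_max_left (act g x) y]) hy (by linarith [le_max_right (act g x) y])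
  exact ⟨k * g, fun t ht => by rw [h.mul, k2 _ (Or.inl ((h.le_iff g).2 ht))], by rw [h.mul, k1]⟩

lemma T1 (x y : ℝ) : ∃ g, act g x = y := by
  obtain ⟨g, -, hg⟩ := h.extend 1 (a := min x y - 1) (x := x) (y := y)
    (by linarith [min_le_left x y]) (by rw [h.one]; linarith [min_le_right x y])
  exact ⟨g, hg⟩

lemma T2 {x1 x2 y1 y2 : ℝ} (a : x1 < x2) (b : y1 < y2) : ∃ g, act g x1 = y1 ∧ act g x2 = y2 := by
  obtain ⟨g, hg⟩ := h.T1 x1 y1
  obtain ⟨k, k1, k2⟩ := h.extend g a (hg ▸ b)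
  exact ⟨k, by rw [k1 _ le_rfl, hg], k2⟩

lemma T4 {x1 x2 x3 x4 y1 y2 y3 y4 : ℝ} (a : x1 < x2) (b : y1 < y2) (c : x2 < x3) (d : y2 < y3)
    (e : x3 < x4) (f : y3 < y4) :
    ∃ g, act g x1 = y1 ∧ act g x2 = y2 ∧ act g x3 = y3 ∧ act g x4 = y4 := by
  obtain ⟨g, g1, g2⟩ := h.T2 a b
  obtain ⟨k, k1, k2⟩ := h.extend g c (g2 ▸ d)
  obtain ⟨l, l1, l2⟩ := h.extend k e (k2 ▸ f)
  refine ⟨l, ?_, ?_, ?_, l2⟩
  · rw [l1 _ (by linarith), k1 _ a.le, g1]
  · rw [l1 _ c.le, k1 _ le_rfl, g2]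
  · rw [l1 _ le_rfl, k2]

def Supp (U : Set ℝ) : Subgroup G where
  carrier := {g | ∀ t, t ∉ U → act g t = t}
  one_mem' := fun t _ => h.one t
  mul_mem' := fun {a b} ha hb t ht => by rw [h.mul, hb t ht, ha t ht]
  inv_mem' := fun {a} ha t ht => h.inv_fix (ha t ht)

lemma mem_Supp {U : Set ℝ} {g : G} : g ∈ h.Supp U ↔ ∀ t, t ∉ U → act g t = t := Iff.rfl

lemma Supp_mono {U V : Set ℝ} (e : U ⊆ V) : h.Supp U ≤ h.Supp V :=
  fun _ hg t ht => hg t fun ht' => ht (e ht')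

lemma maps {U : Set ℝ} {g : G} (hg : g ∈ h.Supp U) {t : ℝ} (ht : t ∈ U) : act g t ∈ U := by
  by_contra hn
  have := h.inj g (hg _ hn)
  exact hn (this.symm ▸ ht)

lemma commute {U V : Set ℝ} {g k : G} (hg : g ∈ h.Supp U) (hk : k ∈ h.Supp V)
    (hd : ∀ t, t ∈ U → t ∉ V) : Commute g k := by
  apply h.ext
  intro t
  rw [h.mul, h.mul]
  by_cases h1 : t ∈ U
  · rw [hk t (hd t h1), hk _ (hd _ (h.maps hg h1))]
  · rw [hg t h1]
    by_cases h2 : t ∈ V
    · exact hg _ fun h3 => hd _ h3 (h.maps hk h2)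
    · rw [hk t h2, hg t h1]

lemma conj_supp {U V : Set ℝ} {g : G} (hg : g ∈ h.Supp U) (k : G) (e : ∀ t ∈ U, act k t ∈ V) :
    k * g * k⁻¹ ∈ h.Supp V := by
  intro t ht
  rw [h.mul, h.mul, hg _ fun hn => ht (h.act_inv k t ▸ e _ hn), h.act_inv]

lemma exists_supp (g : G) : ∃ R, 0 < R ∧ g ∈ h.Supp (Ioo (-R) R) := by
  obtain ⟨R, hR⟩ := h.bdd g
  refine ⟨max R 1, by linarith [le_max_right R 1], fun t ht => hR t ?_⟩
  have := le_max_left R 1
  rw [mem_Ioo, not_and_or, not_lt, not_lt] at ht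
  rcases ht with ht | ht
  · left; linarith
  · right; linarith

lemma supp_le {R R' : ℝ} (e : R ≤ R') : h.Supp (Ioo (-R) R) ≤ h.Supp (Ioo (-R') R') :=
  h.Supp_mono (Ioo_subset_Ioo (by linarith) e)

lemma conj_trick (g a : G) : ∃ g' ∈ commutator G, g' * a * g'⁻¹ = g * a * g⁻¹ := by
  obtain ⟨R1, p1, h1⟩ := h.exists_supp g
  obtain ⟨R2, p2, h2⟩ := h.exists_supp a
  have h1' := h.supp_le (le_max_left R1 R2) h1
  have h2' := h.supp_le (le_max_right R1 R2) h2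
  set R := max R1 R2
  obtain ⟨t, ht⟩ := h.T1 (-R) R
  have c : Commute a (t * g⁻¹ * t⁻¹) := by
    refine h.commute h2' (h.conj_supp (V := Ioi R) (Subgroup.inv_mem _ h1') t fun s hs => ?_) ?_
    · rw [mem_Ioi, ← ht]; exact h.mono t hs.1
    · intro s hs hs'
      exact lt_asymm hs.2 hs'
  refine ⟨⁅g, t⁆, Subgroup.commutator_mem_commutator (Subgroup.mem_top g) (Subgroup.mem_top t), ?_⟩
  calc ⁅g, t⁆ * a * ⁅g, t⁆⁻¹ = g * ((t * g⁻¹ * t⁻¹) * a) * (t * g⁻¹ * t⁻¹)⁻¹ * g⁻¹ := by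
        rw [commutatorElement_def]; group
    _ = _ := by rw [← c.eq]; group

lemma comm_union {u : G} (hu : u ∈ commutator G) :
    ∃ R, 0 < R ∧ u ∈ ⁅h.Supp (Ioo (-R) R), h.Supp (Ioo (-R) R)⁆ := by
  have mono : ∀ {R R' : ℝ}, R ≤ R' → ⁅h.Supp (Ioo (-R) R), h.Supp (Ioo (-R) R)⁆ ≤
      ⁅h.Supp (Ioo (-R') R'), h.Supp (Ioo (-R') R')⁆ :=
    fun e => Subgroup.commutator_mono (h.supp_le e) (h.supp_le e)
  rw [commutator_def, Subgroup.commutator_def] at hu
  induction hu using Subgroup.closure_induction with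
  | mem x hx =>
    obtain ⟨a, -, b, -, rfl⟩ := hx
    obtain ⟨R1, p1, h1⟩ := h.exists_supp a
    obtain ⟨R2, p2, h2⟩ := h.exists_supp b
    exact ⟨max R1 R2, lt_max_of_lt_left p1, Subgroup.commutator_mem_commutator
      (h.supp_le (le_max_left R1 R2) h1) (h.supp_le (le_max_right R1 R2) h2)⟩
  | one => exact ⟨1, one_pos, Subgroup.one_mem _⟩
  | mul x y _ _ a b =>
    obtain ⟨R1, p1, h1⟩ := a
    obtain ⟨R2, p2, h2⟩ := b
    exact ⟨max R1 R2, lt_max_of_lt_left p1, Subgroup.mul_mem _ (mono (le_max_left R1 R2) h1)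
      (mono (le_max_right R1 R2) h2)⟩
  | inv x _ a =>
    obtain ⟨R1, p1, h1⟩ := a
    exact ⟨R1, p1, Subgroup.inv_mem _ h1⟩

lemma squeeze {u : G} (hu : u ∈ commutator G) {x y α β : ℝ} (hs : u ∈ h.Supp (Ioo x y))
    (h1 : α < x) (h2 : x < y) (h3 : y < β) : u ∈ ⁅h.Supp (Ioo α β), h.Supp (Ioo α β)⁆ := by
  obtain ⟨R0, p0, hR0⟩ := h.comm_union hu
  obtain ⟨R, r0, r1, r2⟩ : ∃ R, R0 ≤ R ∧ -R < α ∧ β < R :=
    ⟨max R0 (max (-α) β) + 1, by linarith [le_max_left R0 (max (-α) β)],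
      by linarith [le_max_right R0 (max (-α) β), le_max_left (-α) β],
      by linarith [le_max_right R0 (max (-α) β), le_max_right (-α) β]⟩
  have hR := Subgroup.commutator_mono (h.supp_le r0) (h.supp_le r0) hR0
  obtain ⟨g1, a1, a2⟩ := h.bump (-R - 1) x (-R) α (by linarith) (by linarith) (by linarith) h1
  obtain ⟨g2, b1, b2⟩ := h.bump y (R + 1) R β (by linarith) (by linarith) h3 (by linarith)
  have e1 : act (g1 * g2) (-R) = α := by rw [h.mul, b2 _ (Or.inl (by linarith)), a1]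
  have e2 : act (g1 * g2) R = β := by rw [h.mul, b1, a2 _ (Or.inr (by linarith))]
  have c : Commute u (g1 * g2) := by
    refine h.commute hs (V := (Ioo x y)ᶜ) (fun t ht => ?_) (fun t ht hn => hn ht)
    have ht' : t ∈ Ioo x y := not_not.1 ht
    rw [h.mul, b2 _ (Or.inl ht'.2.le), a2 _ (Or.inr ht'.1.le)]
  have hm : (h.Supp (Ioo (-R) R)).map (MulAut.conj (g1 * g2)).toMonoidHom ≤ h.Supp (Ioo α β) := by
    rintro _ ⟨k, hk, rfl⟩
    refine h.conj_supp hk (g1 * g2) fun t ht => ⟨?_, ?_⟩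
    · rw [← e1]; exact h.mono _ ht.1
    · rw [← e2]; exact h.mono _ ht.2
  have := Subgroup.mem_map_of_mem (MulAut.conj (g1 * g2)).toMonoidHom hR
  rw [Subgroup.map_commutator] at this
  have := Subgroup.commutator_mono hm hm this
  have e3 : (MulAut.conj (g1 * g2)).toMonoidHom u = u := by
    change g1 * g2 * u * (g1 * g2)⁻¹ = u
    rw [← c.eq]; group
  rwa [e3] at this

lemma normal_le {N : Subgroup G} [hN : N.Normal] {f : G} (hf : f ∈ N) {t : ℝ} (ht : t < act f t) :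
    commutator G ≤ N := by
  have key : ⁅h.Supp (Ioo t (act f t)), h.Supp (Ioo t (act f t))⁆ ≤ N := by
    rw [Subgroup.commutator_le]
    intro x hx y hy
    have hz : f * x⁻¹ * f⁻¹ ∈ h.Supp (Ioi (act f t)) :=
      h.conj_supp (Subgroup.inv_mem _ hx) f fun s hs => h.mono f hs.1
    have cy : Commute y (f * x⁻¹ * f⁻¹) := h.commute hy hz fun s hs hs' => lt_asymm hs.2 hs'
    have m1 : x * (f * x⁻¹ * f⁻¹) ∈ N := by
      have := N.mul_mem (hN.conj_mem _ hf x) (N.inv_mem hf)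
      rwa [show x * f * x⁻¹ * f⁻¹ = x * (f * x⁻¹ * f⁻¹) by group] at this
    have m2 := N.mul_mem m1 (hN.conj_mem _ (N.inv_mem m1) y)
    generalize f * x⁻¹ * f⁻¹ = z at *
    rwa [show x * z * (y * (x * z)⁻¹ * y⁻¹) = x * (z * y) * z⁻¹ * x⁻¹ * y⁻¹ by group, ← cy.eq,
      show x * (y * z) * z⁻¹ * x⁻¹ * y⁻¹ = ⁅x, y⁆ by rw [commutatorElement_def]; group] at m2
  intro u hu
  obtain ⟨R, hR, hs⟩ := h.exists_supp u
  obtain ⟨g, g1, g2⟩ := h.T2 (x1 := -R) (x2 := R) (y1 := t + (act f t - t) / 3)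
    (y2 := t + 2 * (act f t - t) / 3) (by linarith) (by linarith)
  have h1 : g * u * g⁻¹ ∈ N := by
    refine key (h.squeeze (Subgroup.Normal.conj_mem inferInstance _ hu g)
      (x := t + (act f t - t) / 3) (y := t + 2 * (act f t - t) / 3) ?_ (by linarith) (by linarith)
      (by linarith))
    refine h.conj_supp hs g fun s hs' => ⟨?_, ?_⟩
    · rw [← g1]; exact h.mono _ hs'.1
    · rw [← g2]; exact h.mono _ hs'.2
  have := hN.conj_mem _ h1 g⁻¹
  simpa [mul_assoc] using this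

lemma simple : IsSimpleGroup (commutator G) := by
  have hnt : Nontrivial (commutator G) := by
    obtain ⟨g, g1, -⟩ := h.T2 (x1 := 0) (x2 := 1) (y1 := 1) (y2 := 2) one_pos one_lt_two
    obtain ⟨k, k1, k2⟩ := h.bump (1 / 2) 2 1 (3 / 2) (by norm_num) (by norm_num) (by norm_num)
      (by norm_num)
    refine ⟨⟨⟨⁅g, k⁆, Subgroup.commutator_mem_commutator (Subgroup.mem_top g)
      (Subgroup.mem_top k)⟩, 1, fun e => ?_⟩⟩
    have e1 : g * k = k * g := commutatorElement_eq_one_iff_mul_comm.1 (congrArg Subtype.val e)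
    have := congrArg (fun z => act z 0) e1
    simp only [h.mul] at this
    rw [k2 0 (Or.inl (by norm_num)), g1, k1] at this
    norm_num at this
  refine ⟨fun N hN => ?_⟩
  by_cases hb : N = ⊥
  · exact Or.inl hb
  right
  obtain ⟨⟨f, hf⟩, hf1⟩ := Subgroup.ne_bot_iff_exists_ne_one.1 hb
  haveI : (N.map (commutator G).subtype).Normal := by
    constructor
    rintro _ ⟨n, hn, rfl⟩ g
    obtain ⟨g', hg', e⟩ := h.conj_trick g n
    exact ⟨⟨g', hg'⟩ * n * ⟨g', hg'⟩⁻¹, hN.conj_mem _ hn _, e⟩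
  have hf2 : (f : G) ≠ 1 := fun e => hf1 (Subtype.ext (Subtype.ext e))
  obtain ⟨t, ht⟩ : ∃ t, act f t ≠ t := by
    by_contra hn
    push Not at hn
    exact hf2 (h.ext _ _ fun t => by rw [hn, h.one])
  have hfm : (f : G) ∈ N.map (commutator G).subtype := ⟨f, hf, rfl⟩
  have hle : commutator G ≤ N.map (commutator G).subtype := by
    rcases lt_or_gt_of_ne ht with ht | ht
    · refine h.normal_le (Subgroup.inv_mem _ hfm) (t := act f t) ?_
      rwa [h.inv_act]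
    · exact h.normal_le hfm ht
  rw [eq_top_iff]
  intro x _
  obtain ⟨y, hy, e⟩ := hle x.2
  rwa [← Subtype.ext e]

end PL

/-- left germ -/
def LG (act : G → ℝ → ℝ) (g : G) (p l : ℝ) : Prop :=
  (∀ t ≤ p, act g t = t) ∧ ∀ᶠ s in 𝓝[>] p, act g s = p + l * (s - p)

namespace PL

variable (h : PL act)
include h

lemma LG_pos {g : G} {p l : ℝ} (e : LG act g p l) : 0 < l := by
  obtain ⟨s, e1, hs⟩ := (e.2.and self_mem_nhdsWithin).exists
  have hs' : p < s := hs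
  have := h.mono g hs'
  rw [e.1 p le_rfl, e1] at this
  by_contra hn
  have : l * (s - p) ≤ 0 := mul_nonpos_of_nonpos_of_nonneg (not_lt.1 hn) (by linarith)
  linarith

lemma LG_one {p l : ℝ} (e : LG act 1 p l) : l = 1 := by
  obtain ⟨s, e1, hs⟩ := (e.2.and self_mem_nhdsWithin).exists
  have hs' : s - p ≠ 0 := sub_ne_zero.2 (ne_of_gt hs)
  rw [h.one] at e1
  apply mul_right_cancel₀ hs'
  linarith

lemma LG_exists {g : G} (hg : g ≠ 1) : ∃ p l, l ≠ 1 ∧ LG act g p l := by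
  have hne : {t | act g t ≠ t}.Nonempty := by
    by_contra hn
    refine hg (h.ext _ _ fun t => ?_)
    rw [h.one]
    by_contra h2
    exact hn ⟨t, h2⟩
  obtain ⟨R, hR⟩ := h.bdd g
  have hb : BddBelow {t | act g t ≠ t} :=
    ⟨-R, fun t ht => le_of_not_gt fun h2 => ht (hR t (Or.inl h2.le))⟩
  set p := sInf {t | act g t ≠ t}
  have h1 : ∀ t < p, act g t = t := fun t ht => by
    by_contra h2
    exact absurd (csInf_le hb h2) (not_le.2 ht)
  have h2 : act g p = p := by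
    rcases lt_trichotomy (act g p) p with h3 | h3 | h3
    · exact h.inj g (h1 _ h3)
    · exact h3
    · have h4 : act g⁻¹ p < p := by
        rw [← h.lt_iff g, h.act_inv]; exact h3
      have := h1 _ h4
      rw [h.act_inv] at this
      exact absurd this.symm h4.ne
  obtain ⟨a, ha⟩ := h.raff g p
  rw [h2] at ha
  refine ⟨p, a, fun e => ?_, fun t ht => ?_, ha⟩
  · obtain ⟨u, hu, hs⟩ := mem_nhdsGT_iff_exists_Ioo_subset.1 ha
    have : u ≤ p := by
      refine le_csInf hne fun t ht => le_of_not_gt fun h3 => ht ?_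
      rcases lt_trichotomy t p with h4 | h4 | h4
      · exact h1 t h4
      · rw [h4, h2]
      · have := hs ⟨h4, h3⟩
        simp only [mem_ofPred_eq, e] at this
        linarith
    exact absurd hu (not_lt.2 this)
  · rcases ht.lt_or_eq with h3 | h3
    · exact h1 t h3
    · rw [h3, h2]

lemma LG_tend {g : G} {p l : ℝ} (e : LG act g p l) : Tendsto (act g) (𝓝[>] p) (𝓝[>] p) := by
  have := h.tend g p
  rwa [e.1 p le_rfl] at this

lemma LG_conj {g : G} {p l : ℝ} (e : LG act g p l) (k : G) :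
    LG act (k * g * k⁻¹) (act k p) l := by
  refine ⟨fun t ht => ?_, ?_⟩
  · rw [h.mul, h.mul, e.1 _ (by rw [← h.le_iff k, h.act_inv]; exact ht), h.act_inv]
  · obtain ⟨a, ha⟩ := h.raff k p
    have t1 := h.tend k⁻¹ (act k p)
    rw [h.inv_act] at t1
    filter_upwards [t1.eventually (ha.and (e.2.and ((h.LG_tend e).eventually ha)))] with s hs
    obtain ⟨s1, s2, s3⟩ := hs
    rw [h.act_inv] at s1
    rw [h.mul, h.mul, s3, s2]
    linear_combination (-l) * s1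

lemma LG_mul {g k : G} {p l l' : ℝ} (e : LG act g p l) (e' : LG act k p l') :
    LG act (g * k) p (l * l') := by
  refine ⟨fun t ht => by rw [h.mul, e'.1 t ht, e.1 t ht], ?_⟩
  filter_upwards [e'.2, (h.LG_tend e').eventually e.2] with s s1 s2
  rw [h.mul, s2, s1]; ring

omit h in
lemma LG_lt {k : G} {p p' l' : ℝ} (e' : LG act k p' l') (hp : p < p') : LG act k p 1 := by
  refine ⟨fun t ht => e'.1 t (by linarith), ?_⟩
  filter_upwards [Ioo_mem_nhdsGT hp] with s hs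
  rw [e'.1 s hs.2.le]; ring

lemma LG_pow {g : G} {p l : ℝ} (e : LG act g p l) (n : ℕ) :
    LG act (g ^ (n + 1)) p (l ^ (n + 1)) := by
  induction n with
  | zero => simpa using e
  | succ n ih => rw [pow_succ, pow_succ l]; exact h.LG_mul ih e

lemma LG_inv {g : G} {p l : ℝ} (e : LG act g p l) : LG act g⁻¹ p l⁻¹ := by
  refine ⟨fun t ht => h.inv_fix (e.1 t ht), ?_⟩
  have t1 := h.tend g⁻¹ p
  rw [h.inv_fix (e.1 p le_rfl)] at t1
  filter_upwards [t1.eventually e.2] with s hs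
  rw [h.act_inv] at hs
  have := (h.LG_pos e).ne'
  field_simp
  linarith

lemma LG_InS {a b : G} {p l : ℝ} (e : LG act a p l) (hb : InS a b) :
    ∃ p' m, LG act b p' (l ^ (m + 1)) := by
  induction hb with
  | conj k => exact ⟨_, 0, by simpa using h.LG_conj e k⟩
  | mul _ _ i1 i2 =>
    obtain ⟨p1, m1, e1⟩ := i1
    obtain ⟨p2, m2, e2⟩ := i2
    rcases lt_trichotomy p1 p2 with h1 | rfl | h1
    · exact ⟨p1, m1, by simpa using h.LG_mul e1 (LG_lt e2 h1)⟩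
    · refine ⟨p1, m1 + m2 + 1, ?_⟩
      have := h.LG_mul e1 e2
      rwa [← pow_add, show m1 + 1 + (m2 + 1) = m1 + m2 + 1 + 1 by ring] at this
    · exact ⟨p2, m2, by simpa using h.LG_mul (LG_lt e1 h1) e2⟩

lemma cond1 {a : G} (ha : InS a 1) : a = 1 := by
  by_contra hn
  obtain ⟨p, l, l1, e⟩ := h.LG_exists hn
  obtain ⟨p', m, e'⟩ := h.LG_InS e ha
  exact l1 ((pow_eq_one_iff_of_nonneg (h.LG_pos e).le (Nat.succ_ne_zero m)).1 (h.LG_one e'))

lemma stage {a b c : G} {p l : ℝ} (e : LG act a p l) (hl : l ≠ 1) (hb : InS a b) (hc : InS a c)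
    {x1 x2 x3 x4 : ℝ} (h12 : x1 < x2) (h23 : x2 < x3) (h34 : x3 < x4) :
    ∃ b1 c1, InS b b1 ∧ InS c c1 ∧ (∀ t ≤ x3, act b1 t = act c1 t) ∧
      (∀ t, x4 ≤ t → act b1 t = t ∧ act c1 t = t) ∧ (1 < l → act b1 x1 = x2) ∧
      (l < 1 → act b1 x2 = x1) := by
  have l0 := h.LG_pos e
  obtain ⟨pb, m, eb⟩ := h.LG_InS e hb
  obtain ⟨pc, n, ec⟩ := h.LG_InS e hc
  obtain ⟨k, hk⟩ := h.T1 pc pb
  have e1 := h.LG_pow eb n
  have e2 := h.LG_conj (h.LG_pow ec m) k
  rw [hk, ← pow_mul, mul_comm (n + 1), pow_mul] at e2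
  have i1 : InS b (b ^ (n + 1)) := (InS.self b).pow n
  have i2 : InS c (k * c ^ (m + 1) * k⁻¹) := ((InS.self c).pow m).conj_mem k
  generalize b ^ (n + 1) = β at *
  generalize k * c ^ (m + 1) * k⁻¹ = γ at *
  have L0 := h.LG_pos e1
  have L1 : 1 < l → 1 < (l ^ (m + 1)) ^ (n + 1) := fun h1 =>
    one_lt_pow₀ (one_lt_pow₀ h1 (Nat.succ_ne_zero m)) (Nat.succ_ne_zero n)
  have L2 : l < 1 → (l ^ (m + 1)) ^ (n + 1) < 1 := fun h1 =>
    pow_lt_one₀ (by positivity) (pow_lt_one₀ l0.le h1 (Nat.succ_ne_zero m)) (Nat.succ_ne_zero n)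
  generalize (l ^ (m + 1)) ^ (n + 1) = L at *
  obtain ⟨u, hu, hs⟩ := mem_nhdsGT_iff_exists_Ioo_subset.1 (e1.2.and e2.2)
  have hu' : pb < u := hu
  obtain ⟨R1, -, s1⟩ := h.exists_supp β
  obtain ⟨R2, -, s2⟩ := h.exists_supp γ
  set δ := (u - pb) / (2 * (L + 1)) with hδ
  have d0 : 0 < δ := div_pos (by linarith) (by linarith)
  have d1 : δ * (2 * (L + 1)) = u - pb := div_mul_cancel₀ _ (by linarith)
  have d2 : 0 < L * δ := mul_pos L0 d0
  have hβ : act β (pb + δ) = pb + L * δ := by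
    have := (hs (a := pb + δ) ⟨by linarith, by nlinarith⟩).1
    rw [this]; ring
  obtain ⟨r1, r2, r12, r23, q1, q2⟩ : ∃ r1 r2, r1 < r2 ∧ r2 < pb + (u - pb) / 2 ∧
      (1 < l → act β r1 = r2) ∧ (l < 1 → act β r2 = r1) := by
    rcases lt_or_gt_of_ne hl with h1 | h1
    · have := L2 h1
      exact ⟨pb + L * δ, pb + δ, by nlinarith, by nlinarith, fun h2 => absurd h1 (lt_asymm h2),
        fun _ => hβ⟩
    · have := L1 h1
      exact ⟨pb + δ, pb + L * δ, by nlinarith, by nlinarith, fun _ => hβ,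
        fun h2 => absurd h1 (lt_asymm h2)⟩
  obtain ⟨r4, a1, a2, a3⟩ : ∃ r4, R1 ≤ r4 ∧ R2 ≤ r4 ∧ u ≤ r4 :=
    ⟨max R1 (max R2 u), le_max_left _ _, (le_max_left _ _).trans (le_max_right _ _),
      (le_max_right _ _).trans (le_max_right _ _)⟩
  obtain ⟨g, g1, g2, g3, g4⟩ := h.T4 (x3 := pb + (u - pb) / 2) (x4 := r4) r12 h12 r23 h23
    (by linarith) h34
  refine ⟨g * β * g⁻¹, g * γ * g⁻¹, i1.conj_mem g, i2.conj_mem g, fun t ht => ?_, fun t ht => ?_,
    fun h1 => ?_, fun h1 => ?_⟩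
  · simp only [h.mul]
    congr 1
    have h1 : act g⁻¹ t ≤ pb + (u - pb) / 2 := by rw [← h.le_iff g, h.act_inv, g3]; exact ht
    by_cases h2 : act g⁻¹ t ≤ pb
    · rw [e1.1 _ h2, e2.1 _ h2]
    · have := hs (a := act g⁻¹ t) ⟨not_le.1 h2, by linarith⟩
      rw [this.1, this.2]
  · have h1 : r4 ≤ act g⁻¹ t := by rw [← h.le_iff g, h.act_inv, g4]; exact ht
    simp only [h.mul]
    rw [s1 _ (fun hn => by linarith [hn.2]), s2 _ (fun hn => by linarith [hn.2]), h.act_inv]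
    exact ⟨rfl, rfl⟩
  · rw [h.mul, h.mul, ← g1, h.inv_act, q1 h1, g2]
  · rw [h.mul, h.mul, ← g2, h.inv_act, q2 h1, g1]

lemma finish {b c b1 c1 b2 c2 : G} (hb : b ∈ commutator G) (hc : c ∈ commutator G)
    (i1 : InS b b1) (j1 : InS c c1) (i2 : InS b b2) (j2 : InS c c2) {U V : Set ℝ}
    (hUV : ∀ t, t ∈ U → t ∉ V) (hU : ∀ t ∈ U, act (b2 * b1) t ∈ V)
    (hV : ∀ t ∈ V, act (b2 * b1) t ∈ V) {α1 x1 y1 β1 α2 x2 y2 β2 : ℝ}
    (s1 : b1⁻¹ * c1 ∈ h.Supp (Ioo x1 y1)) (s2 : c2 * b2⁻¹ ∈ h.Supp (Ioo x2 y2))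
    (a1 : α1 < x1) (a2 : x1 < y1) (a3 : y1 < β1) (a4 : α2 < x2) (a5 : x2 < y2) (a6 : y2 < β2)
    (u1 : Ioo α1 β1 ⊆ U) (u2 : Ioo α2 β2 ⊆ U) : ∃ d, InS b d ∧ InS c d := by
  have m1 := Subgroup.commutator_mono (h.Supp_mono u1) (h.Supp_mono u1) (h.squeeze
    (Subgroup.mul_mem _ (Subgroup.inv_mem _ (i1.mem hb)) (j1.mem hc)) s1 a1 a2 a3)
  have m2 := Subgroup.commutator_mono (h.Supp_mono u2) (h.Supp_mono u2) (h.squeeze
    (Subgroup.mul_mem _ (j2.mem hc) (Subgroup.inv_mem _ (i2.mem hb))) s2 a4 a5 a6)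
  have hp : ∀ n : ℕ, ∀ t ∈ U, act ((b2 * b1) ^ (n + 1)) t ∈ V := by
    intro n
    induction n with
    | zero => simpa using hU
    | succ n ih => intro t ht; rw [pow_succ', h.mul]; exact hV _ (ih t ht)
  obtain ⟨d, d1, d2⟩ := wander (e := b2 * b1) (H := h.Supp U)
    (fun n x hx y hy => h.commute hx (h.conj_supp hy _ (hp n)) hUV) (Subgroup.mul_mem _ m1 m2)
  refine ⟨d, (i2.mul i1).trans d1, InS.trans ?_ d2⟩
  have := (j2.mul j1).conj_mem (b1⁻¹ * c1)
  rwa [show b1⁻¹ * c1 * (c2 * c1) * (b1⁻¹ * c1)⁻¹ = b1⁻¹ * c1 * (c2 * b2⁻¹) * (b2 * b1) by group]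
    at this

lemma cond2' {a b c : G} {p l : ℝ} (ha : a ∈ commutator G) (e : LG act a p l) (hl : 1 < l)
    (hb : InS a b) (hc : InS a c) : ∃ d, InS b d ∧ InS c d := by
  have ha1 : a ≠ 1 := fun e1 => hl.ne' (h.LG_one (e1 ▸ e))
  obtain ⟨b1, c1, i1, j1, k1, k2, k3, -⟩ := h.stage e hl.ne' hb hc (x1 := 0) (x2 := 3) (x3 := 4)
    (x4 := 5) (by norm_num) (by norm_num) (by norm_num)
  have k3' := k3 hl
  have s1 : b1⁻¹ * c1 ∈ h.Supp (Ioo 4 5) := by
    intro t ht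
    rw [mem_Ioo, not_and_or, not_lt, not_lt] at ht
    rcases ht with ht | ht
    · rw [h.mul, ← k1 t ht, h.inv_act]
    · rw [h.mul, (k2 t ht).2, h.inv_fix (k2 t ht).1]
  obtain ⟨q, μ, hμ, e'⟩ := h.reflect.LG_exists ha1
  have right : ∀ x1 x2 : ℝ, x1 < x2 → x2 < -2 → ∃ b2 c2, InS b b2 ∧ InS c c2 ∧
      c2 * b2⁻¹ ∈ h.Supp (Ioo 1 (act b2 2)) ∧ 1 < act b2 2 ∧ (1 < μ → act b2 (-x1) = -x2) ∧
      (μ < 1 → act b2 (-x2) = -x1) := by
    intro x1 x2 h12 h23
    obtain ⟨b2, c2, i2, j2, l1, l2, l3, l4⟩ := h.reflect.stage e' hμ hb hc (x4 := -1) h12 h23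
      (by norm_num)
    simp only [rfl'] at l1 l2 l3 l4
    have l2' : ∀ t ≤ 1, act b2 t = t ∧ act c2 t = t := by
      intro t ht
      have := l2 (-t) (by linarith)
      simpa using this
    refine ⟨b2, c2, i2, j2, ?_, ?_, fun h1 => by linarith [l3 h1], fun h1 => by linarith [l4 h1]⟩
    · intro t ht
      rw [mem_Ioo, not_and_or, not_lt, not_lt] at ht
      rcases ht with ht | ht
      · rw [h.mul, h.inv_fix (l2' t ht).1, (l2' t ht).2]
      · have h1 : 2 ≤ act b2⁻¹ t := by rw [← h.le_iff b2, h.act_inv]; exact ht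
        have := l1 (-act b2⁻¹ t) (by linarith)
        rw [neg_neg, h.act_inv] at this
        rw [h.mul]; linarith
    · rw [← (l2' 1 le_rfl).1]; exact h.mono b2 one_lt_two
  rcases lt_or_gt_of_ne hμ with h1 | h1
  · obtain ⟨b2, c2, i2, j2, s2, l1, -, l2⟩ := right (-7) (-3) (by norm_num) (by norm_num)
    have l3 : act b2 3 = 7 := by simpa using l2 h1
    have e0 : act (b2 * b1) 0 = 7 := by rw [h.mul, k3', l3]
    refine h.finish (hb.mem ha) (hc.mem ha) i1 j1 i2 j2 (U := Ioo 0 7) (V := Ioi 7)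
      (fun t ht hn => lt_asymm ht.2 hn) (fun t ht => ?_) (fun t ht => ?_) s1 s2
      (α1 := 0) (β1 := 7) (α2 := 0) (β2 := 7) (by norm_num) (by norm_num) (by norm_num)
      (by norm_num) l1 ?_ subset_rfl subset_rfl
    · rw [mem_Ioi, ← e0]; exact h.mono _ ht.1
    · rw [mem_Ioi, ← e0]; exact h.mono _ (by linarith [mem_Ioi.1 ht])
    · rw [← l3]; exact h.mono _ (by norm_num)
  · obtain ⟨b2, c2, i2, j2, s2, l1, l2, -⟩ := right (-6) (-7 / 2) (by norm_num) (by norm_num)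
    have l3 : act b2 6 = 7 / 2 := by
      have := l2 h1
      rw [neg_neg] at this
      linarith
    have e0 : act (b2 * b1) 0 = act b2 3 := by rw [h.mul, k3']
    have e6 : act (b2 * b1) 6 = 7 / 2 := by rw [h.mul, (k2 6 (by norm_num)).1, l3]
    have y1 : act b2 3 < 7 / 2 := by rw [← l3]; exact h.mono _ (by norm_num)
    have y2 : act b2 2 < act b2 3 := h.mono _ (by norm_num)
    have hm : ∀ t, 0 < t → t < 6 → act (b2 * b1) t ∈ Ioo (act b2 3) (7 / 2) := by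
      intro t t0 t6
      constructor
      · rw [← e0]; exact h.mono _ t0
      · rw [← e6]; exact h.mono _ t6
    refine h.finish (hb.mem ha) (hc.mem ha) i1 j1 i2 j2
      (U := Ioo 0 (act b2 3) ∪ Ioo (7 / 2) 6) (V := Ioo (act b2 3) (7 / 2))
      (fun t ht hn => ?_) (fun t ht => ?_) (fun t ht => ?_) s1 s2
      (α1 := 7 / 2) (β1 := 6) (α2 := 0) (β2 := act b2 3) (by norm_num) (by norm_num) (by norm_num)
      (by norm_num) l1 y2 subset_union_right subset_union_left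
    · rcases ht with ht | ht
      · exact lt_asymm ht.2 hn.1
      · exact lt_asymm ht.1 hn.2
    · rcases ht with ht | ht
      · exact hm t ht.1 (by linarith [ht.2])
      · exact hm t (by linarith [ht.1]) ht.2
    · exact hm t (by linarith [ht.1]) (by linarith [ht.2])

lemma cond2 {a b c : G} (ha : a ∈ commutator G) (ha1 : a ≠ 1) (hb : InS a b) (hc : InS a c) :
    ∃ d, InS b d ∧ InS c d := by
  obtain ⟨p, l, hl, e⟩ := h.LG_exists ha1
  rcases lt_or_gt_of_ne hl with h1 | h1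
  · obtain ⟨d, d1, d2⟩ := h.cond2' (Subgroup.inv_mem _ ha) (h.LG_inv e)
      (one_lt_inv₀ (h.LG_pos e) |>.2 h1) hb.inv hc.inv
    exact ⟨d⁻¹, by simpa using d1.inv, by simpa using d2.inv⟩
  · exact h.cond2' ha e h1 hb hc

omit h in
lemma up {a x : commutator G} (e : InS a x) : InS (a : G) x := by
  induction e with
  | conj k => exact InS.conj (k : G)
  | mul _ _ a b => exact a.mul b

lemma down {a : commutator G} {x : G} (e : InS (a : G) x) :
    ∃ x' : commutator G, (x' : G) = x ∧ InS a x' := by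
  induction e with
  | conj k =>
    obtain ⟨g', hg', e⟩ := h.conj_trick k a
    exact ⟨_, e, InS.conj ⟨g', hg'⟩⟩
  | mul _ _ i1 i2 =>
    obtain ⟨x, rfl, hx⟩ := i1
    obtain ⟨y, rfl, hy⟩ := i2
    exact ⟨x * y, rfl, hx.mul hy⟩

lemma total {P0 : Set (commutator G)} (h0 : Cone P0) :
    ∃ P, Cone P ∧ P0 ⊆ P ∧ ∀ a, a ∈ P ∨ a⁻¹ ∈ P := by
  refine exists_total (fun a ha => Subtype.ext (h.cond1 (up ha))) (fun a b c ha hb hc => ?_) h0
  obtain ⟨d, d1, d2⟩ := h.cond2 a.2 (fun e => ha (Subtype.ext e)) (up hb) (up hc)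
  obtain ⟨x, rfl, hx⟩ := h.down d1
  obtain ⟨y, e, hy⟩ := h.down d2
  exact ⟨x, hx, Subtype.ext e ▸ hy⟩

end PL

end Pool.Agent.H27.ProOrd
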