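import Pool.Agent.H27.ProOrd2

set_option autoImplicit false

namespace Pool.Agent.H27.ProOrd

open Filter Topology Set

def Aff (g : ℝ → ℝ) (t : ℝ) : Prop := ∃ a, ∀ᶠ s in 𝓝[>] t, g s = g t + a * (s - t)

lemma tend' (g : ℝ ≃o ℝ) (t : ℝ) : Tendsto g (𝓝[>] t) (𝓝[>] (g t)) := by
  apply tendsto_nhdsWithin_iff.2
  refine ⟨(g.continuous.tendsto t).mono_left nhdsWithin_le_nhds, ?_⟩
  filter_upwards [self_mem_nhdsWithin] with s hs
  exact g.lt_iff_lt.2 hs

lemma aff_mul {g k : ℝ ≃o ℝ} (hg : ∀ t, Aff g t) (hk : ∀ t, Aff k t) (t : ℝ) :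
    Aff (g * k : ℝ ≃o ℝ) t := by
  obtain ⟨a, ha⟩ := hg (k t)
  obtain ⟨b, hb⟩ := hk t
  refine ⟨a * b, ?_⟩
  filter_upwards [(tend' k t).eventually ha, hb] with s h1 h2
  change g (k s) = g (k t) + _
  rw [h1, h2]; ring

lemma aff_inv {g : ℝ ≃o ℝ} (hg : ∀ t, Aff g t) (t : ℝ) : Aff (g⁻¹ : ℝ ≃o ℝ) t := by
  obtain ⟨a, ha⟩ := hg (g⁻¹ t)
  have e : ∀ s, g (g⁻¹ s) = s := g.apply_symm_apply
  have h0 := (tend' g⁻¹ t).eventually ha
  have ha0 : a ≠ 0 := by
    rintro rfl
    obtain ⟨s, e1, hs⟩ := (h0.and self_mem_nhdsWithin).exists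
    rw [e, e] at e1
    have : t < s := hs
    linarith
  refine ⟨a⁻¹, ?_⟩
  filter_upwards [h0] with s h1
  rw [e, e] at h1
  field_simp
  linarith

noncomputable def rho (g : ℝ ≃o ℝ) : ℝ ≃o ℝ where
  toFun t := -g (-t)
  invFun t := -g.symm (-t)
  left_inv t := by simp
  right_inv t := by simp
  map_rel_iff' := by simp

lemma rho_mul (g k : ℝ ≃o ℝ) : rho (g * k) = rho g * rho k := by
  ext t
  change -g (k (-t)) = -g (- -k (-t))
  rw [neg_neg]

lemma rho_inv (g : ℝ ≃o ℝ) : rho g⁻¹ = (rho g)⁻¹ := rfl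

def Gam : Subgroup (ℝ ≃o ℝ) where
  carrier := {g | (∃ R, ∀ t, t ≤ -R ∨ R ≤ t → g t = t) ∧ (∀ t, Aff g t) ∧ ∀ t, Aff (rho g) t}
  one_mem' := ⟨⟨0, fun _ _ => rfl⟩, fun t => ⟨1, Eventually.of_forall fun s => by simp⟩,
    fun t => ⟨1, Eventually.of_forall fun s => by
      change -(-s) = -(-t) + _
      ring⟩⟩
  mul_mem' := fun {a b} ha hb => by
    refine ⟨?_, aff_mul ha.2.1 hb.2.1, ?_⟩
    · obtain ⟨R1, h1⟩ := ha.1
      obtain ⟨R2, h2⟩ := hb.1
      refine ⟨max R1 R2, fun t ht => ?_⟩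
      change a (b t) = t
      have := le_max_left R1 R2
      have := le_max_right R1 R2
      rw [h2 t (by rcases ht with ht | ht; left; linarith; right; linarith),
        h1 t (by rcases ht with ht | ht; left; linarith; right; linarith)]
    · rw [rho_mul]; exact aff_mul ha.2.2 hb.2.2
  inv_mem' := fun {a} ha => by
    refine ⟨?_, aff_inv ha.2.1, ?_⟩
    · obtain ⟨R1, h1⟩ := ha.1
      refine ⟨R1, fun t ht => ?_⟩
      change a.symm t = t
      rw [OrderIso.symm_apply_eq, h1 t ht]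
    · rw [rho_inv]; exact aff_inv ha.2.2

lemma aff_pieces {F : ℝ → ℝ} {a x b k1 c1 k2 c2 : ℝ} (h1 : ∀ s ≤ a, F s = s)
    (h2 : ∀ s, a ≤ s → s ≤ x → F s = c1 + k1 * s) (h3 : ∀ s, x ≤ s → s ≤ b → F s = c2 + k2 * s)
    (h4 : ∀ s, b ≤ s → F s = s) (t : ℝ) : Aff F t := by
  by_cases c1 : t < a
  · refine ⟨1, ?_⟩
    filter_upwards [Ioo_mem_nhdsGT c1] with s hs
    rw [h1 s hs.2.le, h1 t c1.le]; ring
  by_cases c2 : t < x
  · refine ⟨k1, ?_⟩
    filter_upwards [Ioo_mem_nhdsGT c2] with s hs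
    rw [h2 s (by linarith [hs.1]) hs.2.le, h2 t (by linarith) c2.le]; ring
  by_cases c3 : t < b
  · refine ⟨k2, ?_⟩
    filter_upwards [Ioo_mem_nhdsGT c3] with s hs
    rw [h3 s (by linarith [hs.1]) hs.2.le, h3 t (by linarith) c3.le]; ring
  · refine ⟨1, ?_⟩
    filter_upwards [self_mem_nhdsWithin] with s hs
    have : t < s := hs
    rw [h4 s (by linarith), h4 t (by linarith)]; ring

lemma exists_bump (a b x y : ℝ) (h1 : a < x) (h2 : x < b) (h3 : a < y) (h4 : y < b) :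
    ∃ g : Gam, g.1 x = y ∧ ∀ t, t ≤ a ∨ b ≤ t → g.1 t = t := by
  obtain ⟨k1, p1, e1⟩ : ∃ k, 0 < k ∧ k * (x - a) = y - a :=
    ⟨(y - a) / (x - a), div_pos (by linarith) (by linarith), div_mul_cancel₀ _ (by linarith)⟩
  obtain ⟨k2, p2, e2⟩ : ∃ k, 0 < k ∧ k * (b - x) = b - y :=
    ⟨(b - y) / (b - x), div_pos (by linarith) (by linarith), div_mul_cancel₀ _ (by linarith)⟩
  let F : ℝ → ℝ := fun t => if t ≤ a then t else if t ≤ x then (a - k1 * a) + k1 * t
    else if t ≤ b then (b - k2 * b) + k2 * t else t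
  have f1 : ∀ s ≤ a, F s = s := fun s hs => if_pos hs
  have f2 : ∀ s, a ≤ s → s ≤ x → F s = (a - k1 * a) + k1 * s := by
    intro s s1 s2
    by_cases c : s ≤ a
    · rw [f1 s c, le_antisymm c s1]; ring
    · simp only [F, if_neg c, if_pos s2]
  have f3 : ∀ s, x ≤ s → s ≤ b → F s = (b - k2 * b) + k2 * s := by
    intro s s1 s2
    by_cases c : s ≤ x
    · rw [f2 s (by linarith) c, le_antisymm c s1]; linarith
    · have c' : ¬ s ≤ a := by linarith
      simp only [F, if_neg c, if_neg c', if_pos s2]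
  have f4 : ∀ s, b ≤ s → F s = s := by
    intro s s1
    by_cases c : s ≤ b
    · rw [f3 s (by linarith) c, le_antisymm c s1]; ring
    · have c' : ¬ s ≤ a := by linarith
      have c'' : ¬ s ≤ x := by linarith
      simp only [F, if_neg c, if_neg c', if_neg c'']
  have hm : StrictMono F := by
    have m1 : StrictMonoOn F (Iic a) := fun s hs t ht hst => by rw [f1 s hs, f1 t ht]; exact hst
    have m2 : StrictMonoOn F (Icc a x) := fun s hs t ht hst => by
      rw [f2 s hs.1 hs.2, f2 t ht.1 ht.2]; nlinarith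
    have m3 : StrictMonoOn F (Icc x b) := fun s hs t ht hst => by
      rw [f3 s hs.1 hs.2, f3 t ht.1 ht.2]; nlinarith
    have m4 : StrictMonoOn F (Ici b) := fun s hs t ht hst => by rw [f4 s hs, f4 t ht]; exact hst
    have m5 := m3.union m4 (isGreatest_Icc h2.le) isLeast_Ici
    rw [Icc_union_Ici_eq_Ici h2.le] at m5
    have m6 := m2.union m5 (isGreatest_Icc h1.le) isLeast_Ici
    rw [Icc_union_Ici_eq_Ici h1.le] at m6
    exact m1.Iic_union_Ici m6
  have hs : Function.Surjective F := by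
    intro s
    by_cases c1 : s ≤ a
    · exact ⟨s, f1 s c1⟩
    by_cases c2 : s ≤ y
    · have q : k1 * ((s - a) / k1) = s - a := mul_div_cancel₀ _ p1.ne'
      refine ⟨a + (s - a) / k1, ?_⟩
      rw [f2]
      · linarith
      · nlinarith
      · nlinarith
    by_cases c3 : s ≤ b
    · have q : k2 * ((s - b) / k2) = s - b := mul_div_cancel₀ _ p2.ne'
      refine ⟨b + (s - b) / k2, ?_⟩
      rw [f3]
      · linarith
      · nlinarith
      · nlinarith
    · exact ⟨s, f4 s (by linarith)⟩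
  refine ⟨⟨hm.orderIsoOfSurjective F hs, ⟨max (-a) b, fun t ht => ?_⟩, aff_pieces f1 f2 f3 f4, ?_⟩,
    ?_, fun t ht => ?_⟩
  · have := le_max_left (-a) b
    have := le_max_right (-a) b
    rcases ht with ht | ht
    · exact f1 t (by linarith)
    · exact f4 t (by linarith)
  · refine aff_pieces (F := fun t => -F (-t)) (a := -b) (x := -x) (b := -a) (k1 := k2) (k2 := k1)
      (c1 := -(b - k2 * b)) (c2 := -(a - k1 * a)) (fun s hs => ?_) (fun s s1 s2 => ?_)
      (fun s s1 s2 => ?_) (fun s hs => ?_)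
    · rw [f4 _ (by linarith), neg_neg]
    · rw [f3 _ (by linarith) (by linarith)]; ring
    · rw [f2 _ (by linarith) (by linarith)]; ring
    · rw [f1 _ (by linarith), neg_neg]
  · change F x = y
    rw [f2 x h1.le le_rfl]; linarith
  · rcases ht with ht | ht
    · exact f1 t ht
    · exact f4 t ht

lemma pl_Gam : PL (fun (g : Gam) t => g.1 t) where
  one _ := rfl
  mul _ _ _ := rfl
  mono g := g.1.strictMono
  ext _ _ e := Subtype.ext (OrderIso.ext (funext e))
  bdd g := g.2.1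
  bump := exists_bump
  raff g := g.2.2.1
  laff g := g.2.2.2

universe u

theorem main : ∃ (G : Type u) (_ : Group G), IsSimpleGroup G ∧
    ∀ r : G → G → Prop, IsPartialOrder G r →
      ((∀ g a b, r a b → r (g * a) (g * b)) ∧ (∀ g a b, r a b → r (a * g) (b * g))) →
      ∃ s : G → G → Prop, IsLinearOrder G s ∧
        ((∀ g a b, s a b → s (g * a) (g * b)) ∧ (∀ g a b, s a b → s (a * g) (b * g))) ∧
        ∀ x y, r x y → s x y := by
  haveI := pl_Gam.simple
  refine ⟨ULift.{u} (commutator Gam), inferInstance, MulEquiv.ulift.isSimpleGroup,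
    fun r hr hb => ?_⟩
  have h0 : Cone {x : commutator Gam | r 1 ⟨x⟩} := by
    refine ⟨hr.refl _, fun x hx y hy => ?_, fun x hx g => ?_, fun x hx hy => ?_⟩
    · have := hb.1 ⟨x⟩ _ _ hy
      rw [mul_one] at this
      exact hr.trans _ _ _ hx this
    · have := hb.2 ⟨g⁻¹⟩ _ _ (hb.1 ⟨g⟩ _ _ hx)
      rwa [show (⟨g⟩ : ULift.{u} (commutator Gam)) * 1 * ⟨g⁻¹⟩ = 1 from
        ULift.ext _ _ (by change g * 1 * g⁻¹ = 1; group)] at this
    · have := hb.1 ⟨x⟩ _ _ hy
      rw [mul_one, show (⟨x⟩ : ULift.{u} (commutator Gam)) * ⟨x⁻¹⟩ = 1 from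
        ULift.ext _ _ (by change x * x⁻¹ = 1; group)] at this
      exact congrArg ULift.down (hr.antisymm _ _ this hx)
  obtain ⟨P, hP, hle, ht⟩ := pl_Gam.total h0
  refine ⟨fun x y => x.down⁻¹ * y.down ∈ P, ?_, ⟨fun g a b h => ?_, fun g a b h => ?_⟩,
    fun x y h => hle ?_⟩
  · exact
      { refl := fun a => by simpa using hP.one
        trans := fun a b c h1 h2 => by simpa [mul_assoc] using hP.mul _ h1 _ h2
        antisymm := fun a b h1 h2 => ULift.ext _ _
          (inv_mul_eq_one.1 (hP.pure _ h1 (by simpa using h2)))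
        total := fun a b => by simpa using ht (a.down⁻¹ * b.down) }
  · change (g.down * a.down)⁻¹ * (g.down * b.down) ∈ P
    simpa [mul_assoc] using h
  · change (a.down * g.down)⁻¹ * (b.down * g.down) ∈ P
    simpa [mul_assoc] using hP.conj _ h g.down⁻¹
  · have := hb.1 x⁻¹ _ _ h
    rwa [inv_mul_cancel] at this

end Pool.Agent.H27.ProOrd
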