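import Mathlib

namespace Pool.Agent.H27.QC
open Finset

/-- abstract local ring at a primitive `n`-th root of unity inside a field of rational functions -/
structure Loc (K : Type*) [Field K] [CharZero K] where
  O : Subring K
  q : K
  n : ℕ
  hq : q ∈ O
  hqi : q⁻¹ ∈ O
  q0 : q ≠ 0
  rat : ∀ r : ℚ, (r : K) ∈ O
  unit : ∀ j : ℕ, ¬ n ∣ j → (1 - q ^ j)⁻¹ ∈ O
  ne : ∀ j : ℕ, 0 < j → 1 - q ^ j ≠ 0
  loc : ∀ c ∈ O, (1 + (q ^ n - 1) * c)⁻¹ ∈ O ∧ 1 + (q ^ n - 1) * c ≠ 0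

namespace Loc
variable {K : Type*} [Field K] [CharZero K] (L : Loc K)

def e : K := L.q ^ L.n - 1
def U (x : K) : Prop := x ∈ L.O ∧ x⁻¹ ∈ L.O ∧ x ≠ 0
def E (k : ℕ) (x y : K) : Prop := ∃ c ∈ L.O, x - y = L.e ^ k * c

theorem e_mem : L.e ∈ L.O := sub_mem (pow_mem L.hq _) (one_mem _)
theorem nat_mem (a : ℕ) : (a : K) ∈ L.O := natCast_mem _ a
theorem int_mem (a : ℤ) : (a : K) ∈ L.O := intCast_mem _ a
theorem qp (j : ℕ) : L.q ^ j ∈ L.O := pow_mem L.hq j

variable {L}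

theorem U.mul {x y : K} (h : L.U x) (h' : L.U y) : L.U (x * y) :=
  ⟨mul_mem h.1 h'.1, by rw [mul_inv]; exact mul_mem h.2.1 h'.2.1, mul_ne_zero h.2.2 h'.2.2⟩
theorem U.inv {x : K} (h : L.U x) : L.U x⁻¹ := ⟨h.2.1, by rw [inv_inv]; exact h.1, inv_ne_zero h.2.2⟩
theorem U.div {x y : K} (h : L.U x) (h' : L.U y) : L.U (x / y) := by
  rw [div_eq_mul_inv]; exact h.mul h'.inv
theorem U.one : L.U 1 := ⟨one_mem _, by rw [inv_one]; exact one_mem _, one_ne_zero⟩
theorem U.neg {x : K} (h : L.U x) : L.U (-x) :=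
  ⟨neg_mem h.1, by rw [inv_neg]; exact neg_mem h.2.1, neg_ne_zero.mpr h.2.2⟩
theorem U.pow {x : K} (h : L.U x) (k : ℕ) : L.U (x ^ k) :=
  ⟨pow_mem h.1 k, by rw [← inv_pow]; exact pow_mem h.2.1 k, pow_ne_zero k h.2.2⟩
theorem U.prod {ι : Type*} (s : Finset ι) (f : ι → K) (h : ∀ i ∈ s, L.U (f i)) :
    L.U (∏ i ∈ s, f i) := Finset.prod_induction f L.U (fun _ _ => U.mul) U.one h
theorem U.q : L.U L.q := ⟨L.hq, L.hqi, L.q0⟩
theorem U.rat {r : ℚ} (h : r ≠ 0) : L.U (r : K) :=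
  ⟨L.rat r, by rw [← Rat.cast_inv]; exact L.rat _, by exact_mod_cast h⟩
theorem U.nat {a : ℕ} (h : a ≠ 0) : L.U (a : K) := by
  simpa using U.rat (L := L) (r := a) (by exact_mod_cast h)
theorem U.sub {j : ℕ} (h : ¬ L.n ∣ j) : L.U (1 - L.q ^ j) :=
  ⟨sub_mem (one_mem _) (L.qp j), L.unit j h,
    L.ne j (Nat.pos_of_ne_zero fun h0 => h (h0 ▸ dvd_zero _))⟩
theorem div_mem' {x y : K} (h : x ∈ L.O) (h' : L.U y) : x / y ∈ L.O := by
  rw [div_eq_mul_inv]; exact mul_mem h h'.2.1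

variable {k : ℕ} {x y z x' y' : K}

theorem E.of_eq (h : x = y) : L.E k x y := ⟨0, zero_mem _, by simp [h]⟩
theorem E.refl (x : K) : L.E k x x := E.of_eq rfl
theorem E.symm (h : L.E k x y) : L.E k y x := by
  obtain ⟨c, hc, h⟩ := h
  exact ⟨-c, neg_mem hc, by linear_combination -h⟩
theorem E.add (h : L.E k x y) (h' : L.E k x' y') : L.E k (x + x') (y + y') := by
  obtain ⟨c, hc, h⟩ := h
  obtain ⟨c', hc', h'⟩ := h'
  exact ⟨c + c', add_mem hc hc', by linear_combination h + h'⟩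
theorem E.neg (h : L.E k x y) : L.E k (-x) (-y) := by
  obtain ⟨c, hc, h⟩ := h
  exact ⟨-c, neg_mem hc, by linear_combination -h⟩
theorem E.sub (h : L.E k x y) (h' : L.E k x' y') : L.E k (x - x') (y - y') := by
  rw [sub_eq_add_neg, sub_eq_add_neg]; exact h.add h'.neg
/-- transfer along an equality of differences -/
theorem E.of_sub (h : L.E k x y) (e : x' - y' = x - y) : L.E k x' y' := by
  obtain ⟨c, hc, h⟩ := h
  exact ⟨c, hc, e.trans h⟩
theorem E.trans (h : L.E k x y) (h' : L.E k y z) : L.E k x z := (h.add h').of_sub (by ring)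
theorem E.mem (h : L.E k x y) (hy : y ∈ L.O) : x ∈ L.O := by
  obtain ⟨c, hc, h⟩ := h
  rw [show x = y + L.e ^ k * c by linear_combination h]
  exact add_mem hy (mul_mem (pow_mem L.e_mem k) hc)
theorem E.smul (h : L.E k x y) (hz : z ∈ L.O) : L.E k (z * x) (z * y) := by
  obtain ⟨c, hc, h⟩ := h
  exact ⟨z * c, mul_mem hz hc, by linear_combination z * h⟩
theorem E.mul (h : L.E k x y) (h' : L.E k x' y') (hy : y ∈ L.O) (hy' : y' ∈ L.O) :
    L.E k (x * x') (y * y') :=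
  ((h.smul (h'.mem hy')).add (h'.smul hy)).of_sub (by ring)
theorem E.mono {l : ℕ} (h : L.E k x y) (hl : l ≤ k) : L.E l x y := by
  obtain ⟨c, hc, h⟩ := h
  obtain ⟨j, rfl⟩ := Nat.exists_eq_add_of_le hl
  exact ⟨L.e ^ j * c, mul_mem (pow_mem L.e_mem j) hc, by rw [h]; ring⟩
theorem E.mul_zero {l : ℕ} (h : L.E k x y) (h' : L.E l z 0) : L.E (k + l) (x * z) (y * z) := by
  obtain ⟨c, hc, h⟩ := h
  obtain ⟨c', hc', h'⟩ := h'
  exact ⟨c * c', mul_mem hc hc', by linear_combination z * h + L.e ^ k * c * h'⟩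
theorem E.e_zero {c : K} (hc : c ∈ L.O) : L.E 1 (L.e * c) 0 := ⟨c, hc, by ring⟩
theorem E.e_mul (h : L.E k x y) : L.E (k + 1) (L.e * x) (L.e * y) :=
  (h.mul_zero (E.e_zero (one_mem _))).of_sub (by ring)
theorem E.sq {c : K} (hc : c ∈ L.O) : L.E 2 (L.e ^ 2 * c) 0 := ⟨c, hc, by ring⟩
theorem E.sum {ι : Type*} (s : Finset ι) {f g : ι → K} (h : ∀ i ∈ s, L.E k (f i) (g i)) :
    L.E k (∑ i ∈ s, f i) (∑ i ∈ s, g i) := by
  classical
  induction s using Finset.induction_on with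
  | empty => exact E.refl _
  | insert a s ha ih =>
    rw [Finset.sum_insert ha, Finset.sum_insert ha]
    exact (h a (by simp)).add (ih fun i hi => h i (by simp [hi]))
theorem E.prod {ι : Type*} (s : Finset ι) {f g : ι → K} (h : ∀ i ∈ s, L.E k (f i) (g i))
    (hg : ∀ i ∈ s, g i ∈ L.O) : L.E k (∏ i ∈ s, f i) (∏ i ∈ s, g i) := by
  classical
  induction s using Finset.induction_on with
  | empty => exact E.refl _
  | insert a s ha ih =>
    rw [Finset.prod_insert ha, Finset.prod_insert ha]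
    exact (h a (by simp)).mul (ih (fun i hi => h i (by simp [hi])) fun i hi => hg i (by simp [hi]))
      (hg a (by simp)) (prod_mem fun i hi => hg i (by simp [hi]))
theorem E.pow (h : L.E k x y) (hy : y ∈ L.O) (j : ℕ) : L.E k (x ^ j) (y ^ j) := by
  have := E.prod (range j) (f := fun _ => x) (g := fun _ => y) (fun _ _ => h) fun _ _ => hy
  simpa using this
theorem E.unit (h : L.E (k + 1) x y) (hy : L.U y) : L.U x := by
  obtain ⟨c, hc, h⟩ := h
  have := L.loc (L.e ^ k * c * y⁻¹) (mul_mem (mul_mem (pow_mem L.e_mem k) hc) hy.2.1)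
  have e : x = y * (1 + (L.q ^ L.n - 1) * (L.e ^ k * c * y⁻¹)) := by
    have := hy.2.2
    change x = y * (1 + L.e * _)
    field_simp
    linear_combination h
  rw [e]
  exact hy.mul ⟨add_mem (one_mem _) (mul_mem L.e_mem
    (mul_mem (mul_mem (pow_mem L.e_mem k) hc) hy.2.1)), this.1, this.2⟩
theorem E.inv (h : L.E (k + 1) x y) (hy : L.U y) : L.E (k + 1) x⁻¹ y⁻¹ := by
  have hx := h.unit hy
  refine (h.smul (neg_mem (mul_mem hx.2.1 hy.2.1))).of_sub ?_
  have := hx.2.2; have := hy.2.2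
  field_simp; ring
theorem E.div (h : L.E (k + 1) x y) (h' : L.E (k + 1) x' y') (hy : y ∈ L.O) (hy' : L.U y') :
    L.E (k + 1) (x / x') (y / y') := by
  rw [div_eq_mul_inv, div_eq_mul_inv]; exact h.mul (h'.inv hy') hy hy'.2.1
theorem E.cancel (h : L.E k (z * x) (z * y)) (hz : L.U z) : L.E k x y := by
  refine (h.smul hz.2.1).of_sub ?_
  have := hz.2.2
  field_simp

theorem qn_pow (a : ℕ) : L.E 2 ((L.q ^ L.n) ^ a) (1 + L.e * a) := by
  induction a with
  | zero => exact E.of_eq (by simp)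
  | succ a ih =>
    refine ((ih.smul (L.qp L.n)).add (E.sq (L.nat_mem a))).of_sub ?_
    unfold e; push_cast; ring

theorem qn_one (a : ℕ) : L.E 1 ((L.q ^ L.n) ^ a) 1 :=
  (((qn_pow a).mono (by norm_num)).add (E.e_zero (L.nat_mem a))).of_sub (by ring)

theorem near {c : K} (hc : c ∈ L.O) (h : L.E 2 y (1 + L.e * c)) : L.E 1 y 1 :=
  ((h.mono (by norm_num)).add (E.e_zero hc)).of_sub (by ring)

theorem near_inv {c : K} (hc : c ∈ L.O) (h : L.E 2 y (1 + L.e * c)) :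
    L.E 2 y⁻¹ (1 + L.e * (-c)) := by
  have hy := (near hc h).unit U.one
  refine E.cancel ?_ hy
  refine ((h.symm.smul (add_mem (one_mem _) (mul_mem L.e_mem (neg_mem hc)))).add
    (E.sq (mul_mem hc hc))).of_sub ?_
  have := hy.2.2
  field_simp; ring

theorem near_mul {c c' : K} (hc : c ∈ L.O) (hc' : c' ∈ L.O) (h : L.E 2 x (1 + L.e * c))
    (h' : L.E 2 y (1 + L.e * c')) : L.E 2 (x * y) (1 + L.e * (c + c')) :=
  ((h.mul h' (add_mem (one_mem _) (mul_mem L.e_mem hc))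
    (add_mem (one_mem _) (mul_mem L.e_mem hc'))).add (E.sq (mul_mem hc hc'))).of_sub (by ring)

/-- `(1 - Q ^ a) / (1 - Q ^ b)` is close to `a / b`, `Q = q ^ n` -/
theorem ratio (hn : 0 < L.n) (a b : ℕ) (hb : b ≠ 0) :
    L.E 2 ((1 - (L.q ^ L.n) ^ a) / (1 - (L.q ^ L.n) ^ b))
      (a / b * (1 + L.e * ((a - b) / 2))) := by
  have key : ∀ a : ℕ, L.E 2 (∑ i ∈ range a, (L.q ^ L.n) ^ i) (a * (1 + L.e * ((a - 1) / 2))) := by
    intro a
    induction a with
    | zero => exact E.of_eq (by simp)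
    | succ a ih =>
      rw [Finset.sum_range_succ]
      refine (ih.add (qn_pow a)).of_sub ?_
      push_cast; ring
  have he : 1 - L.q ^ L.n ≠ 0 := L.ne _ hn
  have h2 : ∀ a : ℕ, ((a : K) - 1) / 2 ∈ L.O := fun a => by
    have := L.rat ((a - 1) / 2); push_cast at this; exact this
  have hU : L.U (1 + L.e * (((b : K) - 1) / 2)) := (near (h2 b) (E.refl _)).unit U.one
  have := (key a).div (key b) (mul_mem (L.nat_mem a) (add_mem (one_mem _) (mul_mem L.e_mem (h2 a))))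
    ((U.nat hb).mul hU)
  have h3 := (near_mul (h2 a) (neg_mem (h2 b)) (E.refl _) (near_inv (h2 b) (E.refl _))).smul
    (div_mem' (L.nat_mem a) (U.nat hb))
  refine (this.add h3).of_sub ?_
  rw [← mul_neg_geom_sum (L.q ^ L.n) a, ← mul_neg_geom_sum (L.q ^ L.n) b, mul_div_mul_left _ _ he,
    mul_div_mul_comm, div_eq_mul_inv (1 + L.e * (((a : K) - 1) / 2))]
  ring

variable (L) in
/-- first order Taylor expansion at `1` -/
def TG (f : K → K) : Prop := f 1 ∈ L.O ∧ ∃ D ∈ L.O, ∀ y, ∀ c ∈ L.O,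
  L.E 2 y (1 + L.e * c) → L.E 2 (f y) (f 1 + L.e * c * D)

variable {f g : K → K}

theorem TG.const (hx : x ∈ L.O) : L.TG fun _ => x :=
  ⟨hx, 0, zero_mem _, fun _ _ _ _ => E.of_eq (by simp)⟩
theorem TG.id : L.TG fun y => y := ⟨one_mem _, 1, one_mem _, fun _ _ _ h => by simpa using h⟩
theorem TG.add (h : L.TG f) (h' : L.TG g) : L.TG fun y => f y + g y := by
  obtain ⟨h1, D, hD, h⟩ := h
  obtain ⟨h1', D', hD', h'⟩ := h'
  exact ⟨add_mem h1 h1', D + D', add_mem hD hD', fun y c hc hy =>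
    ((h y c hc hy).add (h' y c hc hy)).of_sub (by ring)⟩
theorem TG.mul (h : L.TG f) (h' : L.TG g) : L.TG fun y => f y * g y := by
  obtain ⟨h1, D, hD, h⟩ := h
  obtain ⟨h1', D', hD', h'⟩ := h'
  exact ⟨mul_mem h1 h1', D * g 1 + f 1 * D', add_mem (mul_mem hD h1') (mul_mem h1 hD'),
    fun y c hc hy => (((h y c hc hy).mul (h' y c hc hy)
      (add_mem h1 (mul_mem (mul_mem L.e_mem hc) hD))
      (add_mem h1' (mul_mem (mul_mem L.e_mem hc) hD'))).add
        (E.sq (mul_mem (mul_mem hc hc) (mul_mem hD hD')))).of_sub (by ring)⟩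
theorem TG.neg (h : L.TG f) : L.TG fun y => -f y := by
  simpa using (TG.const (neg_mem (one_mem L.O))).mul h
theorem TG.sub (h : L.TG f) (h' : L.TG g) : L.TG fun y => f y - g y := by
  simpa [sub_eq_add_neg] using h.add h'.neg
theorem TG.inv (h : L.TG f) (hu : L.U (f 1)) : L.TG fun y => (f y)⁻¹ := by
  obtain ⟨h1, D, hD, h⟩ := h
  refine ⟨hu.2.1, -(D * (f 1)⁻¹ * (f 1)⁻¹), neg_mem (mul_mem (mul_mem hD hu.2.1) hu.2.1),
    fun y c hc hy => ?_⟩
  have h0 := hu.2.2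
  have h2 : L.E 2 ((f 1)⁻¹ * f y) (1 + L.e * (c * D * (f 1)⁻¹)) :=
    ((h y c hc hy).smul hu.2.1).of_sub (by field_simp)
  refine ((near_inv (mul_mem (mul_mem hc hD) hu.2.1) h2).smul hu.2.1).of_sub ?_
  rw [mul_inv, inv_inv, ← mul_assoc, inv_mul_cancel₀ h0]; ring
theorem TG.div (h : L.TG f) (h' : L.TG g) (hu : L.U (g 1)) : L.TG fun y => f y / g y := by
  simpa [div_eq_mul_inv] using h.mul (h'.inv hu)
theorem TG.sum {ι : Type*} (s : Finset ι) {f : ι → K → K} (h : ∀ i ∈ s, L.TG (f i)) :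
    L.TG fun y => ∑ i ∈ s, f i y := by
  classical
  induction s using Finset.induction_on with
  | empty => simpa using TG.const (zero_mem L.O)
  | insert a s ha ih =>
    simpa [Finset.sum_insert ha] using (h a (by simp)).add (ih fun i hi => h i (by simp [hi]))
theorem TG.prod {ι : Type*} (s : Finset ι) {f : ι → K → K} (h : ∀ i ∈ s, L.TG (f i)) :
    L.TG fun y => ∏ i ∈ s, f i y := by
  classical
  induction s using Finset.induction_on with
  | empty => simpa using TG.const (one_mem L.O)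
  | insert a s ha ih =>
    simpa [Finset.prod_insert ha] using (h a (by simp)).mul (ih fun i hi => h i (by simp [hi]))
theorem TG.pow (h : L.TG f) (j : ℕ) : L.TG fun y => f y ^ j := by
  simpa using TG.prod (range j) (f := fun _ => f) fun _ _ => h
theorem TG.near (h : L.TG f) {c : K} (hc : c ∈ L.O) (hy : L.E 2 y (1 + L.e * c)) :
    L.E 1 (f y) (f 1) := by
  obtain ⟨_, D, hD, h⟩ := h
  exact (((h y c hc hy).mono (by norm_num)).add (E.e_zero (mul_mem hc hD))).of_sub (by ring)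
theorem TG.lin {j : ℕ} : L.TG fun y => 1 - y * L.q ^ j :=
  (TG.const (one_mem _)).sub (TG.id.mul (TG.const (L.qp j)))

end Loc

open Polynomial

theorem cyc_not_dvd {n j : ℕ} (hn : 0 < n) (h : ¬ n ∣ j) :
    ¬ cyclotomic n ℚ ∣ (1 - X ^ j : ℚ[X]) := by
  rintro ⟨c, hc⟩
  have hz := Complex.isPrimitiveRoot_exp n hn.ne'
  have h1 := hz.isRoot_cyclotomic hn
  have h2 := congrArg (aeval (Complex.exp (2 * Real.pi * Complex.I / n))) hc
  rw [map_mul, aeval_def _ (cyclotomic n ℚ), ← eval_map, map_cyclotomic, h1.eq_zero] at h2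
  simp only [map_sub, map_one, map_pow, aeval_X, zero_mul] at h2
  exact h ((hz.pow_eq_one_iff_dvd j).mp (by linear_combination -h2))

/-- rational functions whose denominator is prime to the `n`-th cyclotomic polynomial -/
def cycO (n : ℕ) : Subring (RatFunc ℚ) where
  carrier := {F | ∃ P Q : ℚ[X], IsCoprime Q (cyclotomic n ℚ) ∧
    F * algebraMap _ _ Q = algebraMap _ _ P}
  mul_mem' := by
    rintro F G ⟨P, Q, h, e⟩ ⟨P', Q', h', e'⟩
    exact ⟨P * P', Q * Q', h.mul_left h', by rw [map_mul, map_mul, ← e, ← e']; ring⟩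
  one_mem' := ⟨1, 1, isCoprime_one_left, by simp⟩
  add_mem' := by
    rintro F G ⟨P, Q, h, e⟩ ⟨P', Q', h', e'⟩
    exact ⟨P * Q' + P' * Q, Q * Q', h.mul_left h', by
      rw [map_add, map_mul, map_mul, map_mul, ← e, ← e']; ring⟩
  zero_mem' := ⟨0, 1, isCoprime_one_left, by simp⟩
  neg_mem' := by
    rintro F ⟨P, Q, h, e⟩
    exact ⟨-P, Q, h, by rw [map_neg, ← e]; ring⟩

theorem cyc_ne {n : ℕ} (hn : 0 < n) {Q : ℚ[X]} (h : IsCoprime Q (cyclotomic n ℚ)) : Q ≠ 0 := by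
  rintro rfl
  exact (cyclotomic.irreducible_rat hn).not_isUnit (isCoprime_zero_left.mp h)

theorem cyc_inv {n : ℕ} (hn : 0 < n) {Q : ℚ[X]} (h : ¬ cyclotomic n ℚ ∣ Q) :
    (algebraMap ℚ[X] (RatFunc ℚ) Q)⁻¹ ∈ cycO n := by
  have hc := ((cyclotomic.irreducible_rat hn).coprime_iff_not_dvd.mpr h).symm
  exact ⟨1, Q, hc, by rw [inv_mul_cancel₀ (RatFunc.algebraMap_ne_zero (cyc_ne hn hc)), map_one]⟩

noncomputable def cycL (n : ℕ) (hn : 0 < n) : Loc (RatFunc ℚ) where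
  O := cycO n
  q := RatFunc.X
  n := n
  hq := ⟨X, 1, isCoprime_one_left, by simp⟩
  hqi := by
    refine cyc_inv hn (Q := X) fun h => ?_
    have h1 := (h.trans (dvd_pow_self X hn.ne'))
    have h2 := dvd_sub h1 (cyclotomic.dvd_X_pow_sub_one n ℚ)
    exact (cyclotomic.irreducible_rat hn).not_isUnit (isUnit_of_dvd_one (by simpa using h2))
  q0 := RatFunc.X_ne_zero
  rat := fun r => ⟨C r, 1, isCoprime_one_left, by
    rw [map_one, mul_one, RatFunc.algebraMap_C, ← RatFunc.algebraMap_eq_C, eq_ratCast]⟩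
  unit := fun j hj => by simpa using cyc_inv hn (cyc_not_dvd hn hj)
  ne := fun j hj h => by
    have : (1 - X ^ j : ℚ[X]) ≠ 0 := fun h => by
      have := congrArg (eval 0) h
      simp [hj.ne'] at this
    exact RatFunc.algebraMap_ne_zero this (by simpa using h)
  loc := by
    rintro c ⟨P, Q, h, e⟩
    have hQ := RatFunc.algebraMap_ne_zero (K := ℚ) (cyc_ne hn h)
    obtain ⟨d, hd⟩ := cyclotomic.dvd_X_pow_sub_one n ℚ
    have hc : IsCoprime (Q + cyclotomic n ℚ * (d * P)) (cyclotomic n ℚ) := h.add_mul_left_left _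
    have e2 : (1 + (RatFunc.X ^ n - 1) * c) * algebraMap _ _ Q
        = algebraMap ℚ[X] (RatFunc ℚ) (Q + cyclotomic n ℚ * (d * P)) := by
      rw [← mul_assoc, ← hd]; simp only [map_add, map_mul, map_sub, map_pow, map_one, ← e]
      simp; ring
    have hne := RatFunc.algebraMap_ne_zero (K := ℚ) (cyc_ne hn hc)
    have h0 : 1 + (RatFunc.X ^ n - 1) * c ≠ 0 := fun h0 => hne (by rw [← e2, h0, zero_mul])
    exact ⟨⟨Q, _, hc, by rw [← e2, inv_mul_cancel_left₀ h0]⟩, h0⟩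

theorem cyc_out {n k : ℕ} (hn : 0 < n) {F G : RatFunc ℚ} (h : (cycL n hn).E k F G) :
    ∃ A B : ℚ[X], IsCoprime B (cyclotomic n ℚ) ∧
      F - G = algebraMap _ _ (cyclotomic n ℚ ^ k * A) / algebraMap _ _ B := by
  obtain ⟨c, ⟨P, Q, h, e⟩, h'⟩ := h
  obtain ⟨d, hd⟩ := cyclotomic.dvd_X_pow_sub_one n ℚ
  refine ⟨d ^ k * P, Q, h, ?_⟩
  rw [eq_div_iff (RatFunc.algebraMap_ne_zero (cyc_ne hn h)), h', mul_assoc, e, ← mul_assoc,
    ← mul_pow, ← hd]
  simp [Loc.e, cycL]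

theorem cyc_out' {n k : ℕ} (hn : 0 < n) {F G : RatFunc ℚ} (h : (cycL n hn).E k F G) :
    cyclotomic n ℚ ^ k ∣ (F - G).num ∧ IsCoprime (F - G).denom (cyclotomic n ℚ ^ k) := by
  obtain ⟨A, B, hB, e⟩ := cyc_out hn h
  rw [← RatFunc.num_mul_eq_mul_denom_iff (cyc_ne hn hB)] at e
  constructor
  · exact (hB.symm.pow_left).dvd_of_dvd_mul_right ⟨A * (F - G).denom, by rw [e]; ring⟩
  · have : (F - G).denom ∣ B :=
      (RatFunc.isCoprime_num_denom _).symm.dvd_of_dvd_mul_left ⟨_, by rw [e, mul_comm]⟩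
    exact (hB.of_isCoprime_of_dvd_left this).pow_right

end Pool.Agent.H27.QC
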