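import Pool.Agent.H27.QC

namespace Pool.Agent.H27.QD
open Finset Pool.Agent.H27.QC Pool.Agent.H27.QC.Loc

section field
variable {K : Type*} [Field K]

def uu (a b e p w : K) (k : ℕ) : K := ∏ i ∈ range k,
  (1 - a * p ^ i) * (1 - b * p ^ i) * (e - p ^ i) * (1 - p ^ i / w) * (a * p * w / b) /
    ((1 - p * p ^ i) * (1 - a * (p * p ^ i) / b) * (1 - a * e * (p * p ^ i))
      * (1 - a * w * (p * p ^ i)))

theorem uu_shift (a b e p w : K) (hp : p ≠ 0) (hw : w ≠ 0)
    (h4 : ∀ i, 1 - a * w * (p * p ^ i) ≠ 0) (k : ℕ) :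
    uu a b e p w k * (p ^ k * (1 - 1 / (p * w)) * (1 - a * (p * w)))
      = uu a b e p (p * w) k * ((1 - p ^ k / (p * w)) * (1 - a * (p * w) * p ^ k)) := by
  induction k with
  | zero => simp [uu]
  | succ k ih =>
    have h5 := h4 k
    have h6 : 1 - a * (p * w) * (p * p ^ k) ≠ 0 := by
      have := h4 (k + 1); rwa [show a * w * (p * p ^ (k + 1)) = a * (p * w) * (p * p ^ k) by ring] at this
    have st : ∀ w, uu a b e p w (k + 1) = uu a b e p w k *
      ((1 - a * p ^ k) * (1 - b * p ^ k) * (e - p ^ k) * (1 - p ^ k / w) * (a * p * w / b) /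
        ((1 - p * p ^ k) * (1 - a * (p * p ^ k) / b) * (1 - a * e * (p * p ^ k))
          * (1 - a * w * (p * p ^ k)))) := fun w => by rw [uu, prod_range_succ]; rfl
    rw [st, st, pow_succ', mul_right_comm, mul_assoc p, mul_assoc p, mul_left_comm _ p, ih]
    generalize uu a b e p (p * w) k = u
    generalize p ^ k = x at *
    simp only [div_eq_mul_inv, mul_inv]
    have b1 := mul_inv_cancel₀ h5
    have b2 := mul_inv_cancel₀ h6
    have b3 := mul_inv_cancel₀ hp
    generalize (1 - a * w * (p * x))⁻¹ = D at *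
    generalize (1 - a * (p * w) * (p * x))⁻¹ = D' at *
    generalize (1 - p * x)⁻¹ = A
    generalize (1 - a * (p * x) * b⁻¹)⁻¹ = B
    generalize (1 - a * e * (p * x))⁻¹ = C
    set T := u * (1 - x * (p⁻¹ * w⁻¹)) * (1 - a * x) * (1 - b * x) * (e - x)
      * (a * p * (p * w) * b⁻¹) * (A * B * C) with hT
    linear_combination T * (1 - x * w⁻¹) * b1 - T * (1 - p * x * (p⁻¹ * w⁻¹)) * b2
      + T * x * w⁻¹ * b3

theorem uu_top (a b e p : K) (hp : p ≠ 0) (N : ℕ) : uu a b e p (p ^ N) (N + 1) = 0 := by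
  rw [uu, prod_range_succ, div_self (pow_ne_zero N hp)]; simp

theorem six5 (a b e p : K) (hp : p ≠ 0) (hb : b ≠ 0) (h1 : ∀ i, 1 - p * p ^ i ≠ 0)
    (h2 : ∀ i, 1 - a * (p * p ^ i) / b ≠ 0) (h3 : ∀ i, 1 - a * e * (p * p ^ i) ≠ 0)
    (h4 : ∀ i, 1 - a * (p * p ^ i) ≠ 0) (N : ℕ) :
    ∑ k ∈ range (N + 1), (1 - a * (p ^ k) ^ 2) * uu a b e p (p ^ N) k
      = (1 - a) * ∏ i ∈ range N, (1 - a * (p * p ^ i)) * (1 - a * e * (p * p ^ i) / b) /
        ((1 - a * (p * p ^ i) / b) * (1 - a * e * (p * p ^ i))) := by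
  induction N with
  | zero => simp [uu]
  | succ N ih =>
    have e1 : ∑ k ∈ range (N + 1), (1 - a * (p ^ k) ^ 2) * uu a b e p (p ^ N) k
        = ∑ k ∈ range (N + 2), (1 - a * (p ^ k) ^ 2) * uu a b e p (p ^ N) k := by
      rw [sum_range_succ _ (N + 1), uu_top _ _ _ _ hp]; simp
    rw [prod_range_succ, ← mul_assoc, ← ih, e1, sum_mul, ← sub_eq_zero, ← sum_sub_distrib]
    have hw : p ^ N ≠ 0 := pow_ne_zero N hp
    have h5 : ∀ i, 1 - a * p ^ N * (p * p ^ i) ≠ 0 := fun i => by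
      have := h4 (N + i); rwa [show a * (p * p ^ (N + i)) = a * p ^ N * (p * p ^ i) by ring] at this
    have h6 : p * p ^ N - 1 ≠ 0 := fun h => h1 N (by linear_combination -h)
    have h7 : ∀ i, b - a * (p * p ^ i) ≠ 0 := fun i h => h2 i (by field_simp; linear_combination h)
    let g : ℕ → K := fun k => uu a b e p (p ^ (N + 1)) k * ((1 - p ^ k) * (1 - a * p ^ k / b)
      * (1 - a * e * p ^ k) * (1 - a * (p * p ^ N) * p ^ k) / p ^ k)
        / ((1 - a * (p * p ^ N) / b) * (1 - a * e * (p * p ^ N)) * (1 - 1 / (p * p ^ N)))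
    have : ∑ k ∈ range (N + 2), (g (k + 1) - g k) = 0 := by
      rw [sum_range_sub]; simp [g, uu_top _ _ _ _ hp]
    rw [← this]
    refine sum_congr rfl fun k _ => ?_
    have hs := uu_shift a b e p (p ^ N) hp hw h5 k
    have h8 : 1 - a * (p * p ^ N) * (p * p ^ k) ≠ 0 := by
      have := h5 (k + 1)
      rwa [show a * p ^ N * (p * p ^ (k + 1)) = a * (p * p ^ N) * (p * p ^ k) by ring] at this
    have h9 : 1 - 1 / (p * p ^ N) ≠ 0 := fun h => h6 (by field_simp at h; linear_combination h)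
    rw [← eq_div_iff (mul_ne_zero (mul_ne_zero (pow_ne_zero k hp) h9) (h4 N))] at hs
    have hu : uu a b e p (p ^ (N + 1)) (k + 1) = uu a b e p (p * p ^ N) k *
      ((1 - a * p ^ k) * (1 - b * p ^ k) * (e - p ^ k) * (1 - p ^ k / (p * p ^ N))
        * (a * p * (p * p ^ N) / b) / ((1 - p * p ^ k) * (1 - a * (p * p ^ k) / b)
          * (1 - a * e * (p * p ^ k)) * (1 - a * (p * p ^ N) * (p * p ^ k)))) := by
      rw [pow_succ' p N, uu, prod_range_succ]; rfl
    simp only [g]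
    rw [hu, hs, pow_succ' p N, pow_succ' p k]
    have a1 := h1 k
    have a2 := h2 k
    have a3 := h3 k
    have a4 := h2 N
    have a5 := h3 N
    have a6 := h4 N
    have hx : p ^ k ≠ 0 := pow_ne_zero k hp
    generalize uu a b e p (p * p ^ N) k = u
    have hW : p * p ^ N ≠ 0 := mul_ne_zero hp hw
    generalize p * p ^ N = W at *
    generalize p ^ k = x at *
    have e2 : u * ((1 - a * x) * (1 - b * x) * (e - x) * (1 - x / W) * (a * p * W / b) /
        ((1 - p * x) * (1 - a * (p * x) / b) * (1 - a * e * (p * x)) * (1 - a * W * (p * x))))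
        * ((1 - p * x) * (1 - a * (p * x) / b) * (1 - a * e * (p * x)) * (1 - a * W * (p * x))
          / (p * x))
        = u * ((1 - a * x) * (1 - b * x) * (e - x) * (1 - x / W) * (a * W / b) / x) := by
      rw [mul_assoc u, div_mul_div_cancel₀ (mul_ne_zero (mul_ne_zero (mul_ne_zero a1 a2) a3) h8)]
      field_simp
    rw [e2]
    have b1 : (1 - a * W / b) * (1 - a * W / b)⁻¹ = 1 := mul_inv_cancel₀ a4
    have b2 : (1 - a * e * W) * (1 - a * e * W)⁻¹ = 1 := mul_inv_cancel₀ a5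
    have b3 : (1 - 1 / W) * (1 - 1 / W)⁻¹ = 1 := mul_inv_cancel₀ h9
    rw [← sub_div, eq_div_iff (mul_ne_zero (mul_ne_zero a4 a5) h9)]
    have e3 : u * ((1 - x / W) * (1 - a * W * x)) / (x * (1 - 1 / W) * (1 - a * W))
        * ((1 - a * W) * (1 - a * e * W / b) / ((1 - a * W / b) * (1 - a * e * W)))
        * ((1 - a * W / b) * (1 - a * e * W) * (1 - 1 / W))
        = u * ((1 - x / W) * (1 - a * W * x)) * (1 - a * e * W / b) / x := by
      generalize 1 - a * W / b = A at *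
      generalize 1 - a * e * W = B at *
      generalize 1 - 1 / W = C at *
      generalize 1 - a * W = D at *
      field_simp
    rw [sub_mul, mul_assoc (1 - a * x ^ 2) (_ / _), mul_assoc (1 - a * x ^ 2) (_ * (_ / _)), e3]
    field_simp
    ring

def rho (p : K) (b : ℕ) (Y : K) : K :=
  ∏ i ∈ range b, (1 - Y * p ^ (2 * i + 1)) / (1 - Y * p ^ (2 * i + 2))

theorem rho_add (p : K) (k b : ℕ) (Y : K) :
    rho p (k + b) Y = rho p k Y * rho p b (Y * p ^ (2 * k)) := by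
  unfold rho
  rw [prod_range_add]
  congr 1
  exact prod_congr rfl fun i _ => by congr 2 <;> ring

theorem rho_block (p : K) (h : ℕ) (Y : K) : rho p (2 * h + 1) Y
    = rho p h Y / rho p h (Y * p ^ (2 * h + 1))
      * ((1 - Y * p ^ (2 * h + 1)) / (1 - Y * (p ^ (2 * h + 1)) ^ 2)) := by
  unfold rho
  simp only [prod_div_distrib]
  have e1 : ∏ i ∈ range (2 * h + 1), (1 - Y * p ^ (2 * i + 1))
      = (∏ i ∈ range h, (1 - Y * p ^ (2 * i + 1)))
        * (∏ i ∈ range h, (1 - Y * p ^ (2 * h + 1) * p ^ (2 * i + 2))) * (1 - Y * p ^ (2 * h + 1)) := by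
    rw [show 2 * h + 1 = h + (h + 1) by ring, prod_range_add, prod_range_succ', mul_assoc]
    congr 2
    · exact prod_congr rfl fun i _ => by ring
    · ring
  have e2 : ∏ i ∈ range (2 * h + 1), (1 - Y * p ^ (2 * i + 2))
      = (∏ i ∈ range h, (1 - Y * p ^ (2 * i + 2)))
        * (∏ i ∈ range h, (1 - Y * p ^ (2 * h + 1) * p ^ (2 * i + 1)))
          * (1 - Y * (p ^ (2 * h + 1)) ^ 2) := by
    rw [prod_range_succ, two_mul h, prod_range_add]
    congr 2
    · exact prod_congr rfl fun i _ => by ring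
    · ring
  rw [e1, e2, div_div_div_eq, div_mul_div_comm]

theorem rho_refl (p : K) (hp : p ≠ 0) (Z : K) (b : ℕ) : ∀ W : K, W * Z * p ^ (2 * b + 1) = 1 →
    (∀ j, j < 2 * b → 1 - W * p ^ (j + 1) ≠ 0) → rho p b W * rho p b Z * p ^ b = 1 := by
  induction b with
  | zero => intro W _ _; simp [rho]
  | succ b ih =>
    intro W hW h
    have h1 := ih (W * p ^ 2) (by rw [← hW]; ring) fun j hj => by
      have := h (j + 2) (by omega); rwa [show W * p ^ (j + 2 + 1) = W * p ^ 2 * p ^ (j + 1) by ring] at this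
    have h2 : rho p (b + 1) W = (1 - W * p) / (1 - W * p ^ 2) * rho p b (W * p ^ 2) := by
      rw [add_comm, rho_add]; simp [rho]
    have h3 : rho p (b + 1) Z = rho p b Z * ((1 - Z * p ^ (2 * b + 1)) / (1 - Z * p ^ (2 * b + 2))) := by
      rw [rho, prod_range_succ]; rfl
    have h4 := h 0 (by omega)
    have h5 := h 1 (by omega)
    have hW0 : W ≠ 0 := by rintro rfl; simp at hW
    have h6 : Z * p ^ (2 * b + 1) = 1 / (W * p ^ 2) := by field_simp; linear_combination hW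
    have h7 : Z * p ^ (2 * b + 2) = 1 / (W * p) := by field_simp; linear_combination hW
    have h8 : W * p - 1 ≠ 0 := fun h => h4 (by linear_combination -h)
    have h9 : (1 - W * p) / (1 - W * p ^ 2) * ((1 - 1 / (W * p ^ 2)) / (1 - 1 / (W * p))) * p = 1 := by
      simp only [zero_add, pow_one, Nat.reduceAdd] at h4 h5
      field_simp
      ring
    rw [h2, h3, h6, h7]
    linear_combination (rho p b (W * p ^ 2) * rho p b Z * p ^ b) * h9 + h1

theorem sum_blocks (f : ℕ → K) (m n : ℕ) :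
    ∑ k ∈ range (m * n), f k = ∑ a ∈ range m, ∑ b ∈ range n, f (a * n + b) := by
  induction m with
  | zero => simp
  | succ m ih => rw [Nat.succ_mul, sum_range_add, ih, sum_range_succ]

end field

/-- rising factorial -/
def asc (x : ℚ) (k : ℕ) : ℚ := ∏ i ∈ range k, (x + i)

def ww (a : ℕ) : ℚ := asc (1 / 2) a / a.factorial

theorem ww_succ (a : ℕ) : ww (a + 1) = ww a * ((2 * a + 1) / (2 * a + 2)) := by
  unfold ww asc
  rw [prod_range_succ, Nat.factorial_succ]
  push_cast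
  field_simp
  ring

variable {K : Type*} [Field K] [CharZero K] {L : Loc K}

theorem q_inj {i j : ℕ} (h : L.q ^ i = L.q ^ j) : i = j := by
  wlog hij : i ≤ j generalizing i j
  · exact (this h.symm (by omega)).symm
  obtain ⟨d, rfl⟩ := Nat.exists_eq_add_of_le hij
  by_contra hne
  refine L.ne d (by omega) (mul_left_cancel₀ (pow_ne_zero i L.q0) ?_)
  rw [pow_add] at h
  linear_combination h

variable (L) in
def Nr (x c : K) : Prop := c ∈ L.O ∧ L.E 2 x (1 + L.e * c)

variable {x y c d : K}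

theorem Nr.mul (h : Nr L x c) (h' : Nr L y d) : Nr L (x * y) (c + d) :=
  ⟨add_mem h.1 h'.1, near_mul h.1 h'.1 h.2 h'.2⟩
theorem Nr.inv (h : Nr L x c) : Nr L x⁻¹ (-c) := ⟨neg_mem h.1, near_inv h.1 h.2⟩
theorem Nr.one : Nr L 1 0 := ⟨zero_mem _, E.of_eq (by simp)⟩
theorem Nr.congr {x' c' : K} (h : Nr L x c) (e : x = x') (e' : c = c') : Nr L x' c' := e ▸ e' ▸ h
theorem Nr.pow (h : Nr L x c) (k : ℕ) : Nr L (x ^ k) (k * c) := by
  induction k with
  | zero => exact Nr.one.congr (by simp) (by simp)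
  | succ k ih => exact (ih.mul h).congr (by ring) (by push_cast; ring)
theorem Nr.qn (a : ℕ) : Nr L ((L.q ^ L.n) ^ a) a := ⟨L.nat_mem a, qn_pow a⟩
theorem Nr.near (h : Nr L x c) : L.E 1 x 1 := Loc.near h.1 h.2
theorem Nr.U (h : Nr L x c) : L.U x := h.near.unit U.one
theorem Nr.of_E (h : L.E 1 x 1) : ∃ c, Nr L x c := by
  obtain ⟨c, hc, h⟩ := h
  exact ⟨c, hc, E.of_eq (by linear_combination h)⟩
theorem Nr.lin (h : Nr L y c) {j : ℕ} (hj : ¬ L.n ∣ j) : L.U (1 - y * L.q ^ j) :=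
  (TG.lin.near h.1 h.2).unit (by simpa using U.sub hj)
theorem TG_nr {f : K → K} (h : L.TG f) (hu : L.U (f 1)) :
    ∃ l ∈ L.O, ∀ y c, Nr L y c → Nr L (f y / f 1) (c * l) := by
  obtain ⟨_, D, hD, h⟩ := h
  refine ⟨D / f 1, div_mem' hD hu, fun y c hy => ⟨mul_mem hy.1 (div_mem' hD hu), ?_⟩⟩
  refine ((h y c hy.1 hy.2).smul hu.2.1).of_sub ?_
  have := hu.2.2
  field_simp

section step
variable {s h : ℕ} (hn : L.n = 2 * h + 1) (hs : ∀ j, L.n ∣ s * j → L.n ∣ j)
include hn hs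

theorem nd1 {i : ℕ} (hi : i < L.n - 1) : ¬ L.n ∣ s * (2 * i + 2) := fun hd => by
  have h1 : L.n ∣ 2 * (i + 1) := hs _ hd
  have h2 : Nat.Coprime L.n 2 := by rw [hn]; simp
  have := Nat.le_of_dvd (by omega) (h2.dvd_of_dvd_mul_left h1)
  omega

theorem nd2 {i : ℕ} (hi : i < 2 * h) : ¬ L.n ∣ s * (i + 1) := fun hd => by
  have := Nat.le_of_dvd (by omega) (hs _ hd)
  omega

theorem rho_TG {b : ℕ} (hb : b < L.n) : L.TG (rho (L.q ^ s) b) := by
  unfold rho
  simp only [← pow_mul]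
  exact TG.prod _ fun i hi => TG.lin.div TG.lin
    (by simpa using U.sub (nd1 hn hs (by have := mem_range.mp hi; omega)))

theorem rho_U {b : ℕ} (hb : b ≤ h) (hy : Nr L y c) : L.U (rho (L.q ^ s) b y) := by
  unfold rho
  simp only [← pow_mul]
  exact U.prod _ _ fun i hi => have := mem_range.mp hi
    (hy.lin (nd2 hn hs (by omega))).div (hy.lin (nd2 hn hs (i := 2 * i + 1) (by omega)))

theorem rho_mem {b : ℕ} (hb : b < L.n) (hy : Nr L y c) : rho (L.q ^ s) b y ∈ L.O :=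
  ((rho_TG hn hs hb).near hy.1 hy.2).mem (rho_TG hn hs hb).1

theorem rho_zero {b : ℕ} (hb : b < L.n) (hb' : h < b) (hy : Nr L y c) :
    L.E 1 (rho (L.q ^ s) b y) 0 := by
  induction b with
  | zero => omega
  | succ b ih =>
    have hU : L.U (1 - y * (L.q ^ s) ^ (2 * b + 2)) := by
      rw [← pow_mul]; exact hy.lin (nd1 hn hs (by omega))
    rw [rho, prod_range_succ]
    rcases (Nat.lt_succ_iff.mp hb').eq_or_lt with rfl | hlt
    · have h1 : L.E 1 (y * (L.q ^ L.n) ^ s) 1 := (hy.mul (Nr.qn s)).near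
      refine (h1.smul (neg_mem (div_mem' (rho_mem hn hs (b := h) (by omega) hy) hU))).of_sub ?_
      rw [← hn, ← pow_mul, ← pow_mul, mul_comm s L.n, rho]; ring
    · refine ((ih (by omega) hlt).smul (div_mem' (sub_mem (one_mem _)
        (mul_mem hy.U.1 (pow_mem (L.qp s) (2 * b + 1)))) hU)).of_sub ?_
      rw [rho]; ring

theorem rho_reflect {b b' : ℕ} (hb : b' + b = h) {z : K} (hy : Nr L y c)
    (hz : y * z * (L.q ^ L.n) ^ s = 1) :
    rho (L.q ^ s) b' y = rho (L.q ^ s) h y * (L.q ^ s) ^ b * rho (L.q ^ s) b z := by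
  have := rho_refl (L.q ^ s) (pow_ne_zero _ L.q0) z b (y * (L.q ^ s) ^ (2 * b'))
    (by rw [← hz, hn, ← hb]; ring) fun j hj => by
      have := (hy.lin (nd2 hn hs (i := 2 * b' + j) (by omega))).2.2
      rwa [show y * L.q ^ (s * (2 * b' + j + 1)) = y * (L.q ^ s) ^ (2 * b') * (L.q ^ s) ^ (j + 1) by
        ring] at this
  rw [← hb, rho_add]
  linear_combination (-rho (L.q ^ s) b' y) * this

theorem rho_half : L.E 1 (rho (L.q ^ s) h 1 * (L.q ^ s) ^ (h * (h + 1))) ((-1) ^ h) := by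
  have e : ∀ h : ℕ, ∏ i ∈ range h, (L.q ^ s) ^ (2 * i + 2) = (L.q ^ s) ^ (h * (h + 1)) := by
    intro h
    induction h with
    | zero => simp
    | succ h ih => rw [prod_range_succ, ih]; ring
  rw [rho, prod_div_distrib, ← prod_range_reflect, ← prod_div_distrib, ← e, ← prod_mul_distrib,
    ← card_range h, ← prod_const, card_range]
  refine E.prod _ (fun i hi => ?_) fun _ _ => neg_mem (one_mem _)
  have hi' := mem_range.mp hi
  have hU : L.U (1 - 1 * (L.q ^ s) ^ (2 * i + 2)) := by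
    rw [← pow_mul]; exact Nr.one.lin (nd1 hn hs (by omega))
  refine ((Nr.qn s).near.smul (neg_mem hU.2.1)).of_sub ?_
  have := hU.2.2
  have e2 : (L.q ^ L.n) ^ s = (L.q ^ s) ^ (2 * (h - 1 - i) + 1) * (L.q ^ s) ^ (2 * i + 2) := by
    rw [← pow_add, show 2 * (h - 1 - i) + 1 + (2 * i + 2) = L.n by omega]; ring
  rw [e2, div_eq_mul_inv]
  linear_combination -mul_inv_cancel₀ this

theorem rho_blocks (hs0 : s ≠ 0) {l : K}
    (hl : ∀ y c, Nr L y c → Nr L (rho (L.q ^ s) h y / rho (L.q ^ s) h 1) (c * l)) (a : ℕ) :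
    Nr L (rho (L.q ^ s) (a * L.n) 1 / (ww a : K)) (-(a * s * (l + 1 / 2))) := by
  induction a with
  | zero => exact Nr.one.congr (by simp [rho, ww, asc]) (by simp)
  | succ a ih =>
    have h1 := hl _ _ (Nr.qn (L := L) (s * (2 * a)))
    have h2 := hl _ _ (Nr.qn (L := L) (s * (2 * a + 1)))
    have h3 := ratio (L := L) (by omega) (s * (2 * a + 1)) (s * (2 * a + 2)) (by positivity)
    have hU : L.U (((2 * a + 1 : ℕ) : K) / ((2 * a + 2 : ℕ) : K)) :=
      (U.nat (by omega)).div (U.nat (by omega))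
    have hs' : (s : K) ≠ 0 := by exact_mod_cast hs0
    have h4 : Nr L ((1 - (L.q ^ L.n) ^ (s * (2 * a + 1))) / (1 - (L.q ^ L.n) ^ (s * (2 * a + 2)))
        / (((2 * a + 1 : ℕ) : K) / ((2 * a + 2 : ℕ) : K))) (-(s / 2)) := by
      refine ⟨by have := L.rat (-(s / 2)); push_cast at this; exact this,
        (h3.smul hU.2.1).of_sub ?_⟩
      have e : ((s * (2 * a + 1) : ℕ) : K) / ((s * (2 * a + 2) : ℕ) : K)
          = ((2 * a + 1 : ℕ) : K) / ((2 * a + 2 : ℕ) : K) := by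
        rw [Nat.cast_mul, Nat.cast_mul s, mul_div_mul_left _ _ hs']
      rw [e, inv_mul_cancel_left₀ hU.2.2, inv_mul_eq_div]
      push_cast; ring
    refine (((ih.mul h1).mul h2.inv).mul h4).congr ?_ (by push_cast; ring)
    have h5 := (rho_U hn hs le_rfl (Nr.one (L := L))).2.2
    have hb := rho_block (L.q ^ s) h (1 * (L.q ^ s) ^ (2 * (a * L.n)))
    rw [← hn] at hb
    rw [add_mul a, one_mul L.n, rho_add, ww_succ, hb]
    have e1 : 1 * (L.q ^ s) ^ (2 * (a * L.n)) = (L.q ^ L.n) ^ (s * (2 * a)) := by ring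
    have e2 : (L.q ^ L.n) ^ (s * (2 * a)) * (L.q ^ s) ^ L.n = (L.q ^ L.n) ^ (s * (2 * a + 1)) := by
      ring
    have e3 : (L.q ^ L.n) ^ (s * (2 * a)) * ((L.q ^ s) ^ L.n) ^ 2
      = (L.q ^ L.n) ^ (s * (2 * a + 2)) := by ring
    rw [e1, e2, e3, inv_div, mul_assoc (_ / _) (_ / _), div_mul_div_cancel₀ h5]
    push_cast
    simp only [div_eq_mul_inv, mul_inv]
    ring

theorem rho_pair {b : ℕ} (hb : b < L.n) (hy : Nr L y c) :
    L.E 2 (rho (L.q ^ s) b y * rho (L.q ^ s) b y⁻¹) (rho (L.q ^ s) b 1 ^ 2) := by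
  obtain ⟨h1, D, hD, h⟩ := rho_TG hn hs hb
  have hc := hy.1
  exact (((h _ _ hc hy.2).mul (h _ _ hy.inv.1 hy.inv.2)
    (add_mem h1 (mul_mem (mul_mem L.e_mem hc) hD))
    (add_mem h1 (mul_mem (mul_mem L.e_mem (neg_mem hc)) hD))).sub
      (E.sq (mul_mem (mul_mem hc hc) (mul_mem hD hD)))).of_sub (by ring)

end step

theorem reflect_plus {G κ : K → K} {μ l P t : K} (hG : L.TG G) (hP : Nr L P t)
    (hκ : ∀ y c, Nr L y c → Nr L (κ y) (μ + c * l))
    (hr : ∀ y c, Nr L y c → G y = κ y * G (y * P)⁻¹) (hy : Nr L y c) :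
    L.E 2 (G y) (G 1 * (1 + L.e * (c * l / 2))) := by
  obtain ⟨h1, D, hD, h⟩ := hG
  have key : ∀ y c, Nr L y c → L.E 2 (G 1 + L.e * c * D)
      (G 1 + L.e * ((μ + c * l) * G 1 - (c + t) * D)) := by
    intro y c hy
    have hz := (hy.mul hP).inv
    have k := hκ y c hy
    have := (k.2.mul (h _ _ hz.1 hz.2) (add_mem (one_mem _) (mul_mem L.e_mem k.1))
      (add_mem h1 (mul_mem (mul_mem L.e_mem hz.1) hD)))
    rw [← hr y c hy] at this
    exact (((h y c hy.1 hy.2).symm.add this).add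
      (E.sq (mul_mem (mul_mem k.1 hz.1) hD))).of_sub (by ring)
  have h2 : c / 2 ∈ L.O := div_mem' hy.1 (by simpa using U.nat (L := L) (a := 2) (by norm_num))
  exact ((h y c hy.1 hy.2).add (((key _ _ (Nr.qn 1)).sub (key _ _ Nr.one)).smul h2)).of_sub
    (by push_cast; ring)

end Pool.Agent.H27.QD
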