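import Pool.Agent.H27.QD

namespace Pool.Agent.H27.QE
open Finset

variable {K : Type*} [Field K]

def st (A q w x : K) : K := -((1 - A * q * w * x ^ 2) * (w - x ^ 2) * (1 - A * x ^ 2)
  / ((w - x) * (1 - A * q * w * x) * (1 - q * x)))

def vv (A q w : K) (k : ℕ) : K := ∏ i ∈ range k, st A q w (q ^ i)

theorem vv_succ (A q w : K) (k : ℕ) : vv A q w (k + 1) = vv A q w k * st A q w (q ^ k) :=
  prod_range_succ _ _

section
variable (A q : K) (hq : q ≠ 0) (ne : ∀ j, 1 - q ^ (j + 1) ≠ 0)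
  (inj : ∀ i j, q ^ i = q ^ j → i = j) (hA : ∀ j, 1 - A * q ^ j ≠ 0)
include hq ne inj hA

theorem vv_shift (N : ℕ) (k : ℕ) (hk : k ≤ 2 * N) :
    vv A q (q ^ (2 * N)) k * ((1 - A * q * q ^ (2 * N) * (q ^ k) ^ 2) * (q ^ 2 * q ^ (2 * N) - q ^ k)
      * (q * q ^ (2 * N) - q ^ k) * (1 - A * q ^ 2 * q ^ (2 * N)))
    = vv A q (q ^ 2 * q ^ (2 * N)) k * ((q ^ 2 * q ^ (2 * N) - (q ^ k) ^ 2) * (q * q ^ (2 * N) - 1)
      * (1 - A * q * q ^ (2 * N) * q ^ k) * (1 - A * q ^ 2 * q ^ (2 * N) * q ^ k)) := by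
  have hA' : ∀ (j : ℕ) (x : K), x = A * q ^ j → 1 - x ≠ 0 := fun j x e => e ▸ hA j
  induction k with
  | zero => simp only [vv, range_zero, prod_empty]; ring
  | succ k ih =>
    have ih := ih (by omega)
    have a1 : q ^ (2 * N) - q ^ k ≠ 0 := fun h => by
      have := inj (2 * N) k (by linear_combination h); omega
    have a2 : q * q ^ (2 * N) - q ^ k ≠ 0 := fun h => by
      have := inj (2 * N + 1) k (by linear_combination h); omega
    have a3 : q ^ 2 * q ^ (2 * N) - q ^ k ≠ 0 := fun h => by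
      have := inj (2 * N + 2) k (by linear_combination h); omega
    have a4 := hA' (2 * N + 2 * k + 1) (A * q * q ^ (2 * N) * (q ^ k) ^ 2) (by ring)
    have a5 := hA' (2 * N + k + 1) (A * q * q ^ (2 * N) * q ^ k) (by ring)
    have a6 := hA' (2 * N + k + 3) (A * q * (q ^ 2 * q ^ (2 * N)) * q ^ k) (by ring)
    have a7 := hA' (2 * N + 2) (A * q ^ 2 * q ^ (2 * N)) (by ring)
    rw [← eq_div_iff (mul_ne_zero (mul_ne_zero (mul_ne_zero a4 a3) a2) a7)] at ih
    rw [vv_succ, vv_succ, ih, pow_succ' q k, st, st]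
    generalize vv A q (q ^ 2 * q ^ (2 * N)) k = u
    generalize q ^ (2 * N) = w at *
    generalize q ^ k = x at *
    rw [show 1 - A * q * w * (q * x) ^ 2 = 1 - A * q * (q ^ 2 * w) * x ^ 2 by ring,
      show q ^ 2 * w - q * x = q * (q * w - x) by ring, show q * w - q * x = q * (w - x) by ring,
      show q ^ 2 * w - (q * x) ^ 2 = q ^ 2 * (w - x ^ 2) by ring,
      show 1 - A * q * w * (q * x) = 1 - A * q ^ 2 * w * x by ring,
      show 1 - A * q ^ 2 * w * (q * x) = 1 - A * q * (q ^ 2 * w) * x by ring]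
    generalize 1 - A * q * (q ^ 2 * w) * x ^ 2 = B4 at *
    generalize 1 - A * q * (q ^ 2 * w) * x = B5 at *
    generalize 1 - A * q ^ 2 * w * x = B3 at *
    generalize 1 - A * q * w * x ^ 2 = A1 at *
    generalize 1 - A * q * w * x = A5 at *
    generalize 1 - A * q ^ 2 * w = A9 at *
    generalize q ^ 2 * w - x ^ 2 = B1 at *
    generalize q ^ 2 * w - x = A7 at *
    generalize q * w - x = A8 at *
    generalize q * w - 1 = B2 at *
    generalize w - x ^ 2 = A2 at *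
    generalize w - x = A4 at *
    generalize 1 - A * x ^ 2 = A3 at *
    generalize 1 - q * x = A6 at *
    rw [div_eq_mul_inv _ (A4 * A5 * A6), div_eq_mul_inv _ (A7 * B5 * A6), mul_inv _ A6, mul_inv _ A6]
    generalize A6⁻¹ = C
    field_simp

theorem cubic (N : ℕ) :
    ∑ k ∈ range (N + 2), (1 - A * (q ^ k) ^ 3) * vv A q (q ^ (2 * (N + 1))) k
      = (-1) ^ (N + 1) * q ^ ((N + 1) ^ 2) * (∏ i ∈ range (N + 2), (1 - A * q ^ (2 * i)))
        / ∏ i ∈ range (N + 1), (1 - q ^ (2 * i + 1)) := by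
  have hA' : ∀ (j : ℕ) (x : K), x = A * q ^ j → 1 - x ≠ 0 := fun j x e => e ▸ hA j
  have top : ∀ N, vv A q (q ^ (2 * N)) (N + 1) = 0 := fun N => by
    rw [vv_succ, st, ← pow_mul, mul_comm N 2]; simp
  induction N with
  | zero =>
    have a1 := hA' 3 (A * q * q ^ 2) (by ring)
    have a2 : q ^ 2 - 1 ≠ 0 := fun h => ne 1 (by linear_combination -h)
    have a3 : 1 - q ≠ 0 := by simpa using ne 0
    simp only [vv, st, sum_range_succ, prod_range_succ, range_zero, sum_empty, prod_empty]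
    norm_num
    field_simp
    ring
  | succ N ih =>
    obtain ⟨M, hM⟩ : ∃ M, M = N + 1 := ⟨_, rfl⟩
    have e1 : ∑ k ∈ range (N + 2), (1 - A * (q ^ k) ^ 3) * vv A q (q ^ (2 * (N + 1))) k
        = ∑ k ∈ range (N + 1 + 2), (1 - A * (q ^ k) ^ 3) * vv A q (q ^ (2 * (N + 1))) k := by
      rw [sum_range_succ _ (N + 2), top]; simp
    have b1 : q * q ^ (2 * M) - 1 ≠ 0 := fun h => ne (2 * M) (by linear_combination -h)
    have e2 : (-1) ^ (N + 1 + 1) * q ^ ((N + 1 + 1) ^ 2)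
        * (∏ i ∈ range (N + 1 + 2), (1 - A * q ^ (2 * i)))
        / ∏ i ∈ range (N + 1 + 1), (1 - q ^ (2 * i + 1))
        = (-1) ^ (N + 1) * q ^ ((N + 1) ^ 2) * (∏ i ∈ range (N + 2), (1 - A * q ^ (2 * i)))
        / (∏ i ∈ range (N + 1), (1 - q ^ (2 * i + 1)))
          * (q * q ^ (2 * M) * (1 - A * q ^ 2 * q ^ (2 * M)) / (q * q ^ (2 * M) - 1)) := by
      rw [prod_range_succ _ (N + 2), prod_range_succ (fun i => 1 - q ^ (2 * i + 1)) (N + 1),
        div_mul_div_comm, ← neg_div_neg_eq, ← hM,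
        show q ^ ((M + 1) ^ 2) = q ^ (M ^ 2) * (q * q ^ (2 * M)) by
          rw [← pow_succ', ← pow_add]; congr 1; ring,
        show q ^ (2 * (N + 2)) = q ^ 2 * q ^ (2 * M) by rw [← pow_add, hM]; congr 1; ring,
        pow_succ' q (2 * M), pow_succ (-1 : K) M]
      generalize (∏ i ∈ range (N + 2), (1 - A * q ^ (2 * i))) = P
      generalize (∏ i ∈ range M, (1 - q ^ (2 * i + 1))) = P'
      generalize q ^ (M ^ 2) = z
      generalize q ^ (2 * M) = w
      generalize (-1 : K) ^ M = t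
      refine congrArg₂ (fun x y : K => x / y) ?_ ?_ <;> ring
    rw [e2, ← ih, e1, sum_mul, ← sub_eq_zero, ← sum_sub_distrib, ← hM,
      show q ^ (2 * (M + 1)) = q ^ 2 * q ^ (2 * M) by ring]
    let g : ℕ → K := fun k => vv A q (q ^ 2 * q ^ (2 * M)) k * (q ^ k * (1 - q ^ k)
      * (1 - A * q ^ 2 * q ^ (2 * M) * q ^ k) / ((1 - A * q * q ^ (2 * M) * (q ^ k) ^ 2)
        * (q ^ 2 * q ^ (2 * M) - q ^ k))) * (1 - A * q ^ 3 * (q ^ (2 * M)) ^ 2)
    have : ∑ k ∈ range (M + 2), (g (k + 1) - g k) = 0 := by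
      have t := top (M + 1)
      rw [show q ^ (2 * (M + 1)) = q ^ 2 * q ^ (2 * M) by ring] at t
      rw [sum_range_sub]; simp [g, t]
    rw [← this]
    refine sum_congr rfl fun k hk => ?_
    have hk' := mem_range.mp hk
    have hs := vv_shift A q hq ne inj hA M k (by omega)
    have a2 : q * q ^ (2 * M) - q ^ k ≠ 0 := fun h => by
      have := inj (2 * M + 1) k (by linear_combination h); omega
    have a3 : q ^ 2 * q ^ (2 * M) - q ^ k ≠ 0 := fun h => by
      have := inj (2 * M + 2) k (by linear_combination h); omega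
    have a4 := hA' (2 * M + 2 * k + 1) (A * q * q ^ (2 * M) * (q ^ k) ^ 2) (by ring)
    have a5 := hA' (2 * M + 2 * k + 3) (A * q * q ^ (2 * M) * (q * q ^ k) ^ 2) (by ring)
    have a6 := hA' (2 * M + k + 3) (A * q * (q ^ 2 * q ^ (2 * M)) * q ^ k) (by ring)
    have a7 := hA' (2 * M + 2) (A * q ^ 2 * q ^ (2 * M)) (by ring)
    have a8 : 1 - q * q ^ k ≠ 0 := by rw [← pow_succ']; exact ne k
    rw [← eq_div_iff (mul_ne_zero (mul_ne_zero (mul_ne_zero a4 a3) a2) a7)] at hs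
    simp only [g]
    rw [hs, vv_succ, pow_succ' q k]
    generalize vv A q (q ^ 2 * q ^ (2 * M)) k = u
    generalize q ^ (2 * M) = w at *
    generalize q ^ k = x at *
    have c1 : u * ((q ^ 2 * w - x ^ 2) * (q * w - 1) * (1 - A * q * w * x) * (1 - A * q ^ 2 * w * x))
        / ((1 - A * q * w * x ^ 2) * (q ^ 2 * w - x) * (q * w - x) * (1 - A * q ^ 2 * w))
        * (q * w * (1 - A * q ^ 2 * w) / (q * w - 1))
        = u * (q * w * (q ^ 2 * w - x ^ 2) * (1 - A * q * w * x) * (1 - A * q ^ 2 * w * x))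
          / ((1 - A * q * w * x ^ 2) * (q ^ 2 * w - x) * (q * w - x)) := by
      rw [div_mul_div_comm, div_eq_div_iff (by simp [a2, a3, a4, a7, b1]) (by simp [a2, a3, a4])]
      ring
    have c2 : st A q (q ^ 2 * w) x * (q * x * (1 - q * x) * (1 - A * q ^ 2 * w * (q * x))
        / ((1 - A * q * w * (q * x) ^ 2) * (q ^ 2 * w - q * x)))
        = -(x * (q ^ 2 * w - x ^ 2) * (1 - A * x ^ 2) * (1 - A * q * w * x ^ 2))
          / ((1 - A * q * w * x ^ 2) * (q ^ 2 * w - x) * (q * w - x)) := by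
      rw [st, show q ^ 2 * w - q * x = q * (q * w - x) by ring, ← neg_div, div_mul_div_comm,
        div_eq_div_iff (by simp [hq, a2, a3, a5, a6, a8]) (by simp [a2, a3, a4])]
      ring
    have c3 : x * (1 - x) * (1 - A * q ^ 2 * w * x) / ((1 - A * q * w * x ^ 2) * (q ^ 2 * w - x))
        = x * (1 - x) * (1 - A * q ^ 2 * w * x) * (q * w - x)
          / ((1 - A * q * w * x ^ 2) * (q ^ 2 * w - x) * (q * w - x)) :=
      (mul_div_mul_right _ _ a2).symm
    rw [mul_assoc (1 - A * x ^ 3) (_ / _), c1, mul_assoc u (st _ _ _ _), c2, c3]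
    have i1 := mul_inv_cancel₀ (mul_ne_zero (mul_ne_zero a4 a3) a2)
    simp only [div_eq_mul_inv]
    generalize ((1 - A * q * w * x ^ 2) * (q ^ 2 * w - x) * (q * w - x))⁻¹ = D at *
    linear_combination (-(1 - A * x ^ 3) * u) * i1

end
end Pool.Agent.H27.QE
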