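import Pool.Agent.H27.QD

namespace Pool.Agent.H27.QF
open Finset Pool.Agent.H27.QC Pool.Agent.H27.QC.Loc Pool.Agent.H27.QD

variable {K : Type*} [Field K] [CharZero K] {L : Loc K}

variable (L) in
/-- second order expansion in logarithmic coordinates -/
def N3 (x c s : K) : Prop := c ∈ L.O ∧ s ∈ L.O ∧ L.E 3 x (1 + L.e * c + L.e ^ 2 * (c ^ 2 / 2 + s))

variable {x y u c d s t : K}

theorem half (h : x ∈ L.O) : x / 2 ∈ L.O :=
  div_mem' h (by simpa using U.nat (L := L) (a := 2) (by norm_num))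
theorem cube (h : x ∈ L.O) : L.E 3 (L.e ^ 3 * x) 0 := ⟨x, h, by ring⟩
theorem N3.mem (h : N3 L x c s) : 1 + L.e * c + L.e ^ 2 * (c ^ 2 / 2 + s) ∈ L.O :=
  add_mem (add_mem (one_mem _) (mul_mem L.e_mem h.1))
    (mul_mem (pow_mem L.e_mem 2) (add_mem (half (pow_mem h.1 2)) h.2.1))
theorem N3.congr {x' c' s' : K} (h : N3 L x c s) (e : x = x') (e' : c = c') (e'' : s = s') :
    N3 L x' c' s' := e ▸ e' ▸ e'' ▸ h
theorem N3.one : N3 L 1 0 0 := ⟨zero_mem _, zero_mem _, E.of_eq (by simp)⟩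
theorem N3.nr (h : N3 L x c s) : Nr L x c :=
  ⟨h.1, ((h.2.2.mono (by norm_num)).add (E.sq (add_mem (half (pow_mem h.1 2)) h.2.1))).of_sub
    (by ring)⟩
theorem N3.mul (h : N3 L x c s) (h' : N3 L y d t) : N3 L (x * y) (c + d) (s + t) := by
  have a := add_mem (half (pow_mem h.1 2)) h.2.1
  have b := add_mem (half (pow_mem h'.1 2)) h'.2.1
  exact ⟨add_mem h.1 h'.1, add_mem h.2.1 h'.2.1, ((h.2.2.mul h'.2.2 h.mem h'.mem).add
    (cube (add_mem (add_mem (mul_mem h.1 b) (mul_mem h'.1 a)) (mul_mem L.e_mem (mul_mem a b))))).of_sub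
      (by ring)⟩
theorem N3.inv (h : N3 L x c s) : N3 L x⁻¹ (-c) (-s) := by
  have h' : N3 L (1 + L.e * -c + L.e ^ 2 * ((-c) ^ 2 / 2 + -s)) (-c) (-s) :=
    ⟨neg_mem h.1, neg_mem h.2.1, E.refl _⟩
  refine ⟨h'.1, h'.2.1, E.cancel ((h.mul h').2.2.symm.of_sub ?_) h.nr.U⟩
  rw [mul_inv_cancel₀ h.nr.U.2.2]; ring
theorem N3.pow (h : N3 L x c s) (k : ℕ) : N3 L (x ^ k) (k * c) (k * s) := by
  induction k with
  | zero => exact N3.one.congr (by simp) (by simp) (by simp)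
  | succ k ih => exact (ih.mul h).congr (by ring) (by push_cast; ring) (by push_cast; ring)
theorem N3.qn : N3 L (L.q ^ L.n) 1 (-(1 / 2)) :=
  ⟨one_mem _, neg_mem (half (one_mem _)), E.of_eq (by unfold e; ring)⟩
theorem N3.uniq (hn : 0 < L.n) (h : N3 L x 0 s) (h' : N3 L x 0 t) : L.E 1 s t := by
  obtain ⟨c, hc, e⟩ := h.2.2.symm.trans h'.2.2
  have : L.e ≠ 0 := fun h0 => L.ne _ hn (by unfold Loc.e at h0; linear_combination -h0)
  exact ⟨c, hc, mul_left_cancel₀ (pow_ne_zero 2 this) (by linear_combination e)⟩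

theorem N3.geom (hn : 0 < L.n) (a : ℕ) : N3 L
    ((1 - (L.q ^ L.n) ^ (a + 1)) / (1 - L.q ^ L.n) / (a + 1)) (a / 2) (a * (a - 4) / 24) := by
  have key : ∀ a : ℕ, L.E 3 (∑ i ∈ range a, (L.q ^ L.n) ^ i)
      (a + L.e * (a * (a - 1) / 2) + L.e ^ 2 * (a * (a - 1) * (a - 2) / 6)) := by
    intro a
    induction a with
    | zero => exact E.of_eq (by simp)
    | succ a ih =>
      rw [Finset.sum_range_succ]
      refine (ih.add ((N3.qn (L := L)).pow a).2.2).of_sub ?_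
      push_cast; ring
  have he : 1 - L.q ^ L.n ≠ 0 := L.ne _ hn
  have hU := U.nat (L := L) (Nat.succ_ne_zero a)
  have h1 := hU.2.2
  refine ⟨half (L.nat_mem a), by have := L.rat (a * (a - 4) / 24); push_cast at this; exact this,
    ((key (a + 1)).smul hU.2.1).of_sub ?_⟩
  rw [← mul_neg_geom_sum (L.q ^ L.n) (a + 1), mul_div_cancel_left₀ _ he]
  push_cast at h1 ⊢
  field_simp
  ring

theorem pair_lin (hy : Nr L y c) (hu : Nr L u d) {j : ℕ} (hj : ¬ L.n ∣ j) :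
    N3 L ((1 - y * u * L.q ^ j) * (1 - y * u⁻¹ * L.q ^ j) / (1 - y * L.q ^ j) ^ 2) 0
      (d ^ 2 * -(L.q ^ j / (1 - L.q ^ j) ^ 2)) := by
  have h0 := (U.sub hj).pow 2
  have hm := div_mem' (L.qp j) h0
  refine ⟨zero_mem _, mul_mem (pow_mem hu.1 2) (neg_mem hm), ?_⟩
  have h1 : L.E 1 (1 - y * L.q ^ j) (1 - L.q ^ j) := by simpa using TG.lin.near hy.1 hy.2
  have h2 := ((hy.mul hu.inv).near.smul (L.qp j)).div (h1.pow (U.sub hj).1 2)
    (mul_mem (L.qp j) (one_mem _)) h0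
  have h3 : L.E 1 (u - 1) 0 := hu.near.of_sub (by ring)
  have h4 : L.E 1 (u - 1 + L.e * d) 0 := (h3.add (E.e_zero hu.1)).of_sub (by ring)
  have h5 : L.E (1 + 1) ((u - 1) * (u - 1)) (0 * (u - 1)) := h3.mul_zero h3
  rw [zero_mul] at h5
  refine ((h2.mul_zero h5).add ((hu.2.mul_zero h4).smul hm)).neg.of_sub ?_
  have := hu.U.2.2
  have := (hy.lin hj).2.2
  have := (U.sub hj).2.2
  field_simp
  ring

def sg (p : K) (b : ℕ) : K :=
  ∑ i ∈ range b, (p ^ (2 * i + 2) / (1 - p ^ (2 * i + 2)) ^ 2 - p ^ (2 * i + 1) / (1 - p ^ (2 * i + 1)) ^ 2)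

section
variable {h : ℕ} (hn : L.n = 2 * h + 1)
include hn

theorem hs1 : ∀ j, L.n ∣ 1 * j → L.n ∣ j := fun j h => by simpa using h

theorem hs2 : ∀ j, L.n ∣ 2 * j → L.n ∣ j := fun j hj =>
  (show Nat.Coprime L.n 2 by rw [hn]; simp).dvd_of_dvd_mul_left hj

theorem rho_pair3 {b : ℕ} (hb : b ≤ h) (hy : Nr L y c) (hu : Nr L u d) :
    N3 L (rho (L.q ^ 1) b (y * u) * rho (L.q ^ 1) b (y * u⁻¹) / rho (L.q ^ 1) b y ^ 2) 0
      (d ^ 2 * sg L.q b) := by
  induction b with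
  | zero => exact N3.one.congr (by simp [rho]) rfl (by simp [sg])
  | succ b ih =>
    have n1 : ¬ L.n ∣ 2 * b + 1 := by simpa using nd2 hn (hs1 hn) (i := 2 * b) (by omega)
    have n2 : ¬ L.n ∣ 2 * b + 2 := by simpa using nd2 hn (hs1 hn) (i := 2 * b + 1) (by omega)
    refine (((ih (by omega)).mul (pair_lin hy hu n1)).mul (pair_lin hy hu n2).inv).congr ?_
      (by simp) (by rw [sg, sg, sum_range_succ]; ring)
    simp only [rho, prod_range_succ, pow_one, div_eq_mul_inv, mul_inv, mul_pow, inv_inv, inv_pow]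
    ring

theorem sg_refl {b b' : ℕ} (hb : b' + b = h) : L.E 1 (sg L.q b') (sg L.q h + sg L.q b) := by
  have Q := N3.nr (N3.qn (L := L))
  have q0 := L.q0
  have h1 := rho_pair3 hn (b := b') (by omega) Nr.one Q
  have h2 := (rho_pair3 hn le_rfl Nr.one Q).mul (rho_pair3 hn (b := b) (by omega) Q.inv Q.inv)
  have := N3.uniq (by omega) h1 (h2.congr ?_ (by simp) rfl)
  · simpa using this
  rw [rho_reflect hn (hs1 hn) hb (z := (L.q ^ L.n)⁻¹ * (L.q ^ L.n)⁻¹) (Nr.one.mul Q) (by field_simp),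
    rho_reflect hn (hs1 hn) hb (z := (L.q ^ L.n)⁻¹ * (L.q ^ L.n)⁻¹⁻¹) (Nr.one.mul Q.inv)
      (by field_simp), rho_reflect hn (hs1 hn) hb (z := (L.q ^ L.n)⁻¹) Nr.one (by field_simp)]
  generalize rho (L.q ^ 1) h = f
  generalize rho (L.q ^ 1) b = g
  field_simp

end

end Pool.Agent.H27.QF
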