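import Pool.Agent.H27.QF

namespace Pool.Agent.H27.QG
open Finset Pool.Agent.H27.QD

variable {K : Type*} [Field K]

def st (A q w x : K) : K := -q * (1 - A * x) * (1 - q * x) * (1 - A * q * x ^ 2)
  / ((1 - q ^ 2 * x) * (1 - A * q * x) * (1 - A * q ^ 3 * x ^ 2))
  * ((1 - A * q * w * x) * (w - x) / ((w - q * x) * (1 - A * q ^ 2 * w * x)))

def vv (A q w : K) (k : ℕ) : K := ∏ i ∈ range k, st A q w ((q ^ 2) ^ i)

theorem vv_succ (A q w : K) (k : ℕ) : vv A q w (k + 1) = vv A q w k * st A q w ((q ^ 2) ^ k) :=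
  prod_range_succ _ _

section
variable (A q : K) (hq : q ≠ 0) (ne : ∀ j, 1 - q ^ (j + 1) ≠ 0)
  (inj : ∀ i j, q ^ i = q ^ j → i = j) (hA : ∀ j, 1 - A * q ^ j ≠ 0)
include hq ne inj hA

theorem vv_shift (N k : ℕ) :
    vv A q ((q ^ 2) ^ N) k = vv A q (q ^ 2 * (q ^ 2) ^ N) k * ((1 - A * q * (q ^ 2) ^ N)
      * (q ^ 2 * (q ^ 2) ^ N - (q ^ 2) ^ k) * (q * (q ^ 2) ^ N - 1)
      * (1 - A * q ^ 2 * (q ^ 2) ^ N * (q ^ 2) ^ k) / ((1 - A * q * (q ^ 2) ^ N * (q ^ 2) ^ k)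
        * (q ^ 2 * (q ^ 2) ^ N - 1) * (q * (q ^ 2) ^ N - (q ^ 2) ^ k)
        * (1 - A * q ^ 2 * (q ^ 2) ^ N))) := by
  have hA' : ∀ (j : ℕ) (x : K), x = A * q ^ j → 1 - x ≠ 0 := fun j x e => e ▸ hA j
  have a2 : ∀ k, q * (q ^ 2) ^ N - (q ^ 2) ^ k ≠ 0 := fun k h => by
    have := inj (2 * N + 1) (2 * k) (by linear_combination h); omega
  have a3 : q ^ 2 * (q ^ 2) ^ N - 1 ≠ 0 := fun h => ne (2 * N + 1) (by linear_combination -h)
  have a4 : ∀ k, 1 - A * q * (q ^ 2) ^ N * (q ^ 2) ^ k ≠ 0 :=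
    fun k => hA' (2 * N + 2 * k + 1) _ (by ring)
  have a7 := hA' (2 * N + 2) (A * q ^ 2 * (q ^ 2) ^ N) (by ring)
  induction k with
  | zero =>
    have := a2 0
    have := a4 0
    simp only [vv, range_zero, prod_empty, pow_zero, mul_one] at *
    field_simp
  | succ k ih =>
    have a1 : (q ^ 2) ^ N - q * (q ^ 2) ^ k ≠ 0 := fun h => by
      have := inj (2 * N) (2 * k + 1) (by linear_combination h); omega
    have a5 := hA' (2 * N + 2 * k + 2) (A * q ^ 2 * (q ^ 2) ^ N * (q ^ 2) ^ k) (by ring)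
    have a6 := hA' (2 * N + 2 * k + 4) (A * q ^ 2 * (q ^ 2 * (q ^ 2) ^ N) * (q ^ 2) ^ k) (by ring)
    have a8 := a2 k
    have a9 := a4 k
    have a0 := hA' (2 * N + 2 * k + 3) (A * q * (q ^ 2 * (q ^ 2) ^ N) * (q ^ 2) ^ k) (by ring)
    rw [vv_succ, vv_succ, ih, pow_succ' (q ^ 2) k, st, st]
    generalize vv A q (q ^ 2 * (q ^ 2) ^ N) k = u
    generalize (q ^ 2) ^ N = w at *
    generalize (q ^ 2) ^ k = x at *
    generalize -q * (1 - A * x) * (1 - q * x) * (1 - A * q * x ^ 2)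
      / ((1 - q ^ 2 * x) * (1 - A * q * x) * (1 - A * q ^ 3 * x ^ 2)) = c
    rw [show q ^ 2 * w - q ^ 2 * x = q ^ 2 * (w - x) by ring,
      show q ^ 2 * w - q * x = q * (q * w - x) by ring,
      show q * w - q ^ 2 * x = q * (w - q * x) by ring,
      show 1 - A * q ^ 2 * w * (q ^ 2 * x) = 1 - A * q ^ 2 * (q ^ 2 * w) * x by ring,
      show 1 - A * q * w * (q ^ 2 * x) = 1 - A * q * (q ^ 2 * w) * x by ring]
    generalize 1 - A * q ^ 2 * (q ^ 2 * w) * x = B1 at *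
    generalize 1 - A * q * (q ^ 2 * w) * x = B2 at *
    generalize 1 - A * q ^ 2 * w * x = B3 at *
    generalize 1 - A * q * w * x = B4 at *
    generalize 1 - A * q ^ 2 * w = B5 at *
    generalize 1 - A * q * w = B6 at *
    generalize q ^ 2 * w - x = B7 at *
    generalize q ^ 2 * w - 1 = B8 at *
    generalize q * w - x = B9 at *
    generalize q * w - 1 = C1 at *
    generalize w - q * x = C2 at *
    generalize w - x = C3 at *
    field_simp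

theorem watson (s : ℕ) :
    ∑ k ∈ range (2 * s + 1), (1 - A * ((q ^ 2) ^ k) ^ 2) * vv A q ((q ^ 2) ^ (2 * s)) k
      = (1 - A * (q ^ 2) ^ (2 * s)) * (rho (q ^ 1) (2 * s) (A / q) / rho (q ^ 1) (2 * s) 1)
        * (rho (q ^ 2) s 1 * rho (q ^ 2) s (A / q)) := by
  have hA' : ∀ (j : ℕ) (x : K), x = A * q ^ j → 1 - x ≠ 0 := fun j x e => e ▸ hA j
  have ne' : ∀ (j : ℕ) (x : K), x = q ^ (j + 1) → 1 - x ≠ 0 := fun j x e => e ▸ ne j
  have top : ∀ N, vv A q ((q ^ 2) ^ N) (N + 1) = 0 := fun N => by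
    rw [vv_succ, st]; simp
  induction s with
  | zero => simp [vv, rho]
  | succ s ih =>
    obtain ⟨M, hM⟩ : ∃ M, M = 2 * s := ⟨_, rfl⟩
    rw [← hM] at ih
    have e1 : ∑ k ∈ range (M + 1), (1 - A * ((q ^ 2) ^ k) ^ 2) * vv A q ((q ^ 2) ^ M) k
        = ∑ k ∈ range (M + 3), (1 - A * ((q ^ 2) ^ k) ^ 2) * vv A q ((q ^ 2) ^ M) k := by
      rw [sum_range_succ _ (M + 2), sum_range_succ _ (M + 1), vv_succ _ _ _ (M + 1), top]; simp
    have b1 := ne' (2 * M) (q * (q ^ 2) ^ M) (by ring)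
    have b2 := ne' (2 * M + 1) (q ^ 2 * (q ^ 2) ^ M) (by ring)
    have b3 := ne' (2 * M + 2) (q ^ 3 * (q ^ 2) ^ M) (by ring)
    have b4 := ne' (2 * M + 3) (q ^ 4 * (q ^ 2) ^ M) (by ring)
    have c1 := hA' (2 * M + 1) (A * q * (q ^ 2) ^ M) (by ring)
    have c2 := hA' (2 * M + 2) (A * q ^ 2 * (q ^ 2) ^ M) (by ring)
    have c3 := hA' (2 * M + 3) (A * q ^ 3 * (q ^ 2) ^ M) (by ring)
    have c4 := hA' (2 * M + 4) (A * q ^ 4 * (q ^ 2) ^ M) (by ring)
    have e2 : (1 - A * (q ^ 2) ^ (M + 2)) * (rho (q ^ 1) (M + 2) (A / q) / rho (q ^ 1) (M + 2) 1)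
        * (rho (q ^ 2) (s + 1) 1 * rho (q ^ 2) (s + 1) (A / q))
        = (1 - A * (q ^ 2) ^ M) * (rho (q ^ 1) M (A / q) / rho (q ^ 1) M 1)
        * (rho (q ^ 2) s 1 * rho (q ^ 2) s (A / q)) * ((1 - A * q ^ 2 * (q ^ 2) ^ M)
          * (1 - A * q ^ 4 * (q ^ 2) ^ M) * (1 - q ^ 2 * (q ^ 2) ^ M) ^ 2
            / ((1 - A * q ^ 3 * (q ^ 2) ^ M) ^ 2 * (1 - q * (q ^ 2) ^ M) * (1 - q ^ 3 * (q ^ 2) ^ M))) := by
      have r1 : ∀ Y, rho (q ^ 1) (M + 2) Y = rho (q ^ 1) M Y * ((1 - Y * q * (q ^ 2) ^ M)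
          * (1 - Y * q ^ 3 * (q ^ 2) ^ M) / ((1 - Y * q ^ 2 * (q ^ 2) ^ M)
            * (1 - Y * q ^ 4 * (q ^ 2) ^ M))) := fun Y => by
        rw [rho, prod_range_succ, prod_range_succ, ← rho, mul_assoc, div_mul_div_comm]
        congr 3 <;> ring
      have r2 : ∀ Y, rho (q ^ 2) (s + 1) Y = rho (q ^ 2) s Y * ((1 - Y * q ^ 2 * (q ^ 2) ^ M)
          / (1 - Y * q ^ 4 * (q ^ 2) ^ M)) := fun Y => by
        rw [rho, prod_range_succ, ← rho, hM]
        congr 3 <;> ring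
      rw [r1, r1, r2, r2, show A / q * q = A by field_simp,
        show A / q * q ^ 2 = A * q by field_simp, show A / q * q ^ 3 = A * q ^ 2 by field_simp,
        show A / q * q ^ 4 = A * q ^ 3 by field_simp,
        show A * (q ^ 2) ^ (M + 2) = A * q ^ 4 * (q ^ 2) ^ M by ring]
      simp only [one_mul]
      generalize (q ^ 2) ^ M = w at *
      generalize 1 - A * q ^ 4 * w = B1 at *
      generalize 1 - A * q ^ 3 * w = B2 at *
      generalize 1 - A * q ^ 2 * w = B3 at *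
      generalize 1 - A * q * w = B4 at *
      generalize 1 - q ^ 4 * w = B5 at *
      generalize 1 - q ^ 3 * w = B6 at *
      generalize 1 - q ^ 2 * w = B7 at *
      generalize 1 - q * w = B8 at *
      rw [mul_div_mul_comm]
      generalize rho (q ^ 1) M (A / q) / rho (q ^ 1) M 1 = R
      field_simp
    rw [show 2 * (s + 1) = M + 2 by omega, e2, ← ih, e1, sum_mul, ← sub_eq_zero, ← sum_sub_distrib,
      show (q ^ 2) ^ (M + 2) = q ^ 2 * (q ^ 2 * (q ^ 2) ^ M) by ring]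
    let g : ℕ → K := fun k => vv A q (q ^ 2 * (q ^ 2 * (q ^ 2) ^ M)) k * ((1 - (q ^ 2) ^ k)
      * (q - A * (q ^ 2) ^ k) * (q - A * ((q ^ 2) ^ k) ^ 2)
      * (1 - A * q ^ 4 * (q ^ 2) ^ M * (q ^ 2) ^ k) / ((1 - A * q * (q ^ 2) ^ M * (q ^ 2) ^ k)
        * (1 - A * q ^ 3 * (q ^ 2) ^ M * (q ^ 2) ^ k) * (q ^ 3 * (q ^ 2) ^ M - (q ^ 2) ^ k)))
      * (-(1 - A * q ^ 5 * ((q ^ 2) ^ M) ^ 2) * (q * (q ^ 2) ^ M) * (1 - q)
        / ((1 - q ^ 4 * (q ^ 2) ^ M) * (1 - A * q ^ 3 * (q ^ 2) ^ M)))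
    have : ∑ k ∈ range (M + 3), (g (k + 1) - g k) = 0 := by
      have t := top (M + 2)
      rw [show (q ^ 2) ^ (M + 2) = q ^ 2 * (q ^ 2 * (q ^ 2) ^ M) by ring] at t
      rw [sum_range_sub]; simp [g, t]
    rw [← this]
    refine sum_congr rfl fun k _ => ?_
    have hs := vv_shift A q hq ne inj hA M k
    have hs' := vv_shift A q hq ne inj hA (M + 1) k
    rw [pow_succ' (q ^ 2) M] at hs'
    have a1 : q * (q ^ 2) ^ M - (q ^ 2) ^ k ≠ 0 := fun h => by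
      have := inj (2 * M + 1) (2 * k) (by linear_combination h); omega
    have a2 : q ^ 3 * (q ^ 2) ^ M - (q ^ 2) ^ k ≠ 0 := fun h => by
      have := inj (2 * M + 3) (2 * k) (by linear_combination h); omega
    have a3 := hA' (2 * M + 2 * k + 1) (A * q * (q ^ 2) ^ M * (q ^ 2) ^ k) (by ring)
    have a4 := hA' (2 * M + 2 * k + 3) (A * q ^ 3 * (q ^ 2) ^ M * (q ^ 2) ^ k) (by ring)
    have a5 := hA' (2 * M + 2 * k + 5) (A * q ^ 5 * (q ^ 2) ^ M * (q ^ 2) ^ k) (by ring)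
    have a6 := hA' (2 * M + 2 * k + 6) (A * q ^ 6 * (q ^ 2) ^ M * (q ^ 2) ^ k) (by ring)
    have a7 := ne' (2 * k + 1) (q ^ 2 * (q ^ 2) ^ k) (by ring)
    have a8 := hA' (2 * k + 1) (A * q * (q ^ 2) ^ k) (by ring)
    have a9 := hA' (4 * k + 3) (A * q ^ 3 * ((q ^ 2) ^ k) ^ 2) (by ring)
    simp only [g]
    rw [hs, hs', vv_succ, pow_succ' (q ^ 2) k]
    generalize vv A q (q ^ 2 * (q ^ 2 * (q ^ 2) ^ M)) k = u
    generalize (q ^ 2) ^ M = w at *
    generalize (q ^ 2) ^ k = x at *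
    have d1 : u * ((1 - A * q * (q ^ 2 * w)) * (q ^ 2 * (q ^ 2 * w) - x) * (q * (q ^ 2 * w) - 1)
        * (1 - A * q ^ 2 * (q ^ 2 * w) * x) / ((1 - A * q * (q ^ 2 * w) * x)
          * (q ^ 2 * (q ^ 2 * w) - 1) * (q * (q ^ 2 * w) - x) * (1 - A * q ^ 2 * (q ^ 2 * w))))
        * ((1 - A * q * w) * (q ^ 2 * w - x) * (q * w - 1) * (1 - A * q ^ 2 * w * x)
          / ((1 - A * q * w * x) * (q ^ 2 * w - 1) * (q * w - x) * (1 - A * q ^ 2 * w)))
        * ((1 - A * q ^ 2 * w) * (1 - A * q ^ 4 * w) * (1 - q ^ 2 * w) ^ 2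
          / ((1 - A * q ^ 3 * w) ^ 2 * (1 - q * w) * (1 - q ^ 3 * w)))
        = u * ((1 - q ^ 2 * w) * (1 - A * q * w) * (q ^ 4 * w - x) * (q ^ 2 * w - x)
          * (1 - A * q ^ 2 * w * x) * (1 - A * q ^ 4 * w * x))
          / ((1 - q ^ 4 * w) * (1 - A * q ^ 3 * w) * ((1 - A * q * w * x)
            * (1 - A * q ^ 3 * w * x) * (q ^ 3 * w - x) * (q * w - x))) := by
      rw [show A * q * (q ^ 2 * w) = A * q ^ 3 * w by ring,
        show A * q ^ 2 * (q ^ 2 * w) = A * q ^ 4 * w by ring,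
        show q ^ 2 * (q ^ 2 * w) = q ^ 4 * w by ring, show q * (q ^ 2 * w) = q ^ 3 * w by ring,
        ← neg_sub 1 (q ^ 4 * w), ← neg_sub 1 (q ^ 3 * w), ← neg_sub 1 (q ^ 2 * w),
        ← neg_sub 1 (q * w)]
      generalize 1 - A * q ^ 4 * w * x = C1 at *
      generalize 1 - A * q ^ 3 * w * x = C2 at *
      generalize 1 - A * q ^ 2 * w * x = C3 at *
      generalize 1 - A * q * w * x = C4 at *
      generalize 1 - A * q ^ 4 * w = B1 at *
      generalize 1 - A * q ^ 3 * w = B2 at *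
      generalize 1 - A * q ^ 2 * w = B3 at *
      generalize 1 - A * q * w = B4 at *
      generalize 1 - q ^ 4 * w = B5 at *
      generalize 1 - q ^ 3 * w = B6 at *
      generalize 1 - q ^ 2 * w = B7 at *
      generalize 1 - q * w = B8 at *
      generalize q ^ 4 * w - x = D1 at *
      generalize q ^ 3 * w - x = D2 at *
      generalize q ^ 2 * w - x = D3 at *
      generalize q * w - x = D4 at *
      field_simp
    have d2 : st A q (q ^ 2 * (q ^ 2 * w)) x * ((1 - q ^ 2 * x) * (q - A * (q ^ 2 * x))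
        * (q - A * (q ^ 2 * x) ^ 2) * (1 - A * q ^ 4 * w * (q ^ 2 * x))
          / ((1 - A * q * w * (q ^ 2 * x)) * (1 - A * q ^ 3 * w * (q ^ 2 * x))
            * (q ^ 3 * w - q ^ 2 * x)))
        = -((1 - A * x) * (1 - q * x) * (q ^ 4 * w - x) * (1 - A * q * x ^ 2) * (1 - A * q * w * x))
          / ((1 - A * q * w * x) * (1 - A * q ^ 3 * w * x) * (q ^ 3 * w - x) * (q * w - x)) := by
      rw [st, show q - A * (q ^ 2 * x) = q * (1 - A * q * x) by ring,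
        show q - A * (q ^ 2 * x) ^ 2 = q * (1 - A * q ^ 3 * x ^ 2) by ring,
        show A * q ^ 4 * w * (q ^ 2 * x) = A * q ^ 6 * w * x by ring,
        show A * q ^ 3 * w * (q ^ 2 * x) = A * q ^ 5 * w * x by ring,
        show A * q * w * (q ^ 2 * x) = A * q ^ 3 * w * x by ring,
        show q ^ 3 * w - q ^ 2 * x = q ^ 2 * (q * w - x) by ring,
        show q ^ 2 * (q ^ 2 * w) - q * x = q * (q ^ 3 * w - x) by ring,
        show A * q * (q ^ 2 * (q ^ 2 * w)) = A * q ^ 5 * w by ring,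
        show A * q ^ 2 * (q ^ 2 * (q ^ 2 * w)) = A * q ^ 6 * w by ring,
        show q ^ 2 * (q ^ 2 * w) = q ^ 4 * w by ring]
      generalize 1 - A * q ^ 6 * w * x = C1 at *
      generalize 1 - A * q ^ 5 * w * x = C2 at *
      generalize 1 - A * q ^ 3 * w * x = C3 at *
      generalize 1 - A * q * w * x = C4 at *
      generalize 1 - A * q ^ 3 * x ^ 2 = B1 at *
      generalize 1 - A * q * x ^ 2 = B2 at *
      generalize 1 - A * q * x = B3 at *
      generalize 1 - A * x = B4 at *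
      generalize 1 - q ^ 2 * x = B5 at *
      generalize 1 - q * x = B6 at *
      generalize q ^ 4 * w - x = D1 at *
      generalize q ^ 3 * w - x = D2 at *
      generalize q * w - x = D4 at *
      field_simp
    rw [mul_assoc (1 - A * x ^ 2) (_ * (_ / _)), d1, mul_assoc u (st _ _ _ _), d2,
      ← mul_div_mul_right ((1 - x) * _ * _ * _) _ a1]
    have i1 := mul_inv_cancel₀ (mul_ne_zero (mul_ne_zero (mul_ne_zero a3 a4) a2) a1)
    have i2 := mul_inv_cancel₀ (mul_ne_zero b4 c3)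
    simp only [div_eq_mul_inv, mul_inv ((1 - q ^ 4 * w) * (1 - A * q ^ 3 * w))]
    generalize ((1 - A * q * w * x) * (1 - A * q ^ 3 * w * x) * (q ^ 3 * w - x) * (q * w - x))⁻¹
      = D at *
    generalize ((1 - q ^ 4 * w) * (1 - A * q ^ 3 * w))⁻¹ = E at *
    linear_combination (-(1 - A * x ^ 2) * u) * (((1 - q ^ 4 * w) * (1 - A * q ^ 3 * w) * E) * i1 + i2)

end
end Pool.Agent.H27.QG
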