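import Pool.Agent.H27.QF

namespace Pool.Agent.H27.QH
open Finset Pool.Agent.H27.QC Pool.Agent.H27.QC.Loc Pool.Agent.H27.QD Pool.Agent.H27.QF

variable {K : Type*} [Field K] [CharZero K] {L : Loc K}

theorem five {x : K} (h : x ∈ L.O) : L.E 5 (L.e ^ 5 * x) 0 := ⟨x, h, by ring⟩
theorem U2 : L.U 2 := by simpa using U.nat (L := L) (a := 2) (by norm_num)
theorem third {x : K} (h : x ∈ L.O) : x / 3 ∈ L.O :=
  div_mem' h (by simpa using U.nat (L := L) (a := 3) (by norm_num))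

/-- truncation of `tanh (d * artanh x)` -/
def th (d : ℕ) (x : K) : K := d * x - (d ^ 3 - d) / 3 * x ^ 3

theorem tanh5 {t R : K} (ht : t ∈ L.O) (hR : R * (1 - L.e * t) = 1 + L.e * t) (d : ℕ) :
    L.E 5 (R ^ d - 1) (th d (L.e * t) * (R ^ d + 1)) := by
  have m : ∀ d : ℕ, ((d : K) ^ 3 - d) / 3 ∈ L.O := fun d =>
    third (sub_mem (pow_mem (L.nat_mem d) 3) (L.nat_mem d))
  have u : ∀ c ∈ L.O, L.U (1 - L.e * c) := fun c hc =>
    E.unit (k := 0) ⟨-c, neg_mem hc, by ring⟩ U.one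
  have mt : ∀ d : ℕ, (d : K) * t - (d ^ 3 - d) / 3 * L.e ^ 2 * t ^ 3 ∈ L.O := fun d =>
    sub_mem (mul_mem (L.nat_mem d) ht) (mul_mem (mul_mem (m d) (pow_mem L.e_mem 2)) (pow_mem ht 3))
  induction d with
  | zero => exact E.of_eq (by simp [th])
  | succ d ih =>
    refine E.cancel ?_ ((u t ht).mul (u _ (mt d)))
    refine ((ih.smul (mul_mem (add_mem (one_mem _) (mul_mem L.e_mem ht)) (u _ (mt (d + 1))).1)).add
      (five (mul_mem (mul_mem (L.nat_mem 2) (pow_mem ht 5)) (sub_mem (add_mem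
        (mul_mem (L.nat_mem d) (m (d + 1))) (mul_mem (L.nat_mem (d + 1)) (m d)))
          (mul_mem (mul_mem (m d) (m (d + 1))) (pow_mem (mul_mem L.e_mem ht) 2)))))).of_sub ?_
    unfold th
    push_cast
    linear_combination R ^ d * (1 - L.e * (d * t - (d ^ 3 - d) / 3 * L.e ^ 2 * t ^ 3))
      * (1 - L.e * ((d + 1) * t - ((d + 1) ^ 3 - (d + 1)) / 3 * L.e ^ 2 * t ^ 3)) * hR

theorem sigma {P : K} (hn : 0 < L.n) (hP : P ∈ L.O) (h1 : L.E 1 (P ^ L.n) 1)
    (hu : ∀ j, 0 < j → j < L.n → L.U (1 - P ^ j)) :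
    L.E 1 (∑ i ∈ range (L.n - 1), P ^ (i + 1) / (1 - P ^ (i + 1)) ^ 2) (-((L.n ^ 2 - 1) / 12)) := by
  have key : ∀ (z : K) (N : ℕ), (1 - z) ^ 3 * ∑ j ∈ range N, (j * (L.n - j) : K) * z ^ j
      = z * ((L.n - 1) * (1 - z) - 2 * z) - z ^ N * (-(1 - z) ^ 2 * N ^ 2
        + (L.n * (1 - z) ^ 2 - 2 * z * (1 - z)) * N + z * ((L.n - 1) * (1 - z) - 2 * z)) := by
    intro z N
    induction N with
    | zero => simp
    | succ N ih => rw [sum_range_succ, mul_add, ih]; push_cast; ring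
  have un := U.nat (L := L) hn.ne'
  have n1 := L.nat_mem L.n
  refine E.cancel (z := 2 * L.n) ?_ (U2.mul un)
  have k1 : L.E 1 (∑ i ∈ range (L.n - 1), 2 * L.n * (P ^ (i + 1) / (1 - P ^ (i + 1)) ^ 2))
      (∑ i ∈ range (L.n - 1), ∑ j ∈ range L.n, (j * (L.n - j) : K) * (P ^ (i + 1)) ^ j) := by
    refine E.sum _ fun i hi => ?_
    have u := hu (i + 1) (by omega) (by have := mem_range.mp hi; omega)
    have z := pow_mem hP (i + 1)
    have z' := sub_mem (one_mem _) z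
    refine E.cancel ?_ (u.pow 3)
    rw [key]
    refine ((h1.pow (one_mem _) (i + 1)).smul (sub_mem (mul_mem z (sub_mem
      (mul_mem (sub_mem n1 (one_mem _)) z') (mul_mem U2.1 z)))
        (mul_mem (mul_mem (mul_mem U2.1 z) z') n1))).of_sub ?_
    have := u.2.2
    rw [pow_right_comm P L.n]
    field_simp
    ring
  have k2 : L.E 1 (∑ j ∈ range L.n, (j * (L.n - j) : K) * ∑ i ∈ range (L.n - 1), (P ^ (i + 1)) ^ j)
      (∑ j ∈ range L.n, -(j * (L.n - j) : K)) := by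
    refine E.sum _ fun j hj => ?_
    rcases Nat.eq_zero_or_pos j with rfl | h0
    · exact E.of_eq (by simp)
    have u := hu j h0 (mem_range.mp hj)
    refine E.cancel ?_ u
    refine ((h1.pow (one_mem _) j).smul (neg_mem (mul_mem (L.nat_mem j)
      (sub_mem n1 (L.nat_mem j))))).of_sub ?_
    have := mul_neg_geom_sum (P ^ j) L.n
    rw [show L.n = L.n - 1 + 1 by omega, sum_range_succ', Nat.sub_add_cancel hn] at this
    simp only [← pow_mul, mul_comm j] at this ⊢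
    linear_combination (j * (L.n - j) : K) * this
  have k3 : ∀ N : ℕ, ∑ j ∈ range N, -(j * (L.n - j) : K)
      = N * (N - 1) * (2 * N - 1) / 6 - L.n * (N * (N - 1) / 2) := by
    intro N
    induction N with
    | zero => simp
    | succ N ih => rw [sum_range_succ, ih]; push_cast; ring
  rw [sum_comm, ← mul_sum] at k1
  simp only [mul_sum] at k2
  refine (k1.add k2).of_sub ?_
  rw [k3]
  ring

theorem mix {x y c d z : K} (hx : Nr L x c) (hy : Nr L y d) (hz : z ∈ L.O) (u : L.U (1 - z)) :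
    N3 L ((1 - z * x) * (1 - z * y) / ((1 - z) * (1 - z * (x * y)))) 0 (c * d * (z / (1 - z) ^ 2)) := by
  have hm := div_mem' hz (u.pow 2)
  refine ⟨zero_mem _, mul_mem (mul_mem hx.1 hy.1) hm, ?_⟩
  have h1 : L.E 1 (1 - z * (x * y)) (1 - z) := ((hx.mul hy).near.smul hz).neg.of_sub (by ring)
  have h2 := (E.refl z).div (h1.smul u.1) hz (u.mul u)
  have h3 : L.E 1 (x - 1) 0 := hx.near.of_sub (by ring)
  have h4 : L.E 1 (y - 1) 0 := hy.near.of_sub (by ring)
  have h5 : L.E (1 + 1) ((x - 1) * (y - 1)) (0 * (y - 1)) := h3.mul_zero h4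
  rw [zero_mul] at h5
  refine ((h2.mul_zero h5).add (((hx.2.mul_zero h4).add (hy.2.e_mul.smul hx.1)).smul hm)).of_sub ?_
  have := u.2.2
  have h6 := (h1.unit u).2.2
  rw [show (1 - z * x) * (1 - z * y) = (1 - z) * (1 - z * (x * y)) + z * ((x - 1) * (y - 1)) by ring]
  generalize 1 - z * (x * y) = W at *
  field_simp
  ring

theorem N3prod (N : ℕ) (x s : ℕ → K) (h : ∀ i, i < N → N3 L (x i) 0 (s i)) :
    N3 L (∏ i ∈ range N, x i) 0 (∑ i ∈ range N, s i) := by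
  induction N with
  | zero => exact N3.one
  | succ N ih =>
    rw [prod_range_succ, sum_range_succ]
    exact ((ih fun i hi => h i (by omega)).mul (h N (by omega))).congr rfl (by simp) rfl

/-- the product of the ratios -/
def uu (P Q : K) (d j : ℕ) : K := ∏ i ∈ range j, (Q * ((1 - P ^ (i + 1) / Q) / (1 - P ^ (i + 1))) ^ 2) ^ d

theorem gen {P : K} {d : ℕ} (hn : 0 < L.n) (hP : L.U P) (h1 : P ^ L.n = (L.q ^ L.n) ^ d)
    (hu : ∀ j, 0 < j → j < L.n → L.U (1 - P ^ j)) : ∃ κ, L.E 1 κ (2 * (1 - P) / P) ∧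
    L.E 5 (κ * ∑ j ∈ range L.n, (1 - P * (P ^ j) ^ 2 / L.q ^ L.n) / P ^ j * uu P (L.q ^ L.n) d j)
      (L.e ^ 4 * -(d * (d - 1) ^ 2 * (2 * d - 1) * (L.n ^ 2 - 1) / 36)) := by
  have Q := (N3.qn (L := L)).nr
  have Qe : L.q ^ L.n = 1 + L.e := by unfold e; ring
  have Q0 := Q.U.2.2
  have P0 := hP.2.2
  have dm := L.nat_mem d
  have Q2 : L.E 1 (L.q ^ L.n + 1) 2 := Q.near.of_sub (by ring)
  have uQ := Q2.unit U2
  have Q1 := uQ.2.2
  obtain ⟨v, hv⟩ : ∃ v, v = ((d : K) ^ 2 - 1) / 3 * (L.q ^ L.n + 1)⁻¹ ^ 2 := ⟨_, rfl⟩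
  have vm : v ∈ L.O := hv ▸ mul_mem (third (sub_mem (pow_mem dm 2) (one_mem _))) (pow_mem uQ.2.1 2)
  obtain ⟨f, hf⟩ : ∃ f, f = (d : K) * (1 - L.e ^ 2 * v) := ⟨_, rfl⟩
  have fm : f ∈ L.O := hf ▸ mul_mem dm (sub_mem (one_mem _) (mul_mem (pow_mem L.e_mem 2) vm))
  let G : K → K := fun z => (L.q ^ L.n + 1) * (1 / z + z / L.q ^ L.n) - 4
  let F : K → K := fun z => 1 / z - z / L.q ^ L.n
  have um : ∀ j, j < L.n → L.E 1 (uu P (L.q ^ L.n) d j) 1 := fun j hj => by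
    have := E.prod (L := L) (k := 1) (range j) (g := fun _ => 1) (f := fun i =>
      (L.q ^ L.n * ((1 - P ^ (i + 1) / L.q ^ L.n) / (1 - P ^ (i + 1))) ^ 2) ^ d) (fun i hi => by
        have u := hu (i + 1) (by omega) (by have := mem_range.mp hi; omega)
        have h : L.E 1 ((1 - P ^ (i + 1) / L.q ^ L.n) / (1 - P ^ (i + 1))) 1 :=
          (Q.inv.near.smul (neg_mem (div_mem' (pow_mem hP.1 (i + 1)) u))).of_sub
            (by have := u.2.2; field_simp; ring)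
        simpa using (Q.near.mul (h.pow (one_mem _) 2) (one_mem _) (pow_mem (one_mem _) 2)).pow
          (mul_mem (one_mem _) (pow_mem (one_mem _) 2)) d) fun _ _ => one_mem _
    rwa [prod_const_one] at this
  have step : ∀ j, j + 1 < L.n → L.E 5
      (uu P (L.q ^ L.n) d j * (G (P ^ (j + 1)) + 8 * L.e ^ 2 * v + L.e * f * F (P ^ (j + 1))))
      (uu P (L.q ^ L.n) d (j + 1)
        * (G (P ^ (j + 1)) + 8 * L.e ^ 2 * v - L.e * f * F (P ^ (j + 1)))) := by
    intro j hj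
    have u := hu (j + 1) (by omega) hj
    have uz := hP.pow (j + 1)
    rw [uu, uu, prod_range_succ, ← uu]
    generalize P ^ (j + 1) = z at *
    have z0 := uz.2.2
    have z1 := u.2.2
    have Fm : F z ∈ L.O := sub_mem (div_mem' (one_mem _) uz) (div_mem' uz.1 Q.U)
    have uG : L.U (G z) := E.unit (k := 0) (y := 2 * (1 - z) ^ 2 / z)
      ⟨F z, Fm, by simp only [G, F, Qe]; rw [Qe] at Q0; field_simp; ring⟩
      ((U2.mul (u.pow 2)).div uz)
    have G0 := uG.2.2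
    have hR : L.q ^ L.n * ((1 - z / L.q ^ L.n) / (1 - z)) ^ 2 * (1 - L.e * (F z / G z))
        = 1 + L.e * (F z / G z) := by
      have e1 : G z - L.e * F z = 2 * (1 - z) ^ 2 / z := by
        simp only [G, F, Loc.e]; field_simp; ring
      have e2 : G z + L.e * F z = 2 * L.q ^ L.n * (1 - z / L.q ^ L.n) ^ 2 / z := by
        simp only [G, F, Loc.e]; field_simp; ring
      rw [← mul_div_assoc L.e, one_sub_div G0, one_add_div G0, e1, e2]
      field_simp
    have hFG : F z ^ 2 * (L.q ^ L.n + 1) ^ 2 = G z ^ 2 + 8 * G z - 4 * L.e ^ 2 / L.q ^ L.n := by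
      simp only [G, F, Loc.e]; field_simp; ring
    have k1 := tanh5 (div_mem' Fm uG) hR d
    have Rm := add_mem (pow_mem (mul_mem Q.U.1 (pow_mem (div_mem'
      (sub_mem (one_mem _) (div_mem' uz.1 Q.U)) u) 2)) d) (one_mem _)
    have m8 := L.nat_mem 8
    have m4 := L.nat_mem 4
    have c1 := mul_mem (mul_mem m4 vm) (mul_mem Q.U.2.1 (pow_mem uG.2.1 2))
    have c2 := mul_mem (mul_mem m8 vm) uG.2.1
    have k2 := five (mul_mem (mul_mem dm Fm) (add_mem c1 (mul_mem c2 (sub_mem (sub_mem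
      (mul_mem (pow_mem L.e_mem 2) c1) vm) c2))))
    refine (((k1.smul (add_mem uG.1 (mul_mem (mul_mem m8 (pow_mem L.e_mem 2)) vm))).add
      (k2.smul Rm)).neg.smul ((um j (by omega)).mem (one_mem _))).of_sub ?_
    have hv' : ((d : K) ^ 3 - d) / 3 = d * v * (L.q ^ L.n + 1) ^ 2 := by rw [hv]; field_simp
    clear_value G F
    have ht : th d (L.e * (F z / G z)) = d * L.e * F z / G z * (1 - L.e ^ 2 * v
        * (G z ^ 2 + 8 * G z - 4 * L.e ^ 2 / L.q ^ L.n) / G z ^ 2) := by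
      rw [th, hv', ← hFG]; field_simp
    have hk : (G z + 8 * L.e ^ 2 * v) * th d (L.e * (F z / G z)) - L.e * f * F z
        = L.e ^ 5 * (d * F z * (4 * v * ((L.q ^ L.n)⁻¹ * (G z)⁻¹ ^ 2) + 8 * v * (G z)⁻¹
          * (L.e ^ 2 * (4 * v * ((L.q ^ L.n)⁻¹ * (G z)⁻¹ ^ 2)) - v - 8 * v * (G z)⁻¹))) := by
      rw [ht, hf]; field_simp; ring
    push_cast
    linear_combination (-(uu P (L.q ^ L.n) d j
      * ((L.q ^ L.n * ((1 - z / L.q ^ L.n) / (1 - z)) ^ 2) ^ d + 1))) * hk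
  obtain ⟨N, hN⟩ : ∃ N, L.n = N + 1 := ⟨L.n - 1, by omega⟩
  have b1 : L.E 5 (G (P ^ L.n) + 8 * L.e ^ 2 * v + L.e * f * F (P ^ L.n))
      (G 1 + 8 * L.e ^ 2 * v - L.e * f * F 1) := by
    have k := tanh5 (R := L.q ^ L.n) uQ.2.1 (by unfold e; field_simp; ring) d
    have uy := Q.U.pow d
    refine (k.smul (div_mem' (mul_mem (sub_mem uy.1 Q.U.1) uQ.1) (uy.mul Q.U))).of_sub ?_
    have := uy.2.2
    simp only [G, F, h1, th, hf, hv, Loc.e]
    generalize (L.q ^ L.n) ^ d = y at *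
    field_simp
    ring
  have b2 : L.E 3 (G 1 + 8 * L.e ^ 2 * v - L.e * f * F 1) (L.e ^ 2 * ((d - 1) * (2 * d - 1) / 3)) := by
    have k1 := (Q.inv.near.smul (sub_mem (one_mem _) fm)).add ((E.e_zero (mul_mem (mul_mem dm vm)
      L.e_mem)).add (((Q2.inv U2).pow U2.2.1 2).smul (mul_mem (L.nat_mem 8)
        (third (sub_mem (pow_mem dm 2) (one_mem _))))))
    refine k1.e_mul.e_mul.of_sub ?_
    simp only [G, F, hf, hv, Loc.e]
    push_cast
    field_simp
    ring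
  have b3 : L.E 3 (uu P (L.q ^ L.n) d N - 1) (L.e ^ 2 * -(d * (d - 1) * (L.n ^ 2 - 1) / 12)) := by
    have k1 := N3prod N _ _ fun i hi => ((mix Q.inv (Q.mul (Nr.qn d).inv) (pow_mem hP.1 (i + 1))
      (hu (i + 1) (by omega) (by omega))).pow (2 * d)).congr rfl (mul_zero _) rfl
    have e : uu P (L.q ^ L.n) d N * uu P (L.q ^ L.n) d N = ∏ i ∈ range N,
        ((1 - P ^ (i + 1) * (L.q ^ L.n)⁻¹) * (1 - P ^ (i + 1) * (L.q ^ L.n * ((L.q ^ L.n) ^ d)⁻¹))
          / ((1 - P ^ (i + 1)) * (1 - P ^ (i + 1) * ((L.q ^ L.n)⁻¹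
            * (L.q ^ L.n * ((L.q ^ L.n) ^ d)⁻¹))))) ^ (2 * d) := by
      nth_rewrite 2 [uu]
      rw [← prod_range_reflect, uu, ← prod_mul_distrib]
      refine prod_congr rfl fun i hi => ?_
      have := mem_range.mp hi
      have h2 := (hu (N - 1 - i + 1) (by omega) (by omega)).2.2
      have h3 := (hu (i + 1) (by omega) (by omega)).2.2
      have h4 : P ^ (N - 1 - i + 1) - 1 ≠ 0 := fun h => h2 (by linear_combination -h)
      have h5 := (hP.pow (i + 1)).2.2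
      have h6 := (hP.pow (N - 1 - i + 1)).2.2
      have h7 : (L.q ^ L.n) ^ d = P ^ (i + 1) * P ^ (N - 1 - i + 1) := by
        rw [← h1, ← pow_add]; congr 1; omega
      rw [← mul_pow, pow_mul, h7]
      generalize P ^ (N - 1 - i + 1) = y at *
      generalize P ^ (i + 1) = z at *
      congr 1
      rw [show 1 - z * ((L.q ^ L.n)⁻¹ * (L.q ^ L.n * (z * y)⁻¹)) = -((1 - y) / y) by field_simp; ring]
      field_simp
      ring
    rw [← e] at k1
    have k2 := sigma hn hP.1 (h1 ▸ (Nr.qn d).near) hu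
    rw [show L.n - 1 = N by omega] at k2
    have k3 : L.E 1 (uu P (L.q ^ L.n) d N - 1) 0 := (um N (by omega)).of_sub (by ring)
    have k4 : L.E 1 (uu P (L.q ^ L.n) d N + 1) 2 := (um N (by omega)).of_sub (by ring)
    have k5 : L.E 2 (uu P (L.q ^ L.n) d N - 1) 0 :=
      E.cancel (k1.nr.2.of_sub (by ring)) (k4.unit U2)
    refine E.cancel (((k1.2.2.sub (k5.mul_zero k3)).add (k2.e_mul.e_mul.smul
      (mul_mem (mul_mem U2.1 dm) (sub_mem dm (one_mem _))))).of_sub ?_) U2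
    simp only [← mul_sum, ← mul_assoc]
    push_cast
    ring
  have mφ := third (mul_mem (sub_mem dm (one_mem _)) (sub_mem (mul_mem U2.1 dm) (one_mem _)))
  have b4 := (b2.mono (by norm_num : 2 ≤ 3)).trans (E.sq mφ)
  have mκ : -(d * (d - 1) * (L.n ^ 2 - 1) / 12 : K) ∈ L.O := by
    have := L.rat (-(d * (d - 1) * (L.n ^ 2 - 1) / 12)); push_cast at this; exact this
  refine ⟨((L.q ^ L.n + 1) * (1 - P) + L.e * f * (1 + P)) / P, ?_, ?_⟩
  · exact ((Q2.smul (div_mem' (sub_mem (one_mem _) hP.1) hP)).add (E.e_zero (div_mem'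
      (mul_mem fm (add_mem (one_mem _) hP.1)) hP))).of_sub (by ring)
  have e : ∀ j, ((L.q ^ L.n + 1) * (1 - P) + L.e * f * (1 + P)) / P
      * ((1 - P * (P ^ j) ^ 2 / L.q ^ L.n) / P ^ j * uu P (L.q ^ L.n) d j)
      = uu P (L.q ^ L.n) d j * (G (P ^ (j + 1)) + 8 * L.e ^ 2 * v + L.e * f * F (P ^ (j + 1)))
        - uu P (L.q ^ L.n) d j * (G (P ^ j) + 8 * L.e ^ 2 * v - L.e * f * F (P ^ j)) := by
    intro j
    simp only [G, F, pow_succ P j]
    field_simp
    ring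
  rw [mul_sum, sum_congr rfl fun j _ => e j, sum_sub_distrib, hN, sum_range_succ, sum_range_succ',
    ← hN]
  refine ((((E.sum (range N) fun j hj => step j (by have := mem_range.mp hj; omega)).add
    (b1.smul ((um N (by omega)).mem (one_mem _)))).add (b3.mul_zero b4)).add
      (b2.e_mul.e_mul.smul mκ)).of_sub ?_
  simp only [uu, range_zero, prod_empty, pow_zero]
  ring

end Pool.Agent.H27.QH
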