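import Mathlib
import Pool.Agent.H27.NagQ

namespace Pool.Agent.H27.QRDef

open Filter Topology MeasureTheory Pool.Agent.H27.NagQ
open scoped ContDiff

/-- `D` is a weak differential of `f` on `Ω`, and `f`, `D` are locally `n`-integrable in `Ω`:
`f ∈ W^{1,n}_loc(Ω)` with weak differential `D`. -/
def IsWeakD {n : ℕ} (Ω : Set (En n)) (f : En n → En n) (D : En n → En n →L[ℝ] En n) : Prop :=
  (∀ K ⊆ Ω, IsCompact K → MemLp f n (volume.restrict K) ∧ MemLp D n (volume.restrict K)) ∧
  ∀ φ : En n → ℝ, ContDiff ℝ ∞ φ → HasCompactSupport φ → tsupport φ ⊆ Ω →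
    ∀ (v : En n) (i : Fin n), ∫ x, fderiv ℝ φ x v * f x i = -∫ x, φ x * D x v i

/-- Quasiregular on `Ω` (analytic definition). -/
def IsQR {n : ℕ} (Ω : Set (En n)) (f : En n → En n) : Prop :=
  ContinuousOn f Ω ∧ ∃ D : En n → En n →L[ℝ] En n, IsWeakD Ω f D ∧
    ∃ K : ℝ, 1 ≤ K ∧ ∀ᵐ x ∂(volume.restrict Ω), ‖D x‖ ^ n ≤ K * (D x).det

/-- The branch set: points of `Ω` at which `f` is not a local homeomorphism. -/
def branch {n : ℕ} (Ω : Set (En n)) (f : En n → En n) : Set (En n) :=
  {x | x ∈ Ω ∧ ¬ ∃ e : OpenPartialHomeomorph (En n) (En n),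
    x ∈ e.source ∧ e.source ⊆ Ω ∧ Set.EqOn f e e.source}

theorem weakD_of_lip {n : ℕ} {Ω : Set (En n)} (hΩ : IsOpen Ω) {f : En n → En n}
    (hf : LocallyLipschitzOn Ω f) (C : ℝ) (hC : ∀ x ∈ Ω, ‖fderiv ℝ f x‖ ≤ C)
    (hd : ∀ᵐ x, x ∈ Ω → DifferentiableAt ℝ f x) : IsWeakD Ω f (fderiv ℝ f) := by
  refine ⟨fun K hK hc => ?_, fun φ hφ hφc hφs v i => ?_⟩
  · haveI : IsFiniteMeasure (volume.restrict K) := isFiniteMeasure_restrict.2 hc.measure_lt_top.ne
    have hcont : ContinuousOn f K := hf.continuousOn.mono hK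
    obtain ⟨B, hB⟩ := hc.exists_bound_of_continuousOn hcont
    refine ⟨MemLp.of_bound (hcont.aestronglyMeasurable hc.measurableSet) B ?_,
      MemLp.of_bound (measurable_fderiv ℝ f).aestronglyMeasurable C ?_⟩
    · exact (ae_restrict_iff' hc.measurableSet).2 (Eventually.of_forall hB)
    · exact (ae_restrict_iff' hc.measurableSet).2 (Eventually.of_forall fun x hx => hC x (hK hx))
  · obtain ⟨L, hL, h1, h2⟩ := exists_compact_between hφc hΩ hφs
    obtain ⟨K0, hK0⟩ := (hf.mono h2).exists_lipschitzOnWith_of_compact hL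
    have hi : LipschitzOnWith K0 (fun x => f x i) L := by
      refine LipschitzOnWith.of_dist_le_mul fun x hx y hy => ?_
      exact (PiLp.dist_apply_le _ _ i).trans (hK0.dist_le_mul x hx y hy)
    obtain ⟨g, hg, hfg⟩ := hi.extend_real
    obtain ⟨K1, hK1⟩ := ContDiff.lipschitzWith_of_hasCompactSupport hφc hφ (by simp)
    have key := hg.integral_lineDeriv_mul_eq (μ := volume) hK1 hφc v
    have e1 : ∫ x, lineDeriv ℝ g x v * φ x = ∫ x, φ x * fderiv ℝ f x v i := by
      refine integral_congr_ae ?_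
      filter_upwards [hd] with x hx
      by_cases hs : x ∈ tsupport φ
      · have hxL : L ∈ 𝓝 x := mem_interior_iff_mem_nhds.1 (h1 hs)
        have hdx := (hx (hφs hs)).hasFDerivAt
        have h3 : HasFDerivAt (fun y => f y i)
            ((EuclideanSpace.proj i : En n →L[ℝ] ℝ).comp (fderiv ℝ f x)) x :=
          (EuclideanSpace.proj i : En n →L[ℝ] ℝ).hasFDerivAt.comp x hdx
        have h4 : HasFDerivAt g ((EuclideanSpace.proj i : En n →L[ℝ] ℝ).comp (fderiv ℝ f x)) x :=
          h3.congr_of_eventuallyEq (mem_of_superset hxL fun y hy => (hfg hy).symm)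
        rw [(h4.hasLineDerivAt v).lineDeriv, mul_comm]; rfl
      · simp [image_eq_zero_of_notMem_tsupport hs]
    have e2 : ∫ x, lineDeriv ℝ φ x (-v) * g x = -∫ x, fderiv ℝ φ x v * f x i := by
      rw [← integral_neg]
      refine integral_congr_ae (Eventually.of_forall fun x => ?_)
      simp only
      rw [(hφ.differentiable (by simp)).differentiableAt.lineDeriv_eq_fderiv, map_neg]
      by_cases hs : x ∈ tsupport φ
      · rw [← hfg (interior_subset (h1 hs))]; ring
      · have : fderiv ℝ φ x = 0 := by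
          by_contra h
          exact hs (support_fderiv_subset ℝ h)
        simp [this]
    rw [e1, e2] at key
    rw [key, neg_neg]

lemma null_hyper {n : ℕ} (i j : Fin n) (hij : i ≠ j) (β c : ℝ) :
    volume {z : En n | z i + β * z j = c} = 0 := by
  let s : AffineSubspace ℝ (En n) :=
    { carrier := {z : En n | z i + β * z j = c}
      smul_vsub_vadd_mem' := by
        intro t p q r hp hq hr
        have hp' : p i + β * p j = c := hp
        have hq' : q i + β * q j = c := hq
        have hr' : r i + β * r j = c := hr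
        show (t • (p - q) + r) i + β * (t • (p - q) + r) j = c
        simp only [PiLp.add_apply, PiLp.smul_apply, PiLp.sub_apply, smul_eq_mul]
        linear_combination t * hp' - t * hq' + hr' }
  refine Measure.addHaar_affineSubspace volume s fun h => ?_
  have : (WithLp.toLp 2 fun k => if k = i then c + 1 else 0 : En n) ∈ s := h ▸ trivial
  have h2 : (WithLp.toLp 2 fun k => if k = i then c + 1 else 0 : En n) i +
    β * (WithLp.toLp 2 fun k => if k = i then c + 1 else 0 : En n) j = c := this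
  simp [hij.symm] at h2

lemma not_nagLE' {X : Type} [MetricSpace X] {d : ℕ} (G : (Fin d → ℕ) → X) (C : ℝ) (hC : 0 < C)
    (h1 : ∀ v w i, |(v i : ℝ) - w i| ≤ C * dist (G v) (G w) + C)
    (h2 : ∀ v w, (∀ i, |(v i : ℝ) - w i| ≤ 1) → dist (G v) (G w) ≤ C)
    (k : ℕ) (hk : k < d) : ¬ NagLE X k := by
  rintro ⟨c, hc, h⟩
  obtain ⟨𝒞, g1, g2, g3⟩ := h C hC
  have hex : ∀ v, ∃ B ∈ 𝒞, G v ∈ B := fun v => by
    have : G v ∈ ⋃₀ 𝒞 := g1 ▸ Set.mem_univ _
    exact this
  choose U hU1 hU2 using hex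
  obtain ⟨N, hN⟩ := exists_nat_gt (C * (c * C) + C)
  have hpos : 0 < c * C := by positivity
  refine Pool.Agent.H51.LebN.lebesgue d N
    (by exact_mod_cast (lt_trans (by positivity) hN : (0 : ℝ) < N)) U (fun v w e i => ?_)
    (fun v => ?_)
  · have := (Metric.edist_le_ediam_of_mem (hU2 v) (e ▸ hU2 w)).trans (g2 _ (hU1 v))
    rw [edist_dist, ENNReal.ofReal_le_ofReal_iff hpos.le] at this
    have a := abs_le.1 (h1 v w i)
    have b := mul_le_mul_of_nonneg_left this hC.le
    have : (v i : ℝ) < w i + N := by linarith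
    exact_mod_cast this
  · have := g3 (G '' {w | ∀ i, v i ≤ w i ∧ w i ≤ v i + 1}) (by
      refine Metric.ediam_le ?_
      rintro _ ⟨w, hw, rfl⟩ _ ⟨w', hw', rfl⟩
      rw [edist_dist]
      refine ENNReal.ofReal_le_ofReal (h2 _ _ fun i => ?_)
      have c1 : (v i : ℝ) ≤ w i := by exact_mod_cast (hw i).1
      have c2 : (w i : ℝ) ≤ v i + 1 := by exact_mod_cast (hw i).2
      have c3 : (v i : ℝ) ≤ w' i := by exact_mod_cast (hw' i).1
      have c4 : (w' i : ℝ) ≤ v i + 1 := by exact_mod_cast (hw' i).2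
      rw [abs_le]; constructor <;> linarith)
    refine le_trans (Set.encard_le_encard ?_) (this.trans ?_)
    · rintro B ⟨w, hw, rfl⟩
      exact ⟨hU1 w, G w, ⟨w, hw, rfl⟩, hU2 w⟩
    · exact_mod_cast hk

/-- A linear map acting by a `2 × 2` block on the first two coordinates. -/
noncomputable def blk {m : ℕ} (a b c d : ℝ) : En (m + 2) →L[ℝ] En (m + 2) :=
  LinearMap.toContinuousLinearMap (Matrix.toLpLin 2 2
    (1 + (Matrix.of fun (i : Fin (m + 2)) (k : Fin 2) =>
        if i = Fin.castLE (by omega) k then (1 : ℝ) else 0) *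
      (!![a - 1, b; c, d - 1] * Matrix.of fun (k : Fin 2) (i : Fin (m + 2)) =>
        if i = Fin.castLE (by omega) k then (1 : ℝ) else 0)))

lemma blk_apply {m : ℕ} (a b c d : ℝ) (z : En (m + 2)) (i : Fin (m + 2)) :
    blk a b c d z i = if i = 0 then a * z 0 + b * z 1 else if i = 1 then c * z 0 + d * z 1
      else z i := by
  have e0 : (Fin.castLE (by omega) (0 : Fin 2) : Fin (m + 2)) = 0 := rfl
  have e1 : (Fin.castLE (by omega) (1 : Fin 2) : Fin (m + 2)) = 1 := rfl
  simp only [blk, LinearMap.coe_toContinuousLinearMap', Matrix.toLpLin_apply, Matrix.add_mulVec,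
    Matrix.one_mulVec, ← Matrix.mulVec_mulVec]
  simp only [Pi.add_apply, Matrix.mulVec, dotProduct, Fin.sum_univ_two, Matrix.of_apply, e0, e1]
  by_cases h0 : i = 0
  · subst h0; simp; ring
  · by_cases h1 : i = 1
    · subst h1; simp; ring
    · simp [h0, h1]

lemma blk_det {m : ℕ} (a b c d : ℝ) : (blk (m := m) a b c d).det = a * d - b * c := by
  rw [ContinuousLinearMap.det, blk, LinearMap.coe_toContinuousLinearMap, Matrix.toLpLin_eq_toLin,
    LinearMap.det_toLin, Matrix.det_one_add_mul_comm, Matrix.mul_assoc]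
  have : (Matrix.of fun (k : Fin 2) (i : Fin (m + 2)) =>
        if i = Fin.castLE (by omega) k then (1 : ℝ) else 0) *
      (Matrix.of fun (i : Fin (m + 2)) (k : Fin 2) =>
        if i = Fin.castLE (by omega) k then (1 : ℝ) else 0) = 1 := by
    ext k l
    simp only [Matrix.mul_apply, Matrix.of_apply, ite_mul, one_mul, zero_mul, Finset.sum_ite_eq',
      Finset.mem_univ, if_true, Matrix.one_apply, Fin.castLE_inj]
  rw [this, Matrix.mul_one, Matrix.det_fin_two]
  simp

lemma abs_loc {X : Type*} [TopologicalSpace X] {g : X → ℝ} (hg : Continuous g) {z : X}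
    (h : g z ≠ 0) : ∃ σ : ℝ, ((σ = 1 ∧ 0 < g z) ∨ (σ = -1 ∧ g z < 0)) ∧
      ∀ᶠ w in 𝓝 z, |g w| = σ * g w := by
  rcases lt_or_gt_of_ne h with h | h
  · refine ⟨-1, Or.inr ⟨rfl, h⟩, ?_⟩
    filter_upwards [hg.continuousAt.eventually (gt_mem_nhds h)] with w hw
    rw [abs_of_neg hw]; ring
  · refine ⟨1, Or.inl ⟨rfl, h⟩, ?_⟩
    filter_upwards [hg.continuousAt.eventually (lt_mem_nhds h)] with w hw
    rw [abs_of_pos hw]; ring

end Pool.Agent.H27.QRDef
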