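import Mathlib
import Pool.Agent.H27.QRDef

namespace Pool.Agent.H27.QRBranch

open Filter Topology MeasureTheory Pool.Agent.H27.NagQ Pool.Agent.H27.QRDef

variable {m : ℕ}

noncomputable def w2 (z : En (m + 3)) : ℝ := (|z 0 + z 1| - |z 0 - z 1|) / 2
noncomputable def ramp (a s : ℝ) : ℝ := max 0 (min a (s + a))

noncomputable def FF (a : ℝ) (z : En (m + 3)) : En (m + 3) :=
  WithLp.toLp 2 fun i => if i = 0 then |z 0| - |z 1| + ramp a (w2 z) else
    if i = 1 then w2 z else z i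

lemma FF_apply (a : ℝ) (z : En (m + 3)) (i : Fin (m + 3)) : FF a z i =
    if i = 0 then |z 0| - |z 1| + ramp a (w2 z) else if i = 1 then w2 z else z i := rfl

lemma ramp_lip (a s t : ℝ) : |ramp a s - ramp a t| ≤ |s - t| := by
  unfold ramp
  refine (abs_max_sub_max_le_max _ _ _ _).trans (max_le (by simp) ?_)
  refine (abs_min_sub_min_le_max _ _ _ _).trans (max_le (by simp) (by simp))

lemma w2_lip (y z : En (m + 3)) : |w2 y - w2 z| ≤ 2 * dist y z := by
  have a := abs_le.1 (coord_le y z 0)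
  have b := abs_le.1 (coord_le y z 1)
  have c := abs_le.1 ((abs_abs_sub_abs_le_abs_sub (y 0 + y 1) (z 0 + z 1)).trans
    (abs_le.2 ⟨by linarith, by linarith⟩ : |y 0 + y 1 - (z 0 + z 1)| ≤ 2 * dist y z))
  have d := abs_le.1 ((abs_abs_sub_abs_le_abs_sub (y 0 - y 1) (z 0 - z 1)).trans
    (abs_le.2 ⟨by linarith, by linarith⟩ : |y 0 - y 1 - (z 0 - z 1)| ≤ 2 * dist y z))
  unfold w2
  rw [abs_le]; constructor <;> linarith

lemma FF_lip (a : ℝ) : LipschitzWith (((m + 3 : ℕ) + 1) * 4) (FF (m := m) a) := by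
  refine LipschitzWith.of_dist_le_mul fun y z => ?_
  have := dist_le_card (FF a y) (FF a z) (4 * dist y z) (by positivity) fun i => by
    have hd : 0 ≤ dist y z := dist_nonneg
    rw [FF_apply, FF_apply]
    split_ifs
    · have a1 := abs_le.1 ((abs_abs_sub_abs_le_abs_sub (y 0) (z 0)).trans (coord_le y z 0))
      have a2 := abs_le.1 ((abs_abs_sub_abs_le_abs_sub (y 1) (z 1)).trans (coord_le y z 1))
      have a3 := abs_le.1 ((ramp_lip a (w2 y) (w2 z)).trans (w2_lip y z))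
      rw [abs_le]; constructor <;> linarith
    · linarith [w2_lip y z]
    · linarith [coord_le y z i]
  push_cast at this ⊢
  linarith

lemma w2_cont : Continuous (w2 (m := m)) := by unfold w2; fun_prop

lemma ramp_loc {a : ℝ} (ha : 0 ≤ a) {z : En (m + 3)} (h0 : w2 z ≠ 0) (h1 : w2 z ≠ -a) :
    ∃ b τ : ℝ, ∀ᶠ w in 𝓝 z, ramp a (w2 w) = b + τ * w2 w := by
  rcases lt_or_gt_of_ne h0 with h | h
  · rcases lt_or_gt_of_ne h1 with g | g
    · refine ⟨0, 0, ?_⟩
      filter_upwards [w2_cont.continuousAt.eventually (gt_mem_nhds g)] with w hw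
      rw [ramp, max_eq_left ((min_le_right _ _).trans (by linarith))]; ring
    · refine ⟨a, 1, ?_⟩
      filter_upwards [w2_cont.continuousAt.eventually (gt_mem_nhds h),
        w2_cont.continuousAt.eventually (lt_mem_nhds g)] with w hw hw'
      rw [ramp, min_eq_right (by linarith), max_eq_right (by linarith)]; ring
  · refine ⟨a, 0, ?_⟩
    filter_upwards [w2_cont.continuousAt.eventually (lt_mem_nhds h)] with w hw
    rw [ramp, min_eq_left (by linarith), max_eq_right ha]; ring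

lemma FF_deriv (a : ℕ) (z : En (m + 3)) (h0 : ∀ k : ℤ, z 0 ≠ k) (h1 : ∀ k : ℤ, z 1 ≠ k)
    (h2 : z 0 + z 1 ≠ 0) (h3 : z 0 - z 1 ≠ 0) :
    ∃ L : En (m + 3) →L[ℝ] En (m + 3), HasFDerivAt (FF a) L z ∧ L.det = 1 := by
  obtain ⟨s1, p1, q1⟩ := abs_loc (g := fun w : En (m + 3) => w 0) (by fun_prop) (z := z)
    (by simpa using h0 0)
  obtain ⟨s2, p2, q2⟩ := abs_loc (g := fun w : En (m + 3) => w 1) (by fun_prop) (z := z)
    (by simpa using h1 0)
  obtain ⟨s3, p3, q3⟩ := abs_loc (g := fun w : En (m + 3) => w 0 + w 1) (by fun_prop) (z := z) h2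
  obtain ⟨s4, p4, q4⟩ := abs_loc (g := fun w : En (m + 3) => w 0 - w 1) (by fun_prop) (z := z) h3
  have hw : w2 z = (s3 * (z 0 + z 1) - s4 * (z 0 - z 1)) / 2 := by
    rw [w2, q3.self_of_nhds, q4.self_of_nhds]
  have hne : ∀ k : ℤ, w2 z ≠ k := by
    intro k hk
    rw [hw] at hk
    rcases p3 with ⟨rfl, -⟩ | ⟨rfl, -⟩ <;> rcases p4 with ⟨rfl, -⟩ | ⟨rfl, -⟩
    · exact h1 k (by linarith)
    · exact h0 k (by linarith)
    · exact h0 (-k) (by push_cast; linarith)
    · exact h1 (-k) (by push_cast; linarith)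
  obtain ⟨b, τ, q5⟩ := ramp_loc (a := a) (by positivity) (z := z) (by simpa using hne 0)
    (by simpa using hne (-a))
  let L : En (m + 3) →L[ℝ] En (m + 3) := blk (m := m + 1) (s1 + τ * (s3 - s4) / 2)
    (-s2 + τ * (s3 + s4) / 2) ((s3 - s4) / 2) ((s3 + s4) / 2)
  refine ⟨L, ?_, ?_⟩
  · refine (L.hasFDerivAt.const_add
      (WithLp.toLp 2 fun i => if i = 0 then b else 0 : En (m + 3))).congr_of_eventuallyEq ?_
    filter_upwards [q1, q2, q3, q4, q5] with w r1 r2 r3 r4 r5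
    ext i
    rw [FF_apply, PiLp.add_apply, blk_apply, r5, r1, r2, w2, r3, r4]
    split_ifs with g1 g2
    · simp [g1]; ring
    · simp [g1]; ring
    · simp [g1]
  · rw [blk_det]
    simp only at p1 p2 p3 p4
    rcases p1 with ⟨rfl, _⟩ | ⟨rfl, _⟩ <;> rcases p2 with ⟨rfl, _⟩ | ⟨rfl, _⟩ <;>
      rcases p3 with ⟨rfl, _⟩ | ⟨rfl, _⟩ <;> rcases p4 with ⟨rfl, _⟩ | ⟨rfl, _⟩ <;>
      first | (exfalso; linarith) | ring

noncomputable def aa (u : ℝ) : ℕ := min (⌊1 / Int.fract u⌋₊ - 2) ⌊u⌋₊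

lemma aa_le (u : ℝ) : (aa u : ℝ) ≤ |u| := by
  have : (aa u : ℝ) ≤ ⌊u⌋₊ := by exact_mod_cast min_le_right _ _
  refine this.trans ?_
  rcases le_total 0 u with h | h
  · exact (Nat.floor_le h).trans (le_abs_self u)
  · rw [Nat.floor_of_nonpos h]; simp

lemma aa_eq (a k : ℕ) (hk : k ≤ a) (u : ℝ) (h1 : (a : ℝ) + 1 / (k + 3) < u)
    (h2 : u < a + 1 / (k + 2)) : aa u = k := by
  have hk0 : (0 : ℝ) ≤ k := by positivity
  have p1 : (0 : ℝ) < 1 / (k + 3) := by positivity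
  have p2 : (1 : ℝ) / (k + 2) ≤ 1 := by rw [div_le_one (by positivity)]; linarith
  have hf : Int.fract u = u - a := by
    rw [Int.fract_eq_iff]
    exact ⟨by linarith, by linarith, a, by simp⟩
  have hpos : 0 < u - a := by linarith
  have ha0 : (0 : ℝ) ≤ a := by positivity
  have : ⌊1 / Int.fract u⌋₊ = k + 2 := by
    rw [hf, Nat.floor_eq_iff (by positivity)]
    push_cast
    constructor
    · rw [le_div_iff₀ hpos]
      have : u - a < 1 / (k + 2) := by linarith
      rw [lt_div_iff₀ (by positivity)] at this; linarith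
    · rw [div_lt_iff₀ hpos]
      have : 1 / ((k : ℝ) + 3) < u - a := by linarith
      rw [div_lt_iff₀ (by positivity)] at this; linarith
  have h3 : ⌊u⌋₊ = a := by
    rw [Nat.floor_eq_iff (by linarith)]; constructor <;> linarith
  rw [aa, this, h3]; simp [hk]

def HH (m : ℕ) : Set (En (m + 3)) := {x | |x 2| < x 0 ∧ |x 2| < -x 1}

def Om (m : ℕ) : Set (En (m + 3)) := {x | x ∈ HH m ∨ ∀ᶠ w in 𝓝 (x 2), aa w = aa (x 2)}

noncomputable def ff (x : En (m + 3)) : En (m + 3) := FF (aa (x 2)) x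

lemma HH_open : IsOpen (HH m) := by
  have h1 : IsOpen {x : En (m + 3) | |x 2| < x 0} := isOpen_lt (by fun_prop) (by fun_prop)
  have h2 : IsOpen {x : En (m + 3) | |x 2| < -x 1} := isOpen_lt (by fun_prop) (by fun_prop)
  exact h1.inter h2

lemma HH_w2 {x : En (m + 3)} (hx : x ∈ HH m) : w2 x < -|x 2| := by
  obtain ⟨h1, h2⟩ := hx
  have h0 := abs_nonneg (x 2)
  unfold w2
  rw [abs_of_pos (by linarith : 0 < x 0 - x 1)]
  rcases abs_cases (x 0 + x 1) with ⟨h, -⟩ | ⟨h, -⟩ <;> rw [h] <;> linarith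

lemma FF_far {a : ℝ} {x : En (m + 3)} (h : w2 x + a ≤ 0) : FF a x = FF 0 x := by
  have e : ∀ b : ℝ, w2 x + b ≤ 0 → ramp b (w2 x) = 0 := fun b hb => by
    rw [ramp, max_eq_left ((min_le_right _ _).trans hb)]
  have e0 : ramp 0 (w2 x) = 0 := by rw [ramp, max_eq_left (min_le_left _ _)]
  ext i
  rw [FF_apply, FF_apply, e a h, e0]

lemma Om_loc {x : En (m + 3)} (hx : x ∈ Om m) :
    ∃ a : ℕ, ∀ᶠ y in 𝓝 x, y ∈ Om m ∧ ff y = FF a y := by
  have c1 : Continuous fun y : En (m + 3) => y 2 := by fun_prop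
  rcases hx with hx | hx
  · refine ⟨0, ?_⟩
    filter_upwards [HH_open.mem_nhds hx] with y hy
    refine ⟨Or.inl hy, ?_⟩
    rw [ff, FF_far (by linarith [HH_w2 hy, aa_le (y 2)])]; simp
  · refine ⟨aa (x 2), ?_⟩
    filter_upwards [c1.continuousAt.eventually hx.eventually_nhds, c1.continuousAt.eventually hx]
      with y hy hy'
    refine ⟨Or.inr ?_, by rw [ff, hy']⟩
    filter_upwards [hy] with w hw
    rw [hw, hy']

lemma Om_open : IsOpen (Om m) :=
  isOpen_iff_mem_nhds.2 fun _ hx => by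
    obtain ⟨a, ha⟩ := Om_loc hx
    exact ha.mono fun _ h => h.1

lemma v2 : ((2 : Fin (m + 3)) : ℕ) = 2 := rfl
lemma h02 : (2 : Fin (m + 3)) ≠ 0 := fun h => by
  have := congrArg Fin.val h; rw [v2] at this; simp at this
lemma h12 : (2 : Fin (m + 3)) ≠ 1 := fun h => by
  have := congrArg Fin.val h; rw [v2] at this; simp at this

lemma Om_conn : IsConnected (Om m) := by
  have hH : Convex ℝ (HH m) := by
    intro x hx y hy a b ha hb hab
    obtain ⟨x1, x2⟩ := hx
    obtain ⟨y1, y2⟩ := hy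
    have key : ∀ p q : ℝ, |x 2| < p → |y 2| < q → |a * x 2 + b * y 2| < a * p + b * q := by
      intro p q hp hq
      have : |a * x 2 + b * y 2| ≤ a * |x 2| + b * |y 2| := by
        refine (abs_add_le _ _).trans ?_
        rw [abs_mul, abs_mul, abs_of_nonneg ha, abs_of_nonneg hb]
      refine lt_of_le_of_lt this ?_
      rcases eq_or_lt_of_le ha with h | h
      · subst h; simp at hab; simp [hab, hq]
      · nlinarith
    constructor
    · simpa using key _ _ x1 y1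
    · have := key _ _ x2 y2
      simp only [PiLp.add_apply, PiLp.smul_apply, smul_eq_mul]
      linarith
  let q : ℝ → En (m + 3) := fun u =>
    WithLp.toLp 2 fun i => if i = 0 then |u| + 1 else if i = 1 then -(|u| + 1) else u
  have hq2 : ∀ u, q u 2 = u := fun u => by simp [q, h02, h12]
  have hq : ∀ u, q u ∈ HH m := fun u => by
    constructor
    · rw [hq2]; simp [q]
    · rw [hq2]; simp [q]
  refine ⟨⟨q 0, Or.inl (hq 0)⟩, isPreconnected_of_forall (q 0) fun y hy => ?_⟩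
  rcases hy with hy | hy
  · exact ⟨HH m, fun x hx => Or.inl hx, hq 0, hy, hH.isPreconnected⟩
  · let L : Set (En (m + 3)) := {x | x 2 = y 2}
    have hL : Convex ℝ L := by
      intro x hx z hz a b ha hb hab
      show (a • x + b • z) 2 = y 2
      have hx' : x 2 = y 2 := hx
      have hz' : z 2 = y 2 := hz
      simp only [PiLp.add_apply, PiLp.smul_apply, smul_eq_mul, hx', hz']
      rw [← add_mul, hab, one_mul]
    refine ⟨HH m ∪ L, ?_, Or.inl (hq 0), Or.inr rfl,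
      IsPreconnected.union (q (y 2)) (hq _) (hq2 _) hH.isPreconnected hL.isPreconnected⟩
    rintro x (hx | hx)
    · exact Or.inl hx
    · right; have hx' : x 2 = y 2 := hx; rw [hx']; exact hy

lemma ff_locLip : LocallyLipschitzOn (Om m) ff := by
  intro x hx
  obtain ⟨a, ha⟩ := Om_loc hx
  refine ⟨((m + 3 : ℕ) + 1) * 4, {y | y ∈ Om m ∧ ff y = FF a y},
    mem_nhdsWithin_of_mem_nhds ha, ?_⟩
  intro y hy z hz
  rw [hy.2, hz.2]
  exact FF_lip a y z

lemma ff_bd (x : En (m + 3)) (hx : x ∈ Om m) : ‖fderiv ℝ ff x‖ ≤ ((m + 3 : ℕ) + 1) * 4 := by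
  obtain ⟨a, ha⟩ := Om_loc hx
  have : ff =ᶠ[𝓝 x] FF a := ha.mono fun _ h => h.2
  rw [this.fderiv_eq]
  simpa using norm_fderiv_le_of_lipschitz ℝ (FF_lip (m := m) a)

lemma ff_ae : ∀ᵐ x : En (m + 3), x ∈ Om m →
    DifferentiableAt ℝ ff x ∧ (fderiv ℝ ff x).det = 1 := by
  have n0 : ∀ᵐ x : En (m + 3), ∀ k : ℤ, x 0 ≠ k := ae_all_iff.2 fun k => by
    have := null_hyper (0 : Fin (m + 3)) 1 (by simp) 0 k
    simp only [zero_mul, add_zero] at this
    exact measure_eq_zero_iff_ae_notMem.1 this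
  have n1 : ∀ᵐ x : En (m + 3), ∀ k : ℤ, x 1 ≠ k := ae_all_iff.2 fun k => by
    have := null_hyper (1 : Fin (m + 3)) 0 (by simp) 0 k
    simp only [zero_mul, add_zero] at this
    exact measure_eq_zero_iff_ae_notMem.1 this
  have n2 : ∀ᵐ x : En (m + 3), x 0 + x 1 ≠ 0 := by
    have := null_hyper (0 : Fin (m + 3)) 1 (by simp) 1 0
    simp only [one_mul] at this
    exact measure_eq_zero_iff_ae_notMem.1 this
  have n3 : ∀ᵐ x : En (m + 3), x 0 - x 1 ≠ 0 := by
    have := null_hyper (0 : Fin (m + 3)) 1 (by simp) (-1) 0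
    simp only [neg_mul, one_mul, ← sub_eq_add_neg] at this
    exact measure_eq_zero_iff_ae_notMem.1 this
  filter_upwards [n0, n1, n2, n3] with x g0 g1 g2 g3 hx
  obtain ⟨a, ha⟩ := Om_loc hx
  have e : ff =ᶠ[𝓝 x] FF a := ha.mono fun _ h => h.2
  obtain ⟨L, hL, hdet⟩ := FF_deriv a x g0 g1 g2 g3
  have := hL.congr_of_eventuallyEq e
  exact ⟨this.differentiableAt, by rw [this.fderiv, hdet]⟩

lemma ff_qr : IsQR (Om m) ff := by
  refine ⟨ff_locLip.continuousOn, fderiv ℝ ff,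
    weakD_of_lip Om_open ff_locLip _ ff_bd (ff_ae.mono fun x h hx => (h hx).1),
    ((((m + 3 : ℕ) : ℝ) + 1) * 4) ^ (m + 3), one_le_pow₀ ?_, ?_⟩
  · have : (0 : ℝ) ≤ ((m + 3 : ℕ) : ℝ) := by positivity
    linarith
  · refine (ae_restrict_iff' Om_open.measurableSet).2 (ff_ae.mono fun x h hx => ?_)
    rw [(h hx).2, mul_one]
    exact pow_le_pow_left₀ (norm_nonneg _) (ff_bd x hx) _

lemma axis_branch {x : En (m + 3)} (hx : x ∈ Om m) (h0 : x 0 = 0) (h1 : x 1 = 0) :
    x ∈ branch (Om m) ff := by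
  refine ⟨hx, ?_⟩
  rintro ⟨e, he, -, heq⟩
  let r : ℝ → En (m + 3) := fun t => WithLp.toLp 2 fun i => if i = 0 then t else x i
  have hr : Continuous r := by
    refine (PiLp.continuous_toLp 2 _).comp (continuous_pi fun i => ?_)
    split_ifs <;> fun_prop
  have hr0 : r 0 = x := by ext i; by_cases h : i = 0 <;> simp [r, h, h0]
  have hev : ∀ᶠ t in 𝓝 (0 : ℝ), r t ∈ e.source :=
    hr.continuousAt.eventually (e.open_source.mem_nhds (hr0 ▸ he))
  obtain ⟨δ, hδ, hb⟩ := Metric.eventually_nhds_iff.1 hev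
  have a1 : r (δ / 2) ∈ e.source := hb (by rw [Real.dist_eq, sub_zero, abs_of_pos] <;> linarith)
  have a2 : r (-(δ / 2)) ∈ e.source :=
    hb (by rw [Real.dist_eq, sub_zero, abs_neg, abs_of_pos] <;> linarith)
  have hw : ∀ t, w2 (r t) = 0 := fun t => by simp [w2, r, h1]
  have e3 : ff (r (δ / 2)) = ff (r (-(δ / 2))) := by
    ext i
    rw [ff, ff, FF_apply, FF_apply, hw, hw]
    split_ifs with g1 g2
    · simp [r, h02]
    · rfl
    · simp [r, g1]
  have := e.injOn a1 a2 (by rw [← heq a1, ← heq a2, e3])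
  have := congrArg (fun y : En (m + 3) => y 0) this
  simp [r] at this
  linarith

noncomputable def pt (v : Fin (m + 2) → ℕ) : En (m + 3) :=
  WithLp.toLp 2 (Fin.cons 0 fun j : Fin (m + 2) => if j = 0 then (0 : ℝ) else
    if j = 1 then (v 0 : ℝ) + v 1 + 2 / (2 * v 0 + 5) else v j)

lemma pt0 (v : Fin (m + 2) → ℕ) : pt v 0 = 0 := rfl
lemma pt_succ (v : Fin (m + 2) → ℕ) (j : Fin (m + 2)) : pt v j.succ = if j = 0 then (0 : ℝ) else
    if j = 1 then (v 0 : ℝ) + v 1 + 2 / (2 * v 0 + 5) else v j := rfl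
lemma pt1 (v : Fin (m + 2) → ℕ) : pt v 1 = 0 := by
  have := pt_succ v 0; simpa using this
lemma pt2 (v : Fin (m + 2) → ℕ) : pt v 2 = (v 0 : ℝ) + v 1 + 2 / (2 * v 0 + 5) := by
  have := pt_succ v 1; simpa using this

lemma pt_near (v : Fin (m + 2) → ℕ) : ∀ᶠ w in 𝓝 (pt v 2), aa w = v 0 := by
  have hk : (0 : ℝ) ≤ v 0 := by positivity
  have h1 : ((v 0 + v 1 : ℕ) : ℝ) + 1 / (v 0 + 3) < pt v 2 := by
    rw [pt2, Nat.cast_add, add_lt_add_iff_left, div_lt_div_iff₀ (by positivity) (by positivity)]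
    linarith
  have h2 : pt v 2 < ((v 0 + v 1 : ℕ) : ℝ) + 1 / (v 0 + 2) := by
    rw [pt2, Nat.cast_add, add_lt_add_iff_left, div_lt_div_iff₀ (by positivity) (by positivity)]
    linarith
  filter_upwards [Ioo_mem_nhds h1 h2] with w hw
  exact aa_eq _ _ (by omega) _ hw.1 hw.2

lemma pt_mem (v : Fin (m + 2) → ℕ) : pt v ∈ Om m := by
  right
  filter_upwards [pt_near v] with w hw
  rw [hw, (pt_near v).self_of_nhds]

lemma ff_pt0 (v : Fin (m + 2) → ℕ) : ff (pt v) 0 = v 0 := by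
  rw [ff, FF_apply, if_pos rfl, (pt_near v).self_of_nhds, w2, pt0, pt1]
  simp [ramp]

lemma ff_pt_succ (v : Fin (m + 2) → ℕ) (j : Fin (m + 2)) : ff (pt v) j.succ = pt v j.succ := by
  rw [ff, FF_apply, if_neg (Fin.succ_ne_zero j)]
  split_ifs with h
  · rw [h, w2, pt0, pt1]; simp
  · rfl

theorem main (m : ℕ) : ((m + 2 : ℕ) : ℕ∞) ≤ dimN (ff '' branch (Om m) ff) := by
  refine le_iInf₂ fun k hk => ?_
  by_contra hlt
  have fr : ∀ v : Fin (m + 2) → ℕ, (0 : ℝ) < 2 / (2 * v 0 + 5) ∧ (2 : ℝ) / (2 * v 0 + 5) ≤ 1 := by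
    intro v
    have hk : (0 : ℝ) ≤ v 0 := by positivity
    exact ⟨by positivity, by rw [div_le_one (by positivity)]; linarith⟩
  refine not_nagLE' (d := m + 2) (X := ff '' branch (Om m) ff)
    (fun v => ⟨ff (pt v), pt v, axis_branch (pt_mem v) (pt0 v) (pt1 v), rfl⟩)
    ((((m + 3 : ℕ) : ℝ) + 1) * 3) (by positivity) ?_ ?_ k (by exact_mod_cast not_le.1 hlt) hk
  · intro v w i
    rw [Subtype.dist_eq]
    simp only
    have hd : 0 ≤ dist (ff (pt v)) (ff (pt w)) := dist_nonneg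
    have hm : (0 : ℝ) ≤ ((m + 3 : ℕ) : ℝ) := by positivity
    have key : |(v i : ℝ) - w i| ≤ 2 * dist (ff (pt v)) (ff (pt w)) + 1 := by
      have a0 := coord_le (ff (pt v)) (ff (pt w)) 0
      rw [ff_pt0, ff_pt0] at a0
      have a1 := coord_le (ff (pt v)) (ff (pt w)) i.succ
      rw [ff_pt_succ, ff_pt_succ, pt_succ, pt_succ] at a1
      split_ifs at a1 with g1 g2
      · rw [g1]; linarith
      · rw [g2]
        have := fr v
        have := fr w
        rw [abs_le] at *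
        constructor <;> linarith
      · linarith
    nlinarith
  · intro v w h
    rw [Subtype.dist_eq]
    refine dist_le_card _ _ 3 (by norm_num) fun i => ?_
    simp only
    refine Fin.cases ?_ (fun j => ?_) i
    · rw [ff_pt0, ff_pt0]; linarith [h 0]
    · rw [ff_pt_succ, ff_pt_succ, pt_succ, pt_succ]
      split_ifs with g1 g2
      · simp
      · have := fr v
        have := fr w
        have a := abs_le.1 (h 0)
        have b := abs_le.1 (h 1)
        rw [abs_le]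
        constructor <;> linarith
      · linarith [h j]

lemma nonconst : ∃ x ∈ Om m, ∃ y ∈ Om m, ff x ≠ ff y := by
  refine ⟨pt 0, pt_mem _, pt 1, pt_mem _, fun h => ?_⟩
  have := congrArg (fun y : En (m + 3) => y 0) h
  simp [ff_pt0] at this

end Pool.Agent.H27.QRBranch
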