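import Mathlib

set_option autoImplicit false

namespace Pool.Agent.H27.RatLoc

/-- Local groups: `x ↦ x ^ p` is a bijection for every prime `p`. -/
def IsLoc (T : Type) [Group T] : Prop :=
  ∀ p : ℕ, p.Prime → Function.Bijective fun x : T => x ^ p

/-- `η : G → L` is universal among homomorphisms from `G` to local groups. -/
def IsRationalization {G L : Type} [Group G] [Group L] (η : G →* L) : Prop :=
  IsLoc L ∧ ∀ (T : Type) [Group T], IsLoc T → ∀ f : G →* T, ∃! g : L →* T, g.comp η = f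

/-- Formal expressions in elements of `G`, group operations and `p`-th roots. -/
inductive Tm (G : Type) : Type
  | of : G → Tm G
  | mul : Tm G → Tm G → Tm G
  | inv : Tm G → Tm G
  | root : (p : ℕ) → p.Prime → Tm G → Tm G

noncomputable def ev {G T : Type} [Group G] [Group T] (h : IsLoc T) (f : G →* T) : Tm G → T
  | .of g => f g
  | .mul a b => ev h f a * ev h f b
  | .inv a => (ev h f a)⁻¹
  | .root p hp a => Function.surjInv (h p hp).2 (ev h f a)

def tmSetoid (G : Type) [Group G] : Setoid (Tm G) where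
  r a b := ∀ (T : Type) [Group T] (h : IsLoc T) (f : G →* T), ev h f a = ev h f b
  iseqv := ⟨fun _ _ _ _ _ => rfl, fun e T _ h f => (e T h f).symm,
    fun e e' T _ h f => (e T h f).trans (e' T h f)⟩

/-- The rationalization of `G`. -/
def L (G : Type) [Group G] : Type := Quotient (tmSetoid G)

variable {G : Type} [Group G]

def mk (a : Tm G) : L G := Quotient.mk _ a

lemma mk_eq {a b : Tm G}
    (e : ∀ (T : Type) [Group T] (h : IsLoc T) (f : G →* T), ev h f a = ev h f b) :
    mk a = mk b := Quotient.sound e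

instance : Mul (L G) := ⟨Quotient.map₂ Tm.mul fun _ _ e _ _ e' T _ h f => by
  simp only [ev]; rw [e T h f, e' T h f]⟩
instance : One (L G) := ⟨mk (.of 1)⟩
instance : Inv (L G) := ⟨Quotient.map Tm.inv fun _ _ e T _ h f => by
  simp only [ev]; rw [e T h f]⟩

instance : Group (L G) := Group.ofLeftAxioms
  (fun a b c => Quotient.inductionOn₃ a b c fun _ _ _ => mk_eq fun _ _ _ _ => mul_assoc _ _ _)
  (fun a => Quotient.inductionOn a fun _ => mk_eq fun _ _ _ _ => by simp [ev])
  (fun a => Quotient.inductionOn a fun _ => mk_eq fun _ _ _ _ => by simp [ev])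

def eta (G : Type) [Group G] : G →* L G :=
  MonoidHom.mk' (fun g => mk (.of g)) fun _ _ => mk_eq fun _ _ _ _ => by simp [ev]

noncomputable def lift {T : Type} [Group T] (h : IsLoc T) (f : G →* T) : L G →* T :=
  MonoidHom.mk' (Quotient.lift (ev h f) fun _ _ e => e T h f) fun a b =>
    Quotient.inductionOn₂ a b fun _ _ => rfl

lemma lift_eta {T : Type} [Group T] (h : IsLoc T) (f : G →* T) (g : G) :
    lift h f (eta G g) = f g := rfl

lemma L_ext {a b : L G}
    (e : ∀ (T : Type) [Group T] (h : IsLoc T) (f : G →* T), lift h f a = lift h f b) : a = b := by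
  induction a using Quotient.ind
  induction b using Quotient.ind
  exact Quotient.sound e

lemma root_pow (p : ℕ) (hp : p.Prime) (a : Tm G) : mk (.root p hp a) ^ p = mk a :=
  L_ext fun T _ h f => by
    rw [map_pow]; exact Function.surjInv_eq (h p hp).2 _

theorem L_loc : IsLoc (L G) := fun p hp =>
  ⟨fun a b e => L_ext fun T _ h f => (h p hp).1 (by
    simpa only [map_pow] using congrArg (lift h f) e),
   fun a => Quotient.inductionOn a fun t => ⟨_, root_pow p hp t⟩⟩

lemma hom_ext {T : Type} [Group T] (h : IsLoc T) {g g' : L G →* T}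
    (e : ∀ x, g (eta G x) = g' (eta G x)) : g = g' := by
  ext a
  induction a using Quotient.ind with
  | _ t =>
  change g (mk t) = g' (mk t)
  induction t with
  | of x => exact e x
  | mul a b ia ib => exact (map_mul g (mk a) (mk b)).trans (by rw [ia, ib, ← map_mul]; rfl)
  | inv a ia => exact (map_inv g (mk a)).trans (by rw [ia, ← map_inv]; rfl)
  | root p hp a ia =>
    exact (h p hp).1 (by simp only [← map_pow, root_pow, ia])

theorem isRat (G : Type) [Group G] : IsRationalization (eta G) :=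
  ⟨L_loc, fun _ _ h f => ⟨lift h f, MonoidHom.ext fun _ => rfl, fun g e =>
    hom_ext h fun x => DFunLike.congr_fun e x⟩⟩

/-- The map induced on rationalizations. -/
noncomputable def Lmap {H : Type} [Group H] (f : G →* H) : L G →* L H :=
  lift L_loc ((eta H).comp f)

lemma Lmap_eta {H : Type} [Group H] (f : G →* H) (g : G) : Lmap f (eta G g) = eta H (f g) := rfl

lemma eta_bij (h : IsLoc G) : Function.Bijective (eta G) := by
  refine Function.bijective_iff_has_inverse.2 ⟨lift h (MonoidHom.id G), fun _ => rfl, fun a => ?_⟩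
  exact DFunLike.congr_fun (hom_ext L_loc (g := (eta G).comp (lift h (MonoidHom.id G)))
    (g' := MonoidHom.id _) fun _ => rfl) a

/-- `1 → N → E → G → 1` is a short exact sequence. -/
def IsExt {N E G : Type} [Group N] [Group E] [Group G] (i : N →* E) (π : E →* G) : Prop :=
  Function.Injective i ∧ Function.Surjective π ∧ i.range = π.ker

/-- The fibre product `E ×_G H`. -/
def Pb {E H : Type} [Group E] [Group H] (π : E →* G) (α : H →* G) : Subgroup (E × H) :=
  (π.comp (MonoidHom.fst E H)).eqLocus (α.comp (MonoidHom.snd E H))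

/-- `N → E ×_G H`, `n ↦ (i n, 1)`. -/
def pbIn {N E H : Type} [Group N] [Group E] [Group H] {i : N →* E} {π : E →* G}
    (h : IsExt i π) (α : H →* G) : N →* Pb π α :=
  (i.prod 1).codRestrict _ fun n => by
    have : i n ∈ π.ker := h.2.2 ▸ ⟨n, rfl⟩
    show π (i n) = α 1
    rw [map_one]; exact this

/-- `E ×_G H → H`. -/
def pbOut {E H : Type} [Group E] [Group H] (π : E →* G) (α : H →* G) : Pb π α →* H :=
  (MonoidHom.snd E H).comp (Pb π α).subtype

lemma flat_of_loc {N E : Type} [Group N] [Group E] {i : N →* E} {π : E →* G} (h : IsExt i π)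
    (hN : IsLoc N) (hE : IsLoc E) (hG : IsLoc G) : IsExt (Lmap i) (Lmap π) := by
  refine ⟨fun a b e => ?_, fun a => ?_, ?_⟩
  · obtain ⟨a, rfl⟩ := (eta_bij hN).2 a
    obtain ⟨b, rfl⟩ := (eta_bij hN).2 b
    rw [h.1 ((eta_bij hE).1 e)]
  · obtain ⟨a, rfl⟩ := (eta_bij hG).2 a
    obtain ⟨b, rfl⟩ := h.2.1 a
    exact ⟨eta E b, rfl⟩
  · ext a
    obtain ⟨a, rfl⟩ := (eta_bij hE).2 a
    constructor
    · rintro ⟨b, e⟩
      obtain ⟨b, rfl⟩ := (eta_bij hN).2 b
      have : i b ∈ π.ker := h.2.2 ▸ ⟨b, rfl⟩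
      rw [← e, MonoidHom.mem_ker, Lmap_eta, Lmap_eta, this, map_one]
    · intro e
      have : a ∈ i.range := h.2.2 ▸ (eta_bij hG).1 (e.trans (map_one _).symm)
      obtain ⟨b, rfl⟩ := this
      exact ⟨eta N b, rfl⟩

@[ext] structure E (w : ℂ) where
  c : ℂ
  q : ℚ

noncomputable def chi (w : ℂ) (q : ℚ) : ℂ := Complex.exp (q * w)

lemma chi_add (w : ℂ) (q r : ℚ) : chi w (q + r) = chi w q * chi w r := by
  simp [chi, add_mul, Complex.exp_add]
lemma chi_zero (w : ℂ) : chi w 0 = 1 := by simp [chi]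

variable {w : ℂ}

noncomputable instance : Mul (E w) := ⟨fun x y => ⟨x.c + chi w x.q * y.c, x.q + y.q⟩⟩
instance : One (E w) := ⟨⟨0, 0⟩⟩
noncomputable instance : Inv (E w) := ⟨fun x => ⟨-(chi w (-x.q) * x.c), -x.q⟩⟩
@[simp] lemma mul_c (x y : E w) : (x * y).c = x.c + chi w x.q * y.c := rfl
@[simp] lemma mul_q (x y : E w) : (x * y).q = x.q + y.q := rfl
@[simp] lemma one_c : (1 : E w).c = 0 := rfl
@[simp] lemma one_q : (1 : E w).q = 0 := rfl
@[simp] lemma inv_c (x : E w) : x⁻¹.c = -(chi w (-x.q) * x.c) := rfl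
@[simp] lemma inv_q (x : E w) : x⁻¹.q = -x.q := rfl

noncomputable instance : Group (E w) := Group.ofLeftAxioms
  (fun x y z => E.ext (by simp [chi_add]; ring) (add_assoc _ _ _))
  (fun x => E.ext (by simp [chi_zero]) (zero_add _))
  (fun x => E.ext (by simp) (by simp))

lemma pow_eq (x : E w) (n : ℕ) :
    x ^ n = ⟨(∑ i ∈ Finset.range n, chi w x.q ^ i) * x.c, n * x.q⟩ := by
  induction n with
  | zero => exact E.ext (by simp) (by simp)
  | succ n ih =>
    rw [pow_succ', ih, geom_sum_succ]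
    exact E.ext (by simp; ring) (by simp; ring)

lemma geom_ne (hw : w.re ≠ 0) (q : ℚ) {n : ℕ} (hn : n ≠ 0) :
    ∑ i ∈ Finset.range n, chi w q ^ i ≠ 0 := by
  intro h
  have h1 := geom_sum_mul (chi w q) n
  rw [h, zero_mul, eq_comm, sub_eq_zero] at h1
  have h2 := congrArg norm h1
  rw [norm_pow, norm_one, pow_eq_one_iff_of_nonneg (norm_nonneg _) hn, chi, Complex.norm_exp,
    Real.exp_eq_one_iff] at h2
  have : q = 0 := by simpa [hw] using h2
  simp [this, chi_zero, hn] at h

lemma E_loc (hw : w.re ≠ 0) : IsLoc (E w) := fun p hp => by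
  have p0 : (p : ℚ) ≠ 0 := by exact_mod_cast hp.ne_zero
  refine ⟨fun x y e => ?_, fun y => ⟨⟨y.c / ∑ i ∈ Finset.range p, chi w (y.q / p) ^ i, y.q / p⟩, ?_⟩⟩
  · simp only [pow_eq, E.mk.injEq] at e
    have hq := mul_left_cancel₀ p0 e.2
    exact E.ext (mul_left_cancel₀ (geom_ne hw x.q hp.ne_zero) (by rw [e.1, hq])) hq
  · simp only [pow_eq]
    exact E.ext (mul_div_cancel₀ _ (geom_ne hw _ hp.ne_zero)) (mul_div_cancel₀ _ p0)

lemma mult_loc (K : Type) [Field K] [CharZero K] : IsLoc (Multiplicative K) := fun p hp => by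
  have p0 : (p : K) ≠ 0 := by exact_mod_cast hp.ne_zero
  refine ⟨fun x y e => ?_, fun y => ⟨Multiplicative.ofAdd (y.toAdd / p), ?_⟩⟩
  · have := congrArg Multiplicative.toAdd e
    simp only [toAdd_pow, nsmul_eq_mul] at this
    exact Multiplicative.toAdd.injective (mul_left_cancel₀ p0 this)
  · apply Multiplicative.toAdd.injective
    simp only [toAdd_pow, nsmul_eq_mul, toAdd_ofAdd]
    exact mul_div_cancel₀ _ p0

noncomputable def inE (w : ℂ) : Multiplicative ℂ →* E w :=
  MonoidHom.mk' (fun c => ⟨c.toAdd, 0⟩) fun _ _ => E.ext (by simp [chi_zero]) (by simp)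

noncomputable def outE (w : ℂ) : E w →* Multiplicative ℚ :=
  MonoidHom.mk' (fun x => Multiplicative.ofAdd x.q) fun _ _ => rfl

lemma extE (w : ℂ) : IsExt (inE w) (outE w) := by
  refine ⟨fun a b e => Multiplicative.toAdd.injective (congrArg E.c e),
    fun q => ⟨⟨0, q.toAdd⟩, rfl⟩, ?_⟩
  ext x
  constructor
  · rintro ⟨c, rfl⟩; rfl
  · intro h; exact ⟨Multiplicative.ofAdd x.c, E.ext rfl (Eq.symm h)⟩

def alpha : Multiplicative ℤ →* Multiplicative ℚ :=
  AddMonoidHom.toMultiplicative (Int.castAddHom ℚ)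

noncomputable def w2 : ℂ := 1 + 2 * Real.pi * Complex.I

lemma chi_int (n : ℤ) : chi w2 n = chi 1 n := by
  rw [chi, chi, w2, mul_add, Complex.exp_add]
  have := Complex.exp_int_mul_two_pi_mul_I n
  push_cast
  rw [this, mul_one]

lemma chi_half : chi w2 (1 / 2) = -chi 1 (1 / 2) := by
  rw [chi, chi, w2, mul_add, Complex.exp_add]
  have : (((1 / 2 : ℚ) : ℂ)) * (2 * Real.pi * Complex.I) = Real.pi * Complex.I := by
    push_cast; ring
  rw [this, Complex.exp_pi_mul_I]; ring

noncomputable def f1 : Pb (outE 1) alpha →* E 1 :=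
  (MonoidHom.fst _ _).comp (Pb (outE 1) alpha).subtype

noncomputable def f2 : Pb (outE 1) alpha →* E w2 :=
  MonoidHom.mk' (fun x => ⟨x.1.1.c, x.1.1.q⟩) fun x y => E.ext (by
    have : x.1.1.q = (x.1.2.toAdd : ℚ) := x.2
    show x.1.1.c + chi 1 x.1.1.q * y.1.1.c = x.1.1.c + chi w2 x.1.1.q * y.1.1.c
    rw [this, chi_int]) rfl

theorem not_flat : ¬ IsExt (Lmap (pbIn (extE 1) alpha)) (Lmap (pbOut (outE 1) alpha)) := by
  rintro ⟨-, -, h⟩
  let t : Pb (outE 1) alpha := ⟨(⟨0, 1⟩, Multiplicative.ofAdd 1), rfl⟩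
  obtain ⟨s, hs⟩ := (L_loc 2 Nat.prime_two).2 (eta _ t)
  have hn : (Lmap (pbIn (extE 1) alpha)).range.Normal := h ▸ MonoidHom.normal_ker _
  obtain ⟨a, ha⟩ := hn.conj_mem _ ⟨eta _ (Multiplicative.ofAdd 1), rfl⟩ s
  obtain ⟨a, rfl⟩ := (eta_bij (mult_loc ℂ)).2 a
  have key : ∀ (w : ℂ) (hw : w.re ≠ 0) (f : Pb (outE 1) alpha →* E w), f t = ⟨0, 1⟩ →
      (∀ c, f (pbIn (extE 1) alpha c) = ⟨c.toAdd, 0⟩) → a.toAdd = chi w (1 / 2) := by
    intro w hw f ft fc
    have h1 : lift (E_loc hw) f s = ⟨0, 1 / 2⟩ := (E_loc hw 2 Nat.prime_two).1 (by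
      have := congrArg (lift (E_loc hw) f) hs
      simp only [map_pow, lift_eta, ft] at this
      simp only [this]
      rw [pow_eq]; exact E.ext (by simp) (by norm_num))
    have h2 := congrArg (fun x => (lift (E_loc hw) f x).c) ha
    simp only [map_mul, map_inv, Lmap_eta, lift_eta, fc, h1] at h2
    simpa using h2
  have e1 := key 1 (by simp) f1 rfl fun _ => rfl
  have e2 := key w2 (by simp [w2]) f2 rfl fun _ => rfl
  rw [chi_half, e1] at e2
  have : chi 1 (1 / 2) ≠ 0 := Complex.exp_ne_zero _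
  exact this (by linear_combination e2 / 2)

end Pool.Agent.H27.RatLoc
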