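import Mathlib

set_option autoImplicit false

namespace Pool.Agent.H27.RatPsd

open Matrix

def mulq (x y : ℚ × ℚ) : ℚ × ℚ := (x.1 * y.1 + 2 * x.2 * y.2, x.1 * y.2 + x.2 * y.1)

noncomputable def ev (x : ℚ × ℚ) : ℝ := x.1 + x.2 * √2

lemma s2 : (√2 : ℝ) ^ 2 = 2 := Real.sq_sqrt (by norm_num)

lemma ev_mul (x y : ℚ × ℚ) : ev (mulq x y) = ev x * ev y := by
  unfold ev mulq
  push_cast
  linear_combination (-(x.2 : ℝ) * y.2) * s2

lemma ev_add (x y : ℚ × ℚ) : ev (x + y) = ev x + ev y := by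
  unfold ev
  simp only [Prod.fst_add, Prod.snd_add]
  push_cast
  ring

def d : Fin 6 → ℚ × ℚ := ![(1, 0), (51/100, 0), (-11/34, 71/102), (71/153, -8/153), (495/721, 32/721), (435/674, 37/337)]

def L : Fin 6 → Fin 9 → ℚ × ℚ := ![![(1, 0), (7/10, 0), (-1/2, 1/4), (1/2, 0), (-1/2, 0), (1/2, 0), (1747/3605, -667/7210), (-681/7210, 2241/14420), (2813/7210, 907/14420)],
  ![(0, 0), (1, 0), (65/51, -35/102), (55/51, -5/51), (2645/2601, -110/289), (1225/867, -830/867), (552/1751, 667/5253), (3256/5253, -747/3502), (4912/5253, -907/10506)],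
  ![(0, 0), (0, 0), (1, 0), (7/23, 6/23), (38/51, -5/51), (14/17, -9/17), (530/16583, -745/16583), (1985/16583, 6935/33166), (2515/16583, 5445/33166)],
  ![(0, 0), (0, 0), (0, 0), (0, 0), (1, 0), (15/17, 6/17), (0, 0), (0, 0), (0, 0)],
  ![(0, 0), (0, 0), (0, 0), (0, 0), (0, 0), (0, 0), (1, 0), (3/337, -39/337), (-155/337, -7/337)],
  ![(0, 0), (0, 0), (0, 0), (0, 0), (0, 0), (0, 0), (0, 0), (1, 0), (-13/23, 2/23)]]

def x : Fin 9 → Fin 9 → ℚ := ![![0, 7/10, 0, 1/2, -1/2, 1/2, 0, 0, 0],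
  ![7/10, 0, 3/10, 0, 0, 0, 1/2, 1/4, 3/4],
  ![0, 3/10, 0, 3/4, 2/3, 0, 0, 0, 0],
  ![1/2, 0, 3/4, 0, 0, 0, 2/5, 2/5, 4/5],
  ![-1/2, 0, 2/3, 0, 0, 1/3, 0, 0, 0],
  ![1/2, 0, 0, 0, 1/3, 0, 0, 0, 0],
  ![0, 1/2, 0, 2/5, 0, 0, 0, 0, 0],
  ![0, 1/4, 0, 2/5, 0, 0, 0, 0, 0],
  ![0, 3/4, 0, 4/5, 0, 0, 0, 0, 0]]

def E : Fin 9 → Fin 9 → Bool := ![![false, true, false, true, true, true, false, false, false],
  ![true, false, true, false, false, false, true, true, true],
  ![false, true, false, true, true, true, false, false, false],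
  ![true, false, true, false, false, false, true, true, true],
  ![true, false, true, false, false, true, false, false, false],
  ![true, false, true, false, true, false, false, false, false],
  ![false, true, false, true, false, false, false, true, true],
  ![false, true, false, true, false, false, true, false, true],
  ![false, true, false, true, false, false, true, true, false]]

def term (i j : Fin 9) (k : Fin 6) : ℚ × ℚ := mulq (mulq (L k i) (d k)) (L k j)

def ent (i j : Fin 9) : ℚ × ℚ :=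
  term i j 0 + term i j 1 + term i j 2 + term i j 3 + term i j 4 + term i j 5

lemma ent_diag : ∀ i, ent i i = (1, 0) := by decide +kernel

lemma ent_edge : ∀ i j, E i j = true → ent i j = (x i j, 0) := by decide +kernel

lemma E_symm : ∀ i j, E i j = E j i := by decide +kernel

lemma E_irr : ∀ i, E i i = false := by decide +kernel

def G : SimpleGraph (Fin 9) where
  Adj i j := E i j = true
  symm := ⟨fun i j h => by rw [E_symm]; exact h⟩
  loopless := ⟨fun i h => by simp [E_irr] at h⟩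

lemma lo : (1.414 : ℝ) < √2 := Real.lt_sqrt_of_sq_lt (by norm_num)
lemma hi : (√2 : ℝ) < 1.415 := (Real.sqrt_lt' (by norm_num)).mpr (by norm_num)

lemma d_nonneg : ∀ k, 0 ≤ ev (d k) := by
  have := lo
  have := hi
  intro k
  fin_cases k <;> simp [ev, d] <;> linarith

noncomputable def X : Matrix (Fin 9) (Fin 9) ℝ :=
  (Matrix.of fun k i => ev (L k i))ᴴ * Matrix.diagonal (fun k => ev (d k)) *
    (Matrix.of fun k i => ev (L k i))

lemma X_psd : X.PosSemidef :=
  (Matrix.PosSemidef.diagonal (fun k => d_nonneg k)).conjTranspose_mul_mul_same _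

lemma X_apply (i j : Fin 9) : X i j = ev (ent i j) := by
  unfold X ent term
  rw [Matrix.mul_apply]
  simp only [Matrix.mul_diagonal, Matrix.conjTranspose_apply, Matrix.of_apply, star_trivial,
    Fin.sum_univ_six, ev_add, ev_mul]

theorem real_completion : ∃ X : Matrix (Fin 9) (Fin 9) ℝ, X.PosSemidef ∧ (∀ i, X i i = 1) ∧
    ∀ i j, G.Adj i j → X i j = (x i j : ℝ) :=
  ⟨X, X_psd, fun i => by rw [X_apply, ent_diag]; simp [ev],
    fun i j h => by rw [X_apply, ent_edge i j h]; simp [ev]⟩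

theorem forced (M : Matrix (Fin 9) (Fin 9) ℝ) (hM : M.PosSemidef) (h1 : ∀ i, M i i = 1)
    (h2 : ∀ i j, G.Adj i j → M i j = (x i j : ℝ)) : M 0 2 = -1 / 2 + √2 / 4 := by
  have hq : ∀ w : Fin 9 → ℝ, 0 ≤ ∑ i, w i * ∑ j, M i j * w j := fun w => by
    simpa [dotProduct, Matrix.mulVec] using hM.dotProduct_mulVec_nonneg w
  have sy : ∀ i j, M j i = M i j := fun i j => by
    simpa using hM.1.apply i j
  have e01 : M 0 1 = 7/10 := by rw [h2 0 1 (show E 0 1 = true by decide)]; simp [x]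
  have e10 : M 1 0 = 7/10 := by rw [sy, e01]
  have e12 : M 1 2 = 3/10 := by rw [h2 1 2 (show E 1 2 = true by decide)]; simp [x]
  have e21 : M 2 1 = 3/10 := by rw [sy, e12]
  have e23 : M 2 3 = 3/4 := by rw [h2 2 3 (show E 2 3 = true by decide)]; simp [x]
  have e32 : M 3 2 = 3/4 := by rw [sy, e23]
  have e03 : M 0 3 = 1/2 := by rw [h2 0 3 (show E 0 3 = true by decide)]; simp [x]
  have e30 : M 3 0 = 1/2 := by rw [sy, e03]
  have e45 : M 4 5 = 1/3 := by rw [h2 4 5 (show E 4 5 = true by decide)]; simp [x]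
  have e54 : M 5 4 = 1/3 := by rw [sy, e45]
  have e04 : M 0 4 = -1/2 := by rw [h2 0 4 (show E 0 4 = true by decide)]; simp [x]
  have e40 : M 4 0 = -1/2 := by rw [sy, e04]
  have e05 : M 0 5 = 1/2 := by rw [h2 0 5 (show E 0 5 = true by decide)]; simp [x]
  have e50 : M 5 0 = 1/2 := by rw [sy, e05]
  have e24 : M 2 4 = 2/3 := by rw [h2 2 4 (show E 2 4 = true by decide)]; simp [x]
  have e42 : M 4 2 = 2/3 := by rw [sy, e24]
  have e25 : M 2 5 = 0 := by rw [h2 2 5 (show E 2 5 = true by decide)]; simp [x]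
  have e52 : M 5 2 = 0 := by rw [sy, e25]
  have e67 : M 6 7 = 0 := by rw [h2 6 7 (show E 6 7 = true by decide)]; simp [x]
  have e76 : M 7 6 = 0 := by rw [sy, e67]
  have e68 : M 6 8 = 0 := by rw [h2 6 8 (show E 6 8 = true by decide)]; simp [x]
  have e86 : M 8 6 = 0 := by rw [sy, e68]
  have e78 : M 7 8 = 0 := by rw [h2 7 8 (show E 7 8 = true by decide)]; simp [x]
  have e87 : M 8 7 = 0 := by rw [sy, e78]
  have e16 : M 1 6 = 1/2 := by rw [h2 1 6 (show E 1 6 = true by decide)]; simp [x]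
  have e61 : M 6 1 = 1/2 := by rw [sy, e16]
  have e17 : M 1 7 = 1/4 := by rw [h2 1 7 (show E 1 7 = true by decide)]; simp [x]
  have e71 : M 7 1 = 1/4 := by rw [sy, e17]
  have e18 : M 1 8 = 3/4 := by rw [h2 1 8 (show E 1 8 = true by decide)]; simp [x]
  have e81 : M 8 1 = 3/4 := by rw [sy, e18]
  have e36 : M 3 6 = 2/5 := by rw [h2 3 6 (show E 3 6 = true by decide)]; simp [x]
  have e63 : M 6 3 = 2/5 := by rw [sy, e36]
  have e37 : M 3 7 = 2/5 := by rw [h2 3 7 (show E 3 7 = true by decide)]; simp [x]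
  have e73 : M 7 3 = 2/5 := by rw [sy, e37]
  have e38 : M 3 8 = 4/5 := by rw [h2 3 8 (show E 3 8 = true by decide)]; simp [x]
  have e83 : M 8 3 = 4/5 := by rw [sy, e38]
  have f20 : M 2 0 = M 0 2 := sy _ _
  have f31 : M 3 1 = M 1 3 := sy _ _
  have hs := s2
  have hlo := lo
  have hhi := hi
  set s : ℝ := √2
  have q1 := hq ![1, 0, -s / 2, 0, 3 / 4 + 3 / 8 * s, -3 / 4 - s / 8, 0, 0, 0]
  have q2 := hq ![0, 1, 0, 5 * s / 4, 0, 0, -1 / 2 - s / 2, -1 / 4 - s / 2, -3 / 4 - s]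
  have q3 := hq ![-25 + 27 * s, 95 - 55 * s, 10 + 13 * s, -86 + 31 * s, 0, 0, 0, 0, 0]
  simp only [Fin.sum_univ_succ, Fin.sum_univ_zero, Matrix.cons_val_zero, Matrix.cons_val_succ,
    Fin.succ_zero_eq_one, Fin.succ_one_eq_two, Fin.reduceSucc, zero_mul, mul_zero, add_zero,
    zero_add, h1, f20, f31, e01, e10, e12, e21, e23, e32, e03, e30, e45, e54, e04, e40, e05, e50, e24, e42, e25, e52, e67, e76, e68, e86, e78, e87, e16, e61, e17, e71, e18, e81, e36, e63, e37, e73, e38, e83] at q1 q2 q3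
  set T := M 0 2
  set U := M 1 3
  have r1 : 0 ≤ s * (-1 / 2 + s / 4 - T) := by linarith
  have r2 : 0 ≤ s * (U - (9 / 10 - s / 20)) := by linarith
  have hT : s ^ 2 * T = 2 * T := by rw [hs]
  have hU : s ^ 2 * U = 2 * U := by rw [hs]
  have r3 : 0 ≤ (904 - 110 * s) * (T - (-1 / 2 + s / 4)) +
      (15350 * s - 23160) * (U - (9 / 10 - s / 20)) := by linarith
  have sp : 0 < s := by linarith
  have t1 : 0 ≤ -1 / 2 + s / 4 - T := (mul_nonneg_iff_of_pos_left sp).mp r1
  have t2 : 0 ≤ U - (9 / 10 - s / 20) := (mul_nonneg_iff_of_pos_left sp).mp r2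
  have t3 : (15350 * s - 23160) * (U - (9 / 10 - s / 20)) ≤ 0 :=
    mul_nonpos_of_nonpos_of_nonneg (by linarith) t2
  have t4 : 0 ≤ T - (-1 / 2 + s / 4) :=
    (mul_nonneg_iff_of_pos_left (show 0 < 904 - 110 * s by linarith)).mp (by linarith)
  linarith

theorem no_rational (Y : Matrix (Fin 9) (Fin 9) ℚ)
    (hM : (Y.map (fun q : ℚ => (q : ℝ))).PosSemidef) (h1 : ∀ i, Y i i = 1)
    (h2 : ∀ i j, G.Adj i j → Y i j = x i j) : False := by
  have := forced _ hM (fun i => by simp [h1]) (fun i j h => by simp [h2 i j h])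
  rw [Matrix.map_apply] at this
  exact irrational_sqrt_two ⟨4 * Y 0 2 + 2, by push_cast; linarith⟩

end Pool.Agent.H27.RatPsd
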