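import Mathlib

set_option autoImplicit false

namespace Pool.Agent.H27.RelAC

open Function
open scoped commutatorElement

variable {G : Type} [Group G] (Ω : Type) [Group Ω] [MulDistribMulAction Ω G] {k : ℕ}

def IsInv (H : Subgroup G) : Prop := H.Normal ∧ ∀ ω : Ω, ∀ h ∈ H, ω • h ∈ H

def Gen (u : Fin k → G) : Prop :=
  ∀ H : Subgroup G, H.Normal → (∀ ω : Ω, ∀ h ∈ H, ω • h ∈ H) → (∀ i, u i ∈ H) → H = ⊤

def Step (a b : Fin k → G) : Prop :=
  (∃ i j : Fin k, i ≠ j ∧
    (b = Function.update a i (a i * a j) ∨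
     b = Function.update a i (a i * (a j)⁻¹) ∨
     b = Function.update a i (a j * a i) ∨
     b = Function.update a i ((a j)⁻¹ * a i))) ∨
  (∃ i : Fin k, b = Function.update a i (a i)⁻¹) ∨
  (∃ (i : Fin k) (g : G), b = Function.update a i (g⁻¹ * a i * g)) ∨
  (∃ (i : Fin k) (ω : Ω), b = Function.update a i (ω • a i))

def StepAb (a b : Fin k → Abelianization G) : Prop :=
  (∃ i j : Fin k, i ≠ j ∧
    (b = Function.update a i (a i * a j) ∨
     b = Function.update a i (a i * (a j)⁻¹) ∨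
     b = Function.update a i (a j * a i) ∨
     b = Function.update a i ((a j)⁻¹ * a i))) ∨
  (∃ i : Fin k, b = Function.update a i (a i)⁻¹) ∨
  (∃ (i : Fin k) (ω : Ω) (g : G), Abelianization.of g = a i ∧
    b = Function.update a i (Abelianization.of (ω • g)))

abbrev R (a b : Fin k → G) : Prop := Relation.ReflTransGen (Step Ω) a b

def ncl (S : Set G) : Subgroup G :=
  Subgroup.closure {x | ∃ s ∈ S, ∃ (g : G) (ω : Ω), x = g⁻¹ * ω • s * g}

variable {Ω}

lemma IsInv.sup {H K : Subgroup G} (a : IsInv Ω H) (b : IsInv Ω K) : IsInv Ω (H ⊔ K) := by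
  haveI := a.1
  haveI := b.1
  refine ⟨inferInstance, fun ω x hx => ?_⟩
  obtain ⟨y, hy, z, hz, rfl⟩ := Subgroup.mem_sup_of_normal_right.1 hx
  rw [smul_mul']
  exact Subgroup.mul_mem_sup (a.2 ω y hy) (b.2 ω z hz)

lemma IsInv.inf {H K : Subgroup G} (a : IsInv Ω H) (b : IsInv Ω K) : IsInv Ω (H ⊓ K) := by
  haveI := a.1
  haveI := b.1
  exact ⟨inferInstance, fun ω x hx => ⟨a.2 ω x hx.1, b.2 ω x hx.2⟩⟩

lemma inv_comm : IsInv Ω (commutator G) := by
  refine ⟨inferInstance, fun ω x hx => ?_⟩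
  have := (Subgroup.characteristic_iff_le_comap.1 (inferInstance : (commutator G).Characteristic))
    (MulDistribMulAction.toMulAut Ω G ω) hx
  simpa using this

lemma subset_ncl {S : Set G} {x : G} (hx : x ∈ S) : x ∈ ncl Ω S :=
  Subgroup.subset_closure ⟨x, hx, 1, 1, by simp⟩

lemma ncl_le {S : Set G} {H : Subgroup G} (hH : IsInv Ω H) (h : ∀ x ∈ S, x ∈ H) : ncl Ω S ≤ H := by
  rw [ncl, Subgroup.closure_le]
  rintro x ⟨s, hs, g, ω, rfl⟩
  have := hH.1.conj_mem _ (hH.2 ω s (h s hs)) g⁻¹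
  simpa using this

lemma inv_ncl (S : Set G) : IsInv Ω (ncl Ω S) := by
  constructor
  · constructor
    intro n hn g
    induction hn using Subgroup.closure_induction with
    | mem x hx =>
      obtain ⟨s, hs, g', ω, rfl⟩ := hx
      exact Subgroup.subset_closure ⟨s, hs, g' * g⁻¹, ω, by group⟩
    | one => simp
    | mul x y _ _ a b =>
      have := Subgroup.mul_mem _ a b
      rwa [show g * x * g⁻¹ * (g * y * g⁻¹) = g * (x * y) * g⁻¹ by group] at this
    | inv x _ a =>
      have := Subgroup.inv_mem _ a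
      rwa [show (g * x * g⁻¹)⁻¹ = g * x⁻¹ * g⁻¹ by group] at this
  · intro ω n hn
    induction hn using Subgroup.closure_induction with
    | mem x hx =>
      obtain ⟨s, hs, g', ω', rfl⟩ := hx
      exact Subgroup.subset_closure ⟨s, hs, ω • g', ω * ω', by
        simp [smul_mul', mul_smul, smul_inv']⟩
    | one => simp
    | mul x y _ _ a b => rw [smul_mul']; exact Subgroup.mul_mem _ a b
    | inv x _ a => rw [smul_inv']; exact Subgroup.inv_mem _ a

lemma Step.symm {a b : Fin k → G} (h : Step Ω a b) : Step Ω b a := by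
  rcases h with ⟨i, j, hij, h⟩ | ⟨i, rfl⟩ | ⟨i, g, rfl⟩ | ⟨i, ω, rfl⟩
  · refine Or.inl ⟨i, j, hij, ?_⟩
    rcases h with rfl | rfl | rfl | rfl
    · right; left; simp [update_of_ne hij.symm]
    · left; simp [update_of_ne hij.symm]
    · right; right; right; simp [update_of_ne hij.symm]
    · right; right; left; simp [update_of_ne hij.symm]
  · exact Or.inr (Or.inl ⟨i, by simp⟩)
  · exact Or.inr (Or.inr (Or.inl ⟨i, g⁻¹, by simp [mul_assoc]⟩))
  · exact Or.inr (Or.inr (Or.inr ⟨i, ω⁻¹, by simp⟩))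

lemma R.symm {a b : Fin k → G} (h : R Ω a b) : R Ω b a := by
  induction h with
  | refl => exact Relation.ReflTransGen.refl
  | tail _ hs ih => exact Relation.ReflTransGen.head hs.symm ih

lemma Step.mem {a b : Fin k → G} (h : Step Ω a b) {H : Subgroup G} (hH : IsInv Ω H)
    (ha : ∀ i, a i ∈ H) : ∀ i, b i ∈ H := by
  have key : ∀ i x, x ∈ H → ∀ l, update a i x l ∈ H := by
    intro i x hx l
    by_cases hl : l = i
    · subst hl; simpa using hx
    · rw [update_of_ne hl]; exact ha l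
  rcases h with ⟨i, j, hij, h⟩ | ⟨i, rfl⟩ | ⟨i, g, rfl⟩ | ⟨i, ω, rfl⟩
  · rcases h with rfl | rfl | rfl | rfl
    · exact key _ _ (H.mul_mem (ha _) (ha _))
    · exact key _ _ (H.mul_mem (ha _) (H.inv_mem (ha _)))
    · exact key _ _ (H.mul_mem (ha _) (ha _))
    · exact key _ _ (H.mul_mem (H.inv_mem (ha _)) (ha _))
  · exact key _ _ (H.inv_mem (ha _))
  · refine key _ _ ?_
    simpa using hH.1.conj_mem _ (ha i) g⁻¹
  · exact key _ _ (hH.2 _ _ (ha _))

lemma R.gen {a b : Fin k → G} (h : R Ω a b) (ha : Gen Ω a) : Gen Ω b := by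
  induction h with
  | refl => exact ha
  | tail _ hs ih => exact fun H h1 h2 h3 => ih H h1 h2 (hs.symm.mem ⟨h1, h2⟩ h3)

lemma conj_move (c : Fin k → G) (j : Fin k) (g : G) (ω : Ω) :
    R Ω c (update c j (g⁻¹ * ω • c j * g)) := by
  refine Relation.ReflTransGen.tail (b := update c j (ω • c j))
    (Relation.ReflTransGen.single (Or.inr (Or.inr (Or.inr ⟨j, ω, rfl⟩)))) ?_
  exact Or.inr (Or.inr (Or.inl ⟨j, g, by simp⟩))

lemma mul_move (a : Fin k → G) (i : Fin k) {w : G} (hw : w ∈ ncl Ω {x | ∃ l, l ≠ i ∧ x = a l}) :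
    ∀ x, R Ω (update a i x) (update a i (x * w)) := by
  induction hw using Subgroup.closure_induction with
  | mem y hy =>
    obtain ⟨s, ⟨j, hj, rfl⟩, g, ω, rfl⟩ := hy
    intro x
    have h1 := conj_move (update a i x) j g ω
    have h2 := conj_move (update a i (x * (g⁻¹ * ω • a j * g))) j g ω
    rw [update_of_ne hj] at h1 h2
    refine (h1.tail ?_).trans h2.symm
    refine Or.inl ⟨i, j, hj.symm, Or.inl ?_⟩
    rw [update_self, update_of_ne hj.symm, update_self, update_comm hj.symm, update_comm hj.symm,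
      update_idem]
  | one => intro x; rw [mul_one]
  | mul y z _ _ h1 h2 => intro x; rw [← mul_assoc]; exact (h1 x).trans (h2 _)
  | inv y _ h1 =>
    intro x
    have := (h1 (x * y⁻¹)).symm
    simpa using this

lemma comm_le {A B D : Subgroup G} [A.Normal] [B.Normal] [D.Normal] (h1 : A ⊔ B = ⊤)
    (h2 : D ⊔ B = ⊤) : commutator G ≤ (A ⊓ D) ⊔ B := by
  rw [commutator_def, Subgroup.commutator_le]
  intro g _ g' _
  obtain ⟨a, ha, β, hβ, rfl⟩ := Subgroup.mem_sup_of_normal_right.1 (h1 ▸ Subgroup.mem_top g :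
    g ∈ A ⊔ B)
  obtain ⟨d, hd, β', hβ', rfl⟩ := Subgroup.mem_sup_of_normal_right.1 (h2 ▸ Subgroup.mem_top g' :
    g' ∈ D ⊔ B)
  have h3 : ⁅a, d⁆ ∈ A ⊓ D :=
    Subgroup.commutator_le_inf A D (Subgroup.commutator_mem_commutator ha hd)
  have h4 : ⁅a, d⁆⁻¹ * ⁅a * β, d * β'⁆ ∈ B := by
    rw [← QuotientGroup.eq, ← QuotientGroup.mk'_apply, ← QuotientGroup.mk'_apply,
      map_commutatorElement, map_commutatorElement, map_mul, map_mul]
    have e1 : QuotientGroup.mk' B β = 1 := (QuotientGroup.eq_one_iff _).2 hβ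
    have e2 : QuotientGroup.mk' B β' = 1 := (QuotientGroup.eq_one_iff _).2 hβ'
    rw [e1, e2, mul_one, mul_one]
  have := Subgroup.mul_mem_sup h3 h4
  rwa [mul_inv_cancel_left] at this

lemma one_coord [Finite G] (u : Fin k → G) {i j : Fin k} (hij : i ≠ j) {x x' : G}
    (hx : Gen Ω (update u i x)) (hx' : Gen Ω (update u i x')) (hc : x⁻¹ * x' ∈ commutator G) :
    R Ω (update u i x) (update u i x') := by
  set B := ncl Ω {y | ∃ l, l ≠ i ∧ y = u l} with hB
  have iB : IsInv Ω B := inv_ncl _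
  haveI := iB.1
  let A : G → Subgroup G := fun y => ncl Ω {z | z = y ∨ ∃ l, l ≠ i ∧ l ≠ j ∧ z = u l}
  let P : Set G := {y | Gen Ω (update u i y) ∧ x⁻¹ * y ∈ commutator G ⊔ B}
  have hxP : x ∈ P := ⟨hx, by simp⟩
  have hx'P : x' ∈ P := ⟨hx', Subgroup.mem_sup_left hc⟩
  obtain ⟨a0, ha0, hmin⟩ := Set.exists_min_image P (fun y => Nat.card (A y)) (Set.toFinite _)
    ⟨x, hxP⟩
  have uB : ∀ l, l ≠ i → u l ∈ B := fun l hl => subset_ncl ⟨l, hl, rfl⟩
  have top : ∀ y, a0 ∈ A y ⊔ B → A y ⊔ B = ⊤ := by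
    intro y hy
    have := (inv_ncl (Ω := Ω) {z | z = y ∨ ∃ l, l ≠ i ∧ l ≠ j ∧ z = u l}).sup iB
    refine ha0.1 _ this.1 this.2 fun l => ?_
    by_cases hl : l = i
    · subst hl; simpa using hy
    · rw [update_of_ne hl]; exact Subgroup.mem_sup_right (uB l hl)
  have selfA : ∀ y, y ∈ A y := fun y => subset_ncl (Or.inl rfl)
  have key : ∀ y ∈ P, R Ω (update u i a0) (update u i y) := by
    intro y hy
    haveI : (A a0).Normal := (inv_ncl _).1
    haveI : (A (u j * a0)).Normal := (inv_ncl _).1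
    have t1 : A a0 ⊔ B = ⊤ := top _ (Subgroup.mem_sup_left (selfA _))
    have t2 : A (u j * a0) ⊔ B = ⊤ := by
      apply top
      have := Subgroup.mul_mem _
        (Subgroup.mem_sup_right (S := A (u j * a0)) (B.inv_mem (uB j hij.symm)))
        (Subgroup.mem_sup_left (T := B) (selfA (u j * a0)))
      simpa using this
    have h1 : a0⁻¹ * y ∈ (A a0 ⊓ A (u j * a0)) ⊔ B := by
      have : a0⁻¹ * y ∈ commutator G ⊔ B := by
        have := Subgroup.mul_mem _ (Subgroup.inv_mem _ ha0.2) hy.2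
        rwa [show (x⁻¹ * a0)⁻¹ * (x⁻¹ * y) = a0⁻¹ * y by group] at this
      exact (sup_le (comm_le t1 t2) le_sup_right :) this
    obtain ⟨c, hc, β, hβ, hcβ⟩ := Subgroup.mem_sup_of_normal_right.1 h1
    have hy' : y = a0 * c * β := by rw [mul_assoc, hcβ]; group
    have r4 : R Ω (update u i (a0 * c)) (update u i y) := by
      rw [hy']; exact mul_move u i hβ _
    have hP : a0 * c ∈ P := by
      refine ⟨r4.symm.gen hy.1, ?_⟩
      have := Subgroup.mul_mem _ hy.2 (Subgroup.mem_sup_right (S := commutator G) (B.inv_mem hβ))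
      rwa [hy', show x⁻¹ * (a0 * c * β) * β⁻¹ = x⁻¹ * (a0 * c) by group] at this
    have hle : A (a0 * c) ≤ A a0 := by
      apply ncl_le (inv_ncl _)
      rintro z (rfl | h)
      · exact Subgroup.mul_mem _ (selfA _) hc.1
      · exact subset_ncl (Or.inr h)
    have heq : A (a0 * c) = A a0 := Subgroup.eq_of_le_of_card_ge hle (hmin _ hP)
    have r1 : Step Ω (update u i a0) (update (update u j (u j * a0)) i a0) := by
      refine Or.inl ⟨j, i, hij.symm, Or.inl ?_⟩
      rw [update_self, update_of_ne hij.symm, update_comm hij]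
    have r2 : R Ω (update (update u j (u j * a0)) i a0)
        (update (update u j (u j * a0)) i (a0 * c)) := by
      apply mul_move
      refine (ncl_le (inv_ncl _) ?_ : A (u j * a0) ≤ _) hc.2
      rintro z (rfl | ⟨l, h1, h2, rfl⟩)
      · exact subset_ncl ⟨j, hij.symm, by simp⟩
      · exact subset_ncl ⟨l, h1, by rw [update_of_ne h2]⟩
    have r3 : R Ω (update (update u i (a0 * c)) j (u j * a0))
        (update (update u i (a0 * c)) j (u j * a0 * a0⁻¹)) := by
      apply mul_move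
      refine (ncl_le (inv_ncl _) ?_ : A (a0 * c) ≤ _) (heq.ge (Subgroup.inv_mem _ (selfA a0)))
      rintro z (rfl | ⟨l, h1, h2, rfl⟩)
      · exact subset_ncl ⟨i, hij, by simp⟩
      · exact subset_ncl ⟨l, h2, by rw [update_of_ne h1]⟩
    have e3 : update (update u i (a0 * c)) j (u j * a0 * a0⁻¹) = update u i (a0 * c) := by
      rw [mul_inv_cancel_right, update_comm hij, update_eq_self]
    rw [e3, update_comm hij] at r3
    exact Relation.ReflTransGen.head r1 (r2.trans (r3.trans r4))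
  exact (key x hxP).symm.trans (key x' hx'P)

variable (Ω) in
def Mx (N : Subgroup G) : Prop :=
  IsInv Ω N ∧ (∀ H, IsInv Ω H → N ≤ H → H = N ∨ H = ⊤) ∧ ¬ commutator G ≤ N

lemma Mx.prime {N X Y : Subgroup G} (hN : Mx Ω N) (hX : IsInv Ω X) (hY : IsInv Ω Y)
    (h1 : ¬ X ≤ N) (h2 : ¬ Y ≤ N) : ¬ X ⊓ Y ≤ N := by
  intro h
  haveI := hX.1
  haveI := hY.1
  haveI := hN.1.1
  have t1 : X ⊔ N = ⊤ := (hN.2.1 _ (hX.sup hN.1) le_sup_right).resolve_left
    (fun e => h1 (e ▸ le_sup_left))
  have t2 : Y ⊔ N = ⊤ := (hN.2.1 _ (hY.sup hN.1) le_sup_right).resolve_left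
    (fun e => h2 (e ▸ le_sup_left))
  exact hN.2.2 ((comm_le t1 t2).trans (sup_le h le_rfl))

lemma Mx.exists_L {N0 : Subgroup G} (h0 : Mx Ω N0) (S : Finset (Subgroup G))
    (hS : ∀ N ∈ S, Mx Ω N ∧ N ≠ N0) :
    ∃ L, IsInv Ω L ∧ L ≤ commutator G ∧ (∀ N ∈ S, L ≤ N) ∧ ¬ L ≤ N0 := by
  classical
  induction S using Finset.induction_on with
  | empty => exact ⟨_, inv_comm, le_rfl, by simp, h0.2.2⟩
  | insert N S _ ih =>
    obtain ⟨L, a, b, c, d⟩ := ih (fun N' h => hS N' (Finset.mem_insert_of_mem h))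
    have hN := hS N (Finset.mem_insert_self _ _)
    refine ⟨L ⊓ N, a.inf hN.1.1, inf_le_left.trans b, ?_, h0.prime a hN.1.1 d ?_⟩
    · intro N' h
      rcases Finset.mem_insert.1 h with rfl | h
      · exact inf_le_right
      · exact inf_le_left.trans (c N' h)
    · intro hle
      rcases hN.1.2.1 N0 h0.1 hle with e | e
      · exact hN.2 e.symm
      · exact h0.2.2 (e ▸ le_top)

lemma avoid (u : G) (S : Finset (Subgroup G)) (hS : ∀ N ∈ S, Mx Ω N) :
    ∃ h ∈ commutator G, ∀ N ∈ S, u * h ∉ N := by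
  classical
  induction S using Finset.induction_on with
  | empty => exact ⟨1, Subgroup.one_mem _, by simp⟩
  | insert N S hn ih =>
    obtain ⟨h, hh, a⟩ := ih (fun N' h => hS N' (Finset.mem_insert_of_mem h))
    by_cases hc : u * h ∈ N
    · obtain ⟨L, -, b, c, d⟩ := (hS N (Finset.mem_insert_self _ _)).exists_L S
        (fun N' h => ⟨hS N' (Finset.mem_insert_of_mem h), fun e => hn (e ▸ h)⟩)
      obtain ⟨l, l1, l2⟩ := SetLike.not_le_iff_exists.1 d
      refine ⟨h * l, Subgroup.mul_mem _ hh (b l1), fun N' h' => ?_⟩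
      rw [← mul_assoc]
      rcases Finset.mem_insert.1 h' with rfl | h'
      · exact fun e => l2 ((Subgroup.mul_mem_cancel_left _ hc).1 e)
      · exact fun e => a N' h' ((Subgroup.mul_mem_cancel_right _ (c N' h' l1)).1 e)
    · refine ⟨h, hh, fun N' h' => ?_⟩
      rcases Finset.mem_insert.1 h' with rfl | h'
      · exact hc
      · exact a N' h'

variable (Ω) in
def Good (x : G) : Prop := ∀ N, IsInv Ω N → x ∈ N → N ⊔ commutator G = ⊤ → N = ⊤

lemma exists_good [Finite G] (u : G) : ∃ h ∈ commutator G, Good Ω (u * h) := by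
  classical
  obtain ⟨h, hh, a⟩ := avoid (Ω := Ω) u (Set.toFinite {N : Subgroup G | Mx Ω N}).toFinset
    (fun N h => by simpa using h)
  refine ⟨h, hh, fun N h1 h2 h3 => ?_⟩
  by_contra hne
  obtain ⟨M, hM, hmax⟩ := (Set.toFinite {H : Subgroup G | IsInv Ω H ∧ H ≠ ⊤}).exists_le_maximal
    (a := N) ⟨h1, hne⟩
  refine a M ?_ (hM h2)
  simp only [Set.Finite.mem_toFinset, Set.mem_ofPred_eq]
  refine ⟨hmax.1.1, fun H b c => ?_, fun hle => hmax.1.2 ?_⟩
  · by_cases hH : H = ⊤
    · exact Or.inr hH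
    · exact Or.inl (le_antisymm (hmax.2 ⟨b, hH⟩ c) c)
  · exact top_le_iff.1 (h3 ▸ sup_le hM hle)

lemma of_eq {x y : G} : Abelianization.of x = Abelianization.of y ↔ x⁻¹ * y ∈ commutator G :=
  QuotientGroup.eq

lemma gen_of_good {u v : Fin k → G} (hu : Gen Ω u)
    (h : ∀ l, Abelianization.of (v l) = Abelianization.of (u l)) {i : Fin k}
    (hg : Good Ω (v i)) : Gen Ω v := by
  intro H h1 h2 h3
  refine hg H ⟨h1, h2⟩ (h3 i) ?_
  have := IsInv.sup (Ω := Ω) ⟨h1, h2⟩ inv_comm
  refine hu _ this.1 this.2 fun l => ?_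
  have := Subgroup.mul_mem_sup (h3 l) (of_eq.1 (h l))
  simpa using this

lemma make_good [Finite G] {u : Fin k → G} (hu : Gen Ω u) {i j : Fin k} (hij : i ≠ j) :
    ∃ v, R Ω u v ∧ (∀ l, Abelianization.of (v l) = Abelianization.of (u l)) ∧ Good Ω (v i) := by
  obtain ⟨h, hh, hg⟩ := exists_good (Ω := Ω) (u i)
  have e : ∀ l, Abelianization.of (update u i (u i * h) l) = Abelianization.of (u l) := by
    intro l
    by_cases hl : l = i
    · subst hl
      rw [update_self]
      exact (of_eq.2 (by simpa using hh)).symm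
    · rw [update_of_ne hl]
  have hg' : Good Ω (update u i (u i * h) i) := by simpa using hg
  refine ⟨update u i (u i * h), ?_, e, hg'⟩
  have := one_coord (Ω := Ω) u hij (x := u i) (x' := u i * h) (by simpa using hu)
    (gen_of_good hu e hg') (by simpa using hh)
  simpa using this

lemma cong_equiv [Finite G] (hk : 2 ≤ k) {U V : Fin k → G} (hU : Gen Ω U) (hV : Gen Ω V)
    (h : ∀ l, Abelianization.of (V l) = Abelianization.of (U l)) : R Ω U V := by
  classical
  let i : Fin k := ⟨0, by omega⟩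
  let j : Fin k := ⟨1, by omega⟩
  have hij : i ≠ j := by simp [i, j]
  obtain ⟨U', r1, e1, g1⟩ := make_good hU hij
  obtain ⟨V', r2, e2, g2⟩ := make_good hV hij.symm
  have hp : ∀ (s : Finset (Fin k)) l,
      Abelianization.of (s.piecewise V' U' l) = Abelianization.of (U l) := by
    intro s l
    by_cases hl : l ∈ s
    · rw [Finset.piecewise_eq_of_mem _ _ _ hl, e2, h]
    · rw [Finset.piecewise_eq_of_notMem _ _ _ hl, e1]
  have hgen : ∀ s : Finset (Fin k), i ∉ s → Gen Ω (s.piecewise V' U') := by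
    intro s hs
    refine gen_of_good hU (hp s) (i := i) ?_
    rwa [Finset.piecewise_eq_of_notMem _ _ _ hs]
  have step : ∀ (s : Finset (Fin k)) (a b : Fin k), a ≠ b → a ∉ s → Gen Ω (s.piecewise V' U') →
      Gen Ω ((insert a s).piecewise V' U') →
      R Ω (s.piecewise V' U') ((insert a s).piecewise V' U') := by
    intro s a b hab ha q1 q2
    rw [Finset.piecewise_insert] at q2 ⊢
    have := one_coord (Ω := Ω) (s.piecewise V' U') hab (x := s.piecewise V' U' a) (x' := V' a)
      (by simpa using q1) q2 (of_eq.1 (by rw [hp, e2, h]))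
    simpa using this
  have key : ∀ s : Finset (Fin k), i ∉ s → R Ω U' (s.piecewise V' U') := by
    intro s
    induction s using Finset.induction_on with
    | empty => intro _; simp only [Finset.piecewise_empty]; exact Relation.ReflTransGen.refl
    | insert a s ha ih =>
      intro hi
      have h1 : i ∉ s := fun e => hi (Finset.mem_insert_of_mem e)
      have h2 : a ≠ i := fun e => hi (e ▸ Finset.mem_insert_self _ _)
      exact (ih h1).trans (step s a i h2 ha (hgen s h1) (hgen _ hi))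
  have hi : i ∉ Finset.univ.erase i := Finset.notMem_erase _ _
  have last := step (Finset.univ.erase i) i j hij hi (hgen _ hi)
  rw [Finset.insert_erase (Finset.mem_univ i), Finset.piecewise_univ] at last
  exact r1.trans ((key _ hi).trans ((last (r2.gen hV)).trans r2.symm))

lemma of_update (u : Fin k → G) (i : Fin k) (x : G) :
    (fun l => Abelianization.of (update u i x l)) =
      update (fun l => Abelianization.of (u l)) i (Abelianization.of x) := by
  funext l
  by_cases hl : l = i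
  · subst hl; simp
  · simp [update_of_ne hl]

lemma forward {a b : Fin k → G} (h : R Ω a b) :
    Relation.ReflTransGen (StepAb Ω) (fun l => Abelianization.of (a l))
      (fun l => Abelianization.of (b l)) := by
  induction h with
  | refl => exact Relation.ReflTransGen.refl
  | @tail b c _ hs ih =>
    rcases hs with ⟨i, j, hij, h⟩ | ⟨i, rfl⟩ | ⟨i, g, rfl⟩ | ⟨i, ω, rfl⟩
    · refine ih.tail (Or.inl ⟨i, j, hij, ?_⟩)
      rcases h with rfl | rfl | rfl | rfl
      · left; rw [of_update]; simp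
      · right; left; rw [of_update]; simp
      · right; right; left; rw [of_update]; simp
      · right; right; right; rw [of_update]; simp
    · exact ih.tail (Or.inr (Or.inl ⟨i, by rw [of_update]; simp⟩))
    · rw [of_update]
      have : Abelianization.of (g⁻¹ * b i * g) = Abelianization.of (b i) := by
        simp [mul_comm]
      rw [this]
      simpa using ih
    · exact ih.tail (Or.inr (Or.inr ⟨i, ω, b i, rfl, by rw [of_update]⟩))

lemma lift {a : Fin k → G} {c : Fin k → Abelianization G}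
    (h : Relation.ReflTransGen (StepAb Ω) (fun l => Abelianization.of (a l)) c) :
    ∃ v, R Ω a v ∧ (fun l => Abelianization.of (v l)) = c := by
  induction h with
  | refl => exact ⟨a, Relation.ReflTransGen.refl, rfl⟩
  | @tail b c _ hs ih =>
    obtain ⟨v, r, rfl⟩ := ih
    rcases hs with ⟨i, j, hij, h⟩ | ⟨i, rfl⟩ | ⟨i, ω, g, hg, rfl⟩
    · rcases h with rfl | rfl | rfl | rfl
      · exact ⟨_, r.tail (Or.inl ⟨i, j, hij, Or.inl rfl⟩), by rw [of_update]; simp⟩
      · exact ⟨_, r.tail (Or.inl ⟨i, j, hij, Or.inr (Or.inl rfl)⟩), by rw [of_update]; simp⟩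
      · exact ⟨_, r.tail (Or.inl ⟨i, j, hij, Or.inr (Or.inr (Or.inl rfl))⟩),
          by rw [of_update]; simp⟩
      · exact ⟨_, r.tail (Or.inl ⟨i, j, hij, Or.inr (Or.inr (Or.inr rfl))⟩),
          by rw [of_update]; simp⟩
    · exact ⟨_, r.tail (Or.inr (Or.inl ⟨i, rfl⟩)), by rw [of_update]; simp⟩
    · refine ⟨_, r.tail (Or.inr (Or.inr (Or.inr ⟨i, ω, rfl⟩))), ?_⟩
      rw [of_update]
      congr 1
      symm
      rw [of_eq, ← smul_inv', ← smul_mul']
      exact inv_comm.2 ω _ (of_eq.1 hg)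

theorem main [Finite G] (hk : 2 ≤ k) {U V : Fin k → G} (hU : Gen Ω U) (hV : Gen Ω V) :
    R Ω U V ↔ Relation.ReflTransGen (StepAb Ω) (fun l => Abelianization.of (U l))
      (fun l => Abelianization.of (V l)) := by
  refine ⟨forward, fun h => ?_⟩
  obtain ⟨v, r, e⟩ := lift h
  exact r.trans (cong_equiv hk (r.gen hU) hV fun l => (congrFun e l).symm)

end Pool.Agent.H27.RelAC
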