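import Mathlib

set_option autoImplicit false

namespace Pool.Agent.H27.Schur

open scoped commutatorElement
open QuadraticAlgebra

variable {W : Type} [CommRing W]

/-- the quadratic extension by `t` with `t + t⁻¹ = x + 2` -/
abbrev SS (x : W) : Type := QuadraticAlgebra W (-1) (x + 2)

/-- the generator -/
def tt (x : W) : SS x := ⟨0, 1⟩

@[simp] lemma tt_re (x : W) : (tt x).re = 0 := rfl
@[simp] lemma tt_im (x : W) : (tt x).im = 1 := rfl

lemma tt_mul_star (x : W) : tt x * star (tt x) = 1 := by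
  ext <;> simp [re_one, im_one]

lemma tt_add_star (x : W) : tt x + star (tt x) - 2 = algebraMap W (SS x) x := by
  ext <;> simp [algebraMap_eq, re_ofNat, im_ofNat]

/-- determinant pairing -/
def be {x : W} (m n : SS x) : W := m.im * n.re - m.re * n.im

lemma be_eq {x : W} (m n : SS x) : (m * star n).im = be m n := by
  simp [be]; ring

theorem pairing {x : W} (hW : ∀ w : W, ∃ P : Polynomial ℤ, Polynomial.aeval x P = w)
    {B : Type} [AddCommGroup B] (D : SS x →+ SS x →+ B)
    (hD : ∀ m n, D (tt x * m) (tt x * n) = D m n) (h0 : ∀ m, D m m = 0) :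
    (∀ w : W, D (algebraMap W (SS x) w) 1 = 0) ∧
      ∀ m n, D m n = D (algebraMap W (SS x) (be m n) * tt x) 1 := by
  have anti : ∀ m n, D m n + D n m = 0 := by
    intro m n
    have := h0 (m + n)
    simp only [map_add, AddMonoidHom.add_apply, h0] at this
    linear_combination (norm := abel) this
  let P : SS x → Prop := fun n => ∀ m, D m n = D (m * star n) 1
  have P1 : P 1 := fun m => by simp
  have Padd : ∀ n n', P n → P n' → P (n + n') := fun n n' h h' m => by
    rw [map_add, h m, h' m, star_add, mul_add, map_add]; rfl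
  have Pz : ∀ (k : ℤ) n, P n → P (k • n) := fun k n h m => by
    rw [map_zsmul, h m, star_zsmul, mul_smul_comm, map_zsmul]; rfl
  have Pt : ∀ n, P n → P (tt x * n) := fun n h m => by
    have e : m = tt x * (star (tt x) * m) := by rw [← mul_assoc, tt_mul_star, one_mul]
    conv_lhs => rw [e, hD, h]
    congr 2
    rw [star_mul]; ring
  have Ps : ∀ n, P n → P (star (tt x) * n) := fun n h m => by
    rw [← hD, ← mul_assoc, tt_mul_star, one_mul, h]
    congr 2
    rw [star_mul, star_star]; ring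
  have Px : ∀ n, P n → P (algebraMap W (SS x) x * n) := fun n h => by
    have e : algebraMap W (SS x) x * n = tt x * n + star (tt x) * n + (-2 : ℤ) • n := by
      rw [← tt_add_star]; simp; ring
    rw [e]; exact Padd _ _ (Padd _ _ (Pt _ h) (Ps _ h)) (Pz _ _ h)
  have Pw : ∀ (w : W) n, P n → P (algebraMap W (SS x) w * n) := by
    intro w
    obtain ⟨Q, rfl⟩ := hW w
    induction Q using Polynomial.induction_on with
    | C a =>
      intro n h
      have : algebraMap W (SS x) (Polynomial.aeval x (Polynomial.C a)) * n = a • n := by simp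
      rw [this]; exact Pz _ _ h
    | add p q hp hq =>
      intro n h
      rw [map_add, map_add, add_mul]; exact Padd _ _ (hp n h) (hq n h)
    | monomial k a ih =>
      intro n h
      have := ih _ (Px n h)
      rw [pow_succ, ← mul_assoc, map_mul, map_mul, Polynomial.aeval_X, mul_assoc]
      exact this
  have dec : ∀ m : SS x, m = algebraMap W (SS x) m.re + algebraMap W (SS x) m.im * tt x := by
    intro m; ext <;> simp [algebraMap_eq]
  have Pall : ∀ n, P n := fun n => by
    rw [dec n]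
    refine Padd _ _ ?_ (Pw _ _ ?_)
    · simpa using Pw n.re 1 P1
    · simpa using Pt 1 P1
  have tr : ∀ y : SS x, D (y + star y) 1 = 0 := by
    intro y
    have := Pall y 1
    rw [one_mul] at this
    rw [map_add, AddMonoidHom.add_apply, ← this, anti]
  have h2 : ∀ w : W, D (algebraMap W (SS x) w) 1 = 0 := by
    intro w
    obtain ⟨Q, rfl⟩ := hW w
    rw [← Polynomial.divX_mul_X_add Q]
    set w' := Polynomial.aeval x Q.divX
    have e : algebraMap W (SS x) (Polynomial.aeval x (Q.divX * Polynomial.X +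
        Polynomial.C (Q.coeff 0))) = (algebraMap W (SS x) w' * tt x +
          star (algebraMap W (SS x) w' * tt x)) - (algebraMap W (SS x) w' +
          star (algebraMap W (SS x) w')) + (Q.coeff 0) • (1 : SS x) := by
      ext <;> simp [algebraMap_eq, w', re_one, im_one]
      ring
    rw [e, map_add, map_sub, map_zsmul]
    simp only [AddMonoidHom.add_apply, AddMonoidHom.sub_apply, AddMonoidHom.smul_apply, tr, h0]
    simp
  refine ⟨h2, fun m n => ?_⟩
  rw [Pall n m, dec (m * star n), map_add, AddMonoidHom.add_apply, h2, zero_add, be_eq]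

section ext

variable {G E : Type} [Group G] [Group E] (π : E →* G)
  (hc : ∀ e, π e = 1 → e ∈ Subgroup.center E)
include hc

lemma comm_congr_left {e e' : E} (h : π e = π e') (y : E) : ⁅e, y⁆ = ⁅e', y⁆ := by
  have hz := Subgroup.mem_center_iff.1 (hc (e'⁻¹ * e) (by simp [h])) y
  have e1 : e = e' * (e'⁻¹ * e) := by group
  rw [e1, commutatorElement_def, commutatorElement_def, mul_assoc e', ← hz]; group

lemma comm_congr_right {e e' : E} (h : π e = π e') (y : E) : ⁅y, e⁆ = ⁅y, e'⁆ := by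
  rw [← commutatorElement_inv, comm_congr_left π hc h, commutatorElement_inv]

lemma comm_mul_left (a b c : E) (h : π ⁅b, c⁆ = 1) : ⁅a * b, c⁆ = ⁅a, c⁆ * ⁅b, c⁆ := by
  have hz := Subgroup.mem_center_iff.1 (hc _ h)
  have e1 : ⁅a * b, c⁆ = a * ⁅b, c⁆ * (a⁻¹ * ⁅a, c⁆) := by
    simp only [commutatorElement_def]; group
  rw [e1, mul_assoc, ← hz]; group

lemma comm_mul_right (a b c : E) (h : π ⁅c, b⁆ = 1) : ⁅c, a * b⁆ = ⁅c, a⁆ * ⁅c, b⁆ := by
  have hz := Subgroup.mem_center_iff.1 (hc _ h)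
  have e1 : ⁅c, a * b⁆ = ⁅c, a⁆ * (a * ⁅c, b⁆ * a⁻¹) := by
    simp only [commutatorElement_def]; group
  rw [e1, hz]; group

lemma comm_pow (a c : E) (h : π ⁅a, c⁆ = 1) (n : ℕ) : ⁅a ^ n, c⁆ = ⁅a, c ^ n⁆ := by
  have h1 : ∀ n : ℕ, ⁅a ^ n, c⁆ = ⁅a, c⁆ ^ n := by
    intro n
    induction n with
    | zero => simp
    | succ n ih => rw [pow_succ, comm_mul_left π hc _ _ _ h, ih, pow_succ]
  have h2 : ∀ n : ℕ, ⁅a, c ^ n⁆ = ⁅a, c⁆ ^ n := by
    intro n
    induction n with
    | zero => simp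
    | succ n ih => rw [pow_succ, comm_mul_right π hc _ _ _ h, ih, pow_succ]
  rw [h1, h2]

/-- abelian-by-cyclic case -/
theorem ab_case {M : Type} [AddCommGroup M] (ρ : M → G) (hρ : ∀ m n, ρ (m + n) = ρ m * ρ n)
    (T : M → M) (s : G) (hs : ∀ m, s * ρ m * s⁻¹ = ρ (T m))
    (hs' : ∀ m, ∃ n, s⁻¹ * ρ m * s = ρ n)
    (hgen : ∀ γ : G, ∃ (m : M) (n : ℤ), γ = ρ m * s ^ n)
    (hfix : ∀ m, ρ (T m) = ρ m → ∃ n : ℤ, ρ m = s ^ n)
    (l : G → E) (hl : ∀ g, π (l g) = g) (hcm : ∀ m n, ⁅l (ρ m), l (ρ n)⁆ = 1)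
    (e : E) (he : π e = 1) (he' : e ∈ commutator E) : e = 1 := by
  have hρ0 : ρ 0 = 1 := by simpa using hρ 0 0
  have hcm' : ∀ u v : E, (∃ m, π u = ρ m) → (∃ n, π v = ρ n) → u * v = v * u := by
    rintro u v ⟨m, hm⟩ ⟨n, hn⟩
    rw [← commutatorElement_eq_one_iff_mul_comm, comm_congr_left π hc (hm.trans (hl _).symm),
      comm_congr_right π hc (hn.trans (hl _).symm), hcm]
  have hneg : ∀ m, ρ (-m) = (ρ m)⁻¹ := fun m =>
    eq_inv_of_mul_eq_one_left (by rw [← hρ, neg_add_cancel, hρ0])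
  have hδ : ∀ u : E, (∃ m, π u = ρ m) → ∃ m, π ⁅l s, u⁆ = ρ m := by
    rintro u ⟨m, hm⟩
    refine ⟨T m + -m, ?_⟩
    rw [hρ, hneg, ← hs, map_commutatorElement, hl, hm, commutatorElement_def]
  let Y : Subgroup E :=
    { carrier := {y | ∃ u, (∃ m, π u = ρ m) ∧ y = ⁅l s, u⁆}
      one_mem' := ⟨1, ⟨0, by simp [hρ0]⟩, by simp⟩
      mul_mem' := by
        rintro _ _ ⟨u, ⟨m, hm⟩, rfl⟩ ⟨v, ⟨n, hn⟩, rfl⟩
        refine ⟨u * v, ⟨m + n, by rw [map_mul, hm, hn, hρ]⟩, ?_⟩
        have e1 : ⁅l s, u * v⁆ = ⁅l s, u⁆ * (u * ⁅l s, v⁆ * u⁻¹) := by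
          simp only [commutatorElement_def]; group
        rw [e1, hcm' u _ ⟨m, hm⟩ (hδ v ⟨n, hn⟩)]; group
      inv_mem' := by
        rintro _ ⟨u, ⟨m, hm⟩, rfl⟩
        refine ⟨u⁻¹, ⟨-m, by rw [map_inv, hm, hneg]⟩, ?_⟩
        have e1 : ⁅l s, u⁻¹⁆ = u⁻¹ * (⁅l s, u⁆⁻¹ * u) := by
          simp only [commutatorElement_def]; group
        have e2 := hcm' u _ ⟨m, hm⟩ (hδ u ⟨m, hm⟩)
        have e3 : ⁅l s, u⁆⁻¹ * u = u * ⁅l s, u⁆⁻¹ := by
          have : Commute u ⁅l s, u⁆ := e2
          exact this.inv_right.eq.symm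
        rw [e1, e3]; group }
  have hdec : ∀ y : E, ∃ (u : E) (n : ℤ), (∃ m, π u = ρ m) ∧ y = u * l s ^ n := by
    intro y
    obtain ⟨m, n, h⟩ := hgen (π y)
    exact ⟨y * (l s ^ n)⁻¹, n, ⟨m, by simp [hl, h]⟩, by group⟩
  have hconj : ∀ (n : ℤ) (u : E), (∃ m, π u = ρ m) → ∃ m, π (l s ^ n * u * (l s ^ n)⁻¹) = ρ m := by
    intro n
    induction n using Int.induction_on with
    | zero => intro u h; simpa using h
    | succ n ih =>
      rintro u ⟨m, hm⟩
      have := ih (l s * u * (l s)⁻¹) ⟨T m, by simp [hl, hm, hs]⟩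
      convert this using 4
      group
    | pred n ih =>
      rintro u ⟨m, hm⟩
      obtain ⟨m', hm'⟩ := hs' m
      have := ih ((l s)⁻¹ * u * l s) ⟨m', by simp [hl, hm, hm']⟩
      convert this using 4
      group
  have hY : Y.Normal := ⟨by
    rintro _ ⟨u, hu, rfl⟩ y
    obtain ⟨v, n, hv, rfl⟩ := hdec y
    refine ⟨l s ^ n * u * (l s ^ n)⁻¹, hconj n u hu, ?_⟩
    have e1 : v * l s ^ n * ⁅l s, u⁆ * (v * l s ^ n)⁻¹ =
        v * ⁅l s, l s ^ n * u * (l s ^ n)⁻¹⁆ * v⁻¹ := by
      simp only [commutatorElement_def]; group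
    rw [e1, hcm' v _ hv (hδ _ (hconj n u hu))]; group⟩
  have hle : commutator E ≤ Y := by
    rw [commutator_def, Subgroup.commutator_le]
    intro y _ z _
    rw [← QuotientGroup.eq_one_iff]
    change QuotientGroup.mk' Y ⁅y, z⁆ = 1
    rw [map_commutatorElement, commutatorElement_eq_one_iff_commute]
    obtain ⟨u, n, hu, rfl⟩ := hdec y
    obtain ⟨v, k, hv, rfl⟩ := hdec z
    have hsu : ∀ w : E, (∃ m, π w = ρ m) →
        Commute (QuotientGroup.mk' Y (l s)) (QuotientGroup.mk' Y w) := by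
      intro w hw
      rw [← commutatorElement_eq_one_iff_commute, ← map_commutatorElement]
      exact (QuotientGroup.eq_one_iff _).2 ⟨w, hw, rfl⟩
    have huv : Commute (QuotientGroup.mk' Y u) (QuotientGroup.mk' Y v) :=
      Commute.map (hcm' u v hu hv) _
    simp only [map_mul, map_zpow]
    exact Commute.mul_left (Commute.mul_right huv ((hsu u hu).symm.zpow_right k))
      (Commute.mul_right ((hsu v hv).zpow_left n) (Commute.zpow_zpow_self _ _ _))
  obtain ⟨u, ⟨m, hm⟩, rfl⟩ := hle he'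
  rw [map_commutatorElement, hl, hm, commutatorElement_def, hs, mul_inv_eq_one] at he
  obtain ⟨n, hn⟩ := hfix m he
  rw [comm_congr_right π hc (e' := l s ^ n) (by rw [hm, hn, map_zpow, hl]),
    commutatorElement_eq_one_iff_commute]
  exact Commute.self_zpow _ _

end ext

theorem upper {x F g : W} (hW : ∀ w : W, ∃ P : Polynomial ℤ, Polynomial.aeval x P = w)
    (hxF : x * F = 0) (hann : ∀ h, g ∣ x * h → ∃ k : ℤ, g ∣ h - k * F)
    {G : Type} [Group G] (ρ : SS x → G) (hρ : ∀ m n, ρ (m + n) = ρ m * ρ n)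
    (s : G) (hs : ∀ m, s * ρ m * s⁻¹ = ρ (tt x * m))
    (hgen : ∀ γ : G, ∃ (m : SS x) (n : ℤ), γ = ρ m * s ^ n)
    (hker : ∀ m, ρ m = 1 ↔ algebraMap W (SS x) g ∣ m)
    (q n : ℕ) (hq : s ^ (q * n) = ρ (algebraMap W (SS x) F * (tt x - 1)))
    (hq' : s ^ q * ρ 1 = ρ 1 * s ^ q) (hn : ρ 1 ^ n = 1)
    (E : Type) [Group E] (π : E →* G) (l : G → E) (hl : ∀ g, π (l g) = g)
    (hc : ∀ e, π e = 1 → e ∈ Subgroup.center E) :
    (∀ v w, ⁅l (ρ (algebraMap W (SS x) (v + w) * tt x)), l (ρ 1)⁆ =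
      ⁅l (ρ (algebraMap W (SS x) v * tt x)), l (ρ 1)⁆ *
        ⁅l (ρ (algebraMap W (SS x) w * tt x)), l (ρ 1)⁆) ∧
    (∀ w, w ∈ Ideal.span {F, g} → ⁅l (ρ (algebraMap W (SS x) w * tt x)), l (ρ 1)⁆ = 1) ∧
    ∀ e, π e = 1 → e ∈ commutator E →
      ∃ w, e = ⁅l (ρ (algebraMap W (SS x) w * tt x)), l (ρ 1)⁆ := by
  have hρ0 : ρ 0 = 1 := by simpa using hρ 0 0
  have hneg : ∀ m, ρ (-m) = (ρ m)⁻¹ := fun m =>
    eq_inv_of_mul_eq_one_left (by rw [← hρ, neg_add_cancel, hρ0])
  have hzs : ∀ (k : ℤ) m, ρ (k • m) = ρ m ^ k := by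
    intro k m
    let ρ' : SS x →+ Additive G := AddMonoidHom.mk' (fun m => Additive.ofMul (ρ m))
      (fun a b => by simp [hρ])
    exact map_zsmul ρ' k m
  have hπ : ∀ m n, π ⁅l (ρ m), l (ρ n)⁆ = 1 := by
    intro m n
    rw [map_commutatorElement, hl, hl, commutatorElement_eq_one_iff_mul_comm, ← hρ, ← hρ, add_comm]
  letI : CommGroup (Subgroup.center E) :=
    { (inferInstance : Group (Subgroup.center E)) with mul_comm := mul_comm' }
  let D : SS x →+ SS x →+ Additive (Subgroup.center E) := AddMonoidHom.mk'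
    (fun m => AddMonoidHom.mk'
      (fun n => Additive.ofMul (⟨⁅l (ρ m), l (ρ n)⁆, hc _ (hπ m n)⟩ : Subgroup.center E))
      (fun n n' => by
        rw [← ofMul_mul]; congr 1; apply Subtype.ext
        change ⁅_, _⁆ = ⁅_, _⁆ * ⁅_, _⁆
        rw [← comm_mul_right π hc _ _ _ (hπ _ _)]
        exact comm_congr_right π hc (by simp [hl, hρ]) _))
    (fun m m' => by
      refine AddMonoidHom.ext fun n => ?_
      apply Subtype.ext
      change ⁅l (ρ (m + m')), l (ρ n)⁆ = ⁅l (ρ m), l (ρ n)⁆ * ⁅l (ρ m'), l (ρ n)⁆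
      rw [← comm_mul_left π hc _ _ _ (hπ _ _)]
      exact comm_congr_left π hc (by simp [hl, hρ]) _)
  have hDv : ∀ m n, ((Additive.toMul (D m n) : Subgroup.center E) : E) = ⁅l (ρ m), l (ρ n)⁆ :=
    fun _ _ => rfl
  have hD0 : ∀ m n, D m n = 0 ↔ ⁅l (ρ m), l (ρ n)⁆ = 1 := by
    intro m n
    rw [← hDv]
    constructor
    · intro h; rw [h]; rfl
    · intro h; exact Subtype.ext h
  have hDt : ∀ m n, D (tt x * m) (tt x * n) = D m n := by
    intro m n
    apply Subtype.ext
    change ⁅_, _⁆ = ⁅_, _⁆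
    rw [comm_congr_left π hc (e' := l s * l (ρ m) * (l s)⁻¹) (by simp [hl, hs]),
      comm_congr_right π hc (e' := l s * l (ρ n) * (l s)⁻¹) (by simp [hl, hs]),
      ← conjugate_commutatorElement, Subgroup.mem_center_iff.1 (hc _ (hπ m n))]
    group
  obtain ⟨hP1, hP2⟩ := pairing hW D hDt (fun m => (hD0 _ _).2 (by simp))
  refine ⟨fun v w => ?_, fun w hw => ?_, fun e he he' => ?_⟩
  · rw [← hDv, ← hDv, ← hDv, map_add, add_mul, map_add]; rfl
  · rw [← hD0]
    obtain ⟨u, v, rfl⟩ := Ideal.mem_span_pair.1 hw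
    obtain ⟨Q, rfl⟩ := hW u
    rw [← Polynomial.divX_mul_X_add Q]
    have e1 : Polynomial.aeval x (Q.divX * Polynomial.X + Polynomial.C (Q.coeff 0)) * F =
        Q.coeff 0 • F := by
      simp [add_mul, mul_assoc, hxF]
    have e2 : algebraMap W (SS x) (Q.coeff 0 • F + v * g) * tt x =
        Q.coeff 0 • (algebraMap W (SS x) F * (tt x - 1)) + Q.coeff 0 • algebraMap W (SS x) F +
          algebraMap W (SS x) g * (algebraMap W (SS x) v * tt x) := by
      simp; ring
    rw [e1, e2]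
    simp only [map_add, map_zsmul, AddMonoidHom.add_apply, AddMonoidHom.smul_apply, hP1]
    have a1 : D (algebraMap W (SS x) g * (algebraMap W (SS x) v * tt x)) 1 = 0 := by
      rw [hD0, comm_congr_left π hc (e' := 1)
        (by rw [hl, map_one]; exact (hker _).2 (dvd_mul_right _ _))]
      simp
    have a2 : D (algebraMap W (SS x) F * (tt x - 1)) 1 = 0 := by
      rw [hD0, comm_congr_left π hc (e' := (l s ^ q) ^ n)
        (by rw [hl, ← hq, ← pow_mul, map_pow, hl]), comm_pow π hc,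
        comm_congr_right π hc (e' := 1) (by rw [map_pow, hl, hn, map_one])]
      · simp
      · rw [map_commutatorElement, map_pow, hl, hl, commutatorElement_eq_one_iff_mul_comm, hq']
    rw [a1, a2]; simp
  · let α : Multiplicative W →* E :=
      { toFun := fun w => ⁅l (ρ (algebraMap W (SS x) w.toAdd * tt x)), l (ρ 1)⁆
        map_one' := by simp [hρ0, comm_congr_left π hc (e := l 1) (e' := 1) (by simp [hl])]
        map_mul' := fun v w => by
          rw [← hDv, ← hDv, ← hDv, toAdd_mul, map_add, add_mul, map_add]; rfl }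
    have hle : α.range ≤ π.ker := by rintro _ ⟨w, rfl⟩; exact hπ _ _
    have hN : α.range.Normal := ⟨fun y hy z => by
      rw [Subgroup.mem_center_iff.1 (hc y (hle hy)) z]; simpa using hy⟩
    let π' : E ⧸ α.range →* G := QuotientGroup.lift _ π hle
    have hc' : ∀ e, π' e = 1 → e ∈ Subgroup.center (E ⧸ α.range) := by
      intro e
      induction e using QuotientGroup.induction_on with
      | H e =>
        intro h
        rw [Subgroup.mem_center_iff]
        intro z
        induction z using QuotientGroup.induction_on with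
        | H z =>
          rw [← QuotientGroup.mk_mul, ← QuotientGroup.mk_mul,
            Subgroup.mem_center_iff.1 (hc e h) z]
    have key := ab_case π' hc' ρ hρ (fun m => tt x * m) s hs
      (fun m => ⟨star (tt x) * m, by
        have := hs (star (tt x) * m)
        rw [← mul_assoc (tt x), tt_mul_star, one_mul] at this
        rw [← this]; group⟩) hgen
      (fun m h => by
        have h1 : ρ (tt x * m + -m) = 1 := by rw [hρ, hneg, h, mul_inv_cancel]
        rw [hker, algebraMap_dvd_iff] at h1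
        obtain ⟨h1, h2⟩ := h1
        simp at h1 h2
        obtain ⟨k, hk⟩ := hann m.im (by
          have := dvd_add h1 h2
          convert this using 1; ring)
        refine ⟨k * (q * n : ℕ), ?_⟩
        rw [mul_comm, zpow_mul, zpow_natCast, hq, ← hzs, ← mul_inv_eq_one, ← hneg, ← hρ, hker,
          algebraMap_dvd_iff]
        constructor
        · have := dvd_sub (dvd_neg.2 h1) hk
          convert this using 1
          simp [algebraMap_eq, re_one, im_one]; ring
        · convert hk using 1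
          simp [algebraMap_eq, re_one, im_one]; ring)
      (fun γ => (l γ : E ⧸ α.range)) (fun γ => hl γ)
      (fun m n => by
        change ⁅QuotientGroup.mk' α.range _, QuotientGroup.mk' α.range _⁆ = 1
        rw [← map_commutatorElement]
        refine (QuotientGroup.eq_one_iff _).2 ⟨Multiplicative.ofAdd (be m n), ?_⟩
        rw [← hDv, hP2]; rfl)
      (e : E ⧸ α.range) he (by
        have := Subgroup.mem_map_of_mem (QuotientGroup.mk' α.range) he'
        rw [commutator_def, Subgroup.map_commutator] at this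
        exact Subgroup.commutator_mono le_top le_top this)
    obtain ⟨w, hw⟩ := (QuotientGroup.eq_one_iff _).1 key
    exact ⟨w.toAdd, hw.symm⟩

end Pool.Agent.H27.Schur
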