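import Mathlib

namespace Pool.Agent.H27.SemiTop

open Topology Filter Classical

universe u

/-- `f : G → H` is semitopological: it is a continuous surjective homomorphism, and `G` embeds
(as a group and as a topological space) onto a normal subgroup of a topological group `G'`
(in universe `u`) carrying an open continuous homomorphism to `H` that extends `f`. -/
def Semitop {G H : Type} [Group G] [TopologicalSpace G] [Group H] [TopologicalSpace H]
    (f : G →* H) : Prop :=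
  Continuous f ∧ Function.Surjective f ∧
  ∃ (G' : Type u) (_ : Group G') (_ : TopologicalSpace G') (_ : IsTopologicalGroup G')
    (ι : G →* G') (f' : G' →* H), IsEmbedding ι ∧ ι.range.Normal ∧ Continuous f' ∧
      IsOpenMap f' ∧ ∀ g, f' (ι g) = f g

/-- filter basis from a chain of subgroups -/
@[reducible] def basisOf {Γ : Type} [Group Γ] (W : ℕ → Subgroup Γ) (hW : Antitone W)
    (hc : ∀ x n, ∃ m, ∀ h ∈ W m, x * h * x⁻¹ ∈ W n) : GroupFilterBasis Γ where
  sets := Set.range fun n => (W n : Set Γ)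
  nonempty := ⟨_, 0, rfl⟩
  inter_sets := by
    rintro _ _ ⟨a, rfl⟩ ⟨b, rfl⟩
    exact ⟨_, ⟨max a b, rfl⟩, fun x hx => ⟨hW (le_max_left a b) hx, hW (le_max_right a b) hx⟩⟩
  one' := by rintro _ ⟨a, rfl⟩; exact (W a).one_mem
  mul' := by
    rintro _ ⟨a, rfl⟩
    refine ⟨_, ⟨a, rfl⟩, ?_⟩
    rintro _ ⟨x, hx, y, hy, rfl⟩
    exact (W a).mul_mem hx hy
  inv' := by
    rintro _ ⟨a, rfl⟩
    exact ⟨_, ⟨a, rfl⟩, fun x hx => (W a).inv_mem hx⟩
  conj' := by
    rintro x _ ⟨a, rfl⟩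
    obtain ⟨m, hm⟩ := hc x a
    exact ⟨_, ⟨m, rfl⟩, fun y hy => hm y hy⟩

lemma mem_nhds_basisOf {Γ : Type} [Group Γ] (W : ℕ → Subgroup Γ) (hW : Antitone W)
    (hc : ∀ x n, ∃ m, ∀ h ∈ W m, x * h * x⁻¹ ∈ W n) (U : Set Γ) :
    U ∈ @nhds Γ (basisOf W hW hc).topology 1 ↔ ∃ n, (W n : Set Γ) ⊆ U := by
  rw [(basisOf W hW hc).nhds_one_hasBasis.mem_iff]
  constructor
  · rintro ⟨_, ⟨n, rfl⟩, h⟩; exact ⟨n, h⟩
  · rintro ⟨n, h⟩; exact ⟨_, ⟨n, rfl⟩, h⟩

abbrev S3 := Equiv.Perm (Fin 3)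

def Ksub : Subgroup (ℕ → S3) where
  carrier := {k | ∃ n, ∀ i, n ≤ i → k i = 1}
  one_mem' := ⟨0, fun _ _ => rfl⟩
  mul_mem' := by
    rintro a b ⟨n, hn⟩ ⟨m, hm⟩
    exact ⟨max n m, fun i hi => by
      simp [hn i (le_trans (le_max_left _ _) hi), hm i (le_trans (le_max_right _ _) hi)]⟩
  inv_mem' := by
    rintro a ⟨n, hn⟩
    exact ⟨n, fun i hi => by simp [hn i hi]⟩

def V (n : ℕ) : Subgroup Ksub where
  carrier := {k | ∀ i, i < n → k.1 i = 1}
  one_mem' := fun _ _ => rfl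
  mul_mem' := by
    intro a b ha hb i hi
    simp [ha i hi, hb i hi]
  inv_mem' := by
    intro a ha i hi
    simp [ha i hi]

lemma V_anti : Antitone V := fun _ _ hab _ hx i hi => hx i (lt_of_lt_of_le hi hab)

lemma V_conj (x : Ksub) (n : ℕ) (h : Ksub) (hh : h ∈ V n) : x * h * x⁻¹ ∈ V n := by
  intro i hi
  simp [hh i hi]

lemma V_cent (x : Ksub) : ∃ m, ∀ h ∈ V m, x * h = h * x := by
  obtain ⟨n, hn⟩ := x.2
  refine ⟨n, fun h hh => Subtype.ext (funext fun i => ?_)⟩
  by_cases hi : i < n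
  · simp [hh i hi]
  · simp [hn i (not_lt.1 hi)]

/-- `K`: discrete copy -/
def K : Type := Ksub
instance : Group K := inferInstanceAs (Group Ksub)
instance : TopologicalSpace K := ⊥
instance : DiscreteTopology K := ⟨rfl⟩
instance : IsTopologicalGroup K := ⟨⟩

/-- `H`: copy with the product topology -/
def H : Type := Ksub
instance : Group H := inferInstanceAs (Group Ksub)
@[reducible] def HB : GroupFilterBasis Ksub := basisOf V V_anti fun x n => ⟨n, V_conj x n⟩
instance : TopologicalSpace H := HB.topology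
instance : IsTopologicalGroup H := HB.isTopologicalGroup

lemma mem_nhds_H (U : Set H) : U ∈ 𝓝 (1 : H) ↔ ∃ n, (V n : Set Ksub) ⊆ U :=
  mem_nhds_basisOf V V_anti _ U

def f2 : K →* H := MonoidHom.id Ksub

def D (n : ℕ) : Subgroup (Ksub × Ksub) where
  carrier := {k | k.1 = k.2 ∧ k.1 ∈ V n}
  one_mem' := ⟨rfl, (V n).one_mem⟩
  mul_mem' := by
    rintro a b ⟨h1, h2⟩ ⟨h3, h4⟩
    exact ⟨by simp [h1, h3], (V n).mul_mem h2 h4⟩
  inv_mem' := by
    rintro a ⟨h1, h2⟩
    exact ⟨by simp [h1], (V n).inv_mem h2⟩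

lemma D_anti : Antitone D := fun _ _ hab _ hx => ⟨hx.1, V_anti hab hx.2⟩

lemma D_conj (x : Ksub × Ksub) (n : ℕ) : ∃ m, ∀ h ∈ D m, x * h * x⁻¹ ∈ D n := by
  obtain ⟨m1, h1⟩ := V_cent x.1
  obtain ⟨m2, h2⟩ := V_cent x.2
  refine ⟨max n (max m1 m2), ?_⟩
  rintro h ⟨e, hv⟩
  refine ⟨?_, V_conj _ _ _ (V_anti (le_max_left _ _) hv)⟩
  have a1 := h1 h.1 (V_anti (le_trans (le_max_left _ _) (le_max_right _ _)) hv)
  have a2 := h2 h.1 (V_anti (le_trans (le_max_right _ _) (le_max_right _ _)) hv)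
  simp only [Prod.fst_mul, Prod.fst_inv, Prod.snd_mul, Prod.snd_inv]
  rw [← e, a1, a2]
  simp

def KK : Type := Ksub × Ksub
instance : Group KK := inferInstanceAs (Group (Ksub × Ksub))
@[reducible] def KB : GroupFilterBasis (Ksub × Ksub) := basisOf D D_anti D_conj
instance : TopologicalSpace KK := KB.topology
instance : IsTopologicalGroup KK := KB.isTopologicalGroup

lemma mem_nhds_KK (U : Set KK) : U ∈ 𝓝 (1 : KK) ↔ ∃ n, (D n : Set (Ksub × Ksub)) ⊆ U :=
  mem_nhds_basisOf D D_anti _ U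

def ιK : K →* KK := MonoidHom.inl Ksub Ksub
def pK : KK →* H := MonoidHom.fst Ksub Ksub

lemma f2_semitop : Semitop.{0} f2 := by
  refine ⟨continuous_of_discreteTopology, fun x => ⟨x, rfl⟩, KK, inferInstance, inferInstance,
    inferInstance, ιK, pK, ⟨?_, ?_⟩, ?_, ?_, ?_, fun _ => rfl⟩
  · rw [IsTopologicalGroup.isInducing_iff_nhds_one]
    rw [nhds_discrete]
    apply le_antisymm
    · rw [← Filter.map_le_iff_le_comap, Filter.map_pure, map_one]
      exact pure_le_nhds _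
    · rw [Filter.le_pure_iff, Filter.mem_comap]
      refine ⟨(D 0 : Set (Ksub × Ksub)), (mem_nhds_KK _).2 ⟨0, subset_rfl⟩, ?_⟩
      intro x hx
      exact hx.1
  · intro x y h
    exact congrArg Prod.fst h
  · constructor
    rintro _ ⟨x, rfl⟩ g
    let y : Ksub := x
    refine ⟨(g.1 * y * g.1⁻¹ : Ksub), ?_⟩
    apply Prod.ext
    · rfl
    · change (1 : Ksub) = g.2 * 1 * g.2⁻¹
      simp
  · apply continuous_of_continuousAt_one pK
    rw [ContinuousAt, map_one]
    intro U hU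
    obtain ⟨n, hn⟩ := (mem_nhds_H U).1 hU
    exact (mem_nhds_KK _).2 ⟨n, fun x hx => hn hx.2⟩
  · rw [IsTopologicalGroup.isOpenMap_iff_nhds_one]
    intro U hU
    obtain ⟨n, hn⟩ := (mem_nhds_KK _).1 hU
    refine (mem_nhds_H U).2 ⟨n, fun x hx => ?_⟩
    exact hn (a := (x, x)) ⟨rfl, hx⟩

abbrev X := ℕ → Fin 3

@[ext] structure G where
  n : X → ZMod 2
  k : Ksub

def act (k : Ksub) (x : X) : X := fun i => k.1 i (x i)

instance : Mul G := ⟨fun a b => ⟨fun x => a.n x + b.n (act a.k⁻¹ x), a.k * b.k⟩⟩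
instance : One G := ⟨⟨0, 1⟩⟩
instance : Inv G := ⟨fun a => ⟨fun x => - a.n (act a.k x), a.k⁻¹⟩⟩

@[simp] lemma mul_n (a b : G) (x : X) : (a * b).n x = a.n x + b.n (act a.k⁻¹ x) := rfl
@[simp] lemma mul_k (a b : G) : (a * b).k = a.k * b.k := rfl
@[simp] lemma one_n (x : X) : (1 : G).n x = 0 := rfl
@[simp] lemma one_k : (1 : G).k = 1 := rfl
@[simp] lemma inv_n (a : G) (x : X) : (a⁻¹).n x = - a.n (act a.k x) := rfl
@[simp] lemma inv_k (a : G) : (a⁻¹).k = a.k⁻¹ := rfl
lemma act_mul (a b : Ksub) (x : X) : act (a * b) x = act a (act b x) := rfl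
@[simp] lemma act_one (x : X) : act 1 x = x := rfl

instance : Group G := Group.ofLeftAxioms
  (fun a b c => by
    ext x
    · simp [act_mul, add_assoc]
    · simp [mul_assoc])
  (fun a => by
    ext x
    · simp
    · simp)
  (fun a => by
    ext x
    · simp only [mul_n, inv_n, inv_k, inv_inv, one_n, neg_add_cancel]
    · simp)

instance : TopologicalSpace G := ⊥
instance : DiscreteTopology G := ⟨rfl⟩
instance : IsTopologicalGroup G := ⟨⟩

def f1 : G →* K where
  toFun a := a.k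
  map_one' := rfl
  map_mul' _ _ := rfl

noncomputable def single (n : ℕ) (s : S3) : Ksub :=
  ⟨Pi.mulSingle n s, n + 1, fun i hi => by
    rw [Pi.mulSingle_eq_of_ne (by omega)]⟩

noncomputable def gv : G := ⟨fun x => if x = 0 then 1 else 0, 1⟩

lemma comm_gv (a : G) : a * gv = gv * a ↔ act a.k⁻¹ 0 = 0 := by
  constructor
  · intro h
    have := congrArg (fun z : G => z.n 0) h
    simp only [mul_n, gv, inv_one, act_one, if_true] at this
    by_contra hne
    rw [if_neg hne, add_zero] at this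
    revert this
    generalize a.n 0 = c
    revert c
    decide
  · intro h
    ext x
    · simp only [mul_n, gv, inv_one, act_one]
      rw [add_comm]
      congr 1
      have : act a.k⁻¹ x = 0 ↔ x = 0 := by
        constructor
        · intro hx
          have h2 : act a.k (act a.k⁻¹ x) = act a.k (act a.k⁻¹ 0) := by rw [hx, h]
          simpa [← act_mul] using h2
        · rintro rfl; exact h
      simp [this]
    · simp [gv]

lemma not_semitop : ¬ Semitop.{u} (f2.comp f1) := by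
  rintro ⟨-, -, G', _, _, _, ι, φ, hι, hN, hφ, hφo, hext⟩
  obtain ⟨O, hO, hO'⟩ := hι.isInducing.isOpen_iff.1 (isOpen_discrete ({gv} : Set G))
  have hc : Continuous fun x : G' => x * ι gv * x⁻¹ := by fun_prop
  have hW : IsOpen ((fun x : G' => x * ι gv * x⁻¹) ⁻¹' O) := hO.preimage hc
  have h1 : (1 : G') ∈ ((fun x : G' => x * ι gv * x⁻¹) ⁻¹' O) := by
    have : gv ∈ ι ⁻¹' O := by rw [hO']; rfl
    simpa using this
  have h2 := (hφo _ hW).mem_nhds ⟨1, h1, map_one φ⟩
  obtain ⟨n, hn⟩ := (mem_nhds_H _).1 h2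
  have hk : single n (Equiv.swap 0 1) ∈ V n := by
    intro i hi
    simp only [single]
    rw [Pi.mulSingle_eq_of_ne (by omega)]
  obtain ⟨x, hx, hxk⟩ := hn hk
  obtain ⟨g', hg'⟩ := hN.conj_mem _ ⟨gv, rfl⟩ x
  have hg'' : g' = gv := by
    have : g' ∈ ι ⁻¹' O := by
      rw [Set.mem_preimage, hg']; exact hx
    rw [hO'] at this
    exact this
  rw [hg''] at hg'
  let s : G := ⟨0, single n (Equiv.swap 1 2)⟩
  have hs : s * gv = gv * s := by
    rw [comm_gv]
    funext i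
    by_cases hi : i = n
    · subst hi
      simp only [act, s, single, Subgroup.coe_inv, Pi.inv_apply, Pi.mulSingle_eq_same]
      rfl
    · simp [act, s, single, Pi.mulSingle_eq_of_ne hi]
  obtain ⟨t, ht⟩ := hN.conj_mem _ ⟨s, rfl⟩ x
  have ht2 : t * gv = gv * t := by
    apply hι.injective
    have e1 : ι (s * gv) = ι (gv * s) := by rw [hs]
    rw [map_mul, map_mul] at e1
    rw [map_mul, map_mul, ht]
    calc x * ι s * x⁻¹ * ι gv = x * ι s * x⁻¹ * (x * ι gv * x⁻¹) := by rw [← hg']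
      _ = x * (ι s * ι gv) * x⁻¹ := by group
      _ = x * (ι gv * ι s) * x⁻¹ := by rw [e1]
      _ = (x * ι gv * x⁻¹) * (x * ι s * x⁻¹) := by group
      _ = _ := by rw [← hg']
  have htk : t.k = single n (Equiv.swap 0 1) * single n (Equiv.swap 1 2)
      * (single n (Equiv.swap 0 1))⁻¹ := by
    have e1 := hext t
    have e2 := hext s
    rw [ht, map_mul, map_mul, map_inv, e2, hxk] at e1
    exact e1.symm
  rw [comm_gv, htk] at ht2
  have := congrFun ht2 n
  simp only [act, single, Subgroup.coe_inv, Subgroup.coe_mul, Pi.inv_apply, Pi.mul_apply,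
    Pi.mulSingle_eq_same, Pi.zero_apply] at this
  exact absurd this (by decide : ¬ ((Equiv.swap 0 1 * Equiv.swap 1 2 * (Equiv.swap 0 1)⁻¹ : S3)⁻¹ 0 = 0))

end Pool.Agent.H27.SemiTop
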