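import Mathlib

namespace Pool.Agent.H27.SignRot

open Complex

def sg (u : ℚ × ℚ) : ℤ := if u.1 < 0 then 1 else -1

def step (u : ℚ × ℚ) : ℚ × ℚ :=
  ((u.1 + sg u) * (-117 / 125) + u.2 * (44 / 125), u.2 * (-117 / 125) - (u.1 + sg u) * (44 / 125))

def u0 : ℚ × ℚ :=
  (-13069004130498091493151058540756 / 17942353800421699429419244034637,
    7301220855223310022997792268158 / 17942353800421699429419244034637)

def U (n : ℕ) : ℚ × ℚ := step^[n] u0

lemma U_per : step^[60] u0 = u0 := by decide +kernel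

lemma U_ne : ∀ n < 60, (step^[n] u0).1 ≠ 0 := by decide +kernel

def Ls : List ℤ := (List.range 60).map fun n => sg (step^[n] u0)

lemma Ls_min : ∀ p < 60, 1 ≤ p → ∃ r < 60, Ls.getD ((r + p) % 60) 0 ≠ Ls.getD r 0 := by
  have : Ls = [1,1,1,-1,-1,-1,-1,-1,-1,-1,-1,-1,-1,-1,-1,-1,-1,-1,-1,1,1,1,1,1,1,1,
    -1,-1,-1,-1,-1,-1,-1,1,1,1,1,1,1,1,1,1,1,1,1,1,1,1,1,-1,-1,-1,-1,-1,-1,-1,1,1,1,1] := by
    decide +kernel
  rw [this]
  decide +kernel

lemma U_mod (n : ℕ) : U n = U (n % 60) := by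
  conv_lhs => rw [← Nat.mod_add_div n 60]
  rw [U, Function.iterate_add_apply, Function.iterate_mul, Function.iterate_fixed U_per]
  rfl

lemma Ls_get {r : ℕ} (hr : r < 60) : Ls.getD r 0 = sg (U r) := by
  simp [Ls, List.getD, hr, U]

noncomputable def al : ℝ := Real.arccos (-117 / 125) / (2 * Real.pi)

lemma al_mul : 2 * Real.pi * al = Real.arccos (-117 / 125) := by
  have := Real.pi_pos
  unfold al
  field_simp

lemma al_pos : 0 < al := by
  have := Real.pi_pos
  apply div_pos _ (by positivity)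
  rw [Real.arccos_pos]
  norm_num

lemma cos_al : Real.cos (2 * Real.pi * al) = -117 / 125 := by
  rw [al_mul, Real.cos_arccos] <;> norm_num

lemma sin_al : Real.sin (2 * Real.pi * al) = 44 / 125 := by
  rw [al_mul, Real.sin_arccos, show (1 : ℝ) - (-117 / 125) ^ 2 = (44 / 125) ^ 2 by norm_num,
    Real.sqrt_sq (by norm_num)]

lemma al_irr : Irrational al := by
  rintro ⟨q, hq⟩
  have := niven (θ := 2 * Real.pi * al) ⟨2 * q, by rw [← hq]; push_cast; ring⟩
    ⟨-117 / 125, by rw [cos_al]; push_cast; ring⟩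
  rw [cos_al] at this
  simp only [Set.mem_insert_iff, Set.mem_singleton_iff] at this
  norm_num at this

noncomputable def om : ℂ := exp (2 * Real.pi * I * al)

lemma om_eq : om = ⟨-117 / 125, 44 / 125⟩ := by
  have : om = exp ((2 * Real.pi * al : ℝ) * I) := by
    unfold om; congr 1; push_cast; ring
  rw [this]
  apply Complex.ext
  · rw [exp_ofReal_mul_I_re, cos_al]
  · rw [exp_ofReal_mul_I_im, sin_al]

lemma om_pow (n : ℕ) : exp (2 * Real.pi * I * al * n) = om ^ n := by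
  rw [om, ← exp_nat_mul, mul_comm]

noncomputable def toC (u : ℚ × ℚ) : ℂ := ⟨u.1, u.2⟩

lemma step_mul (u : ℚ × ℚ) : toC (step u) * om = toC u + sg u := by
  rw [om_eq]
  apply Complex.ext
  · simp [toC, step]; ring
  · simp [toC, step]; ring

noncomputable def z (n : ℕ) : ℂ := toC (U n) * om ^ n

lemma norm_om : ‖om‖ = 1 := by
  have : om = exp ((2 * Real.pi * al : ℝ) * I) := by
    unfold om; congr 1; push_cast; ring
  rw [this, norm_exp_ofReal_mul_I]

lemma z_succ (n : ℕ) : z (n + 1) = z n + sg (U n) * om ^ n := by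
  rw [z, z, U, Function.iterate_succ_apply', pow_succ', ← mul_assoc, step_mul, add_mul]
  rfl

lemma z_lt (n : ℕ) : ‖z n + sg (U n) * om ^ n‖ < ‖z n - sg (U n) * om ^ n‖ := by
  rw [z, ← add_mul, ← sub_mul, norm_mul, norm_mul, norm_pow, norm_om, one_pow, mul_one, mul_one]
  have h : (U n).1 ≠ 0 := by rw [U_mod]; exact U_ne _ (Nat.mod_lt _ (by norm_num))
  rw [← sq_lt_sq₀ (norm_nonneg _) (norm_nonneg _), Complex.sq_norm, Complex.sq_norm,
    normSq_apply, normSq_apply]
  unfold sg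
  split_ifs with h1
  · have : ((U n).1 : ℝ) < 0 := by exact_mod_cast h1
    simp [toC]
    linarith
  · have : (0 : ℝ) < (U n).1 := by exact_mod_cast lt_of_le_of_ne (not_lt.1 h1) h.symm
    simp [toC]
    linarith

lemma sg_pm (u : ℚ × ℚ) : sg u = 1 ∨ sg u = -1 := by
  unfold sg; split_ifs <;> simp

lemma least : IsLeast {p : ℕ | 1 ≤ p ∧ ∃ N, ∀ n ≥ N, sg (U (n + p)) = sg (U n)} 60 := by
  refine ⟨⟨by norm_num, 0, fun n _ => by rw [U_mod, Nat.add_mod_right, ← U_mod]⟩, ?_⟩
  rintro p ⟨hp, N, hN⟩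
  by_contra hlt
  obtain ⟨r, hr, h⟩ := Ls_min p (by omega) hp
  apply h
  rw [Ls_get hr, Ls_get (Nat.mod_lt _ (by norm_num))]
  have := hN (60 * N + r) (by omega)
  rw [U_mod (60 * N + r + p), U_mod (60 * N + r), show (60 * N + r + p) % 60 = (r + p) % 60 by omega,
    show (60 * N + r) % 60 = r by omega] at this
  exact this

end Pool.Agent.H27.SignRot
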