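import Mathlib

set_option autoImplicit false

namespace Pool.Agent.H27.SolAut

open scoped commutatorElement

@[ext] structure B (G : Type) where
  a : ℚˣ
  b : ℚ
  s : ℚ → ℤˣ
  v : ℚ → G → ZMod 3

variable {G : Type}

instance : Mul (B G) := ⟨fun σ τ => ⟨σ.a * τ.a, σ.a * τ.b + σ.b, fun x => σ.s (τ.a * x + τ.b) * τ.s x,
    fun x h => σ.s (τ.a * x + τ.b) • τ.v x h + σ.v (τ.a * x + τ.b) h⟩⟩
instance : One (B G) := ⟨⟨1, 0, 1, 0⟩⟩
instance : Inv (B G) := ⟨fun σ => ⟨σ.a⁻¹, -(↑σ.a⁻¹ * σ.b), fun y => (σ.s (↑σ.a⁻¹ * (y - σ.b)))⁻¹,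
    fun y h => -((σ.s (↑σ.a⁻¹ * (y - σ.b)))⁻¹ • σ.v (↑σ.a⁻¹ * (y - σ.b)) h)⟩⟩

@[simp] theorem mul_a (σ τ : B G) : (σ * τ).a = σ.a * τ.a := rfl
@[simp] theorem mul_b (σ τ : B G) : (σ * τ).b = σ.a * τ.b + σ.b := rfl
@[simp] theorem mul_s (σ τ : B G) (x : ℚ) : (σ * τ).s x = σ.s (τ.a * x + τ.b) * τ.s x := rfl
@[simp] theorem mul_v (σ τ : B G) (x : ℚ) (h : G) :
    (σ * τ).v x h = σ.s (τ.a * x + τ.b) • τ.v x h + σ.v (τ.a * x + τ.b) h := rfl
@[simp] theorem one_a : (1 : B G).a = 1 := rfl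
@[simp] theorem one_b : (1 : B G).b = 0 := rfl
@[simp] theorem one_s (x : ℚ) : (1 : B G).s x = 1 := rfl
@[simp] theorem one_v (x : ℚ) (h : G) : (1 : B G).v x h = 0 := rfl
@[simp] theorem inv_a (σ : B G) : (σ⁻¹).a = σ.a⁻¹ := rfl
@[simp] theorem inv_b (σ : B G) : (σ⁻¹).b = -(↑σ.a⁻¹ * σ.b) := rfl
@[simp] theorem inv_s (σ : B G) (y : ℚ) : (σ⁻¹).s y = (σ.s (↑σ.a⁻¹ * (y - σ.b)))⁻¹ := rfl
@[simp] theorem inv_v (σ : B G) (y : ℚ) (h : G) :
    (σ⁻¹).v y h = -((σ.s (↑σ.a⁻¹ * (y - σ.b)))⁻¹ • σ.v (↑σ.a⁻¹ * (y - σ.b)) h) := rfl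

instance : Group (B G) := Group.ofLeftAxioms
  (fun σ τ ρ => by
    have e : ∀ x : ℚ, (τ.a : ℚ) * (ρ.a * x + ρ.b) + τ.b = τ.a * ρ.a * x + (τ.a * ρ.b + τ.b) :=
      fun x => by ring
    refine B.ext (mul_assoc _ _ _) (by simp; ring) (funext fun x => ?_)
      (funext fun x => funext fun h => ?_)
    · simp [e, mul_assoc]
    · simp [e, mul_smul, add_assoc])
  (fun σ => B.ext (by simp) (by simp) (funext fun x => by simp) (funext fun x => funext fun h => by simp))
  (fun σ => B.ext (by simp) (by simp) (funext fun x => by simp) (funext fun x => funext fun h => by simp))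

def B1 : Subgroup (B G) where
  carrier := {σ | σ.a = 1}
  one_mem' := rfl
  mul_mem' := fun {σ τ} h1 h2 => by simp_all
  inv_mem' := fun {σ} h => by simp_all

def B2 : Subgroup (B G) where
  carrier := {σ | σ.a = 1 ∧ σ.b = 0}
  one_mem' := ⟨rfl, rfl⟩
  mul_mem' := fun {σ τ} h1 h2 => by simp_all
  inv_mem' := fun {σ} h => by simp_all

def B3 : Subgroup (B G) where
  carrier := {σ | σ.a = 1 ∧ σ.b = 0 ∧ ∀ x, σ.s x = 1}
  one_mem' := ⟨rfl, rfl, fun _ => rfl⟩
  mul_mem' := fun {σ τ} h1 h2 => by simp_all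
  inv_mem' := fun {σ} h => by simp_all

theorem der4 : derivedSeries (B G) 4 = ⊥ := by
  have h1 : derivedSeries (B G) 1 ≤ B1 := by
    rw [derivedSeries_succ, Subgroup.commutator_le]
    intro σ _ τ _
    show (σ * τ * σ⁻¹ * τ⁻¹).a = 1
    simp [mul_comm σ.a τ.a]
  have h2 : ⁅(B1 : Subgroup (B G)), (B1 : Subgroup (B G))⁆ ≤ B2 := by
    rw [Subgroup.commutator_le]
    intro σ (hσ : σ.a = 1) τ (hτ : τ.a = 1)
    show (σ * τ * σ⁻¹ * τ⁻¹).a = 1 ∧ (σ * τ * σ⁻¹ * τ⁻¹).b = 0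
    simp [hσ, hτ]
  have h3 : ⁅(B2 : Subgroup (B G)), (B2 : Subgroup (B G))⁆ ≤ B3 := by
    rw [Subgroup.commutator_le]
    rintro σ ⟨a1, a2⟩ τ ⟨b1, b2⟩
    show (σ * τ * σ⁻¹ * τ⁻¹).a = 1 ∧ (σ * τ * σ⁻¹ * τ⁻¹).b = 0 ∧ ∀ x, (σ * τ * σ⁻¹ * τ⁻¹).s x = 1
    simp [a1, a2, b1, b2]
    intro x
    rcases Int.units_eq_one_or (σ.s x) with h | h <;> rcases Int.units_eq_one_or (τ.s x) with h' | h' <;>
      simp [h, h']
  have h4 : ⁅(B3 : Subgroup (B G)), (B3 : Subgroup (B G))⁆ ≤ ⊥ := by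
    rw [Subgroup.commutator_le]
    rintro σ ⟨a1, a2, a3⟩ τ ⟨b1, b2, b3⟩
    rw [Subgroup.mem_bot, commutatorElement_eq_one_iff_mul_comm]
    exact B.ext (by simp [a1, b1]) (by simp [a1, a2, b1, b2]) (funext fun x => by simp [a3, b3])
      (funext fun x => funext fun h => by simp [a1, a2, a3, b1, b2, b3, add_comm])
  have k2 : derivedSeries (B G) 2 ≤ B2 := (Subgroup.commutator_mono h1 h1).trans h2
  have k3 : derivedSeries (B G) 3 ≤ B3 := (Subgroup.commutator_mono k2 k2).trans h3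
  exact le_bot_iff.1 ((Subgroup.commutator_mono k3 k3).trans h4)

variable [Group G]

def F (e : ℕ → G) : ℕ → ℕ → G
  | n, i => if n = 0 then 1 else if n % 2 = 0 then F e (n / 2) (i + 1) else F e (n / 2) 0 * e i
termination_by n => n
decreasing_by all_goals omega

theorem F_pow (e : ℕ → G) (x : ℕ) : ∀ i j, F e (2 ^ i * (2 * x + 1)) j = F e x 0 * e (i + j)
  | 0, j => by
    rw [F, if_neg (by omega), if_neg (by omega)]
    congr 2 <;> omega
  | i + 1, j => by
    have h : 2 ^ (i + 1) * (2 * x + 1) = 2 * (2 ^ i * (2 * x + 1)) := by ring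
    have h0 : 0 < 2 ^ i * (2 * x + 1) := by positivity
    rw [F, if_neg (by omega), if_pos (by omega), h, Nat.mul_div_cancel_left _ (by norm_num), F_pow]
    congr 2; omega

def r (g : G) : B G ≃* B G where
  toFun σ := ⟨σ.a, σ.b, σ.s, fun x h => σ.v x (h * g)⟩
  invFun σ := ⟨σ.a, σ.b, σ.s, fun x h => σ.v x (h * g⁻¹)⟩
  left_inv σ := B.ext rfl rfl rfl (funext fun x => funext fun h => by simp)
  right_inv σ := B.ext rfl rfl rfl (funext fun x => funext fun h => by simp)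
  map_mul' _ _ := rfl

def tr (v : ℚ → G → ZMod 3) : B G := ⟨1, 0, 1, v⟩
def aff (a : ℚˣ) (b : ℚ) : B G := ⟨a, b, 1, 0⟩
open Classical in
noncomputable def sg : B G := ⟨1, 0, fun x => if ∃ n : ℕ, x = n then -1 else 1, 0⟩
open Classical in
noncomputable def kk (e : ℕ → G) : ℚ → G → ZMod 3 :=
  fun x h => if ∃ n : ℕ, x = n ∧ F e n 0 = h then 1 else 0

def two : ℚˣ := Units.mk0 2 (by norm_num)

noncomputable def S (e : ℕ → G) : Subgroup (B G) :=
  Subgroup.closure {tr (kk e), sg, aff two 0, aff 1 1}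

theorem aff_mul (a a' : ℚˣ) (b b' : ℚ) : (aff a b : B G) * aff a' b' = aff (a * a') (a * b' + b) :=
  B.ext rfl rfl (funext fun x => by simp [aff]) (funext fun x => funext fun h => by simp [aff])

theorem aff_mem (e : ℕ → G) (i : ℕ) : aff (two ^ (i + 1)) (2 ^ i) ∈ S e := by
  have h1 : aff two 0 ∈ S e := Subgroup.subset_closure (by simp)
  have h2 : aff 1 1 ∈ S e := Subgroup.subset_closure (by simp)
  induction i with
  | zero =>
    have := (S e).mul_mem h2 h1
    rw [aff_mul] at this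
    simpa using this
  | succ i ih =>
    have := (S e).mul_mem h1 ih
    rw [aff_mul] at this
    convert this using 2
    · rw [← pow_succ']
    · simp [two, pow_succ']

theorem r_mem (e : ℕ → G) (he : Function.Surjective e) (g : G) : ∀ σ ∈ S e, r g σ ∈ S e := by
  classical
  have : S e ≤ (S e).comap (r g).toMonoidHom := by
    rw [S, Subgroup.closure_le]
    have h0 : tr (kk e) ∈ S e := Subgroup.subset_closure (by simp)
    have h1 : sg ∈ S e := Subgroup.subset_closure (by simp)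
    have h2 : aff two 0 ∈ S e := Subgroup.subset_closure (by simp)
    have h3 : aff 1 1 ∈ S e := Subgroup.subset_closure (by simp)
    rintro σ (rfl | rfl | rfl | rfl)
    · obtain ⟨i, hi⟩ := he g⁻¹
      have hP := aff_mem e i
      have hw := (S e).mul_mem ((S e).mul_mem ((S e).inv_mem hP) h0) hP
      have := (S e).mul_mem ((S e).inv_mem hw) ((S e).mul_mem ((S e).mul_mem h1 hw) h1)
      show r g (tr (kk e)) ∈ S e
      convert this using 1
      refine B.ext (by simp [r, tr, aff, sg]) (by simp [r, tr, aff, sg])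
        (funext fun x => ?_) (funext fun x => funext fun h => ?_)
      · simp only [r, tr, aff, sg, MulEquiv.coe_mk, Equiv.coe_fn_mk]
        simp
        split_ifs <;> simp
      · simp only [r, tr, aff, sg, MulEquiv.coe_mk, Equiv.coe_fn_mk]
        simp
        by_cases hx : ∃ n : ℕ, x = n
        · obtain ⟨n, rfl⟩ := hx
          have e1 : ((two : ℚˣ) : ℚ) ^ (i + 1) * n + 2 ^ i = ((2 ^ i * (2 * n + 1) : ℕ) : ℚ) := by
            simp [two]; ring
          rw [e1, if_pos ⟨n, rfl⟩]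
          simp only [kk, Nat.cast_inj, exists_eq_left', F_pow, add_zero, hi, mul_inv_eq_iff_eq_mul]
          split_ifs <;> decide
        · rw [if_neg hx, kk, if_neg (fun ⟨n, h, _⟩ => hx ⟨n, h⟩)]
          simp
    · exact h1
    · exact h2
    · exact h3
  exact fun σ h => this h

noncomputable def ρ (e : ℕ → G) (he : Function.Surjective e) : G →* MulAut (S e) where
  toFun g :=
    { toFun := fun σ => ⟨r g σ.1, r_mem e he g _ σ.2⟩
      invFun := fun σ => ⟨r g⁻¹ σ.1, r_mem e he g⁻¹ _ σ.2⟩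
      left_inv := fun σ => Subtype.ext ((r g).left_inv σ.1)
      right_inv := fun σ => Subtype.ext ((r g).right_inv σ.1)
      map_mul' := fun _ _ => rfl }
  map_one' := by
    ext1 σ
    exact Subtype.ext (B.ext rfl rfl rfl (funext fun x => funext fun h => by simp [r]))
  map_mul' g g' := by
    ext1 σ
    exact Subtype.ext (B.ext rfl rfl rfl (funext fun x => funext fun h => by simp [r, mul_assoc]))

theorem ρ_inj (e : ℕ → G) (he : Function.Surjective e) : Function.Injective (ρ e he) := by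
  classical
  rw [injective_iff_map_eq_one]
  intro g hg
  have h0 : tr (kk e) ∈ S e := Subgroup.subset_closure (by simp)
  have := congrArg (fun φ : MulAut (S e) => (φ ⟨_, h0⟩).1.v (0 : ℕ) (F e 0 0)) hg
  change kk e (0 : ℕ) (F e 0 0 * g) = kk e (0 : ℕ) (F e 0 0) at this
  simp only [kk, Nat.cast_inj, exists_eq_left', if_true] at this
  by_contra h
  rw [if_neg (by simpa using h)] at this
  exact absurd this (by decide)

theorem main (G : Type) [Group G] [Countable G] :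
    ∃ (S : Type) (_ : Group S), Group.FG S ∧ derivedSeries S 4 = ⊥ ∧
      ∃ f : G →* MulAut S, Function.Injective f := by
  obtain ⟨e, he⟩ := exists_surjective_nat G
  refine ⟨S e, inferInstance, Group.closure_finite_fg _, ?_, ρ e he, ρ_inj e he⟩
  have := map_derivedSeries_le_derivedSeries (S e).subtype 4
  rw [der4, le_bot_iff] at this
  exact (Subgroup.map_eq_bot_iff_of_injective _ (S e).subtype_injective).1 this

end Pool.Agent.H27.SolAut
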