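import Pool.Agent.H27.AmenRel

set_option autoImplicit false

namespace Pool.Agent.H27.StrongTrans

open Pool.Agent.H27.Amen Filter
open scoped commutatorElement

abbrev V : Type := Lex (ℚ →₀ ℚ)

def co (v : V) (i : ℚ) : ℚ := ofLex v i

theorem lt_iff {a b : V} : a < b ↔ ∃ i, (∀ j < i, co a j = co b j) ∧ co a i < co b i :=
  Finsupp.Lex.lt_iff

theorem V_ext {a b : V} (h : ∀ i, co a i = co b i) : a = b :=
  ofLex.injective (Finsupp.ext h)

theorem exists_θ : Nonempty (V ≃o ℚ) := by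
  haveI : Countable V := inferInstanceAs (Countable (ℚ →₀ ℚ))
  haveI : DenselyOrdered V := ⟨fun a b h => by
    obtain ⟨i, h1, h2⟩ := lt_iff.1 h
    refine ⟨toLex ((1 / 2 : ℚ) • (ofLex a + ofLex b)), lt_iff.2 ⟨i, fun j hj => ?_, ?_⟩,
      lt_iff.2 ⟨i, fun j hj => ?_, ?_⟩⟩
    · have := h1 j hj
      simp only [co] at this ⊢
      simp [← this]; ring
    · simp only [co] at h2 ⊢
      simp; linarith
    · have := h1 j hj
      simp only [co] at this ⊢
      simp [← this]; ring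
    · simp only [co] at h2 ⊢
      simp; linarith⟩
  haveI : NoMaxOrder V := ⟨fun a => ⟨toLex (ofLex a + Finsupp.single 0 1), lt_iff.2
    ⟨0, fun j hj => by simp [co, hj.ne], by simp [co]⟩⟩⟩
  haveI : NoMinOrder V := ⟨fun a => ⟨toLex (ofLex a - Finsupp.single 0 1), lt_iff.2
    ⟨0, fun j hj => by simp [co, hj.ne], by simp [co]⟩⟩⟩
  exact Order.iso_of_countable_dense V ℚ

noncomputable def θ : V ≃o ℚ := Classical.choice exists_θ

def Tri (T : Equiv.Perm V) : Prop :=
  ∀ i v v', (∀ j < i, co v j = co v' j) → co (T v) i - co v i = co (T v') i - co v' i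

theorem Tri.below {T : Equiv.Perm V} (h : Tri T) {i : ℚ} {v v' : V}
    (e : ∀ j < i, co v j = co v' j) : ∀ j < i, co (T v) j = co (T v') j := fun j hj => by
  have := h j v v' fun l hl => e l (hl.trans hj)
  have := e j hj
  linarith

theorem Tri.mono {T : Equiv.Perm V} (h : Tri T) : StrictMono T := fun v v' hv => by
  obtain ⟨i, h1, h2⟩ := lt_iff.1 hv
  refine lt_iff.2 ⟨i, h.below h1, ?_⟩
  have := h i v v' h1
  linarith

theorem Tri.below_inv {T : Equiv.Perm V} (h : Tri T) {i : ℚ} {u u' : V}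
    (e : ∀ j < i, co (T u) j = co (T u') j) : ∀ j < i, co u j = co u' j := by
  have key : ∀ u u' : V, (∀ j < i, co (T u) j = co (T u') j) → u < u' →
      ∀ j < i, co u j = co u' j := by
    intro u u' e hu j hj
    obtain ⟨l, h1, h2⟩ := lt_iff.1 hu
    by_cases hl : l < i
    · have := h l u u' h1
      have := e l hl
      linarith
    · exact h1 j (lt_of_lt_of_le hj (not_lt.1 hl))
  rcases lt_trichotomy u u' with a | a | a
  · exact key u u' e a
  · subst a; exact fun _ _ => rfl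
  · exact fun j hj => (key u' u (fun j hj => (e j hj).symm) a j hj).symm

theorem aia (g : Equiv.Perm V) (v : V) : g (g⁻¹ v) = v := g.apply_symm_apply v

def N (F : Finset ℚ) : Subgroup (Equiv.Perm V) where
  carrier := {T | Tri T ∧ ∀ v i, i ∉ F → co (T v) i = co v i}
  one_mem' := ⟨fun i v v' _ => by simp, fun _ _ _ => rfl⟩
  mul_mem' := fun {T S} hT hS => ⟨fun i v v' e => by
      have h1 := hT.1 i (S v) (S v') (hS.1.below e)
      have h2 := hS.1 i v v' e
      simp only [Equiv.Perm.mul_apply]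
      linarith,
    fun v i hi => by rw [Equiv.Perm.mul_apply, hT.2 _ i hi, hS.2 _ i hi]⟩
  inv_mem' := fun {T} hT => ⟨fun i v v' e => by
      have := hT.1 i (T⁻¹ v) (T⁻¹ v') (hT.1.below_inv (by simpa only [aia] using e))
      simp only [aia] at this
      linarith,
    fun v i hi => by rw [← hT.2 _ i hi, aia]⟩

theorem N_mono {F F' : Finset ℚ} (h : F ⊆ F') : N F ≤ N F' :=
  fun _ hT => ⟨hT.1, fun v i hi => hT.2 v i fun e => hi (h e)⟩

theorem N_comm (c : ℚ) (F : Finset ℚ) (hc : ∀ x ∈ F, c < x) :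
    ⁅N (insert c F), N (insert c F)⁆ ≤ N F := by
  rw [Subgroup.commutator_le]
  intro T hT S hS
  have hm : ⁅T, S⁆ ∈ N (insert c F) := Subgroup.commutator_le_self _
    (Subgroup.commutator_mem_commutator hT hS)
  refine ⟨hm.1, fun w i hi => ?_⟩
  by_cases e : i = c
  · subst e
    have low : ∀ R ∈ N (insert i F), ∀ v, ∀ j < i, co (R v) j = co v j := by
      intro R hR v j hj
      refine hR.2 v j fun h => ?_
      rcases Finset.mem_insert.1 h with h | h
      · exact hj.ne h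
      · exact lt_asymm hj (hc j h)
    have key : ∀ v, co (T (S v)) i = co (S (T v)) i := by
      intro v
      have h1 := hT.1 i (S v) v (low S hS v)
      have h2 := hS.1 i (T v) v (low T hT v)
      linarith
    have := key (T⁻¹ (S⁻¹ w))
    simp only [aia] at this
    exact this
  · exact hm.2 w i (by simp [e, hi])

def NN : Subgroup (Equiv.Perm V) := ⨆ F, N F

theorem N_dir : Directed (· ≤ ·) N := fun F F' =>
  ⟨F ∪ F', N_mono Finset.subset_union_left, N_mono Finset.subset_union_right⟩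

theorem rel_N {Ω : Type} [Group Ω] (f : Equiv.Perm V →* Ω) (F : Finset ℚ) : Rel ((N F).map f) := by
  induction F using Finset.induction_on_min with
  | empty =>
    have : N ∅ = ⊥ := eq_bot_iff.2 fun T hT =>
      Equiv.ext fun v => V_ext fun i => hT.2 v i (by simp)
    rw [this, Subgroup.map_bot]; exact rel_bot
  | insert c F hc ih =>
    refine rel_up ih ?_ (Subgroup.map_mono (N_mono (Finset.subset_insert _ _)))
    rw [← Subgroup.map_commutator]
    exact Subgroup.map_mono (N_comm c F hc)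

theorem rel_NN {Ω : Type} [Group Ω] (f : Equiv.Perm V →* Ω) : Rel (NN.map f) := by
  rw [NN, Subgroup.map_iSup]
  refine rel_iSup (fun F F' => ?_) (rel_N f)
  obtain ⟨E, a, b⟩ := N_dir F F'
  exact ⟨E, Subgroup.map_mono a, Subgroup.map_mono b⟩

/-- index permutation -/
noncomputable def hat (g : Equiv.Perm V) : ℚ ≃ ℚ := θ.toEquiv.symm.trans (g.trans θ.toEquiv)

noncomputable def J : Equiv.Perm V →* Equiv.Perm V where
  toFun g := ofLex.trans ((Finsupp.equivCongrLeft (hat g)).trans toLex)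
  map_one' := Equiv.ext fun v => V_ext fun i => congrArg (co v) (θ.apply_symm_apply i)
  map_mul' g h := Equiv.ext fun v => V_ext fun i => by simp [co, hat]; rfl

theorem co_J (g : Equiv.Perm V) (v : V) (i : ℚ) : co (J g v) i = co v (θ (g⁻¹ (θ.symm i))) := rfl

noncomputable def j (x : V) : V := toLex (Finsupp.single (θ x) (-1))

theorem co_j (x : V) (i : ℚ) : co (j x) i = if θ x = i then -1 else 0 := by
  simp only [co, j, ofLex_toLex, Finsupp.single_apply]

theorem j_mono : StrictMono j := fun x y h => by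
  have h' := θ.strictMono h
  refine lt_iff.2 ⟨θ x, fun l hl => ?_, ?_⟩
  · rw [co_j, co_j, if_neg hl.ne', if_neg (hl.trans h').ne']
  · rw [co_j, co_j, if_pos rfl, if_neg h'.ne']; norm_num

theorem J_j (g : Equiv.Perm V) (x : V) : J g (j x) = j (g x) := V_ext fun i => by
  rw [co_J, co_j, co_j]
  congr 1
  rw [θ.apply_eq_iff_eq, Equiv.Perm.eq_inv_iff_eq, ← θ.eq_symm_apply]

def Mon : Subgroup (Equiv.Perm V) where
  carrier := {g | StrictMono g}
  one_mem' := strictMono_id
  mul_mem' := fun {a b} ha hb => StrictMono.comp (g := a) (f := b) ha hb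
  inv_mem' := fun {a} ha x y h => by
    rw [← StrictMono.lt_iff_lt ha, aia, aia]; exact h

theorem idx_mono {g : Equiv.Perm V} (hg : g ∈ Mon) : StrictMono fun i => θ (g (θ.symm i)) :=
  θ.strictMono.comp (StrictMono.comp hg θ.symm.strictMono)

theorem J_below {g : Equiv.Perm V} (hg : g ∈ Mon) {i : ℚ} {v v' : V}
    (e : ∀ l < θ (g⁻¹ (θ.symm i)), co v l = co v' l) : ∀ l < i, co (J g v) l = co (J g v') l :=
  fun _ hl => e _ (idx_mono (Mon.inv_mem hg) hl)

theorem J_mon {g : Equiv.Perm V} (hg : g ∈ Mon) : J g ∈ Mon := fun v v' h => by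
  obtain ⟨i, h1, h2⟩ := lt_iff.1 h
  refine lt_iff.2 ⟨θ (g (θ.symm i)), J_below hg (by simpa using h1), ?_⟩
  simpa [co_J] using h2

theorem J_norm {g : Equiv.Perm V} (hg : g ∈ Mon) : ∀ T ∈ NN, J g * T * (J g)⁻¹ ∈ NN := by
  classical
  intro T hT
  obtain ⟨F, hF⟩ := (Subgroup.mem_iSup_of_directed N_dir).1 hT
  refine Subgroup.mem_iSup_of_mem (F.image fun i => θ (g (θ.symm i))) ⟨fun i v v' e => ?_,
    fun v i hi => ?_⟩
  · have := hF.1 (θ (g⁻¹ (θ.symm i))) (J g⁻¹ v) (J g⁻¹ v')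
      (J_below (Mon.inv_mem hg) (by simpa using e))
    rw [← map_inv, Equiv.Perm.mul_apply, Equiv.Perm.mul_apply, Equiv.Perm.mul_apply,
      Equiv.Perm.mul_apply, co_J, co_J]
    rw [co_J g⁻¹, co_J g⁻¹] at this
    simpa using this
  · rw [← map_inv, Equiv.Perm.mul_apply, Equiv.Perm.mul_apply, co_J]
    have := hF.2 (J g⁻¹ v) (θ (g⁻¹ (θ.symm i))) fun h =>
      hi (Finset.mem_image.2 ⟨_, h, by simp⟩)
    rw [co_J g⁻¹] at this
    simpa using this

theorem NN_mon : NN ≤ Mon := iSup_le fun _ _ hT => hT.1.mono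

noncomputable def GG : ℕ → Subgroup (Equiv.Perm V)
  | 0 => ⊥
  | k + 1 => NN ⊔ (GG k).map J

theorem GG_mon : ∀ k, GG k ≤ Mon
  | 0 => bot_le
  | k + 1 => sup_le NN_mon (by rintro _ ⟨g, hg, rfl⟩; exact J_mon (GG_mon k hg))

theorem rel_GG {Ω : Type} [Group Ω] : ∀ (k : ℕ) (f : Equiv.Perm V →* Ω), Rel ((GG k).map f)
  | 0, f => by rw [GG, Subgroup.map_bot]; exact rel_bot
  | k + 1, f => by
    rw [GG, Subgroup.map_sup, Subgroup.map_map]
    refine rel_sup (rel_NN f) (rel_GG k _) ?_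
    rintro _ ⟨g, hg, rfl⟩ _ ⟨T, hT, rfl⟩
    exact ⟨_, J_norm (GG_mon k hg) T hT, by simp⟩

theorem move (S : Finset V) (p q : V) (hp : ∀ s ∈ S, s < p) (hq : ∀ s ∈ S, s < q) :
    ∃ τ ∈ NN, (∀ s ∈ S, τ (j s) = j s) ∧ τ (j p) = j q := by
  classical
  let l : V → ℚ := fun v => 1 + ∑ s ∈ S, co v (θ s)
  let w : ℚ →₀ ℚ := Finsupp.single (θ p) 1 - Finsupp.single (θ q) 1
  have hw : ∀ i, i ≠ θ p → i ≠ θ q → w i = 0 := fun i a b => by simp [w, a, b]
  have hws : ∀ s ∈ S, w (θ s) = 0 := fun s hs =>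
    hw _ (θ.strictMono (hp s hs)).ne (θ.strictMono (hq s hs)).ne
  let sh : ℚ → V → V := fun c v => toLex (ofLex v + (c * l v) • w)
  have csh : ∀ c v i, co (sh c v) i = co v i + c * l v * w i := fun c v i => by simp [sh, co]
  have lsh : ∀ c v, l (sh c v) = l v := fun c v => by
    simp only [l]
    congr 1
    exact Finset.sum_congr rfl fun s hs => by rw [csh, hws s hs]; simp
  let τ : Equiv.Perm V :=
    { toFun := sh 1
      invFun := sh (-1)
      left_inv := fun v => V_ext fun i => by rw [csh, csh, lsh]; ring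
      right_inv := fun v => V_ext fun i => by rw [csh, csh, lsh]; ring }
  have cτ : ∀ v i, co (τ v) i = co v i + l v * w i := fun v i => by
    have := csh 1 v i
    rw [one_mul] at this
    exact this
  refine ⟨τ, Subgroup.mem_iSup_of_mem {θ p, θ q} ⟨fun i v v' e => ?_, fun v i hi => ?_⟩,
    fun s hs => V_ext fun i => ?_, V_ext fun i => ?_⟩
  · rw [cτ, cτ]
    by_cases h : w i = 0
    · simp [h]
    · have : l v = l v' := by
        simp only [l]
        congr 1
        refine Finset.sum_congr rfl fun s hs => e _ ?_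
        by_cases a : i = θ p
        · rw [a]; exact θ.strictMono (hp s hs)
        · by_cases b : i = θ q
          · rw [b]; exact θ.strictMono (hq s hs)
          · exact absurd (hw i a b) h
      rw [this]; ring
  · simp only [Finset.mem_insert, Finset.mem_singleton, not_or] at hi
    rw [cτ, hw i hi.1 hi.2]; simp
  · have : l (j s) = 0 := by
      simp only [l, co_j, θ.apply_eq_iff_eq]
      simp [hs]
    rw [cτ, this]; simp
  · have : l (j p) = 1 := by
      simp only [l, co_j, θ.apply_eq_iff_eq]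
      rw [Finset.sum_eq_zero fun s hs => if_neg (hp s hs).ne']; simp
    rw [cτ, this, co_j, co_j]
    simp only [w, Finsupp.sub_apply, Finsupp.single_apply]
    split_ifs <;> norm_num

theorem trans_GG : ∀ (n k : ℕ) (x y : Fin n → V), StrictMono x → StrictMono y →
    ∃ g ∈ GG (k + n), ∀ i, g (j^[n] (x i)) = j^[n] (y i)
  | 0, _, _, _, _, _ => ⟨1, Subgroup.one_mem _, fun i => i.elim0⟩
  | n + 1, k, x, y, hx, hy => by
    classical
    obtain ⟨g, hg, h⟩ := trans_GG n k (fun i => x i.castSucc) (fun i => y i.castSucc)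
      (hx.comp Fin.strictMono_castSucc) (hy.comp Fin.strictMono_castSucc)
    have jn := j_mono.iterate n
    obtain ⟨τ, hτ, h1, h2⟩ := move (Finset.univ.image fun i : Fin n => j^[n] (y i.castSucc))
      (g (j^[n] (x (Fin.last n)))) (j^[n] (y (Fin.last n)))
      (by
        intro s hs
        obtain ⟨i, -, rfl⟩ := Finset.mem_image.1 hs
        rw [← h i]
        exact GG_mon _ hg (jn (hx (Fin.castSucc_lt_last i))))
      (by
        intro s hs
        obtain ⟨i, -, rfl⟩ := Finset.mem_image.1 hs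
        exact jn (hy (Fin.castSucc_lt_last i)))
    refine ⟨τ * J g, Subgroup.mul_mem _ (Subgroup.mem_sup_left hτ)
      (Subgroup.mem_sup_right ⟨g, hg, rfl⟩), fun i => ?_⟩
    rw [Function.iterate_succ_apply', Function.iterate_succ_apply', Equiv.Perm.mul_apply, J_j]
    induction i using Fin.lastCases with
    | last => exact h2
    | cast i => rw [h i]; exact h1 _ (Finset.mem_image_of_mem _ (Finset.mem_univ i))

noncomputable abbrev U : Filter ℕ := (hyperfilter ℕ : Ultrafilter ℕ)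
abbrev Ω : Type := Germ U (Equiv.Perm V)
abbrev Y : Type := Germ U V

theorem ev {p : ℕ → Prop} (k : ℕ) (h : ∀ n, k ≤ n → p n) : ∀ᶠ n in U, p n :=
  ((eventually_ge_atTop k).mono h).filter_mono Nat.hyperfilter_le_atTop

noncomputable def emb (k : ℕ) (x : V) : Y := ((fun n => j^[n - k] x : ℕ → V) : Germ U V)

noncomputable def Jn : ℕ → Equiv.Perm V →* Equiv.Perm V
  | 0 => MonoidHom.id _
  | n + 1 => (Jn n).comp J

theorem Jn_j : ∀ (n : ℕ) (g : Equiv.Perm V) (x : V), Jn n g (j^[n] x) = j^[n] (g x)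
  | 0, _, _ => rfl
  | n + 1, g, x => by
    rw [Function.iterate_succ_apply, Function.iterate_succ_apply, ← J_j]
    exact Jn_j n _ _

theorem Jn_mon : ∀ (n : ℕ) {g : Equiv.Perm V}, g ∈ Mon → Jn n g ∈ Mon
  | 0, _, h => h
  | n + 1, _, h => Jn_mon n (J_mon h)

noncomputable def φ (k : ℕ) : Equiv.Perm V →* Ω :=
  (Germ.coeMulHom U).comp (MonoidHom.pi fun n => Jn (n - k))

theorem φ_apply (k : ℕ) (g : Equiv.Perm V) :
    φ k g = ((fun n => Jn (n - k) g : ℕ → Equiv.Perm V) : Germ U (Equiv.Perm V)) := rfl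

theorem φ_emb (k : ℕ) (g : Equiv.Perm V) (x : V) : φ k g • emb k x = emb k (g x) := by
  rw [φ_apply, emb, emb, ← Germ.coe_smul']
  congr 1
  funext n
  exact Jn_j _ _ _

theorem φ_succ (k : ℕ) (g : Equiv.Perm V) : φ (k + 1) (J g) = φ k g := by
  rw [φ_apply, φ_apply, Germ.coe_eq]
  refine ev (k + 1) fun n hn => ?_
  show Jn (n - (k + 1)) (J g) = Jn (n - k) g
  rw [show n - k = (n - (k + 1)) + 1 by omega]
  rfl

theorem emb_add (k m : ℕ) (x : V) : emb (k + m) (j^[m] x) = emb k x := by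
  rw [emb, emb, Germ.coe_eq]
  refine ev (k + m) fun n hn => ?_
  show j^[n - (k + m)] (j^[m] x) = j^[n - k] x
  rw [← Function.iterate_add_apply]
  congr 1
  omega

theorem φ_add (k : ℕ) : ∀ (m : ℕ) (g : Equiv.Perm V), ∃ g', φ (k + m) g' = φ k g
  | 0, g => ⟨g, rfl⟩
  | m + 1, g => by
    obtain ⟨g', h⟩ := φ_add k m g
    exact ⟨J g', by rw [← h, ← add_assoc, φ_succ]⟩

theorem emb_mono (k : ℕ) : StrictMono (emb k) := fun x y h => by
  rw [emb, emb, Germ.coe_lt]
  exact Eventually.of_forall fun n => j_mono.iterate _ h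

noncomputable def Γ : Subgroup Ω := ⨆ k, (GG k).map (φ k)

theorem Γ_mono : Monotone fun k => (GG k).map (φ k) := monotone_nat_of_le_succ fun k => by
  rintro _ ⟨g, hg, rfl⟩
  exact ⟨J g, Subgroup.mem_sup_right ⟨g, hg, rfl⟩, φ_succ k g⟩

theorem Γ_am : Amenable Γ :=
  (rel_iSup Γ_mono.directed_le fun k => rel_GG k (φ k)).am.amenable

theorem mem_Γ {g : Ω} (hg : g ∈ Γ) : ∃ k, ∃ g0 ∈ GG k, φ k g0 = g :=
  (Subgroup.mem_iSup_of_directed Γ_mono.directed_le).1 hg

def XX : Type := {z : Y // ∃ k x, emb k x = z}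

noncomputable instance : LinearOrder XX := inferInstanceAs (LinearOrder {z : Y // ∃ k x, emb k x = z})

noncomputable instance : MulAction Γ XX where
  smul g z := ⟨g.1 • z.1, by
    obtain ⟨k, g0, -, h⟩ := mem_Γ g.2
    obtain ⟨m, x, hx⟩ := z.2
    obtain ⟨g', h'⟩ := φ_add k m g0
    refine ⟨k + m, g' (j^[k] x), ?_⟩
    rw [← φ_emb, h', h, add_comm, emb_add, hx]⟩
  one_smul z := Subtype.ext (one_smul Ω z.1)
  mul_smul a b z := Subtype.ext (mul_smul a.1 b.1 z.1)

theorem smul_val (g : Γ) (z : XX) : (g • z).1 = g.1 • z.1 := rfl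

theorem nontriv : Nontrivial XX := by
  obtain ⟨a, b, h⟩ := exists_pair_ne V
  exact ⟨⟨⟨emb 0 a, 0, a, rfl⟩, ⟨emb 0 b, 0, b, rfl⟩, fun e =>
    h ((emb_mono 0).injective (congrArg Subtype.val e))⟩⟩

theorem act_mono (g : Γ) : Monotone fun x : XX => g • x := by
  obtain ⟨k, g0, hg, h⟩ := mem_Γ g.2
  rintro ⟨_, m, x, rfl⟩ ⟨_, l, y, rfl⟩ e
  have e' : emb m x ≤ emb l y := e
  show g.1 • emb m x ≤ g.1 • emb l y
  rw [← h, φ_apply]
  rw [emb, emb] at e' ⊢
  rw [← Germ.coe_smul', ← Germ.coe_smul', Germ.coe_le]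
  rw [Germ.coe_le] at e'
  exact e'.mono fun n hn => StrictMono.monotone (Jn_mon _ (GG_mon k hg)) hn

theorem act_trans (n : ℕ) (x y : Fin n → XX) (hx : StrictMono x) (hy : StrictMono y) :
    ∃ g : Γ, ∀ i, g • x i = y i := by
  choose a x' hx' using fun i => (x i).2
  choose b y' hy' using fun i => (y i).2
  obtain ⟨k, hk⟩ := (Set.finite_range fun i => a i + b i).bddAbove
  have hk' : ∀ i, a i + b i ≤ k := fun i => hk ⟨i, rfl⟩
  have ex : ∀ i, emb k (j^[k - a i] (x' i)) = (x i).1 := fun i => by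
    rw [← hx' i, ← emb_add (a i) (k - a i)]
    congr 1
    have := hk' i
    omega
  have ey : ∀ i, emb k (j^[k - b i] (y' i)) = (y i).1 := fun i => by
    rw [← hy' i, ← emb_add (b i) (k - b i)]
    congr 1
    have := hk' i
    omega
  obtain ⟨g, hg, h⟩ := trans_GG n k (fun i => j^[k - a i] (x' i)) (fun i => j^[k - b i] (y' i))
    (fun i l hl => by
      rw [← (emb_mono k).lt_iff_lt, ex, ex]; exact hx hl)
    (fun i l hl => by
      rw [← (emb_mono k).lt_iff_lt, ey, ey]; exact hy hl)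
  refine ⟨⟨φ (k + n) g, Subgroup.mem_iSup_of_mem (k + n) ⟨g, hg, rfl⟩⟩, fun i => Subtype.ext ?_⟩
  rw [smul_val, ← ex, ← ey, ← emb_add k n, ← emb_add k n, φ_emb, h i]

end Pool.Agent.H27.StrongTrans
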