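import Pool.Agent.H27.AmenSolv

set_option autoImplicit false

namespace Pool.Agent.H27.Udim

open MonoidAlgebra

@[ext] structure Gp (p : ℕ) where
  v : ℕ × ZMod p → ℤ
  s : ℕ → ZMod p

variable {p : ℕ}

instance : Group (Gp p) where
  mul g h := ⟨fun q => g.v q + h.v (q.1, q.2 + g.s q.1), g.s + h.s⟩
  one := ⟨0, 0⟩
  inv g := ⟨fun q => - g.v (q.1, q.2 - g.s q.1), - g.s⟩
  mul_assoc a b c := by
    refine Gp.ext (funext fun q => ?_) (add_assoc a.s b.s c.s)
    show a.v q + b.v (q.1, q.2 + a.s q.1) + c.v (q.1, q.2 + (a.s q.1 + b.s q.1)) =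
      a.v q + (b.v (q.1, q.2 + a.s q.1) + c.v (q.1, q.2 + a.s q.1 + b.s q.1))
    rw [add_assoc, add_assoc q.2]
  one_mul a := by
    refine Gp.ext (funext fun q => ?_) (zero_add a.s)
    show 0 + a.v (q.1, q.2 + 0) = a.v q
    simp
  mul_one a := by
    refine Gp.ext (funext fun q => ?_) (add_zero a.s)
    show a.v q + 0 = a.v q
    simp
  inv_mul_cancel a := by
    refine Gp.ext (funext fun q => ?_) (neg_add_cancel a.s)
    show - a.v (q.1, q.2 - a.s q.1) + a.v (q.1, q.2 + - a.s q.1) = 0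
    simp [sub_eq_add_neg]

theorem mul_v (g h : Gp p) (q : ℕ × ZMod p) : (g * h).v q = g.v q + h.v (q.1, q.2 + g.s q.1) := rfl
theorem mul_s (g h : Gp p) : (g * h).s = g.s + h.s := rfl
theorem one_v : (1 : Gp p).v = 0 := rfl
theorem one_s : (1 : Gp p).s = 0 := rfl
theorem inv_v (g : Gp p) (q : ℕ × ZMod p) : (g⁻¹).v q = - g.v (q.1, q.2 - g.s q.1) := rfl
theorem inv_s (g : Gp p) : (g⁻¹).s = - g.s := rfl

def π : Gp p →* Multiplicative (ℕ → ZMod p) where
  toFun g := Multiplicative.ofAdd g.s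
  map_one' := rfl
  map_mul' _ _ := rfl

def ι : Multiplicative (ℕ × ZMod p → ℤ) →* Gp p where
  toFun v := ⟨v.toAdd, 0⟩
  map_one' := rfl
  map_mul' a b := Gp.ext (funext fun q => by simp [mul_v]) (by simp [mul_s])

theorem solv : Group.IsSolvable (Gp p) :=
  Group.isSolvable_of_ker_le_range ι π fun g hg => ⟨Multiplicative.ofAdd g.v, Gp.ext rfl (Eq.symm hg)⟩

theorem pow_s (g : Gp p) (n : ℕ) : (g ^ n).s = n • g.s := by
  induction n with
  | zero => simp [one_s]
  | succ n ih => rw [pow_succ, mul_s, ih, succ_nsmul]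

theorem pow_v (g : Gp p) (hg : g.s = 0) (n : ℕ) (q : ℕ × ZMod p) : (g ^ n).v q = n * g.v q := by
  induction n with
  | zero => simp [one_v]
  | succ n ih => rw [pow_succ, mul_v, ih, pow_s, hg]; simp; ring

theorem small [Fact p.Prime] (F : Subgroup (Gp p)) (hF : Finite F) (hp : ¬ p ∣ Nat.card F) :
    Nat.card F ≤ 1 := by
  have : ∀ g : F, g = 1 := by
    intro g
    have h1 : (g : Gp p) ^ Nat.card F = 1 := by
      rw [← Subgroup.coe_pow, pow_card_eq_one']; rfl
    have hs : (g : Gp p).s = 0 := by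
      have := pow_s (g : Gp p) (Nat.card F)
      rw [h1, one_s] at this
      funext j
      have h2 := congrFun this j
      simp only [Pi.zero_apply, Pi.smul_apply, nsmul_eq_mul] at h2
      rcases mul_eq_zero.1 h2.symm with h | h
      · exact absurd ((ZMod.natCast_eq_zero_iff _ _).1 h) hp
      · exact h
    refine Subtype.ext (Gp.ext (funext fun q => ?_) hs)
    have := pow_v (g : Gp p) hs (Nat.card F) q
    rw [h1, one_v] at this
    have h0 : (Nat.card F : ℤ) ≠ 0 := by exact_mod_cast (Nat.card_pos (α := F)).ne'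
    exact (mul_eq_zero.1 this.symm).resolve_left h0
  haveI : Subsingleton F := ⟨fun a b => by rw [this a, this b]⟩
  exact Finite.card_le_one_iff_subsingleton.2 this

def a (j : ℕ) : Gp p := ⟨0, Pi.single j 1⟩
def t (j : ℕ) : Gp p := ⟨Pi.single (j, 0) 1, 0⟩
def b (j : ℕ) : Gp p := t j * a j * (t j)⁻¹

theorem at_comm {i j : ℕ} (h : i ≠ j) : (a i : Gp p) * t j = t j * a i := by
  refine Gp.ext (funext fun q => ?_) (by simp [mul_s, a, t])
  obtain ⟨l, x⟩ := q
  simp only [mul_v, a, t, Pi.zero_apply, zero_add, add_zero]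
  by_cases e : l = i
  · subst e
    simp [Pi.single_apply, h]
  · simp [Pi.single_apply, e]

def A (j : ℕ) : Subgroup (Gp p) where
  carrier := {g | g.v = 0 ∧ ∀ i, j < i → g.s i = 0}
  one_mem' := ⟨rfl, fun _ _ => rfl⟩
  mul_mem' := fun {x y} hx hy => ⟨funext fun q => by simp [mul_v, hx.1, hy.1],
    fun i hi => by simp [mul_s, hx.2 i hi, hy.2 i hi]⟩
  inv_mem' := fun {x} hx => ⟨funext fun q => by simp [inv_v, hx.1],
    fun i hi => by simp [inv_s, hx.2 i hi]⟩

theorem A_fin [Fact p.Prime] (j : ℕ) : Finite (A j : Subgroup (Gp p)) := by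
  refine Finite.of_injective (fun g (i : Fin (j + 1)) => g.1.s i) fun g h e => ?_
  refine Subtype.ext (Gp.ext (g.2.1.trans h.2.1.symm) (funext fun i => ?_))
  by_cases hi : j < i
  · rw [g.2.2 i hi, h.2.2 i hi]
  · exact congrFun e ⟨i, by omega⟩

theorem a_mem {i j : ℕ} (h : i ≤ j) : (a i : Gp p) ∈ A j :=
  ⟨rfl, fun l hl => by simp [a, Pi.single_apply]; omega⟩

variable (k : Type) [Field k]

def I (p j : ℕ) : Submodule (MonoidAlgebra k (Gp p))ᵐᵒᵖ (MonoidAlgebra k (Gp p)) where
  carrier := {x | (∀ i, i < j → single (a i) 1 * x = x) ∧ single (b j) 1 * x = x}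
  zero_mem' := ⟨fun _ _ => mul_zero _, mul_zero _⟩
  add_mem' := fun {x y} hx hy => ⟨fun i hi => by rw [mul_add, hx.1 i hi, hy.1 i hi],
    by rw [mul_add, hx.2, hy.2]⟩
  smul_mem' := fun c x hx => ⟨fun i hi => by
      rw [MulOpposite.smul_eq_mul_unop, ← mul_assoc, hx.1 i hi],
    by rw [MulOpposite.smul_eq_mul_unop, ← mul_assoc, hx.2]⟩

theorem I_ne [Fact p.Prime] (j : ℕ) : I k p j ≠ ⊥ := by
  classical
  haveI := A_fin (p := p) j
  haveI : Fintype (A j : Subgroup (Gp p)) := Fintype.ofFinite _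
  let y : MonoidAlgebra k (Gp p) := ∑ g : (A j : Subgroup (Gp p)), single g.1 1
  have hy : ∀ i, i ≤ j → single (a i) 1 * y = y := by
    intro i hi
    simp only [y, Finset.mul_sum, single_mul_single, one_mul]
    exact Fintype.sum_equiv (Equiv.mulLeft ⟨a i, a_mem hi⟩) _ _ fun g => rfl
  have hy1 : y.coeff 1 = 1 := by
    simp only [y, coeff_sum, Finsupp.finsetSum_apply, coeff_single]
    rw [Finset.sum_eq_single 1]
    · simp
    · intro g _ hg
      exact Finsupp.single_eq_of_ne fun e => hg (Subtype.ext e.symm)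
    · simp
  rw [Submodule.ne_bot_iff]
  refine ⟨single (t j) 1 * y, ⟨fun i hi => ?_, ?_⟩, fun h => ?_⟩
  · rw [← mul_assoc, single_mul_single, at_comm hi.ne, ← single_mul_single, mul_assoc, hy i hi.le]
  · rw [← mul_assoc, single_mul_single, b, inv_mul_cancel_right, ← single_mul_single, mul_assoc,
      hy j le_rfl]
  · have := congrArg (fun z : MonoidAlgebra k (Gp p) => z.coeff (t j)) h
    simp [coeff_single_mul_apply, hy1] at this

theorem zero_of_inv [Fact p.Prime] (j : ℕ) (x : MonoidAlgebra k (Gp p))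
    (h1 : single (a j) 1 * x = x) (h2 : single (b j) 1 * x = x) : x = 0 := by
  let u : Gp p := (b j)⁻¹ * a j
  have e1 : ∀ g, x.coeff ((a j)⁻¹ * g) = x.coeff g := fun g => by
    conv_rhs => rw [← h1]
    simp [coeff_single_mul_apply]
  have e2 : ∀ g, x.coeff ((b j)⁻¹ * g) = x.coeff g := fun g => by
    conv_rhs => rw [← h2]
    simp [coeff_single_mul_apply]
  have e3 : ∀ n : ℕ, ∀ g, x.coeff (u ^ n * g) = x.coeff g := by
    intro n g
    induction n with
    | zero => simp
    | succ n ih =>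
      rw [pow_succ', mul_assoc]
      simp only [u] at ih ⊢
      rw [mul_assoc, e2, ← e1, inv_mul_cancel_left, ih]
  have us : u.s = 0 := by simp [u, b, mul_s, inv_s, a, t]
  have uv : u.v (j, 0) = 1 := by
    have : (-1 : ZMod p) ≠ 0 := neg_ne_zero.2 one_ne_zero
    simp [u, b, mul_v, inv_v, mul_s, inv_s, a, t, Pi.single_apply]
  by_contra hx
  obtain ⟨g, hg⟩ := Finsupp.support_nonempty_iff.2 (fun h => hx (coeff_eq_zero.1 h))
  refine Set.infinite_of_injective_forall_mem (s := (x.coeff.support : Set (Gp p)))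
    (f := fun n : ℕ => u ^ n * g) (fun m n h => ?_) (fun n => ?_) x.coeff.support.finite_toSet
  · have := congrArg (fun z : Gp p => z.v (j, 0)) (mul_right_cancel h)
    simp only [pow_v u us, uv, mul_one] at this
    exact_mod_cast this
  · rw [Finset.mem_coe, Finsupp.mem_support_iff, e3]
    exact Finsupp.mem_support_iff.1 hg

theorem I_indep [Fact p.Prime] : iSupIndep (I k p) := by
  classical
  rw [iSupIndep_iff_finsetSum_eq_zero_imp_eq_zero]
  intro s v hv hs i
  induction i using Nat.strong_induction_on with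
  | _ i ih =>
    intro hi
    refine zero_of_inv k i _ ?_ (hv i hi).2
    have e : v i = - ∑ l ∈ s.erase i, v l := by
      rw [← Finset.add_sum_erase s v hi] at hs
      exact eq_neg_of_add_eq_zero_left hs
    rw [e, mul_neg, Finset.mul_sum]
    congr 1
    refine Finset.sum_congr rfl fun l hl => ?_
    obtain ⟨h1, h2⟩ := Finset.mem_erase.1 hl
    rcases lt_or_gt_of_ne h1 with h | h
    · rw [ih l h h2, mul_zero]
    · exact (hv l h2).1 i h

end Pool.Agent.H27.Udim
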