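import Mathlib

namespace Pool.Agent.H27.VVI

open scoped InnerProductSpace

/-- Euclidean space. -/
abbrev En (n : ℕ) := EuclideanSpace ℝ (Fin n)

variable {n m : ℕ}

/-- The vector `F(x)(u)`. -/
noncomputable def app (F : Fin m → En n → En n) (x u : En n) : Fin m → ℝ := fun l => ⟪F l x, u⟫_ℝ

/-- The nonnegative orthant. -/
def orth (m : ℕ) : Set (Fin m → ℝ) := {c | ∀ l, 0 ≤ c l}

/-- Pareto solution set. -/
def Sol (F : Fin m → En n → En n) (K : Set (En n)) : Set (En n) :=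
  {x | x ∈ K ∧ ∀ y ∈ K, app F x (x - y) ∉ orth m \ {0}}

/-- Weak Pareto solution set. -/
def SolW (F : Fin m → En n → En n) (K : Set (En n)) : Set (En n) :=
  {x | x ∈ K ∧ ∀ y ∈ K, app F x (x - y) ∉ interior (orth m)}

/-- Proper Pareto solution set. -/
def SolPr (F : Fin m → En n → En n) (K : Set (En n)) : Set (En n) :=
  {x | ∃ ξ : Fin m → ℝ, (∀ l, 0 < ξ l) ∧ ∑ l, ξ l = 1 ∧
    x ∈ K ∧ ∀ y ∈ K, 0 ≤ ⟪∑ l, ξ l • F l x, y - x⟫_ℝ}

/-- Every `F l` is monotone on `K`. -/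
def Mono (F : Fin m → En n → En n) (K : Set (En n)) : Prop :=
  ∀ l, ∀ x ∈ K, ∀ y ∈ K, 0 ≤ ⟪F l y - F l x, y - x⟫_ℝ

/-- Every `F l` is differentiable on an open set containing `K`, with symmetric Jacobian on `K`. -/
def Symm (F : Fin m → En n → En n) (K : Set (En n)) : Prop :=
  ∀ l, ∃ U : Set (En n), IsOpen U ∧ K ⊆ U ∧ DifferentiableOn ℝ (F l) U ∧
    ∀ x ∈ K, ∀ i j, fderiv ℝ (F l) x (EuclideanSpace.single j 1) i =
      fderiv ℝ (F l) x (EuclideanSpace.single i 1) j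

lemma mem_int {c : Fin m → ℝ} : c ∈ interior (orth m) ↔ ∀ l, 0 < c l := by
  have : orth m = Set.univ.pi fun _ => Set.Ici (0 : ℝ) := by
    ext; simp only [orth, Set.mem_ofPred_eq, Set.mem_univ_pi, Set.mem_Ici]
  rw [this, interior_pi_set Set.finite_univ]; simp

lemma pr_sub (F : Fin m → En n → En n) (K : Set (En n)) : SolPr F K ⊆ Sol F K := by
  rintro x ⟨ξ, h1, -, hx, h⟩
  refine ⟨hx, fun y hy ⟨g1, g2⟩ => g2 ?_⟩
  have e := h y hy
  rw [sum_inner] at e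
  simp only [inner_smul_left, conj_trivial] at e
  have e2 : ∀ l, ⟪F l x, y - x⟫_ℝ = -app F x (x - y) l := fun l => by
    rw [app, ← inner_neg_right, neg_sub]
  simp only [e2, mul_neg, Finset.sum_neg_distrib, Left.nonneg_neg_iff] at e
  have e3 := (Finset.sum_eq_zero_iff_of_nonneg
    (fun l _ => mul_nonneg (h1 l).le (g1 l))).1 (le_antisymm e
      (Finset.sum_nonneg fun l _ => mul_nonneg (h1 l).le (g1 l)))
  funext l
  exact (mul_eq_zero.1 (e3 l (Finset.mem_univ l))).resolve_left (h1 l).ne'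

lemma sol_sub [NeZero m] (F : Fin m → En n → En n) (K : Set (En n)) : Sol F K ⊆ SolW F K := by
  rintro x ⟨hx, h⟩
  refine ⟨hx, fun y hy g => h y hy ⟨interior_subset g, fun e => ?_⟩⟩
  have := mem_int.1 g 0
  rw [e] at this; simp at this

lemma not_preconn {S : Set (En n)} (i : Fin n) (c : ℝ) (h : ∀ x ∈ S, x i ≠ c) {p q : En n}
    (hp : p ∈ S) (hq : q ∈ S) (h1 : p i < c) (h2 : c < q i) : ¬ IsPreconnected S := by
  intro hS
  have hc : ContinuousOn (fun x : En n => x i) S := by fun_prop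
  obtain ⟨x, hx, e⟩ := hS.intermediate_value hp hq hc ⟨h1.le, h2.le⟩
  exact h x hx e

/-! First example -/

def K1 : Set (En 4) := {x | 0 ≤ x 0 ∧ x 0 ≤ 1 ∧ 0 ≤ x 1 ∧ x 1 ≤ 1 ∧ x 2 ^ 2 ≤ x 3 ∧ x 3 ≤ 1}

noncomputable def F1 : Fin 2 → En 4 → En 4 :=
  ![fun x => !₂[0, x 1, 0, 1], fun x => !₂[-x 1 + 3 * x 2, x 0 - 1, -1 - 3 * x 0, 0]]

lemma app1_0 (x y : En 4) : app F1 x (x - y) 0 = x 1 * (x 1 - y 1) + (x 3 - y 3) := by
  simp [app, F1, PiLp.inner_apply, Fin.sum_univ_four]; ring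

lemma app1_1 (x y : En 4) : app F1 x (x - y) 1 = (-x 1 + 3 * x 2) * (x 0 - y 0) +
    (x 0 - 1) * (x 1 - y 1) + (-1 - 3 * x 0) * (x 2 - y 2) := by
  simp [app, F1, PiLp.inner_apply, Fin.sum_univ_four]; ring

lemma sol1 {x : En 4} (hx : x ∈ Sol F1 K1) (y : En 4) (hy : y ∈ K1)
    (h0 : 0 ≤ app F1 x (x - y) 0) (h1 : 0 ≤ app F1 x (x - y) 1) :
    app F1 x (x - y) 0 = 0 ∧ app F1 x (x - y) 1 = 0 := by
  by_contra hne
  refine hx.2 y hy ⟨fun l => by fin_cases l <;> assumption, fun e => hne ?_⟩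
  rw [Set.mem_singleton_iff.1 e]; simp

lemma K1_closed : IsClosed K1 := by
  have : K1 = {x : En 4 | 0 ≤ x 0} ∩ ({x | x 0 ≤ 1} ∩ ({x | 0 ≤ x 1} ∩ ({x | x 1 ≤ 1} ∩
    ({x | x 2 ^ 2 ≤ x 3} ∩ {x | x 3 ≤ 1})))) := rfl
  rw [this]
  refine IsClosed.inter ?_ (IsClosed.inter ?_ (IsClosed.inter ?_ (IsClosed.inter ?_
    (IsClosed.inter ?_ ?_)))) <;> exact isClosed_le (by fun_prop) (by fun_prop)

lemma K1_convex : Convex ℝ K1 := by
  rintro x ⟨a1, a2, a3, a4, a5, a6⟩ y ⟨b1, b2, b3, b4, b5, b6⟩ a b ha hb hab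
  obtain rfl : b = 1 - a := by linarith
  simp only [K1, Set.mem_ofPred_eq, PiLp.add_apply, PiLp.smul_apply, smul_eq_mul]
  refine ⟨by positivity, by nlinarith, by positivity, by nlinarith, ?_, by nlinarith⟩
  nlinarith [mul_nonneg (mul_nonneg ha hb) (sq_nonneg (x 2 - y 2)),
    mul_le_mul_of_nonneg_left a5 ha, mul_le_mul_of_nonneg_left b5 hb]

lemma K1_bdd : Bornology.IsBounded K1 := by
  refine (Metric.isBounded_iff_subset_closedBall 0).2 ⟨2, ?_⟩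
  rintro x ⟨a1, a2, a3, a4, a5, a6⟩
  rw [mem_closedBall_zero_iff, EuclideanSpace.norm_eq, Fin.sum_univ_four]
  simp only [Real.norm_eq_abs, sq_abs]
  refine Real.sqrt_le_iff.2 ⟨by norm_num, ?_⟩
  nlinarith [sq_nonneg (x 2)]

lemma F1_cont (l : Fin 2) : Continuous (F1 l) := by
  fin_cases l <;> simp only [F1] <;>
    refine (PiLp.continuous_toLp 2 _).comp (continuous_pi fun i => ?_) <;>
    fin_cases i <;> simp <;> fun_prop

lemma F1_mono : Mono F1 K1 := by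
  intro l x _ y _
  fin_cases l
  · simp [F1, PiLp.inner_apply, Fin.sum_univ_four]
    exact mul_self_nonneg _
  · simp [F1, PiLp.inner_apply, Fin.sum_univ_four]
    exact le_of_eq (by ring)

lemma sol1_ne {x : En 4} (hx : x ∈ Sol F1 K1) : x 0 ≠ 1 / 2 := by
  intro ht
  obtain ⟨a1, a2, a3, a4, a5, a6⟩ := hx.1
  have s1 : 3 * x 2 ≤ x 1 := by
    by_contra hc
    have := (sol1 hx !₂[0, x 1, x 2, x 3] (by simp [K1, *]) (by simp [app1_0])
      (by simp [app1_1, ht]; linarith)).2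
    simp [app1_1, ht] at this; linarith
  have s2 : 0 ≤ x 2 := by
    by_contra hc
    have := (sol1 hx !₂[x 0, x 1, -x 2, x 3] (by simp [K1, a1, a2, a3, a4, a5, a6]) (by simp [app1_0])
      (by simp [app1_1, ht]; nlinarith)).2
    simp [app1_1, ht] at this
    rcases this with h | h <;> linarith
  rcases eq_or_lt_of_le a3 with h | h
  · have := (sol1 hx !₂[x 0, 1, x 2, x 3] (by simp [K1, a1, a2, a5, a6]) (by simp [app1_0, ← h])
      (by simp [app1_1, ht, ← h]; norm_num)).2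
    simp [app1_1, ht, ← h] at this; linarith
  · have := (sol1 hx !₂[x 0, x 1 - x 1 / 3, x 2 + x 1 / 3, (x 2 + x 1 / 3) ^ 2]
      (by simp only [K1, Set.mem_ofPred_eq]; simp
          refine ⟨a1, a2, by linarith, by linarith, ?_⟩
          rw [abs_le]; constructor <;> linarith)
      (by simp [app1_0]; nlinarith) (by simp [app1_1, ht]; nlinarith)).2
    simp [app1_1, ht] at this; nlinarith

theorem ex1 : Bornology.IsBounded (Sol F1 K1) ∧ ¬ IsPreconnected (Sol F1 K1) := by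
  refine ⟨K1_bdd.subset fun x hx => hx.1, not_preconn 0 (1 / 2) (fun x hx => sol1_ne hx)
    (p := !₂[0, 1, 1 / 2, 1 / 4]) (q := !₂[1, 0, 0, 0]) ?_ ?_ (by simp) (by simp; norm_num)⟩
  · refine pr_sub _ _ ⟨fun _ => 1 / 2, by simp, by simp, by simp [K1]; norm_num, ?_⟩
    rintro y ⟨a1, a2, a3, a4, a5, a6⟩
    simp [F1, PiLp.inner_apply, Fin.sum_univ_four]
    nlinarith [sq_nonneg (y 2 - 1 / 2)]
  · refine ⟨by simp [K1], ?_⟩
    rintro y ⟨a1, a2, a3, a4, a5, a6⟩ ⟨g1, g2⟩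
    apply g2
    have b0 := g1 0
    rw [app1_0] at b0
    simp at b0
    have c2 : y 2 = 0 := by nlinarith
    have c3 : y 3 = 0 := by nlinarith [sq_nonneg (y 2)]
    funext l
    fin_cases l
    · simp [app1_0, c3]
    · simp [app1_1, c2]

/-! Second example -/

def K2 : Set (En 3) := {x | -1 ≤ x 0 ∧ x 0 ≤ 1 ∧ x 0 ≤ x 2 ∧ -x 0 ≤ x 2 ∧ 0 ≤ x 1 ∧ 0 ≤ x 2 ∧
  1 ≤ x 1 * x 2}

noncomputable def F2 : Fin 2 → En 3 → En 3 := ![fun _ => !₂[-2, 0, 1], fun _ => !₂[2, 0, 1]]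

lemma K2_closed : IsClosed K2 := by
  have : K2 = {x : En 3 | -1 ≤ x 0} ∩ ({x | x 0 ≤ 1} ∩ ({x | x 0 ≤ x 2} ∩ ({x | -x 0 ≤ x 2} ∩
    ({x | 0 ≤ x 1} ∩ ({x | 0 ≤ x 2} ∩ {x | 1 ≤ x 1 * x 2}))))) := rfl
  rw [this]
  refine IsClosed.inter ?_ (IsClosed.inter ?_ (IsClosed.inter ?_ (IsClosed.inter ?_
    (IsClosed.inter ?_ (IsClosed.inter ?_ ?_))))) <;> exact isClosed_le (by fun_prop) (by fun_prop)

lemma K2_convex : Convex ℝ K2 := by
  rintro x ⟨a1, a2, a3, a4, a5, a6, a7⟩ y ⟨b1, b2, b3, b4, b5, b6, b7⟩ a b ha hb hab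
  obtain rfl : b = 1 - a := by linarith
  simp only [K2, Set.mem_ofPred_eq, PiLp.add_apply, PiLp.smul_apply, smul_eq_mul]
  refine ⟨by nlinarith, by nlinarith, by nlinarith, by nlinarith, by positivity, by positivity, ?_⟩
  have h1 : 1 ≤ (x 1 * y 2) * (y 1 * x 2) := by nlinarith
  have h2 : 2 ≤ x 1 * y 2 + y 1 * x 2 := by
    have p1 := mul_nonneg a5 b6
    have p2 := mul_nonneg b5 a6
    nlinarith [sq_nonneg (x 1 * y 2 - y 1 * x 2)]
  nlinarith [mul_le_mul_of_nonneg_left a7 (mul_nonneg ha ha),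
    mul_le_mul_of_nonneg_left b7 (mul_nonneg hb hb),
    mul_le_mul_of_nonneg_left h2 (mul_nonneg ha hb)]

lemma solw2_ne {x : En 3} (hx : x ∈ SolW F2 K2) : x 0 ≠ 0 := by
  intro ht
  obtain ⟨a1, a2, a3, a4, a5, a6, a7⟩ := hx.1
  have hz : 0 < x 2 := by
    rcases eq_or_lt_of_le a6 with h | h
    · rw [← h] at a7; linarith
    · exact h
  refine hx.2 !₂[0, 2 * x 1, x 2 / 2] (by
    simp only [K2, Set.mem_ofPred_eq]; simp
    refine ⟨by linarith, a5, by linarith, by nlinarith⟩) (mem_int.2 fun l => ?_)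
  fin_cases l <;> simp [app, F2, PiLp.inner_apply, Fin.sum_univ_three, ht] <;> linarith

lemma p2 : (!₂[-1, 1, 1] : En 3) ∈ SolPr F2 K2 := by
  refine ⟨![1 / 8, 7 / 8], fun l => by fin_cases l <;> simp, by simp; norm_num, by simp [K2], ?_⟩
  rintro y ⟨a1, a2, a3, a4, a5, a6, a7⟩
  simp [F2, PiLp.inner_apply, Fin.sum_univ_three]
  linarith

lemma q2 : (!₂[1, 1, 1] : En 3) ∈ SolPr F2 K2 := by
  refine ⟨![7 / 8, 1 / 8], fun l => by fin_cases l <;> simp, by simp; norm_num, by simp [K2], ?_⟩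
  rintro y ⟨a1, a2, a3, a4, a5, a6, a7⟩
  simp [F2, PiLp.inner_apply, Fin.sum_univ_three]
  linarith

theorem ex2 (S : Set (En 3)) (h1 : SolPr F2 K2 ⊆ S) (h2 : S ⊆ SolW F2 K2) :
    S.Nonempty ∧ ¬ IsPreconnected S :=
  ⟨⟨_, h1 p2⟩, not_preconn 0 0 (fun x hx => solw2_ne (h2 hx)) (h1 p2) (h1 q2) (by simp) (by simp)⟩

lemma F2_const (l : Fin 2) : ∃ c, F2 l = fun _ => c := by fin_cases l <;> exact ⟨_, rfl⟩

end Pool.Agent.H27.VVI
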