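import Mathlib

/-! A Wolstenholme type cancellation in a convolution square. -/

namespace Pool.Agent.H27.ValSq
open Finset

set_option maxHeartbeats 400000

variable {p : ℕ} [hp : Fact p.Prime]

theorem nn {x : ℕ} (hx : x ≠ 0) : ‖(x : ℚ_[p])‖ = (p : ℝ) ^ (-(padicValNat p x : ℤ)) := by
  rw [Padic.norm_eq_zpow_neg_valuation (Nat.cast_ne_zero.mpr hx), Padic.valuation_natCast]

theorem nv {x y v : ℕ} (hx : 0 < x) (H : ∀ e ≤ v, p ^ e ∣ x ↔ p ^ e ∣ y) (hv : padicValNat p x < v) :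
    0 < y ∧ padicValNat p y = padicValNat p x := by
  have h1 := (H _ hv).not.mp (by rw [padicValNat_dvd_iff_le hx.ne']; omega)
  have h0 : 0 < y := Nat.pos_of_ne_zero fun z => h1 (by simp [z])
  have h2 := (H _ hv.le).mp pow_padicValNat_dvd
  rw [padicValNat_dvd_iff_le h0.ne'] at h1 h2
  exact ⟨h0, by omega⟩

theorem sq3 {n m : ℕ} (h5 : 5 ≤ p) (hn : 0 < n) (he : padicValNat p n % 2 = 0) (M : ℕ → ℚ_[p]) (M0 : M 0 = 0)
    (hM : ∀ r, 0 < r → r ≤ n → M r = (m * p ^ (2 * (padicValNat p r / 2 + 1)) : ℕ) / r) :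
    ‖∑ r ∈ range n, M r * M (n - r)‖ ≤ (p : ℝ) ^ (-3 : ℤ) := by
  have p1 : (1 : ℝ) < p := by exact_mod_cast hp.out.one_lt
  have p0 := hp.out.pos
  obtain ⟨g, hg, gp, g2⟩ := Nat.forall_exists_prime_gt_and_modEq (n + p) (q := p) (a := 2) p0.ne'
    ((Nat.coprime_primes Nat.prime_two hp.out).mpr (by omega))
  have cn : g.Coprime n := (Nat.coprime_of_lt_prime hn.ne' (by omega) gp)
  have cp : g.Coprime p := (Nat.coprime_primes gp hp.out).mpr (by omega)
  have pn : ∀ e ≤ padicValNat p n, p ^ e ∣ n := fun e h => (padicValNat_dvd_iff_le hn.ne').mpr h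
  have d1 : ∀ r ≤ n, ∀ e ≤ padicValNat p n, p ^ e ∣ r ↔ p ^ e ∣ n - r := fun r hr e h =>
    (Nat.dvd_sub_iff_right hr (pn e h)).symm
  have d2 : ∀ r, ∀ e ≤ padicValNat p n, p ^ e ∣ r ↔ p ^ e ∣ g * r % n := fun r e h => by
    rw [Nat.dvd_mod_iff (pn e h), (cp.symm.pow_left e).dvd_mul_left]
  have mn : ‖(m : ℚ_[p])‖ ≤ 1 := by simpa using Padic.norm_int_le_one (p := p) m
  have nM : ∀ r, 0 < r → r ≤ n → ‖M r‖ ≤ (p : ℝ) ^ (-(2 - (padicValNat p r % 2 : ℕ) : ℤ)) := fun r h1 h2 => by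
    rw [hM r h1 h2, Nat.cast_mul, mul_div_assoc, norm_mul, norm_div, nn (x := p ^ _) (by positivity), nn h1.ne',
      padicValNat.prime_pow, ← zpow_sub₀ (by positivity)]
    exact (mul_le_of_le_one_left (by positivity) mn).trans (zpow_le_zpow_right₀ p1.le (by omega))
  have sm : ∀ r < n, ¬(0 < r ∧ padicValNat p r % 2 = 1 ∧ padicValNat p r < padicValNat p n) →
      ‖M r * M (n - r)‖ ≤ (p : ℝ) ^ (-3 : ℤ) := fun r hr h => by
    rcases r.eq_zero_or_pos with rfl | r0
    · simp [M0]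
    rw [norm_mul]
    refine (mul_le_mul (nM r r0 hr.le) (nM _ (by omega) (by omega)) (norm_nonneg _) (by positivity)).trans ?_
    rw [← zpow_add₀ (by positivity)]
    refine zpow_le_zpow_right₀ p1.le ?_
    have h1 := fun h => (nv (p := p) (by omega : 0 < n - r) (fun e h => (d1 r hr.le e h).symm) h).2
    have h2 : ¬(padicValNat p n + 1 ≤ padicValNat p r ∧ padicValNat p n + 1 ≤ padicValNat p (n - r)) := fun ⟨a, b⟩ => by
      rw [← padicValNat_dvd_iff_le (by omega)] at a b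
      have := a.add b
      rw [Nat.add_sub_cancel' hr.le, padicValNat_dvd_iff_le hn.ne'] at this
      omega
    omega
  have key : ∀ r ∈ range n, ‖(g : ℚ_[p]) ^ 2 * (M (g * r % n) * M (n - g * r % n)) - M r * M (n - r)‖ ≤
      (p : ℝ) ^ (-3 : ℤ) := fun r hr => by
    have hr := mem_range.mp hr
    have hr' := Nat.mod_lt (g * r) hn
    by_cases h : 0 < r ∧ padicValNat p r % 2 = 1 ∧ padicValNat p r < padicValNat p n
    · obtain ⟨r0, h1, h2⟩ := h
      obtain ⟨a1, a2⟩ := nv r0 (d2 r) h2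
      obtain ⟨b1, b2⟩ := nv r0 (d1 r hr.le) h2
      obtain ⟨c1, c2⟩ := nv a1 (d1 _ hr'.le) (a2 ▸ h2)
      obtain ⟨n', e1⟩ := pn _ h2
      obtain ⟨s, e2⟩ := pow_padicValNat_dvd (p := p) (n := r)
      obtain ⟨s', e3⟩ := pow_padicValNat_dvd (p := p) (n := g * r % n)
      have e4 := Nat.div_add_mod (g * r) n
      rw [hM _ a1 hr'.le, hM _ c1 (by omega), hM _ r0 hr.le, hM _ b1 (by omega), c2, b2, a2]
      rw [a2] at e3 c2
      generalize g * r / n = c at e4
      generalize g * r % n = r' at *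
      have e5 : ((g : ℚ_[p]) ^ 2 * r * (n - r : ℕ) - r' * (n - r' : ℕ)) = (p ^ (2 * padicValNat p r + 1) : ℕ) *
          ((n' * (g ^ 2 * s - s' - c * (s' + g * s)) : ℤ) : ℚ_[p]) := by
        have f1 := congrArg (Nat.cast : ℕ → ℚ_[p]) e1
        have f2 := congrArg (Nat.cast : ℕ → ℚ_[p]) e2
        have f3 := congrArg (Nat.cast : ℕ → ℚ_[p]) e3
        have f4 := congrArg (Nat.cast : ℕ → ℚ_[p]) e4
        push_cast [Nat.cast_sub hr.le, Nat.cast_sub hr'.le] at *
        generalize (padicValNat p r) = j at *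
        rw [Nat.succ_eq_add_one] at f1
        linear_combination (r' + g * r) * f4 + (g ^ 2 * r - r' - c * (r' + g * r)) * f1 +
          p ^ (j + 1) * n' * ((g ^ 2 - c * g) * f2 - (1 + c) * f3)
      rw [show ∀ X : ℚ_[p], (g : ℚ_[p]) ^ 2 * (X / r' * (X / (n - r' : ℕ))) - X / r * (X / (n - r : ℕ)) =
        X ^ 2 * ((g : ℚ_[p]) ^ 2 * r * (n - r : ℕ) - r' * (n - r' : ℕ)) / (r * r' * (n - r : ℕ) * (n - r' : ℕ)) from
          fun X => by
            have t1 := Nat.cast_ne_zero (R := ℚ_[p]).mpr r0.ne'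
            have t2 := Nat.cast_ne_zero (R := ℚ_[p]).mpr a1.ne'
            have t3 := Nat.cast_ne_zero (R := ℚ_[p]).mpr b1.ne'
            have t4 := Nat.cast_ne_zero (R := ℚ_[p]).mpr c1.ne'
            field_simp, e5]
      simp only [norm_div, norm_mul, norm_pow, Nat.cast_mul]
      rw [nn (x := p ^ _) (by positivity), nn (x := p ^ _) (by positivity), nn r0.ne', nn a1.ne', nn b1.ne', nn c1.ne', a2,
        b2, c2, padicValNat.prime_pow, padicValNat.prime_pow, div_le_iff₀ (by positivity)]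
      refine (mul_le_mul (pow_le_pow_left₀ (by positivity) (mul_le_of_le_one_left (by positivity) mn) 2)
        (mul_le_of_le_one_right (by positivity) (Padic.norm_int_le_one _)) (by positivity) (by positivity)).trans ?_
      simp only [sq, ← zpow_add₀ (by positivity : (p : ℝ) ≠ 0)]
      exact zpow_le_zpow_right₀ p1.le (by omega)
    · rw [sub_eq_add_neg]
      refine (IsUltrametricDist.norm_add_le_max _ _).trans (max_le ?_ (by rw [norm_neg]; exact sm r hr h))
      rw [norm_mul, norm_pow]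
      refine (mul_le_of_le_one_left (norm_nonneg _) (pow_le_one₀ (norm_nonneg _)
        (by simpa using Padic.norm_int_le_one (p := p) g))).trans (sm _ hr' fun ⟨a, b, c⟩ => h ?_)
      obtain ⟨a1, a2⟩ := nv a (fun e h => (d2 r e h).symm) c
      exact ⟨a1, a2 ▸ b, a2 ▸ c⟩
  have s := IsUltrametricDist.norm_sum_le_of_forall_le_of_nonneg (by positivity) key
  have inj : Set.InjOn (fun r => g * r % n) (range n) := fun x hx y hy h =>
    Nat.ModEq.eq_of_lt_of_lt (Nat.ModEq.cancel_left_of_coprime cn.symm h) (by simpa using hx) (by simpa using hy)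
  rw [sum_sub_distrib, ← mul_sum, ← sum_image (f := fun r => M r * M (n - r)) inj, eq_of_subset_of_card_le
    (image_subset_iff.mpr fun r _ => mem_range.mpr (Nat.mod_lt _ hn)) (by rw [card_image_of_injOn inj]),
    ← sub_one_mul, norm_mul] at s
  have u : ‖(g : ℚ_[p]) ^ 2 - 1‖ = 1 := by
    have : ((g ^ 2 - 1 : ℕ) : ℚ_[p]) = g ^ 2 - 1 := by push_cast [Nat.cast_sub (Nat.one_le_pow 2 g gp.pos)]; rfl
    rw [← this, Padic.norm_natCast_eq_one_iff, hp.out.coprime_iff_not_dvd]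
    intro h
    have := ((Nat.modEq_iff_dvd' (Nat.one_le_pow 2 g gp.pos)).mpr h).trans (g2.pow 2)
    exact absurd (Nat.le_of_dvd (by norm_num) ((Nat.modEq_iff_dvd' (by norm_num)).mp this)) (by omega)
  rwa [u, one_mul] at s

end Pool.Agent.H27.ValSq
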