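import Mathlib

set_option autoImplicit false

namespace Pool.Agent.H27.WA

open PowerSeries

section Zorn

variable {G : Type} [Group G]

structure WC (P : Set G) : Prop where
  one : (1 : G) ∈ P
  mul : ∀ x ∈ P, ∀ y ∈ P, x * y ∈ P
  pure : ∀ x ∈ P, x⁻¹ ∈ P → x = 1
  conj : ∀ x ∈ P, ∀ g, g⁻¹ * x * g ∈ P
  op : ∀ x ∈ P, ∀ g, (g⁻¹ * x * g)⁻¹ * x ^ 2 ∈ P

lemma WC.conj' {P : Set G} (h : WC P) {x : G} (hx : x ∈ P) (g : G) : g * x * g⁻¹ ∈ P := by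
  simpa using h.conj x hx g⁻¹

lemma WC.pow {P : Set G} (h : WC P) {x : G} (hx : x ∈ P) (n : ℕ) : x ^ n ∈ P := by
  induction n with
  | zero => simpa using h.one
  | succ n ih => rw [pow_succ]; exact h.mul _ ih _ hx

lemma exists_total (V : G → ℤ → G → Prop) (v1 : ∀ a, V a 1 a)
    (v2 : ∀ a n m x y, V a n x → V a m y → V a (n + m) (x * y))
    (v3 : ∀ a n x, V a n x → V a (-n) x⁻¹) (v4 : ∀ a n x g, V a n x → V a n (g⁻¹ * x * g))
    (key : ∀ P, WC P → ∀ a ≠ 1, ∀ (n m : ℤ) x y, 0 < n → m < 0 → V a n x → V a m y → x ∈ P →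
      y ∈ P → False)
    {P0 : Set G} (h0 : WC P0) : ∃ P, WC P ∧ P0 ⊆ P ∧ ∀ a, a ∈ P ∨ a⁻¹ ∈ P := by
  obtain ⟨P, hP0, hP⟩ := zorn_subset_nonempty {P : Set G | WC P} (by
    intro c hc hch hne
    refine ⟨⋃₀ c, ⟨?_, ?_, ?_, ?_, ?_⟩, fun s hs => Set.subset_sUnion_of_mem hs⟩
    · obtain ⟨s, hs⟩ := hne
      exact ⟨s, hs, (hc hs).one⟩
    · rintro x ⟨s, hs, hx⟩ y ⟨t, ht, hy⟩
      rcases hch.total hs ht with h | h
      · exact ⟨t, ht, (hc ht).mul _ (h hx) _ hy⟩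
      · exact ⟨s, hs, (hc hs).mul _ hx _ (h hy)⟩
    · rintro x ⟨s, hs, hx⟩ ⟨t, ht, hy⟩
      rcases hch.total hs ht with h | h
      · exact (hc ht).pure _ (h hx) hy
      · exact (hc hs).pure _ hx (h hy)
    · rintro x ⟨s, hs, hx⟩ g
      exact ⟨s, hs, (hc hs).conj _ hx g⟩
    · rintro x ⟨s, hs, hx⟩ g
      exact ⟨s, hs, (hc hs).op _ hx g⟩) P0 h0
  have hC : WC P := hP.1
  have ext : ∀ (W : G → Prop) a, W a → (∀ x y, W x → W y → W (x * y)) →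
      (∀ x g, W x → W (g⁻¹ * x * g)) →
      (∀ x g k, W x → W ((g⁻¹ * x * g)⁻¹ * (k⁻¹ * x * k) * x)) → a ∉ P → ∃ b, W b ∧ b⁻¹ ∈ P := by
    intro W a w1 w2 w3 w4 ha
    by_contra hno
    push Not at hno
    let E : Set G := {x | x ∈ P ∨ ∃ p ∈ P, ∃ b, W b ∧ x = p * b}
    have m1 : ∀ x ∈ E, ∀ p ∈ P, ∀ b, W b → ∃ p' ∈ P, ∃ b', W b' ∧ x * (p * b) = p' * b' := by
      rintro x (hx | ⟨q, hq, c, hc, rfl⟩) p hp b hb
      · exact ⟨x * p, hC.mul _ hx _ hp, b, hb, by group⟩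
      · exact ⟨q * (c * p * c⁻¹), hC.mul _ hq _ (hC.conj' hp c), c * b, w2 _ _ hc hb, by group⟩
    have m2 : ∀ p ∈ P, ∀ b, W b → ∀ x ∈ P, ∃ p' ∈ P, ∃ b', W b' ∧ p * b * x = p' * b' :=
      fun p hp b hb x hx =>
        ⟨p * (b * x * b⁻¹), hC.mul _ hp _ (hC.conj' hx b), b, hb, by group⟩
    have no1 : ∀ p ∈ P, ∀ b, W b → 1 ≠ p * b := by
      intro p hp b hb h
      apply hno b hb
      rwa [← eq_inv_of_mul_eq_one_left h.symm]
    have hE : WC E := by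
      refine ⟨Or.inl hC.one, ?_, ?_, ?_, ?_⟩
      · rintro x hx y (hy | ⟨p, hp, b, hb, rfl⟩)
        · rcases hx with hx | ⟨p, hp, b, hb, rfl⟩
          · exact Or.inl (hC.mul _ hx _ hy)
          · exact Or.inr (m2 p hp b hb y hy)
        · exact Or.inr (m1 x hx p hp b hb)
      · rintro x hx (hy | ⟨p, hp, b, hb, hy⟩)
        · rcases hx with hx | ⟨p, hp, b, hb, rfl⟩
          · exact hC.pure _ hx hy
          · obtain ⟨p', hp', b', hb', e⟩ := m2 p hp b hb _ hy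
            rw [mul_inv_cancel] at e
            exact absurd e (no1 p' hp' b' hb')
        · obtain ⟨p', hp', b', hb', e⟩ := m1 x hx p hp b hb
          rw [← hy, mul_inv_cancel] at e
          exact absurd e (no1 p' hp' b' hb')
      · rintro x (hx | ⟨p, hp, b, hb, rfl⟩) g
        · exact Or.inl (hC.conj _ hx g)
        · exact Or.inr ⟨g⁻¹ * p * g, hC.conj _ hp g, g⁻¹ * b * g, w3 _ _ hb, by group⟩
      · rintro x (hx | ⟨p, hp, b, hb, rfl⟩) g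
        · exact Or.inl (hC.op _ hx g)
        · refine Or.inr ⟨_, hC.conj _ (hC.op _ hp g) (g⁻¹ * b * g), _, w4 b g p hb, ?_⟩
          simp only [sq]; group
    have : E ⊆ P := hP.2 hE (fun x hx => Or.inl hx)
    exact ha (this (Or.inr ⟨1, hC.one, a, w1, by simp⟩))
  refine ⟨P, hC, hP0, fun a => ?_⟩
  by_contra hno
  push Not at hno
  have w4 : ∀ n x g k, V a n x → V a n ((g⁻¹ * x * g)⁻¹ * (k⁻¹ * x * k) * x) := by
    intro n x g k h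
    simpa using v2 _ _ _ _ _ (v2 _ _ _ _ _ (v3 _ _ _ (v4 _ _ _ g h)) (v4 _ _ _ k h)) h
  obtain ⟨b, ⟨n, hn, hb⟩, hb'⟩ := ext (fun x => ∃ n, 0 < n ∧ V a n x) a ⟨1, one_pos, v1 a⟩
    (fun x y ⟨n, a1, a2⟩ ⟨m, a3, a4⟩ => ⟨n + m, add_pos a1 a3, v2 _ _ _ _ _ a2 a4⟩)
    (fun x g ⟨n, a1, a2⟩ => ⟨n, a1, v4 _ _ _ _ a2⟩)
    (fun x g k ⟨n, a1, a2⟩ => ⟨n, a1, w4 _ _ _ _ a2⟩) hno.1
  obtain ⟨c, ⟨m, hm, hc⟩, hc'⟩ := ext (fun x => ∃ n, n < 0 ∧ V a n x) a⁻¹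
    ⟨-1, by norm_num, v3 _ _ _ (v1 a)⟩
    (fun x y ⟨n, a1, a2⟩ ⟨m, a3, a4⟩ => ⟨n + m, add_neg a1 a3, v2 _ _ _ _ _ a2 a4⟩)
    (fun x g ⟨n, a1, a2⟩ => ⟨n, a1, v4 _ _ _ _ a2⟩)
    (fun x g k ⟨n, a1, a2⟩ => ⟨n, a1, w4 _ _ _ _ a2⟩) hno.2
  exact key P hC a (fun e => hno.1 (e ▸ hC.one)) _ _ _ _ (neg_pos.2 hm) (neg_neg_iff_pos.2 hn)
    (v3 _ _ _ hc) (v3 _ _ _ hb) hc' hb'

end Zorn

abbrev B := PowerSeries ℚ

def R (f : B) (r : ℚ) : Prop :=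
  ∃ p q : Polynomial ℚ, q.eval 1 ≠ 0 ∧ (q : B) * f = p ∧ p.eval 1 = r * q.eval 1

lemma R.add {f g : B} {r s : ℚ} (h : R f r) (h' : R g s) : R (f + g) (r + s) := by
  obtain ⟨p, q, h1, h2, h3⟩ := h
  obtain ⟨p', q', h4, h5, h6⟩ := h'
  refine ⟨p * q' + p' * q, q * q', by simp [h1, h4], ?_, by simp [h3, h6]; ring⟩
  push_cast
  rw [← h2, ← h5]; ring

lemma R.mul {f g : B} {r s : ℚ} (h : R f r) (h' : R g s) : R (f * g) (r * s) := by
  obtain ⟨p, q, h1, h2, h3⟩ := h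
  obtain ⟨p', q', h4, h5, h6⟩ := h'
  refine ⟨p * p', q * q', by simp [h1, h4], ?_, by simp [h3, h6]; ring⟩
  push_cast
  rw [← h2, ← h5]; ring

lemma R.const (a : ℚ) : R (C a) a := ⟨Polynomial.C a, 1, by simp, by simp, by simp⟩

lemma R.xx : R X 1 := ⟨Polynomial.X, 1, by simp, by simp, by simp⟩

lemma R.one : R 1 1 := by simpa using R.const 1

lemma R.neg {f : B} {r : ℚ} (h : R f r) : R (-f) (-r) := by simpa using (R.const (-1)).mul h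

lemma R.inv {u : Bˣ} (h : R u 1) : R (u⁻¹ : Bˣ) 1 := by
  obtain ⟨p, q, h1, h2, h3⟩ := h
  exact ⟨q, p, by simpa [h3] using h1, by rw [← h2]; simp, by simp [h3]⟩

lemma R.ne {f : B} {r : ℚ} (h : R f r) (hr : r ≠ 0) : f ≠ 0 := by
  rintro rfl
  obtain ⟨p, q, h1, h2, h3⟩ := h
  have : p = 0 := Polynomial.coe_injective ℚ (by simpa using h2.symm)
  simp [this, h1, hr] at h3

lemma R.pow {f : B} (h : R f 1) (n : ℕ) : R (f ^ n) 1 := by
  induction n with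
  | zero => simpa using R.one
  | succ n ih => rw [pow_succ]; simpa using ih.mul h

lemma R.tors {f : B} (h : R f 1) {n : ℕ} (hn : 0 < n) (e : f ^ n = 1) : f = 1 := by
  have : ∀ n : ℕ, R (∑ i ∈ Finset.range n, f ^ i) n := by
    intro n
    induction n with
    | zero => simpa using R.const 0
    | succ n ih => rw [Finset.sum_range_succ]; exact_mod_cast ih.add (h.pow n)
  have h2 := (this n).ne (by exact_mod_cast hn.ne')
  have h3 := geom_sum_mul f n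
  rw [e, sub_self] at h3
  exact sub_eq_zero.1 ((mul_eq_zero.1 h3).resolve_left h2)

noncomputable def lin (α : ℚ) : B := C α + C (1 - α) * X

lemma R.lin (α : ℚ) : R (lin α) 1 := by
  have := (R.const α).add ((R.const (1 - α)).mul R.xx)
  rwa [mul_one, add_sub_cancel] at this

@[simp] lemma c_lin (α : ℚ) : constantCoeff (lin α) = α := by simp [lin]

lemma dvd_X_pow {κ : B} (h : κ ≠ 0) : ∃ l, κ ∣ X ^ l := by
  obtain ⟨u, hu⟩ : IsUnit κ.divXPowOrder :=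
    isUnit_iff_constantCoeff.2 (Ne.isUnit (constantCoeff_divXPowOrder_eq_zero_iff.not.2 h))
  refine ⟨κ.order.toNat, (u⁻¹ : Bˣ), ?_⟩
  conv_rhs => rw [← X_pow_order_mul_divXPowOrder (f := κ), ← hu]
  simp

lemma deep {F : B → Prop} (h1 : ∀ b, F b → ∃ s, X ∣ s ∧ F (s * b)) {b : B} (h : F b) {κ : B}
    (hκ : κ ≠ 0) : ∃ t, F (κ * t) := by
  have : ∀ l, ∃ b', X ^ l ∣ b' ∧ F b' := by
    intro l
    induction l with
    | zero => exact ⟨b, by simp, h⟩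
    | succ l ih =>
      obtain ⟨b', a1, a2⟩ := ih
      obtain ⟨s, a3, a4⟩ := h1 b' a2
      exact ⟨_, by rw [pow_succ']; exact mul_dvd_mul a3 a1, a4⟩
  obtain ⟨l, hl⟩ := dvd_X_pow hκ
  obtain ⟨b', a1, a2⟩ := this l
  obtain ⟨t, rfl⟩ := hl.trans a1
  exact ⟨t, a2⟩

lemma kill {F : B → Prop} {ε : B} (hε : ε ≠ 1)
    (h1 : constantCoeff ε = 1 → ∀ b, F b → ∃ s, X ∣ s ∧ F (s * b))
    (h2 : ∀ b t, F b → F (b + (1 - ε) * t)) {b : B} (h : F b) : F 0 := by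
  have : ∃ t, F ((1 - ε) * t) := by
    by_cases e : constantCoeff ε = 1
    · exact deep (h1 e) h (sub_ne_zero.2 hε.symm)
    · obtain ⟨u, hu⟩ : IsUnit (1 - ε) := isUnit_iff_constantCoeff.2
        (Ne.isUnit (by simpa using sub_ne_zero.2 (Ne.symm e)))
      exact ⟨(u⁻¹ : Bˣ) * b, by rw [← hu]; simpa using h⟩
  obtain ⟨t, ht⟩ := this
  simpa using h2 _ (-t) ht

def D : Subgroup (Bˣ × Bˣ) where
  carrier := {d | R d.1 1 ∧ R d.2 1 ∧ 0 < constantCoeff (d.1 : B) * constantCoeff (d.2 : B)}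
  one_mem' := ⟨R.one, R.one, by simp⟩
  mul_mem' := by
    rintro a b ⟨h1, h2, h3⟩ ⟨h4, h5, h6⟩
    refine ⟨by simpa using h1.mul h4, by simpa using h2.mul h5, ?_⟩
    have := mul_pos h3 h6
    simp only [Prod.fst_mul, Prod.snd_mul, Units.val_mul, map_mul]
    linarith
  inv_mem' := by
    rintro a ⟨h1, h2, h3⟩
    refine ⟨h1.inv, h2.inv, ?_⟩
    have a1 := congrArg constantCoeff a.1.mul_inv
    have a2 := congrArg constantCoeff a.2.mul_inv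
    rw [map_mul, map_one] at a1 a2
    refine pos_of_mul_pos_left (a := _) (b := _) ?_ h3.le
    simp only [Prod.fst_inv, Prod.snd_inv]
    nlinarith

def d1 (d : D) : B := d.1.1

def d2 (d : D) : B := d.1.2

@[simp] lemma d1_mul (d e : D) : d1 (d * e) = d1 d * d1 e := rfl

@[simp] lemma d2_mul (d e : D) : d2 (d * e) = d2 d * d2 e := rfl

@[simp] lemma d1_one : d1 1 = 1 := rfl

@[simp] lemma d2_one : d2 1 = 1 := rfl

lemma d1_inv (d : D) : d1 d⁻¹ * d1 d = 1 := by rw [← d1_mul, inv_mul_cancel, d1_one]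

lemma d2_inv (d : D) : d2 d⁻¹ * d2 d = 1 := by rw [← d2_mul, inv_mul_cancel, d2_one]

lemma d1_pow (d : D) (n : ℕ) : d1 (d ^ n) = d1 d ^ n := by simp [d1]

lemma d2_pow (d : D) (n : ℕ) : d2 (d ^ n) = d2 d ^ n := by simp [d2]

lemma r1 (d : D) : R (d1 d) 1 := d.2.1

lemma r2 (d : D) : R (d2 d) 1 := d.2.2.1

lemma cpos (d : D) : 0 < constantCoeff (d1 d) * constantCoeff (d2 d) := d.2.2.2

lemma d_ext {d : D} (h1 : d1 d = 1) (h2 : d2 d = 1) : d = 1 :=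
  Subtype.ext (Prod.ext (Units.ext h1) (Units.ext h2))

lemma exD {u v : B} (h1 : R u 1) (h2 : R v 1) (h : 0 < constantCoeff u * constantCoeff v) :
    ∃ e : D, d1 e = u ∧ d2 e = v := by
  obtain ⟨u, rfl⟩ : IsUnit u := isUnit_iff_constantCoeff.2 (Ne.isUnit (left_ne_zero_of_mul h.ne'))
  obtain ⟨v, rfl⟩ : IsUnit v := isUnit_iff_constantCoeff.2 (Ne.isUnit (right_ne_zero_of_mul h.ne'))
  exact ⟨⟨(u, v), h1, h2, h⟩, rfl, rfl⟩

end Pool.Agent.H27.WA
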