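import Pool.Agent.H27.WA1

set_option autoImplicit false

namespace Pool.Agent.H27.WA

open PowerSeries

@[ext] structure GG where
  x : B
  y : B
  z : B
  d : D

noncomputable instance : Mul GG := ⟨fun g h => ⟨g.x + d1 g.d * h.x, g.y + d2 g.d * h.y,
  g.z + d1 g.d * d2 g.d * h.z + (g.x * d2 g.d * h.y - g.y * d1 g.d * h.x), g.d * h.d⟩⟩

noncomputable instance : One GG := ⟨⟨0, 0, 0, 1⟩⟩

noncomputable instance : Inv GG :=
  ⟨fun g => ⟨-(d1 g.d⁻¹ * g.x), -(d2 g.d⁻¹ * g.y), -(d1 g.d⁻¹ * d2 g.d⁻¹ * g.z), g.d⁻¹⟩⟩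

lemma mul_def (g h : GG) : g * h = ⟨g.x + d1 g.d * h.x, g.y + d2 g.d * h.y,
  g.z + d1 g.d * d2 g.d * h.z + (g.x * d2 g.d * h.y - g.y * d1 g.d * h.x), g.d * h.d⟩ := rfl

lemma one_def : (1 : GG) = ⟨0, 0, 0, 1⟩ := rfl

lemma inv_def (g : GG) :
  g⁻¹ = ⟨-(d1 g.d⁻¹ * g.x), -(d2 g.d⁻¹ * g.y), -(d1 g.d⁻¹ * d2 g.d⁻¹ * g.z), g.d⁻¹⟩ := rfl

noncomputable instance : Group GG := Group.ofLeftAxioms
  (fun x y z => by
    simp only [mul_def, d1_mul, d2_mul]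
    refine GG.ext ?_ ?_ ?_ (mul_assoc _ _ _) <;> simp only <;> ring)
  (fun x => by simp [mul_def, one_def])
  (fun x => by
    simp only [mul_def, one_def, inv_def]
    refine GG.ext ?_ ?_ ?_ (inv_mul_cancel _) <;> simp only <;> ring)

variable {P : Set GG} (hP : WC P)
include hP

lemma mem_eq {g k : GG} (h : g ∈ P) (e1 : g.x = k.x) (e2 : g.y = k.y) (e3 : g.z = k.z)
    (e4 : g.d = k.d) : k ∈ P := GG.ext e1 e2 e3 e4 ▸ h

variable {x y z : B} {d : D}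

lemma conjD (h : ⟨x, y, z, d⟩ ∈ P) (e : D) : ⟨d1 e * x, d2 e * y, d1 e * d2 e * z, d⟩ ∈ P := by
  refine mem_eq hP (hP.conj' h ⟨0, 0, 0, e⟩) ?_ ?_ ?_ ?_ <;> simp [mul_def, inv_def]

lemma conjN (h : ⟨x, y, z, d⟩ ∈ P) (a b c : B) : ⟨x + (1 - d1 d) * a, y + (1 - d2 d) * b,
    z + (1 - d1 d * d2 d) * c + (1 + d1 d) * a * y - (1 + d2 d) * b * x + (d1 d - d2 d) * a * b,
    d⟩ ∈ P := by
  refine mem_eq hP (hP.conj' h ⟨a, b, c, 1⟩) ?_ ?_ ?_ ?_ <;> simp [mul_def, inv_def] <;> ring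

lemma opD (h : ⟨x, y, z, d⟩ ∈ P) (e : D) : ∃ t, ⟨d1 d⁻¹ * (1 + d1 d - d1 e) * x,
    d2 d⁻¹ * (1 + d2 d - d2 e) * y,
    d1 d⁻¹ * d2 d⁻¹ * (1 + d1 d * d2 d - d1 e * d2 e) * z + t * x * y, d⟩ ∈ P := by
  refine ⟨d1 d⁻¹ * d2 d⁻¹ * (d2 d - d1 d - d1 e * (1 + d2 d) + d2 e * (1 + d1 d)),
    mem_eq hP (hP.op _ h ⟨0, 0, 0, e⁻¹⟩) ?_ ?_ ?_ ?_⟩ <;> simp [mul_def, inv_def, sq] <;> ring

lemma killX (hd : d1 d ≠ 1) (h : ⟨x, y, z, d⟩ ∈ P) : ∃ z, ⟨0, y, z, d⟩ ∈ P := by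
  refine kill (F := fun x => ∃ z, (⟨x, y, z, d⟩ : GG) ∈ P) hd ?_ ?_ ⟨z, h⟩
  · rintro hc x ⟨z, h⟩
    obtain ⟨e, e1, e2⟩ := exD (R.lin 2) R.one (by simp)
    obtain ⟨t, ht⟩ := opD hP h e
    rw [e2, add_sub_cancel_left, d2_inv, one_mul] at ht
    exact ⟨_, X_dvd_iff.2 (by simp [hc, e1]; norm_num), _, ht⟩
  · rintro x t ⟨z, h⟩
    exact ⟨_, by simpa using conjN hP h t 0 0⟩

lemma killY (hd : d2 d ≠ 1) (h : ⟨x, y, z, d⟩ ∈ P) : ∃ z, ⟨x, 0, z, d⟩ ∈ P := by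
  refine kill (F := fun y => ∃ z, (⟨x, y, z, d⟩ : GG) ∈ P) hd ?_ ?_ ⟨z, h⟩
  · rintro hc y ⟨z, h⟩
    obtain ⟨e, e1, e2⟩ := exD R.one (R.lin 2) (by simp)
    obtain ⟨t, ht⟩ := opD hP h e
    rw [e1, add_sub_cancel_left, d1_inv, one_mul] at ht
    exact ⟨_, X_dvd_iff.2 (by simp [hc, e2]; norm_num), _, ht⟩
  · rintro y t ⟨z, h⟩
    exact ⟨_, by simpa using conjN hP h 0 t 0⟩

lemma deepZ (h0 : x = 0 ∨ y = 0) (hc : constantCoeff (d1 d * d2 d) = 1) (z : B)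
    (h : ⟨x, y, z, d⟩ ∈ P) : ∃ s, X ∣ s ∧ ⟨x, y, s * z, d⟩ ∈ P := by
  rcases h0 with rfl | rfl
  · obtain ⟨e, e1, e2⟩ := exD (R.lin 2) R.one (by simp)
    obtain ⟨t, ht⟩ := opD hP h e
    rw [e2, add_sub_cancel_left, d2_inv, one_mul, mul_zero, mul_zero, zero_mul, add_zero] at ht
    refine ⟨_, X_dvd_iff.2 ?_, ht⟩
    rw [map_mul, map_sub, map_add, hc]; simp [e1]; norm_num
  · obtain ⟨e, e1, e2⟩ := exD R.one (R.lin 2) (by simp)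
    obtain ⟨t, ht⟩ := opD hP h e
    rw [e1, add_sub_cancel_left, d1_inv, one_mul, mul_zero, mul_zero, add_zero] at ht
    refine ⟨_, X_dvd_iff.2 ?_, ht⟩
    rw [map_mul, map_sub, map_add, hc]; simp [e2]; norm_num

lemma killZ (h0 : x = 0 ∨ y = 0) (hd : d1 d * d2 d ≠ 1) (h : ⟨x, y, z, d⟩ ∈ P) :
    ⟨x, y, 0, d⟩ ∈ P :=
  kill (F := fun z => (⟨x, y, z, d⟩ : GG) ∈ P) hd (deepZ hP h0)
    (fun _ t h => by simpa using conjN hP h 0 0 t) h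

lemma killZ2 (hd : d1 d * d2 d = 1) (hd1 : d1 d ≠ 1) (h : ⟨0, 0, z, d⟩ ∈ P) :
    ⟨0, 0, 0, d * d⟩ ∈ P := by
  have hκ : d2 d - d1 d ≠ 0 := fun e => hd1 ((r1 d).tors two_pos (by
    rw [sq]; nth_rewrite 2 [← sub_eq_zero.1 e]; exact hd))
  obtain ⟨t, ht⟩ := deep (F := fun z => (⟨0, 0, z, d⟩ : GG) ∈ P)
    (deepZ hP (Or.inl rfl) (by rw [hd, map_one])) h hκ
  refine mem_eq hP (hP.mul _ (conjN hP ht (-(d1 d * t)) (-d2 d) 0) _ (conjN hP ht t 1 0))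
    ?_ ?_ ?_ rfl <;> simp only [mul_def]
  · ring
  · ring
  · linear_combination (d1 d - d2 d) * t * hd

lemma powXY (h1 : d1 d * x = x) (h2 : d2 d * y = y) (h : ⟨x, y, z, d⟩ ∈ P) (n : ℕ) :
    ∃ z, ⟨n * x, n * y, z, d ^ n⟩ ∈ P := by
  induction n with
  | zero => exact ⟨0, by simpa [one_def] using hP.one⟩
  | succ n ih =>
    obtain ⟨z', h'⟩ := ih
    refine ⟨_, mem_eq hP (hP.mul _ h _ h') ?_ ?_ rfl (pow_succ' _ _).symm⟩ <;>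
      simp only [mul_def] <;> push_cast
    · linear_combination n * h1
    · linear_combination n * h2

lemma opXY (h1 : d1 d * x = x) (h2 : d2 d * y = y) (h : ⟨x, y, z, d⟩ ∈ P) {n : ℕ} (hn : 0 < n)
    {p q : B} (hp : R p n) (hq : R q n) : ∃ z, ⟨2 * p * x, 2 * q * y, z, d ^ (2 * n)⟩ ∈ P := by
  have hn' : (n : ℚ) ≠ 0 := by exact_mod_cast hn.ne'
  have e0 : (n : B) * C (n : ℚ)⁻¹ = 1 := by
    rw [← map_natCast (C (R := ℚ)), ← map_mul, mul_inv_cancel₀ hn', map_one]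
  let M : ℚ := |2 * constantCoeff (C (n : ℚ)⁻¹ * p)| + |2 * constantCoeff (C (n : ℚ)⁻¹ * q)| + 1
  have hR : ∀ {p : B}, R p n → R (C 2 * (C (n : ℚ)⁻¹ * p) + -lin (-M)) 1 := by
    intro p hp
    have := ((R.const 2).mul ((R.const (n : ℚ)⁻¹).mul hp)).add (R.lin (-M)).neg
    rwa [inv_mul_cancel₀ hn', show (2 : ℚ) * 1 + -1 = 1 by norm_num] at this
  have a1 := neg_abs_le (2 * constantCoeff (C (n : ℚ)⁻¹ * p))
  have a2 := neg_abs_le (2 * constantCoeff (C (n : ℚ)⁻¹ * q))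
  have a3 := abs_nonneg (2 * constantCoeff (C (n : ℚ)⁻¹ * p))
  have a4 := abs_nonneg (2 * constantCoeff (C (n : ℚ)⁻¹ * q))
  obtain ⟨e, e1, e2⟩ := exD (hR hp) (hR hq) (by
    simp only [map_add, map_neg, c_lin, neg_neg, map_mul (constantCoeff (R := ℚ)) (C 2),
      constantCoeff_C]
    exact mul_pos (by simp only [M]; linarith) (by simp only [M]; linarith))
  obtain ⟨e', e3, e4⟩ := exD (R.lin (-M)) (R.lin (-M)) (by
    rw [c_lin]; exact mul_pos_of_neg_of_neg (by simp only [M]; linarith) (by simp only [M]; linarith))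
  have c2 : (C 2 : B) = 2 := map_ofNat _ _
  obtain ⟨z', h'⟩ := powXY hP (d := d * d) (x := (d1 e + d1 e') * x) (y := (d2 e + d2 e') * y)
    (by rw [d1_mul]; linear_combination ((d1 e + d1 e') * (d1 d + 1)) * h1)
    (by rw [d2_mul]; linear_combination ((d2 e + d2 e') * (d2 d + 1)) * h2)
    (mem_eq hP (hP.mul _ (conjD hP h e) _ (conjD hP h e'))
      (by simp only [mul_def]; linear_combination d1 e' * h1)
      (by simp only [mul_def]; linear_combination d2 e' * h2) rfl rfl) n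
  refine ⟨z', mem_eq hP h' ?_ ?_ rfl (by simp only [pow_mul, sq])⟩ <;> simp only [e1, e2, e3, e4, c2]
  · linear_combination 2 * p * x * e0
  · linear_combination 2 * q * y * e0

lemma opZ (h : ⟨0, 0, z, 1⟩ ∈ P) {n : ℕ} (hn : 0 < n) {p : B} (hp : R p n) :
    ⟨0, 0, p * z, 1⟩ ∈ P := by
  have hn' : (n : ℚ) ≠ 0 := by exact_mod_cast hn.ne'
  have e0 : (n : B) * C (n : ℚ)⁻¹ = 1 := by
    rw [← map_natCast (C (R := ℚ)), ← map_mul, mul_inv_cancel₀ hn', map_one]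
  have hv : R (C (n : ℚ)⁻¹ * p) 1 := by
    simpa [inv_mul_cancel₀ hn'] using (R.const (n : ℚ)⁻¹).mul hp
  have h1 : (⟨0, 0, C (n : ℚ)⁻¹ * p * z, 1⟩ : GG) ∈ P := by
    rcases lt_or_ge 0 (constantCoeff (C (n : ℚ)⁻¹ * p)) with c | c
    · obtain ⟨e, e1, e2⟩ := exD hv R.one (by simpa using c)
      simpa [e1, e2] using conjD hP h e
    · obtain ⟨e, e1, e2⟩ := exD (u := 1 + 1 + -(C (n : ℚ)⁻¹ * p))
        (by simpa using (R.one.add R.one).add hv.neg) R.one (by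
          simp only [map_add, map_neg, map_one]; linarith)
      obtain ⟨t, ht⟩ := opD hP h e
      refine mem_eq hP ht ?_ ?_ ?_ rfl <;> simp [e1, e2]
  have : ∀ k : ℕ, (⟨0, 0, k * (C (n : ℚ)⁻¹ * p * z), 1⟩ : GG) ∈ P := by
    intro k
    induction k with
    | zero => simpa [one_def] using hP.one
    | succ k ih => refine mem_eq hP (hP.mul _ ih _ h1) ?_ ?_ ?_ ?_ <;> simp [mul_def, add_mul]
  refine mem_eq hP (this n) rfl rfl ?_ rfl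
  simp only
  linear_combination p * z * e0

lemma conjJ (h : ⟨x, y, z, 1⟩ ∈ P) (a b : B) : ⟨x, y, z + a * x + b * y, 1⟩ ∈ P := by
  have e : (2 : B) * C 2⁻¹ = 1 := by
    rw [← map_ofNat (C (R := ℚ)) 2, ← map_mul]; norm_num
  refine mem_eq hP (conjN hP h (C 2⁻¹ * b) (-(C 2⁻¹ * a)) 0) ?_ ?_ ?_ rfl <;> simp
  linear_combination (a * x + b * y) * e

lemma caseN (h0 : x ≠ 0 ∨ y ≠ 0) {z' : B} (h : ⟨x, y, z, 1⟩ ∈ P) (h' : ⟨-x, -y, z', 1⟩ ∈ P) :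
    False := by
  obtain ⟨e, e1, e2⟩ := exD (R.lin (-1)) (R.lin (-2)) (by simp)
  have st : ∀ x y z : B, (⟨x, y, z, 1⟩ : GG) ∈ P → (⟨(2 - d1 e) * x, (2 - d2 e) * y,
      (2 - d1 e * d2 e) * z, 1⟩ : GG) ∈ P := by
    intro x y z h
    obtain ⟨t, ht⟩ := opD hP h e
    obtain ⟨u, hu⟩ : IsUnit (2 - d1 e) := isUnit_iff_constantCoeff.2 (Ne.isUnit (by
      rw [map_sub, e1, map_ofNat]; norm_num))
    refine mem_eq hP (conjJ hP (by simpa using ht) (-(t * y * (u⁻¹ : Bˣ))) 0) ?_ ?_ ?_ rfl <;>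
      simp only [one_add_one_eq_two, ← hu]
    linear_combination (-(t * x * y)) * u.inv_mul
  let F : B → Prop := fun b => ∃ s1 s2 ζ, IsUnit s1 ∧ IsUnit s2 ∧
    (⟨s1 * x, s2 * y, ζ, 1⟩ : GG) ∈ P ∧ (⟨-(s1 * x), -(s2 * y), b - ζ, 1⟩ : GG) ∈ P
  have h1 : ∀ b, F b → ∃ s, X ∣ s ∧ F (s * b) := by
    rintro b ⟨s1, s2, ζ, a1, a2, a3, a4⟩
    refine ⟨2 - d1 e * d2 e, X_dvd_iff.2 (by rw [map_sub, map_mul, e1, e2, map_ofNat]; norm_num),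
      (2 - d1 e) * s1, (2 - d2 e) * s2, (2 - d1 e * d2 e) * ζ, IsUnit.mul
      (isUnit_iff_constantCoeff.2 (Ne.isUnit (by rw [map_sub, e1, map_ofNat]; norm_num))) a1,
      IsUnit.mul
      (isUnit_iff_constantCoeff.2 (Ne.isUnit (by rw [map_sub, e2, map_ofNat]; norm_num))) a2,
      mem_eq hP (st _ _ _ a3) ?_ ?_ rfl rfl, mem_eq hP (st _ _ _ a4) ?_ ?_ ?_ rfl⟩ <;>
      simp only <;> ring
  have f0 : F (z + z') := ⟨1, 1, z, isUnit_one, isUnit_one, by simpa using h, by simpa using h'⟩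
  have fin : ∀ s1 s2 ζ : B, IsUnit s1 → IsUnit s2 → (⟨s1 * x, s2 * y, ζ, 1⟩ : GG) ∈ P →
      (⟨-(s1 * x), -(s2 * y), -ζ, 1⟩ : GG) ∈ P → False := by
    intro s1 s2 ζ a1 a2 a3 a4
    have := hP.pure _ a3 (by simpa [inv_def] using a4)
    exact h0.elim (fun c => mul_ne_zero a1.ne_zero c (congrArg GG.x this))
      fun c => mul_ne_zero a2.ne_zero c (congrArg GG.y this)
  rcases h0 with c | c
  · obtain ⟨t, s1, s2, ζ, ⟨u, rfl⟩, a2, a3, a4⟩ := deep h1 f0 c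
    refine fin _ _ ζ u.isUnit a2 a3 (mem_eq hP (conjJ hP a4 (t * (u⁻¹ : Bˣ)) 0) rfl rfl ?_ rfl)
    simp only
    linear_combination (-(t * x)) * u.inv_mul
  · obtain ⟨t, s1, s2, ζ, a1, ⟨u, rfl⟩, a3, a4⟩ := deep h1 f0 c
    refine fin _ _ ζ a1 u.isUnit a3 (mem_eq hP (conjJ hP a4 0 (t * (u⁻¹ : Bˣ))) rfl rfl ?_ rfl)
    simp only
    linear_combination (-(t * y)) * u.inv_mul

end Pool.Agent.H27.WA
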