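import Pool.Agent.H27.WA2

set_option autoImplicit false

namespace Pool.Agent.H27.WA

open PowerSeries

def V (a : GG) (n : ℤ) (g : GG) : Prop := g.d = a.d ^ n ∧
  (d1 a.d = 1 → ∃ w, R w n ∧ g.x = w * a.x) ∧ (d2 a.d = 1 → ∃ w, R w n ∧ g.y = w * a.y) ∧
  (a.d = 1 → a.x = 0 → a.y = 0 → ∃ w, R w n ∧ g.z = w * a.z)

lemma d1_zpow {d : D} (h : d1 d = 1) (n : ℤ) : d1 (d ^ n) = 1 := by
  have : d.1.1 = 1 := Units.ext h
  simp [d1, this]

lemma d2_zpow {d : D} (h : d2 d = 1) (n : ℤ) : d2 (d ^ n) = 1 := by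
  have : d.1.2 = 1 := Units.ext h
  simp [d2, this]

lemma V.zero {a g : GG} {n : ℤ} (h : V a n g) (h1 : a.d = 1) (h2 : a.x = 0) (h3 : a.y = 0) :
    g.d = 1 ∧ g.x = 0 ∧ g.y = 0 := by
  obtain ⟨w, -, a1⟩ := h.2.1 (by simp [h1])
  obtain ⟨w', -, a2⟩ := h.2.2.1 (by simp [h1])
  exact ⟨by simp [h.1, h1], by simp [a1, h2], by simp [a2, h3]⟩

lemma v1 (a : GG) : V a 1 a :=
  ⟨by simp, fun _ => ⟨1, by simpa using R.one, by simp⟩, fun _ => ⟨1, by simpa using R.one, by simp⟩,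
    fun _ _ _ => ⟨1, by simpa using R.one, by simp⟩⟩

lemma v2 (a : GG) (n m : ℤ) (g k : GG) (h : V a n g) (h' : V a m k) : V a (n + m) (g * k) := by
  refine ⟨by simp [mul_def, h.1, h'.1, zpow_add], fun e => ?_, fun e => ?_, fun e1 e2 e3 => ?_⟩
  · obtain ⟨w, a1, a2⟩ := h.2.1 e
    obtain ⟨w', a3, a4⟩ := h'.2.1 e
    exact ⟨w + w', by exact_mod_cast a1.add a3, by
      simp [mul_def, a2, a4, h.1, d1_zpow e, add_mul]⟩
  · obtain ⟨w, a1, a2⟩ := h.2.2.1 e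
    obtain ⟨w', a3, a4⟩ := h'.2.2.1 e
    exact ⟨w + w', by exact_mod_cast a1.add a3, by
      simp [mul_def, a2, a4, h.1, d2_zpow e, add_mul]⟩
  · obtain ⟨w, a1, a2⟩ := h.2.2.2 e1 e2 e3
    obtain ⟨w', a3, a4⟩ := h'.2.2.2 e1 e2 e3
    obtain ⟨b1, b2, b3⟩ := h.zero e1 e2 e3
    exact ⟨w + w', by exact_mod_cast a1.add a3, by simp [mul_def, a2, a4, b1, b2, b3, add_mul]⟩

lemma v3 (a : GG) (n : ℤ) (g : GG) (h : V a n g) : V a (-n) g⁻¹ := by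
  refine ⟨by simp [inv_def, h.1], fun e => ?_, fun e => ?_, fun e1 e2 e3 => ?_⟩
  · obtain ⟨w, a1, a2⟩ := h.2.1 e
    exact ⟨-w, by exact_mod_cast a1.neg, by
      simp only [inv_def, a2, h.1, ← zpow_neg, d1_zpow e]; ring⟩
  · obtain ⟨w, a1, a2⟩ := h.2.2.1 e
    exact ⟨-w, by exact_mod_cast a1.neg, by
      simp only [inv_def, a2, h.1, ← zpow_neg, d2_zpow e]; ring⟩
  · obtain ⟨w, a1, a2⟩ := h.2.2.2 e1 e2 e3
    obtain ⟨b1, b2, b3⟩ := h.zero e1 e2 e3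
    exact ⟨-w, by exact_mod_cast a1.neg, by simp [inv_def, a2, b1]⟩

lemma v4 (a : GG) (n : ℤ) (g k : GG) (h : V a n g) : V a n (k⁻¹ * g * k) := by
  refine ⟨by simp [mul_def, inv_def, h.1], fun e => ?_, fun e => ?_, fun e1 e2 e3 => ?_⟩
  · obtain ⟨w, a1, a2⟩ := h.2.1 e
    exact ⟨d1 k.d⁻¹ * w, by simpa using (r1 _).mul a1, by
      simp only [mul_def, inv_def, a2, h.1, d1_mul, d1_zpow e]; ring⟩
  · obtain ⟨w, a1, a2⟩ := h.2.2.1 e
    exact ⟨d2 k.d⁻¹ * w, by simpa using (r2 _).mul a1, by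
      simp only [mul_def, inv_def, a2, h.1, d2_mul, d2_zpow e]; ring⟩
  · obtain ⟨w, a1, a2⟩ := h.2.2.2 e1 e2 e3
    obtain ⟨b1, b2, b3⟩ := h.zero e1 e2 e3
    exact ⟨d1 k.d⁻¹ * d2 k.d⁻¹ * w, by simpa using ((r1 _).mul (r2 _)).mul a1, by
      simp only [mul_def, inv_def, a2, b1, b2, b3, mul_one]; ring⟩

lemma tors1 {d : D} {n : ℤ} (hn : n ≠ 0) (h : d1 (d ^ n) = 1) : d1 d = 1 := by
  refine (r1 d).tors (Int.natAbs_pos.2 hn) ?_
  rw [← d1_pow]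
  rcases Int.natAbs_eq n with e | e
  · rwa [← zpow_natCast, ← e]
  · have := d1_zpow h (-1)
    rwa [← zpow_mul, e, mul_neg_one, neg_neg, zpow_natCast] at this

lemma tors2 {d : D} {n : ℤ} (hn : n ≠ 0) (h : d2 (d ^ n) = 1) : d2 d = 1 := by
  refine (r2 d).tors (Int.natAbs_pos.2 hn) ?_
  rw [← d2_pow]
  rcases Int.natAbs_eq n with e | e
  · rwa [← zpow_natCast, ← e]
  · have := d2_zpow h (-1)
    rwa [← zpow_mul, e, mul_neg_one, neg_neg, zpow_natCast] at this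

open Classical in
lemma reduce {P : Set GG} (hP : WC P) {a g : GG} {n : ℤ} (hn : n ≠ 0) (h : V a n g) (hg : g ∈ P) :
    ∃ w1 w2 z, R w1 n ∧ R w2 n ∧ (⟨w1 * (if d1 a.d = 1 then a.x else 0),
      w2 * (if d2 a.d = 1 then a.y else 0), z, a.d ^ n⟩ : GG) ∈ P := by
  have h0 : (⟨g.x, g.y, g.z, a.d ^ n⟩ : GG) ∈ P := by rw [← h.1]; exact hg
  have : ∃ w1 z, R w1 n ∧
      (⟨w1 * (if d1 a.d = 1 then a.x else 0), g.y, z, a.d ^ n⟩ : GG) ∈ P := by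
    split_ifs with e
    · obtain ⟨w, a1, a2⟩ := h.2.1 e
      exact ⟨w, _, a1, a2 ▸ h0⟩
    · obtain ⟨z, hz⟩ := killX hP (fun c => e (tors1 hn c)) h0
      exact ⟨_, z, R.const n, by simpa using hz⟩
  obtain ⟨w1, z, b1, b2⟩ := this
  by_cases e : d2 a.d = 1
  · obtain ⟨w, a1, a2⟩ := h.2.2.1 e
    exact ⟨w1, w, z, b1, a1, by rw [if_pos e, ← a2]; exact b2⟩
  · obtain ⟨z, hz⟩ := killY hP (fun c => e (tors2 hn c)) b2
    exact ⟨w1, _, z, b1, R.const n, by rw [if_neg e, mul_zero]; exact hz⟩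

lemma key (P : Set GG) (hP : WC P) (a : GG) (ha : a ≠ 1) (n m : ℤ) (g k : GG) (hn : 0 < n)
    (hm : m < 0) (h : V a n g) (h' : V a m k) (hg : g ∈ P) (hk : k ∈ P) : False := by
  classical
  lift n to ℕ using hn.le
  obtain ⟨m, rfl⟩ : ∃ j : ℕ, m = -j := ⟨m.natAbs, by omega⟩
  have hn' : 0 < n := by omega
  have hm' : 0 < m := by omega
  have n0 : (((n : ℤ) : ℚ)) ≠ 0 := by exact_mod_cast hn'.ne'
  have m0 : (((-m : ℤ) : ℚ)) ≠ 0 := by exact_mod_cast hm.ne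
  by_cases h0 : a.d = 1 ∧ a.x = 0 ∧ a.y = 0
  · obtain ⟨e1, e2, e3⟩ := h0
    obtain ⟨w, a1, a2⟩ := h.2.2.2 e1 e2 e3
    obtain ⟨w', a3, a4⟩ := h'.2.2.2 e1 e2 e3
    obtain ⟨b1, b2, b3⟩ := h.zero e1 e2 e3
    obtain ⟨b4, b5, b6⟩ := h'.zero e1 e2 e3
    have c1 := opZ hP (mem_eq hP (k := ⟨0, 0, _, 1⟩) hg b2 b3 a2 b1) hm' (p := -w')
      (by simpa using a3.neg)
    have c2 := opZ hP (mem_eq hP (k := ⟨0, 0, _, 1⟩) hk b5 b6 a4 b4) hn' (p := w)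
      (by simpa using a1)
    have := congrArg GG.z (hP.pure _ c2 (mem_eq hP c1 (by simp [inv_def]) (by simp [inv_def])
      (by simp [inv_def]; ring) (by simp [inv_def])))
    exact mul_ne_zero (a1.ne n0) (mul_ne_zero (a3.ne m0) fun e => ha (GG.ext e2 e3 e e1)) this
  obtain ⟨w1, w2, z, a1, a2, a3⟩ := reduce hP hn.ne' h hg
  obtain ⟨u1, u2, z', b1, b2, b3⟩ := reduce hP hm.ne h' hk
  set x := if d1 a.d = 1 then a.x else 0 with hx
  set y := if d2 a.d = 1 then a.y else 0 with hy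
  have fx : ∀ (j : ℤ) (w : B), d1 (a.d ^ j) * (w * x) = w * x := by
    intro j w
    rw [hx]; split_ifs with e
    · rw [d1_zpow e, one_mul]
    · simp
  have fy : ∀ (j : ℤ) (w : B), d2 (a.d ^ j) * (w * y) = w * y := by
    intro j w
    rw [hy]; split_ifs with e
    · rw [d2_zpow e, one_mul]
    · simp
  obtain ⟨ζ, c1⟩ := opXY hP (fx _ _) (fy _ _) a3 hm' (p := -u1) (q := -u2)
    (by simpa using b1.neg) (by simpa using b2.neg)
  obtain ⟨ζ', c2⟩ := opXY hP (fx _ _) (fy _ _) b3 hn' (p := w1) (q := w2)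
    (by simpa using a1) (by simpa using a2)
  rw [← zpow_natCast, ← zpow_mul] at c1 c2
  have j0 : (-m : ℤ) * (2 * n : ℕ) ≠ 0 := mul_ne_zero hm.ne (by omega)
  rw [show (n : ℤ) * (2 * m : ℕ) = -(-m * (2 * n : ℕ)) by push_cast; ring,
    show 2 * -u1 * (w1 * x) = -(2 * w1 * u1 * x) by ring,
    show 2 * -u2 * (w2 * y) = -(2 * w2 * u2 * y) by ring] at c1
  rw [← mul_assoc, ← mul_assoc] at c2
  generalize (-m : ℤ) * (2 * n : ℕ) = j at c1 c2 j0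
  by_cases hd : a.d = 1
  · rw [hd, one_zpow] at c1 c2
    refine caseN hP ?_ c2 c1
    rw [hx, hy, hd, if_pos d1_one, if_pos d2_one]
    by_contra hc
    push Not at hc
    have t2 : (2 : B) ≠ 0 := by
      have := (R.one.add R.one).ne (by norm_num)
      rwa [one_add_one_eq_two] at this
    refine h0 ⟨hd, ?_, ?_⟩
    · simpa [a1.ne n0, b1.ne m0, t2] using hc.1
    · simpa [a2.ne n0, b2.ne m0, t2] using hc.2
  have hd' : d1 a.d ≠ 1 ∨ d2 a.d ≠ 1 := by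
    by_contra hc
    push Not at hc
    exact hd (d_ext hc.1 hc.2)
  have inv12 : d1 (a.d ^ (-j)) * d2 (a.d ^ (-j)) * (d1 (a.d ^ j) * d2 (a.d ^ j)) = 1 := by
    rw [zpow_neg]
    linear_combination d2 (a.d ^ j)⁻¹ * d2 (a.d ^ j) * d1_inv (a.d ^ j) + d2_inv (a.d ^ j)
  by_cases he : d1 (a.d ^ j) * d2 (a.d ^ j) = 1
  · have p1 : d1 a.d ≠ 1 := fun e => hd'.elim (fun c => c e) fun c =>
      c (tors2 j0 (by rwa [d1_zpow e, one_mul] at he))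
    have p2 : d2 a.d ≠ 1 := fun e => p1 (tors1 j0 (by rwa [d2_zpow e, mul_one] at he))
    rw [hx, hy, if_neg p1, if_neg p2, mul_zero, mul_zero] at c1 c2
    rw [neg_zero] at c1
    have q1 := killZ2 hP (by rwa [he, mul_one] at inv12)
      (fun e => p1 (tors1 (neg_ne_zero.2 j0) e)) c1
    have q2 := killZ2 hP he (fun e => p1 (tors1 j0 e)) c2
    have := congrArg GG.d (hP.pure _ q2 (mem_eq hP q1 (by simp [inv_def]) (by simp [inv_def])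
      (by simp [inv_def]) (by simp [inv_def])))
    refine p1 (tors1 (n := j + j) (by omega) ?_)
    rw [zpow_add]
    exact congrArg d1 this
  · have z0 : x = 0 ∨ y = 0 := hd'.imp (fun e => if_neg e) fun e => if_neg e
    have q1 := killZ hP (z0.imp (fun e => by simp [e]) fun e => by simp [e])
      (fun e => he (by rwa [e, one_mul] at inv12)) c1
    have q2 := killZ hP (z0.imp (fun e => by simp [e]) fun e => by simp [e]) he c2
    have := congrArg GG.d (hP.pure _ q2 (mem_eq hP q1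
      (by simp only [inv_def, ← zpow_neg, fx]) (by simp only [inv_def, ← zpow_neg, fy])
      (by simp [inv_def]) (by simp [inv_def])))
    exact he (by rw [show a.d ^ j = 1 from this]; simp)

theorem total {P0 : Set GG} (h0 : WC P0) : ∃ P, WC P ∧ P0 ⊆ P ∧ ∀ a, a ∈ P ∨ a⁻¹ ∈ P :=
  exists_total V v1 v2 v3 v4 key h0

def P0 : Set GG := {g | g = 1 ∨ g.d = 1 ∧ constantCoeff g.x = 0 ∧ constantCoeff g.y = 0 ∧
  0 < constantCoeff g.z}

lemma P0_mul : ∀ a ∈ P0, ∀ b ∈ P0, a * b ∈ P0 := by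
  rintro a (rfl | ⟨h1, h2, h3, h4⟩) b hb
  · simpa using hb
  rcases hb with rfl | ⟨h5, h6, h7, h8⟩
  · exact Or.inr (by simpa using ⟨h1, h2, h3, h4⟩)
  · exact Or.inr (by simpa [mul_def, h1, h2, h3, h5, h6, h7] using add_pos h4 h8)

lemma P0_pure : ∀ a ∈ P0, a⁻¹ ∈ P0 → a = 1 := by
  rintro a (rfl | ⟨h1, h2, h3, h4⟩) hb
  · rfl
  rcases hb with hb | ⟨-, -, -, h8⟩
  · exact inv_eq_one.1 hb
  · simp [inv_def, h1] at h8
    exact absurd h4 h8.not_gt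

lemma P0_conj : ∀ a ∈ P0, ∀ x : GG, x⁻¹ * a * x ∈ P0 := by
  rintro a (rfl | ⟨h1, h2, h3, h4⟩) x
  · exact Or.inl (by simp)
  · refine Or.inr ⟨by simp [mul_def, inv_def, h1], by simp [mul_def, inv_def, h1, h2],
      by simp [mul_def, inv_def, h1, h3], ?_⟩
    have := mul_pos (cpos x.d⁻¹) h4
    simp [mul_def, inv_def, h1, h2, h3]
    linarith

lemma not_ext (Q : Set GG) (h0 : P0 ⊆ Q) (h1 : ∀ a ∈ Q, ∀ b ∈ Q, a * b ∈ Q)
    (h2 : ∀ a ∈ Q, a⁻¹ ∈ Q → a = 1) (h3 : ∀ a ∈ Q, ∀ x : GG, x⁻¹ * a * x ∈ Q)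
    (h4 : ∀ a : GG, a ∈ Q ∨ a⁻¹ ∈ Q) : False := by
  obtain ⟨e, e1, e2⟩ := exD (R.lin (-1)) (R.lin (-1)) (by simp)
  have key : ∀ s : ℚ, s ≠ 0 → (⟨C s, 0, 0, 1⟩ : GG) ∈ Q → False := by
    intro s hs h
    have a := h1 _ (h3 _ h ⟨0, C s, 0, 1⟩⁻¹) _ (h3 _ h ⟨0, 0, 0, e⟩⁻¹)
    have := congrArg (fun g => constantCoeff (GG.z g)) (h2 _ a (h0 (Or.inr ?_)))
    · simp [mul_def, inv_def, one_def, e1, hs] at this
    · simp [mul_def, inv_def, e1, hs]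
  rcases h4 ⟨C 1, 0, 0, 1⟩ with h | h
  · exact key 1 one_ne_zero h
  · exact key (-1) (by norm_num) (by simpa [inv_def] using h)

end Pool.Agent.H27.WA
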